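import Pool.Statements.S00004
import Pool.Agent.H852Z.Jou.Aut

set_option autoImplicit false
open AlgebraicGeometry CategoryTheory
open Pool Pool.MP_00f3b1_ag

namespace Pool.Agent.S00004

open Pool.Agent.H852Z.Jou

noncomputable abbrev RR : CommRingCat := CommRingCat.of (RZ ℂ)

noncomputable def str : Spec RR ⟶ Spec (CommRingCat.of ℂ) :=
  Spec.map (CommRingCat.ofHom (algebraMap ℂ (RZ ℂ)))

noncomputable def pt (a : RZ ℂ →ₐ[ℂ] ℂ) :
    {p : Spec (CommRingCat.of ℂ) ⟶ Spec RR // p ≫ str = 𝟙 _} :=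
  ⟨Spec.map (CommRingCat.ofHom a.toRingHom), by
    rw [str, ← Spec.map_comp, ← Spec.map_id]
    congr 1
    ext x
    simp⟩

lemma pt_inj : Function.Injective pt := by
  intro a b h
  have h1 := Spec.map_injective (congrArg Subtype.val h)
  ext x
  exact congrArg (fun f : RR ⟶ CommRingCat.of ℂ => f.hom x) h1

lemma pt_surj : Function.Surjective pt := by
  rintro ⟨p, hp⟩
  obtain ⟨q, rfl⟩ := Spec.map_surjective p
  rw [str, ← Spec.map_comp, ← Spec.map_id] at hp
  have h1 := Spec.map_injective hp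
  refine ⟨⟨q.hom, fun r => ?_⟩, rfl⟩
  exact congrArg (fun f : CommRingCat.of ℂ ⟶ CommRingCat.of ℂ => f.hom r) h1

/-- The negation of the preceding statement: Over an algebraically closed field of characteristic 0: an integral quasi-affine variety of dimension ≥2, homogeneous under its automorphisms and with only constant units, has automorphism group acting m-transitively on points for every m. -/
theorem result :
    ¬ (∀ (K : Type) [Field K] [IsAlgClosed K] [CharZero K]
      (X : Scheme.{0}) (f : X ⟶ Spec (CommRingCat.of K)),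
      IsIntegral X → LocallyOfFiniteType f → QuasiCompact f →
      IsOpenImmersion X.toSpecΓ →
      (2 : WithBot ℕ∞) ≤ topologicalKrullDim X →
      (∀ u : (Γ(X, ⊤))ˣ, ∃ c : K,
        ((Scheme.ΓSpecIso (CommRingCat.of K)).inv ≫ f.appTop).hom c = (u : Γ(X, ⊤))) →
      (∀ p q : {p : Spec (CommRingCat.of K) ⟶ X // p ≫ f = 𝟙 _},
        ∃ g : X ≅ X, g.hom ≫ f = f ∧ p.1 ≫ g.hom = q.1) →
      ∀ (m : ℕ) (p q : Fin m → {p : Spec (CommRingCat.of K) ⟶ X // p ≫ f = 𝟙 _}),
        Function.Injective p → Function.Injective q →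
        ∃ g : X ≅ X, g.hom ≫ f = f ∧ ∀ i, (p i).1 ≫ g.hom = (q i).1) := by
  intro H
  have hl : line (zO ℂ) 1 0 ≠ line (zO ℂ) 1 1 := by
    intro h
    have := congrFun (congrFun (congrArg Z.B h) 0) 0
    simp [line, Z.setB] at this
  have hq : zO ℂ ≠ zT ℂ := by
    intro h
    have := congrArg Z.pt h
    rw [zO_pt, zT_pt] at this
    exact T1_ne_zero this.symm
  have inj2 : ∀ {a b : Z ℂ}, a ≠ b → Function.Injective ![pt (ev a), pt (ev b)] := by
    intro a b hab i j hij
    fin_cases i <;> fin_cases j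
    · rfl
    · exact (hab (ev_injective (pt_inj hij))).elim
    · exact (hab (ev_injective (pt_inj hij)).symm).elim
    · rfl
  obtain ⟨g, hg, hi⟩ := H ℂ (Spec RR) str inferInstance
    (by
      rw [str, HasRingHomProperty.Spec_iff (P := @LocallyOfFiniteType)]
      exact RingHom.finiteType_algebraMap.mpr inferInstance)
    inferInstance inferInstance
    (by
      have := two_le_dim (K := ℂ)
      rw [← PrimeSpectrum.topologicalKrullDim_eq_ringKrullDim] at this
      exact this)
    (by
      intro u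
      obtain ⟨c, hc⟩ := unit_const ((Scheme.ΓSpecIso RR).hom.hom u) (u.isUnit.map _)
      refine ⟨c, ?_⟩
      rw [str, ← Scheme.ΓSpecIso_inv_naturality]
      show (Scheme.ΓSpecIso RR).inv.hom (algebraMap ℂ (RZ ℂ) c) = _
      rw [hc]
      exact (Scheme.ΓSpecIso RR).hom_inv_id_apply _)
    (by
      intro p q
      obtain ⟨a, rfl⟩ := pt_surj p
      obtain ⟨b, rfl⟩ := pt_surj q
      obtain ⟨e, he⟩ := alg_transitive a b
      refine ⟨Scheme.Spec.mapIso (e.toRingEquiv.toCommRingCatIso).op, ?_, ?_⟩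
      · show Spec.map (CommRingCat.ofHom e.toRingEquiv.toRingHom) ≫ str = str
        rw [str, ← Spec.map_comp]
        congr 1
        ext x
        simp
      · show Spec.map _ ≫ Spec.map (CommRingCat.ofHom e.toRingEquiv.toRingHom) = Spec.map _
        rw [← Spec.map_comp, ← he]
        rfl)
    2 _ _ (inj2 hl) (inj2 hq)
  obtain ⟨φ, hφ⟩ := Spec.map_surjective g.hom
  rw [← hφ, str, ← Spec.map_comp] at hg
  have h1 := Spec.map_injective hg
  let phi : RZ ℂ →ₐ[ℂ] RZ ℂ := ⟨φ.hom, fun r =>
    congrArg (fun f : CommRingCat.of ℂ ⟶ RR => f.hom r) h1⟩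
  have key : ∀ {a b : RZ ℂ →ₐ[ℂ] ℂ}, (pt a).1 ≫ g.hom = (pt b).1 → a.comp phi = b := by
    intro a b h
    rw [← hφ] at h
    have h2 : Spec.map (φ ≫ CommRingCat.ofHom a.toRingHom) =
        Spec.map (CommRingCat.ofHom b.toRingHom) := by
      rw [Spec.map_comp]
      exact h
    have h3 := Spec.map_injective h2
    ext x
    exact congrArg (fun f : RR ⟶ CommRingCat.of ℂ => f.hom x) h3
  have := not_two phi 1 (key (hi 0)) (key (hi 1))
  rw [zO_pt, zT_pt] at this
  exact T1_ne_zero this.symm

end Pool.Agent.S00004
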