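import Pool.Statements.S00062
import Pool.Agent.H353Z.PDMain

set_option autoImplicit false
open Pool Pool.MP_1cfa24_ag

namespace Pool.Agent.S00062

open Pool.Agent.H353Z.PD

theorem cover_iff {S : Type} [CommRing S] [IsNoetherianRing S] (J : Ideal S) :
    ((∃ (m : ℕ) (f : (Fin m → S) →ₗ[S] ↥J), Function.Surjective f ∧
        Module.Projective S ↥(LinearMap.ker f)) ∧ ¬ Module.Projective S ↥J) ↔
      (PDle S J 1 ∧ ¬ PDle S J 0) := by
  rw [pd_zero_iff]
  refine and_congr_left fun _ => ⟨?_, ?_⟩
  · rintro ⟨m, f, hf, hp⟩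
    exact pd_right (LinearMap.ker f).subtype f (LinearMap.ker f).injective_subtype hf
      (LinearMap.exact_subtype_ker_map f) 0 (pd_zero_iff.2 hp) (pd_of_projective 1)
  · intro h
    obtain ⟨m, f, hf⟩ := Module.Finite.exists_fin' S J
    exact ⟨m, f, hf, pd_zero_iff.1 (pd_left (LinearMap.ker f).subtype f
      (LinearMap.ker f).injective_subtype hf (LinearMap.exact_subtype_ker_map f) 0
      (pd_of_projective 0) h)⟩

/-- The negation of the preceding statement: For a homogeneous ideal Q of a polynomial ring over a field: if pd Q = 1 and pd Q^t = 1 for all large t, then pd Q^t = 1 for every t ≥ 1 (pd = 1 means a finite free cover with projective kernel exists and the module is not projective). -/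
theorem result :
    ¬ (∀ (k : Type) [Field k] (n : ℕ) (Q : Ideal (MvPolynomial (Fin n) k)),
      (∃ s : Set (MvPolynomial (Fin n) k),
          (∀ p ∈ s, ∃ d : ℕ, MvPolynomial.IsHomogeneous p d) ∧ Q = Ideal.span s) →
      ((∃ (m : ℕ) (f : (Fin m → MvPolynomial (Fin n) k) →ₗ[MvPolynomial (Fin n) k] ↥Q),
            Function.Surjective f ∧
              Module.Projective (MvPolynomial (Fin n) k) ↥(LinearMap.ker f)) ∧
          ¬ Module.Projective (MvPolynomial (Fin n) k) ↥Q) →
      (∃ t₀ : ℕ, ∀ t : ℕ, t₀ ≤ t →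
          (∃ (m : ℕ) (f : (Fin m → MvPolynomial (Fin n) k) →ₗ[MvPolynomial (Fin n) k] ↥(Q ^ t)),
              Function.Surjective f ∧
                Module.Projective (MvPolynomial (Fin n) k) ↥(LinearMap.ker f)) ∧
            ¬ Module.Projective (MvPolynomial (Fin n) k) ↥(Q ^ t)) →
      ∀ t : ℕ, 1 ≤ t →
        (∃ (m : ℕ) (f : (Fin m → MvPolynomial (Fin n) k) →ₗ[MvPolynomial (Fin n) k] ↥(Q ^ t)),
            Function.Surjective f ∧
              Module.Projective (MvPolynomial (Fin n) k) ↥(LinearMap.ker f)) ∧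
          ¬ Module.Projective (MvPolynomial (Fin n) k) ↥(Q ^ t)) := by
  intro h
  obtain ⟨n, s, hs⟩ := Pool.Agent.H353Z.PDMain.main (fun t => if t = 2 then 2 else 1) 3
    (fun t ht => by simp; omega) (fun t _ => by split_ifs <;> omega)
  have key := h ℚ n (Ideal.span ((fun e => MvPolynomial.monomial e (1 : ℚ)) '' s))
    ⟨_, by
      rintro p ⟨e, -, rfl⟩
      exact ⟨_, MvPolynomial.isHomogeneous_monomial _ rfl⟩, rfl⟩
    (by
      rw [cover_iff]
      have h1 := hs 1 le_rfl 1
      have h0 := hs 1 le_rfl 0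
      rw [pow_one] at h1 h0
      rw [h1, h0]
      simp)
    ⟨3, fun t ht => by
      rw [cover_iff, hs t (by omega), hs t (by omega), if_neg (by omega)]
      simp⟩ 2 (by omega)
  rw [cover_iff, hs 2 (by omega)] at key
  simp at key

end Pool.Agent.S00062
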