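import Pool.Statements.S00086

set_option autoImplicit false
open Pool Pool.MP_26e61c_ag

namespace Pool.Agent.S00086

/-- indicator of the allowed values at each leaf -/
def ind (i : Fin 4) (h : ZMod 8) : ℤ :=
  if (i = 0 ∧ (h = 0 ∨ h = 1 ∨ h = 2)) ∨ (i = 1 ∧ (h = 0 ∨ h = 1 ∨ h = 4)) ∨
    (i = 2 ∧ (h = 0 ∨ h = 1 ∨ h = 5)) ∨ (i = 3 ∧ (h = 0 ∨ h = 4 ∨ h = 6)) then 1 else 0

/-- the test point -/
def pt (g : Fin 4 → ZMod 8) : ℤ :=
  (if g 0 = 2 ∧ g 1 = 1 ∧ g 2 = 5 then -1 else 1) * (ind 0 (g 0) * ind 1 (g 1) * ind 2 (g 2) * ind 3 (g 3))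

/-- parameters on the inner edge -/
def inn (A : Finset (Fin 4)) (h : ZMod 8) : ℤ :=
  if A = {0, 1} then (if h = 3 ∨ h = 4 then -1 else 1)
  else if A = {2, 3} then (if h = 5 ∨ h = 4 then -1 else 1)
  else if A = {0, 2} then (if h = 7 then -1 else 1)
  else if A = {1, 3} then (if h = 1 then -1 else 1)
  else if A = {0, 3} then (if h = 2 then -1 else 1)
  else (if h = 6 then -1 else 1)

/-- parameters on the leaves -/
def lf (A : Finset (Fin 4)) (i : Fin 4) (h : ZMod 8) : ℤ :=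
  if (A = {0, 1} ∨ A = {2, 3}) ∧ i = 3 ∧ h = 4 then -1 else ind i h

def par (A : Finset (Fin 4)) : Option (Fin 4) × ZMod 8 → ℤ
  | (none, h) => inn A h
  | (some i, h) => lf A i h

theorem cases_A (A : Finset (Fin 4)) (h1 : 2 ≤ A.card) (h2 : A.card + 2 ≤ 4) :
    A = {0, 1} ∨ A = {2, 3} ∨ A = {0, 2} ∨ A = {1, 3} ∨ A = {0, 3} ∨ A = {1, 2} := by
  revert A
  decide

theorem k1 : ∀ a b c d : ZMod 8, a + b + c + d = 0 →
    inn {0, 1} (a + b) * (lf {0, 1} 0 a * lf {0, 1} 1 b * lf {0, 1} 2 c * lf {0, 1} 3 d)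
      = pt ![a, b, c, d] := by decide +kernel
theorem k2 : ∀ a b c d : ZMod 8, a + b + c + d = 0 →
    inn {2, 3} (c + d) * (lf {2, 3} 0 a * lf {2, 3} 1 b * lf {2, 3} 2 c * lf {2, 3} 3 d)
      = pt ![a, b, c, d] := by decide +kernel
theorem k3 : ∀ a b c d : ZMod 8, a + b + c + d = 0 →
    inn {0, 2} (a + c) * (lf {0, 2} 0 a * lf {0, 2} 1 b * lf {0, 2} 2 c * lf {0, 2} 3 d)
      = pt ![a, b, c, d] := by decide +kernel
theorem k4 : ∀ a b c d : ZMod 8, a + b + c + d = 0 →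
    inn {1, 3} (b + d) * (lf {1, 3} 0 a * lf {1, 3} 1 b * lf {1, 3} 2 c * lf {1, 3} 3 d)
      = pt ![a, b, c, d] := by decide +kernel
theorem k5 : ∀ a b c d : ZMod 8, a + b + c + d = 0 →
    inn {0, 3} (a + d) * (lf {0, 3} 0 a * lf {0, 3} 1 b * lf {0, 3} 2 c * lf {0, 3} 3 d)
      = pt ![a, b, c, d] := by decide +kernel
theorem k6 : ∀ a b c d : ZMod 8, a + b + c + d = 0 →
    inn {1, 2} (b + c) * (lf {1, 2} 0 a * lf {1, 2} 1 b * lf {1, 2} 2 c * lf {1, 2} 3 d)
      = pt ![a, b, c, d] := by decide +kernel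

theorem pt_eta (g : Fin 4 → ZMod 8) : pt ![g 0, g 1, g 2, g 3] = pt g := by
  simp [pt]

theorem key (A : Finset (Fin 4)) (h1 : 2 ≤ A.card) (h2 : A.card + 2 ≤ 4) (g : Fin 4 → ZMod 8)
    (hg : ∑ i, g i = 0) :
    par A (none, ∑ i ∈ A, g i) * ∏ i, par A (some i, g i) = pt g := by
  rw [Fin.sum_univ_four] at hg
  rw [Fin.prod_univ_four, ← pt_eta]
  simp only [par]
  rcases cases_A A h1 h2 with rfl | rfl | rfl | rfl | rfl | rfl
  · rw [Finset.sum_pair (by decide)]; exact k1 _ _ _ _ hg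
  · rw [Finset.sum_pair (by decide)]; exact k2 _ _ _ _ hg
  · rw [Finset.sum_pair (by decide)]; exact k3 _ _ _ _ hg
  · rw [Finset.sum_pair (by decide)]; exact k4 _ _ _ _ hg
  · rw [Finset.sum_pair (by decide)]; exact k5 _ _ _ _ hg
  · rw [Finset.sum_pair (by decide)]; exact k6 _ _ _ _ hg

abbrev Fl : Type := {g : Fin 4 → ZMod 8 // ∑ i, g i = 0}

def f1 : Fl := ⟨![0, 0, 0, 0], by decide⟩
def f2 : Fl := ⟨![1, 4, 5, 6], by decide⟩
def f3 : Fl := ⟨![2, 1, 1, 4], by decide⟩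
def f4 : Fl := ⟨![0, 4, 0, 4], by decide⟩
def f5 : Fl := ⟨![1, 0, 1, 6], by decide⟩
def f6 : Fl := ⟨![2, 1, 5, 0], by decide⟩

open MvPolynomial in
/-- The negation of the preceding statement. -/
theorem result :
    ¬ (∀ (G : Type) [AddCommGroup G] [Fintype G] (n : ℕ), 4 ≤ n →
      ∀ f : MvPolynomial {g : Fin n → G // ∑ i, g i = 0} ℂ,
        f ∈ RingHom.ker (MvPolynomial.aeval (R := ℂ)
          (fun g : {g : Fin n → G // ∑ i, g i = 0} =>
            (∏ i, MvPolynomial.X (some i, g.1 i) :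
              MvPolynomial (Option (Fin n) × G) ℂ))) →
        ∃ k : ℕ, ∀ h ∈ (Ideal.span (Set.range
            (MvPolynomial.X : {g : Fin n → G // ∑ i, g i = 0} →
              MvPolynomial {g : Fin n → G // ∑ i, g i = 0} ℂ))) ^ k,
          h * f ∈ ⨆ A : {A : Finset (Fin n) // 2 ≤ A.card ∧ A.card + 2 ≤ n},
            RingHom.ker (MvPolynomial.aeval (R := ℂ)
              (fun g : {g : Fin n → G // ∑ i, g i = 0} =>
                (MvPolynomial.X (none, ∑ i ∈ A.1, g.1 i) *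
                  ∏ i, MvPolynomial.X (some i, g.1 i) :
                  MvPolynomial (Option (Fin n) × G) ℂ)))) := by
  intro H
  obtain ⟨k, hk⟩ := H (ZMod 8) 4 le_rfl (X f1 * X f2 * X f3 - X f4 * X f5 * X f6) (by
    rw [RingHom.mem_ker]
    simp only [map_sub, map_mul, aeval_X, Fin.prod_univ_four, f1, f2, f3, f4, f5, f6]
    simp
    ring)
  have hm := hk (X f1 ^ k) (Ideal.pow_mem_pow (Ideal.subset_span (Set.mem_range_self f1)) k)
  let ev : MvPolynomial Fl ℂ →ₐ[ℂ] ℂ := aeval (fun g : Fl => ((pt g.1 : ℤ) : ℂ))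
  have hle : (⨆ A : {A : Finset (Fin 4) // 2 ≤ A.card ∧ A.card + 2 ≤ 4},
            RingHom.ker (MvPolynomial.aeval (R := ℂ)
              (fun g : Fl =>
                (MvPolynomial.X (none, ∑ i ∈ A.1, g.1 i) *
                  ∏ i, MvPolynomial.X (some i, g.1 i) :
                  MvPolynomial (Option (Fin 4) × ZMod 8) ℂ)))) ≤ RingHom.ker ev := by
    refine iSup_le fun A => ?_
    intro q hq
    rw [RingHom.mem_ker] at hq ⊢
    have hcomp : ev = (aeval (fun v => ((par A.1 v : ℤ) : ℂ))).comp (MvPolynomial.aeval (R := ℂ)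
              (fun g : Fl =>
                (MvPolynomial.X (none, ∑ i ∈ A.1, g.1 i) *
                  ∏ i, MvPolynomial.X (some i, g.1 i) :
                  MvPolynomial (Option (Fin 4) × ZMod 8) ℂ))) := by
      apply MvPolynomial.algHom_ext
      intro g
      simp only [ev, AlgHom.comp_apply, aeval_X, map_mul, map_prod]
      rw [← key A.1 A.2.1 A.2.2 g.1 g.2]
      push_cast
      rfl
    rw [hcomp, AlgHom.comp_apply, hq, map_zero]
  have h0 := hle hm
  rw [RingHom.mem_ker] at h0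
  have e1 : pt f1.1 = 1 := by decide
  have e2 : pt f2.1 = 1 := by decide
  have e3 : pt f3.1 = 1 := by decide
  have e4 : pt f4.1 = 1 := by decide
  have e5 : pt f5.1 = 1 := by decide
  have e6 : pt f6.1 = -1 := by decide
  simp only [ev, map_mul, map_pow, map_sub, aeval_X, e1, e2, e3, e4, e5, e6] at h0
  norm_num at h0

end Pool.Agent.S00086
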