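import Pool.Statements.S00100
import Pool.Agent.H651Z.PD.Main

set_option autoImplicit false
open Pool Pool.MP_2cc7f8_ag

namespace Pool.Agent.S00100

/-- The negation of the preceding statement: For each d there is a constant C such that, over any field and any polynomial ring, n forms of degree at most d generate an ideal I with R/I having a projective resolution of length at most C·n^d. -/
theorem result :
    ¬ (∀ d : ℕ, ∃ C : ℕ, ∀ (K : Type) [Field K] (N n : ℕ)
      (f : Fin n → MvPolynomial (Fin N) K),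
      (∀ i, ∃ k, k ≤ d ∧ (f i).IsHomogeneous k) →
      ∃ P : CategoryTheory.ProjectiveResolution
          (ModuleCat.of (MvPolynomial (Fin N) K)
            (MvPolynomial (Fin N) K ⧸ Ideal.span (Set.range f))),
        ∀ i : ℕ, C * n ^ d < i → CategoryTheory.Limits.IsZero (P.complex.X i)) := by
  intro h
  obtain ⟨C, hC⟩ := h 2
  obtain ⟨N, f, hf, -, hpd⟩ := Pool.Agent.H651Z.PD.main (36 * C + 1)
  obtain ⟨P, hP⟩ := hC ℚ N _ f (fun i => ⟨2, le_rfl, hf i⟩)
  refine hpd _ ?_ (Pool.Agent.H651Z.PD.pd_of_resolution _ P _ hP)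
  have h1 : (4 * (36 * C + 1) + 2) ^ 2 ≤ 36 * (36 * C + 1) ^ 2 := by
    calc (4 * (36 * C + 1) + 2) ^ 2 ≤ (6 * (36 * C + 1)) ^ 2 := Nat.pow_le_pow_left (by omega) 2
      _ = 36 * (36 * C + 1) ^ 2 := by ring
  have h2 : 0 < (36 * C + 1) ^ 2 := by positivity
  calc C * (4 * (36 * C + 1) + 2) ^ 2 ≤ C * (36 * (36 * C + 1) ^ 2) := Nat.mul_le_mul_left _ h1
    _ < (36 * C + 1 + 1) * (36 * C + 1) ^ 2 := by nlinarith

end Pool.Agent.S00100
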