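import Pool.Statements.S00136
import Pool.Agent.H721Z.FC.Main

set_option autoImplicit false
open Pool Pool.MP_373bb8_ag

namespace Pool.Agent.S00136

/-- The negation of the preceding statement: For a Noetherian equidimensional local ring R of characteristic p and a non-zero-divisor x in its maximal ideal: if every ideal of R/xR generated by a full system of parameters is Frobenius closed, then the same holds in R. -/
theorem result :
    ¬ (∀ (p : ℕ) [Fact p.Prime] (R : Type) [CommRing R] [IsNoetherianRing R] [IsLocalRing R]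
      [CharP R p] (x : R),
      x ∈ IsLocalRing.maximalIdeal R →
      x ∈ nonZeroDivisors R →
      (∀ P ∈ minimalPrimes R, ringKrullDim (R ⧸ P) = ringKrullDim R) →
      (∀ (n : ℕ) (y : Fin n → R ⧸ Ideal.span {x}),
          (n : WithBot ℕ∞) = ringKrullDim (R ⧸ Ideal.span {x}) →
          (Ideal.span (Set.range y)).radical.IsMaximal →
          ∀ r : R ⧸ Ideal.span {x},
            (∃ e : ℕ, r ^ (p ^ e) ∈ Ideal.span ((fun a => a ^ (p ^ e)) ''
              ((Ideal.span (Set.range y) : Ideal (R ⧸ Ideal.span {x})) :
                Set (R ⧸ Ideal.span {x})))) →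
            r ∈ Ideal.span (Set.range y)) →
      (∀ (n : ℕ) (y : Fin n → R),
          (n : WithBot ℕ∞) = ringKrullDim R →
          (Ideal.span (Set.range y)).radical.IsMaximal →
          ∀ r : R,
            (∃ e : ℕ, r ^ (p ^ e) ∈ Ideal.span ((fun a => a ^ (p ^ e)) ''
              ((Ideal.span (Set.range y) : Ideal R) : Set R))) →
            r ∈ Ideal.span (Set.range y))) := by
  intro h
  exact H721Z.FC.rho_notMem (h 2 H721Z.FC.R (H721Z.FC.pr (MvPolynomial.X 2))
    ((H721Z.FC.pr_mem_max _).2 (by simp)) H721Z.FC.Y_nzd H721Z.FC.equidim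
    (fun _ _ _ _ r hr => hr.elim fun e he => H721Z.FC.quot_closed _ r e he)
    4 (fun j => H721Z.FC.pr (H721Z.FC.par j)) H721Z.FC.dim_eq.symm
    (by rw [H721Z.FC.par_radical]; infer_instance) _ ⟨1, H721Z.FC.frob_mem⟩)

end Pool.Agent.S00136
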