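import Pool.Statements.S00157
import Pool.Agent.H388Z.QT.Model

set_option autoImplicit false
open Pool Pool.MP_426531_ag

namespace Pool.Agent.S00157

open Pool.Agent.H388Z.QT

/-- For all n ≥ 2 and primitive n-th roots ζ, the cyclic algebra over C(u,v) with x^n=u, y^n=v, xy=ζyx contains a field over C of transcendence degree 1 that is not C-isomorphic to C(t). -/
theorem result :
    ∀ (n : ℕ), 2 ≤ n → ∀ ζ : ℂ, IsPrimitiveRoot ζ n →
      ∃ (L : Type) (_ : Field L) (_ : Algebra ℂ L)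
        (f : L →ₐ[ℂ] RingQuot
          (fun a b : FreeAlgebra (FractionRing (MvPolynomial (Fin 2) ℂ)) (Fin 2) =>
            (a = FreeAlgebra.ι (FractionRing (MvPolynomial (Fin 2) ℂ)) (0 : Fin 2) ^ n ∧
              b = algebraMap (FractionRing (MvPolynomial (Fin 2) ℂ))
                    (FreeAlgebra (FractionRing (MvPolynomial (Fin 2) ℂ)) (Fin 2))
                    (algebraMap (MvPolynomial (Fin 2) ℂ) (FractionRing (MvPolynomial (Fin 2) ℂ))
                      (MvPolynomial.X (0 : Fin 2)))) ∨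
            (a = FreeAlgebra.ι (FractionRing (MvPolynomial (Fin 2) ℂ)) (1 : Fin 2) ^ n ∧
              b = algebraMap (FractionRing (MvPolynomial (Fin 2) ℂ))
                    (FreeAlgebra (FractionRing (MvPolynomial (Fin 2) ℂ)) (Fin 2))
                    (algebraMap (MvPolynomial (Fin 2) ℂ) (FractionRing (MvPolynomial (Fin 2) ℂ))
                      (MvPolynomial.X (1 : Fin 2)))) ∨
            (a = FreeAlgebra.ι (FractionRing (MvPolynomial (Fin 2) ℂ)) (0 : Fin 2) *
                  FreeAlgebra.ι (FractionRing (MvPolynomial (Fin 2) ℂ)) (1 : Fin 2) ∧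
              b = algebraMap ℂ (FreeAlgebra (FractionRing (MvPolynomial (Fin 2) ℂ)) (Fin 2)) ζ *
                  (FreeAlgebra.ι (FractionRing (MvPolynomial (Fin 2) ℂ)) (1 : Fin 2) *
                    FreeAlgebra.ι (FractionRing (MvPolynomial (Fin 2) ℂ)) (0 : Fin 2))))),
        Function.Injective f ∧ Algebra.trdeg ℂ L = 1 ∧ IsEmpty (L ≃ₐ[ℂ] RatFunc ℂ) := by
  intro n hn ζ hζ
  have : NeZero n := ⟨by omega⟩
  have hq : ζ ≠ 0 := hζ.ne_zero (by omega)
  have hq1 : ζ ≠ 1 := hζ.ne_one (by omega)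
  have hpn : ζ⁻¹ ^ n = 1 := by rw [inv_pow, hζ.pow_eq_one, inv_one]
  generalize hr : (fun a b : FreeAlgebra (FractionRing (MvPolynomial (Fin 2) ℂ)) (Fin 2) => _) = r
  have h1 : r (FreeAlgebra.ι FF 0 ^ n) (algebraMap FF _ (algebraMap VV FF (MvPolynomial.X 0))) := by
    rw [← hr]; exact Or.inl ⟨rfl, rfl⟩
  have h2 : r (FreeAlgebra.ι FF 1 ^ n) (algebraMap FF _ (algebraMap VV FF (MvPolynomial.X 1))) := by
    rw [← hr]; exact Or.inr (Or.inl ⟨rfl, rfl⟩)
  have h3 : r (FreeAlgebra.ι FF 0 * FreeAlgebra.ι FF 1)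
      (algebraMap ℂ _ ζ * (FreeAlgebra.ι FF 1 * FreeAlgebra.ι FF 0)) := by
    rw [← hr]; exact Or.inr (Or.inr ⟨rfl, rfl⟩)
  let f₀ : FreeAlgebra FF (Fin 2) →ₐ[FF] Module.End FF (Fp n) :=
    FreeAlgebra.lift FF ![Xop n, Yop n (inv_ne_zero hq) hpn]
  have hf₀ : ∀ ⦃a b⦄, r a b → f₀ a = f₀ b := by
    intro a b hab
    rw [← hr] at hab
    rcases hab with ⟨rfl, rfl⟩ | ⟨rfl, rfl⟩ | ⟨rfl, rfl⟩
    · rw [map_pow, AlgHom.commutes]; simp only [f₀, FreeAlgebra.lift_ι_apply]; exact Xop_n n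
    · rw [map_pow, AlgHom.commutes]; simp only [f₀, FreeAlgebra.lift_ι_apply]
      exact Yop_n n _ hpn
    · rw [IsScalarTower.algebraMap_apply ℂ FF (FreeAlgebra FF (Fin 2)), map_mul, map_mul, map_mul,
        AlgHom.commutes]
      simp only [f₀, FreeAlgebra.lift_ι_apply]
      exact XY_op n hq hpn
  let mk : FreeAlgebra FF (Fin 2) →ₐ[FF] RingQuot r := RingQuot.mkAlgHom FF r
  refine main_abstract (x := mk (FreeAlgebra.ι FF 0)) (y := mk (FreeAlgebra.ι FF 1)) hq hq1 ?_
    (n := n) (by omega) ?_ ?_ ?_ (Psi_inj n (inv_ne_zero hq) hpn (RingQuot.liftAlgHom FF ⟨f₀, hf₀⟩)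
      ?_ ?_)
  · have := RingQuot.mkAlgHom_rel FF h3
    rw [IsScalarTower.algebraMap_apply ℂ FF (FreeAlgebra FF (Fin 2)), map_mul, map_mul, map_mul,
      AlgHom.commutes, ← Algebra.smul_def, algebraMap_smul] at this
    exact this
  · have := RingQuot.mkAlgHom_rel FF h1
    rw [map_pow, AlgHom.commutes] at this
    exact this
  · have := RingQuot.mkAlgHom_rel FF h2
    rw [map_pow, AlgHom.commutes] at this
    exact this
  · intro b
    obtain ⟨a, rfl⟩ := RingQuot.mkAlgHom_surjective FF r b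
    induction a using FreeAlgebra.induction with
    | grade0 c => rw [AlgHom.commutes]; exact Subalgebra.algebraMap_mem _ c
    | grade1 i =>
      apply Algebra.subset_adjoin
      fin_cases i
      · exact Or.inl rfl
      · exact Or.inr rfl
    | mul a b ha hb => rw [map_mul]; exact Subalgebra.mul_mem _ ha hb
    | add a b ha hb => rw [map_add]; exact Subalgebra.add_mem _ ha hb
  · rw [RingQuot.liftAlgHom_mkAlgHom_apply]; simp [f₀]
  · rw [RingQuot.liftAlgHom_mkAlgHom_apply]; simp [f₀]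

end Pool.Agent.S00157
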