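import Pool.Statements.S00185
import Pool.Agent.H265Z.CV.Dense

set_option autoImplicit false
open Pool Pool.MP_5198f5_ag

namespace Pool.Agent.S00185

/-- For every n ≥ 1, the set of real upper triangular n×n matrices with unit diagonal such that every complex eigenvalue of S⁻¹Sᵀ has modulus 1 is a connected (nonempty) subset of the space of real n×n matrices. -/
theorem result :
    ∀ n : ℕ, 1 ≤ n →
      IsConnected {S : Matrix (Fin n) (Fin n) ℝ |
        (∀ i j : Fin n, j < i → S i j = 0) ∧
        (∀ i : Fin n, S i i = 1) ∧
        ∀ z : ℂ, ((S⁻¹ * S.transpose).map Complex.ofReal).charpoly.IsRoot z → ‖z‖ = 1} := by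
  intro n _
  exact Pool.Agent.H265Z.CV.isConnected_T n

end Pool.Agent.S00185
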