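import Pool.Statements.S00192
import Pool.Agent.H250Z.HH.Final

set_option autoImplicit false
open Pool Pool.MP_522d9f_ag

namespace Pool.Agent.S00192

/-- The negation of the preceding statement: For every algebraically closed field of characteristic 0, n≥1, nonempty finite point set W in projective n-space and r≥1, the least degree of a nonzero form vanishing to order rn−(n−1) at all points of W is at least r·α(W)+(r−1)(n−1). -/
theorem result :
    ¬ (∀ (k : Type) [Field k] [IsAlgClosed k] [CharZero k] (n : ℕ), 1 ≤ n →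
      ∀ (W : Finset (Projectivization k (Fin (n + 1) → k))), W.Nonempty →
        ∀ r : ℕ, 1 ≤ r → ∀ t : ℕ,
          (∃ f : MvPolynomial (Fin (n + 1)) k, f ≠ 0 ∧ f.IsHomogeneous t ∧
            f ∈ ⨅ P ∈ W, (Ideal.span {h : MvPolynomial (Fin (n + 1)) k |
                ∃ d : ℕ, h.IsHomogeneous d ∧ MvPolynomial.eval P.rep h = 0}) ^ ((r - 1) * n + 1)) →
          ∃ s : ℕ,
            (∃ g : MvPolynomial (Fin (n + 1)) k, g ≠ 0 ∧ g.IsHomogeneous s ∧
              g ∈ ⨅ P ∈ W, Ideal.span {h : MvPolynomial (Fin (n + 1)) k |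
                ∃ d : ℕ, h.IsHomogeneous d ∧ MvPolynomial.eval P.rep h = 0}) ∧
            r * s + (r - 1) * (n - 1) ≤ t) := by
  classical
  intro hall
  obtain ⟨x, hx, hE⟩ := Pool.Agent.H250Z.HH.exists_lift
  let v : Fin 45 → (Fin (2 + 1) → Pool.Agent.H250Z.HH.K) := fun k =>
    ![Pool.Agent.H250Z.HH.ψ (x.2.1 k), Pool.Agent.H250Z.HH.ψ (x.2.2 k), 1]
  have hv : ∀ k, v k ≠ 0 := by
    intro k h
    have := congrFun h 2
    simp [v] at this
  let P : Fin 45 → Projectivization Pool.Agent.H250Z.HH.K (Fin (2 + 1) → Pool.Agent.H250Z.HH.K) :=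
    fun k => Projectivization.mk _ (v k) (hv k)
  have hrep : ∀ k, ∃ l : Pool.Agent.H250Z.HH.K, l ≠ 0 ∧ (P k).rep = l • v k := by
    intro k
    obtain ⟨a, ha⟩ := Projectivization.exists_smul_eq_mk_rep Pool.Agent.H250Z.HH.K (v k) (hv k)
    exact ⟨a, a.ne_zero, ha.symm⟩
  obtain ⟨s, ⟨g, hg0, hgh, hgm⟩, hs⟩ := hall Pool.Agent.H250Z.HH.K 2 (by omega)
    (Finset.univ.image P) ⟨P 0, Finset.mem_image_of_mem _ (Finset.mem_univ _)⟩ 2 (by omega) 18
    ⟨Pool.Agent.H250Z.HH.FF x, Pool.Agent.H250Z.HH.FF_ne x hx, Pool.Agent.H250Z.HH.FF_hom x, by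
      simp only [Ideal.mem_iInf]
      intro Q hQ
      obtain ⟨k, -, rfl⟩ := Finset.mem_image.1 hQ
      obtain ⟨l, -, hl⟩ := hrep k
      refine Pool.Agent.H250Z.HH.FF_mem x hE k _ (Ideal.subset_span ⟨1, ?_, ?_⟩)
        (Ideal.subset_span ⟨1, ?_, ?_⟩)
      · exact (MvPolynomial.isHomogeneous_X _ _).sub
          ((MvPolynomial.isHomogeneous_C _ _).mul (MvPolynomial.isHomogeneous_X _ _))
      · rw [hl]; simp [v, mul_comm]
      · exact (MvPolynomial.isHomogeneous_X _ _).sub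
          ((MvPolynomial.isHomogeneous_C _ _).mul (MvPolynomial.isHomogeneous_X _ _))
      · rw [hl]; simp [v, mul_comm]⟩
  have hs8 : s ≤ 8 := by omega
  have hvan : ∀ k, MvPolynomial.eval (v k) g = 0 := by
    intro k
    simp only [Ideal.mem_iInf] at hgm
    have h1 := hgm (P k) (Finset.mem_image_of_mem _ (Finset.mem_univ _))
    have h2 : g ∈ RingHom.ker (MvPolynomial.eval (P k).rep) := by
      refine Ideal.span_le.2 ?_ h1
      rintro h ⟨d, -, hd⟩
      exact hd
    obtain ⟨l, hl0, hl⟩ := hrep k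
    rw [RingHom.mem_ker, hl, Pool.Agent.H250Z.HH.eval_smul_hom hgh] at h2
    exact (mul_eq_zero.1 h2).resolve_left (pow_ne_zero _ hl0)
  have h8 : (g * MvPolynomial.X 2 ^ (8 - s)).IsHomogeneous 8 := by
    have := hgh.mul (MvPolynomial.isHomogeneous_X_pow (R := Pool.Agent.H250Z.HH.K)
      (2 : Fin (2 + 1)) (8 - s))
    rwa [Nat.add_sub_cancel' hs8] at this
  have h0 := Pool.Agent.H250Z.HH.no_octic x hx _ h8 (fun k => by
    have := hvan k
    rw [map_mul]
    simp only [v] at this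
    rw [this, zero_mul])
  exact (mul_ne_zero hg0 (pow_ne_zero _ (MvPolynomial.X_ne_zero _))) h0

end Pool.Agent.S00192
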