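import Pool.Statements.S00212
import Pool.Agent.H214Z.FolFin

set_option autoImplicit false
open MvPolynomial
open Pool Pool.MP_63dc40_ag

namespace Pool.Agent.S00212

/-- The negation of the preceding statement: Take a degree-d codimension-one foliation of ℙⁿ (n≥2), given by an integrable form whose singular set has codimension ≥2. If its non-Kupka set has codimension ≥3, the local ring of the foliation scheme at it is regular, i.e. Krull dimension equals tangent-space dimension. -/
theorem result :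
    ¬ (∀ (n d : ℕ), 2 ≤ n →
    ∀ (G : Fin (n+1) → MvPolynomial (Fin (n+1)) (MvPolynomial (Fin (n+1) × Sym (Fin (n+1)) (d+1)) ℂ)),
    (∀ i, G i = ∑ s : Sym (Fin (n+1)) (d+1),
        MvPolynomial.C (MvPolynomial.X (i, s)) *
          ((s : Multiset (Fin (n+1))).map (fun j => MvPolynomial.X j)).prod) →
    ∀ (I : Ideal (MvPolynomial (Fin (n+1) × Sym (Fin (n+1)) (d+1)) ℂ)),
    I = Ideal.span {r | (∃ m, r = MvPolynomial.coeff m (∑ i, MvPolynomial.X i * G i)) ∨
        (∃ i j k m, r = MvPolynomial.coeff m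
          (G i * (pderiv j (G k) - pderiv k (G j)) + G j * (pderiv k (G i) - pderiv i (G k))
            + G k * (pderiv i (G j) - pderiv j (G i))))} →
    ∀ (c : Fin (n+1) × Sym (Fin (n+1)) (d+1) → ℂ), c ≠ 0 →
    I ≤ RingHom.ker (MvPolynomial.eval c) →
    ringKrullDim (MvPolynomial (Fin (n+1)) ℂ ⧸
        Ideal.span (Set.range (fun i => MvPolynomial.map (MvPolynomial.eval c) (G i))))
      ≤ ((n - 1 : ℕ) : WithBot ℕ∞) →
    ringKrullDim (MvPolynomial (Fin (n+1)) ℂ ⧸
        Ideal.span (Set.range (fun i => MvPolynomial.map (MvPolynomial.eval c) (G i)) ∪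
          Set.range (fun p : Fin (n+1) × Fin (n+1) =>
            MvPolynomial.map (MvPolynomial.eval c) (pderiv p.1 (G p.2) - pderiv p.2 (G p.1)))))
      ≤ ((n - 2 : ℕ) : WithBot ℕ∞) →
    ∀ (P : Ideal (MvPolynomial (Fin (n+1) × Sym (Fin (n+1)) (d+1)) ℂ ⧸ I)) [P.IsPrime],
    P = Ideal.map (Ideal.Quotient.mk I) (RingHom.ker (MvPolynomial.eval c)) →
    ringKrullDim (Localization.AtPrime P) =
      ((Module.finrank (IsLocalRing.ResidueField (Localization.AtPrime P))
        (IsLocalRing.CotangentSpace (Localization.AtPrime P)) : ℕ) : WithBot ℕ∞)) := by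
  intro h
  have h1 := @h 3 7 (by norm_num) H214Z.Fol.GG (fun _ => rfl) H214Z.Fol.II rfl
    H214Z.Fol.cc H214Z.Fol.cc_ne H214Z.Fol.II_le_eval H214Z.Fol.sing_le H214Z.Fol.nk_le
    H214Z.Fol.PP H214Z.Fol.PP_prime rfl
  exact H214Z.Fol.not_regular (Localization.AtPrime H214Z.Fol.PP) h1

end Pool.Agent.S00212
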