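import Pool.Statements.S00231
import Pool.Agent.H156Z.Shapiro

set_option autoImplicit false
open Pool Pool.MP_6b14a3_ag

namespace Pool.Agent.S00231

/-- For all positive integers d and e, every complex binary form of degree d·e equals a sum of d d-th powers of complex binary forms of degree e. -/
theorem result :
    ∀ d e : ℕ, 0 < d → 0 < e →
      ∀ f : MvPolynomial (Fin 2) ℂ, f.IsHomogeneous (d * e) →
        ∃ g : Fin d → MvPolynomial (Fin 2) ℂ,
          (∀ i, (g i).IsHomogeneous e) ∧ f = ∑ i, g i ^ d := by
  intro d e hd _ f hf
  exact Pool.Agent.H156Z.Shapiro.main d e hd f hf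

end Pool.Agent.S00231
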