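import Pool.Statements.S00308
import Pool.Agent.H101Z.Claw3

set_option autoImplicit false
open Pool Pool.MP_8fff0f_ag

namespace Pool.Agent.S00308

/-- The negation of the preceding statement: For every finite abelian group G, the toric ideal of the group-based model on the tripod is generated by polynomials of degree at most ∣G∣. This ideal is the kernel of q_{(g1,g2,g3)} ↦ a1_{g1}·a2_{g2}·a3_{g3} over tuples with g1+g2+g3=0. -/
theorem result :
    ¬ (∀ (G : Type) [AddCommGroup G] [Fintype G],
      ∃ S : Set (MvPolynomial {g : Fin 3 → G // ∑ i, g i = 0} ℂ),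
        (∀ p ∈ S, p.totalDegree ≤ Fintype.card G) ∧
        Ideal.span S =
          RingHom.ker
            (MvPolynomial.aeval
              (fun g : {g : Fin 3 → G // ∑ i, g i = 0} =>
                ∏ i : Fin 3, (MvPolynomial.X (i, g.1 i) : MvPolynomial (Fin 3 × G) ℂ)))) := by
  intro H
  obtain ⟨z, f, x, _, hf, hzf, hq⟩ := Pool.Agent.H101Z.Claw3.main 7 (by norm_num)
    (σ := {g : Fin 3 → Pool.Agent.H101Z.Claw3.G 7 // ∑ i, g i = 0})
    (fun s => s.1) Subtype.val_injective
    (fun a => by rw [← Fin.sum_univ_three]; exact a.2)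
    (fun g hg => ⟨⟨g, by rw [Fin.sum_univ_three]; exact hg⟩, rfl⟩)
  obtain ⟨S, hS, hspan⟩ := H (Pool.Agent.H101Z.Claw3.G 7)
  have h1 : f ∈ Ideal.span S := by rw [hspan]; exact hf
  have h2 : f ∈ RingHom.ker (MvPolynomial.eval z) := by
    refine Ideal.span_le.mpr ?_ h1
    intro q hq1
    have h3 := hS q hq1
    rw [Pool.Agent.H101Z.Claw3.card_G] at h3
    have h4 : q ∈ Ideal.span S := Ideal.subset_span hq1
    rw [hspan] at h4
    exact hq q h4 (lt_of_le_of_lt h3 (by norm_num))
  rw [RingHom.mem_ker, hzf] at h2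
  exact one_ne_zero h2

end Pool.Agent.S00308
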