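import Pool.Statements.S00335
import Pool.Agent.H353Z.SymE

set_option autoImplicit false
open Pool Pool.MP_9d9f8d_ag

namespace Pool.Agent.S00335

/-- For every eventually periodic g with g(t) ≥ 2 for t ≥ 1, some field K and monomial ideal Q in K[x1..xn] have every symbolic power Q^(t) (minimal primes) of projective dimension exactly g(t), t ≥ 1. -/
theorem result :
    ∀ g : ℕ → ℕ,
      (∃ N p : ℕ, 0 < p ∧ ∀ t : ℕ, N ≤ t → g (t + p) = g t) →
      (∀ t : ℕ, 1 ≤ t → 2 ≤ g t) →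
      ∃ (K : Type) (_ : Field K) (n : ℕ) (Q : Ideal (MvPolynomial (Fin n) K)),
        (∃ s : Set (Fin n →₀ ℕ),
            Q = Ideal.span ((fun m => MvPolynomial.monomial m (1 : K)) '' s)) ∧
        ∀ t : ℕ, 1 ≤ t →
          ∃ J : Ideal (MvPolynomial (Fin n) K),
            (∀ f : MvPolynomial (Fin n) K,
                f ∈ J ↔ ∀ P ∈ Q.minimalPrimes, ∃ u : MvPolynomial (Fin n) K,
                  u ∉ P ∧ u * f ∈ Q ^ t) ∧
            CategoryTheory.HasProjectiveDimensionLE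
              (ModuleCat.of (MvPolynomial (Fin n) K) J) (g t) ∧
            ¬ CategoryTheory.HasProjectiveDimensionLE
              (ModuleCat.of (MvPolynomial (Fin n) K) J) (g t - 1) := by
  rintro g ⟨N, p, hp, hg⟩ hpos
  obtain ⟨m, r, h1, h2⟩ := H353Z.SymC.design g N p hp hg
    (fun t ht => le_trans (by norm_num) (hpos t ht))
  refine ⟨ℚ, inferInstance, m + 1 + (m + 1), H353Z.SymD.MI (H353Z.SymE.TQ r), ⟨_, rfl⟩,
    fun t ht => ?_⟩
  obtain ⟨t, rfl⟩ : ∃ s, t = s + 1 := ⟨t - 1, by omega⟩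
  have hg2 := hpos (t + 1) ht
  refine ⟨H353Z.SymD.MI (H353Z.SymE.TT r (t + 1)), H353Z.SymE.symb r (t + 1), ?_, ?_⟩
  · exact (H353Z.PD.pd_ideal_iff _ _).1 (H353Z.SymE.pd_upper r t _ (by omega)
      (fun θ => by rw [H353Z.SymE.card_V]; exact h1 t θ))
  · intro h
    obtain ⟨θ, hθ⟩ := h2 t
    have h3 := (H353Z.PD.pd_ideal_iff _ _).2 h
    rw [Nat.sub_add_cancel (by omega)] at h3
    exact H353Z.SymE.pd_lower r t _ (by omega) θ (by rw [H353Z.SymE.card_V]; exact hθ) h3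

end Pool.Agent.S00335
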