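import Pool.Statements.S00406
import Pool.Agent.H969Z.Core3

set_option autoImplicit false
open Pool Pool.MP_b9ea36_ag

namespace Pool.Agent.S00406

/-- The negation of the preceding statement: For every bipartite graph with nonempty 3-core, there is a nonempty open set of real partial matrices on its edges that cannot be completed to rank at most 2, i.e. its maximal typical rank is at least 3. -/
theorem result :
    ¬ (∀ (m n : ℕ) (E : Finset (Fin m × Fin n)),
      (∃ (R : Finset (Fin m)) (C : Finset (Fin n)),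
          (R.Nonempty ∨ C.Nonempty) ∧
          (∀ i ∈ R, 3 ≤ (C.filter (fun j => (i, j) ∈ E)).card) ∧
          (∀ j ∈ C, 3 ≤ (R.filter (fun i => (i, j) ∈ E)).card)) →
      ∃ U : Set (Matrix (Fin m) (Fin n) ℝ),
        IsOpen U ∧ U.Nonempty ∧
        ∀ A ∈ U, ∀ B : Matrix (Fin m) (Fin n) ℝ,
          (∀ p ∈ E, B p.1 p.2 = A p.1 p.2) → 3 ≤ B.rank) := by
  intro h
  obtain ⟨U, hU, hne, hall⟩ := h 5 5 Pool.Agent.H969Z.Core3.E5
    ⟨Finset.univ, Finset.univ, Or.inl Finset.univ_nonempty, by decide, by decide⟩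
  obtain ⟨A, hA, B, hB, hr⟩ := Pool.Agent.H969Z.Core3.main U hU hne
  have := hall A hA B hB
  omega

end Pool.Agent.S00406
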