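import Pool.Statements.S00530
import Pool.Agent.H101Z.Claw3

set_option autoImplicit false
open Pool Pool.MP_ebd967_ag

namespace Pool.Agent.S00530

/-- The negation of the preceding statement: There is a polynomial Q such that, for every finite abelian group G, the toric ideal of the claw-tree group-based model is generated by its elements of degree at most Q(∣G∣). -/
theorem result :
    ¬ (∃ Q : Polynomial ℕ, ∀ (G : Type) [AddCommGroup G] [Fintype G],
      ∀ p : MvPolynomial {g : G × G × G // g.1 + g.2.1 + g.2.2 = 0} ℂ,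
        MvPolynomial.aeval
            (fun s : {g : G × G × G // g.1 + g.2.1 + g.2.2 = 0} =>
              (MvPolynomial.X ((0 : Fin 3), s.1.1) * MvPolynomial.X ((1 : Fin 3), s.1.2.1) *
                MvPolynomial.X ((2 : Fin 3), s.1.2.2) : MvPolynomial (Fin 3 × G) ℂ)) p = 0 →
        p ∈ Ideal.span
          {q : MvPolynomial {g : G × G × G // g.1 + g.2.1 + g.2.2 = 0} ℂ |
            MvPolynomial.aeval
                (fun s : {g : G × G × G // g.1 + g.2.1 + g.2.2 = 0} =>
                  (MvPolynomial.X ((0 : Fin 3), s.1.1) * MvPolynomial.X ((1 : Fin 3), s.1.2.1) *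
                    MvPolynomial.X ((2 : Fin 3), s.1.2.2) : MvPolynomial (Fin 3 × G) ℂ)) q = 0 ∧
              q.totalDegree ≤ Q.eval (Fintype.card G)}) := by
  rintro ⟨Q, H⟩
  obtain ⟨r, hr, hQ⟩ := Pool.Agent.H101Z.Claw3.exists_r Q
  obtain ⟨z, f, x, _, hf, hzf, hq⟩ := Pool.Agent.H101Z.Claw3.main r hr
    (σ := {g : Pool.Agent.H101Z.Claw3.G r × Pool.Agent.H101Z.Claw3.G r ×
      Pool.Agent.H101Z.Claw3.G r // g.1 + g.2.1 + g.2.2 = 0})
    (fun s => ![s.1.1, s.1.2.1, s.1.2.2])
    (fun a b h => Subtype.ext (Prod.ext (congrFun h 0) (Prod.ext (congrFun h 1) (congrFun h 2))))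
    (fun a => a.2)
    (fun g hg => ⟨⟨(g 0, g 1, g 2), hg⟩, by funext i; fin_cases i <;> rfl⟩)
  have e : ∀ q, Pool.Agent.H101Z.Face.phi
      (fun (s : {g : Pool.Agent.H101Z.Claw3.G r × Pool.Agent.H101Z.Claw3.G r ×
        Pool.Agent.H101Z.Claw3.G r // g.1 + g.2.1 + g.2.2 = 0}) (i : Fin 3) =>
          (i, (![s.1.1, s.1.2.1, s.1.2.2] : Fin 3 → Pool.Agent.H101Z.Claw3.G r) i)) q =
      MvPolynomial.aeval
        (fun s : {g : Pool.Agent.H101Z.Claw3.G r × Pool.Agent.H101Z.Claw3.G r ×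
          Pool.Agent.H101Z.Claw3.G r // g.1 + g.2.1 + g.2.2 = 0} =>
          (MvPolynomial.X ((0 : Fin 3), s.1.1) * MvPolynomial.X ((1 : Fin 3), s.1.2.1) *
            MvPolynomial.X ((2 : Fin 3), s.1.2.2) :
              MvPolynomial (Fin 3 × Pool.Agent.H101Z.Claw3.G r) ℂ)) q := by
    intro q
    unfold Pool.Agent.H101Z.Face.phi
    simp only [Fin.prod_univ_three]
    rfl
  have h1 := H (Pool.Agent.H101Z.Claw3.G r) f (by rw [← e]; exact hf)
  have h2 : f ∈ RingHom.ker (MvPolynomial.eval z) := by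
    refine Ideal.span_le.mpr ?_ h1
    rintro q ⟨hq1, hq2⟩
    rw [Pool.Agent.H101Z.Claw3.card_G] at hq2
    exact hq q (by rw [e]; exact hq1) (lt_of_le_of_lt hq2 hQ)
  rw [RingHom.mem_ker, hzf] at h2
  exact one_ne_zero h2

end Pool.Agent.S00530
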