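import Pool.Statements.S00536
import Pool.Agent.H651Z.PD.Main

set_option autoImplicit false
open Pool Pool.MP_eefc19_ag

namespace Pool.Agent.S00536

/-- The negation of the preceding statement: For any field k and polynomial ring in m variables over k, if an ideal is generated by n homogeneous quadrics and has height h, then R/I has projective dimension at most h(n−h+1) as an R-module. -/
theorem result :
    ¬ (∀ (k : Type) [Field k] (m n h : ℕ) (f : Fin n → MvPolynomial (Fin m) k),
      (∀ i, (f i).IsHomogeneous 2) →
      (Ideal.span (Set.range f)).height = (h : ℕ∞) →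
      CategoryTheory.HasProjectiveDimensionLE
        (ModuleCat.of (MvPolynomial (Fin m) k)
          (MvPolynomial (Fin m) k ⧸ Ideal.span (Set.range f)))
        (h * (n - h + 1))) := by
  intro H
  obtain ⟨N, f, hf, hne, hpd⟩ := Pool.Agent.H651Z.PD.main 20
  have hle : (Ideal.span (Set.range f)).height ≤ ((4 * 20 + 2 : ℕ) : ℕ∞) := by
    refine (Ideal.height_le_spanFinrank _ hne).trans ?_
    have h1 := Submodule.spanFinrank_span_le_ncard_of_finite
      (R := MvPolynomial (Fin N) ℚ) (Set.finite_range f)
    have h2 : (Set.range f).ncard ≤ 4 * 20 + 2 := by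
      rw [← Set.image_univ]
      refine (Set.ncard_image_le Set.finite_univ).trans ?_
      rw [Set.ncard_univ]
      simp
    exact_mod_cast h1.trans h2
  obtain ⟨h, hh⟩ := ENat.ne_top_iff_exists.1 (ne_top_of_le_ne_top (ENat.natCast_ne_top _) hle)
  have hh' : h ≤ 4 * 20 + 2 := by
    rw [← hh] at hle
    exact_mod_cast hle
  refine hpd _ ?_ (H ℚ N _ h f hf hh.symm)
  have h3 : h * (4 * 20 + 2 - h + 1) ≤ 82 * 83 := Nat.mul_le_mul hh' (by omega)
  omega

end Pool.Agent.S00536
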