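import Pool.Statements.S00548

set_option autoImplicit false
open Pool Pool.MP_f28cea_ag

namespace Pool.Agent.S00548

open Polynomial

lemma scale {k A ι : Type} [Field k] [CommRing A] [Algebra k A] (w : ι → ℕ)
    (p : MvPolynomial ι k) (d : ℕ) (hp : MvPolynomial.IsWeightedHomogeneous w p d)
    (t : A) (x : ι → A) :
    MvPolynomial.aeval (fun i => t ^ (w i) * x i) p = t ^ d * MvPolynomial.aeval x p := by
  classical
  conv_lhs => rw [p.as_sum]
  conv_rhs => rw [p.as_sum]
  rw [map_sum, map_sum, Finset.mul_sum]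
  refine Finset.sum_congr rfl fun s hs => ?_
  have hd : Finsupp.weight w s = d := hp (MvPolynomial.mem_support_iff.mp hs)
  rw [MvPolynomial.aeval_monomial, MvPolynomial.aeval_monomial, ← hd, Finsupp.weight_apply]
  simp only [Finsupp.prod, Finsupp.sum, mul_pow, Finset.prod_mul_distrib, smul_eq_mul,
    ← pow_mul, Finset.prod_pow_eq_pow_sum]
  have : ∑ i ∈ s.support, w i * s i = ∑ i ∈ s.support, s i * w i :=
    Finset.sum_congr rfl fun i _ => mul_comm _ _
  rw [this]; ring

/-- Lowest order terms: a weighted homogeneous relation between polynomials in one variable,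
not all zero, gives a nonzero zero over the ground field. -/
lemma key {k ι : Type} [Field k] [Fintype ι] (w : ι → ℕ) (hw : ∀ j, 0 < w j)
    (p : MvPolynomial ι k) (d : ℕ) (hp : MvPolynomial.IsWeightedHomogeneous w p d)
    (F : ι → k[X]) (i1 : ι) (hF : F i1 ≠ 0) (h : MvPolynomial.aeval F p = 0) :
    ∃ c : ι → k, c ≠ 0 ∧ MvPolynomial.aeval c p = 0 := by
  classical
  obtain ⟨i0, hi0, hmin⟩ := Finset.exists_min_image (Finset.univ.filter fun i => F i ≠ 0)
    (fun i => ((rootMultiplicity 0 (F i) : ℚ)) / (w i : ℚ)) ⟨i1, by simp [hF]⟩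
  have hi0' : F i0 ≠ 0 := by simpa using hi0
  set a := rootMultiplicity 0 (F i0) with ha
  set N := w i0 with hN
  have hex : ∀ i, ∃ H : k[X], expand k N (F i) = (X ^ a) ^ (w i) * H ∧
      (i = i0 → H.eval 0 ≠ 0) := by
    intro i
    by_cases hi : F i = 0
    · exact ⟨0, by simp [hi], fun e => absurd (e ▸ hi) hi0'⟩
    · obtain ⟨G, hG, hG'⟩ := exists_eq_pow_rootMultiplicity_mul_and_not_dvd (F i) hi 0
      have hle : a * w i ≤ N * rootMultiplicity 0 (F i) := by
        have h1 := hmin i (by simp [hi])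
        have hwi : (0 : ℚ) < w i := by exact_mod_cast hw i
        have hw0 : (0 : ℚ) < N := by exact_mod_cast hw i0
        rw [div_le_div_iff₀ hw0 hwi] at h1
        have : (a * w i : ℚ) ≤ N * rootMultiplicity 0 (F i) := by linarith
        exact_mod_cast this
      obtain ⟨e, he⟩ := Nat.exists_eq_add_of_le hle
      refine ⟨X ^ e * expand k N G, ?_, ?_⟩
      · conv_lhs => rw [hG]
        simp only [map_zero, sub_zero, map_mul, map_pow, expand_X]
        rw [← pow_mul, he, pow_add, ← pow_mul]; ring
      · rintro rfl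
        have he0 : e = 0 := by
          rw [← ha, ← hN, mul_comm N a] at he; omega
        have hG0 : G.eval 0 ≠ 0 := by
          intro h0; exact hG' (dvd_iff_isRoot.mpr h0)
        have hNpos : N ≠ 0 := (hw i).ne'
        simp [he0, expand_eval, hNpos, hG0]
  choose H hH hH0 using hex
  have h2 : MvPolynomial.aeval (fun i => expand k N (F i)) p = 0 := by
    have := congrArg (expand k N) h
    rw [map_zero, ← AlgHom.comp_apply, MvPolynomial.comp_aeval] at this
    exact this
  simp only [hH] at h2
  rw [scale w p d hp] at h2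
  have h3 : MvPolynomial.aeval H p = 0 := by
    rcases mul_eq_zero.mp h2 with h4 | h4
    · exact absurd h4 (pow_ne_zero _ (pow_ne_zero _ X_ne_zero))
    · exact h4
  refine ⟨fun i => (H i).eval 0, ?_, ?_⟩
  · intro h0
    exact hH0 i0 rfl (congrFun h0 i0)
  · have := congrArg (Polynomial.aeval (0 : k)) h3
    rw [map_zero, ← AlgHom.comp_apply, MvPolynomial.comp_aeval] at this
    simpa [coe_aeval_eq_eval] using this

/-- The conjecture fails for the field with two elements, one variable and the zero ideal. -/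
theorem result :
    ¬ (∀ (k K : Type) [Field k] [Field K] [Algebra k K] (n : ℕ)
      (I : Ideal (MvPolynomial (Fin n) k)) (f : MvPolynomial (Fin n) k),
      (∃ m : ℕ, ∃ w : Fin (m + 1) → ℕ, Monotone w ∧ (∀ j, 0 < w j) ∧
        ∃ p : MvPolynomial (Fin (m + 1)) k, ∃ d : ℕ,
          MvPolynomial.IsWeightedHomogeneous w p d ∧
          (∀ y : Fin (m + 1) → K, MvPolynomial.aeval y p = 0 ↔ y = 0) ∧
          ∃ g : Fin m → MvPolynomial (Fin n) k,
            MvPolynomial.aeval
              (Fin.cons f g : Fin (m + 1) → MvPolynomial (Fin n) k) p ∈ I) ↔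
      (∀ x : Fin n → K, (∀ q ∈ I, MvPolynomial.aeval x q = 0) →
        MvPolynomial.aeval x f = 0)) := by
  intro hall
  have h := (hall (ZMod 2) (ZMod 2) 1 ⊥
    (MvPolynomial.X 0 ^ 2 - MvPolynomial.X 0)).mpr (by
      intro x _
      simp only [map_sub, map_pow, MvPolynomial.aeval_X]
      generalize x 0 = y
      revert y
      decide)
  obtain ⟨m, w, -, hw, p, d, hp, hz, g, hg⟩ := h
  rw [Ideal.mem_bot] at hg
  let φ : MvPolynomial (Fin 1) (ZMod 2) →ₐ[ZMod 2] (ZMod 2)[X] :=
    MvPolynomial.aeval fun _ => X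
  have h2 := congrArg φ hg
  rw [map_zero, ← AlgHom.comp_apply, MvPolynomial.comp_aeval] at h2
  obtain ⟨c, hc, hc0⟩ := key w hw p d hp _ 0 (by
    simp only [Fin.cons_zero, φ, map_sub, map_pow, MvPolynomial.aeval_X]
    intro h0
    have := congrArg (fun q => Polynomial.coeff q 2) h0
    simp [coeff_X] at this) h2
  exact hc ((hz c).mp hc0)

end Pool.Agent.S00548
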