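import Pool.Statements.S00600
import Pool.Agent.H252Z.ShelfMain

set_option autoImplicit false
open Pool Pool.MP_037dd7_al

namespace Pool.Agent.S00600

/-- The negation of the preceding statement: For every finite right self-distributive (X,∗), the rank of augmented one-term distributive homology (∂ = Σ(−1)^i d_i, d_i acting by ∗x_i on earlier entries and deleting x_i) satisfies rk H_{n+1} = ∣X∣·rk H_n for all n ≥ ∣X∣−2. -/
theorem result :
    ¬ (∀ (X : Type) [Fintype X] (op : X → X → X),
      (∀ a b c : X, op (op a b) c = op (op a c) (op b c)) →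
      ∀ D : (m : ℕ) → ((Fin (m + 1) → X) →₀ ℚ) →ₗ[ℚ] ((Fin m → X) →₀ ℚ),
        (∀ m : ℕ, D m = ∑ i : Fin (m + 1), ((-1 : ℚ) ^ (i : ℕ)) •
            Finsupp.lmapDomain ℚ ℚ
              (fun (x : Fin (m + 1) → X) (j : Fin m) =>
                if Fin.castSucc j < i then op (x (i.succAbove j)) (x i)
                else x (i.succAbove j))) →
        ∀ n : ℕ, Fintype.card X ≤ n + 2 →
          Module.finrank ℚ (LinearMap.ker (D (n + 1))) -
              Module.finrank ℚ (LinearMap.range (D (n + 2))) =
            Fintype.card X *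
              (Module.finrank ℚ (LinearMap.ker (D n)) -
                Module.finrank ℚ (LinearMap.range (D (n + 1))))) := by
  intro h
  have h1 := h (Fin 6) Pool.Agent.H252Z.Shelf.op6 Pool.Agent.H252Z.Shelf.op6_distrib
    (Pool.Agent.H252Z.Shelf.D Pool.Agent.H252Z.Shelf.op6)
    (Pool.Agent.H252Z.Shelf.D_eq Pool.Agent.H252Z.Shelf.op6) 4 (by simp)
  rw [Fintype.card_fin] at h1
  exact Pool.Agent.H252Z.Shelf.growth_fails 2 h1

end Pool.Agent.S00600
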