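import Pool.Statements.S00609
import Pool.Agent.H6Z.Branch

set_option autoImplicit false
open Pool Pool.MP_042d8e_al

namespace Pool.Agent.S00609

/-- There is a branch group (faithful, level-transitive on a locally finite rooted tree, finite-index rigid level stabilizers) with infinitely many pairwise inequivalent descending sequences of finite-index normal subgroups with trivial intersection. -/
theorem result :
    ∃ (G : Type) (_ : Group G) (V : Type) (_ : MulAction G V) (lev : V → ℕ) (par : V → V),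
      (∀ v w : V, lev v = 0 → lev w = 0 → v = w) ∧
      (∃ v : V, lev v = 0) ∧
      (∀ w : V, lev w = 0 → par w = w) ∧
      (∀ w : V, lev w ≠ 0 → lev (par w) + 1 = lev w) ∧
      (∀ n : ℕ, {v : V | lev v = n}.Finite) ∧
      (∀ v : V, ∃ w₁ w₂ : V, w₁ ≠ w₂ ∧ par w₁ = v ∧ par w₂ = v ∧
          lev w₁ = lev v + 1 ∧ lev w₂ = lev v + 1) ∧
      (∀ (g : G) (w : V), lev (g • w) = lev w ∧ par (g • w) = g • par w) ∧
      (∀ g : G, (∀ v : V, g • v = v) → g = 1) ∧
      (∀ v w : V, lev v = lev w → ∃ g : G, g • v = w) ∧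
      (∀ n : ℕ, (Subgroup.closure {g : G | ∃ v : V, lev v = n ∧
          ∀ w : V, (∀ k : ℕ, par^[k] w ≠ v) → g • w = w}).FiniteIndex) ∧
      ∃ M : ℕ → ℕ → Subgroup G,
        (∀ a : ℕ, Antitone (M a) ∧ (∀ i : ℕ, (M a i).Normal ∧ (M a i).FiniteIndex) ∧
            (⨅ i : ℕ, M a i) = ⊥) ∧
        (∀ a b : ℕ, a ≠ b →
            ¬ ((∀ i : ℕ, ∃ j : ℕ, M b j ≤ M a i) ∧ (∀ i : ℕ, ∃ j : ℕ, M a j ≤ M b i))) := by
  refine ⟨H6Z.Branch.G, inferInstance, H6Z.Branch.V, inferInstance, List.length, List.tail,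
    ?_, ⟨[], rfl⟩, ?_, ?_, fun n => List.finite_length_eq _ n, ?_,
    fun g w => ⟨H6Z.Branch.length_smul g w, H6Z.Branch.tail_smul g w⟩, H6Z.Branch.eq_one_of,
    H6Z.Branch.transitive, H6Z.Branch.rist_finiteIndex, H6Z.Branch.M,
    fun a => ⟨H6Z.Branch.M_antitone a,
      fun i => ⟨H6Z.Branch.M_normal a i, H6Z.Branch.M_finiteIndex a i⟩, H6Z.Branch.M_iInf a⟩, ?_⟩
  · intro v w hv hw
    rw [List.length_eq_zero_iff.1 hv, List.length_eq_zero_iff.1 hw]
  · intro w hw
    rw [List.length_eq_zero_iff.1 hw]; rfl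
  · intro w hw
    rw [List.length_tail]; omega
  · intro v
    exact ⟨0 :: v, 1 :: v, by simp, rfl, rfl, rfl, rfl⟩
  · rintro a b hab ⟨h, -⟩
    obtain ⟨j, hj⟩ := h 0
    exact H6Z.Branch.M_not_le hab j hj

end Pool.Agent.S00609
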