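import Pool.Statements.S00638
import Pool.Agent.H268Z.Betti.Sym
import Pool.Agent.Helper604.NSG

set_option autoImplicit false
open Pool Pool.MP_05ef64_al

namespace Pool.Agent.S00638

open Pool.Agent.Helper604 Pool.Agent.Helper604.Glue Pool.Agent.H268Z.Betti

theorem InS_perm {e : ℕ} (a : Fin e → ℕ) (π : Equiv.Perm (Fin e)) (z : ℤ) :
    InS (a ∘ π) z ↔ InS a z := by
  constructor
  · rintro ⟨c, hc⟩
    refine ⟨c ∘ π.symm, ?_⟩
    rw [← hc, ← Equiv.sum_comp π]
    simp
  · rintro ⟨c, hc⟩
    refine ⟨c ∘ π, ?_⟩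
    rw [← hc, ← Equiv.sum_comp π (fun j => c j * a j)]
    simp

/-- permuting the generators -/
def perm {e N : ℕ} (G : Good e N) (π : Equiv.Perm (Fin e)) : Good e N where
  a := G.a ∘ π
  pos := fun i => G.pos _
  minl := by
    intro i c hc h
    apply G.minl (π i) (c ∘ π.symm) (by simpa using hc)
    rw [← Equiv.sum_comp π]
    simpa using h
  F := G.F
  symm := by
    intro z
    rw [InS_perm, InS_perm]
    exact G.symm z
  T := G.T.map π.symm.toEmbedding
  v := G.v
  vinj := G.vinj
  split := by
    intro n u hu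
    have h1 : ∑ i, (u ∘ π.symm) i * G.a i = G.v n := by
      rw [← Equiv.sum_comp π]
      simpa using hu
    rcases G.split n _ h1 with h | h
    · left
      intro i hi
      have := h (π i) (by simpa using hi)
      simpa using this
    · right
      intro i hi
      have := h (π i) (by simpa using hi)
      simpa using this
  in1 := by
    intro n
    obtain ⟨u, hu1, hu2⟩ := G.in1 n
    refine ⟨u ∘ π, fun i hi => hu1 _ (by simpa using hi), ?_⟩
    rw [← hu2, ← Equiv.sum_comp π (fun j => u j * G.a j)]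
    simp
  in2 := by
    intro n
    obtain ⟨u, hu1, hu2⟩ := G.in2 n
    refine ⟨u ∘ π, fun h => hu1 fun i hi => ?_, ?_⟩
    · have := h (π.symm i) (by simpa using hi)
      simpa using this
    · rw [← hu2, ← Equiv.sum_comp π (fun j => u j * G.a j)]
      simp

theorem good_mono (N : ℕ) : ∃ G : Good 8 N, StrictMono G.a := by
  refine ⟨perm (start N) (Tuple.sort (start N).a), ?_⟩
  exact (Tuple.monotone_sort (start N).a).strictMono_of_injective
    ((NSG.a_inj (start N)).comp (Equiv.injective _))

theorem card_le {e N : ℕ} (G : Good e N) (s : Finset (MvPolynomial (Fin e) ℚ))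
    (hs : Ideal.span (s : Set (MvPolynomial (Fin e) ℚ)) = RingHom.ker (Rel.ev ℚ G.a)) :
    N ≤ s.card := by
  refine Rel.card_le G.a G.pos G.T G.v G.vinj (fun n u hu => G.split n u hu) ?_ ?_ s hs
  · intro n
    obtain ⟨u, hu1, hu2⟩ := G.in1 n
    exact ⟨Finsupp.equivFunOnFinite.symm u, hu1, hu2⟩
  · intro n
    obtain ⟨u, hu1, hu2⟩ := G.in2 n
    exact ⟨Finsupp.equivFunOnFinite.symm u, hu1, hu2⟩

/-- The negation of the preceding statement: For every field, e, and family of numerical semigroups of embedding dimension e, and all 1≤i,j≤e−1: the i-th Betti numbers are uniformly bounded over the family iff the j-th Betti numbers are uniformly bounded. -/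
theorem result :
    ¬ (∀ (k : Type) [Field k] (e : ℕ) (F : Set (Fin e → ℕ)),
    (∀ g ∈ F, StrictMono g ∧
        ((AddSubmonoid.closure (Set.range g) : Set ℕ)ᶜ).Finite ∧
        ∀ j : Fin e, g j ∉ AddSubmonoid.closure (g '' {l | l ≠ j})) →
    ∀ i j : ℕ, 1 ≤ i → i ≤ e - 1 → 1 ≤ j → j ≤ e - 1 →
      ((∃ N : ℕ, ∀ g ∈ F,
          ∃ (r : ℕ → ℕ)
            (d : ∀ n : ℕ, Matrix (Fin (r n)) (Fin (r (n + 1))) (MvPolynomial (Fin e) k)),
            r 0 = 1 ∧
            (∀ v : Fin (r 0) → MvPolynomial (Fin e) k,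
              v ∈ LinearMap.range (d 0).mulVecLin ↔
                ∀ a, v a ∈ RingHom.ker
                  (MvPolynomial.aeval
                    (fun l : Fin e => (Polynomial.X : Polynomial k) ^ g l))) ∧
            (∀ n : ℕ, LinearMap.ker (d n).mulVecLin = LinearMap.range (d (n + 1)).mulVecLin) ∧
            r i ≤ N) ↔
       (∃ N : ℕ, ∀ g ∈ F,
          ∃ (r : ℕ → ℕ)
            (d : ∀ n : ℕ, Matrix (Fin (r n)) (Fin (r (n + 1))) (MvPolynomial (Fin e) k)),
            r 0 = 1 ∧
            (∀ v : Fin (r 0) → MvPolynomial (Fin e) k,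
              v ∈ LinearMap.range (d 0).mulVecLin ↔
                ∀ a, v a ∈ RingHom.ker
                  (MvPolynomial.aeval
                    (fun l : Fin e => (Polynomial.X : Polynomial k) ^ g l))) ∧
            (∀ n : ℕ, LinearMap.ker (d n).mulVecLin = LinearMap.range (d (n + 1)).mulVecLin) ∧
            r j ≤ N))) := by
  classical
  intro h
  have h1 := h ℚ 8 {g | ∃ (N : ℕ) (G : Good 8 N), G.a = g ∧ StrictMono g} ?_ 7 1
    (by norm_num) (by norm_num) (by norm_num) (by norm_num)
  · obtain ⟨N, hN⟩ := h1.mp ⟨1, by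
      rintro g ⟨N, G, rfl, -⟩
      obtain ⟨U, hU, hS⟩ := top_one ℚ (m := 4) G.a G.pos G.F G.symm
      obtain ⟨r, d0, d, h1, h2, h3, h4⟩ := conv 1 6 U hS
      refine ⟨fun n => Nat.casesOn n 1 r,
        fun n => Nat.casesOn (motive := fun n =>
          Matrix (Fin (Nat.casesOn (motive := fun _ => ℕ) n 1 r))
          (Fin (r n)) (MvPolynomial (Fin 8) ℚ)) n d0 d, rfl, ?_, ?_, h4⟩
      · intro v
        subst h1
        exact hU v
      · intro n
        cases n with
        | zero => exact h2
        | succ n => exact h3 n⟩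
    obtain ⟨G, hG⟩ := good_mono (N + 1)
    obtain ⟨r, d, h0, h1, -, h3⟩ := hN G.a ⟨N + 1, G, rfl, hG⟩
    let a0 : Fin (r 0) := ⟨0, by omega⟩
    have ha0 : ∀ a : Fin (r 0), a = a0 := fun a => Fin.ext (by have := a.2; simp only [a0]; omega)
    have h4 := card_le G (Finset.univ.image (fun b => d 0 a0 b)) (by
      apply le_antisymm
      · rw [Ideal.span_le]
        intro x hx
        simp only [Finset.coe_image, Finset.coe_univ, Set.image_univ, Set.mem_range] at hx
        obtain ⟨b, rfl⟩ := hx
        have := (h1 ((d 0).mulVecLin (Pi.single b 1))).mp (LinearMap.mem_range_self _ _) a0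
        simpa [Rel.ev] using this
      · intro x hx
        obtain ⟨y, hy⟩ := (h1 (fun _ => x)).mpr (fun _ => hx)
        have h5 := congrFun hy a0
        simp only [Matrix.mulVecLin_apply, Matrix.mulVec, dotProduct] at h5
        rw [← h5]
        refine Ideal.sum_mem _ (fun b _ => Ideal.mul_mem_right _ _ (Ideal.subset_span ?_))
        simp)
    have h6 : (Finset.univ.image (fun b => d 0 a0 b)).card ≤ r (0 + 1) :=
      Finset.card_image_le.trans (by simp)
    have h7 : r (0 + 1) ≤ N := h3
    omega
  · rintro g ⟨N, G, rfl, hG⟩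
    refine ⟨hG, ?_, ?_⟩
    · refine (NSG.sg_num G).subset (Set.compl_subset_compl.mpr ?_)
      rintro m ⟨c, hc⟩
      have hc' : ∑ j, c j * G.a j = m := by exact_mod_cast hc
      rw [← hc']
      exact AddSubmonoid.sum_mem _ (fun j _ =>
        AddSubmonoid.nsmul_mem _ (AddSubmonoid.subset_closure (Set.mem_range_self j)) (c j))
    · intro j hj
      have key : ∀ m ∈ AddSubmonoid.closure (G.a '' {l | l ≠ j}),
          ∃ c : Fin 8 → ℕ, c j = 0 ∧ ∑ l, c l * G.a l = m := by
        intro m hm
        induction hm using AddSubmonoid.closure_induction with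
        | mem x hx =>
          obtain ⟨l, hl, rfl⟩ := hx
          exact ⟨fun i => if i = l then 1 else 0, if_neg (Ne.symm hl), by simp⟩
        | zero => exact ⟨fun _ => 0, rfl, by simp⟩
        | add x y _ _ hx hy =>
          obtain ⟨c, hc, rfl⟩ := hx
          obtain ⟨c', hc', rfl⟩ := hy
          exact ⟨fun i => c i + c' i, by simp [hc, hc'],
            by simp only [add_mul, Finset.sum_add_distrib]⟩
      obtain ⟨c, hc, hc'⟩ := key _ hj
      exact G.minl j c hc hc'

end Pool.Agent.S00638
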