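import Pool.Statements.S00646
import Pool.Agent.H152Z.Shun.Final

set_option autoImplicit false
open Pool Pool.MP_068a9c_al

namespace Pool.Agent.S00646

/-- The negation of the preceding statement: Every periodic group in which, for each finite subgroup H, any two conjugate prime-order elements of N(H)/H generate a finite subgroup lies in the smallest extension-closed class containing all 2-groups and all groups whose 2-generated subgroups are finite. -/
theorem result :
    ¬ (∀ (G : Type) [Group G], Monoid.IsTorsion G →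
    (∀ (H : Subgroup G), (H : Set G).Finite →
      ∀ a ∈ Subgroup.normalizer (H : Set G), ∀ b ∈ Subgroup.normalizer (H : Set G),
        ∀ p : ℕ, p.Prime →
        a ∉ H → a ^ p ∈ H →
        (∃ c ∈ Subgroup.normalizer (H : Set G), c * a * c⁻¹ * b⁻¹ ∈ H) →
        ((Subgroup.closure (insert a (insert b (H : Set G)))) : Set G).Finite) →
    ∀ (C : ∀ (K : Type) [Group K], Prop),
      (∀ (K L : Type) [Group K] [Group L], (K ≃* L) → C K → C L) →
      (∀ (K : Type) [Group K], IsPGroup 2 K → C K) →
      (∀ (K : Type) [Group K],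
        (∀ x y : K, ((Subgroup.closure ({x, y} : Set K)) : Set K).Finite) → C K) →
      (∀ (K : Type) [Group K] (N : Subgroup K) [N.Normal], C ↥N → C (K ⧸ N) → C K) →
      C G) := by
  intro h
  obtain ⟨L, _, l1, l2, l3, l4, l5⟩ := H152Z.Shun.exists_group
  obtain ⟨x, hx⟩ := exists_ne (1 : L)
  refine hx (h L l2 (fun H hH a ha b hb p hp _ h1 h2 =>
    H152Z.Shun.shunkov l2 l4 H hH a ha b hb p hp h1 h2)
    (fun K _ => ∀ f : K →* L, Function.Injective f → f.range.IsSubnormal → ∀ k : K, k = 1)
    ?_ ?_ ?_ ?_ (MonoidHom.id L) (fun _ _ h => h)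
    (by rw [MonoidHom.range_eq_top.2 fun y => ⟨y, rfl⟩]; exact .top) x)
  · intro K M _ _ e hK f hf hs k
    have := hK (f.comp e.toMonoidHom) (hf.comp e.injective) (by
      rwa [MonoidHom.range_comp, MonoidHom.range_eq_top.2 e.surjective,
        ← MonoidHom.range_eq_map]) (e.symm k)
    simpa using this
  · intro K _ hK f hf _ k
    obtain ⟨n, hn⟩ := hK k
    exact hf (by rw [l3 (f k) n (by rw [← map_pow, hn, map_one]), map_one])
  · intro K _ hK f hf hs k
    by_contra hk
    obtain ⟨_, ⟨a, rfl⟩, _, ⟨b, rfl⟩, h⟩ := l5 _ hs (f k) ⟨k, rfl⟩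
      fun h => hk (hf (h.trans (map_one f).symm))
    rw [H152Z.Shun.closure_pair_map] at h
    exact h ((hK a b).image _)
  · intro K _ N hN h1 h2 f hf hs k
    have h3 := h1 (f.comp N.subtype) (hf.comp N.subtype_injective) (by
      refine .step _ _ (by rintro _ ⟨y, rfl⟩; exact ⟨_, rfl⟩) hs ⟨?_⟩
      rintro ⟨_, y, rfl⟩ ⟨z, hz⟩ ⟨_, g, rfl⟩
      refine ⟨⟨g * z * g⁻¹, hN.conj_mem _ z.2 g⟩, ?_⟩
      have hz' : f z = f y := hz
      simp [hz'])
    have h4 : ∀ y ∈ N, f y = 1 := fun y hy => by
      rw [show y = 1 from congrArg Subtype.val (h3 ⟨y, hy⟩), map_one]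
    have h5 := h2 (QuotientGroup.lift N f h4) (by
      rw [injective_iff_map_eq_one]
      intro y hy
      obtain ⟨y, rfl⟩ := QuotientGroup.mk_surjective y
      rw [hf (hy.trans (map_one f).symm)]; rfl) (by
      convert hs using 1
      ext y
      constructor
      · rintro ⟨z, rfl⟩
        obtain ⟨z, rfl⟩ := QuotientGroup.mk_surjective z
        exact ⟨z, rfl⟩
      · rintro ⟨z, rfl⟩
        exact ⟨(z : K ⧸ N), rfl⟩) k
    exact hf ((h4 k ((QuotientGroup.eq_one_iff k).1 h5)).trans (map_one f).symm)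

end Pool.Agent.S00646
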