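import Pool.Statements.S00648
import Pool.Agent.H291Z.BT.Fpf

set_option autoImplicit false
open Pool Pool.MP_06935a_al

namespace Pool.Agent.S00648

/-- The negation of the preceding statement: In any periodic group with no elements of order p, every fixed-point-free automorphism α of prime order p satisfies x·α(x)·α²(x)···α^{p−1}(x) = 1 for all x, i.e. α is splitting. -/
theorem result :
    ¬ (∀ (G : Type) [Group G], (∀ g : G, IsOfFinOrder g) →
      ∀ (p : ℕ), p.Prime →
        ∀ (α : MulAut G), orderOf α = p →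
          (∀ g : G, α g = g → g = 1) →
          (∀ g : G, g ^ p = 1 → g = 1) →
          ∀ x : G, ((List.range p).map (fun i => (α ^ i) x)).prod = 1) := by
  intro hall
  obtain ⟨H, _, p, m, ψ, a, b, hp, hm, hco, h1, h2, h3, h4, h5, h6⟩ :=
    Pool.Agent.H291Z.BT.exists_fpf
  let α : MulAut ψ.ker := MulAut.conjNormal a
  have hα : ∀ (i : ℕ) (x : ψ.ker), (((α ^ i) x : ψ.ker) : H) = a ^ i * x * (a ^ i)⁻¹ := by
    intro i x
    rw [← map_pow]
    rfl
  have hm' : ∀ g : ψ.ker, g ^ m = 1 := fun g => Subtype.ext (h1 g.1 g.2)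
  have hfpf : ∀ g : ψ.ker, α g = g → g = 1 := by
    intro g hg
    have e : a * g * a⁻¹ = g := congrArg Subtype.val hg
    obtain ⟨j, hj⟩ := Subgroup.mem_zpowers_iff.1 (h6 g (mul_inv_eq_iff_eq_mul.1 e).symm)
    have e2 : ψ a ^ j = 1 := by rw [← map_zpow, hj]; exact g.2
    obtain ⟨c, rfl⟩ := Pool.Agent.H291Z.BT.Fpf.dvd_of_zpow hp h3 e2
    apply Subtype.ext
    rw [← hj, zpow_mul, zpow_natCast, h2, one_zpow]
    rfl
  let x : ψ.ker := ⟨b * a⁻¹, by rw [MonoidHom.mem_ker, map_mul, map_inv, h4, mul_inv_cancel]⟩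
  have hprod : ∀ k : ℕ, ((((List.range k).map (fun i => (α ^ i) x)).prod : ψ.ker) : H) =
      b ^ k * (a ^ k)⁻¹ := by
    intro k
    induction k with
    | zero => simp
    | succ k ih =>
      rw [List.range_succ, List.map_append, List.prod_append, Subgroup.coe_mul, ih]
      simp only [List.map_cons, List.map_nil, List.prod_cons, List.prod_nil, mul_one, hα, x]
      rw [pow_succ b, pow_succ' a]
      group
  have hx : ((List.range p).map (fun i => (α ^ i) x)).prod ≠ 1 := by
    intro h
    have := hprod p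
    rw [h, h2, inv_one, mul_one] at this
    exact h5 this.symm
  have hord : orderOf α = p := by
    have := Fact.mk hp
    refine orderOf_eq_prime ?_ ?_
    · rw [← map_pow, h2, map_one]
    · intro h
      apply h5
      have e : x = 1 := hfpf x (by rw [h]; rfl)
      have e2 : b * a⁻¹ = 1 := congrArg Subtype.val e
      rw [mul_inv_eq_one.1 e2, h2]
  refine hx (hall ψ.ker (fun g => isOfFinOrder_iff_pow_eq_one.2 ⟨m, hm, hm' g⟩) p hp α hord hfpf
    (fun g hg => ?_) x)
  have := pow_gcd_eq_one.2 ⟨hg, hm' g⟩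
  rwa [hco.gcd_eq_one, pow_one] at this

end Pool.Agent.S00648
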