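import Pool.Statements.S00661
import Pool.Agent.H267Z.Part

set_option autoImplicit false
open Pointwise
open Pool Pool.MP_08cc25_al

namespace Pool.Agent.S00661

/-- Every infinite group G can be split into countably many pairwise disjoint sets A_n so that no A_n satisfies F·A_n = G for any subset F of G of cardinality smaller than that of G. -/
theorem result :
    ∀ (G : Type) [Group G], Infinite G →
      ∃ A : ℕ → Set G,
        (⋃ n, A n) = Set.univ ∧
        Pairwise (fun i j => Disjoint (A i) (A j)) ∧
        ∀ n, ¬ ∃ F : Set G, Cardinal.mk F < Cardinal.mk G ∧ F * A n = Set.univ := by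
  intro G _ _
  obtain ⟨c, hc⟩ := Pool.Agent.H267Z.Part.colouring G
  refine ⟨fun n => {g | c g = n}, ?_, ?_, ?_⟩
  · ext g
    simp
  · intro i j hij
    rw [Set.disjoint_left]
    intro g h1 h2
    exact hij (h1.symm.trans h2)
  · rintro n ⟨F, hF, hFA⟩
    have hF' : Cardinal.mk (F⁻¹ : Set G) < Cardinal.mk G := by
      rw [← Set.image_inv_eq_inv, Cardinal.mk_image_eq inv_injective]
      exact hF
    obtain ⟨g, hg⟩ := hc (n + 1) F⁻¹ hF'
    have hmem : g ∈ F * {g | c g = n} := by
      rw [hFA]
      exact Set.mem_univ g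
    obtain ⟨f, hf, a, ha, rfl⟩ := hmem
    have h1 := hg f⁻¹ (by simpa using hf)
    have h2 : c a = n := ha
    simp only [inv_mul_cancel_left] at h1
    omega

end Pool.Agent.S00661
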