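import Pool.Statements.S00684

set_option autoImplicit false
open Pool Pool.MP_0b625c_al

namespace Pool.Agent.S00684

/-- The negation of the preceding statement: Take the group of all unit-circle-valued maps on the unit circle, with pointwise product and sup metric. Every continuous bijective homomorphism from it onto a complete metric topological group has a continuous inverse. -/
theorem result :
    ¬ (∀ (E₁ : Type) [Group E₁] [MetricSpace E₁] [CompleteSpace E₁] [IsTopologicalGroup E₁]
      (U : (Circle → Circle) →* E₁),
      Function.Bijective U →
      (∀ x : Circle → Circle, ∀ ε > (0 : ℝ), ∃ δ > (0 : ℝ), ∀ y : Circle → Circle,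
          (∀ q : Circle, dist (x q) (y q) ≤ δ) → dist (U x) (U y) < ε) →
      (∀ x : Circle → Circle, ∀ ε > (0 : ℝ), ∃ δ > (0 : ℝ), ∀ y : Circle → Circle,
          dist (U x) (U y) < δ → ∀ q : Circle, dist (x q) (y q) ≤ ε)) := by
  intro h
  classical
  open scoped UniformConvergence PiCountable Topology in
  · have : Infinite Circle := by
      have : Nontrivial Circle := ⟨⟨1, -1, fun h => by
        have := congrArg (fun z : Circle => (z : ℂ)) h
        norm_num at this⟩⟩
      exact Infinite.of_not_fintype fun hf => by
        have := hf
        have : Subsingleton Circle := PreconnectedSpace.trivial_of_discrete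
        exact not_subsingleton Circle inferInstance
    let e : ℕ ↪ Circle := Infinite.natEmbedding Circle
    let : MetricSpace (ℕ → Circle) := PiCountable.metricSpace
    let S := {q : Circle // q ∉ Set.range e}
    let U : (Circle → Circle) →* ((ℕ → Circle) × (S →ᵤ Circle)) :=
      { toFun := fun x => (fun n => x (e n), UniformFun.ofFun fun q => x q.1)
        map_one' := rfl
        map_mul' := fun _ _ => rfl }
    have hb : Function.Bijective U := by
      constructor
      · intro x y hxy
        funext q
        by_cases hq : q ∈ Set.range e
        · obtain ⟨n, rfl⟩ := hq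
          exact congrFun (congrArg Prod.fst hxy) n
        · exact congrFun (congrArg (fun p => UniformFun.toFun p.2) hxy) ⟨q, hq⟩
      · rintro ⟨a, b⟩
        refine ⟨fun q => if hq : q ∈ Set.range e then a hq.choose
          else UniformFun.toFun b ⟨q, hq⟩, Prod.ext ?_ ?_⟩
        · funext n
          have hq : e n ∈ Set.range e := ⟨n, rfl⟩
          have : hq.choose = n := e.injective hq.choose_spec
          show (if hq : e n ∈ Set.range e then a hq.choose
            else UniformFun.toFun b ⟨e n, hq⟩) = a n
          rw [dif_pos hq, this]
        · apply UniformFun.toFun.injective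
          funext q
          show (if hq : q.1 ∈ Set.range e then a hq.choose
            else UniformFun.toFun b ⟨q.1, hq⟩) = UniformFun.toFun b q
          rw [dif_neg q.2]
    have hc : Continuous fun x : Circle →ᵤ Circle => U (UniformFun.toFun x) := by
      refine Continuous.prodMk (continuous_pi fun n => ?_) ?_
      · exact (UniformFun.lipschitzWith_eval (e n)).continuous
      · exact UniformFun.precomp_uniformContinuous.continuous
    have hT : IsTopologicalGroup ((ℕ → Circle) × (S →ᵤ Circle)) := inferInstance
    obtain ⟨δ, hδ, hy⟩ := @h ((ℕ → Circle) × (S →ᵤ Circle)) _ _ _ hT U hb (fun x ε hε => by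
      obtain ⟨δ, hδ, hy⟩ := Metric.continuous_iff.1 hc (UniformFun.ofFun x) ε hε
      refine ⟨δ / 2, half_pos hδ, fun y hxy => ?_⟩
      rw [dist_comm]
      refine hy (UniformFun.ofFun y) (lt_of_le_of_lt ?_ (half_lt_self hδ))
      rw [UniformFun.dist_le (half_pos hδ).le]
      intro q
      rw [dist_comm]
      exact hxy q) 1 1 one_pos
    have ht : Filter.Tendsto (fun n => U (Function.update 1 (e n) (-1))) Filter.atTop
        (𝓝 (U 1)) := by
      refine Filter.Tendsto.prodMk_nhds (tendsto_pi_nhds.2 fun m => ?_) ?_
      · refine tendsto_const_nhds.congr' ?_
        filter_upwards [Filter.eventually_gt_atTop m] with n hn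
        have : e m ≠ e n := fun h => hn.ne (e.injective h)
        simp [Function.update_of_ne this]
      · refine tendsto_const_nhds.congr fun n => ?_
        apply UniformFun.toFun.injective
        funext q
        have : q.1 ≠ e n := fun h => q.2 ⟨n, h.symm⟩
        simp [Function.update_of_ne this]
    obtain ⟨n, hn⟩ := (Metric.tendsto_nhds.1 ht δ hδ).exists
    have := hy _ (by rw [dist_comm]; exact hn) (e n)
    rw [Function.update_self] at this
    have h2 : dist (((1 : Circle) : ℂ)) (((-1 : Circle)) : ℂ) ≤ 1 := this
    rw [Complex.dist_eq] at h2
    norm_num at h2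

end Pool.Agent.S00684
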