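import Pool.Statements.S00750
import Pool.Agent.H395Z.GerstenC

set_option autoImplicit false
open Pool Pool.MP_0fe979_al

namespace Pool.Agent.S00750

/-- The negation of the preceding statement: Let G act on a tree without inversions, with finitely many vertex and edge orbits, free abelian finite-rank vertex stabilizers and cyclic edge stabilizers. If G is cyclic subgroup separable, is every cyclic subgroup of G a virtual retract? -/
theorem result :
    ¬ (∀ (G : Type) [Group G] (V : Type) (T : SimpleGraph V) [MulAction G V],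
    T.IsTree →
    (∀ (g : G) (u v : V), T.Adj u v → T.Adj (g • u) (g • v)) →
    (∀ (g : G) (u v : V), T.Adj u v → ¬ (g • u = v ∧ g • v = u)) →
    (∃ S : Finset V, ∀ v : V, ∃ g : G, g • v ∈ S) →
    (∃ E : Finset (V × V), ∀ u v : V, T.Adj u v → ∃ g : G, (g • u, g • v) ∈ E) →
    (∀ v : V, ∃ n : ℕ, Nonempty (↥(MulAction.stabilizer G v) ≃* Multiplicative (Fin n → ℤ))) →
    (∀ u v : V, T.Adj u v →
      IsCyclic ↥(MulAction.stabilizer G u ⊓ MulAction.stabilizer G v)) →
    (∀ g h : G, h ∉ Subgroup.zpowers g →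
      ∃ K : Subgroup G, K.FiniteIndex ∧ Subgroup.zpowers g ≤ K ∧ h ∉ K) →
    ∀ g : G, ∃ K : Subgroup G, K.FiniteIndex ∧ Subgroup.zpowers g ≤ K ∧
      ∃ r : ↥K →* G, (∀ k : ↥K, r k ∈ Subgroup.zpowers g) ∧
        (∀ k : ↥K, (k : G) ∈ Subgroup.zpowers g → r k = (k : G))) := by
  intro h
  open Pool.Agent.H395Z.Gersten in
  exact not_vr (h GG V T T_isTree adj_smul no_inversion vertex_orbits edge_orbits
    (fun v => ⟨2, stab_iso v⟩) edge_cyclic cyc_sep (inl a))

end Pool.Agent.S00750
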