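import Pool.Statements.S00854
import Pool.Agent.H847Z.FrobE

set_option autoImplicit false
open Pool Pool.MP_1b5374_al

namespace Pool.Agent.S00854

/-- The negation of the preceding statement: There is an infinite set with a primitive permutation group that is Frobenius and in which every point stabilizer is cyclic with finitely many orbits. Frobenius here means transitive, not regular, and only the identity fixes two distinct points. -/
theorem result :
    ¬ (∃ (X : Type) (G : Subgroup (Equiv.Perm X)),
      Infinite X ∧
      MulAction.IsPretransitive G X ∧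
      MulAction.IsPreprimitive G X ∧
      (∀ g : G, ∀ x y : X, x ≠ y → g • x = x → g • y = y → g = 1) ∧
      (∃ g : G, ∃ x : X, g ≠ 1 ∧ g • x = x) ∧
      ∀ x : X, IsCyclic ↥(MulAction.stabilizer G x) ∧
        Finite (MulAction.orbitRel.Quotient ↥(MulAction.stabilizer G x) X)) := by
  rintro ⟨X, G, hinf, -, hprim, hfrob, -, h⟩
  obtain ⟨B⟩ : Nonempty X := inferInstance
  obtain ⟨hc, hfin⟩ := h B
  refine Pool.Agent.H847Z.Frob.no_frobenius hfrob B (fun a b => ?_) ?_ hfin
  · exact (IsCyclic.isMulCommutative (α := MulAction.stabilizer G B)).is_comm.comm a b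
  · obtain ⟨g, hg⟩ := IsCyclic.exists_generator (α := MulAction.stabilizer G B)
    refine ⟨⟨{g}, ?_⟩⟩
    rw [Finset.coe_singleton, ← Subgroup.zpowers_eq_closure, eq_top_iff]
    exact fun x _ => hg x

end Pool.Agent.S00854
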