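import Pool.Statements.S00878
import Pool.Agent.H951Z.NubC

set_option autoImplicit false
open scoped Pointwise
open Pool Pool.MP_1dd661_al

namespace Pool.Agent.S00878

/-- The negation of the preceding statement: For a t.d.l.c. group G and a finitely generated flat group H of topological automorphisms, there are finitely many distinct elements of H whose nubs multiply, as sets, to the nub of H. -/
theorem result :
    ¬ (∀ (G : Type) [Group G] [TopologicalSpace G] [IsTopologicalGroup G]
      [LocallyCompactSpace G] [TotallyDisconnectedSpace G]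
      (H : Subgroup (MulAut G)) (tidy : MulAut G → Subgroup G → Prop),
      (∀ (a : MulAut G) (U : Subgroup G), tidy a U ↔
          ((U : Set G) =
              (⋂ n : ℕ, Set.image (⇑(a ^ n)) (U : Set G)) *
                (⋂ n : ℕ, Set.image (⇑(a⁻¹ ^ n)) (U : Set G)) ∧
            IsClosed (⋃ m : ℕ, Set.image (⇑(a ^ m))
                (⋂ n : ℕ, Set.image (⇑(a ^ n)) (U : Set G))))) →
      (∀ a ∈ H, Continuous (⇑a)) →
      H.FG →
      (∃ U : Subgroup G, IsCompact (U : Set G) ∧ IsOpen (U : Set G) ∧
          ∀ a ∈ H, tidy a U) →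
      ∃ l : List (MulAut G), l.Nodup ∧ (∀ a ∈ l, a ∈ H) ∧
        (⋂ (U : Subgroup G)
            (_ : IsCompact (U : Set G) ∧ IsOpen (U : Set G) ∧ ∀ a ∈ H, tidy a U),
            (U : Set G)) =
          (l.map (fun a => ⋂ (U : Subgroup G)
              (_ : IsCompact (U : Set G) ∧ IsOpen (U : Set G) ∧ tidy a U),
              (U : Set G))).prod) := by
  intro hall
  open Pool.Agent.H951Z.Nub in
  have hcomp : ∀ U : Subgroup GG, IsOpen (U : Set GG) → IsCompact (U : Set GG) := fun U hU =>
    (U.isClosed_of_isOpen hU).isCompact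
  open Pool.Agent.H951Z.Nub in
  obtain ⟨l, -, hl, heq⟩ := hall GG phi.range _ (fun a U => Iff.rfl) range_cont range_fg
    ⟨⊤, by simpa using isCompact_univ, by simp, fun a _ =>
      inv_tidy a ⊤ (by simp) (fun _ _ => Subgroup.mem_top _) (fun _ _ => Subgroup.mem_top _)⟩
  open Pool.Agent.H951Z.Nub in
  obtain ⟨x, t, ht, hx⟩ := exists_point l hl
  classical
  open Pool.Agent.H951Z.Nub in
  let d : GG := Pi.mulSingle x (Multiplicative.ofAdd (1 : ZMod 2))
  open Pool.Agent.H951Z.Nub in
  have hd1 : d x = 1 := by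
    refine prod_triv x _ ?_ d (heq.subset ?_)
    · intro A hA g hg
      obtain ⟨a, ha, rfl⟩ := List.mem_map.1 hA
      obtain ⟨h, m, rfl, hm, hfix⟩ := hx a ha
      obtain ⟨U, hUo, h1, h2, h3⟩ := exists_inv x h m hm hfix
      have h4 := Set.mem_iInter₂.1 hg U
        ⟨hcomp U hUo, hUo, inv_tidy _ U (U.isClosed_of_isOpen hUo) h1 h2⟩
      exact h3 g h4
    · refine Set.mem_iInter₂.2 fun U hU => ?_
      obtain ⟨-, hUo, htidy⟩ := hU
      refine delta_mem x t ht U hUo ?_ d ?_
      · intro h
        have h5 := htidy (phi h) ⟨h, rfl⟩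
        refine tidy_inv (phi h) (fun n => ?_) U (U.isClosed_of_isOpen hUo) h5.1 h5.2
        rw [← map_pow]
        exact phi_cont _
      · intro y hy
        simp [d, Pi.mulSingle_eq_of_ne hy]
  have hd2 : d x = Multiplicative.ofAdd (1 : ZMod 2) := by simp [d]
  rw [hd2] at hd1
  exact absurd hd1 (by decide)

end Pool.Agent.S00878
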