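import Pool.Statements.S00892
import Pool.Agent.H793Z.Hig.Poly

set_option autoImplicit false
open Pool Pool.MP_1f3cc2_al

namespace Pool.Agent.S00892

/-- The negation of the preceding statement: For every finite acyclic quiver Q and vector d, some rational polynomial gives, at q = ∣K∣ for every finite field K, the number of commuting pairs in rad End(⊕ P(i)^{d_i}), with the radical taken as endomorphisms mapping P into rad P. -/
theorem result :
    ¬ (∀ (V : Type) [Fintype V] [DecidableEq V] [Quiver.{1} V] [∀ a b : V, Finite (a ⟶ b)],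
      (∀ (v : V) (p : Quiver.Path v v), p.length = 0) →
      ∀ d : V → ℕ,
      ∃ P : Polynomial ℚ, ∀ (K : Type) [Field K] [Fintype K],
        ((Nat.card
          {fg : (∀ v : V, ((Σ i : V, Fin (d i) × Quiver.Path i v) →₀ K) →ₗ[K]
                    ((Σ i : V, Fin (d i) × Quiver.Path i v) →₀ K)) ×
                (∀ v : V, ((Σ i : V, Fin (d i) × Quiver.Path i v) →₀ K) →ₗ[K]
                    ((Σ i : V, Fin (d i) × Quiver.Path i v) →₀ K)) //
            (∀ (v w : V) (e : v ⟶ w),
              (fg.1 w).comp (Finsupp.lmapDomain K K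
                (fun x : (Σ i : V, Fin (d i) × Quiver.Path i v) =>
                  (⟨x.1, x.2.1, x.2.2.cons e⟩ : Σ i : V, Fin (d i) × Quiver.Path i w))) =
              (Finsupp.lmapDomain K K
                (fun x : (Σ i : V, Fin (d i) × Quiver.Path i v) =>
                  (⟨x.1, x.2.1, x.2.2.cons e⟩ : Σ i : V, Fin (d i) × Quiver.Path i w))).comp
                (fg.1 v)) ∧
            (∀ (v w : V) (e : v ⟶ w),
              (fg.2 w).comp (Finsupp.lmapDomain K K
                (fun x : (Σ i : V, Fin (d i) × Quiver.Path i v) =>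
                  (⟨x.1, x.2.1, x.2.2.cons e⟩ : Σ i : V, Fin (d i) × Quiver.Path i w))) =
              (Finsupp.lmapDomain K K
                (fun x : (Σ i : V, Fin (d i) × Quiver.Path i v) =>
                  (⟨x.1, x.2.1, x.2.2.cons e⟩ : Σ i : V, Fin (d i) × Quiver.Path i w))).comp
                (fg.2 v)) ∧
            (∀ v : V, LinearMap.range (fg.1 v) ≤
              ⨆ (u : V) (e : u ⟶ v), LinearMap.range (Finsupp.lmapDomain K K
                (fun x : (Σ i : V, Fin (d i) × Quiver.Path i u) =>
                  (⟨x.1, x.2.1, x.2.2.cons e⟩ : Σ i : V, Fin (d i) × Quiver.Path i v)))) ∧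
            (∀ v : V, LinearMap.range (fg.2 v) ≤
              ⨆ (u : V) (e : u ⟶ v), LinearMap.range (Finsupp.lmapDomain K K
                (fun x : (Σ i : V, Fin (d i) × Quiver.Path i u) =>
                  (⟨x.1, x.2.1, x.2.2.cons e⟩ : Σ i : V, Fin (d i) × Quiver.Path i v)))) ∧
            (∀ v : V, (fg.1 v).comp (fg.2 v) = (fg.2 v).comp (fg.1 v))} : ℕ) : ℚ) =
          P.eval (Fintype.card K : ℚ)) := by
  intro h
  exact Pool.Agent.H793Z.Hig.no_poly
    (h Pool.Agent.H793Z.Hig.V Pool.Agent.H793Z.Hig.acyclic (Pool.Agent.H793Z.Hig.d 44))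

end Pool.Agent.S00892
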