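import Pool.Statements.S01012
import Pool.Agent.H391Z.Pyth

set_option autoImplicit false
open Pool Pool.MP_293fae_al

namespace Pool.Agent.S01012

/-- The negation of the preceding statement: For every 2-dimensional regular local ring R with fraction field K, and every n, every sum of squares in R is a sum of n squares iff the same holds in K; that is, the Pythagoras numbers of R and K agree. -/
theorem result :
    ¬ (∀ (R : Type) [CommRing R] [IsDomain R] [IsLocalRing R] [IsNoetherianRing R],
      ringKrullDim R = 2 →
      (∃ a b : R, IsLocalRing.maximalIdeal R = Ideal.span {a, b}) →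
      ∀ (K : Type) [Field K] [Algebra R K] [IsFractionRing R K],
      ∀ n : ℕ,
        ((∀ x : R, IsSumSq x → ∃ f : Fin n → R, x = ∑ i, f i ^ 2) ↔
          (∀ x : K, IsSumSq x → ∃ f : Fin n → K, x = ∑ i, f i ^ 2))) := by
  intro h
  exact Pool.Agent.H391Z.Pyth.not_two (Pool.Agent.H391Z.Pyth.frac_two _ _
    Pool.Agent.H391Z.Pyth.jj_sq Pool.Agent.H391Z.Pyth.two_ne
    (h Pool.Agent.H391Z.Pyth.RR Pool.Agent.H391Z.Pyth.dim_RR Pool.Agent.H391Z.Pyth.max_RR))

end Pool.Agent.S01012
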