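import Pool.Statements.S01040
import Pool.Agent.H568Z.ConjMain

set_option autoImplicit false
open Pool Pool.MP_2bc940_al

namespace Pool.Agent.S01040

theorem result :
    ¬ (∀ (G : Type) [Group G],
      (∃ S : Finset G, Subgroup.closure (S : Set G) = ⊤ ∧
        Filter.limsup (fun n : ℕ =>
            ((Set.ncard (ConjClasses.mk ''
              {g : G | ∃ l : List G, l.length ≤ n ∧ (∀ x ∈ l, x ∈ S ∨ x⁻¹ ∈ S) ∧ l.prod = g}) : ℕ) : ℝ)
              ^ ((1 : ℝ) / (n : ℝ))) Filter.atTop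
          = Filter.limsup (fun n : ℕ =>
            ((Set.ncard
              {g : G | ∃ l : List G, l.length ≤ n ∧ (∀ x ∈ l, x ∈ S ∨ x⁻¹ ∈ S) ∧ l.prod = g} : ℕ) : ℝ)
              ^ ((1 : ℝ) / (n : ℝ))) Filter.atTop) →
      ∀ T : Finset G, Subgroup.closure (T : Set G) = ⊤ →
        Filter.limsup (fun n : ℕ =>
            ((Set.ncard (ConjClasses.mk ''
              {g : G | ∃ l : List G, l.length ≤ n ∧ (∀ x ∈ l, x ∈ T ∨ x⁻¹ ∈ T) ∧ l.prod = g}) : ℕ) : ℝ)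
              ^ ((1 : ℝ) / (n : ℝ))) Filter.atTop
          = Filter.limsup (fun n : ℕ =>
            ((Set.ncard
              {g : G | ∃ l : List G, l.length ≤ n ∧ (∀ x ∈ l, x ∈ T ∨ x⁻¹ ∈ T) ∧ l.prod = g} : ℕ) : ℝ)
              ^ ((1 : ℝ) / (n : ℝ))) Filter.atTop) := by
  intro h
  obtain ⟨G, inst, S, T, hS, hT, h1, h2⟩ := Pool.Agent.H568Z.Conj.main
  exact h2.ne (h G ⟨S, hS, h1⟩ T hT)

end Pool.Agent.S01040
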