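import Pool.Statements.S01068
import Pool.Agent.H162Z.AutR2

set_option autoImplicit false
open Pool Pool.MP_2d9567_al

namespace Pool.Agent.S01068

/-- The negation of the preceding statement: If an ℓ-group G has the property that every group operation compatible with its lattice gives an ℓ-group isomorphic to G via a lattice automorphism, then G is abelian. -/
theorem result :
    ¬ (∀ (L : Type) [Lattice L] (G : Group L),
      (∀ a b c : L, a ≤ b → G.mul c a ≤ G.mul c b ∧ G.mul a c ≤ G.mul b c) →
      (∀ H : Group L,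
        (∀ a b c : L, a ≤ b → H.mul c a ≤ H.mul c b ∧ H.mul a c ≤ H.mul b c) →
        ∃ φ : L ≃o L, ∀ x y : L, φ (G.mul x y) = H.mul (φ x) (φ y)) →
      ∀ x y : L, G.mul x y = G.mul y x) := by
  intro h
  refine Pool.Agent.H162Z.AutR.not_comm (h Pool.Agent.H162Z.AutR.A inferInstance ?_ ?_)
  · intro a b c hab
    exact ⟨Pool.Agent.H162Z.AutR.mul_mono_left c hab, Pool.Agent.H162Z.AutR.mul_mono_right c hab⟩
  · intro H hH
    exact Pool.Agent.H162Z.AutR.Compat.iso ⟨H.mul, H.one, H.inv, H.mul_assoc, H.one_mul, H.mul_one,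
      H.inv_mul_cancel, @mul_inv_cancel _ H, fun a b c hab => (hH a b c hab).1,
      fun a b c hab => (hH a b c hab).2⟩

end Pool.Agent.S01068
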