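import Pool.Statements.S01090
import Pool.Agent.H129Z.Dep.Int

set_option autoImplicit false
open Pool Pool.MP_30655b_al

namespace Pool.Agent.S01090

/-- The negation of the preceding statement: For every field K, every monomial ideal I of K[X_1..X_r] and every m ≥ 1, the depth of R modulo the integral closure of I^(m+1) is at most the depth of R modulo the integral closure of I^m. -/
theorem result :
    ¬ (∀ (K : Type) [Field K] (r : ℕ) (S : Set (Fin r →₀ ℕ)) (m : ℕ), 1 ≤ m →
      ∀ rs : List (MvPolynomial (Fin r) K),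
        (∀ x ∈ rs, x ∈ Ideal.span
            (Set.range (fun i : Fin r => (MvPolynomial.X i : MvPolynomial (Fin r) K)))) →
        RingTheory.Sequence.IsRegular
          (MvPolynomial (Fin r) K ⧸ Ideal.span
            {f : MvPolynomial (Fin r) K | ∃ n : ℕ, 1 ≤ n ∧
              ∃ a : ℕ → MvPolynomial (Fin r) K,
                (∀ i : ℕ, a i ∈ ((Ideal.span
                    ((fun s : Fin r →₀ ℕ => MvPolynomial.monomial s (1 : K)) '' S)) ^ (m + 1)) ^ i) ∧
                f ^ n + ∑ i ∈ Finset.range n, a (n - i) * f ^ i = 0}) rs →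
        ∃ ss : List (MvPolynomial (Fin r) K), ss.length = rs.length ∧
          (∀ x ∈ ss, x ∈ Ideal.span
            (Set.range (fun i : Fin r => (MvPolynomial.X i : MvPolynomial (Fin r) K)))) ∧
          RingTheory.Sequence.IsRegular
            (MvPolynomial (Fin r) K ⧸ Ideal.span
              {f : MvPolynomial (Fin r) K | ∃ n : ℕ, 1 ≤ n ∧
                ∃ a : ℕ → MvPolynomial (Fin r) K,
                  (∀ i : ℕ, a i ∈ ((Ideal.span
                      ((fun s : Fin r →₀ ℕ => MvPolynomial.monomial s (1 : K)) '' S)) ^ m) ^ i) ∧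
                  f ^ n + ∑ i ∈ Finset.range n, a (n - i) * f ^ i = 0}) ss) := by
  intro h
  obtain ⟨rs, hl, hm, hr⟩ := Pool.Agent.H129Z.Dep.reg3 (K := ℚ)
  obtain ⟨ss, h1, h2, h3⟩ := h ℚ 10 Pool.Agent.H129Z.Dep.SS 2 (by norm_num) rs hm hr
  exact Pool.Agent.H129Z.Dep.reg2 (K := ℚ) ⟨ss, h1.trans hl, h2, h3⟩

end Pool.Agent.S01090
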