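import Pool.Statements.S01146
import Pool.Agent.H268Z.Commute

set_option autoImplicit false
open Pointwise
open Pool Pool.MP_34521c_al

namespace Pool.Agent.S01146

/-- The negation of the preceding statement: For every group G partitioned into n nonempty cells that pairwise commute as sets, some cell A has the property that at most n translates of A·A⁻¹ cover G. -/
theorem result :
    ¬ (∀ (G : Type) [Group G] (n : ℕ) (A : Fin n → Set G),
      (∀ i, (A i).Nonempty) →
      Pairwise (fun i j => Disjoint (A i) (A j)) →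
      (⋃ i, A i) = Set.univ →
      (∀ i j, A i * A j = A j * A i) →
      ∃ i : Fin n, ∃ F : Finset G, F.card ≤ n ∧
        (F : Set G) * (A i * (A i)⁻¹) = Set.univ) := by
  intro H
  classical
  obtain ⟨c, hc, hd⟩ := Pool.Agent.H268Z.Commute.exists_good
  have huniv : ∀ i j : Fin 9, ({x | c x = i} : Set (FreeGroup ℕ)) * {x | c x = j} = Set.univ := by
    intro i j
    refine Set.eq_univ_of_forall fun g => ?_
    obtain ⟨a, ha, hb⟩ := hd i j g
    exact Set.mem_mul.2 ⟨a, ha, a⁻¹ * g, hb, by group⟩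
  obtain ⟨i, F, hF, hcov⟩ := H (FreeGroup ℕ) 9 (fun i => {x | c x = i})
    (fun i => by
      obtain ⟨a, ha, -⟩ := hd i i 1
      exact ⟨a, ha⟩)
    (by
      intro i j hij
      rw [Set.disjoint_left]
      intro x hx hx'
      exact hij (hx.symm.trans hx'))
    (by
      ext x
      simp only [Set.mem_iUnion, Set.mem_univ, iff_true]
      exact ⟨c x, rfl⟩)
    (fun i j => (huniv i j).trans (huniv j i).symm)
  obtain ⟨t, ht⟩ := hc i (F.image (fun p => p⁻¹)) (Finset.card_image_le.trans hF)
  have hmem : t ∈ (F : Set (FreeGroup ℕ)) *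
      ({x | c x = i} * ({x | c x = i} : Set (FreeGroup ℕ))⁻¹) := by
    rw [hcov]; exact Set.mem_univ _
  obtain ⟨x, hx, v, hv, hxv⟩ := Set.mem_mul.1 hmem
  obtain ⟨a, ha, b, hb, hab⟩ := Set.mem_mul.1 hv
  have hb' : c b⁻¹ = i := hb
  apply ht b⁻¹ x⁻¹ (Finset.mem_image_of_mem _ hx)
  refine ⟨?_, hb'⟩
  have : x⁻¹ * (t * b⁻¹) = a := by
    rw [← hxv, ← hab]; group
  rw [this]; exact ha

end Pool.Agent.S01146
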