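import Pool.Statements.S01185
import Pool.Agent.H212Z.AltMain

set_option autoImplicit false
open Pool Pool.MP_3720ba_al

namespace Pool.Agent.S01185

/-- For every characteristic-0 field F, there are two sets of identities, each failing in some alternative F-algebra, such that any identity true in all alternative algebras satisfying either set is true in all alternative algebras. -/
theorem result :
  ∀ (F : Type) [Field F] [CharZero F],
    ∃ S₁ S₂ : Set (FreeNonUnitalNonAssocAlgebra F ℕ),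
      (∃ (A : Type) (_ : NonUnitalNonAssocRing A) (_ : Module F A)
          (_ : IsScalarTower F A A) (_ : SMulCommClass F A A),
          (∀ x y : A, (x * x) * y = x * (x * y) ∧ (y * x) * x = y * (x * x)) ∧
          ∃ s ∈ S₁, ∃ φ : ℕ → A, FreeNonUnitalNonAssocAlgebra.lift F φ s ≠ 0) ∧
      (∃ (A : Type) (_ : NonUnitalNonAssocRing A) (_ : Module F A)
          (_ : IsScalarTower F A A) (_ : SMulCommClass F A A),
          (∀ x y : A, (x * x) * y = x * (x * y) ∧ (y * x) * x = y * (x * x)) ∧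
          ∃ s ∈ S₂, ∃ φ : ℕ → A, FreeNonUnitalNonAssocAlgebra.lift F φ s ≠ 0) ∧
      (∀ f : FreeNonUnitalNonAssocAlgebra F ℕ,
        (∀ (A : Type) [NonUnitalNonAssocRing A] [Module F A]
            [IsScalarTower F A A] [SMulCommClass F A A],
            (∀ x y : A, (x * x) * y = x * (x * y) ∧ (y * x) * x = y * (x * x)) →
            (∀ s ∈ S₁, ∀ φ : ℕ → A, FreeNonUnitalNonAssocAlgebra.lift F φ s = 0) →
            ∀ φ : ℕ → A, FreeNonUnitalNonAssocAlgebra.lift F φ f = 0) →
        (∀ (A : Type) [NonUnitalNonAssocRing A] [Module F A]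
            [IsScalarTower F A A] [SMulCommClass F A A],
            (∀ x y : A, (x * x) * y = x * (x * y) ∧ (y * x) * x = y * (x * x)) →
            (∀ s ∈ S₂, ∀ φ : ℕ → A, FreeNonUnitalNonAssocAlgebra.lift F φ s = 0) →
            ∀ φ : ℕ → A, FreeNonUnitalNonAssocAlgebra.lift F φ f = 0) →
        ∀ (A : Type) [NonUnitalNonAssocRing A] [Module F A]
            [IsScalarTower F A A] [SMulCommClass F A A],
            (∀ x y : A, (x * x) * y = x * (x * y) ∧ (y * x) * x = y * (x * x)) →
            ∀ φ : ℕ → A, FreeNonUnitalNonAssocAlgebra.lift F φ f = 0) := by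
  intro F _ _
  refine ⟨{Pool.Agent.H212Z.Alt.sOne F}, {Pool.Agent.H212Z.Alt.sTwo F}, ?_, ?_, ?_⟩
  · obtain ⟨A, i1, i2, i3, i4, hA, φ, hφ⟩ := Pool.Agent.H212Z.Alt.ex_one (F := F)
    exact ⟨A, i1, i2, i3, i4, hA, _, rfl, φ, hφ⟩
  · obtain ⟨A, i1, i2, i3, i4, hA, φ, hφ⟩ := Pool.Agent.H212Z.Alt.ex_two (F := F)
    exact ⟨A, i1, i2, i3, i4, hA, _, rfl, φ, hφ⟩
  · intro f H1 H2 A _ _ _ _ hA φ
    exact Pool.Agent.H212Z.Alt.decomp f
      (fun B _ _ _ _ hB hs => H1 B hB (fun s h => by rw [Set.mem_singleton_iff.mp h]; exact hs))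
      (fun B _ _ _ _ hB hs => H2 B hB (fun s h => by rw [Set.mem_singleton_iff.mp h]; exact hs))
      A hA φ

end Pool.Agent.S01185
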