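import Pool.Statements.S01194
import Pool.Agent.H252Z.Hayashi

set_option autoImplicit false
open Pool Pool.MP_37d31d_al

namespace Pool.Agent.S01194

/-- The negation of the preceding statement: In every finite connected quandle, for each element x, some cycle of the translation by x has a length divisible by the length of every cycle of that translation; that is, all cycle lengths divide the largest one. -/
theorem result :
    ¬ (∀ (X : Type) [Quandle X] [Fintype X],
      (∀ a b : X, ∃ g ∈ Subgroup.closure (Set.range (Rack.act' : X → Equiv.Perm X)), g a = b) →
      ∀ x : X, ∃ z : X, ∀ y : X,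
        Function.minimalPeriod (Shelf.act x) y ∣ Function.minimalPeriod (Shelf.act x) z) := by
  intro h
  letI : Fintype Pool.Agent.H252Z.Hayashi.Q := Fintype.ofFinite _
  exact Pool.Agent.H252Z.Hayashi.no_regular_cycle
    (h Pool.Agent.H252Z.Hayashi.Q Pool.Agent.H252Z.Hayashi.connected' Pool.Agent.H252Z.Hayashi.o)

end Pool.Agent.S01194
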