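import Pool.Statements.S01206
import Pool.Agent.H291Z.BT.XY

set_option autoImplicit false
open Pool Pool.MP_38b588_al

namespace Pool.Agent.S01206

/-- The negation of the preceding statement: For every word w in n letters and every group G: G is finite or satisfies the law w=1 iff for any n infinite subsets X_i of G one can pick x_i in X_i with w(x_1,…,x_n)=1. -/
theorem result :
    ¬ (∀ (n : ℕ) (w : FreeGroup (Fin n)) (G : Type) [Group G],
      (Finite G ∨ ∀ x : Fin n → G, FreeGroup.lift x w = 1) ↔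
        (∀ X : Fin n → Set G, (∀ i, (X i).Infinite) →
          ∃ x : Fin n → G, (∀ i, x i ∈ X i) ∧ FreeGroup.lift x w = 1)) := by
  intro hall
  obtain ⟨H, _, n, hinf, -, hB, hD⟩ := Pool.Agent.H291Z.BT.exists_xy
  have hw : ∀ x : Fin 2 → H,
      FreeGroup.lift x ((FreeGroup.of 0 * FreeGroup.of 1) ^ n) = (x 0 * x 1) ^ n := by
    intro x
    simp
  rcases (hall 2 ((FreeGroup.of 0 * FreeGroup.of 1) ^ n) H).2 (fun X hX => by
    by_contra hcon
    have hne : ∀ x ∈ X 0, ∀ y ∈ X 1, (x * y) ^ n ≠ 1 := by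
      intro x hx y hy h
      refine hcon ⟨![x, y], fun i => ?_, ?_⟩
      · fin_cases i
        · exact hx
        · exact hy
      · rw [hw]; exact h
    obtain ⟨x, hx, x', hx', hxx⟩ := (hX 0).nontrivial
    refine hX 1 (Set.Finite.of_finite_image (f := fun y => x * y)
      ((hD (x * x'⁻¹) (by rwa [Ne, mul_inv_eq_one])).subset ?_)
      (fun a _ b _ h => mul_left_cancel h))
    rintro _ ⟨y, hy, rfl⟩
    refine ⟨hne x hx y hy, ?_⟩
    have e : (x * y)⁻¹ * (x * x'⁻¹) = (x' * y)⁻¹ := by group
    show ((x * y)⁻¹ * (x * x'⁻¹)) ^ n ≠ 1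
    rw [e, inv_pow, inv_ne_one]
    exact hne x' hx' y hy) with h | h
  · exact not_finite H
  · obtain ⟨g, hg⟩ := hB.nonempty
    have := h ![g, 1]
    rw [hw] at this
    exact hg (by simpa using this)

end Pool.Agent.S01206
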