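import Pool.Statements.S01235
import Pool.Agent.H840Z.OrthoImage

set_option autoImplicit false
open Polynomial
open Pool Pool.MP_3bbc5b_al

namespace Pool.Agent.S01235

/-- For the Hermite, Laguerre and Jacobi operators (α, β > −1), the polynomials lying in the image of ℂ[t] form a Mathieu subspace: if every power a^m (m ≥ 1) is in it, then b·a^m is in it for all large m, for every polynomial b. -/
theorem result :
    (∀ a b : Polynomial ℂ,
      (∀ m : ℕ, 1 ≤ m → ∃ f : Polynomial ℂ, a ^ m = derivative f - 2 * X * f) →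
      ∃ N : ℕ, ∀ m : ℕ, N ≤ m → ∃ f : Polynomial ℂ, b * a ^ m = derivative f - 2 * X * f) ∧
    (∀ α : ℝ, -1 < α → ∀ a b : Polynomial ℂ,
      (∀ m : ℕ, 1 ≤ m → ∃ f : Polynomial ℂ,
        X * a ^ m = X * derivative f + (C (α : ℂ) - X) * f) →
      ∃ N : ℕ, ∀ m : ℕ, N ≤ m → ∃ f : Polynomial ℂ,
        X * (b * a ^ m) = X * derivative f + (C (α : ℂ) - X) * f) ∧
    (∀ α β : ℝ, -1 < α → -1 < β → ∀ a b : Polynomial ℂ,
      (∀ m : ℕ, 1 ≤ m → ∃ f : Polynomial ℂ,
        (1 - X ^ 2) * a ^ m = (1 - X ^ 2) * derivative f - C (α : ℂ) * (1 + X) * f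
          + C (β : ℂ) * (1 - X) * f) →
      ∃ N : ℕ, ∀ m : ℕ, N ≤ m → ∃ f : Polynomial ℂ,
        (1 - X ^ 2) * (b * a ^ m) = (1 - X ^ 2) * derivative f - C (α : ℂ) * (1 + X) * f
          + C (β : ℂ) * (1 - X) * f) := by
  refine ⟨?_, ?_, ?_⟩
  · intro a b hm
    have h := Pool.Agent.H840Z.OrthoImage.mathieu (K := ℂ) 1 (-(2 * X)) 0 0 1 (-2) 0
      (by simp) (by simp only [derivative_one, map_neg, map_ofNat, map_zero]; ring) (by simp) one_ne_zero (by simp) (by simp) a b (by
        intro m hm1
        obtain ⟨f, hf⟩ := hm m hm1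
        exact ⟨f, by rw [hf]; ring⟩)
    obtain ⟨N, hN⟩ := h
    refine ⟨N, fun m hm1 => ?_⟩
    obtain ⟨f, hf⟩ := hN m hm1
    exact ⟨f, by linear_combination hf⟩
  · intro α hα a b hm
    refine Pool.Agent.H840Z.OrthoImage.mathieu (K := ℂ) X (C (α : ℂ) - X) 0 1 0 (-1) (1 + α)
      (by simp) (by simp; ring) (by simp) X_ne_zero (by simp) ?_ a b hm
    intro r hr j
    have hr0 : r = 0 := by simpa using hr
    subst hr0
    have : ((j : ℝ) + 1 + α) ≠ 0 := by
      have : (0 : ℝ) ≤ j := Nat.cast_nonneg j
      linarith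
    have h2 : (((j : ℝ) + 1 + α : ℝ) : ℂ) ≠ 0 := by exact_mod_cast this
    simpa using h2
  · intro α β hα hβ a b hm
    have hroot : ∀ r : ℂ, (1 - X ^ 2 : ℂ[X]).eval r = 0 → r = 1 ∨ r = -1 := by
      intro r hr
      have : (r - 1) * (r + 1) = 0 := by
        simp only [eval_sub, eval_one, eval_pow, eval_X] at hr
        linear_combination -hr
      rcases mul_eq_zero.1 this with h | h
      · left; linear_combination h
      · right; linear_combination h
    have hder : derivative (1 - X ^ 2 : ℂ[X]) = -(2 * X) := by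
      simp only [derivative_sub, derivative_one, derivative_X_pow, map_natCast]
      push_cast
      ring
    have h := Pool.Agent.H840Z.OrthoImage.mathieu (K := ℂ) (1 - X ^ 2)
      (-(C (α : ℂ) * (1 + X)) + C (β : ℂ) * (1 - X)) (-1) 0 1 (-2 - α - β) (β - α)
      (by simp; ring) (by
        rw [hder]
        simp only [map_sub, map_neg, map_ofNat]
        ring) (by
        intro n
        have : ((n : ℝ) * (-1) + (-2 - α - β)) ≠ 0 := by
          have : (0 : ℝ) ≤ n := Nat.cast_nonneg n
          linarith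
        have h2 : (((n : ℝ) * (-1) + (-2 - α - β) : ℝ) : ℂ) ≠ 0 := by exact_mod_cast this
        simpa using h2) (by
        intro h0
        have := congrArg (eval 0) h0
        simp at this) (by
        intro r hr
        rw [hder]
        rcases hroot r hr with rfl | rfl <;> simp) (by
        intro r hr j
        rw [hder]
        have hj : (0 : ℝ) ≤ j := Nat.cast_nonneg j
        rcases hroot r hr with rfl | rfl
        · have : ((j : ℝ) + 1 + α) ≠ 0 := by linarith
          have h2 : (((j : ℝ) + 1 + α : ℝ) : ℂ) ≠ 0 := by exact_mod_cast this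
          push_cast at h2
          simp only [eval_neg, eval_mul, eval_ofNat, eval_X, eval_add, eval_C, eval_one, eval_sub]
          intro hc
          apply h2
          linear_combination (-1 / 2 : ℂ) * hc
        · have : ((j : ℝ) + 1 + β) ≠ 0 := by linarith
          have h2 : (((j : ℝ) + 1 + β : ℝ) : ℂ) ≠ 0 := by exact_mod_cast this
          push_cast at h2
          simp only [eval_neg, eval_mul, eval_ofNat, eval_X, eval_add, eval_C, eval_one, eval_sub]
          intro hc
          apply h2
          linear_combination (1 / 2 : ℂ) * hc) a b (by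
        intro m hm1
        obtain ⟨f, hf⟩ := hm m hm1
        exact ⟨f, by rw [hf]; ring⟩)
    obtain ⟨N, hN⟩ := h
    refine ⟨N, fun m hm1 => ?_⟩
    obtain ⟨f, hf⟩ := hN m hm1
    exact ⟨f, by linear_combination hf⟩

end Pool.Agent.S01235
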