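import Pool.Statements.S01256
import Pool.Agent.H540Z.Lock.Ex

set_option autoImplicit false
open Pool Pool.MP_3dadb8_al

namespace Pool.Agent.S01256

/-- The negation of the preceding statement: Every Fitting class of finite soluble groups whose radical of a direct product is the product of the radicals is R0-closed: if G has quotients by two normal subgroups meeting trivially both in the class, then G is in it. -/
theorem result :
    ¬ (∀ (X : (G : Type) → [Group G] → Prop),
      (∃ (G : Type) (_ : Group G), X G) →
      (∀ (G : Type) [Group G], X G → Finite G ∧ IsSolvable G) →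
      (∀ (G H : Type) [Group G] [Group H], Nonempty (G ≃* H) → X G → X H) →
      (∀ (G : Type) [Group G] (N : Subgroup G), N.Normal → X G → X ↥N) →
      (∀ (G : Type) [Group G] [Finite G], IsSolvable G →
          ∀ (M N : Subgroup G), M.Normal → N.Normal → X ↥M → X ↥N → X ↥(M ⊔ N)) →
      (∀ (G H : Type) [Group G] [Group H] [Finite G] [Finite H],
          IsSolvable G → IsSolvable H →
          (⨆ (K : Subgroup (G × H)) (_ : K.Normal ∧ X ↥K), K) =
            (⨆ (A : Subgroup G) (_ : A.Normal ∧ X ↥A), A).prod
              (⨆ (B : Subgroup H) (_ : B.Normal ∧ X ↥B), B)) →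
      ∀ (G : Type) [Group G] [Finite G], IsSolvable G →
        ∀ (H₁ H₂ : Type) [Group H₁] [Group H₂] (f₁ : G →* H₁) (f₂ : G →* H₂),
          Function.Surjective f₁ → Function.Surjective f₂ →
          f₁.ker ⊓ f₂.ker = ⊥ → X H₁ → X H₂ → X G) := by
  intro h
  open Pool.Agent.H540Z.Lock in
  exact not_X_GG (h XX ⟨PUnit, inferInstance, fitX.triv _⟩ fitX.fin fitX.iso fitX.nor fitX.sup
    (fun G H _ _ _ _ h1 h2 => rad_prod fitX G H h1 h2) GG (inferInstance : Group.IsSolvable GG)
    H1 HH f1 f2 f1_surj f2_surj ker_inf X_H1 X_HH)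

end Pool.Agent.S01256
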