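import Pool.Statements.S01303
import Pool.Agent.H567Z.LP

set_option autoImplicit false
open Pool Pool.MP_417230_al

namespace Pool.Agent.S01303

/-- Every complete Hausdorff abelian topological group that is locally minimal has a compact subgroup K such that the quotient G/K is metrizable. -/
theorem result :
    ∀ (G : Type) [AddCommGroup G] [UniformSpace G] [IsUniformAddGroup G] [T2Space G]
      [CompleteSpace G],
      (∃ V ∈ nhds (0 : G), ∀ σ : TopologicalSpace G,
          @IsTopologicalAddGroup G σ _ → @T2Space G σ →
          (UniformSpace.toTopologicalSpace : TopologicalSpace G) ≤ σ →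
          V ∈ @nhds G σ 0 → σ = (UniformSpace.toTopologicalSpace : TopologicalSpace G)) →
      ∃ K : AddSubgroup G, IsCompact (K : Set G) ∧ TopologicalSpace.MetrizableSpace (G ⧸ K) := by
  rintro G _ _ _ _ _ ⟨U, hU, hmin⟩
  exact H567Z.PS.feathered (U := U) ⟨hU, hmin⟩

end Pool.Agent.S01303
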