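import Pool.Statements.S01315
import Pool.Agent.H921Z.Loop.Main

set_option autoImplicit false
open Pool Pool.MP_427786_al

namespace Pool.Agent.S01315

/-- For every finite automorphic loop (a loop whose inner mappings L_{x,y}, R_{x,y}, T_x are all automorphisms), its order is a power of 2 if and only if every element has order a power of 2. -/
theorem result :
  ∀ (Q : Type) [Fintype Q] (op : Q → Q → Q) (e : Q),
    (∀ x, op e x = x ∧ op x e = x) →
    (∀ x, Function.Bijective (fun y => op x y)) →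
    (∀ x, Function.Bijective (fun y => op y x)) →
    (∀ x y z₁ z₂ w₁ w₂ : Q,
      op (op y x) w₁ = op y (op x z₁) →
      op (op y x) w₂ = op y (op x z₂) →
      op (op y x) (op w₁ w₂) = op y (op x (op z₁ z₂))) →
    (∀ x y z₁ z₂ w₁ w₂ : Q,
      op w₁ (op x y) = op (op z₁ x) y →
      op w₂ (op x y) = op (op z₂ x) y →
      op (op w₁ w₂) (op x y) = op (op (op z₁ z₂) x) y) →
    (∀ x z₁ z₂ w₁ w₂ : Q,
      op w₁ x = op x z₁ →
      op w₂ x = op x z₂ →
      op (op w₁ w₂) x = op x (op z₁ z₂)) →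
    ((∃ k : ℕ, Fintype.card Q = 2 ^ k) ↔
      ∀ x : Q, ∃ k : ℕ, (fun y => op y x)^[2 ^ k] e = e) := by
  intro Q _ op e h1 h2 h3 h4 _ h6
  letI : H284Z.ALoop Q :=
    { mul := op
      one := e
      one_mul := fun x => (h1 x).1
      mul_one := fun x => (h1 x).2
      bijL := h2
      bijR := h3
      autL := fun x y u v a b => h4 y x u v a b
      autT := h6 }
  constructor
  · rintro ⟨k, hk⟩ x
    obtain ⟨j, hj⟩ := H921Z.Loop.two_elt_of_card (Q := Q) (k := k)
      (by rw [Nat.card_eq_fintype_card, hk]) x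
    exact ⟨j, (H921Z.Loop.pw_eq x _).symm.trans hj⟩
  · intro h
    obtain ⟨k, hk⟩ := H921Z.Loop.card_of_two_elt (Q := Q) (fun x => by
      obtain ⟨j, hj⟩ := h x
      exact ⟨j, (H921Z.Loop.pw_eq x _).trans hj⟩)
    exact ⟨k, by rw [← Nat.card_eq_fintype_card, hk]⟩

end Pool.Agent.S01315
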