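import Pool.Statements.S01317
import Pool.Agent.H284Z.Hall

set_option autoImplicit false
open Pool Pool.MP_428e1d_al

namespace Pool.Agent.S01317

/-- Every finite automorphic loop that is solvable (normal series with abelian group factors) has, for each set of primes P, a subloop whose order involves only primes in P and whose index involves only primes outside P. -/
theorem result :
  ∀ (Q : Type) [Fintype Q] (mul : Q → Q → Q) (e : Q),
    (∀ x, mul e x = x ∧ mul x e = x) →
    (∀ a, Function.Bijective (mul a)) →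
    (∀ a, Function.Bijective (fun x => mul x a)) →
    (∀ x y u v a b, mul (mul x y) a = mul x (mul y u) →
        mul (mul x y) b = mul x (mul y v) →
        mul (mul x y) (mul a b) = mul x (mul y (mul u v))) →
    (∀ x y u v a b, mul a (mul y x) = mul (mul u y) x →
        mul b (mul y x) = mul (mul v y) x →
        mul (mul a b) (mul y x) = mul (mul (mul u v) y) x) →
    (∀ x u v a b, mul a x = mul x u → mul b x = mul x v →
        mul (mul a b) x = mul x (mul u v)) →
    (∃ (n : ℕ) (S : ℕ → Set Q), S 0 = {e} ∧ S n = Set.univ ∧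
      ∀ i < n, S i ⊆ S (i + 1) ∧ e ∈ S i ∧
        (∀ a ∈ S i, ∀ b ∈ S i, mul a b ∈ S i) ∧
        (∀ x ∈ S (i + 1), ∀ y ∈ S (i + 1), ∀ m ∈ S i,
          (∃ m' ∈ S i, mul x m = mul m' x) ∧
          (∃ m' ∈ S i, mul (mul m x) y = mul m' (mul x y)) ∧
          (∃ m' ∈ S i, mul y (mul x m) = mul (mul y x) m')) ∧
        (∀ x ∈ S (i + 1), ∀ y ∈ S (i + 1), ∀ z ∈ S (i + 1),
          (∃ m ∈ S i, mul (mul x y) z = mul (mul x (mul y z)) m) ∧
          (∃ m ∈ S i, mul x y = mul (mul y x) m))) →
    ∀ P : Set ℕ, ∃ H : Finset Q, e ∈ H ∧ (∀ a ∈ H, ∀ b ∈ H, mul a b ∈ H) ∧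
      ∃ k : ℕ, H.card * k = Fintype.card Q ∧
        (∀ p : ℕ, p.Prime → p ∣ H.card → p ∈ P) ∧
        (∀ p : ℕ, p.Prime → p ∣ k → p ∉ P) := by
  intro Q _ mul e h1 h2 h3 h4 _ h6 hS P
  classical
  letI : H284Z.ALoop Q :=
    { mul := mul
      one := e
      one_mul := fun x => (h1 x).1
      mul_one := fun x => (h1 x).2
      bijL := h2
      bijR := h3
      autL := h4
      autT := h6 }
  have hSolv : H284Z.Solv Q := by
    obtain ⟨n, S, h0, hn, h⟩ := hS
    let T : ℕ → Submonoid Q := fun i =>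
      if hi : i < n then
        { carrier := S i
          one_mem' := (h i hi).2.1
          mul_mem' := fun {a b} ha hb => (h i hi).2.2.1 a ha b hb }
      else ⊤
    have hT : ∀ i ≤ n, ∀ x, x ∈ T i ↔ x ∈ S i := by
      intro i hi x
      by_cases hi' : i < n
      · simp only [T, dif_pos hi']; rfl
      · have : i = n := by omega
        subst this
        simp only [T, dif_neg hi', hn]
        simp
    refine ⟨n, T, ?_, ?_, ?_⟩
    · ext x
      rw [hT 0 (Nat.zero_le n), h0]; rfl
    · simp [T]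
    · intro i hi x hx y hy z hz
      rw [hT _ (by omega)] at hx hy hz
      obtain ⟨⟨m, hm, e1⟩, ⟨m', hm', e2⟩⟩ := (h i hi).2.2.2.2 x hx y hy z hz
      exact ⟨⟨m, (hT i hi.le m).2 hm, e1⟩, ⟨m', (hT i hi.le m').2 hm', e2⟩⟩
  obtain ⟨H, k, e1, e2, e3⟩ := H284Z.hall P hSolv
  have hc : (Finset.univ.filter (· ∈ H)).card = Nat.card H := by
    rw [Nat.card_eq_fintype_card, Fintype.card_subtype]
  refine ⟨Finset.univ.filter (· ∈ H), ?_, ?_, k, ?_, ?_, e3⟩
  · simp only [Finset.mem_filter, Finset.mem_univ, true_and]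
    exact one_mem H
  · intro a ha b hb
    simp only [Finset.mem_filter, Finset.mem_univ, true_and] at ha hb ⊢
    exact mul_mem ha hb
  · rw [hc, e1, Nat.card_eq_fintype_card]
  · rw [hc]; exact e2

end Pool.Agent.S01317
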