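import Pool.Statements.S01362
import Pool.Agent.H744Z.HigFin

set_option autoImplicit false
open Pool Pool.MP_4804cd_al

namespace Pool.Agent.S01362

/-- Higman's group has a finitely generated subgroup which is not finitely presented. -/
theorem result :
    ¬ (∀ K : Subgroup (PresentedGroup (Set.range (fun i : Fin 4 =>
        (FreeGroup.of (i + 1))⁻¹ * FreeGroup.of i * FreeGroup.of (i + 1) * (FreeGroup.of i ^ 2)⁻¹))),
      K.FG →
        ∃ (n : ℕ) (rels : Finset (FreeGroup (Fin n))),
          Nonempty (PresentedGroup (rels : Set (FreeGroup (Fin n))) ≃* K)) := by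
  intro h
  have hrel : ∀ i : Fin 4, ((PresentedGroup.of (i + 1))⁻¹ * PresentedGroup.of i *
      PresentedGroup.of (i + 1) : PresentedGroup (Set.range (fun i : Fin 4 =>
        (FreeGroup.of (i + 1))⁻¹ * FreeGroup.of i * FreeGroup.of (i + 1) *
          (FreeGroup.of i ^ 2)⁻¹))) = PresentedGroup.of i ^ 2 := by
    intro i
    have := PresentedGroup.one_of_mem (rels := (Set.range (fun i : Fin 4 =>
        (FreeGroup.of (i + 1))⁻¹ * FreeGroup.of i * FreeGroup.of (i + 1) *
          (FreeGroup.of i ^ 2)⁻¹))) ⟨i, rfl⟩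
    rw [map_mul, map_inv, mul_inv_eq_one, map_mul, map_mul, map_inv, map_pow] at this
    exact this
  obtain ⟨K, hK, hn⟩ := Pool.Agent.H744Z.not_fp (PresentedGroup.of (3 : Fin 4))
    (PresentedGroup.of 2) (PresentedGroup.of 1) (PresentedGroup.of 0) (hrel 2) (hrel 1) (hrel 0)
    (hrel 3) (by
      intro Γ _ a b c d r1 r2 r3 r4
      refine ⟨PresentedGroup.toGroup (f := ![d, c, b, a]) ?_, ?_, ?_, ?_, ?_⟩
      · rintro _ ⟨i, rfl⟩
        fin_cases i
        · simp [r3]
        · simp [r2]
        · simp [r1]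
        · simp [r4]
      all_goals simp)
  exact hn (h K hK)

end Pool.Agent.S01362
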