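import Pool.Statements.S01388
import Pool.Agent.H870Z.LM.Hnn

set_option autoImplicit false
open Pool Pool.MP_4b60bf_al

namespace Pool.Agent.S01388

/-- The negation of the preceding statement: For some n, some rational invertible A of infinite order and finite-index L' in Z^n with A·L' in Z^n, the HNN-extension of Z^n conjugating L' to A·L' via A has a regular language of words with the fellow-traveller property, i.e. is automatic. -/
theorem result :
    ¬ (∃ n : ℕ, ∃ A : Matrix.GeneralLinearGroup (Fin n) ℚ,
      ∃ L' : Subgroup (Multiplicative (Fin n → ℤ)),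
      ∃ B : Subgroup (Multiplicative (Fin n → ℤ)),
      ∃ φ : L' ≃* B,
        ¬ IsOfFinOrder A ∧
        L'.index ≠ 0 ∧
        (∀ x : L', ∀ i : Fin n,
          ((Multiplicative.toAdd ((φ x : Multiplicative (Fin n → ℤ))) i : ℤ) : ℚ) =
            (A : Matrix (Fin n) (Fin n) ℚ).mulVec
              (fun j => ((Multiplicative.toAdd ((x : Multiplicative (Fin n → ℤ))) j : ℤ) : ℚ)) i) ∧
        ∃ k : ℕ, ∃ gen : Fin k → HNNExtension (Multiplicative (Fin n → ℤ)) L' B φ,
          ∃ σ : Type, ∃ _ : Fintype σ, ∃ M : DFA (Fin k) σ,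
            (∀ g : HNNExtension (Multiplicative (Fin n → ℤ)) L' B φ,
              ∃ u ∈ M.accepts, (u.map gen).prod = g) ∧
            ∃ K : ℕ, ∀ u ∈ M.accepts, ∀ v ∈ M.accepts,
              ((v.map gen).prod = (u.map gen).prod ∨
                ∃ i : Fin k, (v.map gen).prod = (u.map gen).prod * gen i) →
              ∀ t : ℕ, ∃ w : List (Fin k), w.length ≤ K ∧
                ((u.take t).map gen).prod * (w.map gen).prod = ((v.take t).map gen).prod) := by
  rintro ⟨n, A, L', B, φ, hA, hi, hφ, k, gen, σ, _, M, hs, K, hK⟩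
  have hD : ((fun w : List (Fin k) => (w.map gen).prod) '' {w | w.length ≤ K}).Finite :=
    (List.finite_length_le (Fin k) K).image _
  obtain ⟨U⟩ := Pool.Agent.Helper943.LM.uaOfAut
    (G := HNNExtension (Multiplicative (Fin n → ℤ)) L' B φ)
    ⟨Fin k, inferInstance, gen, σ, inferInstance, M, hs, fun x =>
      Pool.Agent.Helper943.LM.autoLemma gen M _ _ hD (fun u v hu hv he t => by
        obtain ⟨w, h1, h2⟩ := hK u hu v hv (by
          cases x with
          | none => exact Or.inl (by simpa using he.symm)
          | some i => exact Or.inr ⟨i, by simpa using he.symm⟩) t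
        exact ⟨w, h1, by rw [← h2, inv_mul_cancel_left]⟩)⟩
  exact Pool.Agent.H870Z.LM.hnn_no_ua A L' B φ hA hi hφ U

end Pool.Agent.S01388
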