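import Pool.Statements.S01445
import Pool.Agent.H950Z.FrobMain

set_option autoImplicit false
open Pool Pool.MP_50f8f6_al

namespace Pool.Agent.S01445

/-- There is a prime p and a group G in which every element has p-power order that splits as a Frobenius group F ⋊ H: F, H nontrivial, H meets each other conjugate trivially, and F minus 1 is the complement of the union of H's conjugates. -/
theorem result :
    ∃ (p : ℕ), p.Prime ∧ ∃ (G : Type) (_ : Group G) (F H : Subgroup G),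
      IsPGroup p G ∧ F.Normal ∧ F ⊓ H = ⊥ ∧ F ⊔ H = ⊤ ∧ F ≠ ⊥ ∧ H ≠ ⊥ ∧
      (∀ g : G, g ∉ H → ∀ x : G, x ∈ H → g * x * g⁻¹ ∈ H → x = 1) ∧
      (∀ x : G, (x ∈ F ∧ x ≠ 1) ↔ ∀ g : G, g⁻¹ * x * g ∉ H) := by
  obtain ⟨p, hp, C, _, O, hC, ⟨f, hf1, hf⟩, hconj⟩ := Pool.Agent.H950Z.Frob.main
  refine ⟨p, hp, O.G, inferInstance, O.φ.ker, O.σ.range, fun g => ⟨1, by rw [pow_one, O.exp]⟩,
    inferInstance, ?_, ?_, ?_, ?_, ?_, ?_⟩
  · rw [eq_bot_iff]
    rintro _ ⟨h1, c, rfl⟩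
    have h2 : c = 1 := (O.hσ c).symm.trans h1
    rw [h2, map_one]
    exact Subgroup.one_mem _
  · rw [eq_top_iff]
    intro g _
    have e : g = g * (O.σ (O.φ g))⁻¹ * O.σ (O.φ g) := by simp
    rw [e]
    exact Subgroup.mul_mem_sup (by simp [MonoidHom.mem_ker, O.hσ]) ⟨_, rfl⟩
  · intro h
    exact hf1 ((Subgroup.eq_bot_iff_forall _).1 h f hf)
  · intro h
    obtain ⟨c, hc⟩ := exists_ne (1 : C)
    have h2 := (Subgroup.eq_bot_iff_forall _).1 h (O.σ c) ⟨c, rfl⟩
    exact hc ((O.hσ c).symm.trans (by rw [h2, map_one]))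
  · rintro g hg _ ⟨c, rfl⟩ ⟨c', hc'⟩
    by_contra hne
    have h1 := congrArg O.φ hc'
    rw [map_mul, map_mul, map_inv, O.hσ, O.hσ, mul_inv_cancel_comm] at h1
    subst h1
    obtain ⟨k, hk⟩ := O.cent _ g hne (mul_inv_eq_iff_eq_mul.1 hc'.symm)
    exact hg ⟨c' ^ k, by rw [map_zpow]; exact hk⟩
  · intro x
    constructor
    · rintro ⟨hx, hx1⟩ g ⟨c, hc⟩
      have h1 := congrArg O.φ hc
      rw [map_mul, map_mul, map_inv, O.hσ, show O.φ x = 1 from hx, mul_one, inv_mul_cancel] at h1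
      rw [h1, map_one] at hc
      apply hx1
      have e : x = g * (g⁻¹ * x * g) * g⁻¹ := by group
      rw [e, ← hc]
      simp
    · intro h
      refine ⟨?_, ?_⟩
      · by_contra hx
        obtain ⟨t, c, rfl⟩ := hconj x hx
        exact h t ⟨c, by group⟩
      · rintro rfl
        exact h 1 (by simp)

end Pool.Agent.S01445
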