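import Pool.Statements.S01471
import Pool.Agent.H718Z.Half

set_option autoImplicit false
open MeasureTheory
open Pool Pool.MP_5397c1_al

namespace Pool.Agent.S01471

/-- Every countable torsion group of cost greater than 1 has a paradoxical decomposition whose smaller half has exactly 3 pieces, and none whose smaller half has fewer than 3. -/
theorem result :
    ∀ (G : Type) [Group G] [Countable G], Monoid.IsTorsion G →
      (∃ c : ENNReal, 1 < c ∧
        ∀ (X : Type) [MeasurableSpace X] [StandardBorelSpace X] (μ : Measure X)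
          [IsProbabilityMeasure μ] [MulAction G X],
          (∀ g : G, MeasurePreserving (fun x : X => g • x) μ μ) →
          (∀ᵐ x ∂μ, ∀ g : G, g • x = x → g = 1) →
          ∀ (A : ℕ → Set X) (f : ℕ → X → G),
            (∀ i, MeasurableSet (A i)) →
            (∀ i, ∀ g : G, MeasurableSet {x : X | f i x = g}) →
            (∀ᵐ x ∂μ, ∀ g : G, Relation.ReflTransGen
              (fun y z : X => ∃ i, (y ∈ A i ∧ z = f i y • y) ∨ (z ∈ A i ∧ y = f i z • z))
              x (g • x)) →
            c ≤ ∑' i, μ (A i)) →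
      (∃ m n : ℕ, min m n = 3 ∧
        ∃ (P : Fin m → Set G) (Q : Fin n → Set G) (g : Fin m → G) (h : Fin n → G),
          (∀ i j, i ≠ j → Disjoint (P i) (P j)) ∧
          (∀ i j, i ≠ j → Disjoint (Q i) (Q j)) ∧
          (∀ i j, Disjoint (P i) (Q j)) ∧
          (⋃ i, (fun x : G => g i * x) '' P i) = Set.univ ∧
          (⋃ j, (fun x : G => h j * x) '' Q j) = Set.univ) ∧
      (∀ m n : ℕ,
        (∃ (P : Fin m → Set G) (Q : Fin n → Set G) (g : Fin m → G) (h : Fin n → G),
          (∀ i j, i ≠ j → Disjoint (P i) (P j)) ∧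
          (∀ i j, i ≠ j → Disjoint (Q i) (Q j)) ∧
          (∀ i j, Disjoint (P i) (Q j)) ∧
          (⋃ i, (fun x : G => g i * x) '' P i) = Set.univ ∧
          (⋃ j, (fun x : G => h j * x) '' Q j) = Set.univ) →
        3 ≤ min m n) := by
  intro G _ _ hG hc
  obtain ⟨c, hc1, hc⟩ := hc
  constructor
  · obtain ⟨ε, hε, hεc⟩ := H718Z.exists_eps hc1
    refine H718Z.three_of_not_rc ε hε hG (fun h => ?_)
    obtain ⟨A, f, h1, h2, h3⟩ := H718Z.exists_nat_graphing h
    have h4 := hc (H718Z.Bern G) (H718Z.μB G) H718Z.measurePreserving_smul' H718Z.ae_free A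
      (fun i _ => f i) h1 (fun i g => MeasurableSet.const _)
      (Filter.Eventually.of_forall fun x g => H718Z.eqvGen_to_rtg
        (fun y z h => h.imp fun i hi => Or.inl hi) (fun y z h => h.imp fun i hi => hi.symm) (h3 x g))
    exact absurd (h4.trans h2) (not_le.mpr hεc)
  · rintro m n ⟨P, Q, g, h, h1, h2, h3, h4, h5⟩
    by_contra hc
    rcases min_lt_iff.mp (not_le.mp hc) with hm | hn
    · exact H718Z.lower_half hG (by omega) P Q g h h1 h3 h4 h5
    · exact H718Z.lower_half hG (by omega) Q P h g h2 (fun i j => (h3 j i).symm) h5 h4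

end Pool.Agent.S01471
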