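import Pool.Statements.S01476
import Pool.Agent.H59Z.NA.Final
import Pool.Agent.H59Z.NA.TappO

set_option autoImplicit false
open Pool Pool.MP_53e0d4_al

namespace Pool.Agent.S01476

/-- The negation of the preceding statement: If every subgroup of a group G admits only the discrete Hausdorff group topology, then every quotient of every subgroup of G (by a normal subgroup) also admits only the discrete Hausdorff group topology. -/
theorem result :
    ¬ (∀ (G : Type) [Group G],
      (∀ (H : Subgroup G) (t : TopologicalSpace ↥H),
          @IsTopologicalGroup ↥H t _ → @T2Space ↥H t → t = ⊥) →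
      ∀ (H : Subgroup G) (N : Subgroup ↥H) [N.Normal] (t : TopologicalSpace (↥H ⧸ N)),
        @IsTopologicalGroup (↥H ⧸ N) t _ → @T2Space (↥H ⧸ N) t → t = ⊥) := by
  exact Pool.Agent.H59Z.NA.thm_appO (3 ^ 70) (by norm_num) Pool.Agent.H59Z.NA.adian_three

end Pool.Agent.S01476
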