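import Pool.Statements.S01482
import Pool.Agent.H830Z.Hopf

set_option autoImplicit false
open Pool Pool.MP_5439be_al

namespace Pool.Agent.S01482

/-- The negation of the preceding statement: For every group G and every finite-index subgroup H of G, if every surjective endomorphism of H is injective, then every surjective endomorphism of G is injective. -/
theorem result :
    ¬ (∀ (G : Type) [Group G] (H : Subgroup G), H.FiniteIndex →
      (∀ f : ↥H →* ↥H, Function.Surjective f → Function.Injective f) →
      ∀ g : G →* G, Function.Surjective g → Function.Injective g) := by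
  intro hall
  refine H830Z.Hopf.Phi_not_inj (hall H830Z.Hopf.G H830Z.Hopf.H ⟨?_⟩ ?_ H830Z.Hopf.Phi
    H830Z.Hopf.Phi_surj)
  · rw [H830Z.Hopf.H_index]; decide
  · intro f hf
    have hex : ∀ x : H830Z.Hopf.G, ∃ y : H830Z.Hopf.G, ∀ hx : x ∈ H830Z.Hopf.H,
        y = (f ⟨x, hx⟩).1 := by
      intro x
      by_cases hx : x ∈ H830Z.Hopf.H
      · exact ⟨(f ⟨x, hx⟩).1, fun _ => rfl⟩
      · exact ⟨1, fun h => absurd h hx⟩
    choose F hF using hex
    have key := H830Z.Hopf.hopf F
      (by
        intro x hx
        rw [hF x hx]
        exact (f _).2)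
      (by
        intro x hx y hy
        rw [hF x hx, hF y hy, hF _ (H830Z.Hopf.H.mul_mem hx hy)]
        exact congrArg Subtype.val (map_mul f ⟨x, hx⟩ ⟨y, hy⟩))
      (by
        intro g hg
        obtain ⟨h, hh⟩ := hf ⟨g, hg⟩
        refine ⟨h.1, h.2, ?_⟩
        rw [hF h.1 h.2]
        exact congrArg Subtype.val hh)
    rw [injective_iff_map_eq_one]
    intro a ha
    apply Subtype.ext
    apply key a.1 a.2
    rw [hF a.1 a.2]
    exact congrArg Subtype.val ha

end Pool.Agent.S01482
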