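import Pool.Statements.S01503
import Pool.Agent.H332Z.EA.Main

set_option autoImplicit false
open Pool Pool.MP_550fd0_al

namespace Pool.Agent.S01503

/-- In the space of bi-invariant metrics on the free group on countably many generators (pointwise convergence topology), those d making (G,d) extremely amenable form a dense G-delta set. -/
theorem result :
    ∀ A : Set {d : FreeGroup ℕ → FreeGroup ℕ → ℝ //
        (∀ g h, d g h = 0 ↔ g = h) ∧ (∀ g h, d g h = d h g) ∧
        (∀ g h k, d g k ≤ d g h + d h k) ∧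
        (∀ g h k, d (k * g) (k * h) = d g h) ∧
        (∀ g h k, d (g * k) (h * k) = d g h)},
      A = {p | ∀ (X : Type) [TopologicalSpace X] [CompactSpace X] [T2Space X] [Nonempty X]
              [MulAction (FreeGroup ℕ) X],
              (∀ (g : FreeGroup ℕ) (x : X) (U : Set X), IsOpen U → g • x ∈ U →
                ∃ ε > (0 : ℝ), ∃ V : Set X, IsOpen V ∧ x ∈ V ∧
                  ∀ h : FreeGroup ℕ, p.1 g h < ε → ∀ y ∈ V, h • y ∈ U) →
              ∃ x : X, ∀ g : FreeGroup ℕ, g • x = x} →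
      IsGδ A ∧ Dense A := by
  rintro A rfl
  refine H332Z.EA.main _ (fun d => ⟨?_, ?_⟩)
  · rintro ⟨h1, h2, h3, h4, h5⟩
    exact ⟨⟨fun g => (h1 g g).2 rfl, h2, h3, h4, h5⟩, fun g h hgh hd => hgh ((h1 g h).1 hd)⟩
  · rintro ⟨h1, h2⟩
    refine ⟨fun g h => ⟨fun hd => ?_, fun hgh => hgh ▸ h1.refl g⟩, h1.symm, h1.tri, h1.left,
      h1.right⟩
    by_contra hgh
    exact h2 g h hgh hd

end Pool.Agent.S01503
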