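import Pool.Statements.S01552
import Pool.Agent.H153Z.Precompact

set_option autoImplicit false
open scoped Pointwise
open Pool Pool.MP_5893d4_al

namespace Pool.Agent.S01552

/-- The negation of the preceding statement: For every group of size at most 2^c with some precompact Hausdorff group topology, and every countable family of subsets, some precompact Hausdorff group topology gives each member the same closure as the intersection of all precompact Hausdorff group topologies. -/
theorem result :
    ¬ (∀ (G : Type) [Group G],
      Cardinal.mk G ≤ 2 ^ Cardinal.continuum →
      (∃ t : TopologicalSpace G,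
        @IsTopologicalGroup G t _ ∧ @T2Space G t ∧
          ∀ U ∈ @nhds G t 1, ∃ F : Finset G, (F : Set G) * U = Set.univ) →
      ∀ ℰ : Set (Set G), ℰ.Countable →
        ∃ t : TopologicalSpace G,
          (@IsTopologicalGroup G t _ ∧ @T2Space G t ∧
            ∀ U ∈ @nhds G t 1, ∃ F : Finset G, (F : Set G) * U = Set.univ) ∧
          ∀ E ∈ ℰ,
            @closure G t E =
              ⋂₀ {C : Set G | E ⊆ C ∧
                ∀ s : TopologicalSpace G,
                  (@IsTopologicalGroup G s _ ∧ @T2Space G s ∧
                    ∀ U ∈ @nhds G s 1, ∃ F : Finset G, (F : Set G) * U = Set.univ) →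
                  @IsClosed G s C}) := by
  exact Pool.Agent.H153Z.Precompact.main

end Pool.Agent.S01552
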