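import Pool.Statements.S01554
import Pool.Agent.H648Z.GH.Ex

set_option autoImplicit false
open Pool Pool.MP_58cc81_al

namespace Pool.Agent.S01554

/-- The negation of the preceding statement: A Hausdorff locally compact group with small invariant neighbourhoods, whose abelian subgroups have compact closure and whose relatively compact subsets generate relatively compact subgroups, is totally disconnected or compact. -/
theorem result :
    ¬ (∀ (G : Type) [Group G] [TopologicalSpace G] [IsTopologicalGroup G]
      [LocallyCompactSpace G] [T2Space G],
      (∀ U ∈ nhds (1 : G), ∃ V ∈ nhds (1 : G), V ⊆ U ∧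
          ∀ g x : G, x ∈ V → g * x * g⁻¹ ∈ V) →
      (∀ H : Subgroup G, (∀ a ∈ H, ∀ b ∈ H, a * b = b * a) →
          IsCompact (closure (H : Set G))) →
      (∀ K : Set G, IsCompact (closure K) →
          IsCompact (closure ((Subgroup.closure K : Subgroup G) : Set G))) →
      TotallyDisconnectedSpace G ∨ CompactSpace G) := by
  intro h
  rcases h Pool.Agent.H648Z.GH.G Pool.Agent.H648Z.GH.sin Pool.Agent.H648Z.GH.abel_compact
    Pool.Agent.H648Z.GH.loc_fin with h1 | h1
  · exact Pool.Agent.H648Z.GH.not_td h1
  · exact Pool.Agent.H648Z.GH.not_compact h1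

end Pool.Agent.S01554
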