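import Pool.Statements.S01567
import Pool.Agent.H749Z.HK.Core

set_option autoImplicit false
open Pool Pool.MP_5a0037_al

namespace Pool.Agent.S01567

/-- There is g : ℕ → ℕ such that every loop whose multiplication group is nilpotent of class ≤ c and which is supernilpotent (some higher commutator [1,…,1] vanishes) has supernilpotence class ≤ g(c). -/
theorem result :
    ∃ g : ℕ → ℕ, ∀ (Q : Type) [MulOneClass Q],
      (∀ a : Q, Function.Bijective (fun x : Q => a * x)) →
      (∀ a : Q, Function.Bijective (fun x : Q => x * a)) →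
      ∀ c n : ℕ,
      upperCentralSeries (↥(Subgroup.closure
          {σ : Equiv.Perm Q | ∃ a : Q, ((⇑σ) = fun x : Q => a * x) ∨ ((⇑σ) = fun x : Q => x * a)})) c = ⊤ →
      (∀ (m : ℕ) (p : (Fin n → Fin m → Q) → (Fin m → Q) → Q),
        (∀ S : Set ((Fin n → Fin m → Q) → (Fin m → Q) → Q),
          (∀ (i : Fin n) (j : Fin m), (fun (x : Fin n → Fin m → Q) (_ : Fin m → Q) => x i j) ∈ S) →
          (∀ j : Fin m, (fun (_ : Fin n → Fin m → Q) (y : Fin m → Q) => y j) ∈ S) →
          (∀ q : Q, (fun (_ : Fin n → Fin m → Q) (_ : Fin m → Q) => q) ∈ S) →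
          (∀ f ∈ S, ∀ h ∈ S, (fun (x : Fin n → Fin m → Q) (y : Fin m → Q) => f x y * h x y) ∈ S) →
          (∀ f ∈ S, ∀ h ∈ S, ∀ r : (Fin n → Fin m → Q) → (Fin m → Q) → Q,
            (∀ x y, f x y * r x y = h x y) → r ∈ S) →
          (∀ f ∈ S, ∀ h ∈ S, ∀ r : (Fin n → Fin m → Q) → (Fin m → Q) → Q,
            (∀ x y, r x y * f x y = h x y) → r ∈ S) →
          p ∈ S) →
        ∀ (a b : Fin n → Fin m → Q) (u v : Fin m → Q),
          (∀ s : Fin n → Bool, s ≠ (fun _ => true) →
            p (fun i => if s i then b i else a i) u = p (fun i => if s i then b i else a i) v) →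
          p b u = p b v) →
      (∀ (m : ℕ) (p : (Fin (g c) → Fin m → Q) → (Fin m → Q) → Q),
        (∀ S : Set ((Fin (g c) → Fin m → Q) → (Fin m → Q) → Q),
          (∀ (i : Fin (g c)) (j : Fin m), (fun (x : Fin (g c) → Fin m → Q) (_ : Fin m → Q) => x i j) ∈ S) →
          (∀ j : Fin m, (fun (_ : Fin (g c) → Fin m → Q) (y : Fin m → Q) => y j) ∈ S) →
          (∀ q : Q, (fun (_ : Fin (g c) → Fin m → Q) (_ : Fin m → Q) => q) ∈ S) →
          (∀ f ∈ S, ∀ h ∈ S, (fun (x : Fin (g c) → Fin m → Q) (y : Fin m → Q) => f x y * h x y) ∈ S) →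
          (∀ f ∈ S, ∀ h ∈ S, ∀ r : (Fin (g c) → Fin m → Q) → (Fin m → Q) → Q,
            (∀ x y, f x y * r x y = h x y) → r ∈ S) →
          (∀ f ∈ S, ∀ h ∈ S, ∀ r : (Fin (g c) → Fin m → Q) → (Fin m → Q) → Q,
            (∀ x y, r x y * f x y = h x y) → r ∈ S) →
          p ∈ S) →
        ∀ (a b : Fin (g c) → Fin m → Q) (u v : Fin m → Q),
          (∀ s : Fin (g c) → Bool, s ≠ (fun _ => true) →
            p (fun i => if s i then b i else a i) u = p (fun i => if s i then b i else a i) v) →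
          p b u = p b v) := by
  refine ⟨fun c => H749Z.HK.EE c - 1, ?_⟩
  intro Q _ hl hr c n hc _ m p hp a b u v hab
  obtain ⟨C, h1, h2, h3, h4, h5, h6, -⟩ := H749Z.HK.exists_cubes (Subgroup.closure
      {σ : Equiv.Perm Q | ∃ a : Q, ((⇑σ) = fun x : Q => a * x) ∨ ((⇑σ) = fun x : Q => x * a)})
    (fun a => ⟨Equiv.ofBijective _ (hl a), Subgroup.subset_closure ⟨a, Or.inl rfl⟩⟩)
    (fun a => ⟨Equiv.ofBijective _ (hr a), Subgroup.subset_closure ⟨a, Or.inr rfl⟩⟩)
    (fun _ _ => rfl) (fun _ _ => rfl) mul_one c hc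
  have key := hp {f | (fun w : Fin (H749Z.HK.EE c - 1 + 1) → Bool =>
      f (fun i => if w i.succ then b i else a i) (if w 0 then v else u)) ∈ C _}
    (fun i j => by
      have := h1 _ i.succ (a i j) (b i j)
      simp only [Set.mem_ofPred_eq]
      convert this using 2 with w
      split_ifs <;> rfl)
    (fun j => by
      have := h1 (H749Z.HK.EE c - 1 + 1) 0 (u j) (v j)
      simp only [Set.mem_ofPred_eq]
      convert this using 2 with w
      split_ifs <;> rfl)
    (fun q => h2 _ q)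
    (fun f hf g hg => h3 _ _ hf _ hg)
    (fun f hf g hg r hr => h4 _ _ hf _ hg _ fun w => hr _ _)
    (fun f hf g hg r hr => h5 _ _ hf _ hg _ fun w => hr _ _)
  have := h6 _ (by omega) _ key fun w hw => by simpa using hab w hw
  simpa using this

end Pool.Agent.S01567
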