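import Pool.Statements.S01599
import Pool.Agent.H324Z.AimGen
import Pool.Agent.H324Z.AimLoop

set_option autoImplicit false
open Pool Pool.MP_5cdc7f_al

namespace Pool.Agent.S01599

/-- There is a finite loop of odd order whose inner mapping group (identity-stabilizer in the group generated by all translations) is abelian, yet the quotient by its centre is not an abelian group, i.e. its nilpotency class is not at most two. -/
theorem result :
    ∃ (n : ℕ) (mul : Fin n → Fin n → Fin n) (e : Fin n),
      Odd n ∧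
      (∀ x, mul e x = x ∧ mul x e = x) ∧
      (∀ a b, ∃! x, mul a x = b) ∧
      (∀ a b, ∃! y, mul y a = b) ∧
      (∀ σ ∈ Subgroup.closure
          {π : Equiv.Perm (Fin n) | ∃ a, (∀ x, π x = mul a x) ∨ (∀ x, π x = mul x a)},
        ∀ τ ∈ Subgroup.closure
          {π : Equiv.Perm (Fin n) | ∃ a, (∀ x, π x = mul a x) ∨ (∀ x, π x = mul x a)},
          σ e = e → τ e = e → σ * τ = τ * σ) ∧
      ¬ ((∀ x y, ∃ c,
            (∀ u v, mul c u = mul u c ∧
              mul (mul c u) v = mul c (mul u v) ∧
              mul (mul u c) v = mul u (mul c v) ∧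
              mul (mul u v) c = mul u (mul v c)) ∧
            mul x y = mul (mul y x) c) ∧
         (∀ x y w, ∃ c,
            (∀ u v, mul c u = mul u c ∧
              mul (mul c u) v = mul c (mul u v) ∧
              mul (mul u c) v = mul u (mul c v) ∧
              mul (mul u v) c = mul u (mul v c)) ∧
            mul (mul x y) w = mul (mul x (mul y w)) c)) := by
  classical
  let E : H324Z.Aim.Q ≃ Fin (Fintype.card H324Z.Aim.Q) := Fintype.equivFin _
  have hc : ∀ x y, E (H324Z.Aim.mul (E.symm x) (E.symm y)) = E (H324Z.Aim.mul (E.symm y) (E.symm x)) :=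
    fun x y => by rw [H324Z.Aim.mul_comm']
  have h1 : ∀ x, E (H324Z.Aim.mul (E.symm (E 0)) (E.symm x)) = x := fun x => by
    rw [E.symm_apply_apply, H324Z.Aim.one_mul', E.apply_symm_apply]
  have hd : ∀ a b, ∃! x, E (H324Z.Aim.mul (E.symm a) (E.symm x)) = b := by
    intro a b
    obtain ⟨z, hz, hu⟩ := H324Z.Aim.div' (E.symm a) (E.symm b)
    refine ⟨E z, by simp [hz], ?_⟩
    intro y hy
    have := hu (E.symm y) (by simp only; rw [← hy, E.symm_apply_apply])
    rw [← this, E.apply_symm_apply]
  refine ⟨_, fun x y => E (H324Z.Aim.mul (E.symm x) (E.symm y)), E 0, H324Z.Aim.card_odd,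
    fun x => ⟨h1 x, (hc _ _).trans (h1 x)⟩, hd, ?_, ?_, ?_⟩
  · intro a b
    simpa only [hc _ a] using hd a b
  · refine H324Z.Aim.inn_comm _ _ hc h1 hd
      (fun x y z => E (H324Z.Aim.inn (E.symm x) (E.symm y) (E.symm z))) ?_ ?_
    · intro x y z
      simp only [E.symm_apply_apply, H324Z.Aim.inn_spec]
    · intro x y u v z
      simp only [E.symm_apply_apply]
      rw [H324Z.Aim.inn_inn]
  · rintro ⟨-, h⟩
    obtain ⟨c, hcen, hc2⟩ := h (E (H324Z.Aim.ev 0)) (E (H324Z.Aim.ev 1)) (E (H324Z.Aim.ev 2))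
    have h3 := (hcen (E (H324Z.Aim.ev 3)) (E (H324Z.Aim.ev 4))).2.2.2
    simp only [E.symm_apply_apply, E.apply_eq_iff_eq] at h3 hc2
    exact H324Z.Aim.not_central _ h3 hc2

end Pool.Agent.S01599
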