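import Pool.Statements.S01664
import Pool.Agent.H158Z.Growth

set_option autoImplicit false
open scoped Pointwise
open Pool Pool.MP_60a75d_al

namespace Pool.Agent.S01664

/-- The negation of the preceding statement: For each ε>0 there is δ>0 so that in every non-abelian finite simple group S, any nonempty subsets B, A of size at most ∣S∣^δ admit g in S with ∣B·g⁻¹Ag∣ ≥ ∣B∣·∣A∣^(1−ε). -/
theorem result :
    ¬ (∀ ε : ℝ, 0 < ε → ∃ δ : ℝ, 0 < δ ∧
      ∀ (S : Type) [Group S] [Finite S], IsSimpleGroup S →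
        (∃ a b : S, a * b ≠ b * a) →
        ∀ B A : Set S, B.Nonempty → A.Nonempty →
          (Nat.card B : ℝ) ≤ (Nat.card S : ℝ) ^ δ →
          (Nat.card A : ℝ) ≤ (Nat.card S : ℝ) ^ δ →
          ∃ g : S, (Nat.card B : ℝ) * (Nat.card A : ℝ) ^ (1 - ε) ≤
            (Nat.card ↥(B * ((fun a : S => g⁻¹ * a * g) '' A)) : ℝ)) := by
  intro h
  obtain ⟨δ, hδ, h⟩ := h (1 / 4) (by norm_num)
  obtain ⟨M, hM⟩ := exists_nat_gt (1 / δ)
  have hM0 : 0 < M := by
    have : (0 : ℝ) < M := lt_trans (by positivity) hM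
    exact_mod_cast this
  have hMδ : 1 ≤ (M : ℝ) * δ := by
    rw [div_lt_iff₀ hδ] at hM
    exact hM.le
  obtain ⟨K, hK⟩ : ∃ K : ℕ, K = 16 ^ (M + 1) + 1 := ⟨_, rfl⟩
  obtain ⟨q, hq⟩ : ∃ q : ℕ, q = M * K := ⟨_, rfl⟩
  have hK0 : 0 < K := by rw [hK]; positivity
  have hKq : K ≤ q := by rw [hq]; exact Nat.le_mul_of_pos_left _ hM0
  have hlt : 16 ^ (M + 1) < q := by omega
  have h16 : 1 < 16 ^ (M + 1) := Nat.one_lt_pow (by omega) (by norm_num)
  have hq2 : 2 ≤ q := by omega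
  have hcard : Fintype.card (Fin 4 × Fin q) = 4 * q := by simp
  have hnum := H158Z.Growth.num_ineq hq hK0 hlt
  have hXle : ∀ k, k ≤ K → (H158Z.Growth.X (Fin 4 × Fin q) k).ncard < q ^ (3 * K) := by
    intro k hk
    refine lt_of_le_of_lt (Set.ncard_le_ncard (H158Z.Growth.X_mono hk) (Set.toFinite _)) ?_
    refine lt_of_le_of_lt (H158Z.Growth.X_card K (by omega)) ?_
    rwa [hcard]
  have hS : ((q ^ (3 * K) : ℕ) : ℝ) ≤
      (Nat.card (alternatingGroup (Fin 4 × Fin q)) : ℝ) ^ δ := by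
    have h1 : ((q ^ (3 * q) : ℕ) : ℝ) ≤ (Nat.card (alternatingGroup (Fin 4 × Fin q)) : ℝ) := by
      exact_mod_cast H158Z.Growth.alt_card hq2
    refine le_trans ?_ (Real.rpow_le_rpow (by positivity) h1 hδ.le)
    have hq1 : (1 : ℝ) ≤ q := by exact_mod_cast (by omega : 1 ≤ q)
    push_cast
    rw [← Real.rpow_natCast, ← Real.rpow_natCast, ← Real.rpow_mul (by positivity)]
    apply Real.rpow_le_rpow_of_exponent_le hq1
    have : (q : ℝ) = M * K := by exact_mod_cast hq
    push_cast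
    rw [this]
    have hK' : (0 : ℝ) ≤ K := by positivity
    nlinarith [mul_le_mul_of_nonneg_left hMδ hK']
  have hsimple : IsSimpleGroup (alternatingGroup (Fin 4 × Fin q)) :=
    alternatingGroup.isSimpleGroup (by rw [Nat.card_eq_fintype_card, hcard]; omega)
  have hnc : ∃ a b : alternatingGroup (Fin 4 × Fin q), a * b ≠ b * a := by
    let z : Fin q := ⟨0, by omega⟩
    let o : Fin q := ⟨1, by omega⟩
    have hzo : z ≠ o := by simp [z, o]
    refine ⟨H158Z.Growth.dbl ![z, z, z, z], H158Z.Growth.dbl ![z, o, z, z], fun e => ?_⟩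
    have e1 := congrArg
      (fun s : alternatingGroup (Fin 4 × Fin q) => (s : Equiv.Perm (Fin 4 × Fin q)) (0, z)) e
    simp [H158Z.Growth.dbl, Equiv.swap_apply_def, hzo, hzo.symm] at e1
  have hA : (Set.range (H158Z.Growth.dbl (q := q))).ncard = q ^ 4 := by
    rw [Set.ncard_range_of_injective H158Z.Growth.dbl_inj]
    simp
  have hAX : Set.range (H158Z.Growth.dbl (q := q)) ⊆ H158Z.Growth.X _ 1 := by
    rintro _ ⟨t, rfl⟩
    simpa using H158Z.Growth.mul_conj_mem (H158Z.Growth.one_mem_X 0) 1 t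
  have hstep : ∀ k, k < K → (H158Z.Growth.X (Fin 4 × Fin q) k).ncard * q ^ 3 ≤
      (H158Z.Growth.X (Fin 4 × Fin q) (k + 1)).ncard := by
    intro k hk
    obtain ⟨g, hg⟩ := h _ hsimple hnc (H158Z.Growth.X _ k) (Set.range H158Z.Growth.dbl)
      ⟨1, H158Z.Growth.one_mem_X k⟩ ⟨_, ⟨fun _ => ⟨0, by omega⟩, rfl⟩⟩
      (by
        refine le_trans ?_ hS
        rw [Nat.card_coe_set_eq]
        exact_mod_cast (hXle k hk.le).le)
      (by
        refine le_trans ?_ hS
        rw [Nat.card_coe_set_eq]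
        exact_mod_cast ((Set.ncard_le_ncard hAX (Set.toFinite _)).trans (hXle 1 hK0).le))
    rw [Nat.card_coe_set_eq, Nat.card_coe_set_eq, Nat.card_coe_set_eq, hA] at hg
    have h3 : (((q ^ 4 : ℕ) : ℝ)) ^ (1 - 1 / 4 : ℝ) = ((q ^ 3 : ℕ) : ℝ) := by
      push_cast
      rw [← Real.rpow_natCast, ← Real.rpow_natCast, ← Real.rpow_mul (by positivity)]
      norm_num
    rw [h3] at hg
    have h4 : (H158Z.Growth.X (Fin 4 × Fin q) k *
        ((fun a => g⁻¹ * a * g) '' Set.range H158Z.Growth.dbl)).ncard ≤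
        (H158Z.Growth.X (Fin 4 × Fin q) (k + 1)).ncard := by
      apply Set.ncard_le_ncard _ (Set.toFinite _)
      rintro _ ⟨b, hb, _, ⟨_, ⟨t, rfl⟩, rfl⟩, rfl⟩
      exact H158Z.Growth.mul_conj_mem hb g t
    exact le_trans (by exact_mod_cast hg) h4
  have hind : ∀ k, k ≤ K → q ^ (3 * k) ≤ (H158Z.Growth.X (Fin 4 × Fin q) k).ncard := by
    intro k
    induction k with
    | zero =>
      intro _
      exact (Set.ncard_pos (Set.toFinite _)).2 ⟨1, H158Z.Growth.one_mem_X 0⟩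
    | succ k ih =>
      intro hk
      refine le_trans ?_ (hstep k hk)
      rw [mul_add, mul_one, pow_add]
      exact Nat.mul_le_mul_right _ (ih (by omega))
  exact absurd (hind K le_rfl) (not_le.2 (hXle K le_rfl))

end Pool.Agent.S01664
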