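import Pool.Statements.S01748
import Pool.Agent.H378Z.Central

set_option autoImplicit false
open scoped Pointwise
open Pool Pool.MP_674247_al

namespace Pool.Agent.S01748

/-- The negation of the preceding statement: There is a central extension 1→Z→E→G→1 of finitely generated groups in which Z is undistorted in E (word metrics), but no quasi-isometry Z×G→E commutes with the projections to G. -/
theorem result :
    ¬ (∃ (Z E G : Type) (_ : Group Z) (_ : Group E) (_ : Group G) (ι : Z →* E) (π : E →* G),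
    Function.Injective ι ∧ Function.Surjective π ∧ ι.range = π.ker ∧
    ι.range ≤ Subgroup.center E ∧
    ∃ (SZ : Finset Z) (SE : Finset E) (SP : Finset (Z × G)),
      Subgroup.closure (SZ : Set Z) = ⊤ ∧ (1 : Z) ∈ SZ ∧ (∀ x ∈ SZ, x⁻¹ ∈ SZ) ∧
      Subgroup.closure (SE : Set E) = ⊤ ∧ (1 : E) ∈ SE ∧ (∀ x ∈ SE, x⁻¹ ∈ SE) ∧
      Subgroup.closure (SP : Set (Z × G)) = ⊤ ∧ (1 : Z × G) ∈ SP ∧ (∀ x ∈ SP, x⁻¹ ∈ SP) ∧
      (∃ C : ℕ, ∀ (z : Z) (n : ℕ),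
          ι z ∈ (SE : Set E) ^ n → z ∈ (SZ : Set Z) ^ (C * n + C)) ∧
      ¬ ∃ (f : Z × G → E) (C : ℕ), (∀ p : Z × G, π (f p) = p.2) ∧
          (∀ (p q : Z × G) (n : ℕ), p⁻¹ * q ∈ (SP : Set (Z × G)) ^ n →
              (f p)⁻¹ * f q ∈ (SE : Set E) ^ (C * n + C)) ∧
          (∀ (p q : Z × G) (n : ℕ), (f p)⁻¹ * f q ∈ (SE : Set E) ^ n →
              p⁻¹ * q ∈ (SP : Set (Z × G)) ^ (C * n + C)) ∧
          (∀ e : E, ∃ p : Z × G, (f p)⁻¹ * e ∈ (SE : Set E) ^ C)) := by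
  rintro ⟨Z, E, G, _, _, _, ι, π, hι, hπ, hker, hc, SZ, SE, SP, hZ, -, -, hE, h1E, hiE, hP, h1P, hiP,
    ⟨C, hC⟩, hn⟩
  exact hn (Pool.Agent.H378Z.Central.qi_trivial ι π hι hπ hker hc SZ SE SP hZ hE h1E hiE hP h1P hiP hC)

end Pool.Agent.S01748
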