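import Pool.Statements.S01774
import Pool.Agent.H218Z.Del.Main

set_option autoImplicit false
open Pool Pool.MP_68f206_al

namespace Pool.Agent.S01774

/-- The negation of the preceding statement: For any finite algebra whose clone has weak near-unanimity operations of every arity at least 3 and is minimal among such clones, and any elements a, b, the set Sg{a,b} minus a is closed under all term operations. -/
theorem result :
    ¬ (∀ (A : Type) [Fintype A] (C : ∀ n : ℕ, Set ((Fin n → A) → A)),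
    (∀ (n : ℕ) (i : Fin n), (fun x : Fin n → A => x i) ∈ C n) →
    (∀ (n m : ℕ) (f : (Fin n → A) → A) (g : Fin n → (Fin m → A) → A),
        f ∈ C n → (∀ i, g i ∈ C m) → (fun x : Fin m → A => f (fun i => g i x)) ∈ C m) →
    (∀ n : ℕ, 3 ≤ n → ∃ f ∈ C n, (∀ x : A, f (fun _ : Fin n => x) = x) ∧
        ∀ (x y : A) (i j : Fin n),
          f (Function.update (fun _ : Fin n => x) i y) = f (Function.update (fun _ : Fin n => x) j y)) →
    (∀ D : ∀ n : ℕ, Set ((Fin n → A) → A),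
        (∀ (n : ℕ) (i : Fin n), (fun x : Fin n → A => x i) ∈ D n) →
        (∀ (n m : ℕ) (f : (Fin n → A) → A) (g : Fin n → (Fin m → A) → A),
            f ∈ D n → (∀ i, g i ∈ D m) → (fun x : Fin m → A => f (fun i => g i x)) ∈ D m) →
        (∀ n : ℕ, D n ⊆ C n) →
        (∀ n : ℕ, 3 ≤ n → ∃ f ∈ D n, (∀ x : A, f (fun _ : Fin n => x) = x) ∧
            ∀ (x y : A) (i j : Fin n),
              f (Function.update (fun _ : Fin n => x) i y) = f (Function.update (fun _ : Fin n => x) j y)) →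
        ∀ n : ℕ, D n = C n) →
    ∀ a b : A, ∀ n : ℕ, ∀ f ∈ C n, ∀ x : Fin n → A,
      (∀ i, x i ≠ a ∧ ∀ T : Set A, a ∈ T → b ∈ T →
          (∀ k : ℕ, ∀ g ∈ C k, ∀ y : Fin k → A, (∀ j, y j ∈ T) → g y ∈ T) → x i ∈ T) →
      f x ≠ a ∧ ∀ T : Set A, a ∈ T → b ∈ T →
          (∀ k : ℕ, ∀ g ∈ C k, ∀ y : Fin k → A, (∀ j, y j ∈ T) → g y ∈ T) → f x ∈ T) := by
  intro H
  obtain ⟨C, hC, hW, hle, hmin⟩ := Pool.Agent.H218Z.Del.exists_min
  obtain ⟨v, hv, hw⟩ := hW 3 le_rfl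
  obtain ⟨h0, h1, h2, h3, h4, h5, h6, h7⟩ := Pool.Agent.H218Z.Del.values (hle 3 hv) hw
  have gen : ∀ T : Set (Fin 8), (0 : Fin 8) ∈ T → (5 : Fin 8) ∈ T →
      (∀ k : ℕ, ∀ g ∈ C k, ∀ y : Fin k → Fin 8, (∀ j, y j ∈ T) → g y ∈ T) →
      (3 : Fin 8) ∈ T ∧ (4 : Fin 8) ∈ T := by
    intro T t0 t5 hT
    have st : ∀ x y z : Fin 8, x ∈ T → y ∈ T → v ![x, x, y] = z → z ∈ T := by
      intro x y z hx hy e
      rw [← e]
      exact hT 3 v hv _ (fun j => by fin_cases j <;> assumption)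
    have t67 : (6 : Fin 8) ∈ T ∧ (7 : Fin 8) ∈ T := by
      rcases h0 with h0 | h0
      · have t6 := st _ _ _ t5 t0 h0
        exact ⟨t6, st _ _ _ t5 (st _ _ _ t0 t6 h1) h3⟩
      · have t7 := st _ _ _ t5 t0 h0
        exact ⟨st _ _ _ t5 (st _ _ _ t0 t7 h2) h4, t7⟩
    exact ⟨st _ _ _ (st _ _ _ t0 t67.1 h1) t67.2 h5, st _ _ _ (st _ _ _ t0 t67.2 h2) t67.1 h6⟩
  refine (H (Fin 8) C hC.1 hC.2 hW (fun D d1 d2 d3 d4 => hmin D ⟨d1, d2⟩ d3 d4) 0 5 3 v hv
    ![3, 3, 4] (fun i => ?_)).1 h7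
  fin_cases i
  · exact ⟨by decide, fun T a b c => (gen T a b c).1⟩
  · exact ⟨by decide, fun T a b c => (gen T a b c).1⟩
  · exact ⟨by decide, fun T a b c => (gen T a b c).2⟩

end Pool.Agent.S01774
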