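import Pool.Statements.S01796
import Pool.Agent.H665Z.UCLim

set_option autoImplicit false
open Pool Pool.MP_6ae088_al

namespace Pool.Agent.S01796

/-- The negation of the preceding statement: Every complete lattice in which each element has exactly one complement satisfies the distributive law x ⊓ (y ⊔ z) = (x ⊓ y) ⊔ (x ⊓ z) for all x, y, z. -/
theorem result :
    ¬ (∀ (α : Type) [CompleteLattice α],
      (∀ a : α, ∃! b : α, IsCompl a b) →
      ∀ x y z : α, x ⊓ (y ⊔ z) = (x ⊓ y) ⊔ (x ⊓ z)) := by
  intro h
  obtain ⟨M, inst, h1, x, y, z, h2⟩ := Pool.Agent.H665Z.UC.exists_uc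
  exact h2 (h M h1 x y z)

end Pool.Agent.S01796
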