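import Pool.Statements.S01800
import Pool.Agent.H472Z.LinGlue

set_option autoImplicit false
open Pool Pool.MP_6afe75_al

namespace Pool.Agent.S01800

/-- The negation of the preceding statement: Every finite lattice that embeds into the equivalence relations on some set, with each join realized as relational composition, also has such an embedding on a finite set. -/
theorem result :
    ¬ (∀ (L : Type) [Lattice L] [Finite L],
      (∃ (A : Type) (f : LatticeHom L (Setoid A)), Function.Injective f ∧
        ∀ (x y : L) (a b : A), (f (x ⊔ y)).r a b ↔ ∃ c : A, (f x).r a c ∧ (f y).r c b) →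
      (∃ (B : Type) (_ : Finite B) (g : LatticeHom L (Setoid B)), Function.Injective g ∧
        ∀ (x y : L) (a b : B), (g (x ⊔ y)).r a b ↔ ∃ c : B, (g x).r a c ∧ (g y).r c b)) := by
  intro h
  have := Pool.Agent.H472Z.LinGlue.Lat_finite
  obtain ⟨B, hB, g, hinj, hg⟩ := h Pool.Agent.H472Z.LinGlue.Lat
    ⟨_, Pool.Agent.H472Z.LinGlue.Lat.subtype, Subtype.val_injective,
      Pool.Agent.H472Z.LinGlue.Lat_type1⟩
  exact Pool.Agent.H472Z.LinGlue.no_finite B g hinj hg

end Pool.Agent.S01800
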