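import Pool.Statements.S01825
import Pool.Agent.H437Z.LRS.Main

set_option autoImplicit false
open MvPolynomial
open Pool Pool.MP_6d3bd7_al

namespace Pool.Agent.S01825

/-- For every finite field F_q, all m, n and composition α of n, the Hilbert series of the block-upper-triangular parabolic invariants in F_q[x]/(x_i^{q^m}) equals the sum over β ≤ α with ∣β∣ ≤ m of t^{e(m,α,β)} times the (q,t)-multinomial [m; β, m−∣β∣]. -/
theorem result :
    ∀ (F : Type) [Field F] [Fintype F] (q m n l : ℕ) (α : Fin l → ℕ)
      (I : Ideal (MvPolynomial (Fin n) F)),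
      q = Fintype.card F →
      (∀ i, 0 < α i) → ∑ i, α i = n →
      I = Ideal.span (Set.range (fun i : Fin n => (X i : MvPolynomial (Fin n) F) ^ (q ^ m))) →
      (∑ d ∈ Finset.range (n * q ^ m + 1),
        ((Module.finrank F (Submodule.map (Ideal.Quotient.mkₐ F I).toLinearMap
          (Submodule.span F {f : MvPolynomial (Fin n) F |
            f ∈ homogeneousSubmodule (Fin n) F d ∧
            ∀ M : Matrix (Fin n) (Fin n) F, IsUnit M.det →
              (∀ (i j : Fin n) (k : ℕ),
                j.val < ∑ r ∈ Finset.univ.filter (fun r : Fin l => r.val < k), α r →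
                ∑ r ∈ Finset.univ.filter (fun r : Fin l => r.val < k), α r ≤ i.val →
                M i j = 0) →
              aeval (fun j : Fin n => ∑ i : Fin n,
                  (C (M i j) : MvPolynomial (Fin n) F) * (X i : MvPolynomial (Fin n) F)) f
                - f ∈ I})) : ℕ) : RatFunc ℚ)
          * (RatFunc.X : RatFunc ℚ) ^ d)
      = ∑ β ∈ (Fintype.piFinset (fun i : Fin l => Finset.range (α i + 1))).filter
              (fun β => ∑ i, β i ≤ m),
          (RatFunc.X : RatFunc ℚ) ^ (∑ i : Fin l, (α i - β i) *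
              (q ^ m - q ^ (∑ r ∈ Finset.univ.filter (fun r : Fin l => r.val ≤ i.val), β r)))
          * ((∏ j ∈ Finset.range m, (1 - (RatFunc.X : RatFunc ℚ) ^ (q ^ m - q ^ j))) /
             ((∏ i : Fin l, ∏ j ∈ Finset.range (β i),
                (1 - (RatFunc.X : RatFunc ℚ) ^
                  (q ^ (∑ r ∈ Finset.univ.filter (fun r : Fin l => r.val ≤ i.val), β r)
                   - q ^ ((∑ r ∈ Finset.univ.filter (fun r : Fin l => r.val < i.val), β r) + j)))) *
              ∏ j ∈ Finset.range (m - ∑ i, β i),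
                (1 - (RatFunc.X : RatFunc ℚ) ^ (q ^ m - q ^ ((∑ i, β i) + j))))) := by
  intro F _ _ q m n l α I hq _ hα hI
  subst hq
  obtain ⟨H, h1, h2, h3⟩ := Pool.Agent.H437Z.LRS.main_poly F m α hα
  have hI' : I = Pool.Agent.H437Z.LRS.II F n (Fintype.card F ^ m) := hI
  subst hI'
  have h4 : ∀ d : ℕ, ((Module.finrank F (Submodule.map
      (Ideal.Quotient.mkₐ F (Pool.Agent.H437Z.LRS.II F n (Fintype.card F ^ m))).toLinearMap
          (Submodule.span F {f : MvPolynomial (Fin n) F |
            f ∈ homogeneousSubmodule (Fin n) F d ∧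
            ∀ M : Matrix (Fin n) (Fin n) F, IsUnit M.det →
              (∀ (i j : Fin n) (k : ℕ),
                j.val < ∑ r ∈ Finset.univ.filter (fun r : Fin l => r.val < k), α r →
                ∑ r ∈ Finset.univ.filter (fun r : Fin l => r.val < k), α r ≤ i.val →
                M i j = 0) →
              aeval (fun j : Fin n => ∑ i : Fin n,
                  (C (M i j) : MvPolynomial (Fin n) F) * (X i : MvPolynomial (Fin n) F)) f
                - f ∈ Pool.Agent.H437Z.LRS.II F n (Fintype.card F ^ m)})) : ℕ) : RatFunc ℚ) =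
      RatFunc.C ((∑ β ∈ Pool.Agent.H437Z.LRS.Fam α m, H β).coeff d) := by
    intro d
    rw [← h1 d _ ?_, map_natCast]
    intro h
    constructor
    · intro hh
      induction hh using Submodule.span_induction with
      | mem f hf =>
        exact ⟨hf.1, fun M hM hb => hf.2 M hM ((Pool.Agent.H437Z.LRS.blk_cond α hα M).2 hb)⟩
      | zero => exact ⟨isHomogeneous_zero _ _ _, fun M _ _ => by simp⟩
      | add f g _ _ hf hg =>
        refine ⟨hf.1.add hg.1, fun M hM hb => ?_⟩
        rw [map_add, add_sub_add_comm]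
        exact Ideal.add_mem _ (hf.2 M hM hb) (hg.2 M hM hb)
      | smul c f _ hf =>
        refine ⟨(homogeneousSubmodule (Fin n) F d).smul_mem c hf.1, fun M hM hb => ?_⟩
        rw [map_smul, ← smul_sub, smul_eq_C_mul]
        exact Ideal.mul_mem_left _ _ (hf.2 M hM hb)
    · intro hh
      exact Submodule.subset_span ⟨hh.1, fun M hM hb =>
        hh.2 M hM ((Pool.Agent.H437Z.LRS.blk_cond α hα M).1 hb)⟩
  simp only [h4, Pool.Agent.H437Z.LRS.ps_le_eq]
  have h5 := congrArg (algebraMap (Polynomial ℚ) (RatFunc ℚ))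
    (Polynomial.as_sum_range' _ _ (Nat.lt_succ_of_le h2))
  rw [map_sum, map_sum] at h5
  simp only [← Polynomial.C_mul_X_pow_eq_monomial, map_mul, map_pow, RatFunc.algebraMap_C,
    RatFunc.algebraMap_X] at h5
  rw [← h5]
  refine Finset.sum_congr rfl fun β hβ => ?_
  have h6 := congrArg (algebraMap (Polynomial ℚ) (RatFunc ℚ)) (h3 β hβ)
  have h7 : ∀ a b : ℕ, b < a →
      (1 - (RatFunc.X : RatFunc ℚ) ^ (Fintype.card F ^ a - Fintype.card F ^ b)) ≠ 0 := by
    intro a b hab h
    have h8 := Pool.Agent.H437Z.LRS.one_sub_ne_zero (F := F) hab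
    have h9 : (1 - Polynomial.X ^ (Fintype.card F ^ a - Fintype.card F ^ b) : Polynomial ℚ) = 0 := by
      apply RatFunc.algebraMap_injective
      simpa using h
    rw [h9] at h8
    simp at h8
  simp only [map_mul, map_prod, map_sub, map_one, map_pow, RatFunc.algebraMap_X] at h6
  rw [← mul_div_assoc, eq_div_iff]
  · exact h6
  · refine mul_ne_zero (Finset.prod_ne_zero_iff.2 fun i _ => Finset.prod_ne_zero_iff.2
      fun j hj => h7 _ _ ?_) (Finset.prod_ne_zero_iff.2 fun j hj => h7 _ _ ?_)
    · rw [Pool.Agent.H437Z.LRS.ps_succ β i.2]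
      exact Nat.add_lt_add_left (Finset.mem_range.1 hj) _
    · have := Finset.mem_range.1 hj
      omega

end Pool.Agent.S01825
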