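import Pool.Statements.S01844
import Pool.Agent.H192Z.Iso.Final

set_option autoImplicit false
open Pool Pool.MP_6f2db1_al

namespace Pool.Agent.S01844

/-- The negation: some finite presentation has no single exponential bound of area in terms of the filling diameter. -/
theorem result :
    ¬ (∀ (k : ℕ) (R : Finset (FreeGroup (Fin k))),
      ∃ a : ℝ, 1 < a ∧ ∃ C : ℕ, 1 ≤ C ∧
        ∀ n m : ℕ,
          (∀ w : List (Fin k × Bool), w.length ≤ C * n →
            FreeGroup.mk w ∈ Subgroup.normalClosure (R : Set (FreeGroup (Fin k))) →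
            ∃ l : List (List (Fin k × Bool) × FreeGroup (Fin k)),
              (∀ p ∈ l, (p.2 ∈ R ∨ p.2⁻¹ ∈ R) ∧ p.1.length ≤ m) ∧
              FreeGroup.mk w =
                (l.map (fun p => FreeGroup.mk p.1 * p.2 * (FreeGroup.mk p.1)⁻¹)).prod) →
          ∀ w : List (Fin k × Bool), w.length ≤ n →
            FreeGroup.mk w ∈ Subgroup.normalClosure (R : Set (FreeGroup (Fin k))) →
            ∃ l : List (List (Fin k × Bool) × FreeGroup (Fin k)),
              (∀ p ∈ l, p.2 ∈ R ∨ p.2⁻¹ ∈ R) ∧
              (l.length : ℝ) ≤ (C : ℝ) * a ^ m + (C : ℝ) * (n : ℝ) + (C : ℝ) ∧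
              FreeGroup.mk w =
                (l.map (fun p => FreeGroup.mk p.1 * p.2 * (FreeGroup.mk p.1)⁻¹)).prod) := by
  intro h
  exact H192Z.Iso.final (h 7 H192Z.Iso.RF)

end Pool.Agent.S01844
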