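import Pool.Statements.S01866
import Pool.Agent.H171Z.Biaut.Step

set_option autoImplicit false
open Pool Pool.MP_702e06_al

namespace Pool.Agent.S01866

/-- The negation of the preceding statement: For every automorphism φ of a finite-rank free group F, the group F ⋊_φ ℤ is biautomatic: it has a regular language of words over a finite alphabet, onto the group, with the two-sided fellow traveller property. -/
theorem result :
    ¬ (∀ (n : ℕ) (φ : MulAut (FreeGroup (Fin n))),
      ∃ (α : Type) (_ : Fintype α)
        (μ : α → SemidirectProduct (FreeGroup (Fin n)) (Multiplicative ℤ)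
              (zpowersHom (MulAut (FreeGroup (Fin n))) φ))
        (σ : Type) (_ : Fintype σ) (M : DFA α σ) (k : ℕ),
        (∀ g, ∃ u ∈ M.accepts, (u.map μ).prod = g) ∧
        ∀ u ∈ M.accepts, ∀ v ∈ M.accepts, ∀ s : List α, s.length ≤ 1 →
          (((u.map μ).prod * (s.map μ).prod = (v.map μ).prod →
              ∀ t : ℕ, ∃ w : List α, w.length ≤ k ∧
                (w.map μ).prod = ((u.take t).map μ).prod⁻¹ * ((v.take t).map μ).prod) ∧
           ((s.map μ).prod * (u.map μ).prod = (v.map μ).prod →
              ∀ t : ℕ, ∃ w : List α, w.length ≤ k ∧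
                (w.map μ).prod =
                  ((s.map μ).prod * ((u.take t).map μ).prod)⁻¹ * ((v.take t).map μ).prod))) := by
  intro h
  obtain ⟨α, fa, μ, σ, fs, M, k, h1, h2⟩ := h 3 Pool.Agent.H171Z.Biaut.φ
  exact Pool.Agent.H171Z.Biaut.not_BA (G := Pool.Agent.H171Z.Biaut.GG)
    ⟨α, fa, μ, σ, fs, M, k, h1, h2⟩ Pool.Agent.H171Z.Biaut.geo

end Pool.Agent.S01866
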