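import Pool.Statements.S01870
import Pool.Agent.H954Z.NULoop

set_option autoImplicit false
open Pool Pool.MP_70593a_al

namespace Pool.Agent.S01870

/-- The negation of the preceding statement: If a relation R on a set contains a finite smooth digraph with a closed walk of algebraic length 1, and R is preserved by a near-unanimity operation of arity at least 3, then R contains a loop (a,a). -/
theorem result :
    ¬ (∀ (A : Type) (R : A → A → Prop) (S : Finset (A × A)),
      (∀ p ∈ S, R p.1 p.2) →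
      (∀ p ∈ S, (∃ q ∈ S, q.2 = p.1) ∧ (∃ q ∈ S, q.1 = p.2)) →
      (∃ (k : ℕ) (v : ℕ → A) (e : ℕ → ℤ), v k = v 0 ∧
        (∀ i < k, (e i = 1 ∧ (v i, v (i + 1)) ∈ S) ∨ (e i = -1 ∧ (v (i + 1), v i) ∈ S)) ∧
        ∑ i ∈ Finset.range k, e i = 1) →
      ∀ (n : ℕ) (f : (Fin n → A) → A), 3 ≤ n →
        (∀ (x y : A) (i : Fin n), f (Function.update (fun _ => x) i y) = x) →
        (∀ (x y : Fin n → A), (∀ i, R (x i) (y i)) → R (f x) (f y)) →
        ∃ a : A, R a a) := by
  classical
  intro h
  obtain ⟨f, hf1, hf2⟩ := Pool.Agent.H954Z.NU.exists_nu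
  let a0 : Pool.Agent.H954Z.NU.A := ⟨(0, 1), by norm_num⟩
  let a1 : Pool.Agent.H954Z.NU.A := ⟨(1, 0), by norm_num⟩
  let b0 : Pool.Agent.H954Z.NU.A := ⟨(2, 3), by norm_num⟩
  let b1 : Pool.Agent.H954Z.NU.A := ⟨(3, 2), by norm_num⟩
  obtain ⟨a, ha⟩ := h Pool.Agent.H954Z.NU.A Pool.Agent.H954Z.NU.R
    {(a0, a1), (a1, a0), (b0, b1), (b1, b0), (a0, b0), (a0, b1)}
    (by
      intro p hp
      simp only [Finset.mem_insert, Finset.mem_singleton] at hp
      rcases hp with rfl | rfl | rfl | rfl | rfl | rfl <;>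
        constructor <;> norm_num [a0, a1, b0, b1])
    (by
      intro p hp
      simp only [Finset.mem_insert, Finset.mem_singleton] at hp
      rcases hp with rfl | rfl | rfl | rfl | rfl | rfl <;> simp)
    ⟨3, fun i => if i = 1 then b0 else if i = 2 then b1 else a0,
      fun i => if i = 2 then -1 else 1, by simp, by
        intro i hi
        interval_cases i <;> simp, by
        simp [Finset.sum_range_succ]⟩
    5 f (by norm_num) hf1 hf2
  exact Pool.Agent.H954Z.NU.no_loop a ha

end Pool.Agent.S01870
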