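import Pool.Statements.S01882
import Pool.Agent.H499Z.SL2R

set_option autoImplicit false
open Pool Pool.MP_718035_al

namespace Pool.Agent.S01882

/-- The negation of the preceding statement: Every subgroup of SL_2(R), viewed as an abstract group, that contains a conjugate of every element is the whole group; that is, SL_2(R) is invariably generated. -/
theorem result :
    ¬ (∀ H : Subgroup (Matrix.SpecialLinearGroup (Fin 2) ℝ),
      (∀ g : Matrix.SpecialLinearGroup (Fin 2) ℝ,
        ∃ x : Matrix.SpecialLinearGroup (Fin 2) ℝ, x * g * x⁻¹ ∈ H) →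
      H = ⊤) := by
  intro h
  obtain ⟨H, h1, h2⟩ := Pool.Agent.H499Z.SL2R.main
  exact h1 (h H h2)

end Pool.Agent.S01882
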