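import Pool.Statements.S01883
import Pool.Agent.H170Z.Gen.Main

set_option autoImplicit false
open Pool Pool.MP_71db51_al

namespace Pool.Agent.S01883

/-- For every algebra R finite over a commutative noetherian ring: a left generic module exists whose endomorphism ring mod its Jacobson radical is not finite over its centre iff such a right module exists. -/
theorem result :
    ∀ (k : Type) [CommRing k] [IsNoetherianRing k] (R : Type) [Ring R] [Algebra k R]
      [Module.Finite k R],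
      (∃ (M : Type) (_ : AddCommGroup M) (_ : Module R M),
        Nontrivial M ∧
        (∀ N₁ N₂ : Submodule R M, IsCompl N₁ N₂ → N₁ = ⊥ ∨ N₂ = ⊥) ∧
        IsFiniteLength (Module.End R M) M ∧
        ¬ Module.Finite R M ∧
        ¬ Module.Finite
            (Subring.center (Module.End R M ⧸ Ring.jacobson (Module.End R M)))
            (Module.End R M ⧸ Ring.jacobson (Module.End R M))) ↔
      (∃ (M : Type) (_ : AddCommGroup M) (_ : Module Rᵐᵒᵖ M),
        Nontrivial M ∧
        (∀ N₁ N₂ : Submodule Rᵐᵒᵖ M, IsCompl N₁ N₂ → N₁ = ⊥ ∨ N₂ = ⊥) ∧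
        IsFiniteLength (Module.End Rᵐᵒᵖ M) M ∧
        ¬ Module.Finite Rᵐᵒᵖ M ∧
        ¬ Module.Finite
            (Subring.center (Module.End Rᵐᵒᵖ M ⧸ Ring.jacobson (Module.End Rᵐᵒᵖ M)))
            (Module.End Rᵐᵒᵖ M ⧸ Ring.jacobson (Module.End Rᵐᵒᵖ M))) := by
  intro k _ _ R _ _ _
  constructor
  · rintro ⟨M, _, _, h1, h2, h3, -, h5⟩
    exact Pool.Agent.H170Z.Gen.transfer k R Rᵐᵒᵖ (RingEquiv.refl _) M h1 h2 h3 h5
  · rintro ⟨M, _, _, h1, h2, h3, -, h5⟩
    exact Pool.Agent.H170Z.Gen.transfer k Rᵐᵒᵖ R (RingEquiv.opOp R) M h1 h2 h3 h5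

end Pool.Agent.S01883
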