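import Pool.Statements.S01895
import Pool.Agent.H460Z.DmGrp

set_option autoImplicit false
open Pool Pool.MP_72af47_al

namespace Pool.Agent.S01895

/-- For every c there is a finite 2-group in which every proper subgroup needs strictly fewer generators than the whole group (d-maximal), and whose nilpotency class exceeds c. -/
theorem result :
    ∀ c : ℕ, ∃ n : ℕ, ∃ P : Subgroup (Equiv.Perm (Fin n)),
      IsPGroup 2 P ∧
      (∀ H : Subgroup (Equiv.Perm (Fin n)), H < P →
        ∃ s : Finset (Equiv.Perm (Fin n)),
          Subgroup.closure (↑s : Set (Equiv.Perm (Fin n))) = H ∧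
          ∀ t : Finset (Equiv.Perm (Fin n)),
            Subgroup.closure (↑t : Set (Equiv.Perm (Fin n))) = P → s.card < t.card) ∧
      lowerCentralSeries P c ≠ ⊥ := by
  classical
  intro c
  let Γ := H460Z.Dm.G (c + 1)
  obtain ⟨n, ⟨e⟩⟩ := Finite.exists_equiv_fin Γ
  let f : Γ →* Equiv.Perm (Fin n) :=
    (Equiv.permCongrHom e).toMonoidHom.comp (MulAction.toPermHom Γ Γ)
  have hf : Function.Injective f :=
    (Equiv.permCongrHom e).injective.comp MulAction.toPerm_injective
  refine ⟨n, (⊤ : Subgroup Γ).map f, ?_, ?_, ?_⟩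
  · exact (H460Z.Dm.isPGroup.to_subgroup ⊤).map f
  · intro H hH
    have hmc : (H.comap f).map f = H := by
      apply Subgroup.map_comap_eq_self
      rw [MonoidHom.range_eq_map]; exact hH.le
    have hne : H.comap f ≠ ⊤ := by
      intro h
      rw [h] at hmc
      exact hH.ne hmc.symm
    obtain ⟨s, hs, hc⟩ := H460Z.Dm.proper_gen (H.comap f) hne
    refine ⟨s.image f, ?_, ?_⟩
    · rw [Finset.coe_image, ← MonoidHom.map_closure, hs, hmc]
    · intro t ht
      have hsub : (t : Set (Equiv.Perm (Fin n))) ⊆ Set.range f := by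
        intro x hx
        have : x ∈ (⊤ : Subgroup Γ).map f := ht ▸ Subgroup.subset_closure hx
        obtain ⟨y, _, rfl⟩ := this
        exact ⟨y, rfl⟩
      let t' : Finset Γ := t.preimage f hf.injOn
      have h1 : f '' (t' : Set Γ) = t := by
        simp only [t', Finset.coe_preimage]
        exact Set.image_preimage_eq_of_subset hsub
      have h2 : Subgroup.closure (t' : Set Γ) = ⊤ := by
        apply Subgroup.map_injective hf
        rw [MonoidHom.map_closure, h1, ht]
      have h3 := H460Z.Dm.gen_lower t' h2
      have h4 : t'.card ≤ t.card :=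
        Finset.card_le_card_of_injOn f (fun x hx => by simpa [t'] using hx) hf.injOn
      exact lt_of_le_of_lt Finset.card_image_le (lt_of_lt_of_le hc (h3.trans h4))
  · intro h
    apply H460Z.Dm.lcs_ne_bot (m := c + 1) 0 c (Nat.le_succ c)
    have h' : ((⊤ : Subgroup Γ).map f).lowerCentralSeries c = ⊥ := h
    rw [← Subgroup.map_lowerCentralSeries] at h'
    exact (Subgroup.map_eq_bot_iff_of_injective _ hf).mp h'

end Pool.Agent.S01895
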