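import Pool.Statements.S01920
import Pool.Agent.H550Z.AntiNil

set_option autoImplicit false
open Pool Pool.MP_73ecfa_al

namespace Pool.Agent.S01920

/-- The negation of the preceding statement: For any field and any variety of anticommutative algebras given by identities: if for some n at least 2 all long enough products of any n elements vanish uniformly, then every finitely generated algebra of the variety is nilpotent. -/
theorem result :
    ¬ (∀ (K : Type) [Field K] (S : Set (MonoidAlgebra K (FreeMagma ℕ))) (n : ℕ), 2 ≤ n →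
      (∃ c : ℕ, ∀ (A : Type) [NonUnitalNonAssocRing A] [Module K A]
          [IsScalarTower K A A] [SMulCommClass K A A],
          (∀ a : A, a * a = 0) →
          (∀ f ∈ S, ∀ v : ℕ → A, MonoidAlgebra.liftMagma K (FreeMagma.lift v) f = 0) →
          ∀ (x : Fin n → A) (w : FreeMagma (Fin n)), c ≤ w.length → FreeMagma.lift x w = 0) →
      ∀ (A : Type) [NonUnitalNonAssocRing A] [Module K A]
          [IsScalarTower K A A] [SMulCommClass K A A],
          (∀ a : A, a * a = 0) →
          (∀ f ∈ S, ∀ v : ℕ → A, MonoidAlgebra.liftMagma K (FreeMagma.lift v) f = 0) →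
          ∀ (m : ℕ) (x : Fin m → A), ∃ c : ℕ,
            ∀ w : FreeMagma (Fin m), c ≤ w.length → FreeMagma.lift x w = 0) := by
  intro h
  open Pool.Agent.H550Z.AntiNil in
  have key := h ℚ {f | ∃ w : FreeMagma (Fin 2), 6 ≤ w.length ∧
      f = MonoidAlgebra.single (FreeMagma.map (fun i : Fin 2 => (i : ℕ)) w) (1 : ℚ)} 2 le_rfl
    ⟨6, by
      intro A _ _ _ _ _ hS x w hw
      have := hS _ ⟨w, hw, rfl⟩ (fun n => if hn : n < 2 then x ⟨n, hn⟩ else 0)
      rw [liftMagma_single, lift_map] at this
      have e : (fun i : Fin 2 => if hn : (i : ℕ) < 2 then x ⟨i, hn⟩ else 0) = x := by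
        funext i
        rw [dif_pos i.2]
      rw [e] at this
      exact this⟩
    Alg mul_self (by
      rintro f ⟨w, hw, rfl⟩ v
      rw [liftMagma_single, lift_map]
      exact two_nil _ w hw) 4 gens
  obtain ⟨c, hc⟩ := key
  have := hc (Pool.Agent.H550Z.AntiNil.word c) (Pool.Agent.H550Z.AntiNil.word_length c)
  rw [Pool.Agent.H550Z.AntiNil.word_val] at this
  exact Pool.Agent.H550Z.AntiNil.one_ne this

end Pool.Agent.S01920
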