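import Pool.Statements.S01961
import Pool.Agent.H107Z.PateGram

set_option autoImplicit false
open scoped ComplexOrder
open Pool Pool.MP_7742c6_al

namespace Pool.Agent.S01961

/-- For every complex positive semidefinite matrix A of size at least 2, a11·per A(1∣1) − a12·per A(1∣2) − a21·per A(2∣1) + a22·per A(2∣2) is at most 2·per A, comparing real parts since both sides are real. -/
theorem result :
    ∀ (n : ℕ) (A : Matrix (Fin (n+2)) (Fin (n+2)) ℂ), A.PosSemidef →
      (A 0 0 * (A.submatrix (Fin.succAbove (0 : Fin (n+2))) (Fin.succAbove (0 : Fin (n+2)))).permanent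
        - A 0 1 * (A.submatrix (Fin.succAbove (0 : Fin (n+2))) (Fin.succAbove (1 : Fin (n+2)))).permanent
        - A 1 0 * (A.submatrix (Fin.succAbove (1 : Fin (n+2))) (Fin.succAbove (0 : Fin (n+2)))).permanent
        + A 1 1 * (A.submatrix (Fin.succAbove (1 : Fin (n+2))) (Fin.succAbove (1 : Fin (n+2)))).permanent).re
      ≤ 2 * (A.permanent).re :=
  fun n A hA => Pool.Agent.H107Z.pate n A hA

end Pool.Agent.S01961
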