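import Pool.Statements.S01996
import Pool.Agent.H571Z.Geo.Final

set_option autoImplicit false
open Pool Pool.MP_794d84_al

namespace Pool.Agent.S01996

/-- The negation of the preceding statement: For a group with a finite symmetric generating set S, if the number of geodesic words over S of length at most n is bounded by C(n+1)^d, then some finite-index subgroup has nilpotency class at most 2. -/
theorem result :
    ¬ (∀ (G : Type) [Group G] (S : Finset G),
      (∀ s ∈ S, s⁻¹ ∈ S) →
      Subgroup.closure (S : Set G) = ⊤ →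
      (∃ C d : ℕ, ∀ n : ℕ,
        Set.ncard {w : List G | w.length ≤ n ∧ (∀ x ∈ w, x ∈ S) ∧
          ∀ v : List G, (∀ x ∈ v, x ∈ S) → v.prod = w.prod → w.length ≤ v.length}
          ≤ C * (n + 1) ^ d) →
      ∃ H : Subgroup G, H.FiniteIndex ∧ lowerCentralSeries H 2 = ⊥) := by
  intro h
  obtain ⟨k, hk⟩ : ∃ k : ℕ, 8002 ≤ k := ⟨_, le_rfl⟩
  obtain ⟨K, h1, h2⟩ := h H571Z.Geo.G H571Z.Geo.SS H571Z.Geo.SS_symm H571Z.Geo.SS_gen
    ⟨5 ^ (k + 1), k + 1, fun n => by
      refine le_trans ?_ (H571Z.Geo.card_FF n (k + 1))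
      rw [← Set.ncard_coe_finset]
      exact Set.ncard_le_ncard
        (fun w hw => H571Z.Geo.geod_mem n w hw.1 hw.2 k hk) (Finset.finite_toSet _)⟩
  exact H571Z.Geo.not_two_step K h1 h2

end Pool.Agent.S01996
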