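import Pool.Statements.S02054
import Pool.Agent.H363Z.ZbZ
import Pool.Agent.H363Z.Bridge

set_option autoImplicit false
open Pool Pool.MP_7ddd63_al

namespace Pool.Agent.S02054

/-- The negation of the preceding statement: For every semigroup presentation with non-empty relation words and every non-empty base word, the diagram group (loops at the base word in the Squier complex modulo homotopy) embeds in some right-angled Artin group if and only if it has no subgroup isomorphic to Z wr Z. -/
theorem result :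
    ¬ (∀ (A : Type) (R : Set (List A × List A)) (w : List A),
    (∀ p ∈ R, p.1 ≠ [] ∧ p.2 ≠ []) → w ≠ [] →
    ∀ (src tgt : List A × (List A × List A) × List A × Bool → List A),
    (∀ (x u v y : List A) (b : Bool), src (x, (u, v), y, b) = x ++ (if b then u else v) ++ y) →
    (∀ (x u v y : List A) (b : Bool), tgt (x, (u, v), y, b) = x ++ (if b then v else u) ++ y) →
    ∀ (path : List (List A × (List A × List A) × List A × Bool) → Prop),
    (∀ l, path l ↔ ((∀ s ∈ l, s.2.1 ∈ R) ∧
        ∀ (i : ℕ) (s t : List A × (List A × List A) × List A × Bool),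
          l[i]? = some s → l[i+1]? = some t → tgt s = src t)) →
    ∀ (loop : List (List A × (List A × List A) × List A × Bool) → Prop),
    (∀ l, loop l ↔ (path l ∧ (∀ s ∈ l.head?, src s = w) ∧ (∀ s ∈ l.getLast?, tgt s = w))) →
    ∀ (move : List (List A × (List A × List A) × List A × Bool) →
        List (List A × (List A × List A) × List A × Bool) → Prop),
    (∀ a b, move a b ↔ (path a ∧ path b ∧
       ((∃ (p q : List (List A × (List A × List A) × List A × Bool)) (x u v y : List A) (c : Bool),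
            a = p ++ q ∧ b = p ++ [(x, (u, v), y, c), (x, (u, v), y, !c)] ++ q) ∨
        (∃ (p q : List (List A × (List A × List A) × List A × Bool)) (x u₁ v₁ y u₂ v₂ z : List A),
            a = p ++ [(x, (u₁, v₁), y ++ u₂ ++ z, true), (x ++ v₁ ++ y, (u₂, v₂), z, true)] ++ q ∧
            b = p ++ [(x ++ u₁ ++ y, (u₂, v₂), z, true), (x, (u₁, v₁), y ++ v₂ ++ z, true)] ++ q)))) →
    ((∃ (V : Type) (Γ : SimpleGraph V)
        (f : List (List A × (List A × List A) × List A × Bool) →
          PresentedGroup {r : FreeGroup V | ∃ s t, Γ.Adj s t ∧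
            r = FreeGroup.of s * FreeGroup.of t * (FreeGroup.of s)⁻¹ * (FreeGroup.of t)⁻¹}),
        (∀ p q, loop p → loop q → f (p ++ q) = f p * f q) ∧
        (∀ p q, loop p → loop q → (f p = f q ↔ Quot.mk move p = Quot.mk move q)))
     ↔ ¬ ∃ g : SemidirectProduct (Multiplicative (ℤ →₀ ℤ)) (Multiplicative ℤ)
            (zpowersHom (MulAut (Multiplicative (ℤ →₀ ℤ)))
              (AddEquiv.toMultiplicative
                (Finsupp.domCongr (Equiv.addRight (1 : ℤ)) : (ℤ →₀ ℤ) ≃+ (ℤ →₀ ℤ)))) →
            List (List A × (List A × List A) × List A × Bool),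
          (∀ a, loop (g a)) ∧
          (∀ a b, Quot.mk move (g (a * b)) = Quot.mk move (g a ++ g b)) ∧
          (∀ a b, Quot.mk move (g a) = Quot.mk move (g b) → a = b))) := by
  intro H
  have h := H H363Z.ZbZ.L H363Z.ZbZ.PZ.rel [H363Z.ZbZ.L.a1, H363Z.ZbZ.L.b1] H363Z.ZbZ.PZ.ne_nil
    (by simp) (fun s => (H363Z.Br.ut s).src) (fun s => (H363Z.Br.ut s).tgt)
    (fun x u v y b => by cases b <;> rfl) (fun x u v y b => by cases b <;> rfl)
    (H363Z.Br.path H363Z.ZbZ.PZ) (fun _ => Iff.rfl)
    (H363Z.Br.loop H363Z.ZbZ.PZ [H363Z.ZbZ.L.a1, H363Z.ZbZ.L.b1]) (fun _ => Iff.rfl)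
    (H363Z.Br.move H363Z.ZbZ.PZ) (fun _ _ => Iff.rfl)
  obtain ⟨V, Γ, f, h1, h2⟩ := h.2 (by
    rintro ⟨g, g0, g1, g2⟩
    obtain ⟨φ, hφ⟩ := H363Z.Br.hom_in g g0 g1 g2
    exact H363Z.ZbZ.no_abelian (φ.comp SemidirectProduct.inl)
      (hφ.comp SemidirectProduct.inl_injective))
  obtain ⟨φ, hφ⟩ := H363Z.Br.hom_out f h1 h2
  exact H363Z.ZbZ.no_raag Γ φ hφ

end Pool.Agent.S02054
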