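import Pool.Statements.S02059
import Pool.Agent.H668Z.SC.Final

set_option autoImplicit false
open Pool Pool.MP_7e344a_al

namespace Pool.Agent.S02059

/-- There is a group G with subgroups A and B such that every element of G is a product ab with a in A and b in B, and A and B each have finite special rank, but G itself does not. -/
theorem result :
    ∃ (G : Type) (_ : Group G) (A B : Subgroup G),
      (∃ r : ℕ, ∀ H : Subgroup G, H ≤ A → H.FG →
        ∃ s : Finset G, s.card ≤ r ∧ Subgroup.closure (s : Set G) = H) ∧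
      (∃ r : ℕ, ∀ H : Subgroup G, H ≤ B → H.FG →
        ∃ s : Finset G, s.card ≤ r ∧ Subgroup.closure (s : Set G) = H) ∧
      (∀ g : G, ∃ a ∈ A, ∃ b ∈ B, a * b = g) ∧
      ¬ (∃ r : ℕ, ∀ H : Subgroup G, H.FG →
        ∃ s : Finset G, s.card ≤ r ∧ Subgroup.closure (s : Set G) = H) := by
  exact Pool.Agent.H923Z.SCApp.thm_rank Pool.Agent.H668Z.SC.embed_holds

end Pool.Agent.S02059
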