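import Pool.Statements.S02070
import Pool.Agent.H909Z.Onn.Padic

set_option autoImplicit false
open Pool Pool.MP_7ed69f_al

namespace Pool.Agent.S02070

/-- The negation of the preceding statement: For all N,r ≥ 2 there is a finite set of integer polynomials of degree ≤ C(N,2)·r whose values at q are exactly the dimensions of irreducible complex reps of GL_N(o/p^r) nontrivial on the level-(r−1) kernel, for every compact DVR o. -/
theorem result :
    ¬ (∀ N r : ℕ, 2 ≤ N → 2 ≤ r →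
    ∃ P : Finset (Polynomial ℤ), (∀ d ∈ P, d.natDegree ≤ N.choose 2 * r) ∧
    ∀ (R : Type) [CommRing R] [IsDomain R] [IsDiscreteValuationRing R]
      [Finite (IsLocalRing.ResidueField R)]
      [IsAdicComplete (IsLocalRing.maximalIdeal R) R],
    {z : ℤ | ∃ (V : Type) (_ : AddCommGroup V) (_ : Module ℂ V)
        (ρ : Representation ℂ
          (Matrix.GeneralLinearGroup (Fin N) (R ⧸ IsLocalRing.maximalIdeal R ^ r)) V),
        FiniteDimensional ℂ V ∧ Nontrivial V ∧
        (∀ W : Submodule ℂ V, (∀ g v, v ∈ W → ρ g v ∈ W) → W = ⊥ ∨ W = ⊤) ∧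
        (∃ g : Matrix.GeneralLinearGroup (Fin N) (R ⧸ IsLocalRing.maximalIdeal R ^ r),
          (∀ i j, ∃ a ∈ IsLocalRing.maximalIdeal R ^ (r - 1),
            g.val i j
              - (1 : Matrix (Fin N) (Fin N) (R ⧸ IsLocalRing.maximalIdeal R ^ r)) i j
              = Ideal.Quotient.mk (IsLocalRing.maximalIdeal R ^ r) a) ∧ ρ g ≠ 1) ∧
        (Module.finrank ℂ V : ℤ) = z}
    = (fun d : Polynomial ℤ => d.eval (Nat.card (IsLocalRing.ResidueField R) : ℤ)) ''
        (P : Set (Polynomial ℤ))) := by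
  intro h
  obtain ⟨P, -, hP⟩ := h 3 2 (by norm_num) le_rfl
  have he : (Polynomial.X ^ 3 * (Polynomial.X + 1) * (Polynomial.X ^ 2 + Polynomial.X + 1) :
      Polynomial ℤ) ∈ P := by
    apply H909Z.Onn.mem_of_forall
    intro p hp h3
    haveI : Fact p.Prime := ⟨hp⟩
    have h2 : (2 : ZMod p) ≠ 0 := by
      intro h0
      have : ((2 : ℕ) : ZMod p) = 0 := by exact_mod_cast h0
      rw [ZMod.natCast_eq_zero_iff] at this
      have := Nat.le_of_dvd (by norm_num) this
      omega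
    obtain ⟨V, i1, i2, ρ, h1, h4, h5, ⟨g, hg, hg1⟩, h6⟩ :=
      H909Z.Onn.exists_irrep (H909Z.Onn.setup p) h2
    have hmem := (hP ℤ_[p]).le (show (Module.finrank ℂ V : ℤ) ∈ _ from
      ⟨V, i1, i2, ρ, h1, h4, h5, ⟨g, fun i j => by
        obtain ⟨a, ha, hb⟩ := H909Z.Onn.res_eq_zero p (H909Z.Onn.mem_KK.mp hg i j)
        exact ⟨a, by simpa using ha, hb⟩, hg1⟩, rfl⟩)
    obtain ⟨d, hd, hd2⟩ := hmem
    refine ⟨d, hd, ?_⟩
    simp only [H909Z.Onn.card_res] at hd2
    rw [hd2, h6]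
    simp [ZMod.card]
  have hmem := (hP ℤ_[2]).ge ⟨_, he, rfl⟩
  obtain ⟨V, i1, i2, ρ, h1, h4, h5, -, h6⟩ := hmem
  have h7 := H909Z.Onn.bound_two (H909Z.Onn.setup 2) ρ h5
  simp only [H909Z.Onn.card_res] at h6
  norm_num at h6
  omega

end Pool.Agent.S02070
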