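import Pool.Statements.S02188
import Pool.Agent.H153Z.Markov

set_option autoImplicit false
open Cardinal
open Pool Pool.MP_8859ef_al

namespace Pool.Agent.S02188

/-- The negation of the preceding statement: For every group G of cardinality at most 2^continuum and every countable family of subsets of G, some Hausdorff group topology on G gives each set in the family the same closure as the Markov topology (intersection of all Hausdorff group topologies). -/
theorem result :
    ¬ (∀ (G : Type) [Group G], Cardinal.mk G ≤ 2 ^ Cardinal.continuum →
      ∀ (E : Set (Set G)), E.Countable →
        ∃ t : TopologicalSpace G, @IsTopologicalGroup G t _ ∧ @T2Space G t ∧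
          ∀ e ∈ E, @closure G t e =
            @closure G (sSup {s : TopologicalSpace G | @IsTopologicalGroup G s _ ∧ @T2Space G s}) e) := by
  exact Pool.Agent.H153Z.Markov.main

end Pool.Agent.S02188
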