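import Pool.Statements.S02234
import Pool.Agent.H10Z.SIC

set_option autoImplicit false
open FirstOrder FirstOrder.Language
open Pool Pool.MP_8ea9e7_al

namespace Pool.Agent.S02234

/-- The negation of the preceding statement: For every finite algebra A in a finite signature that is nilpotent (via term-condition central series) and generates a congruence permutable variety V, some finite first-order theory has as models exactly the subdirectly irreducible members of V. -/
theorem result :
    ¬ (∀ (L : FirstOrder.Language.{0,0}), Finite (Σ n, L.Functions n) →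
    (∀ n, IsEmpty (L.Relations n)) →
    ∀ (A : Type) [Finite A] [Nonempty A] [L.Structure A],
    (∀ (B : Type) [L.Structure B],
      (∀ (n : ℕ) (t s : L.Term (Fin n)),
        (∀ v : Fin n → A, t.realize v = s.realize v) →
        ∀ w : Fin n → B, t.realize w = s.realize w) →
      ∀ (α β : B → B → Prop), Equivalence α → Equivalence β →
        (∀ (n : ℕ) (f : L.Functions n) (x y : Fin n → B),
          (∀ i, α (x i) (y i)) → α (Structure.funMap f x) (Structure.funMap f y)) →
        (∀ (n : ℕ) (f : L.Functions n) (x y : Fin n → B),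
          (∀ i, β (x i) (y i)) → β (Structure.funMap f x) (Structure.funMap f y)) →
        ∀ x y : B, (∃ z, α x z ∧ β z y) ↔ (∃ z, β x z ∧ α z y)) →
    (∃ (k : ℕ) (θ : ℕ → A → A → Prop),
      (∀ x y, θ 0 x y) ∧ (∀ x y, θ k x y ↔ x = y) ∧ (∀ i, Equivalence (θ i)) ∧
      (∀ (i n : ℕ) (f : L.Functions n) (x y : Fin n → A),
        (∀ j, θ i (x j) (y j)) → θ i (Structure.funMap f x) (Structure.funMap f y)) ∧
      (∀ i, i < k → ∀ (m n : ℕ) (t : L.Term (Fin m ⊕ Fin n)) (a b : Fin m → A)
        (c d : Fin n → A), (∀ j, θ i (c j) (d j)) →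
        θ (i + 1) (t.realize (Sum.elim a c)) (t.realize (Sum.elim a d)) →
        θ (i + 1) (t.realize (Sum.elim b c)) (t.realize (Sum.elim b d)))) →
    ∃ T : L.Theory, Set.Finite T ∧
      ∀ (B : Type) [L.Structure B],
        (FirstOrder.Language.Theory.Model B T ↔
          ((∀ (n : ℕ) (t s : L.Term (Fin n)),
              (∀ v : Fin n → A, t.realize v = s.realize v) →
              ∀ w : Fin n → B, t.realize w = s.realize w) ∧
            Nontrivial B ∧
            ∃ μ : B → B → Prop, Equivalence μ ∧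
              (∀ (n : ℕ) (f : L.Functions n) (x y : Fin n → B),
                (∀ i, μ (x i) (y i)) → μ (Structure.funMap f x) (Structure.funMap f y)) ∧
              (∃ x y : B, μ x y ∧ x ≠ y) ∧
              ∀ θ : B → B → Prop, Equivalence θ →
                (∀ (n : ℕ) (f : L.Functions n) (x y : Fin n → B),
                  (∀ i, θ (x i) (y i)) → θ (Structure.funMap f x) (Structure.funMap f y)) →
                (∃ x y : B, θ x y ∧ x ≠ y) → ∀ x y : B, μ x y → θ x y))) := by
  intro H
  obtain ⟨T, hT, hiff⟩ := H Pool.Agent.H10Z.SI.Lg Pool.Agent.H10Z.SI.finite_fn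
    (fun _ => (inferInstance : IsEmpty Empty)) Pool.Agent.H10Z.SI.A
    (fun B _ hB α β hα hβ cα cβ x y =>
      ⟨Pool.Agent.H10Z.SI.InV.perm hB hα hβ cα cβ x y,
        Pool.Agent.H10Z.SI.InV.perm hB hβ hα cβ cα x y⟩)
    ⟨3, fun i x y => x - y ∈ Pool.Agent.H10Z.SI.K i, fun _ _ => trivial,
      fun x y => sub_eq_zero,
      fun i => ⟨fun x => by simp, fun {x y} h => by simpa using neg_mem h,
        fun {x y z} h1 h2 => by simpa using add_mem h1 h2⟩,
      fun i => Pool.Agent.H10Z.SI.K_compat i,
      fun i _ m n t a b c d h h1 => by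
        have h2 := sub_mem h1 (Pool.Agent.H10Z.SI.K_tc i m n a b c d h t)
        simpa using h2⟩
  refine Pool.Agent.H10Z.SI.no_finite_theory T hT ((hiff Pool.Agent.H10Z.SI.U).mpr ?_)
    (fun N hN => ((hiff (Pool.Agent.H10Z.SI.B N)).mp hN).1)
  exact ⟨Pool.Agent.H10Z.SI.InV_U, ⟨⟨_, _, Pool.Agent.H10Z.SI.cB_ne⟩⟩, Pool.Agent.H10Z.SI.mu,
    Pool.Agent.H10Z.SI.mu_equiv, Pool.Agent.H10Z.SI.mu_compat,
    ⟨_, _, Pool.Agent.H10Z.SI.mu_cB, Pool.Agent.H10Z.SI.cB_ne⟩,
    fun θ hθ cθ hne x y h => Pool.Agent.H10Z.SI.mu_min θ hθ cθ hne x y h⟩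

end Pool.Agent.S02234
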