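import Pool.Statements.S02243
import Pool.Agent.H782Z.Tower

set_option autoImplicit false
open scoped Pointwise
open Pool Pool.MP_8f292a_al

namespace Pool.Agent.S02243

/-- There is an infinite torsion group with a finite generating set S and constants C, s such that, whenever f is supported in the n-ball of S, the squared ℓ² norm of f∗g is at most C(1+n)^s times the squared ℓ² norms of f and g, i.e. property RD. -/
theorem result :
    ∃ (G : Type) (_ : Group G), Infinite G ∧ Monoid.IsTorsion G ∧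
      ∃ S : Finset G, Subgroup.closure (S : Set G) = ⊤ ∧
        ∃ C s : ℝ, ∀ n : ℕ, ∀ f g : G →₀ ℝ,
          (f.support : Set G) ⊆ ((S : Set G) ∪ (S : Set G)⁻¹ ∪ {1}) ^ n →
            ∀ F : Finset G,
              ∑ x ∈ F, (∑ y ∈ f.support, f y * g (y⁻¹ * x)) ^ 2 ≤
                C * (1 + (n : ℝ)) ^ s * (∑ y ∈ f.support, f y ^ 2) *
                  (∑ z ∈ g.support, g z ^ 2) := by
  classical
  obtain ⟨G, _, π, A, D, hA, hπ, hinf, htor, hrd⟩ := Pool.Agent.H782Z.main_rd
  refine ⟨G, inferInstance, hinf, htor, Finset.univ.image fun b : Bool => π (FreeGroup.of b),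
    ?_, A * 2 ^ D, D, ?_⟩
  · have e : ((Finset.univ.image fun b : Bool => π (FreeGroup.of b) : Finset G) : Set G) =
        π '' Set.range FreeGroup.of := by
      rw [Finset.coe_image, Finset.coe_univ, Set.image_univ, ← Set.range_comp]
      rfl
    rw [e, ← MonoidHom.map_closure, FreeGroup.closure_range_of]
    exact Subgroup.map_top_of_surjective π hπ
  · intro n f g hf F
    have hT : ∀ x ∈ (((Finset.univ.image fun b : Bool => π (FreeGroup.of b) : Finset G) : Set G) ∪
        ((Finset.univ.image fun b : Bool => π (FreeGroup.of b) : Finset G) : Set G)⁻¹ ∪ {1}),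
        ∃ s ∈ Pool.Agent.H782Z.T0, π s = x := by
      rintro x ((hx | hx) | hx)
      · obtain ⟨b, -, rfl⟩ := Finset.mem_image.1 hx
        exact ⟨FreeGroup.of b, Or.inl (Or.inl ⟨b, rfl⟩), rfl⟩
      · obtain ⟨b, -, hb⟩ := Finset.mem_image.1 (Set.mem_inv.1 hx)
        refine ⟨(FreeGroup.of b)⁻¹, Or.inl (Or.inr (Set.mem_inv.2 ⟨b, (inv_inv _).symm⟩)), ?_⟩
        rw [map_inv, hb, inv_inv]
      · exact ⟨1, Pool.Agent.H782Z.T0_one, by rw [map_one, Set.mem_singleton_iff.1 hx]⟩
    have hsub : Pool.Agent.H782Z.T0 ^ n ⊆ Pool.Agent.H782Z.T0 ^ (n + 1) :=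
      Set.pow_subset_pow_right Pool.Agent.H782Z.T0_one (Nat.le_succ n)
    have h1 : Pool.Agent.H782Z.RDq Pool.Agent.H782Z.T0 π (n + 1) (A * 2 ^ D * (1 + (n : ℝ)) ^ D) := by
      refine (hrd (n + 1) (Nat.le_add_left 1 n)).mono ?_
      rw [mul_assoc, ← mul_pow]
      refine mul_le_mul_of_nonneg_left (pow_le_pow_left₀ (by positivity) ?_ D) hA.le
      push_cast
      linarith [Nat.cast_nonneg (α := ℝ) n]
    rw [Real.rpow_natCast]
    refine Pool.Agent.H782Z.rd_down π hπ (n + 1) _ h1 f g (fun x hx => ?_) F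
    obtain ⟨y, hy, e⟩ := Pool.Agent.H782Z.lift_ball π _ hT n x (hf hx)
    exact ⟨y, hsub hy, e⟩

end Pool.Agent.S02243
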