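import Pool.Statements.S02293
import Pool.Agent.H514Z.SemiEggert

set_option autoImplicit false
open Pool Pool.MP_923967_al

namespace Pool.Agent.S02293

/-- For every finite nilpotent commutative semigroup S with absorbing zero and every n ≥ 1, n times the number of nonzero n-th powers in S is at most the number of nonzero elements of S. -/
theorem result :
    ∀ (S : Type) [SemigroupWithZero S] [Finite S],
      (∀ a b : S, a * b = b * a) →
      (∃ k : ℕ, ∀ l : List S, l.length = k →
        (l.map (fun s => (s : WithOne S))).prod = ((0 : S) : WithOne S)) →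
      ∀ n : ℕ, 0 < n →
        n * {y : S | y ≠ 0 ∧ ∃ x : S, (x : WithOne S) ^ n = (y : WithOne S)}.ncard
          ≤ {y : S | y ≠ 0}.ncard := by
  intro S _ _ hc ⟨k, hk⟩ n hn
  let _ : CommMonoid (WithOne S) :=
    { (inferInstance : Monoid (WithOne S)) with
      mul_comm := by
        intro a b
        induction a using WithOne.recOneCoe with
        | one => rw [one_mul, mul_one]
        | coe a =>
          induction b using WithOne.recOneCoe with
          | one => rw [one_mul, mul_one]
          | coe b => rw [← WithOne.coe_mul, ← WithOne.coe_mul, hc] }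
  have : Finite (WithOne S) := inferInstanceAs (Finite (Option S))
  have h := Pool.Agent.H514Z.SemiEggert.all_sub (M := WithOne S) ((0 : S) : WithOne S)
    (by
      intro x
      induction x using WithOne.recOneCoe with
      | one => rw [one_mul]
      | coe a => rw [← WithOne.coe_mul, mul_zero])
    (Set.range (fun s : S => (s : WithOne S))) ⟨0, rfl⟩
    (by
      rintro _ ⟨a, rfl⟩ _ ⟨b, rfl⟩
      exact ⟨a * b, WithOne.coe_mul a b⟩) k
    (by
      intro l h1 h2
      obtain ⟨l', rfl⟩ : ∃ l' : List S, l'.map (fun s => (s : WithOne S)) = l := by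
        clear h1
        induction l with
        | nil => exact ⟨[], rfl⟩
        | cons a l ih =>
          obtain ⟨l', rfl⟩ := ih (fun x hx => h2 x (List.mem_cons_of_mem _ hx))
          obtain ⟨b, rfl⟩ := h2 a List.mem_cons_self
          exact ⟨b :: l', rfl⟩
      exact hk l' (by simpa using h1)) n hn
  have hinj : Function.Injective (fun s : S => (s : WithOne S)) := fun a b e => WithOne.coe_inj.1 e
  have e1 : (fun s : S => (s : WithOne S)) '' {y : S | y ≠ 0} =
      Set.range (fun s : S => (s : WithOne S)) \ {((0 : S) : WithOne S)} := by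
    ext x
    constructor
    · rintro ⟨y, hy, rfl⟩
      exact ⟨⟨y, rfl⟩, fun e => hy (hinj e)⟩
    · rintro ⟨⟨y, rfl⟩, hy⟩
      exact ⟨y, fun e => hy (by rw [e]; rfl), rfl⟩
  rw [← e1, Set.ncard_image_of_injective _ hinj] at h
  refine le_trans (Nat.mul_le_mul_left n ?_) h
  rw [← Set.ncard_image_of_injective _ hinj]
  apply Set.ncard_le_ncard _ (Set.toFinite _)
  rintro _ ⟨y, ⟨hy, x, hx⟩, rfl⟩
  exact ⟨⟨x, ⟨x, rfl⟩, hx⟩, fun e => hy (hinj e)⟩

end Pool.Agent.S02293
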