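import Pool.Statements.S02341
import Pool.Agent.H143Z.Vir.E
import Pool.Agent.Helper855.VirasoroTheory

set_option autoImplicit false
open Pool Pool.MP_94cd9d_al

namespace Pool.Agent.S02341

/-- For every complex c ≠ 0, the ℂ-algebra generated by L_n (n∈ℤ) modulo [L_m,L_n] = (m−n)L_{m+n} + δ_{m+n,0}·c(m³−m)/12 is a simple ring (nontrivial, only trivial two-sided ideals). -/
theorem result :
    ∀ c : ℂ, c ≠ 0 →
      IsSimpleRing
        (RingQuot (fun a b : FreeAlgebra ℂ ℤ =>
          ∃ m n : ℤ,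
            a = FreeAlgebra.ι ℂ m * FreeAlgebra.ι ℂ n - FreeAlgebra.ι ℂ n * FreeAlgebra.ι ℂ m ∧
            b = ((m - n : ℤ) : ℂ) • FreeAlgebra.ι ℂ (m + n) +
              (if m + n = 0 then
                algebraMap ℂ (FreeAlgebra ℂ ℤ) (c * ((m : ℂ) ^ 3 - (m : ℂ)) / 12)
               else 0))) := by
  intro c hc
  set s : FreeAlgebra ℂ ℤ → FreeAlgebra ℂ ℤ → Prop := fun a b =>
          ∃ m n : ℤ,
            a = FreeAlgebra.ι ℂ m * FreeAlgebra.ι ℂ n - FreeAlgebra.ι ℂ n * FreeAlgebra.ι ℂ m ∧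
            b = ((m - n : ℤ) : ℂ) • FreeAlgebra.ι ℂ (m + n) +
              (if m + n = 0 then
                algebraMap ℂ (FreeAlgebra ℂ ℤ) (c * ((m : ℂ) ^ 3 - (m : ℂ)) / 12)
               else 0) with hs
  set L : ℤ → RingQuot s := fun n => RingQuot.mkAlgHom ℂ s (FreeAlgebra.ι ℂ n) with hLdef
  have hL : Pool.Agent.H143Z.Vir.Rel L c := by
    intro m n
    have h := RingQuot.mkAlgHom_rel ℂ (s := s) ⟨m, n, rfl, rfl⟩
    rw [map_sub, map_mul, map_mul, map_add, map_smul] at h
    refine h.trans ?_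
    congr 1
    split_ifs
    · rw [AlgHom.commutes, Algebra.algebraMap_eq_smul_one]; rfl
    · simp
  have hsp : ∀ a : RingQuot s, a ∈ Pool.Agent.H143Z.Vir.Sp L := by
    intro a
    obtain ⟨u, rfl⟩ := RingQuot.mkAlgHom_surjective ℂ s a
    induction u using FreeAlgebra.induction with
    | grade0 r =>
      rw [AlgHom.commutes, Algebra.algebraMap_eq_smul_one]
      exact Submodule.smul_mem _ _ (Submodule.subset_span ⟨[], rfl⟩)
    | grade1 n =>
      exact Submodule.subset_span ⟨[n], by simp [Pool.Agent.H143Z.Vir.W, hLdef]⟩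
    | mul a b ha hb => rw [map_mul]; exact Pool.Agent.H143Z.Vir.Sp_mul L ha hb
    | add a b ha hb => rw [map_add]; exact add_mem ha hb
  have hnt : Nontrivial (RingQuot s) := by
    let f : FreeAlgebra ℂ ℤ →ₐ[ℂ] Module.End ℂ (Pool.Agent.Helper855.Virasoro.Mod ℂ) :=
      FreeAlgebra.lift ℂ (Pool.Agent.Helper855.Virasoro.opM c 0)
    have hf : ∀ ⦃a b⦄, s a b → f a = f b := by
      rintro _ _ ⟨m, n, rfl, rfl⟩
      simp only [f, map_sub, map_mul, map_add, map_smul, FreeAlgebra.lift_ι_apply]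
      rw [Pool.Agent.Helper855.Virasoro.opM_comm]
      congr 1
      split_ifs
      · rw [AlgHom.commutes, Algebra.algebraMap_eq_smul_one]
        congr 1
        have h6 : (6 : ℂ) * (Pool.Agent.Helper855.Virasoro.binom3 m : ℂ)
            = ((m : ℂ) + 1) * m * (m - 1) := by
          exact_mod_cast congrArg (Int.cast : ℤ → ℂ) (Pool.Agent.Helper855.Virasoro.six_binom3 m)
        unfold Pool.Agent.Helper855.Virasoro.cen
        linear_combination c / 12 * h6
      · simp
    refine ⟨⟨1, 0, fun h => ?_⟩⟩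
    have h1 := congrArg (RingQuot.liftAlgHom ℂ (s := s) ⟨f, hf⟩) h
    rw [map_one, map_zero] at h1
    have h2 := congrArg (fun g : Module.End ℂ (Pool.Agent.Helper855.Virasoro.Mod ℂ) =>
      Pool.Agent.Helper855.Virasoro.epsM (g Pool.Agent.Helper855.Virasoro.vacM)) h1
    simp [Pool.Agent.Helper855.Virasoro.epsM_vac] at h2
  exact Pool.Agent.H143Z.Vir.simple_of_rel hc hL hsp

end Pool.Agent.S02341
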