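import Pool.Statements.S02413
import Pool.Agent.H231Z.NormPres

set_option autoImplicit false
open Pool Pool.MP_98297f_al

namespace Pool.Agent.S02413

open Polynomial Pool.Agent.H231Z.GenMin

/-- The generic minimal polynomial is the product of the generic characteristic polynomials. -/
theorem link (K : Type) [Field K] (I H : Type) [Fintype I] [Group H] [Fintype H]
    (hcard : (Fintype.card H : K) ≠ 0) (b : I ≃ H)
    (ι : FractionRing (MvPolynomial I K) →+* FractionRing (MvPolynomial I (AlgebraicClosure K)))
    (hι : ∀ g, ι (algebraMap (MvPolynomial I K) _ (MvPolynomial.X g)) =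
      algebraMap (MvPolynomial I (AlgebraicClosure K)) _ (MvPolynomial.X g)) :
    ∃ (D : NT (AlgebraicClosure K) (MonoidAlgebra (AlgebraicClosure K) H))
      (Φ : (MvPolynomial I (AlgebraicClosure K))[X]),
      (minpoly (FractionRing (MvPolynomial I K))
        (∑ g : I, (algebraMap (MvPolynomial I K) (FractionRing (MvPolynomial I K)) (MvPolynomial.X g)) •
          MonoidAlgebra.single (b g) (1 : FractionRing (MvPolynomial I K)))).map ι =
        Φ.map (algebraMap _ (FractionRing (MvPolynomial I (AlgebraicClosure K)))) ∧
      ∀ c : I → AlgebraicClosure K, (Φ.map (MvPolynomial.eval c)).eval 0 =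
        D.N (∑ g, (-c g) • MonoidAlgebra.single (b g) 1) := by
  classical
  set k := AlgebraicClosure K
  set F := FractionRing (MvPolynomial I K)
  set L := FractionRing (MvPolynomial I k)
  haveI : NeZero (Nat.card H : k) := ⟨by
    rw [Nat.card_eq_fintype_card, ← map_natCast (algebraMap K k)]
    exact (_root_.map_ne_zero _).2 hcard⟩
  obtain ⟨n, d, -, ⟨W⟩⟩ := IsSemisimpleRing.exists_algEquiv_pi_matrix_of_isAlgClosed k (MonoidAlgebra k H)
  obtain ⟨D, hD⟩ := exists_NT (k := k) (d := d) W
  let w : H → PM d k := fun h => W (MonoidAlgebra.single h 1)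
  have hsum : ∀ c : H → k, ∑ h, c h • w h = W (∑ h, c h • MonoidAlgebra.single h 1) := by
    intro c
    simp only [w, map_sum, map_smul]
  have hcoef : ∀ (c : H → k) (h : H), (∑ h, c h • MonoidAlgebra.single h (1 : k)).coeff h = c h := by
    intro c h
    simp [Finsupp.single_apply]
  have hind : ∀ c : H → k, ∑ h, c h • w h = 0 → ∀ h, c h = 0 := by
    intro c hc h
    rw [hsum, map_eq_zero_iff _ W.injective] at hc
    rw [← hcoef c h, hc]; rfl
  have hspan : ∀ a, ∃ c : I → k, ∑ g, c g • w (b g) = a := by
    intro a
    refine ⟨fun g => (W.symm a).coeff (b g), ?_⟩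
    rw [Equiv.sum_comp b (fun h => (W.symm a).coeff h • w h), hsum]
    have : ∑ h, (W.symm a).coeff h • MonoidAlgebra.single h (1 : k) = W.symm a := by
      ext h; exact hcoef _ h
    rw [this, AlgEquiv.apply_symm_apply]
  refine ⟨D, Phi (fun g => w (b g)), ?_, ?_⟩
  · letI : Algebra F L := ι.toAlgebra
    let w' : H →* PM d L :=
      { toFun := fun h i => (w h i).map (algebraMap k L)
        map_one' := by
          funext i
          have : w 1 = 1 := map_one W
          rw [this]
          exact Matrix.map_one _ (map_zero _) (map_one _)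
        map_mul' := by
          intro g h
          funext i
          have : w (g * h) = w g * w h := by
            simp only [w]
            rw [← map_mul, MonoidAlgebra.single_mul_single, mul_one]
          rw [this]
          exact Matrix.map_mul }
    have h1 := minpoly_transfer (F := F) (L := L) (B := PM d L) w' (indep_base w hind)
      (∑ g : I, (algebraMap (MvPolynomial I K) F (MvPolynomial.X g)) • MonoidAlgebra.single (b g) (1 : F))
    refine h1.symm.trans (Eq.trans ?_ (minpoly_gen (fun g => w (b g)) hspan))
    congr 1
    funext i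
    refine Matrix.ext fun x y => ?_
    simp only [map_sum, map_smul, MonoidAlgebra.lift_single, one_smul, Finset.sum_apply, Matrix.sum_apply,
      Pi.smul_apply, Matrix.smul_apply, gen, Matrix.map_apply, smul_eq_mul, map_mul]
    refine Finset.sum_congr rfl fun g _ => ?_
    rw [Algebra.smul_def, ← hι]
    rfl
  · intro c
    rw [Phi_map_eval, eval_prod, hD]
    refine Finset.prod_congr rfl fun i _ => ?_
    rw [Matrix.eval_charpoly]
    congr 1
    simp only [w, map_sum, map_smul, neg_smul, Finset.sum_neg_distrib, map_neg, map_zero, zero_sub,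
      Pi.neg_apply]

theorem root_aug {F I H : Type} [Field F] [Fintype I] [Group H] (a : I → F) (b : I → H) :
    (minpoly F (∑ g : I, a g • MonoidAlgebra.single (b g) (1 : F))).eval (∑ g, a g) = 0 := by
  have h := Polynomial.aeval_algHom_apply (MonoidAlgebra.lift F F H 1)
    (∑ g : I, a g • MonoidAlgebra.single (b g) (1 : F))
    (minpoly F (∑ g : I, a g • MonoidAlgebra.single (b g) (1 : F)))
  rw [minpoly.aeval, map_zero] at h
  rw [← coe_aeval_eq_eval, ← h]
  simp

/-- For every field of characteristic 2 and finite groups G, H of the same odd order: if some bijection makes their generic minimal polynomials have the same degree and the same coefficients strictly between top and constant term, then G and H are isomorphic. -/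
theorem result :
    ∀ (K : Type) [Field K] [CharP K 2] (G H : Type) [Group G] [Group H] [Fintype G] [Fintype H],
      Odd (Fintype.card G) → Fintype.card G = Fintype.card H →
      (∃ π : G ≃ H,
        (minpoly (FractionRing (MvPolynomial G K))
            (∑ g : G, (algebraMap (MvPolynomial G K) (FractionRing (MvPolynomial G K)) (MvPolynomial.X g)) •
              MonoidAlgebra.single g (1 : FractionRing (MvPolynomial G K)))).natDegree =
          (minpoly (FractionRing (MvPolynomial G K))
            (∑ g : G, (algebraMap (MvPolynomial G K) (FractionRing (MvPolynomial G K)) (MvPolynomial.X g)) •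
              MonoidAlgebra.single (π g) (1 : FractionRing (MvPolynomial G K)))).natDegree ∧
        ∀ j : ℕ, 1 ≤ j →
          j < (minpoly (FractionRing (MvPolynomial G K))
            (∑ g : G, (algebraMap (MvPolynomial G K) (FractionRing (MvPolynomial G K)) (MvPolynomial.X g)) •
              MonoidAlgebra.single g (1 : FractionRing (MvPolynomial G K)))).natDegree →
          (minpoly (FractionRing (MvPolynomial G K))
            (∑ g : G, (algebraMap (MvPolynomial G K) (FractionRing (MvPolynomial G K)) (MvPolynomial.X g)) •
              MonoidAlgebra.single g (1 : FractionRing (MvPolynomial G K)))).coeff j =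
          (minpoly (FractionRing (MvPolynomial G K))
            (∑ g : G, (algebraMap (MvPolynomial G K) (FractionRing (MvPolynomial G K)) (MvPolynomial.X g)) •
              MonoidAlgebra.single (π g) (1 : FractionRing (MvPolynomial G K)))).coeff j) →
      Nonempty (G ≃* H) := by
  classical
  intro K _ _ G H _ _ _ _ hodd hcard ⟨π, hdeg, hco⟩
  set k := AlgebraicClosure K
  set F := FractionRing (MvPolynomial G K)
  set L := FractionRing (MvPolynomial G k)
  set φ := minpoly F (∑ g : G, (algebraMap (MvPolynomial G K) F (MvPolynomial.X g)) •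
    MonoidAlgebra.single g (1 : F)) with hφ
  set ψ := minpoly F (∑ g : G, (algebraMap (MvPolynomial G K) F (MvPolynomial.X g)) •
    MonoidAlgebra.single (π g) (1 : F)) with hψ
  have hm1 : φ.Monic := minpoly.monic (Algebra.IsIntegral.isIntegral _)
  have hm2 : ψ.Monic := minpoly.monic (Algebra.IsIntegral.isIntegral _)
  have heq : φ = ψ := by
    have h1 : φ - ψ = C ((φ - ψ).coeff 0) := by
      apply eq_C_of_natDegree_le_zero
      rw [natDegree_le_iff_coeff_eq_zero]
      intro j hj
      rw [coeff_sub, sub_eq_zero]
      rcases lt_trichotomy j φ.natDegree with h | h | h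
      · exact hco j hj h
      · rw [h, hm1.coeff_natDegree, hdeg, hm2.coeff_natDegree]
      · rw [coeff_eq_zero_of_natDegree_lt h, coeff_eq_zero_of_natDegree_lt (hdeg ▸ h)]
    have h2 := congrArg (eval (∑ g : G, algebraMap (MvPolynomial G K) F (MvPolynomial.X g))) h1
    rw [eval_sub, eval_C, hφ, hψ, root_aug, root_aug, sub_zero] at h2
    rw [← h2, C_0] at h1
    exact sub_eq_zero.1 h1
  have hinj : Function.Injective ((algebraMap (MvPolynomial G k) L).comp
      (MvPolynomial.map (algebraMap K k))) :=
    (IsFractionRing.injective _ _).comp (MvPolynomial.map_injective _ (algebraMap K k).injective)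
  let ι : F →+* L := IsFractionRing.lift hinj
  have hι : ∀ g, ι (algebraMap (MvPolynomial G K) F (MvPolynomial.X g)) =
      algebraMap (MvPolynomial G k) L (MvPolynomial.X g) := by
    intro g
    simp [ι, IsFractionRing.lift_algebraMap]
  have hc1 : (Fintype.card G : K) ≠ 0 := by
    rw [Ne, CharP.cast_eq_zero_iff K 2]
    exact fun h => (Nat.not_even_iff_odd.2 hodd) (even_iff_two_dvd.2 h)
  obtain ⟨D, Φ, e1, e2⟩ := link K G G hc1 (Equiv.refl G) ι hι
  obtain ⟨D', Φ', e1', e2'⟩ := link K G H (hcard ▸ hc1) π ι hι
  have hΦ : Φ = Φ' := by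
    apply Polynomial.map_injective _ (IsFractionRing.injective (MvPolynomial G k) L)
    rw [← e1, ← e1']
    exact congrArg _ heq
  have hN : ∀ c : G → k, D'.N (∑ g, c g • MonoidAlgebra.single (π g) 1) =
      D.N (∑ g, c g • MonoidAlgebra.single g 1) := by
    intro c
    have a1 := e2 (fun g => -c g)
    have a2 := e2' (fun g => -c g)
    simp only [neg_neg] at a1 a2
    rw [← a2, ← hΦ, a1]
    rfl
  have hone : D'.N (MonoidAlgebra.single (π 1) 1) = 1 := by
    have := hN (Pi.single 1 1)
    rw [Finset.sum_eq_single 1 (fun g _ hg => by simp [Pi.single_eq_of_ne hg]) (by simp),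
      Finset.sum_eq_single 1 (fun g _ hg => by simp [Pi.single_eq_of_ne hg]) (by simp)] at this
    simp only [Pi.single_eq_same, one_smul] at this
    rw [this]
    exact map_one D.N
  haveI : CharP k 2 := charP_of_injective_algebraMap (algebraMap K k).injective 2
  refine iso_of_norm hodd D D' (π.trans (Equiv.mulLeft (π 1)⁻¹)) (by simp) fun a => ?_
  have ha : a = ∑ g, a.coeff g • MonoidAlgebra.single g (1 : k) := by
    ext h
    simp [Finsupp.single_apply]
  rw [ha, ← hN, map_sum, ← one_mul (D'.N _), ← hone, ← map_mul, Finset.mul_sum]
  congr 1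
  refine Finset.sum_congr rfl fun g _ => ?_
  rw [map_smul, MonoidAlgebra.mapDomainLinearEquiv_single, mul_smul_comm, MonoidAlgebra.single_mul_single]
  simp

end Pool.Agent.S02413
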