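import Pool.Statements.S02416
import Pool.Agent.H515Z.B4Main

set_option autoImplicit false
open Pool Pool.MP_983625_al

namespace Pool.Agent.S02416

/-- The negation of the preceding statement: There is a computable procedure that, given finitely many words and one more word in the generators of the 4-strand braid group, decides whether that word lies in the subgroup generated by the given words. -/
theorem result :
    ¬ (∃ f : List (List (Fin 3 × Bool)) × List (Fin 3 × Bool) → Bool,
      Computable f ∧
      ∀ (gens : List (List (Fin 3 × Bool))) (w : List (Fin 3 × Bool)),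
        f (gens, w) = true ↔
          PresentedGroup.mk
              ({FreeGroup.of (0 : Fin 3) * FreeGroup.of 1 * FreeGroup.of 0 *
                  (FreeGroup.of 1 * FreeGroup.of 0 * FreeGroup.of 1)⁻¹,
                FreeGroup.of (1 : Fin 3) * FreeGroup.of 2 * FreeGroup.of 1 *
                  (FreeGroup.of 2 * FreeGroup.of 1 * FreeGroup.of 2)⁻¹,
                FreeGroup.of (0 : Fin 3) * FreeGroup.of 2 *
                  (FreeGroup.of 2 * FreeGroup.of 0)⁻¹} : Set (FreeGroup (Fin 3)))
              (FreeGroup.mk w) ∈
            Subgroup.closure
              {x | ∃ g ∈ gens, x =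
                PresentedGroup.mk
                  ({FreeGroup.of (0 : Fin 3) * FreeGroup.of 1 * FreeGroup.of 0 *
                      (FreeGroup.of 1 * FreeGroup.of 0 * FreeGroup.of 1)⁻¹,
                    FreeGroup.of (1 : Fin 3) * FreeGroup.of 2 * FreeGroup.of 1 *
                      (FreeGroup.of 2 * FreeGroup.of 1 * FreeGroup.of 2)⁻¹,
                    FreeGroup.of (0 : Fin 3) * FreeGroup.of 2 *
                      (FreeGroup.of 2 * FreeGroup.of 0)⁻¹} : Set (FreeGroup (Fin 3)))
                  (FreeGroup.mk g)}) :=
  Pool.Agent.H515Z.B4.undecidable

end Pool.Agent.S02416
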