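import Pool.Statements.S02463
import Pool.Agent.H347Z.DeltaCore

set_option autoImplicit false
open Pool Pool.MP_9bbc25_al

namespace Pool.Agent.S02463

/-- Every finite set of positive integers containing 1 equals the delta set of some numerical semigroup, i.e. the set of gaps between consecutive factorization lengths over its minimal generators. -/
theorem result :
    ∀ D : Finset ℕ, (∀ d ∈ D, 0 < d) → 1 ∈ D →
      ∃ S : AddSubmonoid ℕ, ((S : Set ℕ)ᶜ).Finite ∧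
        {d : ℕ | 0 < d ∧ ∃ n ∈ S, ∃ k : ℕ,
          (∃ m : Multiset ℕ,
              (∀ a ∈ m, a ∈ S ∧ a ≠ 0 ∧ ∀ b ∈ S, ∀ c ∈ S, b + c = a → b = 0 ∨ c = 0) ∧
              m.sum = n ∧ Multiset.card m = k) ∧
          (∃ m : Multiset ℕ,
              (∀ a ∈ m, a ∈ S ∧ a ≠ 0 ∧ ∀ b ∈ S, ∀ c ∈ S, b + c = a → b = 0 ∨ c = 0) ∧
              m.sum = n ∧ Multiset.card m = k + d) ∧
          ∀ j : ℕ, k < j → j < k + d →
            ¬ ∃ m : Multiset ℕ,
              (∀ a ∈ m, a ∈ S ∧ a ≠ 0 ∧ ∀ b ∈ S, ∀ c ∈ S, b + c = a → b = 0 ∨ c = 0) ∧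
              m.sum = n ∧ Multiset.card m = j} = (D : Set ℕ) := by
  intro D hD h1
  obtain ⟨m, A, r, R, hr, hrR, hR2, -, -, hA, hrA, hr1A, -, hg⟩ :=
    Pool.Agent.H347Z.Delta.exists_good D hD h1
  refine ⟨Pool.Agent.H347Z.Delta.gen A, Pool.Agent.H347Z.Delta.gen_cofinite hr hrA hr1A, ?_⟩
  simp only [Pool.Agent.H347Z.Delta.atom_iff hr hR2 hA,
    ← Pool.Agent.H347Z.Delta.len_iff_multiset]
  rw [← hg]
  ext d
  constructor
  · rintro ⟨hd, n, -, k, h2, h3, h4⟩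
    exact ⟨n, hd, k, h2, h3, h4⟩
  · rintro ⟨n, hd, k, h2, h3, h4⟩
    exact ⟨hd, n, ⟨k, h2⟩, k, h2, h3, h4⟩

end Pool.Agent.S02463
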