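import Pool.Statements.S02477
import Pool.Agent.H534Z.WInf3

set_option autoImplicit false
open Pool Pool.MP_9d3c8a_al

namespace Pool.Agent.S02477

/-- Over a char-0 field, every Lie automorphism of the algebra of derivations of F[x1,x2,...] moving only finitely many variables is conjugation by a polynomial automorphism in which each variable occurs in finitely many images of the variables, for both it and its inverse. -/
theorem result :
    ∀ (F : Type) [Field F] [CharZero F]
      (θ : Derivation F (MvPolynomial ℕ F) (MvPolynomial ℕ F) →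
            Derivation F (MvPolynomial ℕ F) (MvPolynomial ℕ F)),
      (∀ d : Derivation F (MvPolynomial ℕ F) (MvPolynomial ℕ F),
          Set.Finite {i : ℕ | d (MvPolynomial.X i) ≠ 0} →
          Set.Finite {i : ℕ | θ d (MvPolynomial.X i) ≠ 0}) →
      (∀ e : Derivation F (MvPolynomial ℕ F) (MvPolynomial ℕ F),
          Set.Finite {i : ℕ | e (MvPolynomial.X i) ≠ 0} →
          ∃ d : Derivation F (MvPolynomial ℕ F) (MvPolynomial ℕ F),
            Set.Finite {i : ℕ | d (MvPolynomial.X i) ≠ 0} ∧ θ d = e) →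
      (∀ d e : Derivation F (MvPolynomial ℕ F) (MvPolynomial ℕ F),
          Set.Finite {i : ℕ | d (MvPolynomial.X i) ≠ 0} →
          Set.Finite {i : ℕ | e (MvPolynomial.X i) ≠ 0} →
          θ d = θ e → d = e) →
      (∀ d e : Derivation F (MvPolynomial ℕ F) (MvPolynomial ℕ F),
          Set.Finite {i : ℕ | d (MvPolynomial.X i) ≠ 0} →
          Set.Finite {i : ℕ | e (MvPolynomial.X i) ≠ 0} →
          θ (d + e) = θ d + θ e ∧ θ ⁅d, e⁆ = ⁅θ d, θ e⁆) →
      (∀ (c : F) (d : Derivation F (MvPolynomial ℕ F) (MvPolynomial ℕ F)),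
          Set.Finite {i : ℕ | d (MvPolynomial.X i) ≠ 0} →
          θ (c • d) = c • θ d) →
      ∃ φ : MvPolynomial ℕ F ≃ₐ[F] MvPolynomial ℕ F,
        (∀ n : ℕ, Set.Finite {i : ℕ | n ∈ (φ (MvPolynomial.X i)).vars} ∧
                  Set.Finite {i : ℕ | n ∈ (φ.symm (MvPolynomial.X i)).vars}) ∧
        ∀ d : Derivation F (MvPolynomial ℕ F) (MvPolynomial ℕ F),
          Set.Finite {i : ℕ | d (MvPolynomial.X i) ≠ 0} →
          ∀ f : MvPolynomial ℕ F, θ d f = φ (d (φ.symm f)) := by
  intro F _ _ θ h1 h2 h3 h4 h5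
  exact Pool.Agent.H534Z.WInf.Setup.main
    ⟨h1, h2, h3, fun d e hd he => (h4 d e hd he).1, fun d e hd he => (h4 d e hd he).2, h5⟩

end Pool.Agent.S02477
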