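import Pool.Statements.S02504
import Pool.Agent.H499Z.Lamp

set_option autoImplicit false
open Pool Pool.MP_9f8f27_al

namespace Pool.Agent.S02504

/-- The negation of the preceding statement: For every group G generated by a finite set S that has (n,1/n) permutation approximations for all n, there is C ≥ 1 with ∣B_S(n)∣ ≤ C·d for every d admitting a (Cn,1/(Cn)) approximation, i.e. growth ≼ sofic profile. -/
theorem result :
    ¬ (∀ (G : Type) [Group G] (S : Finset G), Subgroup.closure (S : Set G) = ⊤ →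
      (∀ n : ℕ, ∃ d : ℕ, 0 < d ∧ ∃ φ : G → Equiv.Perm (Fin d),
        φ 1 = 1 ∧
        (∀ g h : G,
          (∃ l : List G, l.length ≤ n ∧ (∀ x ∈ l, x ∈ S ∨ x⁻¹ ∈ S) ∧ l.prod = g) →
          (∃ l : List G, l.length ≤ n ∧ (∀ x ∈ l, x ∈ S ∨ x⁻¹ ∈ S) ∧ l.prod = h) →
          ((Finset.univ.filter (fun i : Fin d => φ (g * h) i ≠ (φ g * φ h) i)).card : ℝ)
              / (d : ℝ) ≤ 1 / (n : ℝ)) ∧
        (∀ g : G,
          (∃ l : List G, l.length ≤ n ∧ (∀ x ∈ l, x ∈ S ∨ x⁻¹ ∈ S) ∧ l.prod = g) →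
          g ≠ 1 →
          1 - 1 / (n : ℝ) ≤
            ((Finset.univ.filter (fun i : Fin d => φ g i ≠ i)).card : ℝ) / (d : ℝ))) →
      ∃ C : ℕ, 0 < C ∧ ∀ n d : ℕ, 0 < d →
        (∃ φ : G → Equiv.Perm (Fin d),
          φ 1 = 1 ∧
          (∀ g h : G,
            (∃ l : List G, l.length ≤ C * n ∧ (∀ x ∈ l, x ∈ S ∨ x⁻¹ ∈ S) ∧ l.prod = g) →
            (∃ l : List G, l.length ≤ C * n ∧ (∀ x ∈ l, x ∈ S ∨ x⁻¹ ∈ S) ∧ l.prod = h) →
            ((Finset.univ.filter (fun i : Fin d => φ (g * h) i ≠ (φ g * φ h) i)).card : ℝ)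
                / (d : ℝ) ≤ 1 / ((C * n : ℕ) : ℝ)) ∧
          (∀ g : G,
            (∃ l : List G, l.length ≤ C * n ∧ (∀ x ∈ l, x ∈ S ∨ x⁻¹ ∈ S) ∧ l.prod = g) →
            g ≠ 1 →
            1 - 1 / ((C * n : ℕ) : ℝ) ≤
              ((Finset.univ.filter (fun i : Fin d => φ g i ≠ i)).card : ℝ) / (d : ℝ))) →
        Nat.card {g : G // ∃ l : List G, l.length ≤ n ∧ (∀ x ∈ l, x ∈ S ∨ x⁻¹ ∈ S) ∧ l.prod = g}
          ≤ C * d) := by
  intro H
  obtain ⟨C, _, hC⟩ := H Pool.Agent.H499Z.Lamp.G Pool.Agent.H499Z.Lamp.S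
    Pool.Agent.H499Z.Lamp.closure_S (fun n => by
      obtain ⟨d, hd, _, h⟩ := Pool.Agent.H499Z.Lamp.approx n (n * (2 * n + 1))
        (Nat.lt_two_pow_self).le
      exact ⟨d, hd, h⟩)
  obtain ⟨n, m, h1, h2⟩ := Pool.Agent.H499Z.Lamp.numeric C
  obtain ⟨d, hd, hd4, h⟩ := Pool.Agent.H499Z.Lamp.approx (C * n) m h1
  have h3 := hC n d hd h
  have h4 := Pool.Agent.H499Z.Lamp.ball_card n
  have h5 : C * d ≤ C * 4 ^ (m + 1) := Nat.mul_le_mul_left _ hd4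
  exact absurd (h4.trans (h3.trans h5)) (not_le.mpr h2)

end Pool.Agent.S02504
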