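import Pool.Statements.S02522
import Pool.Agent.H896Z.FS.Main

set_option autoImplicit false
open Pool Pool.MP_a0fd22_al

namespace Pool.Agent.S02522

/-- The negation of the preceding statement: Every regular Noetherian local ring of prime characteristic p that is Frobenius split is split F-regular: for each nonzero c there is e and an additive map ψ with ψ(r^(p^e)x)=rψ(x) and ψ(c)=1. -/
theorem result :
    ¬ (∀ (R : Type) [CommRing R] [IsLocalRing R] [IsNoetherianRing R] (p : ℕ) [CharP R p],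
      p.Prime →
      (∃ s : Finset R, Ideal.span (s : Set R) = IsLocalRing.maximalIdeal R ∧
          ((s.card : ℕ∞) : WithBot ℕ∞) = ringKrullDim R) →
      (∃ φ : R →+ R, (∀ r x : R, φ (r ^ p * x) = r * φ x) ∧ φ 1 = 1) →
      ∀ c : R, c ≠ 0 →
        ∃ e : ℕ, ∃ ψ : R →+ R, (∀ r x : R, ψ (r ^ (p ^ e) * x) = r * ψ x) ∧ ψ c = 1) := by
  intro h
  obtain ⟨R, _, _, _, _, h1, h2, c, hc, h3⟩ := Pool.Agent.H896Z.FS.main
  obtain ⟨e, ψ, hψ, h4⟩ := h R 2 Nat.prime_two h1 h2 c hc
  exact h3 e ψ hψ h4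

end Pool.Agent.S02522
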