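import Pool.Statements.S02527
import Pool.Agent.H437Z.LRS.Main

set_option autoImplicit false
open Pool Pool.MP_a1538a_al

namespace Pool.Agent.S02527

/-- For every finite field F_q and n, m ≥ 0, the GL_n(F_q)-invariants of F_q[x_1..x_n]/(x_i^{q^m}) have Hilbert series equal to the sum over k ≤ min(n,m) of t^{(n-k)(q^m-q^k)} times the (q,t)-binomial, the product over i<k of (1-t^{q^m-q^i})/(1-t^{q^k-q^i}). -/
theorem result :
    ∀ (F : Type) [Field F] [Fintype F] (n m : ℕ),
      PowerSeries.mk (fun d : ℕ =>
        ((Module.finrank F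
          (Submodule.map
            (Ideal.Quotient.mkₐ F
              (Ideal.span (Set.range fun i : Fin n =>
                (MvPolynomial.X i : MvPolynomial (Fin n) F) ^ (Fintype.card F ^ m)))).toLinearMap
            (MvPolynomial.homogeneousSubmodule (Fin n) F d ⊓
              ⨅ g : Matrix.GeneralLinearGroup (Fin n) F,
                LinearMap.ker
                  ((Ideal.Quotient.mkₐ F
                      (Ideal.span (Set.range fun i : Fin n =>
                        (MvPolynomial.X i : MvPolynomial (Fin n) F) ^ (Fintype.card F ^ m)))).toLinearMap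
                    ∘ₗ ((MvPolynomial.aeval (fun i : Fin n =>
                          ∑ j : Fin n, (g : Matrix (Fin n) (Fin n) F) i j •
                            (MvPolynomial.X j : MvPolynomial (Fin n) F))).toLinearMap
                        - LinearMap.id)))) : ℕ) : ℚ))
      = ∑ k ∈ Finset.range (min n m + 1),
          (PowerSeries.X : PowerSeries ℚ) ^ ((n - k) * (Fintype.card F ^ m - Fintype.card F ^ k)) *
            ∏ i ∈ Finset.range k,
              ((1 - (PowerSeries.X : PowerSeries ℚ) ^ (Fintype.card F ^ m - Fintype.card F ^ i)) *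
                (1 - (PowerSeries.X : PowerSeries ℚ) ^ (Fintype.card F ^ k - Fintype.card F ^ i))⁻¹) := by
  intro F _ _ n m
  have hα : ∑ _i : Fin 1, n = n := by simp
  obtain ⟨H, h1, -, h3⟩ := Pool.Agent.H437Z.LRS.main_poly F m (fun _ : Fin 1 => n) hα
  have h4 : ∑ β ∈ Pool.Agent.H437Z.LRS.Fam (fun _ : Fin 1 => n) m, H β =
      ∑ k ∈ Finset.range (min n m + 1), H fun _ => k := by
    refine Finset.sum_nbij' (fun β => β 0) (fun k _ => k) ?_ ?_ ?_ ?_ ?_
    · intro β hβ
      have h5 := Pool.Agent.H437Z.LRS.mem_Fam.1 hβ
      have h6 := h5.1 0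
      have h7 := h5.2
      simp only [Finset.univ_unique, Fin.default_eq_zero, Finset.sum_singleton] at h7
      simp only [Finset.mem_range]
      omega
    · intro k hk
      have h5 := Finset.mem_range.1 hk
      refine Pool.Agent.H437Z.LRS.mem_Fam.2 ⟨fun _ => by omega, ?_⟩
      simp only [Finset.univ_unique, Finset.sum_singleton]
      omega
    · intro β _
      funext i
      rw [Subsingleton.elim i 0]
    · intro k _
      rfl
    · intro β _
      congr 1
      funext i
      rw [Subsingleton.elim i 0]
  trans ((∑ β ∈ Pool.Agent.H437Z.LRS.Fam (fun _ : Fin 1 => n) m, H β : Polynomial ℚ) :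
    PowerSeries ℚ)
  · ext d
    rw [PowerSeries.coeff_mk, Polynomial.coeff_coe]
    refine h1 d _ fun h => ?_
    rw [Submodule.mem_inf, Submodule.mem_iInf]
    refine and_congr Iff.rfl ?_
    have h5 : ∀ g : Matrix (Fin n) (Fin n) F, MvPolynomial.aeval (fun i : Fin n =>
        ∑ j : Fin n, g i j • (MvPolynomial.X j : MvPolynomial (Fin n) F)) =
        Pool.Agent.H437Z.LRS.act g.transpose := by
      intro g
      unfold Pool.Agent.H437Z.LRS.act
      simp only [MvPolynomial.smul_eq_C_mul, Matrix.transpose_apply]
    simp only [h5, LinearMap.mem_ker, LinearMap.comp_apply, LinearMap.sub_apply,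
      AlgHom.toLinearMap_apply, LinearMap.id_apply, Ideal.Quotient.mkₐ_eq_mk,
      Ideal.Quotient.eq_zero_iff_mem]
    constructor
    · intro hh M hM _
      have h6 := hh (Matrix.GeneralLinearGroup.mk'' M.transpose (by rwa [Matrix.det_transpose]))
      exact h6
    · intro hh g
      refine hh _ (by rw [Matrix.det_transpose]; exact (Matrix.isUnit_iff_isUnit_det _).1 g.isUnit)
        fun a b _ => ?_
      have h6 := Pool.Agent.H437Z.LRS.blk_lt (fun _ : Fin 1 => n) (a.2.trans_eq hα.symm)
      omega
  · rw [h4, ← Polynomial.coeToPowerSeries.ringHom_apply, map_sum]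
    refine Finset.sum_congr rfl fun k hk => ?_
    have hk' := Finset.mem_range.1 hk
    have h5 := h3 (fun _ => k) (Pool.Agent.H437Z.LRS.mem_Fam.2 ⟨fun _ => by omega, by
      simp only [Finset.univ_unique, Finset.sum_singleton]
      omega⟩)
    have h6 : Pool.Agent.H437Z.LRS.ps (fun _ : Fin 1 => k) 1 = k := by
      rw [Pool.Agent.H437Z.LRS.ps_of_le _ le_rfl]; simp
    have h7 : Finset.range m = Finset.range (k + (m - k)) := by rw [Nat.add_sub_cancel' (by omega)]
    simp only [Finset.univ_unique, Fin.default_eq_zero, Finset.sum_singleton, Finset.prod_singleton,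
      Fin.val_zero, zero_add, h6, Pool.Agent.H437Z.LRS.ps_zero] at h5
    rw [h7, Finset.prod_range_add, ← mul_assoc, ← mul_assoc] at h5
    have h8 := mul_right_cancel₀ (Finset.prod_ne_zero_iff.2 fun j hj h => by
      have h9 := Pool.Agent.H437Z.LRS.one_sub_ne_zero (F := F) (a := m) (b := k + j) (by
        have := Finset.mem_range.1 hj
        omega)
      rw [h] at h9
      simp at h9) h5
    have h9 := congrArg Polynomial.coeToPowerSeries.ringHom h8
    simp only [map_mul, map_prod, map_sub, map_one, map_pow] at h9
    simp only [Polynomial.coeToPowerSeries.ringHom_apply, Polynomial.coe_X] at h9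
    rw [Finset.prod_mul_distrib, ← mul_assoc, ← h9, mul_assoc, ← Finset.prod_mul_distrib,
      Finset.prod_eq_one, mul_one]
    · rfl
    · intro j hj
      refine PowerSeries.mul_inv_cancel _ ?_
      have h10 := Nat.pow_lt_pow_right (Fintype.one_lt_card (α := F)) (Finset.mem_range.1 hj)
      rw [map_sub, map_one, map_pow, PowerSeries.constantCoeff_X, zero_pow (by omega), sub_zero]
      exact one_ne_zero

end Pool.Agent.S02527
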