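import Pool.Statements.S02538
import Mathlib

set_option autoImplicit false
set_option linter.unusedVariables false
open Pool Pool.MP_a19302_al

namespace Pool.Agent.S02538

/-- Operators act on functions of a block number `m` and a position `i` in the word `(x y^m)^m`. -/
abbrev E : Type := Module.End ℚ (ℕ × ℕ → ℚ)

/-- The letters `c 0, ..., c (len-1)` can be read in block `m` from position `i`. -/
def ok (c : ℕ → Bool) (len m i : ℕ) : Prop :=
  ∀ j < len, i + j < m * (m + 1) ∧ c j = decide ((m + 1) ∣ i + j)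

open Classical in
/-- The operator of a word. -/
noncomputable def S (c : ℕ → Bool) (len : ℕ) : E where
  toFun f p := if ok c len p.1 p.2 then f (p.1, p.2 + len) else 0
  map_add' f g := by
    funext p
    by_cases h : ok c len p.1 p.2 <;> simp [h]
  map_smul' a f := by
    funext p
    by_cases h : ok c len p.1 p.2 <;> simp [h]

lemma S_pos {c : ℕ → Bool} {len m i : ℕ} (h : ok c len m i) (f : ℕ × ℕ → ℚ) :
    S c len f (m, i) = f (m, i + len) := by
  simp [S, h]

lemma S_neg {c : ℕ → Bool} {len m i : ℕ} (h : ¬ ok c len m i) (f : ℕ × ℕ → ℚ) :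
    S c len f (m, i) = 0 := by
  simp [S, h]

lemma S_zero (c : ℕ → Bool) : S c 0 = 1 := by
  ext f ⟨m, i⟩
  have : ok c 0 m i := fun j hj => absurd hj (Nat.not_lt_zero j)
  simp [S_pos this]

lemma S_congr {c c' : ℕ → Bool} {len : ℕ} (h : ∀ j < len, c j = c' j) : S c len = S c' len := by
  have key : ∀ m i, ok c len m i ↔ ok c' len m i := fun m i =>
    ⟨fun H j hj => ⟨(H j hj).1, (h j hj) ▸ (H j hj).2⟩,
     fun H j hj => ⟨(H j hj).1, (h j hj).symm ▸ (H j hj).2⟩⟩
  refine LinearMap.ext fun f => funext fun ⟨m, i⟩ => ?_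
  by_cases H : ok c len m i
  · rw [S_pos H, S_pos ((key m i).1 H)]
  · rw [S_neg H, S_neg (fun H' => H ((key m i).2 H'))]

/-- The two generators. -/
noncomputable def T (b : Bool) : E := S (fun _ => b) 1

lemma S_succ (c : ℕ → Bool) (len : ℕ) : S c (len + 1) = S c len * T (c len) := by
  refine LinearMap.ext fun f => funext fun ⟨m, i⟩ => ?_
  rw [Module.End.mul_apply, T]
  by_cases H : ok c len m i
  · rw [S_pos H]
    by_cases H' : ok (fun _ => c len) 1 m (i + len)
    · have : ok c (len + 1) m i := by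
        intro j hj
        rcases Nat.lt_succ_iff_lt_or_eq.1 hj with h | rfl
        · exact H j h
        · simpa using H' 0 (by norm_num)
      rw [S_pos this, S_pos H', add_assoc]
    · have : ¬ ok c (len + 1) m i := by
        intro h
        apply H'
        intro j hj
        obtain rfl : j = 0 := by omega
        simpa using h len (by omega)
      rw [S_neg this, S_neg H']
  · rw [S_neg H, S_neg (fun h => H fun j hj => h j (by omega))]

/-- The algebra. -/
noncomputable def A : Subalgebra ℚ E := Algebra.adjoin ℚ {T true, T false}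

lemma T_mem (b : Bool) : T b ∈ A := by
  apply Algebra.subset_adjoin
  cases b <;> simp

lemma S_mem (c : ℕ → Bool) (len : ℕ) : S c len ∈ A := by
  induction len with
  | zero => rw [S_zero]; exact A.one_mem
  | succ n ih => rw [S_succ]; exact A.mul_mem ih (T_mem _)

noncomputable def SA (c : ℕ → Bool) (len : ℕ) : A := ⟨S c len, S_mem c len⟩

noncomputable def TA (b : Bool) : A := ⟨T b, T_mem b⟩

noncomputable def V : Submodule ℚ A := Submodule.span ℚ {1, TA true, TA false}

/-- The periodic words. -/
def per (m s : ℕ) : ℕ → Bool := fun j => decide ((m + 1) ∣ s + j)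

lemma S_cases (c : ℕ → Bool) (len n : ℕ) (hlen : len ≤ n) :
    S c len = 0 ∨ ∃ m ≤ n, ∃ s ≤ n, S c len = S (per m s) len := by
  by_cases h : ∃ m i, ok c len m i
  · right
    obtain ⟨m, i, h⟩ := h
    have hr : i % (m + 1) < m + 1 := Nat.mod_lt _ (by omega)
    have hd : ∀ j, (m + 1) ∣ i + j ↔ (m + 1) ∣ i % (m + 1) + j := by
      intro j
      rw [Nat.dvd_iff_mod_eq_zero, Nat.dvd_iff_mod_eq_zero, Nat.mod_add_mod]
    have small : ∀ a b : ℕ, 0 < b → b < 2 * a → (a ∣ b ↔ b = a) := by
      intro a b h0 h2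
      constructor
      · rintro ⟨q, rfl⟩
        have : q = 1 := by
          rcases q with _ | _ | q
          · simp at h0
          · rfl
          · nlinarith
        simp [this]
      · rintro rfl
        exact dvd_rfl
    by_cases hm : m ≤ n
    · refine ⟨m, hm, i % (m + 1), by omega, S_congr fun j hj => ?_⟩
      rw [(h j hj).2, per]
      exact decide_eq_decide.2 (hd j)
    · by_cases h0 : i % (m + 1) = 0
      · refine ⟨n, le_rfl, 0, by omega, S_congr fun j hj => ?_⟩
        rw [(h j hj).2, per]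
        refine decide_eq_decide.2 ((hd j).trans ?_)
        rw [h0]
        rcases Nat.eq_zero_or_pos j with rfl | hj0
        · simp
        · rw [small _ _ (by omega) (by omega), small _ _ (by omega) (by omega)]
          omega
      · by_cases ht : m + 1 - i % (m + 1) ≤ n
        · refine ⟨n, le_rfl, n + 1 - (m + 1 - i % (m + 1)), by omega, S_congr fun j hj => ?_⟩
          rw [(h j hj).2, per]
          refine decide_eq_decide.2 ((hd j).trans ?_)
          rw [small _ _ (by omega) (by omega), small _ _ (by omega) (by omega)]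
          omega
        · rcases Nat.eq_zero_or_pos n with rfl | hn
          · refine ⟨0, le_rfl, 0, le_rfl, S_congr fun j hj => by omega⟩
          · refine ⟨n, le_rfl, 1, by omega, S_congr fun j hj => ?_⟩
            rw [(h j hj).2, per]
            refine decide_eq_decide.2 ((hd j).trans ?_)
            rw [small _ _ (by omega) (by omega), small _ _ (by omega) (by omega)]
            omega
  · left
    refine LinearMap.ext fun f => funext fun ⟨m, i⟩ => ?_
    rw [S_neg fun H => h ⟨m, i, H⟩]
    rfl

lemma V_pow_le (n : ℕ) :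
    V ^ n ≤ Submodule.span ℚ {a : A | ∃ c len, len ≤ n ∧ a = SA c len} := by
  induction n with
  | zero =>
    rw [pow_zero, Submodule.one_eq_span]
    apply Submodule.span_mono
    rintro _ rfl
    exact ⟨fun _ => true, 0, le_rfl, Subtype.ext (S_zero _).symm⟩
  | succ n ih =>
    rw [pow_succ]
    refine (mul_le_mul_left ih V).trans ?_
    rw [V, Submodule.span_mul_span]
    apply Submodule.span_mono
    rintro _ ⟨_, ⟨c, len, hlen, rfl⟩, y, hy, rfl⟩
    have key : ∀ b, SA c len * TA b = SA (Function.update c len b) (len + 1) := by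
      intro b
      apply Subtype.ext
      change S c len * T b = S (Function.update c len b) (len + 1)
      rw [S_succ, Function.update_self]
      congr 1
      exact S_congr fun j hj => by rw [Function.update_of_ne (by omega)]
    rcases hy with rfl | rfl | rfl
    · exact ⟨c, len, by omega, mul_one _⟩
    · exact ⟨_, len + 1, by omega, key true⟩
    · exact ⟨_, len + 1, by omega, key false⟩

lemma growth (n : ℕ) : Module.finrank ℚ ↥(V ^ n) ≤ 1 * (n + 1) ^ 3 := by
  classical
  let F : Finset A := ((Finset.range (n + 1)) ×ˢ (Finset.range (n + 1)) ×ˢ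
    (Finset.range (n + 1))).image fun p => SA (per p.1 p.2.1) p.2.2
  have h1 : V ^ n ≤ Submodule.span ℚ (F : Set A) := by
    refine (V_pow_le n).trans (Submodule.span_le.2 ?_)
    rintro _ ⟨c, len, hlen, rfl⟩
    rcases S_cases c len n hlen with h | ⟨m, hm, s, hs, h⟩
    · have : SA c len = 0 := Subtype.ext h
      rw [this]
      exact Submodule.zero_mem _
    · apply Submodule.subset_span
      refine Finset.mem_coe.2 (Finset.mem_image.2 ⟨(m, s, len), ?_, Subtype.ext h.symm⟩)
      simp only [Finset.mem_product, Finset.mem_range]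
      omega
  have h2 : F.card ≤ 1 * (n + 1) ^ 3 := by
    refine Finset.card_image_le.trans (le_of_eq ?_)
    simp only [Finset.card_product, Finset.card_range]
    ring
  exact (Submodule.finrank_mono h1).trans ((finrank_span_finset_le_card F).trans h2)

/-- Functions supported on the first `t` positions of block `m`. -/
def Z (m t : ℕ) : Submodule ℚ (ℕ × ℕ → ℚ) where
  carrier := {f | ∀ m' i, (m' ≠ m ∨ t ≤ i) → f (m', i) = 0}
  add_mem' := by
    intro f g hf hg m' i h
    simp [hf m' i h, hg m' i h]
  zero_mem' := fun _ _ _ => rfl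
  smul_mem' := by
    intro a f hf m' i h
    simp [hf m' i h]

lemma S_Z (c : ℕ → Bool) (len m t : ℕ) (f : ℕ × ℕ → ℚ) (hf : f ∈ Z m (t + len)) :
    S c len f ∈ Z m t := by
  intro m' i h
  by_cases H : ok c len m' i
  · rw [S_pos H]
    exact hf m' _ (by omega)
  · exact S_neg H f

lemma Z_mono {m t t' : ℕ} (h : t ≤ t') {f : ℕ × ℕ → ℚ} (hf : f ∈ Z m t) : f ∈ Z m t' :=
  fun m' i H => hf m' i (by omega)

lemma A_Z (a : E) (ha : a ∈ A) (m t : ℕ) : ∀ f ∈ Z m t, a f ∈ Z m t := by
  induction ha using Algebra.adjoin_induction with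
  | mem x hx =>
    intro f hf
    rcases hx with rfl | rfl
    · exact S_Z _ 1 m t f (Z_mono (by omega) hf)
    · exact S_Z _ 1 m t f (Z_mono (by omega) hf)
  | algebraMap r =>
    intro f hf
    exact (Z m t).smul_mem r hf
  | add x y _ _ hx hy =>
    intro f hf
    exact (Z m t).add_mem (hx f hf) (hy f hf)
  | mul x y _ _ hx hy =>
    intro f hf
    exact hx _ (hy f hf)

/-- The nilpotent ideal attached to block `m`. -/
noncomputable def I (m : ℕ) : TwoSidedIdeal A :=
  TwoSidedIdeal.mk' {a : A | (∀ f, (a : E) f ∈ Z m (m * (m + 1))) ∧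
      ∀ t, ∀ f ∈ Z m (t + 1), (a : E) f ∈ Z m t}
    ⟨fun _ => Submodule.zero_mem _, fun _ _ _ => Submodule.zero_mem _⟩
    (fun {x y} hx hy => ⟨fun f => Submodule.add_mem _ (hx.1 f) (hy.1 f),
      fun t f hf => Submodule.add_mem _ (hx.2 t f hf) (hy.2 t f hf)⟩)
    (fun {x} hx => ⟨fun f => Submodule.neg_mem _ (hx.1 f),
      fun t f hf => Submodule.neg_mem _ (hx.2 t f hf)⟩)
    (fun {x y} hy => ⟨fun f => A_Z x x.2 _ _ _ (hy.1 f),
      fun t f hf => A_Z x x.2 _ _ _ (hy.2 t f hf)⟩)
    (fun {x y} hx => ⟨fun f => hx.1 _, fun t f hf => hx.2 t _ (A_Z y y.2 _ _ _ hf)⟩)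

lemma mem_I {m : ℕ} {a : A} : a ∈ I m ↔ (∀ f, (a : E) f ∈ Z m (m * (m + 1))) ∧
      ∀ t, ∀ f ∈ Z m (t + 1), (a : E) f ∈ Z m t := by
  rw [I, TwoSidedIdeal.mem_mk']
  rfl

lemma prod_I (m : ℕ) (l : List A) (hl : ∀ a ∈ l, a ∈ I m) (hne : l ≠ []) (t : ℕ)
    (ht : m * (m + 1) + 1 ≤ t + l.length) (f : ℕ × ℕ → ℚ) : ((l.prod : A) : E) f ∈ Z m t := by
  induction l generalizing t with
  | nil => exact absurd rfl hne
  | cons a l ih =>
    have ha := mem_I.1 (hl a (by simp))
    rw [List.prod_cons]
    change (a : E) (((l.prod : A) : E) f) ∈ Z m t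
    by_cases hl0 : l = []
    · subst hl0
      exact Z_mono (by simpa using ht) (ha.1 _)
    · apply ha.2
      apply ih (fun b hb => hl b (by simp [hb])) hl0
      simp only [List.length_cons] at ht
      omega

lemma I_nil (m : ℕ) :
    ∃ r : ℕ, ∀ f : Fin r → A, (∀ i, f i ∈ I m) → (List.ofFn f).prod = 0 := by
  refine ⟨m * (m + 1) + 1, fun f hf => Subtype.ext (LinearMap.ext fun g => funext fun ⟨m', i⟩ => ?_)⟩
  refine prod_I m (List.ofFn f) ?_ ?_ 0 (by simp) g m' i (by omega)
  · intro a ha
    obtain ⟨i, rfl⟩ := List.mem_ofFn.1 ha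
    exact hf i
  · simp

lemma w_mem (m : ℕ) : SA (per m 0) (2 * (m + 1)) ∈ I m := by
  refine mem_I.2 ⟨fun f m' i h => ?_, fun t f hf => S_Z _ _ _ _ _ (Z_mono (by omega) hf)⟩
  refine S_neg (fun H => ?_) f
  have h0 := H 0 (by omega)
  have h1 := (H (m + 1) (by omega)).2
  simp only [per, zero_add, add_zero, dvd_zero, dvd_refl, decide_true, true_eq_decide_iff] at h0 h1
  have h2 : m' + 1 ∣ m + 1 := (Nat.dvd_add_right h0.2).1 h1
  have h3 : m' + 1 ≤ m + 1 := Nat.le_of_dvd (by omega) h2
  have h4 : m' = m := by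
    by_contra hne
    have h5 := (H (m' + 1) (by omega)).2
    have h6 : m' + 1 ∣ i + (m' + 1) := dvd_add h0.2 dvd_rfl
    simp only [per, zero_add, h6, decide_true, decide_eq_true_eq] at h5
    have := Nat.le_of_dvd (by omega) h5
    omega
  subst h4
  omega

lemma w_pow (m k q : ℕ) (h : q + 2 * k ≤ m) (f : ℕ × ℕ → ℚ) :
    ((S (per m 0) (2 * (m + 1))) ^ k) f (m, q * (m + 1)) = f (m, (q + 2 * k) * (m + 1)) := by
  induction k generalizing q with
  | zero => simp
  | succ k ih =>
    rw [pow_succ', Module.End.mul_apply, S_pos]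
    · have := ih (q + 2) (by omega)
      rw [show q * (m + 1) + 2 * (m + 1) = (q + 2) * (m + 1) by ring, this]
      congr 2
      ring
    · intro j hj
      refine ⟨?_, ?_⟩
      · have : (q + 2) * (m + 1) ≤ m * (m + 1) := Nat.mul_le_mul_right _ (by omega)
        nlinarith
      · rw [per]
        refine decide_eq_decide.2 ?_
        rw [zero_add, Nat.dvd_add_right (Dvd.intro_left q rfl)]

lemma adjoin_V : Algebra.adjoin ℚ (V : Set A) = ⊤ := by
  rw [eq_top_iff]
  rintro ⟨a, ha⟩ -
  induction ha using Algebra.adjoin_induction with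
  | mem x hx =>
    apply Algebra.subset_adjoin
    apply Submodule.subset_span
    rcases hx with rfl | rfl
    · exact Or.inr (Or.inl rfl)
    · exact Or.inr (Or.inr rfl)
  | algebraMap r => exact Subalgebra.algebraMap_mem _ r
  | add x y hx' hy' hx hy => exact Subalgebra.add_mem _ hx hy
  | mul x y hx' hy' hx hy => exact Subalgebra.mul_mem _ hx hy

/-- The negation of the preceding statement: Every finitely generated associative algebra over a field with polynomially bounded growth (finite GK dimension) has a nilpotent two-sided ideal containing every nilpotent two-sided ideal. -/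
theorem result :
    ¬ (∀ (k : Type) [Field k] (A : Type) [Ring A] [Algebra k A],
      Algebra.FiniteType k A →
      (∃ V : Submodule k A, FiniteDimensional k V ∧ (1 : A) ∈ V ∧
          Algebra.adjoin k (V : Set A) = ⊤ ∧
          ∃ C d : ℕ, ∀ n : ℕ, Module.finrank k ↥(V ^ n) ≤ C * (n + 1) ^ d) →
      ∃ N : TwoSidedIdeal A,
        (∃ m : ℕ, ∀ f : Fin m → A, (∀ i, f i ∈ N) → (List.ofFn f).prod = 0) ∧
        ∀ I : TwoSidedIdeal A,
          (∃ m : ℕ, ∀ f : Fin m → A, (∀ i, f i ∈ I) → (List.ofFn f).prod = 0) → I ≤ N) := by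
  classical
  intro h
  have hfin : Module.Finite ℚ V := by
    apply Module.Finite.span_of_finite
    simp
  have hft : Algebra.FiniteType ℚ A := by
    refine ⟨⟨{1, TA true, TA false}, ?_⟩⟩
    rw [← adjoin_V, V, Algebra.adjoin_span]
    simp
  obtain ⟨N, ⟨k, hk⟩, hN⟩ := h ℚ A hft
    ⟨V, hfin, Submodule.subset_span (by simp), adjoin_V, 1, 3, growth⟩
  have h1 := hk (fun _ => SA (per (2 * k) 0) (2 * (2 * k + 1)))
    (fun _ => hN _ (I_nil (2 * k)) (w_mem (2 * k)))
  rw [List.ofFn_const, List.prod_replicate] at h1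
  have h2 : (S (per (2 * k) 0) (2 * (2 * k + 1))) ^ k = 0 := by
    simpa [SA] using congrArg Subtype.val h1
  have h3 := w_pow (2 * k) k 0 (by omega) (fun _ => 1)
  rw [h2] at h3
  simp at h3

end Pool.Agent.S02538
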