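import Pool.Statements.S02580
import Pool.Agent.H168Z.Vershik.Main

set_option autoImplicit false
open Pool Pool.MP_a4afae_al

namespace Pool.Agent.S02580

/-- The negation of the preceding statement: For a finitely generated group G and prime p, if dim of F_p[G] modulo the (n+1)-th power of its augmentation ideal is at least C·c^n for some c>1, C>0, then G has no finitely additive left-invariant probability mean on its subsets. -/
theorem result :
    ¬ (∀ (G : Type) [Group G], Group.FG G → ∀ p : ℕ, p.Prime →
      (∃ c : ℝ, 1 < c ∧ ∃ C : ℝ, 0 < C ∧ ∀ n : ℕ,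
        C * c ^ n ≤ (Module.finrank (ZMod p)
          (MonoidAlgebra (ZMod p) G ⧸
            ((Submodule.span (ZMod p)
                (Set.range (fun g : G => MonoidAlgebra.of (ZMod p) G g - 1))) ^ (n + 1) :
              Submodule (ZMod p) (MonoidAlgebra (ZMod p) G))) : ℝ)) →
      ¬ ∃ μ : Set G → ℝ, (∀ S, 0 ≤ μ S) ∧ μ Set.univ = 1 ∧
        (∀ A B : Set G, Disjoint A B → μ (A ∪ B) = μ A + μ B) ∧
        ∀ (g : G) (S : Set G), μ ((fun x => g * x) ⁻¹' S) = μ S) := by
  intro h
  exact h Pool.Agent.H168Z.Vershik.Gr Pool.Agent.H168Z.Vershik.fg 2 Nat.prime_two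
    Pool.Agent.H168Z.Vershik.growth Pool.Agent.H168Z.Vershik.amenable

end Pool.Agent.S02580
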