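import Pool.Statements.S02657
import Pool.Agent.H256Z.OS.Lim

set_option autoImplicit false
open Pool Pool.MP_ab86ea_al

namespace Pool.Agent.S02657

/-- Every group admitting a bi-invariant total order embeds, via an injective homomorphism, in a group where every bi-invariant partial order extends to a bi-invariant total order. -/
theorem result :
    ∀ (G : Type) [Group G],
      (∃ s : G → G → Prop,
        (∀ a b, s a b → s b a → a = b) ∧
        (∀ a b c, s a b → s b c → s a c) ∧
        (∀ a b, s a b ∨ s b a) ∧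
        (∀ a b c d, s a b → s (c * a * d) (c * b * d))) →
      ∃ (H : Type) (_ : Group H) (f : G →* H), Function.Injective f ∧
        ∀ r : H → H → Prop,
          (∀ a, r a a) →
          (∀ a b, r a b → r b a → a = b) →
          (∀ a b c, r a b → r b c → r a c) →
          (∀ a b c d, r a b → r (c * a * d) (c * b * d)) →
          ∃ s : H → H → Prop,
            (∀ a b, r a b → s a b) ∧
            (∀ a b, s a b → s b a → a = b) ∧
            (∀ a b c, s a b → s b c → s a c) ∧
            (∀ a b, s a b ∨ s b a) ∧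
            (∀ a b c d, s a b → s (c * a * d) (c * b * d)) := by
  intro G _ ⟨s, hs1, hs2, hs3, hs4⟩
  obtain ⟨H, e, he⟩ := Pool.Agent.H256Z.OS.ofCone G (fun u => s 1 u ∧ u ≠ 1)
    (by
      rintro u v ⟨hu, hu'⟩ ⟨hv, hv'⟩
      have h1 : s u (u * v) := by simpa using hs4 1 v u 1 hv
      refine ⟨hs2 _ _ _ hu h1, fun e => hu' ?_⟩
      rw [e] at h1
      exact hs1 _ _ h1 hu)
    (by
      rintro u v ⟨hu, hu'⟩
      refine ⟨by simpa using hs4 1 u v v⁻¹ hu, fun e => hu' ?_⟩
      simpa using e)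
    (fun h => h.2 rfl)
    (by
      intro u hu
      rcases hs3 1 u with h | h
      · exact Or.inl ⟨h, hu⟩
      · exact Or.inr ⟨by simpa using hs4 u 1 u⁻¹ 1 h, inv_ne_one.2 hu⟩)
  obtain ⟨L, φ, h1, h2⟩ := Pool.Agent.H256Z.OS.limit H
  refine ⟨L.α, inferInstance, φ.comp e.toMonoidHom,
    (Pool.Agent.H256Z.OS.emb_strictMono h1).injective.comp e.injective, ?_⟩
  intro r hr0 hr1 hr2 hr4
  obtain ⟨Q, hQ, hPQ, htot⟩ := Pool.Agent.H256Z.OS.cone_total L h2 {u | r 1 u ∧ u ≠ 1} (by
    refine ⟨?_, ?_, fun h => h.2 rfl⟩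
    · rintro u ⟨hu, hu'⟩ v ⟨hv, hv'⟩
      have h1 : r u (u * v) := by simpa using hr4 1 v u 1 hv
      refine ⟨hr2 _ _ _ hu h1, fun e => hu' ?_⟩
      rw [e] at h1
      exact hr1 _ _ h1 hu
    · rintro u ⟨hu, hu'⟩ v
      refine ⟨by simpa using hr4 1 u v v⁻¹ hu, fun e => hu' ?_⟩
      simpa using e)
  refine ⟨fun a b => a = b ∨ a⁻¹ * b ∈ Q, ?_, ?_, ?_, ?_, ?_⟩
  · intro a b hab
    by_cases h : a = b
    · exact Or.inl h
    · exact Or.inr (hPQ ⟨by simpa using hr4 a b a⁻¹ 1 hab, fun e => h (inv_mul_eq_one.1 e)⟩)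
  · rintro a b (rfl | hab) hba
    · rfl
    · rcases hba with hba | hba
      · exact hba.symm
      · have := hQ.1 _ hab _ hba
        rw [show a⁻¹ * b * (b⁻¹ * a) = 1 by group] at this
        exact absurd this hQ.2.2
  · rintro a b c (rfl | hab) (rfl | hbc)
    · exact Or.inl rfl
    · exact Or.inr hbc
    · exact Or.inr hab
    · right
      have := hQ.1 _ hab _ hbc
      rwa [show a⁻¹ * b * (b⁻¹ * c) = a⁻¹ * c by group] at this
  · intro a b
    by_cases h : a = b
    · exact Or.inl (Or.inl h)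
    · rcases htot (a⁻¹ * b) (fun e => h (inv_mul_eq_one.1 e)) with e | e
      · exact Or.inl (Or.inr e)
      · rw [mul_inv_rev, inv_inv] at e
        exact Or.inr (Or.inr e)
  · rintro a b c d (rfl | h)
    · exact Or.inl rfl
    · right
      have := hQ.2.1 _ h d⁻¹
      rwa [show d⁻¹ * (a⁻¹ * b) * d⁻¹⁻¹ = (c * a * d)⁻¹ * (c * b * d) by group] at this

end Pool.Agent.S02657
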