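import Pool.Statements.S02662
import Pool.Agent.H412Z.Sturm

set_option autoImplicit false
open Pool Pool.MP_ab9402_al

namespace Pool.Agent.S02662

/-- The negation of the preceding statement: For every nilpotent group G, any semigroup satisfying all semigroup identities of G in which each element generates a finite subsemigroup has every finitely generated subsemigroup finite. -/
theorem result :
    ¬ (∀ (G : Type) [Group G], Group.IsNilpotent G →
      ∀ (S : Type) [Semigroup S],
        (∀ (n : ℕ) (u v : FreeSemigroup (Fin n)),
          (∀ f : Fin n → G, FreeSemigroup.lift f u = FreeSemigroup.lift f v) →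
          ∀ g : Fin n → S, FreeSemigroup.lift g u = FreeSemigroup.lift g v) →
        (∀ s : S, (Subsemigroup.closure ({s} : Set S) : Set S).Finite) →
        ∀ T : Finset S, (Subsemigroup.closure (T : Set S) : Set S).Finite) := by
  classical
  intro h
  have h1 := h Pool.Agent.H412Z.Sturm.Fil Pool.Agent.H412Z.Sturm.nilpotent
    Pool.Agent.H412Z.Sturm.S Pool.Agent.H412Z.Sturm.identities Pool.Agent.H412Z.Sturm.periodic
    (Finset.univ.image (fun b : Bool => Pool.Agent.H412Z.Sturm.mk (FreeSemigroup.of b)))
  apply Pool.Agent.H412Z.Sturm.infinite_S
  refine h1.subset (fun y _ => Pool.Agent.H412Z.Sturm.generated _ (fun b => ?_) y)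
  exact Finset.mem_image.mpr ⟨b, Finset.mem_univ _, rfl⟩

end Pool.Agent.S02662
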