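import Pool.Statements.S02686
import Pool.Agent.H268Z.BiStar

set_option autoImplicit false
open Pool Pool.MP_adca84_al

namespace Pool.Agent.S02686

/-- The negation of the preceding statement: For every group G and every partition of G into n cells, some cell A and some set F of at most n pairs (x,y) in G×G satisfy: every element of G equals x·a·b⁻¹·y for some (x,y) in F and a,b in A. -/
theorem result :
    ¬ (∀ (G : Type) [Group G] (n : ℕ) (A : Fin n → Set G),
      (∀ g : G, ∃ i, g ∈ A i) →
      (∀ i j, i ≠ j → Disjoint (A i) (A j)) →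
      ∃ i : Fin n, ∃ F : Finset (G × G), F.card ≤ n ∧
        ∀ g : G, ∃ p ∈ F, ∃ a ∈ A i, ∃ b ∈ A i, g = p.1 * a * b⁻¹ * p.2) := by
  intro H
  classical
  obtain ⟨c, hc⟩ := Pool.Agent.H268Z.BiStar.exists_good
  obtain ⟨i, F, hF, hcov⟩ := H (FreeGroup ℕ) 9 (fun i => {x | c x = i})
    (fun g => ⟨c g, rfl⟩)
    (by
      intro i j hij
      rw [Set.disjoint_left]
      intro x hx hx'
      exact hij (hx.symm.trans hx'))
  obtain ⟨t, ht⟩ := hc i (F.image (fun p => p.1⁻¹)) (F.image (fun p => p.2))
    (Finset.card_image_le.trans hF) (Finset.card_image_le.trans hF)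
  obtain ⟨p, hp, a, ha, b, hb, hab⟩ := hcov t
  apply ht (p.2⁻¹ * b) p.1⁻¹ (Finset.mem_image_of_mem _ hp) p.2 (Finset.mem_image_of_mem _ hp)
  constructor
  · have : p.1⁻¹ * (t * (p.2⁻¹ * b)) = a := by
      rw [hab]; group
    rw [this]; exact ha
  · have : p.2 * (p.2⁻¹ * b) = b := by group
    rw [this]; exact hb

end Pool.Agent.S02686
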