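import Pool.Statements.S02692
import Pool.Agent.H106Z.HopfM

set_option autoImplicit false
open Pool Pool.MP_ae7646_al

namespace Pool.Agent.S02692

/-- The negation of the preceding statement: For finite-dimensional Hopf algebras A, H over any field, Hopf algebras E that factorize as A·H (injective Hopf maps with a⊗h ↦ a·h bijective) fall into finitely many isomorphism classes: any sequence of them has two isomorphic members. -/
theorem result :
    ¬ (∀ (k : Type) [Field k] (A H : Type) [Ring A] [HopfAlgebra k A] [Ring H] [HopfAlgebra k H],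
      FiniteDimensional k A → FiniteDimensional k H →
      ∀ (E : ℕ → Type) [∀ m, Ring (E m)] [∀ m, HopfAlgebra k (E m)],
        (∀ m, ∃ (i : BialgHom k A (E m)) (j : BialgHom k H (E m)),
            Function.Injective i ∧ Function.Injective j ∧
            Function.Bijective
              (TensorProduct.lift
                (((LinearMap.mul k (E m)).comp i.toLinearMap).compl₂ j.toLinearMap))) →
        ∃ m m' : ℕ, m ≠ m' ∧ Nonempty (BialgEquiv k (E m) (E m'))) := by
  intro h
  obtain ⟨m, m', hne, ⟨φ⟩⟩ := h (RatFunc (ZMod 2)) (Pool.Agent.H106Z.Bic.A (RatFunc (ZMod 2)))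
    (Pool.Agent.H106Z.Bic.H (RatFunc (ZMod 2))) inferInstance inferInstance
    (fun m => Pool.Agent.H106Z.Bic.E
      (algebraMap (Polynomial (ZMod 2)) (RatFunc (ZMod 2)) (Polynomial.X ^ (m + 1))))
    (fun m => ⟨Pool.Agent.H106Z.Bic.iB _, Pool.Agent.H106Z.Bic.jB _,
      Pool.Agent.H106Z.Bic.io_inj _, Pool.Agent.H106Z.Bic.jA_inj _, Pool.Agent.H106Z.Bic.mu_bij _⟩)
  exact hne (le_antisymm (Pool.Agent.H106Z.Bic.deg_le φ) (Pool.Agent.H106Z.Bic.deg_le φ.symm))

end Pool.Agent.S02692
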