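import Pool.Statements.S02752
import Pool.Agent.H214Z.ELFree

set_option autoImplicit false
open Pool Pool.MP_b2345f_al

namespace Pool.Agent.S02752

/-- The negation of the preceding statement: For any graph product of groups with finite inverse-closed generating sets ordered so each factor's equal-length conjugacy shortlex language is regular, some total order on the union extending those orders makes the graph product's language regular. -/
theorem result :
    ¬ (∀ (n : ℕ) (Γ : SimpleGraph (Fin n)) (G : Fin n → Type) [∀ i, Group (G i)]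
    (X : ∀ i, Finset (G i))
    (r : ∀ i, {x // x ∈ X i} → {x // x ∈ X i} → Prop),
    (∀ i, IsStrictTotalOrder {x // x ∈ X i} (r i)) →
    (∀ i, ∀ x ∈ X i, x⁻¹ ∈ X i) →
    (∀ i, Subgroup.closure ((X i : Finset (G i)) : Set (G i)) = ⊤) →
    (∀ i, ∃ (σ : Type), Finite σ ∧ ∃ (M : DFA {x // x ∈ X i} σ),
      ∀ w : List {x // x ∈ X i}, w ∈ M.accepts ↔
        ((∀ w' : List {x // x ∈ X i},
            (w'.map Subtype.val).prod = (w.map Subtype.val).prod →
              w.length < w'.length ∨
                (w.length = w'.length ∧ (w = w' ∨ List.Lex (r i) w w'))) ∧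
          ∀ w' : List {x // x ∈ X i},
            IsConj (w.map Subtype.val).prod (w'.map Subtype.val).prod →
              w.length ≤ w'.length)) →
    ∀ (H : Type) [Group H] (φ : Monoid.CoprodI G →* H),
      Function.Surjective φ →
      φ.ker = Subgroup.normalClosure
        {x : Monoid.CoprodI G | ∃ (i j : Fin n), Γ.Adj i j ∧
          ∃ (a : G i) (b : G j),
            x = Monoid.CoprodI.of (M := G) (i := i) a * Monoid.CoprodI.of (M := G) (i := j) b *
              (Monoid.CoprodI.of (M := G) (i := i) a)⁻¹ *
              (Monoid.CoprodI.of (M := G) (i := j) b)⁻¹} →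
    ∃ R : (Σ i, {x // x ∈ X i}) → (Σ i, {x // x ∈ X i}) → Prop,
      IsStrictTotalOrder (Σ i, {x // x ∈ X i}) R ∧
      (∀ i (a b : {x // x ∈ X i}), R ⟨i, a⟩ ⟨i, b⟩ ↔ r i a b) ∧
      ∃ (σ : Type), Finite σ ∧ ∃ (M : DFA (Σ i, {x // x ∈ X i}) σ),
        ∀ w : List (Σ i, {x // x ∈ X i}), w ∈ M.accepts ↔
          ((∀ w' : List (Σ i, {x // x ∈ X i}),
              (w'.map (fun s : (Σ i, {x // x ∈ X i}) =>
                  φ (Monoid.CoprodI.of (M := G) (i := s.1) s.2.1))).prod =
              (w.map (fun s : (Σ i, {x // x ∈ X i}) =>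
                  φ (Monoid.CoprodI.of (M := G) (i := s.1) s.2.1))).prod →
                w.length < w'.length ∨
                  (w.length = w'.length ∧ (w = w' ∨ List.Lex R w w'))) ∧
            ∀ w' : List (Σ i, {x // x ∈ X i}),
              IsConj
                (w.map (fun s : (Σ i, {x // x ∈ X i}) =>
                  φ (Monoid.CoprodI.of (M := G) (i := s.1) s.2.1))).prod
                (w'.map (fun s : (Σ i, {x // x ∈ X i}) =>
                  φ (Monoid.CoprodI.of (M := G) (i := s.1) s.2.1))).prod →
                w.length ≤ w'.length)) := by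
  intro h
  obtain ⟨R, -, -, σ, hσ, N, hN⟩ := h 2 ⊥ (fun _ => H214Z.EL.K) (fun _ => H214Z.EL.X)
    (fun _ => H214Z.EL.rr) (fun _ => inferInstance) (fun _ => H214Z.EL.X_inv)
    (fun _ => H214Z.EL.closure_X)
    (fun _ => ⟨H214Z.EL.St, inferInstance, H214Z.EL.M, H214Z.EL.ecl_regular⟩)
    H214Z.EL.H (MonoidHom.id _) Function.surjective_id (by simp)
  exact H214Z.EL.not_regular R σ N hN

end Pool.Agent.S02752
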