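import Pool.Statements.S02808
import Pool.Agent.H441Z.EC.Main

set_option autoImplicit false
open Pool Pool.MP_b5e13b_al

namespace Pool.Agent.S02808

/-- The negation of the preceding statement: For each class (locally nilpotent torsion-free, locally soluble torsion-free, locally soluble, or locally soluble π-groups for any π), every group existentially closed in that class has no characteristic subgroups other than 1 and itself. -/
theorem result :
    ¬ (∀ (C : ∀ (K : Type) [Group K], Prop),
      ((∀ (K : Type) [Group K], C K ↔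
          ((∀ S : Set K, S.Finite → Group.IsNilpotent ↥(Subgroup.closure S)) ∧
           (∀ g : K, ∀ n : ℕ, 0 < n → g ^ n = 1 → g = 1))) ∨
       (∀ (K : Type) [Group K], C K ↔
          ((∀ S : Set K, S.Finite → IsSolvable ↥(Subgroup.closure S)) ∧
           (∀ g : K, ∀ n : ℕ, 0 < n → g ^ n = 1 → g = 1))) ∨
       (∀ (K : Type) [Group K], C K ↔
          (∀ S : Set K, S.Finite → IsSolvable ↥(Subgroup.closure S))) ∨
       (∃ π : Set ℕ, ∀ (K : Type) [Group K], C K ↔
          ((∀ S : Set K, S.Finite → IsSolvable ↥(Subgroup.closure S)) ∧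
           (∀ g : K, IsOfFinOrder g ∧ ∀ p : ℕ, p.Prime → p ∣ orderOf g → p ∈ π)))) →
      ∀ (G : Type) [Group G], C G →
        (∀ (H : Type) [Group H], C H → ∀ ι : G →* H, Function.Injective ι →
          ∀ (n : ℕ) (E I : List (Monoid.Coprod G (FreeGroup (Fin n)))),
            (∃ φ : Monoid.Coprod G (FreeGroup (Fin n)) →* H,
                φ.comp Monoid.Coprod.inl = ι ∧ (∀ w ∈ E, φ w = 1) ∧ (∀ w ∈ I, φ w ≠ 1)) →
            (∃ ψ : Monoid.Coprod G (FreeGroup (Fin n)) →* G,
                ψ.comp Monoid.Coprod.inl = MonoidHom.id G ∧ (∀ w ∈ E, ψ w = 1) ∧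
                  (∀ w ∈ I, ψ w ≠ 1))) →
        ∀ N : Subgroup G, N.Characteristic → N = ⊥ ∨ N = ⊤) := by
  intro h
  obtain ⟨G, _, -, hG, hE, N, hN, h1, h2⟩ := Pool.Agent.H441Z.EC.main
  rcases h (fun K _ => Pool.Agent.H441Z.EC.LS K)
    (Or.inr (Or.inr (Or.inl fun K _ => Iff.rfl))) G hG hE N hN with h' | h'
  · exact h1 h'
  · exact h2 h'

end Pool.Agent.S02808
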