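import Pool.Statements.S02866
import Pool.Agent.H413Z.Variety

set_option autoImplicit false
open Pool Pool.MP_b9d244_al

namespace Pool.Agent.S02866

/-- The negation of the preceding statement: Every *-ring that is a subdirectly irreducible homomorphic image of a regular *-closed subring of a product of artinian *-regular rings (a member of the variety they generate) is unit-regular. -/
theorem result :
    ¬ (∀ (R : Type) [Ring R] [StarRing R],
      (∃ (I : Type) (S : I → Type) (_ : ∀ i, Ring (S i)) (_ : ∀ i, StarRing (S i)),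
        (∀ i, IsArtinianRing (S i)) ∧
        (∀ i, ∀ x : S i, ∃ y : S i, x * y * x = x) ∧
        (∀ i, ∀ x : S i, star x * x = 0 → x = 0) ∧
        ∃ (T : Subring ((i : I) → S i)) (f : ((i : I) → S i) → R),
          (∀ x ∈ T, star x ∈ T) ∧
          (∀ x ∈ T, ∃ y ∈ T, x * y * x = x) ∧
          f 1 = 1 ∧
          (∀ x ∈ T, ∀ y ∈ T, f (x + y) = f x + f y) ∧
          (∀ x ∈ T, ∀ y ∈ T, f (x * y) = f x * f y) ∧
          (∀ x ∈ T, f (star x) = star (f x)) ∧
          (∀ r : R, ∃ x ∈ T, f x = r)) →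
      (∃ a : R, a ≠ 0 ∧ ∀ J : TwoSidedIdeal R, (∃ x ∈ J, x ≠ 0) → a ∈ J) →
      ∀ a : R, ∃ u : Rˣ, a * (u : R) * a = a) := by
  intro h
  obtain ⟨R, _, _, h1, h2, _, h3⟩ := Pool.Agent.H413Z.variety_example
  exact h3 (h R h1 h2)

end Pool.Agent.S02866
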