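import Pool.Statements.S02870
import Pool.Agent.H233Z.Perm3

set_option autoImplicit false
open scoped Pointwise
open Pool Pool.MP_ba2ef4_al

namespace Pool.Agent.S02870

/-- The negation of the preceding statement: For a prime p, a finitely generated group G and a core-free p-subgroup H with HK = KH for every subgroup K, every element of G has a p-power lying in the centralizer of the normal closure of H. -/
theorem result :
    ¬ (∀ (p : ℕ), p.Prime → ∀ (G : Type) [Group G], Group.FG G →
      ∀ H : Subgroup G, IsPGroup p H → H.normalCore = ⊥ →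
        (∀ K : Subgroup G, (H : Set G) * (K : Set G) = (K : Set G) * (H : Set G)) →
          ∀ g : G, ∃ k : ℕ,
            g ^ (p ^ k) ∈ Subgroup.centralizer (Subgroup.normalClosure (H : Set G) : Set G)) := by
  intro h
  obtain ⟨G, _, ι, x₀, x₁, D⟩ := Pool.Agent.H233Z.Perm.exists_data
  obtain ⟨G', _, ι', y₀, y₁, hfg, D'⟩ := D.sub
  obtain ⟨H, h1, h2, h3, g, hg⟩ := D'.false
  obtain ⟨k, hk⟩ := h 7 (by norm_num) G' hfg H h1 h2 h3 g
  exact hg k hk

end Pool.Agent.S02870
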