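import Pool.Statements.S02919
import Pool.Agent.H610Z.C2.Main

set_option autoImplicit false
open Pool Pool.MP_be1663_al

namespace Pool.Agent.S02919

/-- There is a group of increasing C² diffeomorphisms of the real line (inverses also C²) that has no finitely additive left-invariant probability measure on its subsets and contains no copy of the free group on two generators. -/
theorem result :
    ∃ H : Subgroup (Equiv.Perm ℝ),
      (∀ g ∈ H, StrictMono ⇑g ∧ ContDiff ℝ 2 ⇑g ∧ ContDiff ℝ 2 ⇑(g.symm)) ∧
      (¬ ∃ m : Set ↥H → ℝ,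
          (∀ A : Set ↥H, 0 ≤ m A) ∧
          m Set.univ = 1 ∧
          (∀ A B : Set ↥H, Disjoint A B → m (A ∪ B) = m A + m B) ∧
          (∀ (g : ↥H) (A : Set ↥H), m ((fun x => g * x) ⁻¹' A) = m A)) ∧
      (¬ ∃ f : FreeGroup (Fin 2) →* ↥H, Function.Injective f) := by
  obtain ⟨H, h1, h2, h3⟩ := Pool.Agent.H610Z.C2.main
  exact ⟨H, fun g hg => h1 hg, h2, h3⟩

end Pool.Agent.S02919
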