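import Pool.Statements.S02972
import Pool.Agent.H794Z.Final

set_option autoImplicit false
open Pointwise
open Pool Pool.MP_c23930_al

namespace Pool.Agent.S02972

/-- The negation of the preceding statement: If two finitely generated groups of exponential growth are quasi-isometric and the first has a uniform c>1 with every word ball of radius n (any finite generating set) of size at least c^n, then so does the second. -/
theorem result :
    ¬ (∀ (G H : Type) [Group G] [Group H],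
      (∃ S : Finset G, Subgroup.closure (S : Set G) = ⊤ ∧
        ∃ c : ℝ, 1 < c ∧ ∀ n : ℕ,
          c ^ n ≤ (Set.ncard (((S : Set G) ∪ (S : Set G)⁻¹ ∪ {1}) ^ n) : ℝ)) →
      (∃ T : Finset H, Subgroup.closure (T : Set H) = ⊤ ∧
        ∃ c : ℝ, 1 < c ∧ ∀ n : ℕ,
          c ^ n ≤ (Set.ncard (((T : Set H) ∪ (T : Set H)⁻¹ ∪ {1}) ^ n) : ℝ)) →
      (∃ (S : Finset G) (T : Finset H),
        Subgroup.closure (S : Set G) = ⊤ ∧ Subgroup.closure (T : Set H) = ⊤ ∧
        ∃ (f : G → H) (K C : ℕ),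
          (∀ g g' : G, ∀ n : ℕ,
            g⁻¹ * g' ∈ ((S : Set G) ∪ (S : Set G)⁻¹ ∪ {1}) ^ n →
            (f g)⁻¹ * f g' ∈ ((T : Set H) ∪ (T : Set H)⁻¹ ∪ {1}) ^ (K * n + C)) ∧
          (∀ g g' : G, ∀ n : ℕ,
            (f g)⁻¹ * f g' ∈ ((T : Set H) ∪ (T : Set H)⁻¹ ∪ {1}) ^ n →
            g⁻¹ * g' ∈ ((S : Set G) ∪ (S : Set G)⁻¹ ∪ {1}) ^ (K * n + C)) ∧
          (∀ h : H, ∃ g : G,
            (f g)⁻¹ * h ∈ ((T : Set H) ∪ (T : Set H)⁻¹ ∪ {1}) ^ C)) →
      (∃ c : ℝ, 1 < c ∧ ∀ S : Finset G, Subgroup.closure (S : Set G) = ⊤ →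
        ∀ n : ℕ, c ^ n ≤ (Set.ncard (((S : Set G) ∪ (S : Set G)⁻¹ ∪ {1}) ^ n) : ℝ)) →
      (∃ c : ℝ, 1 < c ∧ ∀ T : Finset H, Subgroup.closure (T : Set H) = ⊤ →
        ∀ n : ℕ, c ^ n ≤ (Set.ncard (((T : Set H) ∪ (T : Set H)⁻¹ ∪ {1}) ^ n) : ℝ))) := by
  classical
  intro hmain
  obtain ⟨G, inst, hinf, ⟨T, hT⟩, hsub, hthin⟩ := H794Z.Gad.main_group
  obtain ⟨e, he⟩ := H794Z.exists_equiv
  have he' : e.symm 1 = 1 := by rw [Equiv.symm_apply_eq, he]
  have f1 := H794Z.std_finite (A := Multiplicative (ZMod 60)) (Set.finite_range T)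
  have f2 := H794Z.std_finite (A := alternatingGroup (Fin 5)) (Set.finite_range T)
  have g1 := H794Z.std_gen (A := Multiplicative (ZMod 60)) hT
  have g2 := H794Z.std_gen (A := alternatingGroup (Fin 5)) hT
  have hc : (1 : ℝ) < 2 ^ (1 / 8 : ℝ) := Real.one_lt_rpow (by norm_num) (by norm_num)
  have l1 := H794Z.tf_tf (G := G) e he e.symm he' e.symm_apply_apply
  have l2 := H794Z.tf_tf (G := G) e.symm he' e he e.apply_symm_apply
  obtain ⟨c, hc1, hc2⟩ := hmain (H794Z.LL (Multiplicative (ZMod 60)) G)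
    (H794Z.LL (alternatingGroup (Fin 5)) G)
    ⟨f1.toFinset, by rw [Set.Finite.coe_toFinset]; exact g1, _, hc, fun n => by
      rw [Set.Finite.coe_toFinset]; exact H794Z.ueg_lamp hsub _ f1 g1 n⟩
    ⟨f2.toFinset, by rw [Set.Finite.coe_toFinset]; exact g2, _, hc, fun n => by
      rw [Set.Finite.coe_toFinset]
      refine (H794Z.ueg_lamp hsub _ f1 g1 n).trans (Nat.cast_le.2 ?_)
      refine Set.ncard_le_ncard_of_injOn (H794Z.tf e he) (fun g hg => ?_)
        (Function.LeftInverse.injective l1).injOn (H794Z.fin_pow (H794Z.sy_finite f2) n)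
      have := H794Z.tf_ball e he (Set.range T) 1 n g (by simpa using hg)
      rwa [H794Z.tf_one, inv_one, one_mul] at this⟩
    ⟨f1.toFinset, f2.toFinset, by rw [Set.Finite.coe_toFinset]; exact g1,
      by rw [Set.Finite.coe_toFinset]; exact g2, H794Z.tf e he, 1, 0, by
      simp only [Set.Finite.coe_toFinset, one_mul, add_zero, pow_zero]
      refine ⟨fun g g' n h => H794Z.tf_ball e he _ g n g' h, fun g g' n h => ?_, fun h => ?_⟩
      · have := H794Z.tf_ball e.symm he' _ _ n _ h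
        rwa [l1, l1] at this
      · exact ⟨H794Z.tf e.symm he' h, by rw [l2]; simp⟩⟩
    ⟨_, hc, fun S hS n => H794Z.ueg_lamp hsub _ S.finite_toSet hS n⟩
  obtain ⟨S, s1, s2, R, s3⟩ := hthin c hc1
  have := hc2 s1.toFinset (by rw [Set.Finite.coe_toFinset]; exact s2) R
  rw [Set.Finite.coe_toFinset] at this
  exact absurd s3 (not_lt.2 this)

end Pool.Agent.S02972
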