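import Pool.Statements.S03029
import Pool.Agent.H412Z.FL11

set_option autoImplicit false
open Pool Pool.MP_c94587_al

namespace Pool.Agent.S03029

/-- SL(3,Z) has a finite presentation and a constant C such that every word trivial in the group can be reduced to the empty word by inserting or deleting cancelling letter pairs or relators, with every intermediate word of length at most C·(length)+C. -/
theorem result :
  ∃ (k : ℕ) (R : Finset (FreeGroup (Fin k))),
    Nonempty (PresentedGroup (R : Set (FreeGroup (Fin k))) ≃* Matrix.SpecialLinearGroup (Fin 3) ℤ) ∧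
    ∃ C : ℕ, ∀ w : List (Fin k × Bool),
      FreeGroup.mk w ∈ Subgroup.normalClosure (R : Set (FreeGroup (Fin k))) →
      ∃ (m : ℕ) (s : ℕ → List (Fin k × Bool)), s 0 = w ∧ s m = [] ∧
        (∀ i ≤ m, (s i).length ≤ C * w.length + C) ∧
        ∀ i < m, ∃ (a b c : List (Fin k × Bool)),
          ((∃ x : Fin k × Bool, c = [x, (x.1, !x.2)]) ∨
            ∃ r ∈ R, (c = r.toWord ∨ c = r⁻¹.toWord)) ∧
          ((s i = a ++ b ∧ s (i + 1) = a ++ c ++ b) ∨
            (s i = a ++ c ++ b ∧ s (i + 1) = a ++ b)) := by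
  obtain ⟨R, C, hR, h⟩ := Pool.Agent.H412Z.FL.main
  have hker : Subgroup.normalClosure (R : Set (FreeGroup (Fin 5))) =
      (FreeGroup.lift Pool.Agent.H412Z.FL.gen).ker := by
    apply le_antisymm
    · exact Subgroup.normalClosure_le_normal fun r hr => hR r hr
    · intro x hx
      rw [← FreeGroup.mk_toWord (x := x)] at hx ⊢
      refine (h _ ?_).mem (Subgroup.one_mem _)
      rw [← Pool.Agent.H412Z.FL.lift_ev]; exact hx
  refine ⟨5, R, ⟨(QuotientGroup.quotientMulEquivOfEq hker).trans
    (QuotientGroup.quotientKerEquivOfSurjective _ Pool.Agent.H412Z.FL.lift_surj)⟩, C,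
    fun w hw => ?_⟩
  rw [hker] at hw
  exact (h w (by rw [← Pool.Agent.H412Z.FL.lift_ev]; exact hw)).seq

end Pool.Agent.S03029
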