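import Pool.Statements.S03062
import Pool.Agent.H653Z.OR.Klein

set_option autoImplicit false
open Pool Pool.MP_cbaa56_al

namespace Pool.Agent.S03062

/-- The negation of the preceding statement: For every finite alphabet and every relator word w with no self-overlap, it is algorithmically decidable whether a given finite system of equations with constants has a solution in the monoid ⟨A ∣ w=1⟩. -/
theorem result :
    ¬ (∀ (n : ℕ) (w : List (Fin n)),
      (¬ ∃ u v x : List (Fin n), u ≠ [] ∧ v ≠ [] ∧ x ≠ [] ∧ w = u ++ v ∧ w = x ++ u) →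
      ComputablePred
        (fun S : List (List (Fin n ⊕ ℕ) × List (Fin n ⊕ ℕ)) =>
          ∃ σ : ℕ → List (Fin n),
            ∀ e ∈ S,
              conGen (fun x y : FreeMonoid (Fin n) => x = FreeMonoid.ofList w ∧ y = 1)
                (FreeMonoid.ofList (e.1.flatMap (Sum.elim (fun a => [a]) σ)))
                (FreeMonoid.ofList (e.2.flatMap (Sum.elim (fun a => [a]) σ))))) := by
  intro h
  have h1 := h 2 [0, 0, 1, 1] (by
    rintro ⟨u, v, x, hu, hv, hx, e1, e2⟩
    rcases u with _ | ⟨u0, _ | ⟨u1, _ | ⟨u2, _ | ⟨u3, u⟩⟩⟩⟩
    · exact hu rfl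
    · have a := congrArg List.head? e1
      have b := congrArg List.getLast? e2
      simp at a b
      omega
    · have a := congrArg List.head? e1
      have b := congrArg List.reverse e2
      simp at a b
      omega
    · have a := congrArg List.tail e1
      have b := congrArg List.reverse e2
      simp at a b
      omega
    · have a := congrArg List.length e1
      have := List.length_pos_iff.2 hv
      simp only [List.length_cons, List.length_append, List.length_nil] at a
      omega)
  refine Pool.Agent.H653Z.OR.Klein.undec (h1.of_eq fun S => ?_)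
  have key : ∀ (σ : ℕ → List (Fin 2)) (w : List (Fin 2 ⊕ ℕ)),
      Con.mk' Pool.Agent.H653Z.OR.Klein.con
        (FreeMonoid.ofList (w.flatMap (Sum.elim (fun a => [a]) σ))) =
      (w.map (Sum.elim Pool.Agent.H653Z.OR.Klein.gen
        (fun k => Con.mk' Pool.Agent.H653Z.OR.Klein.con (FreeMonoid.ofList (σ k))))).prod := by
    intro σ w
    induction w with
    | nil => exact map_one _
    | cons x w ih =>
      rw [List.flatMap_cons, FreeMonoid.ofList_append, map_mul, ih, List.map_cons, List.prod_cons]
      cases x <;> rfl
  constructor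
  · rintro ⟨σ, hσ⟩
    refine ⟨fun k => Con.mk' Pool.Agent.H653Z.OR.Klein.con (FreeMonoid.ofList (σ k)),
      fun e he => ?_⟩
    rw [← key, ← key]
    exact (Con.eq _).2 (hσ e he)
  · rintro ⟨τ, hτ⟩
    choose σ hσ using fun k => Con.mk'_surjective (τ k)
    refine ⟨fun k => FreeMonoid.toList (σ k), fun e he => ?_⟩
    have h2 := hτ e he
    have h3 : τ = fun k => Con.mk' Pool.Agent.H653Z.OR.Klein.con
        (FreeMonoid.ofList (FreeMonoid.toList (σ k))) := by
      funext k; exact (hσ k).symm
    rw [h3, ← key, ← key] at h2
    exact (Con.eq _).1 h2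

end Pool.Agent.S03062
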