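import Pool.Statements.S03082
import Pool.Agent.H455Z.LimCyc

set_option autoImplicit false
open CategoryTheory CategoryTheory.Limits
open Pool Pool.MP_cd2797_al

namespace Pool.Agent.S03082

/-- The negation of the preceding statement: For any ring and any class C of modules, if the class of direct limits of modules from C is closed under direct summands, then it is closed under direct limits over directed sets. -/
theorem result :
    ¬ (∀ (R : Type) [Ring R] (C : Set (ModuleCat.{0} R)) (L : ModuleCat.{0} R → Prop),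
    (∀ M : ModuleCat.{0} R, L M ↔
      ∃ (ι : Type) (_ : Preorder ι) (_ : IsDirected ι (· ≤ ·)) (_ : Nonempty ι)
        (F : ι ⥤ ModuleCat.{0} R) (c : Cocone F),
        Nonempty (IsColimit c) ∧ Nonempty (c.pt ≅ M) ∧ ∀ i, F.obj i ∈ C) →
    (∀ (M N : ModuleCat.{0} R) (s : N ⟶ M) (r : M ⟶ N), s ≫ r = 𝟙 N → L M → L N) →
    ∀ (ι : Type) (_ : Preorder ι) (_ : IsDirected ι (· ≤ ·)) (_ : Nonempty ι)
      (F : ι ⥤ ModuleCat.{0} R) (c : Cocone F),
      Nonempty (IsColimit c) → (∀ i, L (F.obj i)) → L c.pt) := by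
  intro h
  open Pool.Agent.H455Z.LimRing Pool.Agent.H455Z.LimCat Pool.Agent.H455Z.LimN
    Pool.Agent.H455Z.LimCyc in
  have hcov : ∀ z : N, ∃ j, z ∈ LinearMap.range (io j) := fun z => by
    obtain ⟨j, y, rfl⟩ := io_surj z
    exact ⟨j, y, rfl⟩
  open Pool.Agent.H455Z.LimRing Pool.Agent.H455Z.LimCat Pool.Agent.H455Z.LimN
    Pool.Agent.H455Z.LimCyc in
  refine not_U ((L_iff _).1 (h R {Y : ModuleCat.{0} R | Cyc Y} L (fun _ => Iff.rfl)
    (fun X Y s r hsr hX => (L_iff _).2 (U.map r.hom (fun y => ⟨s.hom y, ?_⟩) ((L_iff _).1 hX)))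
    ℕ inferInstance inferInstance inferInstance (subF _ range_mono) (subC _ range_mono)
    (sub_isColimit _ range_mono hcov) (fun j => (L_iff _).2 (U_range j))))
  exact congrArg (fun φ => φ.hom y) hsr

end Pool.Agent.S03082
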