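import Pool.Statements.S03098
import Pool.Agent.H830Z.CoHopfC
import Pool.Agent.H830Z.CoHopfE

set_option autoImplicit false
open Pool Pool.MP_ce123d_al

namespace Pool.Agent.S03098

/-- The negation of the preceding statement: For any semigroup S and finitely generated subsemigroup T whose complement splits into finitely many relative H-classes (finite Green index): if every injective endomorphism of T is surjective, then every injective endomorphism of S is surjective. -/
theorem result :
    ¬ (∀ (S : Type) [Semigroup S] (T : Subsemigroup S),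
      (∃ G : Finset S, Subsemigroup.closure (G : Set S) = T) →
      (∃ F : Finset S, ∀ u : S, u ∉ T → ∃ v ∈ F, v ∉ T ∧
        ((u = v ∨ ∃ t ∈ T, u = v * t) ∧ (v = u ∨ ∃ t ∈ T, v = u * t)) ∧
        ((u = v ∨ ∃ t ∈ T, u = t * v) ∧ (v = u ∨ ∃ t ∈ T, v = t * u))) →
      (∀ f : T →ₙ* T, Function.Injective f → Function.Surjective f) →
      ∀ f : S →ₙ* S, Function.Injective f → Function.Surjective f) := by
  have ha : (⟨0, 0, (0, 1)⟩ : H830Z.CoHopf.G) ∉ H830Z.CoHopf.T := by
    rw [H830Z.CoHopf.mem_T]; simp
  exact H830Z.CoHopf.reduction2 H830Z.CoHopf.T H830Z.CoHopf.TS H830Z.CoHopf.mem_TS _ ha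
    H830Z.CoHopf.index_two H830Z.CoHopf.TS_fg H830Z.CoHopf.cohopf H830Z.CoHopf.phi
    H830Z.CoHopf.phi_injective H830Z.CoHopf.phi_not_surjective

end Pool.Agent.S03098
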