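import Pool.Statements.S03133
import Pool.Agent.H218Z.BW.Main

set_option autoImplicit false
open Pool Pool.MP_d14a7e_al

namespace Pool.Agent.S03133

/-- On a finite set, two clones that are each minimal among clones with idempotent linked 3- and 4-ary weak near-unanimity operations (bounded width), and that preserve exactly the same binary relations, are equal. -/
theorem result :
    ∀ (n : ℕ)
      (IsClone : (∀ k : ℕ, Set ((Fin k → Fin n) → Fin n)) → Prop)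
      (BW : (∀ k : ℕ, Set ((Fin k → Fin n) → Fin n)) → Prop)
      (Inv2 : (∀ k : ℕ, Set ((Fin k → Fin n) → Fin n)) → Set (Fin n × Fin n) → Prop),
      (∀ E : ∀ k : ℕ, Set ((Fin k → Fin n) → Fin n),
        IsClone E ↔
          ((∀ (k : ℕ) (i : Fin k), (fun x : Fin k → Fin n => x i) ∈ E k) ∧
           (∀ (k m : ℕ) (f : (Fin k → Fin n) → Fin n) (g : Fin k → (Fin m → Fin n) → Fin n),
              f ∈ E k → (∀ i, g i ∈ E m) →
              (fun x : Fin m → Fin n => f (fun i => g i x)) ∈ E m))) →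
      (∀ E : ∀ k : ℕ, Set ((Fin k → Fin n) → Fin n),
        BW E ↔
          ∃ v ∈ E 3, ∃ w ∈ E 4,
            (∀ a : Fin n, v ![a, a, a] = a) ∧
            (∀ a : Fin n, w ![a, a, a, a] = a) ∧
            (∀ x y : Fin n, v ![y, x, x] = v ![x, y, x] ∧ v ![x, y, x] = v ![x, x, y]) ∧
            (∀ x y : Fin n, w ![y, x, x, x] = w ![x, y, x, x] ∧
                w ![x, y, x, x] = w ![x, x, y, x] ∧ w ![x, x, y, x] = w ![x, x, x, y]) ∧
            (∀ x y : Fin n, v ![y, x, x] = w ![y, x, x, x])) →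
      (∀ (E : ∀ k : ℕ, Set ((Fin k → Fin n) → Fin n)) (R : Set (Fin n × Fin n)),
        Inv2 E R ↔
          ∀ (k : ℕ) (f : (Fin k → Fin n) → Fin n), f ∈ E k →
            ∀ x y : Fin k → Fin n, (∀ i, (x i, y i) ∈ R) → (f x, f y) ∈ R) →
      ∀ C D : ∀ k : ℕ, Set ((Fin k → Fin n) → Fin n),
        (IsClone C ∧ BW C ∧
          ∀ F : ∀ k : ℕ, Set ((Fin k → Fin n) → Fin n),
            IsClone F → BW F → (∀ k, F k ⊆ C k) → F = C) →
        (IsClone D ∧ BW D ∧
          ∀ F : ∀ k : ℕ, Set ((Fin k → Fin n) → Fin n),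
            IsClone F → BW F → (∀ k, F k ⊆ D k) → F = D) →
        (∀ R : Set (Fin n × Fin n), Inv2 C R ↔ Inv2 D R) →
        C = D := by
  intro n IsClone BW Inv2 hClone hBW hInv C D hC hD hR
  have toL : ∀ E : ∀ k : ℕ, Set ((Fin k → Fin n) → Fin n), BW E ↔
      ∃ v ∈ E 3, ∃ w ∈ E 4, Pool.Agent.H218Z.BW.Linked v w := by
    intro E
    rw [hBW]
    constructor
    · rintro ⟨v, hv, w, hw, h1, h2, h3, h4, h5⟩
      exact ⟨v, hv, w, hw, h1, h2, fun x y => (h3 x y).1, fun x y => (h3 x y).2,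
        fun x y => (h4 x y).1, fun x y => (h4 x y).2.1, fun x y => (h4 x y).2.2, h5⟩
    · rintro ⟨v, hv, w, hw, h⟩
      exact ⟨v, hv, w, hw, h.vi, h.wi, fun x y => ⟨h.v12 x y, h.v23 x y⟩,
        fun x y => ⟨h.w12 x y, h.w23 x y, h.w34 x y⟩, h.vw⟩
  have mk : ∀ E : ∀ k : ℕ, Set ((Fin k → Fin n) → Fin n),
      (IsClone E ∧ BW E ∧ ∀ F : ∀ k : ℕ, Set ((Fin k → Fin n) → Fin n),
        IsClone F → BW F → (∀ k, F k ⊆ E k) → F = E) →
      ∃ A : Pool.Agent.H218Z.BW.Clone (Fin n), A.mem = E ∧ Pool.Agent.H218Z.BW.MinBW A := by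
    rintro E ⟨h1, h2, h3⟩
    obtain ⟨p1, p2⟩ := (hClone E).mp h1
    refine ⟨⟨E, p1, p2⟩, rfl, (toL E).mp h2, fun F hF hb k => ?_⟩
    exact (congrFun (h3 F.mem ((hClone _).mpr ⟨F.proj_mem, F.comp_mem⟩) ((toL _).mpr hb) hF) k).ge
  obtain ⟨A, rfl, hA⟩ := mk C hC
  obtain ⟨B, rfl, hB⟩ := mk D hD
  have conv : ∀ (A : Pool.Agent.H218Z.BW.Clone (Fin n)) (S : Set (Fin n × Fin n)),
      Pool.Agent.H218Z.BW.Sub A S ↔ Inv2 A.mem S := by
    intro A S
    rw [hInv]
    exact ⟨fun h k f hf x y hxy => h k ⟨f, hf⟩ (fun i => (x i, y i)) hxy,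
      fun h k t x hx => h k t.1 t.2 (fun i => (x i).1) (fun i => (x i).2) hx⟩
  funext k
  exact Pool.Agent.H218Z.BW.inv2_determines A B (fun S => by rw [conv, conv]; exact hR S) k

end Pool.Agent.S03133
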