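import Pool.Statements.S03142
import Pool.Agent.H653Z.OR.Klein

set_option autoImplicit false
open Pool Pool.MP_d1ce81_al

namespace Pool.Agent.S03142

/-- The negation of the preceding statement: For every finite alphabet and word w, if the group of units of the monoid ⟨A ∣ w=1⟩ has a finite generating set for which solvability of finite equation systems is computable, then solvability of finite equation systems over the monoid is computable. -/
theorem result :
    ¬ (∀ (n : ℕ) (w : List (Fin n)),
    (∃ (k : ℕ) (g : Fin k → ((conGen (fun x y : FreeMonoid (Fin n) => x = FreeMonoid.ofList w ∧ y = 1)).Quotient)ˣ),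
      Subgroup.closure (Set.range g) = ⊤ ∧
      ComputablePred (fun S : List (List ((Fin k ⊕ ℕ) × Bool) × List ((Fin k ⊕ ℕ) × Bool)) =>
        ∃ σ : ℕ → ((conGen (fun x y : FreeMonoid (Fin n) => x = FreeMonoid.ofList w ∧ y = 1)).Quotient)ˣ,
          ∀ e ∈ S,
            (e.1.map (fun p => if p.2 = true then Sum.elim g σ p.1 else (Sum.elim g σ p.1)⁻¹)).prod =
            (e.2.map (fun p => if p.2 = true then Sum.elim g σ p.1 else (Sum.elim g σ p.1)⁻¹)).prod)) →
    ComputablePred (fun S : List (List (Fin n ⊕ ℕ) × List (Fin n ⊕ ℕ)) =>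
      ∃ σ : ℕ → (conGen (fun x y : FreeMonoid (Fin n) => x = FreeMonoid.ofList w ∧ y = 1)).Quotient,
        ∀ e ∈ S,
          (e.1.map (Sum.elim (fun a => (conGen (fun x y : FreeMonoid (Fin n) => x = FreeMonoid.ofList w ∧ y = 1)).mk' (FreeMonoid.of a)) σ)).prod =
          (e.2.map (Sum.elim (fun a => (conGen (fun x y : FreeMonoid (Fin n) => x = FreeMonoid.ofList w ∧ y = 1)).mk' (FreeMonoid.of a)) σ)).prod)) := by
  intro h
  refine Pool.Agent.H653Z.OR.Klein.undec (h 2 [0, 0, 1, 1] ⟨0, Fin.elim0, ?_, ?_⟩)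
  · rw [eq_top_iff]
    intro g _
    rw [Pool.Agent.H653Z.OR.Klein.unit_eq_one g]
    exact Subgroup.one_mem _
  · have ht : ComputablePred (fun _ : List (List ((Fin 0 ⊕ ℕ) × Bool) × List ((Fin 0 ⊕ ℕ) × Bool)) =>
        True) := ⟨fun _ => instDecidableTrue, Computable.const true⟩
    refine ht.of_eq fun S => ⟨fun _ => ⟨fun _ => 1, fun e _ => ?_⟩, fun _ => trivial⟩
    exact (Pool.Agent.H653Z.OR.Klein.unit_eq_one _).trans
      (Pool.Agent.H653Z.OR.Klein.unit_eq_one _).symm

end Pool.Agent.S03142
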