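import Pool.Statements.S03148
import Pool.Agent.H528Z.Core4

set_option autoImplicit false
open CategoryTheory CategoryTheory.MonoidalCategory CategoryTheory.Limits
open Pool Pool.MP_d25222_al

namespace Pool.Agent.S03148

/-- The negation of the preceding statement: Take a finite group G, a field k of prime characteristic, and a finite-dimensional kG-module M. Let c_n be the dimension of the non-projective part of the n-th tensor power of M. Then the series sum c_n t^n is a rational function: a nonzero polynomial times it is a polynomial. -/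
theorem result :
    ¬ (∀ (p : ℕ) (k : Type) [Field k] [CharP k p], p.Prime →
      ∀ (G : Type) [Group G] [Finite G] (M : Rep k G), FiniteDimensional k M.V →
        ∃ P Q : Polynomial ℚ, Q ≠ 0 ∧
          (Q : PowerSeries ℚ) *
              PowerSeries.mk (fun n : ℕ =>
                ((sInf {d : ℕ | ∃ N P' : Rep k G, Projective P' ∧
                    Nonempty ((fun X : Rep k G => X ⊗ M)^[n] (𝟙_ (Rep k G)) ≅ N ⊞ P') ∧
                    Module.finrank k N.V = d} : ℕ) : ℚ)) =
            (P : PowerSeries ℚ)) := by
  intro h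
  obtain ⟨P, Q, hQ, hPQ⟩ := h 2 (ZMod 2) Nat.prime_two H528Core.GG H528Core.MM inferInstance
  have key : ∀ n : ℕ, ((sInf {d : ℕ | ∃ N P' : Rep (ZMod 2) H528Core.GG, Projective P' ∧
      Nonempty ((fun X : Rep (ZMod 2) H528Core.GG => X ⊗ H528Core.MM)^[n]
        (𝟙_ (Rep (ZMod 2) H528Core.GG)) ≅ N ⊞ P') ∧
      Module.finrank (ZMod 2) N.V = d} : ℕ) : ℚ) = (H528Core.QQ n 0 : ℚ) := by
    intro n
    have := H528Core.core_dim (H528Core.pw' n)
    exact_mod_cast this
  refine H528Core.not_rat _ ?_ ?_ P Q hQ hPQ
  · rw [key, H528Core.QQ_zero]; simp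
  · intro n
    rw [key, key, H528Core.QQ_rec]; push_cast; ring

end Pool.Agent.S03148
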