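import Pool.Statements.S03163
import Pool.Agent.H183Z.Marker

set_option autoImplicit false
open Pool Pool.MP_d34459_al Pool.Agent.H183Z.Coarse

namespace Pool.Agent.S03163

/-- For irrational β>1 and φ:F₂→ℝ with φ(a)=-1, φ(b)=β, K=φ⁻¹[0,1), no map Ψ from the free group on K into K fixing K has Ψ(w₁)⁻¹…: Ψ(w₁w₂)⁻¹Ψ(w₁)Ψ(w₂) uniformly a product of boundedly many conjugates of a^±1, b^±1. -/
theorem result :
    ∀ β : ℝ, 1 < β → Irrational β →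
    ∀ φ : FreeGroup (Fin 2) →* Multiplicative ℝ,
      φ (FreeGroup.of (0 : Fin 2)) = Multiplicative.ofAdd (-1 : ℝ) →
      φ (FreeGroup.of (1 : Fin 2)) = Multiplicative.ofAdd β →
    ∀ K : Set (FreeGroup (Fin 2)),
      K = {w | 0 ≤ Multiplicative.toAdd (φ w) ∧ Multiplicative.toAdd (φ w) < 1} →
    ¬ ∃ Ψ : FreeGroup K → FreeGroup (Fin 2), ∃ N : ℕ,
      (∀ w, Ψ w ∈ K) ∧
      (∀ k : K, Ψ (FreeGroup.of k) = (k : FreeGroup (Fin 2))) ∧
      ∀ w₁ w₂ : FreeGroup K, ∃ L : List (FreeGroup (Fin 2)), L.length ≤ N ∧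
        (∀ x ∈ L, ∃ g : FreeGroup (Fin 2), ∃ i : Fin 2,
          x = g * FreeGroup.of i * g⁻¹ ∨ x = g * (FreeGroup.of i)⁻¹ * g⁻¹) ∧
        L.prod = (Ψ (w₁ * w₂))⁻¹ * (Ψ w₁ * Ψ w₂) := by
  rintro β hβ irr φ ha hb K rfl ⟨Ψ, D, hK, hk, hΨ⟩
  have hφ : ∀ g, Multiplicative.toAdd (φ g) = -(ab ![1, 0] g : ℝ) + β * ab ![0, 1] g := by
    intro g
    induction g using FreeGroup.induction_on with
    | C1 => simp [ab]
    | of i => fin_cases i <;> simp [ab, ha, hb]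
    | inv_of i h => rw [map_inv, toAdd_inv, h, ab_inv, ab_inv]; push_cast; ring
    | mul x y h h' => rw [map_mul, toAdd_mul, h, h', ab_mul, ab_mul]; push_cast; ring
  obtain ⟨Q, hQ⟩ : ∃ Q : ℕ, Q = 2 * D * (2 * D * (2 * D)) * (2 * (2 * D) + 1) := ⟨_, rfl⟩
  obtain ⟨M, hM⟩ : ∃ M : ℕ, M = (4 * D + 4) * (27 * D + 9) + Q + D + 1 := ⟨_, rfl⟩
  obtain ⟨u1, u2⟩ := ab_UL M
  have x0 : 0 ≤ -(M : ℝ) + β * ab ![0, 1] (FreeGroup.mk (UL M)) := by
    have : (M : ℝ) ≤ ab ![0, 1] (FreeGroup.mk (UL M)) := by exact_mod_cast u2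
    nlinarith [Nat.cast_nonneg (α := ℝ) M]
  let p := ⌊-(M : ℝ) + β * ab ![0, 1] (FreeGroup.mk (UL M))⌋₊
  let u := FreeGroup.mk (List.replicate p (0, true) ++ UL M)
  have ub : ab ![0, 1] u = ab ![0, 1] (FreeGroup.mk (UL M)) := by
    simp only [u, ← FreeGroup.mul_mk, ab_mul, ab_replicate]; simp
  have uK : 0 ≤ Multiplicative.toAdd (φ u) ∧ Multiplicative.toAdd (φ u) < 1 := by
    have a := Nat.floor_le x0
    have b := Nat.lt_floor_add_one (-(M : ℝ) + β * ab ![0, 1] (FreeGroup.mk (UL M)))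
    have c : ab ![1, 0] u = p + M := by
      simp only [u, ← FreeGroup.mul_mk, ab_mul, ab_replicate, u1]; simp
    rw [hφ, ub, c]
    push_cast
    constructor <;> linarith
  let f : ℕ → FreeGroup (Fin 2) := fun n => Ψ (FreeGroup.of ⟨u, uK⟩ ^ n)
  have f1 : f 1 = u := by simp only [f, pow_one]; exact hk _
  have hf : ∀ m n, ∃ Lz : List (FreeGroup (Fin 2)), Lz.length ≤ D ∧
      (∀ x ∈ Lz, ∃ (g : FreeGroup (Fin 2)) (s : Fin 2 × Bool), x = g * FreeGroup.mk [s] * g⁻¹) ∧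
      Lz.prod = (f (m + n))⁻¹ * (f m * f n) := by
    intro m n
    obtain ⟨L, h1, h2, h3⟩ := hΨ (FreeGroup.of ⟨u, uK⟩ ^ m) (FreeGroup.of ⟨u, uK⟩ ^ n)
    refine ⟨L, h1, fun x hx => ?_, by rw [h3, ← pow_add]⟩
    obtain ⟨g, i, e | e⟩ := h2 x hx
    · exact ⟨g, (i, true), e⟩
    · exact ⟨g, (i, false), by rw [e, FreeGroup.of, FreeGroup.inv_mk]; rfl⟩
  have w1 : ∀ j, |(![1, 0] : Fin 2 → ℤ) j| ≤ 1 := fun j => by fin_cases j <;> simp
  have w2 : ∀ j, |(![0, 1] : Fin 2 → ℤ) j| ≤ 1 := fun j => by fin_cases j <;> simp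
  have grow : ∀ n : ℕ, ab ![0, 1] (f 0) + n ≤ ab ![0, 1] (f n) := by
    intro n
    induction n with
    | zero => simp
    | succ n ih =>
      obtain ⟨L, h1, h2, h3⟩ := hf n 1
      have a := abs_ab_prod _ w2 L h2
      rw [h3, ab_mul, ab_mul, ab_inv, f1, ub, abs_le] at a
      push_cast
      omega
  obtain ⟨C, hC⟩ := ((Finset.Icc (-(Q : ℤ)) Q ×ˢ Finset.Icc (-(Q : ℤ)) Q).finite_toSet.image
    fun q : ℤ × ℤ => |-((ab ![1, 0] u - q.1 : ℤ) : ℝ) + β * (ab ![0, 1] u - q.2 : ℤ)|⁻¹).bddAbove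
  obtain ⟨n, hn⟩ := exists_nat_gt
    (C * (1 + Q + β * Q) * (ab ![0, 1] u + Q) + Q - ab ![0, 1] (f 0))
  obtain ⟨L, hL⟩ := slopes (D := D) (M := M) (p := p) (by omega) f1 hf n
  obtain ⟨q, ρ, a1, a2, a3⟩ := hL _ w1
  obtain ⟨q', ρ', b1, b2, b3⟩ := hL _ w2
  have Qle : ((2 * D * (2 * D * (2 * D)) : ℕ) : ℤ) * (2 * D : ℕ) ≤ Q := by
    rw [hQ]; exact_mod_cast Nat.mul_le_mul_left _ (by omega)
  replace a2 := a2.trans Qle
  replace b2 := b2.trans Qle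
  rw [← Nat.cast_mul, ← hQ] at a1 b1
  rw [f1] at a3 b3
  have c1 := hC ⟨(q, q'), Finset.mem_coe.2 (Finset.mem_product.2
    ⟨Finset.mem_Icc.2 (abs_le.1 a1), Finset.mem_Icc.2 (abs_le.1 b1)⟩), rfl⟩
  simp only at c1
  have pos : 0 < ab ![0, 1] u - q' := by
    rw [abs_le] at b1
    omega
  set z : ℝ := -((ab ![1, 0] u - q : ℤ) : ℝ) + β * (ab ![0, 1] u - q' : ℤ) with hz
  have z0 : 0 < |z| := abs_pos.2 fun e =>
    (irr.mul_intCast pos.ne').ne_int (ab ![1, 0] u - q) (by linarith)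
  obtain ⟨k1, k2⟩ := hK (FreeGroup.of ⟨u, uK⟩ ^ n)
  have e1 : ab ![1, 0] (f n) = L * (ab ![1, 0] u - q) - ρ := by linarith
  have e2 : ab ![0, 1] (f n) = L * (ab ![0, 1] u - q') - ρ' := by linarith
  change 0 ≤ Multiplicative.toAdd (φ (f n)) at k1
  change Multiplicative.toAdd (φ (f n)) < 1 at k2
  have e3 : Multiplicative.toAdd (φ (f n)) = L * z + ρ - β * ρ' := by
    rw [hφ, e1, e2, hz]; push_cast; ring
  have r1 : |(ρ : ℝ)| ≤ Q := by exact_mod_cast a2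
  have r2 : |(ρ' : ℝ)| ≤ Q := by exact_mod_cast b2
  have r3 : |(q' : ℝ)| ≤ Q := by exact_mod_cast b1
  rw [abs_le] at r1 r2 r3
  have l1 : |(L : ℝ)| * |z| ≤ 1 + Q + β * Q := by
    rw [← abs_mul, abs_le]
    constructor <;> nlinarith
  have l2 : |(L : ℝ)| ≤ C * (1 + Q + β * Q) := by
    rw [← le_div_iff₀ z0, div_eq_mul_inv, mul_comm] at l1
    exact l1.trans (mul_le_mul_of_nonneg_right c1 (by positivity))
  have g1 : ((ab ![0, 1] (f 0) : ℤ) : ℝ) + n ≤ L * (ab ![0, 1] u - q') - ρ' := by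
    have := grow n
    rw [e2] at this
    exact_mod_cast this
  have g2 : (0 : ℝ) < ab ![0, 1] u - q' := by exact_mod_cast pos
  have g3 : (L : ℝ) * (ab ![0, 1] u - q') ≤ C * (1 + Q + β * Q) * (ab ![0, 1] u + Q) :=
    (mul_le_mul_of_nonneg_right (le_abs_self _) g2.le).trans
      (mul_le_mul l2 (by linarith) g2.le ((abs_nonneg _).trans l2))
  linarith

end Pool.Agent.S03163
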