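import Pool.Statements.S03172
import Pool.Agent.H876Z.DlGrp

set_option autoImplicit false
open Pool Pool.MP_d40034_al

namespace Pool.Agent.S03172

/-- The negation of the preceding statement: There is a natural number n such that every finite 2-group G in which every proper subgroup needs fewer generators than G has derived length at most n. -/
theorem result :
    ¬ (∃ n : ℕ, ∀ (G : Type) [Group G] [Finite G], IsPGroup 2 G →
      (∀ H : Subgroup G, H ≠ ⊤ → Group.rank H < Group.rank G) →
      derivedSeries G n = ⊥) := by
  rintro ⟨k, hk⟩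
  refine H876Z.Dl.derived_ne_bot k (hk _ H876Z.Dl.isPGroup ?_)
  intro H hH
  obtain ⟨s, hs, hc⟩ := H876Z.Dl.upper H hH
  obtain ⟨t, ht1, ht2⟩ := Group.rank_spec (H876Z.Dl.G (2 ^ k) (2 ^ k + 1))
  have h1 := H876Z.Dl.lower t ht2
  have h2 := Subgroup.rank_closure_finset_le_card s
  rw [Subgroup.rank_congr hs] at h2
  omega

end Pool.Agent.S03172
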