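import Pool.Statements.S03174
import Pool.Agent.H393Z.OT.Main

set_option autoImplicit false
open Pool Pool.MP_d413f3_al

namespace Pool.Agent.S03174

/-- The negation of the preceding statement: For every chain T whose lattice O(T) (generated by empty set, T and open rays under union and intersection) has countably based differences, some Abelian l-group has its principal l-ideal lattice order-isomorphic to O(T). -/
theorem result :
    ¬ (∀ (T : Type) [LinearOrder T] (O : Set (Set T)),
      O = {U : Set T | ∀ S : Set (Set T), ∅ ∈ S → Set.univ ∈ S →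
            (∀ a : T, Set.Iio a ∈ S ∧ Set.Ioi a ∈ S) →
            (∀ A ∈ S, ∀ B ∈ S, A ∪ B ∈ S) →
            (∀ A ∈ S, ∀ B ∈ S, A ∩ B ∈ S) → U ∈ S} →
      (∀ a ∈ O, ∀ b ∈ O, ∃ C : Set (Set T), C.Countable ∧
          (∀ c ∈ C, c ∈ O ∧ a ⊆ b ∪ c) ∧
          ∀ x ∈ O, a ⊆ b ∪ x → ∃ c ∈ C, c ⊆ x) →
      ∃ (G : Type) (_ : AddCommGroup G) (_ : Lattice G) (_ : IsOrderedAddMonoid G),
        Nonempty (O ≃o {I : Set G // ∃ a : G, I = {x : G | ∃ n : ℕ, |x| ≤ n • |a|}})) := by
  intro h
  let I : Type := (Order.succ Cardinal.continuum.{0}).ord.ToType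
  have hcof : Order.cof I = Order.succ Cardinal.continuum.{0} := by
    rw [Ordinal.cof_toType, (Cardinal.isRegular_succ Cardinal.aleph0_le_continuum).cof_ord]
  have hI : ∀ f : ℝ → I, ∃ i, ∀ r, f r < i := by
    intro f
    have : ¬ IsCofinal (Set.range f) := by
      intro hc
      have h1 := Order.cof_le hc
      rw [hcof] at h1
      have h2 : Cardinal.mk (Set.range f) ≤ Cardinal.continuum :=
        Cardinal.mk_range_le.trans Cardinal.mk_real.le
      exact absurd (h1.trans h2) (not_le.2 (Order.lt_succ _))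
    obtain ⟨i, hi⟩ := not_isCofinal_iff.1 this
    exact ⟨i, fun r => hi _ ⟨r, rfl⟩⟩
  have : Nonempty I := by
    rw [← Order.cof_ne_zero_iff, hcof]
    exact (Cardinal.isRegular_succ Cardinal.aleph0_le_continuum).ne_zero
  obtain ⟨G, _, _, _, ⟨e⟩⟩ := h (H393Z.OT.TT I) {U | H393Z.OT.InO U} rfl
    (fun a ha b hb => H393Z.OT.cbd (H393Z.OT.fc I) a b ha hb)
  obtain ⟨R⟩ := H393Z.OT.rep_of_iso _ (fun _ => Iff.rfl) e
  exact (H393Z.OT.no_rep hI).false R

end Pool.Agent.S03174
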