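import Pool.Statements.S03186
import Pool.Agent.H828Z.OddCoset

set_option autoImplicit false
open Pool Pool.MP_d5772f_al

namespace Pool.Agent.S03186

/-- The negation of the preceding statement: For every finite group G, Sylow 2-subgroup T and involution t central in T, every left coset g·C_G(t) of the centralizer of t contains an element of odd order. -/
theorem result :
    ¬ (∀ (G : Type) [Group G] [Finite G] (T : Sylow 2 G) (t : G),
      t ∈ (T : Subgroup G) →
      (∀ x ∈ (T : Subgroup G), x * t = t * x) →
      orderOf t = 2 →
      ∀ g : G, ∃ c ∈ Subgroup.centralizer ({t} : Set G), Odd (orderOf (g * c))) :=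
  Pool.Agent.H828Z.OddCoset.main

end Pool.Agent.S03186
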