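import Pool.Statements.S03188
import Pool.Agent.H2Z.REb

set_option autoImplicit false
open scoped Pointwise Classical
open Pool Pool.MP_d581c5_al

namespace Pool.Agent.S03188

/-- The negation of the preceding statement: For every group with a length function, if there are C>0 and d with ∣S∣∣X∣ ≤ C(1+r)^d ∣SX∣ whenever S has lengths ≤ r, then the group has property RD: convolution by f supported in the r-ball has ℓ² norm ≤ C'(1+r)^d' ‖f‖₂. -/
theorem result :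
    ¬ (∀ (G : Type) [Group G] (L : G → ℝ),
      (∀ g, 0 ≤ L g) → L 1 = 0 → (∀ g, L g⁻¹ = L g) →
      (∀ g h, L (g * h) ≤ L g + L h) →
      (∃ C : ℝ, 0 < C ∧ ∃ d : ℕ, ∀ r : ℝ, 0 ≤ r → ∀ S X : Finset G,
          (∀ s ∈ S, L s ≤ r) →
          (S.card : ℝ) * (X.card : ℝ) ≤ C * (1 + r) ^ d * ((S * X).card : ℝ)) →
      ∃ C : ℝ, 0 < C ∧ ∃ d : ℕ, ∀ r : ℝ, 0 ≤ r →
        ∀ (A B : Finset G) (f g : G → ℂ), (∀ y ∈ A, L y ≤ r) →
          ∑ x ∈ A * B, ‖∑ p ∈ (A ×ˢ B).filter (fun p => p.1 * p.2 = x), f p.1 * g p.2‖ ^ 2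
            ≤ (C * (1 + r) ^ d) ^ 2 * (∑ y ∈ A, ‖f y‖ ^ 2) * (∑ z ∈ B, ‖g z‖ ^ 2)) := by
  intro H
  have h := H (FreeGroup ℕ) (fun g => (Pool.Agent.H2Z.RE.len g : ℝ)) (fun g => Nat.cast_nonneg _)
    (by simp [Pool.Agent.H2Z.RE.len_one]) (fun g => by simp only [Pool.Agent.H2Z.RE.len_inv])
    (fun g h => by exact_mod_cast Pool.Agent.H2Z.RE.len_mul g h)
    ⟨16, by norm_num, 1, fun r hr S X hS => by
      have := Pool.Agent.H2Z.RE.RE_real r hr S X hS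
      rw [pow_one]
      convert this <;> rfl⟩
  obtain ⟨C, _, d, h⟩ := h
  obtain ⟨r, A, f, hr, hA, hlt⟩ := Pool.Agent.H2Z.RE.not_RD (C ^ 2) (d * 2)
  have h2 := h r hr.le A A f f hA
  rw [mul_pow, ← pow_mul] at h2
  refine absurd h2 (not_le.2 ?_)
  convert hlt <;> rfl

end Pool.Agent.S03188
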