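import Pool.Statements.S03232
import Pool.Agent.Helper815.GK2.Hopf3
import Pool.Agent.Helper815.GK2.P_conn_filt
import Pool.Agent.Helper815.GK2.P_exists_filt
import Pool.Agent.Helper815.GK2.P_domain
import Pool.Agent.Helper815.GK2.P_gk_lower
import Pool.Agent.Helper815.GK2.P_gk_upper
import Pool.Agent.Helper815.GK2.P_not_two_gen
import Pool.Agent.H262Z.GK.Growth

set_option autoImplicit false
open Pool Pool.MP_d9e773_al

namespace Pool.Agent.S03232

/-- The negation of the preceding statement: For every prime p and algebraically closed field k of characteristic p, every finitely generated connected Hopf domain over k of GK dimension 2 admits an iterated Hopf Ore extension structure (polynomial start, Ore steps with automorphisms, each stage a Hopf subalgebra). -/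
theorem result :
    ¬ (∀ (p : ℕ), p.Prime → ∀ (k : Type) [Field k] [IsAlgClosed k] [CharP k p]
    (H : Type) [Ring H] [IsDomain H] [HopfAlgebra k H],
    Algebra.FiniteType k H →
    (∀ C : Submodule k H, C ≠ ⊥ →
      (∀ c ∈ C, Coalgebra.comul (R := k) c ∈
        LinearMap.range (TensorProduct.map C.subtype C.subtype)) →
      (1 : H) ∈ C) →
    (∀ V : Submodule k H, FiniteDimensional k V → (1 : H) ∈ V →
      Algebra.adjoin k (V : Set H) = ⊤ →
      Filter.limsup (fun n : ℕ =>
        (((Real.log (Module.finrank k ↥(V ^ n) : ℝ)) / Real.log (n : ℝ) : ℝ) : EReal))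
        Filter.atTop = 2) →
    ∃ n : ℕ, 1 ≤ n ∧ ∃ X : ℕ → H, ∃ A : ℕ → Subalgebra k H,
      (∀ i, A i = Algebra.adjoin k (X '' {j | j < i})) ∧
      A n = ⊤ ∧
      (∀ i, 1 ≤ i → i ≤ n → ∀ a ∈ A i,
        Coalgebra.comul (R := k) a ∈
          LinearMap.range (TensorProduct.map (Subalgebra.toSubmodule (A i)).subtype
            (Subalgebra.toSubmodule (A i)).subtype) ∧
        HopfAlgebraStruct.antipode (R := k) a ∈ A i) ∧
      (∀ i, i < n →
        (∀ m : ℕ, ∀ c : ℕ → H, (∀ j, c j ∈ A i) →
          ∑ j ∈ Finset.range m, c j * X i ^ j = 0 → ∀ j, j < m → c j = 0) ∧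
        (∀ a ∈ A i, ∃ b ∈ A i, X i * a - b * X i ∈ A i) ∧
        (∀ b ∈ A i, ∃ a ∈ A i, X i * a - b * X i ∈ A i) ∧
        (∀ a ∈ A i, X i * a ∈ A i → a = 0))) := by
  intro hall
  classical
  let k : Type := AlgebraicClosure (ZMod 2)
  have hdom : IsDomain (Helper815.GK2.H k) := Helper815.GK2.domain k
  have hgen := Helper815.GK2.gen_top k
  let W : Submodule k (Helper815.GK2.H k) := Submodule.span k
    {1, Helper815.GK2.x k, Helper815.GK2.y k, Helper815.GK2.z k}
  have hWfg : W.FG := Submodule.fg_span (Set.toFinite _)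
  have hW1 : (1 : Helper815.GK2.H k) ∈ W := Submodule.subset_span (by simp)
  have hW : Algebra.adjoin k (W : Set (Helper815.GK2.H k)) = ⊤ := by
    rw [eq_top_iff, ← hgen]
    refine Algebra.adjoin_mono ?_
    intro a ha
    exact Submodule.subset_span (Set.mem_insert_of_mem _ ha)
  have hft : Algebra.FiniteType k (Helper815.GK2.H k) :=
    ⟨⟨{Helper815.GK2.x k, Helper815.GK2.y k, Helper815.GK2.z k}, by simpa using hgen⟩⟩
  obtain ⟨F, hF0, hFm, hFt, hF⟩ := Helper815.GK2.exists_filt (k := k)
    (Helper815.GK2.x k) (Helper815.GK2.y k) (Helper815.GK2.z k) hgen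
    (Helper815.GK2.Del_x k) (Helper815.GK2.Del_y k) (Helper815.GK2.Del_z k)
  obtain ⟨n, -, X, A, hA, hAn, -, hOre⟩ := hall 2 Nat.prime_two k (Helper815.GK2.H k) hft
    (fun C hC hCC => Helper815.GK2.conn_filt F 1 hF0 hFm hFt hF C hC hCC)
    (fun V hV h1 hVt => H262Z.GK.gk_all W hWfg hW1 hW (Helper815.GK2.gk_upper k)
      (Helper815.GK2.gk_lower k) V hV h1 hVt)
  by_cases hn : n ≤ 2
  · refine Helper815.GK2.not_two_gen k (X 0) (X 1) ?_
    rw [eq_top_iff, ← hAn, hA]
    refine Algebra.adjoin_mono ?_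
    rintro _ ⟨j, hj, rfl⟩
    have hj' : j < n := hj
    have : j = 0 ∨ j = 1 := by omega
    rcases this with rfl | rfl <;> simp
  · exact H262Z.GK.no_three W hWfg hW1 hW (Helper815.GK2.gk_upper k) X A hA
      (fun i hi => (hOre i (by omega)).1)

end Pool.Agent.S03232
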