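import Pool.Statements.S03236
import Pool.Agent.H336Z.ThF.Main

set_option autoImplicit false
open Pool Pool.MP_da3691_al

namespace Pool.Agent.S03236

/-- The negation of the preceding statement: Satisfiability of a single equation over Thompson's group F = ⟨x0,x1 : [x0x1⁻¹, x0⁻¹x1x0], [x0x1⁻¹, x0⁻²x1x0²]⟩ is decidable. Equations are words in unknowns and the generators, with signs. -/
theorem result :
    ¬ (∀ rels : Set (FreeGroup Bool),
      rels = {(FreeGroup.of false * (FreeGroup.of true)⁻¹) *
                ((FreeGroup.of false)⁻¹ * FreeGroup.of true * FreeGroup.of false) *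
                (FreeGroup.of false * (FreeGroup.of true)⁻¹)⁻¹ *
                ((FreeGroup.of false)⁻¹ * FreeGroup.of true * FreeGroup.of false)⁻¹,
              (FreeGroup.of false * (FreeGroup.of true)⁻¹) *
                ((FreeGroup.of false)⁻¹ * (FreeGroup.of false)⁻¹ * FreeGroup.of true *
                  FreeGroup.of false * FreeGroup.of false) *
                (FreeGroup.of false * (FreeGroup.of true)⁻¹)⁻¹ *
                ((FreeGroup.of false)⁻¹ * (FreeGroup.of false)⁻¹ * FreeGroup.of true *
                  FreeGroup.of false * FreeGroup.of false)⁻¹} →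
      ComputablePred (fun w : List ((ℕ ⊕ Bool) × Bool) =>
        ∃ σ : ℕ → PresentedGroup rels,
          (w.map (fun p : (ℕ ⊕ Bool) × Bool =>
            (if p.2 then
                Sum.elim σ (fun b : Bool => (PresentedGroup.of b : PresentedGroup rels)) p.1
              else
                (Sum.elim σ (fun b : Bool => (PresentedGroup.of b : PresentedGroup rels)) p.1)⁻¹ :
              PresentedGroup rels))).prod = 1)) := by
  intro h
  have h1 := h _ rfl
  revert h1
  generalize hR : ({_, _} : Set (FreeGroup Bool)) = R
  intro h1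
  have comm_iff : ∀ {G : Type} [Group G] (x y : G), x * y * x⁻¹ * y⁻¹ = 1 ↔ Commute x y :=
    fun x y => by rw [mul_inv_eq_one, mul_inv_eq_iff_eq_mul]; rfl
  have frel_iff : ∀ {G : Type} [Group G] (φ : FreeGroup Bool →* G), (∀ r ∈ R, φ r = 1) ↔
      Pool.Agent.H929Z.ThF.FRel (φ (FreeGroup.of false)) (φ (FreeGroup.of true)) := by
    intro G _ φ
    rw [← hR]
    simp only [Set.mem_insert_iff, Set.mem_singleton_iff, forall_eq_or_imp, forall_eq,
      Pool.Agent.H929Z.ThF.FRel]
    rw [← comm_iff, ← comm_iff]
    simp only [map_mul, map_inv]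
  have hrel : Pool.Agent.H929Z.ThF.FRel (PresentedGroup.of false : PresentedGroup R)
      (PresentedGroup.of true) :=
    (frel_iff (PresentedGroup.mk R)).1 (fun r hr => PresentedGroup.one_of_mem hr)
  have hgen : Subgroup.closure {(PresentedGroup.of false : PresentedGroup R),
      PresentedGroup.of true} = ⊤ := by
    rw [← PresentedGroup.closure_range_of R]
    congr 1
    ext y
    simp only [Set.mem_insert_iff, Set.mem_singleton_iff, Set.mem_range, Bool.exists_bool]
    tauto
  let π : PresentedGroup R →* Pool.Agent.H929Z.ThF.Aut :=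
    PresentedGroup.toGroup (f := Pool.Agent.H336Z.ThF.gens)
      ((frel_iff (FreeGroup.lift Pool.Agent.H336Z.ThF.gens)).2 (by
        simpa [Pool.Agent.H336Z.ThF.gens] using Pool.Agent.H929Z.ThF.fpair_T.1))
  refine Pool.Agent.H336Z.ThF.undecidable (fun b => (PresentedGroup.of b : PresentedGroup R))
    hrel hgen π (by simp [π, Pool.Agent.H336Z.ThF.gens]) (by simp [π, Pool.Agent.H336Z.ThF.gens])
    (h1.of_eq fun w => ?_)
  refine exists_congr fun σ => ?_
  rw [FreeGroup.lift_mk]
  apply Eq.congr_left
  congr 2
  funext p
  rcases p with ⟨p, b⟩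
  cases b <;> simp

end Pool.Agent.S03236
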