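import Pool.Statements.S03280
import Pool.Agent.H417Z.TI

set_option autoImplicit false
open Pool Pool.MP_de34bb_al

namespace Pool.Agent.S03280

/-- The negation of the preceding statement: In a finite group G, if a cyclic subgroup A of order 4 is a TI-subgroup and L is a component (subnormal quasisimple subgroup) with A meeting L·C(L) trivially, then A centralizes L. -/
theorem result :
    ¬ (∀ (G : Type) [Group G] [Finite G] (A L : Subgroup G),
      IsCyclic A → Nat.card A = 4 →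
      (∀ g : G, (∀ x ∈ A, g * x * g⁻¹ ∈ A → x = 1) ∨ (∀ x ∈ A, g * x * g⁻¹ ∈ A)) →
      L ≠ ⊥ →
      ⁅L, L⁆ = L →
      (∀ N : Subgroup G, N ≤ L → (∀ l ∈ L, ∀ n ∈ N, l * n * l⁻¹ ∈ N) →
          N = L ∨ N ≤ Subgroup.centralizer (L : Set G)) →
      (∃ n : ℕ, ∃ H : ℕ → Subgroup G, H 0 = L ∧ H n = ⊤ ∧
          ∀ i < n, H i ≤ H (i + 1) ∧ ∀ x ∈ H (i + 1), ∀ y ∈ H i, x * y * x⁻¹ ∈ H i) →
      A ⊓ (L ⊔ Subgroup.centralizer (L : Set G)) = ⊥ →
      A ≤ Subgroup.centralizer (L : Set G)) := by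
  intro h
  obtain ⟨F, _, _, h5, h4⟩ := Pool.Agent.H417Z.TI.exists_field
  open Pool.Agent.H417Z.TI in
  have h1 := h (G F) (A F) (L F) A_cyc (A_card h5) A_TI L_ne L_perfect L_quasi
    ⟨1, fun i => if i = 0 then L F else ⊤, rfl, rfl, by
      intro i hi
      have : i = 0 := by omega
      subst this
      exact ⟨le_top, fun x _ y hy => L_normal x y hy⟩⟩ (A_inf h4)
  open Pool.Agent.H417Z.TI in
  have h2 : A F = ⊥ := by
    rw [← A_inf h4]
    exact (inf_eq_left.2 (h1.trans le_sup_right)).symm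
  have h3 := Pool.Agent.H417Z.TI.A_card h5
  rw [h2] at h3
  simp at h3

end Pool.Agent.S03280
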