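import Pool.Statements.S03285
import Pool.Agent.H471Z.Dif.Main

set_option autoImplicit false
open Pool Pool.MP_decb17_al

namespace Pool.Agent.S03285

/-- There is a torsion-free, finitely presented, residually finite group none of whose finite-index subgroups is diffuse, i.e. in each such subgroup some finite set of ≥2 elements has fewer than two extremal points. -/
theorem result :
    ∃ (G : Type) (_ : Group G),
      (∀ g : G, g ≠ 1 → ¬ IsOfFinOrder g) ∧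
      (∃ (n : ℕ) (rels : Finset (FreeGroup (Fin n))),
        Nonempty (G ≃* PresentedGroup (rels : Set (FreeGroup (Fin n))))) ∧
      (∀ g : G, g ≠ 1 → ∃ N : Subgroup G, N.Normal ∧ N.FiniteIndex ∧ g ∉ N) ∧
      ¬ ∃ H : Subgroup G, H.FiniteIndex ∧
        ∀ A : Finset G, (∀ x ∈ A, x ∈ H) → 2 ≤ A.card →
          ∃ a ∈ A, ∃ b ∈ A, a ≠ b ∧
            (∀ g ∈ H, g ≠ 1 → g * a ∉ A ∨ g⁻¹ * a ∉ A) ∧
            (∀ g ∈ H, g ≠ 1 → g * b ∉ A ∨ g⁻¹ * b ∉ A) := by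
  obtain ⟨G, _, j, t, T⟩ := H471Z.Dif.exists_G
  refine ⟨G, inferInstance, T.tf, ⟨9, H471Z.Dif.relators, H471Z.Dif.fp_G T⟩,
    T.rf H471Z.Dif.cl_one, ?_⟩
  rintro ⟨H, hH, h⟩
  obtain ⟨A, h1, h2, h3⟩ := H471Z.Dif.nondiffuse T H
  obtain ⟨a, ha, -, -, -, h4, -⟩ := h A h1 h2
  obtain ⟨g, hg, hg1, h5, h6⟩ := h3 a ha
  rcases h4 g hg hg1 with h7 | h7
  exacts [h7 h5, h7 h6]

end Pool.Agent.S03285
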