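import Pool.Statements.S03325
import Pool.Agent.H538Z.Edge

set_option autoImplicit false
open MvPolynomial
open Pool Pool.MP_e15ea6_al

namespace Pool.Agent.S03325

/-- For every field and every finite graph with an edge but no induced pair of disjoint edges, for all large q the powers of the edge ideal have Koszul homology only in degree 2q+i, i.e. reg I^q = 2q. -/
theorem result :
    ∀ (K : Type) [Field K] (n : ℕ) (G : SimpleGraph (Fin n)),
      (∃ a b, G.Adj a b) →
      (∀ a b c d, G.Adj a b → G.Adj c d → a ≠ c → a ≠ d → b ≠ c → b ≠ d →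
        G.Adj a c ∨ G.Adj a d ∨ G.Adj b c ∨ G.Adj b d) →
      ∀ I : Ideal (MvPolynomial (Fin n) K),
        I = Ideal.span {m : MvPolynomial (Fin n) K | ∃ a b, G.Adj a b ∧ m = X a * X b} →
        ∃ Q : ℕ, ∀ q : ℕ, Q ≤ q →
          ∀ (i d : ℕ), 2 * q < d →
          ∀ f : Finset (Fin n) → MvPolynomial (Fin n) K,
            (∀ T : Finset (Fin n), T.card ≠ i → f T = 0) →
            (∀ T : Finset (Fin n), f T ∈ I ^ q ∧ (f T).IsHomogeneous d) →
            (∀ S : Finset (Fin n),
              ∑ t ∈ Finset.univ \ S,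
                (-1 : MvPolynomial (Fin n) K) ^ (S.filter (· < t)).card * X t * f (insert t S) = 0) →
            ∃ g : Finset (Fin n) → MvPolynomial (Fin n) K,
              (∀ U : Finset (Fin n), U.card ≠ i + 1 → g U = 0) ∧
              (∀ U : Finset (Fin n), g U ∈ I ^ q ∧ (g U).IsHomogeneous (d - 1)) ∧
              (∀ T : Finset (Fin n),
                f T = ∑ t ∈ Finset.univ \ T,
                  (-1 : MvPolynomial (Fin n) K) ^ (T.filter (· < t)).card * X t * g (insert t T)) := by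
  intro K _ n G hG hg I hI
  have hI' : I = Pool.Agent.H538Z.edgeIdeal K G := hI
  subst hI'
  refine ⟨Pool.Agent.H538Z.L1 K G + 1, fun q hq i d hd f f1 f2 f3 => ?_⟩
  have h1 : Pool.Agent.H538Z.HasRes (Pool.Agent.H538Z.edgeIdeal K G ^ q) (2 * q) := by
    rw [Pool.Agent.H538Z.hasRes_pow_iff hG (by omega), Pool.Agent.H538Z.L2_gapFree hG hg]
    omega
  obtain ⟨p, rfl⟩ : ∃ p, d = p + 1 := ⟨d - 1, by omega⟩
  obtain ⟨g, g1, g2, g3⟩ := Pool.Agent.H538Z.kv_of_hasRes h1 i p (by omega) f f1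
    (fun T => ⟨(f2 T).1, (Pool.Agent.H538Z.isHom_iff _ _).1 (f2 T).2⟩) f3
  exact ⟨g, g1, fun U => ⟨(g2 U).1, (Pool.Agent.H538Z.isHom_iff _ _).2 (g2 U).2⟩, g3⟩

end Pool.Agent.S03325
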