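import Pool.Statements.S03348
import Pool.Agent.H413Z.Core

set_option autoImplicit false
open Pool Pool.MP_e2c23f_al

namespace Pool.Agent.S03348

/-- The negation of the preceding statement: If a ring with involution is regular with proper involution and has a nonzero ideal inside every nonzero ideal, and each corner eRe is unit-regular for projections e in it, then the ring is unit-regular. -/
theorem result :
    ¬ (∀ (R : Type) [Ring R] [StarRing R],
      (∀ a : R, ∃ x : R, a = a * x * a) →
      (∀ x : R, star x * x = 0 → x = 0) →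
      ∀ M : TwoSidedIdeal R, M ≠ ⊥ →
        (∀ I : TwoSidedIdeal R, I ≠ ⊥ → M ≤ I) →
        (∀ e : R, e ∈ M → star e = e → e * e = e →
          ∀ a : R, e * a * e = a →
            ∃ u v : R, e * u * e = u ∧ e * v * e = v ∧ u * v = e ∧ v * u = e ∧
              a = a * u * a) →
        ∀ a : R, ∃ u : Rˣ, a = a * (u : R) * a) := by
  intro h
  obtain ⟨_, _, _, _, _, _, _, _, R, _, _, _, _, _, _, _, _, h1, h2, ⟨e0, e1, e2, e3⟩, _, h3⟩ :=
    Pool.Agent.H413Z.exists_ring
  apply h3
  intro a
  obtain ⟨u, hu⟩ := h R (fun a => (h1 a).imp fun _ hx => hx.symm) h2 (TwoSidedIdeal.span {e0})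
    (by
      intro h0
      apply e1
      have : e0 ∈ TwoSidedIdeal.span {e0} := TwoSidedIdeal.subset_span rfl
      rw [h0] at this
      simpa using this)
    (by
      intro I hI
      rw [TwoSidedIdeal.span_le, Set.singleton_subset_iff]
      apply e2
      by_contra hc
      apply hI
      rw [eq_bot_iff]
      intro z hz
      by_contra hz0
      exact hc ⟨z, hz, by simpa using hz0⟩)
    (fun e he _ hee => e3 e he hee) a
  exact ⟨u, hu.symm⟩

end Pool.Agent.S03348
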