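import Pool.Statements.S03355
import Pool.Agent.H902Z.BT.Grp

set_option autoImplicit false
open Pool Pool.MP_e4245d_al

namespace Pool.Agent.S03355

/-- There is a bounded-degree graph on ℕ with finite components whose Laplacian has a uniform spectral gap in every *-representation of finite-propagation operators killing ghosts, yet has no spectral gap on ℓ², i.e. is not an expander. -/
theorem result :
  ∃ G : SimpleGraph ℕ,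
    (∃ D : ℕ, ∀ x : ℕ, (G.neighborSet x).Finite ∧ (G.neighborSet x).ncard ≤ D) ∧
    (∀ x : ℕ, {y : ℕ | G.Reachable x y}.Finite) ∧
    ∃ L : lp (fun _ : ℕ => ℂ) 2 →L[ℂ] lp (fun _ : ℕ => ℂ) 2,
      (∀ x : ℕ, inner ℂ (lp.single 2 x (1 : ℂ) : lp (fun _ : ℕ => ℂ) 2)
          (L (lp.single 2 x (1 : ℂ) : lp (fun _ : ℕ => ℂ) 2)) = ((G.neighborSet x).ncard : ℂ)) ∧
      (∀ x y : ℕ, G.Adj x y → inner ℂ (lp.single 2 y (1 : ℂ) : lp (fun _ : ℕ => ℂ) 2)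
          (L (lp.single 2 x (1 : ℂ) : lp (fun _ : ℕ => ℂ) 2)) = -1) ∧
      (∀ x y : ℕ, x ≠ y → ¬ G.Adj x y → inner ℂ (lp.single 2 y (1 : ℂ) : lp (fun _ : ℕ => ℂ) 2)
          (L (lp.single 2 x (1 : ℂ) : lp (fun _ : ℕ => ℂ) 2)) = 0) ∧
      (∀ P Gh : Set (lp (fun _ : ℕ => ℂ) 2 →L[ℂ] lp (fun _ : ℕ => ℂ) 2),
        (∀ T, T ∈ P ↔ ∃ R : ℕ, ∀ x y : ℕ,
            inner ℂ (lp.single 2 y (1 : ℂ) : lp (fun _ : ℕ => ℂ) 2)
              (T (lp.single 2 x (1 : ℂ) : lp (fun _ : ℕ => ℂ) 2)) ≠ 0 →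
            G.edist x y ≤ (R : ℕ∞)) →
        (∀ T, T ∈ Gh ↔ ∀ ε : ℝ, 0 < ε → ∃ F : Finset ℕ, ∀ x y : ℕ, x ∉ F →
            ‖inner ℂ (lp.single 2 y (1 : ℂ) : lp (fun _ : ℕ => ℂ) 2)
              (T (lp.single 2 x (1 : ℂ) : lp (fun _ : ℕ => ℂ) 2))‖ < ε) →
        ∃ c : ℝ, 0 < c ∧
          ∀ (H : Type) [NormedAddCommGroup H] [InnerProductSpace ℂ H] [CompleteSpace H]
            (π : (lp (fun _ : ℕ => ℂ) 2 →L[ℂ] lp (fun _ : ℕ => ℂ) 2) → (H →L[ℂ] H)),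
            (∀ S ∈ P, ∀ T ∈ P, π (S + T) = π S + π T ∧ π (S * T) = π S * π T) →
            (∀ a : ℂ, ∀ T ∈ P, π (a • T) = a • π T) →
            (∀ T ∈ P, π (star T) = star (π T)) →
            (∀ T ∈ P, T ∈ Gh → π T = 0) →
            spectrum ℂ (π L) ⊆ {z : ℂ | z = 0 ∨ (z.im = 0 ∧ c ≤ z.re)}) ∧
      ¬ ∃ c : ℝ, 0 < c ∧ spectrum ℂ L ⊆ {z : ℂ | z = 0 ∨ (z.im = 0 ∧ c ≤ z.re)} := by
  obtain ⟨Γ, _, _, D, S, ε, hε, hS, hT⟩ := H902Z.BT.exists_all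
  refine ⟨D.G, ⟨D.T.card + 1, fun x => ?_⟩, D.reach_fin, D.L, D.ent_diag, D.ent_adj, D.ent_nadj,
    ?_, D.no_gap⟩
  · rw [D.nb_eq, Set.ncard_coe_finset, D.nb_card]
    refine ⟨Finset.finite_toSet _, ?_⟩
    split_ifs <;> omega
  · intro P Gh hP hGh
    refine ⟨ε ^ 2 / 2, by positivity, ?_⟩
    intro H _ _ _ π h1 h2 h3 h4
    exact D.gap π (fun S hS T hT => h1 S ((hP S).2 hS) T ((hP T).2 hT))
      (fun a T hT => h2 a T ((hP T).2 hT)) (fun T hT => h3 T ((hP T).2 hT))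
      (fun T hT hg => h4 T ((hP T).2 hT) ((hGh T).2 hg)) S ε hε hS hT

end Pool.Agent.S03355
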