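import Pool.Statements.S03361
import Pool.Agent.H56Z.GB.Main

set_option autoImplicit false
open Topology
open Pool Pool.MP_e4a041_al

namespace Pool.Agent.S03361

/-- For every connected CW complex with no cells of dimension at least 2 and all m ≤ n with n ≥ 2, the fundamental group of the unordered m-point configuration space injects homomorphically into that of the n-point one. -/
theorem result :
    ∀ (X : Type) [TopologicalSpace X] [T2Space X] (Γ : Set X) [Topology.CWComplex Γ],
      IsConnected Γ →
      (∀ k : ℕ, 2 ≤ k → IsEmpty (Topology.RelCWComplex.cell Γ k)) →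
      ∀ n m : ℕ, 2 ≤ n → m ≤ n →
        ∀ (x : Quot (fun f g : {f : Fin m → Γ // Function.Injective f} =>
                ∃ σ : Equiv.Perm (Fin m), g.1 = f.1 ∘ σ))
          (y : Quot (fun f g : {f : Fin n → Γ // Function.Injective f} =>
                ∃ σ : Equiv.Perm (Fin n), g.1 = f.1 ∘ σ)),
          ∃ φ : FundamentalGroup
                  (Quot (fun f g : {f : Fin m → Γ // Function.Injective f} =>
                    ∃ σ : Equiv.Perm (Fin m), g.1 = f.1 ∘ σ)) x →*
                FundamentalGroup
                  (Quot (fun f g : {f : Fin n → Γ // Function.Injective f} =>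
                    ∃ σ : Equiv.Perm (Fin n), g.1 = f.1 ∘ σ)) y,
            Function.Injective φ := by
  intro X _ _ Γ _ hc h2 n m hn hmn x y
  have : ConnectedSpace Γ := isConnected_iff_connectedSpace.1 hc
  exact Pool.Agent.H56Z.GB.emb_graph (Pool.Agent.H56Z.GB.ofCW h2) hn hmn x y

end Pool.Agent.S03361
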