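import Pool.Statements.S03369
import Pool.Agent.H22Z.Edge.Main

set_option autoImplicit false
open Pool Pool.MP_e54950_al

namespace Pool.Agent.S03369

/-- Every idempotent algebra (any carrier, any signature of finitary operations) that has a Taylor term operation also has a 4-ary term operation e with e(v,v,u,u) = e(v,u,v,u) = e(u,u,u,v) for all u, v. -/
theorem result :
    ∀ (A : Type) (ι : Type) (ar : ι → ℕ) (op : (i : ι) → (Fin (ar i) → A) → A),
      (∀ (i : ι) (a : A), op i (fun _ => a) = a) →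
      (∃ n : ℕ, ∃ t : (Fin n → A) → A,
        (∀ S : Set ((Fin n → A) → A),
          (∀ j : Fin n, (fun x : Fin n → A => x j) ∈ S) →
          (∀ (i : ι) (g : Fin (ar i) → (Fin n → A) → A), (∀ k, g k ∈ S) →
              (fun x : Fin n → A => op i (fun k => g k x)) ∈ S) →
          t ∈ S) ∧
        ∀ j : Fin n, ∃ u v : Fin n → Bool, u j = true ∧ v j = false ∧
          ∀ x y : A, t (fun k => cond (u k) x y) = t (fun k => cond (v k) x y)) →
      ∃ e : (Fin 4 → A) → A,
        (∀ S : Set ((Fin 4 → A) → A),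
          (∀ j : Fin 4, (fun x : Fin 4 → A => x j) ∈ S) →
          (∀ (i : ι) (g : Fin (ar i) → (Fin 4 → A) → A), (∀ k, g k ∈ S) →
              (fun x : Fin 4 → A => op i (fun k => g k x)) ∈ S) →
          e ∈ S) ∧
        ∀ a b : A, e ![b, b, a, a] = e ![b, a, b, a] ∧ e ![b, a, b, a] = e ![a, a, a, b] := by
  intro A ι ar op hop ⟨n, t, ht, hT⟩
  let Clo : ((Fin 4 → A) → A) → Prop := fun e => ∀ S : Set ((Fin 4 → A) → A),
    (∀ j : Fin 4, (fun x : Fin 4 → A => x j) ∈ S) →
    (∀ (i : ι) (g : Fin (ar i) → (Fin 4 → A) → A), (∀ k, g k ∈ S) →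
      (fun x : Fin 4 → A => op i (fun k => g k x)) ∈ S) → e ∈ S
  have hproj : ∀ j : Fin 4, Clo (fun x => x j) := fun j S h1 _ => h1 j
  have hcomp : ∀ g : Fin n → (Fin 4 → A) → A, (∀ k, Clo (g k)) →
      Clo (fun z => t (fun k => g k z)) := by
    intro g hg
    refine ht {s | Clo (fun z => s (fun k => g k z))} (fun j => hg j) ?_
    intro i g' hg' S h1 h2
    exact h2 i (fun k z => g' k (fun l => g l z)) (fun k => hg' k S h1 h2)
  have hid : ∀ a, t (fun _ => a) = a := by
    refine ht {s | ∀ a, s (fun _ => a) = a} (fun j a => rfl) ?_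
    intro i g hg a
    have : (fun k => g k (fun _ => a)) = fun _ => a := funext (fun k => hg k a)
    show op i (fun k => g k (fun _ => a)) = a
    rw [this, hop]
  let T : (Fin n → (A × A → A)) → (A × A → A) := fun g z => t (fun k => g k z)
  let R : (A × A → A) → (A × A → A) → (A × A → A) → Prop := fun f g h =>
    ∃ e, Clo e ∧ (∀ z, f z = e ![z.2, z.2, z.1, z.1]) ∧ (∀ z, g z = e ![z.2, z.1, z.2, z.1]) ∧
      (∀ z, h z = e ![z.1, z.1, z.1, z.2])
  obtain ⟨c, e, he, k1, k2, k3⟩ := Pool.Agent.H22Z.Edge.const_triple T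
    (fun v => funext (fun z => hid (v z)))
    (fun j => by
      obtain ⟨u, v, hu, hv, huv⟩ := hT j
      refine ⟨u, v, hu, hv, fun p q => funext (fun z => ?_)⟩
      have e1 : ∀ s : Fin n → Bool, (fun k => (cond (s k) p q) z) =
          fun k => cond (s k) (p z) (q z) := by
        intro s; funext k; cases s k <;> rfl
      show t _ = t _
      rw [e1 u, e1 v]
      exact huv _ _)
    R (by
      intro f g h hj
      choose e he k1 k2 k3 using hj
      refine ⟨fun z => t (fun k => e k z), hcomp e he, fun z => ?_, fun z => ?_, fun z => ?_⟩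
      · show t _ = t _
        congr 1; funext k; exact k1 k z
      · show t _ = t _
        congr 1; funext k; exact k2 k z
      · show t _ = t _
        congr 1; funext k; exact k3 k z)
    (fun z => z.1) (fun z => z.2)
    ⟨_, hproj 0, fun _ => rfl, fun _ => rfl, fun _ => rfl⟩
    ⟨_, hproj 1, fun _ => rfl, fun _ => rfl, fun _ => rfl⟩
    ⟨_, hproj 2, fun _ => rfl, fun _ => rfl, fun _ => rfl⟩
    ⟨_, hproj 3, fun _ => rfl, fun _ => rfl, fun _ => rfl⟩
  refine ⟨e, he, fun a b => ⟨?_, ?_⟩⟩
  · exact (k1 (a, b)).symm.trans (k2 (a, b))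
  · exact (k2 (a, b)).symm.trans (k3 (a, b))

end Pool.Agent.S03369
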