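import Pool.Statements.S03384
import Pool.Agent.H455Z.LimFin

set_option autoImplicit false
open CategoryTheory
open Pool Pool.MP_e6182f_al

namespace Pool.Agent.S03384

/-- The negation of the preceding statement: For every ring R, class D of R-modules and module N: N is a direct limit of summands of finite direct sums of modules in D iff N is a direct limit of summands of arbitrary direct sums of modules in D. -/
theorem result :
    ¬ (∀ (R : Type) [Ring R] (D : ModuleCat.{0} R → Prop) (N : ModuleCat.{0} R),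
      (∃ (J : Type) (_ : SmallCategory J) (_ : IsFiltered J) (F : J ⥤ ModuleCat.{0} R),
        (∀ j : J, ∃ (n : ℕ) (M : Fin n → ModuleCat.{0} R), (∀ i, D (M i)) ∧
          ∃ (f : (F.obj j : Type) →ₗ[R] DirectSum (Fin n) (fun i => (M i : Type)))
            (g : DirectSum (Fin n) (fun i => (M i : Type)) →ₗ[R] (F.obj j : Type)),
            g ∘ₗ f = LinearMap.id) ∧
        ∃ c : Limits.Cocone F, Nonempty (Limits.IsColimit c) ∧ Nonempty (c.pt ≅ N)) ↔
      (∃ (J : Type) (_ : SmallCategory J) (_ : IsFiltered J) (F : J ⥤ ModuleCat.{0} R),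
        (∀ j : J, ∃ (ι : Type) (M : ι → ModuleCat.{0} R), (∀ i, D (M i)) ∧
          ∃ (f : (F.obj j : Type) →ₗ[R] DirectSum ι (fun i => (M i : Type)))
            (g : DirectSum ι (fun i => (M i : Type)) →ₗ[R] (F.obj j : Type)),
            g ∘ₗ f = LinearMap.id) ∧
        ∃ c : Limits.Cocone F, Nonempty (Limits.IsColimit c) ∧ Nonempty (c.pt ≅ N))) := by
  intro h
  exact Pool.Agent.H455Z.LimFin.not_lim_add
    ((h Pool.Agent.H455Z.LimRing.R
      (fun X => X = ModuleCat.of Pool.Agent.H455Z.LimRing.R Pool.Agent.H455Z.LimRing.M)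
      Pool.Agent.H455Z.LimN.N).2 Pool.Agent.H455Z.LimFin.lim_Add)

end Pool.Agent.S03384
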