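import Pool.Statements.S03388
import Pool.Agent.H830Z.CoHopfC
import Pool.Agent.H830Z.CoHopfD

set_option autoImplicit false
open Pool Pool.MP_e6a096_al

namespace Pool.Agent.S03388

/-- The negation of the preceding statement: If T is a finitely generated subsemigroup of finite Green index in a semigroup S, T is co-hopfian, and every T-relative Schützenberger group of an H^T-class outside T is co-hopfian, then every injective endomorphism of S is surjective. -/
theorem result :
    ¬ (∀ (S : Type) [Semigroup S] (T : Subsemigroup S) (Hrel : S → S → Prop),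
      (∀ u v : S, Hrel u v ↔
        ((v = u ∨ ∃ t ∈ T, v = u * t) ∧ (u = v ∨ ∃ t ∈ T, u = v * t) ∧
         (v = u ∨ ∃ t ∈ T, v = t * u) ∧ (u = v ∨ ∃ t ∈ T, u = t * v))) →
      (∃ A : Finset S, Subsemigroup.closure (A : Set S) = T) →
      (∃ F : Finset S, ∀ u : S, u ∉ T → ∃ f ∈ F, Hrel u f) →
      (∀ f : T →ₙ* T, Function.Injective f → Function.Surjective f) →
      (∀ u : S, u ∉ T →
        ∀ G : Set ({h : S // Hrel u h} → {h : S // Hrel u h}),
          (∀ g : {h : S // Hrel u h} → {h : S // Hrel u h}, g ∈ G ↔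
            (g = id ∨ ∃ t ∈ T,
              (∀ h : {h : S // Hrel u h}, ∃ h' : {h : S // Hrel u h}, h'.1 * t = h.1) ∧
              ∀ h : {h : S // Hrel u h}, (g h).1 = h.1 * t)) →
          ∀ φ : ({h : S // Hrel u h} → {h : S // Hrel u h}) →
                ({h : S // Hrel u h} → {h : S // Hrel u h}),
            (∀ g ∈ G, φ g ∈ G) →
            (∀ g ∈ G, ∀ g' ∈ G, φ (g ∘ g') = φ g ∘ φ g') →
            Set.InjOn φ G →
            ∀ g ∈ G, ∃ g' ∈ G, φ g' = g) →
      ∀ f : S →ₙ* S, Function.Injective f → Function.Surjective f) := by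
  have ha : (⟨0, 0, (0, 1)⟩ : H830Z.CoHopf.G) ∉ H830Z.CoHopf.T := by
    rw [H830Z.CoHopf.mem_T]; simp
  exact H830Z.CoHopf.reduction H830Z.CoHopf.T H830Z.CoHopf.TS H830Z.CoHopf.mem_TS _ ha
    H830Z.CoHopf.index_two H830Z.CoHopf.TS_fg H830Z.CoHopf.cohopf H830Z.CoHopf.phi
    H830Z.CoHopf.phi_injective H830Z.CoHopf.phi_not_surjective

end Pool.Agent.S03388
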