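import Pool.Statements.S03473
import Pool.Agent.H847Z.CfcD

set_option autoImplicit false
open Pool Pool.MP_ece58e_al

namespace Pool.Agent.S03473

/-- For every group G with cyclic subgroup C and finite cyclic subgroup F such that every element of G is c1·f·c2 with c1, c2 in C and f in F, the index of C in G is finite. -/
theorem result :
    ∀ (G : Type) [Group G] (C F : Subgroup G),
      IsCyclic C → IsCyclic F → Finite F →
      (∀ g : G, ∃ c₁ ∈ C, ∃ f ∈ F, ∃ c₂ ∈ C, g = c₁ * f * c₂) →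
      C.index ≠ 0 := by
  intro G _ C F hC _ hF h
  obtain ⟨c, rfl⟩ := (Subgroup.isCyclic_iff_exists_zpowers_eq_top C).1 hC
  choose c₁ h₁ f hf c₂ h₂ e using h
  refine Pool.Agent.H847Z.Frob.index_ne_zero_of_dc (ι := F) (dty := fun g => ⟨f g, hf g⟩)
    fun g g' hg => ?_
  have hg' : f g = f g' := congrArg Subtype.val hg
  obtain ⟨a, ha⟩ := h₁ g
  obtain ⟨b, hb⟩ := h₂ g
  obtain ⟨a', ha'⟩ := h₁ g'
  obtain ⟨b', hb'⟩ := h₂ g'
  refine ⟨a' - a, b' - b, ?_⟩
  simp only at ha hb ha' hb'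
  have a1 := e g
  have a2 := e g'
  rw [← ha, ← hb] at a1
  rw [← ha', ← hb', ← hg'] at a2
  generalize f g = r at a1 a2
  rw [a1, a2]
  group

end Pool.Agent.S03473
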