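import Pool.Statements.S03506
import Pool.Agent.H286Z.EA.Main
import Pool.Agent.H286Z.EA.Sizes

set_option autoImplicit false
open Classical
open Pool Pool.MP_f09f42_al

namespace Pool.Agent.S03506

/-- The negation of the preceding statement: For every transitive action of a finitely generated group whose Schreier graph has polynomial growth, there is a mean on the finite subsets of X invariant under symmetric-difference translations and under the group action, i.e. the action is extensively amenable. -/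
theorem result :
    ¬ (∀ (G X : Type) [Group G] [MulAction G X],
      MulAction.IsPretransitive G X →
      (∃ S : Finset G, Subgroup.closure (S : Set G) = ⊤ ∧
        ∃ x₀ : X, ∃ C d : ℕ, ∀ n : ℕ,
          Set.ncard {y : X | ∃ l : List G, l.length ≤ n ∧
            (∀ s ∈ l, s ∈ S ∨ s⁻¹ ∈ S) ∧ l.prod • x₀ = y} ≤ C * (n + 1) ^ d) →
      ∃ m : Set (Finset X) → ℝ,
        (∀ A, 0 ≤ m A) ∧ m Set.univ = 1 ∧
        (∀ A B, Disjoint A B → m (A ∪ B) = m A + m B) ∧
        (∀ F : Finset X, ∀ A, m ((fun E : Finset X => symmDiff E F) ⁻¹' A) = m A) ∧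
        (∀ g : G, ∀ A, m ((fun E : Finset X => E.image (fun x => g • x)) ⁻¹' A) = m A)) := by
  intro H
  obtain ⟨m, ε, C, hm, h0, h1, h2, h3⟩ := H286Z.EA.ex_sizes _ le_rfl
  choose u hu using fun s : Fin 2 => H286Z.EA.ex_link m hm s
  let _ : MulAction (FreeGroup (Option (Fin 3 ⊕ Fin 2))) (H286Z.EA.X m) :=
    MulAction.compHom _ (FreeGroup.lift fun i => (H286Z.EA.gen_inv hu i).toPerm)
  have hg : ∀ i x, FreeGroup.of i • x = H286Z.EA.gen u i x := fun i x => by
    simp [MulAction.compHom_smul_def]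
  obtain ⟨μ, b1, b2, b3, b4, b5⟩ := H _ _ (H286Z.EA.trans hu hg)
    ⟨Finset.univ.image FreeGroup.of, by simp, ⟨0, 0⟩, C, 17, fun n =>
      (H286Z.EA.growth hu hg _ (by simp) n _ (h3 n)).trans_eq (by ring)⟩
  exact @H286Z.EA.no_mean m (fun a b => propDecidable (a = b)) hm ε h0 h1 h2 u hu _ _ _ _ hg μ
    ⟨b1, b2, b3⟩ b4 b5

end Pool.Agent.S03506
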