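import Pool.Statements.S03516
import Pool.Agent.H275Z.Essential

set_option autoImplicit false
open Pool Pool.MP_f1c158_al

namespace Pool.Agent.S03516

/-- The negation of the preceding statement: For every field k, Hopf algebra H over k and H-module algebra R: if R satisfies a multilinear generalized identity with H-operators whose ordered monomial parts have values generating the unit ideal, then R satisfies a nonzero polynomial identity. -/
theorem result :
    ¬ (∀ (k : Type) [Field k] (H : Type) [Ring H] [HopfAlgebra k H]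
    (R : Type) [Ring R] [Algebra k R] (act : H →ₐ[k] Module.End k R),
    (∀ (h : H) (x y : R), act h (x * y) =
        TensorProduct.lift ((LinearMap.mul k R).compl₁₂
          (act.toLinearMap.flip x) (act.toLinearMap.flip y))
          (Coalgebra.comul (R := k) h)) →
    (∀ h : H, act h 1 = algebraMap k R (Coalgebra.counit (R := k) h)) →
    ∀ (n N : ℕ) (a : Fin N → Fin (n + 1) → R) (g : Fin N → Fin n → H)
      (σ : Fin N → Equiv.Perm (Fin n)),
    (∀ r : Fin n → R, ∑ j, a j 0 *
        (List.ofFn fun i : Fin n => act (g j i) (r (σ j i)) * a j i.succ).prod = 0) →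
    (∃ (M : ℕ) (u w : Fin M → R) (τ : Fin M → Equiv.Perm (Fin n))
        (s : Fin M → Fin n → R),
      ∑ m, u m * (∑ j ∈ Finset.univ.filter (fun j => σ j = τ m), a j 0 *
        (List.ofFn fun i : Fin n => act (g j i) (s m (σ j i)) * a j i.succ).prod)
        * w m = 1) →
    ∃ (m : ℕ) (p : FreeAlgebra k (Fin m)), p ≠ 0 ∧
      ∀ r : Fin m → R, FreeAlgebra.lift k r p = 0) := by
  intro h
  letI := Pool.Agent.H275Z.FreeHopf.hopf (Pool.Agent.H275Z.Essential.good ℚ)
  have key := h ℚ (Pool.Agent.H275Z.Essential.H ℚ) (Pool.Agent.H275Z.Essential.R ℚ)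
    (Pool.Agent.H275Z.Essential.act ℚ) (fun z x y => Pool.Agent.H275Z.Essential.act_mul ℚ z x y)
    (fun z => Pool.Agent.H275Z.Essential.act_one ℚ z) 2 2
    ![![1, 1, 1], ![-1, 1, 1]]
    ![![Pool.Agent.H275Z.FreeHopf.X ℚ _ 0 1 1, 1], ![1, Pool.Agent.H275Z.FreeHopf.X ℚ _ 0 1 1]]
    ![1, Equiv.swap 0 1] ?_ ?_
  · obtain ⟨m, p, hp, hp'⟩ := key
    exact hp (Pool.Agent.H275Z.Essential.not_PI ℚ m p hp')
  · intro r
    simp [Fin.sum_univ_two, List.ofFn_succ, Pool.Agent.H275Z.Essential.act_X,
      Pool.Agent.H275Z.Essential.T_comm]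
  · refine ⟨1, fun _ => 1, fun _ => 1, fun _ => 1, fun _ _ => 1, ?_⟩
    have hf : Finset.univ.filter
        (fun j : Fin 2 => (![1, Equiv.swap 0 1] : Fin 2 → Equiv.Perm (Fin 2)) j = 1) = {0} := by
      decide
    simp only [hf]
    simp [List.ofFn_succ, Pool.Agent.H275Z.Essential.act_X, Pool.Agent.H275Z.Essential.T_one]

end Pool.Agent.S03516
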