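import Pool.Statements.S03540
import Pool.Agent.H839Z.CE.Embed
import Pool.Agent.H839Z.CE.NonEmb
import Pool.Agent.H839Z.CE.Label

set_option autoImplicit false
open Pool Pool.MP_f40e16_al

namespace Pool.Agent.S03540

/-- The negation of the preceding statement: If a finitely generated group G coarsely embeds into Hilbert space ℓ², then every group E that is a central extension of ℤ by G (ℤ central, quotient G) also coarsely embeds into ℓ². -/
theorem result :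
    ¬ (∀ (G E : Type) [Group G] [Group E], Group.FG G →
      (∃ f : G → lp (fun _ : ℕ => ℝ) 2,
        (∀ g : G, ∃ C : ℝ, ∀ x : G, ‖f (x * g) - f x‖ ≤ C) ∧
        (∀ R : ℝ, {g : G | ∃ x : G, ‖f (x * g) - f x‖ ≤ R}.Finite)) →
      ∀ (i : Multiplicative ℤ →* E) (π : E →* G),
        Function.Injective i → Function.Surjective π →
        i.range = π.ker → i.range ≤ Subgroup.center E →
        ∃ f : E → lp (fun _ : ℕ => ℝ) 2,
          (∀ g : E, ∃ C : ℝ, ∀ x : E, ‖f (x * g) - f x‖ ≤ C) ∧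
          (∀ R : ℝ, {g : E | ∃ x : E, ‖f (x * g) - f x‖ ≤ R}.Finite)) := by
  intro h
  obtain ⟨S, _, _, G, hSC, hL, hfin, hlev⟩ := H839Z.CE.exists_LG
  refine H839Z.CE.LG.nonembed hSC hL (fun n => ?_) ?_
  · obtain ⟨V, E, i1, i2, i3, i4, a, b, t, g, iV, iE, h1, -, -, h2, h3, -⟩ := hlev n
    exact ⟨V, E, i1, i2, i3, i4, a, b, t, g, iV, iE, h1, h2, h3⟩
  have hle : H839Z.CE.LG.Nt G ≤ (H839Z.CE.LG.N G).comap (MonoidHom.fst _ _) :=
    fun γ hγ => ⟨γ, hγ, rfl⟩
  refine h (FreeGroup S ⧸ H839Z.CE.LG.N G) (H839Z.CE.LG.Gam S ⧸ H839Z.CE.LG.Nt G) inferInstance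
    (H839Z.CE.LG.embed hSC hL hfin)
    ((QuotientGroup.mk' _).comp (MonoidHom.inr _ _))
    (QuotientGroup.map _ _ (MonoidHom.fst _ _) hle) ?_ ?_ ?_ ?_
  · rw [injective_iff_map_eq_one]
    intro k hk
    exact H839Z.CE.LG.center_inj hSC hL ((QuotientGroup.eq_one_iff _).1 hk)
  · intro q
    obtain ⟨x, rfl⟩ := QuotientGroup.mk_surjective q
    exact ⟨((x, 1) : H839Z.CE.LG.Gam S), rfl⟩
  · ext q
    obtain ⟨γ, rfl⟩ := QuotientGroup.mk_surjective q
    constructor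
    · rintro ⟨k, hk⟩
      rw [← hk, MonoidHom.mem_ker]
      rfl
    · intro hq
      obtain ⟨γ', h1, h2⟩ : γ.1 ∈ H839Z.CE.LG.N G := (QuotientGroup.eq_one_iff _).1 hq
      refine ⟨γ.2 * γ'.2⁻¹, QuotientGroup.eq.2 ?_⟩
      have e : (MonoidHom.inr (FreeGroup S) (Multiplicative ℤ) (γ.2 * γ'.2⁻¹))⁻¹ * γ = γ' := by
        ext
        · simpa using h2.symm
        · simp
      rw [e]
      exact h1
  · rintro _ ⟨k, rfl⟩
    rw [Subgroup.mem_center_iff]
    intro q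
    obtain ⟨γ, rfl⟩ := QuotientGroup.mk_surjective q
    change ((γ * (1, k) : H839Z.CE.LG.Gam S) : H839Z.CE.LG.Gam S ⧸ H839Z.CE.LG.Nt G) =
      (((1, k) : H839Z.CE.LG.Gam S) * γ : H839Z.CE.LG.Gam S)
    congr 1
    ext
    · simp
    · simp [add_comm]

end Pool.Agent.S03540
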