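import Pool.Statements.S03547
import Pool.Agent.H525Z.Small2

set_option autoImplicit false
universe u
open Pool Pool.MP_f49b6d_al

namespace Pool.Agent.S03547

/-- Every infinite group G has a coloring by natural numbers whose color classes are all ∣G∣-small. A class A is ∣G∣-small if, whenever fewer than ∣G∣ left (right) translates of L cover G, fewer than ∣G∣ left (right) translates of L minus A also cover G. -/
theorem result :
    ∀ (G : Type u) [Group G] [Infinite G],
      ∃ f : G → ℕ, ∀ n : ℕ,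
        (∀ L : Set G,
          (∃ F : Set G, Cardinal.mk F < Cardinal.mk G ∧
              ∀ g : G, ∃ x ∈ F, ∃ y ∈ L, g = x * y) →
          (∃ F : Set G, Cardinal.mk F < Cardinal.mk G ∧
              ∀ g : G, ∃ x ∈ F, ∃ y ∈ L, f y ≠ n ∧ g = x * y)) ∧
        (∀ L : Set G,
          (∃ F : Set G, Cardinal.mk F < Cardinal.mk G ∧
              ∀ g : G, ∃ x ∈ F, ∃ y ∈ L, g = y * x) →
          (∃ F : Set G, Cardinal.mk F < Cardinal.mk G ∧
              ∀ g : G, ∃ x ∈ F, ∃ y ∈ L, f y ≠ n ∧ g = y * x)) := by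
  intro G _ _
  obtain ⟨c, hc⟩ := Pool.Agent.H525Z.Small.core (G := G)
  have hinf : Cardinal.aleph0 ≤ Cardinal.mk G := Cardinal.aleph0_le_mk G
  refine ⟨fun g => c g + c g⁻¹, fun n => ⟨?_, ?_⟩⟩
  · rintro L ⟨F, hF, hL⟩
    obtain ⟨K, hK, h⟩ := hc n F hF
    refine ⟨Set.image2 (· * ·) K F, ?_, fun g => ?_⟩
    · exact lt_of_le_of_lt Cardinal.mk_image2_le (Cardinal.mul_lt_of_lt hinf hK hF)
    · obtain ⟨k, hk, h1⟩ := h g⁻¹
      obtain ⟨x, hx, y, hy, hxy⟩ := hL (k⁻¹ * g)
      refine ⟨k * x, Set.mem_image2_of_mem hk hx, y, hy, ?_, ?_⟩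
      · have h2 := h1 x hx
        have h3 : g⁻¹ * k * x = y⁻¹ := by
          have : g = k * (x * y) := by rw [← hxy]; group
          rw [this]; group
        rw [h3] at h2
        show c y + c y⁻¹ ≠ n
        omega
      · rw [mul_assoc, ← hxy]; group
  · rintro L ⟨F, hF, hL⟩
    have hF' : Cardinal.mk ((fun x => x⁻¹) '' F : Set G) < Cardinal.mk G :=
      lt_of_le_of_lt Cardinal.mk_image_le hF
    obtain ⟨K, hK, h⟩ := hc n _ hF'
    refine ⟨Set.image2 (fun x k => x * k⁻¹) F K, ?_, fun g => ?_⟩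
    · exact lt_of_le_of_lt Cardinal.mk_image2_le (Cardinal.mul_lt_of_lt hinf hF hK)
    · obtain ⟨k, hk, h1⟩ := h g
      obtain ⟨x, hx, y, hy, hxy⟩ := hL (g * k)
      refine ⟨x * k⁻¹, Set.mem_image2_of_mem hx hk, y, hy, ?_, ?_⟩
      · have h2 := h1 x⁻¹ ⟨x, hx, rfl⟩
        have h3 : g * k * x⁻¹ = y := by rw [hxy]; group
        rw [h3] at h2
        show c y + c y⁻¹ ≠ n
        omega
      · rw [← mul_assoc, ← hxy]; group

end Pool.Agent.S03547
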