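import Pool.Statements.S03579
import Pool.Agent.H604Z.SolidC

set_option autoImplicit false
open Pool Pool.MP_f762b7_al

namespace Pool.Agent.S03579

/-- For every field k of prime characteristic p, the integral closure of k[x] in an algebraic closure of k(x) admits a nonzero k[x]-linear map to k[x]. -/
theorem result :
    ∀ (p : ℕ), p.Prime → ∀ (k : Type) [Field k] [CharP k p],
      ∃ f : ↥(integralClosure (Polynomial k) (AlgebraicClosure (FractionRing (Polynomial k))))
          →ₗ[Polynomial k] Polynomial k, f ≠ 0 := by
  exact fun p hp k _ _ => Pool.Agent.H604Z.Solid.solid_polynomial p hp k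

end Pool.Agent.S03579
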