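import Pool.Statements.S03650
import Pool.Agent.H312Z.FullC

set_option autoImplicit false
open Pool Pool.MP_feeeae_al

namespace Pool.Agent.S03650

/-- The negation of the preceding statement: If G is the topological full group of a group of homeomorphisms of the Cantor set and G acts highly transitively on a dense invariant set, then every bounded real cocycle of positive degree on G is the coboundary of a bounded cochain. -/
theorem result :
    ¬ (∀ (Γ G : Subgroup ((ℕ → Bool) ≃ₜ (ℕ → Bool))) (S : Set (ℕ → Bool)),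
      (∀ g : (ℕ → Bool) ≃ₜ (ℕ → Bool), g ∈ G ↔
          ∀ x : ℕ → Bool, ∃ U : Set (ℕ → Bool), IsClopen U ∧ x ∈ U ∧
            ∃ γ ∈ Γ, ∀ y ∈ U, g y = γ y) →
      Dense S →
      (∀ g ∈ G, ∀ x ∈ S, g x ∈ S) →
      (∀ (n : ℕ) (a b : Fin n → (ℕ → Bool)), Function.Injective a → Function.Injective b →
          (∀ i, a i ∈ S) → (∀ i, b i ∈ S) → ∃ g ∈ G, ∀ i, g (a i) = b i) →
      ∀ (n : ℕ) (f : (Fin (n + 1) → G) → ℝ), (∃ C : ℝ, ∀ x, |f x| ≤ C) →
        (∀ g : Fin (n + 1 + 1) → G,
            f (fun i => g i.succ) +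
              ∑ j : Fin (n + 1 + 1), (-1 : ℝ) ^ (j.val + 1) *
                f (Fin.contractNth j (fun a b => a * b) g) = 0) →
        ∃ h : (Fin n → G) → ℝ, (∃ C : ℝ, ∀ x, |h x| ≤ C) ∧
          ∀ g : Fin (n + 1) → G,
            h (fun i => g i.succ) +
              ∑ j : Fin (n + 1), (-1 : ℝ) ^ (j.val + 1) *
                h (Fin.contractNth j (fun a b => a * b) g) = f g) := by
  intro H
  open Pool.Agent.H312Z.Full in
  have c2 : ∀ (g : Fin 2 → Gf) (h : (Fin 1 → Gf) → ℝ),
      h (fun i => g i.succ) + ∑ j : Fin 2, (-1 : ℝ) ^ (j.val + 1) *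
        h (Fin.contractNth j (fun a b => a * b) g) =
      h (fun _ => g 1) - h (fun _ => g 0 * g 1) + h (fun _ => g 0) := by
    intro g h
    have e0 : (fun i : Fin 1 => g i.succ) = fun _ => g 1 := by
      funext i
      fin_cases i
      rfl
    have e1 : Fin.contractNth (0 : Fin 2) (fun a b => a * b) g = fun _ => g 0 * g 1 := by
      funext i
      fin_cases i
      rfl
    have e2 : Fin.contractNth (1 : Fin 2) (fun a b => a * b) g = fun _ => g 0 := by
      funext i
      fin_cases i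
      rfl
    rw [Fin.sum_univ_two, e0, e1, e2]
    simp
    ring
  open Pool.Agent.H312Z.Full in
  obtain ⟨h, ⟨C, hC⟩, e⟩ := H Gam Gf Set.univ (fun _ => Iff.rfl) dense_univ
    (fun _ _ _ _ => trivial) (fun n a b ha hb _ _ => highly n a b ha hb) 1
    (fun g => Ph (g 1) - Ph (g 0 * g 1) + Ph (g 0))
    ⟨1, fun g => by
      have := Ph_quasi (g 0) (g 1)
      rw [abs_le] at this ⊢
      constructor <;> linarith [this.1, this.2]⟩
    (fun g => by
      rw [Fin.sum_univ_three]
      change Ph (g 2) - Ph (g 1 * g 2) + Ph (g 1) +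
        ((-1 : ℝ) ^ (0 + 1) * (Ph (g 2) - Ph (g 0 * g 1 * g 2) + Ph (g 0 * g 1)) +
        (-1 : ℝ) ^ (1 + 1) * (Ph (g 1 * g 2) - Ph (g 0 * (g 1 * g 2)) + Ph (g 0)) +
        (-1 : ℝ) ^ (2 + 1) * (Ph (g 1) - Ph (g 0 * g 1) + Ph (g 0))) = 0
      rw [mul_assoc]
      ring)
  open Pool.Agent.H312Z.Full in
  refine no_hom (fun a => Ph a - h (fun _ => a)) (fun a b => ?_) C (fun a => ?_)
  · have := e ![a, b]
    rw [c2] at this
    simp only [Matrix.cons_val_zero, Matrix.cons_val_one] at this
    linarith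
  · have := hC (fun _ => a)
    rw [abs_le] at this ⊢
    constructor <;> linarith [this.1, this.2]

end Pool.Agent.S03650
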