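import Pool.Statements.S03682
import Pool.Agent.H557Z.BmoaDisc

set_option autoImplicit false
open Pool Pool.MP_0252b9_an

namespace Pool.Agent.S03682

/-- The negation of the preceding statement: For every analytic f on the disc with f+conj(q0) bounded for some analytic q0 (i.e. f in BMOA), some analytic q attains the least sup M of ∣f+conj q∣ over the disc and ∣f+conj q∣ has radial limit M at a.e. boundary point. -/
theorem result :
    ¬ (∀ f : ℂ → ℂ, DifferentiableOn ℂ f (Metric.ball 0 1) →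
      (∃ q₀ : ℂ → ℂ, DifferentiableOn ℂ q₀ (Metric.ball 0 1) ∧
        ∃ C : ℝ, ∀ z ∈ Metric.ball (0 : ℂ) 1, ‖f z + starRingEnd ℂ (q₀ z)‖ ≤ C) →
      ∃ q : ℂ → ℂ, DifferentiableOn ℂ q (Metric.ball 0 1) ∧ ∃ M : ℝ,
        (∀ z ∈ Metric.ball (0 : ℂ) 1, ‖f z + starRingEnd ℂ (q z)‖ ≤ M) ∧
        (∀ q' : ℂ → ℂ, DifferentiableOn ℂ q' (Metric.ball 0 1) → ∀ M' : ℝ,
          (∀ z ∈ Metric.ball (0 : ℂ) 1, ‖f z + starRingEnd ℂ (q' z)‖ ≤ M') → M ≤ M') ∧
        ∀ᵐ θ : ℝ, Filter.Tendsto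
          (fun r : ℝ => ‖f ((r : ℂ) * Complex.exp ((θ : ℂ) * Complex.I)) +
            starRingEnd ℂ (q ((r : ℂ) * Complex.exp ((θ : ℂ) * Complex.I)))‖)
          (nhdsWithin 1 (Set.Iio 1)) (nhds M)) := by
  open Pool.Agent.H557Z.Bmoa in
  intro h
  obtain ⟨q, hq, M, hM, hmin, hae⟩ := h ff ff_diff
    ⟨0, differentiableOn_const _, 1, fun z hz => by simpa using ff_le hz⟩
  have hM1 : M ≤ 1 := hmin 0 (differentiableOn_const _) 1 fun z hz => by simpa using ff_le hz
  have hq0 := q_zero hq fun z hz => (hM z hz).trans hM1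
  have hM2 : 1 ≤ M := one_le_of_bound fun z hz => by simpa [hq0 hz] using hM z hz
  have hpos : MeasureTheory.volume (Set.Ioo (Real.pi / 2) (Real.pi + Real.pi / 2)) ≠ 0 := by
    rw [Real.volume_Ioo]
    have := Real.pi_pos
    simp only [ne_eq, ENNReal.ofReal_eq_zero, not_le]
    linarith
  obtain ⟨θ, hθ, hlim⟩ := MeasureTheory.Measure.exists_mem_of_measure_ne_zero_of_ae hpos
    (MeasureTheory.ae_restrict_of_ae hae)
  have hcos : Real.cos θ < 0 := Real.cos_neg_of_pi_div_two_lt_of_lt hθ.1 hθ.2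
  have hle : M ≤ Real.exp (-1) := by
    refine le_of_tendsto hlim ?_
    filter_upwards [Ioo_mem_nhdsLT (show (0 : ℝ) < 1 by norm_num)] with r hr
    obtain ⟨h1, h2⟩ := small_on_arc hcos hr.1 hr.2
    simpa [hq0 h1] using h2
  have : Real.exp (-1) < 1 := Real.exp_lt_one_iff.2 (by norm_num)
  linarith

end Pool.Agent.S03682
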