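import Pool.Statements.S03687
import Pool.Agent.H598Z.Join.Main

set_option autoImplicit false
open MeasureTheory
open Pool Pool.MP_03548f_an

namespace Pool.Agent.S03687

/-- For any two shift-invariant probability measures on sequences over countable alphabets, both of positive entropy, there is a shift-invariant joining under which some pair of first-coordinate events a, b fails the product rule. -/
theorem result :
    ∀ (μ ν : Measure (ℕ → ℕ)),
      IsProbabilityMeasure μ → IsProbabilityMeasure ν →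
      MeasurePreserving (fun (x : ℕ → ℕ) (n : ℕ) => x (n + 1)) μ μ →
      MeasurePreserving (fun (x : ℕ → ℕ) (n : ℕ) => x (n + 1)) ν ν →
      (∃ m : ℕ, ∃ f : ℕ → Fin m, ∃ c : ℝ, 0 < c ∧ ∀ n : ℕ,
        c * (n : ℝ) ≤ ∑ w : Fin n → Fin m,
          Real.negMulLog ((μ {x : ℕ → ℕ | ∀ i : Fin n, f (x i.val) = w i}).toReal)) →
      (∃ m : ℕ, ∃ f : ℕ → Fin m, ∃ c : ℝ, 0 < c ∧ ∀ n : ℕ,
        c * (n : ℝ) ≤ ∑ w : Fin n → Fin m,
          Real.negMulLog ((ν {x : ℕ → ℕ | ∀ i : Fin n, f (x i.val) = w i}).toReal)) →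
      ∃ ξ : Measure ((ℕ → ℕ) × (ℕ → ℕ)),
        IsProbabilityMeasure ξ ∧
        MeasurePreserving
          (Prod.map (fun (x : ℕ → ℕ) (n : ℕ) => x (n + 1))
                    (fun (x : ℕ → ℕ) (n : ℕ) => x (n + 1))) ξ ξ ∧
        ξ.map Prod.fst = μ ∧ ξ.map Prod.snd = ν ∧
        ∃ a b : ℕ,
          ξ ({p : (ℕ → ℕ) × (ℕ → ℕ) | p.1 0 = a} ∩ {p | p.2 0 = b}) ≠
            μ {x : ℕ → ℕ | x 0 = a} * ν {y : ℕ → ℕ | y 0 = b} := by
  intro μ ν h1 h2 hμ hν ⟨m, f, c, hc, hf⟩ ⟨l, g, d, hd, hg⟩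
  exact Pool.Agent.H598Z.Join.main μ ν hμ hν f c hc hf g d hd hg

end Pool.Agent.S03687
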