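import Pool.Statements.S03708
import Pool.Agent.H80Z.DanAlg
import Pool.Agent.H80Z.DanTop

set_option autoImplicit false
open Pool Pool.MP_04e188_an

namespace Pool.Agent.S03708

open Pool.Agent.H80Z.Dan

/-- The negation of the preceding statement: Every smooth irreducible positive-dimensional complex affine variety in C^n whose overshear fields generate all algebraic vector fields has a holomorphic automorphism moving each compact holomorphically convex proper subset off itself with convex union. -/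
theorem result :
    ¬ (∀ (n : ℕ) (I : Ideal (MvPolynomial (Fin n) ℂ)),
      I.IsPrime → ¬ I.IsMaximal →
      Algebra.Smooth ℂ (MvPolynomial (Fin n) ℂ ⧸ I) →
      LieSubalgebra.lieSpan ℂ
          (Derivation ℂ (MvPolynomial (Fin n) ℂ ⧸ I) (MvPolynomial (Fin n) ℂ ⧸ I))
          {V | ∃ Θ : Derivation ℂ (MvPolynomial (Fin n) ℂ ⧸ I) (MvPolynomial (Fin n) ℂ ⧸ I),
              (∀ g : MvPolynomial (Fin n) ℂ ⧸ I, ∃ k : ℕ, (⇑Θ)^[k] g = 0) ∧
              ∃ f : MvPolynomial (Fin n) ℂ ⧸ I, Θ (Θ f) = 0 ∧ V = f • Θ} = ⊤ →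
      ∃ F G : (Fin n → ℂ) → (Fin n → ℂ),
        Differentiable ℂ F ∧ Differentiable ℂ G ∧
        (∀ x : Fin n → ℂ, (∀ p ∈ I, MvPolynomial.eval x p = 0) →
          (∀ p ∈ I, MvPolynomial.eval (F x) p = 0) ∧
          (∀ p ∈ I, MvPolynomial.eval (G x) p = 0) ∧
          G (F x) = x ∧ F (G x) = x) ∧
        ∀ K : Set (Fin n → ℂ),
          K ⊆ {x | ∀ p ∈ I, MvPolynomial.eval x p = 0} →
          IsCompact K →
          K ≠ {x | ∀ p ∈ I, MvPolynomial.eval x p = 0} →
          (∀ x : Fin n → ℂ, (∀ p ∈ I, MvPolynomial.eval x p = 0) →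
            (∀ f : (Fin n → ℂ) → ℂ, Differentiable ℂ f →
              ∀ c : ℝ, (∀ y ∈ K, ‖f y‖ ≤ c) → ‖f x‖ ≤ c) → x ∈ K) →
          ∃ m : ℕ, (F^[m] '' K) ∩ K = ∅ ∧
            ∀ x : Fin n → ℂ, (∀ p ∈ I, MvPolynomial.eval x p = 0) →
              (∀ f : (Fin n → ℂ) → ℂ, Differentiable ℂ f →
                ∀ c : ℝ, (∀ y ∈ (F^[m] '' K) ∪ K, ‖f y‖ ≤ c) → ‖f x‖ ≤ c) →
              x ∈ (F^[m] '' K) ∪ K) := by
  intro h
  obtain ⟨F, G, hF, hG, hFG, hK⟩ :=
    h 3 (idl 0) (idl_prime 0) (idl_not_max 0) (smooth 0) os_zero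
  have hD : ∀ w : Fin 3 → ℂ, (∀ p ∈ idl 0, MvPolynomial.eval w p = 0) ↔ w ∈ D := mem_zero 0
  simp only [hD] at hFG hK
  obtain ⟨m, hm, -⟩ := hK (Set.range io) (by rintro _ ⟨p, rfl⟩; exact io_mem p)
    (isCompact_range continuous_io) (fun hh => by
      have h1 : (![2, 0, 1] : Fin 3 → ℂ) ∈ Set.range io := by
        rw [hh]; simp [D]
      obtain ⟨p, hp⟩ := h1
      have h2 := V_mk p 0
      rw [show mk p 0 = io p from rfl, hp] at h2
      simpa [V] using congrArg (fun x : E3 => x 1) h2) convex_sphere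
  have hit : ∀ k : ℕ, ∀ T ∈ D, F^[k] T ∈ D ∧ G^[k] T ∈ D ∧ F^[k] (G^[k] T) = T := by
    intro k
    induction k with
    | zero => intro T hT; exact ⟨hT, hT, rfl⟩
    | succ k ih =>
      intro T hT
      refine ⟨?_, ?_, ?_⟩
      · rw [Function.iterate_succ_apply']; exact (hFG _ (ih T hT).1).1
      · rw [Function.iterate_succ_apply']; exact (hFG _ (ih T hT).2.1).2.1
      · rw [Function.iterate_succ_apply, Function.iterate_succ_apply',
          (hFG _ (ih T hT).2.1).2.2.2, (ih T hT).2.2]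
  exact not_displaced F^[m] G^[m] (hF.continuous.iterate m) (hG.continuous.iterate m)
    (fun T hT => (hit m T hT).1) (fun T hT => (hit m T hT).2.1) (fun T hT => (hit m T hT).2.2) hm

end Pool.Agent.S03708
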