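import Pool.Statements.S03716
import Pool.Agent.H449Z.DBRFinal

set_option autoImplicit false
open Pool Pool.MP_05b6ce_an

namespace Pool.Agent.S03716

/-- The negation of the preceding statement: For a Pythagorean pair (b,a) given by Taylor coefficients, with phi=b/a: if f is in H^2 and the convergent series sums c_m=Σ conj(phi_n) f_{m+n} are square-summable, then sup over g in H^2 of ‖f+bg‖²−‖g‖² equals Σ∣f_m∣²+Σ∣c_m∣². -/
theorem result :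
    ¬ (∀ (a b φ : ℕ → ℂ),
    (∀ g : ℕ → ℂ, Summable (fun n => ‖g n‖ ^ 2) →
      Summable (fun n => ‖∑ k ∈ Finset.range (n+1), a k * g (n-k)‖ ^ 2) ∧
      Summable (fun n => ‖∑ k ∈ Finset.range (n+1), b k * g (n-k)‖ ^ 2) ∧
      (∑' n, ‖∑ k ∈ Finset.range (n+1), a k * g (n-k)‖ ^ 2) +
        (∑' n, ‖∑ k ∈ Finset.range (n+1), b k * g (n-k)‖ ^ 2) = ∑' n, ‖g n‖ ^ 2) →
    (∀ g : ℕ → ℂ, Summable (fun n => ‖g n‖ ^ 2) →
      (∀ j : ℕ, ∑' n, a n * starRingEnd ℂ (g (n + j)) = 0) → g = 0) →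
    0 < (a 0).re → (a 0).im = 0 →
    (∀ n, ∑ k ∈ Finset.range (n+1), a k * φ (n-k) = b n) →
    ∀ f c : ℕ → ℂ, Summable (fun n => ‖f n‖ ^ 2) →
      (∀ m, Filter.Tendsto (fun N => ∑ n ∈ Finset.range N, starRingEnd ℂ (φ n) * f (m+n))
        Filter.atTop (nhds (c m))) →
      Summable (fun m => ‖c m‖ ^ 2) →
      IsLUB {x : ℝ | ∃ g : ℕ → ℂ, Summable (fun n => ‖g n‖ ^ 2) ∧
          x = (∑' n, ‖f n + ∑ k ∈ Finset.range (n+1), b k * g (n-k)‖ ^ 2) - ∑' n, ‖g n‖ ^ 2}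
        ((∑' m, ‖f m‖ ^ 2) + ∑' m, ‖c m‖ ^ 2)) := by
  intro h
  obtain ⟨a, b, φ, f, h1, h2, h3, h4, h5, h6, h7, h8⟩ := Pool.Agent.H449Z.DBR.counterexample
  refine h8 ?_
  have := h a b φ h1 h2 h3 h4 h5 f (fun _ => 0) h6 h7 (by simpa using summable_zero)
  simpa using this.1

end Pool.Agent.S03716
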