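import Pool.Statements.S03741
import Pool.Agent.H34Z.SF.Main

set_option autoImplicit false
open Matrix
open Pool Pool.MP_090951_an

namespace Pool.Agent.S03741

/-- A Hermitian PSD matrix density whose entries are exponentially weighted two-sided integrable parts plus arbitrary-delay impulse sums, with det bounded below by δ>0, factors as R*R with R and R⁻¹ entrywise causal and exponentially stable. -/
theorem result :
    ∀ (n : ℕ) (F : ℝ → Matrix (Fin n) (Fin n) ℂ),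
      (∀ i j : Fin n, ∃ σ : ℝ, 0 < σ ∧ ∃ (fa : ℝ → ℂ) (c : ℕ → ℂ) (τ : ℕ → ℝ),
          MeasureTheory.Integrable (fun t : ℝ => fa t * ((Real.exp (σ * |t|) : ℝ) : ℂ)) ∧
          Summable (fun k : ℕ => ‖c k‖ * Real.exp (σ * |τ k|)) ∧
          ∀ ω : ℝ, F ω i j =
            (∫ t : ℝ, fa t * Complex.exp (-((ω : ℂ) * (t : ℂ) * Complex.I))) +
              ∑' k : ℕ, c k * Complex.exp (-((ω : ℂ) * ((τ k : ℝ) : ℂ) * Complex.I))) →
      (∀ ω : ℝ, (F ω).IsHermitian ∧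
          ∀ x : Fin n → ℂ, 0 ≤ (dotProduct (star x) ((F ω).mulVec x)).re) →
      (∃ δ : ℝ, 0 < δ ∧ ∀ ω : ℝ, δ ≤ ((F ω).det).re) →
      ∃ R : ℝ → Matrix (Fin n) (Fin n) ℂ,
        (∀ ω : ℝ, IsUnit (R ω)) ∧
        (∀ ω : ℝ, F ω = (R ω).conjTranspose * R ω) ∧
        (∀ i j : Fin n, ∃ σ : ℝ, 0 < σ ∧ ∃ (fa : ℝ → ℂ) (c : ℕ → ℂ) (τ : ℕ → ℝ),
          (∀ k : ℕ, 0 ≤ τ k) ∧
          MeasureTheory.Integrable (fun t : ℝ => fa t * ((Real.exp (σ * t) : ℝ) : ℂ))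
            (MeasureTheory.volume.restrict (Set.Ici (0 : ℝ))) ∧
          Summable (fun k : ℕ => ‖c k‖ * Real.exp (σ * τ k)) ∧
          ∀ ω : ℝ, R ω i j =
            (∫ t in Set.Ici (0 : ℝ), fa t * Complex.exp (-((ω : ℂ) * (t : ℂ) * Complex.I))) +
              ∑' k : ℕ, c k * Complex.exp (-((ω : ℂ) * ((τ k : ℝ) : ℂ) * Complex.I))) ∧
        (∀ i j : Fin n, ∃ σ : ℝ, 0 < σ ∧ ∃ (fa : ℝ → ℂ) (c : ℕ → ℂ) (τ : ℕ → ℝ),
          (∀ k : ℕ, 0 ≤ τ k) ∧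
          MeasureTheory.Integrable (fun t : ℝ => fa t * ((Real.exp (σ * t) : ℝ) : ℂ))
            (MeasureTheory.volume.restrict (Set.Ici (0 : ℝ))) ∧
          Summable (fun k : ℕ => ‖c k‖ * Real.exp (σ * τ k)) ∧
          ∀ ω : ℝ, (R ω)⁻¹ i j =
            (∫ t in Set.Ici (0 : ℝ), fa t * Complex.exp (-((ω : ℂ) * (t : ℂ) * Complex.I))) +
              ∑' k : ℕ, c k * Complex.exp (-((ω : ℂ) * ((τ k : ℝ) : ℂ) * Complex.I))) := by
  intro n F h1 h2 ⟨δ, hδ, h3⟩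
  choose σ hσ fa c τ a1 a2 a3 using h1
  have ha := fun i j => Pool.Agent.H34Z.SF.input_a (hσ i j) (a1 i j)
  have hd := fun i j => Pool.Agent.H34Z.SF.input_d (hσ i j) (a2 i j)
  have hb : ∀ i j, ∃ C, ∀ ω, ‖F ω i j‖ ≤ C := by
    intro i j
    simp only [a3]
    exact ((ha i j).cl.add (hd i j).cl).bdd
  obtain ⟨R, r1, r2, r3, r4⟩ := Pool.Agent.H34Z.SF.factor
    (Fa := fun ω => Matrix.of fun i j =>
      ∫ t : ℝ, fa i j t * Complex.exp (-((ω : ℂ) * (t : ℂ) * Complex.I)))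
    (Fd := fun ω => Matrix.of fun i j =>
      ∑' k : ℕ, c i j k * Complex.exp (-((ω : ℂ) * ((τ i j k : ℝ) : ℂ) * Complex.I)))
    (Pool.Agent.H34Z.SF.coer_of_det hb h2 hδ h3)
    (fun ω => by ext i j; exact a3 i j ω) ha hd
  exact ⟨R, r1, r2, fun i j => Pool.Agent.H34Z.SF.output (r3 i j),
    fun i j => Pool.Agent.H34Z.SF.output (r4 i j)⟩

end Pool.Agent.S03741
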