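import Pool.Statements.S03752
import Pool.Agent.H667Z.PF.Main

set_option autoImplicit false
open Pool Pool.MP_097dd0_an

namespace Pool.Agent.S03752

/-- The negation of the preceding statement: There is a family of closed balls of positive radius in the Hilbert space of square-summable real families indexed by ℝ that covers the whole space, with each point lying in only finitely many balls. -/
theorem result :
    ¬ (∃ S : Set (lp (fun _ : ℝ => ℝ) (2 : ENNReal) × ℝ),
      (∀ p ∈ S, 0 < p.2) ∧
      (∀ x : lp (fun _ : ℝ => ℝ) (2 : ENNReal), ∃ p ∈ S, x ∈ Metric.closedBall p.1 p.2) ∧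
      (∀ x : lp (fun _ : ℝ => ℝ) (2 : ENNReal),
        {p ∈ S | x ∈ Metric.closedBall p.1 p.2}.Finite)) :=
  Pool.Agent.H667Z.PF.no_pointFinite_cover Pool.Agent.H667Z.PF.lp_not_finiteDimensional

end Pool.Agent.S03752
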