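import Pool.Statements.S03781
import Pool.Agent.H256Z.AF.Main

set_option autoImplicit false
open scoped Topology
open Pool Pool.MP_0b4183_an

namespace Pool.Agent.S03781

/-- If ψ is holomorphic on a connected open Ω in C^n, its Hessian has maximal rank k (0<k<n), and rank-k level sets of ∇ψ are affine (n−k)-planes, then every point where the kernel field has no local continuous extension lies on a positive-dimensional affine piece of such points. -/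
theorem result :
    ∀ (n k : ℕ) (Ω : Set (Fin n → ℂ)) (ψ : (Fin n → ℂ) → ℂ)
      (r : (Fin n → ℂ) → ℕ) (K : (Fin n → ℂ) → Submodule ℂ (Fin n → ℂ)),
      IsOpen Ω → IsConnected Ω → AnalyticOnNhd ℂ ψ Ω →
      (∀ ξ : Fin n → ℂ, r ξ = Module.finrank ℂ (LinearMap.range
        ((fderiv ℂ (fderiv ℂ ψ) ξ : (Fin n → ℂ) →L[ℂ] ((Fin n → ℂ) →L[ℂ] ℂ)) :
          (Fin n → ℂ) →ₗ[ℂ] ((Fin n → ℂ) →L[ℂ] ℂ)))) →
      (∀ ξ : Fin n → ℂ, K ξ = LinearMap.ker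
        ((fderiv ℂ (fderiv ℂ ψ) ξ : (Fin n → ℂ) →L[ℂ] ((Fin n → ℂ) →L[ℂ] ℂ)) :
          (Fin n → ℂ) →ₗ[ℂ] ((Fin n → ℂ) →L[ℂ] ℂ))) →
      1 ≤ k → k ≤ n - 1 →
      (∀ ξ ∈ Ω, r ξ ≤ k) →
      (∃ ξ ∈ Ω, r ξ = k) →
      (∀ ξ ∈ Ω, r ξ = k →
        ∃ V : Submodule ℂ (Fin n → ℂ), Module.finrank ℂ V = n - k ∧
          {η | η ∈ Ω ∧ fderiv ℂ ψ η = fderiv ℂ ψ ξ} = {η | η ∈ Ω ∧ η - ξ ∈ V}) →
      ∀ S : Set (Fin n → ℂ),
        S = {ξ | ξ ∈ Ω ∧ ¬ ∃ U : Set (Fin n → ℂ),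
              IsOpen U ∧ ξ ∈ U ∧ U ⊆ Ω ∧
              ∃ v : Fin (n - k) → (Fin n → ℂ) → (Fin n → ℂ),
                (∀ i, ContinuousOn (v i) U) ∧
                (∀ η ∈ U, LinearIndependent ℂ (fun i => v i η)) ∧
                (∀ η ∈ U, r η = k →
                  Submodule.span ℂ (Set.range (fun i => v i η)) = K η)} →
        ∀ ξ ∈ S, ∃ V : Submodule ℂ (Fin n → ℂ), V ≠ ⊥ ∧
          ∃ U ∈ 𝓝 ξ, ∀ η ∈ U, η - ξ ∈ V → η ∈ S := by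
  intro n k Ω ψ r K hop hconn han hr hK hk1 hk2 hle hex hlev S hS ξ hξ
  have hr' : ∀ x, r x = Pool.Agent.H256Z.AF.rk (fderiv ℂ ψ) x := hr
  have hK' : ∀ x, K x = Pool.Agent.H256Z.AF.Kr (fderiv ℂ ψ) x := hK
  have H : Pool.Agent.H256Z.AF.Hyp (fderiv ℂ ψ) Ω k (n - k) :=
    { op := hop
      conn := hconn.isPreconnected
      an := han.fderiv
      dim := by rw [Module.finrank_fin_fun]; omega
      le := fun x hx => hr' x ▸ hle x hx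
      ex := by
        obtain ⟨x, hx, hx'⟩ := hex
        exact ⟨x, hx, hr' x ▸ hx'⟩
      lev := fun x hx hx' => hlev x hx ((hr' x).trans hx') }
  have hS' : ∀ x, x ∈ S ↔ x ∈ Ω ∧ ¬ Pool.Agent.H256Z.AF.Reg (fderiv ℂ ψ) Ω k (n - k) x := by
    intro x
    rw [hS]
    simp only [Set.mem_setOf_eq, hr', hK']
    rfl
  obtain ⟨hξΩ, hξ'⟩ := (hS' ξ).1 hξ
  obtain ⟨w, hw0, hw⟩ := Pool.Agent.H256Z.AF.ruled H (by omega) hξΩ
  refine ⟨Submodule.span ℂ {w}, by simpa using hw0, Ω, hop.mem_nhds hξΩ, fun η hη hV => ?_⟩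
  obtain ⟨t, ht⟩ := Submodule.mem_span_singleton.1 hV
  refine (hS' η).2 ⟨hη, fun h => hξ' (hw t ?_)⟩
  rwa [ht, add_sub_cancel]

end Pool.Agent.S03781
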