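import Pool.Statements.S03817
import Pool.Agent.H472Z.FlexMain

set_option autoImplicit false
open Pool Pool.MP_0e2194_an

namespace Pool.Agent.S03817

/-- For all reals l1, l2 with l1+l2>0 there is a smooth map of the 2-torus that preserves volume, is ergodic, and has Lyapunov exponents l1, l2 (top exponent = growth of the derivative norm, sum = growth of the Jacobian) almost everywhere. -/
theorem result :
  ∀ l1 l2 : ℝ, l1 + l2 > 0 →
    ∃ (f : (Fin 2 → UnitAddCircle) → (Fin 2 → UnitAddCircle))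
      (F : (Fin 2 → ℝ) → (Fin 2 → ℝ)),
      ContDiff ℝ (⊤ : ℕ∞) F ∧
      (∀ x : Fin 2 → ℝ,
        f (fun i => ((x i : ℝ) : UnitAddCircle)) = fun i => ((F x i : ℝ) : UnitAddCircle)) ∧
      MeasureTheory.MeasurePreserving f MeasureTheory.volume MeasureTheory.volume ∧
      Ergodic f MeasureTheory.volume ∧
      ∀ᵐ x ∂(MeasureTheory.volume : MeasureTheory.Measure (Fin 2 → ℝ)),
        Filter.Tendsto (fun n : ℕ => (1 / (n : ℝ)) * Real.log ‖fderiv ℝ (F^[n]) x‖)
          Filter.atTop (nhds (max l1 l2)) ∧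
        Filter.Tendsto (fun n : ℕ => (1 / (n : ℝ)) * Real.log |(fderiv ℝ (F^[n]) x).det|)
          Filter.atTop (nhds (l1 + l2)) := by
  intro l1 l2 h
  rcases le_total l1 l2 with h12 | h12
  · rw [max_eq_right h12]
    exact Pool.Agent.H472Z.Flex.main l1 l2 h12 h
  · rw [max_eq_left h12, add_comm]
    exact Pool.Agent.H472Z.Flex.main l2 l1 h12 (by linarith)

end Pool.Agent.S03817
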