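import Pool.Statements.S03831
import Pool.Agent.H40Z.PropBFinal

set_option autoImplicit false
open Pool Pool.MP_0fc439_an

namespace Pool.Agent.S03831

/-- For every sequence of nonzero finite-dimensional real normed spaces, some real Banach space X exists such that the norm-attaining operators from X into their ℓ₁-sum are not dense in the operator norm, i.e. the ℓ₁-sum fails property B. -/
theorem result :
    ∀ (F : ℕ → Type) [∀ n, NormedAddCommGroup (F n)] [∀ n, NormedSpace ℝ (F n)]
      [∀ n, FiniteDimensional ℝ (F n)] [∀ n, Nontrivial (F n)],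
      ∃ (X : Type) (_ : NormedAddCommGroup X) (_ : NormedSpace ℝ X) (_ : CompleteSpace X),
        ¬ Dense {T : X →L[ℝ] lp F 1 | ∃ x : X, ‖x‖ ≤ 1 ∧ ‖T x‖ = ‖T‖} := by
  intro F _ _ _ _
  exact Pool.Agent.H40Z.PropB.main F

end Pool.Agent.S03831
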