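import Pool.Statements.S03851
import Pool.Agent.S05779

set_option autoImplicit false
open Pool Pool.MP_115f17_an

namespace Pool.Agent.S03851

open Filter Topology

open Pool.Agent.S05779 in
/-- The vector: the pattern on the blocks `[4^e, 4^(e+1))` with `e` even, zero on the others. -/
theorem exists_vec : ∃ y : Pool.Agent.S05779.X,
    (∀ e : ℕ, e % 2 = 0 → ∀ m : ℕ, 4 ^ e ≤ m → m < 4 ^ (e + 1) → ((m : ℝ) + 1) * y m = p v m) ∧
    (∀ e : ℕ, e % 2 = 1 → ∀ m : ℕ, 4 ^ e ≤ m → m < 4 ^ (e + 1) → y m = 0) := by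
  classical
  have hp : Tendsto (fun m : ℕ => p v m / (m + 1)) atTop (𝓝 0) := by
    have h1 : Tendsto (fun m : ℕ => Real.sqrt (1 / ((m : ℝ) + 1))) atTop (𝓝 0) := by
      have := (Real.continuous_sqrt.tendsto 0).comp
        (tendsto_one_div_add_atTop_nhds_zero_nat (𝕜 := ℝ))
      rw [Real.sqrt_zero] at this
      exact this
    apply squeeze_zero_norm _ h1
    intro m
    rw [Real.norm_eq_abs]
    apply Real.le_sqrt_of_sq_le
    have h2 := p_bound v v2 m
    have h3 : (0 : ℝ) < (m : ℝ) + 1 := by positivity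
    rw [sq_abs, div_pow, div_le_div_iff₀ (by positivity) h3]
    nlinarith
  let fy : ℕ → ℝ := fun m => if Nat.log 4 m % 2 = 0 then p v m / (m + 1) else 0
  have hfy : Tendsto fy atTop (𝓝 0) := by
    have h1 : Tendsto (fun m : ℕ => |p v m / (m + 1)|) atTop (𝓝 0) := by
      have := hp.abs
      simpa using this
    apply squeeze_zero_norm _ h1
    intro m
    simp only [fy]
    rw [Real.norm_eq_abs]
    split_ifs
    · exact le_rfl
    · rw [abs_zero]; exact abs_nonneg _
  have hlog : ∀ e m : ℕ, 4 ^ e ≤ m → m < 4 ^ (e + 1) → Nat.log 4 m = e := by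
    intro e m h1 h2
    exact Nat.log_eq_of_pow_le_of_lt_pow h1 h2
  refine ⟨mkX fy hfy, ?_, ?_⟩
  · intro e he m h1 h2
    simp only [mkX_apply, fy]
    rw [hlog e m h1 h2, if_pos he]
    field_simp
  · intro e he m h1 h2
    simp only [mkX_apply, fy]
    rw [hlog e m h1 h2, if_neg (by omega)]

/-- A set missing all blocks `[4^e, 4^(e+1))` with `e` odd has no positive density. -/
theorem no_density (A : Set ℕ)
    (hA : ∀ e : ℕ, e % 2 = 1 → ∀ m : ℕ, 4 ^ e ≤ m → m < 4 ^ (e + 1) → m ∉ A) :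
    ¬ ∃ d : ℝ, 0 < d ∧
      Tendsto (fun n : ℕ => (({k : ℕ | k < n ∧ k ∈ A}.ncard : ℕ) : ℝ) / (n : ℝ)) atTop (𝓝 d) := by
  rintro ⟨d, hd, ht⟩
  have h4 : Tendsto (fun e : ℕ => 4 ^ (2 * e + 1)) atTop atTop := by
    apply (tendsto_pow_atTop_atTop_of_one_lt (by norm_num : (1 : ℕ) < 4)).comp
    apply tendsto_atTop_mono (f := fun e : ℕ => e) (fun e => by omega) tendsto_id
  have h5 : Tendsto (fun e : ℕ => 4 ^ (2 * e + 1 + 1)) atTop atTop := by
    apply (tendsto_pow_atTop_atTop_of_one_lt (by norm_num : (1 : ℕ) < 4)).comp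
    apply tendsto_atTop_mono (f := fun e : ℕ => e) (fun e => by omega) tendsto_id
  have t1 := (ht.comp h4).div_const 4
  have t2 := ht.comp h5
  have heq : ((fun n : ℕ => (({k : ℕ | k < n ∧ k ∈ A}.ncard : ℕ) : ℝ) / (n : ℝ)) ∘
      fun e : ℕ => 4 ^ (2 * e + 1 + 1)) = fun e : ℕ =>
      ((fun n : ℕ => (({k : ℕ | k < n ∧ k ∈ A}.ncard : ℕ) : ℝ) / (n : ℝ)) ∘
      fun e : ℕ => 4 ^ (2 * e + 1)) e / 4 := by
    funext e
    simp only [Function.comp]
    have hs : {k : ℕ | k < 4 ^ (2 * e + 1 + 1) ∧ k ∈ A} = {k : ℕ | k < 4 ^ (2 * e + 1) ∧ k ∈ A} := by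
      ext k
      simp only [Set.mem_ofPred_eq]
      constructor
      · rintro ⟨h1, h2⟩
        refine ⟨?_, h2⟩
        by_contra h3
        exact hA (2 * e + 1) (by omega) k (by omega) h1 h2
      · rintro ⟨h1, h2⟩
        refine ⟨lt_of_lt_of_le h1 (Nat.pow_le_pow_right (by norm_num) (by omega)), h2⟩
    rw [hs]
    push_cast
    rw [pow_succ (4 : ℝ) (2 * e + 1)]
    field_simp
  rw [heq] at t2
  have := tendsto_nhds_unique t1 t2
  linarith

/-- Some bounded operator on a real or complex Banach space has a frequently hypercyclic vector x and a nonempty open U such that no subset of the visit set of x in U has a natural density that exists and is positive. -/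
theorem result :
    ∃ (𝕜 : Type) (_ : RCLike 𝕜) (X : Type) (_ : NormedAddCommGroup X)
      (_ : NormedSpace 𝕜 X) (_ : CompleteSpace X) (T : X →L[𝕜] X) (x : X),
      (∀ U : Set X, IsOpen U → U.Nonempty →
        ∃ δ : ℝ, 0 < δ ∧ ∀ᶠ n : ℕ in Filter.atTop,
          δ * (n : ℝ) ≤ (({k : ℕ | k < n ∧ (⇑T)^[k] x ∈ U}.ncard : ℕ) : ℝ)) ∧
      ∃ U : Set X, IsOpen U ∧ U.Nonempty ∧
        ∀ A : Set ℕ, A ⊆ {k : ℕ | (⇑T)^[k] x ∈ U} →
          ¬ ∃ d : ℝ, 0 < d ∧
            Filter.Tendsto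
              (fun n : ℕ => (({k : ℕ | k < n ∧ k ∈ A}.ncard : ℕ) : ℝ) / (n : ℝ))
              Filter.atTop (nhds d) := by
  obtain ⟨y, hy0, hy1⟩ := exists_vec
  have hit : ∀ k : ℕ, (⇑Pool.Agent.S05779.T)^[k] y = (Pool.Agent.S05779.T ^ k) y := by
    intro k
    induction k with
    | zero => rfl
    | succ k ih => rw [Function.iterate_succ_apply', ih, pow_succ']; rfl
  refine ⟨ℝ, inferInstance, Pool.Agent.S05779.X, inferInstance, inferInstance, inferInstance,
    Pool.Agent.S05779.T, y, ?_, ?_⟩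
  · intro U hU hne
    simp only [hit]
    exact Pool.Agent.S05779.fhc_of_phase 0 (by norm_num) y hy0 U hU hne
  · have hc : Continuous (fun x : Pool.Agent.S05779.X => x 0) := by
      refine (LipschitzWith.of_dist_le_mul (K := 1) ?_).continuous
      intro a b
      rw [dist_eq_norm, dist_eq_norm, NNReal.coe_one, one_mul, Real.norm_eq_abs]
      exact Pool.Agent.S05779.abs_le_norm_X (a - b) 0
    refine ⟨{x | x 0 ≠ 0}, isOpen_ne_fun hc continuous_const, ?_, ?_⟩
    · refine ⟨Pool.Agent.S05779.mkX (fun k => 1 / ((k : ℝ) + 1))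
        (tendsto_one_div_add_atTop_nhds_zero_nat (𝕜 := ℝ)), ?_⟩
      simp
    · intro A hA
      apply no_density
      intro e he m h1 h2 hm
      have h3 := hA hm
      simp only [Set.mem_ofPred_eq, hit] at h3
      apply h3
      rw [Pool.Agent.S05779.T_pow_apply, Nat.add_zero, hy1 e he m h1 h2, mul_zero]

end Pool.Agent.S03851
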