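import Pool.Statements.S03878
import Pool.Agent.H547Z.Free.Final

set_option autoImplicit false
open Pool Pool.MP_136c99_an

namespace Pool.Agent.S03878

/-- The negation of the preceding statement: For every pointed proper metric space whose flat-at-infinity little-Lipschitz functions separate points uniformly, its Lipschitz-free space (characterized by its universal property) has the metric approximation property. -/
theorem result :
    ¬ (∀ (M : Type) [MetricSpace M] [ProperSpace M] (x0 : M),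
    (∃ c : ℝ, 1 ≤ c ∧ ∀ x y : M, ∃ f : M → ℝ,
      (∀ a b : M, |f a - f b| ≤ c * dist a b) ∧
      (∀ ε : ℝ, 0 < ε → ∃ η : ℝ, 0 < η ∧
        ∀ a b : M, dist a b < η → |f a - f b| ≤ ε * dist a b) ∧
      (∀ ε : ℝ, 0 < ε → ∃ r : ℝ,
        ∀ a b : M, (r < dist a x0 ∨ r < dist b x0) → |f a - f b| ≤ ε * dist a b) ∧
      f x - f y = dist x y) →
    ∀ (E : Type) [NormedAddCommGroup E] [NormedSpace ℝ E] [CompleteSpace E] (δ : M → E),
      δ x0 = 0 →
      (∀ x y : M, ‖δ x - δ y‖ = dist x y) →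
      Dense ((Submodule.span ℝ (Set.range δ) : Submodule ℝ E) : Set E) →
      (∀ f : M → ℝ, f x0 = 0 → (∀ a b : M, |f a - f b| ≤ dist a b) →
        ∃ φ : E →L[ℝ] ℝ, ‖φ‖ ≤ 1 ∧ ∀ x : M, φ (δ x) = f x) →
      ∀ K : Set E, IsCompact K → ∀ ε : ℝ, 0 < ε →
        ∃ T : E →L[ℝ] E,
          FiniteDimensional ℝ (LinearMap.range (T : E →ₗ[ℝ] E)) ∧ ‖T‖ ≤ 1 ∧
          ∀ z ∈ K, ‖T z - z‖ ≤ ε) := by
  intro h
  obtain ⟨M, i1, i2, x0, hs, E, j1, j2, j3, δ, h0, h1, h2, h3, K, hK, ε, hε, hT⟩ :=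
    Pool.Agent.H547Z.Free.q1
  obtain ⟨D, hD⟩ := Metric.isBounded_iff.1 (isCompact_univ (X := M)).isBounded
  obtain ⟨T, t1, -, t3⟩ := h M x0 ⟨2, by norm_num, fun x y => by
    obtain ⟨f, f1, ⟨η, hη, f2⟩, f3⟩ := hs x y
    refine ⟨f, f1, fun e he => ⟨η, hη, fun a b hab => ?_⟩, fun e he => ⟨D, fun a b hab => ?_⟩, f3⟩
    · rw [f2 a b hab, sub_self, abs_zero]
      positivity
    · have h4 : dist a x0 ≤ D := hD (Set.mem_univ _) (Set.mem_univ _)
      have h5 : dist b x0 ≤ D := hD (Set.mem_univ _) (Set.mem_univ _)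
      rcases hab with h6 | h6 <;> linarith⟩ E δ h0 h1 h2 h3 K hK ε hε
  exact hT T t1 t3

end Pool.Agent.S03878
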