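import Pool.Statements.S03988
-- import your own Pool.Agent.* helpers here

set_option autoImplicit false
open Pool Pool.MP_1c6fe5_an

namespace Pool.Agent.S03988

open Filter Topology

/-- The convergent sequence with its limit point. -/
abbrev K : Type := OnePoint ℕ

/-- The semigroup of all continuous self-maps of `K`. -/
def Sg : Type := C(K, K)

instance : Semigroup Sg where
  mul s t := ContinuousMap.comp (show C(K, K) from s) (show C(K, K) from t)
  mul_assoc _ _ _ := rfl

/-- An element of the semigroup as a continuous map. -/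
def Sg.m (s : Sg) : C(K, K) := s

theorem mul_m (s t : Sg) : (s * t).m = s.m.comp t.m := rfl

/-- constant maps -/
def cst (a : K) : Sg := ContinuousMap.const K a

theorem mul_cst (s : Sg) (a : K) : s * cst a = cst (s.m a) := rfl

/-- follow `u` below `N`, then be constant -/
def cut {Y : Type} [TopologicalSpace Y] (N : ℕ) (u : ℕ → Y) (y : Y) : C(K, Y) where
  toFun := fun k => OnePoint.rec y (fun n => if n < N then u n else y) k
  continuous_toFun := by
    rw [OnePoint.continuous_iff_from_nat]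
    refine tendsto_const_nhds.congr' ?_
    filter_upwards [eventually_ge_atTop N] with n hn
    show y = if n < N then u n else y
    rw [if_neg (not_lt.2 hn)]

theorem cut_infty {Y : Type} [TopologicalSpace Y] (N : ℕ) (u : ℕ → Y) (y : Y) :
    cut N u y OnePoint.infty = y := rfl

theorem cut_coe {Y : Type} [TopologicalSpace Y] (N : ℕ) (u : ℕ → Y) (y : Y) (n : ℕ) :
    cut N u y (n : K) = if n < N then u n else y := rfl

abbrev L : Type := lp (fun _ : Sg => ℝ) ⊤

theorem exists_lim (h : L) : ∃ r : ℝ,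
    Tendsto (fun n : ℕ => h (cst (n : K))) (hyperfilter ℕ) (𝓝 r) := by
  obtain ⟨r, -, hr⟩ := (isCompact_closedBall (0 : ℝ) ‖h‖).ultrafilter_le_nhds
    ((hyperfilter ℕ).map (fun n : ℕ => h (cst (n : K)))) (by
      rw [le_principal_iff, Ultrafilter.mem_coe, Ultrafilter.mem_map]
      apply univ_mem'
      intro n
      simp only [Set.mem_preimage, mem_closedBall_zero_iff]
      exact lp.norm_apply_le_norm (by simp) h _)
  exact ⟨r, hr⟩

/-- limit along the constants as a continuous functional -/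
theorem exists_functional : ∃ Λ : L →L[ℝ] ℝ, ∀ h : L,
    Tendsto (fun n : ℕ => h (cst (n : K))) (hyperfilter ℕ) (𝓝 (Λ h)) := by
  choose l hl using exists_lim
  refine ⟨LinearMap.mkContinuous
    { toFun := l
      map_add' := fun a b => tendsto_nhds_unique (hl (a + b)) ((hl a).add (hl b))
      map_smul' := fun c a => tendsto_nhds_unique (hl (c • a)) ((hl a).const_mul c) } 1 ?_, hl⟩
  intro h
  rw [one_mul]
  exact le_of_tendsto' (hl h).norm (fun n => lp.norm_apply_le_norm (by simp) h _)

theorem wap_const (f : Sg → ℝ) (F : L) (hF : ∀ t, F t = f t)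
    (hc : IsCompact (closure (toWeakSpace ℝ L '' {G : L | ∃ s : Sg, ∀ t : Sg, G t = f (s * t)})))
    (x y : K) : f (cst x) = f (cst y) := by
  let s : ℕ → Sg := fun m => cut m (fun _ => x) y
  let G : ℕ → L := fun m => ⟨fun t => f (s m * t), memℓp_infty ⟨‖F‖, by
    rintro _ ⟨t, rfl⟩
    dsimp only
    rw [← hF]
    exact lp.norm_apply_le_norm (by simp) F _⟩⟩
  have hG : ∀ m t, G m t = f (s m * t) := fun _ _ => rfl
  have hGn : ∀ m n : ℕ, G m (cst (n : K)) = if n < m then f (cst x) else f (cst y) := by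
    intro m n
    rw [hG, mul_cst]
    show f (cst (cut m (fun _ => x) y (n : K))) = _
    rw [cut_coe]
    split_ifs <;> rfl
  obtain ⟨g, -, hg⟩ := hc.ultrafilter_le_nhds
    ((hyperfilter ℕ).map (fun m : ℕ => toWeakSpace ℝ L (G m))) (by
      rw [le_principal_iff, Ultrafilter.mem_coe, Ultrafilter.mem_map]
      apply univ_mem'
      intro m
      exact subset_closure ⟨G m, ⟨s m, hG m⟩, rfl⟩)
  have hg' : Tendsto (fun m : ℕ => toWeakSpace ℝ L (G m)) (hyperfilter ℕ) (𝓝 g) := hg
  have hev : ∀ ψ : L →L[ℝ] ℝ, Tendsto (fun m : ℕ => ψ (G m)) (hyperfilter ℕ)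
      (𝓝 (ψ ((toWeakSpace ℝ L).symm g))) := fun ψ =>
    ((WeakBilin.eval_continuous (topDualPairing ℝ L).flip ψ).tendsto g).comp hg'
  have hle : (hyperfilter ℕ : Filter ℕ) ≤ atTop := Nat.hyperfilter_le_atTop
  set g' : L := (toWeakSpace ℝ L).symm g
  have h1 : ∀ n : ℕ, g' (cst (n : K)) = f (cst x) := by
    intro n
    have h2 := hev (lp.evalCLM ℝ (fun _ : Sg => ℝ) ⊤ (cst (n : K)))
    have h3 : Tendsto (fun m : ℕ => lp.evalCLM ℝ (fun _ : Sg => ℝ) ⊤ (cst (n : K)) (G m))
        (hyperfilter ℕ) (𝓝 (f (cst x))) := by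
      refine tendsto_const_nhds.congr' ?_
      filter_upwards [hle (eventually_gt_atTop n)] with m hm
      show f (cst x) = G m (cst (n : K))
      rw [hGn, if_pos hm]
    exact tendsto_nhds_unique h2 h3
  obtain ⟨Λ, hΛ⟩ := exists_functional
  have h4 : ∀ m, Λ (G m) = f (cst y) := by
    intro m
    refine tendsto_nhds_unique (hΛ (G m)) (tendsto_const_nhds.congr' ?_)
    filter_upwards [hle (eventually_ge_atTop m)] with n hn
    rw [hGn, if_neg (not_lt.2 hn)]
  have h5 : Λ g' = f (cst y) := by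
    refine tendsto_nhds_unique (hev Λ) ?_
    simp only [h4]
    exact tendsto_const_nhds
  have h6 : Λ g' = f (cst x) := by
    refine tendsto_nhds_unique (hΛ g') ?_
    simp only [h1]
    exact tendsto_const_nhds
  rw [← h6, h5]

abbrev X : Type := C(K, ℝ)

/-- the basis vectors -/
noncomputable def e (n : ℕ) : X := cut (n + 1) (fun m => if m = n then 1 else 0) 0

theorem e_infty (n : ℕ) : e n OnePoint.infty = 0 := rfl

theorem e_coe (n m : ℕ) : e n (m : K) = if m = n then 1 else 0 := by
  unfold e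
  rw [cut_coe]
  split_ifs with h1 h2 h2
  · rfl
  · rfl
  · omega
  · rfl

theorem sum_e_infty (F : Finset ℕ) (w : ℕ → ℝ) :
    (∑ n ∈ F, w n • e n) OnePoint.infty = 0 := by
  rw [ContinuousMap.sum_apply]
  simp [e_infty]

theorem sum_e_coe (F : Finset ℕ) (w : ℕ → ℝ) (m : ℕ) :
    (∑ n ∈ F, w n • e n) (m : K) = if m ∈ F then w m else 0 := by
  rw [ContinuousMap.sum_apply]
  simp [e_coe]

theorem e_summable (φ : StrongDual ℝ X) : Summable (fun n => |φ (e n)|) := by
  apply summable_of_sum_le (c := ‖φ‖) (fun z => abs_nonneg _)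
  intro F
  set w : ℕ → ℝ := fun z => if 0 ≤ φ (e z) then 1 else -1 with hw
  have h1 : ∑ z ∈ F, |φ (e z)| = φ (∑ z ∈ F, w z • e z) := by
    rw [map_sum]
    apply Finset.sum_congr rfl
    intro z _
    rw [map_smul, smul_eq_mul]
    simp only [hw]
    split_ifs with h
    · rw [abs_of_nonneg h, one_mul]
    · rw [abs_of_neg (not_le.1 h)]; ring
  have h2 : ‖∑ z ∈ F, w z • e z‖ ≤ 1 := by
    rw [ContinuousMap.norm_le _ zero_le_one]
    intro t
    induction t using OnePoint.rec with
    | infty => rw [sum_e_infty]; simp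
    | coe m =>
      rw [sum_e_coe]
      split_ifs
      · simp only [hw]
        split_ifs <;> simp
      · simp
  rw [h1]
  calc φ (∑ z ∈ F, w z • e z) ≤ ‖φ (∑ z ∈ F, w z • e z)‖ := Real.le_norm_self _
    _ ≤ ‖φ‖ * ‖∑ z ∈ F, w z • e z‖ := φ.le_opNorm _
    _ ≤ ‖φ‖ * 1 := by gcongr
    _ = ‖φ‖ := mul_one _

theorem expand (f : X) : Tendsto
    (fun M => ∑ n ∈ Finset.range M, (f (n : K) - f OnePoint.infty) • e n) atTop
    (𝓝 (f - f OnePoint.infty • (1 : X))) := by
  rw [Metric.tendsto_atTop]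
  intro ε hε
  have h := (OnePoint.continuous_iff_from_nat f).1 f.continuous
  rw [Metric.tendsto_atTop] at h
  obtain ⟨N, hN⟩ := h (ε / 2) (by positivity)
  refine ⟨N, fun M hM => ?_⟩
  refine lt_of_le_of_lt ?_ (half_lt_self hε)
  rw [ContinuousMap.dist_le (by positivity)]
  intro t
  induction t using OnePoint.rec with
  | infty => rw [sum_e_infty]; simp; positivity
  | coe m =>
    rw [sum_e_coe]
    split_ifs with hm
    · simp; positivity
    · have := hN m (by simp at hm; omega)
      rw [Real.dist_eq] at this ⊢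
      simp only [ContinuousMap.sub_apply, ContinuousMap.smul_apply, ContinuousMap.one_apply,
        smul_eq_mul, mul_one, zero_sub, abs_neg]
      exact this.le

/-- point evaluations -/
noncomputable def δ (k : K) : StrongDual ℝ X := ContinuousMap.evalCLM ℝ k

theorem δ_apply (k : K) (f : X) : δ k f = f k := rfl

theorem δ_norm (k : K) : ‖δ k‖ ≤ 1 := by
  apply ContinuousLinearMap.opNorm_le_bound _ zero_le_one
  intro f
  rw [one_mul]
  exact f.norm_coe_le_norm k

theorem gen_summable {E : Type} [NormedAddCommGroup E] [NormedSpace ℝ E]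
    (v : ℕ → StrongDual ℝ E) (c : ℕ → ℝ) (hc : Summable c) (hv : ∀ n, ‖v n‖ ≤ c n) :
    Summable v :=
  Summable.of_norm_bounded (E := E →L[ℝ] ℝ) hc hv

theorem dual_sep : TopologicalSpace.IsSeparable (Set.univ : Set (StrongDual ℝ X)) := by
  have h0 : TopologicalSpace.IsSeparable
      (Submodule.span ℝ (Set.range δ) : Set (StrongDual ℝ X)) :=
    (Set.countable_range δ).isSeparable.span
  refine h0.closure.mono ?_
  intro φ _
  have hs : Summable (fun n : ℕ => φ (e n) • (δ (n : K) - δ OnePoint.infty)) := by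
    refine gen_summable _ _ ((e_summable φ).mul_right 2) ?_
    intro n
    refine ContinuousLinearMap.opNorm_le_bound _ (by positivity) ?_
    intro f
    show |φ (e n) * (f (n : K) - f OnePoint.infty)| ≤ |φ (e n)| * 2 * ‖f‖
    rw [abs_mul, mul_assoc]
    gcongr
    have h1 : |f (n : K)| ≤ ‖f‖ := f.norm_coe_le_norm _
    have h2 : |f OnePoint.infty| ≤ ‖f‖ := f.norm_coe_le_norm _
    have h3 := abs_sub (f (n : K)) (f OnePoint.infty)
    linarith
  have ht := hs.hasSum.tendsto_sum_nat
  have heq : φ = φ 1 • δ OnePoint.infty +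
      ∑' n : ℕ, φ (e n) • (δ (n : K) - δ OnePoint.infty) := by
    ext f
    have h1 := ((ContinuousLinearMap.apply ℝ ℝ f).continuous.tendsto _).comp ht
    have h2 := (φ.continuous.tendsto _).comp (expand f)
    have h3 : (fun M => φ (∑ n ∈ Finset.range M, (f (n : K) - f OnePoint.infty) • e n)) =
        fun M => (∑ n ∈ Finset.range M, φ (e n) • (δ (n : K) - δ OnePoint.infty)) f := by
      funext M
      rw [map_sum, sum_apply]
      apply Finset.sum_congr rfl
      intro n _
      simp [δ_apply, mul_comm]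
    have h4 : Tendsto
        (fun M => φ (∑ n ∈ Finset.range M, (f (n : K) - f OnePoint.infty) • e n)) atTop
        (𝓝 ((∑' n : ℕ, φ (e n) • (δ (n : K) - δ OnePoint.infty)) f)) := by
      rw [h3]; exact h1
    have h5 := tendsto_nhds_unique h2 h4
    rw [add_apply, ← h5]
    simp [δ_apply, mul_comm]
  rw [heq]
  refine mem_closure_of_tendsto (tendsto_const_nhds.add ht) (Eventually.of_forall fun M => ?_)
  refine Submodule.add_mem _ (Submodule.smul_mem _ _ (Submodule.subset_span ⟨_, rfl⟩)) ?_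
  refine Submodule.sum_mem _ fun n _ => Submodule.smul_mem _ _ ?_
  exact Submodule.sub_mem _ (Submodule.subset_span ⟨_, rfl⟩) (Submodule.subset_span ⟨_, rfl⟩)

/-- push-forward of functionals -/
noncomputable def act (s : Sg) (φ : StrongDual ℝ X) : StrongDual ℝ X :=
  φ.comp (ContinuousMap.compCLM ℝ ℝ s.m)

theorem act_apply (s : Sg) (φ : StrongDual ℝ X) (f : X) : act s φ f = φ (f.comp s.m) := rfl

theorem act_norm (s : Sg) (φ : StrongDual ℝ X) : ‖act s φ‖ ≤ ‖φ‖ := by
  refine ContinuousLinearMap.opNorm_le_bound _ (ContinuousLinearMap.opNorm_nonneg φ) ?_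
  intro f
  rw [act_apply]
  refine (φ.le_opNorm _).trans ?_
  gcongr
  rw [ContinuousMap.norm_le _ (norm_nonneg _)]
  intro k
  exact f.norm_coe_le_norm _


/-- The negation of the preceding statement: For every semigroup S: if WAP(S) has a left invariant mean, then every left action of S on a nonempty convex, norm-separable, weak*-compact subset of a real dual Banach space, by norm-nonexpansive weak*-continuous maps, has a common fixed point. -/
theorem result :
    ¬ (∀ (S : Type) [Semigroup S] (W : (S → ℝ) → Prop),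
      (∀ f : S → ℝ, W f ↔
        ∃ F : lp (fun _ : S => ℝ) ⊤, (∀ t, F t = f t) ∧
          IsCompact (closure (toWeakSpace ℝ (lp (fun _ : S => ℝ) ⊤) ''
            {G : lp (fun _ : S => ℝ) ⊤ | ∃ s : S, ∀ t : S, G t = f (s * t)}))) →
      (∃ m : (S → ℝ) → ℝ,
        (∀ f g : S → ℝ, W f → W g → m (f + g) = m f + m g) ∧
        (∀ (c : ℝ) (f : S → ℝ), W f → m (c • f) = c * m f) ∧
        (∀ f : S → ℝ, W f → (∀ t, 0 ≤ f t) → 0 ≤ m f) ∧
        m (fun _ => 1) = 1 ∧
        (∀ (s : S) (f : S → ℝ), W f → m (fun t => f (s * t)) = m f)) →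
      ∀ (X : Type) [NormedAddCommGroup X] [NormedSpace ℝ X] [CompleteSpace X]
        (C : Set (StrongDual ℝ X)) (T : S → StrongDual ℝ X → StrongDual ℝ X),
        C.Nonempty → Convex ℝ C → TopologicalSpace.IsSeparable C →
        IsCompact (StrongDual.toWeakDual '' C) →
        (∀ s, Set.MapsTo (T s) C C) →
        (∀ s t : S, ∀ φ ∈ C, T (s * t) φ = T s (T t φ)) →
        (∀ s : S, ∀ φ ∈ C, ∀ ψ ∈ C, ‖T s φ - T s ψ‖ ≤ ‖φ - ψ‖) →
        (∀ s : S, ContinuousOn
          (fun ω => StrongDual.toWeakDual (T s (StrongDual.toWeakDual.symm ω)))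
          (StrongDual.toWeakDual '' C)) →
        ∃ φ ∈ C, ∀ s : S, T s φ = φ) := by
  intro h
  have key := h Sg _ (fun f => Iff.rfl) ⟨fun f => f (cst OnePoint.infty),
    fun _ _ _ _ => rfl, fun _ _ _ => rfl, fun f _ hf => hf _, rfl, by
      rintro s f ⟨F, hF, hc⟩
      exact wap_const f F hF hc (s.m OnePoint.infty) OnePoint.infty⟩ X {φ | ‖φ‖ ≤ 1 ∧ φ 1 = 1} act
    ⟨δ OnePoint.infty, δ_norm _, rfl⟩ ?_ (dual_sep.mono (Set.subset_univ _)) ?_ ?_ ?_ ?_ ?_
  · obtain ⟨φ, ⟨-, h1⟩, hφ⟩ := key
    have h2 : ∀ k : K, φ (e 0) = e 0 k := by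
      intro k
      conv_lhs => rw [← hφ (cst k), act_apply]
      have : (e 0).comp (cst k).m = e 0 k • (1 : X) := by
        ext t
        simp [cst, Sg.m]
      rw [this, map_smul, h1, smul_eq_mul, mul_one]
    have h3 := h2 OnePoint.infty
    have h4 := h2 ((0 : ℕ) : K)
    rw [e_infty] at h3
    rw [e_coe, if_pos rfl, h3] at h4
    exact zero_ne_one h4
  · rintro φ ⟨h1, h2⟩ ψ ⟨h3, h4⟩ a b ha hb hab
    refine ⟨?_, ?_⟩
    · calc ‖a • φ + b • ψ‖ ≤ ‖a • φ‖ + ‖b • ψ‖ := norm_add_le _ _
        _ = a * ‖φ‖ + b * ‖ψ‖ := by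
          rw [norm_smul, norm_smul, Real.norm_of_nonneg ha, Real.norm_of_nonneg hb]
        _ ≤ a * 1 + b * 1 := by gcongr
        _ = 1 := by linarith
    · simp [h2, h4, hab]
  · have h1 := WeakDual.isCompact_closedBall (0 : StrongDual ℝ X) 1
    have h2 : IsClosed {ω : WeakDual ℝ X | ω 1 = 1} :=
      isClosed_eq (WeakDual.eval_continuous _) continuous_const
    convert h1.inter_right h2 using 1
    ext ω
    constructor
    · rintro ⟨φ, ⟨h3, h4⟩, rfl⟩
      exact ⟨mem_closedBall_zero_iff.2 h3, h4⟩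
    · rintro ⟨h3, h4⟩
      exact ⟨WeakDual.toStrongDual ω, ⟨mem_closedBall_zero_iff.1 h3, h4⟩, rfl⟩
  · rintro s φ ⟨h1, h2⟩
    exact ⟨(act_norm s φ).trans h1, h2⟩
  · intro s t φ _
    rfl
  · intro s φ _ ψ _
    exact act_norm s (φ - ψ)
  · intro s
    apply Continuous.continuousOn
    apply WeakDual.continuous_of_continuous_eval
    intro f
    exact WeakDual.eval_continuous (f.comp s.m)

end Pool.Agent.S03988
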