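import Pool.Statements.S04016
import Pool.Agent.H615Z.RittFinal

set_option autoImplicit false
open Pool Pool.MP_1fc4c0_an

namespace Pool.Agent.S04016

/-- The negation of the preceding statement: For every probability measure on the integers whose Fourier transform has modulus below 1 off 0 mod 2π: the bound ∣1−μ̂(t)∣ ≤ C(1−∣μ̂(t)∣) holds iff n·‖μ^n − μ^(n+1)‖ in ℓ¹ stays bounded. -/
theorem result :
    ¬ (∀ p : ℤ → ℝ, (∀ n, 0 ≤ p n) → Summable p → ∑' n, p n = 1 →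
      (∀ t : ℝ, t ∈ Set.Ioo 0 (2 * Real.pi) →
        ‖∑' n : ℤ, (p n : ℂ) * Complex.exp (Complex.I * (t : ℂ) * (n : ℂ))‖ < 1) →
      ((∃ C : ℝ, ∀ t : ℝ, t ∈ Set.Ioo 0 (2 * Real.pi) →
          ‖1 - ∑' n : ℤ, (p n : ℂ) * Complex.exp (Complex.I * (t : ℂ) * (n : ℂ))‖
            ≤ C * (1 - ‖∑' n : ℤ, (p n : ℂ) * Complex.exp (Complex.I * (t : ℂ) * (n : ℂ))‖)) ↔
       (∃ C : ℝ, ∀ n : ℕ,
          (n : ℝ) * ∑' k : ℤ,
            |((fun f : ℤ → ℝ => fun m : ℤ => ∑' j : ℤ, f j * p (m - j))^[n]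
                (fun m : ℤ => if m = 0 then (1 : ℝ) else 0)) k
              - ((fun f : ℤ → ℝ => fun m : ℤ => ∑' j : ℤ, f j * p (m - j))^[n + 1]
                (fun m : ℤ => if m = 0 then (1 : ℝ) else 0)) k| ≤ C))) := by
  intro h
  have hc0 : ∀ k, 0 ≤ Pool.Agent.H615Z.Ritt.c k := fun k => (Pool.Agent.H615Z.Ritt.c_pos k).le
  have hp := Pool.Agent.H615Z.Ritt.mu_hasSum_one hc0 Pool.Agent.H615Z.Ritt.c_hasSum
  have hf := Pool.Agent.H615Z.Ritt.mu_fourier hc0 Pool.Agent.H615Z.Ritt.c_hasSum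
    (Pool.Agent.H615Z.Ritt.c_pos 0)
  have h1 := h (Pool.Agent.H615Z.Ritt.mu Pool.Agent.H615Z.Ritt.c)
    (Pool.Agent.H615Z.Ritt.mu_nonneg hc0) hp.summable hp.tsum_eq (by
      intro t ht
      obtain ⟨r, r0, r1, hr⟩ := hf t ht
      rw [hr, Complex.norm_real, Real.norm_of_nonneg r0]
      exact r1)
  obtain ⟨C, hC⟩ := h1.1 ⟨1, by
      intro t ht
      obtain ⟨r, r0, r1, hr⟩ := hf t ht
      rw [hr, Complex.norm_real, Real.norm_of_nonneg r0, ← Complex.ofReal_one,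
        ← Complex.ofReal_sub, Complex.norm_real, Real.norm_of_nonneg (by linarith)]
      linarith⟩
  obtain ⟨n, hn⟩ := Pool.Agent.H615Z.Ritt.not_ritt C
  exact absurd (hC n) (not_le.2 hn)

end Pool.Agent.S04016
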