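import Pool.Statements.S04040
import Pool.Agent.H844Z.Final

set_option autoImplicit false
open Filter Topology MeasureTheory
open scoped Classical
open Pool Pool.MP_20f905_an

namespace Pool.Agent.S04040

/-- The negation of the preceding statement: For a residual set of Lebesgue-preserving automorphisms T of [0,1] (weak topology), any automorphism S with T^-n S T^n close to the identity along a density-one set of n, for every weak neighborhood, is the identity a.e. -/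
theorem result :
    ¬ (Filter.Eventually
      (fun T : {T : ℝ ≃ᵐ ℝ // MeasurePreserving (T : ℝ → ℝ) (volume.restrict (Set.Icc (0:ℝ) 1))
            (volume.restrict (Set.Icc (0:ℝ) 1))} =>
        ∀ S : ℝ ≃ᵐ ℝ,
          MeasurePreserving (S : ℝ → ℝ) (volume.restrict (Set.Icc (0:ℝ) 1))
            (volume.restrict (Set.Icc (0:ℝ) 1)) →
          (∀ A : Set ℝ, MeasurableSet A → ∀ ε : ℝ, 0 < ε →
            Tendsto (fun N : ℕ =>
              (((Finset.Icc 1 N).filter (fun n : ℕ =>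
                  (volume.restrict (Set.Icc (0:ℝ) 1))
                    (symmDiff
                      ((((T.1.symm : ℝ ≃ᵐ ℝ) : ℝ → ℝ)^[n] ∘ (S : ℝ → ℝ) ∘
                          ((T.1 : ℝ ≃ᵐ ℝ) : ℝ → ℝ)^[n]) ⁻¹' A) A)
                    < ENNReal.ofReal ε)).card : ℝ) / (N : ℝ))
              atTop (𝓝 1)) →
          ∀ᵐ x ∂(volume.restrict (Set.Icc (0:ℝ) 1)), S x = x)
      (@residual
        {T : ℝ ≃ᵐ ℝ // MeasurePreserving (T : ℝ → ℝ) (volume.restrict (Set.Icc (0:ℝ) 1))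
            (volume.restrict (Set.Icc (0:ℝ) 1))}
        (TopologicalSpace.generateFrom
          {U | ∃ T₀ : {T : ℝ ≃ᵐ ℝ // MeasurePreserving (T : ℝ → ℝ)
                  (volume.restrict (Set.Icc (0:ℝ) 1)) (volume.restrict (Set.Icc (0:ℝ) 1))},
              ∃ A : Set ℝ, MeasurableSet A ∧ ∃ δ : ℝ, 0 < δ ∧
              U = {S : {T : ℝ ≃ᵐ ℝ // MeasurePreserving (T : ℝ → ℝ)
                      (volume.restrict (Set.Icc (0:ℝ) 1)) (volume.restrict (Set.Icc (0:ℝ) 1))} |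
                    (volume.restrict (Set.Icc (0:ℝ) 1))
                      (symmDiff (((S.1 : ℝ ≃ᵐ ℝ) : ℝ → ℝ) ⁻¹' A)
                        (((T₀.1 : ℝ ≃ᵐ ℝ) : ℝ → ℝ) ⁻¹' A)) < ENNReal.ofReal δ}}))) := by
  intro H
  rw [Pool.Agent.H844Z.top_gen] at H
  let τ : TopologicalSpace Pool.Agent.H844Z.Aut :=
    TopologicalSpace.induced Pool.Agent.H844Z.autEquiv inferInstance
  let e : Pool.Agent.H844Z.Aut ≃ₜ Pool.Agent.H844Z.G :=
    Equiv.toHomeomorphOfIsInducing Pool.Agent.H844Z.autEquiv ⟨rfl⟩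
  rw [← e.symm.residual_map_eq, Filter.eventually_map] at H
  obtain ⟨T, hT, S, hS1, hS2⟩ := Pool.Agent.H844Z.exists_in_residual H
  refine hS1 (hT (Pool.Agent.H844Z.toEquiv S) (Pool.Agent.H844Z.MP.mp S) fun A hA ε hε => ?_)
  refine (hS2 A hA ε hε).congr fun N => ?_
  congr 3
  refine Finset.filter_congr fun n _ => ?_
  rw [ENNReal.lt_ofReal_iff_toReal_lt (measure_ne_top _ _)]
  have h : ((T⁻¹ ^ n * S * T ^ n).1 : ℝ → ℝ) =
      ((T⁻¹).1 : ℝ → ℝ)^[n] ∘ (S.1 : ℝ → ℝ) ∘ (T.1 : ℝ → ℝ)^[n] := by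
    rw [Equiv.Perm.iterate_eq_pow, Equiv.Perm.iterate_eq_pow]
    rfl
  unfold Pool.Agent.H844Z.sd
  rw [h]
  rfl

end Pool.Agent.S04040
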