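import Pool.Statements.S04080
import Pool.Agent.H503Z.OpLip

set_option autoImplicit false
open Pool Pool.MP_24fbf1_an

namespace Pool.Agent.S04080

/-- The negation of the preceding statement: If f is operator Lipschitz on [a,b] (uniform bound on ‖f(A)−f(B)‖ by C‖A−B‖ for self-adjoint A,B with spectrum in [a,b]) and has nonzero derivative at every point of [a,b], then its inverse is operator Lipschitz on the interval between f(a) and f(b). -/
theorem result :
    ¬ (∀ (f : ℝ → ℝ) (a b : ℝ),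
      (ContinuousOn f (Set.Icc a b) ∧
        ∃ C : ℝ, ∀ (H : Type) [NormedAddCommGroup H] [InnerProductSpace ℂ H] [CompleteSpace H],
          ∀ A B : H →L[ℂ] H, IsSelfAdjoint A → IsSelfAdjoint B →
            spectrum ℝ A ⊆ Set.Icc a b → spectrum ℝ B ⊆ Set.Icc a b →
              ‖cfc f A - cfc f B‖ ≤ C * ‖A - B‖) →
      (∀ x ∈ Set.Icc a b, ∃ d : ℝ, d ≠ 0 ∧ HasDerivWithinAt f d (Set.Icc a b) x) →
      ∃ g : ℝ → ℝ, (∀ x ∈ Set.Icc a b, g (f x) = x) ∧
        (ContinuousOn g (Set.uIcc (f a) (f b)) ∧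
          ∃ C : ℝ, ∀ (H : Type) [NormedAddCommGroup H] [InnerProductSpace ℂ H] [CompleteSpace H],
            ∀ A B : H →L[ℂ] H, IsSelfAdjoint A → IsSelfAdjoint B →
              spectrum ℝ A ⊆ Set.uIcc (f a) (f b) → spectrum ℝ B ⊆ Set.uIcc (f a) (f b) →
                ‖cfc g A - cfc g B‖ ≤ C * ‖A - B‖)) := by
  intro H0
  open Pool.Agent.H503Z.OpLip in
  obtain ⟨g, hg, -, C, hC⟩ := H0 f 0 1
    ⟨f_cont.continuousOn, 14, fun H _ _ _ A B hA hB sA sB => f_lip hA hB sA sB⟩ (by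
      intro x hx
      rcases eq_or_lt_of_le hx.1 with h | h
      · subst h
        exact ⟨1, one_ne_zero, f_deriv0.hasDerivWithinAt⟩
      · refine ⟨_, ne_of_gt ?_, (f_deriv h.ne').hasDerivWithinAt⟩
        have h1 := Real.neg_one_le_sin x⁻¹
        have h2 := Real.cos_le_one x⁻¹
        nlinarith)
  open Pool.Agent.H503Z.OpLip in
  refine not_lip C fun x hx y hy => ?_
  have sub : Set.Icc (0 : ℝ) (1 / 2) ⊆ Set.Icc 0 1 := Set.Icc_subset_Icc le_rfl (by norm_num)
  have sa : ∀ s : ℝ, IsSelfAdjoint (algebraMap ℝ (ℂ →L[ℂ] ℂ) s) := fun s =>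
    IsSelfAdjoint.algebraMap _ (IsSelfAdjoint.all s)
  open Pool.Agent.H503Z.OpLip in
  have := hC ℂ (algebraMap ℝ _ (f x)) (algebraMap ℝ _ (f y)) (sa _) (sa _)
    (by rw [spectrum.scalar_eq]; exact Set.singleton_subset_iff.2 (f_range hx.1 hx.2))
    (by rw [spectrum.scalar_eq]; exact Set.singleton_subset_iff.2 (f_range hy.1 hy.2))
  rw [cfc_algebraMap, cfc_algebraMap, hg x (sub hx), hg y (sub hy), ← map_sub, ← map_sub,
    norm_algebraMap', norm_algebraMap'] at this
  exact this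

end Pool.Agent.S04080
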