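import Pool.Statements.S04104
import Pool.Agent.H596Z.Asd.Model

set_option autoImplicit false
open Classical
open Pool Pool.MP_270856_an

namespace Pool.Agent.S04104

/-- The negation of the preceding statement: For uniformly locally finite metric spaces X, Y, if the uniform Roe algebra of X embeds injectively as a *-algebra into that of Y, then asdim X ≤ asdim Y (every n bounding asdim Y also bounds asdim X). -/
theorem result :
    ¬ (∀ (X Y : Type) [MetricSpace X] [MetricSpace Y],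
    (∀ r : ℝ, ∃ N : ℕ, ∀ x : X,
        (Metric.closedBall x r).Finite ∧ (Metric.closedBall x r).ncard ≤ N) →
    (∀ r : ℝ, ∃ N : ℕ, ∀ y : Y,
        (Metric.closedBall y r).Finite ∧ (Metric.closedBall y r).ncard ≤ N) →
    (∃ Φ : (StarAlgebra.adjoin ℂ
              {T : lp (fun _ : X => ℂ) 2 →L[ℂ] lp (fun _ : X => ℂ) 2 |
                ∃ R : ℝ, ∀ a b : X, R < dist a b →
                  inner ℂ (lp.single (E := fun _ : X => ℂ) 2 a (1 : ℂ))
                    (T (lp.single (E := fun _ : X => ℂ) 2 b (1 : ℂ))) = 0}).topologicalClosure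
            →⋆ₙₐ[ℂ]
           (StarAlgebra.adjoin ℂ
              {T : lp (fun _ : Y => ℂ) 2 →L[ℂ] lp (fun _ : Y => ℂ) 2 |
                ∃ R : ℝ, ∀ a b : Y, R < dist a b →
                  inner ℂ (lp.single (E := fun _ : Y => ℂ) 2 a (1 : ℂ))
                    (T (lp.single (E := fun _ : Y => ℂ) 2 b (1 : ℂ))) = 0}).topologicalClosure,
        Function.Injective Φ) →
    ∀ n : ℕ,
      (∀ R : ℝ, 0 < R → ∃ U : Fin (n + 1) → Set (Set Y),
        (∃ D : ℝ, ∀ i, ∀ A ∈ U i, ∀ a ∈ A, ∀ b ∈ A, dist a b ≤ D) ∧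
        (∀ z : Y, ∃ i, ∃ A ∈ U i, z ∈ A) ∧
        (∀ i, ∀ A ∈ U i, ∀ B ∈ U i, A ≠ B → ∀ a ∈ A, ∀ b ∈ B, R < dist a b)) →
      (∀ R : ℝ, 0 < R → ∃ U : Fin (n + 1) → Set (Set X),
        (∃ D : ℝ, ∀ i, ∀ A ∈ U i, ∀ a ∈ A, ∀ b ∈ A, dist a b ≤ D) ∧
        (∀ z : X, ∃ i, ∃ A ∈ U i, z ∈ A) ∧
        (∀ i, ∀ A ∈ U i, ∀ B ∈ U i, A ≠ B → ∀ a ∈ A, ∀ b ∈ B, R < dist a b))) := by
  intro H
  obtain ⟨F, hF⟩ := Pool.Agent.H596Z.Asd.main
  have key : ∀ (Z : Type) [MetricSpace Z], (StarAlgebra.adjoin ℂ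
      {T : lp (fun _ : Z => ℂ) 2 →L[ℂ] lp (fun _ : Z => ℂ) 2 |
        ∃ R : ℝ, ∀ a b : Z, R < dist a b →
          inner ℂ (lp.single (E := fun _ : Z => ℂ) 2 a (1 : ℂ))
            (T (lp.single (E := fun _ : Z => ℂ) 2 b (1 : ℂ))) = 0}).topologicalClosure =
      Pool.Agent.H596Z.Roe.UR Z := by
    intro Z _
    apply Pool.Agent.H596Z.Roe.adjoin_eq
    ext a
    simp only [Pool.Agent.H812R3.KP.dl_eq_single, Pool.Agent.H596Z.Roe.FP, Set.mem_ofPred_eq,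
      Pool.Agent.H812R3.KP.ent_eq_inner]
  have H' := @H (ℕ × ℤ) Pool.Agent.H596Z.Asd.YY Pool.Agent.H596Z.Asd.gX.metric
    Pool.Agent.H596Z.Asd.gY.metric (Pool.Agent.H596Z.Asd.ga_ulf _ _)
    (Pool.Agent.H596Z.Asd.ga_ulf _ _)
  rw [@key _ Pool.Agent.H596Z.Asd.gX.metric, @key _ Pool.Agent.H596Z.Asd.gY.metric] at H'
  obtain ⟨U, h1, h2, h3⟩ := H' ⟨
    { toFun := fun a => ⟨F.Φ a, hF a a.2⟩
      map_smul' := fun c a => Subtype.ext (F.Φ_smul c a)
      map_zero' := Subtype.ext F.Φ_zero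
      map_add' := fun a b => Subtype.ext (F.Φ_add a b)
      map_mul' := fun a b => Subtype.ext (F.Φ_mul a b)
      map_star' := fun a => Subtype.ext (F.Φ_star a) },
    fun a b hab => Subtype.ext (F.Φ_inj (congrArg Subtype.val hab))⟩ 1
    (fun R _ => Pool.Agent.H596Z.Asd.asdim_Y R) 6 (by norm_num)
  exact Pool.Agent.H596Z.Asd.asdim_X U h1 h2 h3

end Pool.Agent.S04104
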