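import Pool.Statements.S04138
import Pool.Agent.H684Z.QS.Crit

set_option autoImplicit false
open Filter Topology
open Pool Pool.MP_28f04c_an

namespace Pool.Agent.S04138

/-- The negation of the preceding statement: There is a complex polynomial of degree at least 2 whose critical orbits stay away from its Julia set (hyperbolic). Its Julia set is connected and has only finitely many quasisymmetric self-homeomorphisms. -/
theorem result :
    ¬ (∃ f : Polynomial ℂ, ∃ J : Set ℂ,
      2 ≤ f.natDegree ∧
      J = frontier {z : ℂ | Bornology.IsBounded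
            (Set.range (fun n : ℕ => (fun w : ℂ => f.eval w)^[n] z))} ∧
      Disjoint (closure (⋃ c ∈ {c : ℂ | f.derivative.eval c = 0},
            Set.range (fun n : ℕ => (fun w : ℂ => f.eval w)^[n] c))) J ∧
      IsConnected J ∧
      Set.Finite {h : J ≃ₜ J | ∃ η : ℝ → ℝ, η 0 = 0 ∧
          StrictMonoOn η (Set.Ici 0) ∧ ContinuousOn η (Set.Ici 0) ∧
          Tendsto η atTop atTop ∧
          ∀ a x y : J, y ≠ a →
            dist (h x) (h a) ≤ η (dist x a / dist y a) * dist (h y) (h a)}) := by
  rintro ⟨f, J, hf, rfl, hP, hJ, hfin⟩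
  obtain ⟨R, h⟩ := H684Z.QS.exists_pol f hf
  obtain ⟨c, hc⟩ := Complex.exists_root (f := f.derivative) (by
    rw [← Polynomial.natDegree_pos_iff_degree_pos, Polynomial.natDegree_derivative]
    omega)
  refine h.infinite hJ (c := c) (by rw [Polynomial.deriv]; exact hc) isClosed_closure hP
    (fun c hc k => subset_closure (Set.mem_iUnion₂.2 ⟨c, by rwa [Polynomial.deriv] at hc, k, rfl⟩))
    (hfin.subset ?_)
  rintro g ⟨K, hK, hg⟩
  refine ⟨fun t => K * K * t, by simp, fun s _ t _ hst => mul_lt_mul_of_pos_left hst (by positivity),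
    by fun_prop, tendsto_id.const_mul_atTop (by positivity), fun a x y hy => ?_⟩
  have h1 := (hg x a).1
  have h2 := (hg y a).2
  have h3 : 0 < dist y a := dist_pos.2 hy
  have h4 : 0 ≤ K * (dist x a / dist y a) := by positivity
  calc dist (g x) (g a) ≤ K * dist x a := h1
    _ = K * (dist x a / dist y a) * dist y a := by field_simp
    _ ≤ K * (dist x a / dist y a) * (K * dist (g y) (g a)) := mul_le_mul_of_nonneg_left h2 h4
    _ = _ := by ring

end Pool.Agent.S04138
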