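import Pool.Statements.S04181
import Pool.Agent.H256Z.TB.Main

set_option autoImplicit false
open ComplexConjugate
open Pool Pool.MP_2c8680_an

namespace Pool.Agent.S04181

/-- In the tiling by a convex cyclic quadrilateral and its midpoint reflections, no closed billiard path avoiding vertices and refracting with index minus one at edges has a tile lying in the bounded part of its complement. -/
theorem result :
    ∀ A B C D : ℂ,
      (∃ c : ℂ, ∃ r : ℝ, dist A c = r ∧ dist B c = r ∧ dist C c = r ∧ dist D c = r) →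
      0 < (conj (B - A) * (C - B)).im →
      0 < (conj (C - B) * (D - C)).im →
      0 < (conj (D - C) * (A - D)).im →
      0 < (conj (A - D) * (B - A)).im →
      ∀ n : ℕ, 0 < n → ∀ p : ℕ → ℂ, (∀ i, p (i + n) = p i) →
      (∀ i : ℕ, ∃ s t : ℂ, (s = 1 ∨ s = -1) ∧
          (∃ m k : ℤ, t = (1 - s) / 2 * (A + B) + (m : ℂ) * (A - C) + (k : ℂ) * (B - D)) ∧
          openSegment ℝ (p i) (p (i + 1)) ⊆
            interior ((fun z : ℂ => s * z + t) '' convexHull ℝ {A, B, C, D})) →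
      (∀ i : ℕ, ∃ s t : ℂ, (s = 1 ∨ s = -1) ∧
          (∃ m k : ℤ, t = (1 - s) / 2 * (A + B) + (m : ℂ) * (A - C) + (k : ℂ) * (B - D)) ∧
          ∃ X Y : ℂ, ((X = A ∧ Y = B) ∨ (X = B ∧ Y = C) ∨ (X = C ∧ Y = D) ∨ (X = D ∧ Y = A)) ∧
            p (i + 1) ∈ openSegment ℝ (s * X + t) (s * Y + t) ∧
            ∃ l : ℝ, 0 < l ∧
              (p (i + 2) - p (i + 1)) * conj (Y - X) = (l : ℂ) * (-((Y - X) * conj (p (i + 1) - p i)))) →
      ∀ s t : ℂ, (s = 1 ∨ s = -1) →
        (∃ m k : ℤ, t = (1 - s) / 2 * (A + B) + (m : ℂ) * (A - C) + (k : ℂ) * (B - D)) →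
        ¬ ((fun z : ℂ => s * z + t) '' convexHull ℝ {A, B, C, D} ⊆
            {z : ℂ | z ∉ (⋃ i : ℕ, segment ℝ (p i) (p (i + 1))) ∧
              Bornology.IsBounded
                (connectedComponentIn (⋃ i : ℕ, segment ℝ (p i) (p (i + 1)))ᶜ z)}) := by
  intro A B C D hc h1 h2 h3 h4 N hN p hper hseg hedge s0 t0 hs0 ht0
  obtain ⟨c, r, hA, hB, hC, hD⟩ := hc
  rw [Complex.dist_eq] at hA hB hC hD
  obtain ⟨hr, θ, α, hα, hP, eA, eB, eC, eD⟩ := H256Z.TB.angles (A - c) (B - c) (C - c) (D - c) r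
    hA hB hC hD (by simpa using h1) (by simpa using h3)
  have hΔ : (conj (C - A) * (B - D)).im < 0 := by
    simp at h1 h3 ⊢
    nlinarith
  have hx0 : 0 < (conj (B - A) * (B - D)).im / (conj (C - A) * (B - D)).im := by
    apply div_pos_of_neg_of_neg _ hΔ
    simp at h4 ⊢
    nlinarith
  have hx1 : (conj (B - A) * (B - D)).im / (conj (C - A) * (B - D)).im < 1 := by
    rw [div_lt_one_of_neg hΔ]
    simp at h2 ⊢
    nlinarith
  have hy0 : 0 < (conj (C - A) * (B - A)).im / (conj (C - A) * (B - D)).im := by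
    apply div_pos_of_neg_of_neg _ hΔ
    simp at h1 ⊢
    nlinarith
  have hy1 : (conj (C - A) * (B - A)).im / (conj (C - A) * (B - D)).im < 1 := by
    rw [div_lt_one_of_neg hΔ]
    simp at h3 ⊢
    nlinarith
  let q : H256Z.TB.Qd := ⟨A, C - A, B - D, _, _, hx0, hx1, hy0, hy1, hΔ.ne⟩
  have qA : q.A = A := rfl
  have qu : q.u = C - A := rfl
  have qv : q.v = B - D := rfl
  have qB : q.pt q.x q.y = B := by
    have hne := hΔ.ne
    have e1 : (q.x : ℝ) * (conj (C - A) * (B - D)).im = (conj (B - A) * (B - D)).im :=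
      div_mul_cancel₀ _ hne
    have e2 : (q.y : ℝ) * (conj (C - A) * (B - D)).im = (conj (C - A) * (B - A)).im :=
      div_mul_cancel₀ _ hne
    simp only [H256Z.TB.Qd.pt, qA, qu, qv]
    generalize q.x = x at *
    generalize q.y = y at *
    apply Complex.ext
    · apply mul_right_cancel₀ hne
      simp only [map_sub, Complex.mul_im, Complex.mul_re, Complex.sub_re, Complex.sub_im, Complex.add_re,
        Complex.add_im, Complex.conj_re, Complex.conj_im, Complex.ofReal_re, Complex.ofReal_im] at e1 e2 ⊢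
      linear_combination (C.re - A.re) * e1 + (B.re - D.re) * e2
    · apply mul_right_cancel₀ hne
      simp only [map_sub, Complex.mul_im, Complex.mul_re, Complex.sub_re, Complex.sub_im, Complex.add_re,
        Complex.add_im, Complex.conj_re, Complex.conj_im, Complex.ofReal_re, Complex.ofReal_im] at e1 e2 ⊢
      linear_combination (C.im - A.im) * e1 + (B.im - D.im) * e2
  have hev : ∀ (i j m k : ℤ), i = m + k → j = m - k →
      q.pos i j = A + (m * (C - A) + k * (B - D)) := by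
    intro i j m k a b
    rw [q.pos_ev m k a b]
    simp only [H256Z.TB.Qd.pt, qA, qu, qv]
    push_cast; ring
  have hod : ∀ (i j m k : ℤ), i = m + k + 1 → j = m - k →
      q.pos i j = B + (m * (C - A) + k * (B - D)) := by
    intro i j m k a b
    rw [q.pos_od m k a b, q.pt_shift, qB, qu, qv]
    push_cast; ring
  have hcorner : ∀ s t : ℂ, (s = 1 ∨ s = -1) →
      (∃ m k : ℤ, t = (1 - s) / 2 * (A + B) + (m : ℂ) * (A - C) + (k : ℂ) * (B - D)) →
      ∃ i j : ℤ, (q.pos i j = s * A + t ∧ q.pos (i + 1) j = s * B + t ∧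
        q.pos (i + 1) (j + 1) = s * C + t ∧ q.pos i (j + 1) = s * D + t) ∨
        (q.pos i j = s * C + t ∧ q.pos (i + 1) j = s * D + t ∧
        q.pos (i + 1) (j + 1) = s * A + t ∧ q.pos i (j + 1) = s * B + t) := by
    rintro s t (rfl | rfl) ⟨m, k, rfl⟩
    · refine ⟨-m + k, -m - k, Or.inl ⟨?_, ?_, ?_, ?_⟩⟩
      · rw [hev _ _ (-m) k rfl rfl]; push_cast; ring
      · rw [hod _ _ (-m) k rfl rfl]; push_cast; ring
      · rw [hev _ _ (-m + 1) k (by ring) (by ring)]; push_cast; ring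
      · rw [hod _ _ (-m) (k - 1) (by ring) (by ring)]; push_cast; ring
    · refine ⟨-m + k, -m - 1 - k, Or.inr ⟨?_, ?_, ?_, ?_⟩⟩
      · rw [hod _ _ (-m - 1) k (by ring) (by ring)]; push_cast; ring
      · rw [hev _ _ (-m) (k + 1) (by ring) (by ring)]; push_cast; ring
      · rw [hod _ _ (-m) k (by ring) (by ring)]; push_cast; ring
      · rw [hev _ _ (-m) k (by ring) (by ring)]; push_cast; ring
  have htile : ∀ s t : ℂ, (s = 1 ∨ s = -1) →
      (∃ m k : ℤ, t = (1 - s) / 2 * (A + B) + (m : ℂ) * (A - C) + (k : ℂ) * (B - D)) →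
      ∃ i j : ℤ, (fun z : ℂ => s * z + t) '' convexHull ℝ {A, B, C, D} = q.tile i j := by
    intro s t hs ht
    obtain ⟨i, j, h⟩ := hcorner s t hs ht
    refine ⟨i, j, ?_⟩
    have himg := AffineMap.image_convexHull
      ((LinearMap.mul ℝ ℂ s).toAffineMap + AffineMap.const ℝ ℂ t) ({A, B, C, D} : Set ℂ)
    have hf : ⇑((LinearMap.mul ℝ ℂ s).toAffineMap + AffineMap.const ℝ ℂ t) =
        fun z : ℂ => s * z + t := by
      funext z; simp
    rw [hf] at himg
    rw [himg, H256Z.TB.Qd.tile]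
    congr 1
    simp only [Set.image_insert_eq, Set.image_singleton]
    rcases h with ⟨a, b, c', d⟩ | ⟨a, b, c', d⟩
    · rw [a, b, c', d]
    · rw [a, b, c', d]
      ext z
      simp only [Set.mem_insert_iff, Set.mem_singleton_iff]
      tauto
  obtain ⟨a, b, hab⟩ := htile s0 t0 hs0 ht0
  rw [hab]
  refine q.core c r θ hr α hα hP eA (by rw [qB]; exact eB) (by rw [qA, qu, ← eC]; ring)
    (by rw [qB, qv, ← eD]; ring) N hN p hper ?_ ?_ a b
  · intro n
    obtain ⟨s, t, hs, ht, h⟩ := hseg n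
    obtain ⟨i, j, e⟩ := htile s t hs ht
    exact ⟨i, j, e ▸ h⟩
  · intro n
    obtain ⟨s, t, hs, ht, X, Y, hXY, hm, l, hl, hlaw⟩ := hedge n
    obtain ⟨i, j, h⟩ := hcorner s t hs ht
    have key : ∃ i j i' j', H256Z.TB.Qd.Adjc i j i' j' ∧
        ((q.pos i j = s * X + t ∧ q.pos i' j' = s * Y + t) ∨
          (q.pos i j = s * Y + t ∧ q.pos i' j' = s * X + t)) := by
      rcases h with ⟨a, b, c', d⟩ | ⟨a, b, c', d⟩ <;>
        rcases hXY with ⟨rfl, rfl⟩ | ⟨rfl, rfl⟩ | ⟨rfl, rfl⟩ | ⟨rfl, rfl⟩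
      · exact ⟨_, _, _, _, Or.inl ⟨rfl, rfl⟩, Or.inl ⟨a, b⟩⟩
      · exact ⟨_, _, _, _, Or.inr ⟨rfl, rfl⟩, Or.inl ⟨b, c'⟩⟩
      · exact ⟨_, _, _, _, Or.inl ⟨rfl, rfl⟩, Or.inr ⟨d, c'⟩⟩
      · exact ⟨_, _, _, _, Or.inr ⟨rfl, rfl⟩, Or.inr ⟨a, d⟩⟩
      · exact ⟨_, _, _, _, Or.inl ⟨rfl, rfl⟩, Or.inr ⟨d, c'⟩⟩
      · exact ⟨_, _, _, _, Or.inr ⟨rfl, rfl⟩, Or.inr ⟨a, d⟩⟩
      · exact ⟨_, _, _, _, Or.inl ⟨rfl, rfl⟩, Or.inl ⟨a, b⟩⟩
      · exact ⟨_, _, _, _, Or.inr ⟨rfl, rfl⟩, Or.inl ⟨b, c'⟩⟩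
    obtain ⟨i1, j1, i2, j2, ha, ⟨e1, e2⟩ | ⟨e1, e2⟩⟩ := key
    · refine ⟨i1, j1, i2, j2, ha, by rw [e1, e2]; exact hm, l, hl, ?_⟩
      rw [e1, e2]
      rcases hs with rfl | rfl
      · simpa using hlaw
      · simp only [map_sub, map_add, map_mul, map_neg, map_one] at hlaw ⊢
        linear_combination -hlaw
    · refine ⟨i1, j1, i2, j2, ha, by rw [e1, e2, openSegment_symm]; exact hm, l, hl, ?_⟩
      rw [e1, e2]
      rcases hs with rfl | rfl
      · simp only [map_sub, map_add, map_mul, map_neg, map_one] at hlaw ⊢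
        linear_combination -hlaw
      · simp only [map_sub, map_add, map_mul, map_neg, map_one] at hlaw ⊢
        linear_combination hlaw

end Pool.Agent.S04181
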