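import Pool.Statements.S04186
import Pool.Agent.H156Z.DBMain

set_option autoImplicit false
open Pool Pool.MP_2cd50e_an

namespace Pool.Agent.S04186

/-- The negation of the preceding statement: If B_1>0,B_2,…,B_r make composition with B a contraction of the indefinite space D_r^ν for every real ν, then some injective holomorphic self-map of the disk fixing 0 has Taylor coefficients B_1,…,B_r. -/
theorem result :
    ¬ (∀ r : ℕ, 1 ≤ r → ∀ b : ℕ → ℂ, (b 1 = (((b 1).re : ℝ) : ℂ)) → 0 < (b 1).re →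
      (∀ ν : ℝ, ∀ a : ℕ → ℂ,
        ∑ m ∈ Finset.Icc 1 r, (ν + (m : ℝ)) *
          ‖∑ n ∈ Finset.Icc 1 m, a n * ((((b 1).re ^ (ν + (n : ℝ)) : ℝ)) : ℂ) *
            ∑ j ∈ Finset.range (m - n + 1),
              (∏ i ∈ Finset.range j, ((((ν + (n : ℝ)) : ℝ) : ℂ) - (i : ℂ))) / ((j.factorial : ℕ) : ℂ) *
              ((∑ k ∈ Finset.Ico 1 r, Polynomial.C (b (k + 1) / b 1) * Polynomial.X ^ k) ^ j).coeff (m - n)‖ ^ 2
        ≤ ∑ n ∈ Finset.Icc 1 r, (ν + (n : ℝ)) * ‖a n‖ ^ 2) →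
      ∃ B : ℂ → ℂ, DifferentiableOn ℂ B (Metric.ball (0 : ℂ) 1) ∧
        Set.InjOn B (Metric.ball (0 : ℂ) 1) ∧
        Set.MapsTo B (Metric.ball (0 : ℂ) 1) (Metric.ball (0 : ℂ) 1) ∧
        B 0 = 0 ∧
        ∀ n ∈ Finset.Icc 1 r, iteratedDeriv n B 0 / ((n.factorial : ℕ) : ℂ) = b n) := by
  intro h
  have b1 : Pool.Agent.H156Z.DB.bb 1 = (Pool.Agent.H156Z.DB.b0 : ℂ) := by
    simp [Pool.Agent.H156Z.DB.bb]
  have hb : (Pool.Agent.H156Z.DB.b0 : ℂ) ≠ 0 := by
    exact_mod_cast Pool.Agent.H156Z.DB.b0_pos.ne'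
  have b2 : Pool.Agent.H156Z.DB.bb 2 / (Pool.Agent.H156Z.DB.b0 : ℂ) = 9 / 5 := by
    simp [Pool.Agent.H156Z.DB.bb, hb]
  have b3 : Pool.Agent.H156Z.DB.bb 3 / (Pool.Agent.H156Z.DB.b0 : ℂ) = 71 / 25 := by
    simp [Pool.Agent.H156Z.DB.bb, hb]
  refine Pool.Agent.H156Z.DB.no_map (h 3 (by norm_num) Pool.Agent.H156Z.DB.bb ?_ ?_ ?_)
  · rw [b1]; simp
  · rw [b1]; simpa using Pool.Agent.H156Z.DB.b0_pos
  · intro ν a
    have key := Pool.Agent.H156Z.DB.cx_contr (ν + 1) (a 1) (a 2) (a 3)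
    have i3 : Finset.Icc 1 3 = {1, 2, 3} := by decide
    have i2 : Finset.Icc 1 2 = {1, 2} := by decide
    have i1 : Finset.Icc 1 1 = {1} := by decide
    have j3 : Finset.Ico 1 3 = {1, 2} := by decide
    have hq : (∑ k ∈ Finset.Ico 1 3, Polynomial.C (Pool.Agent.H156Z.DB.bb (k + 1) /
        Pool.Agent.H156Z.DB.bb 1) * Polynomial.X ^ k : Polynomial ℂ) =
        Polynomial.C (9 / 5) * Polynomial.X + Polynomial.C (71 / 25) * Polynomial.X ^ 2 := by
      rw [j3, Finset.sum_pair (by norm_num), b1]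
      norm_num [b2, b3]
    rw [hq]
    set q : Polynomial ℂ :=
      Polynomial.C (9 / 5) * Polynomial.X + Polynomial.C (71 / 25) * Polynomial.X ^ 2 with hqd
    have q1 : q.coeff 1 = 9 / 5 := by simp [hqd, Polynomial.coeff_X, Polynomial.coeff_X_pow]
    have q2 : q.coeff 2 = 71 / 25 := by simp [hqd, Polynomial.coeff_X, Polynomial.coeff_X_pow]
    have q0 : q.coeff 0 = 0 := by simp [hqd]
    have q22 : (q ^ 2).coeff 2 = 81 / 25 := by
      rw [pow_two, Polynomial.coeff_mul, Finset.Nat.sum_antidiagonal_eq_sum_range_succ_mk]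
      simp only [Finset.sum_range_succ, Finset.sum_range_zero]
      norm_num [q0, q1, q2]
    have S3 : ∀ (M : Type) [AddCommMonoid M] (F : ℕ → M), ∑ n ∈ Finset.Icc 1 3, F n = F 1 + F 2 + F 3 := by
      intro M _ F
      rw [i3, Finset.sum_insert (by decide), Finset.sum_pair (by decide), add_assoc]
    have S2 : ∀ F : ℕ → ℂ, ∑ n ∈ Finset.Icc 1 2, F n = F 1 + F 2 := by
      intro F
      rw [i2, Finset.sum_pair (by decide)]
    have S1 : ∀ F : ℕ → ℂ, ∑ n ∈ Finset.Icc 1 1, F n = F 1 := by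
      intro F
      rw [i1, Finset.sum_singleton]
    rw [b1, Complex.ofReal_re, S3, S3, S3, S2, S1]
    simp only [Finset.sum_range_succ, Finset.sum_range_zero, Finset.prod_range_succ,
      Finset.prod_range_zero, Nat.reduceSub, Nat.sub_self, pow_zero, pow_one, q1, q2, q22,
      Polynomial.coeff_one]
    have s2 : ν + 1 + 1 = ν + ((2 : ℕ) : ℝ) := by push_cast; ring
    have s3 : ν + 1 + 2 = ν + ((3 : ℕ) : ℝ) := by push_cast; ring
    have s1 : ν + 1 = ν + ((1 : ℕ) : ℝ) := by push_cast; ring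
    rw [s2, s3, s1] at key
    have t1 : ∀ x y : ℝ, ∀ u v : ℂ, u = v → x * ‖u‖ ^ 2 = x * ‖v‖ ^ 2 := by
      intro x _ u v h; rw [h]
    refine le_of_eq_of_le ?_ key
    congr 1
    · congr 1
      · refine t1 _ 0 _ _ ?_
        norm_num [Nat.factorial]
      · refine t1 _ 0 _ _ ?_
        simp only [Nat.factorial]
        push_cast
        norm_num
    · refine t1 _ 0 _ _ ?_
      simp only [Nat.factorial]
      push_cast
      ring

end Pool.Agent.S04186
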