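import Pool.Statements.S04202
import Pool.Agent.H28Z.ChTrans
import Pool.Agent.H28Z.ChSparse

set_option autoImplicit false
open Filter Topology
open Pool Pool.MP_2d5ed4_an

namespace Pool.Agent.S04202

/-- The negation of the preceding statement: For a complex Fréchet space X and a holomorphic, strongly continuous group of operators T_z (z in ℂ) with every T_z, z ≠ 0, hypercyclic, some single vector has a dense T_z-orbit for every nonzero z. -/
theorem result :
    ¬ (∀ (X : Type) [AddCommGroup X] [Module ℂ X] [UniformSpace X] [IsUniformAddGroup X]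
      [ContinuousSMul ℂ X] [LocallyConvexSpace ℝ X] [CompleteSpace X]
      [TopologicalSpace.MetrizableSpace X] (T : ℂ → (X →L[ℂ] X)),
      T 0 = ContinuousLinearMap.id ℂ X →
      (∀ z w : ℂ, T (z + w) = (T z).comp (T w)) →
      (∀ x : X, Continuous (fun z : ℂ => T z x)) →
      (∀ (x : X) (z : ℂ), ∃ v : X,
        Tendsto (fun h : ℂ => h⁻¹ • (T (z + h) x - T z x)) (𝓝[≠] (0 : ℂ)) (𝓝 v)) →
      (∀ z : ℂ, z ≠ 0 → ∃ y : X, Dense (Set.range (fun n : ℕ => (⇑(T z))^[n] y))) →
      ∃ y : X, ∀ z : ℂ, z ≠ 0 → Dense (Set.range (fun n : ℕ => (⇑(T z))^[n] y))) := by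
  intro h
  open Pool.Agent.H28Z.Ch in
  have i1 : SecondCountableTopology (OnePoint JJ) := secondCountable_onePoint JJ
  open Pool.Agent.H28Z.Ch in
  have i2 : IsUniformAddGroup C(M JJ, ℂ) := isUniformAddGroup_cm _
  open Pool.Agent.H28Z.Ch in
  have i3 : IsUniformAddGroup (S aa) := (S aa).toAddSubgroup.isUniformAddGroup
  open Pool.Agent.H28Z.Ch in
  have i4 : CompleteSpace (S aa) := (isClosed_S aa).completeSpace_coe
  open Pool.Agent.H28Z.Ch in
  have i5 : TopologicalSpace.MetrizableSpace (S aa) :=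
    Topology.IsEmbedding.subtypeVal.metrizableSpace
  open Pool.Agent.H28Z.Ch in
  have i6 : @LocallyConvexSpace ℝ (S aa) _ _ _ (Module.complexToReal (S aa)) _ := by
    let _ : Module ℝ (S aa) := Module.complexToReal (S aa)
    let φ : (S aa) →ₗ[ℝ] C(M JJ, ℂ) :=
      { toFun := Subtype.val
        map_add' := fun _ _ => rfl
        map_smul' := fun c x => by
          ext p
          show ((c : ℂ) • x.1) p = (c • x.1) p
          simp }
    exact Topology.IsInducing.locallyConvexSpace (f := φ) Topology.IsInducing.subtypeVal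
  open Pool.Agent.H28Z.Ch in
  have i7 : (uniformity (S aa)).IsCountablyGenerated := by
    rw [uniformity_subtype]; infer_instance
  open Pool.Agent.H28Z.Ch in
  have i8 : BaireSpace (S aa) := by
    let _ : PseudoMetricSpace (S aa) := UniformSpace.pseudoMetricSpace (S aa)
    infer_instance
  open Pool.Agent.H28Z.Ch in
  obtain ⟨y, hy⟩ := @h (S aa) _ _ _ i3 _ i6 i4 i5 (T aa) (T_zero aa) (T_add aa) (T_cont aa)
    (T_holo aa) (fun z hz => birkhoff _ (T aa z).continuous (transitive aa_tendsto aa_gap hz))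
  open Pool.Agent.H28Z.Ch in
  obtain ⟨U, hU, hne, hneg, hret⟩ := exists_U aa_tendsto aa_two
  open Pool.Agent.H28Z.Ch in
  have key : ∀ x : S aa, x ∉ U →
      ¬ ∀ z : ℂ, z ≠ 0 → Dense (Set.range (fun n : ℕ => (⇑(T aa z))^[n] x)) := by
    intro x hx hd
    obtain ⟨z, hz, hzA⟩ := sparse (A := {w | T aa w x ∈ U})
      (fun w hw w' hw' k => aa_near (hret x w w' hw hw') k)
    obtain ⟨_, ⟨n, rfl⟩, hn⟩ := (hd z hz).exists_mem_open hU hne
    rcases Nat.eq_zero_or_pos n with rfl | hn0
    · exact hx hn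
    · refine hzA n hn0 ?_
      show T aa (n * z) x ∈ U
      rw [← T_iter]; exact hn
  by_cases hyU : y ∈ U
  · refine key (-y) (hneg y hyU) fun z hz => ?_
    open Pool.Agent.H28Z.Ch in
    have e : (Set.range (fun n : ℕ => (⇑(T aa z))^[n] (-y)))
        = Neg.neg '' (Set.range (fun n : ℕ => (⇑(T aa z))^[n] y)) := by
      rw [← Set.range_comp]
      congr 1
      funext n
      simp only [T_iter, Function.comp]
      rfl
    rw [e]
    exact (neg_surjective.denseRange).dense_image continuous_neg (hy z hz)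
  · exact key y hyU hy

end Pool.Agent.S04202
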