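import Pool.Statements.S04204
import Pool.Agent.H162Z.Visc

set_option autoImplicit false
open Pool Pool.MP_2d773b_an

namespace Pool.Agent.S04204

/-- The negation of the preceding statement: For all T>0, n,d≥1 and continuous b,σ,g,h with Lipschitz/bounded coefficients and growth bounds G1, G2, some u continuous on [0,T]×ℝⁿ with u(T,·)=h is a viscosity sub- and supersolution of ∂ₜu+Lu+g(t,x,u,σ*∇u)=0 on (0,T)×ℝⁿ. -/
theorem result :
    ¬ (∀ (T : ℝ), 0 < T → ∀ (n d : ℕ), 1 ≤ n → 1 ≤ d →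
  ∀ (b : ℝ → EuclideanSpace ℝ (Fin n) → EuclideanSpace ℝ (Fin n))
    (σ : ℝ → EuclideanSpace ℝ (Fin n) → Fin n → Fin d → ℝ)
    (g : ℝ → EuclideanSpace ℝ (Fin n) → ℝ → (Fin d → ℝ) → ℝ)
    (h : EuclideanSpace ℝ (Fin n) → ℝ)
    (K k α p : ℝ),
    ContinuousOn (fun q : ℝ × EuclideanSpace ℝ (Fin n) => b q.1 q.2)
      (Set.Icc (0:ℝ) T ×ˢ (Set.univ : Set (EuclideanSpace ℝ (Fin n)))) →
    ContinuousOn (fun q : ℝ × EuclideanSpace ℝ (Fin n) => σ q.1 q.2)
      (Set.Icc (0:ℝ) T ×ˢ (Set.univ : Set (EuclideanSpace ℝ (Fin n)))) →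
    ContinuousOn
      (fun q : ℝ × EuclideanSpace ℝ (Fin n) × ℝ × (Fin d → ℝ) => g q.1 q.2.1 q.2.2.1 q.2.2.2)
      (Set.Icc (0:ℝ) T ×ˢ (Set.univ : Set (EuclideanSpace ℝ (Fin n) × ℝ × (Fin d → ℝ)))) →
    Continuous h →
    0 < K → 0 ≤ k → 1 < α → α ≤ 2 → 1 ≤ p → p < α / (α - 1) →
    (∀ t ∈ Set.Icc (0:ℝ) T, ∀ x x' : EuclideanSpace ℝ (Fin n),
      ‖b t 0‖ + Real.sqrt (∑ i, ∑ j, (σ t x i j) ^ 2) ≤ K ∧
      ‖b t x - b t x'‖ + Real.sqrt (∑ i, ∑ j, (σ t x i j - σ t x' i j) ^ 2) ≤ K * ‖x - x'‖) →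
    (∀ t ∈ Set.Icc (0:ℝ) T, ∀ (x : EuclideanSpace ℝ (Fin n)) (y : ℝ) (z : Fin d → ℝ),
      Real.sign y * g t x y z
        ≤ k * (1 + ‖x‖ ^ p + |y| + (Real.sqrt (∑ j, z j ^ 2)) ^ α)) →
    (∀ t ∈ Set.Icc (0:ℝ) T, ∀ (x : EuclideanSpace ℝ (Fin n)) (y : ℝ) (z : Fin d → ℝ),
      |g t x y z| + |h x|
        ≤ k * (1 + ‖x‖ ^ p + Real.exp (k * |y| ^ (2 / (α / (α - 1)))) + ∑ j, z j ^ 2)) →
    ∃ u : ℝ → EuclideanSpace ℝ (Fin n) → ℝ,
      ContinuousOn (fun q : ℝ × EuclideanSpace ℝ (Fin n) => u q.1 q.2)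
        (Set.Icc (0:ℝ) T ×ˢ (Set.univ : Set (EuclideanSpace ℝ (Fin n)))) ∧
      (∀ x, u T x = h x) ∧
      ∀ φ : ℝ → EuclideanSpace ℝ (Fin n) → ℝ,
        ContDiff ℝ ((⊤ : ℕ∞) : WithTop ℕ∞)
          (fun q : ℝ × EuclideanSpace ℝ (Fin n) => φ q.1 q.2) →
        ∀ t0 ∈ Set.Ioo (0:ℝ) T, ∀ x0 : EuclideanSpace ℝ (Fin n),
          (IsLocalMin (fun q : ℝ × EuclideanSpace ℝ (Fin n) => u q.1 q.2 - φ q.1 q.2) (t0, x0) →
            deriv (fun s => φ s x0) t0 + fderiv ℝ (φ t0) x0 (b t0 x0)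
              + (1 / 2) * ∑ i, ∑ j, (∑ l, σ t0 x0 i l * σ t0 x0 j l)
                  * fderiv ℝ (fun y => fderiv ℝ (φ t0) y) x0
                      (EuclideanSpace.single i (1:ℝ)) (EuclideanSpace.single j (1:ℝ))
              + g t0 x0 (u t0 x0)
                  (fun j => ∑ i, σ t0 x0 i j * fderiv ℝ (φ t0) x0 (EuclideanSpace.single i (1:ℝ)))
              ≤ 0) ∧
          (IsLocalMax (fun q : ℝ × EuclideanSpace ℝ (Fin n) => u q.1 q.2 - φ q.1 q.2) (t0, x0) →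
            0 ≤ deriv (fun s => φ s x0) t0 + fderiv ℝ (φ t0) x0 (b t0 x0)
              + (1 / 2) * ∑ i, ∑ j, (∑ l, σ t0 x0 i l * σ t0 x0 j l)
                  * fderiv ℝ (fun y => fderiv ℝ (φ t0) y) x0
                      (EuclideanSpace.single i (1:ℝ)) (EuclideanSpace.single j (1:ℝ))
              + g t0 x0 (u t0 x0)
                  (fun j => ∑ i, σ t0 x0 i j * fderiv ℝ (φ t0) x0 (EuclideanSpace.single i (1:ℝ))))) := by
  intro H
  have hG : Continuous (fun y : ℝ => Real.sqrt y - Real.sqrt (-y)) := by fun_prop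
  have hGb : ∀ y : ℝ, |Real.sqrt y - Real.sqrt (-y)| ≤ 1 + |y| := by
    intro y
    have h1 : ∀ z : ℝ, Real.sqrt z ≤ 1 + |z| := by
      intro z
      apply Real.sqrt_le_iff.2
      refine ⟨by positivity, ?_⟩
      nlinarith [le_abs_self z, abs_nonneg z]
    have h2 := h1 y
    have h3 := h1 (-y)
    rw [abs_neg] at h3
    rw [abs_le]
    constructor <;> linarith [Real.sqrt_nonneg y, Real.sqrt_nonneg (-y)]
  obtain ⟨u, hu, huT, hv⟩ := H 1 one_pos 1 1 le_rfl le_rfl (fun _ _ => 0) (fun _ _ _ _ => 0)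
    (fun _ _ y _ => Real.sqrt y - Real.sqrt (-y)) (fun x => x 0) 1 1 2 1
    continuousOn_const continuousOn_const (by fun_prop) (by fun_prop) one_pos zero_le_one
    (by norm_num) le_rfl le_rfl (by norm_num)
    (by intro t _ x x'; simp)
    (by
      intro t _ x y z
      have h1 := hGb y
      have h2 : Real.sign y * (Real.sqrt y - Real.sqrt (-y)) ≤ |Real.sqrt y - Real.sqrt (-y)| := by
        rcases Real.sign_apply_eq y with h | h | h <;> rw [h]
        · rw [neg_one_mul]; exact neg_le_abs _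
        · simp
        · rw [one_mul]; exact le_abs_self _
      have h3 : 0 ≤ ‖x‖ ^ (1 : ℝ) := by positivity
      have h4 : 0 ≤ (Real.sqrt (∑ j, z j ^ 2)) ^ (2 : ℝ) := by positivity
      linarith)
    (by
      intro t _ x y z
      have h1 := hGb y
      have h2 : |x 0| ≤ ‖x‖ := by
        have := EuclideanSpace.norm_eq x
        have h := PiLp.norm_apply_le x 0
        simpa using h
      have h3 : (0 : ℝ) ≤ ∑ j, z j ^ 2 := by positivity
      have h4 : (2 : ℝ) / (2 / (2 - 1)) = 1 := by norm_num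
      rw [h4, Real.rpow_one, Real.rpow_one, one_mul, one_mul]
      have h5 := Real.add_one_le_exp |y|
      linarith)
  have hup : ∀ x : EuclideanSpace ℝ (Fin 1), 0 < x 0 → (1/16 : ℝ) ≤ u (1/2) x := by
    intro x hx
    refine Pool.Agent.H162Z.Visc.key u hu ?_ x (by rw [huT]; exact hx)
    intro φ hφ t0 ht0 x0 hmin
    have := (hv φ hφ t0 ht0 x0).1 hmin
    simpa using this
  have hdown : ∀ x : EuclideanSpace ℝ (Fin 1), x 0 < 0 → (1/16 : ℝ) ≤ -u (1/2) x := by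
    intro x hx
    refine Pool.Agent.H162Z.Visc.key (fun t x => -u t x) hu.neg ?_ x (by rw [huT]; linarith)
    intro φ hφ t0 ht0 x0 hmin
    have hmax : IsLocalMax (fun q : ℝ × EuclideanSpace ℝ (Fin 1) =>
        u q.1 q.2 - (fun t x => -φ t x) q.1 q.2) (t0, x0) := by
      have := hmin.neg
      refine this.congr (Filter.Eventually.of_forall (fun q => ?_))
      simp only
      ring
    have h1 := (hv (fun t x => -φ t x) hφ.neg t0 ht0 x0).2 hmax
    have h2 : deriv (fun s => -φ s x0) t0 = -deriv (fun s => φ s x0) t0 := deriv.neg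
    simp only [map_zero, mul_zero, Finset.sum_const_zero, zero_mul, add_zero] at h1
    rw [h2] at h1
    simp only [neg_neg]
    linarith
  let e : EuclideanSpace ℝ (Fin 1) := EuclideanSpace.single (0 : Fin 1) (1 : ℝ)
  have he : ∀ s : ℝ, (s • e) 0 = s := by intro s; simp [e]
  let V : ℝ → ℝ := fun s => u (1/2) (s • e)
  have hc : Continuous V := by
    rw [← continuousOn_univ]
    exact hu.comp (f := fun s : ℝ => ((1/2 : ℝ), s • e))
      (by fun_prop) (fun s _ => ⟨⟨by norm_num, by norm_num⟩, Set.mem_univ _⟩)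
  have h1 : (1/16 : ℝ) ≤ V 0 := by
    have hcl : (0 : ℝ) ∈ closure (Set.Ioi (0 : ℝ)) := by rw [closure_Ioi]; exact Set.self_mem_Ici
    refine ContinuousWithinAt.closure_le (f := fun _ => (1/16 : ℝ)) (g := V) hcl
      continuousWithinAt_const hc.continuousWithinAt ?_
    intro s hs
    exact hup _ (by rw [he]; exact hs)
  have h2 : (1/16 : ℝ) ≤ (fun s => -V s) 0 := by
    have hcl : (0 : ℝ) ∈ closure (Set.Iio (0 : ℝ)) := by rw [closure_Iio]; exact Set.self_mem_Iic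
    refine ContinuousWithinAt.closure_le (f := fun _ => (1/16 : ℝ)) (g := fun s => -V s) hcl
      continuousWithinAt_const hc.neg.continuousWithinAt ?_
    intro s hs
    exact hdown _ (by rw [he]; exact hs)
  simp only at h2
  linarith

end Pool.Agent.S04204
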