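import Pool.Statements.S04226
import Pool.Agent.H772Z.RatDiff

set_option autoImplicit false
open Pool Pool.MP_2eee10_an

namespace Pool.Agent.S04226

/-- The negation of the preceding statement: For any k ≥ 1 and nonnegative parameters where all positive initial values give positive, bounded solutions of the rational recurrence, any locally asymptotically stable equilibrium attracts every positive solution. -/
theorem result :
    ¬ (∀ (k : ℕ), 1 ≤ k → ∀ (α A : ℝ) (β B : Fin k → ℝ), 0 ≤ α → 0 ≤ A →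
    (∀ j, 0 ≤ β j) → (∀ j, 0 ≤ B j) →
    ∀ S : (ℕ → ℝ) → Prop,
      (∀ x : ℕ → ℝ, S x ↔ ((∀ n, 0 < x n) ∧
        ∀ n : ℕ, k ≤ n →
          (0 < A + ∑ j : Fin k, B j * x (n - 1 - (j : ℕ)) ∧
           x n = (α + ∑ j : Fin k, β j * x (n - 1 - (j : ℕ))) /
                 (A + ∑ j : Fin k, B j * x (n - 1 - (j : ℕ)))))) →
      (∀ y : ℕ → ℝ, (∀ i : ℕ, i < k → 0 < y i) →
        ∃ x : ℕ → ℝ, S x ∧ ∀ i : ℕ, i < k → x i = y i) →
      (∀ x : ℕ → ℝ, S x → ∃ M : ℝ, ∀ n, x n ≤ M) →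
      ∀ xbar : ℝ, 0 ≤ xbar →
        xbar * (A + ∑ j : Fin k, B j * xbar) = α + ∑ j : Fin k, β j * xbar →
        (∀ ε : ℝ, 0 < ε → ∃ δ : ℝ, 0 < δ ∧ ∀ x : ℕ → ℝ, S x →
          (∀ i : ℕ, i < k → |x i - xbar| < δ) → ∀ n : ℕ, k ≤ n → |x n - xbar| < ε) →
        (∃ γ : ℝ, 0 < γ ∧ ∀ x : ℕ → ℝ, S x →
          (∀ i : ℕ, i < k → |x i - xbar| < γ) →
          Filter.Tendsto x Filter.atTop (nhds xbar)) →
        ∀ x : ℕ → ℝ, S x → Filter.Tendsto x Filter.atTop (nhds xbar)) := by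
  intro H
  have hrec : ∀ x : ℕ → ℝ, (∀ n : ℕ, 3 ≤ n →
      (0 < (0 : ℝ) + ∑ j : Fin 3, (![23, 3, 1] : Fin 3 → ℝ) j * x (n - 1 - (j : ℕ)) ∧
        x n = (0 + ∑ j : Fin 3, (![10, 0, 17] : Fin 3 → ℝ) j * x (n - 1 - (j : ℕ))) /
          (0 + ∑ j : Fin 3, (![23, 3, 1] : Fin 3 → ℝ) j * x (n - 1 - (j : ℕ))))) →
      ∀ n, x (n + 3) = (10 * x (n + 2) + 17 * x n) / (23 * x (n + 2) + 3 * x (n + 1) + x n) := by
    intro x hx n
    have h := (hx (n + 3) (by omega)).2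
    simpa [Fin.sum_univ_three] using h
  have hrec' : ∀ x : ℕ → ℝ, (∀ n, 0 < x n) →
      (∀ n, x (n + 3) = (10 * x (n + 2) + 17 * x n) / (23 * x (n + 2) + 3 * x (n + 1) + x n)) →
      ∀ n : ℕ, 3 ≤ n →
      (0 < (0 : ℝ) + ∑ j : Fin 3, (![23, 3, 1] : Fin 3 → ℝ) j * x (n - 1 - (j : ℕ)) ∧
        x n = (0 + ∑ j : Fin 3, (![10, 0, 17] : Fin 3 → ℝ) j * x (n - 1 - (j : ℕ))) /
          (0 + ∑ j : Fin 3, (![23, 3, 1] : Fin 3 → ℝ) j * x (n - 1 - (j : ℕ)))) := by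
    intro x hp hx n hn
    obtain ⟨m, rfl⟩ : ∃ m, n = m + 3 := ⟨n - 3, by omega⟩
    have h0 := hp m
    have h1 := hp (m + 1)
    have h2 := hp (m + 2)
    constructor
    · simp only [Fin.sum_univ_three]
      simp
      positivity
    · simpa [Fin.sum_univ_three] using hx m
  refine H772Z.RatDiff.per_not (H 3 (by norm_num) 0 0 ![10, 0, 17] ![23, 3, 1] le_rfl le_rfl
    (by intro j; fin_cases j <;> simp) (by intro j; fin_cases j <;> simp) _ (fun x => Iff.rfl)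
    ?_ ?_ 1 (by norm_num) ?_ ?_ ?_ H772Z.RatDiff.per
    ⟨H772Z.RatDiff.per_pos, hrec' _ H772Z.RatDiff.per_pos H772Z.RatDiff.per_rec⟩)
  · intro y hy
    refine ⟨H772Z.RatDiff.sol y, ⟨fun n => (H772Z.RatDiff.sol_pos y hy n).1,
      hrec' _ (fun n => (H772Z.RatDiff.sol_pos y hy n).1) (fun n => by rw [H772Z.RatDiff.sol])⟩, ?_⟩
    intro i hi
    interval_cases i <;> rfl
  · rintro x ⟨hp, hx⟩
    have hr := hrec x hx
    refine ⟨x 0 + x 1 + x 2 + 17, fun n => ?_⟩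
    have p0 := hp 0
    have p1 := hp 1
    have p2 := hp 2
    rcases n with _ | _ | _ | m
    · linarith
    · norm_num; linarith
    · norm_num; linarith
    · have h0 := hp m
      have h1 := hp (m + 1)
      have h2 := hp (m + 2)
      have : x (m + 3) ≤ 17 := by
        rw [hr m, div_le_iff₀ (by positivity)]; linarith
      have e : m + 1 + 1 + 1 = m + 3 := rfl
      rw [e]; linarith
  · simp [Fin.sum_univ_three]; norm_num
  · intro ε hε
    obtain ⟨δ, hδ, h⟩ := H772Z.RatDiff.stable ε hε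
    exact ⟨δ, hδ, fun x hx hi n _ => h x (hrec x hx.2) hi n⟩
  · exact ⟨1 / 2000, by norm_num, fun x hx hi => H772Z.RatDiff.attract x (hrec x hx.2) hi⟩

end Pool.Agent.S04226
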