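import Pool.Statements.S04239
import Pool.Agent.H756Z.ExpD

set_option autoImplicit false
open Pool Pool.MP_2f7009_an

namespace Pool.Agent.S04239

/-- For every separable real Banach space X, whenever countably many sets of functionals cover the weak*-exposed points of the dual ball, the dual ball lies in the norm-closed convex hull of the union of their weak*-closed convex hulls. -/
theorem result :
    ∀ (X : Type) [NormedAddCommGroup X] [NormedSpace ℝ X] [CompleteSpace X]
      [TopologicalSpace.SeparableSpace X],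
      ∀ B : ℕ → Set (X →L[ℝ] ℝ),
        {φ : X →L[ℝ] ℝ | ‖φ‖ ≤ 1 ∧ ∃ x : X, ∀ ψ : X →L[ℝ] ℝ, ‖ψ‖ ≤ 1 → ψ ≠ φ → ψ x < φ x}
          ⊆ ⋃ n, B n →
        Metric.closedBall (0 : X →L[ℝ] ℝ) 1 ⊆
          closure (convexHull ℝ (⋃ n, {φ : X →L[ℝ] ℝ | ∀ F : Finset X, ∀ ε : ℝ, 0 < ε →
            ∃ ψ ∈ convexHull ℝ (B n), ∀ x ∈ F, |φ x - ψ x| < ε})) := by
  intro X _ _ _ _ B hB
  exact Pool.Agent.H756Z.Exp.main B hB

end Pool.Agent.S04239
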