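import Pool.Statements.S04243
import Pool.Agent.H677Z.Pav.Main3
import Pool.Agent.H677Z.Pav.Frame

set_option autoImplicit false
open Pool Pool.MP_2fb14c_an

namespace Pool.Agent.S04243

/-- There are constants 0<A≤B such that, in every dimension n, every finite family of unit vectors in ℂⁿ forming a 2-tight frame splits into three parts, each a Riesz sequence with lower bound A and upper bound B. -/
theorem result :
    ∃ A B : ℝ, 0 < A ∧ A ≤ B ∧
      ∀ (n M : ℕ) (u : Fin M → EuclideanSpace ℂ (Fin n)),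
        (∀ i, ‖u i‖ = 1) →
        (∀ x : EuclideanSpace ℂ (Fin n),
          ∑ i, ‖(inner ℂ (u i) x : ℂ)‖ ^ 2 = 2 * ‖x‖ ^ 2) →
        ∃ f : Fin M → Fin 3, ∀ (j : Fin 3) (c : Fin M → ℂ),
          A * ∑ i ∈ Finset.univ.filter (fun i => f i = j), ‖c i‖ ^ 2
              ≤ ‖∑ i ∈ Finset.univ.filter (fun i => f i = j), c i • u i‖ ^ 2 ∧
          ‖∑ i ∈ Finset.univ.filter (fun i => f i = j), c i • u i‖ ^ 2
              ≤ B * ∑ i ∈ Finset.univ.filter (fun i => f i = j), ‖c i‖ ^ 2 := by
  refine ⟨2 / 50250, 2, by norm_num, by norm_num, ?_⟩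
  intro n M u hu h
  obtain ⟨f, hf⟩ := Pool.Agent.H677Z.Pav.main3
    (Pool.Agent.H677Z.Pav.gram_psd u (201 / 2) (by norm_num)) (fun v j => by
      rw [Pool.Agent.H677Z.Pav.gram_form]
      exact Pool.Agent.H677Z.Pav.coord_bound u hu (fun x => (h x).le) v j)
  refine ⟨f, fun j c => ?_⟩
  have e1 : ∑ i ∈ Finset.univ.filter (fun i => f i = j), ‖c i‖ ^ 2
      = ∑ i, ‖(if f i = j then c i else 0)‖ ^ 2 := by
    rw [Finset.sum_filter]
    apply Finset.sum_congr rfl; intro i _; split_ifs <;> simp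
  have e2 : ∑ i ∈ Finset.univ.filter (fun i => f i = j), c i • u i
      = ∑ i, (if f i = j then c i else 0) • u i := by
    rw [Finset.sum_filter]
    apply Finset.sum_congr rfl; intro i _; split_ifs <;> simp
  rw [e1, e2]
  constructor
  · have := hf j (fun i => if f i = j then c i else 0) (fun i hi => by simp [hi])
    rw [Pool.Agent.H677Z.Pav.gram_form] at this
    linarith
  · exact Pool.Agent.H677Z.Pav.bessel_upper u 2 (by norm_num) (fun x => (h x).le) _

end Pool.Agent.S04243
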