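import Pool.Statements.S04254
import Pool.Agent.H585Z.LF.Groth

set_option autoImplicit false
open Pool Pool.MP_312e4a_an

namespace Pool.Agent.S04254

/-- The negation of the preceding statement: Every weak*-null sequence of bounded linear functionals on the space of Lipschitz functions on ℓ_2 vanishing at 0 is weakly null: every subsequence has convex combinations of arbitrarily small dual norm. That is, Lip_0(ℓ_2) is a Grothendieck space. -/
theorem result :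
    ¬ (∀ φ : ℕ → (lp (fun _ : ℕ => ℝ) 2 → ℝ) → ℝ,
    (∀ n : ℕ, ∀ f g : lp (fun _ : ℕ => ℝ) 2 → ℝ, ∀ a b : ℝ,
        f 0 = 0 → (∃ K : NNReal, LipschitzWith K f) →
        g 0 = 0 → (∃ K : NNReal, LipschitzWith K g) →
        φ n (a • f + b • g) = a * φ n f + b * φ n g) →
    (∀ n : ℕ, ∃ C : ℝ, ∀ f : lp (fun _ : ℕ => ℝ) 2 → ℝ, ∀ K : NNReal,
        f 0 = 0 → LipschitzWith K f → |φ n f| ≤ C * (K : ℝ)) →
    (∀ f : lp (fun _ : ℕ => ℝ) 2 → ℝ, f 0 = 0 → (∃ K : NNReal, LipschitzWith K f) →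
        Filter.Tendsto (fun n : ℕ => φ n f) Filter.atTop (nhds 0)) →
    ∀ s : ℕ → ℕ, StrictMono s → ∀ ε : ℝ, 0 < ε →
      ∃ t : Finset ℕ, ∃ c : ℕ → ℝ, (∀ i ∈ t, 0 ≤ c i) ∧ (∑ i ∈ t, c i) = 1 ∧
        ∀ f : lp (fun _ : ℕ => ℝ) 2 → ℝ, f 0 = 0 → LipschitzWith 1 f →
          |∑ i ∈ t, c i * φ (s i) f| ≤ ε) := by
  intro h
  obtain ⟨S, T, s0, s1, t1, ts⟩ := Pool.Agent.H585Z.LF.exists_l1 Pool.Agent.H585Z.LF.l2_infinite
  have ht := fun (f : lp (fun _ : ℕ => ℝ) 2 → ℝ) (K : NNReal) (hf : LipschitzWith K f) =>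
    Pool.Agent.H585Z.LF.tail_facts
      (t1 f K K.coe_nonneg (Pool.Agent.H585Z.LF.abs_le_of_lip hf))
  obtain ⟨t, c, -, hc1, hc⟩ := h (fun k f => ∑' j, T f (j + k))
    (by
      rintro n f g a b - ⟨K, hK⟩ - ⟨K', hK'⟩
      simp only [map_add, map_smul, Pi.add_apply, Pi.smul_apply, smul_eq_mul]
      rw [(((ht f K hK).1 n).mul_left a).tsum_add (((ht g K' hK').1 n).mul_left b),
        tsum_mul_left, tsum_mul_left])
    (fun n => ⟨184, fun f K _ hK => (ht f K hK).2.1 n⟩)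
    (by rintro f - ⟨K, hK⟩; exact (ht f K hK).2.2) id strictMono_id (1 / 96) (by norm_num)
  have h1 := hc (S ((1 / 48 : ℝ) • Pi.single (t.sup id) 1)) (s0 _)
    (Pool.Agent.H585Z.LF.lip_of_abs_le fun x y => by
      have := s1 ((1 / 48 : ℝ) • Pi.single (t.sup id) 1) (1 / 48) (by norm_num) (fun n => by
        simp only [Pi.smul_apply, smul_eq_mul, abs_mul, ← Finset.mul_sum]
        have := Pool.Agent.H585Z.LF.sum_single_le (t.sup id) n
        rw [abs_of_pos (by norm_num : (0 : ℝ) < 1 / 48)]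
        linarith) x y
      norm_num at this ⊢
      exact this)
  have h2 : ∑ i ∈ t, c i * ∑' j, T (S ((1 / 48 : ℝ) • Pi.single (t.sup id) 1)) (j + id i) =
      ∑ i ∈ t, c i * (1 / 48) := by
    refine Finset.sum_congr rfl fun i hi => ?_
    rw [ts]
    simp only [Pi.smul_apply, smul_eq_mul]
    rw [tsum_mul_left, Pool.Agent.H585Z.LF.tail_single (Finset.le_sup (f := id) hi), mul_one]
  rw [h2, ← Finset.sum_mul, hc1] at h1
  norm_num at h1

end Pool.Agent.S04254
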