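import Pool.Statements.S04266
import Pool.Agent.H853Z.Tsm.NoLp

set_option autoImplicit false
open Pool Pool.MP_318c12_an

namespace Pool.Agent.S04266

/-- The negation of the preceding statement: Every infinite-dimensional separable real Banach space with an equivalent norm that is C² off the origin, with second derivative uniformly continuous on its unit sphere, contains an isomorphic copy of ℓ_p for some 1<p<∞. -/
theorem result :
    ¬ (∀ (X : Type) [NormedAddCommGroup X] [NormedSpace ℝ X] [CompleteSpace X]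
      [TopologicalSpace.SeparableSpace X],
      ¬ FiniteDimensional ℝ X →
      (∃ N : X → ℝ,
        (∀ x y : X, N (x + y) ≤ N x + N y) ∧
        (∀ (c : ℝ) (x : X), N (c • x) = |c| * N x) ∧
        (∃ a b : ℝ, 0 < a ∧ 0 < b ∧ ∀ x : X, a * ‖x‖ ≤ N x ∧ N x ≤ b * ‖x‖) ∧
        ContDiffOn ℝ 2 N {x : X | x ≠ 0} ∧
        UniformContinuousOn (iteratedFDeriv ℝ 2 N) {x : X | N x = 1}) →
      ∃ p : ENNReal, 1 < p ∧ p < ⊤ ∧
        ∃ T : lp (fun _ : ℕ => ℝ) p →ₗ[ℝ] X, ∃ a b : ℝ, 0 < a ∧ 0 < b ∧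
          ∀ x : lp (fun _ : ℕ => ℝ) p, a * ‖x‖ ≤ ‖T x‖ ∧ ‖T x‖ ≤ b * ‖x‖) := by
  intro H
  have hsep := Pool.Agent.H853Z.Tsm.XT_sep
  obtain ⟨p, h1, h2, T, a, b, ha, hb, hT⟩ := H Pool.Agent.H853Z.Tsm.XT
    Pool.Agent.H853Z.Tsm.XT_inf
    ⟨fun x => ‖x‖, norm_add_le, fun c x => norm_smul c x,
      ⟨1, 1, one_pos, one_pos, fun x => by simp⟩, Pool.Agent.H853Z.Tsm.XT_smooth.1,
      Pool.Agent.H853Z.Tsm.XT_smooth.2⟩
  exact Pool.Agent.H853Z.Tsm.no_lp h1 h2 T ha hb hT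

end Pool.Agent.S04266
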