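import Pool.Statements.S04269
import Pool.Agent.H954Z.RepL2

set_option autoImplicit false
open Pool Pool.MP_321233_an

namespace Pool.Agent.S04269

/-- There is a sequence of distinct points in the open unit disc whose closure misses some point of the unit circle, such that every H^2 function (as a square-summable coefficient sequence) is a norm-convergent series of Cauchy kernels at those points. -/
theorem result :
    ∃ Λ : ℕ → ℂ, Function.Injective Λ ∧ (∀ n, ‖Λ n‖ < 1) ∧
      (∃ ζ : ℂ, ‖ζ‖ = 1 ∧ ζ ∉ closure (Set.range Λ)) ∧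
      ∀ f : ℕ → ℂ, Summable (fun n => ‖f n‖ ^ 2) →
        ∃ c : ℕ → ℂ, Filter.Tendsto
          (fun N : ℕ => ∑' n : ℕ,
            ‖f n - ∑ k ∈ Finset.range N, c k * (starRingEnd ℂ (Λ k)) ^ n‖ ^ 2)
          Filter.atTop (nhds 0) := by
  exact Pool.Agent.H954Z.Rep.repr_l2

end Pool.Agent.S04269
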