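import Pool.Statements.S04280
import Pool.Agent.H585Z.LF.Groth

set_option autoImplicit false
open Filter Topology
open Pool Pool.MP_327cb1_an

namespace Pool.Agent.S04280

/-- The negation of the preceding statement: Some infinite-dimensional real Banach space E has a predual F of its Lip_0 space (real Lipschitz maps vanishing at 0 are exactly φ∘δ, φ unique) such that F* is Grothendieck: weak* null sequences in F** are weakly null. -/
theorem result :
    ¬ (∃ (E : Type) (_ : NormedAddCommGroup E) (_ : NormedSpace ℝ E) (_ : CompleteSpace E),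
    ¬ FiniteDimensional ℝ E ∧
    ∃ (F : Type) (_ : NormedAddCommGroup F) (_ : NormedSpace ℝ F) (_ : CompleteSpace F)
      (δ : E → F), δ 0 = 0 ∧ (∃ K : NNReal, LipschitzWith K δ) ∧
      (∀ f : E → ℝ, f 0 = 0 → (∃ K : NNReal, LipschitzWith K f) →
        ∃! φ : F →L[ℝ] ℝ, ⇑φ ∘ δ = f) ∧
      ∀ x : ℕ → ((F →L[ℝ] ℝ) →L[ℝ] ℝ),
        (∀ v : F →L[ℝ] ℝ, Tendsto (fun n => x n v) atTop (𝓝 0)) →
        ∀ Φ : ((F →L[ℝ] ℝ) →L[ℝ] ℝ) →L[ℝ] ℝ,
          Tendsto (fun n => Φ (x n)) atTop (𝓝 0)) := by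
  rintro ⟨E, _, _, _, hE, F, _, _, _, δ, -, ⟨K, hK⟩, h1, h2⟩
  obtain ⟨x, hx, Φ, hΦ⟩ := Pool.Agent.H585Z.LF.not_groth_predual hE δ hK
    (fun f h0 hf => (h1 f h0 hf).exists)
  exact hΦ (h2 x hx Φ)

end Pool.Agent.S04280
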