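import Pool.Statements.S04285
import Pool.Agent.H439Z.SEd

set_option autoImplicit false
open MeasureTheory
open Pool Pool.MP_32de40_an

namespace Pool.Agent.S04285

/-- For every admissible modulus ω, every nonzero disc-algebra f with ω-controlled boundary modulus and every inner Θ: (spec Θ null and ∣f∣ ≤ C·ω(1/∣Θ′∣) on the circle off spec) holds iff for some ε, ∣f(z)∣ ≤ C·ω(1−∣z∣) wherever ∣Θ(z)∣ < ε. -/
theorem result :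
  ∀ (ω : ℝ → ℝ) (L : ℝ),
    ContinuousOn ω (Set.Ioo 0 1) →
    MonotoneOn ω (Set.Ioo 0 1) →
    (∀ t ∈ Set.Ioo (0:ℝ) 1, 0 < ω t) →
    Filter.Tendsto ω (nhdsWithin 0 (Set.Ioi 0)) (nhds 0) →
    AntitoneOn (fun t => ω t / t) (Set.Ioo 0 1) →
    Filter.Tendsto ω (nhdsWithin 1 (Set.Iio 1)) (nhds L) →
    ∀ f : ℂ → ℂ,
      DifferentiableOn ℂ f (Metric.ball 0 1) →
      ContinuousOn f (Metric.closedBall 0 1) →
      (∃ C : ℝ, ∃ δ₀ ∈ Set.Ioo (0:ℝ) 1, ∀ δ ∈ Set.Ioo 0 δ₀, ∀ x h : ℝ, |h| ≤ δ →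
          ‖f (Complex.exp (((x + h : ℝ) : ℂ) * Complex.I))
            - f (Complex.exp ((x : ℂ) * Complex.I))‖ ≤ C * ω δ) →
      (∃ z ∈ Metric.ball (0:ℂ) 1, f z ≠ 0) →
      ∀ Θ : ℂ → ℂ,
        DifferentiableOn ℂ Θ (Metric.ball 0 1) →
        (∀ z ∈ Metric.ball (0:ℂ) 1, ‖Θ z‖ ≤ 1) →
        (∀ᵐ θ : ℝ, ∃ w : ℂ, ‖w‖ = 1 ∧
          Filter.Tendsto (fun r : ℝ => Θ ((r : ℂ) * Complex.exp ((θ : ℂ) * Complex.I)))
            (nhdsWithin 1 (Set.Iio 1)) (nhds w)) →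
        ((MeasureTheory.volume {θ : ℝ | ¬ ∃ r > (0:ℝ), ∃ g : ℂ → ℂ,
              DifferentiableOn ℂ g (Metric.ball (Complex.exp ((θ:ℂ) * Complex.I)) r) ∧
              Set.EqOn g Θ (Metric.ball (Complex.exp ((θ:ℂ) * Complex.I)) r ∩ Metric.ball 0 1)} = 0 ∧
          ∃ C : ℝ, ∀ ζ : ℂ, ‖ζ‖ = 1 → ∀ r > (0:ℝ), ∀ g : ℂ → ℂ,
            DifferentiableOn ℂ g (Metric.ball ζ r) →
            Set.EqOn g Θ (Metric.ball ζ r ∩ Metric.ball 0 1) →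
            ‖f ζ‖ ≤ C * (if 1 < ‖deriv g ζ‖ then ω (1 / ‖deriv g ζ‖) else L))
         ↔
         (∃ ε ∈ Set.Ioo (0:ℝ) 1, ∃ C : ℝ, ∀ z ∈ Metric.ball (0:ℂ) 1, ‖Θ z‖ < ε →
            ‖f z‖ ≤ C * (if 1 - ‖z‖ < 1 then ω (1 - ‖z‖) else L))) := by
  intro ω L _ h1 h2 h3 h4 h5 f hfd hc ⟨C, δ₀, hδ₀, hC⟩ hne Θ hd hb hr
  have hW := H439Z.SE.isMod h1 h2 h3 h4 h5
  obtain ⟨A, hA0, hA⟩ := H439Z.SE.modulus hW hfd hc (C := C) hδ₀.1 (fun δ hδ x h hh => by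
    rw [if_pos (hδ.2.trans hδ₀.2)]
    exact hC δ hδ x h hh)
  constructor
  · rintro ⟨hnull, K, hK⟩
    refine ⟨1 / 2, by norm_num, 32 * |K| + A, fun z hz hΘ => ?_⟩
    refine H439Z.SE.s_to_e hW hA hd hb hr hnull (C := K) (fun ζ hζ r hr0 g hg hgΘ h0 => ?_)
      (mem_ball_zero_iff.mp hz) hΘ
    have e : 1 / ‖deriv g ζ‖ < 1 ↔ 1 < ‖deriv g ζ‖ := div_lt_one (norm_pos_iff.mpr h0)
    simp only [e]
    exact hK ζ hζ r hr0 g hg hgΘ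
  · rintro ⟨ε, hε, K, hK⟩
    obtain ⟨hnull, K', hK'⟩ := H439Z.SE.e_to_s hW hA0 hfd hne hc hA hd hb hr hε.1 hε.2.le hK
    refine ⟨hnull, K', fun ζ hζ r hr0 g hg hgΘ => ?_⟩
    have k := hK' ζ hζ r hr0 g hg hgΘ
    by_cases h : 1 < ‖deriv g ζ‖
    · have e : 1 / ‖deriv g ζ‖ < 1 := (div_lt_one (one_pos.trans h)).mpr h
      simpa only [if_pos h, if_pos e] using k
    · simpa only [if_neg h, lt_irrefl, if_false] using k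

end Pool.Agent.S04285
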