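import Pool.Statements.S04305
import Pool.Agent.H946Z.L1.Main

set_option autoImplicit false
open Pool Pool.MP_349fe0_an

namespace Pool.Agent.S04305

/-- For every ε>0 there is a map f from real ℓ₁ into the sup-normed continuous functions on the ordinal interval [0, ω^ω] and r>0 with r·d(x,y) ≤ d(f x,f y) ≤ (1+ε)·r·d(x,y) for all x, y. -/
theorem result :
    ∀ ε : ℝ, 0 < ε →
      ∃ f : lp (fun _ : ℕ => ℝ) 1 →
          BoundedContinuousFunction (Set.Iic (Ordinal.omega0 ^ Ordinal.omega0 : Ordinal.{0})) ℝ,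
        ∃ r : ℝ, 0 < r ∧
          ∀ x y : lp (fun _ : ℕ => ℝ) 1,
            r * dist x y ≤ dist (f x) (f y) ∧
              dist (f x) (f y) ≤ (1 + ε) * r * dist x y := by
  intro ε hε
  have h1 : 0 < 1 + ε := by linarith
  obtain ⟨g, hg, hl, hn⟩ := Pool.Agent.H946Z.L1.exists_norming (e := ε / (1 + ε)) (by positivity)
    (by rw [div_le_one h1]; linarith)
  refine ⟨fun x => BoundedContinuousFunction.ofNormedAddCommGroup (fun t => g t.1 x)
    ((hg x).comp continuous_subtype_val) ‖x‖ (fun t => ?_), 1 / (1 + ε), by positivity,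
    fun x y => ⟨?_, ?_⟩⟩
  · have := (hl t.1 t.2).2 x 0
    rwa [(hl t.1 t.2).1, sub_zero, sub_zero] at this
  · obtain ⟨t, ht, h⟩ := hn x y
    refine le_trans ?_ (BoundedContinuousFunction.dist_coe_le_dist (⟨t, ht⟩ : Set.Iic _))
    have e1 : 1 / (1 + ε) = 1 - ε / (1 + ε) := by field_simp; ring
    rw [dist_eq_norm, e1, Real.dist_eq]
    exact h.trans (le_abs_self _)
  · have e1 : (1 + ε) * (1 / (1 + ε)) = 1 := by field_simp
    rw [e1, one_mul, BoundedContinuousFunction.dist_le dist_nonneg]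
    intro t
    rw [dist_eq_norm x y, Real.dist_eq]
    exact (hl t.1 t.2).2 x y

end Pool.Agent.S04305
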