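import Pool.Statements.S04311
import Pool.Agent.H257Z.SK.Pde

set_option autoImplicit false
open Metric
open Pool Pool.MP_354547_an

namespace Pool.Agent.S04311

/-- If a planar open set D is a Lipschitz graph domain near 0 ∈ ∂D, and u is C^{1,1} on B_2 with Δu = x₁·1_D weakly and u = 0 off the closure of D, then near 0 D is, after rotation, the region above a C¹ graph. -/
theorem result :
  ∀ (D : Set (EuclideanSpace ℝ (Fin 2))) (u : EuclideanSpace ℝ (Fin 2) → ℝ),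
    IsOpen D →
    (0 : EuclideanSpace ℝ (Fin 2)) ∈ frontier D →
    (∃ r : ℝ, 0 < r ∧ ∃ R : EuclideanSpace ℝ (Fin 2) ≃ₗᵢ[ℝ] EuclideanSpace ℝ (Fin 2),
      ∃ f : ℝ → ℝ, ∃ L : NNReal, LipschitzWith L f ∧
        ∀ x ∈ ball (0 : EuclideanSpace ℝ (Fin 2)) r, (x ∈ D ↔ f ((R x) 0) < (R x) 1)) →
    DifferentiableOn ℝ u (ball (0 : EuclideanSpace ℝ (Fin 2)) 2) →
    (∀ s : ℝ, s < 2 → ∃ C : NNReal,
      LipschitzOnWith C (fderiv ℝ u) (closedBall (0 : EuclideanSpace ℝ (Fin 2)) s)) →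
    (∀ φ : EuclideanSpace ℝ (Fin 2) → ℝ, ContDiff ℝ 2 φ → HasCompactSupport φ →
      tsupport φ ⊆ ball (0 : EuclideanSpace ℝ (Fin 2)) 2 →
      ∫ x, u x * (∑ i : Fin 2,
          fderiv ℝ (fun y => fderiv ℝ φ y (EuclideanSpace.single i (1 : ℝ))) x
            (EuclideanSpace.single i (1 : ℝ)))
        = ∫ x, x 0 * D.indicator (fun _ => (1 : ℝ)) x * φ x) →
    (∀ x ∈ ball (0 : EuclideanSpace ℝ (Fin 2)) 2, x ∉ closure D → u x = 0) →
    ∃ ρ : ℝ, 0 < ρ ∧ ∃ R : EuclideanSpace ℝ (Fin 2) ≃ₗᵢ[ℝ] EuclideanSpace ℝ (Fin 2),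
      ∃ g : ℝ → ℝ, ContDiff ℝ 1 g ∧
        ∀ x ∈ ball (0 : EuclideanSpace ℝ (Fin 2)) ρ, (x ∈ D ↔ g ((R x) 0) < (R x) 1) := by
  rintro D u hD h0 ⟨r, r0, R, g, L, hg, hgr⟩ ud uc hw hz
  have ρ0 : 0 < min r 1 := lt_min r0 one_pos
  have s1 : ball (0 : EuclideanSpace ℝ (Fin 2)) (min r 1) ⊆ ball 0 r :=
    ball_subset_ball (min_le_left _ _)
  have s2 : ball (0 : EuclideanSpace ℝ (Fin 2)) (min r 1) ⊆ ball 0 2 :=
    ball_subset_ball ((min_le_right _ _).trans one_le_two)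
  have s3 : ball (0 : EuclideanSpace ℝ (Fin 2)) (min r 1) ⊆ closedBall 0 1 :=
    (ball_subset_ball (min_le_right _ _)).trans ball_subset_closedBall
  obtain ⟨C, hC⟩ := uc 1 one_lt_two
  obtain ⟨⟨a, a0, ha⟩, -⟩ := Pool.Agent.H257Z.SK.pde hD h0 ρ0 R hg (fun x hx => hgr x (s1 hx))
    (ud.mono s2) (hC.continuousOn.mono s3) (fun ψ hψ => by
      have h := hw ψ (hψ.1.of_le (by norm_cast)) hψ.2.1 (fun x hx => s2 (hψ.2.2 hx).1)
      simp only [Fin.sum_univ_two] at h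
      refine Eq.trans h (MeasureTheory.integral_congr_ae (Filter.Eventually.of_forall fun x => ?_))
      by_cases hx : x ∈ D
      · simp [hx]
      · have : ψ x = 0 := image_eq_zero_of_notMem_tsupport fun h => hx (hψ.2.2 h).2
        simp [this]) fun x hx => hz x (s2 hx)
  let b : ContDiffBump (0 : ℝ) := ⟨a / 4, a / 2, by positivity, by linarith⟩
  refine ⟨min r (a / 4), lt_min r0 (by positivity), R, fun s => b s * g s, ?_, fun x hx => ?_⟩
  · refine contDiff_iff_contDiffAt.2 fun s => ?_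
    by_cases hs : s ∈ Set.Ioo (-a) a
    · exact b.contDiff.contDiffAt.mul (ha.contDiffAt (Ioo_mem_nhds hs.1 hs.2))
    · have h1 : s ∉ tsupport b := by
        rw [b.tsupport_eq]
        intro h
        have h2 : |s| ≤ a / 2 := by simpa using h
        exact hs ⟨by linarith [(abs_le.1 h2).1], by linarith [(abs_le.1 h2).2]⟩
      refine (contDiffAt_const (c := (0 : ℝ))).congr_of_eventuallyEq ?_
      filter_upwards [notMem_tsupport_iff_eventuallyEq.1 h1] with y hy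
      simp [hy]
  · have h1 : b (R x 0) = 1 := by
      refine b.one_of_mem_closedBall ?_
      have h2 : ‖x‖ < a / 4 := lt_of_lt_of_le (mem_ball_zero_iff.1 hx) (min_le_right _ _)
      have h3 := PiLp.norm_apply_le (R x) 0
      rw [R.norm_map] at h3
      exact mem_closedBall_zero_iff.2 (h3.trans h2.le)
    simp only [h1, one_mul]
    exact hgr x (ball_subset_ball (min_le_left _ _) hx)

end Pool.Agent.S04311
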