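import Pool.Statements.S04353
import Pool.Agent.H568Z.IdealOps

set_option autoImplicit false
open Pool Pool.MP_38279d_an

namespace Pool.Agent.S04353

theorem result :
    ∃ f : Set ℕ → Submodule ℝ
        (lp (fun _ : ℕ => ℝ) (1 : ENNReal) →L[ℝ] ZeroAtInftyContinuousMap ℕ ℝ),
      Function.Injective f ∧
      ∀ s : Set ℕ,
        IsClosed (f s : Set (lp (fun _ : ℕ => ℝ) (1 : ENNReal) →L[ℝ]
            ZeroAtInftyContinuousMap ℕ ℝ)) ∧
        ∀ T ∈ f s,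
          ∀ A : lp (fun _ : ℕ => ℝ) (1 : ENNReal) →L[ℝ] lp (fun _ : ℕ => ℝ) (1 : ENNReal),
          ∀ B : ZeroAtInftyContinuousMap ℕ ℝ →L[ℝ] ZeroAtInftyContinuousMap ℕ ℝ,
            B.comp (T.comp A) ∈ f s := by
  obtain ⟨S⟩ := Pool.Agent.H568Z.Ideals.exists_sys
  exact ⟨S.ideal, S.ideal_injective, fun P => ⟨S.isClosed_ideal P, S.comp_mem P⟩⟩

end Pool.Agent.S04353
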