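import Pool.Statements.S04422
import Pool.Agent.H52Z.IP7

set_option autoImplicit false
open Topology
open Pool Pool.MP_3dc43d_an

namespace Pool.Agent.S04422

/-- The negation of the preceding statement: For every real or complex Banach space X and bounded operator T, if the uniformly recurrent vectors (return times to each neighbourhood have bounded gaps) are dense, then some dense linear subspace consists entirely of uniformly recurrent vectors. -/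
theorem result :
    ¬ (∀ (𝕂 : Type) [RCLike 𝕂] (X : Type) [NormedAddCommGroup X] [NormedSpace 𝕂 X]
      [CompleteSpace X] (T : X →L[𝕂] X),
      Dense {x : X | ∀ U ∈ 𝓝 x, ∃ N : ℕ, ∀ m : ℕ, ∃ n : ℕ,
          m ≤ n ∧ n ≤ m + N ∧ 1 ≤ n ∧ (T ^ n) x ∈ U} →
      ∃ M : Submodule 𝕂 X, Dense (M : Set X) ∧
        ∀ x ∈ M, ∀ U ∈ 𝓝 x, ∃ N : ℕ, ∀ m : ℕ, ∃ n : ℕ,
          m ≤ n ∧ n ≤ m + N ∧ 1 ≤ n ∧ (T ^ n) x ∈ U) := by
  intro h
  have key : ∀ x : Pool.Agent.H52Z.IP.BX, x ∈ Pool.Agent.H52Z.Rec.URec' Pool.Agent.H52Z.IP.BT ↔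
      ∀ U ∈ 𝓝 x, ∃ N : ℕ, ∀ m : ℕ, ∃ n : ℕ,
          m ≤ n ∧ n ≤ m + N ∧ 1 ≤ n ∧ (Pool.Agent.H52Z.IP.BT ^ n) x ∈ U := by
    intro x
    constructor
    · intro hx U hU
      obtain ⟨ε, hε, hb⟩ := Metric.mem_nhds_iff.1 hU
      obtain ⟨N, hN⟩ := hx ε hε
      refine ⟨N, fun m => ?_⟩
      obtain ⟨n, h1, h2, h3⟩ := hN m
      refine ⟨n, h1.le, h2, by omega, hb ?_⟩
      rwa [Metric.mem_ball, dist_eq_norm]
    · intro hx ε hε
      obtain ⟨N, hN⟩ := hx (Metric.ball x ε) (Metric.ball_mem_nhds x hε)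
      refine ⟨N + 1, fun k => ?_⟩
      obtain ⟨n, h1, h2, -, h3⟩ := hN (k + 1)
      refine ⟨n, by omega, by omega, ?_⟩
      rwa [Metric.mem_ball, dist_eq_norm] at h3
  obtain ⟨M, hM, hM'⟩ := h ℂ Pool.Agent.H52Z.IP.BX Pool.Agent.H52Z.IP.BT
    (Pool.Agent.H52Z.IP.dense_BT.mono fun x hx => (key x).1 hx)
  exact Pool.Agent.H52Z.IP.not_lineable M hM fun x hx => (key x).2 (hM' x hx)

end Pool.Agent.S04422
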