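import Pool.Statements.S04455
import Pool.Agent.H312Z.OrthD

set_option autoImplicit false
open Pool Pool.MP_410a69_an

namespace Pool.Agent.S04455

/-- If w≥0 is bounded on [-1,1] with support [-1,1] and the monic orthogonal polynomials' L²(w dx)-norms have k-th roots tending to 1/2, then removing Lebesgue measure ≤ε from {w>0} leaves a set whose log capacity tends to 1/2 as ε→0. -/
theorem result :
    ∀ w : ℝ → ℝ, Measurable w → (∀ x, 0 ≤ w x) → (∃ M : ℝ, ∀ x, w x ≤ M) →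
      (∀ a b : ℝ, -1 ≤ a → a < b → b ≤ 1 → 0 < ∫ x in a..b, w x) →
      Filter.Tendsto
        (fun k : ℕ =>
          (sInf {t : ℝ | ∃ q : Polynomial ℝ, q.Monic ∧ q.natDegree = k ∧
              t = Real.sqrt (∫ x in (-1:ℝ)..1, (q.eval x) ^ 2 * w x)}) ^ ((1:ℝ) / k))
        Filter.atTop (nhds (1 / 2)) →
      ∀ η : ℝ, 0 < η → ∃ ε : ℝ, 0 < ε ∧
        ∀ E : Set ℝ, MeasurableSet E →
          E ⊆ {x : ℝ | x ∈ Set.Icc (-1:ℝ) 1 ∧ 0 < w x} →
          MeasureTheory.volume ({x : ℝ | x ∈ Set.Icc (-1:ℝ) 1 ∧ 0 < w x} \ E) ≤ ENNReal.ofReal ε →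
          1 / 2 - η ≤ sSup {c : ℝ | ∃ F : Set ℝ, IsCompact F ∧ F ⊆ E ∧
            c = sInf {s : ℝ | ∃ n : ℕ, 1 ≤ n ∧
              s = (sInf {t : ℝ | ∃ q : Polynomial ℝ, q.Monic ∧ q.natDegree = n ∧
                    t = sSup ((fun x => |q.eval x|) '' F)}) ^ ((1:ℝ) / n)}} := by
  intro w hw h0 ⟨M, hM⟩ hs hreg η hη
  open Pool.Agent.H312Z.Orth in
  have hi : IntervalIntegrable w MeasureTheory.volume (-1) 1 := by
    have : IntervalIntegrable (fun _ : ℝ => M) MeasureTheory.volume (-1) 1 :=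
      intervalIntegrable_const
    rw [intervalIntegrable_iff] at this ⊢
    refine MeasureTheory.Integrable.mono' this hw.aestronglyMeasurable
      (Filter.Eventually.of_forall fun x => ?_)
    rw [Real.norm_eq_abs, abs_of_nonneg (h0 x)]
    exact hM x
  open Pool.Agent.H312Z.Orth in
  have nd := Lw_nd hi h0 hs
  open Pool.Agent.H312Z.Orth in
  have hmm : ∀ k : ℕ, sInf {t : ℝ | ∃ q : Polynomial ℝ, q.Monic ∧ q.natDegree = k ∧
      t = Real.sqrt (∫ x in (-1:ℝ)..1, (q.eval x) ^ 2 * w x)} = mm (Lw w hi) k := by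
    intro k
    apply IsLeast.csInf_eq
    constructor
    · exact ⟨op (Lw w hi) k, (op_monic _ k).1,
        Polynomial.natDegree_eq_of_degree_eq_some (op_monic _ k).2, by rw [← Lw_sq hi]; rfl⟩
    · rintro t ⟨q, hq, rfl, rfl⟩
      rw [← Lw_sq hi]
      exact Real.sqrt_le_sqrt (hh_min (Lw_pos hi h0) nd q hq)
  simp only [hmm] at hreg
  open Pool.Agent.H312Z.Orth in
  have reg := reg_of_tendsto _ (mm_pos nd) hreg
  set T : Set ℝ → ℕ → Set ℝ := fun F n => {t : ℝ | ∃ q : Polynomial ℝ, q.Monic ∧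
    q.natDegree = n ∧ t = sSup ((fun x => |q.eval x|) '' F)} with hT
  set Ch : Set ℝ → Set ℝ := fun F => {s : ℝ | ∃ n : ℕ, 1 ≤ n ∧
    s = (sInf (T F n)) ^ ((1:ℝ) / n)} with hCh
  have T0 : ∀ F n, ∀ t ∈ T F n, 0 ≤ t := by
    rintro F n t ⟨q, -, -, rfl⟩
    apply Real.sSup_nonneg
    rintro y ⟨x, -, rfl⟩
    exact abs_nonneg _
  have Ch0 : ∀ F, ∀ s ∈ Ch F, 0 ≤ s := by
    rintro F s ⟨n, -, rfl⟩
    exact Real.rpow_nonneg (Real.sInf_nonneg (T0 F n)) _
  have Ch1 : ∀ F : Set ℝ, F ⊆ Set.Icc (-1) 1 → sInf (Ch F) ≤ 1 := by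
    intro F hF
    refine (csInf_le ⟨0, Ch0 F⟩ ⟨1, le_rfl, rfl⟩).trans ?_
    rw [Nat.cast_one, div_one, Real.rpow_one]
    refine (csInf_le ⟨0, T0 F 1⟩ ⟨Polynomial.X, Polynomial.monic_X, Polynomial.natDegree_X,
      rfl⟩).trans ?_
    apply Real.sSup_le _ zero_le_one
    rintro y ⟨x, hx, rfl⟩
    simp only [Polynomial.eval_X]
    exact abs_le.2 (hF hx)
  set P : Set ℝ := {x : ℝ | x ∈ Set.Icc (-1:ℝ) 1 ∧ 0 < w x} with hP
  have hPm : MeasurableSet P := measurableSet_Icc.inter (measurableSet_lt measurable_const hw)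
  have bdd : ∀ E : Set ℝ, E ⊆ P →
      BddAbove {c : ℝ | ∃ F : Set ℝ, IsCompact F ∧ F ⊆ E ∧ c = sInf (Ch F)} := by
    intro E hE
    refine ⟨1, ?_⟩
    rintro c ⟨F, -, hF, rfl⟩
    exact Ch1 F fun x hx => (hE (hF hx)).1
  rcases le_or_gt (1 / 2) η with hη2 | hη2
  · refine ⟨1, one_pos, fun E _ hE _ => ?_⟩
    refine le_trans ?_ (le_csSup (bdd E hE) ⟨∅, isCompact_empty, Set.empty_subset _, rfl⟩)
    exact le_trans (by linarith) (Real.sInf_nonneg (Ch0 ∅))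
  open Pool.Agent.H312Z.Orth in
  obtain ⟨ε, hε, H⟩ := core hi h0 M hM nd reg (1 / 2 - η) (by linarith) (by linarith)
  refine ⟨ε / 2, by positivity, fun E hEm hE hv => ?_⟩
  have hfin : MeasureTheory.volume E ≠ ⊤ :=
    ((MeasureTheory.measure_mono fun x hx => (hE hx).1).trans_lt
      (isCompact_Icc (a := (-1 : ℝ)) (b := 1)).measure_lt_top).ne
  obtain ⟨F, hFE, hF, hFv⟩ := hEm.exists_isCompact_sdiff_lt hfin
    (ε := ENNReal.ofReal (ε / 2)) (by simpa using hε)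
  refine le_trans ?_ (le_csSup (bdd E hE) ⟨F, hF, hFE, rfl⟩)
  by_contra hlt
  push Not at hlt
  obtain ⟨s, ⟨n, hn, rfl⟩, hs1⟩ := exists_lt_of_csInf_lt (s := Ch F) ⟨_, 1, le_rfl, rfl⟩ hlt
  have hn0 : n ≠ 0 := by omega
  have h2 := pow_lt_pow_left₀ hs1 (Real.rpow_nonneg (Real.sInf_nonneg (T0 F n)) _) hn0
  rw [one_div (n : ℝ), Real.rpow_inv_natCast_pow (Real.sInf_nonneg (T0 F n)) hn0] at h2
  obtain ⟨t, ⟨q, hq, hqn, rfl⟩, ht⟩ := exists_lt_of_csInf_lt (s := T F n)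
    ⟨_, Polynomial.X ^ n, Polynomial.monic_X_pow n, Polynomial.natDegree_X_pow n, rfl⟩ h2
  refine H (P \ F) (hPm.diff hF.measurableSet) ?_ q hq (by omega) fun x hx hwx hxB => ?_
  · calc MeasureTheory.volume (P \ F) ≤ MeasureTheory.volume ((P \ E) ∪ (E \ F)) := by
          apply MeasureTheory.measure_mono
          intro x hx
          by_cases h : x ∈ E
          · exact Or.inr ⟨h, hx.2⟩
          · exact Or.inl ⟨hx.1, h⟩
      _ ≤ _ := MeasureTheory.measure_union_le _ _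
      _ ≤ ENNReal.ofReal (ε / 2) + ENNReal.ofReal (ε / 2) := add_le_add hv hFv.le
      _ = _ := by
          rw [← ENNReal.ofReal_add (by positivity) (by positivity), add_halves]
  · have hxF : x ∈ F := by
      by_contra h
      exact hxB ⟨⟨abs_le.1 hx, hwx⟩, h⟩
    rw [hqn]
    refine le_trans ?_ ht.le
    exact le_csSup (hF.image q.continuous.abs).bddAbove ⟨x, hxF, rfl⟩

end Pool.Agent.S04455
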