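import Pool.Statements.S04474
import Pool.Agent.H154Z.GaborStft
import Pool.Agent.H154Z.GaborFrame

set_option autoImplicit false
open MeasureTheory
open Pool Pool.MP_41f43f_an

namespace Pool.Agent.S04474

/-- The negation of the preceding statement: For n ≥ 1, every odd window g in the Feichtinger algebra and every relatively separated set Γ in the plane with lower Beurling density (n+1)/n, the Gabor system of g over Γ is not a frame for L²(ℝ). -/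
theorem result :
    ¬ (∀ n : ℕ, 1 ≤ n →
  ∀ g : ℝ → ℂ, MemLp g 2 volume →
    Integrable g volume →
    Integrable (fun p : ℝ × ℝ => ∫ t : ℝ, g t
        * Complex.exp (-(Real.pi : ℂ) * (((t - p.1) ^ 2 : ℝ) : ℂ))
        * Complex.exp (-2 * (Real.pi : ℂ) * Complex.I * (p.2 : ℂ) * (t : ℂ)))
      (volume : Measure (ℝ × ℝ)) →
    (∀ t : ℝ, g (-t) = -g t) →
  ∀ Γ : Set (ℝ × ℝ),
    (∃ C : ℕ, ∀ z : ℝ × ℝ,
      (Γ ∩ (Set.Ico z.1 (z.1 + 1) ×ˢ Set.Ico z.2 (z.2 + 1))).Finite ∧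
      (Γ ∩ (Set.Ico z.1 (z.1 + 1) ×ˢ Set.Ico z.2 (z.2 + 1))).ncard ≤ C) →
    Filter.liminf (fun R : ℝ => ⨅ z : ℝ × ℝ,
        ((Γ ∩ (Set.Ico z.1 (z.1 + R) ×ˢ Set.Ico z.2 (z.2 + R))).ncard : ℝ) / R ^ 2)
      Filter.atTop = ((n : ℝ) + 1) / (n : ℝ) →
    ¬ ∃ A B : ℝ, 0 < A ∧ 0 < B ∧ ∀ f : ℝ → ℂ, MemLp f 2 volume →
      Summable (fun γ : Γ => ‖∫ t : ℝ, f t * (starRingEnd ℂ)
          (Complex.exp (2 * (Real.pi : ℂ) * Complex.I * (((γ : ℝ × ℝ).2 : ℝ) : ℂ) * (t : ℂ))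
            * g (t - (γ : ℝ × ℝ).1))‖ ^ 2) ∧
      A * (∫ t : ℝ, ‖f t‖ ^ 2) ≤ (∑' γ : Γ, ‖∫ t : ℝ, f t * (starRingEnd ℂ)
          (Complex.exp (2 * (Real.pi : ℂ) * Complex.I * (((γ : ℝ × ℝ).2 : ℝ) : ℂ) * (t : ℂ))
            * g (t - (γ : ℝ × ℝ).1))‖ ^ 2) ∧
      (∑' γ : Γ, ‖∫ t : ℝ, f t * (starRingEnd ℂ)
          (Complex.exp (2 * (Real.pi : ℂ) * Complex.I * (((γ : ℝ × ℝ).2 : ℝ) : ℂ) * (t : ℂ))
            * g (t - (γ : ℝ × ℝ).1))‖ ^ 2) ≤ B * (∫ t : ℝ, ‖f t‖ ^ 2)) := by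
  intro H
  let φ : ContDiffBump (0 : ℝ) := ⟨3 / 8, 1 / 2, by norm_num, by norm_num⟩
  let g : ℝ → ℂ := fun t => ((t * φ t : ℝ) : ℂ)
  have hφ : ContDiff ℝ 2 φ := φ.contDiff
  have hg : ContDiff ℝ 2 g :=
    Complex.ofRealCLM.contDiff.comp (contDiff_id.mul hφ)
  have hs : ∀ t, 1 / 2 ≤ |t| → g t = 0 := by
    intro t ht
    have : φ t = 0 := φ.zero_of_le_dist (by simpa [φ, Real.dist_eq] using ht)
    simp [g, this]
  have hc : HasCompactSupport g := by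
    refine HasCompactSupport.intro (isCompact_Icc (a := (-1 : ℝ)) (b := 1)) fun t ht => hs t ?_
    simp only [Set.mem_Icc, not_and_or, not_le] at ht
    rw [le_abs]
    rcases ht with ht | ht
    · right; linarith
    · left; linarith
  have hb : ∀ t, ‖g t‖ ≤ 1 := by
    intro t
    by_cases ht : 1 / 2 ≤ |t|
    · rw [hs t ht]; simp
    · have h0 : 0 ≤ φ t := φ.nonneg
      have h1 : φ t ≤ 1 := φ.le_one
      have h2 := abs_nonneg t
      simp only [g, Complex.norm_real, Real.norm_eq_abs, abs_mul, abs_of_nonneg h0]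
      nlinarith
  have hl : ∀ t, 1 / 8 ≤ |t| → |t| ≤ 3 / 8 → 1 / 8 ≤ ‖g t‖ := by
    intro t h1 h2
    have : φ t = 1 := φ.one_of_mem_closedBall (by simpa [φ, Real.dist_eq] using h2)
    simp only [g, this, mul_one, Complex.norm_real, Real.norm_eq_abs]
    exact h1
  have hodd : ∀ t : ℝ, g (-t) = -g t := by
    intro t
    simp only [g, φ.neg]
    push_cast
    ring
  refine H 1 le_rfl g (hg.continuous.memLp_of_hasCompactSupport hc)
    (hg.continuous.integrable_of_hasCompactSupport hc)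
    (H154Z.Gabor.stft_integrable g hg hc) hodd H154Z.Gabor.Gam H154Z.Gabor.gam_sep ?_
    (H154Z.Gabor.gam_frame g hg.continuous hb hs hl)
  rw [H154Z.Gabor.gam_density]
  norm_num

end Pool.Agent.S04474
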