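import Pool.Statements.S04478
import Pool.Agent.H103Z.Jet

set_option autoImplicit false
open scoped ContDiff
open Pool Pool.MP_420470_an

namespace Pool.Agent.S04478

/-- The negation of the preceding statement: For strongly pseudoconvex Ω in ℂⁿ (n≥2) and Ω' in ℂᴺ, every proper holomorphic map Ω→Ω' smooth up to the boundary, at any point of the closure, is determined among such maps by its k-jet there for some k. -/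
theorem result :
    ¬ (∀ (n N : ℕ), 2 ≤ n → 1 ≤ N →
  ∀ (Ω : Set (Fin n → ℂ)) (Ω' : Set (Fin N → ℂ)),
  (IsOpen Ω ∧ IsConnected Ω ∧ Bornology.IsBounded Ω ∧
    ∃ ρ : (Fin n → ℂ) → ℝ, ContDiff ℝ ∞ ρ ∧ Ω = {z | ρ z < 0} ∧
      ∀ z ∈ frontier Ω, fderiv ℝ ρ z ≠ 0 ∧
        ∀ v : Fin n → ℂ, v ≠ 0 → fderiv ℝ ρ z v = 0 →
          fderiv ℝ ρ z (Complex.I • v) = 0 →
          0 < fderiv ℝ (fderiv ℝ ρ) z v v
              + fderiv ℝ (fderiv ℝ ρ) z (Complex.I • v) (Complex.I • v)) →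
  (IsOpen Ω' ∧ IsConnected Ω' ∧ Bornology.IsBounded Ω' ∧
    ∃ ρ : (Fin N → ℂ) → ℝ, ContDiff ℝ ∞ ρ ∧ Ω' = {z | ρ z < 0} ∧
      ∀ z ∈ frontier Ω', fderiv ℝ ρ z ≠ 0 ∧
        ∀ v : Fin N → ℂ, v ≠ 0 → fderiv ℝ ρ z v = 0 →
          fderiv ℝ ρ z (Complex.I • v) = 0 →
          0 < fderiv ℝ (fderiv ℝ ρ) z v v
              + fderiv ℝ (fderiv ℝ ρ) z (Complex.I • v) (Complex.I • v)) →
  ∀ f : (Fin n → ℂ) → (Fin N → ℂ), ContDiff ℝ ∞ f → DifferentiableOn ℂ f Ω →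
    Set.MapsTo f Ω Ω' →
    (∀ K : Set (Fin N → ℂ), IsCompact K → K ⊆ Ω' → IsCompact (Ω ∩ f ⁻¹' K)) →
  ∀ p ∈ closure Ω, ∃ k : ℕ,
    ∀ g : (Fin n → ℂ) → (Fin N → ℂ), ContDiff ℝ ∞ g → DifferentiableOn ℂ g Ω →
      Set.MapsTo g Ω Ω' →
      (∀ K : Set (Fin N → ℂ), IsCompact K → K ⊆ Ω' → IsCompact (Ω ∩ g ⁻¹' K)) →
      (∀ m : ℕ, m ≤ k → iteratedFDeriv ℝ m g p = iteratedFDeriv ℝ m f p) →
      Set.EqOn g f Ω) := by
  intro H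
  obtain ⟨h, hs, hh, hf, hn⟩ := Pool.Agent.H103Z.Flat.exists_flat
  have P1 := Pool.Agent.H103Z.Jet.F_proper hs hh 1 (by simp)
  have P2 := Pool.Agent.H103Z.Jet.F_proper hs hh (-1) (by simp)
  obtain ⟨k, hk⟩ := H 2 3 le_rfl (by norm_num) _ _ (Pool.Agent.H103Z.Jet.dom_spc hs hh)
    (Pool.Agent.H103Z.Jet.ball_spc 3) _ (Pool.Agent.H103Z.Jet.F_smooth hs 1) P1.1 P1.2.1 P1.2.2
    0 Pool.Agent.H103Z.Jet.zero_mem
  exact Pool.Agent.H103Z.Jet.not_eqOn hn (hk _ (Pool.Agent.H103Z.Jet.F_smooth hs (-1))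
    P2.1 P2.2.1 P2.2.2 fun m _ => Pool.Agent.H103Z.Jet.jets hs hf m)

end Pool.Agent.S04478
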