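import Pool.Statements.S04488
import Pool.Agent.H159Z.Bauer.Main

set_option autoImplicit false
open MeasureTheory
open Pool Pool.MP_42c941_an

namespace Pool.Agent.S04488

/-- The negation of the preceding statement: For every finitely generated group with Følner sets, comeager many continuous actions on Cantor space have the set of ergodic invariant probability measures closed in the space of invariant probability measures (weak topology). -/
theorem result :
    ¬ (∀ (Γ : Type) [Group Γ], Group.FG Γ →
    (∀ (F : Finset Γ) (ε : ℝ), 0 < ε → ∃ S : Finset Γ, S.Nonempty ∧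
        ∀ g ∈ F, ((((fun x => g * x) '' (S : Set Γ)) \ (S : Set Γ)).ncard : ℝ) < ε * (S.card : ℝ)) →
    {a : {a : Γ → C(ℕ → Bool, ℕ → Bool) //
          a 1 = ContinuousMap.id (ℕ → Bool) ∧ ∀ g h : Γ, a (g * h) = (a g).comp (a h)} |
      IsClosed {ν : {μ : ProbabilityMeasure (ℕ → Bool) //
                  ∀ g : Γ, (μ : Measure (ℕ → Bool)).map (⇑(a.1 g)) = (μ : Measure (ℕ → Bool))} |
        ∀ s : Set (ℕ → Bool), MeasurableSet s → (∀ g : Γ, ⇑(a.1 g) ⁻¹' s = s) →
          (ν.1 : Measure (ℕ → Bool)) s = 0 ∨ (ν.1 : Measure (ℕ → Bool)) s = 1}} ∈ residual _) := by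
  intro h
  exact Pool.Agent.H159Z.Bauer.main (h Pool.Agent.H159Z.Bauer.Gam Pool.Agent.H159Z.Bauer.fg_Gam
    Pool.Agent.H159Z.Bauer.folner)

end Pool.Agent.S04488
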