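import Pool.Statements.S04492
import Pool.Agent.H596Z.Emb.Build

set_option autoImplicit false
open scoped Classical
open Pool Pool.MP_42dd51_an

namespace Pool.Agent.S04492

/-- The negation of the preceding statement: For all uniformly locally finite metric spaces X, Y, if the uniform Roe algebra of X embeds into that of Y via an injective (not necessarily unital) *-homomorphism, then there is a coarse map X → Y whose fibers have uniformly bounded size. -/
theorem result :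
    ¬ (∀ (X Y : Type) [MetricSpace X] [MetricSpace Y],
      (∀ r : ℝ, 0 < r → ∃ N : ℕ, ∀ x : X, (Metric.closedBall x r).encard ≤ (N : ℕ∞)) →
      (∀ r : ℝ, 0 < r → ∃ N : ℕ, ∀ y : Y, (Metric.closedBall y r).encard ≤ (N : ℕ∞)) →
      (∃ φ : ↥((StarAlgebra.adjoin ℂ
                {a : lp (fun _ : X => ℂ) 2 →L[ℂ] lp (fun _ : X => ℂ) 2 |
                  ∃ r : ℝ, ∀ x x' : X, r < dist x x' →
                    inner ℂ (lp.single 2 x (1 : ℂ) : lp (fun _ : X => ℂ) 2)
                      (a (lp.single 2 x' (1 : ℂ) : lp (fun _ : X => ℂ) 2)) = 0}).topologicalClosure)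
            →⋆ₙₐ[ℂ]
            ↥((StarAlgebra.adjoin ℂ
                {b : lp (fun _ : Y => ℂ) 2 →L[ℂ] lp (fun _ : Y => ℂ) 2 |
                  ∃ r : ℝ, ∀ y y' : Y, r < dist y y' →
                    inner ℂ (lp.single 2 y (1 : ℂ) : lp (fun _ : Y => ℂ) 2)
                      (b (lp.single 2 y' (1 : ℂ) : lp (fun _ : Y => ℂ) 2)) = 0}).topologicalClosure),
          Function.Injective φ) →
      ∃ f : X → Y,
        (∀ r : ℝ, 0 < r → ∃ s : ℝ, 0 < s ∧
            ∀ x x' : X, dist x x' ≤ r → dist (f x) (f x') ≤ s) ∧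
        ∃ N : ℕ, ∀ y : Y, (f ⁻¹' {y}).encard ≤ (N : ℕ∞)) := by
  intro H
  obtain ⟨X, Y, mX, mY, h1, h2, ⟨F, hF⟩, h4⟩ := Pool.Agent.H596Z.Emb.main
  have key : ∀ (Z : Type) [MetricSpace Z], (StarAlgebra.adjoin ℂ
      {a : lp (fun _ : Z => ℂ) 2 →L[ℂ] lp (fun _ : Z => ℂ) 2 |
        ∃ r : ℝ, ∀ x x' : Z, r < dist x x' →
          inner ℂ (lp.single 2 x (1 : ℂ) : lp (fun _ : Z => ℂ) 2)
            (a (lp.single 2 x' (1 : ℂ) : lp (fun _ : Z => ℂ) 2)) = 0}).topologicalClosure =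
      Pool.Agent.H596Z.Roe.UR Z := by
    intro Z _
    apply Pool.Agent.H596Z.Roe.adjoin_eq
    ext a
    simp only [Pool.Agent.H812R3.KP.dl_eq_single, Pool.Agent.H596Z.Roe.FP, Set.mem_ofPred_eq,
      Pool.Agent.H812R3.KP.ent_eq_inner]
  have ulf : ∀ (Z : Type) [MetricSpace Z],
      (∀ r : ℝ, ∃ N : ℕ, ∀ x : Z, ∃ s : Finset Z, s.card ≤ N ∧ Metric.closedBall x r ⊆ s) →
      ∀ r : ℝ, 0 < r → ∃ N : ℕ, ∀ x : Z, (Metric.closedBall x r).encard ≤ (N : ℕ∞) := by
    intro Z _ h r _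
    obtain ⟨N, hN⟩ := h r
    refine ⟨N, fun x => ?_⟩
    obtain ⟨s, hs, hs'⟩ := hN x
    refine (Set.encard_le_encard hs').trans ?_
    rw [Set.encard_coe_eq_coe_finsetCard]
    exact_mod_cast hs
  have H' := H X Y (ulf X h1) (ulf Y h2)
  rw [key X, key Y] at H'
  obtain ⟨f, hf, N, hN⟩ := H' ⟨
    { toFun := fun a => ⟨F.Φ a, hF a a.2⟩
      map_smul' := fun c a => Subtype.ext (F.Φ_smul c a)
      map_zero' := Subtype.ext (by simp [Pool.Agent.H596Z.Emb.Fib.Φ])
      map_add' := fun a b => Subtype.ext (F.Φ_add a b)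
      map_mul' := fun a b => Subtype.ext (F.Φ_mul a b)
      map_star' := fun a => Subtype.ext (F.Φ_star a) },
    fun a b hab => Subtype.ext (F.Φ_inj (congrArg Subtype.val hab))⟩
  refine h4 f (fun r hr => ?_) N hN
  obtain ⟨s, _, hs⟩ := hf r hr
  exact ⟨s, hs⟩

end Pool.Agent.S04492
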