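import Pool.Statements.S04498
import Pool.Agent.H304Z.PropT

set_option autoImplicit false
open Pool Pool.MP_434e52_an

namespace Pool.Agent.S04498

/-- The negation of the preceding statement: For countable groups G, H: if G has a finite Kazhdan pair (property (T)) and the commutants of the right regular representations on ℓ² (i.e. L(G), L(H)) are *-isomorphic, then G and H are virtually isomorphic. -/
theorem result :
    ¬ (∀ (G H : Type) [Group G] [Countable G] [Group H] [Countable H],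
    (∃ S : Finset G, ∃ ε : ℝ, 0 < ε ∧
      ∀ (E : Type) [NormedAddCommGroup E] [InnerProductSpace ℂ E] [CompleteSpace E]
        (π : G →* (E →L[ℂ] E)),
        (∀ g : G, π g ∈ unitary (E →L[ℂ] E)) →
        (∃ v : E, ‖v‖ = 1 ∧ ∀ s ∈ S, ‖(π s) v - v‖ < ε) →
        ∃ w : E, w ≠ 0 ∧ ∀ g : G, (π g) w = w) →
    ∀ (A : Set (lp (fun _ : G => ℂ) 2 →L[ℂ] lp (fun _ : G => ℂ) 2))
      (B : Set (lp (fun _ : H => ℂ) 2 →L[ℂ] lp (fun _ : H => ℂ) 2)),
      A = {T | ∀ g : G, ∀ f f' : lp (fun _ : G => ℂ) 2,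
              (∀ x : G, f' x = f (x * g)) → ∀ x : G, (T f') x = (T f) (x * g)} →
      B = {T | ∀ h : H, ∀ f f' : lp (fun _ : H => ℂ) 2,
              (∀ x : H, f' x = f (x * h)) → ∀ x : H, (T f') x = (T f) (x * h)} →
      (∃ Φ : (lp (fun _ : G => ℂ) 2 →L[ℂ] lp (fun _ : G => ℂ) 2) →
              (lp (fun _ : H => ℂ) 2 →L[ℂ] lp (fun _ : H => ℂ) 2),
        Set.BijOn Φ A B ∧
        ∀ x ∈ A, ∀ y ∈ A,
          Φ (x + y) = Φ x + Φ y ∧ Φ (x * y) = Φ x * Φ y ∧
          Φ (star x) = star (Φ x) ∧ ∀ c : ℂ, Φ (c • x) = c • Φ x) →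
      ∃ (F : Subgroup G) (K : Subgroup H) (_ : F.Normal) (_ : K.Normal),
        Finite F ∧ Finite K ∧
        ∃ (G₀ : Subgroup (G ⧸ F)) (H₀ : Subgroup (H ⧸ K)),
          G₀.index ≠ 0 ∧ H₀.index ≠ 0 ∧ Nonempty (G₀ ≃* H₀)) := by
  intro h
  have : Fintype (GaloisField 2 9) := Fintype.ofFinite _
  have hc : Fintype.card (GaloisField 2 9) = 512 := by
    rw [← Nat.card_eq_fintype_card, GaloisField.card 2 9 (by norm_num)]
    norm_num
  obtain ⟨D⟩ := H304Z.exists_dat (GaloisField 2 9)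
  have := H304Z.countable_PP D
  have := H304Z.countable_QQ D
  exact H304Z.not_vi D H304Z.cube_root
    (h (H304Z.PP D) (H304Z.QQ D) (H304Z.propT_PP D hc.ge) (H304Z.Cm _) (H304Z.Cm _) rfl rfl
      (H304Z.vn_PQ D))

end Pool.Agent.S04498
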