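import Pool.Statements.S04518
import Pool.Agent.H448Z.Riesz

set_option autoImplicit false
open MeasureTheory
open scoped Pointwise
open Pool Pool.MP_4442a2_an

namespace Pool.Agent.S04518

/-- The negation of the preceding statement: For N≥2, 0<α<N, with α-Riesz capacity = inverse of minimal energy ∬∣x−y∣^{α−N} over probability measures on K, Cap^{1/(N−α)} is concave under Minkowski combinations of convex bodies in ℝ^N. -/
theorem result :
    ¬ (∀ (N : ℕ) (α : ℝ), 2 ≤ N → 0 < α → α < (N : ℝ) →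
    ∀ Cap : Set (EuclideanSpace ℝ (Fin N)) → ENNReal,
      (∀ K : Set (EuclideanSpace ℝ (Fin N)),
        Cap K = (⨅ (μ : Measure (EuclideanSpace ℝ (Fin N)))
                  (_ : IsProbabilityMeasure μ) (_ : μ Kᶜ = 0),
                  ∫⁻ x, ∫⁻ y, (edist x y) ^ (α - (N : ℝ)) ∂μ ∂μ)⁻¹) →
      ∀ K₀ K₁ : Set (EuclideanSpace ℝ (Fin N)),
        IsCompact K₀ → Convex ℝ K₀ → (interior K₀).Nonempty →
        IsCompact K₁ → Convex ℝ K₁ → (interior K₁).Nonempty →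
        ∀ t : ℝ, 0 ≤ t → t ≤ 1 →
          ENNReal.ofReal t * Cap K₁ ^ (1 / ((N : ℝ) - α))
            + ENNReal.ofReal (1 - t) * Cap K₀ ^ (1 / ((N : ℝ) - α))
            ≤ Cap (t • K₁ + (1 - t) • K₀) ^ (1 / ((N : ℝ) - α))) := by
  intro H
  obtain ⟨N, hN, hlt⟩ := Pool.Agent.H448Z.Riesz.exists_N
  have hN2 : (2 : ℝ) ≤ N := by exact_mod_cast hN
  have e1 : (N : ℝ) - 1 / 2 - N = -(1 / 2 : ℝ) := by ring
  have e2 : 1 / ((N : ℝ) - ((N : ℝ) - 1 / 2)) = 2 := by norm_num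
  have h := H N ((N : ℝ) - 1 / 2) hN (by linarith) (by linarith)
    (fun K => (Pool.Agent.H448Z.Riesz.en (-(1 / 2 : ℝ)) K)⁻¹) (fun K => by rw [e1]; rfl)
  rw [e2] at h
  exact absurd (Pool.Agent.H448Z.Riesz.key N (by omega) h) (not_le.2 hlt)

end Pool.Agent.S04518
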