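import Pool.Statements.S04536
-- import your own Pool.Agent.* helpers here

set_option autoImplicit false
open Pool Pool.MP_45d43b_an

namespace Pool.Agent.S04536

open Filter Topology

abbrev E : Type := ZeroAtInftyContinuousMap ℕ ℝ

def seqT (x : ℕ → ℝ) : ℕ → ℝ
  | 0 => - x 0
  | 1 => 1 - |x 0|
  | k + 2 => x (k + 1)

/-- The map `x ↦ (-x₀, 1 - |x₀|, x₁, x₂, …)` on `c₀`. -/
def T0 (x : E) : E where
  toFun := seqT x
  continuous_toFun := continuous_of_discreteTopology
  zero_at_infty' := by
    have h := x.zero_at_infty'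
    rw [Filter.cocompact_eq_cofinite, Nat.cofinite_eq_atTop] at h ⊢
    rw [← Filter.tendsto_add_atTop_iff_nat 2]
    exact (Filter.tendsto_add_atTop_iff_nat 1).mpr h

lemma dist_coord (x y : E) (k : ℕ) : dist (x k) (y k) ≤ dist x y := by
  rw [← ZeroAtInftyContinuousMap.dist_toBCF_eq_dist]
  exact BoundedContinuousFunction.dist_coe_le_dist (f := x.toBCF) (g := y.toBCF) k

lemma T0_lip : LipschitzWith 1 T0 := by
  apply LipschitzWith.of_dist_le_mul
  intro x y
  rw [← ZeroAtInftyContinuousMap.dist_toBCF_eq_dist, NNReal.coe_one, one_mul,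
    BoundedContinuousFunction.dist_le dist_nonneg]
  intro k
  match k with
  | 0 =>
    show dist (- x 0) (- y 0) ≤ _
    rw [dist_neg_neg]
    exact dist_coord x y 0
  | 1 =>
    show dist (1 - |x 0|) (1 - |y 0|) ≤ _
    refine le_trans ?_ (dist_coord x y 0)
    rw [Real.dist_eq, Real.dist_eq]
    have : 1 - |x 0| - (1 - |y 0|) = -(|x 0| - |y 0|) := by ring
    rw [this, abs_neg]
    exact abs_abs_sub_abs_le_abs_sub _ _
  | k + 2 => exact dist_coord x y (k + 1)

def seqE (a : ℝ) : ℕ → ℝ
  | 0 => a
  | _ + 1 => 0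

def ee (a : ℝ) : E where
  toFun := seqE a
  continuous_toFun := continuous_of_discreteTopology
  zero_at_infty' := by
    rw [Filter.cocompact_eq_cofinite, Nat.cofinite_eq_atTop,
      ← Filter.tendsto_add_atTop_iff_nat 1]
    exact tendsto_const_nhds

lemma T0_ee (a : ℝ) (ha : |a| = 1) : T0 (ee a) = ee (-a) := by
  ext k
  match k with
  | 0 => rfl
  | 1 =>
    show 1 - |a| = 0
    rw [ha, sub_self]
  | k + 2 => rfl

lemma orbit (n : ℕ) : T0^[n] (ee 1) = ee 1 ∨ T0^[n] (ee 1) = ee (-1) := by
  induction n with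
  | zero => exact Or.inl rfl
  | succ n ih =>
    rw [Function.iterate_succ_apply']
    rcases ih with h | h
    · rw [h, T0_ee 1 (by simp)]; exact Or.inr rfl
    · rw [h, T0_ee (-1) (by simp), neg_neg]; exact Or.inl rfl

lemma no_fixed (x : E) : T0 x ≠ x := by
  intro h
  have h0 : - x 0 = x 0 := congrArg (fun z : E => z 0) h
  have h1 : 1 - |x 0| = x 1 := congrArg (fun z : E => z 1) h
  have h2 : ∀ k, x (k + 1) = x (k + 2) := fun k => congrArg (fun z : E => z (k + 2)) h
  have hx0 : x 0 = 0 := by linarith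
  have hk : ∀ k, x (k + 1) = 1 := by
    intro k
    induction k with
    | zero => rw [← h1, hx0]; simp
    | succ k ih => rw [← h2 k, ih]
  have hl := x.zero_at_infty'
  rw [Filter.cocompact_eq_cofinite, Nat.cofinite_eq_atTop,
    ← Filter.tendsto_add_atTop_iff_nat 1] at hl
  have : Tendsto (fun k : ℕ => x.toFun (k + 1)) atTop (𝓝 1) := by
    have e : (fun k : ℕ => x.toFun (k + 1)) = fun _ => 1 := funext hk
    rw [e]; exact tendsto_const_nhds
  have := tendsto_nhds_unique hl this
  norm_num at this

/-- The negation of the preceding statement: In real c_0, if a commutative semigroup acts on a nonempty closed convex set C by nonexpansive maps and some orbit is relatively weakly compact, then some point of C is fixed by every map. -/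
theorem result :
    ¬ (∀ (S : Type) [CommSemigroup S] (C : Set (ZeroAtInftyContinuousMap ℕ ℝ))
      (T : S → ZeroAtInftyContinuousMap ℕ ℝ → ZeroAtInftyContinuousMap ℕ ℝ),
      C.Nonempty → IsClosed C → Convex ℝ C →
      (∀ s, Set.MapsTo (T s) C C) →
      (∀ s, LipschitzOnWith 1 (T s) C) →
      (∀ s t, ∀ x ∈ C, T (s * t) x = T s (T t x)) →
      (∃ c ∈ C, IsCompact (closure
        (toWeakSpace ℝ (ZeroAtInftyContinuousMap ℕ ℝ) '' Set.range (fun s => T s c)))) →
      ∃ x ∈ C, ∀ s, T s x = x) := by
  intro h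
  obtain ⟨x, -, hx⟩ := h (Multiplicative ℕ) Set.univ (fun s => T0^[s.toAdd]) Set.univ_nonempty
    isClosed_univ convex_univ (fun _ => Set.mapsTo_univ _ _)
    (fun s => by simpa using (T0_lip.iterate s.toAdd))
    (fun s t x _ => by simp [Function.iterate_add_apply])
    ⟨ee 1, trivial, by
      have hfin : (Set.range (fun s : Multiplicative ℕ => T0^[s.toAdd] (ee 1))).Finite := by
        refine (Set.toFinite {ee 1, ee (-1)}).subset ?_
        rintro _ ⟨s, rfl⟩
        exact orbit _
      have h2 := hfin.image (toWeakSpace ℝ E)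
      rw [h2.isClosed.closure_eq]
      exact h2.isCompact⟩
  exact no_fixed x (hx (Multiplicative.ofAdd 1))

end Pool.Agent.S04536
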