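import Pool.Statements.S04563

set_option autoImplicit false
open Pool Pool.MP_498e64_an

namespace Pool.Agent.S04563

/-- For every monoid M: if every finitely generated submonoid has all injective finite-alphabet cellular automata surjective, then every injective finite-alphabet cellular automaton over M itself is surjective. -/
theorem result :
    ∀ (M : Type) [Monoid M],
      (∀ N : Submonoid M, N.FG →
        ∀ (A : Type) [Fintype A] (S : Finset N) (μ : (↥S → A) → A),
          Function.Injective (fun (x : N → A) (m : N) => μ (fun s => x (s.1 * m))) →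
          Function.Surjective (fun (x : N → A) (m : N) => μ (fun s => x (s.1 * m)))) →
      ∀ (A : Type) [Fintype A] (S : Finset M) (μ : (↥S → A) → A),
        Function.Injective (fun (x : M → A) (m : M) => μ (fun s => x (s.1 * m))) →
        Function.Surjective (fun (x : M → A) (m : M) => μ (fun s => x (s.1 * m))) := by
  intro M _ hloc A _ S μ hinj
  classical
  let : TopologicalSpace A := ⊥
  have : DiscreteTopology A := ⟨rfl⟩
  have hcont : ∀ m : M, Continuous (fun x : M → A => μ (fun s : S => x (s.1 * m))) := by
    intro m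
    exact (continuous_of_discreteTopology (f := μ)).comp
      (continuous_pi fun s => continuous_apply _)
  -- a finite window of the image determines the value at the identity
  obtain ⟨T, hT⟩ : ∃ T : Finset M, ∀ x y : M → A,
      (∀ t ∈ T, μ (fun s : S => x (s.1 * t)) = μ (fun s : S => y (s.1 * t))) → x 1 = y 1 := by
    have hC : IsCompact {p : (M → A) × (M → A) | p.1 1 ≠ p.2 1} := by
      apply IsClosed.isCompact
      have hc : Continuous (fun p : (M → A) × (M → A) => (p.1 1, p.2 1)) := by fun_prop
      exact (isClosed_discrete {q : A × A | q.1 ≠ q.2}).preimage hc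
    obtain ⟨T, hT⟩ := hC.elim_finite_subfamily_closed
      (fun t : M => {p : (M → A) × (M → A) |
        μ (fun s : S => p.1 (s.1 * t)) = μ (fun s : S => p.2 (s.1 * t))})
      (fun t => isClosed_eq ((hcont t).comp continuous_fst) ((hcont t).comp continuous_snd))
      (by
        rw [Set.eq_empty_iff_forall_notMem]
        rintro p ⟨hp1, hp2⟩
        apply hp1
        have : p.1 = p.2 := hinj (funext fun t => Set.mem_iInter.mp hp2 t)
        rw [this])
    refine ⟨T, fun x y hxy => ?_⟩
    by_contra hne
    have : (x, y) ∈ ({p : (M → A) × (M → A) | p.1 1 ≠ p.2 1} ∩ ⋂ t ∈ T, {p : (M → A) × (M → A) |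
        μ (fun s : S => p.1 (s.1 * t)) = μ (fun s : S => p.2 (s.1 * t))}) :=
      ⟨hne, Set.mem_iInter₂.mpr fun t ht => hxy t ht⟩
    rw [hT] at this
    exact this
  intro z
  -- every finite window of `z` occurs in the image
  have hfin : ∀ F : Finset M, ∃ x : M → A, ∀ f ∈ F, μ (fun s : S => x (s.1 * f)) = z f := by
    intro F
    let N : Submonoid M := Submonoid.closure ((S ∪ T ∪ F : Finset M) : Set M)
    have hN : N.FG := ⟨_, rfl⟩
    have hS : ∀ s ∈ S, s ∈ N := fun s hs => Submonoid.subset_closure (by simp [hs])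
    have hTN : ∀ s ∈ T, s ∈ N := fun s hs => Submonoid.subset_closure (by simp [hs])
    have hF : ∀ s ∈ F, s ∈ N := fun s hs => Submonoid.subset_closure (by simp [hs])
    let S' : Finset N := S.subtype (· ∈ N)
    let e : S → S' := fun s => ⟨⟨s.1, hS s.1 s.2⟩, Finset.mem_subtype.mpr s.2⟩
    let μ' : (S' → A) → A := fun w => μ (fun s => w (e s))
    let φ : M → N := fun m => if h : m ∈ N then ⟨m, h⟩ else 1
    have hφ : ∀ (m : M) (h : m ∈ N), φ m = ⟨m, h⟩ := fun m h => by simp only [φ, dif_pos h]
    have hφs : ∀ (s : S) (t : M) (ht : t ∈ N), φ (s.1 * t) = (e s).1 * ⟨t, ht⟩ := by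
      intro s t ht
      rw [hφ _ (N.mul_mem (hS s.1 s.2) ht)]
      rfl
    have hτ : Function.Injective (fun (x : N → A) (m : N) => μ' (fun s => x (s.1 * m))) := by
      intro y y' hyy
      funext q
      have := hT (fun m => y (φ m * q)) (fun m => y' (φ m * q)) (by
        intro t ht
        have e1 := congrFun hyy (⟨t, hTN t ht⟩ * q)
        simp only [μ'] at e1
        simp only [hφs _ t (hTN t ht), mul_assoc]
        exact e1)
      have h1 : φ 1 = 1 := hφ 1 N.one_mem
      simpa [h1] using this
    obtain ⟨y, hy⟩ := hloc N hN A S' μ' hτ (fun n => z n.1)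
    refine ⟨fun m => y (φ m), fun f hf => ?_⟩
    have e1 := congrFun hy ⟨f, hF f hf⟩
    simp only [μ'] at e1
    simp only [hφs _ f (hF f hf)]
    exact e1
  by_contra hz
  have hempty : (Set.univ : Set (M → A)) ∩
      ⋂ f : M, {x : M → A | μ (fun s : S => x (s.1 * f)) = z f} = ∅ := by
    rw [Set.eq_empty_iff_forall_notMem]
    rintro x ⟨_, hx⟩
    exact hz ⟨x, funext fun f => Set.mem_iInter.mp hx f⟩
  obtain ⟨F, hF⟩ := isCompact_univ.elim_finite_subfamily_closed
    (fun f : M => {x : M → A | μ (fun s : S => x (s.1 * f)) = z f})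
    (fun f => isClosed_eq (hcont f) continuous_const) hempty
  obtain ⟨x, hx⟩ := hfin F
  have : x ∈ ((Set.univ : Set (M → A)) ∩
      ⋂ f ∈ F, {x : M → A | μ (fun s : S => x (s.1 * f)) = z f}) :=
    ⟨trivial, Set.mem_iInter₂.mpr fun f hf => hx f hf⟩
  rw [hF] at this
  exact this

end Pool.Agent.S04563
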