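import Pool.Statements.S04571
import Pool.Agent.H529Z.Bous.Euler

set_option autoImplicit false
open Pool Pool.MP_49ac7c_an

namespace Pool.Agent.S04571

/-- There is a smooth solution (ω,R) of the angular Boussinesq system on the quarter-plane corner, with Ψ normalized, ω, R, R' zero at θ=±π/4, and sup of ∣ω∣+∣∇ρ∣ tending to infinity at a finite time T. -/
theorem result :
    ∃ (T : ℝ) (ω R Ψ : ℝ → ℝ → ℝ), 0 < T ∧
      ContDiffOn ℝ ((⊤ : ℕ∞) : WithTop ℕ∞) (fun p : ℝ × ℝ => ω p.1 p.2)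
        (Set.Icc (-(Real.pi / 4)) (Real.pi / 4) ×ˢ Set.Ico 0 T) ∧
      ContDiffOn ℝ ((⊤ : ℕ∞) : WithTop ℕ∞) (fun p : ℝ × ℝ => R p.1 p.2)
        (Set.Icc (-(Real.pi / 4)) (Real.pi / 4) ×ˢ Set.Ico 0 T) ∧
      (∀ t ∈ Set.Ico 0 T,
        ContDiffOn ℝ 2 (fun θ => Ψ θ t) (Set.Icc (-(Real.pi / 4)) (Real.pi / 4)) ∧
        Ψ (-(Real.pi / 4)) t = 0 ∧ Ψ (Real.pi / 4) t = 0 ∧
        (∫ θ in (-(Real.pi / 4))..(Real.pi / 4), Ψ θ t * Real.cos (2 * θ)) = 0 ∧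
        (∀ θ ∈ Set.Ioo (-(Real.pi / 4)) (Real.pi / 4),
          deriv (deriv (fun φ => Ψ φ t)) θ + 4 * Ψ θ t = ω θ t)) ∧
      (∀ t ∈ Set.Ioo 0 T, ∀ θ ∈ Set.Ioo (-(Real.pi / 4)) (Real.pi / 4),
        deriv (fun s => ω θ s) t + 2 * Ψ θ t * deriv (fun φ => ω φ t) θ
            + (R θ t * Real.sin θ + deriv (fun φ => R φ t) θ * Real.cos θ) = 0 ∧
        deriv (fun s => R θ s) t + 2 * Ψ θ t * deriv (fun φ => R φ t) θ
            - deriv (fun φ => Ψ φ t) θ * R θ t = 0) ∧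
      (∀ t ∈ Set.Ico 0 T,
        ω (-(Real.pi / 4)) t = 0 ∧ ω (Real.pi / 4) t = 0 ∧
        R (-(Real.pi / 4)) t = 0 ∧ R (Real.pi / 4) t = 0 ∧
        derivWithin (fun φ => R φ t) (Set.Icc (-(Real.pi / 4)) (Real.pi / 4)) (-(Real.pi / 4)) = 0 ∧
        derivWithin (fun φ => R φ t) (Set.Icc (-(Real.pi / 4)) (Real.pi / 4)) (Real.pi / 4) = 0) ∧
      (∀ M : ℝ, ∃ t₀ ∈ Set.Ico 0 T, ∀ t ∈ Set.Ioo t₀ T,
        ∃ θ ∈ Set.Ioo (-(Real.pi / 4)) (Real.pi / 4),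
          M < |ω θ t| + Real.sqrt (R θ t ^ 2 + (deriv (fun φ => R φ t) θ) ^ 2)) := by
  exact Pool.Agent.H529Z.Bous.main

end Pool.Agent.S04571
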