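import Pool.Statements.S04573
import Pool.Agent.H809Z.Ball.Final
import Pool.Agent.H664Z.Ball.IntNear
import Pool.Agent.H664Z.Ball.IntAbs
import Pool.Agent.H545Z.Ball.Ibp
import Pool.Agent.H48Z.Ball.Repro
import Pool.Agent.H256Z.Ball.LemE
import Pool.Agent.H938Z.Ball.Improve
import Pool.Agent.H210Z.Ball.Slice
import Pool.Agent.H52Z.Ball.DF
import Pool.Agent.H496Z.Ball.ViscPsi
import Pool.Agent.H217Z.Ball.HopfD
import Pool.Agent.H812Z.Ball.Bell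
import Pool.Agent.H946Z.Ball.DiscEst
import Pool.Agent.H946Z.Ball.StepA

set_option autoImplicit false
open Pool Pool.MP_49b044_an

namespace Pool.Agent.S04573

/-- If a bounded domain in C^n is biholomorphic to the unit ball and has a C^2 defining function, then it has a C^2 defining function whose Levi form is positive definite on the complex tangent space at every boundary point. -/
theorem result : ∀ n : ℕ, ∀ Ω : Set (EuclideanSpace ℂ (Fin n)),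
    Bornology.IsBounded Ω →
    (∃ φ ψ : EuclideanSpace ℂ (Fin n) → EuclideanSpace ℂ (Fin n),
        DifferentiableOn ℂ φ (Metric.ball 0 1) ∧ DifferentiableOn ℂ ψ Ω ∧
        Set.MapsTo φ (Metric.ball 0 1) Ω ∧ Set.MapsTo ψ Ω (Metric.ball 0 1) ∧
        (∀ z ∈ Metric.ball (0 : EuclideanSpace ℂ (Fin n)) 1, ψ (φ z) = z) ∧
        (∀ w ∈ Ω, φ (ψ w) = w)) →
    (∃ ρ : EuclideanSpace ℂ (Fin n) → ℝ, ContDiff ℝ 2 ρ ∧ Ω = {z | ρ z < 0} ∧
        ∀ z, ρ z = 0 → fderiv ℝ ρ z ≠ 0) →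
    ∃ ρ : EuclideanSpace ℂ (Fin n) → ℝ, ContDiff ℝ 2 ρ ∧ Ω = {z | ρ z < 0} ∧
        (∀ z, ρ z = 0 → fderiv ℝ ρ z ≠ 0) ∧
        ∀ p, ρ p = 0 → ∀ w : EuclideanSpace ℂ (Fin n), w ≠ 0 →
          fderiv ℝ ρ p w = 0 → fderiv ℝ ρ p (Complex.I • w) = 0 →
          0 < fderiv ℝ (fderiv ℝ ρ) p w w
                + fderiv ℝ (fderiv ℝ ρ) p (Complex.I • w) (Complex.I • w) := by
  rintro n Ω hb ⟨φ, F, hφ, hF, mφ, mF, Fφ, φF⟩ ⟨ρ, hρ, hΩ, hd⟩
  refine ⟨ρ, hρ, hΩ, hd, fun p hp w hw h1 h2 => ?_⟩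
  let S : Pool.Agent.H809Z.Ball.St n :=
    ⟨Ω, φ, F, ρ, hb, hφ, hF, mφ, mF, Fφ, φF, hρ, hΩ, hd, ⟨p, hp⟩⟩
  have hI := Pool.Agent.H809Z.Ball.ibp n
  have hH := Pool.Agent.H809Z.Ball.hopf S
  have hE := Pool.Agent.H809Z.Ball.lemE (Pool.Agent.H809Z.Ball.int_near n)
  have hV := Pool.Agent.H809Z.Ball.viscPsi S S.leviNonneg
  have hrep := Pool.Agent.H809Z.Ball.bell S hI (Pool.Agent.H809Z.Ball.repro hI) hH
  have hj := Pool.Agent.H809Z.Ball.jac_diff Metric.isOpen_ball S.hφ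
  have hmul := Pool.Agent.H809Z.Ball.jac_mul S
  have hB := Pool.Agent.H809Z.Ball.absorb _ hj.continuousOn (Pool.Agent.H809Z.Ball.jac_int S)
    (by simpa using hrep 1 0)
  obtain ⟨R, hR⟩ := hb.exists_norm_le
  exact S.final hmul hB hH (Pool.Agent.H809Z.Ball.dfGlobal S hV hH) (Pool.Agent.H809Z.Ball.stepA S)
    (S.stepW (Pool.Agent.H809Z.Ball.discEst S) (Pool.Agent.H809Z.Ball.det_bound S))
    (fun c l ζ hζ => Pool.Agent.H809Z.Ball.rep_cont hE _ _ hB (hrep c l) ζ hζ)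
    (fun ζ hζ hfin => Pool.Agent.H809Z.Ball.slice_holder hE (Pool.Agent.H809Z.Ball.improve hE) _ _
      ζ hζ hj (fun a ha h0 => by simpa [h0] using hmul a ha) hB
      ⟨R, fun a ha => hR _ (mφ ha)⟩ hrep hfin)
    (fun q g hq hg hm C hC => Pool.Agent.H809Z.Ball.stepD S (Pool.Agent.H809Z.Ball.dfLocal S hV)
      q g hq hg hm C hC) hp hw ⟨h1, h2⟩

end Pool.Agent.S04573
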