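import Pool.Statements.S04610
import Pool.Agent.H588Z.Wsc.LpRefl
import Pool.Agent.H588Z.Wsc.NoEmb
import Pool.Agent.H588Z.Wsc.Emb

set_option autoImplicit false
open Filter Topology
open Pool Pool.MP_4c3cf5_an

namespace Pool.Agent.S04610

open Pool.Agent.H588Z.Wsc in
/-- `X = ℓ_2`, `Y = (⊕ ℓ_{p_n})_{ℓ_{3/2}}` with `p_n = 2(n+3)/(n+4)` increasing to `2`. -/
theorem basis_weakly_null : WT (fun m : ℕ => (lp.single 2 m (1 : ℝ) : H)) 0 := by
  intro ψ
  have hc : (2 : ℝ).HolderConjugate (2 : ENNReal).toReal := by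
    simpa using Real.HolderConjugate.two_two
  have h1 := (dual_summable (E := fun _ : ℕ => ℝ) (p := 2) hc ψ).tendsto_atTop_zero
  have h2 := h1.rpow_const (p := 1 / 2) (Or.inr (by norm_num))
  rw [Real.zero_rpow (by norm_num)] at h2
  rw [map_zero, tendsto_zero_iff_norm_tendsto_zero]
  refine squeeze_zero (fun _ => norm_nonneg _) (fun m => ?_) h2
  rw [← Real.rpow_mul (norm_nonneg _)]
  norm_num
  simpa using (ψ.comp (lp.singleContinuousLinearMap ℝ (fun _ : ℕ => ℝ) 2 m)).le_opNorm 1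

/-- The negation of the preceding statement: For separable reflexive real Banach spaces X, Y: if X coarse Lipschitz embeds into Y, then some coarse Lipschitz embedding of X into Y maps weakly convergent sequences to weakly convergent sequences with the matching limit. -/
theorem result :
    ¬ (∀ (X Y : Type) [NormedAddCommGroup X] [NormedSpace ℝ X] [CompleteSpace X]
      [TopologicalSpace.SeparableSpace X]
      [NormedAddCommGroup Y] [NormedSpace ℝ Y] [CompleteSpace Y]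
      [TopologicalSpace.SeparableSpace Y],
      Function.Surjective (NormedSpace.inclusionInDoubleDual ℝ X) →
      Function.Surjective (NormedSpace.inclusionInDoubleDual ℝ Y) →
      (∃ f : X → Y, ∃ a b c : ℝ, 0 < a ∧ 0 < b ∧ 0 ≤ c ∧
        ∀ x x' : X, a * ‖x - x'‖ - c ≤ ‖f x - f x'‖ ∧ ‖f x - f x'‖ ≤ b * ‖x - x'‖ + c) →
      ∃ g : X → Y,
        (∃ a b c : ℝ, 0 < a ∧ 0 < b ∧ 0 ≤ c ∧
          ∀ x x' : X, a * ‖x - x'‖ - c ≤ ‖g x - g x'‖ ∧ ‖g x - g x'‖ ≤ b * ‖x - x'‖ + c) ∧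
        ∀ (u : ℕ → X) (x : X),
          (∀ φ : X →L[ℝ] ℝ, Tendsto (fun n => φ (u n)) atTop (𝓝 (φ x))) →
          ∀ ψ : Y →L[ℝ] ℝ, Tendsto (fun n => ψ (g (u n))) atTop (𝓝 (ψ (g x)))) := by
  open Pool.Agent.H588Z.Wsc in
  intro h
  have hq : (ENNReal.ofReal (3 / 2)).toReal = 3 / 2 := ENNReal.toReal_ofReal (by norm_num)
  have hqt : ENNReal.ofReal (3 / 2) ≠ ⊤ := ENNReal.ofReal_ne_top
  haveI : Fact (1 ≤ ENNReal.ofReal (3 / 2)) := ⟨by
    rw [← ENNReal.toReal_le_toReal (by simp) hqt, hq]; norm_num⟩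
  haveI : TopologicalSpace.SeparableSpace H588Z.Wsc.H := H588Z.Wsc.lp_sep _ 2 (by simp)
  haveI : ∀ n, TopologicalSpace.SeparableSpace (H588Z.Wsc.EE n) := fun n =>
    H588Z.Wsc.lp_sep _ _ (H588Z.Wsc.PP_ne_top n)
  haveI : TopologicalSpace.SeparableSpace (lp H588Z.Wsc.EE (ENNReal.ofReal (3 / 2))) :=
    H588Z.Wsc.lp_sep _ _ hqt
  obtain ⟨g, ⟨a, b, c, ha, hb, hc, hg⟩, hw⟩ := h H588Z.Wsc.H
    (lp H588Z.Wsc.EE (ENNReal.ofReal (3 / 2)))
    (H588Z.Wsc.lp_refl (by norm_num) fun _ => H588Z.Wsc.real_refl)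
    (H588Z.Wsc.lp_refl (by rw [hq]; norm_num) fun n =>
      H588Z.Wsc.lp_refl (H588Z.Wsc.PP_gt n) fun _ => H588Z.Wsc.real_refl)
    ⟨H588Z.Wsc.glue _, 1 / 4, 680, 1 / 2, by norm_num, by norm_num, by norm_num, fun x x' =>
      ⟨H588Z.Wsc.glue_lo _ x x', by linarith [H588Z.Wsc.glue_up _ hqt x x']⟩⟩
  exact H588Z.Wsc.no_wsc (P := fun n => (H588Z.Wsc.PP n).toReal) basis_weakly_null
    (fun m => by simp) (fun n => ENNReal.toReal_nonneg) H588Z.Wsc.PP_lt
    (fun n => H588Z.Wsc.lp_auc _ (by linarith [H588Z.Wsc.PP_gt n]) (H588Z.Wsc.PP_lt n).le)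
    (by rw [hq]; norm_num) (by rw [hq]; norm_num) g ha hb.le hc (fun x x' => (hg x x').1)
    (fun x x' => (hg x x').2) hw

end Pool.Agent.S04610
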