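import Pool.Statements.S04617
import Pool.Agent.H503Z.ErgTransfer

set_option autoImplicit false
open Pool Pool.MP_4cda3b_an

namespace Pool.Agent.S04617

/-- Every sequence of positive integers with a(n+1)/a(n) at least 1+1/log n for large n admits a measure-preserving probability system and a square-integrable f whose averages of f(T^{a(n)} x) fail to converge almost everywhere. -/
theorem result :
    ∀ a : ℕ → ℕ, (∀ n, 0 < a n) →
      (∃ N : ℕ, ∀ n ≥ N, ((a (n + 1) : ℝ) / (a n : ℝ)) ≥ 1 + 1 / Real.log (n : ℝ)) →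
      ∃ (Ω : Type) (_ : MeasurableSpace Ω) (μ : MeasureTheory.Measure Ω)
        (_ : MeasureTheory.IsProbabilityMeasure μ) (T : Ω → Ω)
        (_ : MeasureTheory.MeasurePreserving T μ μ) (f : Ω → ℝ),
        MeasureTheory.MemLp f 2 μ ∧
        ¬ (∀ᵐ x ∂μ, ∃ L : ℝ,
            Filter.Tendsto
              (fun N : ℕ => (1 / (N : ℝ)) * ∑ n ∈ Finset.range N, f (T^[a n] x))
              Filter.atTop (nhds L)) := by
  intro a hpos h
  obtain ⟨N, hN⟩ := h
  have hw := Pool.Agent.H503Z.Erg.weak_fail (a := a) (N0 := max N 2) hpos (le_max_right _ _)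
    (fun n hn => hN n ((le_max_left _ _).trans hn))
  obtain ⟨G, hG, hbad⟩ := Pool.Agent.H503Z.Erg.transfer a hw
  exact ⟨Pool.Agent.H503Z.Erg.Om, inferInstance, Pool.Agent.H503Z.Erg.mu, inferInstance,
    Pool.Agent.H503Z.Erg.sh, Pool.Agent.H503Z.Erg.sh_mp, G.indicator (fun _ => (1 : ℝ)),
    (MeasureTheory.memLp_const (1 : ℝ)).indicator hG, hbad⟩

end Pool.Agent.S04617
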