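import Pool.Statements.S04666
import Pool.Agent.H228Z.SqF

set_option autoImplicit false
open Pool Pool.MP_512514_an

namespace Pool.Agent.S04666

/-- The negation of the preceding statement: For every bounded connected open set in C^2 with smooth boundary that is pseudoconvex (as holomorphic convexity), some c>0 works for all z: an injective holomorphic map into the unit ball sends z to 0 with image containing the c-ball. -/
theorem result :
    ¬ (∀ Ω : Set (EuclideanSpace ℂ (Fin 2)),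
    IsOpen Ω → IsConnected Ω → Bornology.IsBounded Ω →
    (∃ ρ : EuclideanSpace ℂ (Fin 2) → ℝ,
      (∀ n : ℕ, ContDiff ℝ n ρ) ∧ Ω = {z | ρ z < 0} ∧
      ∀ z, ρ z = 0 → fderiv ℝ ρ z ≠ 0) →
    (∀ K : Set (EuclideanSpace ℂ (Fin 2)), IsCompact K → K ⊆ Ω →
      IsCompact {z ∈ Ω | ∀ f : EuclideanSpace ℂ (Fin 2) → ℂ, DifferentiableOn ℂ f Ω →
        ∀ c : ℝ, (∀ w ∈ K, ‖f w‖ ≤ c) → ‖f z‖ ≤ c}) →
    ∃ c : ℝ, 0 < c ∧ ∀ z ∈ Ω,
      ∃ f : EuclideanSpace ℂ (Fin 2) → EuclideanSpace ℂ (Fin 2),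
        DifferentiableOn ℂ f Ω ∧ Set.InjOn f Ω ∧
        Set.MapsTo f Ω (Metric.ball 0 1) ∧ f z = 0 ∧
        Metric.ball 0 c ⊆ f '' Ω) := by
  intro h
  obtain ⟨φ, h1, h2, h3, h4⟩ := Pool.Agent.H228Z.Sq.exists_weight
  have hc := Pool.Agent.H228Z.Sq.VV_contDiff h1
  obtain ⟨c, hc0, h5⟩ := h {x | Pool.Agent.H228Z.Sq.VV φ x - 1 < 0}
    (isOpen_lt (hc.continuous.sub continuous_const) continuous_const)
    Pool.Agent.H228Z.Sq.VV_conn
    (Metric.isBounded_closedBall.subset fun x hx =>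
      Pool.Agent.H228Z.Sq.VV_bdd h2 (show Pool.Agent.H228Z.Sq.VV φ x ≤ 1 from
        (sub_neg.1 (show Pool.Agent.H228Z.Sq.VV φ x - 1 < 0 from hx)).le))
    ⟨fun x => Pool.Agent.H228Z.Sq.VV φ x - 1,
      fun n => (hc.sub contDiff_const).of_le (mod_cast le_top), rfl,
      Pool.Agent.H228Z.Sq.VV_grad h1⟩
    (Pool.Agent.H228Z.Sq.hull_compact h1 h2 h3)
  obtain ⟨n, hn⟩ := exists_nat_gt (13200 / c)
  obtain ⟨p, hp, h6⟩ := h4 n
  obtain ⟨f, f1, f2, f3, f4, f5⟩ := h5 p hp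
  have h7 := h6 c f hc0 f1 f2 f3 f4 f5
  rw [div_lt_iff₀ hc0] at hn
  nlinarith

end Pool.Agent.S04666
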