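import Pool.Statements.S04677
import Pool.Agent.H264Z.CompC

set_option autoImplicit false
open Pool Pool.MP_52d740_an

namespace Pool.Agent.S04677

/-- There are subshifts X, Y over a finite alphabet and a continuous, shift-commuting surjection π from X onto Y such that no continuous F on X has pressure of φ∘π+F on X equal to pressure of φ on Y for every continuous φ on Y. -/
theorem result :
    ∃ (k : ℕ) (X Y : Set (ℤ → ℕ)) (π : (ℤ → ℕ) → (ℤ → ℕ)),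
      X.Nonempty ∧ IsClosed X ∧ (∀ x : ℤ → ℕ, x ∈ X ↔ (fun m : ℤ => x (m + 1)) ∈ X) ∧
      (∀ x ∈ X, ∀ i : ℤ, x i < k) ∧
      Y.Nonempty ∧ IsClosed Y ∧ (∀ y : ℤ → ℕ, y ∈ Y ↔ (fun m : ℤ => y (m + 1)) ∈ Y) ∧
      (∀ y ∈ Y, ∀ i : ℤ, y i < k) ∧
      ContinuousOn π X ∧ Set.MapsTo π X Y ∧ Set.SurjOn π X Y ∧
      (∀ x ∈ X, π (fun m : ℤ => x (m + 1)) = (fun m : ℤ => π x (m + 1))) ∧
      ¬ ∃ F : (ℤ → ℕ) → ℝ, ContinuousOn F X ∧
        ∀ φ : (ℤ → ℕ) → ℝ, ContinuousOn φ Y →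
          ∃ L : ℝ,
          Filter.Tendsto (fun n : ℕ => Real.log (∑ w : Fin n → Fin k,
            sSup ((fun x : ℤ → ℕ => Real.exp (∑ j ∈ Finset.range n,
              φ ((fun (z : ℤ → ℕ) (m : ℤ) => z (m + 1))^[j] x))) ''
              {x : ℤ → ℕ | x ∈ Y ∧ ∀ i : Fin n, x ((i : ℕ) : ℤ) = ((w i : ℕ))})) / (n : ℝ))
            Filter.atTop (nhds L) ∧
          Filter.Tendsto (fun n : ℕ => Real.log (∑ w : Fin n → Fin k,
            sSup ((fun x : ℤ → ℕ => Real.exp (∑ j ∈ Finset.range n,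
              (φ (π ((fun (z : ℤ → ℕ) (m : ℤ) => z (m + 1))^[j] x))
                + F ((fun (z : ℤ → ℕ) (m : ℤ) => z (m + 1))^[j] x)))) ''
              {x : ℤ → ℕ | x ∈ X ∧ ∀ i : Fin n, x ((i : ℕ) : ℤ) = ((w i : ℕ))})) / (n : ℝ))
            Filter.atTop (nhds L) := by
  open Pool.Agent.H264Z.Comp in
  exact ⟨3, X, Y, pr, ⟨_, per_two_mem 0⟩, X_closed, X_iff, fun x hx => hx.1,
    ⟨_, _, per_two_mem 0, rfl⟩, Y_closed, Y_iff,
    fun y hy i => (Y_le hy i).trans_lt (by norm_num), pr_cont.continuousOn,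
    fun x hx => ⟨x, hx, rfl⟩, fun y hy => hy, fun x _ => rfl, main⟩

end Pool.Agent.S04677
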