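import Pool.Statements.S04698
import Pool.Agent.H468Z.Tiling

set_option autoImplicit false
open Pool Pool.MP_541d58_an

namespace Pool.Agent.S04698

/-- There is no family of pairwise disjoint, bounded, closed convex sets with nonempty interior
whose union is the whole real Hilbert space of continuum density. -/
theorem result :
    ¬ (∃ 𝒯 : Set (Set (lp (fun _ : ℝ => ℝ) (2 : ENNReal))),
      (∀ C ∈ 𝒯, IsClosed C ∧ Convex ℝ C ∧ (interior C).Nonempty ∧ Bornology.IsBounded C) ∧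
      𝒯.PairwiseDisjoint id ∧
      ⋃₀ 𝒯 = Set.univ) := by
  rintro ⟨𝒯, h, hdisj, hcov⟩
  obtain ⟨T, hT, -⟩ : (0 : lp (fun _ : ℝ => ℝ) (2 : ENNReal)) ∈ ⋃₀ 𝒯 := by rw [hcov]; trivial
  have hu := Pool.Agent.H468Z.Tiling.tile_eq_univ 𝒯 (fun C hC => (h C hC).1)
    (fun C hC => (h C hC).2.1) (fun C hC => (h C hC).2.2.1) hdisj hcov hT
  have hb := (h T hT).2.2.2
  rw [hu] at hb
  obtain ⟨R, hR⟩ := hb.exists_norm_le
  have h1 := hR (lp.single 2 (0 : ℝ) (|R| + 1)) (Set.mem_univ _)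
  rw [lp.norm_single (by norm_num), Real.norm_eq_abs] at h1
  have h2 := le_abs_self (|R| + 1)
  have h3 := le_abs_self R
  linarith

end Pool.Agent.S04698
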