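import Pool.Statements.S04722
import Pool.Agent.H703Z.GabB

set_option autoImplicit false
open MeasureTheory Real ComplexConjugate
open Pool Pool.MP_5691a6_an

namespace Pool.Agent.S04722

/-- The negation of the preceding statement: If the Gabor system of a compactly supported L2 function g with translations T and frequencies S is an orthonormal basis of L2(R^d), then ∣g∣ is a normalized indicator of some Ω, Ω tiles by T, and exponentials over S form an orthogonal basis of L2(Ω). -/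
theorem result :
    ¬ (∀ (d : ℕ), 0 < d →
    ∀ (g : EuclideanSpace ℝ (Fin d) → ℂ) (T S : Set (EuclideanSpace ℝ (Fin d))),
      MemLp g 2 volume → HasCompactSupport g →
      (∀ t₁ ∈ T, ∀ s₁ ∈ S, ∀ t₂ ∈ T, ∀ s₂ ∈ S, (t₁ ≠ t₂ ∨ s₁ ≠ s₂) →
        ∫ x, (g (x - t₁) * Complex.exp (2 * π * Complex.I * ((@inner ℝ _ _ s₁ x : ℝ) : ℂ))) *
          conj (g (x - t₂) * Complex.exp (2 * π * Complex.I * ((@inner ℝ _ _ s₂ x : ℝ) : ℂ))) = 0) →
      (∀ t ∈ T, ∀ s ∈ S,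
        ∫ x, (g (x - t) * Complex.exp (2 * π * Complex.I * ((@inner ℝ _ _ s x : ℝ) : ℂ))) *
          conj (g (x - t) * Complex.exp (2 * π * Complex.I * ((@inner ℝ _ _ s x : ℝ) : ℂ))) = 1) →
      (∀ f : EuclideanSpace ℝ (Fin d) → ℂ, MemLp f 2 volume →
        (∀ t ∈ T, ∀ s ∈ S,
          ∫ x, f x * conj (g (x - t) * Complex.exp (2 * π * Complex.I * ((@inner ℝ _ _ s x : ℝ) : ℂ))) = 0) →
        f =ᵐ[volume] 0) →
      ∃ Ω : Set (EuclideanSpace ℝ (Fin d)),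
        MeasurableSet Ω ∧ 0 < volume Ω ∧ volume Ω < ⊤ ∧
        (∀ᵐ x ∂volume, ‖g x‖ = (volume Ω).toReal ^ (-(1 / 2 : ℝ)) * Ω.indicator (fun _ => (1 : ℝ)) x) ∧
        (∀ᵐ x ∂volume, ∃! l, l ∈ T ∧ x - l ∈ Ω) ∧
        (∀ l ∈ S, ∀ m ∈ S, l ≠ m →
          ∫ x in Ω, Complex.exp (2 * π * Complex.I * ((@inner ℝ _ _ l x : ℝ) : ℂ)) *
            conj (Complex.exp (2 * π * Complex.I * ((@inner ℝ _ _ m x : ℝ) : ℂ))) = 0) ∧
        (∀ f : EuclideanSpace ℝ (Fin d) → ℂ, MemLp f 2 (volume.restrict Ω) →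
          (∀ l ∈ S, ∫ x in Ω, f x * conj (Complex.exp (2 * π * Complex.I * ((@inner ℝ _ _ l x : ℝ) : ℂ))) = 0) →
          f =ᵐ[volume.restrict Ω] 0)) := by
  intro H
  obtain ⟨Ω, -, -, -, h, -⟩ := H 2 (by norm_num) H703Z.Gab.g
    {t | ∃ a b : ℤ, t = H703Z.Gab.tv a b} (Set.range H703Z.Gab.iv)
    H703Z.Gab.g_memLp H703Z.Gab.g_supp
    (by
      rintro _ ⟨a', b', rfl⟩ _ ⟨m, rfl⟩ _ ⟨a, b, rfl⟩ _ ⟨n, rfl⟩ hne
      have h := H703Z.Gab.gram a b a' b' m n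
      rw [if_neg] at h
      · exact h
      · rintro ⟨⟨rfl, rfl⟩, rfl⟩
        rcases hne with h' | h' <;> exact h' rfl)
    (by
      rintro _ ⟨a, b, rfl⟩ _ ⟨n, rfl⟩
      have h := H703Z.Gab.gram a b a b n n
      rw [if_pos ⟨⟨rfl, rfl⟩, rfl⟩] at h
      exact h)
    (fun f hf h => H703Z.Gab.complete f hf fun a b n => h _ ⟨a, b, rfl⟩ _ ⟨n, rfl⟩)
  exact H703Z.Gab.not_flat Ω _ h

end Pool.Agent.S04722
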