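import Pool.Statements.S04759

set_option autoImplicit false
open Set
open Pool Pool.MP_5b6163_an

namespace Pool.Agent.S04759

/-- powers of two -/
def P (m : ℤ) : Prop := ∃ k : ℕ, m = 2 ^ k

theorem P_pos {m : ℤ} (h : P m) : 0 < m := by
  obtain ⟨k, rfl⟩ := h
  positivity

theorem P_double {a b : ℤ} (ha : P a) (hb : P b) (h : a < b) : 2 * a ≤ b := by
  obtain ⟨k, rfl⟩ := ha
  obtain ⟨j, rfl⟩ := hb
  have hkj : k < j := (pow_lt_pow_iff_right₀ (by norm_num : (1 : ℤ) < 2)).mp h
  calc (2 : ℤ) * 2 ^ k = 2 ^ (k + 1) := by ring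
    _ ≤ 2 ^ j := pow_le_pow_right₀ (by norm_num) hkj

theorem P_large (N : ℤ) : ∃ m, P m ∧ N < m := by
  obtain ⟨k, hk⟩ := pow_unbounded_of_one_lt N (by norm_num : (1 : ℤ) < 2)
  exact ⟨2 ^ k, ⟨k, rfl⟩, hk⟩

theorem P_aper {d N : ℤ} (h : ∀ m, N ≤ m → (P m ↔ P (m + d))) : d = 0 := by
  obtain ⟨m, hm, hm'⟩ := P_large (|N| + 2 * |d|)
  have h0 : N ≤ |N| := le_abs_self N
  have h1 : d ≤ |d| := le_abs_self d
  have h2 : -d ≤ |d| := neg_le_abs d
  have h3 : 0 ≤ |d| := abs_nonneg d
  have h4 : 0 ≤ |N| := abs_nonneg N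
  have hmd := (h m (by omega)).mp hm
  rcases lt_trichotomy d 0 with hd | hd | hd
  · have := P_double hmd hm (by omega)
    omega
  · exact hd
  · have := P_double hm hmd (by omega)
    omega

open Classical in
/-- marks `1` at the places `s - 2 ^ k` and marks `2` at the places `t + 2 ^ k` -/
noncomputable def pt (s t : ℤ) : ℤ → Fin 3 :=
  fun i => if P (s - i) then 1 else if P (i - t) then 2 else 0

theorem pt_eq_one {s t i : ℤ} : pt s t i = 1 ↔ P (s - i) := by
  unfold pt
  split_ifs with h1 h2 <;> simp [h1]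

theorem pt_eq_two {s t i : ℤ} (hst : s < t) : pt s t i = 2 ↔ P (i - t) := by
  unfold pt
  split_ifs with h1 h2
  · have := P_pos h1
    constructor
    · intro h; exact absurd h (by decide)
    · intro h; have := P_pos h; omega
  · simp [h2]
  · simp [h2]

theorem pt_shift (s t c i : ℤ) : pt s t (i + c) = pt (s - c) (t - c) i := by
  unfold pt
  have e1 : s - (i + c) = s - c - i := by ring
  have e2 : i + c - t = i - (t - c) := by ring
  rw [e1, e2]

theorem pt_left {s t s' t' i : ℤ} (hst : s < t) (hst' : s' < t') (hi : i ≤ s) :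
    pt s t i = pt s' t' (i - s + s') := by
  unfold pt
  have e1 : s' - (i - s + s') = s - i := by ring
  have n1 : ¬ P (i - t) := fun h => by have := P_pos h; omega
  have n2 : ¬ P (i - s + s' - t') := fun h => by have := P_pos h; omega
  rw [e1, if_neg n1, if_neg n2]

theorem pt_right {s t s' t' i : ℤ} (hst : s < t) (hst' : s' < t') (hi : t ≤ i) :
    pt s t i = pt s' t' (i - t + t') := by
  unfold pt
  have e1 : i - t + t' - t' = i - t := by ring
  have n1 : ¬ P (s - i) := fun h => by have := P_pos h; omega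
  have n2 : ¬ P (s' - (i - t + t')) := fun h => by have := P_pos h; omega
  rw [e1, if_neg n1, if_neg n2]

/-- the generating family -/
def O : Set (ℤ → Fin 3) := {x | ∃ s t : ℤ, s < t ∧ x = pt s t}

/-- the subshift -/
def X : Set (ℤ → Fin 3) := closure O

/-- shift by `c` -/
def sh (c : ℤ) (x : ℤ → Fin 3) : ℤ → Fin 3 := fun i => x (i + c)

theorem sh_cont (c : ℤ) : Continuous (sh c) := continuous_pi fun _ => continuous_apply _

theorem sh_pt (c s t : ℤ) : sh c (pt s t) = pt (s - c) (t - c) := funext fun i => pt_shift s t c i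

theorem sh_sh (c d : ℤ) (x : ℤ → Fin 3) : sh c (sh d x) = sh (c + d) x := by
  funext i
  simp only [sh, add_assoc]

theorem sh_zero (x : ℤ → Fin 3) : sh 0 x = x := by
  funext i
  simp only [sh, add_zero]

theorem sh_mem (c : ℤ) {x : ℤ → Fin 3} (hx : x ∈ X) : sh c x ∈ X := by
  have : MapsTo (sh c) O O := by
    rintro y ⟨s, t, hst, rfl⟩
    exact ⟨s - c, t - c, by omega, sh_pt c s t⟩
  exact this.closure (sh_cont c) hx

theorem pt_mem {s t : ℤ} (hst : s < t) : pt s t ∈ X := subset_closure ⟨s, t, hst, rfl⟩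

theorem mem_O {x : ℤ → Fin 3} (hx : x ∈ X) {i j : ℤ} (hi : x i = 1) (hj : x j = 2) : x ∈ O := by
  have hU : IsOpen {y : ℤ → Fin 3 | y i = 1 ∧ y j = 2} := by
    have hc : Continuous (fun y : ℤ → Fin 3 => (y i, y j)) := by fun_prop
    exact (isOpen_discrete {q : Fin 3 × Fin 3 | q.1 = 1 ∧ q.2 = 2}).preimage hc
  have h1 := hU.inter_closure (t := O) ⟨⟨hi, hj⟩, hx⟩
  have hfin : ({y : ℤ → Fin 3 | y i = 1 ∧ y j = 2} ∩ O).Finite := by
    refine (((Set.finite_Icc i j).prod (Set.finite_Icc i j)).image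
      (fun p : ℤ × ℤ => pt p.1 p.2)).subset ?_
    rintro y ⟨⟨h1, h2⟩, s, t, hst, rfl⟩
    have a1 := P_pos (pt_eq_one.mp h1)
    have a2 := P_pos ((pt_eq_two hst).mp h2)
    exact ⟨(s, t), ⟨⟨by omega, by omega⟩, ⟨by omega, by omega⟩⟩, rfl⟩
  rw [hfin.isClosed.closure_eq] at h1
  exact h1.2

theorem three_closed (i j p : ℤ) (Q : Fin 3 → Fin 3 → Fin 3 → Prop)
    (h : ∀ s t : ℤ, s < t → Q (pt s t i) (pt s t j) (pt s t p)) {x : ℤ → Fin 3} (hx : x ∈ X) :
    Q (x i) (x j) (x p) := by
  have hc : Continuous (fun y : ℤ → Fin 3 => (y i, y j, y p)) := by fun_prop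
  have hC : IsClosed {y : ℤ → Fin 3 | Q (y i) (y j) (y p)} :=
    (isClosed_discrete {q : Fin 3 × Fin 3 × Fin 3 | Q q.1 q.2.1 q.2.2}).preimage hc
  have : O ⊆ {y : ℤ → Fin 3 | Q (y i) (y j) (y p)} := by
    rintro y ⟨s, t, hst, rfl⟩
    exact h s t hst
  exact closure_minimal this hC hx

theorem ones_bdd {x : ℤ → Fin 3} (hx : x ∈ X) : ∃ N : ℤ, ∀ p, N ≤ p → x p ≠ 1 := by
  by_contra hcon
  push Not at hcon
  obtain ⟨i, -, hi⟩ := hcon 0
  obtain ⟨j, hij, hj⟩ := hcon (i + 1)
  obtain ⟨p, hp, hp'⟩ := hcon (2 * j - i)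
  refine three_closed i j p (fun a b c => a = 1 → b = 1 → c = 1 → False) ?_ hx hi hj hp'
  intro s t _ h1 h2 h3
  have a1 := pt_eq_one.mp h1
  have a2 := pt_eq_one.mp h2
  have a3 := P_pos (pt_eq_one.mp h3)
  have := P_double a2 a1 (by omega)
  omega

theorem twos_bdd {x : ℤ → Fin 3} (hx : x ∈ X) : ∃ N : ℤ, ∀ p, p ≤ N → x p ≠ 2 := by
  by_contra hcon
  push Not at hcon
  obtain ⟨i, -, hi⟩ := hcon 0
  obtain ⟨j, hij, hj⟩ := hcon (i - 1)
  obtain ⟨p, hp, hp'⟩ := hcon (2 * j - i)
  refine three_closed i j p (fun a b c => a = 2 → b = 2 → c = 2 → False) ?_ hx hi hj hp'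
  intro s t hst h1 h2 h3
  have a1 := (pt_eq_two hst).mp h1
  have a2 := (pt_eq_two hst).mp h2
  have a3 := P_pos ((pt_eq_two hst).mp h3)
  have := P_double a2 a1 (by omega)
  omega

theorem fin3 (a : Fin 3) (h1 : a ≠ 1) (h2 : a ≠ 2) : a = 0 := by
  revert a
  decide

section endo

variable {f : (ℤ → Fin 3) → (ℤ → Fin 3)}

theorem equivariant (hf : ∀ x ∈ X, f (fun i => x (i + 1)) = fun i => f x (i + 1)) (c : ℤ) :
    ∀ x ∈ X, f (sh c x) = sh c (f x) := by
  have h1 : ∀ x ∈ X, f (sh 1 x) = sh 1 (f x) := hf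
  induction c using Int.induction_on with
  | zero => intro x _; rw [sh_zero, sh_zero]
  | succ n ih =>
    intro x hx
    rw [add_comm, ← sh_sh, h1 _ (sh_mem _ hx), ih x hx, sh_sh]
  | pred n ih =>
    intro x hx
    have e := h1 _ (sh_mem (-(n : ℤ) - 1) hx)
    rw [sh_sh, show (1 : ℤ) + (-(n : ℤ) - 1) = -(n : ℤ) by ring, ih x hx] at e
    have e2 := congrArg (sh (-1)) e
    rw [sh_sh, sh_sh, show (-1 : ℤ) + 1 = 0 by ring, sh_zero] at e2
    rw [← e2]
    congr 1
    ring

theorem local_zero (hc : ContinuousOn f X) :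
    ∃ r : ℤ, 0 ≤ r ∧ ∀ x ∈ X, ∀ y ∈ X, (∀ i, |i| ≤ r → x i = y i) → f x 0 = f y 0 := by
  have hX : IsClosed X := isClosed_closure
  have hg : ContinuousOn (fun p : (ℤ → Fin 3) × (ℤ → Fin 3) => (f p.1 0, f p.2 0)) (X ×ˢ X) := by
    refine ContinuousOn.prodMk ?_ ?_
    · exact (continuous_apply 0).comp_continuousOn
        (hc.comp continuous_fst.continuousOn (fun p hp => hp.1))
    · exact (continuous_apply 0).comp_continuousOn
        (hc.comp continuous_snd.continuousOn (fun p hp => hp.2))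
  have hC := (hg.preimage_isClosed_of_isClosed (hX.prod hX)
    (isClosed_discrete {q : Fin 3 × Fin 3 | q.1 ≠ q.2})).isCompact
  obtain ⟨T, hT⟩ := hC.elim_finite_subfamily_closed
    (fun i : ℤ => {p : (ℤ → Fin 3) × (ℤ → Fin 3) | p.1 i = p.2 i})
    (fun i => isClosed_eq (by fun_prop) (by fun_prop))
    (by
      rw [Set.eq_empty_iff_forall_notMem]
      rintro p ⟨⟨_, hp1⟩, hp2⟩
      apply hp1
      have : p.1 = p.2 := funext fun t => Set.mem_iInter.mp hp2 t
      simp only [this])
  obtain ⟨r, hr⟩ := (T.finite_toSet.image (fun i : ℤ => |i|)).bddAbove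
  refine ⟨|r|, abs_nonneg r, fun x hx y hy hxy => ?_⟩
  by_contra hne
  have hmem : (x, y) ∈ (X ×ˢ X ∩ (fun p : (ℤ → Fin 3) × (ℤ → Fin 3) => (f p.1 0, f p.2 0)) ⁻¹'
      {q : Fin 3 × Fin 3 | q.1 ≠ q.2}) ∩
      ⋂ i ∈ T, {p : (ℤ → Fin 3) × (ℤ → Fin 3) | p.1 i = p.2 i} :=
    ⟨⟨⟨hx, hy⟩, hne⟩, Set.mem_iInter₂.mpr fun i hi =>
      hxy i ((hr ⟨i, hi, rfl⟩).trans (le_abs_self r))⟩
  rw [hT] at hmem
  exact hmem

theorem locality (hc : ContinuousOn f X)
    (hf : ∀ x ∈ X, f (fun i => x (i + 1)) = fun i => f x (i + 1)) :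
    ∃ r : ℤ, 0 ≤ r ∧ ∀ x ∈ X, ∀ y ∈ X, ∀ p q : ℤ,
      (∀ i, |i| ≤ r → x (i + p) = y (i + q)) → f x p = f y q := by
  obtain ⟨r, hr0, hr⟩ := local_zero hc
  refine ⟨r, hr0, fun x hx y hy p q h => ?_⟩
  have := hr _ (sh_mem p hx) _ (sh_mem q hy) h
  rw [equivariant hf p x hx, equivariant hf q y hy] at this
  simpa [sh] using this

theorem injunctive (hm : MapsTo f X X) (hc : ContinuousOn f X)
    (hf : ∀ x ∈ X, f (fun i => x (i + 1)) = fun i => f x (i + 1)) (hs : SurjOn f X X) :
    InjOn f X := by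
  obtain ⟨r, hr0, hr⟩ := locality hc hf
  obtain ⟨w, hw, hfw⟩ := hs (pt_mem (show (0 : ℤ) < 1 by norm_num))
  -- the preimage has a mark `2`
  have h2 : ∃ j, w j = 2 := by
    by_contra hcon
    push Not at hcon
    obtain ⟨N, hN⟩ := ones_bdd hw
    have hz : ∀ p, N ≤ p → w p = 0 := fun p hp => fin3 _ (hN p hp) (hcon p)
    have key : ∀ m, N + r ≤ m → (P m ↔ P (m + 1)) := by
      intro m hm'
      have e := hr w hw w hw (m + 1) (m + 1 + 1) (by
        intro i hi
        have := abs_le.mp hi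
        rw [hz _ (by omega), hz _ (by omega)])
      rw [hfw] at e
      have a1 := pt_eq_two (i := m + 1) (show (0 : ℤ) < 1 by norm_num)
      have a2 := pt_eq_two (i := m + 1 + 1) (show (0 : ℤ) < 1 by norm_num)
      rw [e] at a1
      rw [add_sub_cancel_right] at a1 a2
      exact a1.symm.trans a2
    exact absurd (P_aper key) one_ne_zero
  have h1 : ∃ j, w j = 1 := by
    by_contra hcon
    push Not at hcon
    obtain ⟨N, hN⟩ := twos_bdd hw
    have hz : ∀ p, p ≤ N → w p = 0 := fun p hp => fin3 _ (hcon p) (hN p hp)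
    have key : ∀ m, r - N ≤ m → (P m ↔ P (m + 1)) := by
      intro m hm'
      have e := hr w hw w hw (-m) (-(m + 1)) (by
        intro i hi
        have := abs_le.mp hi
        rw [hz _ (by omega), hz _ (by omega)])
      rw [hfw] at e
      have a1 := pt_eq_one (s := 0) (t := 1) (i := -m)
      have a2 := pt_eq_one (s := 0) (t := 1) (i := -(m + 1))
      rw [e] at a1
      rw [zero_sub, neg_neg] at a1 a2
      exact a1.symm.trans a2
    exact absurd (P_aper key) one_ne_zero
  obtain ⟨i1, hi1⟩ := h1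
  obtain ⟨i2, hi2⟩ := h2
  obtain ⟨a, b, hab, rfl⟩ := mem_O hw hi1 hi2
  -- the image of every generating point
  have himg : ∀ s t : ℤ, s < t → s - a < t - b + 1 ∧ f (pt s t) = pt (s - a) (t - b + 1) := by
    intro s t hst
    have hL : ∀ p, p ≤ s - r → f (pt s t) p = pt 0 1 (p - s + a) := by
      intro p hp
      rw [← hfw]
      refine hr _ (pt_mem hst) _ hw p _ ?_
      intro i hi
      have := abs_le.mp hi
      rw [pt_left hst hab (by omega)]
      congr 1
      ring
    have hR : ∀ p, t + r ≤ p → f (pt s t) p = pt 0 1 (p - t + b) := by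
      intro p hp
      rw [← hfw]
      refine hr _ (pt_mem hst) _ hw p _ ?_
      intro i hi
      have := abs_le.mp hi
      rw [pt_right hst hab (by omega)]
      congr 1
      ring
    obtain ⟨m1, hm1, hm1'⟩ := P_large (r - a)
    obtain ⟨m2, hm2, hm2'⟩ := P_large (r + b)
    have o1 : f (pt s t) (s - a - m1) = 1 := by
      rw [hL _ (by omega), pt_eq_one]
      convert hm1 using 1
      ring
    have o2 : f (pt s t) (t - b + 1 + m2) = 2 := by
      rw [hR _ (by omega), pt_eq_two (by norm_num)]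
      convert hm2 using 1
      ring
    obtain ⟨s', t', hst', he⟩ := mem_O (hm (pt_mem hst)) o1 o2
    have es : s' - (s - a) = 0 := by
      refine P_aper (N := r - a) (fun m hm' => ?_)
      have e := hL (s - a - m) (by omega)
      rw [he] at e
      have a1 := pt_eq_one (s := s') (t := t') (i := s - a - m)
      have a2 := pt_eq_one (s := 0) (t := 1) (i := s - a - m - s + a)
      rw [e] at a1
      have := a2.symm.trans a1
      rw [show (0 : ℤ) - (s - a - m - s + a) = m by ring,
        show s' - (s - a - m) = m + (s' - (s - a)) by ring] at this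
      exact this
    have et : (t - b + 1) - t' = 0 := by
      refine P_aper (N := r + b) (fun m hm' => ?_)
      have e := hR (t - b + 1 + m) (by omega)
      rw [he] at e
      have a1 := pt_eq_two (i := t - b + 1 + m) hst'
      have a2 := pt_eq_two (i := t - b + 1 + m - t + b) (show (0 : ℤ) < 1 by norm_num)
      rw [e] at a1
      have := a2.symm.trans a1
      rw [show t - b + 1 + m - t + b - 1 = m by ring,
        show t - b + 1 + m - t' = m + (t - b + 1 - t') by ring] at this
      exact this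
    have e1 : s' = s - a := by omega
    have e2 : t' = t - b + 1 := by omega
    subst e1 e2
    exact ⟨hst', he⟩
  have hba : b = a + 1 := by
    have := (himg 0 1 (by norm_num)).1
    omega
  have hO : EqOn f (sh a) O := by
    rintro y ⟨s, t, hst, rfl⟩
    rw [(himg s t hst).2, sh_pt, hba]
    congr 1
    ring
  have hXeq : EqOn f (sh a) X :=
    hO.of_subset_closure hc (sh_cont a).continuousOn subset_closure (fun _ h => h)
  intro x hx y hy hxy
  rw [hXeq hx, hXeq hy] at hxy
  have := congrArg (sh (-a)) hxy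
  rwa [sh_sh, sh_sh, neg_add_cancel, sh_zero, sh_zero] at this

end endo

/-- move every mark `1` one place to the left -/
def τ (x : ℤ → Fin 3) : ℤ → Fin 3 :=
  fun i => if x (i + 1) = 1 then 1 else if x i = 2 then 2 else 0

/-- move every mark `1` one place to the right -/
def τ' (x : ℤ → Fin 3) : ℤ → Fin 3 :=
  fun i => if x (i - 1) = 1 then 1 else if x i = 2 then 2 else 0

theorem τ_cont : Continuous τ := by
  refine continuous_pi fun i => ?_
  have hc : Continuous (fun y : ℤ → Fin 3 => (y (i + 1), y i)) := by fun_prop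
  exact (continuous_of_discreteTopology
    (f := fun q : Fin 3 × Fin 3 => if q.1 = 1 then (1 : Fin 3) else if q.2 = 2 then 2 else 0)).comp hc

theorem τ'_cont : Continuous τ' := by
  refine continuous_pi fun i => ?_
  have hc : Continuous (fun y : ℤ → Fin 3 => (y (i - 1), y i)) := by fun_prop
  exact (continuous_of_discreteTopology
    (f := fun q : Fin 3 × Fin 3 => if q.1 = 1 then (1 : Fin 3) else if q.2 = 2 then 2 else 0)).comp hc

theorem τ_pt {s t : ℤ} (hst : s < t) : τ (pt s t) = pt (s - 1) t := by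
  funext i
  have a1 := pt_eq_one (s := s) (t := t) (i := i + 1)
  have a2 := pt_eq_two (i := i) hst
  rw [show s - (i + 1) = s - 1 - i by ring] at a1
  change (if pt s t (i + 1) = 1 then (1 : Fin 3) else if pt s t i = 2 then 2 else 0) = _
  by_cases h1 : P (s - 1 - i)
  · rw [if_pos (a1.mpr h1), eq_comm, pt_eq_one]
    exact h1
  · rw [if_neg (fun h => h1 (a1.mp h))]
    by_cases h2 : P (i - t)
    · rw [if_pos (a2.mpr h2), eq_comm, pt_eq_two (by omega)]
      exact h2
    · rw [if_neg (fun h => h2 (a2.mp h))]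
      unfold pt
      rw [if_neg h1, if_neg h2]

theorem τ'_pt {s t : ℤ} (hst : s < t) : τ' (pt (s - 1) t) = pt s t := by
  funext i
  have a1 := pt_eq_one (s := s - 1) (t := t) (i := i - 1)
  have a2 := pt_eq_two (i := i) (show s - 1 < t by omega)
  rw [show s - 1 - (i - 1) = s - i by ring] at a1
  change (if pt (s - 1) t (i - 1) = 1 then (1 : Fin 3) else if pt (s - 1) t i = 2 then 2 else 0) = _
  by_cases h1 : P (s - i)
  · rw [if_pos (a1.mpr h1), eq_comm, pt_eq_one]
    exact h1
  · rw [if_neg (fun h => h1 (a1.mp h))]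
    by_cases h2 : P (i - t)
    · rw [if_pos (a2.mpr h2), eq_comm, pt_eq_two hst]
      exact h2
    · rw [if_neg (fun h => h2 (a2.mp h))]
      unfold pt
      rw [if_neg h1, if_neg h2]

theorem τ_one {x : ℤ → Fin 3} {i : ℤ} (h : τ x i = 1) : x (i + 1) = 1 := by
  unfold τ at h
  split_ifs at h with h1 h2
  · exact h1
  · exact absurd h (by decide)
  · exact absurd h (by decide)

theorem τ_two {x : ℤ → Fin 3} {i : ℤ} (h : τ x i = 2) : x i = 2 := by
  unfold τ at h
  split_ifs at h with h1 h2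
  · exact absurd h (by decide)
  · exact h2
  · exact absurd h (by decide)

/-- There is a finite alphabet and a closed shift-invariant set X of bi-infinite sequences on which every surjective continuous shift-commuting self-map is injective, yet some injective such self-map is not surjective. -/
theorem result :
    ∃ n : ℕ, ∃ X : Set (ℤ → Fin n),
      IsClosed X ∧
      (∀ x : ℤ → Fin n, x ∈ X ↔ (fun i => x (i + 1)) ∈ X) ∧
      (∀ f : (ℤ → Fin n) → (ℤ → Fin n),
        MapsTo f X X → ContinuousOn f X →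
        (∀ x ∈ X, f (fun i => x (i + 1)) = fun i => f x (i + 1)) →
        SurjOn f X X → InjOn f X) ∧
      ¬ (∀ f : (ℤ → Fin n) → (ℤ → Fin n),
        MapsTo f X X → ContinuousOn f X →
        (∀ x ∈ X, f (fun i => x (i + 1)) = fun i => f x (i + 1)) →
        InjOn f X → SurjOn f X X) := by
  refine ⟨3, X, isClosed_closure, fun x => ⟨fun hx => sh_mem 1 hx, fun hx => ?_⟩,
    fun f hm hc hf hs => injunctive hm hc hf hs, fun h => ?_⟩
  · have := sh_mem (-1) (x := sh 1 x) hx
    rwa [sh_sh, neg_add_cancel, sh_zero] at this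
  · have hm : MapsTo τ X X := by
      have : MapsTo τ O O := by
        rintro y ⟨s, t, hst, rfl⟩
        exact ⟨s - 1, t, by omega, τ_pt hst⟩
      exact this.closure τ_cont
    have hinv : EqOn (τ' ∘ τ) id X := by
      have : EqOn (τ' ∘ τ) id O := by
        rintro y ⟨s, t, hst, rfl⟩
        simp only [Function.comp, id, τ_pt hst, τ'_pt hst]
      exact this.closure (τ'_cont.comp τ_cont) continuous_id
    have hi : InjOn τ X := by
      intro x hx y hy hxy
      have e1 := hinv hx
      have e2 := hinv hy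
      simp only [Function.comp, id] at e1 e2
      rw [← e1, ← e2, hxy]
    have hs := h τ hm τ_cont.continuousOn (fun x _ => rfl) hi
    obtain ⟨w, hw, hfw⟩ := hs (pt_mem (show (0 : ℤ) < 1 by norm_num))
    have p1 : P 1 := ⟨0, by norm_num⟩
    have p2 : P 2 := ⟨1, by norm_num⟩
    have w0 : w (-1 + 1) = 1 := τ_one (by rw [hfw, pt_eq_one]; simpa using p1)
    have w1 : w (-2 + 1) = 1 := τ_one (by rw [hfw, pt_eq_one]; simpa using p2)
    have w2 : w 2 = 2 := τ_two (by
      rw [hfw, pt_eq_two (by norm_num), show (2 : ℤ) - 1 = 1 by norm_num]; exact p1)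
    have w3 : w 3 = 2 := τ_two (by
      rw [hfw, pt_eq_two (by norm_num), show (3 : ℤ) - 1 = 2 by norm_num]; exact p2)
    obtain ⟨s, t, hst, rfl⟩ := mem_O hw w0 w2
    have b0 := pt_eq_one.mp w0
    have b1 := pt_eq_one.mp w1
    have b2 := (pt_eq_two hst).mp w2
    have b3 := (pt_eq_two hst).mp w3
    have c0 := P_pos b0
    have c2 := P_pos b2
    have d0 := P_double b0 b1 (by omega)
    have d2 := P_double b2 b3 (by omega)
    omega

end Pool.Agent.S04759
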