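import Pool.Statements.S04773
import Pool.Agent.H905Z.GPProb

set_option autoImplicit false
open Pool Pool.MP_5c5849_an

namespace Pool.Agent.S04773

/-- There are finite q≥2 and C such that, with probability tending to 1 as n grows (uniformly in N≥n), R^n normed by the gauge of the convex hull of ±N i.i.d. standard Gaussian vectors has cotype q with constant at most C. -/
theorem result :
  ∃ q C : ℝ, 2 ≤ q ∧ 0 < C ∧ ∀ ε : ℝ, 0 < ε → ∃ n₀ : ℕ, ∀ n N : ℕ, n₀ ≤ n → n ≤ N →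
    ENNReal.ofReal (1 - ε) ≤
      (MeasureTheory.Measure.pi fun _ : Fin N =>
          MeasureTheory.Measure.pi fun _ : Fin n => ProbabilityTheory.gaussianReal 0 1)
        {g : Fin N → Fin n → ℝ | ∀ (m : ℕ) (x : Fin m → Fin n → ℝ),
          (∑ i, gauge (convexHull ℝ (Set.range g ∪ Set.range (-g))) (x i) ^ q) ^ (1 / q) ≤
            C * ((∑ s : Fin m → Fin 2,
                    gauge (convexHull ℝ (Set.range g ∪ Set.range (-g)))
                      (∑ i, ((-1 : ℝ) ^ (s i : ℕ)) • x i) ^ (2 : ℝ)) / 2 ^ m) ^ (1 / 2 : ℝ)} := by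
  have hD : 0 < Pool.Agent.H905Z.GP.bigD := by unfold Pool.Agent.H905Z.GP.bigD; norm_num
  refine ⟨2, √Pool.Agent.H905Z.GP.bigD, le_rfl, Real.sqrt_pos.2 hD, fun ε hε => ?_⟩
  obtain ⟨n₀, hn₀⟩ := exists_nat_gt (6 / ε)
  refine ⟨n₀, fun n N hn hnN => ?_⟩
  have h0 : (0 : ℝ) < n₀ := lt_trans (by positivity) hn₀
  have h1 : (n₀ : ℝ) ≤ n := by exact_mod_cast hn
  have hn' : 0 < n := by exact_mod_cast h0.trans_le h1
  obtain ⟨B, hB, hgood⟩ := Pool.Agent.H905Z.GP.good hn' hnN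
  refine ENNReal.ofReal_le_of_le_toReal ?_
  have h2 : 3 * Real.exp (-(n / 2)) ≤ ε := by
    rw [div_lt_iff₀ hε] at hn₀
    have h3 := Real.add_one_le_exp ((n : ℝ) / 2)
    rw [Real.exp_neg, ← div_eq_mul_inv, div_le_iff₀ (Real.exp_pos _)]
    nlinarith
  have h3 : (Pool.Agent.H905Z.GP.gpp N n).real Set.univ ≤
      (Pool.Agent.H905Z.GP.gpp N n).real Bᶜ + (Pool.Agent.H905Z.GP.gpp N n).real B := by
    rw [← Set.compl_union_self B]
    exact MeasureTheory.measureReal_union_le _ _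
  rw [MeasureTheory.probReal_univ] at h3
  refine le_trans (show 1 - ε ≤ (Pool.Agent.H905Z.GP.gpp N n).real Bᶜ by linarith)
    (MeasureTheory.measureReal_mono fun g hg m x => ?_)
  have h4 := hgood g hg m x
  rw [Pool.Agent.H905Z.GP.hull_eq g (hn'.trans_le hnN)]
  simp only [Real.rpow_two, ← Real.sqrt_eq_rpow]
  rw [← Real.sqrt_mul hD.le]
  exact Real.sqrt_le_sqrt h4

end Pool.Agent.S04773
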