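import Pool.Statements.S04781
import Pool.Agent.H27Z.FT.Abs

set_option autoImplicit false
open Pool Pool.MP_5ce378_an

namespace Pool.Agent.S04781

/-- For d≥2, 0<α<1 and D a nonempty bounded open convex set in R^d, any continuous φ vanishing off D with ∫(φ(x)-φ(y))/∣x-y∣^(d+α)dy = 1 (absolutely convergent) at every x in D is concave on D. -/
theorem result :
    ∀ d : ℕ, 2 ≤ d → ∀ α : ℝ, 0 < α → α < 1 →
    ∀ D : Set (EuclideanSpace ℝ (Fin d)), IsOpen D → Convex ℝ D →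
      Bornology.IsBounded D → D.Nonempty →
    ∀ φ : EuclideanSpace ℝ (Fin d) → ℝ, Continuous φ →
      (∀ x, x ∉ D → φ x = 0) →
      (∀ x ∈ D,
        MeasureTheory.Integrable (fun y => (φ x - φ y) / ‖x - y‖ ^ ((d : ℝ) + α)) ∧
        ∫ y, (φ x - φ y) / ‖x - y‖ ^ ((d : ℝ) + α) = 1) →
      ConcaveOn ℝ D φ := by
  intro d _ α hα hα1 D hD hc hb _ φ hφ hz hi
  exact Pool.Agent.H27Z.FT.concave hα hα1.le
    ⟨hφ, hz, hb, fun x hx => Pool.Agent.H27Z.FT.lim_of_abs hα hφ x (hi x hx).1 (hi x hx).2⟩ hD hc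

end Pool.Agent.S04781
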