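import Pool.Statements.S04810
import Pool.Agent.H13Z.FreeP.Frozen

set_option autoImplicit false
open Pool Pool.MP_5e7086_an

namespace Pool.Agent.S04810

/-- The negation of the preceding statement: There are 0<p<1, a metric space M and an infinite-dimensional real Banach space X such that X maps boundedly into the free p-space of M with a bounded left inverse, i.e. X is isomorphic to a complemented subspace. -/
theorem result :
    ¬ (∃ (p : ℝ), 0 < p ∧ p < 1 ∧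
    ∃ (M : Type) (_ : MetricSpace M)
      (F : Type) (_ : AddCommGroup F) (_ : Module ℝ F)
      (N : F → ℝ) (ι : (M →₀ ℝ) →ₗ[ℝ] F),
      (∀ x, 0 ≤ N x) ∧ (∀ x, N x = 0 ↔ x = 0) ∧
      (∀ (c : ℝ) (x : F), N (c • x) = |c| * N x) ∧
      (∀ x y, N (x + y) ^ p ≤ N x ^ p + N y ^ p) ∧
      (∀ s : ℕ → F, (∀ ε > 0, ∃ K : ℕ, ∀ m ≥ K, ∀ n ≥ K, N (s m - s n) < ε) →
          ∃ z, Filter.Tendsto (fun n => N (s n - z)) Filter.atTop (nhds 0)) ∧
      (∀ μ : M →₀ ℝ, μ.sum (fun _ a => a) = 0 →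
         IsGLB {t : ℝ | ∃ (n : ℕ) (b : Fin n → ℝ) (u v : Fin n → M),
             μ = ∑ j, b j • (Finsupp.single (u j) (1:ℝ) - Finsupp.single (v j) (1:ℝ)) ∧
             t = ∑ j, |b j| ^ p * dist (u j) (v j) ^ p} (N (ι μ) ^ p)) ∧
      (∀ z : F, ∀ ε > 0, ∃ μ : M →₀ ℝ, μ.sum (fun _ a => a) = 0 ∧ N (z - ι μ) < ε) ∧
      ∃ (X : Type) (_ : NormedAddCommGroup X) (_ : NormedSpace ℝ X),
        CompleteSpace X ∧ ¬ FiniteDimensional ℝ X ∧
        ∃ (T : X →ₗ[ℝ] F) (S : F →ₗ[ℝ] X),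
          (∃ C : ℝ, ∀ x, N (T x) ≤ C * ‖x‖) ∧
          (∃ C : ℝ, ∀ y, ‖S y‖ ≤ C * N y) ∧
          ∀ x, S (T x) = x) := by
  rintro ⟨p, hp, hp1, M, _, F, _, _, N, ι, h0, hz, hs, ht, -, hglb, hd, X, _, _, -, hX, T, S,
    ⟨C, hC⟩, ⟨D, hD⟩, hST⟩
  have hn : H13Z.FreeP.PSN ℝ p (fun x => N x ^ p) :=
    ⟨fun x => Real.rpow_nonneg (h0 x) _, ht, fun c x => by
      rw [hs, Real.mul_rpow (abs_nonneg _) (h0 x), Real.norm_eq_abs]⟩
  have hschur : H13Z.FreeP.SchurP p N := by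
    rcases isEmpty_or_nonempty M with hM | ⟨⟨o⟩⟩
    · intro A hA
      refine absurd (Set.Subsingleton.finite fun a _ b _ => ?_) hA
      have key : ∀ z : F, z = 0 := fun z => (hz z).1 (le_antisymm (le_of_forall_pos_le_add
        fun ε hε => by
          obtain ⟨μ, -, hμ⟩ := hd z ε hε
          rw [Subsingleton.elim μ 0, map_zero, sub_zero] at hμ
          linarith) (h0 z))
      rw [key a, key b]
    · let P : (M →₀ ℝ) →ₗ[ℝ] (M →₀ ℝ) :=
        LinearMap.id - (H13Z.FreeP.mass).smulRight (Finsupp.single o 1)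
      have hP : ∀ μ, P μ = μ - H13Z.FreeP.mass μ • Finsupp.single o 1 := fun _ => rfl
      have hP0 : ∀ μ, H13Z.FreeP.mass (P μ) = 0 := fun μ => by
        rw [hP, map_sub, map_smul, H13Z.FreeP.mass_single]; simp
      have hQ := H13Z.FreeP.psn_Q (𝕜 := ℝ) hp hp1.le (H13Z.FreeP.dp_nonneg p) (Set.mem_singleton o)
      refine H13Z.FreeP.schur_of_model hp hp1 o h0 hn (ι ∘ₗ P) (fun μ => ?_) (fun z ε hε => ?_)
      · have h1 := (hglb (P μ) (by rw [← H13Z.FreeP.mass_eq]; exact hP0 μ)).unique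
          (H13Z.FreeP.isGLB_Q hp hp1.le o (P μ) (hP0 μ))
        rw [LinearMap.comp_apply, h1]
        have h2 := H13Z.FreeP.Q_eq_zero hp hp1.le (H13Z.FreeP.dp_nonneg p) (Set.mem_singleton o)
          ((H13Z.FreeP.supp_single (Set.mem_singleton o) (1 : ℝ)).smul (H13Z.FreeP.mass μ))
        have h3 := hQ.sub μ (H13Z.FreeP.mass μ • Finsupp.single o 1)
        have h4 := hQ.le_add_sub μ (H13Z.FreeP.mass μ • Finsupp.single o 1)
        rw [hP]
        linarith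
      · obtain ⟨μ, hμ, hlt⟩ := hd z (ε ^ p⁻¹) (by positivity)
        refine ⟨μ, ?_⟩
        rw [LinearMap.comp_apply, hP, H13Z.FreeP.mass_eq, hμ, zero_smul, sub_zero]
        exact (H13Z.FreeP.rpow_lt_iff' hp (h0 _) hε.le).2 hlt
  refine hX (hschur.finiteDimensional hp hp1 T (c := (|D| + 1)⁻¹) (by positivity) (fun x => ?_) hC)
  have h1 := hD (T x)
  rw [hST] at h1
  rw [inv_mul_le_iff₀ (by positivity)]
  have h2 := h0 (T x)
  nlinarith [le_abs_self D]

end Pool.Agent.S04810
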