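import Pool.Statements.S04831
import Pool.Agent.H364Z.Tang2

set_option autoImplicit false
open Filter Topology
open Pool Pool.MP_60675c_an

namespace Pool.Agent.S04831

/-- For the equation φ' = −sin φ + B + A cos ωt, no left or right boundary of a phase-lock area L_s (s ≥ 0) touches the axis B = lω₀ (l ≥ 1) at a point with A > 0 from the right and then loses all nearby axis intersections as ω increases past ω₀. -/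
theorem result :
    ∀ (ω₀ : ℝ), 0 < ω₀ → ∀ (l : ℕ), 1 ≤ l → ∀ (s : ℕ), ∀ (A₀ : ℝ), 0 < A₀ →
    ∀ (σ : ℝ), (σ = 1 ∨ σ = -1) →
    ∀ (L : ℝ → ℝ → ℝ → Prop),
      (∀ ω B A, L ω B A ↔
        ∀ φ : ℝ → ℝ,
          (∀ t : ℝ, HasDerivAt φ (-Real.sin (φ t) + B + A * Real.cos (ω * t)) t) →
          Tendsto (fun t : ℝ => φ t / (ω * t)) atTop (𝓝 ((s : ℤ) : ℝ))) →
    ∀ (Bd : ℝ → ℝ → ℝ → Prop),
      (∀ ω B A, Bd ω B A ↔ (L ω B A ∧ ∀ B' : ℝ, 0 < σ * (B' - B) → ¬ L ω B' A)) →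
    ¬ (Bd ω₀ ((l : ℝ) * ω₀) A₀ ∧
        (∃ ε > (0 : ℝ), ∀ B A : ℝ, |B - (l : ℝ) * ω₀| < ε → |A - A₀| < ε →
            Bd ω₀ B A → (l : ℝ) * ω₀ ≤ B) ∧
        (∃ ε > (0 : ℝ), ∃ δ > (0 : ℝ), ∀ ω A : ℝ, ω₀ < ω → ω < ω₀ + δ →
            |(l : ℝ) * ω - (l : ℝ) * ω₀| < ε → |A - A₀| < ε →
            ¬ Bd ω ((l : ℝ) * ω) A)) := by
  intro ω₀ hω l hl m A₀ hA σ hσ L hL Bd hBd
  rintro ⟨h1, ⟨ε, hε, h2⟩, ⟨ε', hε', δ, hδ, h3⟩⟩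
  obtain ⟨b, hb⟩ : ∃ b : Bool, σ = if b then 1 else -1 := by
    rcases hσ with h | h
    exacts [⟨true, h⟩, ⟨false, h⟩]
  have key : ∀ ω B A, 0 < ω → (Bd ω B A ↔ H364Z.Fb b m ω⁻¹ (B / ω) (A / ω) = 0) := by
    intro ω B A h
    rw [hBd, ← H364Z.bd_orig h hb]
    simp only [hL, H364Z.rot_fa h]
  refine H364Z.no_tang_orig (σ := b) (n := l) (m := m) hω hA (by exact_mod_cast hl)
    (Int.natCast_nonneg m) hε hε' hδ ((key _ _ _ hω).1 h1)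
    (fun B A a1 a2 a3 => h2 B A a1 a2 ((key _ _ _ hω).2 a3))
    (fun ω A a1 a2 a3 a4 a5 => h3 ω A a1 a2 a3 a4 ((key _ _ _ (hω.trans a1)).2 a5))

end Pool.Agent.S04831
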