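import Pool.Statements.S04841
import Pool.Agent.H593Z.Heis

set_option autoImplicit false
open Pool Pool.MP_60e615_an

namespace Pool.Agent.S04841

/-- There is a nonempty closed shift-invariant set X of finite-alphabet bi-infinite sequences and an injective homomorphism from the discrete Heisenberg group into the group of shift-commuting homeomorphisms of X. -/
theorem result :
    ∃ (k : ℕ) (X : Set (ℤ → ℕ)), X.Nonempty ∧ IsClosed X ∧ (∀ x ∈ X, ∀ n : ℤ, x n < k) ∧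
      (∀ x : ℤ → ℕ, x ∈ X ↔ (fun n : ℤ => x (n + 1)) ∈ X) ∧
      ∃ ρ : ℤ × ℤ × ℤ → Equiv.Perm X, Function.Injective ρ ∧
        (∀ a b c a' b' c' : ℤ,
          ρ (a + a', b + b', c + c' + a * b') = ρ (a, b, c) * ρ (a', b', c')) ∧
        (∀ g : ℤ × ℤ × ℤ, Continuous (ρ g)) ∧
        (∀ g : ℤ × ℤ × ℤ, ∀ p q : X,
          ((q : ℤ → ℕ) = fun n : ℤ => (p : ℤ → ℕ) (n + 1)) →
            (((ρ g q : X) : ℤ → ℕ) = fun n : ℤ => ((ρ g p : X) : ℤ → ℕ) (n + 1))) := by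
  obtain ⟨k, F0, -⟩ := H593Z.Sim.Heis.exists_fam
  let F := F0.map Fin.val Fin.val_injective
  refine ⟨k, F.X (1 : ℤ), F.X_nonempty 1 (AddMonoidHom.id ℤ) rfl, F.X_closed 1, ?_, ?_,
    fun g => F.rho 1 ⟨g.1, g.2.1, g.2.2⟩, ?_, ?_, fun g => F.rho_cont 1 _, ?_⟩
  · intro x hx n
    obtain ⟨w, s, h⟩ := hx n 0
    have h1 := h 0 le_rfl
    rw [zero_smul, add_zero] at h1
    rw [h1]
    exact (F0.row w _).2
  · intro x
    refine ⟨fun hx => F.shift_mem 1 hx 1, fun hx => ?_⟩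
    have := F.shift_mem 1 hx (-1)
    simpa using this
  · intro g g' h
    have h1 := F.rho_inj 1 (AddMonoidHom.id ℤ) rfl h
    exact Prod.ext (congrArg H593Z.Sim.Heis.a h1)
      (Prod.ext (congrArg H593Z.Sim.Heis.b h1) (congrArg H593Z.Sim.Heis.c h1))
  · intro a b c a' b' c'
    exact (F.rho 1).map_mul ⟨a, b, c⟩ ⟨a', b', c'⟩
  · intro g p q h
    funext n
    rw [F.rho_val, F.rho_val, h]
    exact F.a_shift 1 _ p.1 1 n

end Pool.Agent.S04841
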