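import Pool.Statements.S04846
import Pool.Agent.H931Z.BandSpace

set_option autoImplicit false
open scoped FourierTransform
open Pool Pool.MP_6153ad_an

namespace Pool.Agent.S04846

/-- The negation of the preceding statement: For a compact metrizable real flow with mean dimension below a>0 and each r-periodic set of covering dimension at most ⌊ar⌋, there is a continuous injective shift-equivariant map into functions bounded by 1 whose Fourier transform is supported in [-a,a]. -/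
theorem result :
    ¬ (∀ (X : Type) [TopologicalSpace X] [CompactSpace X] [TopologicalSpace.MetrizableSpace X]
    [AddAction ℝ X] [ContinuousVAdd ℝ X] (a : ℝ), 0 < a →
    (∃ c : ℝ, c < a ∧ ∀ (k : ℕ) (α : Fin k → Set X), (∀ i, IsOpen (α i)) →
      (⋃ i, α i) = Set.univ →
      ∃ n : ℕ, 0 < n ∧ ∃ (m : ℕ) (γ : Fin m → Set X), (∀ j, IsOpen (γ j)) ∧
        (⋃ j, γ j) = Set.univ ∧
        (∀ j, ∃ s : Fin n → Fin k, γ j ⊆ {x | ∀ i : Fin n, ((i : ℕ) : ℝ) +ᵥ x ∈ α (s i)}) ∧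
        ∀ x : X, (({j : Fin m | x ∈ γ j}.ncard : ℝ) - 1 < c * n)) →
    (∀ r : ℝ, 0 < r → ∀ (k : ℕ) (α : Fin k → Set X), (∀ i, IsOpen (α i)) →
      {x : X | r +ᵥ x = x} ⊆ ⋃ i, α i →
      ∃ (m : ℕ) (γ : Fin m → Set X), (∀ j, IsOpen (γ j)) ∧
        {x : X | r +ᵥ x = x} ⊆ ⋃ j, γ j ∧
        (∀ j, ∃ i, γ j ∩ {x : X | r +ᵥ x = x} ⊆ α i) ∧
        ∀ x ∈ {x : X | r +ᵥ x = x}, {j : Fin m | x ∈ γ j}.ncard ≤ ⌊a * r⌋₊ + 1) →
    ∃ Φ : X → C(ℝ, ℝ), Continuous Φ ∧ Function.Injective Φ ∧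
      (∀ (x : X) (t : ℝ), |Φ x t| ≤ 1) ∧
      (∀ (x : X) (φ : SchwartzMap ℝ ℂ), HasCompactSupport (⇑φ) →
        Disjoint (tsupport (⇑φ)) (Set.Icc (-a) a) →
        ∫ t, ((Φ x t : ℝ) : ℂ) * 𝓕 (⇑φ : ℝ → ℂ) t = 0) ∧
      ∀ (r : ℝ) (x : X) (t : ℝ), Φ (r +ᵥ x) t = Φ x (t + r)) := by
  intro h
  obtain ⟨Φ, h1, h2, h3, h4, h5⟩ := h Pool.Agent.H931Z.Band.X 2 (by norm_num) (by
      refine ⟨3 / 2, by norm_num, fun k α hα hcov => ?_⟩
      obtain ⟨m, γ, a1, a2, a3, a4⟩ := Pool.Agent.H931Z.Band.X_dim α hα hcov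
      refine ⟨1, one_pos, m, γ, a1, a2, fun j => ?_, fun x => ?_⟩
      · obtain ⟨i, hi⟩ := a3 j
        refine ⟨fun _ => i, fun x hx l => ?_⟩
        have : l = 0 := Subsingleton.elim _ _
        subst this
        simpa using hi hx
      · have : (({j : Fin m | x ∈ γ j}.ncard : ℕ) : ℝ) ≤ 2 := by exact_mod_cast a4 x
        push_cast
        linarith) (by
      intro r hr k α hα hcov
      by_cases hne : ∃ x : Pool.Agent.H931Z.Band.X, r +ᵥ x = x
      · obtain ⟨x0, hx0⟩ := hne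
        have hr2 := Pool.Agent.H931Z.Band.period_ge hr hx0
        obtain ⟨i0, -⟩ := Set.mem_iUnion.1 (hcov hx0)
        have hcl : IsClosed {x : Pool.Agent.H931Z.Band.X | r +ᵥ x = x} :=
          isClosed_eq (continuous_const_vadd r) continuous_id
        obtain ⟨m, γ, a1, a2, a3, a4⟩ := Pool.Agent.H931Z.Band.X_dim
          (fun i => α i ∪ {x : Pool.Agent.H931Z.Band.X | r +ᵥ x = x}ᶜ)
          (fun i => (hα i).union hcl.isOpen_compl) (by
            rw [Set.eq_univ_iff_forall]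
            intro x
            by_cases hx : r +ᵥ x = x
            · obtain ⟨i, hi⟩ := Set.mem_iUnion.1 (hcov hx)
              exact Set.mem_iUnion.2 ⟨i, Or.inl hi⟩
            · exact Set.mem_iUnion.2 ⟨i0, Or.inr hx⟩)
        refine ⟨m, γ, a1, by rw [a2]; exact Set.subset_univ _, fun j => ?_, fun x _ => ?_⟩
        · obtain ⟨i, hi⟩ := a3 j
          refine ⟨i, fun x hx => ?_⟩
          rcases hi hx.1 with h | h
          · exact h
          · exact absurd hx.2 h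
        · have : 1 ≤ ⌊2 * r⌋₊ := Nat.le_floor (by push_cast; linarith)
          have := a4 x
          omega
      · refine ⟨0, Fin.elim0, fun j => j.elim0, fun x hx => absurd ⟨x, hx⟩ hne, fun j => j.elim0,
          fun x hx => absurd ⟨x, hx⟩ hne⟩)
  exact Pool.Agent.H931Z.Band.no_embedding Φ h1 h2 h3 h4 h5

end Pool.Agent.S04846
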