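import Pool.Statements.S04849
import Pool.Agent.H905Z.GPMore

set_option autoImplicit false
open MeasureTheory ProbabilityTheory
open Pool Pool.MP_61c8ab_an

namespace Pool.Agent.S04849

/-- There are q≥2 and C such that, for all N≥n with n large, with probability →1 uniformly in N, the norm whose unit ball is a random Gaussian image of the N-dim cross-polytope in ℝ^n has cotype-q constant at most C. -/
theorem result :
    ∃ q : ℝ, 2 ≤ q ∧ ∃ C : ℝ, 0 < C ∧ ∀ ε : ℝ, 0 < ε → ∃ n₀ : ℕ, ∀ n N : ℕ, n₀ ≤ n → n ≤ N →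
      1 - ε ≤ ((Measure.pi (fun _ : Fin N => Measure.pi (fun _ : Fin n => gaussianReal 0 1)))
        {g : Fin N → Fin n → ℝ |
          (∀ y : Fin n → ℝ, ∃ t : Fin N → ℝ, ∑ j, t j • g j = y) ∧
          ∀ nrm : (Fin n → ℝ) → ℝ,
            (∀ y : Fin n → ℝ, nrm y =
              sInf {s : ℝ | ∃ t : Fin N → ℝ, ∑ j, t j • g j = y ∧ ∑ j, |t j| = s}) →
            ∀ (m : ℕ) (x : Fin m → Fin n → ℝ),
              (∑ i, nrm (x i) ^ q) ^ (1 / q) ≤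
                C * ((1 / (2 : ℝ) ^ m) *
                  ∑ σ : Fin m → Bool, nrm (∑ i, (if σ i then (1 : ℝ) else -1) • x i))}).toReal := by
  have hD : 0 < Pool.Agent.H905Z.GP.bigD := by unfold Pool.Agent.H905Z.GP.bigD; norm_num
  refine ⟨2, le_rfl, √(3 * Pool.Agent.H905Z.GP.bigD), Real.sqrt_pos.2 (by positivity),
    fun ε hε => ?_⟩
  obtain ⟨n₀, hn₀⟩ := Pool.Agent.H905Z.GP.small ε hε
  refine ⟨n₀, fun n N hn hnN => ?_⟩
  obtain ⟨hn', h2⟩ := hn₀ n hn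
  obtain ⟨B, hB, hgood⟩ := Pool.Agent.H905Z.GP.good2 hn' hnN
  refine Pool.Agent.H905Z.GP.compl_bound B _ ε (hB.trans h2) fun g hg => ?_
  obtain ⟨hs, h3⟩ := hgood g hg
  refine ⟨hs, fun nrm hnrm m x => ?_⟩
  have h4 := h3 nrm (fun a => ?_) (fun y => ?_) (fun y δ hδ => ?_) m x
  · simp only [Real.rpow_two, ← Real.sqrt_eq_rpow]
    rw [← Pool.Agent.H905Z.GP.ex_bool (fun c => nrm (∑ i, c i • x i))]
    exact h4
  · rw [hnrm]
    refine csInf_le ⟨0, ?_⟩ ⟨a, rfl, rfl⟩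
    rintro _ ⟨t, _, rfl⟩
    exact Pool.Agent.H905Z.GP.l1_nonneg t
  · rw [hnrm]
    refine Real.sInf_nonneg ?_
    rintro _ ⟨t, _, rfl⟩
    exact Pool.Agent.H905Z.GP.l1_nonneg t
  · rw [hnrm]
    obtain ⟨b, hb⟩ := hs y
    obtain ⟨_, ⟨t, ht, rfl⟩, hlt⟩ := Real.lt_sInf_add_pos
      (s := {s : ℝ | ∃ t : Fin N → ℝ, ∑ j, t j • g j = y ∧ ∑ j, |t j| = s}) ⟨_, b, hb, rfl⟩ hδ
    exact ⟨t, ht, hlt.le⟩

end Pool.Agent.S04849
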