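import Pool.Statements.S04864
import Pool.Agent.H250Z.WvN.Final

set_option autoImplicit false
open Pool Pool.MP_63bee7_an

namespace Pool.Agent.S04864

/-- The negation of the preceding statement: For every von Neumann algebra A on H, the multiplier algebra of A⊗K (realized on l2(N,H)) has real rank zero: every self-adjoint element is a norm limit of self-adjoint elements of it with finite spectrum. -/
theorem result :
    ¬ (∀ (H : Type) [NormedAddCommGroup H] [InnerProductSpace ℂ H] [CompleteSpace H]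
      (A : VonNeumannAlgebra H)
      (J : Set (lp (fun _ : ℕ => H) 2 →L[ℂ] lp (fun _ : ℕ => H) 2)),
      J = {S | (∀ i j : ℕ, ∀ b ∈ A.commutant, ∀ x : H,
                (S (lp.single 2 j (b x) : lp (fun _ : ℕ => H) 2)) i
                  = b ((S (lp.single 2 j x : lp (fun _ : ℕ => H) 2)) i)) ∧
              ∀ ε : ℝ, 0 < ε → ∃ N : ℕ, ∀ x : lp (fun _ : ℕ => H) 2, ‖x‖ ≤ 1 →
                (∑' i : ℕ, ‖(S x) (i + N)‖ ^ 2) ≤ ε ∧
                (∑' i : ℕ, ‖((star S) x) (i + N)‖ ^ 2) ≤ ε} →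
      ∀ (M : Set (lp (fun _ : ℕ => H) 2 →L[ℂ] lp (fun _ : ℕ => H) 2)),
        M = {T | ∀ S ∈ J, T * S ∈ J ∧ S * T ∈ J} →
        ∀ T ∈ M, IsSelfAdjoint T → ∀ ε : ℝ, 0 < ε →
          ∃ S ∈ M, IsSelfAdjoint S ∧ (spectrum ℂ S).Finite ∧ ‖T - S‖ < ε) := by
  intro h
  obtain ⟨δ, hδ, hmain⟩ := Pool.Agent.H250Z.WvN.main
  obtain ⟨S, hSM, hS, hfin, hTS⟩ := h Pool.Agent.H250Z.WvN.HH Pool.Agent.H250Z.WvN.Atop
    Pool.Agent.H250Z.WvN.JJ rfl _ rfl Pool.Agent.H250Z.WvN.TT Pool.Agent.H250Z.WvN.TT_mem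
    Pool.Agent.H250Z.WvN.TT_sa δ hδ
  exact hmain S hS (Pool.Agent.H250Z.WvN.M1_of_mem hSM) hfin hTS

end Pool.Agent.S04864
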