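import Pool.Statements.S04892
import Pool.Agent.H55Z.Iso.Final

set_option autoImplicit false
open Pool Pool.MP_65ff7c_an

namespace Pool.Agent.S04892

/-- The negation of the preceding statement: Some absolute c>0 works in every dimension: if Ω is bounded open convex origin-symmetric and E is a half-volume relative-perimeter minimizer in Ω, some convex cone Γ has Ω∩Γ in E and Ω∩(−Γ) outside E (up to null sets), with ∣Ω∩Γ∣ ≥ c∣Ω∣. -/
theorem result :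
    ¬ (∃ c : ℝ, 0 < c ∧
      ∀ (n : ℕ) (Ω E : Set (EuclideanSpace ℝ (Fin n))),
        IsOpen Ω → Ω.Nonempty → Convex ℝ Ω → Bornology.IsBounded Ω →
        (∀ x ∈ Ω, -x ∈ Ω) →
        MeasurableSet E → E ⊆ Ω →
        MeasureTheory.volume E = MeasureTheory.volume Ω / 2 →
        (∀ F : Set (EuclideanSpace ℝ (Fin n)), MeasurableSet F → F ⊆ Ω →
          MeasureTheory.volume F = MeasureTheory.volume E →
          ∀ φ : EuclideanSpace ℝ (Fin n) → EuclideanSpace ℝ (Fin n),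
            ContDiff ℝ 1 φ → HasCompactSupport φ → tsupport φ ⊆ Ω →
            (∀ x, ‖φ x‖ ≤ 1) →
            ∀ ε : ℝ, 0 < ε →
              ∃ ψ : EuclideanSpace ℝ (Fin n) → EuclideanSpace ℝ (Fin n),
                ContDiff ℝ 1 ψ ∧ HasCompactSupport ψ ∧ tsupport ψ ⊆ Ω ∧
                (∀ x, ‖ψ x‖ ≤ 1) ∧
                (∫ x in E, LinearMap.trace ℝ (EuclideanSpace ℝ (Fin n))
                    (fderiv ℝ φ x).toLinearMap) ≤
                  (∫ x in F, LinearMap.trace ℝ (EuclideanSpace ℝ (Fin n))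
                    (fderiv ℝ ψ x).toLinearMap) + ε) →
        ∃ Γ : ConvexCone ℝ (EuclideanSpace ℝ (Fin n)),
          MeasureTheory.volume ((Ω ∩ (Γ : Set (EuclideanSpace ℝ (Fin n)))) \ E) = 0 ∧
          MeasureTheory.volume ((Ω ∩ {x | -x ∈ Γ}) ∩ E) = 0 ∧
          ENNReal.ofReal c * MeasureTheory.volume Ω ≤
            MeasureTheory.volume (Ω ∩ (Γ : Set (EuclideanSpace ℝ (Fin n))))) := by
  rintro ⟨c, hc, H⟩
  obtain ⟨Ω, E, h1, h2, h3, h4, h5, h6, h7, h8, h9, h10⟩ := Pool.Agent.H55Z.Iso.counter hc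
  obtain ⟨Γ, n1, n2, hv⟩ := H 3 Ω E h1 h2 h3 h4 h5 h6 h7 h8 (by
    intro F hF hFΩ hFv φ a1 a2 a3 a4 ε hε
    have hT : Pool.Agent.H55Z.Iso.Test Ω φ := ⟨a1, a2, a3, a4⟩
    change ∃ ψ : Pool.Agent.H55Z.Iso.V → Pool.Agent.H55Z.Iso.V,
      ContDiff ℝ 1 ψ ∧ HasCompactSupport ψ ∧ tsupport ψ ⊆ Ω ∧ (∀ x, ‖ψ x‖ ≤ 1) ∧
        (∫ x in E, Pool.Agent.H55Z.Iso.dv φ x) ≤ (∫ x in F, Pool.Agent.H55Z.Iso.dv ψ x) + ε
    by_cases ha : (∫ x in E, Pool.Agent.H55Z.Iso.dv φ x) ≤ ε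
    · refine ⟨fun _ => 0, contDiff_const, HasCompactSupport.zero, by simp, by simp, ?_⟩
      simpa [Pool.Agent.H55Z.Iso.dv] using ha
    · rw [not_le] at ha
      have k1 : ENNReal.ofReal (∫ x in E, Pool.Agent.H55Z.Iso.dv φ x) ≤
          Pool.Agent.H55Z.Iso.Per Ω E :=
        le_iSup (fun φ : {φ // Pool.Agent.H55Z.Iso.Test Ω φ} =>
          ENNReal.ofReal (∫ x in E, Pool.Agent.H55Z.Iso.dv φ.1 x)) ⟨_, hT⟩
      have k2 : ENNReal.ofReal ((∫ x in E, Pool.Agent.H55Z.Iso.dv φ x) - ε) <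
          Pool.Agent.H55Z.Iso.Per Ω F :=
        lt_of_lt_of_le ((ENNReal.ofReal_lt_ofReal_iff (by linarith)).2 (by linarith))
          (k1.trans (h9 F hF hFΩ hFv))
      obtain ⟨ψ, hψ⟩ := lt_iSup_iff.1 k2
      rw [ENNReal.ofReal_lt_ofReal_iff_of_nonneg (by linarith)] at hψ
      exact ⟨ψ.1, ψ.2.cd, ψ.2.cs, ψ.2.sub, ψ.2.nm, by linarith⟩)
  exact h10 Γ n1 n2 hv

end Pool.Agent.S04892
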