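import Pool.Statements.S04919
import Pool.Agent.H97Z.KakPlane

set_option autoImplicit false
open Pool Pool.MP_697303_an

namespace Pool.Agent.S04919

/-- For 0<k<n there is C such that for every finite field F and real f on F^n, the sum over k-dim subspaces W of (max over translates a+W of the sum of ∣f∣ on a+W)^n is at most C times #Gr(k,n) times (sum of ∣f∣^(n/k))^k. -/
theorem result :
    ∀ n k : ℕ, 0 < k → k < n → ∃ C : ℝ, 0 < C ∧
      ∀ (F : Type) [Field F] [Fintype F] (f : (Fin n → F) → ℝ),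
        (∑ᶠ W : {W : Submodule F (Fin n → F) // Module.finrank F W = k},
            (⨆ a : Fin n → F, ∑ᶠ w : W.1, |f (a + (w : Fin n → F))|) ^ n)
          ≤ C * (Nat.card {W : Submodule F (Fin n → F) // Module.finrank F W = k} : ℝ)
              * (∑ x : Fin n → F, |f x| ^ ((n : ℝ) / k)) ^ k := by
  intro n k hk hkn
  obtain ⟨k, rfl⟩ := Nat.exists_eq_succ_of_ne_zero hk.ne'
  obtain ⟨d, rfl⟩ := Nat.exists_eq_add_of_le hkn.le
  have hc := H97Z.Kak.cst_pos k d
  refine ⟨H97Z.Kak.cst k d * (k + 1) * 4 ^ (k + 1), by positivity, fun F _ _ f => ?_⟩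
  classical
  have : Finite (Submodule F (Fin (k + 1 + d) → F)) := Finite.of_injective _ SetLike.coe_injective
  let _ := Fintype.ofFinite (Submodule F (Fin (k + 1 + d) → F))
  choose a ha using fun W : Submodule F (Fin (k + 1 + d) → F) =>
    exists_eq_ciSup_of_finite (f := fun a : Fin (k + 1 + d) → F =>
      ∑ᶠ w : W, |f (a + (w : Fin (k + 1 + d) → F))|)
  have h1 := H97Z.Kak.plane_bound (fun x => |f x|) (fun _ => abs_nonneg _)
    (Module.finrank_fin_fun F) (p := ((k + 1 + d : ℕ) : ℝ) / (k + 1 : ℕ))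
    (div_mul_cancel₀ _ (by positivity)) a
  have h2 : ∀ W, W ∈ H97Z.Kak.grs F (Fin (k + 1 + d) → F) (k + 1) ↔
      Module.finrank F W = k + 1 := fun W => by simp [H97Z.Kak.grs]
  rw [finsum_eq_sum_of_fintype, Nat.card_eq_fintype_card, Fintype.card_of_subtype _ h2]
  refine le_of_eq_of_le ?_ h1
  rw [Finset.sum_subtype _ h2]
  refine Finset.sum_congr rfl fun W _ => ?_
  rw [← ha, finsum_eq_sum_of_fintype, H97Z.Kak.mass,
    Finset.sum_subtype (p := (· ∈ W.1)) _ fun x => by simp]

end Pool.Agent.S04919
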