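import Pool.Statements.S04955
import Pool.Agent.H294Z.NotBR

set_option autoImplicit false
open Pool Pool.MP_6c2b6a_an

namespace Pool.Agent.S04955

/-- Every nonreflexive real Banach space has a maximally monotone operator (graph in X×X*) that fails type (BR): some (x,x*), α,β>0 with inf over the graph of ⟨a−x,a*−x*⟩ above −αβ, yet no graph point within α of x and β of x*. -/
theorem result :
    ∀ (X : Type) [NormedAddCommGroup X] [NormedSpace ℝ X] [CompleteSpace X],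
      (∃ φ : (X →L[ℝ] ℝ) →L[ℝ] ℝ, ∀ x : X, ∃ f : X →L[ℝ] ℝ, φ f ≠ f x) →
      ∃ A : Set (X × (X →L[ℝ] ℝ)),
        (∀ p ∈ A, ∀ q ∈ A, 0 ≤ (p.2 - q.2) (p.1 - q.1)) ∧
        (∀ z : X × (X →L[ℝ] ℝ), (∀ p ∈ A, 0 ≤ (z.2 - p.2) (z.1 - p.1)) → z ∈ A) ∧
        ∃ (x : X) (xs : X →L[ℝ] ℝ) (α β : ℝ), 0 < α ∧ 0 < β ∧
          (∃ c : ℝ, -(α * β) < c ∧ ∀ p ∈ A, c ≤ (p.2 - xs) (p.1 - x)) ∧
          ∀ p ∈ A, ¬ (‖p.1 - x‖ < α ∧ ‖p.2 - xs‖ < β) := by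
  intro X _ _ _ hX
  exact Pool.Agent.H294Z.NotBR.main hX

end Pool.Agent.S04955
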