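import Pool.Statements.S04961
import Pool.Agent.H774Z.Berg.Main

set_option autoImplicit false
open MeasureTheory
open Pool Pool.MP_6c36f4_an

namespace Pool.Agent.S04961

/-- There is a domain in ℂⁿ (n ≥ 1) and reals 1 < a < b such that, for p > 1, its Bergman projection satisfies ‖Pf‖_p ≤ C‖f‖_p on L² ∩ Lᵖ exactly when a ≤ p ≤ b. -/
theorem result : ∃ n : ℕ, 1 ≤ n ∧ ∃ Ω : Set (Fin n → ℂ), IsOpen Ω ∧ IsConnected Ω ∧
    ∃ a b : ℝ, 1 < a ∧ a < b ∧ ∀ p : ℝ, 1 < p →
      ((∃ C : ℝ, ∀ f g : (Fin n → ℂ) → ℂ,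
          MemLp f 2 (volume.restrict Ω) →
          MemLp f (ENNReal.ofReal p) (volume.restrict Ω) →
          DifferentiableOn ℂ g Ω →
          MemLp g 2 (volume.restrict Ω) →
          (∀ h : (Fin n → ℂ) → ℂ, DifferentiableOn ℂ h Ω → MemLp h 2 (volume.restrict Ω) →
              ∫ z in Ω, (f z - g z) * (starRingEnd ℂ) (h z) = 0) →
          eLpNorm g (ENNReal.ofReal p) (volume.restrict Ω)
            ≤ ENNReal.ofReal C * eLpNorm f (ENNReal.ofReal p) (volume.restrict Ω))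
        ↔ (a ≤ p ∧ p ≤ b)) := by
  open Pool.Agent.H774Z.Berg in
  exact ⟨2, by norm_num, lift Om, isOpen_lift isOpen_Om, isConnected_lift, 3 / 2, 3, by norm_num,
    by norm_num, main⟩

end Pool.Agent.S04961
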