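import Pool.Statements.S04970
import Pool.Agent.H62Z.SqMain

set_option autoImplicit false
open Pool Pool.MP_6d7699_an

namespace Pool.Agent.S04970

/-- The negation of the preceding statement: For every probability measure μ on the integers with bounded angular ratio, the square function (sum over n≥1 of n·((μ^n−μ^(n+1))∗f)²)^(1/2) is weak type (1,1): the number of k with value > λ is at most A·‖f‖₁/λ. -/
theorem result :
    ¬ (∀ μ : ℤ → ℝ, (∀ k, 0 ≤ μ k) → HasSum μ 1 →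
      (∀ t : ℝ, 0 < |t| → |t| ≤ Real.pi →
        ‖∑' k : ℤ, (μ k : ℂ) * Complex.exp (((t * (k : ℝ) : ℝ) : ℂ) * Complex.I)‖ < 1) →
      (∃ C : ℝ, ∀ t : ℝ, 0 < |t| → |t| ≤ Real.pi →
        ‖1 - ∑' k : ℤ, (μ k : ℂ) * Complex.exp (((t * (k : ℝ) : ℝ) : ℂ) * Complex.I)‖
          ≤ C * (1 - ‖∑' k : ℤ, (μ k : ℂ) * Complex.exp (((t * (k : ℝ) : ℝ) : ℂ) * Complex.I)‖)) →
      ∃ A : ℝ, 0 < A ∧ ∀ f : ℤ → ℝ, Summable (fun k => |f k|) → ∀ lam : ℝ, 0 < lam →
        MeasureTheory.Measure.count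
          {k : ℤ | ENNReal.ofReal (lam ^ 2) <
            ∑' n : ℕ, ENNReal.ofReal (((n : ℝ) + 1) *
              (∑' j : ℤ,
                (Nat.iterate (fun g : ℤ → ℝ => fun m => ∑' i : ℤ, μ i * g (m - i)) (n + 1)
                    (fun m => if m = 0 then (1 : ℝ) else 0) j
                  - Nat.iterate (fun g : ℤ → ℝ => fun m => ∑' i : ℤ, μ i * g (m - i)) (n + 2)
                    (fun m => if m = 0 then (1 : ℝ) else 0) j) * f (k - j)) ^ 2)}
          ≤ ENNReal.ofReal (A * (∑' k : ℤ, |f k|) / lam)) := by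
  intro h
  obtain ⟨μ, h0, h1, hf, hI⟩ := Pool.Agent.H62Z.Sq.main
  obtain ⟨A, -, hA⟩ := h μ h0 h1 (fun t ht0 ht1 => by
      obtain ⟨y, hy0, hy1, hy⟩ := hf t
      rw [hy, Complex.norm_real, Real.norm_eq_abs, abs_of_nonneg hy0]
      have : Real.cos |t| < Real.cos 0 :=
        Real.cos_lt_cos_of_nonneg_of_le_pi le_rfl ht1 ht0
      rw [Real.cos_abs, Real.cos_zero] at this
      linarith)
    ⟨1, fun t _ _ => by
      obtain ⟨y, hy0, hy1, hy⟩ := hf t
      have hy2 : 0 ≤ 1 - y := by linarith [Real.cos_le_one t]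
      rw [hy, ← Complex.ofReal_one, ← Complex.ofReal_sub, Complex.norm_real, Complex.norm_real,
        Real.norm_eq_abs, Real.norm_eq_abs, abs_of_nonneg hy0, abs_of_nonneg hy2, one_mul]⟩
  exact hI A hA

end Pool.Agent.S04970
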