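import Pool.Statements.S04995
import Pool.Agent.H659Z.Cvx

set_option autoImplicit false
open Pool Pool.MP_6f6574_an

namespace Pool.Agent.S04995

/-- For every normalized univalent map f of the unit disc onto a convex domain, and every 0<r<1, the mean over the circle of radius r of ∣1/f'∣ is at most any upper bound M of ∣z/f(z)∣ on the punctured disc. -/
theorem result :
    ∀ f : ℂ → ℂ, DifferentiableOn ℂ f (Metric.ball 0 1) →
      Set.InjOn f (Metric.ball 0 1) → f 0 = 0 → deriv f 0 = 1 →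
      Convex ℝ (f '' Metric.ball 0 1) →
      ∀ M : ℝ, (∀ z ∈ Metric.ball (0:ℂ) 1, z ≠ 0 → ‖z / f z‖ ≤ M) →
      ∀ r : ℝ, 0 < r → r < 1 →
        (1 / (2 * Real.pi)) * ∫ θ in (0:ℝ)..(2 * Real.pi), ‖(deriv f (circleMap 0 r θ))⁻¹‖ ≤ M := by
  intro f hf hi h0 _ hc M hM r hr0 hr1
  exact Pool.Agent.H659Z.Cvx.main hf hi h0 hc hM hr0 hr1

end Pool.Agent.S04995
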