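import Pool.Statements.S05009
import Pool.Agent.H78Z.WO.J

set_option autoImplicit false
open scoped InnerProductSpace MeasureTheory
open Pool Pool.MP_707689_an

namespace Pool.Agent.S05009

/-- For commuting self-adjoint pairs (A1,A2),(B1,B2) with A_j−B_j in the Lorentz ideal (∑ s_k/√(k+1)<∞) and absolutely continuous joint spectral measure of (A1,A2), exp(−itB1)exp(itA1)x converges as t→+∞ for every x. -/
theorem result :
  ∀ (H : Type) [NormedAddCommGroup H] [InnerProductSpace ℂ H] [CompleteSpace H]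
    (A₁ A₂ B₁ B₂ : H →L[ℂ] H),
    IsSelfAdjoint A₁ → IsSelfAdjoint A₂ → IsSelfAdjoint B₁ → IsSelfAdjoint B₂ →
    Commute A₁ A₂ → Commute B₁ B₂ →
    Summable (fun k : ℕ =>
      sInf {r : ℝ | ∃ F : H →L[ℂ] H,
        Module.rank ℂ (LinearMap.range (F : H →ₗ[ℂ] H)) ≤ (k : Cardinal) ∧
        r = ‖(A₁ - B₁) - F‖} / Real.sqrt ((k : ℝ) + 1)) →
    Summable (fun k : ℕ =>
      sInf {r : ℝ | ∃ F : H →L[ℂ] H,
        Module.rank ℂ (LinearMap.range (F : H →ₗ[ℂ] H)) ≤ (k : Cardinal) ∧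
        r = ‖(A₂ - B₂) - F‖} / Real.sqrt ((k : ℝ) + 1)) →
    (∀ x : H, ∃ μ : MeasureTheory.Measure (ℝ × ℝ),
      MeasureTheory.IsFiniteMeasure μ ∧ μ ≪ MeasureTheory.volume ∧
      ∀ s t : ℝ,
        ⟪x, ((∑' n : ℕ, ((n.factorial : ℂ)⁻¹) • (((Complex.I * (s : ℂ)) • A₁) ^ n)) *
              (∑' n : ℕ, ((n.factorial : ℂ)⁻¹) • (((Complex.I * (t : ℂ)) • A₂) ^ n))) x⟫_ℂ =
          ∫ p, Complex.exp (Complex.I * ((s * p.1 + t * p.2 : ℝ) : ℂ)) ∂μ) →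
    ∀ x : H, ∃ y : H,
      Filter.Tendsto
        (fun t : ℝ =>
          (∑' n : ℕ, ((n.factorial : ℂ)⁻¹) • (((-(Complex.I * (t : ℂ))) • B₁) ^ n))
            ((∑' n : ℕ, ((n.factorial : ℂ)⁻¹) • (((Complex.I * (t : ℂ)) • A₁) ^ n)) x))
        Filter.atTop (nhds y) := by
  intro H _ _ _ A₁ A₂ B₁ B₂ hA₁ hA₂ hB₁ hB₂ hA hB k1 k2 hac x
  have hexp : ∀ X : H →L[ℂ] H,
      (∑' n : ℕ, ((n.factorial : ℂ)⁻¹) • (X ^ n)) = NormedSpace.exp X := by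
    intro X
    rw [NormedSpace.exp_eq_tsum ℂ]
  simp only [hexp] at hac ⊢
  obtain ⟨y, hy⟩ := Pool.Agent.H78Z.WO.main2 A₁ A₂ B₁ B₂ hA₁ hA₂ hB₁ hB₂ hA hB k1 k2 (fun x => by
    obtain ⟨μ, hfin, hμ, h⟩ := hac x
    refine ⟨fun p => (((μ.rnDeriv MeasureTheory.volume p).toReal : ℝ) : ℂ),
      MeasureTheory.Measure.integrable_toReal_rnDeriv.ofReal, fun s t => ?_⟩
    rw [Pool.Agent.H78Z.WO.grp_split hA, mul_comm (s : ℂ), mul_comm (t : ℂ), h,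
      ← MeasureTheory.integral_rnDeriv_smul hμ]
    simp) x
  refine ⟨y, hy.congr fun t => ?_⟩
  simp [Pool.Agent.H78Z.WO.grp, mul_comm]

end Pool.Agent.S05009
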