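import Pool.Statements.S05041
import Pool.Agent.H113Z.FB.Main

set_option autoImplicit false
open Pool Pool.MP_7235ad_an

namespace Pool.Agent.S05041

/-- For some positive masses there is an entire-time, collision-free Newtonian four-body solution in space, center of mass fixed, with negative energy, never coplanar at any instant, whose positions stay bounded for all time. -/
theorem result :
    ∃ (m : Fin 4 → ℝ) (x : Fin 4 → ℝ → EuclideanSpace ℝ (Fin 3)),
      (∀ i, 0 < m i) ∧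
      (∀ i, ContDiff ℝ 2 (x i)) ∧
      (∀ t : ℝ, ∀ i j : Fin 4, i ≠ j → x i t ≠ x j t) ∧
      (∀ t : ℝ, ∀ i : Fin 4,
        deriv (deriv (x i)) t =
          ∑ j ∈ Finset.univ.erase i, (m j / ‖x j t - x i t‖ ^ 3) • (x j t - x i t)) ∧
      (∀ t : ℝ, ∑ i, m i • x i t = 0) ∧
      (∀ t : ℝ,
        (1 / 2 : ℝ) * ∑ i, m i * ‖deriv (x i) t‖ ^ 2
          - (1 / 2 : ℝ) * ∑ i, ∑ j ∈ Finset.univ.erase i, m i * m j / ‖x i t - x j t‖ < 0) ∧
      (∀ t : ℝ, AffineIndependent ℝ (fun i => x i t)) ∧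
      (∃ R : ℝ, ∀ i : Fin 4, ∀ t : ℝ, ‖x i t‖ ≤ R) := by
  obtain ⟨ν, x, A, A1, A2, F, F1, F2, Z, Z1, Z2, s, Q, h⟩ := Pool.Agent.H113Z.FB.exists_phys
  exact h.final

end Pool.Agent.S05041
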