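import Pool.Statements.S05043
import Pool.Agent.H587Z.Markov.Main

set_option autoImplicit false
open Pool Pool.MP_725863_an

namespace Pool.Agent.S05043

/-- Take any strongly continuous semigroup of positive operators on real ℓ^1 that preserves the norm of nonnegative vectors, with T at time 1 bijective. Then T t tends to the identity in operator norm as t tends to 0, i.e. its generator is bounded. -/
theorem result :
    ∀ T : NNReal → (lp (fun _ : ℕ => ℝ) 1 →L[ℝ] lp (fun _ : ℕ => ℝ) 1),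
      T 0 = ContinuousLinearMap.id ℝ (lp (fun _ : ℕ => ℝ) 1) →
      (∀ s t : NNReal, T (s + t) = (T s).comp (T t)) →
      (∀ x : lp (fun _ : ℕ => ℝ) 1, Continuous fun t : NNReal => T t x) →
      (∀ (t : NNReal) (x : lp (fun _ : ℕ => ℝ) 1), (∀ n : ℕ, 0 ≤ x n) →
          ∀ n : ℕ, 0 ≤ (T t x) n) →
      (∀ (t : NNReal) (x : lp (fun _ : ℕ => ℝ) 1), (∀ n : ℕ, 0 ≤ x n) →
          ‖T t x‖ = ‖x‖) →
      Function.Bijective (T 1) →
      Filter.Tendsto T (nhds 0)
        (nhds (ContinuousLinearMap.id ℝ (lp (fun _ : ℕ => ℝ) 1))) := by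
  intro T h0 hadd hcont hpos hnorm hbij
  obtain ⟨C, hC, hpre⟩ := (T 1).exists_preimage_norm_le hbij.2
  refine Pool.Agent.H587Z.Markov.Sg.tendsto (C := max C 1)
    ⟨h0, hadd, hcont, fun t => ⟨hpos t, hnorm t⟩, fun x => ?_, le_max_right _ _⟩
  obtain ⟨y, hy, hy'⟩ := hpre (T 1 x)
  rw [hbij.1 hy] at hy'
  exact hy'.trans (mul_le_mul_of_nonneg_right (le_max_left _ _) (norm_nonneg _))

end Pool.Agent.S05043
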