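import Pool.Statements.S05050
import Pool.Agent.H834Z.FRecB

set_option autoImplicit false
open Pool Pool.MP_7364f6_an

namespace Pool.Agent.S05050

/-- The negation of the preceding statement: For every continuous linear operator T on a real or complex Fréchet space X, the set of vectors whose orbit returns to each of their neighbourhoods along a set of positive lower density is either all of X or a meager set. -/
theorem result :
    ¬ (∀ (𝕜 : Type) [RCLike 𝕜] (X : Type) [AddCommGroup X] [Module 𝕜 X] [Module ℝ X]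
      [IsScalarTower ℝ 𝕜 X] [UniformSpace X] [IsUniformAddGroup X] [CompleteSpace X]
      [TopologicalSpace.MetrizableSpace X] [ContinuousSMul 𝕜 X] [LocallyConvexSpace ℝ X]
      (T : X →L[𝕜] X),
      {x : X | ∀ U ∈ nhds x, ∃ δ : ℝ, 0 < δ ∧ ∃ N : ℕ, ∀ n : ℕ, N ≤ n →
          δ * (n : ℝ) ≤ ((Set.ncard {k : ℕ | k < n ∧ (T ^ k) x ∈ U} : ℕ) : ℝ)} = Set.univ ∨
      IsMeagre {x : X | ∀ U ∈ nhds x, ∃ δ : ℝ, 0 < δ ∧ ∃ N : ℕ, ∀ n : ℕ, N ≤ n →
          δ * (n : ℝ) ≤ ((Set.ncard {k : ℕ | k < n ∧ (T ^ k) x ∈ U} : ℕ) : ℝ)}) := by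
  intro h
  rcases h ℝ Pool.Agent.H834Z.FRec.X Pool.Agent.H834Z.FRec.S with h1 | h1
  · exact Pool.Agent.H834Z.FRec.main.1 h1
  · exact Pool.Agent.H834Z.FRec.main.2 h1

end Pool.Agent.S05050
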