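import Pool.Statements.S05106
import Pool.Agent.H676Z.KPP

set_option autoImplicit false
open Pool Pool.MP_7987d1_an

namespace Pool.Agent.S05106

/-- The negation of the preceding statement: For 1≤n≤8, every C² solution of Δu−u_t=u³−u for t<0 with ∣u∣≤1, ∂u/∂x_n>0 and u_t≥0 has the form u(x,t)=g(ν·x) for a unit vector ν, i.e. is one-dimensional and time-independent. -/
theorem result :
    ¬ (∀ m : ℕ, m + 1 ≤ 8 → ∀ u : EuclideanSpace ℝ (Fin (m + 1)) × ℝ → ℝ,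
    ContDiffOn ℝ 2 u {p | p.2 < 0} →
    (∀ x : EuclideanSpace ℝ (Fin (m + 1)), ∀ t : ℝ, t < 0 →
      |u (x, t)| ≤ 1 ∧
      (∑ i : Fin (m + 1), iteratedFDeriv ℝ 2 (fun y => u (y, t)) x
          (fun _ => EuclideanSpace.single i (1 : ℝ)))
        - deriv (fun s => u (x, s)) t = u (x, t) ^ 3 - u (x, t) ∧
      0 < fderiv ℝ (fun y => u (y, t)) x (EuclideanSpace.single (Fin.last m) (1 : ℝ)) ∧
      0 ≤ deriv (fun s => u (x, s)) t) →
    ∃ ν : EuclideanSpace ℝ (Fin (m + 1)), ‖ν‖ = 1 ∧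
      ∃ g : ℝ → ℝ, ∀ x : EuclideanSpace ℝ (Fin (m + 1)), ∀ t : ℝ, t < 0 →
        u (x, t) = g (inner ℝ ν x)) := by
  intro h
  obtain ⟨ν, -, g, hg⟩ := h 1 (by norm_num) (Pool.Agent.H676Z.KPP.front 1)
    (Pool.Agent.H676Z.KPP.contDiff_front 1).contDiffOn (fun x t _ => by
      obtain ⟨h1, h2, h3, h4⟩ := Pool.Agent.H676Z.KPP.admissible 1 x t
      exact ⟨h1, h2, h3, h4.le⟩)
  exact Pool.Agent.H676Z.KPP.not_stationary 1
    ((hg 0 (-1) (by norm_num)).trans (hg 0 (-2) (by norm_num)).symm)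

end Pool.Agent.S05106
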