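import Pool.Statements.S05124
import Pool.Agent.H963Z.Main

set_option autoImplicit false
open Topology
open Pool Pool.MP_7b2682_an

namespace Pool.Agent.S05124

/-- The negation of the preceding statement: For every real or complex Banach space X and bounded operator T, if the vectors whose return sets to each neighbourhood have positive lower density are dense, then some dense linear subspace consists entirely of such vectors. -/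
theorem result :
    ¬ (∀ (𝕜 : Type) [RCLike 𝕜] (X : Type) [NormedAddCommGroup X] [NormedSpace 𝕜 X]
      [CompleteSpace X] (T : X →L[𝕜] X),
      Dense {x : X | ∀ U ∈ 𝓝 x, ∃ δ : ℝ, 0 < δ ∧ ∃ N₀ : ℕ, ∀ N : ℕ, N₀ ≤ N →
          δ * (N : ℝ) ≤ (({n : ℕ | 1 ≤ n ∧ n ≤ N ∧ (T ^ n) x ∈ U}.ncard : ℕ) : ℝ)} →
      ∃ M : Submodule 𝕜 X, Dense (M : Set X) ∧
        (M : Set X) ⊆ {x : X | ∀ U ∈ 𝓝 x, ∃ δ : ℝ, 0 < δ ∧ ∃ N₀ : ℕ, ∀ N : ℕ, N₀ ≤ N →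
          δ * (N : ℝ) ≤ (({n : ℕ | 1 ≤ n ∧ n ≤ N ∧ (T ^ n) x ∈ U}.ncard : ℕ) : ℝ)}) := by
  intro h
  obtain ⟨M, hM, hsub⟩ := h ℝ (H963Z.XS ℝ) (H963Z.TX ℝ) (H963Z.frec_dense ℝ)
  obtain ⟨x, hx, hx'⟩ := H963Z.dense_meets ℝ M hM
  obtain ⟨U, hU, hU'⟩ := H963Z.not_uf ℝ x hx'
  obtain ⟨δ, hδ, N₀, hN₀⟩ := hsub hx U hU
  obtain ⟨N₁, hN₁⟩ := hU' δ hδ
  exact absurd (hN₀ (max N₀ N₁) (le_max_left _ _)) (not_le.2 (hN₁ _ (le_max_right _ _)))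

end Pool.Agent.S05124
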