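import Pool.Statements.S05134
import Pool.Agent.H431Z.ConvFinal

set_option autoImplicit false
open MeasureTheory
open Pool Pool.MP_7c1d9a_an

namespace Pool.Agent.S05134

/-- The negation of the preceding statement: There is c>0 such that for every nonnegative f in L1 and L2 of the real line, the squared L2 norm of f*f is at most (1-c) times its L1 norm times its sup norm. -/
theorem result :
    ¬ (∃ c : ℝ, 0 < c ∧
      ∀ f : ℝ → ℝ, (∀ x, 0 ≤ f x) → MemLp f 1 volume → MemLp f 2 volume →
        eLpNorm (fun x : ℝ => ∫ t : ℝ, f t * f (x - t)) 2 volume ^ 2 ≤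
          ENNReal.ofReal (1 - c) *
            eLpNorm (fun x : ℝ => ∫ t : ℝ, f t * f (x - t)) 1 volume *
            eLpNorm (fun x : ℝ => ∫ t : ℝ, f t * f (x - t)) ⊤ volume) := by
  rintro ⟨c, hc, h⟩
  obtain ⟨f, h0, h1, h2, h3⟩ := Pool.Agent.H431Z.Conv.final (min c 1) (lt_min hc one_pos)
    (min_le_right _ _)
  refine h3 ((h f h0 h1 h2).trans ?_)
  have : ENNReal.ofReal (1 - c) ≤ ENNReal.ofReal (1 - min c 1) :=
    ENNReal.ofReal_le_ofReal (by linarith [min_le_left c 1])
  gcongr

end Pool.Agent.S05134
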