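import Pool.Statements.S05140
import Pool.Agent.H67Z.Rd.Fin

set_option autoImplicit false
open Pool Pool.MP_7c4fde_an

namespace Pool.Agent.S05140

/-- The negation of the preceding statement: On every infinite-dimensional separable complex Banach space, every bounded operator with spectrum {0} has a rank-exactly-one bounded perturbation F such that T + F also has spectrum {0}. -/
theorem result :
    ¬ (∀ (X : Type) [NormedAddCommGroup X] [NormedSpace ℂ X] [CompleteSpace X]
      [TopologicalSpace.SeparableSpace X],
      ¬ FiniteDimensional ℂ X →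
      ∀ T : X →L[ℂ] X, spectrum ℂ T = {0} →
        ∃ F : X →L[ℂ] X,
          Module.finrank ℂ (LinearMap.range (F : X →ₗ[ℂ] X)) = 1 ∧
          spectrum ℂ (T + F) = {0}) := by
  intro h
  haveI := Pool.Agent.H67Z.Rd.separable_L1
  obtain ⟨F, h1, h2⟩ := h Pool.Agent.H67Z.Rd.L1 Pool.Agent.H67Z.Rd.not_finite_L1
    Pool.Agent.H67Z.Rd.T Pool.Agent.H67Z.Rd.spectrum_T
  exact Pool.Agent.H67Z.Rd.no_rank_one F h1 h2

end Pool.Agent.S05140
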