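import Pool.Statements.S05145
import Pool.Agent.H24Z.NP.Final

set_option autoImplicit false
open MeasureTheory
open Pool Pool.MP_7c725c_an

namespace Pool.Agent.S05145

/-- For every smooth closed simply connected surface in R^3, the Neumann–Poincaré operator has an eigenvalue other than 1/2 that is at least 1/6, and all its eigenvalues other than 1/2 are at most 1/6 exactly when the surface is a round sphere. -/
theorem result :
    ∀ g : EuclideanSpace ℝ (Fin 3) → ℝ,
      ContDiff ℝ ((⊤ : ℕ∞) : WithTop ℕ∞) g →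
      (∀ x, g x = 0 → gradient g x ≠ 0) →
      (∃ R : ℝ, ∀ x, R ≤ ‖x‖ → 0 < g x) →
      Set.Nonempty {x | g x = 0} →
      SimplyConnectedSpace {x | g x = 0} →
      ∀ σ : Measure (EuclideanSpace ℝ (Fin 3)),
        σ = (ENNReal.ofReal (4 * Real.pi) /
              Measure.hausdorffMeasure 2 (Metric.sphere (0 : EuclideanSpace ℝ (Fin 3)) 1)) •
            (Measure.hausdorffMeasure 2).restrict {x | g x = 0} →
      ∀ P : ℝ → Prop,
        (∀ t : ℝ, P t ↔ ∃ φ : EuclideanSpace ℝ (Fin 3) → ℝ,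
            MemLp φ 2 σ ∧ ¬ Filter.EventuallyEq (ae σ) φ 0 ∧
            ∀ᵐ x ∂σ, (1 / (4 * Real.pi)) *
                (∫ y, inner ℝ (x - y) (gradient g x) /
                    (‖gradient g x‖ * ‖x - y‖ ^ 3) * φ y ∂σ) = t * φ x) →
        (∃ t : ℝ, P t ∧ t ≠ 1 / 2 ∧ 1 / 6 ≤ t) ∧
        ((∀ t : ℝ, P t → t ≠ 1 / 2 → t ≤ 1 / 6) ↔
          ∃ c : EuclideanSpace ℝ (Fin 3), ∃ r : ℝ, 0 < r ∧ {x | g x = 0} = Metric.sphere c r) := by
  intro g hg hne hout hM hsc σ hσ P hP
  rw [Pool.Agent.H24Z.NP.sigma_eq] at hσ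
  subst hσ
  exact Pool.Agent.H24Z.NP.final g ⟨hg.of_le (by norm_cast), hne, hout⟩ hM P hP

end Pool.Agent.S05145
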