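import Pool.Statements.S05164
import Pool.Agent.H596Z.Ortho

set_option autoImplicit false
open MeasureTheory
open Pool Pool.MP_7da0cb_an

namespace Pool.Agent.S05164

/-- The negation of the preceding statement: Every orthonormal sequence in real L²[0,1] with all functions bounded by M a.e. and infinite-dimensional orthogonal complement can be extended by a sequence of functions also bounded by M a.e. to a complete orthonormal system. -/
theorem result :
    ¬ (∀ (M : ℝ) (φ : ℕ → MeasureTheory.Lp ℝ 2 (volume.restrict (Set.Icc (0:ℝ) 1))),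
      Orthonormal ℝ φ →
      (∀ n, ∀ᵐ x ∂(volume.restrict (Set.Icc (0:ℝ) 1)), |(φ n : ℝ → ℝ) x| ≤ M) →
      ¬ FiniteDimensional ℝ (Submodule.orthogonal (Submodule.span ℝ (Set.range φ))) →
      ∃ ψ : ℕ → MeasureTheory.Lp ℝ 2 (volume.restrict (Set.Icc (0:ℝ) 1)),
        (∀ k, ∀ᵐ x ∂(volume.restrict (Set.Icc (0:ℝ) 1)), |(ψ k : ℝ → ℝ) x| ≤ M) ∧
        Orthonormal ℝ (Sum.elim φ ψ) ∧
        (Submodule.span ℝ (Set.range (Sum.elim φ ψ))).topologicalClosure = ⊤) :=
  Pool.Agent.H596Z.Ortho.main

end Pool.Agent.S05164
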