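import Pool.Statements.S05168
import Pool.Agent.H27Z.NW.Main

set_option autoImplicit false
open MeasureTheory
open Pool Pool.MP_7dd24e_an

namespace Pool.Agent.S05168

/-- The negation of the preceding statement: If two nested topological spheres in R^3 bound a shell whose Newtonian potential is constant in the inner cavity, then the two surfaces are the images of concentric spheres of radii 1 and k<1 under one invertible affine map. -/
theorem result :
    ¬ (∀ (S S₁ U T₁ : Set (EuclideanSpace ℝ (Fin 3))),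
    Nonempty (S ≃ₜ Metric.sphere (0 : EuclideanSpace ℝ (Fin 3)) 1) →
    Nonempty (S₁ ≃ₜ Metric.sphere (0 : EuclideanSpace ℝ (Fin 3)) 1) →
    IsOpen U → IsConnected U → Bornology.IsBounded U → frontier U = S →
    IsOpen T₁ → IsConnected T₁ → Bornology.IsBounded T₁ → frontier T₁ = S₁ →
    closure T₁ ⊆ U →
    (∃ c : ℝ, ∀ P ∈ T₁, ∫ M in U \ closure T₁, (dist P M)⁻¹ = c) →
    ∃ (f : EuclideanSpace ℝ (Fin 3) ≃ᵃ[ℝ] EuclideanSpace ℝ (Fin 3)) (k : ℝ),
      0 < k ∧ k < 1 ∧
      S = f '' Metric.sphere (0 : EuclideanSpace ℝ (Fin 3)) 1 ∧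
      S₁ = f '' Metric.sphere (0 : EuclideanSpace ℝ (Fin 3)) k) := by
  intro H
  obtain ⟨K, hK, hne, hKb, hs, hpot⟩ := H27Z.NW.cavity
  obtain ⟨a1, a2, a3, a4, a5⟩ := H27Z.NW.star hK (by norm_num) hne hs
  obtain ⟨b1, b2, b3, b4, b5⟩ := H27Z.NW.star H27Z.NW.KK_compact (by norm_num)
    ⟨0, H27Z.NW.ball_KK (Metric.mem_ball_self two_pos)⟩ H27Z.NW.KK_star
  obtain ⟨f, k, -, -, h, -⟩ := H _ _ (interior H27Z.NW.KK) (interior K) b4 a4 isOpen_interior b1
    (H27Z.NW.KK_compact.isBounded.subset interior_subset) rfl isOpen_interior a1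
    (hK.isBounded.subset interior_subset) rfl
    (by rw [a2]; exact hKb.trans (interior_maximal H27Z.NW.ball_KK Metric.isOpen_ball))
    (by rw [a2]; exact hpot a5 b5)
  rw [b3] at h
  exact H27Z.NW.not_ellipsoid f h

end Pool.Agent.S05168
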