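import Pool.Statements.S05182
import Pool.Agent.H75Z.DixGroup

set_option autoImplicit false
open scoped InnerProductSpace
open Pool Pool.MP_7e3bdd_an

namespace Pool.Agent.S05182

/-- The negation of the preceding statement: For every irreducible inclusion N ⊆ M of factors on a separable Hilbert space and every x in M, some scalar multiple of the identity lies in the weak-operator closure of the convex hull of the unitary conjugates u x u* with u unitary in N. -/
theorem result :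
    ¬ (∀ (H : Type) [NormedAddCommGroup H] [InnerProductSpace ℂ H] [CompleteSpace H]
      [TopologicalSpace.SeparableSpace H] (N M : VonNeumannAlgebra H),
      (∀ a ∈ N, a ∈ M) →
      (∀ z ∈ M, (∀ y ∈ M, z * y = y * z) → ∃ c : ℂ, z = c • (1 : H →L[ℂ] H)) →
      (∀ z ∈ N, (∀ y ∈ N, z * y = y * z) → ∃ c : ℂ, z = c • (1 : H →L[ℂ] H)) →
      (∀ z ∈ M, (∀ y ∈ N, z * y = y * z) → ∃ c : ℂ, z = c • (1 : H →L[ℂ] H)) →
      ∀ x ∈ M, ∃ c : ℂ, ∀ (n : ℕ) (ξ η : Fin n → H) (ε : ℝ), 0 < ε →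
        ∃ y ∈ convexHull ℝ
            {T : H →L[ℂ] H | ∃ u ∈ unitary (H →L[ℂ] H), u ∈ N ∧ T = u * x * star u},
          ∀ i : Fin n, ‖⟪η i, (y - c • (1 : H →L[ℂ] H)) (ξ i)⟫_ℂ‖ < ε) := by
  obtain ⟨G, _, _, K, F, g, h1, h2, h3, h4, h5⟩ := Pool.Agent.H75Z.Dix.exists_group
  exact Pool.Agent.H75Z.Dix.counter K h1 h2 F h3 h4 g h5

end Pool.Agent.S05182
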