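import Pool.Statements.S05232
import Pool.Agent.H564Z.MonoAbs

set_option autoImplicit false
open Pool Pool.MP_826cdb_an

namespace Pool.Agent.S05232

open Pool.Agent.H564Z.Mono

/-- The negation of the preceding statement: For every real Banach space X and maximally monotone operators A, B from X to its dual with dom A meeting the interior of dom B, the sum operator A+B is maximally monotone. -/
theorem result :
    ¬ (∀ (X : Type) [NormedAddCommGroup X] [NormedSpace ℝ X] [CompleteSpace X]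
      (A B : Set (X × (X →L[ℝ] ℝ))),
      (∀ (x y : X) (a b : X →L[ℝ] ℝ), (x, a) ∈ A → (y, b) ∈ A → 0 ≤ (a - b) (x - y)) →
      (∀ (z : X) (c : X →L[ℝ] ℝ),
          (∀ (x : X) (a : X →L[ℝ] ℝ), (x, a) ∈ A → 0 ≤ (c - a) (z - x)) → (z, c) ∈ A) →
      (∀ (x y : X) (a b : X →L[ℝ] ℝ), (x, a) ∈ B → (y, b) ∈ B → 0 ≤ (a - b) (x - y)) →
      (∀ (z : X) (c : X →L[ℝ] ℝ),
          (∀ (x : X) (a : X →L[ℝ] ℝ), (x, a) ∈ B → 0 ≤ (c - a) (z - x)) → (z, c) ∈ B) →
      ({x : X | ∃ a : X →L[ℝ] ℝ, (x, a) ∈ A} ∩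
          interior {x : X | ∃ b : X →L[ℝ] ℝ, (x, b) ∈ B}).Nonempty →
      (∀ (x y : X) (a b a' b' : X →L[ℝ] ℝ),
          (x, a) ∈ A → (x, b) ∈ B → (y, a') ∈ A → (y, b') ∈ B →
          0 ≤ ((a + b) - (a' + b')) (x - y)) ∧
      (∀ (z : X) (c : X →L[ℝ] ℝ),
          (∀ (x : X) (a b : X →L[ℝ] ℝ), (x, a) ∈ A → (x, b) ∈ B →
              0 ≤ (c - (a + b)) (z - x)) →
          ∃ (a b : X →L[ℝ] ℝ), (z, a) ∈ A ∧ (z, b) ∈ B ∧ c = a + b)) := by
  intro h
  obtain ⟨M, h1, h2, ⟨p, hp, -⟩, -, h5, -, h7⟩ := main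
  have hc := (h X0 M {r | r.2 = rk r.1}
    (fun x y a b hx hy => h1 (x, a) hx (y, b) hy)
    (fun z c hz => h2 (z, c) fun r hr => hz r.1 r.2 hr)
    (by
      intro x y a b hx hy
      have ha : a = rk x := hx
      have hb : b = rk y := hy
      rw [ha, hb, ← map_sub, rk_apply]
      exact mul_self_nonneg _)
    (fun z c hz => lin_maximal rk z c fun y => hz y (rk y) rfl)
    ⟨p.1, ⟨p.2, hp⟩, by
      have : {x : X0 | ∃ b : X0 →L[ℝ] ℝ,
          (x, b) ∈ {r : X0 × (X0 →L[ℝ] ℝ) | r.2 = rk r.1}} = Set.univ :=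
        Set.eq_univ_of_forall fun x => ⟨rk x, rfl⟩
      rw [this, interior_univ]; trivial⟩).2 (1, 0) (mk 1 0) (by
      intro x a b hx hb
      have hb' : b = rk x := hb
      rw [hb', add_comm a]
      exact h7 (x, a) hx)
  obtain ⟨a, b, ha, -, -⟩ := hc
  rcases h5 _ ha with h | h
  · exact absurd h (by norm_num)
  · exact absurd h (by norm_num)

end Pool.Agent.S05232
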