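import Pool.Statements.S05247
import Pool.Agent.H596Z.Emb.Build

set_option autoImplicit false
open Classical
open Pool Pool.MP_832ffe_an

namespace Pool.Agent.S05247

/-- There exist uniformly locally finite metric spaces X, Y with an injective, compact-preserving ⋆-homomorphism from the uniform Roe algebra of X into that of Y, but no bornologous map X→Y whose fibres are uniformly bounded in size. -/
theorem result :
  ∃ (X Y : Type) (_ : MetricSpace X) (_ : MetricSpace Y),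
    (∀ r : ℝ, ∃ N : ℕ, ∀ x : X,
        (Metric.closedBall x r).Finite ∧ (Metric.closedBall x r).ncard ≤ N) ∧
    (∀ r : ℝ, ∃ N : ℕ, ∀ y : Y,
        (Metric.closedBall y r).Finite ∧ (Metric.closedBall y r).ncard ≤ N) ∧
    (∃ Φ : (lp (fun _ : X => ℂ) 2 →L[ℂ] lp (fun _ : X => ℂ) 2) →
        (lp (fun _ : Y => ℂ) 2 →L[ℂ] lp (fun _ : Y => ℂ) 2),
      (∀ a ∈ closure {T : lp (fun _ : X => ℂ) 2 →L[ℂ] lp (fun _ : X => ℂ) 2 |
              ∃ r : ℝ, ∀ x x' : X, r < dist x x' → (T (lp.single 2 x (1 : ℂ))) x' = 0},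
        ∀ b ∈ closure {T : lp (fun _ : X => ℂ) 2 →L[ℂ] lp (fun _ : X => ℂ) 2 |
              ∃ r : ℝ, ∀ x x' : X, r < dist x x' → (T (lp.single 2 x (1 : ℂ))) x' = 0},
        ∀ c : ℂ,
          Φ (a + b) = Φ a + Φ b ∧ Φ (c • a) = c • Φ a ∧
          Φ (a * b) = Φ a * Φ b ∧ Φ (star a) = star (Φ a)) ∧
      Set.InjOn Φ (closure {T : lp (fun _ : X => ℂ) 2 →L[ℂ] lp (fun _ : X => ℂ) 2 |
              ∃ r : ℝ, ∀ x x' : X, r < dist x x' → (T (lp.single 2 x (1 : ℂ))) x' = 0}) ∧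
      (∀ a ∈ closure {T : lp (fun _ : X => ℂ) 2 →L[ℂ] lp (fun _ : X => ℂ) 2 |
              ∃ r : ℝ, ∀ x x' : X, r < dist x x' → (T (lp.single 2 x (1 : ℂ))) x' = 0},
        Φ a ∈ closure {S : lp (fun _ : Y => ℂ) 2 →L[ℂ] lp (fun _ : Y => ℂ) 2 |
              ∃ r : ℝ, ∀ y y' : Y, r < dist y y' → (S (lp.single 2 y (1 : ℂ))) y' = 0}) ∧
      (∀ a ∈ closure {T : lp (fun _ : X => ℂ) 2 →L[ℂ] lp (fun _ : X => ℂ) 2 |
              ∃ r : ℝ, ∀ x x' : X, r < dist x x' → (T (lp.single 2 x (1 : ℂ))) x' = 0},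
        IsCompactOperator a → IsCompactOperator (Φ a))) ∧
    ¬ ∃ f : X → Y,
        (∀ r : ℝ, ∃ s : ℝ, ∀ x x' : X, dist x x' ≤ r → dist (f x) (f x') ≤ s) ∧
        (∃ N : ℕ, ∀ y : Y, (f ⁻¹' {y}).Finite ∧ (f ⁻¹' {y}).ncard ≤ N) := by
  obtain ⟨X, Y, mX, mY, h1, h2, ⟨F, hF⟩, h4⟩ := Pool.Agent.H596Z.Emb.main
  have key : ∀ (Z : Type) [MetricSpace Z],
      {T : lp (fun _ : Z => ℂ) 2 →L[ℂ] lp (fun _ : Z => ℂ) 2 |
        ∃ r : ℝ, ∀ x x' : Z, r < dist x x' → (T (lp.single 2 x (1 : ℂ))) x' = 0} =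
      Pool.Agent.H596Z.Roe.FP Z := by
    intro Z _
    ext T
    simp only [Pool.Agent.H812R3.KP.dl_eq_single, Pool.Agent.H596Z.Roe.FP, Set.mem_ofPred_eq]
    constructor
    · rintro ⟨r, hr⟩
      exact ⟨r, fun x y h => hr y x (by rwa [dist_comm])⟩
    · rintro ⟨r, hr⟩
      exact ⟨r, fun x y h => hr y x (by rwa [dist_comm])⟩
  have ulf : ∀ (Z : Type) [MetricSpace Z],
      (∀ r : ℝ, ∃ N : ℕ, ∀ x : Z, ∃ s : Finset Z, s.card ≤ N ∧ Metric.closedBall x r ⊆ s) →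
      ∀ r : ℝ, ∃ N : ℕ, ∀ x : Z,
        (Metric.closedBall x r).Finite ∧ (Metric.closedBall x r).ncard ≤ N := by
    intro Z _ h r
    obtain ⟨N, hN⟩ := h r
    refine ⟨N, fun x => ?_⟩
    obtain ⟨s, hs, hs'⟩ := hN x
    refine ⟨s.finite_toSet.subset hs', (Set.ncard_le_ncard hs' s.finite_toSet).trans ?_⟩
    rwa [Set.ncard_coe_finset]
  refine ⟨X, Y, mX, mY, ulf X h1, ulf Y h2, ⟨F.Φ, fun a _ b _ c =>
    ⟨F.Φ_add a b, F.Φ_smul c a, F.Φ_mul a b, F.Φ_star a⟩, F.Φ_inj.injOn, ?_,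
    fun a _ ha => F.Φ_compact ha⟩, ?_⟩
  · rw [key X, key Y]
    exact hF
  · rintro ⟨f, hf, N, hN⟩
    refine h4 f (fun r _ => hf r) N fun y => ?_
    rw [← (hN y).1.cast_ncard_eq]
    exact_mod_cast (hN y).2

end Pool.Agent.S05247
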