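import Pool.Statements.S05276
import Pool.Agent.H894Z.AB.Ops

set_option autoImplicit false
open Pool Pool.MP_85a523_an

namespace Pool.Agent.S05276

/-- The negation of the preceding statement: On a separable complex Hilbert space, every operator with trace-class self-commutator has a partner S, also with trace-class self-commutator, such that T⊕S equals a normal block operator plus a Hilbert–Schmidt operator. -/
theorem result :
    ¬ (∀ (H : Type) [NormedAddCommGroup H] [InnerProductSpace ℂ H] [CompleteSpace H]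
      [TopologicalSpace.SeparableSpace H]
      (HS TC : (H →L[ℂ] H) → Prop),
      (∀ A : H →L[ℂ] H, HS A ↔
        ∃ (ι : Type) (b : HilbertBasis ι ℂ H), Summable (fun i => ‖A (b i)‖ ^ 2)) →
      (∀ A : H →L[ℂ] H, TC A ↔
        ∃ B C : H →L[ℂ] H, HS B ∧ HS C ∧ A = B * C) →
      ∀ T : H →L[ℂ] H, TC (star T * T - T * star T) →
        ∃ S : H →L[ℂ] H, TC (star S * S - S * star S) ∧
          ∃ N11 N12 N21 N22 : H →L[ℂ] H,
            star N11 * N11 + star N21 * N21 = N11 * star N11 + N12 * star N12 ∧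
            star N11 * N12 + star N21 * N22 = N11 * star N21 + N12 * star N22 ∧
            star N12 * N11 + star N22 * N21 = N21 * star N11 + N22 * star N12 ∧
            star N12 * N12 + star N22 * N22 = N21 * star N21 + N22 * star N22 ∧
            HS (T - N11) ∧ HS N12 ∧ HS N21 ∧ HS (S - N22)) := by
  intro h
  let e : HilbertBasis (ℤ × ℤ) ℂ (lp (fun _ : ℤ × ℤ => ℂ) 2) := default
  haveI := H894Z.AB.separable_of_basis e
  obtain ⟨T, hT, hT', F, hF⟩ := H894Z.AB.exists_T e
  obtain ⟨P, p1, p2, p3⟩ := H894Z.AB.factor_of_finite e _ F hF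
  obtain ⟨S, -, N11, N12, N21, N22, h1, h2, h3, h4, ⟨ι1, b1, k1⟩, ⟨ι2, b2, k2⟩, ⟨ι3, b3, k3⟩, -⟩ :=
    h (lp (fun _ : ℤ × ℤ => ℂ) 2) _ _ (fun _ => Iff.rfl) (fun _ => Iff.rfl) T
      ⟨_, P, ⟨_, e, p1⟩, ⟨_, e, p2⟩, p3⟩
  exact H894Z.AB.not_dilatable e T hT hT' N11 N12 N21 N22 h1 h2 h3 h4
    (H894Z.AB.summable_both b1 _ k1 e).1 (H894Z.AB.summable_both b1 _ k1 e).2
    (H894Z.AB.summable_both b3 _ k3 e).1 (H894Z.AB.summable_both b2 _ k2 e).2

end Pool.Agent.S05276
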