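import Pool.Statements.S05295
import Pool.Agent.H593Z.OneSided2

set_option autoImplicit false
open Pool Pool.MP_88e1ca_an

namespace Pool.Agent.S05295

/-- There is a one-sided subshift over a finite alphabet and an automorphism (shift-commuting bijective block map) whose iterates fⁿ have radii that are unbounded yet eventually at most εn for every ε>0. -/
theorem result :
    ∃ (k : ℕ) (X : Set (ℕ → Fin k)) (f : (ℕ → Fin k) → (ℕ → Fin k)),
      (∀ x : ℕ → Fin k, (∀ m : ℕ, ∃ y ∈ X, ∀ i < m, y i = x i) → x ∈ X) ∧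
      (∀ x ∈ X, (fun i => x (i + 1)) ∈ X) ∧
      Set.MapsTo f X X ∧ Set.InjOn f X ∧ Set.SurjOn f X X ∧
      (∀ x ∈ X, f (fun i => x (i + 1)) = fun i => f x (i + 1)) ∧
      (∃ r : ℕ, ∀ x ∈ X, ∀ y ∈ X, (∀ i ≤ r, x i = y i) → f x 0 = f y 0) ∧
      (∀ R : ℕ, ∃ n : ℕ, ∃ x ∈ X, ∃ y ∈ X,
        (∀ i ≤ R, x i = y i) ∧ f^[n] x 0 ≠ f^[n] y 0) ∧
      (∀ ε : ℝ, 0 < ε → ∃ N : ℕ, ∀ n ≥ N, ∃ r : ℕ, (r : ℝ) ≤ ε * n ∧
        ∀ x ∈ X, ∀ y ∈ X, (∀ i ≤ r, x i = y i) → f^[n] x 0 = f^[n] y 0) := by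
  open H593Z.OneSided in
  obtain ⟨e⟩ : Nonempty (A ≃ Fin (Fintype.card A)) := ⟨Fintype.equivFin A⟩
  let d : (ℕ → Fin (Fintype.card H593Z.OneSided.A)) → (ℕ → H593Z.OneSided.A) :=
    fun x i => e.symm (x i)
  let c : (ℕ → H593Z.OneSided.A) → (ℕ → Fin (Fintype.card H593Z.OneSided.A)) :=
    fun x i => e (x i)
  have hdc : ∀ x, d (c x) = x := fun x => funext fun i => e.symm_apply_apply _
  have hcd : ∀ x, c (d x) = x := fun x => funext fun i => e.apply_symm_apply _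
  have hit : ∀ (n : ℕ) x, (fun x => c (H593Z.OneSided.F (d x)))^[n] x =
      c (H593Z.OneSided.F^[n] (d x)) := by
    intro n
    induction n with
    | zero => intro x; exact (hcd x).symm
    | succ n ih =>
      intro x
      rw [Function.iterate_succ_apply', Function.iterate_succ_apply', ih, hdc]
  refine ⟨Fintype.card H593Z.OneSided.A, {x | d x ∈ H593Z.OneSided.X},
    fun x => c (H593Z.OneSided.F (d x)), ?_, ?_, ?_, ?_, ?_, ?_, ?_, ?_, ?_⟩
  · intro x h
    apply H593Z.OneSided.X_closed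
    intro m
    obtain ⟨y, hy, hxy⟩ := h m
    exact ⟨d y, hy, fun i hi => congrArg e.symm (hxy i hi)⟩
  · intro x hx
    exact H593Z.OneSided.X_sh hx
  · intro x hx
    show d (c _) ∈ H593Z.OneSided.X
    rw [hdc]
    exact H593Z.OneSided.X_F hx
  · intro x hx y hy h
    have h1 := congrArg d h
    simp only [hdc] at h1
    rw [← hcd x, H593Z.OneSided.X_inj hx hy h1, hcd]
  · intro x hx
    obtain ⟨y, hy, h⟩ := H593Z.OneSided.X_surj hx
    refine ⟨c y, ?_, ?_⟩
    · show d (c y) ∈ H593Z.OneSided.X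
      rw [hdc]; exact hy
    · show c (H593Z.OneSided.F (d (c y))) = x
      rw [hdc, h, hcd]
  · intro x _
    show c (H593Z.OneSided.F (H593Z.OneSided.sh (d x))) = _
    rw [H593Z.OneSided.F_sh]
    rfl
  · refine ⟨8, fun x hx y hy h => congrArg e ?_⟩
    exact H593Z.OneSided.X_radius 0 hx hy
      (fun i hi => congrArg e.symm (h i (by omega))) (n := 1) (by norm_num)
  · intro R
    obtain ⟨n, x, hx, y, hy, h, hn⟩ := H593Z.OneSided.X_unb R
    refine ⟨n, c x, ?_, c y, ?_, fun i hi => congrArg e (h i hi), ?_⟩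
    · show d (c x) ∈ H593Z.OneSided.X
      rw [hdc]; exact hx
    · show d (c y) ∈ H593Z.OneSided.X
      rw [hdc]; exact hy
    · rw [hit, hit, hdc, hdc]
      exact fun h1 => hn (e.injective h1)
  · intro ε hε
    obtain ⟨N, hN⟩ := H593Z.OneSided.X_sublinear ε hε
    refine ⟨N, fun n hn => ?_⟩
    obtain ⟨r, hr, h⟩ := hN n hn
    refine ⟨r, hr, fun x hx y hy hxy => ?_⟩
    rw [hit, hit]
    exact congrArg e (h _ hx _ hy fun i hi => congrArg e.symm (hxy i hi))

end Pool.Agent.S05295
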