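import Pool.Statements.S05318
import Pool.Agent.H588Z.Wsc.AusEmb

set_option autoImplicit false
open Pool Pool.MP_8abf6a_an

namespace Pool.Agent.S05318

/-- The negation of the preceding statement: If a real Banach space X coarse Lipschitz embeds into a reflexive real Banach space admitting an equivalent asymptotically uniformly smooth norm, then X is itself reflexive and admits an equivalent asymptotically uniformly smooth norm. -/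
theorem result :
    ¬ (∀ (X Y : Type) [NormedAddCommGroup X] [NormedSpace ℝ X] [CompleteSpace X]
      [NormedAddCommGroup Y] [NormedSpace ℝ Y] [CompleteSpace Y],
      Function.Surjective (NormedSpace.inclusionInDoubleDual ℝ Y) →
      (∃ N : Y → ℝ, (∀ x y, N (x + y) ≤ N x + N y) ∧ (∀ (a : ℝ) x, N (a • x) = |a| * N x) ∧
        (∃ c C : ℝ, 0 < c ∧ 0 < C ∧ ∀ x, c * ‖x‖ ≤ N x ∧ N x ≤ C * ‖x‖) ∧
        ∀ ε : ℝ, 0 < ε → ∃ δ : ℝ, 0 < δ ∧ ∀ t : ℝ, 0 < t → t < δ → ∀ x : Y, N x = 1 →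
          ∃ F : Finset (Y →L[ℝ] ℝ), ∀ y : Y, (∀ g ∈ F, g y = 0) → N y ≤ t →
            N (x + y) ≤ 1 + ε * t) →
      (∃ (f : X → Y) (A B : ℝ), 0 < A ∧ 0 < B ∧ ∀ x x' : X,
        ‖x - x'‖ / A - B ≤ ‖f x - f x'‖ ∧ ‖f x - f x'‖ ≤ A * ‖x - x'‖ + B) →
      (Function.Surjective (NormedSpace.inclusionInDoubleDual ℝ X) ∧
      (∃ N : X → ℝ, (∀ x y, N (x + y) ≤ N x + N y) ∧ (∀ (a : ℝ) x, N (a • x) = |a| * N x) ∧
        (∃ c C : ℝ, 0 < c ∧ 0 < C ∧ ∀ x, c * ‖x‖ ≤ N x ∧ N x ≤ C * ‖x‖) ∧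
        ∀ ε : ℝ, 0 < ε → ∃ δ : ℝ, 0 < δ ∧ ∀ t : ℝ, 0 < t → t < δ → ∀ x : X, N x = 1 →
          ∃ F : Finset (X →L[ℝ] ℝ), ∀ y : X, (∀ g ∈ F, g y = 0) → N y ≤ t →
            N (x + y) ≤ 1 + ε * t))) := by
  intro h
  obtain ⟨-, N, h1, h2, ⟨c, C, hc, -, h3⟩, h4⟩ := h H588Z.Wsc.XB H588Z.Wsc.YB H588Z.Wsc.YB_refl
    ⟨norm, norm_add_le, fun a x => norm_smul a x, ⟨1, 1, one_pos, one_pos, fun x => by simp⟩,
      H588Z.Wsc.YB_up.aus⟩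
    ⟨H588Z.Wsc.fB, 1584, 2 * ‖H588Z.Wsc.dv‖ + 1, by norm_num, by positivity, H588Z.Wsc.fB_cl⟩
  refine H588Z.Wsc.not_aus N h1 h2 hc h3 fun ε hε => ?_
  obtain ⟨δ, hδ, h5⟩ := h4 ε hε
  refine ⟨δ, hδ, fun t ht htδ x hx => ?_⟩
  obtain ⟨F, hF⟩ := h5 t ht htδ x hx
  obtain ⟨E, e1, e2, e3⟩ := H588Z.Wsc.exists_sub F
  exact ⟨E, e1, e2, fun y hy => hF y (e3 y hy)⟩

end Pool.Agent.S05318
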