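import Pool.Statements.S05360
import Pool.Agent.H145Z.PF.I

set_option autoImplicit false
open Pool Pool.MP_8de585_an

namespace Pool.Agent.S05360

/-- The negation of the preceding statement: Every real or complex Banach space in which, for each operator T, the identity factors through T or through I−T, is primary: for each bounded projection P, X is isomorphic to the range of P or of I−P. -/
theorem result :
    ¬ (∀ (𝕜 : Type) [RCLike 𝕜] (X : Type) [NormedAddCommGroup X] [NormedSpace 𝕜 X]
      [CompleteSpace X],
      (∀ T : X →L[𝕜] X,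
          (∃ A B : X →L[𝕜] X, A * T * B = 1) ∨
          (∃ A B : X →L[𝕜] X, A * ((1 : X →L[𝕜] X) - T) * B = 1)) →
      ∀ P : X →L[𝕜] X, P * P = P →
        Nonempty (X ≃L[𝕜] LinearMap.range (P : X →ₗ[𝕜] X)) ∨
        Nonempty (X ≃L[𝕜] LinearMap.range
          (((1 : X →L[𝕜] X) - P : X →L[𝕜] X) : X →ₗ[𝕜] X))) := by
  intro h
  exact H145Z.PF.not_primary (h ℝ H145Z.PF.X H145Z.PF.pfp _ H145Z.PF.p_idem)

end Pool.Agent.S05360
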