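import Pool.Statements.S05384
import Pool.Agent.H281Z.HomE

set_option autoImplicit false
open Pool Pool.MP_908b95_an

namespace Pool.Agent.S05384

/-- The negation of the preceding statement: If T on a Hilbert space has spectrum in the closed disc and each Möbius image φ(T) equals ΓTΓ⁻¹ with ‖Γ‖, ‖Γ⁻¹‖ bounded by one constant C, then some invertible S makes STS⁻¹ homogeneous (every φ(STS⁻¹) unitarily equivalent to STS⁻¹). -/
theorem result :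
    ¬ (∀ (H : Type) [NormedAddCommGroup H] [InnerProductSpace ℂ H] [CompleteSpace H]
      (T : H →L[ℂ] H),
      spectrum ℂ T ⊆ Metric.closedBall (0 : ℂ) 1 →
      (∃ C : ℝ, ∀ (θ : ℝ) (a : ℂ), ‖a‖ < 1 →
        ∃ Γ : (H →L[ℂ] H)ˣ,
          ‖(Γ : H →L[ℂ] H)‖ ≤ C ∧
          ‖((Γ⁻¹ : (H →L[ℂ] H)ˣ) : H →L[ℂ] H)‖ ≤ C ∧
          Complex.exp ((θ : ℂ) * Complex.I) •
              ((T - a • (1 : H →L[ℂ] H)) *
                Ring.inverse ((1 : H →L[ℂ] H) - (starRingEnd ℂ a) • T))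
            = (Γ : H →L[ℂ] H) * T * ((Γ⁻¹ : (H →L[ℂ] H)ˣ) : H →L[ℂ] H)) →
      ∃ S : (H →L[ℂ] H)ˣ, ∀ (θ : ℝ) (a : ℂ), ‖a‖ < 1 →
        ∃ U ∈ unitary (H →L[ℂ] H),
          Complex.exp ((θ : ℂ) * Complex.I) •
              (((S : H →L[ℂ] H) * T * ((S⁻¹ : (H →L[ℂ] H)ˣ) : H →L[ℂ] H)
                  - a • (1 : H →L[ℂ] H)) *
                Ring.inverse ((1 : H →L[ℂ] H) - (starRingEnd ℂ a) •
                  ((S : H →L[ℂ] H) * T * ((S⁻¹ : (H →L[ℂ] H)ˣ) : H →L[ℂ] H))))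
            = U * ((S : H →L[ℂ] H) * T * ((S⁻¹ : (H →L[ℂ] H)ˣ) : H →L[ℂ] H)) * star U) := by
  intro h
  obtain ⟨A, hA, hg⟩ := Pool.Agent.H281Z.Hom.exists_good
  obtain ⟨C, hC⟩ := hg.tw
  obtain ⟨S, hS⟩ := h _ (Pool.Agent.H281Z.Hom.TT A hA) (Pool.Agent.H281Z.Hom.TT_spec A hA)
    ⟨C, fun θ a ha => Pool.Agent.H281Z.Hom.TT_twist A hA C hC _ a
      (Complex.norm_exp_ofReal_mul_I θ) ha⟩
  obtain ⟨U, hU, hE⟩ := hS Real.pi 0 (by simp)
  rw [Complex.exp_pi_mul_I] at hE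
  simp only [zero_smul, sub_zero, map_zero, Ring.inverse_one, mul_one, neg_smul, one_smul] at hE
  exact Pool.Agent.H281Z.Hom.no_sim A hA hg S U hU hE

end Pool.Agent.S05384
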