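import Pool.Statements.S05416
import Pool.Agent.H771Z.DM.Geo4
import Pool.Agent.H771Z.DM.MinMax

set_option autoImplicit false
open Pool Pool.MP_92c74b_an

namespace Pool.Agent.S05416

/-- The negation of the preceding statement: For n ≥ 3 and k ≥ 1 there is C such that, for every bounded connected open Ω in ℝⁿ, at most C indices j have min-max Dirichlet eigenvalue λ_j(Ω) equal to λ_k(Ω). -/
theorem result :
    ¬ (∀ n : ℕ, 3 ≤ n → ∀ k : ℕ, 1 ≤ k → ∃ C : ℕ,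
    ∀ Ω : Set (EuclideanSpace ℝ (Fin n)), IsOpen Ω → IsConnected Ω → Bornology.IsBounded Ω →
    ∀ lam : ℕ → ℝ,
      (∀ j : ℕ, lam j = sInf ((fun V : Submodule ℝ (EuclideanSpace ℝ (Fin n) → ℝ) =>
          sSup ((fun f : EuclideanSpace ℝ (Fin n) → ℝ =>
            (∫ x, ‖fderiv ℝ f x‖ ^ 2) / (∫ x, f x ^ 2)) '' {f | f ∈ V ∧ f ≠ 0})) ''
        {V : Submodule ℝ (EuclideanSpace ℝ (Fin n) → ℝ) | Module.finrank ℝ V = j ∧
          ∀ f ∈ V, ContDiff ℝ ((⊤ : ℕ∞) : WithTop ℕ∞) f ∧ HasCompactSupport f ∧ tsupport f ⊆ Ω})) →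
      ∀ S : Finset ℕ, (∀ j ∈ S, 1 ≤ j ∧ lam j = lam k) → S.card ≤ C) := by
  intro h
  obtain ⟨C, hC⟩ := h 3 le_rfl 2 (by norm_num)
  obtain ⟨Ω, h1, h2, h3, E, ψ, hψ, h4, u, hu, ho, hE⟩ :=
    Pool.Agent.H771Z.DM.exists_domain (m := C + 2) (by omega)
  have key := fun (j : ℕ) (hj2 : 2 ≤ j) (hj : j ≤ C + 2) =>
    Pool.Agent.H771Z.DM.minmax_eq hψ h4 hu ho hE hj2 hj
  have := hC Ω h1 h2 h3 _ (fun _ => rfl) (Finset.Icc 2 (C + 2)) (fun j hj => by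
    rw [Finset.mem_Icc] at hj
    exact ⟨by omega, (key j hj.1 hj.2).trans (key 2 le_rfl (by omega)).symm⟩)
  rw [Nat.card_Icc] at this
  omega

end Pool.Agent.S05416
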