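import Pool.Statements.S05418
import Pool.Agent.H198Z.Landis.H

set_option autoImplicit false
open MeasureTheory
open Pool Pool.MP_92d530_an

namespace Pool.Agent.S05418

/-- The negation of the preceding statement: In every dimension d≥1 and for every bound M, there is C>0 such that any real weak solution of −Δu+Vu=0 with real ∣V∣≤M and ∣u(x)∣≤e^{−C∣x∣} vanishes almost everywhere. -/
theorem result :
    ¬ (∀ d : ℕ, 1 ≤ d → ∀ M : ℝ, 0 < M → ∃ C : ℝ, 0 < C ∧
      ∀ V u : EuclideanSpace ℝ (Fin d) → ℝ, Measurable V → Measurable u →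
        (∀ x, |V x| ≤ M) →
        (∀ x, |u x| ≤ Real.exp (-(C * ‖x‖))) →
        (∀ φ : EuclideanSpace ℝ (Fin d) → ℝ, ContDiff ℝ 2 φ → HasCompactSupport φ →
          ∫ x, (-(u x * ∑ i : Fin d,
                  iteratedFDeriv ℝ 2 φ x (fun _ => EuclideanSpace.single i (1 : ℝ)))
                + V x * u x * φ x) = 0) →
        ∀ᵐ x ∂(volume : Measure (EuclideanSpace ℝ (Fin d))), u x = 0) := by
  intro h
  obtain ⟨C, -, hC⟩ := h 4 (by norm_num) 2 (by norm_num)
  obtain ⟨V, u, hV, hu, h1, h2, h3, h4⟩ := Pool.Agent.H198Z.Landis.main C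
  refine h4 (hC V u hV hu h1 h2 fun φ hφ hc => ?_)
  simp only [Pool.Agent.H198Z.Landis.iter_eq hφ]
  exact h3 φ hφ hc

end Pool.Agent.S05418
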