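import Pool.Statements.S05431
import Pool.Agent.H848Z.AngF

set_option autoImplicit false
open Pool Pool.MP_937c79_an

namespace Pool.Agent.S05431

/-- For every angle α strictly between 0 and π there is c<1 such that, for all n≥2, every Borel set in R^n with Hausdorff dimension above c·n has three distinct points x,y,z with angle xyz (vertex y) equal to α. -/
theorem result :
    ∀ α : ℝ, 0 < α → α < Real.pi →
      ∃ c : ℝ, c < 1 ∧
        ∀ n : ℕ, 2 ≤ n →
          ∀ E : Set (EuclideanSpace ℝ (Fin n)), MeasurableSet E →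
            ENNReal.ofReal (c * (n : ℝ)) < dimH E →
              ∃ x ∈ E, ∃ y ∈ E, ∃ z ∈ E,
                x ≠ y ∧ y ≠ z ∧ x ≠ z ∧ EuclideanGeometry.angle x y z = α :=
  fun α h0 h1 => Pool.Agent.H848Z.Ang.angles α h0 h1

end Pool.Agent.S05431
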