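import Pool.Statements.S05448
import Pool.Agent.H361Z.PM.Main

set_option autoImplicit false
open MeasureTheory
open Pool Pool.MP_948e80_an

namespace Pool.Agent.S05448

/-- The negation of the preceding statement: For N≥2, m>1, 0<s<1, T>0 and nonnegative u₀ in L¹∩L^∞, any two nonnegative weak solutions of ∂ₜu = ∇·(u^{m-1}∇(-Δ)^{-s}u) with datum u₀ (weak Riesz-potential gradient, C¹ tests) agree a.e. on ℝᴺ×(0,T). -/
theorem result :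
    ¬ (∀ (N : ℕ), 2 ≤ N → ∀ (m s T : ℝ), 1 < m → 0 < s → s < 1 → 0 < T →
  ∀ u₀ : EuclideanSpace ℝ (Fin N) → ℝ, (∀ x, 0 ≤ u₀ x) →
    MemLp u₀ 1 (volume : Measure (EuclideanSpace ℝ (Fin N))) →
    MemLp u₀ ⊤ (volume : Measure (EuclideanSpace ℝ (Fin N))) →
  ∀ u v : EuclideanSpace ℝ (Fin N) × ℝ → ℝ,
  (∀ w ∈ ({u, v} : Set (EuclideanSpace ℝ (Fin N) × ℝ → ℝ)),
    (∀ p, 0 ≤ w p) ∧
    LocallyIntegrableOn w ((Set.univ : Set (EuclideanSpace ℝ (Fin N))) ×ˢ Set.Ioo (0:ℝ) T)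
      (volume : Measure (EuclideanSpace ℝ (Fin N) × ℝ)) ∧
    (∀ᵐ p ∂((volume : Measure (EuclideanSpace ℝ (Fin N) × ℝ)).restrict
        ((Set.univ : Set (EuclideanSpace ℝ (Fin N))) ×ˢ Set.Ioo (0:ℝ) T)),
      Integrable (fun y : EuclideanSpace ℝ (Fin N) => ‖p.1 - y‖ ^ (2 * s - (N:ℝ)) * w (y, p.2))
        (volume : Measure (EuclideanSpace ℝ (Fin N)))) ∧
    LocallyIntegrableOn
      (fun p : EuclideanSpace ℝ (Fin N) × ℝ =>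
        ∫ y : EuclideanSpace ℝ (Fin N), ‖p.1 - y‖ ^ (2 * s - (N:ℝ)) * w (y, p.2))
      ((Set.univ : Set (EuclideanSpace ℝ (Fin N))) ×ˢ Set.Ioo (0:ℝ) T)
      (volume : Measure (EuclideanSpace ℝ (Fin N) × ℝ)) ∧
    ∃ G : EuclideanSpace ℝ (Fin N) × ℝ → EuclideanSpace ℝ (Fin N),
      LocallyIntegrableOn G ((Set.univ : Set (EuclideanSpace ℝ (Fin N))) ×ˢ Set.Ioo (0:ℝ) T)
        (volume : Measure (EuclideanSpace ℝ (Fin N) × ℝ)) ∧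
      LocallyIntegrableOn (fun p => w p ^ (m - 1) • G p)
        ((Set.univ : Set (EuclideanSpace ℝ (Fin N))) ×ˢ Set.Ioo (0:ℝ) T)
        (volume : Measure (EuclideanSpace ℝ (Fin N) × ℝ)) ∧
      (∀ ψ : EuclideanSpace ℝ (Fin N) × ℝ → ℝ, ContDiff ℝ 1 ψ → HasCompactSupport ψ →
        tsupport ψ ⊆ ((Set.univ : Set (EuclideanSpace ℝ (Fin N))) ×ˢ Set.Ioo (0:ℝ) T) →
        ∀ e : EuclideanSpace ℝ (Fin N),
          ∫ p : EuclideanSpace ℝ (Fin N) × ℝ,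
              (Real.Gamma ((N:ℝ) / 2 - s) / ((4:ℝ) ^ s * Real.pi ^ ((N:ℝ) / 2) * Real.Gamma s)) *
              (∫ y : EuclideanSpace ℝ (Fin N), ‖p.1 - y‖ ^ (2 * s - (N:ℝ)) * w (y, p.2)) *
              fderiv ℝ ψ p (e, (0:ℝ))
            = - ∫ p : EuclideanSpace ℝ (Fin N) × ℝ, inner ℝ (G p) e * ψ p) ∧
      (∀ φ : EuclideanSpace ℝ (Fin N) × ℝ → ℝ, ContDiff ℝ 1 φ → HasCompactSupport φ →
        tsupport φ ⊆ {p : EuclideanSpace ℝ (Fin N) × ℝ | p.2 < T} →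
        IntegrableOn (fun p => w p * fderiv ℝ φ p ((0 : EuclideanSpace ℝ (Fin N)), (1:ℝ)))
          ((Set.univ : Set (EuclideanSpace ℝ (Fin N))) ×ˢ Set.Ioo (0:ℝ) T)
          (volume : Measure (EuclideanSpace ℝ (Fin N) × ℝ)) ∧
        IntegrableOn (fun p => w p ^ (m - 1) * fderiv ℝ φ p (G p, (0:ℝ)))
          ((Set.univ : Set (EuclideanSpace ℝ (Fin N))) ×ˢ Set.Ioo (0:ℝ) T)
          (volume : Measure (EuclideanSpace ℝ (Fin N) × ℝ)) ∧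
        (∫ p in ((Set.univ : Set (EuclideanSpace ℝ (Fin N))) ×ˢ Set.Ioo (0:ℝ) T),
            w p * fderiv ℝ φ p ((0 : EuclideanSpace ℝ (Fin N)), (1:ℝ)))
          - (∫ p in ((Set.univ : Set (EuclideanSpace ℝ (Fin N))) ×ˢ Set.Ioo (0:ℝ) T),
            w p ^ (m - 1) * fderiv ℝ φ p (G p, (0:ℝ)))
          + (∫ x : EuclideanSpace ℝ (Fin N), u₀ x * φ (x, (0:ℝ))) = 0)) →
  u =ᵐ[(volume : Measure (EuclideanSpace ℝ (Fin N) × ℝ)).restrict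
        ((Set.univ : Set (EuclideanSpace ℝ (Fin N))) ×ˢ Set.Ioo (0:ℝ) T)] v) := by
  intro h
  have hN : (Pool.Agent.H361Z.PM.dm (EuclideanSpace ℝ (Fin 2)) : ℝ) = 2 := by
    simp [Pool.Agent.H361Z.PM.dm]
  obtain ⟨u, v, G, H, hu, hv, hne⟩ := Pool.Agent.H361Z.PM.exists_two
    (E := EuclideanSpace ℝ (Fin 2)) (a := ((2 : ℕ) : ℝ) - 2 * (3 / 4)) (m := 3 / 2) (T := 1)
    (cP := Real.Gamma (((2 : ℕ) : ℝ) / 2 - 3 / 4) /
      ((4 : ℝ) ^ (3 / 4 : ℝ) * Real.pi ^ (((2 : ℕ) : ℝ) / 2) * Real.Gamma (3 / 4)))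
    (by norm_num) (by rw [hN]; norm_num) (by norm_num) (by norm_num) one_pos
    (div_pos (Real.Gamma_pos_of_pos (by norm_num))
      (mul_pos (by positivity) (Real.Gamma_pos_of_pos (by norm_num))))
  refine hne (h 2 le_rfl (3 / 2) (3 / 4) 1 (by norm_num) (by norm_num) (by norm_num) one_pos
    (Pool.Agent.H361Z.PM.cb 1) (Pool.Agent.H361Z.PM.cb_nonneg 1)
    (memLp_one_iff_integrable.2 Pool.Agent.H361Z.PM.integrable_cb)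
    Pool.Agent.H361Z.PM.memLp_cb_top u v ?_)
  have e : (2 * (3 / 4) - ((2 : ℕ) : ℝ) : ℝ) = -(((2 : ℕ) : ℝ) - 2 * (3 / 4)) := by ring
  rw [e]
  intro w hw
  obtain ⟨K, hK⟩ : ∃ K, Pool.Agent.H361Z.PM.Sol (((2 : ℕ) : ℝ) - 2 * (3 / 4)) (3 / 2) 1
      (Real.Gamma (((2 : ℕ) : ℝ) / 2 - 3 / 4) /
      ((4 : ℝ) ^ (3 / 4 : ℝ) * Real.pi ^ (((2 : ℕ) : ℝ) / 2) * Real.Gamma (3 / 4))) w K := by
    rcases hw with rfl | rfl
    exacts [⟨G, hu⟩, ⟨H, hv⟩]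
  obtain ⟨P, hP⟩ := hK.bdd
  obtain ⟨C₁, hC₁⟩ := hK.bpot
  obtain ⟨C₂, hC₂⟩ := hK.bG
  obtain ⟨C₃, hC₃⟩ := hK.bF
  refine ⟨hK.nonneg, (Pool.Agent.H361Z.PM.locInt_of_bdd hK.meas hP).locallyIntegrableOn _,
    Filter.Eventually.of_forall hK.ipot,
    (Pool.Agent.H361Z.PM.locInt_of_bdd hK.mpot hC₁).locallyIntegrableOn _, K,
    (Pool.Agent.H361Z.PM.locInt_of_bdd hK.mG hC₂).locallyIntegrableOn _,
    (Pool.Agent.H361Z.PM.locInt_of_bdd hK.mF hC₃).locallyIntegrableOn _,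
    fun ψ h1 h2 _ e => hK.grad ψ h1 h2 e, fun φ h1 _ h3 => hK.weak φ
      (Pool.Agent.H361Z.PM.test_of_contDiff h1 fun x => ?_)⟩
  exact image_eq_zero_of_notMem_tsupport fun hx => lt_irrefl (1 : ℝ) (h3 hx)

end Pool.Agent.S05448
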