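import Pool.Statements.S05452
import Pool.Agent.H52Z.RR7

set_option autoImplicit false
open Topology
open Pool Pool.MP_94b3e1_an

namespace Pool.Agent.S05452

/-- The negation of the preceding statement: For every bounded operator T on a real or complex Banach space, if the vectors whose return times to each neighbourhood have positive upper Banach density are dense, then some dense vector subspace consists entirely of such vectors. -/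
theorem result :
    ¬ (∀ (𝕂 : Type) [RCLike 𝕂] (X : Type) [NormedAddCommGroup X] [NormedSpace 𝕂 X]
      [CompleteSpace X] (T : X →L[𝕂] X),
      Dense {x : X | ∀ U ∈ 𝓝 x, ∃ δ : ℝ, 0 < δ ∧ ∀ N : ℕ, 1 ≤ N → ∃ m : ℕ,
          δ * (N : ℝ) ≤ (({n : ℕ | m ≤ n ∧ n < m + N ∧ (T ^ n) x ∈ U}).ncard : ℝ)} →
      ∃ M : Submodule 𝕂 X, Dense (M : Set X) ∧
        ∀ x ∈ M, ∀ U ∈ 𝓝 x, ∃ δ : ℝ, 0 < δ ∧ ∀ N : ℕ, 1 ≤ N → ∃ m : ℕ,
          δ * (N : ℝ) ≤ (({n : ℕ | m ≤ n ∧ n < m + N ∧ (T ^ n) x ∈ U}).ncard : ℝ)) := by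
  classical
  intro h
  have hc : ∀ (S : Set ℕ) (m N : ℕ) (p : ℕ → Prop), (∀ n, p n ↔ n ∈ S) →
      ({n : ℕ | m ≤ n ∧ n < m + N ∧ p n}).ncard = ((Finset.Ico m (m + N)).filter (· ∈ S)).card := by
    intro S m N p hp
    rw [← Set.ncard_coe_finset]
    congr 1
    ext n
    simp [hp, and_assoc]
  have key : ∀ x : Pool.Agent.H52Z.RR.BX, x ∈ Pool.Agent.H52Z.RR.RRec' ↔
      ∀ U ∈ 𝓝 x, ∃ δ : ℝ, 0 < δ ∧ ∀ N : ℕ, 1 ≤ N → ∃ m : ℕ, δ * (N : ℝ) ≤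
        (({n : ℕ | m ≤ n ∧ n < m + N ∧ (Pool.Agent.H52Z.RR.BT ^ n) x ∈ U}).ncard : ℝ) := by
    intro x
    constructor
    · intro hx U hU
      obtain ⟨ε, hε, hb⟩ := Metric.mem_nhds_iff.1 hU
      obtain ⟨δ, h1, h2⟩ := (hx ε hε).mono (S' := {n | (Pool.Agent.H52Z.RR.BT ^ n) x ∈ U})
        fun n hn => hb (by rwa [Metric.mem_ball, dist_eq_norm])
      refine ⟨δ, h1, fun N hN => ?_⟩
      obtain ⟨m, hm⟩ := h2 N hN
      refine ⟨m, ?_⟩
      rwa [hc {n | (Pool.Agent.H52Z.RR.BT ^ n) x ∈ U} m N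
        (fun n => (Pool.Agent.H52Z.RR.BT ^ n) x ∈ U) fun n => Iff.rfl]
    · intro hx ε hε
      obtain ⟨δ, h1, h2⟩ := hx (Metric.ball x ε) (Metric.ball_mem_nhds x hε)
      refine ⟨δ, h1, fun N hN => ?_⟩
      obtain ⟨m, hm⟩ := h2 N hN
      refine ⟨m, ?_⟩
      rwa [hc {n | ‖(Pool.Agent.H52Z.RR.BT ^ n) x - x‖ < ε} m N
        (fun n => (Pool.Agent.H52Z.RR.BT ^ n) x ∈ Metric.ball x ε) fun n => by
        rw [Metric.mem_ball, dist_eq_norm]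
        exact Iff.rfl] at hm
  obtain ⟨M, hM, hM'⟩ := h ℝ Pool.Agent.H52Z.RR.BX Pool.Agent.H52Z.RR.BT
    (Pool.Agent.H52Z.RR.dense_BT.mono fun x hx => (key x).1 hx)
  exact Pool.Agent.H52Z.RR.not_lineable M hM fun x hx => (key x).2 (hM' x hx)

end Pool.Agent.S05452
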