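import Pool.Statements.S05460
import Pool.Agent.H943Z.Lamp

set_option autoImplicit false
open Pool Pool.MP_95bae3_an

namespace Pool.Agent.S05460

/-- The negation of the preceding statement: Every countable group satisfying the Følner condition, acting by linear isometries on a separable real Banach space, admits an equivalent norm that is invariant under the action and strictly convex. -/
theorem result :
    ¬ (∀ (G : Type) [Group G] [Countable G],
      (∀ (F : Finset G) (ε : ℝ), 0 < ε → ∃ A : Set G, A.Finite ∧ A.Nonempty ∧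
          ∀ g ∈ F, ((symmDiff ((fun x => g * x) '' A) A).ncard : ℝ) < ε * (A.ncard : ℝ)) →
      ∀ (X : Type) [NormedAddCommGroup X] [NormedSpace ℝ X] [CompleteSpace X]
        [TopologicalSpace.SeparableSpace X] (ρ : G →* (X ≃ₗᵢ[ℝ] X)),
      ∃ N : X → ℝ,
        (∀ x y : X, N (x + y) ≤ N x + N y) ∧
        (∀ (c : ℝ) (x : X), N (c • x) = |c| * N x) ∧
        (∃ a b : ℝ, 0 < a ∧ 0 < b ∧ ∀ x : X, a * ‖x‖ ≤ N x ∧ N x ≤ b * ‖x‖) ∧
        (∀ (g : G) (x : X), N (ρ g x) = N x) ∧
        (∀ x y : X, N x = 1 → N y = 1 → x ≠ y → N ((1 / 2 : ℝ) • (x + y)) < 1)) := by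
  intro h
  exact Pool.Agent.H943Z.Lamp.no_norm
    (h Pool.Agent.H943Z.Lamp.L Pool.Agent.H943Z.Lamp.folner Pool.Agent.H943Z.Lamp.X
      Pool.Agent.H943Z.Lamp.rho)

end Pool.Agent.S05460
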