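import Pool.Statements.S05488
import Pool.Agent.H67Z.TitchIdeal

set_option autoImplicit false
open Pool Pool.MP_97b573_an

namespace Pool.Agent.S05488

/-- The negation of the preceding statement: For every radical weight ω on the nonnegative rationals, every closed ideal of the weighted convolution algebra ℓ¹(ℚ⁺,ω) is {0} or consists of all elements vanishing below some real α ≥ 0 (strictly or non-strictly). -/
theorem result :
    ¬ (∀ ω : ℚ → ℝ,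
    (∀ q : ℚ, 0 ≤ q → 0 < ω q) →
    (∀ s t : ℚ, 0 ≤ s → 0 ≤ t → ω (s + t) ≤ ω s * ω t) →
    (∀ t : ℚ, 0 < t →
      Filter.Tendsto (fun n : ℕ => ω ((n : ℚ) * t) ^ ((1 : ℝ) / (n : ℝ)))
        Filter.atTop (nhds 0)) →
    ∀ I : Set (ℚ → ℂ),
      (∀ f ∈ I, (∀ q : ℚ, q < 0 → f q = 0) ∧ Summable (fun q : ℚ => ‖f q‖ * ω q)) →
      (0 : ℚ → ℂ) ∈ I →
      (∀ f ∈ I, ∀ g ∈ I, f + g ∈ I) →
      (∀ c : ℂ, ∀ f ∈ I, c • f ∈ I) →
      (∀ a : ℚ → ℂ, (∀ q : ℚ, q < 0 → a q = 0) →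
         Summable (fun q : ℚ => ‖a q‖ * ω q) →
         ∀ f ∈ I, (fun t : ℚ => ∑' s : ℚ, a s * f (t - s)) ∈ I) →
      (∀ f : ℚ → ℂ, (∀ q : ℚ, q < 0 → f q = 0) →
         Summable (fun q : ℚ => ‖f q‖ * ω q) →
         (∀ ε : ℝ, 0 < ε → ∃ g ∈ I, ∑' q : ℚ, ‖f q - g q‖ * ω q < ε) → f ∈ I) →
      (I = {(0 : ℚ → ℂ)} ∨ ∃ α : ℝ, 0 ≤ α ∧
        (I = {f : ℚ → ℂ | (∀ q : ℚ, q < 0 → f q = 0) ∧
                Summable (fun q : ℚ => ‖f q‖ * ω q) ∧
                ∀ q : ℚ, (q : ℝ) < α → f q = 0} ∨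
         I = {f : ℚ → ℂ | (∀ q : ℚ, q < 0 → f q = 0) ∧
                Summable (fun q : ℚ => ‖f q‖ * ω q) ∧
                ∀ q : ℚ, (q : ℝ) ≤ α → f q = 0}))) := by
  intro h
  have hpos : ∀ q : ℚ, 0 < Real.exp (-(q : ℝ) ^ 2) := fun q => Real.exp_pos _
  have hsub : ∀ s t : ℚ, 0 ≤ s → 0 ≤ t → Real.exp (-((s + t : ℚ) : ℝ) ^ 2) ≤
      Real.exp (-(s : ℝ) ^ 2) * Real.exp (-(t : ℝ) ^ 2) := by
    intro s t hs ht
    have hs' : (0 : ℝ) ≤ s := by exact_mod_cast hs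
    have ht' : (0 : ℝ) ≤ t := by exact_mod_cast ht
    rw [← Real.exp_add, Real.exp_le_exp]
    push_cast
    nlinarith [mul_nonneg hs' ht']
  obtain ⟨I, h1, h2, h3, h4, h5, h6, h7, h8⟩ := Pool.Agent.H67Z.Titch.exists_ideal
    (N := fun q => q < 0) (ω := fun q => Real.exp (-(q : ℝ) ^ 2)) (fun _ hq => hq)
    (fun _ hq => hq.le)
    (fun s t hst => by
      by_contra hcon
      push Not at hcon
      linarith [hcon.1, hcon.2])
    (fun q _ => hpos q) (fun s t hs ht => hsub s t (not_lt.1 hs) (not_lt.1 ht))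
    (C := 1) (c := Real.exp (-1))
    (fun q _ _ => Real.exp_le_one_iff.2 (by nlinarith [sq_nonneg (q : ℝ)])) (Real.exp_pos _)
    (fun q hq hq1 => Real.exp_le_exp.2 (by
      have a1 : (0 : ℝ) ≤ q := by exact_mod_cast not_lt.1 hq
      have a2 : (q : ℝ) ≤ 1 := by exact_mod_cast hq1
      nlinarith))
  obtain ⟨h9, h10⟩ := Pool.Agent.H67Z.Titch.not_standard (N := fun q => q < 0)
    (ω := fun q => Real.exp (-(q : ℝ) ^ 2)) (fun _ hq => hq.le) h7 h8
  have hrad : ∀ t : ℚ, 0 < t → Filter.Tendsto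
      (fun n : ℕ => Real.exp (-(((n : ℚ) * t : ℚ) : ℝ) ^ 2) ^ ((1 : ℝ) / (n : ℝ)))
        Filter.atTop (nhds 0) := by
    intro t ht
    have ht' : (0 : ℝ) < t := by exact_mod_cast ht
    have a1 : Filter.Tendsto (fun n : ℕ => -((n : ℝ) * (t : ℝ) ^ 2)) Filter.atTop Filter.atBot :=
      Filter.tendsto_neg_atTop_atBot.comp
        (tendsto_natCast_atTop_atTop.atTop_mul_const (by positivity))
    refine (Real.tendsto_exp_atBot.comp a1).congr' ?_
    filter_upwards [Filter.eventually_gt_atTop 0] with n hn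
    have hn' : (n : ℝ) ≠ 0 := by positivity
    rw [← Real.exp_mul, Function.comp_apply]
    congr 1
    push_cast
    field_simp
  rcases h (fun q => Real.exp (-(q : ℝ) ^ 2)) (fun q _ => hpos q) hsub hrad I h1 h2 h3 h4 h5 h6
    with h11 | ⟨α, hα, h11 | h11⟩
  · exact h9 h11
  · exact (h10 α hα).1 h11
  · exact (h10 α hα).2 h11

end Pool.Agent.S05488
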