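import Pool.Statements.S05524
import Pool.Agent.H943Z.AbelRenorm

set_option autoImplicit false
open Pool Pool.MP_9b0ce4_an

namespace Pool.Agent.S05524

/-- The negation of the preceding statement: There is a separable real Banach space with a surjective linear isometry T such that no equivalent norm on the space is both T-invariant and strictly convex. -/
theorem result :
    ¬ (∃ (X : Type) (_ : NormedAddCommGroup X) (_ : NormedSpace ℝ X),
      CompleteSpace X ∧ TopologicalSpace.SeparableSpace X ∧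
      ∃ T : X ≃ₗᵢ[ℝ] X,
        ¬ ∃ N : X → ℝ,
          (∀ x y : X, N (x + y) ≤ N x + N y) ∧
          (∀ (r : ℝ) (x : X), N (r • x) = |r| * N x) ∧
          (∃ c C : ℝ, 0 < c ∧ 0 < C ∧ ∀ x : X, c * ‖x‖ ≤ N x ∧ N x ≤ C * ‖x‖) ∧
          (∀ x : X, N (T x) = N x) ∧
          (∀ x y : X, N x = 1 → N y = 1 → x ≠ y → N (x + y) < 2)) := by
  rintro ⟨X, i1, i2, -, hs, T, hT⟩
  obtain ⟨N, h1, h2, h3, h4, h5⟩ := Pool.Agent.H943Z.AbelRenorm.exists_norm (Subgroup.zpowers T)
    (by
      rintro _ ⟨a, rfl⟩ _ ⟨b, rfl⟩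
      exact zpow_mul_comm T a b)
  exact hT ⟨N, h1, h2, h3, h4 T (Subgroup.mem_zpowers T), h5⟩

end Pool.Agent.S05524
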