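import Pool.Statements.S05528
import Pool.Agent.H29Z.AG.Main

set_option autoImplicit false
open Filter Topology
open Pool Pool.MP_9b8acd_an

namespace Pool.Agent.S05528

/-- The negation of the preceding statement: Over ℝ or ℂ, every almost-greedy Markushevich basis of a Banach space (greedy-set approximation within a constant of the best same-size coordinate projection) can be reordered into a Schauder basis. -/
theorem result :
    ¬ (∀ (𝕜 : Type) [RCLike 𝕜] (X : Type) [NormedAddCommGroup X] [NormedSpace 𝕜 X]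
      [CompleteSpace X] (e : ℕ → X) (e' : ℕ → X →L[𝕜] 𝕜),
      (∀ i j : ℕ, e' i (e j) = if i = j then (1 : 𝕜) else 0) →
      Dense ((Submodule.span 𝕜 (Set.range e) : Submodule 𝕜 X) : Set X) →
      (∀ x : X, (∀ i : ℕ, e' i x = 0) → x = 0) →
      (∃ C : ℝ, ∀ (x : X) (A B : Finset ℕ),
        (∀ i ∈ A, ∀ j : ℕ, j ∉ A → ‖e' j x‖ ≤ ‖e' i x‖) →
        B.card ≤ A.card →
        ‖x - ∑ i ∈ A, e' i x • e i‖ ≤ C * ‖x - ∑ i ∈ B, e' i x • e i‖) →
      ∃ π : Equiv.Perm ℕ, ∀ x : X,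
        Tendsto (fun n : ℕ => ∑ k ∈ Finset.range n, e' (π k) x • e (π k)) atTop (𝓝 x)) := by
  intro h
  obtain ⟨π, hπ⟩ := h ℝ Pool.Agent.H29Z.AG.XS Pool.Agent.H29Z.AG.ee Pool.Agent.H29Z.AG.ee'
    Pool.Agent.H29Z.AG.ee'_ee Pool.Agent.H29Z.AG.dense_span
    (fun x hx => norm_le_zero_iff.mp (Pool.Agent.H29Z.AG.norm_le x 0 (fun l => by
      have h0 := Pool.Agent.H29Z.AG.ev_sum l (∅ : Finset ℕ) (fun _ => 0) (fun _ _ => 0)
      simp only [Finset.sum_empty] at h0
      simp only [hx, h0, abs_zero, le_refl])))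
    ⟨8, Pool.Agent.H29Z.AG.almost_greedy⟩
  exact Pool.Agent.H29Z.AG.not_schauder π hπ

end Pool.Agent.S05528
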