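import Pool.Statements.S05534
import Pool.Agent.H564Z.MonoCone

set_option autoImplicit false
open Pool Pool.MP_9c3653_an

namespace Pool.Agent.S05534

/-- The negation of the preceding statement: In every real Banach space, each maximally monotone operator with convex domain is of type (FPV). That is, for any open convex U meeting its domain, any pair (x,f) with x in U that is monotonically related to the graph over U already lies in the graph. -/
theorem result :
    ¬ (∀ (X : Type) [NormedAddCommGroup X] [NormedSpace ℝ X] [CompleteSpace X]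
      (A : X → Set (X →L[ℝ] ℝ)),
      (∀ x y : X, ∀ f ∈ A x, ∀ g ∈ A y, 0 ≤ (f - g) (x - y)) →
      (∀ (x : X) (f : X →L[ℝ] ℝ),
          (∀ y : X, ∀ g ∈ A y, 0 ≤ (f - g) (x - y)) → f ∈ A x) →
      Convex ℝ {x : X | (A x).Nonempty} →
      ∀ U : Set X, IsOpen U → Convex ℝ U →
        (U ∩ {x : X | (A x).Nonempty}).Nonempty →
        ∀ x ∈ U, ∀ f : X →L[ℝ] ℝ,
          (∀ y ∈ U, ∀ g ∈ A y, 0 ≤ (f - g) (x - y)) → f ∈ A x) := by
  intro H
  obtain ⟨M, hmono, hmax, hconv, ⟨q0, hq0, hq0'⟩, p, hp, hpM, hrel⟩ :=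
    Pool.Agent.H564Z.Mono.main_cone
  exact hpM (H Pool.Agent.H564Z.Mono.X1 (fun x => {a | (x, a) ∈ M})
    (fun x y a ha b hb => hmono (x, a) ha (y, b) hb)
    (fun x a h => hmax (x, a) fun q hq => h q.1 q.2 hq) hconv
    {x | 0 < x.1.1} (isOpen_lt continuous_const (by fun_prop))
    (by
      intro x hx y hy s t hs ht hst
      have hx' : 0 < x.1.1 := hx
      have hy' : 0 < y.1.1 := hy
      change 0 < s * x.1.1 + t * y.1.1
      rcases hs.eq_or_lt with rfl | hs'
      · have : t = 1 := by linarith
        rw [this]; linarith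
      · positivity)
    ⟨q0.1, hq0', q0.2, hq0⟩ p.1 hp p.2 fun y hy b hb => hrel (y, b) hb hy)

end Pool.Agent.S05534
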