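import Pool.Statements.S05544
import Pool.Agent.H564Z.MonoAbs

set_option autoImplicit false
open Pool Pool.MP_9cd69f_an

namespace Pool.Agent.S05544

open Pool.Agent.H564Z.Mono

/-- The negation of the preceding statement: On a real Banach space, take A a maximally monotone operator into the dual whose graph is a linear subspace, and B maximally monotone, with the positive cone of dom A minus dom B equal to the whole space; then A+B is maximally monotone. -/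
theorem result :
    ¬ (∀ (X : Type) [NormedAddCommGroup X] [NormedSpace ℝ X] [CompleteSpace X]
    (A B : X → Set (X →L[ℝ] ℝ)),
    (∃ S : Submodule ℝ (X × (X →L[ℝ] ℝ)), ∀ (x : X) (f : X →L[ℝ] ℝ), f ∈ A x ↔ (x, f) ∈ S) →
    ((∀ (x y : X) (f g : X →L[ℝ] ℝ), f ∈ A x → g ∈ A y → 0 ≤ (f - g) (x - y)) ∧
      (∀ (x : X) (f : X →L[ℝ] ℝ),
        (∀ (y : X) (g : X →L[ℝ] ℝ), g ∈ A y → 0 ≤ (f - g) (x - y)) → f ∈ A x)) →
    ((∀ (x y : X) (f g : X →L[ℝ] ℝ), f ∈ B x → g ∈ B y → 0 ≤ (f - g) (x - y)) ∧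
      (∀ (x : X) (f : X →L[ℝ] ℝ),
        (∀ (y : X) (g : X →L[ℝ] ℝ), g ∈ B y → 0 ≤ (f - g) (x - y)) → f ∈ B x)) →
    (∀ z : X, ∃ t : ℝ, 0 < t ∧ ∃ a b : X, (A a).Nonempty ∧ (B b).Nonempty ∧ z = t • (a - b)) →
    ((∀ (x y : X) (f g : X →L[ℝ] ℝ),
        (∃ f₁ ∈ A x, ∃ f₂ ∈ B x, f = f₁ + f₂) →
        (∃ g₁ ∈ A y, ∃ g₂ ∈ B y, g = g₁ + g₂) → 0 ≤ (f - g) (x - y)) ∧
      (∀ (x : X) (f : X →L[ℝ] ℝ),
        (∀ (y : X) (g : X →L[ℝ] ℝ), (∃ g₁ ∈ A y, ∃ g₂ ∈ B y, g = g₁ + g₂) →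
          0 ≤ (f - g) (x - y)) →
        ∃ f₁ ∈ A x, ∃ f₂ ∈ B x, f = f₁ + f₂))) := by
  intro h
  obtain ⟨M, h1, h2, ⟨p, hp, -⟩, -, h5, -, h7⟩ := main
  obtain ⟨f1, -, f2, hf2, -⟩ := (h X0 (fun x => {rk x}) (fun x => {f | (x, f) ∈ M})
    ⟨LinearMap.graph (rk : X0 →L[ℝ] (X0 →L[ℝ] ℝ)).toLinearMap, fun x f => by
      rw [LinearMap.mem_graph_iff]; rfl⟩
    ⟨by
      intro x y a b hx hy
      have ha : a = rk x := hx
      have hb : b = rk y := hy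
      rw [ha, hb, ← map_sub, rk_apply]
      exact mul_self_nonneg _,
     fun z c hz => lin_maximal rk z c fun y => hz y (rk y) rfl⟩
    ⟨fun x y u v hx hy => h1 (x, u) hx (y, v) hy,
      fun x u hx => h2 (x, u) fun r hr => hx r.1 r.2 hr⟩
    (fun z => ⟨1, one_pos, z + p.1, p.1, ⟨_, rfl⟩, ⟨p.2, hp⟩, by simp⟩)).2 (1, 0) (mk 1 0) (by
      rintro y g ⟨g1, hg1, g2, hg2, rfl⟩
      have hb' : g1 = rk y := hg1
      rw [hb']
      exact h7 (y, g2) hg2)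
  rcases h5 _ hf2 with h | h
  · exact absurd h (by norm_num)
  · exact absurd h (by norm_num)

end Pool.Agent.S05544
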