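import Pool.Statements.S05597
import Pool.Agent.H488Z.Cliff.Mat

set_option autoImplicit false
open Pool Pool.MP_9fb148_an

namespace Pool.Agent.S05597

/-- For Hermitian n×n matrices A_1..A_d (n ≥ 1) and any nonzero Hermitian Clifford representation γ_1..γ_d, some real point x makes the spectral localizer Σ (A_j − x_j I) ⊗ γ_j singular. -/
theorem result :
    ∀ (n d m : ℕ), 0 < n → 0 < m →
      ∀ (A : Fin d → Matrix (Fin n) (Fin n) ℂ) (γ : Fin d → Matrix (Fin m) (Fin m) ℂ),
        (∀ j, (A j).IsHermitian) →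
        (∀ j, (γ j).IsHermitian) →
        (∀ j, γ j * γ j = 1) →
        (∀ j k, j ≠ k → γ j * γ k = -(γ k * γ j)) →
        ∃ x : Fin d → ℝ,
          (∑ j : Fin d,
            Matrix.kronecker (A j - ((x j : ℂ)) • (1 : Matrix (Fin n) (Fin n) ℂ)) (γ j)).det = 0 :=
  fun n d m hn hm A γ hA hγ hsq hanti =>
    Pool.Agent.H488Z.Cliff.main n d m hn hm A γ hA hγ hsq hanti

end Pool.Agent.S05597
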