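import Pool.Statements.S05624
import Pool.Agent.H594Z.MatsCx

set_option autoImplicit false
open Finset
open Pool Pool.MP_a13136_an

namespace Pool.Agent.S05624

/-- The negation of the preceding statement: For every 1<p<2 and every complex polynomial P, the norm of P(T) on 2-dimensional complex l^p, with T = 2^(-1/p)[[1,-1],[1,1]], is at most the norm of P(S) on l^p, where S is the shift (tested on finitely supported sequences). -/
theorem result :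
    ¬ (∀ p : ℝ, 1 < p → p < 2 → ∀ P : Polynomial ℂ, ∀ r : ℝ, 0 ≤ r → ∀ x : Fin 2 → ℂ,
    r ^ p * (‖x 0‖ ^ p + ‖x 1‖ ^ p) <
      ‖(Matrix.mulVec (Polynomial.aeval ((((2:ℝ) ^ (-1 / p) : ℝ) : ℂ) • !![(1:ℂ), -1; 1, 1]) P) x) 0‖ ^ p
      + ‖(Matrix.mulVec (Polynomial.aeval ((((2:ℝ) ^ (-1 / p) : ℝ) : ℂ) • !![(1:ℂ), -1; 1, 1]) P) x) 1‖ ^ p →
    ∃ N : ℕ, ∃ y : ℕ → ℂ, (∀ j : ℕ, N ≤ j → y j = 0) ∧
      r ^ p * (∑ j ∈ Finset.range N, ‖y j‖ ^ p) <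
        ∑ n ∈ Finset.range (N + P.natDegree + 1),
          ‖∑ k ∈ Finset.range (n + 1), P.coeff k * y (n - k)‖ ^ p) := by
  intro h
  have hR : (0 : ℝ) ≤ Pool.Agent.H594Z.Mats.Rc := by
    unfold Pool.Agent.H594Z.Mats.Rc
    norm_num
  have hr : (Pool.Agent.H594Z.Mats.Rc ^ ((3 : ℝ) / 5)) ^ ((5 : ℝ) / 3) =
      Pool.Agent.H594Z.Mats.Rc := by
    rw [← Real.rpow_mul hR]
    norm_num
  have h1 := h (5 / 3) (by norm_num) (by norm_num) Pool.Agent.H594Z.Mats.PP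
    (Pool.Agent.H594Z.Mats.Rc ^ ((3 : ℝ) / 5)) (Real.rpow_nonneg hR _) ![1, 0] (by
      obtain ⟨e0, e1⟩ := Pool.Agent.H594Z.Mats.aeval_vec ((2 : ℝ) ^ (-1 / ((5 : ℝ) / 3)))
      rw [e0, e1, hr, Complex.norm_real, Complex.norm_real, Real.norm_eq_abs, Real.norm_eq_abs]
      have := Pool.Agent.H594Z.Mats.lower_T
      simpa using this)
  obtain ⟨N, y, hy, hlt⟩ := h1
  rw [hr] at hlt
  exact absurd (Pool.Agent.H594Z.Mats.shift_bound N _ y hy) (not_le.2 hlt)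

end Pool.Agent.S05624
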