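import Pool.Statements.S05651
import Pool.Agent.H281Z.WidC

set_option autoImplicit false
open MeasureTheory Filter
open Pool Pool.MP_a2ac39_an

namespace Pool.Agent.S05651

open Pool.Agent.H281Z.Wid

/-- There is an atomless compactly supported probability measure on ℂ, mutually singular with the equilibrium measure of its support, whose L² monic-polynomial Widom factors ‖P_n‖/cap^n stay eventually above a positive constant. -/
theorem result :
  ∃ (μ : Measure ℂ) (K : Set ℂ) (ν : Measure ℂ),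
    IsProbabilityMeasure μ ∧ NoAtoms μ ∧
    IsCompact K ∧ μ Kᶜ = 0 ∧
    (∀ U : Set ℂ, IsOpen U → (U ∩ K).Nonempty → 0 < μ U) ∧
    IsProbabilityMeasure ν ∧ ν Kᶜ = 0 ∧ NoAtoms ν ∧
    Integrable (fun p : ℂ × ℂ => Real.log ‖p.1 - p.2‖) (ν.prod ν) ∧
    (∀ ρ : Measure ℂ, IsProbabilityMeasure ρ → ρ Kᶜ = 0 → NoAtoms ρ →
      Integrable (fun p : ℂ × ℂ => Real.log ‖p.1 - p.2‖) (ρ.prod ρ) →
      ∫ p, Real.log ‖p.1 - p.2‖ ∂(ρ.prod ρ) ≤ ∫ p, Real.log ‖p.1 - p.2‖ ∂(ν.prod ν)) ∧
    μ.MutuallySingular ν ∧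
    ∃ c : ℝ, 0 < c ∧ ∀ᶠ n : ℕ in atTop,
      c ≤ (⨅ P : {P : Polynomial ℂ // P.Monic ∧ P.natDegree = n},
            Real.sqrt (∫ z, ‖P.1.eval z‖ ^ 2 ∂μ)) /
          Real.exp (∫ p, Real.log ‖p.1 - p.2‖ ∂(ν.prod ν)) ^ n := by
  obtain ⟨E, l, hE, hT, hl1, hl2, hl3⟩ := exists_thin_measure
  obtain ⟨B, hB⟩ := exists_bound
  refine ⟨mu l, (mu l).support, sig, mu_prob l, ⟨fun x => ?_⟩, ?_, Measure.measure_compl_support,
    ?_, inferInstance, ?_, (inferInstance : NullSingletonClass sig), integrable_sig_prod, ?_, ?_, 1, one_pos, ?_⟩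
  · exact mu_null l _ (measurableSet_singleton x) fun k j _ => (countable_gam k j x).measure_zero _
  · exact (isCompact_closedBall (0 : ℂ) B).of_isClosed_subset Measure.isClosed_support
      (Measure.support_subset_of_isClosed Metric.isClosed_closedBall (mu_ball l hB))
  · rintro U hU ⟨x, hxU, hx⟩
    exact (Measure.mem_support_iff_forall x).1 hx U (hU.mem_nhds hxU)
  · exact measure_mono_null (Set.compl_subset_compl.2 (sphere_subset l)) sig_sphere
  · intro ρ h1 h2 h3 h4
    have h3' : NullSingletonClass ρ := h3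
    rw [energy_sig]
    refine energy_nonpos ρ ?_ h4
    have h5 : ρ (⋃ k, ⋃ j, gam k j '' E) = 0 :=
      measure_iUnion_null fun k => measure_iUnion_null fun j => (hT.image (lip_gam k j)).null ρ h4
    refine measure_mono_null ?_ (measure_union_null h2 h5)
    intro z hz
    by_cases hzs : z ∈ (mu l).support
    · exact Or.inr ((support_subset l E hE hl3 hzs).resolve_left hz)
    · exact Or.inl hzs
  · refine ⟨Metric.sphere (0 : ℂ) 1, Metric.isClosed_sphere.measurableSet, ?_, sig_sphere⟩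
    refine mu_null l _ Metric.isClosed_sphere.measurableSet fun k j _ => ?_
    have : gam k j ⁻¹' Metric.sphere (0 : ℂ) 1 = ∅ := by
      ext θ
      simp [norm_gam, (one_lt_RR k).ne']
    rw [this, measure_empty]
  · filter_upwards [eventually_ge_atTop 1] with n hn
    obtain ⟨k, rfl⟩ : ∃ k, n = k + 1 := ⟨n - 1, by omega⟩
    rw [energy_sig, Real.exp_zero, one_pow, div_one]
    have : Nonempty {P : Polynomial ℂ // P.Monic ∧ P.natDegree = k + 1} :=
      ⟨⟨Polynomial.X ^ (k + 1), Polynomial.monic_X_pow _, Polynomial.natDegree_X_pow _⟩⟩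
    refine le_ciInf fun P => ?_
    exact Real.one_le_sqrt.2 (lower l k P.1 P.2.1 P.2.2)

end Pool.Agent.S05651
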