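import Pool.Statements.S05682
import Pool.Agent.H66Z.MF.Final

set_option autoImplicit false
open Filter Topology
open Pool Pool.MP_a51306_an

namespace Pool.Agent.S05682

/-- The negation of the preceding statement: For every countable group: if every asymptotically multiplicative sequence of unitary-matrix maps (operator norm) is close to true representations, then the same holds with the normalized Hilbert–Schmidt norm. -/
theorem result :
    ¬ (∀ (G : Type) [Group G] [Countable G],
      (∀ (k : ℕ → ℕ) (φ : ∀ n : ℕ, G → Matrix.unitaryGroup (Fin (k n)) ℂ),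
        (∀ g h : G, Tendsto (fun n : ℕ =>
            ‖Matrix.toEuclideanCLM (𝕜 := ℂ)
              ((φ n (g * h)).val - (φ n g).val * (φ n h).val)‖) atTop (𝓝 0)) →
        ∃ ρ : ∀ n : ℕ, G →* Matrix.unitaryGroup (Fin (k n)) ℂ,
          ∀ g : G, Tendsto (fun n : ℕ =>
            ‖Matrix.toEuclideanCLM (𝕜 := ℂ) ((φ n g).val - (ρ n g).val)‖) atTop (𝓝 0)) →
      (∀ (k : ℕ → ℕ) (φ : ∀ n : ℕ, G → Matrix.unitaryGroup (Fin (k n)) ℂ),
        (∀ g h : G, Tendsto (fun n : ℕ =>
            (Matrix.trace (Matrix.conjTranspose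
                ((φ n (g * h)).val - (φ n g).val * (φ n h).val) *
              ((φ n (g * h)).val - (φ n g).val * (φ n h).val))).re / (k n : ℝ))
            atTop (𝓝 0)) →
        ∃ ρ : ∀ n : ℕ, G →* Matrix.unitaryGroup (Fin (k n)) ℂ,
          ∀ g : G, Tendsto (fun n : ℕ =>
            (Matrix.trace (Matrix.conjTranspose ((φ n g).val - (ρ n g).val) *
              ((φ n g).val - (ρ n g).val))).re / (k n : ℝ)) atTop (𝓝 0))) := by
  intro h
  haveI : Countable H66Z.MF.GG := (QuotientGroup.mk'_surjective _).countable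
  obtain ⟨ρ, hρ⟩ := h H66Z.MF.GG
    (fun k φ hφ => ⟨fun _ => 1, fun g => H66Z.MF.all_trivial φ hφ g⟩) H66Z.MF.kk
    (fun n g => H66Z.MF.uni (H66Z.MF.psi n g.out)) (H66Z.MF.hs_asymp H66Z.MF.psi)
  refine H66Z.MF.flip_ne_one (H66Z.MF.eq_one_of_close H66Z.MF.psi _
    (fun n => (ρ n (H66Z.MF.io H66Z.MF.flip6)).1) ?_ (hρ _))
  exact H66Z.MF.all_trivial (fun n g => ρ n g) (H66Z.MF.nul_hom ρ) _

end Pool.Agent.S05682
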