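import Pool.Statements.S05688
import Pool.Agent.H133Z.LipD

set_option autoImplicit false
open Pool Pool.MP_a56222_an

namespace Pool.Agent.S05688

/-- The negation of the preceding statement: For any two pointed metric spaces of equal density, the spaces of real Lipschitz functions vanishing at the base point, each with its weak topology (induced by all Lipschitz-norm-bounded linear functionals), are homeomorphic. -/
theorem result :
    ¬ (∀ (M N : Type) [MetricSpace M] [MetricSpace N] (x₀ : M) (y₀ : N),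
    (∀ A : Set M, Dense A → ∃ B : Set N, Dense B ∧ Cardinal.mk B ≤ Cardinal.mk A) →
    (∀ B : Set N, Dense B → ∃ A : Set M, Dense A ∧ Cardinal.mk A ≤ Cardinal.mk B) →
    ∃ e : {f : M → ℝ // (∃ K : NNReal, LipschitzWith K f) ∧ f x₀ = 0} ≃
          {g : N → ℝ // (∃ K : NNReal, LipschitzWith K g) ∧ g y₀ = 0},
      @Continuous _ _
        (⨅ (φ : (M → ℝ) →ₗ[ℝ] ℝ)
           (_ : ∃ C : ℝ, ∀ f : M → ℝ, f x₀ = 0 → ∀ K : NNReal, LipschitzWith K f → |φ f| ≤ C * K),
           TopologicalSpace.induced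
             (fun f : {f : M → ℝ // (∃ K : NNReal, LipschitzWith K f) ∧ f x₀ = 0} => φ f.1)
             (inferInstance : TopologicalSpace ℝ))
        (⨅ (ψ : (N → ℝ) →ₗ[ℝ] ℝ)
           (_ : ∃ C : ℝ, ∀ g : N → ℝ, g y₀ = 0 → ∀ K : NNReal, LipschitzWith K g → |ψ g| ≤ C * K),
           TopologicalSpace.induced
             (fun g : {g : N → ℝ // (∃ K : NNReal, LipschitzWith K g) ∧ g y₀ = 0} => ψ g.1)
             (inferInstance : TopologicalSpace ℝ))
        (⇑e) ∧
      @Continuous _ _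
        (⨅ (ψ : (N → ℝ) →ₗ[ℝ] ℝ)
           (_ : ∃ C : ℝ, ∀ g : N → ℝ, g y₀ = 0 → ∀ K : NNReal, LipschitzWith K g → |ψ g| ≤ C * K),
           TopologicalSpace.induced
             (fun g : {g : N → ℝ // (∃ K : NNReal, LipschitzWith K g) ∧ g y₀ = 0} => ψ g.1)
             (inferInstance : TopologicalSpace ℝ))
        (⨅ (φ : (M → ℝ) →ₗ[ℝ] ℝ)
           (_ : ∃ C : ℝ, ∀ f : M → ℝ, f x₀ = 0 → ∀ K : NNReal, LipschitzWith K f → |φ f| ≤ C * K),
           TopologicalSpace.induced
             (fun f : {f : M → ℝ // (∃ K : NNReal, LipschitzWith K f) ∧ f x₀ = 0} => φ f.1)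
             (inferInstance : TopologicalSpace ℝ))
        (⇑e.symm)) := by
  intro h
  obtain ⟨e, he, he'⟩ := h H133Z.Lip.DM H133Z.Lip.DN 0 H133Z.Lip.n0
    (H133Z.Lip.dens H133Z.Lip.DM.sep) (H133Z.Lip.dens H133Z.Lip.DN.sep)
  exact H133Z.Lip.main e he he'

end Pool.Agent.S05688
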