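import Pool.Statements.S05698
import Pool.Agent.H163Z.BM.Lower

set_option autoImplicit false
open Pool Pool.MP_a5d4d5_an

namespace Pool.Agent.S05698

/-- The negation of the preceding statement: For any Bedford–McMullen carpet with scales m, n ≥ 2 and log m/log n irrational, every line y = ax + b with a ≠ 0 meets the carpet in a set of Hausdorff dimension at most max(dim_H carpet − 1, 0). -/
theorem result :
    ¬ (∀ (m n : ℕ), 2 ≤ m → 2 ≤ n →
      Irrational (Real.log (m : ℝ) / Real.log (n : ℝ)) →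
      ∀ D : Finset (ℕ × ℕ), (∀ d ∈ D, d.1 < m ∧ d.2 < n) →
      ∀ a b : ℝ, a ≠ 0 →
        dimH ({p : ℝ × ℝ | ∃ d : ℕ → ℕ × ℕ, (∀ k, d k ∈ D) ∧
                p.1 = ∑' k, ((d k).1 : ℝ) / (m : ℝ) ^ (k + 1) ∧
                p.2 = ∑' k, ((d k).2 : ℝ) / (n : ℝ) ^ (k + 1)} ∩
              {p : ℝ × ℝ | p.2 = a * p.1 + b})
          ≤ dimH {p : ℝ × ℝ | ∃ d : ℕ → ℕ × ℕ, (∀ k, d k ∈ D) ∧
                p.1 = ∑' k, ((d k).1 : ℝ) / (m : ℝ) ^ (k + 1) ∧
                p.2 = ∑' k, ((d k).2 : ℝ) / (n : ℝ) ^ (k + 1)} - 1) := by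
  intro h
  obtain ⟨m, n, hm, hmn, hirr, a, ha, hlt⟩ := Pool.Agent.H163Z.BM.main
  exact absurd (h m n hm (by omega) hirr (Pool.Agent.H163Z.BM.Dg m n)
    (fun d hd => (Pool.Agent.H163Z.BM.mem_Dg.1 hd).1) a 0 ha) (not_le.2 hlt)

end Pool.Agent.S05698
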