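import Pool.Statements.S05716
import Pool.Agent.H480Z.BetaFinal

set_option autoImplicit false
open Pool Pool.MP_a6e7fb_an

namespace Pool.Agent.S05716

/-- The negation of the preceding statement: For all infinite compact metric spaces K1, K2: if the real Banach spaces C(βN×βN×K1) and C(βN×βN×K2) are isomorphic, then C(K1) and C(K2) are isomorphic. -/
theorem result :
    ¬ (∀ (K₁ K₂ : Type) [MetricSpace K₁] [CompactSpace K₁] [Infinite K₁]
      [MetricSpace K₂] [CompactSpace K₂] [Infinite K₂],
      Nonempty (ContinuousMap (StoneCech ℕ × StoneCech ℕ × K₁) ℝ ≃L[ℝ]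
        ContinuousMap (StoneCech ℕ × StoneCech ℕ × K₂) ℝ) →
      Nonempty (ContinuousMap K₁ ℝ ≃L[ℝ] ContinuousMap K₂ ℝ)) := by
  intro h
  let m₁ : MetricSpace H480Z.Beta.K1 := TopologicalSpace.metrizableSpaceMetric _
  let m₂ : MetricSpace H480Z.Beta.G := TopologicalSpace.metrizableSpaceMetric _
  exact H480Z.Beta.not_iso (@h H480Z.Beta.K1 H480Z.Beta.G m₁
    (inferInstanceAs (CompactSpace H480Z.Beta.K1)) inferInstance m₂
    (inferInstanceAs (CompactSpace H480Z.Beta.G)) inferInstance H480Z.Beta.iso_main)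

end Pool.Agent.S05716
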