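import Pool.Statements.S05722
import Pool.Agent.H611Z.Ring.Fin

set_option autoImplicit false
open MeasureTheory
open scoped ENNReal NNReal
open Pool Pool.MP_a78000_an

namespace Pool.Agent.S05722

/-- The negation of the preceding statement: If bounded domains conformal to annuli {r<∣z∣<1}, {r*<∣z∣<1} admit a finite-energy C¹ diffeomorphism minimizing Dirichlet energy among all such, then Mod Ω* ≥ log cosh Mod Ω (Mod = −log r, ∞ if r=0), and equality with finite moduli forces Ω* to be a round annulus. -/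
theorem result :
    ¬ (∀ (Ω Ωs : Set ℂ) (r rs : ℝ) (φ ψ h : ℂ → ℂ),
      IsOpen Ω → IsOpen Ωs → Bornology.IsBounded Ω → Bornology.IsBounded Ωs →
      0 ≤ r → r < 1 → 0 ≤ rs → rs < 1 →
      DifferentiableOn ℂ φ Ω → Set.InjOn φ Ω → φ '' Ω = {z : ℂ | r < ‖z‖ ∧ ‖z‖ < 1} →
      DifferentiableOn ℂ ψ Ωs → Set.InjOn ψ Ωs → ψ '' Ωs = {z : ℂ | rs < ‖z‖ ∧ ‖z‖ < 1} →
      ContDiffOn ℝ 1 h Ω → Set.MapsTo h Ω Ωs →
      (∃ k : ℂ → ℂ, ContDiffOn ℝ 1 k Ωs ∧ Set.MapsTo k Ωs Ω ∧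
          (∀ z ∈ Ω, k (h z) = z) ∧ ∀ w ∈ Ωs, h (k w) = w) →
      (∫⁻ z in Ω, (((‖fderiv ℝ h z 1‖₊ ^ 2 + ‖fderiv ℝ h z Complex.I‖₊ ^ 2 : ℝ≥0)) : ℝ≥0∞)) < ⊤ →
      (∀ g : ℂ → ℂ, ContDiffOn ℝ 1 g Ω → Set.MapsTo g Ω Ωs →
        (∃ k : ℂ → ℂ, ContDiffOn ℝ 1 k Ωs ∧ Set.MapsTo k Ωs Ω ∧
          (∀ z ∈ Ω, k (g z) = z) ∧ ∀ w ∈ Ωs, g (k w) = w) →
        (∫⁻ z in Ω, (((‖fderiv ℝ h z 1‖₊ ^ 2 + ‖fderiv ℝ h z Complex.I‖₊ ^ 2 : ℝ≥0)) : ℝ≥0∞))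
          ≤ (∫⁻ z in Ω, (((‖fderiv ℝ g z 1‖₊ ^ 2 + ‖fderiv ℝ g z Complex.I‖₊ ^ 2 : ℝ≥0)) : ℝ≥0∞))) →
      (r = 0 → rs = 0) ∧
      (0 < r → 0 < rs → Real.log (Real.cosh (-Real.log r)) ≤ -Real.log rs) ∧
      (0 < r → 0 < rs → -Real.log rs = Real.log (Real.cosh (-Real.log r)) →
        ∃ (c : ℂ) (a b : ℝ), 0 < a ∧ a < b ∧ Ωs = {z : ℂ | a < ‖z - c‖ ∧ ‖z - c‖ < b})) := by
  intro hall
  obtain ⟨h, ψ, rs, φ, e, H, hb, hfin, h0, h1, hψ, iψ, sψ, hlt⟩ := Pool.Agent.H611Z.Ring.main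
  have hO := Pool.Agent.H611Z.Ring.isOpen_ann 1 (Real.exp 1)
  obtain ⟨hWo, hk⟩ := Pool.Agent.H611Z.Ring.inv_lemma hO H.smooth H.inj (fun z hz => H.det_ne hz)
  have hR := Real.exp_pos 1
  have hR' : ((Real.exp 1 : ℝ) : ℂ) ≠ 0 := by exact_mod_cast hR.ne'
  have hn : ∀ z : ℂ, ‖z / (Real.exp 1 : ℝ)‖ = ‖z‖ / Real.exp 1 := fun z => by
    rw [norm_div, Complex.norm_real, Real.norm_eq_abs, abs_of_pos hR]
  have := (hall (Pool.Agent.H611Z.Ring.ann 1 (Real.exp 1))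
    (h '' Pool.Agent.H611Z.Ring.ann 1 (Real.exp 1)) (Real.exp (-1)) rs
    (fun z => z / (Real.exp 1 : ℝ)) ψ h hO hWo
    ((Metric.isBounded_ball (x := (0 : ℂ)) (r := Real.exp 1)).subset
      (fun z hz => by simpa using hz.2)) hb (Real.exp_pos _).le (by simp) h0.le h1
    (by fun_prop) (fun a _ b _ hab => (div_left_inj' hR').1 hab) ?_ hψ iψ sψ H.smooth
    (Set.mapsTo_image _ _)
    ⟨_, hk, fun w hw => Function.invFunOn_mem hw, fun z hz => H.inj.leftInvOn_invFunOn hz,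
      fun w hw => Function.invFunOn_eq hw⟩ ?_ ?_).2.1 (Real.exp_pos _) h0
  · rw [Real.log_exp, neg_neg] at this
    linarith
  · ext u
    constructor
    · rintro ⟨z, hz, rfl⟩
      simp only [Set.mem_ofPred_eq, hn, Real.exp_neg]
      exact ⟨by rw [inv_eq_one_div]; exact div_lt_div_of_pos_right hz.1 hR,
        (div_lt_one hR).2 hz.2⟩
    · rintro ⟨a1, a2⟩
      have a3 : ‖u * (Real.exp 1 : ℝ)‖ = ‖u‖ * Real.exp 1 := by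
        rw [norm_mul, Complex.norm_real, Real.norm_eq_abs, abs_of_pos hR]
      rw [Real.exp_neg, inv_eq_one_div, div_lt_iff₀ hR] at a1
      exact ⟨u * (Real.exp 1 : ℝ), ⟨by rw [a3]; exact a1, by rw [a3]; nlinarith⟩,
        mul_div_cancel_right₀ _ hR'⟩
  · simp only [Pool.Agent.H611Z.Ring.energy_eq]
    exact hfin
  · rintro g hg mg ⟨k, hk', mk, e1, e2⟩
    simp only [Pool.Agent.H611Z.Ring.energy_eq]
    exact H.minimal g hg mg k hk' mk e1 e2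

end Pool.Agent.S05722
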