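import Pool.Statements.S05730
import Pool.Agent.H844Z.Compact

set_option autoImplicit false
open MeasureTheory
open Pool Pool.MP_a7cd30_an

namespace Pool.Agent.S05730

/-- The negation of the preceding statement: Give measure-preserving automorphisms of [0,1] the weak topology. Then for every compact set K of them, the set of all automorphisms a.e. equal to some conjugate R⁻¹SR with S in K is meagre. -/
theorem result :
    ¬ (∀ τ : TopologicalSpace
        {e : ℝ ≃ᵐ ℝ // MeasurePreserving (⇑e) (volume.restrict (Set.Icc (0:ℝ) 1))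
          (volume.restrict (Set.Icc (0:ℝ) 1))},
      τ = (⨅ (A : Set ℝ) (_ : MeasurableSet A) (B : Set ℝ) (_ : MeasurableSet B),
            TopologicalSpace.induced
              (fun T : {e : ℝ ≃ᵐ ℝ // MeasurePreserving (⇑e) (volume.restrict (Set.Icc (0:ℝ) 1))
                  (volume.restrict (Set.Icc (0:ℝ) 1))} =>
                ((volume.restrict (Set.Icc (0:ℝ) 1)) ((⇑T.1) ⁻¹' A ∩ B)).toReal)
              (inferInstance : TopologicalSpace ℝ)) →
      ∀ K : Set {e : ℝ ≃ᵐ ℝ // MeasurePreserving (⇑e) (volume.restrict (Set.Icc (0:ℝ) 1))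
          (volume.restrict (Set.Icc (0:ℝ) 1))},
        @IsCompact _ τ K →
        @IsMeagre _ τ
          {T : {e : ℝ ≃ᵐ ℝ // MeasurePreserving (⇑e) (volume.restrict (Set.Icc (0:ℝ) 1))
              (volume.restrict (Set.Icc (0:ℝ) 1))} |
            ∃ R S : {e : ℝ ≃ᵐ ℝ // MeasurePreserving (⇑e) (volume.restrict (Set.Icc (0:ℝ) 1))
                (volume.restrict (Set.Icc (0:ℝ) 1))},
              S ∈ K ∧
              Filter.EventuallyEq (ae (volume.restrict (Set.Icc (0:ℝ) 1)))
                (⇑T.1) (fun x => R.1.symm (S.1 (R.1 x)))}) := by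
  intro H
  obtain ⟨K, hK, hKT⟩ := Pool.Agent.H844Z.exists_compact_transversal
  let τ : TopologicalSpace Pool.Agent.H844Z.Aut :=
    TopologicalSpace.induced Pool.Agent.H844Z.autEquiv inferInstance
  let e : Pool.Agent.H844Z.Aut ≃ₜ Pool.Agent.H844Z.G :=
    Equiv.toHomeomorphOfIsInducing Pool.Agent.H844Z.autEquiv ⟨rfl⟩
  have hB : BaireSpace Pool.Agent.H844Z.Aut := e.symm.baireSpace
  have h1 := H τ Pool.Agent.H844Z.top_inter.symm (e ⁻¹' K) (e.isCompact_preimage.2 hK)
  refine not_isMeagre_of_isOpen isOpen_univ ⟨e.symm 1, trivial⟩ (h1.mono ?_)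
  intro T _
  obtain ⟨R, hR⟩ := hKT (e T)
  refine ⟨e.symm R, e.symm (R * e T * R⁻¹), by simpa using hR, Filter.Eventually.of_forall ?_⟩
  intro x
  show T.1 x = (R⁻¹ * (R * e T * R⁻¹) * R).1 x
  have : R⁻¹ * (R * e T * R⁻¹) * R = e T := by group
  rw [this]
  rfl

end Pool.Agent.S05730
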