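import Pool.Statements.S05740
import Pool.Agent.H633Z.FastB

set_option autoImplicit false
open Pool Pool.MP_a8a40e_an

namespace Pool.Agent.S05740

/-- The negation of the preceding statement: For every transcendental entire f and every R > R(f) and R' > R, each connected component of A_R(f) = {z : ∣f^n(z)∣ ≥ M^n(R) for all n} contains a point of A_{R'}(f), with M the maximum modulus. -/
theorem result :
    ¬ (∀ f : ℂ → ℂ, Differentiable ℂ f →
      (¬ ∃ p : Polynomial ℂ, ∀ z : ℂ, f z = p.eval z) →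
      ∀ R R' : ℝ,
        (∃ R₀ : ℝ, 0 < R₀ ∧ R₀ < R ∧
          ∀ r : ℝ, R₀ ≤ r → r < sSup ((fun z => ‖f z‖) '' Metric.sphere (0 : ℂ) r)) →
        R < R' →
        ∀ z₀ : ℂ,
          z₀ ∈ {z : ℂ | ∀ n : ℕ,
            (fun r : ℝ => sSup ((fun w => ‖f w‖) '' Metric.sphere (0 : ℂ) r))^[n] R
              ≤ ‖f^[n] z‖} →
          (connectedComponentIn
              {z : ℂ | ∀ n : ℕ,
                (fun r : ℝ => sSup ((fun w => ‖f w‖) '' Metric.sphere (0 : ℂ) r))^[n] R
                  ≤ ‖f^[n] z‖} z₀ ∩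
            {z : ℂ | ∀ n : ℕ,
                (fun r : ℝ => sSup ((fun w => ‖f w‖) '' Metric.sphere (0 : ℂ) r))^[n] R'
                  ≤ ‖f^[n] z‖}).Nonempty) :=
  Pool.Agent.H633Z.Fast.main

end Pool.Agent.S05740
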