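import Pool.Statements.S05767
import Pool.Agent.H196Z.QC.Main

set_option autoImplicit false
open Filter Topology Real
open Pool Pool.MP_ab3195_an

namespace Pool.Agent.S05767

/-- There exist an open connected Ω in R^4, C^1 functions Q_k converging in C^1_loc to Q_0>0, and C^4 solutions of Δ²u_k = Q_k e^{4u_k} with bounded volume, concentrating Q-curvature mass α(x_0) > 16π² = 6 vol(S^4) at some x_0 in Ω. -/
theorem result :
    ∃ (Ω : Set (EuclideanSpace ℝ (Fin 4)))
      (Q : ℕ → EuclideanSpace ℝ (Fin 4) → ℝ)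
      (Q₀ : EuclideanSpace ℝ (Fin 4) → ℝ)
      (u : ℕ → EuclideanSpace ℝ (Fin 4) → ℝ),
      IsOpen Ω ∧ IsConnected Ω ∧
      (∀ k, ContDiffOn ℝ 1 (Q k) Ω) ∧ ContDiffOn ℝ 1 Q₀ Ω ∧
      (∀ K ⊆ Ω, IsCompact K →
        TendstoUniformlyOn Q Q₀ atTop K ∧
        TendstoUniformlyOn (fun k => fderiv ℝ (Q k)) (fderiv ℝ Q₀) atTop K) ∧
      (∀ x ∈ Ω, 0 < Q₀ x) ∧
      (∀ k, ContDiffOn ℝ 4 (u k) Ω) ∧
      (∀ k, ∀ x ∈ Ω,
        ∑ i : Fin 4, ∑ j : Fin 4,
          iteratedFDeriv ℝ 4 (u k) x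
            ![(EuclideanSpace.single i (1 : ℝ) : EuclideanSpace ℝ (Fin 4)),
              (EuclideanSpace.single i (1 : ℝ) : EuclideanSpace ℝ (Fin 4)),
              (EuclideanSpace.single j (1 : ℝ) : EuclideanSpace ℝ (Fin 4)),
              (EuclideanSpace.single j (1 : ℝ) : EuclideanSpace ℝ (Fin 4))]
          = Q k x * Real.exp (4 * u k x)) ∧
      (∃ C : ℝ, ∀ᶠ k in atTop,
        ∫⁻ x in Ω, ENNReal.ofReal (Real.exp (4 * u k x)) ≤ ENNReal.ofReal C) ∧
      ∃ x₀ ∈ Ω, ∃ α : ℝ, 16 * π ^ 2 < α ∧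
        Tendsto (fun R : ℝ => liminf (fun k : ℕ =>
            ∫⁻ x in Ω ∩ Metric.ball x₀ R,
              ENNReal.ofReal (|Q k x| * Real.exp (4 * u k x))) atTop)
          (𝓝[>] 0) (𝓝 (ENNReal.ofReal α)) ∧
        Tendsto (fun R : ℝ => limsup (fun k : ℕ =>
            ∫⁻ x in Ω ∩ Metric.ball x₀ R,
              ENNReal.ofReal (|Q k x| * Real.exp (4 * u k x))) atTop)
          (𝓝[>] 0) (𝓝 (ENNReal.ofReal α)) := by
  obtain ⟨u, Q, hu, hQ, hpt, hm⟩ := H196Z.QC.seq_exists
  have hlim : Tendsto (fun k : ℕ => 100 * (1 / ((k : ℝ) + 20))) atTop (𝓝 0) := by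
    have := ((tendsto_atTop_add_const_right _ (20 : ℝ)
      tendsto_natCast_atTop_atTop).const_div_atTop 1).const_mul 100
    simpa using this
  have hint : ∀ (k : ℕ) (R : ℝ), ∫⁻ x in Metric.ball (0 : H196Z.QC.E) 1 ∩ Metric.ball 0 R,
      ENNReal.ofReal (|Q k x| * Real.exp (4 * u k x)) =
      ENNReal.ofReal (∫ x in Metric.ball (0 : H196Z.QC.E) 1 ∩ Metric.ball 0 R,
        |Q k x| * Real.exp (4 * u k x)) := by
    intro k R
    have c : Continuous fun x => |Q k x| * Real.exp (4 * u k x) :=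
      (hQ k).continuous.abs.mul (continuous_const.mul (hu k).continuous).rexp
    rw [MeasureTheory.ofReal_integral_eq_lintegral_ofReal
      ((c.continuousOn.integrableOn_compact (isCompact_closedBall 0 1)).mono_set
        (Set.inter_subset_left.trans Metric.ball_subset_closedBall))
      (Eventually.of_forall fun x => mul_nonneg (abs_nonneg _) (Real.exp_pos _).le)]
  have ht : ∀ R : ℝ, 0 < R → Tendsto (fun k : ℕ =>
      ∫⁻ x in Metric.ball (0 : H196Z.QC.E) 1 ∩ Metric.ball 0 R,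
        ENNReal.ofReal (|Q k x| * Real.exp (4 * u k x))) atTop
      (𝓝 (ENNReal.ofReal (32 * π ^ 2))) := by
    intro R hR
    simp only [hint]
    exact ENNReal.tendsto_ofReal (hm R hR)
  refine ⟨Metric.ball 0 1, Q, fun _ => 6, u, Metric.isOpen_ball, Metric.isConnected_ball one_pos,
    fun k => ((hQ k).of_le (by exact_mod_cast le_top)).contDiffOn, contDiffOn_const, ?_,
    fun _ _ => by norm_num, fun k => (contDiff_infty.1 (hu k) 4).contDiffOn,
    fun k x hx => ?_, ⟨32 * π ^ 2 + 1, ?_⟩, 0, Metric.mem_ball_self one_pos, 32 * π ^ 2,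
    by nlinarith [Real.pi_pos], ?_, ?_⟩
  · intro K hK _
    constructor
    · rw [Metric.tendstoUniformlyOn_iff]
      intro θ hθ
      filter_upwards [hlim.eventually (gt_mem_nhds hθ)] with k hk x hx
      rw [Real.dist_eq, abs_sub_comm]
      exact (hpt k x (hK hx)).2.1.trans_lt hk
    · rw [Metric.tendstoUniformlyOn_iff]
      intro θ hθ
      filter_upwards [hlim.eventually (gt_mem_nhds hθ)] with k hk x hx
      rw [dist_comm, dist_eq_norm]
      simp only [fderiv_fun_const, Pi.zero_apply, sub_zero]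
      exact (hpt k x (hK hx)).2.2.trans_lt hk
  · rw [← (hpt k x hx).1]
    exact H196Z.QC.bilap (hu k) x
  · filter_upwards [(hm 1 one_pos).eventually (ge_mem_nhds (lt_add_one _))] with k hk
    refine le_trans ?_ ((hint k 1).le.trans (ENNReal.ofReal_le_ofReal hk))
    rw [Set.inter_self]
    refine MeasureTheory.setLIntegral_mono' measurableSet_ball fun x hx => ?_
    refine ENNReal.ofReal_le_ofReal (le_mul_of_one_le_left (Real.exp_pos _).le ?_)
    have h1 := (abs_le.1 (hpt k x hx).2.1).1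
    have h2 : 1 / ((k : ℝ) + 20) ≤ 1 / 20 :=
      one_div_le_one_div_of_le (by norm_num) (by linarith [Nat.cast_nonneg (α := ℝ) k])
    exact le_trans (by linarith) (le_abs_self _)
  · refine tendsto_const_nhds.congr' ?_
    filter_upwards [self_mem_nhdsWithin] with R hR
    exact (ht R hR).liminf_eq.symm
  · refine tendsto_const_nhds.congr' ?_
    filter_upwards [self_mem_nhdsWithin] with R hR
    exact (ht R hR).limsup_eq.symm

end Pool.Agent.S05767
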