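import Pool.Statements.S05776
import Pool.Agent.H540Z.Tor.Final

set_option autoImplicit false
open Pool Pool.MP_ab96c2_an

namespace Pool.Agent.S05776

/-- The negation of the preceding statement: For every bounded simply connected planar domain, the number of critical points of its torsion function (Δv=−2, v=0 on the boundary) is at most 2m−1, where m is the number of components of the set of local maxima of the distance to the boundary. -/
theorem result :
    ¬ (∀ (Ω : Set ℂ), IsOpen Ω → Bornology.IsBounded Ω → SimplyConnectedSpace Ω →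
    ∀ (v : ℂ → ℝ), ContDiffOn ℝ 2 v Ω →
      (∀ z ∈ Ω, fderiv ℝ (fun w => fderiv ℝ v w (1 : ℂ)) z (1 : ℂ)
          + fderiv ℝ (fun w => fderiv ℝ v w Complex.I) z Complex.I = -2) →
      ContinuousOn v (closure Ω) →
      (∀ z ∈ frontier Ω, v z = 0) →
      Set.encard {z : ℂ | z ∈ Ω ∧ fderiv ℝ v z = 0}
        ≤ 2 * ENat.card (ConnectedComponents
              {z : ℂ | z ∈ Ω ∧ IsLocalMax (fun w : ℂ => Metric.infDist w Ωᶜ) z}) - 1) := by
  intro h
  obtain ⟨Ω, v, h1, h2, h3, h4, h5, h6, h7, h8, h9⟩ := Pool.Agent.H540Z.Tor.main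
  have key := h8.trans (h Ω h1 h2 h3 v h4 h5 h6 h7)
  have hp := isPreconnected_iff_preconnectedSpace.1 h9
  have hc : ENat.card (ConnectedComponents
      {z : ℂ | z ∈ Ω ∧ IsLocalMax (fun w : ℂ => Metric.infDist w Ωᶜ) z}) ≤ 1 :=
    ENat.card_le_one_iff_subsingleton _ |>.2 inferInstance
  generalize ENat.card (ConnectedComponents
      {z : ℂ | z ∈ Ω ∧ IsLocalMax (fun w : ℂ => Metric.infDist w Ωᶜ) z}) = n at key hc
  have h10 : 2 * n - 1 ≤ 2 * 1 - 1 := by gcongr
  have h11 := key.trans h10
  revert h11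
  decide

end Pool.Agent.S05776
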