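import Pool.Statements.S05778
import Pool.Agent.H222Z.TILF

set_option autoImplicit false
open Pool Pool.MP_aba4f2_an

namespace Pool.Agent.S05778

/-- The negation of the preceding statement: Every continuous 1-periodic complex function on the reals with zero integral over [0,1] equals a finite sum of differences g_j(t) − g_j(t − a_j), with each g_j continuous and 1-periodic and each a_j real. -/
theorem result :
    ¬ (∀ f : ℝ → ℂ, Continuous f → Function.Periodic f 1 →
      (∫ t in (0:ℝ)..1, f t) = 0 →
      ∃ N : ℕ, 1 ≤ N ∧ ∃ a : Fin N → ℝ, ∃ g : Fin N → ℝ → ℂ,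
        (∀ j, Continuous (g j) ∧ Function.Periodic (g j) 1) ∧
        ∀ t : ℝ, f t = ∑ j : Fin N, (g j t - g j (t - a j))) :=
  Pool.Agent.H222Z.TILF.main

end Pool.Agent.S05778
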