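import Pool.Statements.S05794
import Pool.Agent.H467Z.Fek.Final

set_option autoImplicit false
open Pool Pool.MP_ad3787_an

namespace Pool.Agent.S05794

/-- The negation of the preceding statement: For every compact L-regular K in C^d there is c>1 such that any Fekete arrays of order ceil(cn) form an admissible mesh: for some C, every polynomial of degree at most n bounded by 1 on the order-ceil(cn) array is bounded by C on K. -/
theorem result :
    ¬ (∀ (d : ℕ) (K : Set (Fin d → ℂ)), IsCompact K →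
      (∃ Φ : (Fin d → ℂ) → ℝ, Continuous Φ ∧ ∀ z : Fin d → ℂ,
        IsLUB {t : ℝ | t = 1 ∨ ∃ p : MvPolynomial (Fin d) ℂ, 1 ≤ p.totalDegree ∧
          (∀ x ∈ K, ‖MvPolynomial.eval x p‖ ≤ 1) ∧
          t = ‖MvPolynomial.eval z p‖ ^ ((1 : ℝ) / (p.totalDegree : ℝ))} (Φ z)) →
      ∃ c : ℝ, 1 < c ∧
        ∀ F : (N : ℕ) → {α : Fin d → ℕ // α ∈ Finset.filter (fun α : Fin d → ℕ => ∑ i, α i ≤ N)
              (Fintype.piFinset fun _ : Fin d => Finset.range (N + 1))} → (Fin d → ℂ),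
          (∀ N : ℕ, (∀ a, F N a ∈ K) ∧
            ∀ y : {α : Fin d → ℕ // α ∈ Finset.filter (fun α : Fin d → ℕ => ∑ i, α i ≤ N)
              (Fintype.piFinset fun _ : Fin d => Finset.range (N + 1))} → (Fin d → ℂ),
              (∀ a, y a ∈ K) →
              ‖(Matrix.of (fun a b : {α : Fin d → ℕ // α ∈ Finset.filter (fun α : Fin d → ℕ => ∑ i, α i ≤ N)
                  (Fintype.piFinset fun _ : Fin d => Finset.range (N + 1))} =>
                  ∏ i, y a i ^ (b.1 i))).det‖ ≤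
              ‖(Matrix.of (fun a b : {α : Fin d → ℕ // α ∈ Finset.filter (fun α : Fin d → ℕ => ∑ i, α i ≤ N)
                  (Fintype.piFinset fun _ : Fin d => Finset.range (N + 1))} =>
                  ∏ i, F N a i ^ (b.1 i))).det‖) →
          ∃ C : ℝ, ∀ n : ℕ, ∀ p : MvPolynomial (Fin d) ℂ, p.totalDegree ≤ n →
            (∀ a, ‖MvPolynomial.eval (F ⌈c * (n : ℝ)⌉₊ a) p‖ ≤ 1) →
            ∀ z ∈ K, ‖MvPolynomial.eval z p‖ ≤ C) := by
  intro H
  open Pool.Agent.H467Z.Fek in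
  obtain ⟨K, hKc, hK1, hKr, hbad⟩ := exists_set
  obtain ⟨Φ, hΦc, hΦ⟩ := Pool.Agent.H467Z.Fek.regular K hK1 hKr
  let K' : Set (Fin 1 → ℂ) := Set.pi Set.univ fun _ => K
  have hK' : ∀ x : Fin 1 → ℂ, x ∈ K' ↔ x 0 ∈ K := by
    intro x
    constructor
    · exact fun h => h 0 (Set.mem_univ _)
    · intro h i _
      rw [Subsingleton.elim i 0]
      exact h
  have hK'c : IsCompact K' := isCompact_univ_pi fun _ => hKc
  have h0K : (0 : ℂ) ∈ K := hK1 (Metric.mem_closedBall_self zero_le_one)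
  obtain ⟨c, hc, hF⟩ := H 1 K' hK'c ⟨fun z => Φ (z 0), hΦc.comp (continuous_apply 0), fun z => by
    have e : {t : ℝ | t = 1 ∨ ∃ p : MvPolynomial (Fin 1) ℂ, 1 ≤ p.totalDegree ∧
          (∀ x ∈ K', ‖MvPolynomial.eval x p‖ ≤ 1) ∧
          t = ‖MvPolynomial.eval z p‖ ^ ((1 : ℝ) / (p.totalDegree : ℝ))} =
        Pool.Agent.H467Z.Fek.SS K (z 0) := by
      ext t
      constructor
      · rintro (h | ⟨p, h1, h2, h3⟩)
        · exact Or.inl h
        · refine Or.inr ⟨MvPolynomial.uniqueAlgEquiv ℂ (Fin 1) p, ?_, ?_, ?_⟩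
          · rw [Pool.Agent.H467Z.Fek.natDegree_unique]; exact h1
          · intro x hx
            have := h2 (fun _ => x) ((hK' _).2 hx)
            rwa [Pool.Agent.H467Z.Fek.eval_unique] at this
          · rw [Pool.Agent.H467Z.Fek.natDegree_unique, ← Pool.Agent.H467Z.Fek.eval_unique]
            exact h3
      · rintro (h | ⟨p, h1, h2, h3⟩)
        · exact Or.inl h
        · obtain ⟨P, rfl⟩ := (MvPolynomial.uniqueAlgEquiv ℂ (Fin 1)).surjective p
          rw [Pool.Agent.H467Z.Fek.natDegree_unique] at h1 h3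
          refine Or.inr ⟨P, h1, fun x hx => ?_, ?_⟩
          · rw [Pool.Agent.H467Z.Fek.eval_unique]
            exact h2 _ ((hK' _).1 hx)
          · rw [Pool.Agent.H467Z.Fek.eval_unique]
            exact h3
    rw [e]
    exact hΦ (z 0)⟩
  have hex : ∀ N : ℕ, ∃ x : Pool.Agent.H467Z.Fek.Idx N → Fin 1 → ℂ, (∀ a, x a ∈ K') ∧
      ∀ y : Pool.Agent.H467Z.Fek.Idx N → Fin 1 → ℂ, (∀ a, y a ∈ K') →
        ‖(Matrix.of (fun a b : Pool.Agent.H467Z.Fek.Idx N => ∏ i, y a i ^ (b.1 i))).det‖ ≤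
        ‖(Matrix.of (fun a b : Pool.Agent.H467Z.Fek.Idx N => ∏ i, x a i ^ (b.1 i))).det‖ := by
    intro N
    have hc : IsCompact (Set.pi Set.univ fun _ : Pool.Agent.H467Z.Fek.Idx N => K') :=
      isCompact_univ_pi fun _ => hK'c
    have hcont : Continuous fun y : Pool.Agent.H467Z.Fek.Idx N → Fin 1 → ℂ =>
        ‖(Matrix.of (fun a b : Pool.Agent.H467Z.Fek.Idx N => ∏ i, y a i ^ (b.1 i))).det‖ := by
      refine Continuous.norm (Continuous.matrix_det ?_)
      refine continuous_matrix fun a b => ?_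
      simp only [Matrix.of_apply]
      fun_prop
    obtain ⟨x, hx, hmax⟩ := hc.exists_isMaxOn
      ⟨fun _ _ => 0, fun _ _ => (hK' _).2 h0K⟩ hcont.continuousOn
    exact ⟨x, fun a => hx a (Set.mem_univ _), fun y hy => hmax (fun a _ => hy a)⟩
  choose F hFK hFmax using hex
  obtain ⟨C, hC⟩ := hF F fun N => ⟨hFK N, hFmax N⟩
  obtain ⟨J, hJ⟩ := exists_nat_gt (max c C)
  have hJc : c < J := lt_of_le_of_lt (le_max_left _ _) hJ
  have hJC : C < J := lt_of_le_of_lt (le_max_right _ _) hJ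
  have hJ1 : 1 ≤ J := by
    have : (1 : ℝ) ≤ J := by linarith
    exact_mod_cast this
  obtain ⟨n, p, z, hz, hpn, hpz, hp⟩ := hbad J hJ1 c hc hJc.le
  obtain ⟨P, rfl⟩ := (MvPolynomial.uniqueAlgEquiv ℂ (Fin 1)).surjective p
  rw [Pool.Agent.H467Z.Fek.natDegree_unique] at hpn
  set N := ⌈c * (n : ℝ)⌉₊ with hN
  let x : Fin (N + 1) → ℂ := fun i => F N ((Pool.Agent.H467Z.Fek.idxEquiv N).symm i) 0
  have hxK : ∀ i, x i ∈ K := fun i => (hK' _).1 (hFK N _)
  have hEx : Pool.Agent.H467Z.Fek.Ex K x := by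
    refine Pool.Agent.H467Z.Fek.ex_of_max K (Pool.Agent.H467Z.Fek.infinite_of_ball hK1) x hxK ?_
    intro y hy
    have := hFmax N (fun a _ => y (Pool.Agent.H467Z.Fek.idxEquiv N a))
      (fun a => (hK' _).2 (hy _))
    rw [Pool.Agent.H467Z.Fek.det_idx, Pool.Agent.H467Z.Fek.det_idx] at this
    simpa using this
  have h1 := hC n P hpn (fun a => by
    have := hp x hxK hEx (Pool.Agent.H467Z.Fek.idxEquiv N a)
    rw [Pool.Agent.H467Z.Fek.eval_unique]
    simpa [x] using this) (fun _ => z) ((hK' _).2 hz)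
  rw [Pool.Agent.H467Z.Fek.eval_unique] at h1
  linarith

end Pool.Agent.S05794
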