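import Pool.Statements.S05812
import Pool.Agent.H193Z.Cube.Final

set_option autoImplicit false
open MeasureTheory
open Pool Pool.MP_ae7bf1_an

namespace Pool.Agent.S05812

/-- The negation of the preceding statement: For every k, every probability space, and measure-preserving maps T_ε indexed by ε in {0,1}^k (not necessarily commuting), any set A of positive measure has positive n in ℕ^k with the intersection over ε of T_ε^{-(ε·n)}A of positive measure. -/
theorem result :
    ¬ (∀ (k : ℕ) (X : Type) [MeasurableSpace X] (μ : Measure X) [IsProbabilityMeasure μ]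
      (T : (Fin k → Fin 2) → X → X),
      (∀ ε, MeasurePreserving (T ε) μ μ) →
      ∀ A : Set X, MeasurableSet A → 0 < μ A →
        ∃ n : Fin k → ℕ, (∀ i, 0 < n i) ∧
          0 < μ (⋂ ε : Fin k → Fin 2, (T ε)^[∑ i, ((ε i : ℕ) * n i)] ⁻¹' A)) := by
  intro h
  obtain ⟨k, T, A, hT, hA, hpos, hnull⟩ := Pool.Agent.H193Z.Cube.counter
  obtain ⟨n, hn, h0⟩ := h k _ (Pool.Agent.H193Z.Cube.mu Pool.Agent.H193Z.Cube.Io) T hT A hA hpos
  exact h0.ne' (hnull n hn)

end Pool.Agent.S05812
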