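import Pool.Statements.S05845
import Pool.Agent.H180Z.Box.Final

set_option autoImplicit false
open Pool Pool.MP_b07b06_an

namespace Pool.Agent.S05845

/-- There exist finitely many differentiable contractions of some R^d whose attractor K (nonempty compact, K = union of images) has log N(δ)/(-log δ) with no limit as δ→0+, N(δ) the least number of δ-balls covering K. -/
theorem result :
    ∃ (d n : ℕ) (f : Fin n → EuclideanSpace ℝ (Fin d) → EuclideanSpace ℝ (Fin d))
      (K : Set (EuclideanSpace ℝ (Fin d))),
      (∀ i, Differentiable ℝ (f i)) ∧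
      (∀ i, ∃ c : NNReal, ContractingWith c (f i)) ∧
      K.Nonempty ∧ IsCompact K ∧ K = ⋃ i, f i '' K ∧
      ¬ ∃ L : ℝ, Filter.Tendsto
        (fun δ : ℝ =>
          Real.log ((sInf {m : ℕ | ∃ s : Finset (EuclideanSpace ℝ (Fin d)),
              s.card = m ∧ K ⊆ ⋃ x ∈ s, Metric.closedBall x δ} : ℕ) : ℝ)
            / (-Real.log δ))
        (nhdsWithin 0 (Set.Ioi 0)) (nhds L) :=
  Pool.Agent.H180Z.Box.frozen_form

end Pool.Agent.S05845
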