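import Pool.Statements.S05847
import Pool.Agent.H138Z.Kott

set_option autoImplicit false
open Pool Pool.MP_b0b663_an

namespace Pool.Agent.S05847

/-- There is c > 1 such that every non-reflexive real Banach space has, for each d < c, a sequence in its unit ball with ‖x_n + x_m‖ ≥ d and ‖x_n − x_m‖ ≥ d for all n ≠ m, i.e. its symmetric Kottman constant is at least c. -/
theorem result :
    ∃ c : ℝ, 1 < c ∧
      ∀ (X : Type) [NormedAddCommGroup X] [NormedSpace ℝ X] [CompleteSpace X],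
        ¬ Function.Surjective (NormedSpace.inclusionInDoubleDual ℝ X) →
        ∀ d : ℝ, d < c →
          ∃ x : ℕ → X, (∀ n, ‖x n‖ ≤ 1) ∧
            ∀ n m : ℕ, n ≠ m → d ≤ ‖x n + x m‖ ∧ d ≤ ‖x n - x m‖ := by
  refine ⟨11 / 10, by norm_num, fun X _ _ _ hX d hd => ?_⟩
  obtain ⟨x, hx, hx'⟩ := Pool.Agent.H138Z.Kott.main hX (d := 11 / 10) (by norm_num) (by norm_num)
  exact ⟨x, hx, fun n m h => ⟨hd.le.trans (hx' n m h).1, hd.le.trans (hx' n m h).2⟩⟩

end Pool.Agent.S05847
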