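import Pool.Statements.S05850
import Pool.Agent.H616Z.Forcing.Thin

set_option autoImplicit false
open Pool Pool.MP_b0cea1_an

namespace Pool.Agent.S05850

/-- The negation of the preceding statement: For every l>0 and every forcing set K in the upper half-plane, the set of moduli of points within hyperbolic distance l of K has lower-bounded relative measure c·r in (0,r) for arbitrarily small r, i.e. positive limsup of m(B'∩(0,r))/r. -/
theorem result :
    ¬ (∀ l : ℝ, 0 < l → ∀ K : Set ℂ, K ⊆ {z : ℂ | 0 < z.im} →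
      (∀ f : ℂ → ℂ, DifferentiableOn ℂ f {z : ℂ | 0 < z.im} →
          Set.InjOn f {z : ℂ | 0 < z.im} →
          Set.MapsTo f {z : ℂ | 0 < z.im} (Metric.ball (0 : ℂ) 1) →
          ∀ α : ℂ, Filter.Tendsto f (nhdsWithin 0 K) (nhds α) →
            ∀ θ : ℝ, 0 < θ → θ < Real.pi / 2 →
              Filter.Tendsto f
                (nhdsWithin 0 {z : ℂ | z ≠ 0 ∧ θ ≤ Complex.arg z ∧ Complex.arg z ≤ Real.pi - θ})
                (nhds α)) →
      ∃ c : ℝ, 0 < c ∧ ∀ δ : ℝ, 0 < δ → ∃ r : ℝ, 0 < r ∧ r < δ ∧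
        c * r ≤ (MeasureTheory.volume
          (((fun z : ℂ => ‖z‖) '' {z : ℂ | 0 < z.im ∧ ∃ w ∈ K,
              2 * Real.arsinh (‖z - w‖ / (2 * Real.sqrt (z.im * w.im))) < l})
            ∩ Set.Ioo (0 : ℝ) r)).toReal) := by
  intro h
  obtain ⟨m, hm⟩ := Pool.Agent.H616Z.Forcing.thin_density 1
  obtain ⟨c, hc, h1⟩ := h 1 one_pos (Pool.Agent.H616Z.Forcing.thin m)
    (Pool.Agent.H616Z.Forcing.thin_subset m) (Pool.Agent.H616Z.Forcing.thin_forcing m)
  obtain ⟨δ, hδ, h2⟩ := hm c hc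
  obtain ⟨r, hr, hrδ, h3⟩ := h1 δ hδ
  exact absurd h3 (not_le.2 (h2 r hr hrδ))

end Pool.Agent.S05850
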