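import Pool.Statements.S05858
import Pool.Agent.H441Z.FB.Main

set_option autoImplicit false
open Pool Pool.MP_b1f597_an

namespace Pool.Agent.S05858

/-- The negation of the preceding statement: The Lipschitz-free space over real ℓ₁, characterised by its universal property for Lipschitz maps vanishing at 0, has a bounded linear projection from its bidual onto its canonical copy, i.e. it is complemented in its bidual. -/
theorem result :
    ¬ (∃ (X : Type) (_ : NormedAddCommGroup X) (_ : NormedSpace ℝ X) (_ : CompleteSpace X)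
      (δ : lp (fun _ : ℕ => ℝ) 1 → X),
      δ 0 = 0 ∧ LipschitzWith 1 δ ∧
      Dense ((Submodule.span ℝ (Set.range δ) : Submodule ℝ X) : Set X) ∧
      (∀ (Y : Type) (_ : NormedAddCommGroup Y) (_ : NormedSpace ℝ Y) (_ : CompleteSpace Y)
        (f : lp (fun _ : ℕ => ℝ) 1 → Y) (K : NNReal),
        LipschitzWith K f → f 0 = 0 →
        ∃ T : X →L[ℝ] Y, ‖T‖ ≤ (K : ℝ) ∧ ∀ m, T (δ m) = f m) ∧
      ∃ P : ((X →L[ℝ] ℝ) →L[ℝ] ℝ) →L[ℝ] X,
        ∀ x : X, P (ContinuousLinearMap.apply ℝ ℝ x) = x) := by
  exact H441Z.FB.final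

end Pool.Agent.S05858
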