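import Pool.Statements.S05892
import Pool.Agent.H551Z.CHE

set_option autoImplicit false
open scoped NNReal ENNReal
open Pool Pool.MP_b6a3e4_an

namespace Pool.Agent.S05892

/-- The negation of the preceding statement: Let T be a continuous operator on a complex separable Fréchet space and 0≤a<b≤∞. If for each α in (a,b) the spans of eigenvectors with eigenvalues of modulus <α and >α are dense, then some x has a dense zT-orbit for every z with 1/b<∣z∣<1/a. -/
theorem result :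
    ¬ (∀ (X : Type) [AddCommGroup X] [Module ℂ X] [UniformSpace X] [IsUniformAddGroup X]
    [ContinuousSMul ℂ X] [LocallyConvexSpace ℝ X] [TopologicalSpace.MetrizableSpace X]
    [CompleteSpace X] [TopologicalSpace.SeparableSpace X]
    (T : X →L[ℂ] X) (a : ℝ≥0) (b : ℝ≥0∞), (a : ℝ≥0∞) < b →
    (∀ α : ℝ≥0, a < α → (α : ℝ≥0∞) < b →
      Dense ((Submodule.span ℂ {x : X | ∃ z : ℂ, ‖z‖₊ < α ∧ T x = z • x}) : Set X) ∧
      Dense ((Submodule.span ℂ {x : X | ∃ z : ℂ, α < ‖z‖₊ ∧ T x = z • x}) : Set X)) →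
    ∃ x : X, ∀ z : ℂ, (a : ℝ≥0∞) * (‖z‖₊ : ℝ≥0∞) < 1 → 1 < b * (‖z‖₊ : ℝ≥0∞) →
      Dense (Set.range (fun n : ℕ => ((z • T) ^ n) x))) := by
  intro h
  obtain ⟨X, i1, i2, i3, i4, T, a, b, hab, hH, hno⟩ := Pool.Agent.H551Z.CH.exists_counterexample
  obtain ⟨x, hx⟩ := h X T a b hab hH
  obtain ⟨z, h1, h2, h3⟩ := hno x
  exact h3 (hx z h1 h2)

end Pool.Agent.S05892
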