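import Pool.Statements.S05908
import Pool.Agent.H148Z.Flow6

set_option autoImplicit false
open MeasureTheory
open Pool Pool.MP_b7ec12_an

namespace Pool.Agent.S05908

/-- The negation of the preceding statement: Take a measure-preserving Lagrangian flow of a Borel field b on the 2-torus and a continuous W^{1,1} map f. If ∂_t f + (∇f)b is integrable in time along a.e. trajectory, then t ↦ f(t, H_t(x)) is absolutely continuous on [0,T] for a.e. x. -/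
theorem result :
    ¬ (∀ (T : ℝ), 0 < T →
  ∀ (b X f ft : ℝ → (Fin 2 → ℝ) → (Fin 2 → ℝ)) (Df : ℝ → (Fin 2 → ℝ) → Fin 2 → (Fin 2 → ℝ)),
  Measurable (Function.uncurry b) →
  (∀ (t : ℝ) (x : Fin 2 → ℝ) (k : Fin 2 → ℤ), b t (x + (fun i => (k i : ℝ))) = b t x) →
  Measurable (Function.uncurry X) →
  (∀ᵐ x ∂(volume.restrict (Set.pi Set.univ fun _ : Fin 2 => Set.Ico (0:ℝ) 1)),
     X 0 x = x ∧ IntegrableOn (fun t => b t (X t x)) (Set.Icc 0 T) ∧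
     ∀ t ∈ Set.Icc (0:ℝ) T, X t x = x + ∫ s in (0:ℝ)..t, b s (X s x)) →
  (∀ t ∈ Set.Icc (0:ℝ) T,
     Measure.map (fun x i => Int.fract (X t x i))
       (volume.restrict (Set.pi Set.univ fun _ : Fin 2 => Set.Ico (0:ℝ) 1))
     = volume.restrict (Set.pi Set.univ fun _ : Fin 2 => Set.Ico (0:ℝ) 1)) →
  ContinuousOn (Function.uncurry f) (Set.Icc (0:ℝ) T ×ˢ (Set.univ : Set (Fin 2 → ℝ))) →
  (∀ (t : ℝ) (x : Fin 2 → ℝ) (k : Fin 2 → ℤ), f t (x + (fun i => (k i : ℝ))) = f t x) →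
  Measurable (Function.uncurry ft) →
  Measurable (Function.uncurry Df) →
  (∀ R : ℝ,
     IntegrableOn (Function.uncurry ft) (Set.Ioo (0:ℝ) T ×ˢ Metric.closedBall (0 : Fin 2 → ℝ) R) ∧
     IntegrableOn (Function.uncurry Df) (Set.Ioo (0:ℝ) T ×ˢ Metric.closedBall (0 : Fin 2 → ℝ) R)) →
  (∀ φ : ℝ × (Fin 2 → ℝ) → ℝ, ContDiff ℝ 1 φ → HasCompactSupport φ →
     tsupport φ ⊆ Set.Ioo (0:ℝ) T ×ˢ (Set.univ : Set (Fin 2 → ℝ)) →
     ((∫ p, fderiv ℝ φ p ((1:ℝ), (0 : Fin 2 → ℝ)) • f p.1 p.2)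
        = - ∫ p, φ p • ft p.1 p.2) ∧
     ∀ j : Fin 2,
       (∫ p, fderiv ℝ φ p ((0:ℝ), (Pi.single j (1:ℝ) : Fin 2 → ℝ)) • f p.1 p.2)
         = - ∫ p, φ p • Df p.1 p.2 j) →
  (∀ᵐ x ∂(volume.restrict (Set.pi Set.univ fun _ : Fin 2 => Set.Ico (0:ℝ) 1)),
     IntegrableOn (fun t => ft t (X t x) + ∑ j : Fin 2, b t (X t x) j • Df t (X t x) j)
       (Set.Ioo (0:ℝ) T)) →
  ∀ᵐ x ∂(volume.restrict (Set.pi Set.univ fun _ : Fin 2 => Set.Ico (0:ℝ) 1)),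
     ∃ h : ℝ → (Fin 2 → ℝ), IntegrableOn h (Set.Icc (0:ℝ) T) ∧
       ∀ t ∈ Set.Icc (0:ℝ) T, f t (X t x) = f 0 (X 0 x) + ∫ s in (0:ℝ)..t, h s) := by
  intro H
  obtain ⟨D⟩ := Pool.Agent.H148Z.Flow.nonempty_data
  have hQ := Pool.Agent.H148Z.Flow.Data.Q_meas
  have key := H D.L D.L_pos (fun _ => D.b) D.X D.fv (fun _ _ => 0) D.Dfv
    (D.b_meas.comp measurable_snd) (fun _ x k => D.b_per x k) D.X_meas
    (ae_restrict_of_forall_mem hQ fun p hp => ⟨D.X_zero p, D.ode D.L D.L_pos.le p hp⟩)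
    (fun t _ => D.mp t)
    ((D.F_cont.comp continuous_snd).smul continuous_const).continuousOn
    (fun t x k => by simp only [Pool.Agent.H148Z.Flow.Data.fv, D.F_per])
    measurable_const D.Dfv_meas
    (fun R => ⟨integrableOn_zero, D.Dfv_int D.L R⟩)
    (fun φ hφ hc _ => ⟨D.weak_t φ hφ hc, D.weak_j φ hφ hc⟩)
    (ae_restrict_of_forall_mem hQ fun p hp => D.g_int D.L D.L_pos.le p hp)
  obtain ⟨p, hp, η, hη, hH⟩ :=
    Measure.exists_mem_of_measure_ne_zero_of_ae D.K_pos (ae_restrict_of_ae key)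
  exact D.not_ac' p hp η hη hH

end Pool.Agent.S05908
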