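import Pool.Statements.S05980
import Pool.Agent.H750Z.SF.Frechet

set_option autoImplicit false
open Pool Pool.MP_be6c88_an

namespace Pool.Agent.S05980

/-- The negation of the preceding statement: There is an infinite-dimensional real Banach space whose norm is Fréchet differentiable away from 0 and which is covered by closed balls of positive radius, each meeting only finitely many balls of the covering. -/
theorem result :
    ¬ (∃ (X : Type) (_ : NormedAddCommGroup X) (_ : NormedSpace ℝ X),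
      CompleteSpace X ∧ ¬ FiniteDimensional ℝ X ∧
      (∀ x : X, x ≠ 0 → DifferentiableAt ℝ (fun y : X => ‖y‖) x) ∧
      ∃ 𝒞 : Set (Set X),
        (∀ B ∈ 𝒞, ∃ c : X, ∃ r : ℝ, 0 < r ∧ B = Metric.closedBall c r) ∧
        ⋃₀ 𝒞 = Set.univ ∧
        ∀ B ∈ 𝒞, {B' ∈ 𝒞 | (B ∩ B').Nonempty}.Finite) := by
  rintro ⟨X, _, _, _, hX, hdiff, 𝒞, h1, h2, h3⟩
  exact H750Z.SF.frechet hX hdiff (𝒞 := 𝒞) ⟨h1, fun x => by
    have hx : x ∈ ⋃₀ 𝒞 := h2 ▸ Set.mem_univ x
    exact hx, h3⟩

end Pool.Agent.S05980
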