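import Pool.Statements.S05997
import Pool.Agent.H18Z.Bisym

set_option autoImplicit false
open Pool Pool.MP_bfe0f8_an

namespace Pool.Agent.S05997

/-- For every real interval I, any binary operation on I that is reflexive, bisymmetric, and strictly increasing in each variable is continuous on I×I. -/
theorem result :
    ∀ (I : Set ℝ), I.OrdConnected → ∀ F : ℝ → ℝ → ℝ,
      (∀ x ∈ I, ∀ y ∈ I, F x y ∈ I) →
      (∀ x ∈ I, F x x = x) →
      (∀ x ∈ I, ∀ y ∈ I, ∀ u ∈ I, ∀ v ∈ I,
        F (F x y) (F u v) = F (F x u) (F y v)) →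
      (∀ x ∈ I, StrictMonoOn (F x) I) →
      (∀ y ∈ I, StrictMonoOn (fun x => F x y) I) →
      ContinuousOn (Function.uncurry F) (I ×ˢ I) :=
  fun I hI F h1 h2 h3 h4 h5 => Pool.Agent.H18Z.Bisym.main I hI F h1 h2 h3 h4 h5

end Pool.Agent.S05997
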