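import Pool.Statements.S06007
import Pool.Agent.H800Z.Erg.Decay
import Pool.Agent.H738Z.Conc
import Pool.Agent.H33Z.ErgBdd
import Pool.Agent.H991Z.Erg.Max
import Pool.Agent.H558Z.Erg.Fin
import Pool.Agent.H80Z.ErgCZ

set_option autoImplicit false
open MeasureTheory Filter Topology
open Pool Pool.MP_c0d668_an

namespace Pool.Agent.S06007

/-- For every jointly measurable, measure-preserving PSL2(R)-action on a probability space with spectral gap on mean-zero L2 functions, and every integrable f, the Haar averages of f(g⁻¹x) over the Frobenius-norm balls converge to the mean of f for almost every x. -/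
theorem result :
    ∀ [tG : TopologicalSpace (Matrix.SpecialLinearGroup (Fin 2) ℝ)]
      [mG : MeasurableSpace (Matrix.SpecialLinearGroup (Fin 2) ℝ)],
      Topology.IsInducing
          (fun g : Matrix.SpecialLinearGroup (Fin 2) ℝ => (g : Matrix (Fin 2) (Fin 2) ℝ)) →
      BorelSpace (Matrix.SpecialLinearGroup (Fin 2) ℝ) →
      ∀ (m : Measure (Matrix.SpecialLinearGroup (Fin 2) ℝ)), m.IsHaarMeasure →
      ∀ (X : Type) [mX : MeasurableSpace X] (μ : Measure X), IsProbabilityMeasure μ →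
      ∀ [act : MulAction (Matrix.SpecialLinearGroup (Fin 2) ℝ) X],
        Measurable (fun p : Matrix.SpecialLinearGroup (Fin 2) ℝ × X => p.1 • p.2) →
        (∀ g : Matrix.SpecialLinearGroup (Fin 2) ℝ,
            MeasurePreserving (fun x : X => g • x) μ μ) →
        (∀ g : Matrix.SpecialLinearGroup (Fin 2) ℝ,
            (g : Matrix (Fin 2) (Fin 2) ℝ) = -1 → ∀ x : X, g • x = x) →
        (∃ Q : Set (Matrix.SpecialLinearGroup (Fin 2) ℝ), IsCompact Q ∧
          ∃ ε : ℝ, 0 < ε ∧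
            ∀ f : X → ℝ, MemLp f 2 μ → ∫ y, f y ∂μ = 0 → eLpNorm f 2 μ = 1 →
              ∃ g ∈ Q, ENNReal.ofReal ε ≤ eLpNorm (fun y => f (g • y) - f y) 2 μ) →
        ∀ f : X → ℝ, Integrable f μ →
          ∀ᵐ x ∂μ, Tendsto
            (fun R : ℝ =>
              (m {g : Matrix.SpecialLinearGroup (Fin 2) ℝ |
                  ∑ i, ∑ j, ((g : Matrix (Fin 2) (Fin 2) ℝ) i j) ^ 2 < R}).toReal⁻¹ *
                ∫ g in {g : Matrix.SpecialLinearGroup (Fin 2) ℝ |
                  ∑ i, ∑ j, ((g : Matrix (Fin 2) (Fin 2) ℝ) i j) ^ 2 < R},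
                  f (g⁻¹ • x) ∂m)
            atTop (𝓝 (∫ y, f y ∂μ)) := by
  intro tG mG h1 h2 m hm X mX μ hμ act a1 a2 _ hgap f hf
  obtain rfl : tG = Matrix.SpecialLinearGroup.instTopologicalSpace := h1.eq_induced
  have hA : Pool.Agent.H800Z.Erg.Act X μ := ⟨a1, a2⟩
  have hD := Pool.Agent.H738Z.Conc.thm_conc Pool.Agent.H800Z.Erg.thm_decay m X μ hA hgap
  obtain ⟨α, hα⟩ := Pool.Agent.H800Z.Erg.exists_vol (m := m)
  exact Pool.Agent.H558Z.Erg.thm_fin m X μ α hα.1 hA
    (Pool.Agent.H991Z.Erg.thm_max Pool.Agent.H80Z.ErgCZ.thm_cz m X μ α hA hD hα)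
    (Pool.Agent.H33Z.ErgBdd.thm_bdd m X μ α hA hD hα) f hf

end Pool.Agent.S06007
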