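import Pool.Statements.S06070
import Pool.Agent.H564Z.MonoAbs

set_option autoImplicit false
open Pool Pool.MP_c4dd1f_an

namespace Pool.Agent.S06070

open Pool.Agent.H564Z.Mono

/-- The negation of the preceding statement: For every real Banach space X and every maximally monotone set-valued map A from X to its continuous dual, the closure of the domain of A (points where A is nonempty) is a convex set. -/
theorem result :
    ¬ (∀ (X : Type) [NormedAddCommGroup X] [NormedSpace ℝ X] [CompleteSpace X]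
      (A : X → Set (X →L[ℝ] ℝ)),
      (∀ (x y : X) (xs ys : X →L[ℝ] ℝ), xs ∈ A x → ys ∈ A y → 0 ≤ (xs - ys) (x - y)) →
      (∀ (x : X) (xs : X →L[ℝ] ℝ),
          (∀ (y : X) (ys : X →L[ℝ] ℝ), ys ∈ A y → 0 ≤ (xs - ys) (x - y)) → xs ∈ A x) →
      Convex ℝ (closure {x : X | (A x).Nonempty})) := by
  intro h
  obtain ⟨M, h1, h2, ⟨p, hp, hp1⟩, ⟨q, hq, hq1⟩, h5, -, -⟩ := main
  have hc := h X0 (fun x => {f | (x, f) ∈ M})
    (fun x y xs ys hx hy => h1 (x, xs) hx (y, ys) hy)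
    (fun x xs hx => h2 (x, xs) fun r hr => hx r.1 r.2 hr)
  have hsub : closure {x : X0 | ({f | (x, f) ∈ M} : Set (X0 →L[ℝ] ℝ)).Nonempty} ⊆
      {x : X0 | x.1 ≤ 0} ∪ {x : X0 | 2 ≤ x.1} := by
    refine closure_minimal ?_ ((isClosed_le continuous_fst continuous_const).union
      (isClosed_le continuous_const continuous_fst))
    rintro x ⟨f, hf⟩
    rcases h5 (x, f) hf with h | h
    · exact Or.inl h.le
    · exact Or.inr h.le
  have hm := hsub (hc (subset_closure ⟨p.2, hp⟩) (subset_closure ⟨q.2, hq⟩)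
    (show (0 : ℝ) ≤ 1 / 2 by norm_num) (show (0 : ℝ) ≤ 1 / 2 by norm_num) (by norm_num))
  have he : ((1 / 2 : ℝ) • p.1 + (1 / 2 : ℝ) • q.1).1 = 1 := by
    rw [Prod.fst_add, Prod.smul_fst, Prod.smul_fst, hp1, hq1]; norm_num
  rcases hm with hm | hm
  · have : ((1 / 2 : ℝ) • p.1 + (1 / 2 : ℝ) • q.1).1 ≤ 0 := hm
    linarith
  · have : 2 ≤ ((1 / 2 : ℝ) • p.1 + (1 / 2 : ℝ) • q.1).1 := hm
    linarith

end Pool.Agent.S06070
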