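import Pool.Statements.S06071
import Pool.Agent.H267Z.Retr

set_option autoImplicit false
open Pool Pool.MP_c4f5bb_an

namespace Pool.Agent.S06071

/-- For every real Banach space X and n ≥ 2, some map sends nonempty sets of at most n points to nonempty sets of at most n−1 points, fixes the latter, and is Lipschitz for the Hausdorff distance. -/
theorem result :
    ∀ (X : Type) [NormedAddCommGroup X] [NormedSpace ℝ X] [CompleteSpace X] (n : ℕ), 2 ≤ n →
      ∃ (r : Set X → Set X) (L : ℝ),
        (∀ S : Set X, S.Nonempty → S.Finite → S.ncard ≤ n →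
          (r S).Nonempty ∧ (r S).Finite ∧ (r S).ncard ≤ n - 1) ∧
        (∀ S : Set X, S.Nonempty → S.Finite → S.ncard ≤ n - 1 → r S = S) ∧
        (∀ S T : Set X, S.Nonempty → S.Finite → S.ncard ≤ n →
          T.Nonempty → T.Finite → T.ncard ≤ n →
          Metric.hausdorffDist (r S) (r T) ≤ L * Metric.hausdorffDist S T) := by
  intro X _ _ _ n hn
  refine ⟨Pool.Agent.H267Z.Retr.retr n, 48 * (n : ℝ) ^ 2 + 16 * n + 1, ?_, ?_, ?_⟩
  · intro S hS hfin hc
    lift S to Finset X using hfin
    rw [Set.ncard_coe_finset] at hc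
    obtain ⟨h1, h2⟩ := Pool.Agent.H267Z.Retr.retr_fin n S (Finset.coe_nonempty.1 hS)
    refine ⟨h2, h1, ?_⟩
    by_cases h : S.card = n
    · rw [Pool.Agent.H267Z.Retr.retr_of_eq n S h, ← h]
      exact Pool.Agent.H267Z.Retr.ncard_ctr S (h ▸ hn)
    · rw [Pool.Agent.H267Z.Retr.retr_of_ne n S h, Set.ncard_coe_finset]
      omega
  · intro S _ hfin hc
    lift S to Finset X using hfin
    rw [Set.ncard_coe_finset] at hc
    exact Pool.Agent.H267Z.Retr.retr_of_ne n S (by omega)
  · intro S T hS hSf hSc hT hTf hTc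
    lift S to Finset X using hSf
    lift T to Finset X using hTf
    rw [Set.ncard_coe_finset] at hSc hTc
    exact Pool.Agent.H267Z.Retr.retr_lip n hn S T (Finset.coe_nonempty.1 hS) hSc
      (Finset.coe_nonempty.1 hT) hTc

end Pool.Agent.S06071
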