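import Pool.Statements.S06098
import Pool.Agent.H45Z.UnivB

set_option autoImplicit false
open Pool Pool.MP_c72435_an

namespace Pool.Agent.S06098

/-- The negation of the preceding statement: For every f holomorphic and injective on the unit disk with f(0)=0, f'(0)=1, and Taylor coefficients a_k, for all n≥1: ∣a_n∣^2 ≤ ∣a_1∣+∣a_3∣+...+∣a_{2n-1}∣, where ∣a_1∣ = 1. -/
theorem result :
    ¬ (∀ f : ℂ → ℂ, DifferentiableOn ℂ f (Metric.ball (0 : ℂ) 1) →
      Set.InjOn f (Metric.ball (0 : ℂ) 1) → f 0 = 0 → deriv f 0 = 1 →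
      ∀ n : ℕ, 1 ≤ n →
        ‖iteratedDeriv n f 0 / ((Nat.factorial n : ℕ) : ℂ)‖ ^ 2 ≤
          ∑ k ∈ Finset.range n,
            ‖iteratedDeriv (2 * k + 1) f 0 / ((Nat.factorial (2 * k + 1) : ℕ) : ℂ)‖) :=
  Pool.Agent.H45Z.Univ.main

end Pool.Agent.S06098
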