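import Pool.Statements.S06121
import Pool.Agent.H619Z.NormAdd

set_option autoImplicit false
open Pool Pool.MP_c8dc36_an

namespace Pool.Agent.S06121

/-- For any two C*-algebras, a map from the positive cone of the first onto the positive cone of the second with ‖T f + T g‖ = ‖T(f+g)‖ for all positive f, g must satisfy T(f+g) = T f + T g on positive elements. -/
theorem result :
    ∀ (A₁ A₂ : Type) [NonUnitalCStarAlgebra A₁] [PartialOrder A₁] [StarOrderedRing A₁]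
      [NonUnitalCStarAlgebra A₂] [PartialOrder A₂] [StarOrderedRing A₂] (T : A₁ → A₂),
      (∀ a : A₁, 0 ≤ a → 0 ≤ T a) →
      (∀ b : A₂, 0 ≤ b → ∃ a : A₁, 0 ≤ a ∧ T a = b) →
      (∀ f g : A₁, 0 ≤ f → 0 ≤ g → ‖T f + T g‖ = ‖T (f + g)‖) →
      ∀ f g : A₁, 0 ≤ f → 0 ≤ g → T (f + g) = T f + T g :=
  fun A₁ A₂ _ _ _ _ _ _ T h1 h2 h3 f g hf hg =>
    Pool.Agent.H619Z.NormAdd.final A₁ A₂ T h1 h2 h3 f g hf hg

end Pool.Agent.S06121
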