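import Pool.Statements.S06143
import Pool.Agent.H700Z.HD8

set_option autoImplicit false
open Pool Pool.MP_ca4620_an

namespace Pool.Agent.S06143

/-- There is C>0 such that for every Dirichlet polynomial with coefficients a_1..a_N, C(∣a_1∣ + sum over k≥2 of ∣a_k∣/(√k ln k)) is at most the mean value lim (1/T)∫_{-T/2}^{T/2} ∣Σ a_k k^{-2πit}∣ dt. -/
theorem result :
    ∃ C : ℝ, 0 < C ∧ ∀ (N : ℕ), 1 ≤ N → ∀ (a : ℕ → ℂ), ∃ L : ℝ,
      Filter.Tendsto
        (fun T : ℝ => (1 / T) * ∫ t in (-T / 2)..(T / 2),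
          ‖∑ k ∈ Finset.Icc 1 N,
              a k / ((k : ℂ) ^ (2 * (Real.pi : ℂ) * Complex.I * (t : ℂ)))‖)
        Filter.atTop (nhds L) ∧
      C * (‖a 1‖ + ∑ k ∈ Finset.Icc 2 N, ‖a k‖ / (Real.sqrt k * Real.log k)) ≤ L := by
  exact Pool.Agent.H700Z.HD.final

end Pool.Agent.S06143
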