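import Pool.Statements.S06172
import Pool.Agent.H47Z.Rolli

set_option autoImplicit false
open Pool Pool.MP_cc91a5_an

namespace Pool.Agent.S06172

/-- The negation of the preceding statement: For every continuous self-map T of a compact metric space and every almost additive sequence of continuous functions with bounded variations in the Bowen metric, some continuous g has Birkhoff sums uniformly within bounded distance of f_n. -/
theorem result :
    ¬ (∀ (X : Type) [MetricSpace X] [CompactSpace X] (T : X → X), Continuous T →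
      ∀ f : ℕ → X → ℝ, (∀ n, Continuous (f n)) →
        (∃ C : ℝ, ∀ n m : ℕ, 1 ≤ n → 1 ≤ m → ∀ x : X,
            |f (n + m) x - f n x - f m (T^[n] x)| ≤ C) →
        (∃ ε : ℝ, 0 < ε ∧ ∃ K : ℝ, ∀ n : ℕ, 1 ≤ n → ∀ x y : X,
            (∀ k : ℕ, k < n → dist (T^[k] x) (T^[k] y) < ε) →
              |f n x - f n y| ≤ K) →
        ∃ g : X → ℝ, Continuous g ∧ ∃ B : ℝ, ∀ n : ℕ, 1 ≤ n → ∀ x : X,
            |f n x - ∑ k ∈ Finset.range n, g (T^[k] x)| ≤ B) := by
  intro h
  have hc : @CompactSpace (ℕ → Bool)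
      (PiNat.metricSpace (E := fun _ : ℕ => Bool)).toPseudoMetricSpace.toUniformSpace.toTopologicalSpace :=
    inferInstanceAs (CompactSpace (ℕ → Bool))
  obtain ⟨g, hg, B, hB⟩ := @h (ℕ → Bool) (PiNat.metricSpace (E := fun _ : ℕ => Bool)) hc
    H47Z.Rolli.T H47Z.Rolli.T_cont H47Z.Rolli.f H47Z.Rolli.f_cont
    ⟨2, fun n m _ _ x => le_trans (le_add_of_nonneg_right (abs_nonneg _))
      (H47Z.Rolli.f_add n m x)⟩
    ⟨1, one_pos, 0, fun n _ x y hxy => by
      have : H47Z.Rolli.f n x = H47Z.Rolli.f n y := by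
        refine H47Z.Rolli.f_congr fun j hj => ?_
        have h1 := PiNat.apply_eq_of_dist_lt (E := fun _ : ℕ => Bool) (n := 0) (i := 0)
          (x := H47Z.Rolli.T^[j] x) (y := H47Z.Rolli.T^[j] y)
          (by rw [pow_zero]; exact hxy j hj) le_rfl
        rwa [H47Z.Rolli.T_iter, H47Z.Rolli.T_iter, zero_add] at h1
      rw [this, sub_self, abs_zero]⟩
  exact H47Z.Rolli.main g hg B hB

end Pool.Agent.S06172
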