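import Pool.Statements.S06205
import Pool.Agent.H27Z.FT.PV

set_option autoImplicit false
open Filter Topology MeasureTheory
open Pool Pool.MP_ced2fd_an

namespace Pool.Agent.S06205

/-- For d at least 3 and any bounded convex open D in R^d, every continuous function vanishing off D whose principal-value half-Laplacian (up to a positive constant) equals 1 at each point of D is concave on D. -/
theorem result :
    ∀ (d : ℕ), 3 ≤ d →
    ∀ (D : Set (EuclideanSpace ℝ (Fin d))),
      IsOpen D → Convex ℝ D → Bornology.IsBounded D →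
    ∀ (φ : EuclideanSpace ℝ (Fin d) → ℝ),
      Continuous φ →
      (∀ x, x ∉ D → φ x = 0) →
      (∀ x ∈ D, Tendsto
          (fun ε : ℝ => ∫ y in {y : EuclideanSpace ℝ (Fin d) | ε < ‖x - y‖},
              (φ x - φ y) / ‖x - y‖ ^ (d + 1))
          (𝓝[>] (0 : ℝ)) (𝓝 1)) →
      ConcaveOn ℝ D φ := by
  intro d _ D hD hc hb φ hφ hz hi
  have hs : HasCompactSupport φ :=
    HasCompactSupport.intro hb.isCompact_closure fun x hx => hz x fun h => hx (subset_closure h)
  obtain ⟨M, hM⟩ := hφ.bounded_above_of_compact_support hs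
  refine Pool.Agent.H27Z.FT.concave (α := 1) one_pos le_rfl
    ⟨hφ, hz, hb, fun x hx => Pool.Agent.H27Z.FT.lim_of_pv one_pos hφ hM x ?_⟩ hD hc
  have e : Pool.Agent.H27Z.FT.II 1 φ x = fun ε : ℝ =>
      ∫ y in {y : EuclideanSpace ℝ (Fin d) | ε < ‖x - y‖}, (φ x - φ y) / ‖x - y‖ ^ (d + 1) := by
    funext ε
    unfold Pool.Agent.H27Z.FT.II
    refine integral_congr_ae (Eventually.of_forall fun w => ?_)
    show (φ x - φ w) * ‖x - w‖ ^ (-((d : ℝ) + 1)) = (φ x - φ w) / ‖x - w‖ ^ (d + 1)
    rw [Real.rpow_neg (norm_nonneg _), div_eq_mul_inv, ← Real.rpow_natCast]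
    push_cast
    rfl
  rw [e]
  exact hi x hx

end Pool.Agent.S06205
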