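import Pool.Statements.S06207
import Pool.Agent.H481Z.Rez

set_option autoImplicit false
open Pool Pool.MP_ced77a_an

namespace Pool.Agent.S06207

/-- For every complex Banach space X and bounded operator T whose adjoint has no eigenvalues, and every x, if the closed convex hull of the orbit of x has nonempty interior then it is all of X. -/
theorem result :
    ∀ (X : Type) [NormedAddCommGroup X] [NormedSpace ℂ X] [CompleteSpace X]
      (T : X →L[ℂ] X),
      (∀ (c : ℂ) (φ : X →L[ℂ] ℂ), φ.comp T = c • φ → φ = 0) →
      ∀ x : X,
        (interior (closure (convexHull ℝ (Set.range (fun n : ℕ => (T ^ n) x))))).Nonempty →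
        closure (convexHull ℝ (Set.range (fun n : ℕ => (T ^ n) x))) = Set.univ := by
  intro X _ _ _ T hT x hint
  exact Pool.Agent.H481Z.Rez.main T hT x hint

end Pool.Agent.S06207
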