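import Pool.Statements.S06212
import Pool.Agent.H433Z.Haag

set_option autoImplicit false
open ComplexOrder
open Pool Pool.MP_cf2fa9_an

namespace Pool.Agent.S06212

/-- The negation of the preceding statement: For k ≥ 2, no nonzero positive definite ℓ²-coefficient ψ(g)=⟨λ(g)η,η⟩ lies below g ↦ (2k−1)^(−∣g∣/2) on the free group F_k. That is, the critical Haagerup function is singular to the Fourier algebra. -/
theorem result :
    ¬ (∀ k : ℕ, 2 ≤ k → ∀ η : FreeGroup (Fin k) → ℂ,
    Summable (fun h => ‖η h‖ ^ 2) → η ≠ 0 →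
    ¬ ∀ (n : ℕ) (g : Fin n → FreeGroup (Fin k)) (c : Fin n → ℂ),
      0 ≤ ∑ i, ∑ j, starRingEnd ℂ (c i) * c j *
        ((((1 / Real.sqrt (2 * (k : ℝ) - 1)) ^ (FreeGroup.toWord ((g i)⁻¹ * g j)).length : ℝ) : ℂ)
          - ∑' h, starRingEnd ℂ (η h) * η (((g i)⁻¹ * g j)⁻¹ * h))) := by
  intro h
  classical
  let η : FreeGroup (Fin 2) → ℂ := fun x => if x = 1 then 1 / 4 else 0
  have hsum : Summable (fun x => ‖η x‖ ^ 2) := by
    refine summable_of_ne_finset_zero (s := {1}) fun x hx => ?_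
    have : x ≠ 1 := by simpa using hx
    simp [η, this]
  have hne : η ≠ 0 := by
    intro h0
    have := congrFun h0 1
    simp [η] at this
  refine h 2 le_rfl η hsum hne fun n g c => ?_
  set r : ℝ := 1 / Real.sqrt (2 * ((2 : ℕ) : ℝ) - 1) with hr
  have hr2 : r ^ 2 = 1 / 3 := by
    rw [hr, div_pow, Real.sq_sqrt (by norm_num)]; norm_num
  have key := H433Z.Haag.main_complex
    (fun i j => r ^ H433Z.Haag.dd (g i).toWord (g j).toWord
      - 1 / 16 * H433Z.Haag.dl (g i).toWord (g j).toWord)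
    (fun i j => by
      rw [H433Z.Haag.dd_comm]
      simp only [H433Z.Haag.dl, eq_comm])
    (H433Z.Haag.main_real' r hr2 (fun i => (g i).toWord)) c
  refine le_of_le_of_eq key ?_
  refine Finset.sum_congr rfl fun i _ => Finset.sum_congr rfl fun j _ => ?_
  congr 1
  have e1 := H433Z.Haag.len_eq (g i).toWord (g j).toWord FreeGroup.isReduced_toWord
    FreeGroup.isReduced_toWord
  rw [FreeGroup.mk_toWord, FreeGroup.mk_toWord] at e1
  rw [tsum_eq_single 1 (fun x hx => by simp [η, hx])]
  push_cast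
  congr 1
  · rw [← e1]
  · by_cases hij : g i = g j
    · simp [η, H433Z.Haag.dl, hij, map_ofNat]; norm_num
    · have h1 : ¬ (g i).toWord = (g j).toWord := fun hh => hij (FreeGroup.toWord_injective hh)
      have h2 : ¬ ((g j)⁻¹ * g i = 1) := fun hh => hij (inv_mul_eq_one.1 hh).symm
      simp [η, H433Z.Haag.dl, h1, h2]

end Pool.Agent.S06212
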