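import Pool.Statements.S06226
import Pool.Agent.H232Z.RGap

set_option autoImplicit false
open Pool Pool.MP_d01728_an

namespace Pool.Agent.S06226

/-- The negation of the preceding statement: For every bounded convex domain in R^d, every convex potential continuous up to the boundary and every α>0, the Robin gap λ1−λ0 of −Δ+V (given by min-max) is at least the Robin gap of −d²/dx² on the interval of the same diameter. -/
theorem result :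
    ¬ (∀ (d : ℕ), 1 ≤ d → ∀ (Ω : Set (EuclideanSpace ℝ (Fin d))), IsOpen Ω → Convex ℝ Ω →
  Bornology.IsBounded Ω → Ω.Nonempty →
  ∀ (V : EuclideanSpace ℝ (Fin d) → ℝ), ConvexOn ℝ Ω V → ContinuousOn V (closure Ω) →
  ∀ α : ℝ, 0 < α →
  ∀ lam0 lam1 mu0 mu1 : ℝ,
  IsGLB {t : ℝ | ∃ u : EuclideanSpace ℝ (Fin d) → ℝ, ContDiff ℝ 1 u ∧
      0 < (∫ x in Ω, u x ^ 2) ∧
      t = ((∫ x in Ω, (‖fderiv ℝ u x‖ ^ 2 + V x * u x ^ 2)) +
            α * (Real.pi ^ (((d:ℝ) - 1) / 2) / Real.Gamma (((d:ℝ) - 1) / 2 + 1) / 2 ^ ((d:ℝ) - 1)) *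
            (∫ x in frontier Ω, u x ^ 2 ∂(MeasureTheory.Measure.hausdorffMeasure ((d:ℝ) - 1))))
          / (∫ x in Ω, u x ^ 2)} lam0 →
  IsGLB {t : ℝ | ∃ u w : EuclideanSpace ℝ (Fin d) → ℝ, ContDiff ℝ 1 u ∧ ContDiff ℝ 1 w ∧
      0 < (∫ x in Ω, u x ^ 2) * (∫ x in Ω, w x ^ 2) - (∫ x in Ω, u x * w x) ^ 2 ∧
      IsLUB {s : ℝ | ∃ a b : ℝ, (a ≠ 0 ∨ b ≠ 0) ∧
        s = ((∫ x in Ω, (‖fderiv ℝ (fun y => a * u y + b * w y) x‖ ^ 2 +
                  V x * (a * u x + b * w x) ^ 2)) +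
              α * (Real.pi ^ (((d:ℝ) - 1) / 2) / Real.Gamma (((d:ℝ) - 1) / 2 + 1) / 2 ^ ((d:ℝ) - 1)) *
              (∫ x in frontier Ω, (a * u x + b * w x) ^ 2
                  ∂(MeasureTheory.Measure.hausdorffMeasure ((d:ℝ) - 1))))
            / (∫ x in Ω, (a * u x + b * w x) ^ 2)} t} lam1 →
  IsGLB {t : ℝ | ∃ u : ℝ → ℝ, ContDiff ℝ 1 u ∧
      0 < (∫ x in Set.Ioo (-(Metric.diam Ω / 2)) (Metric.diam Ω / 2), u x ^ 2) ∧
      t = ((∫ x in Set.Ioo (-(Metric.diam Ω / 2)) (Metric.diam Ω / 2), deriv u x ^ 2) +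
            α * (u (-(Metric.diam Ω / 2)) ^ 2 + u (Metric.diam Ω / 2) ^ 2))
          / (∫ x in Set.Ioo (-(Metric.diam Ω / 2)) (Metric.diam Ω / 2), u x ^ 2)} mu0 →
  IsGLB {t : ℝ | ∃ u w : ℝ → ℝ, ContDiff ℝ 1 u ∧ ContDiff ℝ 1 w ∧
      0 < (∫ x in Set.Ioo (-(Metric.diam Ω / 2)) (Metric.diam Ω / 2), u x ^ 2) *
          (∫ x in Set.Ioo (-(Metric.diam Ω / 2)) (Metric.diam Ω / 2), w x ^ 2) -
          (∫ x in Set.Ioo (-(Metric.diam Ω / 2)) (Metric.diam Ω / 2), u x * w x) ^ 2 ∧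
      IsLUB {s : ℝ | ∃ a b : ℝ, (a ≠ 0 ∨ b ≠ 0) ∧
        s = ((∫ x in Set.Ioo (-(Metric.diam Ω / 2)) (Metric.diam Ω / 2),
                  deriv (fun y => a * u y + b * w y) x ^ 2) +
              α * ((a * u (-(Metric.diam Ω / 2)) + b * w (-(Metric.diam Ω / 2))) ^ 2 +
                   (a * u (Metric.diam Ω / 2) + b * w (Metric.diam Ω / 2)) ^ 2))
            / (∫ x in Set.Ioo (-(Metric.diam Ω / 2)) (Metric.diam Ω / 2),
                  (a * u x + b * w x) ^ 2)} t} mu1 →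
  mu1 - mu0 ≤ lam1 - lam0) := by
  intro h
  obtain ⟨Ω, V, lam0, lam1, h1, h2, h3, h4, h5, h6, h7, h8, h9, h10⟩ :=
    Pool.Agent.H232Z.RGap.plane (α := 1 / 16) (η := 1 / 16) (by norm_num) (by norm_num)
  obtain ⟨mu0, a0, b0⟩ := Pool.Agent.H232Z.RGap.mu0_ex (α := 1 / 16) (by norm_num)
  obtain ⟨mu1, a1, b1⟩ := Pool.Agent.H232Z.RGap.mu1_ex (α := 1 / 16) (by norm_num)
  have e1 : ((2 : ℕ) : ℝ) - 1 = 1 := by norm_num
  have e2 : Real.pi ^ ((1 : ℝ) / 2) / Real.Gamma ((1 : ℝ) / 2 + 1) / 2 ^ (1 : ℝ) = 1 := by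
    rw [Real.Gamma_add_one (by norm_num), Real.Gamma_one_half_eq, Real.sqrt_eq_rpow, Real.rpow_one]
    have : 0 < Real.pi ^ ((1 : ℝ) / 2) := Real.rpow_pos_of_pos Real.pi_pos _
    field_simp
  have := h 2 (by norm_num) Ω h1 h2 h3 h4 V h5 h6 (1 / 16) (by norm_num) lam0 lam1 mu0 mu1
    (by rw [e1, e2, mul_one]; exact h9) (by rw [e1, e2, mul_one]; exact h10)
    (by rw [h7]; exact b0) (by rw [h7]; exact b1)
  linarith

end Pool.Agent.S06226
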