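import Pool.Statements.S06250
import Pool.Agent.H242Z.SmaleZ

set_option autoImplicit false
open Pool Pool.MP_d219ff_an

namespace Pool.Agent.S06250

/-- The negation of the preceding statement: Every surjunctive Smale system is conjugate to the disjoint union of a non-wandering Smale system and a countable subshift of finite type whose Cantor-Bendixson rank is at most 2 (second derived set equals third). -/
theorem result :
    ¬ (∀ (X : Type) [TopologicalSpace X] [CompactSpace X] (f : X ≃ₜ X),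
      (∃ (d : X → X → ℝ) (ε lam : ℝ) (br : X → X → X),
        (∀ x y, d x y = d y x) ∧ (∀ x y, d x y = 0 ↔ x = y) ∧
        (∀ x y z, d x z ≤ d x y + d y z) ∧
        (∀ U : Set X, IsOpen U ↔ ∀ x ∈ U, ∃ r > 0, ∀ y, d x y < r → y ∈ U) ∧
        0 < ε ∧ 0 < lam ∧ lam < 1 ∧
        ContinuousOn (fun p : X × X => br p.1 p.2) {p | d p.1 p.2 ≤ ε} ∧
        (∀ x, br x x = x) ∧
        (∀ x y z, d y z ≤ ε → d x (br y z) ≤ ε → d x z ≤ ε → br x (br y z) = br x z) ∧
        (∀ x y z, d x y ≤ ε → d (br x y) z ≤ ε → d x z ≤ ε → br (br x y) z = br x z) ∧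
        (∀ x y, d x y ≤ ε → d (f x) (f y) ≤ ε → f (br x y) = br (f x) (f y)) ∧
        (∀ x y z, d x y ≤ ε → br y x = x → d x z ≤ ε → br z x = x →
          d (f y) (f z) ≤ lam * d y z) ∧
        (∀ x y z, d x y ≤ ε → br x y = x → d x z ≤ ε → br x z = x →
          d (f.symm y) (f.symm z) ≤ lam * d y z)) →
      (∀ τ : X → X, Continuous τ → (∀ x, τ (f x) = f (τ x)) →
        Function.Injective τ → Function.Surjective τ) →
      ∃ (Y : Type) (_ : TopologicalSpace Y) (_ : CompactSpace Y) (g : Y ≃ₜ Y),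
        (∃ (d : Y → Y → ℝ) (ε lam : ℝ) (br : Y → Y → Y),
          (∀ x y, d x y = d y x) ∧ (∀ x y, d x y = 0 ↔ x = y) ∧
          (∀ x y z, d x z ≤ d x y + d y z) ∧
          (∀ U : Set Y, IsOpen U ↔ ∀ x ∈ U, ∃ r > 0, ∀ y, d x y < r → y ∈ U) ∧
          0 < ε ∧ 0 < lam ∧ lam < 1 ∧
          ContinuousOn (fun p : Y × Y => br p.1 p.2) {p | d p.1 p.2 ≤ ε} ∧
          (∀ x, br x x = x) ∧
          (∀ x y z, d y z ≤ ε → d x (br y z) ≤ ε → d x z ≤ ε → br x (br y z) = br x z) ∧
          (∀ x y z, d x y ≤ ε → d (br x y) z ≤ ε → d x z ≤ ε → br (br x y) z = br x z) ∧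
          (∀ x y, d x y ≤ ε → d (g x) (g y) ≤ ε → g (br x y) = br (g x) (g y)) ∧
          (∀ x y z, d x y ≤ ε → br y x = x → d x z ≤ ε → br z x = x →
            d (g y) (g z) ≤ lam * d y z) ∧
          (∀ x y z, d x y ≤ ε → br x y = x → d x z ≤ ε → br x z = x →
            d (g.symm y) (g.symm z) ≤ lam * d y z)) ∧
        (∀ U : Set Y, IsOpen U → U.Nonempty →
          ∃ n : ℕ, 1 ≤ n ∧ ((⇑g)^[n] '' U ∩ U).Nonempty) ∧
        ∃ (A : Type) (_ : Fintype A) (_ : TopologicalSpace A) (_ : DiscreteTopology A)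
          (F : Finset (List A)) (Z : Set (ℤ → A)),
          Z = {x : ℤ → A | ∀ w ∈ F, ∀ i : ℤ, ∃ j : Fin w.length, x (i + (j : ℤ)) ≠ w.get j} ∧
          Z.Countable ∧
          derivedSet (derivedSet Z) = derivedSet (derivedSet (derivedSet Z)) ∧
          ∃ σZ : Z → Z, (∀ z : Z, ((σZ z : Z) : ℤ → A) = fun i => (z : ℤ → A) (i + 1)) ∧
            ∃ h : X ≃ₜ (Y ⊕ Z), ∀ x : X, h (f x) = Sum.map (⇑g) σZ (h x)) := by
  intro H
  open Pool.Agent.H242Z.Smale in
  have hs := IsSmale.prod (by norm_num) gZ_smale cat_smale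
  open Pool.Agent.H242Z.Smale in
  obtain ⟨Y, _, _, g, -, hnw, A, _, _, _, F, Z, -, hZ, -, σZ, -, h, hh⟩ :=
    H (ZZ × TT) FF ⟨dist, 1 / 100, 1 / 2, _, dist_comm, fun _ _ => dist_eq_zero, dist_triangle,
      fun U => by
        rw [Metric.isOpen_iff]
        refine forall₂_congr (fun x _ => exists_congr (fun r => and_congr_right (fun _ => ?_)))
        exact forall_congr' (fun y => by rw [Metric.mem_ball']),
      by norm_num, by norm_num, by norm_num, hs.cont, hs.self, hs.a1, hs.a2, hs.eqv, hs.st,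
      hs.un⟩ FF_surj
  open Pool.Agent.H242Z.Smale in
  have hiter : ∀ (n : ℕ) (y : Y), h.symm (Sum.inl ((⇑g)^[n] y)) =
      (⇑FF)^[n] (h.symm (Sum.inl y)) := by
    intro n y
    induction n with
    | zero => rfl
    | succ n ih =>
      rw [Function.iterate_succ_apply', Function.iterate_succ_apply', ← ih]
      apply h.injective
      rw [hh]
      simp
  open Pool.Agent.H242Z.Smale in
  have hV : ∀ y : Y, ¬ (0 < ((h.symm (Sum.inl y)).1 : ℝ) ∧ ((h.symm (Sum.inl y)).1 : ℝ) < 2) := by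
    intro y hy
    have hc : Continuous (fun y : Y => ((h.symm (Sum.inl y)).1 : ℝ)) := by fun_prop
    obtain ⟨n, hn, _, ⟨w, hw, rfl⟩, hw'⟩ :=
      hnw {y | 0 < ((h.symm (Sum.inl y)).1 : ℝ) ∧ ((h.symm (Sum.inl y)).1 : ℝ) < 2}
        ((isOpen_lt continuous_const hc).inter (isOpen_lt hc continuous_const)) ⟨y, hy⟩
    have h1 := FF_wander _ hw.1 n hn
    rw [← hiter] at h1
    exact absurd hw'.2 (not_lt.mpr h1)
  open Pool.Agent.H242Z.Smale in
  have hR : ∀ t : TT, ∃ z : Z, h (pA 0, t) = Sum.inr z := by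
    intro t
    cases ht : h (pA 0, t) with
    | inl y =>
      refine absurd ?_ (hV y)
      rw [← ht, h.symm_apply_apply]
      change 0 < aa 0 ∧ aa 0 < 2
      rw [aa_zero]
      norm_num
    | inr z => exact ⟨z, rfl⟩
  choose k hk using hR
  have : Countable Z := hZ.to_subtype
  refine Pool.Agent.H242Z.Smale.TT_uncountable (Function.Injective.countable (f := k) ?_)
  intro t s hts
  have h1 := hk t
  rw [hts, ← hk s] at h1
  exact congrArg Prod.snd (h.injective h1)

end Pool.Agent.S06250
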