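import Pool.Statements.S06281
import Pool.Agent.H28Z.PisK1Main

set_option autoImplicit false
open Pool Pool.MP_d4e048_an

namespace Pool.Agent.S06281

/-- For every purely infinite simple complex Banach algebra A, the map [a] ↦ [diag(a,1,…,1)] from invertibles mod identity component to K₁(A) = components of GL_∞(A) is injective and surjective. -/
theorem result :
  ∀ (A : Type) [NormedRing A] [NormedAlgebra ℂ A] [CompleteSpace A],
    (∃ x : A, x ≠ 0 ∧ ¬ IsUnit x) →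
    (∀ x : A, x ≠ 0 → ∃ a b : A, a * x * b = 1) →
    ((∀ (m : ℕ) (a : Aˣ) (U : (Matrix (Fin (m+1)) (Fin (m+1)) A)ˣ),
        (U : Matrix (Fin (m+1)) (Fin (m+1)) A) =
          Matrix.diagonal (fun i : Fin (m+1) => if i = 0 then (a : A) else 1) →
        U ∈ connectedComponent (1 : (Matrix (Fin (m+1)) (Fin (m+1)) A)ˣ) →
        a ∈ connectedComponent (1 : Aˣ)) ∧
    (∀ (n : ℕ) (U : (Matrix (Fin (n+1)) (Fin (n+1)) A)ˣ),
      ∃ (k : ℕ) (a : Aˣ)
        (V W : (Matrix (Fin (n+1) ⊕ Fin k) (Fin (n+1) ⊕ Fin k) A)ˣ),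
        (V : Matrix (Fin (n+1) ⊕ Fin k) (Fin (n+1) ⊕ Fin k) A) =
          Matrix.fromBlocks (U : Matrix (Fin (n+1)) (Fin (n+1)) A) 0 0 1 ∧
        (W : Matrix (Fin (n+1) ⊕ Fin k) (Fin (n+1) ⊕ Fin k) A) =
          Matrix.diagonal (fun i : Fin (n+1) ⊕ Fin k =>
            if i = Sum.inl 0 then (a : A) else 1) ∧
        W ∈ connectedComponent V)) := by
  intro A _ _ _ h1 hA
  refine ⟨fun m a U hU hc => Pool.Agent.H28Z.PisK1.inj_part h1 hA 0 a U hU hc, fun n U => ?_⟩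
  obtain ⟨a, V, W, h⟩ := Pool.Agent.H28Z.PisK1.surj_part h1 hA 0 U
  exact ⟨1, a, V, W, h⟩

end Pool.Agent.S06281
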