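import Pool.Statements.S06284
import Pool.Agent.H133Z.Range

set_option autoImplicit false
open Pool Pool.MP_d50981_an

namespace Pool.Agent.S06284

/-- The negation of the preceding statement: For any two real F-spaces E, E₁ (complete metrizable topological vector spaces, not necessarily separable) and any continuous linear map U from E to E₁, the range of U is a Borel subset of E₁. -/
theorem result :
    ¬ (∀ (E E₁ : Type) [AddCommGroup E] [Module ℝ E] [UniformSpace E] [IsUniformAddGroup E]
      [ContinuousSMul ℝ E] [CompleteSpace E] [T2Space E] [(uniformity E).IsCountablyGenerated]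
      [AddCommGroup E₁] [Module ℝ E₁] [UniformSpace E₁] [IsUniformAddGroup E₁]
      [ContinuousSMul ℝ E₁] [CompleteSpace E₁] [T2Space E₁] [(uniformity E₁).IsCountablyGenerated]
      (U : E →L[ℝ] E₁), @MeasurableSet E₁ (borel E₁) (Set.range U)) := by
  intro h
  obtain ⟨A, hA⟩ := Pool.Agent.H133Z.Range.exists_nonBorel
  exact Pool.Agent.H133Z.Range.not_borel A hA (h _ _ (Pool.Agent.H133Z.Range.op A))

end Pool.Agent.S06284
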