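import Pool.Statements.S06305
import Pool.Agent.H44Z.BallMain

set_option autoImplicit false
open Pool Pool.MP_d61c0a_an

namespace Pool.Agent.S06305

open Filter Topology Asymptotics Complex Metric Pool.Agent.H44Z.Ball in
/-- For every n ≥ 2, the ball algebra of the unit ball in ℂⁿ has a sphere point ζ and a closed ideal with zero set exactly {ζ} that is not the sup-norm closure of any finitely generated ideal. -/
theorem result :
  ∀ n : ℕ, 2 ≤ n →
  ∀ A : Subalgebra ℂ C(Metric.closedBall (0 : EuclideanSpace ℂ (Fin n)) 1, ℂ),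
    (∀ f : C(Metric.closedBall (0 : EuclideanSpace ℂ (Fin n)) 1, ℂ),
      f ∈ A ↔ ∃ g : EuclideanSpace ℂ (Fin n) → ℂ,
        DifferentiableOn ℂ g (Metric.ball (0 : EuclideanSpace ℂ (Fin n)) 1) ∧
        ∀ x : Metric.closedBall (0 : EuclideanSpace ℂ (Fin n)) 1, f x = g x) →
    ∃ ζ : Metric.closedBall (0 : EuclideanSpace ℂ (Fin n)) 1,
      ‖(ζ : EuclideanSpace ℂ (Fin n))‖ = 1 ∧
      ∃ J : Ideal A, IsClosed (J : Set A) ∧
        (∀ w : Metric.closedBall (0 : EuclideanSpace ℂ (Fin n)) 1,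
          (∀ f ∈ J, (f : C(Metric.closedBall (0 : EuclideanSpace ℂ (Fin n)) 1, ℂ)) w = 0) ↔ w = ζ) ∧
        ∀ I : Ideal A, I.FG → closure (I : Set A) ≠ (J : Set A) := by
  intro n hn A hA
  set i0 : Fin n := ⟨0, by omega⟩ with hi0
  set i1 : Fin n := ⟨1, by omega⟩ with hi1
  have hne : i0 ≠ i1 := by simp [hi0, hi1, Fin.ext_iff]
  let ev : closedBall (0 : EuclideanSpace ℂ (Fin n)) 1 → A →+* ℂ := fun x =>
    { toFun := fun a => (a : C(closedBall (0 : EuclideanSpace ℂ (Fin n)) 1, ℂ)) x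
      map_one' := by simp
      map_mul' := by simp
      map_zero' := by simp
      map_add' := by simp }
  have hev : ∀ x a, ‖ev x a‖ ≤ ‖a‖ := fun x a => ContinuousMap.norm_coe_le_norm a.1 x
  have hdiff : ∀ a : A, DifferentiableOn ℂ (fun x => ev (toBall x) a)
      (ball (0 : EuclideanSpace ℂ (Fin n)) 1) := by
    intro a
    obtain ⟨g, hg, hga⟩ := (hA a.1).1 a.2
    refine hg.congr fun x hx => ?_
    rw [toBall_of_mem (ball_subset_closedBall hx)]
    exact hga _
  have hcont : ∀ a : A, ContinuousOn (fun x => ev (toBall x) a)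
      (closedBall (0 : EuclideanSpace ℂ (Fin n)) 1) := fun a =>
    a.1.continuous.comp_continuousOn continuousOn_toBall
  let g : ℕ → A := fun j =>
    ⟨⟨fun x => gen i0 i1 j (tt j) x,
      (gen_continuousOn i0 i1 j (tt_pos j).le).comp_continuous continuous_subtype_val
        fun x => x.2⟩,
      (hA _).2 ⟨gen i0 i1 j (tt j), gen_differentiableOn i0 i1 j _, fun _ => rfl⟩⟩
  exact main_abstract (A := A) i0 i1 hne ev hev hdiff hcont g fun _ _ => rfl

end Pool.Agent.S06305
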