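import Pool.Statements.S06311
import Pool.Agent.H421Z.TExt.WeakApp

set_option autoImplicit false
open Pool Pool.MP_d691669a_an

namespace Pool.Agent.S06311

/-- For every uncountable compact metrizable space K without Haver's property C, continuous real functions on K with the pointwise topology and with the weak (sup-norm Banach) topology are not homeomorphic. -/
theorem result :
  ∀ (K : Type) [TopologicalSpace K] [CompactSpace K] [TopologicalSpace.MetrizableSpace K],
    Uncountable K →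
    ¬ (∀ U : ℕ → Set (Set K), (∀ n, (∀ s ∈ U n, IsOpen s) ∧ ⋃₀ U n = Set.univ) →
        ∃ V : ℕ → Set (Set K),
          (∀ n, (∀ v ∈ V n, IsOpen v ∧ ∃ u ∈ U n, v ⊆ u) ∧ (V n).PairwiseDisjoint id) ∧
          ⋃ n, ⋃₀ V n = Set.univ) →
    ¬ ∃ e : C(K, ℝ) ≃ C(K, ℝ),
      @Continuous C(K, ℝ) C(K, ℝ)
        (⨅ x : K, TopologicalSpace.induced (fun f : C(K, ℝ) => f x) (inferInstance : TopologicalSpace ℝ))
        (⨅ φ : C(K, ℝ) →L[ℝ] ℝ, TopologicalSpace.induced (fun f : C(K, ℝ) => φ f) (inferInstance : TopologicalSpace ℝ))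
        e ∧
      @Continuous C(K, ℝ) C(K, ℝ)
        (⨅ φ : C(K, ℝ) →L[ℝ] ℝ, TopologicalSpace.induced (fun f : C(K, ℝ) => φ f) (inferInstance : TopologicalSpace ℝ))
        (⨅ x : K, TopologicalSpace.induced (fun f : C(K, ℝ) => f x) (inferInstance : TopologicalSpace ℝ))
        e.symm := by
  rintro K _ _ _ hK - ⟨e, h1, h2⟩
  let _ := TopologicalSpace.metrizableSpaceMetric K
  have hw : (⨅ φ : C(K, ℝ) →L[ℝ] ℝ, TopologicalSpace.induced (fun f : C(K, ℝ) => φ f)
      (inferInstance : TopologicalSpace ℝ)) = Pool.Agent.H421Z.TExt.weakTop C(K, ℝ) :=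
    (induced_to_pi (fun (f : C(K, ℝ)) (φ : C(K, ℝ) →L[ℝ] ℝ) => φ f)).symm
  have hp : (⨅ x : K, TopologicalSpace.induced (fun f : C(K, ℝ) => f x)
      (inferInstance : TopologicalSpace ℝ)) =
      TopologicalSpace.induced (fun (f : C(K, ℝ)) (x : K) => f x) Pi.topologicalSpace :=
    (induced_to_pi (fun (f : C(K, ℝ)) (x : K) => f x)).symm
  rw [hw, hp] at h1 h2
  let k : {f : K → ℝ // Continuous f} ≃ C(K, ℝ) :=
    ⟨fun f => ⟨f.1, f.2⟩, fun f => ⟨f, f.continuous⟩, fun _ => rfl, fun _ => rfl⟩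
  have k1 : @Continuous _ _ _
      (TopologicalSpace.induced (fun (f : C(K, ℝ)) (x : K) => f x) Pi.topologicalSpace) k :=
    continuous_induced_rng.mpr continuous_subtype_val
  have k2 : @Continuous _ _
      (TopologicalSpace.induced (fun (f : C(K, ℝ)) (x : K) => f x) Pi.topologicalSpace) _ k.symm :=
    @Continuous.subtype_mk _ _ _
      (TopologicalSpace.induced (fun (f : C(K, ℝ)) (x : K) => f x) Pi.topologicalSpace) _ _
      continuous_induced_dom _
  refine (Pool.Agent.H421Z.TExt.no_homeo_CK (X := K) K).false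
    (@Homeomorph.mk _ _ _ (Pool.Agent.H421Z.TExt.weakTop C(K, ℝ)) (k.trans e) ?_ ?_)
  · exact @Continuous.comp _ _ _ _
      (TopologicalSpace.induced (fun (f : C(K, ℝ)) (x : K) => f x) Pi.topologicalSpace)
      (Pool.Agent.H421Z.TExt.weakTop C(K, ℝ)) _ _ h1 k1
  · exact @Continuous.comp _ _ _ (Pool.Agent.H421Z.TExt.weakTop C(K, ℝ))
      (TopologicalSpace.induced (fun (f : C(K, ℝ)) (x : K) => f x) Pi.topologicalSpace)
      _ e.symm k.symm k2 h2

end Pool.Agent.S06311
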