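import Pool.Statements.S06346
-- import your own Pool.Agent.* helpers here

set_option autoImplicit false
open Pool Pool.MP_d890fe_an

namespace Pool.Agent.S06346

open Filter Topology

/-- Self-maps of the real line that are injective or constant. -/
def Sg : Type := {s : ℝ → ℝ // Function.Injective s ∨ ∃ c, ∀ x, s x = c}

instance : Semigroup Sg where
  mul s t := ⟨s.1 ∘ t.1, by
    rcases s.2 with hs | ⟨c, hc⟩
    · rcases t.2 with ht | ⟨d, hd⟩
      · exact Or.inl (hs.comp ht)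
      · exact Or.inr ⟨s.1 d, fun x => by simp [hd]⟩
    · exact Or.inr ⟨c, fun x => by simp [hc]⟩⟩
  mul_assoc _ _ _ := rfl

theorem mul_val (s t : Sg) (x : ℝ) : (s * t).1 x = s.1 (t.1 x) := rfl

/-- The constant maps. -/
def cst (a : ℝ) : Sg := ⟨fun _ => a, Or.inr ⟨a, fun _ => rfl⟩⟩

instance : Nonempty Sg := ⟨cst 0⟩

theorem mul_cst (s : Sg) (a : ℝ) : s * cst a = cst (s.1 a) := rfl

theorem exists_map {a b a' b' : ℝ} (h : a ≠ b) (h' : a' ≠ b') :
    ∃ s : Sg, s.1 a' = a ∧ s.1 b' = b := by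
  have h1 : b' - a' ≠ 0 := sub_ne_zero.2 h'.symm
  have h2 : b - a ≠ 0 := sub_ne_zero.2 h.symm
  refine ⟨⟨fun x => a + (b - a) / (b' - a') * (x - a'), Or.inl ?_⟩, ?_, ?_⟩
  · intro x y hxy
    have h3 : (b - a) / (b' - a') ≠ 0 := div_ne_zero h2 h1
    have h4 : (b - a) / (b' - a') * (x - a') = (b - a) / (b' - a') * (y - a') := by
      simpa using hxy
    have := mul_left_cancel₀ h3 h4
    linarith
  · simp
  · show a + (b - a) / (b' - a') * (b' - a') = b
    field_simp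
    ring

theorem fixed (E : Type) [NormedAddCommGroup E] [NormedSpace ℝ E]
    (C : Set (WeakDual ℝ E)) (T : Sg → WeakDual ℝ E → WeakDual ℝ E) (hne : C.Nonempty)
    (hD : ∃ D : Set (WeakDual ℝ E), D.Countable ∧ D ⊆ C ∧
          ∀ x ∈ C, ∀ ε : ℝ, 0 < ε → ∃ d ∈ D, ∀ e : E, |x e - d e| ≤ ε * ‖e‖)
    (hmap : ∀ s : Sg, Set.MapsTo (T s) C C)
    (hmul : ∀ s t : Sg, ∀ x ∈ C, T (s * t) x = T s (T t x))
    (hne' : ∀ s : Sg, ∀ x ∈ C, ∀ y ∈ C, ∀ r : ℝ,
          (∀ e : E, |x e - y e| ≤ r * ‖e‖) →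
          ∀ e : E, |T s x e - T s y e| ≤ r * ‖e‖) :
    ∃ x ∈ C, ∀ s : Sg, T s x = x := by
  obtain ⟨x0, hx0⟩ := hne
  obtain ⟨D, hDc, -, hD⟩ := hD
  set Φ : ℝ → WeakDual ℝ E := fun a => T (cst a) x0 with hΦ
  have hΦC : ∀ a, Φ a ∈ C := fun a => hmap _ hx0
  have hequi : ∀ (s : Sg) (a : ℝ), T s (Φ a) = Φ (s.1 a) := by
    intro s a
    simp only [hΦ]
    rw [← hmul s (cst a) x0 hx0, mul_cst]
  have hclose : ∀ ε : ℝ, 0 < ε → ∃ a' b' : ℝ, a' ≠ b' ∧
      ∀ e : E, |Φ a' e - Φ b' e| ≤ (2 * ε) * ‖e‖ := by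
    intro ε hε
    choose d hd1 hd2 using fun a => hD (Φ a) (hΦC a) ε hε
    have hni : ¬ Function.Injective d := by
      intro hi
      have : Countable D := hDc.to_subtype
      have hinj : Function.Injective (fun a : ℝ => (⟨d a, hd1 a⟩ : D)) := by
        intro a b hab
        exact hi (congrArg Subtype.val hab)
      exact not_countable (α := ℝ) hinj.countable
    rw [Function.not_injective_iff] at hni
    obtain ⟨a', b', hab, hne⟩ := hni
    refine ⟨a', b', hne, fun e => ?_⟩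
    have h1 := hd2 a' e
    have h2 := hd2 b' e
    rw [← hab] at h2
    have h3 := abs_sub_le (Φ a' e) (d a' e) (Φ b' e)
    rw [abs_sub_comm (d a' e)] at h3
    linarith
  have hconst : ∀ a b, Φ a = Φ b := by
    intro a b
    by_cases hab : a = b
    · rw [hab]
    · apply DFunLike.ext
      intro e
      have key : ∀ ε : ℝ, 0 < ε → |Φ a e - Φ b e| ≤ (2 * ε) * ‖e‖ := by
        intro ε hε
        obtain ⟨a', b', hne, hcl⟩ := hclose ε hε
        obtain ⟨s, hs1, hs2⟩ := exists_map hab hne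
        have := hne' s _ (hΦC a') _ (hΦC b') _ hcl e
        rwa [hequi, hequi, hs1, hs2] at this
      have h0 : |Φ a e - Φ b e| ≤ 0 := by
        apply le_of_forall_pos_le_add
        intro δ hδ
        have hn : 0 < ‖e‖ + 1 := by positivity
        have h1 := key (δ / (2 * (‖e‖ + 1))) (by positivity)
        have h2 : 2 * (δ / (2 * (‖e‖ + 1))) * ‖e‖ ≤ δ := by
          have : 2 * (δ / (2 * (‖e‖ + 1))) * ‖e‖ = δ * (‖e‖ / (‖e‖ + 1)) := by
            field_simp
          rw [this]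
          have h3 : ‖e‖ / (‖e‖ + 1) ≤ 1 := by
            rw [div_le_one hn]; linarith
          nlinarith
        linarith
      have := abs_nonpos_iff.1 h0
      linarith
  exact ⟨Φ 0, hΦC 0, fun s => by rw [hequi, hconst]⟩

open Classical in
/-- Indicator of the maps sending `0` to `z`. -/
noncomputable def ind (z : ℝ) : lp (fun _ : Sg => ℝ) ⊤ :=
  ⟨fun t => if t.1 0 = z then 1 else 0, memℓp_infty ⟨1, by
    rintro _ ⟨t, rfl⟩
    dsimp only
    split_ifs <;> simp⟩⟩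

open Classical in
theorem ind_apply (z : ℝ) (t : Sg) : ind z t = if t.1 0 = z then 1 else 0 := rfl

theorem ind_summable (φ : lp (fun _ : Sg => ℝ) ⊤ →L[ℝ] ℝ) :
    Summable (fun z => |φ (ind z)|) := by
  classical
  apply summable_of_sum_le (c := ‖φ‖) (fun z => abs_nonneg _)
  intro F
  set w : ℝ → ℝ := fun z => if 0 ≤ φ (ind z) then 1 else -1 with hw
  have h1 : ∑ z ∈ F, |φ (ind z)| = φ (∑ z ∈ F, w z • ind z) := by
    rw [map_sum]
    apply Finset.sum_congr rfl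
    intro z _
    rw [map_smul, smul_eq_mul]
    simp only [hw]
    split_ifs with h
    · rw [abs_of_nonneg h, one_mul]
    · rw [abs_of_neg (not_le.1 h)]; ring
  have h2 : ‖∑ z ∈ F, w z • ind z‖ ≤ 1 := by
    apply lp.norm_le_of_forall_le zero_le_one
    intro t
    rw [lp.coeFn_sum, Finset.sum_apply]
    have : ∀ z ∈ F, (w z • ind z : lp (fun _ : Sg => ℝ) ⊤) t = if t.1 0 = z then w z else 0 := by
      intro z _
      rw [lp.coeFn_smul, Pi.smul_apply, ind_apply]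
      split_ifs <;> simp
    rw [Finset.sum_congr rfl this, Finset.sum_ite_eq]
    split_ifs
    · simp only [hw]
      split_ifs <;> simp
    · simp
  rw [h1]
  calc φ (∑ z ∈ F, w z • ind z) ≤ ‖φ (∑ z ∈ F, w z • ind z)‖ := Real.le_norm_self _
    _ ≤ ‖φ‖ * ‖∑ z ∈ F, w z • ind z‖ := φ.le_opNorm _
    _ ≤ ‖φ‖ * 1 := by gcongr
    _ = ‖φ‖ := mul_one _

theorem ind_tendsto :
    Tendsto (fun z => toWeakSpace ℝ (lp (fun _ : Sg => ℝ) ⊤) (ind z)) cofinite
      (𝓝 (toWeakSpace ℝ (lp (fun _ : Sg => ℝ) ⊤) 0)) := by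
  have hind : Topology.IsInducing (fun (x : WeakSpace ℝ (lp (fun _ : Sg => ℝ) ⊤))
      (y : lp (fun _ : Sg => ℝ) ⊤ →L[ℝ] ℝ) =>
        (topDualPairing ℝ (lp (fun _ : Sg => ℝ) ⊤)).flip x y) := ⟨rfl⟩
  rw [hind.tendsto_nhds_iff, tendsto_pi_nhds]
  intro φ
  have h := (ind_summable φ).tendsto_cofinite_zero
  have h' : Tendsto (fun z => φ (ind z)) cofinite (𝓝 0) := by
    rw [tendsto_zero_iff_abs_tendsto_zero]
    exact h
  have e : (topDualPairing ℝ (lp (fun _ : Sg => ℝ) ⊤)).flip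
      (toWeakSpace ℝ (lp (fun _ : Sg => ℝ) ⊤) 0) φ = 0 := map_zero φ
  show Tendsto (fun z => φ (ind z)) cofinite (𝓝 ((topDualPairing ℝ (lp (fun _ : Sg => ℝ) ⊤)).flip
      (toWeakSpace ℝ (lp (fun _ : Sg => ℝ) ⊤) 0) φ))
  rw [e]
  exact h'


/-- The negation of the preceding statement: For every nonempty semigroup S: if every nonexpansive, weak*-continuous action of S on a nonempty norm-separable weak*-compact convex set in a Banach dual has a common fixed point, then the weakly almost periodic functions on S have a left invariant mean. -/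
theorem result :
    ¬ (∀ (S : Type) [Semigroup S] [Nonempty S],
    (∀ (E : Type) [NormedAddCommGroup E] [NormedSpace ℝ E] [CompleteSpace E]
       (C : Set (WeakDual ℝ E)) (T : S → WeakDual ℝ E → WeakDual ℝ E),
       C.Nonempty → Convex ℝ C → IsCompact C →
       (∃ D : Set (WeakDual ℝ E), D.Countable ∧ D ⊆ C ∧
          ∀ x ∈ C, ∀ ε : ℝ, 0 < ε → ∃ d ∈ D, ∀ e : E, |x e - d e| ≤ ε * ‖e‖) →
       (∀ s : S, Set.MapsTo (T s) C C) →
       (∀ s t : S, ∀ x ∈ C, T (s * t) x = T s (T t x)) →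
       (∀ s : S, ∀ x ∈ C, ∀ y ∈ C, ∀ r : ℝ,
          (∀ e : E, |x e - y e| ≤ r * ‖e‖) →
          ∀ e : E, |T s x e - T s y e| ≤ r * ‖e‖) →
       (∀ s : S, ContinuousOn (T s) C) →
       ∃ x ∈ C, ∀ s : S, T s x = x) →
    ∃ m : lp (fun _ : S => ℝ) ⊤ →L[ℝ] ℝ,
      m 1 = 1 ∧
      (∀ g : lp (fun _ : S => ℝ) ⊤, (∀ t : S, 0 ≤ g t) → 0 ≤ m g) ∧
      ∀ f : lp (fun _ : S => ℝ) ⊤,
        (∃ K : Set (WeakSpace ℝ (lp (fun _ : S => ℝ) ⊤)), IsCompact K ∧
          ∀ g : lp (fun _ : S => ℝ) ⊤, (∃ s : S, ∀ t : S, g t = f (s * t)) →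
            toWeakSpace ℝ (lp (fun _ : S => ℝ) ⊤) g ∈ K) →
        ∀ s : S, ∀ g : lp (fun _ : S => ℝ) ⊤, (∀ t : S, g t = f (s * t)) → m g = m f) := by
  intro h
  obtain ⟨m, hm1, -, hm⟩ := h Sg (fun E _ _ _ C T hne _ _ hD hmap hmul hne' _ =>
    fixed E C T hne hD hmap hmul hne')
  have hK : ∃ K : Set (WeakSpace ℝ (lp (fun _ : Sg => ℝ) ⊤)), IsCompact K ∧
          ∀ g : lp (fun _ : Sg => ℝ) ⊤, (∃ s : Sg, ∀ t : Sg, g t = ind 0 (s * t)) →
            toWeakSpace ℝ (lp (fun _ : Sg => ℝ) ⊤) g ∈ K := by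
    refine ⟨insert (toWeakSpace ℝ (lp (fun _ : Sg => ℝ) ⊤) 1) _,
      ind_tendsto.isCompact_insert_range_of_cofinite.insert _, ?_⟩
    rintro g ⟨s, hs⟩
    by_cases h0 : ∃ z, s.1 z = 0
    · obtain ⟨z, hz⟩ := h0
      rcases s.2 with hi | ⟨c, hc⟩
      · right; right
        refine ⟨z, ?_⟩
        dsimp only
        congr 1
        ext t
        rw [hs, ind_apply, ind_apply, mul_val]
        congr 1
        apply propext
        constructor
        · intro h1; rw [h1, hz]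
        · intro h1; exact hi (h1.trans hz.symm)
      · left
        congr 1
        ext t
        rw [hs, ind_apply, mul_val, hc, ← hc z, if_pos hz]
        rfl
    · right; left
      congr 1
      ext t
      rw [hs, ind_apply, mul_val, if_neg (fun h1 => h0 ⟨_, h1⟩)]
      rfl
  have e1 := hm (ind 0) hK (cst 0) 1 (fun t => by
    rw [ind_apply, mul_val, if_pos (by rfl)]; rfl)
  have e2 := hm (ind 0) hK (cst 1) 0 (fun t => by
    rw [ind_apply, mul_val, if_neg (by show ¬ ((1 : ℝ) = 0); norm_num)]; rfl)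
  rw [hm1] at e1
  rw [map_zero] at e2
  linarith

end Pool.Agent.S06346
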