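import Pool.Statements.S06362
import Pool.Agent.H891Z.Hull.Main

set_option autoImplicit false
open scoped Manifold
open Pool Pool.MP_da00a8_an

namespace Pool.Agent.S06362

/-- The negation of the preceding statement: Every injectively immersed smooth compact surface in C^2 contains a compact set E whose polynomial hull has a point outside E, while every holomorphic map of the unit disc into hull minus E is constant. -/
theorem result :
    ¬ (∀ (M : Type) [TopologicalSpace M] [ChartedSpace (EuclideanSpace ℝ (Fin 2)) M]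
      [IsManifold (𝓡 2) ((⊤ : ℕ∞) : WithTop ℕ∞) M] [CompactSpace M] [Nonempty M]
      (f : M → (Fin 2 → ℂ)),
      ContMDiff (𝓡 2) 𝓘(ℝ, Fin 2 → ℂ) ((⊤ : ℕ∞) : WithTop ℕ∞) f →
      Function.Injective f →
      (∀ x : M, Function.Injective (mfderiv (𝓡 2) 𝓘(ℝ, Fin 2 → ℂ) f x)) →
      ∃ E : Set (Fin 2 → ℂ), E ⊆ Set.range f ∧ IsCompact E ∧
        (∃ z : Fin 2 → ℂ,
          (∀ p : MvPolynomial (Fin 2) ℂ, ∀ c : ℝ,
            (∀ w ∈ E, ‖MvPolynomial.eval w p‖ ≤ c) → ‖MvPolynomial.eval z p‖ ≤ c) ∧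
          z ∉ E) ∧
        ∀ g : ℂ → (Fin 2 → ℂ), DifferentiableOn ℂ g (Metric.ball (0 : ℂ) 1) →
          (∀ ζ ∈ Metric.ball (0 : ℂ) 1,
            (∀ p : MvPolynomial (Fin 2) ℂ, ∀ c : ℝ,
              (∀ w ∈ E, ‖MvPolynomial.eval w p‖ ≤ c) → ‖MvPolynomial.eval (g ζ) p‖ ≤ c) ∧
            g ζ ∉ E) →
          ∃ c : Fin 2 → ℂ, ∀ ζ ∈ Metric.ball (0 : ℂ) 1, g ζ = c) :=
  Pool.Agent.H891Z.Hull.main

end Pool.Agent.S06362
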