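import Pool.Statements.S06383
import Pool.Agent.H317Z.GurMain

set_option autoImplicit false
open Pool Pool.MP_dc9a2a_an

namespace Pool.Agent.S06383

/-- For the real Gurarij space (separable Banach space with the almost-isometric extension property), its linear isometry group has a locally finite subgroup dense in the pointwise-convergence topology. -/
theorem result :
    ∀ (G : Type) [NormedAddCommGroup G] [NormedSpace ℝ G] [CompleteSpace G]
      [TopologicalSpace.SeparableSpace G],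
      (∀ (F : Type) [NormedAddCommGroup F] [NormedSpace ℝ F] [FiniteDimensional ℝ F]
          (E : Submodule ℝ F) (T : E →ₗᵢ[ℝ] G) (ε : ℝ), 0 < ε →
          ∃ S : F →ₗ[ℝ] G, (∀ x : E, S (x : F) = T x) ∧
            ∀ x : F, (1 - ε) * ‖x‖ ≤ ‖S x‖ ∧ ‖S x‖ ≤ (1 + ε) * ‖x‖) →
      ∃ H : Subgroup (G ≃ₗᵢ[ℝ] G),
        (∀ s : Finset (G ≃ₗᵢ[ℝ] G),
            (↑s : Set (G ≃ₗᵢ[ℝ] G)) ⊆ (H : Set (G ≃ₗᵢ[ℝ] G)) →
            ((Subgroup.closure (↑s : Set (G ≃ₗᵢ[ℝ] G)) : Subgroup (G ≃ₗᵢ[ℝ] G)) :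
              Set (G ≃ₗᵢ[ℝ] G)).Finite) ∧
        (∀ g : G ≃ₗᵢ[ℝ] G, ∀ s : Finset G, ∀ ε : ℝ, 0 < ε →
            ∃ h ∈ H, ∀ x ∈ s, ‖h x - g x‖ < ε) := by
  intro G _ _ _ _ hG
  exact Pool.Agent.H317Z.Gur.main hG

end Pool.Agent.S06383
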