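import Pool.Statements.S06401
import Pool.Agent.H5Z.Distal

set_option autoImplicit false
open Pool Pool.MP_ddde1e_an

namespace Pool.Agent.S06401

/-- For every increasing sequence of naturals whose gaps tend to infinity, every bounded real sequence on it equals f(Tⁿx) along it, for some distal homeomorphism T of a compact metric space, some point x and some continuous f. -/
theorem result :
    ∀ n : ℕ → ℕ, StrictMono n →
      Filter.Tendsto (fun k : ℕ => n (k + 1) - n k) Filter.atTop Filter.atTop →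
      ∀ φ : ℕ → ℝ, (∃ C : ℝ, ∀ k : ℕ, |φ k| ≤ C) →
        ∃ (X : Type) (_ : MetricSpace X) (_ : CompactSpace X) (T : X ≃ₜ X),
          (∀ x y : X, x ≠ y → ∃ ε : ℝ, 0 < ε ∧ ∀ m : ℕ,
              ε ≤ dist ((⇑T)^[m] x) ((⇑T)^[m] y) ∧
              ε ≤ dist ((⇑T.symm)^[m] x) ((⇑T.symm)^[m] y)) ∧
          ∃ (x₀ : X) (f : X → ℝ), Continuous f ∧
            ∀ k : ℕ, f ((⇑T)^[n k] x₀) = φ k :=
  fun n hn hgap φ hφ => Pool.Agent.H5Z.Distal.main n hn hgap φ hφ

end Pool.Agent.S06401
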