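import Pool.Statements.S06434
import Pool.Agent.H153Z.DcMain

set_option autoImplicit false
open Classical
open Pool Pool.MP_e03363_an

namespace Pool.Agent.S06434

/-- The negation of the preceding statement: For every n,m≥1, every f = g∘(all minors) with g strictly convex and C^1, and every R>0, each point of the Λ_dc-convex hull of the R-truncated set {(X, Df(X), XᵀDf(X) − f(X)·I)} already lies in that set. -/
theorem result :
    ¬ (∀ n m : ℕ, 1 ≤ n → 1 ≤ m →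
  ∀ f : (Fin n → Fin m → ℝ) → ℝ,
    (∃ g : ((Σ k : Fin (min n m),
        {r : Fin (k.1 + 1) → Fin n // StrictMono r} ×
        {c : Fin (k.1 + 1) → Fin m // StrictMono c}) → ℝ) → ℝ,
      StrictConvexOn ℝ Set.univ g ∧ ContDiff ℝ 1 g ∧
      ∀ Y : Fin n → Fin m → ℝ,
        f Y = g (fun p => Matrix.det ((Matrix.of Y).submatrix p.2.1.1 p.2.2.1))) →
  ∀ R : ℝ, 0 < R →
  ∀ A : (Fin n → Fin m → ℝ) × (Fin n → Fin m → ℝ) × (Fin m → Fin m → ℝ),
    (∀ F : (Fin n → Fin m → ℝ) × (Fin n → Fin m → ℝ) × (Fin m → Fin m → ℝ) → ℝ,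
      (∀ A' B : (Fin n → Fin m → ℝ) × (Fin n → Fin m → ℝ) × (Fin m → Fin m → ℝ),
        (∃ ξ : Fin m → ℝ, ∑ j, ξ j ^ 2 = 1 ∧
          (∀ i, ∑ j, B.2.1 i j * ξ j = 0) ∧
          (∀ a, ∑ j, B.2.2 a j * ξ j = 0) ∧
          ∃ u : Fin n → ℝ, ∀ i j, B.1 i j = u i * ξ j) →
        ConvexOn ℝ Set.univ (fun t : ℝ => F (A' + t • B))) →
      (∀ P : (Fin n → Fin m → ℝ) × (Fin n → Fin m → ℝ) × (Fin m → Fin m → ℝ),
        (∃ X : Fin n → Fin m → ℝ,
          P = (X,
               fun i j => fderiv ℝ f X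
                 (fun a b => if a = i ∧ b = j then (1 : ℝ) else 0 : Fin n → Fin m → ℝ),
               fun a b => ∑ i, X i a * fderiv ℝ f X
                 (fun c d => if c = i ∧ d = b then (1 : ℝ) else 0 : Fin n → Fin m → ℝ)
                 - f X * (if a = b then (1 : ℝ) else 0)) ∧
          (∑ i, ∑ j, P.1 i j ^ 2) + (∑ i, ∑ j, P.2.1 i j ^ 2)
            + (∑ a, ∑ b, P.2.2 a b ^ 2) ≤ R ^ 2) →
        F P ≤ 0) →
      F A ≤ 0) →
    ∃ X : Fin n → Fin m → ℝ,
      A = (X,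
           fun i j => fderiv ℝ f X
             (fun a b => if a = i ∧ b = j then (1 : ℝ) else 0 : Fin n → Fin m → ℝ),
           fun a b => ∑ i, X i a * fderiv ℝ f X
             (fun c d => if c = i ∧ d = b then (1 : ℝ) else 0 : Fin n → Fin m → ℝ)
             - f X * (if a = b then (1 : ℝ) else 0)) ∧
      (∑ i, ∑ j, A.1 i j ^ 2) + (∑ i, ∑ j, A.2.1 i j ^ 2)
        + (∑ a, ∑ b, A.2.2 a b ^ 2) ≤ R ^ 2) := by
  exact Pool.Agent.H153Z.DcMain.main

end Pool.Agent.S06434
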