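import Pool.Statements.S06481
import Pool.Agent.H364Z.Main

set_option autoImplicit false
open Filter Topology
open Pool Pool.MP_e3ae05_an

namespace Pool.Agent.S06481

/-- For each integer r and ε>0, for all small ω>0: if A₁>0 is the lowest positive height where phase-lock area L_r is a single point, then every point of L_r with A≥A₁ lies within ε of the ray B=0, A≥1. -/
theorem result :
    ∀ r : ℤ, ∀ ε : ℝ, 0 < ε → ∃ δ : ℝ, 0 < δ ∧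
      ∀ ω : ℝ, 0 < ω → ω < δ →
      ∀ B₁ A₁ : ℝ, 0 < A₁ →
        ((∃ φ : ℝ → ℝ, (∀ t : ℝ, HasDerivAt φ (-Real.sin (φ t) + B₁ + A₁ * Real.cos (ω * t)) t) ∧
            Tendsto (fun t : ℝ => φ t / t) atTop (𝓝 ((r : ℝ) * ω))) ∧
          ∀ B'' : ℝ, (∃ φ : ℝ → ℝ, (∀ t : ℝ, HasDerivAt φ (-Real.sin (φ t) + B'' + A₁ * Real.cos (ω * t)) t) ∧
            Tendsto (fun t : ℝ => φ t / t) atTop (𝓝 ((r : ℝ) * ω))) → B'' = B₁) →
        (∀ B' A' : ℝ, 0 < A' → A' < A₁ →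
          ¬ ((∃ φ : ℝ → ℝ, (∀ t : ℝ, HasDerivAt φ (-Real.sin (φ t) + B' + A' * Real.cos (ω * t)) t) ∧
              Tendsto (fun t : ℝ => φ t / t) atTop (𝓝 ((r : ℝ) * ω))) ∧
            ∀ B'' : ℝ, (∃ φ : ℝ → ℝ, (∀ t : ℝ, HasDerivAt φ (-Real.sin (φ t) + B'' + A' * Real.cos (ω * t)) t) ∧
              Tendsto (fun t : ℝ => φ t / t) atTop (𝓝 ((r : ℝ) * ω))) → B'' = B')) →
        ∀ B A : ℝ, A₁ ≤ A →
          (∃ φ : ℝ → ℝ, (∀ t : ℝ, HasDerivAt φ (-Real.sin (φ t) + B + A * Real.cos (ω * t)) t) ∧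
            Tendsto (fun t : ℝ => φ t / t) atTop (𝓝 ((r : ℝ) * ω))) →
          ∃ a : ℝ, 1 ≤ a ∧ B ^ 2 + (A - a) ^ 2 < ε ^ 2 := by
  intro r ε hε
  have hK : 0 < 2 * (|(r : ℝ)| + 1) := by positivity
  refine ⟨ε / (2 * (|(r : ℝ)| + 1)), by positivity, ?_⟩
  intro ω hω hδ B₁ A₁ hA₁ h1 _ B A hA h2
  simp only [H364Z.conv_lim2 hω, H364Z.rot_ex hω] at h1 h2
  have hη := inv_pos.2 hω
  have k1 : ω⁻¹ ≤ A₁ / ω := by
    refine H364Z.slice_high (l := B₁ / ω) (m := r) hη (by positivity) fun l' hl' => ?_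
    rw [← h1.2 (l' * ω) (by rwa [mul_div_cancel_right₀ _ hω.ne']),
      mul_div_cancel_right₀ _ hω.ne']
  have k2 : ω⁻¹ ≤ A / ω := k1.trans (div_le_div_of_nonneg_right hA hω.le)
  have k3 := h2.abs_high hη k2
  rw [abs_div, abs_of_pos hω, div_le_iff₀ hω] at k3
  rw [lt_div_iff₀ hK] at hδ
  rw [inv_eq_one_div, div_le_div_iff_of_pos_right hω] at k2
  refine ⟨A, k2, ?_⟩
  rw [sub_self, zero_pow two_ne_zero, add_zero]
  exact sq_lt_sq.2 (by rw [abs_of_pos hε]; linarith)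

end Pool.Agent.S06481
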