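import Pool.Statements.S06486
import Pool.Agent.H655Z.Haight

set_option autoImplicit false
open scoped Pointwise
open Pool Pool.MP_e3f633_an

namespace Pool.Agent.S06486

/-- The negation of the preceding statement: For every compact set A of reals whose difference set A−A contains a neighbourhood of 0, the sumset A+A+A+A has non-empty interior. -/
theorem result :
    ¬ (∀ A : Set ℝ, IsCompact A → A - A ∈ nhds (0 : ℝ) →
      (interior (A + A + A + A)).Nonempty) := by
  intro H
  obtain ⟨A, h1, h2, h3⟩ := Pool.Agent.H655Z.Haight.main
  exact h3 (H A h1 h2)

end Pool.Agent.S06486
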