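import Pool.Statements.S06493
import Pool.Agent.H461Z.Disc.Main

set_option autoImplicit false
open Pool Pool.MP_e46b3e_an

namespace Pool.Agent.S06493

/-- For every finite p>1 there are C,τ,ε₀>0 such that for infinitely many d, any real-weighted quadrature rule whose L_p-discrepancy is at most ε₀ times the initial one uses at least C(1+τ)^d points. -/
theorem result :
  ∀ p : ℝ, 1 < p →
    ∃ C : ℝ, 0 < C ∧ ∃ τ : ℝ, 0 < τ ∧ ∃ ε₀ : ℝ, 0 < ε₀ ∧
      ∀ D : ℕ, ∃ d : ℕ, D ≤ d ∧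
        ∀ ε : ℝ, 0 < ε → ε ≤ ε₀ →
        ∀ n : ℕ, ∀ x : Fin n → Fin d → ℝ, ∀ a : Fin n → ℝ,
          (∀ j, x j ∈ Set.Icc (0 : Fin d → ℝ) 1) →
          (∫ t in Set.Icc (0 : Fin d → ℝ) 1,
              |(∏ i, t i) - ∑ j, a j *
                  Set.indicator {y : Fin d → ℝ | ∀ i, x j i < y i} (fun _ => (1 : ℝ)) t| ^ p)
            ≤ ε ^ p * ∫ t in Set.Icc (0 : Fin d → ℝ) 1, |∏ i, t i| ^ p →
          C * (1 + τ) ^ d ≤ (n : ℝ) := by
  intro p hp
  obtain ⟨ρ, h0, h1, h⟩ := Pool.Agent.H461Z.Disc.core hp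
  refine ⟨1 / 2, by norm_num, ρ⁻¹ - 1, by have := (one_lt_inv₀ h0).mpr h1; linarith, 1 / 3,
    by norm_num, fun D => ⟨D, le_rfl, fun ε hε hε3 n x a _ hyp => ?_⟩⟩
  have e : ∀ t ∈ Set.Icc (0 : Fin D → ℝ) 1, ∏ i, t i = ∏ i, Pool.Agent.H461Z.Disc.cl (t i) :=
    fun t ht => Finset.prod_congr rfl fun i _ =>
      (Pool.Agent.H461Z.Disc.cl_eq (ht.1 i) (ht.2 i)).symm
  rw [MeasureTheory.setIntegral_congr_fun measurableSet_Icc
      (g := fun t => |(∏ i, Pool.Agent.H461Z.Disc.cl (t i)) - ∑ j, a j *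
        Set.indicator {y : Fin D → ℝ | ∀ i, x j i < y i} (fun _ => (1 : ℝ)) t| ^ p)
      (fun t ht => by simp only [e t ht]),
    MeasureTheory.setIntegral_congr_fun measurableSet_Icc
      (f := fun t : Fin D → ℝ => |∏ i, t i| ^ p)
      (g := fun t => |∏ i, Pool.Agent.H461Z.Disc.cl (t i)| ^ p)
      (fun t ht => by simp only [e t ht]), Pool.Agent.H461Z.Disc.restrict_eq] at hyp
  have k := h D n x a ε hε hε3 hyp
  have hD : 0 < ρ ^ D := pow_pos h0 D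
  rw [add_sub_cancel, inv_pow, ← div_eq_mul_inv, div_le_iff₀ hD]
  exact k

end Pool.Agent.S06493
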