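import Pool.Statements.S06503
import Pool.Agent.H593Z.HeisMean

set_option autoImplicit false
open Pool Pool.MP_e59edf_an

namespace Pool.Agent.S06503

/-- Some one-sided subshift over a finite alphabet has an infinite-order automorphism g lying in a finite generating set S of automorphisms such that the word length of gⁿ with respect to S is o(n). -/
theorem result :
    ∃ (k : ℕ) (X : Set (ℕ → Fin k)), IsClosed X ∧
      (∀ x ∈ X, (fun n => x (n + 1)) ∈ X) ∧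
      ∃ (S : Finset (Equiv.Perm X)) (g : Equiv.Perm X), g ∈ S ∧
        (∀ h ∈ S, Continuous (h : X → X) ∧
          ∀ x y : X, ((y : ℕ → Fin k) = fun n => (x : ℕ → Fin k) (n + 1)) →
            ((h y : X) : ℕ → Fin k) = fun n => ((h x : X) : ℕ → Fin k) (n + 1)) ∧
        ¬ IsOfFinOrder g ∧
        ∀ ε : ℝ, 0 < ε → ∃ N : ℕ, ∀ n : ℕ, N ≤ n →
          ∃ l : List (Equiv.Perm X), (l.length : ℝ) ≤ ε * n ∧
            (∀ h ∈ l, h ∈ S ∨ h⁻¹ ∈ S) ∧ l.prod = g ^ n := by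
  classical
  obtain ⟨k, F, -⟩ := H593Z.Sim.Heis.exists_fam
  have hinj := F.rho_inj (1 : ℕ) (Nat.castAddMonoidHom ℤ) rfl
  refine ⟨k, F.X (1 : ℕ), F.X_closed 1, fun x hx => F.shift_mem 1 hx 1,
    {F.rho 1 H593Z.Sim.Heis.x, F.rho 1 H593Z.Sim.Heis.y, F.rho 1 H593Z.Sim.Heis.z},
    F.rho 1 H593Z.Sim.Heis.z, by simp, ?_, ?_, ?_⟩
  · have key : ∀ g, Continuous (F.rho (1 : ℕ) g) ∧ ∀ x y : F.X (1 : ℕ),
        ((y : ℕ → Fin k) = fun n => (x : ℕ → Fin k) (n + 1)) →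
          ((F.rho 1 g y : F.X (1 : ℕ)) : ℕ → Fin k) =
            fun n => ((F.rho 1 g x : F.X (1 : ℕ)) : ℕ → Fin k) (n + 1) := by
      intro g
      refine ⟨F.rho_cont 1 g, fun x y h => ?_⟩
      funext n
      rw [F.rho_val, F.rho_val, h]
      exact F.a_shift 1 _ x.1 1 n
    intro h hh
    simp only [Finset.mem_insert, Finset.mem_singleton] at hh
    rcases hh with rfl | rfl | rfl <;> exact key _
  · rw [hinj.isOfFinOrder_iff]
    exact H593Z.Sim.Heis.z_inf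
  · intro ε hε
    obtain ⟨N, hN⟩ := H593Z.Sim.Heis.distorted_map (F.rho (1 : ℕ)) ε hε
    refine ⟨N, fun n hn => ?_⟩
    obtain ⟨l, h1, h2, h3⟩ := hN n hn
    exact ⟨l, h3, h1, h2⟩

end Pool.Agent.S06503
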