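import Pool.Statements.S06568
import Pool.Agent.H963Z.Main

set_option autoImplicit false
open Pool Pool.MP_eb85b6_an

namespace Pool.Agent.S06568

/-- The negation of the preceding statement: For every real or complex Banach space X and bounded operator T: if the vectors whose return sets to each neighbourhood have positive upper density are dense, then some dense linear subspace consists entirely of such vectors. -/
theorem result :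
    ¬ (∀ (𝕂 : Type) [RCLike 𝕂] (X : Type) [NormedAddCommGroup X] [NormedSpace 𝕂 X]
      [CompleteSpace X] (T : X →L[𝕂] X),
      Dense {x : X | ∀ U ∈ nhds x, ∃ ε : ℝ, 0 < ε ∧ ∀ N₀ : ℕ, ∃ N : ℕ, N₀ < N ∧
          ε * (N : ℝ) ≤ (({n : ℕ | 1 ≤ n ∧ n ≤ N ∧ (⇑T)^[n] x ∈ U}.ncard : ℕ) : ℝ)} →
      ∃ M : Submodule 𝕂 X, Dense (M : Set X) ∧
        ∀ x ∈ M, ∀ U ∈ nhds x, ∃ ε : ℝ, 0 < ε ∧ ∀ N₀ : ℕ, ∃ N : ℕ, N₀ < N ∧
          ε * (N : ℝ) ≤ (({n : ℕ | 1 ≤ n ∧ n ≤ N ∧ (⇑T)^[n] x ∈ U}.ncard : ℕ) : ℝ)) := by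
  intro h
  obtain ⟨M, hM, hsub⟩ := h ℝ (H963Z.XS ℝ) (H963Z.TX ℝ) ((H963Z.frec_dense ℝ).mono (by
    intro x hx U hU
    obtain ⟨δ, hδ, N₀, hN₀⟩ := hx U hU
    refine ⟨δ, hδ, fun N₁ => ⟨max N₀ (N₁ + 1), lt_of_lt_of_le (Nat.lt_succ_self _) (le_max_right _ _), ?_⟩⟩
    have := hN₀ _ (le_max_left N₀ (N₁ + 1))
    simpa only [FunLike.coe_pow_eq_iterate] using this))
  obtain ⟨x, hx, hx'⟩ := H963Z.dense_meets ℝ M hM
  obtain ⟨U, hU, hU'⟩ := H963Z.not_uf ℝ x hx'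
  obtain ⟨δ, hδ, hN₀⟩ := hsub x hx U hU
  obtain ⟨N₁, hN₁⟩ := hU' δ hδ
  obtain ⟨N, hN, hN'⟩ := hN₀ N₁
  have := hN₁ N hN.le
  simp only [FunLike.coe_pow_eq_iterate] at this
  exact absurd hN' (not_le.2 this)

end Pool.Agent.S06568
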