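import Pool.Statements.S06585
import Pool.Agent.H921Z.Herm.Main

set_option autoImplicit false
open Pool Pool.MP_ecafe5_an

namespace Pool.Agent.S06585

/-- If a linear operator T on real polynomials has the Hermite polynomials as eigenvectors, with eigenvalues forming a classical multiplier sequence, and every coefficient Q_k in T = sum Q_k D^k has only real zeros, then T maps real-rooted polynomials to real-rooted ones. -/
theorem result :
    ∀ (T : Polynomial ℝ →ₗ[ℝ] Polynomial ℝ) (γ : ℕ → ℝ) (Q : ℕ → Polynomial ℝ),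
      (∀ n : ℕ,
        T (((Polynomial.hermite n).map (Int.castRingHom ℝ)).comp
            (Polynomial.C (Real.sqrt 2) * Polynomial.X)) =
          γ n • (((Polynomial.hermite n).map (Int.castRingHom ℝ)).comp
            (Polynomial.C (Real.sqrt 2) * Polynomial.X))) →
      (∀ p : Polynomial ℝ,
        (p = 0 ∨ ∀ z : ℂ, Polynomial.aeval z p = 0 → z.im = 0) →
        ((∑ n ∈ Finset.range (p.natDegree + 1),
            Polynomial.C (γ n * p.coeff n) * Polynomial.X ^ n) = 0 ∨
          ∀ z : ℂ, Polynomial.aeval z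
            (∑ n ∈ Finset.range (p.natDegree + 1),
              Polynomial.C (γ n * p.coeff n) * Polynomial.X ^ n) = 0 → z.im = 0)) →
      (∀ p : Polynomial ℝ,
        T p = ∑ k ∈ Finset.range (p.natDegree + 1),
          Q k * (⇑Polynomial.derivative)^[k] p) →
      (∀ k : ℕ, Q k = 0 ∨ ∀ z : ℂ, Polynomial.aeval z (Q k) = 0 → z.im = 0) →
      ∀ p : Polynomial ℝ,
        (p = 0 ∨ ∀ z : ℂ, Polynomial.aeval z p = 0 → z.im = 0) →
        (T p = 0 ∨ ∀ z : ℂ, Polynomial.aeval z (T p) = 0 → z.im = 0) := by
  intro T γ Q hT hM hQ hR p hp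
  exact Pool.Agent.H921Z.Herm.main (Real.sqrt 2) (by positivity) T γ Q hT hM hQ hR p hp

end Pool.Agent.S06585
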