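import Pool.Statements.S06623
import Pool.Agent.H583Z.Rec.Linear

set_option autoImplicit false
open Pool Pool.MP_ef2f7d_an

namespace Pool.Agent.S06623

/-- There is a nonempty compact metric space with two minimal homeomorphisms T, S (all forward orbits dense) such that for no point x does (T^n x, S^n x) come arbitrarily close to (x,x) for some n ≥ 1. -/
theorem result :
    ∃ (X : Type) (_ : MetricSpace X) (_ : CompactSpace X) (_ : Nonempty X) (T S : X ≃ₜ X),
      (∀ x : X, Dense (Set.range (fun n : ℕ => (⇑T)^[n] x))) ∧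
      (∀ x : X, Dense (Set.range (fun n : ℕ => (⇑S)^[n] x))) ∧
      ∀ x : X, ¬ (∀ ε : ℝ, 0 < ε →
        ∃ n : ℕ, 0 < n ∧ dist ((⇑T)^[n] x) x < ε ∧ dist ((⇑S)^[n] x) x < ε) := by
  exact Pool.Agent.H583Z.Rec.linear_main

end Pool.Agent.S06623
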