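import Pool.Statements.S06629

set_option autoImplicit false
open Pool Pool.MP_efaf6a_an

namespace Pool.Agent.S06629

/-- A finitely generated commutative algebra over the field with two elements is residually
finite. -/
theorem exists_ideal_not_mem (R : Type) [CommRing R] [Algebra (ZMod 2) R]
    [Algebra.FiniteType (ZMod 2) R] (r : R) (hr : r ≠ 0) :
    ∃ I : Ideal R, Finite (R ⧸ I) ∧ r ∉ I := by
  have : Fact (Nat.Prime 2) := ⟨Nat.prime_two⟩
  have : IsNoetherianRing R := Algebra.FiniteType.isNoetherianRing (ZMod 2) R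
  let J : Ideal R := LinearMap.ker (LinearMap.toSpanSingleton R R r)
  have hJ : J ≠ ⊤ := by
    intro h
    have h1 : (1 : R) ∈ J := by rw [h]; trivial
    simp [J] at h1
    exact hr h1
  obtain ⟨m, hm, hJm⟩ := Ideal.exists_le_maximal J hJ
  let := Ideal.Quotient.field m
  have : Module.Finite (ZMod 2) (R ⧸ m) := finite_of_finite_type_of_isJacobsonRing _ _
  have : Finite (R ⧸ m) := Module.finite_of_finite (ZMod 2)
  by_contra hcon
  push Not at hcon
  have hmem : r ∈ (⨅ i : ℕ, m ^ i • ⊤ : Submodule R R) := by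
    rw [Submodule.mem_iInf]
    intro i
    have := hcon (m ^ i) (Ideal.finite_quotient_pow (IsNoetherian.noetherian m) i)
    simpa using this
  obtain ⟨a, ha⟩ := (m.mem_iInf_smul_pow_eq_bot_iff r).mp hmem
  have h1 : (1 - (a : R)) ∈ J := by
    simp only [J, LinearMap.mem_ker, LinearMap.toSpanSingleton_apply]
    rw [sub_smul, ha, one_smul, sub_self]
  have h2 : (1 : R) ∈ m := by
    have := m.add_mem (hJm h1) a.2
    simpa using this
  exact hm.ne_top ((Ideal.eq_top_iff_one m).mpr h2)

theorem exists_ideal_not_mem_finset (R : Type) [CommRing R] [Algebra (ZMod 2) R]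
    [Algebra.FiniteType (ZMod 2) R] (D : Finset R) (hD : ∀ r ∈ D, r ≠ 0) :
    ∃ I : Ideal R, Finite (R ⧸ I) ∧ ∀ r ∈ D, r ∉ I := by
  classical
  have : Fact (Nat.Prime 2) := ⟨Nat.prime_two⟩
  have : IsNoetherianRing R := Algebra.FiniteType.isNoetherianRing (ZMod 2) R
  have h : ∀ r : R, ∃ I : Ideal R, Finite (R ⧸ I) ∧ (r ≠ 0 → r ∉ I) := by
    intro r
    by_cases hr : r = 0
    · exact ⟨⊤, inferInstance, fun h => absurd hr h⟩
    · obtain ⟨I, h1, h2⟩ := exists_ideal_not_mem R r hr
      exact ⟨I, h1, fun _ => h2⟩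
  choose I hI1 hI2 using h
  refine ⟨∏ r ∈ D, I r, Ideal.finite_quotient_prod I D
    (fun i _ => IsNoetherian.noetherian _) (fun i _ => hI1 i), ?_⟩
  intro r hr hmem
  exact hI2 r (hD r hr) (Ideal.prod_le_inf.trans (Finset.inf_le hr) hmem)

/-- A commutative monoid is locally embeddable into finite monoids. -/
theorem lef (M : Type) [CommMonoid M] (G : Finset M) :
    ∃ (Q : Type) (_ : CommMonoid Q) (_ : Finite Q) (φ : M → Q),
      φ 1 = 1 ∧ (∀ a ∈ G, ∀ b ∈ G, φ (a * b) = φ a * φ b) ∧ Set.InjOn φ (G : Set M) := by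
  classical
  let N : Submonoid M := Submonoid.closure (G : Set M)
  have : Monoid.FG N := (Monoid.fg_iff_submonoid_fg N).mpr ⟨G, rfl⟩
  let R := MonoidAlgebra (ZMod 2) N
  have : Algebra.FiniteType (ZMod 2) R := MonoidAlgebra.finiteType_of_fg
  let ι : M → R := fun m => if h : m ∈ N then MonoidAlgebra.of (ZMod 2) N ⟨m, h⟩ else 1
  have hG : ∀ a ∈ G, a ∈ N := fun a ha => Submonoid.subset_closure ha
  have hι : ∀ (a : M) (h : a ∈ N), ι a = MonoidAlgebra.of (ZMod 2) N ⟨a, h⟩ := by
    intro a h
    simp only [ι, dif_pos h]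
  let D : Finset R := ((G ×ˢ G).filter (fun p => p.1 ≠ p.2)).image (fun p => ι p.1 - ι p.2)
  have hD : ∀ r ∈ D, r ≠ 0 := by
    intro r hr
    obtain ⟨p, hp, rfl⟩ := Finset.mem_image.mp hr
    obtain ⟨hp1, hp2⟩ := Finset.mem_filter.mp hp
    obtain ⟨ha, hb⟩ := Finset.mem_product.mp hp1
    rw [hι _ (hG _ ha), hι _ (hG _ hb), sub_ne_zero]
    intro h
    have := MonoidAlgebra.of_injective h
    exact hp2 (congrArg Subtype.val this)
  obtain ⟨I, hI1, hI2⟩ := exists_ideal_not_mem_finset R D hD
  refine ⟨R ⧸ I, inferInstance, hI1, fun m => Ideal.Quotient.mk I (ι m), ?_, ?_, ?_⟩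
  · have : ι 1 = 1 := by
      rw [hι 1 N.one_mem]
      exact map_one (MonoidAlgebra.of (ZMod 2) N)
    simp only [this, map_one]
  · intro a ha b hb
    beta_reduce
    rw [← map_mul, hι a (hG a ha), hι b (hG b hb), hι (a * b) (N.mul_mem (hG a ha) (hG b hb)),
      ← map_mul]
    rfl
  · intro a ha b hb hab
    by_contra hne
    refine hI2 (ι a - ι b) ?_ (Ideal.Quotient.eq.mp hab)
    exact Finset.mem_image.mpr ⟨(a, b), Finset.mem_filter.mpr
      ⟨Finset.mem_product.mpr ⟨ha, hb⟩, hne⟩, rfl⟩

/-- For every commutative monoid M and finite alphabet A, every cellular automaton on A^M (finite memory set S, local rule μ, x ↦ (m ↦ μ(s ↦ x(m·s)))) that is injective is also surjective. -/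
theorem result :
    ∀ (M : Type) [CommMonoid M] (A : Type) [Finite A] (S : Finset M) (μ : (S → A) → A),
      Function.Injective (fun (x : M → A) (m : M) => μ (fun s : S => x (m * s.1))) →
      Function.Surjective (fun (x : M → A) (m : M) => μ (fun s : S => x (m * s.1))) := by
  intro M _ A _ S μ hinj
  classical
  let : TopologicalSpace A := ⊥
  have : DiscreteTopology A := ⟨rfl⟩
  have hcont : ∀ m : M, Continuous (fun x : M → A => μ (fun s : S => x (m * s.1))) := by
    intro m
    exact (continuous_of_discreteTopology (f := μ)).comp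
      (continuous_pi fun s => continuous_apply _)
  -- a finite window of the image determines the value at the identity
  obtain ⟨T, hT⟩ : ∃ T : Finset M, ∀ x y : M → A,
      (∀ t ∈ T, μ (fun s : S => x (t * s.1)) = μ (fun s : S => y (t * s.1))) → x 1 = y 1 := by
    have hC : IsCompact {p : (M → A) × (M → A) | p.1 1 ≠ p.2 1} := by
      apply IsClosed.isCompact
      have hc : Continuous (fun p : (M → A) × (M → A) => (p.1 1, p.2 1)) := by fun_prop
      exact (isClosed_discrete {q : A × A | q.1 ≠ q.2}).preimage hc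
    obtain ⟨T, hT⟩ := hC.elim_finite_subfamily_closed
      (fun t : M => {p : (M → A) × (M → A) |
        μ (fun s : S => p.1 (t * s.1)) = μ (fun s : S => p.2 (t * s.1))})
      (fun t => isClosed_eq ((hcont t).comp continuous_fst) ((hcont t).comp continuous_snd))
      (by
        rw [Set.eq_empty_iff_forall_notMem]
        rintro p ⟨hp1, hp2⟩
        apply hp1
        have : p.1 = p.2 := hinj (funext fun t => Set.mem_iInter.mp hp2 t)
        rw [this])
    refine ⟨T, fun x y hxy => ?_⟩
    by_contra hne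
    have : (x, y) ∈ ({p : (M → A) × (M → A) | p.1 1 ≠ p.2 1} ∩ ⋂ t ∈ T, {p : (M → A) × (M → A) |
        μ (fun s : S => p.1 (t * s.1)) = μ (fun s : S => p.2 (t * s.1))}) :=
      ⟨hne, Set.mem_iInter₂.mpr fun t ht => hxy t ht⟩
    rw [hT] at this
    exact this
  intro z
  -- every finite window of `z` occurs in the image
  have hfin : ∀ F : Finset M, ∃ x : M → A, ∀ f ∈ F, μ (fun s : S => x (f * s.1)) = z f := by
    intro F
    obtain ⟨Q, _, _, φ, h1, hmul, hφ⟩ := lef M (S ∪ T ∪ F)
    let τ : (Q → A) → (Q → A) := fun y q => μ (fun s : S => y (q * φ s.1))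
    have hS : ∀ s : S, s.1 ∈ S ∪ T ∪ F := fun s => by simp
    have hτ : Function.Injective τ := by
      intro y y' hyy
      funext q
      have := hT (fun m => y (q * φ m)) (fun m => y' (q * φ m)) (by
        intro t ht
        have ht' : t ∈ S ∪ T ∪ F := by simp [ht]
        have e := congrFun hyy (q * φ t)
        simp only [τ] at e
        simp only [hmul t ht' _ (hS _), ← mul_assoc]
        exact e)
      simpa [h1] using this
    have hsurj : Function.Surjective τ := Finite.surjective_of_injective hτ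
    let w : Q → A := fun q => if h : ∃ f ∈ F, φ f = q then z h.choose else z 1
    obtain ⟨y, hy⟩ := hsurj w
    refine ⟨fun m => y (φ m), fun f hf => ?_⟩
    have hf' : f ∈ S ∪ T ∪ F := by simp [hf]
    have e := congrFun hy (φ f)
    have hex : ∃ g ∈ F, φ g = φ f := ⟨f, hf, rfl⟩
    simp only [τ, w, dif_pos hex] at e
    simp only [hmul f hf' _ (hS _)]
    rw [e]
    congr 1
    have hs := hex.choose_spec
    exact hφ (by simp [hs.1]) (by simp [hf]) hs.2
  by_contra hz
  have hempty : (Set.univ : Set (M → A)) ∩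
      ⋂ f : M, {x : M → A | μ (fun s : S => x (f * s.1)) = z f} = ∅ := by
    rw [Set.eq_empty_iff_forall_notMem]
    rintro x ⟨_, hx⟩
    exact hz ⟨x, funext fun f => Set.mem_iInter.mp hx f⟩
  obtain ⟨F, hF⟩ := isCompact_univ.elim_finite_subfamily_closed
    (fun f : M => {x : M → A | μ (fun s : S => x (f * s.1)) = z f})
    (fun f => isClosed_eq (hcont f) continuous_const) hempty
  obtain ⟨x, hx⟩ := hfin F
  have : x ∈ ((Set.univ : Set (M → A)) ∩
      ⋂ f ∈ F, {x : M → A | μ (fun s : S => x (f * s.1)) = z f}) :=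
    ⟨trivial, Set.mem_iInter₂.mpr fun f hf => hx f hf⟩
  rw [hF] at this
  exact this

end Pool.Agent.S06629
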