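import Pool.Statements.S06651
import Pool.Agent.H364Z.Main

set_option autoImplicit false
open Pool Pool.MP_f086f4_an

namespace Pool.Agent.S06651

/-- For ω>0, integer r≥1 and reals B, A: if some solution of φ' = −sin φ + B + A cos(ωt) has rotation number φ(t)/(ωt) → r, then B > (r−1)ω. -/
theorem result :
    ∀ ω : ℝ, 0 < ω → ∀ r : ℕ, 1 ≤ r → ∀ B A : ℝ, ∀ φ : ℝ → ℝ,
      (∀ t : ℝ, HasDerivAt φ (-Real.sin (φ t) + B + A * Real.cos (ω * t)) t) →
      Filter.Tendsto (fun t : ℝ => φ t / (ω * t)) Filter.atTop (nhds (r : ℝ)) →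
      ((r : ℝ) - 1) * ω < B := by
  intro ω hω r hr B A φ h1 h2
  have h := (H364Z.rot_ex hω).1 ⟨φ, h1, h2⟩
  by_contra hn
  push Not at hn
  have := h.le_axis (m := (r : ℤ) - 1) (inv_pos.2 hω) (by omega)
    (by push_cast; rwa [div_le_iff₀ hω])
  push_cast at this
  linarith

end Pool.Agent.S06651
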