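import Pool.Statements.S06658
import Pool.Agent.H564Z.MonoAbs

set_option autoImplicit false
open Pool Pool.MP_f1354d_an

namespace Pool.Agent.S06658

open Pool.Agent.H564Z.Mono

/-- The negation of the preceding statement: For every real Banach space X and maximally monotone A from X to subsets of X*, and every open convex U meeting dom A: any (x,x*) with x in U monotonically related to all graph points over U lies in the graph (type FPV). -/
theorem result :
    ¬ (∀ (X : Type) [NormedAddCommGroup X] [NormedSpace ℝ X] [CompleteSpace X]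
      (A : X → Set (X →L[ℝ] ℝ)),
      ((∀ x y : X, ∀ xs ∈ A x, ∀ ys ∈ A y, 0 ≤ (xs - ys) (x - y)) ∧
        (∀ (x : X) (xs : X →L[ℝ] ℝ),
          (∀ y : X, ∀ ys ∈ A y, 0 ≤ (xs - ys) (x - y)) → xs ∈ A x)) →
      ∀ U : Set X, IsOpen U → Convex ℝ U → (∃ y ∈ U, (A y).Nonempty) →
        ∀ x ∈ U, ∀ xs : X →L[ℝ] ℝ,
          (∀ y ∈ U, ∀ ys ∈ A y, 0 ≤ (xs - ys) (x - y)) → xs ∈ A x) := by
  intro h
  obtain ⟨M, h1, h2, ⟨p, hp, hp1⟩, -, h5, h6, -⟩ := main
  have hconv : Convex ℝ {x : X0 | x.1 < 2} :=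
    convex_halfSpace_lt (f := fun x : X0 => x.1) ⟨fun _ _ => rfl, fun _ _ => rfl⟩ 2
  have hc := h X0 (fun x => {f | (x, f) ∈ M})
    ⟨fun x y xs hx ys hy => h1 (x, xs) hx (y, ys) hy,
      fun x xs hx => h2 (x, xs) fun r hr => hx r.1 r.2 hr⟩
    {x : X0 | x.1 < 2} (isOpen_lt continuous_fst continuous_const) hconv
    ⟨p.1, (show p.1.1 < 2 by rw [hp1]; norm_num), p.2, hp⟩
    (1, 0) (show (1 : ℝ) < 2 by norm_num) (mk 1 0) (fun y hy ys hys => h6 (y, ys) hys hy)
  rcases h5 _ hc with h | h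
  · exact absurd h (by norm_num)
  · exact absurd h (by norm_num)

end Pool.Agent.S06658
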