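import Pool.Statements.S06660
import Pool.Agent.H585Z.LF.Iso

set_option autoImplicit false
open Pool Pool.MP_f13e4b_an

namespace Pool.Agent.S06660

/-- The negation of the preceding statement: There exist infinite-dimensional real Banach spaces E and F of equal density character such that no bounded linear isomorphism exists between Lip₀(E) and Lip₀(F) (real Lipschitz functions vanishing at 0, Lipschitz-constant norm). -/
theorem result :
    ¬ (∃ (E F : Type) (_ : NormedAddCommGroup E) (_ : NormedSpace ℝ E) (_ : CompleteSpace E)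
      (_ : NormedAddCommGroup F) (_ : NormedSpace ℝ F) (_ : CompleteSpace F),
      ¬ FiniteDimensional ℝ E ∧ ¬ FiniteDimensional ℝ F ∧
      (∀ D : Set E, Dense D → ∃ D' : Set F, Dense D' ∧ Cardinal.mk D' ≤ Cardinal.mk D) ∧
      (∀ D' : Set F, Dense D' → ∃ D : Set E, Dense D ∧ Cardinal.mk D ≤ Cardinal.mk D') ∧
      ¬ ∃ (T : (E → ℝ) →ₗ[ℝ] (F → ℝ)) (S : (F → ℝ) →ₗ[ℝ] (E → ℝ)) (C : NNReal),
        (∀ f : E → ℝ, ∀ K : NNReal, f 0 = 0 → LipschitzWith K f →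
            T f 0 = 0 ∧ LipschitzWith (C * K) (T f) ∧ S (T f) = f) ∧
        (∀ g : F → ℝ, ∀ K : NNReal, g 0 = 0 → LipschitzWith K g →
            S g 0 = 0 ∧ LipschitzWith (C * K) (S g) ∧ T (S g) = g)) := by
  rintro ⟨E, F, _, _, _, _, _, _, hE, hF, h1, h2, h⟩
  obtain ⟨T, S, C, hC, t1, t2⟩ := Pool.Agent.H585Z.LF.giso_lip hE hF h1 h2
  refine h ⟨T, S, ⟨C, hC⟩, fun f K f0 hf => ?_, fun f K f0 hf => ?_⟩
  · obtain ⟨⟨-, a1, a2⟩, a3⟩ := t1 f K ⟨K.coe_nonneg, f0, Pool.Agent.H585Z.LF.abs_le_of_lip hf⟩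
    exact ⟨a1, Pool.Agent.H585Z.LF.lip_of_abs_le a2, a3⟩
  · obtain ⟨⟨-, a1, a2⟩, a3⟩ := t2 f K ⟨K.coe_nonneg, f0, Pool.Agent.H585Z.LF.abs_le_of_lip hf⟩
    exact ⟨a1, Pool.Agent.H585Z.LF.lip_of_abs_le a2, a3⟩

end Pool.Agent.S06660
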