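import Pool.Statements.S06675
import Pool.Agent.H516Z.CKMain

set_option autoImplicit false
open Pool Pool.MP_f27419_an

namespace Pool.Agent.S06675

/-- For every real Banach space X and infinite compact Hausdorff K: if C([0,ω^ω]) is isomorphic to a complemented subspace of C(K,X), then c_0 is isomorphic to a complemented subspace of C(K) or c_0 embeds isomorphically into X. -/
theorem result :
  ∀ (X : Type) [NormedAddCommGroup X] [NormedSpace ℝ X] [CompleteSpace X]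
    (K : Type) [TopologicalSpace K] [CompactSpace K] [T2Space K] [Infinite K],
    (∃ (J : C(Set.Icc (0 : Ordinal.{0}) (Ordinal.omega0 ^ Ordinal.omega0), ℝ) →L[ℝ] C(K, X))
       (Q : C(K, X) →L[ℝ] C(Set.Icc (0 : Ordinal.{0}) (Ordinal.omega0 ^ Ordinal.omega0), ℝ)),
       Q.comp J = ContinuousLinearMap.id ℝ _) →
    (∃ (J : ZeroAtInftyContinuousMap ℕ ℝ →L[ℝ] C(K, ℝ))
       (Q : C(K, ℝ) →L[ℝ] ZeroAtInftyContinuousMap ℕ ℝ),
       Q.comp J = ContinuousLinearMap.id ℝ _) ∨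
    (∃ (T : ZeroAtInftyContinuousMap ℕ ℝ →L[ℝ] X) (c : ℝ),
       0 < c ∧ ∀ f : ZeroAtInftyContinuousMap ℕ ℝ, c * ‖f‖ ≤ ‖T f‖) := by
  intro X _ _ _ K _ _ _ _ h
  obtain ⟨J, Q, hQJ⟩ := h
  by_contra hcon
  rw [not_or] at hcon
  exact Pool.Agent.H516Z.CKX.main hcon.1 hcon.2 J Q fun f => DFunLike.congr_fun hQJ f

end Pool.Agent.S06675
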