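import Pool.Statements.S06722
import Pool.Agent.H27Z.AM.Core

set_option autoImplicit false
open scoped ContDiff Topology
open Pool Pool.MP_f4f698_an

namespace Pool.Agent.S06722

/-- The negation of the preceding statement: For n≥3 and 1<p<∞, every (C¹ weak) p-harmonic u on an open set satisfies, at each point, u(x) = α/2(max+min of u on the ε-ball) + β·(ball average) + o(ε²), with α=(p−2)/(p+n), β=(n+2)/(p+n). -/
theorem result :
    ¬ (∀ n : ℕ, 3 ≤ n → ∀ p : ℝ, 1 < p →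
    ∀ Ω : Set (EuclideanSpace ℝ (Fin n)), IsOpen Ω →
    ∀ u : EuclideanSpace ℝ (Fin n) → ℝ, ContDiffOn ℝ 1 u Ω →
    (∀ φ : EuclideanSpace ℝ (Fin n) → ℝ, ContDiff ℝ ∞ φ → HasCompactSupport φ →
        tsupport φ ⊆ Ω →
        ∫ y, ‖gradient u y‖ ^ (p - 2) * inner ℝ (gradient u y) (gradient φ y) = 0) →
    ∀ x ∈ Ω,
      (fun ε : ℝ => u x -
          ((p - 2) / (2 * (p + (n : ℝ))) *
              (sSup (u '' Metric.closedBall x ε) + sInf (u '' Metric.closedBall x ε)) +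
            ((n : ℝ) + 2) / (p + (n : ℝ)) * ⨍ y in Metric.ball x ε, u y))
        =o[𝓝[>] (0 : ℝ)] (fun ε : ℝ => ε ^ 2)) := by
  intro H
  obtain ⟨k, hk1, hk2, g, g1, T1, T2, T1', T2', C, hg, hgm, hm, hMm, hg1b, hI, hg1c, hT1c, hT2c⟩ :=
    H27Z.AM.profile
  have hM : 0 < g 1 := by linarith
  have hk0 : 0 < k := by linarith
  have hgb : ∀ c, |g c| ≤ max C (g 1) := fun c =>
    le_max_of_le_right (abs_le.2 ⟨by linarith [(hgm c).1], (hgm c).2⟩)
  have hg1b' : ∀ c, |g1 c| ≤ max C (g 1) := fun c => le_max_of_le_left (hg1b c)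
  obtain ⟨π4, hπ4⟩ : ∃ π4 : Fin 4 → ℝ, π4 = fun _ => 1 := ⟨_, rfl⟩
  obtain ⟨π5, hπ5⟩ : ∃ π5 : Fin 5 → ℝ, π5 = ![0, 1, 1, 1, 1] := ⟨_, rfl⟩
  have p4 : ∀ i, π4 i = 0 ∨ π4 i = 1 := fun i => Or.inr (by rw [hπ4])
  have p5 : ∀ i, π5 i = 0 ∨ π5 i = 1 := fun i => by rw [hπ5]; fin_cases i <;> simp
  have w4 := H27Z.AM.weak (π := π4) (i0 := 0) (i := 1) (j := 2) p4 (by rw [hπ4])
    (by rw [hπ4]; simp) (by decide) (by rw [hπ4]) (by rw [hπ4]) (by decide) (by decide)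
    (by linarith) hk2 hg hgb hg1b' hI hg1c hT1c hT2c
  have w5 := H27Z.AM.weak (π := π5) (i0 := 1) (i := 2) (j := 3) p5 (by rw [hπ5]; rfl)
    (by rw [hπ5]; simp [Fin.sum_univ_succ]; norm_num) (by decide) (by rw [hπ5]; rfl)
    (by rw [hπ5]; rfl) (by decide) (by decide)
    (by linarith) hk2 hg hgb hg1b' hI hg1c hT1c hT2c
  have a4 := H27Z.AM.amvp (π := π4) (i0 := 0) (j := 1) p4 (by rw [hπ4]) (by rw [hπ4]) (by decide)
    hk0 hk2 hgm hm hM (H 4 (by norm_num) 3 (by norm_num) Set.univ isOpen_univ _ w4.1.contDiffOn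
      (fun φ h1 h2 _ => w4.2 φ (h1.of_le (by simp)) h2) 0 (Set.mem_univ _))
  have a5 := H27Z.AM.amvp (π := π5) (i0 := 1) (j := 2) p5 (by rw [hπ5]; rfl) (by rw [hπ5]; rfl)
    (by decide) hk0 hk2 hgm hm hM (H 5 (by norm_num) 3 (by norm_num) Set.univ isOpen_univ _
      w5.1.contDiffOn (fun φ h1 h2 _ => w5.2 φ (h1.of_le (by simp)) h2) 0 (Set.mem_univ _))
  have etl : ∀ x, H27Z.AM.uu π5 1 k g x = H27Z.AM.uu π4 0 k g (H27Z.AM.tl x) := by
    intro x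
    have : H27Z.AM.rr π5 x = H27Z.AM.rr π4 (H27Z.AM.tl x) := by
      unfold H27Z.AM.rr H27Z.PH.qf H27Z.AM.tl
      rw [hπ4, hπ5]
      simp [Fin.sum_univ_succ]
    unfold H27Z.AM.uu H27Z.AM.tt
    rw [this]
    rfl
  have s1 := H27Z.AM.slice w4.1.continuous (fun s hs y => H27Z.AM.uu_smul k g hs y)
  have s0 := H27Z.AM.slice (f := fun _ => 1) (κ := 0) continuous_const (fun s _ y => by simp)
  rw [H27Z.AM.I_zero] at s0
  have hI := H27Z.AM.I_gt hk0 hk2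
  simp only [etl] at a5
  rw [MeasureTheory.setAverage_eq, smul_eq_mul] at a4 a5
  rw [s1] at a5
  simp only [MeasureTheory.integral_const, MeasureTheory.measureReal_restrict_apply_univ,
    smul_eq_mul, mul_one] at s0
  rw [s0] at a5
  have hvol : 0 < (MeasureTheory.volume : MeasureTheory.Measure (H27Z.PH.Eu 4)).real
      (Metric.ball 0 1) :=
    ENNReal.toReal_pos (Metric.measure_ball_pos _ _ one_pos).ne' MeasureTheory.measure_ball_lt_top.ne
  generalize (MeasureTheory.volume : MeasureTheory.Measure (H27Z.PH.Eu 4)).real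
      (Metric.ball 0 1) = V at *
  generalize (∫ y in Metric.ball (0 : H27Z.PH.Eu 4) 1, H27Z.AM.uu π4 0 k g y) = J at *
  generalize (∫ s in (-1 : ℝ)..1, √(1 - s ^ 2) ^ 4 * √(1 - s ^ 2) ^ k) = I at *
  push_cast at a4 a5
  rw [mul_inv] at a5
  have b4 : V⁻¹ * J = -(g 1 + g 0) / 12 := by linarith
  have b5 : (16 / 15 : ℝ)⁻¹ * V⁻¹ * (I * J) = 15 / 16 * I * (V⁻¹ * J) := by ring
  rw [b5, b4] at a5
  nlinarith

end Pool.Agent.S06722
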