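import Pool.Statements.S06729
import Pool.Agent.H709Z.BLMain

set_option autoImplicit false
open scoped ComplexOrder
open Pool Pool.MP_f5ec7d_an

namespace Pool.Agent.S06729

/-- For every concave monotone f on [0,∞) with f(0)≥0 and all complex PSD matrices A,B there are unitaries U,V with 0 ≤ f(A+B) − U f(A) U* ≤ V f(B) V* in the Loewner order. -/
theorem result :
    ∀ (n : ℕ) (f : ℝ → ℝ), ConcaveOn ℝ (Set.Ici 0) f → MonotoneOn f (Set.Ici 0) → 0 ≤ f 0 →
      ∀ (A B : Matrix (Fin n) (Fin n) ℂ) (hA : A.PosSemidef) (hB : B.PosSemidef),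
        ∃ U ∈ Matrix.unitaryGroup (Fin n) ℂ, ∃ V ∈ Matrix.unitaryGroup (Fin n) ℂ,
          ((((hA.add hB).isHermitian.eigenvectorUnitary : Matrix (Fin n) (Fin n) ℂ) *
              Matrix.diagonal (fun i => ((f ((hA.add hB).isHermitian.eigenvalues i) : ℝ) : ℂ)) *
              star ((hA.add hB).isHermitian.eigenvectorUnitary : Matrix (Fin n) (Fin n) ℂ)) -
            U * ((hA.isHermitian.eigenvectorUnitary : Matrix (Fin n) (Fin n) ℂ) *
              Matrix.diagonal (fun i => ((f (hA.isHermitian.eigenvalues i) : ℝ) : ℂ)) *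
              star (hA.isHermitian.eigenvectorUnitary : Matrix (Fin n) (Fin n) ℂ)) * star U).PosSemidef ∧
          (V * ((hB.isHermitian.eigenvectorUnitary : Matrix (Fin n) (Fin n) ℂ) *
              Matrix.diagonal (fun i => ((f (hB.isHermitian.eigenvalues i) : ℝ) : ℂ)) *
              star (hB.isHermitian.eigenvectorUnitary : Matrix (Fin n) (Fin n) ℂ)) * star V -
            ((((hA.add hB).isHermitian.eigenvectorUnitary : Matrix (Fin n) (Fin n) ℂ) *
              Matrix.diagonal (fun i => ((f ((hA.add hB).isHermitian.eigenvalues i) : ℝ) : ℂ)) *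
              star ((hA.add hB).isHermitian.eigenvectorUnitary : Matrix (Fin n) (Fin n) ℂ)) -
            U * ((hA.isHermitian.eigenvectorUnitary : Matrix (Fin n) (Fin n) ℂ) *
              Matrix.diagonal (fun i => ((f (hA.isHermitian.eigenvalues i) : ℝ) : ℂ)) *
              star (hA.isHermitian.eigenvectorUnitary : Matrix (Fin n) (Fin n) ℂ)) * star U)).PosSemidef := by
  intro n f hc hm h0 A B hA hB
  have sp : ∀ {M : Matrix (Fin n) (Fin n) ℂ} (h : M.IsHermitian),
      Pool.Agent.H709Z.BL.Cj h.eigenvectorUnitary h.eigenvalues = M := by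
    intro M h
    conv_rhs => rw [h.spectral_theorem]
    rfl
  have un : ∀ {M : Matrix (Fin n) (Fin n) ℂ} (h : M.IsHermitian),
      Pool.Agent.H709Z.BL.IsU (h.eigenvectorUnitary : Matrix (Fin n) (Fin n) ℂ) :=
    fun h => Matrix.mem_unitaryGroup_iff'.1 h.eigenvectorUnitary.2
  obtain ⟨U, V, hU, hV, e1, e2⟩ := Pool.Agent.H709Z.BL.main hc hm h0
    (un (hA.add hB).isHermitian) (un hA.isHermitian) (un hB.isHermitian)
    (hA.add hB).eigenvalues_nonneg hA.eigenvalues_nonneg hB.eigenvalues_nonneg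
    (by rw [sp, sp, sp])
  exact ⟨U, hU.mem, V, hV.mem, e1, e2⟩

end Pool.Agent.S06729
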