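import Pool.Statements.S06742
import Pool.Agent.H454Z.TTO2

set_option autoImplicit false
open Pool Pool.MP_f70052_an

namespace Pool.Agent.S06742

/-- The negation of the preceding statement: For every complex n×n matrix A, A ⊕ Aᵀ is unitarily equivalent to a direct sum of truncated Toeplitz operators with continuous symbols on model spaces of finite Blaschke products, written in the basis z^j/∏(1−conj(a)z). -/
theorem result :
    ¬ (∀ (n : ℕ) (A : Matrix (Fin n) (Fin n) ℂ),
    ∃ (r : ℕ) (m : Fin r → ℕ) (a : (i : Fin r) → Fin (m i) → ℂ) (φ : Fin r → ℝ → ℂ)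
      (S : Matrix (Fin n ⊕ Fin n) (Σ i : Fin r, Fin (m i)) ℂ),
      ∑ i, m i = 2 * n ∧
      (∀ i j, ‖a i j‖ < 1) ∧
      (∀ i, Continuous (φ i)) ∧
      Matrix.conjTranspose S * S = Matrix.blockDiagonal' (fun i => Matrix.of (fun (j k : Fin (m i)) =>
          ∫ t in (0:ℝ)..(2 * Real.pi),
            Complex.exp ((((k : ℕ) : ℂ) - ((j : ℕ) : ℂ)) * (t : ℂ) * Complex.I) /
              ((Complex.normSq (∏ l : Fin (m i),
                  (1 - starRingEnd ℂ (a i l) * Complex.exp ((t : ℂ) * Complex.I))) : ℝ) : ℂ))) ∧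
      Matrix.conjTranspose S * Matrix.fromBlocks A 0 0 (Matrix.transpose A) * S =
        Matrix.blockDiagonal' (fun i => Matrix.of (fun (j k : Fin (m i)) =>
          ∫ t in (0:ℝ)..(2 * Real.pi),
            φ i t * Complex.exp ((((k : ℕ) : ℂ) - ((j : ℕ) : ℂ)) * (t : ℂ) * Complex.I) /
              ((Complex.normSq (∏ l : Fin (m i),
                  (1 - starRingEnd ℂ (a i l) * Complex.exp ((t : ℂ) * Complex.I))) : ℝ) : ℂ)))) := by
  intro H
  obtain ⟨A, hA⟩ := Pool.Agent.H454Z.TTO.exists_bad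
  obtain ⟨r, m, a, φ, S, hm, ha, -, hG, hT⟩ := H _ A
  refine hA r m hm S ?_ ?_ ?_
  · rw [hG]
    refine ⟨fun i z => ∫ t in (0:ℝ)..(2 * Real.pi),
      Complex.exp ((z : ℂ) * (t : ℂ) * Complex.I) /
        ((Complex.normSq (∏ l : Fin (m i),
          (1 - starRingEnd ℂ (a i l) * Complex.exp ((t : ℂ) * Complex.I))) : ℝ) : ℂ), ?_⟩
    congr 1
    funext i
    ext j k
    simp
  · rw [hG]
    apply Pool.Agent.H454Z.TTO.isUnit_blockDiagonal'
    intro i
    apply Pool.Agent.H454Z.TTO.gram_isUnit (m i) (fun t : ℝ => Complex.normSq (∏ l : Fin (m i),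
          (1 - starRingEnd ℂ (a i l) * Complex.exp ((t : ℂ) * Complex.I))))
    · apply Complex.continuous_normSq.comp
      fun_prop
    · intro t
      rw [Complex.normSq_pos, Finset.prod_ne_zero_iff]
      intro l _ h0
      have h1 : starRingEnd ℂ (a i l) * Complex.exp ((t : ℂ) * Complex.I) = 1 :=
        (sub_eq_zero.mp h0).symm
      have h2 := congrArg norm h1
      rw [norm_mul, Complex.norm_exp_ofReal_mul_I, mul_one, Complex.norm_conj, norm_one] at h2
      linarith [ha i l]
  · rw [hT]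
    refine ⟨fun i z => ∫ t in (0:ℝ)..(2 * Real.pi),
      φ i t * Complex.exp ((z : ℂ) * (t : ℂ) * Complex.I) /
        ((Complex.normSq (∏ l : Fin (m i),
          (1 - starRingEnd ℂ (a i l) * Complex.exp ((t : ℂ) * Complex.I))) : ℝ) : ℂ), ?_⟩
    congr 1
    funext i
    ext j k
    simp


end Pool.Agent.S06742
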