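import Pool.Statements.S06750
import Pool.Agent.H566Z.DecFinal

set_option autoImplicit false
open Pool Pool.MP_f7b107_an

namespace Pool.Agent.S06750

/-- The negation of the preceding statement: Every real Banach space satisfying ‖x+y‖²+‖x−y‖² ≤ 2‖x‖²+2D²‖y‖² has a constant C ≥ 0 such that, for every predictable Rademacher sum, E‖Σ r_j f_j(r_1..r_{j-1})‖² ≤ C² E‖Σ r̃_j f_j(r_1..r_{j-1})‖² with r̃ an independent copy. -/
theorem result :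
    ¬ (∀ (X : Type) [NormedAddCommGroup X] [NormedSpace ℝ X] [CompleteSpace X],
      (∃ D : ℝ, ∀ x y : X, ‖x + y‖ ^ 2 + ‖x - y‖ ^ 2 ≤ 2 * ‖x‖ ^ 2 + 2 * D ^ 2 * ‖y‖ ^ 2) →
      ∃ C : ℝ, 0 ≤ C ∧
        ∀ (n : ℕ) (f : (j : Fin n) → (Fin (j : ℕ) → Bool) → X),
          (1 / 2 ^ n : ℝ) * ∑ ε : Fin n → Bool,
              ‖∑ j : Fin n, (if ε j then (1 : ℝ) else -1) •
                  f j (fun i => ε (Fin.castLE j.isLt.le i))‖ ^ 2
            ≤ C ^ 2 * ((1 / 4 ^ n : ℝ) * ∑ ε : Fin n → Bool, ∑ δ : Fin n → Bool,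
              ‖∑ j : Fin n, (if δ j then (1 : ℝ) else -1) •
                  f j (fun i => ε (Fin.castLE j.isLt.le i))‖ ^ 2)) := by
  intro h
  have hs : ∃ D : ℝ, ∀ x y : H566Z.Dec.Big,
      ‖x + y‖ ^ 2 + ‖x - y‖ ^ 2 ≤ 2 * ‖x‖ ^ 2 + 2 * D ^ 2 * ‖y‖ ^ 2 := by
    refine ⟨2, fun x y => ?_⟩
    have := H566Z.Dec.big_smooth x y
    nlinarith [sq_nonneg ‖y‖]
  obtain ⟨C, -, hC⟩ := h H566Z.Dec.Big hs
  obtain ⟨n, hn⟩ := exists_nat_gt (75 * C ^ 2)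
  have hn0 : 0 < n := by
    have : (0 : ℝ) < n := lt_of_le_of_lt (by positivity) hn
    exact_mod_cast this
  have := H566Z.Dec.bound_of_good hn0 (H566Z.Dec.good_XS n)
    (lp.lsingle (𝕜 := ℝ) (E := fun m => (H566Z.Dec.XS m).T) 2 n)
    (fun y => lp.norm_single (E := fun m => (H566Z.Dec.XS m).T) (by norm_num) n y) C hC
  linarith

end Pool.Agent.S06750
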