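import Pool.Statements.S06826
import Pool.Agent.H564Z.MonoCurve

set_option autoImplicit false
open scoped Pointwise
open Pool Pool.MP_fd6009_an

namespace Pool.Agent.S06826

/-- The negation of the preceding statement: In every real Banach space, if A and B are maximally monotone, A is of type (FPV), and dom A meets the interior of dom B, then the pointwise sum A+B is maximally monotone. -/
theorem result :
    ¬ (∀ (X : Type) [NormedAddCommGroup X] [NormedSpace ℝ X] [CompleteSpace X]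
    (A B : X → Set (X →L[ℝ] ℝ)),
    (∀ (x y : X) (a b : X →L[ℝ] ℝ), a ∈ A x → b ∈ A y → 0 ≤ (a - b) (x - y)) →
    (∀ (x : X) (a : X →L[ℝ] ℝ),
        (∀ (y : X) (b : X →L[ℝ] ℝ), b ∈ A y → 0 ≤ (a - b) (x - y)) → a ∈ A x) →
    (∀ (x y : X) (a b : X →L[ℝ] ℝ), a ∈ B x → b ∈ B y → 0 ≤ (a - b) (x - y)) →
    (∀ (x : X) (a : X →L[ℝ] ℝ),
        (∀ (y : X) (b : X →L[ℝ] ℝ), b ∈ B y → 0 ≤ (a - b) (x - y)) → a ∈ B x) →
    ({x : X | (A x).Nonempty} ∩ interior {x : X | (B x).Nonempty}).Nonempty →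
    (∀ U : Set X, IsOpen U → Convex ℝ U → (U ∩ {x : X | (A x).Nonempty}).Nonempty →
      ∀ x ∈ U, ∀ a : X →L[ℝ] ℝ,
        (∀ y ∈ U, ∀ b ∈ A y, 0 ≤ (a - b) (x - y)) → a ∈ A x) →
    ((∀ (x y : X) (a b : X →L[ℝ] ℝ), a ∈ A x + B x → b ∈ A y + B y →
        0 ≤ (a - b) (x - y)) ∧
     (∀ (x : X) (a : X →L[ℝ] ℝ),
        (∀ (y : X) (b : X →L[ℝ] ℝ), b ∈ A y + B y → 0 ≤ (a - b) (x - y)) →
          a ∈ A x + B x))) := by
  intro H
  obtain ⟨M, hmono, hfpv, ⟨p0, hp0, hp0'⟩, hne, hrel⟩ := Pool.Agent.H564Z.Mono.main_fpv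
  have hB := (H Pool.Agent.H564Z.Mono.X0 (fun x => {a | (x, a) ∈ M})
    (fun x => {a | (x, a) ∈ Pool.Agent.H564Z.Mono.halfN})
    (fun x y a b ha hb => hmono (x, a) ha (y, b) hb)
    (fun x a h => hfpv Set.univ isOpen_univ (x, a) (Set.mem_univ _) fun q hq _ => h q.1 q.2 hq)
    (fun x y a b ha hb => Pool.Agent.H564Z.Mono.halfN_mono (x, a) ha (y, b) hb)
    (fun x a h => Pool.Agent.H564Z.Mono.halfN_max (x, a) fun q hq => h q.1 q.2 hq)
    ⟨p0.1, ⟨p0.2, hp0⟩, by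
      have hopen : IsOpen {x : Pool.Agent.H564Z.Mono.X0 | x.1 < 0} :=
        isOpen_lt continuous_fst continuous_const
      refine interior_maximal (t := {x : Pool.Agent.H564Z.Mono.X0 | x.1 < 0}) ?_ hopen ?_
      · intro x hx
        exact ⟨Pool.Agent.H564Z.Mono.mk 0 0, 0, rfl, le_rfl, le_of_lt hx, zero_mul _⟩
      · change p0.1.1 < 0
        rw [hp0']; norm_num⟩
    (fun U hU _ _ x hx a h => hfpv U hU (x, a) hx fun q hq hqU => h q.1 hqU q.2 hq)).2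
    (1, 0) (Pool.Agent.H564Z.Mono.mk 1 0) (by
      rintro y b ⟨a, ha, c, ⟨τ, h1, h2, h3, h4⟩, rfl⟩
      have h5 : y.1 ≠ 0 := hne (y, a) ha
      have h6 : τ = 0 := (mul_eq_zero.mp h4).resolve_right h5
      have h7 : c = 0 := by
        have h1' : c = Pool.Agent.H564Z.Mono.mk τ 0 := h1
        rw [h1', h6]
        ext v <;> simp
      have h8 := hrel (y, a) ha (lt_of_le_of_ne h3 h5)
      simpa [h7] using h8)
  obtain ⟨a, -, c, ⟨τ, -, -, h3, -⟩, -⟩ := hB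
  norm_num at h3

end Pool.Agent.S06826
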