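import Pool.Statements.S06843
import Pool.Agent.H922Z.NU.Main

set_option autoImplicit false
open Pool Pool.MP_fedc70_an

namespace Pool.Agent.S06843

/-- For a bounded smooth strictly pseudoconvex domain in C^n, n≥2: if a closed boundary set E is the exact zero set in the closure of a nonzero A^∞ function flat on E, then every closed subset of E is also such a zero set. -/
theorem result :
  ∀ n : ℕ, 2 ≤ n → ∀ D : Set (EuclideanSpace ℂ (Fin n)),
    IsOpen D → IsConnected D → Bornology.IsBounded D →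
    (∃ ρ : EuclideanSpace ℂ (Fin n) → ℝ, ContDiff ℝ ((⊤ : ℕ∞) : WithTop ℕ∞) ρ ∧
      D = {z | ρ z < 0} ∧
      (∀ z, ρ z = 0 → fderiv ℝ ρ z ≠ 0) ∧
      (∀ z, ρ z = 0 → ∀ w : EuclideanSpace ℂ (Fin n), w ≠ 0 →
        fderiv ℝ ρ z w = 0 → fderiv ℝ ρ z (Complex.I • w) = 0 →
        0 < iteratedFDeriv ℝ 2 ρ z ![w, w] +
              iteratedFDeriv ℝ 2 ρ z ![Complex.I • w, Complex.I • w])) →
    ∀ E : Set (EuclideanSpace ℂ (Fin n)), E ⊆ frontier D → IsClosed E →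
    (∃ f : EuclideanSpace ℂ (Fin n) → ℂ, DifferentiableOn ℂ f D ∧
      ContinuousOn f (closure D) ∧
      (∀ k : ℕ, ∃ g : EuclideanSpace ℂ (Fin n) →
          ContinuousMultilinearMap ℝ (fun _ : Fin k => EuclideanSpace ℂ (Fin n)) ℂ,
        ContinuousOn g (closure D) ∧ (∀ z ∈ D, iteratedFDeriv ℝ k f z = g z) ∧
        (∀ z ∈ E, g z = 0)) ∧
      (∃ z ∈ D, f z ≠ 0) ∧
      {z | z ∈ closure D ∧ f z = 0} = E) →
    ∀ F : Set (EuclideanSpace ℂ (Fin n)), F ⊆ E → IsClosed F →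
    (∃ f : EuclideanSpace ℂ (Fin n) → ℂ, DifferentiableOn ℂ f D ∧
      ContinuousOn f (closure D) ∧
      (∀ k : ℕ, ∃ g : EuclideanSpace ℂ (Fin n) →
          ContinuousMultilinearMap ℝ (fun _ : Fin k => EuclideanSpace ℂ (Fin n)) ℂ,
        ContinuousOn g (closure D) ∧ (∀ z ∈ D, iteratedFDeriv ℝ k f z = g z) ∧
        (∀ z ∈ F, g z = 0)) ∧
      (∃ z ∈ D, f z ≠ 0) ∧
      {z | z ∈ closure D ∧ f z = 0} = F) :=
  Pool.Agent.H922Z.NU.final

end Pool.Agent.S06843
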