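import Pool.Statements.S06872
import Pool.Agent.H820Z.TightMain

set_option autoImplicit false
open Pool Pool.MP_00c8a8_co

namespace Pool.Agent.S06872

/-- The negation of the preceding statement: For 2 ≤ k ≤ n, every k-uniform hypergraph on n vertices in which each (k−1)-set lies in at least n/k edges has a tight component (edges linked via sharing k−1 vertices) whose edges cover every vertex. -/
theorem result :
    ¬ (∀ (k n : ℕ), 2 ≤ k → k ≤ n →
      ∀ H : Finset (Finset (Fin n)),
        (∀ e ∈ H, e.card = k) →
        (∀ S : Finset (Fin n), S.card = k - 1 →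
          n ≤ k * (H.filter (fun e => S ⊆ e)).card) →
        ∃ e ∈ H, ∀ v : Fin n, ∃ f ∈ H,
          Relation.ReflTransGen
            (fun a b : Finset (Fin n) => a ∈ H ∧ b ∈ H ∧ k - 1 ≤ (a ∩ b).card) e f
          ∧ v ∈ f) :=
  Pool.Agent.H820Z.Tight.no_spanning

end Pool.Agent.S06872
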