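import Pool.Statements.S06890
import Pool.Agent.H401Z.Vis.Alg

set_option autoImplicit false
open Classical
open Pool Pool.MP_019aa5_co

namespace Pool.Agent.S06890

/-- The negation of the preceding statement: For any field, any convexly realized (d−1)-dim complex in R^(d−1), any generic point x, and any linear system of parameters, the monomials of the visible-vertex sets G_F of the facets form a k-basis of the face ring modulo the parameters. -/
theorem result :
    ¬ (∀ (k : Type) [Field k] (n d : ℕ) (Δ : Finset (Finset (Fin n)))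
      (p : Fin n → EuclideanSpace ℝ (Fin (d - 1))) (x : EuclideanSpace ℝ (Fin (d - 1)))
      (θ : Fin d → MvPolynomial (Fin n) k) (J : Ideal (MvPolynomial (Fin n) k))
      (f : {F : Finset (Fin n) // F ∈ Δ ∧ F.card = d} → MvPolynomial (Fin n) k ⧸ J),
      1 ≤ d →
      (∀ S ∈ Δ, ∀ T : Finset (Fin n), T ⊆ S → T ∈ Δ) →
      (∀ i : Fin n, ({i} : Finset (Fin n)) ∈ Δ) →
      (∀ S ∈ Δ, S.card ≤ d) →
      (∃ S ∈ Δ, S.card = d) →
      (∀ S ∈ Δ, AffineIndependent ℝ (fun i : (S : Set (Fin n)) => p i)) →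
      (∀ S ∈ Δ, ∀ T ∈ Δ,
        convexHull ℝ (p '' (S : Set (Fin n))) ∩ convexHull ℝ (p '' (T : Set (Fin n))) =
          convexHull ℝ (p '' ((S ∩ T : Finset (Fin n)) : Set (Fin n)))) →
      Convex ℝ (⋃ S ∈ Δ, convexHull ℝ (p '' (S : Set (Fin n)))) →
      x ∈ (⋃ S ∈ Δ, convexHull ℝ (p '' (S : Set (Fin n)))) →
      (∀ H ∈ Δ, H.card + 1 = d → x ∉ affineSpan ℝ (p '' (H : Set (Fin n)))) →
      (∀ i, (θ i).IsHomogeneous 1) →
      J = Ideal.span ((fun S : Finset (Fin n) => ∏ i ∈ S, (MvPolynomial.X i : MvPolynomial (Fin n) k)) ''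
              {S : Finset (Fin n) | S ∉ Δ}) ⊔ Ideal.span (Set.range θ) →
      Module.Finite k (MvPolynomial (Fin n) k ⧸ J) →
      (∀ F, f F = Ideal.Quotient.mk J
          (∏ v ∈ F.1.filter (fun v =>
              (affineSpan ℝ (p '' ((F.1.erase v : Finset (Fin n)) : Set (Fin n)))).SOppSide x (p v)),
            (MvPolynomial.X v : MvPolynomial (Fin n) k))) →
      LinearIndependent k f ∧ Submodule.span k (Set.range f) = ⊤) := by
  intro h
  open Pool.Agent.H401Z.Vis in
  refine not_span _ ?_ (h ℚ 6 3 Del pt x0 th JJ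
    (fun F => Ideal.Quotient.mk JJ
          (∏ v ∈ F.1.filter (fun v =>
              (affineSpan ℝ (pt '' ((F.1.erase v : Finset (Fin 6)) : Set (Fin 6)))).SOppSide x0 (pt v)),
            (MvPolynomial.X v : MvPolynomial (Fin 6) ℚ)))
    (by norm_num)
    (fun S hS T hT => mem_Del.2 ((mem_Del.1 hS).mono hT))
    (fun i => mem_Del.2 (face_single i))
    (fun S hS => face_card S (mem_Del.1 hS))
    ⟨{0, 1, 2}, mem_Del.2 (by decide), by decide⟩
    (fun S hS => aff_indep (mem_Del.1 hS))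
    (fun S hS T hT => hull_inter (mem_Del.1 hS) (mem_Del.1 hT))
    union_convex x0_mem
    (fun H hH hc => x0_generic (mem_Del.1 hH) hc)
    th_hom rfl fin_quot (fun F => rfl)).2
  intro F
  exact ⟨_, rfl, Pool.Agent.H401Z.Vis.coeff_vis F.1 _ (Pool.Agent.H401Z.Vis.mem_Del.1 F.2.1) F.2.2
    (Finset.filter_subset _ _) (fun v hv => (Finset.mem_filter.1 hv).2)⟩

end Pool.Agent.S06890
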