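import Pool.Statements.S06936
-- import your own Pool.Agent.* helpers here

set_option autoImplicit false
open Pool Pool.MP_038631_co

namespace Pool.Agent.S06936

/-- two disjoint copies of the complete graph on 13 vertices -/
def twoK : SimpleGraph (Bool × Fin 13) where
  Adj a b := a.1 = b.1 ∧ a.2 ≠ b.2
  symm := ⟨fun _ _ h => ⟨h.1.symm, h.2.symm⟩⟩
  loopless := ⟨fun _ h => h.2 rfl⟩

instance : DecidableRel twoK.Adj := fun a b =>
  inferInstanceAs (Decidable (a.1 = b.1 ∧ a.2 ≠ b.2))

lemma deg (v : Bool × Fin 13) : twoK.degree v = 12 := by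
  revert v
  decide

lemma side {a b : Bool × Fin 13} (p : twoK.Walk a b) : ∀ x ∈ p.support, x.1 = a.1 := by
  induction p with
  | nil => intro x hx; simp at hx; rw [hx]
  | cons h p ih =>
    intro x hx
    rw [SimpleGraph.Walk.support_cons, List.mem_cons] at hx
    rcases hx with hx | hx
    · rw [hx]
    · rw [ih x hx]; exact h.1.symm

lemma two_cycles {a b : Bool × Fin 13} (hab : a.1 = b.1) (p : twoK.Walk a a) (q : twoK.Walk b b)
    (hp : p.IsCycle) (hq : q.IsCycle) (lp : 7 ≤ p.length) (lq : 7 ≤ q.length)
    (hd : List.Disjoint p.support q.support) : False := by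
  have n1 : p.support.tail.Nodup := hp.support_nodup
  have n2 : q.support.tail.Nodup := hq.support_nodup
  have hd' : List.Disjoint p.support.tail q.support.tail := fun x h1 h2 =>
    hd (List.mem_of_mem_tail h1) (List.mem_of_mem_tail h2)
  have n3 : (p.support.tail ++ q.support.tail).Nodup := List.Nodup.append n1 n2 hd'
  have hs : ∀ x ∈ p.support.tail ++ q.support.tail, x.1 = a.1 := by
    intro x hx
    rcases List.mem_append.mp hx with h | h
    · exact side p x (List.mem_of_mem_tail h)
    · rw [side q x (List.mem_of_mem_tail h), hab]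
  have n4 : ((p.support.tail ++ q.support.tail).map Prod.snd).Nodup := by
    refine List.Nodup.map_on ?_ n3
    intro x hx y hy hxy
    exact Prod.ext ((hs x hx).trans (hs y hy).symm) hxy
  have h5 := n4.length_le_card
  simp [SimpleGraph.Walk.length_support] at h5
  omega

/-- The negation of the preceding statement: For all k ≥ 2 and odd r ≥ 3, every finite simple graph with at least rk vertices and minimum degree at least (r+1)k/2 contains k pairwise vertex-disjoint cycles, each of length at least r. -/
theorem result :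
    ¬ (∀ k r : ℕ, 2 ≤ k → 3 ≤ r → Odd r →
      ∀ (V : Type) [Fintype V] (G : SimpleGraph V) [DecidableRel G.Adj],
        r * k ≤ Fintype.card V →
        (∀ v : V, (r + 1) * k ≤ 2 * G.degree v) →
        ∃ (u : Fin k → V) (c : ∀ i : Fin k, G.Walk (u i) (u i)),
          (∀ i : Fin k, (c i).IsCycle ∧ r ≤ (c i).length) ∧
          ∀ i j : Fin k, i ≠ j → List.Disjoint (c i).support (c j).support) := by
  intro h
  obtain ⟨u, c, hc, hd⟩ := h 3 7 (by norm_num) (by norm_num) (by decide) (Bool × Fin 13) twoK
    (by simp) (fun v => by rw [deg v])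
  obtain ⟨i, j, hij, he⟩ := Fintype.exists_ne_map_eq_of_card_lt (fun i : Fin 3 => (u i).1)
    (by simp)
  exact two_cycles he (c i) (c j) (hc i).1 (hc j).1 (hc i).2 (hc j).2 (hd i j hij)

end Pool.Agent.S06936
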