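import Pool.Statements.S07056

set_option autoImplicit false
open Pool Pool.MP_0959cd_co

namespace Pool.Agent.S07056

/-- weights (in units of 1/20) on nine vertices: root 0, children 1..4, leaves 5..8 -/
def w0 (a b : ℕ) : ℕ :=
  if a = 0 then (if 1 ≤ b ∧ b ≤ 4 then 5 else 0)
  else if a ≤ 4 then (if b = 0 then 14 else if b = a + 4 then 6 else 0)
  else (if b = 0 then 8 else if b + 4 = a then 12 else 0)

/-- the gadget on 0..8, its reverse on 9..17, and a matching from the second to the first -/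
def w (u v : Fin 18) : ℕ :=
  if u.val < 9 then (if v.val < 9 then w0 u.val v.val else 0)
  else if v.val < 9 then (if u.val = v.val + 9 then 20 else 0) else w0 (v.val - 9) (u.val - 9)

def side (u : Fin 18) : ℕ := if u.val < 9 then 1 else 0

theorem l1 : ∀ u v : Fin 18, w u v ≠ 0 → side u ≤ side v := by decide +kernel
def rt (u : Fin 18) : ℕ := if u = 0 ∨ u = 9 then 1 else 0
theorem l2' : ∀ a b : Fin 18, w a b ≠ 0 → side a = side b → rt a + rt b = 0 →
    ∀ c : Fin 18, w b c ≠ 0 → side b = side c → rt c = 0 → a = c := by decide +kernel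
theorem l2 : ∀ a b : Fin 18, w a b ≠ 0 → side a = side b → a ≠ 0 → a ≠ 9 → b ≠ 0 → b ≠ 9 →
    ∀ c : Fin 18, w b c ≠ 0 → side b = side c → c ≠ 0 → c ≠ 9 → a = c := by
  intro a b h1 h2 a0 a9 b0 b9 c h3 h4 c0 c9
  exact l2' a b h1 h2 (by simp [rt, a0, a9, b0, b9]) c h3 h4 (by simp [rt, c0, c9])
theorem l3 : ∀ a b : Fin 18, w a b ≠ 0 → w b a ≠ 0 → w a b + w b a < 20 := by decide +kernel
theorem l4 : ∀ a b : Fin 18, w a b ≠ 0 → ∀ c : Fin 18, w b c ≠ 0 → w c a ≠ 0 →
    w a b + w b c + w c a < 20 := by decide +kernel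
theorem l5 : ∀ u : Fin 18, w u u = 0 ∧ 20 ≤ ∑ v, w u v ∧ 20 ≤ ∑ v, w v u ∧ ∀ v, w u v ≤ 20 := by
  decide +kernel
theorem l6 : ∀ a b : Fin 18, side a = side b → (a = 0 ∨ a = 9) → (b = 0 ∨ b = 9) → a = b := by
  decide +kernel

theorem cyc (k : ℕ) (c : Fin (k + 2) → Fin 18) (hc : Function.Injective c)
    (ha : ∀ i, w (c i) (c (i + 1)) ≠ 0) : ∑ i, w (c i) (c (i + 1)) < 20 := by
  have hs : ∀ i, side (c i) = side (c (i + 1)) := by
    have h1 : ∑ i, side (c i) = ∑ i, side (c (i + 1)) :=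
      (Equiv.sum_comp (Equiv.addRight (1 : Fin (k + 2))) (fun i => side (c i))).symm
    have := (Finset.sum_eq_sum_iff_of_le (fun i _ => l1 _ _ (ha i))).1 h1
    exact fun i => this i (Finset.mem_univ i)
  match k, c, hc, ha, hs with
  | 0, c, _, ha, _ =>
    rw [Fin.sum_univ_two]
    exact l3 _ _ (ha 0) (ha 1)
  | 1, c, _, ha, _ =>
    rw [Fin.sum_univ_three]
    exact l4 _ _ (ha 0) _ (ha 1) (ha 2)
  | k + 2, c, hc, ha, hs =>
    exfalso
    have n1 : (1 : Fin (k + 2 + 2)) ≠ 0 := by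
      intro h; have := congrArg Fin.val h; simp at this
    have n2 : (1 + 1 : Fin (k + 2 + 2)) ≠ 0 := by
      intro h; have := congrArg Fin.val h
      rw [Fin.val_add, Fin.val_one, Nat.mod_eq_of_lt (by omega)] at this; simp at this
    have n3 : (1 + 1 + 1 : Fin (k + 2 + 2)) ≠ 0 := by
      intro h; have := congrArg Fin.val h
      rw [Fin.val_add, Fin.val_add, Fin.val_one, Nat.mod_eq_of_lt (a := 1 + 1) (by omega),
        Nat.mod_eq_of_lt (by omega)] at this
      simp at this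
    have key : ∀ j, (¬ (c (j + 1) = 0 ∨ c (j + 1) = 9)) → (¬ (c (j + 1 + 1) = 0 ∨ c (j + 1 + 1) = 9)) →
        (¬ (c (j + 1 + 1 + 1) = 0 ∨ c (j + 1 + 1 + 1) = 9)) → False := by
      intro j h1 h2 h3
      push Not at h1 h2 h3
      have := hc (l2 _ _ (ha _) (hs _) h1.1 h1.2 h2.1 h2.2 _ (ha _) (hs _) h3.1 h3.2)
      rw [add_assoc (j + 1), left_eq_add] at this
      exact n2 this
    by_cases h : ∃ j, c j = 0 ∨ c j = 9
    · obtain ⟨j, hj⟩ := h
      refine key j (fun h => ?_) (fun h => ?_) (fun h => ?_)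
      · have := hc (l6 _ _ (hs j) hj h)
        rw [left_eq_add] at this
        exact n1 this
      · have := hc (l6 _ _ ((hs j).trans (hs _)) hj h)
        rw [add_assoc j, left_eq_add] at this
        exact n2 this
      · have := hc (l6 _ _ (((hs j).trans (hs _)).trans (hs _)) hj h)
        rw [add_assoc j, add_assoc j, left_eq_add] at this
        exact n3 this
    · exact key 0 (fun h' => h ⟨_, h'⟩) (fun h' => h ⟨_, h'⟩) (fun h' => h ⟨_, h'⟩)

/-- The negation of the preceding statement: In every finite nonempty loopless digraph with arc weights in [0,1] where each vertex has total out-weight at least 1 and total in-weight at least 1, some directed cycle has total weight at least 1. -/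
theorem result :
    ¬ (∀ (V : Type) [Fintype V] [Nonempty V] (G : Digraph V) (p : V → V → ℝ),
      (∀ v, ¬ G.Adj v v) →
      (∀ u v, 0 ≤ p u v ∧ p u v ≤ 1) →
      (∀ u v, ¬ G.Adj u v → p u v = 0) →
      (∀ u, 1 ≤ ∑ v, p u v) →
      (∀ u, 1 ≤ ∑ v, p v u) →
      ∃ (k : ℕ) (c : Fin (k + 2) → V),
        Function.Injective c ∧
        (∀ i, G.Adj (c i) (c (i + 1))) ∧
        1 ≤ ∑ i, p (c i) (c (i + 1))) := by
  intro H
  obtain ⟨k, c, hc, ha, hsum⟩ := H (Fin 18) ⟨fun u v => w u v ≠ 0⟩ (fun u v => (w u v : ℝ) / 20)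
    (fun v h => h (l5 v).1)
    (fun u v => ⟨by positivity, by
      rw [div_le_one (by norm_num)]; exact_mod_cast (l5 u).2.2.2 v⟩)
    (fun u v h => by
      have : w u v = 0 := not_not.1 h
      simp [this])
    (fun u => by
      rw [← Finset.sum_div, le_div_iff₀ (by norm_num), one_mul]; exact_mod_cast (l5 u).2.1)
    (fun u => by
      rw [← Finset.sum_div, le_div_iff₀ (by norm_num), one_mul]; exact_mod_cast (l5 u).2.2.1)
  rw [← Finset.sum_div, le_div_iff₀ (by norm_num), one_mul] at hsum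
  have h1 : (20 : ℕ) ≤ ∑ i, w (c i) (c (i + 1)) := by exact_mod_cast hsum
  exact absurd (cyc k c hc ha) (not_lt.2 h1)

end Pool.Agent.S07056
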