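import Pool.Statements.S07058
import Pool.Agent.H24Z.Internal

set_option autoImplicit false
open Pool Pool.MP_095a77_co

namespace Pool.Agent.S07058

/-- The negation of the preceding statement: For every integer δ≥1 there are d and n0 so that every d-regular graph on more than n0 vertices splits into two nonempty parts where each vertex has at least d/2+δ neighbours in its own part. -/
theorem result :
    ¬ (∀ δ : ℕ, 1 ≤ δ → ∃ d n₀ : ℕ, ∀ (V : Type) [Fintype V] [DecidableEq V]
      (G : SimpleGraph V) [DecidableRel G.Adj],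
      G.IsRegularOfDegree d → n₀ < Fintype.card V →
      ∃ A : Finset V, A.Nonempty ∧ Aᶜ.Nonempty ∧
        (∀ v ∈ A, (d : ℝ) / 2 + (δ : ℝ) ≤ ((G.neighborFinset v ∩ A).card : ℝ)) ∧
        (∀ v ∈ Aᶜ, (d : ℝ) / 2 + (δ : ℝ) ≤ ((G.neighborFinset v ∩ Aᶜ).card : ℝ))) := by
  intro h
  obtain ⟨d, n₀, h⟩ := h 1 le_rfl
  have hN : d < d + n₀ + 1 := by omega
  obtain ⟨A, h1, h2, hA, hB⟩ := h (Fin (2 * (d + n₀ + 1))) (Pool.Agent.H24Z.Internal.G d _ hN)
    (Pool.Agent.H24Z.Internal.regular d _ hN) (by rw [Fintype.card_fin]; omega)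
  refine Pool.Agent.H24Z.Internal.main d _ hN A h1 h2 (fun v hv => ?_) (fun v hv => ?_)
  · have h3 := hA v hv
    have h4 : (d : ℝ) + 2 ≤ 2 *
        (((Pool.Agent.H24Z.Internal.G d _ hN).neighborFinset v ∩ A).card : ℝ) := by
      push_cast at h3
      linarith
    exact_mod_cast h4
  · have h3 := hB v hv
    have h4 : (d : ℝ) + 2 ≤ 2 *
        (((Pool.Agent.H24Z.Internal.G d _ hN).neighborFinset v ∩ Aᶜ).card : ℝ) := by
      push_cast at h3
      linarith
    exact_mod_cast h4

end Pool.Agent.S07058
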