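import Pool.Statements.S07062
import Pool.Agent.H790Z.PT.Sudoku
import Pool.Agent.H790Z.PT.Encode
import Pool.Agent.H790Z.PT.Concat
import Pool.Agent.H790Z.PT.Lift
import Pool.Agent.H790Z.PT.TreeMain
import Pool.Agent.H790Z.PT.Ball
import Pool.Agent.H790Z.PT.Real

set_option autoImplicit false
open MeasureTheory
open Pool Pool.MP_0960bd_co

namespace Pool.Agent.S07062

/-- The negation of the preceding statement: For every dimension d and every set T in R^d homeomorphic to the closed unit ball: if T tiles R^d by translations (almost every point is covered exactly once), then it has such a tiling invariant under d linearly independent translations. -/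
theorem result :
    ¬ (∀ (d : ℕ) (T : Set (EuclideanSpace ℝ (Fin d))),
      Nonempty (T ≃ₜ Metric.closedBall (0 : EuclideanSpace ℝ (Fin d)) 1) →
      (∃ Λ : Set (EuclideanSpace ℝ (Fin d)),
        ∀ᵐ x ∂(volume : Measure (EuclideanSpace ℝ (Fin d))),
          ∃! t, t ∈ Λ ∧ x - t ∈ T) →
      ∃ Λ : Set (EuclideanSpace ℝ (Fin d)),
        (∀ᵐ x ∂(volume : Measure (EuclideanSpace ℝ (Fin d))),
          ∃! t, t ∈ Λ ∧ x - t ∈ T) ∧
        ∃ v : Fin d → EuclideanSpace ℝ (Fin d),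
          LinearIndependent ℝ v ∧
            ∀ i, ∀ t ∈ Λ, t + v i ∈ Λ ∧ t - v i ∈ Λ) := by
  intro H
  obtain ⟨w, dd, Ω, hP⟩ := Pool.Agent.H790Z.PT.exists_puzzle
  obtain ⟨G, _, _, A0, T, hT, hS⟩ :=
    Pool.Agent.H790Z.PT.system_of_puzzle 53 (by norm_num) w dd Ω hP
  obtain ⟨G', _, _, F0, hF0⟩ := Pool.Agent.H790Z.PT.aper_of_system A0 T hT hS
  obtain ⟨d, F, c, g, hF, hg, hc, h0⟩ := Pool.Agent.H790Z.PT.aper_lift F0 hF0
  obtain ⟨D, J, pos, rk, s, j0, hs, htree, hA, hR⟩ :=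
    Pool.Agent.H790Z.PT.exists_tree_tile F c g hF hg hc h0
  obtain ⟨A, hA1⟩ := hA.2.1
  obtain ⟨Λ, hΛ, v, hv, hp⟩ := H D _ (Pool.Agent.H790Z.PT.ball_of_tree pos rk s j0 hs htree)
    (Pool.Agent.H790Z.PT.real_of_tiles _ A hA1)
  obtain ⟨A', hA', hper⟩ := Pool.Agent.H790Z.PT.per_of_real _ hR Λ hΛ v hv hp
  exact hA.2.2 A' hA' hper

end Pool.Agent.S07062
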