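import Pool.Statements.S07067
import Pool.Agent.H360Z.Exp.Main

set_option autoImplicit false
open Pool Pool.MP_099390_co

namespace Pool.Agent.S07067

/-- For every finite graph G whose expansion G⁺ has crosscut number exactly 3, there is C such that every 3-uniform hypergraph on n vertices with no copy of G⁺ has at most C·n² edges. -/
theorem result :
  ∀ (V : Type) [Fintype V] (G : SimpleGraph V),
    ((∃ X : Finset (V ⊕ G.edgeSet), X.card = 3 ∧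
        ∀ (u v : V) (h : G.Adj u v),
          ((Sum.inl u : V ⊕ G.edgeSet) ∈ X ∧ (Sum.inl v : V ⊕ G.edgeSet) ∉ X ∧
              (Sum.inr ⟨s(u, v), (SimpleGraph.mem_edgeSet G).mpr h⟩ : V ⊕ G.edgeSet) ∉ X) ∨
          ((Sum.inl u : V ⊕ G.edgeSet) ∉ X ∧ (Sum.inl v : V ⊕ G.edgeSet) ∈ X ∧
              (Sum.inr ⟨s(u, v), (SimpleGraph.mem_edgeSet G).mpr h⟩ : V ⊕ G.edgeSet) ∉ X) ∨
          ((Sum.inl u : V ⊕ G.edgeSet) ∉ X ∧ (Sum.inl v : V ⊕ G.edgeSet) ∉ X ∧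
              (Sum.inr ⟨s(u, v), (SimpleGraph.mem_edgeSet G).mpr h⟩ : V ⊕ G.edgeSet) ∈ X)) ∧
     (∀ X : Finset (V ⊕ G.edgeSet),
        (∀ (u v : V) (h : G.Adj u v),
          ((Sum.inl u : V ⊕ G.edgeSet) ∈ X ∧ (Sum.inl v : V ⊕ G.edgeSet) ∉ X ∧
              (Sum.inr ⟨s(u, v), (SimpleGraph.mem_edgeSet G).mpr h⟩ : V ⊕ G.edgeSet) ∉ X) ∨
          ((Sum.inl u : V ⊕ G.edgeSet) ∉ X ∧ (Sum.inl v : V ⊕ G.edgeSet) ∈ X ∧
              (Sum.inr ⟨s(u, v), (SimpleGraph.mem_edgeSet G).mpr h⟩ : V ⊕ G.edgeSet) ∉ X) ∨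
          ((Sum.inl u : V ⊕ G.edgeSet) ∉ X ∧ (Sum.inl v : V ⊕ G.edgeSet) ∉ X ∧
              (Sum.inr ⟨s(u, v), (SimpleGraph.mem_edgeSet G).mpr h⟩ : V ⊕ G.edgeSet) ∈ X)) →
        3 ≤ X.card)) →
    ∃ C : ℝ, ∀ (n : ℕ) (H : Finset (Finset (Fin n))),
      (∀ e ∈ H, e.card = 3) →
      (¬ ∃ f : V → Fin n, Function.Injective f ∧
          ∃ g : G.edgeSet → Fin n, Function.Injective g ∧
            (∀ (e : G.edgeSet) (x : V), g e ≠ f x) ∧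
            ∀ (u v : V) (h : G.Adj u v),
              ({f u, f v, g ⟨s(u, v), (SimpleGraph.mem_edgeSet G).mpr h⟩} : Finset (Fin n)) ∈ H) →
      (H.card : ℝ) ≤ C * (n : ℝ) ^ 2 := by
  rintro V _ G ⟨⟨X, hX, h⟩, -⟩
  obtain ⟨C, hC⟩ := Pool.Agent.H360Z.Exp.upper X hX h
  exact ⟨C, fun n H h3 hno => by exact_mod_cast hC n H h3 hno⟩

end Pool.Agent.S07067
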