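import Pool.Statements.S07083
import Pool.Agent.H423Z.StrF

set_option autoImplicit false
open Pool Pool.MP_0a0262_co

namespace Pool.Agent.S07083

/-- For every ε>0, for all large n, every A ⊆ {0,1}^(n+1) of size 2^n admits a bijection from {0,1}^n onto A whose average Hamming stretch over cube edges is at most ε·√n. -/
theorem result :
    ∀ ε : ℝ, 0 < ε → ∃ N : ℕ, ∀ n : ℕ, N ≤ n →
      ∀ A : Finset (Fin (n + 1) → Bool), A.card = 2 ^ n →
        ∃ φ : (Fin n → Bool) ≃ A,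
          (∑ x : Fin n → Bool, ∑ i : Fin n,
              (hammingDist (φ x).1 (φ (Function.update x i (!x i))).1 : ℝ))
            / ((n : ℝ) * 2 ^ n) ≤ ε * Real.sqrt n := by
  intro ε hε
  obtain ⟨C, N0, h⟩ := H423Z.Str.good_main (min (ε / 15) 1) (by positivity) (min_le_right _ _)
  refine ⟨max N0 (⌈(15 * |C| / ε) ^ 2⌉₊ + 1), fun n hn A hA => ?_⟩
  obtain ⟨φ, h1, h2, h3⟩ := h n ((le_max_left _ _).trans hn) A hA
  have hn2 := (le_max_right _ _).trans hn
  have hn0 : (0 : ℝ) < n := by exact_mod_cast (by omega : 0 < n)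
  have s1 : 15 * |C| / ε ≤ √n := Real.le_sqrt_of_sq_le (Nat.ceil_le.1 (by omega))
  rw [div_le_iff₀ hε] at s1
  let ψ : (Fin n → Bool) → A := fun x => ⟨φ x, h2 x⟩
  have hψ : Function.Bijective ψ := by
    rw [Fintype.bijective_iff_injective_and_card]
    exact ⟨fun x y hxy => h1 (congrArg Subtype.val hxy), by simp [hA]⟩
  refine ⟨Equiv.ofBijective ψ hψ, ?_⟩
  have e : (∑ x : Fin n → Bool, ∑ i : Fin n, (hammingDist (Equiv.ofBijective ψ hψ x).1
      (Equiv.ofBijective ψ hψ (Function.update x i (!x i))).1 : ℝ)) / ((n : ℝ) * 2 ^ n) =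
      H423Z.Str.av (fun x => ∑ i, H423Z.Str.hd (φ x) (φ (H423Z.Str.fl x i))) / n := by
    unfold H423Z.Str.av
    rw [div_div, mul_comm (n : ℝ)]
    congr 2
    simp
  rw [e, div_le_iff₀' hn0]
  refine h3.trans (mul_le_mul_of_nonneg_left ?_ hn0.le)
  have s2 := mul_le_mul_of_nonneg_right (min_le_left (ε / 15) 1) (Real.sqrt_nonneg n)
  have s3 := le_abs_self C
  nlinarith

end Pool.Agent.S07083
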