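import Pool.Statements.S07094
-- import your own Pool.Agent.* helpers here

set_option autoImplicit false
open Pool Pool.MP_0a7691_co

namespace Pool.Agent.S07094

/-- universal vertices are the multiples of `M`; two other vertices are adjacent when they lie in
the same block of `M` consecutive numbers -/
def gr (n M : ℕ) : SimpleGraph (Fin n) where
  Adj u v := u ≠ v ∧ (u.val % M = 0 ∨ v.val % M = 0 ∨ u.val / M = v.val / M)
  symm := ⟨by
    rintro u v ⟨h1, h2⟩
    refine ⟨h1.symm, ?_⟩
    rcases h2 with h | h | h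
    · exact Or.inr (Or.inl h)
    · exact Or.inl h
    · exact Or.inr (Or.inr h.symm)⟩
  loopless := ⟨fun u h => h.1 rfl⟩

lemma exists_switch (P : ℕ → Prop) {a b : ℕ} (hab : a ≤ b) (ha : P a) (hb : ¬ P b) :
    ∃ i, a ≤ i ∧ i < b ∧ P i ∧ ¬ P (i + 1) := by
  induction b, hab using Nat.le_induction with
  | base => exact absurd ha hb
  | succ b hab ih =>
    by_cases h : P b
    · exact ⟨b, hab, Nat.lt_succ_self b, h, hb⟩
    · obtain ⟨i, h1, h2, h3, h4⟩ := ih h
      exact ⟨i, h1, Nat.lt_succ_of_lt h2, h3, h4⟩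

lemma succ_adj (M a : ℕ) (hM : 0 < M) : (a + 1) % M = 0 ∨ a / M = (a + 1) / M := by
  by_cases h : M ∣ a + 1
  · exact Or.inl (Nat.mod_eq_zero_of_dvd h)
  · right
    rw [Nat.succ_div]
    simp [h]

lemma cyc_le (n M : ℕ) (hM : 0 < M) : SimpleGraph.cycleGraph (n + 3) ≤ gr (n + 3) M := by
  have key : ∀ u v : Fin (n + 3), u - v = 1 → (gr (n + 3) M).Adj u v := by
    intro u v h
    have hu : u = v + 1 := by rw [← h]; abel
    have hne : u ≠ v := by
      intro h'
      rw [h', sub_self] at h
      exact absurd h (by simp)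
    refine ⟨hne, ?_⟩
    by_cases hv : v.val + 1 < n + 3
    · have : u.val = v.val + 1 := by
        rw [hu, Fin.val_add]
        simp [Nat.mod_eq_of_lt hv]
      rw [this]
      rcases succ_adj M v.val hM with h1 | h1
      · exact Or.inl h1
      · exact Or.inr (Or.inr h1.symm)
    · have hv' : v.val + 1 = n + 3 := by have := v.isLt; omega
      have : u.val = 0 := by
        rw [hu, Fin.val_add]
        simp [hv']
      left
      simp [this]
  intro u v h
  rcases SimpleGraph.cycleGraph_adj.1 h with h | h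
  · exact key u v h
  · exact (key v u h).symm

lemma ham (n M : ℕ) (hM : 0 < M) : (gr (n + 3) M).IsHamiltonian := by
  refine SimpleGraph.IsHamiltonian.mono (cyc_le n M hM) ?_
  intro _
  refine ⟨0, SimpleGraph.cycleGraph.cycle n, ?_⟩
  rw [SimpleGraph.Walk.isHamiltonianCycle_iff_isCycle_and_length_eq]
  exact ⟨SimpleGraph.cycleGraph.isCycle_cycle, by simp⟩

lemma indep_le (n M K : ℕ) (hM : 0 < M) (hn : n = K * M) : (gr n M).indepNum ≤ K := by
  classical
  obtain ⟨s, hs⟩ := (gr n M).exists_isNIndepSet_indepNum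
  rw [← hs.card_eq]
  have : s.card ≤ (Finset.range K).card := by
    apply Finset.card_le_card_of_injOn (fun v : Fin n => v.val / M)
    · intro v _
      simp only [Finset.coe_range, Set.mem_Iio]
      rw [Nat.div_lt_iff_lt_mul hM, ← hn]
      exact v.isLt
    · intro u hu v hv huv
      by_contra hne
      exact hs.isIndepSet hu hv hne ⟨hne, Or.inr (Or.inr huv)⟩
  simpa using this

lemma conn (n M K : ℕ) (hM : 0 < M) (hn : n = K * M) (S : Finset (Fin n)) (hS : S.card < K) :
    ((gr n M).induce ((↑S : Set (Fin n))ᶜ)).Connected := by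
  classical
  have hlt : ∀ j : Fin K, j.val * M < n := fun j => by
    rw [hn]; exact Nat.mul_lt_mul_of_pos_right j.isLt hM
  obtain ⟨j, hj⟩ : ∃ j : Fin K, (⟨j.val * M, hlt j⟩ : Fin n) ∉ S := by
    by_contra hcon
    push Not at hcon
    have : (Finset.univ : Finset (Fin K)).card ≤ S.card := by
      apply Finset.card_le_card_of_injOn (fun j : Fin K => (⟨j.val * M, hlt j⟩ : Fin n))
      · intro j _
        exact hcon j
      · intro a _ b _ hab
        have := congrArg Fin.val hab
        exact Fin.ext (Nat.eq_of_mul_eq_mul_right hM this)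
    simp at this
    omega
  let c : ((↑S : Set (Fin n))ᶜ : Set (Fin n)) := ⟨⟨j.val * M, hlt j⟩, by simpa using hj⟩
  have hc : ∀ v, ((gr n M).induce ((↑S : Set (Fin n))ᶜ)).Reachable c v := by
    intro v
    by_cases h : c = v
    · rw [h]
    · apply SimpleGraph.Adj.reachable
      refine ⟨fun h' => h (Subtype.ext h'), Or.inl ?_⟩
      simp [c]
  have : Nonempty ((↑S : Set (Fin n))ᶜ : Set (Fin n)) := ⟨c⟩
  exact ⟨fun u v => (hc u).symm.trans (hc v)⟩

lemma no_edge (n M K : ℕ) (hM : 1 < M) (hn : n = K * M) (u : Fin n) (p : (gr n M).Walk u u)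
    (hp : p.IsHamiltonianCycle) (a b : Fin n) (ha : a.val % M = 0) (hb : b.val % M = 0) :
    s(a, b) ∉ p.edges := by
  classical
  have hM0 : 0 < M := by omega
  have hlt : ∀ j : Fin K, j.val * M + 1 < n := fun j => by
    have h1 : (j.val + 1) * M ≤ K * M := Nat.mul_le_mul_right _ j.isLt
    rw [hn]
    nlinarith
  have hsw : ∀ j : Fin K, ∃ i, i < p.length ∧ (p.getVert i).val % M ≠ 0 ∧
      (p.getVert i).val / M = j.val ∧ (p.getVert (i + 1)).val % M = 0 := by
    intro j
    let P : ℕ → Prop := fun i => (p.getVert i).val % M ≠ 0 ∧ (p.getVert i).val / M = j.val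
    obtain ⟨x, hx, hx'⟩ := SimpleGraph.Walk.mem_support_iff_exists_getVert.1
      (hp.mem_support ⟨j.val * M + 1, hlt j⟩)
    obtain ⟨y, hy, hy'⟩ := SimpleGraph.Walk.mem_support_iff_exists_getVert.1 (hp.mem_support a)
    have hPx : P x := by
      constructor
      · rw [hx]
        simp only
        rw [Nat.mul_add_mod_of_lt hM]
        omega
      · rw [hx]
        simp only
        rw [Nat.add_comm, Nat.add_mul_div_right _ _ hM0, Nat.div_eq_of_lt hM]
        simp
    have hPy : ¬ P y := by
      intro h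
      apply h.1
      rw [hy]; exact ha
    have hfin : ∃ i, i < p.length ∧ P i ∧ ¬ P (i + 1) := by
      by_cases h0 : P 0
      · obtain ⟨i, _, h2, h3, h4⟩ := exists_switch P (Nat.zero_le y) h0 hPy
        exact ⟨i, by omega, h3, h4⟩
      · have hl : ¬ P p.length := by
          intro h
          apply h0
          simpa [P] using h
        obtain ⟨i, _, h2, h3, h4⟩ := exists_switch P hx' hPx hl
        exact ⟨i, h2, h3, h4⟩
    obtain ⟨i, h1, h2, h3⟩ := hfin
    refine ⟨i, h1, h2.1, h2.2, ?_⟩
    have hadj := p.adj_getVert_succ h1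
    by_contra hne
    apply h3
    refine ⟨hne, ?_⟩
    rcases hadj.2 with h | h | h
    · exact absurd h h2.1
    · exact absurd h hne
    · rw [← h]; exact h2.2
  choose ι h1 h2 h3 h4 using hsw
  have hinj := hp.isCycle.getVert_injOn
  have hdiv : ∀ j, (p.getVert (ι j + 1)).val / M < K := fun j => by
    rw [Nat.div_lt_iff_lt_mul hM0, ← hn]
    exact (p.getVert (ι j + 1)).isLt
  let φ : Fin K → Fin K := fun j => ⟨(p.getVert (ι j + 1)).val / M, hdiv j⟩
  have hφ : Function.Injective φ := by
    intro j j' h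
    have e1 : (p.getVert (ι j + 1)).val / M = (p.getVert (ι j' + 1)).val / M := congrArg Fin.val h
    have e2 : p.getVert (ι j + 1) = p.getVert (ι j' + 1) := by
      apply Fin.ext
      rw [← Nat.div_add_mod (p.getVert (ι j + 1)).val M, ← Nat.div_add_mod (p.getVert (ι j' + 1)).val M,
        e1, h4, h4]
    have e3 := hinj (x₁ := ι j + 1) ⟨by omega, by have := h1 j; omega⟩ (x₂ := ι j' + 1)
      ⟨by omega, by have := h1 j'; omega⟩ e2
    have e4 : ι j = ι j' := by omega
    apply Fin.ext
    rw [← h3 j, ← h3 j', e4]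
  have hsurj := Finite.surjective_of_injective hφ
  intro hmem
  obtain ⟨i, hi, he⟩ := (SimpleGraph.Walk.mk_mem_edges_iff_exists p).1 hmem
  have hboth : (p.getVert i).val % M = 0 ∧ (p.getVert (i + 1)).val % M = 0 := by
    rcases Sym2.eq_iff.1 he with ⟨e1, e2⟩ | ⟨e1, e2⟩
    · rw [e1, e2]; exact ⟨ha, hb⟩
    · rw [e1, e2]; exact ⟨hb, ha⟩
  have hd : (p.getVert (i + 1)).val / M < K := by
    rw [Nat.div_lt_iff_lt_mul hM0, ← hn]
    exact (p.getVert (i + 1)).isLt
  obtain ⟨j, hj⟩ := hsurj ⟨_, hd⟩
  have e1 : (p.getVert (ι j + 1)).val / M = (p.getVert (i + 1)).val / M := congrArg Fin.val hj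
  have e2 : p.getVert (ι j + 1) = p.getVert (i + 1) := by
    apply Fin.ext
    rw [← Nat.div_add_mod (p.getVert (ι j + 1)).val M, ← Nat.div_add_mod (p.getVert (i + 1)).val M,
      e1, h4, hboth.2]
  have e3 := hinj (x₁ := ι j + 1) ⟨by omega, by have := h1 j; omega⟩ (x₂ := i + 1)
    ⟨by omega, by omega⟩ e2
  have e4 : ι j = i := by omega
  exact h2 j (by rw [e4]; exact hboth.1)


/-- The negation of the preceding statement: There exist k and f such that every k-connected Hamiltonian graph on an odd number n of vertices with n at least f(independence number) has its Hamilton cycles spanning its whole cycle space over GF(2). -/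
theorem result :
    ¬ (∃ k : ℕ, ∃ f : ℕ → ℕ,
      ∀ (V : Type) [Fintype V] [DecidableEq V] (G : SimpleGraph V),
        Odd (Fintype.card V) →
        (k < Fintype.card V ∧
          ∀ S : Finset V, S.card < k → (G.induce ((↑S : Set V)ᶜ)).Connected) →
        G.IsHamiltonian →
        f G.indepNum ≤ Fintype.card V →
        Submodule.span (ZMod 2)
            {x : Sym2 V → ZMod 2 | ∃ (u : V) (p : G.Walk u u),
              p.IsHamiltonianCycle ∧
                x = Set.indicator {e : Sym2 V | e ∈ p.edges} (fun _ => (1 : ZMod 2))} =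
          Submodule.span (ZMod 2)
            {x : Sym2 V → ZMod 2 | ∃ (u : V) (p : G.Walk u u),
              p.IsCycle ∧
                x = Set.indicator {e : Sym2 V | e ∈ p.edges} (fun _ => (1 : ZMod 2))}) := by
  classical
  rintro ⟨k, f, h⟩
  set K := 2 * k + 3 with hK
  set T := ∑ a ∈ Finset.range (K + 1), f a with hT
  set M := 2 * T + 3 with hM
  have hKM : 3 * 3 ≤ K * M := Nat.mul_le_mul (by omega) (by omega)
  obtain ⟨n, hn⟩ : ∃ n, n + 3 = K * M := ⟨K * M - 3, by omega⟩
  have hMle : M * 2 ≤ K * M := by rw [Nat.mul_comm K M]; exact Nat.mul_le_mul_left _ (by omega)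
  have hKle : K * 1 ≤ K * M := Nat.mul_le_mul_left _ (by omega)
  have hodd : Odd (Fintype.card (Fin (n + 3))) := by
    rw [Fintype.card_fin, hn]
    exact Odd.mul ⟨k + 1, by omega⟩ ⟨T + 1, by omega⟩
  have hf : f (gr (n + 3) M).indepNum ≤ Fintype.card (Fin (n + 3)) := by
    have h1 := indep_le (n + 3) M K (by omega) hn
    have h2 : f (gr (n + 3) M).indepNum ≤ T :=
      Finset.single_le_sum (f := f) (fun _ _ => Nat.zero_le _) (Finset.mem_range.2 (by omega))
    rw [Fintype.card_fin]
    omega
  have heq := h (Fin (n + 3)) (gr (n + 3) M) hodd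
    ⟨by rw [Fintype.card_fin]; omega, fun S hS => conn (n + 3) M K (by omega) hn S (by omega)⟩
    (ham n M (by omega)) hf
  let a : Fin (n + 3) := ⟨0, by omega⟩
  let b : Fin (n + 3) := ⟨M, by omega⟩
  let c : Fin (n + 3) := ⟨1, by omega⟩
  have hab : a ≠ b := fun h => by have := congrArg Fin.val h; simp only [a, b] at this; omega
  have hbc : b ≠ c := fun h => by have := congrArg Fin.val h; simp only [c, b] at this; omega
  have hca : c ≠ a := fun h => by have := congrArg Fin.val h; simp only [a, c] at this; omega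
  have ha0 : a.val % M = 0 := by simp [a]
  have hb0 : b.val % M = 0 := by simp [b]
  have e1 : (gr (n + 3) M).Adj a b := ⟨hab, Or.inl ha0⟩
  have e2 : (gr (n + 3) M).Adj b c := ⟨hbc, Or.inl hb0⟩
  have e3 : (gr (n + 3) M).Adj c a := ⟨hca, Or.inr (Or.inl ha0)⟩
  let q : (gr (n + 3) M).Walk a a := .cons e1 (.cons e2 (.cons e3 .nil))
  have hq : q.IsCycle := by
    rw [SimpleGraph.Walk.cons_isCycle_iff]
    constructor
    · simp [SimpleGraph.Walk.isPath_def, hbc, hca, hab.symm]
    · simp [hab, hbc, hca, hab.symm, hbc.symm, hca.symm]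
  have hker : Submodule.span (ZMod 2)
      {x : Sym2 (Fin (n + 3)) → ZMod 2 | ∃ (u : Fin (n + 3)) (p : (gr (n + 3) M).Walk u u),
        p.IsHamiltonianCycle ∧
          x = Set.indicator {e : Sym2 (Fin (n + 3)) | e ∈ p.edges} (fun _ => (1 : ZMod 2))} ≤
      LinearMap.ker (LinearMap.proj (R := ZMod 2) (φ := fun _ : Sym2 (Fin (n + 3)) => ZMod 2) s(a, b)) := by
    rw [Submodule.span_le]
    rintro x ⟨u, p, hp, rfl⟩
    have := no_edge (n + 3) M K (by omega) hn u p hp a b ha0 hb0
    simp [Set.indicator, this]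
  rw [heq] at hker
  have hmem := hker (Submodule.subset_span ⟨a, q, hq, rfl⟩)
  simp [Set.indicator, q] at hmem


end Pool.Agent.S07094
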