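import Pool.Statements.S07138
-- import your own Pool.Agent.* helpers here

set_option autoImplicit false
open Pool Pool.MP_0c316d_co

namespace Pool.Agent.S07138

/-- Vertices: seven hub vertices and one terminal for each four-element set of hubs. -/
abbrev W : Type := Fin 7 ⊕ {S : Finset (Fin 7) // S.card = 4}

/-- The hubs form a clique and each terminal is joined to its four hubs. -/
def H : SimpleGraph W where
  Adj
    | Sum.inl i, Sum.inl j => i ≠ j
    | Sum.inl i, Sum.inr S => i ∈ S.1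
    | Sum.inr S, Sum.inl i => i ∈ S.1
    | Sum.inr _, Sum.inr _ => False
  symm := ⟨by
    rintro (i | S) (j | T) h
    · exact fun e => h e.symm
    · exact h
    · exact h
    · exact h⟩
  loopless := ⟨by
    rintro (i | S) h
    · exact h rfl
    · exact h⟩

/-- The terminals. -/
def Term : Finset W := Finset.univ.map Function.Embedding.inr

lemma mem_Term (v : W) : v ∈ Term ↔ ∃ S, v = Sum.inr S := by
  simp [Term, eq_comm]

lemma card_Term : Term.card = 35 := by
  rw [Term, Finset.card_map, Finset.card_univ, Fintype.card_finset_len]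
  simp [Nat.choose]

lemma free_hub (S : Finset (Fin 7)) (hS : S.card = 4) (X : Finset W) (hX : X.card < 4) :
    ∃ i ∈ S, (Sum.inl i : W) ∉ X := by
  by_contra h
  push Not at h
  have h1 : S.map Function.Embedding.inl ⊆ X := by
    intro v hv
    rw [Finset.mem_map] at hv
    obtain ⟨i, hi, rfl⟩ := hv
    exact h i hi
  have h2 := Finset.card_le_card h1
  rw [Finset.card_map] at h2
  omega

lemma conn (a : W) (ha : a ∈ Term) (b : W) (hb : b ∈ Term) (X : Finset W) (haX : a ∉ X)
    (hbX : b ∉ X) (hX : X.card < 4) : ∃ p : H.Walk a b, ∀ v ∈ p.support, v ∉ X := by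
  obtain ⟨S, rfl⟩ := (mem_Term a).1 ha
  obtain ⟨T, rfl⟩ := (mem_Term b).1 hb
  obtain ⟨i, hi, hiX⟩ := free_hub S.1 S.2 X hX
  obtain ⟨j, hj, hjX⟩ := free_hub T.1 T.2 X hX
  have e1 : H.Adj (Sum.inr S) (Sum.inl i) := hi
  have e3 : H.Adj (Sum.inl j) (Sum.inr T) := hj
  by_cases hij : i = j
  · subst hij
    refine ⟨SimpleGraph.Walk.cons e1 (SimpleGraph.Walk.cons e3 SimpleGraph.Walk.nil), ?_⟩
    intro v hv
    simp only [SimpleGraph.Walk.support_cons, SimpleGraph.Walk.support_nil, List.mem_cons,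
      List.not_mem_nil, or_false] at hv
    rcases hv with rfl | rfl | rfl <;> assumption
  · have e2 : H.Adj (Sum.inl i) (Sum.inl j) := hij
    refine ⟨SimpleGraph.Walk.cons e1 (SimpleGraph.Walk.cons e2
      (SimpleGraph.Walk.cons e3 SimpleGraph.Walk.nil)), ?_⟩
    intro v hv
    simp only [SimpleGraph.Walk.support_cons, SimpleGraph.Walk.support_nil, List.mem_cons,
      List.not_mem_nil, or_false] at hv
    rcases hv with rfl | rfl | rfl | rfl <;> assumption

/-- A connected subgraph through all terminals uses at least four hubs. -/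
lemma many_hubs (T : H.Subgraph) (hc : T.coe.Connected) (hA : (↑Term : Set W) ⊆ T.verts)
    (N : Finset (Fin 7)) (hN : ∀ i, (Sum.inl i : W) ∈ T.verts → i ∈ N) : 4 ≤ N.card := by
  by_contra hlt
  have h1 : 4 ≤ Nᶜ.card := by
    rw [Finset.card_compl]
    simp only [Fintype.card_fin]
    omega
  obtain ⟨S, hS, hS4⟩ := Finset.exists_subset_card_eq h1
  have ha : (Sum.inr ⟨S, hS4⟩ : W) ∈ Term := (mem_Term _).2 ⟨_, rfl⟩
  obtain ⟨b, hb, hba⟩ : ∃ b ∈ Term, b ≠ (Sum.inr ⟨S, hS4⟩ : W) :=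
    Finset.exists_mem_ne (by rw [card_Term]; norm_num) _
  obtain ⟨p⟩ := hc.preconnected ⟨_, hA ha⟩ ⟨b, hA hb⟩
  cases p with
  | nil => exact hba rfl
  | @cons _ v _ h _ =>
    obtain ⟨v, hv⟩ := v
    have h2 : H.Adj (Sum.inr ⟨S, hS4⟩) v := T.adj_sub h
    rcases v with i | U
    · have h3 : i ∈ S := h2
      have h4 := hS h3
      rw [Finset.mem_compl] at h4
      exact h4 (hN i hv)
    · exact h2

/-- The negation of the preceding statement: For t≥5, k≥2 with m=⌊⌈tk/2⌉/(t−1)⌋: every finite graph with an independent k-connected t-set A has m A-trees meeting only in A, and some such graph has no m+1 of them. -/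
theorem result :
    ¬ (∀ t k : ℕ, 5 ≤ t → 2 ≤ k →
      (∀ (V : Type) [Fintype V] (G : SimpleGraph V) (A : Finset V),
        A.card = t →
        (∀ a ∈ A, ∀ b ∈ A, ¬ G.Adj a b) →
        (∀ a ∈ A, ∀ b ∈ A, a ≠ b → ∀ S : Finset V, a ∉ S → b ∉ S → S.card < k →
          ∃ p : G.Walk a b, ∀ v ∈ p.support, v ∉ S) →
        ∃ T : Fin ((t * k + 1) / 2 / (t - 1)) → G.Subgraph,
          (∀ i, (T i).coe.IsTree ∧ (↑A : Set V) ⊆ (T i).verts ∧
            ∀ v ∈ (T i).verts, ((T i).neighborSet v).ncard = 1 → v ∈ A) ∧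
          (∀ i j, i ≠ j → (T i).verts ∩ (T j).verts ⊆ (↑A : Set V))) ∧
      (∃ (V : Type) (_ : Fintype V) (G : SimpleGraph V) (A : Finset V),
        A.card = t ∧
        (∀ a ∈ A, ∀ b ∈ A, ¬ G.Adj a b) ∧
        (∀ a ∈ A, ∀ b ∈ A, a ≠ b → ∀ S : Finset V, a ∉ S → b ∉ S → S.card < k →
          ∃ p : G.Walk a b, ∀ v ∈ p.support, v ∉ S) ∧
        ¬ ∃ T : Fin ((t * k + 1) / 2 / (t - 1) + 1) → G.Subgraph,
          (∀ i, (T i).coe.IsTree ∧ (↑A : Set V) ⊆ (T i).verts ∧
            ∀ v ∈ (T i).verts, ((T i).neighborSet v).ncard = 1 → v ∈ A) ∧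
          (∀ i j, i ≠ j → (T i).verts ∩ (T j).verts ⊆ (↑A : Set V)))) := by
  classical
  intro h
  obtain ⟨T, hT, hd⟩ := (h 35 4 (by norm_num) (by norm_num)).1 W H Term card_Term
    (by
      intro a ha b hb
      obtain ⟨S, rfl⟩ := (mem_Term a).1 ha
      obtain ⟨U, rfl⟩ := (mem_Term b).1 hb
      exact fun e => e)
    (fun a ha b hb _ X haX hbX hX => conn a ha b hb X haX hbX hX)
  let i0 : Fin ((35 * 4 + 1) / 2 / (35 - 1)) := ⟨0, by norm_num⟩
  let i1 : Fin ((35 * 4 + 1) / 2 / (35 - 1)) := ⟨1, by norm_num⟩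
  have hne : i0 ≠ i1 := by
    intro e
    have := congrArg Fin.val e
    simp [i0, i1] at this
  let N : Fin ((35 * 4 + 1) / 2 / (35 - 1)) → Finset (Fin 7) := fun j =>
    Finset.univ.filter fun i => (Sum.inl i : W) ∈ (T j).verts
  have hN : ∀ j, 4 ≤ (N j).card := fun j =>
    many_hubs (T j) (hT j).1.connected (hT j).2.1 (N j) (by intro i hi; simp [N, hi])
  have hdis : Disjoint (N i0) (N i1) := by
    rw [Finset.disjoint_left]
    intro i h0 h1
    simp only [N, Finset.mem_filter, Finset.mem_univ, true_and] at h0 h1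
    have h2 := hd i0 i1 hne ⟨h0, h1⟩
    obtain ⟨S, hS⟩ := (mem_Term _).1 h2
    exact absurd hS (by simp)
  have h3 := Finset.card_union_of_disjoint hdis
  have h4 : (N i0 ∪ N i1).card ≤ 7 := by simpa using Finset.card_le_univ (N i0 ∪ N i1)
  have h5 := hN i0
  have h6 := hN i1
  omega

end Pool.Agent.S07138
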