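import Pool.Statements.S07188
import Pool.Agent.H698Z.WildFinal

set_option autoImplicit false
open Pool Pool.MP_0e6637_co

namespace Pool.Agent.S07188

/-- The negation of the preceding statement: Every strictly convex normed real space of dimension at least 2, and every infinite subset M, admits a 2-colouring with no monochromatic isometric copy of M, while one colour never suffices; that is, the chromatic number is exactly 2. -/
theorem result :
    ¬ (∀ (E : Type) [NormedAddCommGroup E] [NormedSpace ℝ E] [FiniteDimensional ℝ E]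
      [StrictConvexSpace ℝ E],
      2 ≤ Module.finrank ℝ E →
      ∀ M : Set E, M.Infinite →
        (∃ c : E → Fin 2, ∀ f : E → E,
            (∀ x ∈ M, ∀ y ∈ M, dist (f x) (f y) = dist x y) →
            ∃ x ∈ M, ∃ y ∈ M, c (f x) ≠ c (f y)) ∧
        ¬ (∃ c : E → Fin 1, ∀ f : E → E,
            (∀ x ∈ M, ∀ y ∈ M, dist (f x) (f y) = dist x y) →
            ∃ x ∈ M, ∃ y ∈ M, c (f x) ≠ c (f y))) := by
  intro H
  obtain ⟨E, i1, i2, i3, i4, hr, W, hW, hc⟩ := Pool.Agent.H698Z.Wild.wild_space
  obtain ⟨⟨c, hcol⟩, -⟩ := H E hr (Set.range W) (Set.infinite_range_of_injective hW)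
  obtain ⟨y, a, hy, ha⟩ := hc c
  obtain ⟨_, ⟨i, rfl⟩, _, ⟨k, rfl⟩, hne⟩ := hcol (Function.extend W y id) (by
    rintro _ ⟨i, rfl⟩ _ ⟨k, rfl⟩
    rw [hW.extend_apply, hW.extend_apply, hy])
  rw [hW.extend_apply, hW.extend_apply, ha, ha] at hne
  exact hne rfl

end Pool.Agent.S07188
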