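import Pool.Statements.S07201
import Pool.Agent.H71Z.KK.Cube

set_option autoImplicit false
open Pool Pool.MP_0f2fd5_co

namespace Pool.Agent.S07201

/-- For every L>0 there are L',δ>0 such that any up-set A in the n-cube with density α≤1/2 and edge boundary ≤ L∣A∣log₂(2^n/∣A∣) has a subcube fixing some coordinates to 1, of measure ≥ α^L', in which A has density ≥ (1+δ)α. -/
theorem result :
    ∀ L : ℝ, 0 < L → ∃ L' δ : ℝ, 0 < L' ∧ 0 < δ ∧
      ∀ n : ℕ, ∀ A : Finset (Finset (Fin n)),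
        IsUpperSet (A : Set (Finset (Fin n))) →
        (A.card : ℝ) / 2 ^ n ≤ 1 / 2 →
        (((A ×ˢ (Finset.univ : Finset (Fin n))).filter
            (fun p => symmDiff p.1 {p.2} ∉ A)).card : ℝ)
          ≤ L * (A.card : ℝ) * Real.logb 2 ((2 : ℝ) ^ n / (A.card : ℝ)) →
        ∃ T : Finset (Fin n),
          ((A.card : ℝ) / 2 ^ n) ^ L' ≤ (1 / 2 : ℝ) ^ T.card ∧
          (1 + δ) * ((A.card : ℝ) / 2 ^ n)
            ≤ ((A.filter (fun S => T ⊆ S)).card : ℝ) / (2 : ℝ) ^ (n - T.card) := by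
  intro L hL
  obtain ⟨L', hL', H⟩ := Pool.Agent.H71Z.KK.up_incr L hL
  refine ⟨L', 2 / 5, hL', by norm_num, fun n A hA hα hb => ?_⟩
  obtain ⟨S, h1, h2⟩ := H n A hA hα hb
  refine ⟨S, h1, ?_⟩
  have hS : S.card ≤ n := by simpa using Finset.card_le_univ S
  have h3 : (2 : ℝ) ^ n = 2 ^ S.card * 2 ^ (n - S.card) := by
    rw [← pow_add]; congr 1; omega
  rw [h3, ← mul_div_assoc, div_le_div_iff₀ (by positivity) (by positivity)]
  have := mul_le_mul_of_nonneg_right h2 (by positivity : (0 : ℝ) ≤ 2 ^ (n - S.card))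
  linarith

end Pool.Agent.S07201
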