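import Pool.Statements.S07220
-- import your own Pool.Agent.* helpers here

set_option autoImplicit false
open Pool Pool.MP_0fb6b1_co

namespace Pool.Agent.S07220

/-- the padded sets: a three-element core `X` inside `{0,...,6}`, a fixed block and one free point -/
def pad (w : ℕ) (X : Finset ℕ) (i : ℕ) : Finset ℕ :=
  X ∪ insert (w + 3 + i) (Finset.Ico 7 (w + 3))

lemma mem_pad_small {w : ℕ} (hw : 4 ≤ w) (X : Finset ℕ) (i a : ℕ) (ha : a < 7) :
    a ∈ pad w X i ↔ a ∈ X := by
  unfold pad
  simp only [Finset.mem_union, Finset.mem_insert, Finset.mem_Ico]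
  constructor
  · rintro (h | h | h)
    · exact h
    · omega
    · omega
  · intro h; exact Or.inl h

lemma card_pad {w : ℕ} (hw : 4 ≤ w) (X : Finset ℕ) (hX : ∀ a ∈ X, a < 7) (hc : X.card = 3) (i : ℕ) :
    (pad w X i).card = w := by
  unfold pad
  rw [Finset.card_union_of_disjoint, Finset.card_insert_of_notMem, Nat.card_Ico, hc]
  · omega
  · simp only [Finset.mem_Ico]; omega
  · rw [Finset.disjoint_left]
    intro a ha
    have := hX a ha
    simp only [Finset.mem_insert, Finset.mem_Ico]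
    omega

lemma pad_inj {w : ℕ} (hw : 4 ≤ w) (X : Finset ℕ) (hX : ∀ a ∈ X, a < 7) :
    Function.Injective (pad w X) := by
  intro i j h
  have h1 : w + 3 + i ∈ pad w X j := by
    rw [← h]; unfold pad; simp
  unfold pad at h1
  simp only [Finset.mem_union, Finset.mem_insert, Finset.mem_Ico] at h1
  rcases h1 with h1 | h1 | h1
  · have := hX _ h1; omega
  · omega
  · omega

/-- The negation of the preceding statement: There is a constant K such that, for every family F of w-element sets with at least K^w members, the fraction of triples (S,S1,S2) from F for which some T in F has T∩S=(S1∩S)∪(S2∩S) tends to 1 as w grows, uniformly in F. -/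
theorem result :
    ¬ (∃ K : ℝ, ∀ ε : ℝ, 0 < ε → ∃ W : ℕ, ∀ w : ℕ, W ≤ w →
      ∀ F : Finset (Finset ℕ), (∀ A ∈ F, A.card = w) → K ^ w ≤ (F.card : ℝ) →
        (1 - ε) * (F.card : ℝ) ^ 3 ≤
          (((F ×ˢ F ×ˢ F).filter
            (fun p : Finset ℕ × Finset ℕ × Finset ℕ =>
              ∃ T ∈ F, T ∩ p.1 = (p.2.1 ∩ p.1) ∪ (p.2.2 ∩ p.1))).card : ℝ)) := by
  classical
  rintro ⟨K, hK⟩
  obtain ⟨W, hW⟩ := hK (1 / 28) (by norm_num)
  set w : ℕ := max W 4 with hwdef
  have hw4 : 4 ≤ w := le_max_right _ _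
  have hwW : W ≤ w := le_max_left _ _
  obtain ⟨N0, hN0⟩ := exists_nat_ge (K ^ w)
  set N : ℕ := N0 + 1 with hN
  set A : Finset ℕ := {0, 1, 2} with hA
  set B : Finset ℕ := {0, 3, 4} with hB
  set C : Finset ℕ := {1, 5, 6} with hC
  have hAs : ∀ a ∈ A, a < 7 := by decide
  have hBs : ∀ a ∈ B, a < 7 := by decide
  have hCs : ∀ a ∈ C, a < 7 := by decide
  set FA := (Finset.range N).image (pad w A) with hFA
  set FB := (Finset.range N).image (pad w B) with hFB
  set FC := (Finset.range N).image (pad w C) with hFC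
  have cA : FA.card = N := by
    rw [hFA, Finset.card_image_of_injective _ (pad_inj hw4 A hAs), Finset.card_range]
  have cB : FB.card = N := by
    rw [hFB, Finset.card_image_of_injective _ (pad_inj hw4 B hBs), Finset.card_range]
  have cC : FC.card = N := by
    rw [hFC, Finset.card_image_of_injective _ (pad_inj hw4 C hCs), Finset.card_range]
  set F := FA ∪ FB ∪ FC with hF
  have hAF : FA ⊆ F := fun x hx => by simp [hF, hx]
  have hBF : FB ⊆ F := fun x hx => by simp [hF, hx]
  have hCF : FC ⊆ F := fun x hx => by simp [hF, hx]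
  have hlow : N ≤ F.card := cA ▸ Finset.card_le_card hAF
  have hup : F.card ≤ 3 * N := by
    have h1 := Finset.card_union_le (FA ∪ FB) FC
    have h2 := Finset.card_union_le FA FB
    rw [← hF] at h1
    omega
  have hcard : ∀ X ∈ F, X.card = w := by
    intro X hX
    simp only [hF, hFA, hFB, hFC, Finset.mem_union, Finset.mem_image] at hX
    rcases hX with (⟨i, -, rfl⟩ | ⟨i, -, rfl⟩) | ⟨i, -, rfl⟩
    · exact card_pad hw4 A hAs (by decide) i
    · exact card_pad hw4 B hBs (by decide) i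
    · exact card_pad hw4 C hCs (by decide) i
  have hKF : K ^ w ≤ (F.card : ℝ) := by
    have : (N0 : ℝ) ≤ F.card := by exact_mod_cast (by omega : N0 ≤ F.card)
    linarith
  have main := hW w hwW F hcard hKF
  set G := (F ×ˢ F ×ˢ F).filter
            (fun p : Finset ℕ × Finset ℕ × Finset ℕ =>
              ∃ T ∈ F, T ∩ p.1 = (p.2.1 ∩ p.1) ∪ (p.2.2 ∩ p.1)) with hG
  have hdisj : Disjoint G (FA ×ˢ FB ×ˢ FC) := by
    rw [Finset.disjoint_left]
    rintro ⟨S, S1, S2⟩ hg hb
    simp only [hG, Finset.mem_filter] at hg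
    obtain ⟨-, T, hT, hTS⟩ := hg
    simp only [hFA, hFB, hFC, Finset.mem_product, Finset.mem_image] at hb
    obtain ⟨⟨i, -, rfl⟩, ⟨j, -, rfl⟩, ⟨k, -, rfl⟩⟩ := hb
    have e : ∀ a, a < 7 → ((a ∈ T ∧ a ∈ A) ↔ ((a ∈ B ∧ a ∈ A) ∨ (a ∈ C ∧ a ∈ A))) := by
      intro a ha
      have := congrArg (fun s => a ∈ s) hTS
      simpa only [Finset.mem_inter, Finset.mem_union, mem_pad_small hw4 _ _ a ha, eq_iff_iff]
        using this
    have h0 : 0 ∈ T := ((e 0 (by norm_num)).2 (by decide)).1
    have h1 : 1 ∈ T := ((e 1 (by norm_num)).2 (by decide)).1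
    have h2 : 2 ∉ T := fun h => absurd ((e 2 (by norm_num)).1 ⟨h, by decide⟩) (by decide)
    simp only [hF, hFA, hFB, hFC, Finset.mem_union, Finset.mem_image] at hT
    rcases hT with (⟨l, -, rfl⟩ | ⟨l, -, rfl⟩) | ⟨l, -, rfl⟩
    · exact h2 ((mem_pad_small hw4 _ _ 2 (by norm_num)).2 (by decide))
    · exact absurd ((mem_pad_small hw4 _ _ 1 (by norm_num)).1 h1) (by decide)
    · exact absurd ((mem_pad_small hw4 _ _ 0 (by norm_num)).1 h0) (by decide)
  have hsub : G ∪ (FA ×ˢ FB ×ˢ FC) ⊆ F ×ˢ F ×ˢ F := by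
    apply Finset.union_subset
    · exact Finset.filter_subset _ _
    · exact Finset.product_subset_product hAF (Finset.product_subset_product hBF hCF)
  have hc := Finset.card_le_card hsub
  rw [Finset.card_union_of_disjoint hdisj] at hc
  simp only [Finset.card_product, cA, cB, cC] at hc
  have hc' : (G.card : ℝ) + (N : ℝ) * (N * N) ≤ (F.card : ℝ) * (F.card * F.card) := by
    exact_mod_cast hc
  have hup' : (F.card : ℝ) ≤ 3 * N := by exact_mod_cast hup
  have hpos : (0 : ℝ) < F.card := by exact_mod_cast (by omega : 0 < F.card)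
  have h3 : (F.card : ℝ) ^ 3 ≤ (3 * N) ^ 3 := pow_le_pow_left₀ hpos.le hup' 3
  have h4 : (0 : ℝ) < (F.card : ℝ) ^ 3 := by positivity
  nlinarith

end Pool.Agent.S07220
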