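import Pool.Statements.S07229
import Pool.Agent.H158Z.Skel5

set_option autoImplicit false
open MeasureTheory
open Pool Pool.MP_106462_co

namespace Pool.Agent.S07229

/-- For 1≤k≤d and ε>0 there is δ>0 such that every measurable S in R^d of positive finite volume with k-index of convexity at least ε contains the k-skeleton of some d-simplex of volume at least δ·vol(S). -/
theorem result :
    ∀ k d : ℕ, 1 ≤ k → k ≤ d → ∀ ε : ℝ, 0 < ε → ∃ δ : ℝ, 0 < δ ∧
      ∀ S : Set (EuclideanSpace ℝ (Fin d)), MeasurableSet S → 0 < volume S → volume S < ⊤ →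
        ε ≤ (volume {x : Fin (k + 1) → EuclideanSpace ℝ (Fin d) |
                (∀ i, x i ∈ S) ∧ convexHull ℝ (Set.range x) ⊆ S}).toReal
              / (volume S).toReal ^ (k + 1) →
        ∃ X : Fin (d + 1) → EuclideanSpace ℝ (Fin d),
          AffineIndependent ℝ X ∧
          δ * (volume S).toReal ≤ (volume (convexHull ℝ (Set.range X))).toReal ∧
          ∀ s : Finset (Fin (d + 1)), s.card = k + 1 →
            convexHull ℝ (X '' (s : Set (Fin (d + 1)))) ⊆ S := by
  intro k d _ hkd ε hε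
  lift ε to NNReal using hε.le
  obtain ⟨δ, hδ, h⟩ := Pool.Agent.H158Z.Skel.final (E := EuclideanSpace ℝ (Fin d)) k d hkd
    (by simp) ε hε
  refine ⟨δ, hδ, fun S hS h0 htop hb => ?_⟩
  obtain ⟨V, hV⟩ : ∃ V : NNReal, volume S = V := ⟨(volume S).toNNReal, (ENNReal.coe_toNNReal htop.ne).symm⟩
  have hV0 : 0 < V := by rw [hV] at h0; exact_mod_cast h0
  have hVr : (0 : ℝ) < V := hV0
  have hH : (V⁻¹ • (volume : Measure (EuclideanSpace ℝ (Fin d)))).IsAddHaarMeasure :=
    Measure.IsAddHaarMeasure.nnreal_smul _ (inv_ne_zero hV0.ne')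
  have h1 : (V⁻¹ • (volume : Measure (EuclideanSpace ℝ (Fin d)))) S = 1 := by
    rw [Measure.smul_apply, hV, ENNReal.smul_def, smul_eq_mul, ← ENNReal.coe_mul,
      inv_mul_cancel₀ hV0.ne', ENNReal.coe_one]
  have hP := Pool.Agent.H158Z.Skel.hyp_of_outer k ε _ S hS h1 (by
    rw [Pool.Agent.H158Z.Skel.pi_smul_eq, Measure.smul_apply, ← volume_pi]
    rw [hV, ENNReal.coe_toReal, le_div_iff₀ (by positivity)] at hb
    set W := volume {x : Fin (k + 1) → EuclideanSpace ℝ (Fin d) |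
                (∀ i, x i ∈ S) ∧ convexHull ℝ (Set.range x) ⊆ S}
    rcases eq_or_ne W ⊤ with hW | hW
    · rw [hW, ENNReal.toReal_top] at hb
      exact absurd hb (not_le.2 (by positivity))
    · obtain ⟨W', hW'⟩ : ∃ W' : NNReal, W = W' := ⟨W.toNNReal, (ENNReal.coe_toNNReal hW).symm⟩
      rw [hW', ENNReal.coe_toReal] at hb
      rw [hW', ENNReal.smul_def, smul_eq_mul, ← ENNReal.coe_mul, ENNReal.coe_le_coe,
        ← NNReal.coe_le_coe]
      push_cast
      rw [Fintype.card_fin, inv_pow, ← div_eq_inv_mul, le_div_iff₀ (by positivity)]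
      exact hb)
  obtain ⟨X, hX1, hX2, hX3⟩ := h _ S hP hS h1
  refine ⟨X, hX1, ?_, hX3⟩
  have hfin : volume (convexHull ℝ (Set.range X)) ≠ ⊤ :=
    (Set.finite_range X).isCompact_convexHull ℝ |>.measure_lt_top.ne
  obtain ⟨T, hT⟩ : ∃ T : NNReal, volume (convexHull ℝ (Set.range X)) = T :=
    ⟨_, (ENNReal.coe_toNNReal hfin).symm⟩
  rw [Measure.smul_apply, hT, ENNReal.smul_def, smul_eq_mul, ← ENNReal.coe_mul,
    ENNReal.coe_le_coe, ← NNReal.coe_le_coe] at hX2
  rw [hV, hT, ENNReal.coe_toReal, ENNReal.coe_toReal]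
  push_cast at hX2
  rwa [← div_eq_inv_mul, le_div_iff₀ hVr] at hX2

end Pool.Agent.S07229
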