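import Pool.Statements.S07316

set_option autoImplicit false
open Pool Pool.MP_150b74_co

namespace Pool.Agent.S07316

open Finset

theorem erdos (m : ℕ) (hm : 1 ≤ m) : ∃ c : Fin (2 ^ m) × Fin (2 ^ m) → Bool,
    ∀ T : Finset (Fin (2 ^ m)), T.card = 2 * m + 2 → ∀ b : Bool,
      ¬ ∀ x ∈ T, ∀ y ∈ T, x < y → c (x, y) = b := by
  classical
  by_contra hcon
  push Not at hcon
  let P : Finset (Fin (2 ^ m)) → Finset (Fin (2 ^ m) × Fin (2 ^ m)) :=
    fun T => (T ×ˢ T).filter (fun p => p.1 < p.2)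
  let bad : Finset (Fin (2 ^ m)) × Bool → Finset (Fin (2 ^ m) × Fin (2 ^ m) → Bool) :=
    fun Tb => Fintype.piFinset (fun p => if p ∈ P Tb.1 then {Tb.2} else univ)
  let I : Finset (Finset (Fin (2 ^ m)) × Bool) := (powersetCard (2 * m + 2) univ) ×ˢ univ
  have hsub : (univ : Finset (Fin (2 ^ m) × Fin (2 ^ m) → Bool)) ⊆ I.biUnion bad := by
    intro c _
    obtain ⟨T, hT, b, hb⟩ := hcon c
    rw [mem_biUnion]
    refine ⟨(T, b), by simp [I, mem_powersetCard, hT], ?_⟩
    simp only [bad, Fintype.mem_piFinset]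
    rintro ⟨x, y⟩
    split_ifs with h
    · simp only [P, mem_filter, mem_product] at h
      rw [mem_singleton]
      exact hb x h.1.1 y h.1.2 h.2
    · exact mem_univ _
  have hbad : ∀ Tb ∈ I, (bad Tb).card * 2 ^ ((2 * m + 2).choose 2) =
      Fintype.card (Fin (2 ^ m) × Fin (2 ^ m) → Bool) := by
    rintro ⟨T, b⟩ hT
    simp only [I, mem_product, mem_powersetCard] at hT
    have h1 : (P T).card = (2 * m + 2).choose 2 := by
      rw [← hT.1.2]
      exact card_product_filter_lt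
    have h2 : 2 ^ (P T).card = ∏ p : Fin (2 ^ m) × Fin (2 ^ m), if p ∈ P T then 2 else 1 := by
      rw [prod_ite_mem, univ_inter, prod_const]
    rw [← h1, h2, Fintype.card_piFinset, ← prod_mul_distrib, Fintype.card_fun, Fintype.card_bool,
      ← card_univ, ← prod_const]
    apply prod_congr rfl
    intro p _
    split_ifs <;> simp
  have h3 := (card_le_card hsub).trans card_biUnion_le
  have h4 := Nat.mul_le_mul_right (2 ^ ((2 * m + 2).choose 2)) h3
  rw [sum_mul, sum_congr rfl hbad, sum_const, card_univ, smul_eq_mul, mul_comm] at h4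
  have h5 := Nat.le_of_mul_le_mul_right h4 Fintype.card_pos
  have h6 : I.card ≤ (2 ^ m) ^ (2 * m + 2) * 2 := by
    simp only [I, card_product, card_powersetCard, card_univ, Fintype.card_fin, Fintype.card_bool]
    exact Nat.mul_le_mul_right _ (Nat.choose_le_pow _ _)
  have h7 : (2 * m + 2).choose 2 = m * (2 * m + 2) + 1 + m := by
    rw [Nat.choose_two_right, show 2 * m + 2 - 1 = 2 * m + 1 by omega,
      show (2 * m + 2) * (2 * m + 1) = (m * (2 * m + 2) + 1 + m) * 2 by ring]
    exact Nat.mul_div_cancel _ (by norm_num)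
  rw [← pow_mul, ← pow_succ] at h6
  have h8 := h5.trans h6
  rw [h7, Nat.pow_le_pow_iff_right (by norm_num)] at h8
  omega

theorem ex_delta (a b : ℕ) : ∃ i, a / 2 ^ (i + 1) = b / 2 ^ (i + 1) := by
  refine ⟨a + b, ?_⟩
  have h : a + b + 1 < 2 ^ (a + b + 1) := Nat.lt_two_pow_self
  rw [Nat.div_eq_of_lt (by omega), Nat.div_eq_of_lt (by omega)]

/-- the highest binary digit in which two numbers differ -/
def del (a b : ℕ) : ℕ := Nat.find (ex_delta a b)

theorem div_succ (a i : ℕ) : a / 2 ^ (i + 1) = a / 2 ^ i / 2 := by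
  rw [pow_succ, Nat.div_div_eq_div_mul]

theorem del_le_iff (a b i : ℕ) : del a b ≤ i ↔ a / 2 ^ (i + 1) = b / 2 ^ (i + 1) := by
  constructor
  · intro h
    induction i, h using Nat.le_induction with
    | base => exact Nat.find_spec (ex_delta a b)
    | succ i _ ih => rw [div_succ a, div_succ b, ih]
  · intro h
    exact Nat.find_min' _ h

theorem del_ne {a b : ℕ} (h : a ≠ b) : a / 2 ^ del a b ≠ b / 2 ^ del a b := by
  rcases hd : del a b with _ | d
  · simpa using h
  · intro h2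
    have := (del_le_iff a b d).mpr h2
    omega

theorem del_lt {a b N : ℕ} (ha : a < 2 ^ N) (hb : b < 2 ^ N) (hN : 1 ≤ N) : del a b < N := by
  obtain ⟨M, rfl⟩ : ∃ M, N = M + 1 := ⟨N - 1, by omega⟩
  have := (del_le_iff a b M).mpr (by rw [Nat.div_eq_of_lt ha, Nat.div_eq_of_lt hb])
  omega

theorem del_distinct {a b c : ℕ} (h1 : a < b) (h2 : b < c) : del a b ≠ del b c := by
  intro h
  have e1 := del_ne h1.ne
  have e2 := del_ne h2.ne
  have e3 := (del_le_iff a b _).mp le_rfl
  have e4 := (del_le_iff b c _).mp le_rfl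
  rw [← h] at e2 e4
  rw [div_succ, div_succ] at e3 e4
  have e5 : a / 2 ^ del a b ≤ b / 2 ^ del a b := Nat.div_le_div_right h1.le
  have e6 : b / 2 ^ del a b ≤ c / 2 ^ del a b := Nat.div_le_div_right h2.le
  omega

theorem del_max {a b c : ℕ} (h1 : a < b) (h2 : b < c) : del a c = max (del a b) (del b c) := by
  apply le_antisymm
  · rw [del_le_iff, (del_le_iff a b _).mp (le_max_left _ _),
      (del_le_iff b c _).mp (le_max_right _ _)]
  · have e := (del_le_iff a c _).mp le_rfl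
    have e5 : a / 2 ^ (del a c + 1) ≤ b / 2 ^ (del a c + 1) := Nat.div_le_div_right h1.le
    have e6 : b / 2 ^ (del a c + 1) ≤ c / 2 ^ (del a c + 1) := Nat.div_le_div_right h2.le
    rw [max_le_iff, del_le_iff, del_le_iff]
    omega

theorem triple_eq {n : ℕ} {a b c a' b' c' : Fin n} (h1 : a < b) (h2 : b < c) (h3 : a' < b')
    (h4 : b' < c') (h : ({a, b, c} : Finset (Fin n)) = {a', b', c'}) :
    a = a' ∧ b = b' ∧ c = c' := by
  have e : ∀ x, (x = a ∨ x = b ∨ x = c) ↔ (x = a' ∨ x = b' ∨ x = c') := by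
    intro x
    have := Finset.ext_iff.mp h x
    simpa using this
  have e1 := (e a).mp (by simp)
  have e2 := (e b).mp (by simp)
  have e3 := (e c).mp (by simp)
  simp only [Fin.ext_iff, Fin.lt_def] at *
  omega

theorem no_mono (m : ℕ) (c : Fin (2 ^ m) × Fin (2 ^ m) → Bool)
    (hc : ∀ T : Finset (Fin (2 ^ m)), T.card = 2 * m + 2 → ∀ b : Bool,
      ¬ ∀ x ∈ T, ∀ y ∈ T, x < y → c (x, y) = b) {n : ℕ} (U : Finset (Fin n))
    (hU : 2 * m + 2 ≤ U.card) (f : Fin n → Fin (2 ^ m)) (b : Bool)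
    (h : ∀ x ∈ U, ∀ y ∈ U, x < y → f x ≠ f y ∧ c (min (f x) (f y), max (f x) (f y)) = b) :
    False := by
  classical
  have hinj : Set.InjOn f U := by
    intro x hx y hy hxy
    rcases lt_trichotomy x y with h1 | h1 | h1
    · exact absurd hxy (h x hx y hy h1).1
    · exact h1
    · exact absurd hxy.symm (h y hy x hx h1).1
  obtain ⟨T, hT1, hT2⟩ := exists_subset_card_eq (s := U.image f) (n := 2 * m + 2)
    (by rw [card_image_of_injOn hinj]; exact hU)
  refine hc T hT2 b (fun x hx y hy hxy => ?_)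
  obtain ⟨u, hu, rfl⟩ := mem_image.mp (hT1 hx)
  obtain ⟨v, hv, rfl⟩ := mem_image.mp (hT1 hy)
  rcases lt_trichotomy u v with h1 | h1 | h1
  · have := (h u hu v hv h1).2
    rwa [min_eq_left hxy.le, max_eq_right hxy.le] at this
  · rw [h1] at hxy
    exact absurd hxy (lt_irrefl _)
  · have := (h v hv u hu h1).2
    rwa [min_eq_right hxy.le, max_eq_left hxy.le] at this

theorem step (m : ℕ) (hm : 1 ≤ m) (n : ℕ) (hn : n ≤ 2 ^ 2 ^ m) :
    ∃ φ : Finset (Fin n) → Fin 5, (∀ e, φ e ≠ 4) ∧ ∀ S : Finset (Fin n), 2 * m + 3 ≤ S.card →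
      ∀ j, ¬ ∀ e ∈ S.powersetCard 3, φ e = j := by
  classical
  obtain ⟨c, hc⟩ := erdos m hm
  let d : Fin n → Fin n → Fin (2 ^ m) := fun a b =>
    ⟨del a b, del_lt (by have := a.2; omega) (by have := b.2; omega) Nat.one_le_two_pow⟩
  let g : Fin n → Fin n → Fin n → Bool × Bool := fun a b x =>
    (c (min (d a b) (d b x), max (d a b) (d b x)), decide (d a b < d b x))
  let enc : Bool × Bool → Fin 5 := fun p =>
    if p.1 then (if p.2 then 0 else 1) else (if p.2 then 2 else 3)
  have henc : Function.Injective enc := by decide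
  have henc4 : ∀ p, enc p ≠ 4 := by decide
  let φ0 : Finset (Fin n) → Bool × Bool := fun e =>
    if h : ∃ t : Fin n × Fin n × Fin n, t.1 < t.2.1 ∧ t.2.1 < t.2.2 ∧ e = {t.1, t.2.1, t.2.2}
    then g h.choose.1 h.choose.2.1 h.choose.2.2 else (true, true)
  have hφ0 : ∀ a b x : Fin n, a < b → b < x → φ0 {a, b, x} = g a b x := by
    intro a b x h1 h2
    have h : ∃ t : Fin n × Fin n × Fin n, t.1 < t.2.1 ∧ t.2.1 < t.2.2 ∧
        ({a, b, x} : Finset (Fin n)) = {t.1, t.2.1, t.2.2} := ⟨(a, b, x), h1, h2, rfl⟩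
    obtain ⟨e1, e2, e3⟩ := triple_eq h1 h2 h.choose_spec.1 h.choose_spec.2.1 h.choose_spec.2.2
    simp only [φ0, dif_pos h]
    rw [← e1, ← e2, ← e3]
  refine ⟨fun e => enc (φ0 e), fun e => henc4 _, fun S hS j hj => ?_⟩
  have hne : S.Nonempty := card_pos.mp (by omega)
  have hall : ∀ a ∈ S, ∀ b ∈ S, ∀ x ∈ S, a < b → b < x → enc (g a b x) = j := by
    intro a ha b hb x hx h1 h2
    rw [← hφ0 a b x h1 h2]
    apply hj
    rw [mem_powersetCard]
    refine ⟨?_, card_eq_three.mpr ⟨a, b, x, h1.ne, (h1.trans h2).ne, h2.ne, rfl⟩⟩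
    intro y hy
    simp only [mem_insert, mem_singleton] at hy
    rcases hy with rfl | rfl | rfl <;> assumption
  obtain ⟨p, hp⟩ : ∃ p, ∀ a ∈ S, ∀ b ∈ S, ∀ x ∈ S, a < b → b < x → g a b x = p := by
    by_cases h : ∃ p, enc p = j
    · obtain ⟨p, rfl⟩ := h
      exact ⟨p, fun a ha b hb x hx h1 h2 => henc (hall a ha b hb x hx h1 h2)⟩
    · exact ⟨(true, true), fun a ha b hb x hx h1 h2 =>
        absurd ⟨_, hall a ha b hb x hx h1 h2⟩ h⟩
  have hmax : ∀ a b x : Fin n, a < b → b < x → d a x = max (d a b) (d b x) := by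
    intro a b x h1 h2
    apply Fin.ext
    rw [Fin.coe_max]
    exact del_max h1 h2
  have hdist : ∀ a b x : Fin n, a < b → b < x → d a b ≠ d b x := by
    intro a b x h1 h2 h
    exact del_distinct h1 h2 (congrArg Fin.val h)
  obtain ⟨b, dir⟩ := p
  cases dir with
  | true =>
    refine no_mono m c hc (S.erase (S.min' hne)) (by rw [card_erase_of_mem (min'_mem _ _)]; omega)
      (fun t => d (S.min' hne) t) b ?_
    intro x hx y hy hxy
    rw [mem_erase] at hx hy
    have h1 : S.min' hne < x := lt_of_le_of_ne (min'_le _ _ hx.2) hx.1.symm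
    have h2 := hp _ (min'_mem _ hne) x hx.2 y hy.2 h1 hxy
    simp only [g, Prod.mk.injEq, decide_eq_true_eq] at h2
    have h3 : d (S.min' hne) y = d x y := by rw [hmax _ x y h1 hxy, max_eq_right h2.2.le]
    simp only [h3]
    exact ⟨h2.2.ne, h2.1⟩
  | false =>
    refine no_mono m c hc (S.erase (S.max' hne)) (by rw [card_erase_of_mem (max'_mem _ _)]; omega)
      (fun t => d t (S.max' hne)) b ?_
    intro x hx y hy hxy
    rw [mem_erase] at hx hy
    have h1 : y < S.max' hne := lt_of_le_of_ne (le_max' _ _ hy.2) hy.1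
    have h2 := hp x hx.2 y hy.2 _ (max'_mem _ hne) hxy h1
    simp only [g, Prod.mk.injEq, decide_eq_false_iff_not, not_lt] at h2
    have h3 : d x (S.max' hne) = d x y := by rw [hmax x y _ hxy h1, max_eq_left h2.2]
    simp only [h3]
    exact ⟨hdist x y _ hxy h1, h2.1⟩

theorem card_through {n : ℕ} (S : Finset (Fin n)) (v : Fin n) (hv : v ∈ S) :
    ((S.powersetCard 3).filter (fun e => v ∈ e)).card ≤ (S.card - 1).choose 2 := by
  classical
  rw [← card_erase_of_mem hv, ← card_powersetCard]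
  refine card_le_card_of_injOn (fun e => e.erase v) ?_ ?_
  · intro e he
    simp only [coe_filter, mem_powersetCard, Set.mem_setOf_eq] at he
    simp only [mem_coe, mem_powersetCard]
    exact ⟨erase_subset_erase _ he.1.1, by rw [card_erase_of_mem he.2, he.1.2]⟩
  · intro e he e' he' h
    simp only [coe_filter, Set.mem_setOf_eq] at he he'
    simp only at h
    rw [← insert_erase he.2, h, insert_erase he'.2]

theorem growth (C D : ℝ) : ∃ m : ℕ, 1 ≤ m ∧ C * ((2 * m + 3 : ℕ) : ℝ) ^ D < 2 ^ m * Real.log 2 := by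
  have hl : 0 < Real.log 2 := Real.log_pos (by norm_num)
  have ht : Filter.Tendsto (fun m : ℕ => Real.exp (Real.log 2 / 2 * ((2 * m + 3 : ℕ) : ℝ)) /
      ((2 * m + 3 : ℕ) : ℝ) ^ D) Filter.atTop Filter.atTop := by
    refine (tendsto_exp_mul_div_rpow_atTop D _ (by positivity)).comp
      (tendsto_natCast_atTop_atTop.comp ?_)
    exact Filter.tendsto_atTop_mono (fun m => by simp only [id]; omega) Filter.tendsto_id
  obtain ⟨m, h1, h2⟩ := ((ht.eventually_gt_atTop (C * Real.exp (Real.log 2 / 2 * 3) / Real.log 2)).and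
    (Filter.eventually_ge_atTop 1)).exists
  refine ⟨m, h2, ?_⟩
  have hpos : (0 : ℝ) < ((2 * m + 3 : ℕ) : ℝ) ^ D := by positivity
  have e : Real.exp (Real.log 2 / 2 * ((2 * m + 3 : ℕ) : ℝ)) =
      2 ^ m * Real.exp (Real.log 2 / 2 * 3) := by
    rw [← Real.exp_log (show (0 : ℝ) < 2 ^ m by positivity), ← Real.exp_add, Real.log_pow]
    congr 1
    push_cast
    ring
  rw [e, div_lt_div_iff₀ hl hpos] at h1
  have he : 0 < Real.exp (Real.log 2 / 2 * 3) := Real.exp_pos _
  nlinarith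

/-- The negation of the preceding statement: For r≥3, q≥2, ε>0 there is D such that for every ρ in [0,1]^q with sum below q−ε, some C gives, for all k≥1, an n with ln n ≤ C·k^D where every q-colouring of r-sets of [n] has an S of size ≥k and colour j with min colour-j degree in S ≥ ρ_j·C(∣S∣−1,r−1). -/
theorem result :
    ¬ (∀ r q : ℕ, 3 ≤ r → 2 ≤ q → ∀ ε : ℝ, 0 < ε →
      ∃ D : ℝ, ∀ ρ : Fin q → ℝ, (∀ i, 0 ≤ ρ i ∧ ρ i ≤ 1) → ∑ i, ρ i < (q : ℝ) - ε →
        ∃ C : ℝ, ∀ k : ℕ, 1 ≤ k → ∃ n : ℕ, Real.log (n : ℝ) ≤ C * (k : ℝ) ^ D ∧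
          ∀ φ : Finset (Fin n) → Fin q, ∃ S : Finset (Fin n), k ≤ S.card ∧ ∃ j : Fin q,
            ∀ v ∈ S, ρ j * (((S.card - 1).choose (r - 1) : ℕ) : ℝ) ≤
              (((S.powersetCard r).filter (fun e => v ∈ e ∧ φ e = j)).card : ℝ)) := by
  classical
  intro h
  obtain ⟨D, hD⟩ := h 3 5 le_rfl (by norm_num) (1 / 4) (by norm_num)
  obtain ⟨C, hC⟩ := hD (fun j => if j = 4 then 1 / 2 else 1)
    (fun i => by split_ifs <;> norm_num) (by simp [Fin.sum_univ_five]; norm_num)
  obtain ⟨m, hm, hg⟩ := growth C D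
  obtain ⟨n, hn, hφ⟩ := hC (2 * m + 3) (by omega)
  by_cases hle : n ≤ 2 ^ 2 ^ m
  · obtain ⟨φ, h4, hmono⟩ := step m hm n hle
    obtain ⟨S, hS, j, hj⟩ := hφ φ
    by_cases hj4 : j = 4
    · obtain ⟨v, hv⟩ : S.Nonempty := card_pos.mp (by omega)
      have h1 := hj v hv
      rw [if_pos hj4, filter_false_of_mem (fun e _ he => h4 e (he.2.trans hj4))] at h1
      have h2 : 0 < (S.card - 1).choose (3 - 1) := Nat.choose_pos (by omega)
      have h3 : (0 : ℝ) < ((S.card - 1).choose (3 - 1) : ℕ) := by exact_mod_cast h2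
      simp only [card_empty, Nat.cast_zero] at h1
      linarith
    · refine hmono S hS j (fun e he => ?_)
      obtain ⟨v, hv⟩ : e.Nonempty := card_pos.mp (by rw [(mem_powersetCard.mp he).2]; norm_num)
      have hvS : v ∈ S := (mem_powersetCard.mp he).1 hv
      have h1 := hj v hvS
      rw [if_neg hj4, one_mul] at h1
      have h2 : (S.card - 1).choose 2 ≤
          ((S.powersetCard 3).filter (fun e => v ∈ e ∧ φ e = j)).card := by exact_mod_cast h1
      have h3 : (S.powersetCard 3).filter (fun e => v ∈ e ∧ φ e = j) =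
          (S.powersetCard 3).filter (fun e => v ∈ e) :=
        eq_of_subset_of_card_le (fun x hx => by
          rw [mem_filter] at hx ⊢
          exact ⟨hx.1, hx.2.1⟩) ((card_through S v hvS).trans h2)
      have h5 : e ∈ (S.powersetCard 3).filter (fun e => v ∈ e) := mem_filter.mpr ⟨he, hv⟩
      rw [← h3, mem_filter] at h5
      exact h5.2.2
  · have h1 : ((2 : ℝ) ^ 2 ^ m) ≤ n := by exact_mod_cast (not_le.mp hle).le
    have h2 := Real.log_le_log (by positivity) h1
    rw [Real.log_pow] at h2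
    push_cast at h2 hg hn
    linarith

end Pool.Agent.S07316
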