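import Pool.Statements.S07325
import Pool.Agent.H103Z.RRankMain

set_option autoImplicit false
open Pool Pool.MP_15d78c_co

namespace Pool.Agent.S07325

/-- For every d ≥ 2 and non-empty family R of partitions of [d] there is F such that any tensor over any field with R-rank ≥ l has a restriction to a box with sides of size ≤ F(l) that still has R-rank ≥ l. -/
theorem result :
  ∀ (d : ℕ), 2 ≤ d →
  ∀ (R : Set (Finpartition (Finset.univ : Finset (Fin d)))), R.Nonempty →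
  ∃ F : ℕ → ℕ, ∀ (l : ℕ) (K : Type) [Field K] (Q : Fin d → Type)
    [∀ α, Finite (Q α)] [∀ α, Nonempty (Q α)] (T : (∀ α, Q α) → K),
    (∀ k < l, ¬ ∃ S : Fin k → ((∀ α, Q α) → K),
        (∀ i, ∃ P ∈ R, ∃ a : ∀ I : Finset (Fin d), (∀ β : {γ // γ ∈ I}, Q β.1) → K,
            ∀ x : (∀ α, Q α), S i x = ∏ I ∈ P.parts, a I (fun β => x β.1)) ∧
        T = ∑ i, S i) →
    ∃ X : ∀ α, Finset (Q α), (∀ α, (X α).card ≤ F l) ∧
      ∀ k < l, ¬ ∃ S : Fin k → ((∀ α, {q // q ∈ X α}) → K),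
        (∀ i, ∃ P ∈ R, ∃ a : ∀ I : Finset (Fin d), (∀ β : {γ // γ ∈ I}, {q // q ∈ X β.1}) → K,
            ∀ y : (∀ α, {q // q ∈ X α}), S i y = ∏ I ∈ P.parts, a I (fun β => y β.1)) ∧
        (fun y => T (fun α => (y α).1)) = ∑ i, S i :=
  fun _ _ R _ => Pool.Agent.H103Z.RRank.main R

end Pool.Agent.S07325
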