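import Pool.Statements.S07344
import Pool.Agent.H626Z.SignRank

set_option autoImplicit false
open Pool Pool.MP_166f70_co

namespace Pool.Agent.S07344

/-- The negation of the preceding statement: For every sign pattern whose least rank among real matrices with that pattern is some r ≥ 3, and whose columns each have at most r zeros, some rational matrix with that pattern also has rank exactly r. -/
theorem result :
    ¬ (∀ (m n r : ℕ) (A : Matrix (Fin m) (Fin n) SignType),
      3 ≤ r →
      (∃ B : Matrix (Fin m) (Fin n) ℝ,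
          (∀ i j, SignType.sign (B i j) = A i j) ∧ B.rank = r) →
      (∀ B : Matrix (Fin m) (Fin n) ℝ,
          (∀ i j, SignType.sign (B i j) = A i j) → r ≤ B.rank) →
      (∀ j : Fin n, (Finset.univ.filter (fun i : Fin m => A i j = 0)).card ≤ r) →
      ∃ C : Matrix (Fin m) (Fin n) ℚ,
        (∀ i j, SignType.sign (C i j) = A i j) ∧ C.rank = r) := by
  intro H
  have hz : ∀ {K : Type} [Field K] [LinearOrder K] [IsStrictOrderedRing K]
      (M : Matrix (Fin 10) (Fin 12) K),
      (∀ i j, SignType.sign (M i j) = SignType.sign (Pool.Agent.H626Z.SignRank.B i j)) →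
      ∀ i j, M i j = 0 ↔ Pool.Agent.H626Z.SignRank.Z i j := by
    intro K _ _ _ M hM i j
    rw [← Pool.Agent.H626Z.SignRank.B_zero, ← sign_eq_zero_iff, hM, sign_eq_zero_iff]
  obtain ⟨Q, hQ, hr⟩ := H 10 12 3 (fun i j => SignType.sign (Pool.Agent.H626Z.SignRank.B i j))
    le_rfl
    ⟨Pool.Agent.H626Z.SignRank.B, fun _ _ => rfl, le_antisymm Pool.Agent.H626Z.SignRank.rank_B_le
      (Pool.Agent.H626Z.SignRank.rank_ge _ Pool.Agent.H626Z.SignRank.B_zero)⟩
    (fun M hM => Pool.Agent.H626Z.SignRank.rank_ge M (hz M hM))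
    (by
      intro j
      simp only [sign_eq_zero_iff, Pool.Agent.H626Z.SignRank.B_zero]
      revert j
      decide)
  exact Pool.Agent.H626Z.SignRank.no_rational Q (hz Q hQ) hr.le

end Pool.Agent.S07344
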