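import Pool.Statements.S07348
import Pool.Agent.H775Z.Bis

set_option autoImplicit false
open Classical
open Pool Pool.MP_16a663_co

namespace Pool.Agent.S07348

/-- The negation of the preceding statement: For every ε>0 there are c>0 and N such that every set of n≥N plane points in which distinct pairs have distinct perpendicular bisectors determines at least c·n^(2−ε) distinct distances. -/
theorem result :
    ¬ (∀ ε : ℝ, 0 < ε → ∃ c : ℝ, 0 < c ∧ ∃ N : ℕ,
      ∀ P : Finset (EuclideanSpace ℝ (Fin 2)), N ≤ P.card →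
        (∀ a ∈ P, ∀ b ∈ P, ∀ x ∈ P, ∀ y ∈ P, a ≠ b → x ≠ y →
          AffineSubspace.perpBisector a b = AffineSubspace.perpBisector x y →
            (a = x ∧ b = y) ∨ (a = y ∧ b = x)) →
        c * (P.card : ℝ) ^ (2 - ε) ≤
          ((P.offDiag.image (fun q => dist q.1 q.2)).card : ℝ)) := by
  intro h
  obtain ⟨c, hc, N, hN⟩ := h (1 / 3) (by norm_num)
  have hr : (1 : ℝ) < (2 : ℝ) ^ ((2 : ℝ) - 1 / 3) / 3 := by
    rw [lt_div_iff₀ (by norm_num), one_mul]
    have h3 : ((2 : ℝ) ^ ((2 : ℝ) - 1 / 3)) ^ (3 : ℕ) = 32 := by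
      rw [← Real.rpow_natCast, ← Real.rpow_mul (by norm_num)]
      norm_num
    refine lt_of_pow_lt_pow_left₀ 3 (by positivity) ?_
    rw [h3]; norm_num
  have ht := tendsto_pow_atTop_atTop_of_one_lt hr
  obtain ⟨d, hd1, hd2⟩ := ((ht.eventually_gt_atTop (1 / c)).and
    (Filter.eventually_ge_atTop N)).exists
  obtain ⟨P, hP, hb, hT⟩ := Pool.Agent.H775Z.Bis.exists_set d
  have h1 := hN P (by rw [hP]; exact hd2.trans Nat.lt_two_pow_self.le) hb
  have h2 := hT (P.offDiag.image (fun q => dist q.1 q.2)) (by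
    intro t ht
    obtain ⟨q, hq, rfl⟩ := Finset.mem_image.1 ht
    rw [Finset.mem_offDiag] at hq
    exact ⟨q.1, hq.1, q.2, hq.2.1, rfl⟩)
  have h3 : ((P.offDiag.image (fun q => dist q.1 q.2)).card : ℝ) ≤ 3 ^ d := by exact_mod_cast h2
  rw [hP] at h1
  have h4 : (((2 ^ d : ℕ) : ℝ)) ^ ((2 : ℝ) - 1 / 3) = ((2 : ℝ) ^ ((2 : ℝ) - 1 / 3)) ^ d := by
    push_cast
    rw [← Real.rpow_natCast, ← Real.rpow_mul (by norm_num), mul_comm,
      Real.rpow_mul (by norm_num), Real.rpow_natCast]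
  rw [h4] at h1
  rw [div_pow, div_lt_div_iff₀ hc (by positivity)] at hd1
  nlinarith

end Pool.Agent.S07348
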