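import Pool.Statements.S07351
import Pool.Agent.H99Z.Link

set_option autoImplicit false
open Pool Pool.MP_16ad2f_co

namespace Pool.Agent.S07351

/-- Some finite group whose order is not a power of 2 contains ℓ≥2 distinct nontrivial (v,k,λ) difference sets D_i and integers μ,ν such that each D_i D_j^(-1) (i≠j) equals (μ−ν)E+νG for some (v,k,λ) difference set E. -/
theorem result :
    ∃ (G : Type) (_ : Group G) (_ : Fintype G) (_ : DecidableEq G),
      (¬ ∃ m : ℕ, Fintype.card G = 2 ^ m) ∧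
      ∃ (ℓ : ℕ) (k lam : ℕ) (μ ν : ℤ) (D : Fin ℓ → Finset G),
        2 ≤ ℓ ∧ 2 ≤ k ∧ k + 2 ≤ Fintype.card G ∧ Function.Injective D ∧
        (∀ i : Fin ℓ, (D i).card = k ∧
          ∀ g : G, g ≠ 1 →
            ((D i ×ˢ D i).filter (fun p : G × G => p.1 * p.2⁻¹ = g)).card = lam) ∧
        ∀ i j : Fin ℓ, i ≠ j →
          ∃ E : Finset G, E.card = k ∧
            (∀ g : G, g ≠ 1 →
              ((E ×ˢ E).filter (fun p : G × G => p.1 * p.2⁻¹ = g)).card = lam) ∧
            ∀ g : G,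
              ((((D i ×ˢ D j).filter (fun p : G × G => p.1 * p.2⁻¹ = g)).card : ℕ) : ℤ)
                = (μ - ν) * (if g ∈ E then (1 : ℤ) else 0) + ν := by
  have hc : Fintype.card (Multiplicative (H99Z.Link.A × H99Z.Link.A)) = 1296 := by
    rw [Fintype.card_multiplicative]
    exact_mod_cast H99Z.Link.card_AA
  refine ⟨Multiplicative (H99Z.Link.A × H99Z.Link.A), inferInstance, inferInstance, inferInstance,
    ?_, 2, 630, 306, 297, 315, ![H99Z.Link.neg H99Z.Link.F1, H99Z.Link.neg H99Z.Link.F2],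
    le_refl _, by norm_num, by rw [hc]; norm_num, ?_, ?_, ?_⟩
  · rintro ⟨m, hm⟩
    rw [hc] at hm
    have h3 : 3 ∣ 2 ^ m := by rw [← hm]; norm_num
    have h4 := (Nat.Prime.dvd_of_dvd_pow Nat.prime_three h3)
    omega
  · intro i j hij
    fin_cases i <;> fin_cases j
    · rfl
    · exact absurd hij H99Z.Link.ne12
    · exact absurd hij.symm H99Z.Link.ne12
    · rfl
  · intro i
    fin_cases i
    · exact ⟨H99Z.Link.ds_card H99Z.Link.had1, H99Z.Link.ds_lam H99Z.Link.had1⟩
    · exact ⟨H99Z.Link.ds_card H99Z.Link.had2, H99Z.Link.ds_lam H99Z.Link.had2⟩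
  · intro i j hij
    fin_cases i <;> fin_cases j
    · exact absurd rfl hij
    · exact ⟨H99Z.Link.neg H99Z.Link.F3, H99Z.Link.ds_card H99Z.Link.had3,
        H99Z.Link.ds_lam H99Z.Link.had3,
        H99Z.Link.ds_link H99Z.Link.had1 H99Z.Link.had2 H99Z.Link.had3 H99Z.Link.link12⟩
    · exact ⟨H99Z.Link.neg H99Z.Link.F4, H99Z.Link.ds_card H99Z.Link.had4,
        H99Z.Link.ds_lam H99Z.Link.had4,
        H99Z.Link.ds_link H99Z.Link.had2 H99Z.Link.had1 H99Z.Link.had4 H99Z.Link.link21⟩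
    · exact absurd rfl hij

end Pool.Agent.S07351
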