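import Pool.Statements.S07355
import Pool.Agent.H200Z.Data0

set_option autoImplicit false
open Pool Pool.MP_16c276_co

namespace Pool.Agent.S07355

/-- There is a finite simplicial complex whose geometric realization is homeomorphic to the closed 4-ball, which collapses to a point by elementary collapses, and which is evasive (not non-evasive under the vertex link/deletion recursion). -/
theorem result :
    ∃ n : ℕ, ∃ K : Finset (Finset (Fin n)),
      (∅ ∈ K ∧ ∀ σ ∈ K, ∀ τ : Finset (Fin n), τ ⊆ σ → τ ∈ K) ∧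
      Nonempty (↥{x : Fin n → ℝ | (∀ i, 0 ≤ x i) ∧ ∑ i, x i = 1 ∧
          ∃ σ ∈ K, ∀ i, i ∉ σ → x i = 0} ≃ₜ
        ↥(Metric.closedBall (0 : EuclideanSpace ℝ (Fin 4)) 1)) ∧
      (∀ S : Finset (Finset (Fin n)) → Prop,
        (∀ v : Fin n, S {∅, {v}}) →
        (∀ L : Finset (Finset (Fin n)), ∀ σ ∈ L, ∀ τ ∈ L, σ ⊂ τ →
          τ.card = σ.card + 1 →
          (∀ ρ ∈ L, σ ⊆ ρ → ρ = σ ∨ ρ = τ) →
          S ((L.erase σ).erase τ) → S L) →
        S K) ∧
      ¬ (∀ S : Finset (Finset (Fin n)) → Prop,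
        (∀ v : Fin n, S {∅, {v}}) →
        (∀ L : Finset (Finset (Fin n)), ∀ v : Fin n, {v} ∈ L →
          S (L.filter (fun σ => v ∉ σ)) →
          S (L.filter (fun σ => v ∉ σ ∧ insert v σ ∈ L)) → S L) →
        S K) := by
  refine ⟨15, H200Z.gen (H200Z.decL 15 (H200Z.suspB H200Z.B0 12 13)), H200Z.susp_ball.1,
    H200Z.susp_ball.2, H200Z.susp_coll, fun h => H200Z.susp_evasive ?_⟩
  exact h H200Z.NonEvasive H200Z.NonEvasive.point
    (fun L v hv hd hl => H200Z.NonEvasive.step L v hv hd hl)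

end Pool.Agent.S07355
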