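import Pool.Statements.S07369
import Pool.Agent.H535Z.Dijoin.Bridge

set_option autoImplicit false
open Pool Pool.MP_172ed5_co

namespace Pool.Agent.S07369

/-- There are tournaments D1, D2, each with inversion number equal to its tournament minimum rank (min over vertex orders of GF(2) minimum rank of the backward-arc graph), such that the dijoin D1→D2 has inversion number below inv(D1)+inv(D2). -/
theorem result :
  ∃ (n m : ℕ) (D₁ : Fin n → Fin n → Prop) (D₂ : Fin m → Fin m → Prop),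
    ((∀ u, ¬ D₁ u u) ∧ ∀ u v, u ≠ v → (D₁ u v ↔ ¬ D₁ v u)) ∧
    ((∀ u, ¬ D₂ u u) ∧ ∀ u v, u ≠ v → (D₂ u v ↔ ¬ D₂ v u)) ∧
    sInf {k : ℕ | ∃ X : Fin k → Finset (Fin n), ∃ f : Fin n → ℕ, ∀ u v,
        ((D₁ u v ∧ Even (Finset.univ.filter (fun i => u ∈ X i ∧ v ∈ X i)).card) ∨
         (D₁ v u ∧ Odd (Finset.univ.filter (fun i => u ∈ X i ∧ v ∈ X i)).card)) → f u < f v}
      = sInf {r : ℕ | ∃ f : Fin n → ℕ, Function.Injective f ∧
          ∃ M : Matrix (Fin n) (Fin n) (ZMod 2), M.IsSymm ∧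
            (∀ u v, u ≠ v → (M u v = 1 ↔ ((D₁ u v ∧ f v < f u) ∨ (D₁ v u ∧ f u < f v)))) ∧
            M.rank = r} ∧
    sInf {k : ℕ | ∃ X : Fin k → Finset (Fin m), ∃ f : Fin m → ℕ, ∀ u v,
        ((D₂ u v ∧ Even (Finset.univ.filter (fun i => u ∈ X i ∧ v ∈ X i)).card) ∨
         (D₂ v u ∧ Odd (Finset.univ.filter (fun i => u ∈ X i ∧ v ∈ X i)).card)) → f u < f v}
      = sInf {r : ℕ | ∃ f : Fin m → ℕ, Function.Injective f ∧
          ∃ M : Matrix (Fin m) (Fin m) (ZMod 2), M.IsSymm ∧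
            (∀ u v, u ≠ v → (M u v = 1 ↔ ((D₂ u v ∧ f v < f u) ∨ (D₂ v u ∧ f u < f v)))) ∧
            M.rank = r} ∧
    ∃ J : Fin n ⊕ Fin m → Fin n ⊕ Fin m → Prop,
      (∀ x y, J x y ↔
        ((∃ a b, x = Sum.inl a ∧ y = Sum.inl b ∧ D₁ a b) ∨
         (∃ a b, x = Sum.inr a ∧ y = Sum.inr b ∧ D₂ a b) ∨
         (∃ a b, x = Sum.inl a ∧ y = Sum.inr b))) ∧
      sInf {k : ℕ | ∃ X : Fin k → Finset (Fin n ⊕ Fin m), ∃ f : Fin n ⊕ Fin m → ℕ, ∀ u v,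
          ((J u v ∧ Even (Finset.univ.filter (fun i => u ∈ X i ∧ v ∈ X i)).card) ∨
           (J v u ∧ Odd (Finset.univ.filter (fun i => u ∈ X i ∧ v ∈ X i)).card)) → f u < f v}
        <
      sInf {k : ℕ | ∃ X : Fin k → Finset (Fin n), ∃ f : Fin n → ℕ, ∀ u v,
          ((D₁ u v ∧ Even (Finset.univ.filter (fun i => u ∈ X i ∧ v ∈ X i)).card) ∨
           (D₁ v u ∧ Odd (Finset.univ.filter (fun i => u ∈ X i ∧ v ∈ X i)).card)) → f u < f v}
      + sInf {k : ℕ | ∃ X : Fin k → Finset (Fin m), ∃ f : Fin m → ℕ, ∀ u v,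
          ((D₂ u v ∧ Even (Finset.univ.filter (fun i => u ∈ X i ∧ v ∈ X i)).card) ∨
           (D₂ v u ∧ Odd (Finset.univ.filter (fun i => u ∈ X i ∧ v ∈ X i)).card)) → f u < f v} := by
  obtain ⟨n, T₁, T₂, h1, h2, e1, e2, k, h3, h4⟩ := H535Z.Dijoin.main_even
  have i1 := congrArg sInf (Set.ext (H535Z.Dijoin.Inv_iff_finset h1) :
    {k | _} = {k | H535Z.Dijoin.Inv T₁ k})
  have i2 := congrArg sInf (Set.ext (H535Z.Dijoin.Inv_iff_finset h2) :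
    {k | _} = {k | H535Z.Dijoin.Inv T₂ k})
  have i3 := congrArg sInf (Set.ext (H535Z.Dijoin.Inv_iff_finset (H535Z.Dijoin.dj_isT h1 h2)) :
    {k | _} = {k | H535Z.Dijoin.Inv (H535Z.Dijoin.dj T₁ T₂) k})
  have t1 := congrArg sInf (Set.ext (H535Z.Dijoin.Tm_iff_order h1) :
    {k | _} = {k | H535Z.Dijoin.Tm T₁ k})
  have t2 := congrArg sInf (Set.ext (H535Z.Dijoin.Tm_iff_order h2) :
    {k | _} = {k | H535Z.Dijoin.Tm T₂ k})
  refine ⟨n, n, T₁, T₂, h1, h2,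
    i1.trans ((H535Z.Dijoin.inv_eq_tmr_of_even h1 e1).trans t1.symm),
    i2.trans ((H535Z.Dijoin.inv_eq_tmr_of_even h2 e2).trans t2.symm),
    H535Z.Dijoin.dj T₁ T₂, ?_, ?_⟩
  · rintro (a | a) (b | b) <;> simp [H535Z.Dijoin.dj]
  · have h5 := H535Z.Dijoin.inv_le h3
    exact i3.trans_lt ((h5.trans_lt h4).trans_eq (congrArg₂ (· + ·) i1.symm i2.symm))

end Pool.Agent.S07369
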