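import Pool.Statements.S07393
import Pool.Agent.H106Z.Sat2

set_option autoImplicit false
open Classical
open Pool Pool.MP_1887ad_co

namespace Pool.Agent.S07393

/-- For every k ≥ 26 and every threshold sequence r_k(n) of random k-SAT, some ε>0 and some online rule choosing one of two uniform random k-clauses per step keep the formula after ⌊(r_k(n)+ε)n⌋ steps satisfiable with probability tending to 1. -/
theorem result :
  ∀ k : ℕ, 26 ≤ k →
  ∀ r : ℕ → ℝ,
    (∀ ε : ℝ, 0 < ε →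
      Filter.Tendsto (fun n : ℕ =>
        ((Finset.univ.filter (fun F : Fin ⌊(r n + ε) * (n : ℝ)⌋₊ → (Fin k ↪ Fin n) × (Fin k → Bool) =>
            ∃ a : Fin n → Bool, ∀ i, ∃ j : Fin k, a ((F i).1 j) = (F i).2 j)).card : ℝ) /
          (Fintype.card (Fin ⌊(r n + ε) * (n : ℝ)⌋₊ → (Fin k ↪ Fin n) × (Fin k → Bool)) : ℝ))
        Filter.atTop (nhds 0) ∧
      Filter.Tendsto (fun n : ℕ =>
        ((Finset.univ.filter (fun F : Fin ⌊(r n - ε) * (n : ℝ)⌋₊ → (Fin k ↪ Fin n) × (Fin k → Bool) =>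
            ∃ a : Fin n → Bool, ∀ i, ∃ j : Fin k, a ((F i).1 j) = (F i).2 j)).card : ℝ) /
          (Fintype.card (Fin ⌊(r n - ε) * (n : ℝ)⌋₊ → (Fin k ↪ Fin n) × (Fin k → Bool)) : ℝ))
        Filter.atTop (nhds 1)) →
    ∃ ε : ℝ, 0 < ε ∧
      ∃ R : (n : ℕ) → Fin ⌊(r n + ε) * (n : ℝ)⌋₊ →
          (Fin ⌊(r n + ε) * (n : ℝ)⌋₊ →
            ((Fin k ↪ Fin n) × (Fin k → Bool)) × ((Fin k ↪ Fin n) × (Fin k → Bool))) → Bool,
        (∀ (n : ℕ) (i : Fin ⌊(r n + ε) * (n : ℝ)⌋₊)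
            (ω ω' : Fin ⌊(r n + ε) * (n : ℝ)⌋₊ →
              ((Fin k ↪ Fin n) × (Fin k → Bool)) × ((Fin k ↪ Fin n) × (Fin k → Bool))),
            (∀ j : Fin ⌊(r n + ε) * (n : ℝ)⌋₊, j ≤ i → ω j = ω' j) → R n i ω = R n i ω') ∧
        Filter.Tendsto (fun n : ℕ =>
          ((Finset.univ.filter (fun ω : Fin ⌊(r n + ε) * (n : ℝ)⌋₊ →
                ((Fin k ↪ Fin n) × (Fin k → Bool)) × ((Fin k ↪ Fin n) × (Fin k → Bool)) =>
              ∃ a : Fin n → Bool, ∀ i, ∃ j : Fin k,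
                a ((if R n i ω then (ω i).2 else (ω i).1).1 j) =
                  (if R n i ω then (ω i).2 else (ω i).1).2 j)).card : ℝ) /
            (Fintype.card (Fin ⌊(r n + ε) * (n : ℝ)⌋₊ →
                ((Fin k ↪ Fin n) × (Fin k → Bool)) × ((Fin k ↪ Fin n) × (Fin k → Bool))) : ℝ))
          Filter.atTop (nhds 1) := by
  intro k hk r hr
  have h1 := (hr 1 one_pos).2
  have h2 := h1.eventually (lt_mem_nhds (show (9 / 10 : ℝ) < 1 by norm_num))
  have h3 : ∀ᶠ n : ℕ in Filter.atTop, ((⌊(r n + 1) * (n : ℝ)⌋₊ : ℕ) : ℝ) ≤ 2 ^ k * n := by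
    filter_upwards [h2, Filter.eventually_gt_atTop 0] with n hn hn0
    have hn' : (0 : ℝ) < n := by exact_mod_cast hn0
    by_cases h4 : r n + 1 ≤ 2 ^ k
    · have h5 : (r n + 1) * (n : ℝ) ≤ ((2 ^ k * n : ℕ) : ℝ) := by
        push_cast; gcongr
      have h6 := Nat.floor_le_of_le h5
      exact_mod_cast h6
    · exfalso
      have h0 : 2 ≤ 2 ^ k := le_trans (by norm_num) (Nat.pow_le_pow_right (by norm_num) hk)
      have h5 : (2 ^ k - 2) * n ≤ ⌊(r n - 1) * (n : ℝ)⌋₊ := by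
        apply Nat.le_floor
        rw [Nat.cast_mul, Nat.cast_sub h0]
        push_cast
        apply mul_le_mul_of_nonneg_right _ hn'.le
        linarith [not_le.1 h4]
      have h6 := Pool.Agent.H106Z.Sat.theta_le hk hn0 _ h5
      have h7 := Pool.Agent.H106Z.Sat.first_moment (k := k) (n := n) ⌊(r n - 1) * (n : ℝ)⌋₊
      rw [Fintype.card_fun, Fintype.card_fin, Nat.cast_pow] at hn
      set T : ℝ := (Fintype.card ((Fin k ↪ Fin n) × (Fin k → Bool)) : ℝ) ^ ⌊(r n - 1) * (n : ℝ)⌋₊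
        with hT
      have hT0 : 0 ≤ T := by positivity
      rcases hT0.eq_or_lt with h8 | h8
      · rw [← h8, div_zero] at hn
        norm_num at hn
      · rw [lt_div_iff₀ h8] at hn
        have h9 := mul_le_mul_of_nonneg_right h6 hT0
        exact absurd (hn.trans_le (le_trans (by convert h7) h9)) (lt_irrefl _)
  refine ⟨1, one_pos, fun n i ω => Pool.Agent.H106Z.Sat.pick (ω i), fun n i ω ω' h => by
    simp only [h i le_rfl], ?_⟩
  have h4 : Filter.Tendsto (fun n : ℕ => 1 - (2 + (k : ℝ) ^ 3) / n) Filter.atTop (nhds (1 - 0)) :=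
    tendsto_const_nhds.sub (tendsto_const_div_atTop_nhds_zero_nat _)
  rw [sub_zero] at h4
  refine tendsto_of_tendsto_of_tendsto_of_le_of_le' h4 tendsto_const_nhds ?_ ?_
  · filter_upwards [h3, Pool.Agent.H106Z.Sat.ev_D k, Filter.eventually_gt_atTop 0] with n hm hD hn0
    have h5 := Pool.Agent.H106Z.Sat.good_ge hk hn0 hD _ hm
    have h6 : (0 : ℝ) < Fintype.card (Fin k ↪ Fin n) := by
      have : (0 : ℝ) < (n : ℝ) ^ k := by positivity
      linarith
    have h7 : (0 : ℝ) < Fintype.card (Pool.Agent.H106Z.Sat.Cl k n × Pool.Agent.H106Z.Sat.Cl k n) := by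
      rw [Pool.Agent.H106Z.Sat.card_Cl2]; positivity
    rw [Fintype.card_fun, Fintype.card_fin, Nat.cast_pow, le_div_iff₀ (by positivity)]
    refine h5.trans (le_of_eq ?_)
    congr 2
  · refine Filter.Eventually.of_forall fun n => ?_
    apply div_le_one_of_le₀ _ (by positivity)
    exact_mod_cast Finset.card_le_univ _

end Pool.Agent.S07393
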