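import Pool.Statements.S07416
import Pool.Agent.H245Z.KnD

set_option autoImplicit false
open Pool Pool.MP_1a5e21_co

namespace Pool.Agent.S07416

/-- The negation of the preceding statement: There is c > 0 such that whenever m > w ≥ 1 and some permutation of the w-subsets of an m-set maps every disjoint pair to a non-disjoint pair (two edge-disjoint copies of KG(m,w) in K_N), then w ≥ c·m. -/
theorem result :
    ¬ (∃ c : ℝ, 0 < c ∧ ∀ m w : ℕ, 1 ≤ w → w < m →
      (∃ σ : Equiv.Perm {s : Finset (Fin m) // s.card = w},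
        ∀ s t : {s : Finset (Fin m) // s.card = w},
          Disjoint s.1 t.1 → ¬ Disjoint (σ s).1 (σ t).1) →
      c * (m : ℝ) ≤ (w : ℝ)) := by
  rintro ⟨c, hc, H⟩
  obtain ⟨E0, hE0⟩ := exists_nat_gt (1 / c)
  have hE1 : 1 < c * ((E0 + 2 : ℕ) : ℝ) := by
    rw [div_lt_iff₀ hc] at hE0
    push_cast
    nlinarith
  obtain ⟨n, K, w, hw, hm, σ, h1, h2⟩ := Pool.Agent.H245Z.Kn.exists_pack (E0 + 2) (by omega)
  let e : Finset (Fin n × Fin K) ≃ Finset (Fin (n * K)) := (finProdFinEquiv (m := n) (n := K)).finsetCongr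
  have ec : ∀ A, (e A).card = A.card := fun A => by simp [e]
  have ed : ∀ A B, Disjoint (e A) (e B) ↔ Disjoint A B := fun A B => by
    simp [e, Finset.disjoint_map]
  let σ' : Equiv.Perm (Finset (Fin (n * K))) := e.symm.trans (σ.trans e)
  have hc' : ∀ A, (σ' A).card = A.card := fun A => by
    simp only [σ', Equiv.trans_apply]
    rw [ec, h1, ← ec, Equiv.apply_symm_apply]
  have := H (n * K) w hw (by rw [hm]; nlinarith)
    ⟨σ'.subtypePerm (fun A => by rw [hc']), fun s t hd => by
      simp only [Equiv.Perm.subtypePerm_apply, σ', Equiv.trans_apply]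
      rw [ed]
      refine h2 _ _ ?_ ?_ ?_
      · rw [← ec, Equiv.apply_symm_apply, s.2]
      · rw [← ec, Equiv.apply_symm_apply, t.2]
      · rw [← ed, Equiv.apply_symm_apply, Equiv.apply_symm_apply]
        exact hd⟩
  rw [hm, Nat.cast_mul] at this
  have hw' : (1 : ℝ) ≤ w := by exact_mod_cast hw
  nlinarith

end Pool.Agent.S07416
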