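import Pool.Statements.S07458
import Pool.Agent.H498Z.Flex.Core

set_option autoImplicit false
open Pool Pool.MP_1bc7ab_co

namespace Pool.Agent.S07458

/-- The negation of the preceding statement: For each d there is ε>0 such that for every finite d-degenerate graph with lists of size d+1 and every nonnegative weighting of vertex-color pairs, some proper list coloring collects at least ε times the total weight. -/
theorem result :
    ¬ (∀ d : ℕ, ∃ ε : ℝ, 0 < ε ∧
      ∀ (V : Type) [Fintype V] (G : SimpleGraph V),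
        (∀ S : Finset V, S.Nonempty →
          ∃ v ∈ S, ({u : V | u ∈ S ∧ G.Adj v u}).ncard ≤ d) →
        ∀ L : V → Finset ℕ, (∀ v, (L v).card = d + 1) →
          ∀ w : V → ℕ → ℝ, (∀ v c, 0 ≤ w v c) →
            ∃ φ : V → ℕ, (∀ v, φ v ∈ L v) ∧
              (∀ u v, G.Adj u v → φ u ≠ φ v) ∧
              ε * ∑ v, ∑ c ∈ L v, w v c ≤ ∑ v, w v (φ v)) := by
  classical
  intro h
  obtain ⟨ε, hε, H⟩ := h 2
  obtain ⟨k, hk⟩ := exists_nat_gt (3 / ε)
  obtain ⟨φ, hL, hP, hw⟩ := H (Fin (4 * k + 4)) (H498Z.Flex.G _) (H498Z.Flex.degenerate _)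
    (fun v => H498Z.Flex.L v) (fun v => H498Z.Flex.card_L v)
    (fun v c => if v ∈ H498Z.Flex.D k ∧ c = H498Z.Flex.req v then 1 else 0)
    (fun v c => by split_ifs <;> norm_num)
  have h1 : ∑ v : Fin (4 * k + 4), ∑ c ∈ H498Z.Flex.L v,
      (if v ∈ H498Z.Flex.D k ∧ c = H498Z.Flex.req v then (1 : ℝ) else 0) = k := by
    have : ∀ v : Fin (4 * k + 4), ∑ c ∈ H498Z.Flex.L v,
        (if v ∈ H498Z.Flex.D k ∧ c = H498Z.Flex.req v then (1 : ℝ) else 0) =
        if v ∈ H498Z.Flex.D k then 1 else 0 := by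
      intro v
      by_cases hv : v ∈ H498Z.Flex.D k
      · simp [hv, H498Z.Flex.req_mem k v hv]
      · simp [hv]
    rw [Finset.sum_congr rfl (fun v _ => this v)]
    simp [H498Z.Flex.card_D]
  have h2 : ∑ v : Fin (4 * k + 4),
      (if v ∈ H498Z.Flex.D k ∧ φ v = H498Z.Flex.req v then (1 : ℝ) else 0) ≤ 3 := by
    have h3 := H498Z.Flex.core k φ hL hP
    rw [Finset.sum_boole]
    have : Finset.univ.filter (fun v : Fin (4 * k + 4) =>
        v ∈ H498Z.Flex.D k ∧ φ v = H498Z.Flex.req v) =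
        (H498Z.Flex.D k).filter (fun v => φ v = H498Z.Flex.req v) := by
      ext v; simp
    rw [this]
    exact_mod_cast h3
  rw [h1] at hw
  rw [div_lt_iff₀ hε] at hk
  linarith

end Pool.Agent.S07458
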