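import Pool.Statements.S07499
import Pool.Agent.H109Z.Mobius

set_option autoImplicit false
open Pool Pool.MP_1d4c69_co

namespace Pool.Agent.S07499

/-- There is a finite connected graph whose largest multipacking (every radius-r ball holds at most r of its vertices) has exactly 3 vertices, while every dominating broadcast has total cost at least 5. -/
theorem result :
    ∃ (V : Type) (_ : Fintype V) (G : SimpleGraph V),
      G.Connected ∧
      (∃ M : Finset V, M.card = 3 ∧
        ∀ v : V, ∀ r : ℕ, 1 ≤ r → (M.filter (fun u => G.dist v u ≤ r)).card ≤ r) ∧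
      (∀ M : Finset V,
        (∀ v : V, ∀ r : ℕ, 1 ≤ r → (M.filter (fun u => G.dist v u ≤ r)).card ≤ r) →
        M.card ≤ 3) ∧
      (∀ f : V → ℕ, (∀ u : V, ∃ v : V, 1 ≤ f v ∧ G.dist u v ≤ f v) →
        5 ≤ ∑ v, f v) := by
  refine ⟨Fin 18, inferInstance, Pool.Agent.H109Z.Mobius.G, Pool.Agent.H109Z.Mobius.connected,
    ?_, ?_, ?_⟩
  · simp only [Pool.Agent.H109Z.Mobius.dist_eq]
    exact Pool.Agent.H109Z.Mobius.pack3
  · simp only [Pool.Agent.H109Z.Mobius.dist_eq]
    exact Pool.Agent.H109Z.Mobius.pack_le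
  · simp only [Pool.Agent.H109Z.Mobius.dist_eq]
    exact Pool.Agent.H109Z.Mobius.broadcast

end Pool.Agent.S07499
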