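import Pool.Statements.S07514
import Pool.Agent.H959Z.Misere

set_option autoImplicit false
open Pool Pool.MP_1dd9c6_co

namespace Pool.Agent.S07514

/-- The negation of the preceding statement: For any set of finite impartial games closed under sum and options with a game having a move, every maximal subgroup of its misère quotient contains the class of a misère P-position. -/
theorem result :
    ¬ (∀ (α : Type) (opts : α → Set α) (add : α → α → α) (N : α → Prop),
      (∀ g, (opts g).Finite) →
      WellFounded (fun a b : α => a ∈ opts b) →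
      (∀ g h, opts (add g h) = (fun g' => add g' h) '' opts g ∪ (fun h' => add g h') '' opts h) →
      (∀ g, N g ↔ (opts g = ∅ ∨ ∃ g' ∈ opts g, ¬ N g')) →
      (∃ g, (opts g).Nonempty) →
      ∀ E : α, (∀ Z, N (add (add E E) Z) ↔ N (add E Z)) →
        ∃ X : α, (∀ Z, N (add (add X E) Z) ↔ N (add X Z)) ∧
          (∃ Y : α, ∀ Z, N (add (add X Y) Z) ↔ N (add E Z)) ∧ ¬ N X) := by
  intro h
  obtain ⟨X, h1, ⟨Y, h2⟩, h3⟩ := h H959Z.Misere.G H959Z.Misere.opts H959Z.Misere.G.add
    H959Z.Misere.N H959Z.Misere.opts_finite H959Z.Misere.opts_wf H959Z.Misere.opts_add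
    H959Z.Misere.N_rec ⟨_, H959Z.Misere.opts_E⟩ H959Z.Misere.E H959Z.Misere.E_idem
  exact h3 (H959Z.Misere.no_P X h1 Y h2)

end Pool.Agent.S07514
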