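import Pool.Statements.S07547
import Pool.Agent.H248Z.Poly

set_option autoImplicit false
open Pool Pool.MP_1ea79a_co

namespace Pool.Agent.S07547

/-- For every polyhedral norm N(x)=max_i ∣a_i·x∣ on R^n and every infinite set M in R^n, R^n can be coloured with n+1 colours so that no N-distance-preserving image of M is monochromatic. -/
theorem result :
    ∀ (n m : ℕ) (a : Fin m → Fin n → ℝ),
      (∀ x : Fin n → ℝ, x ≠ 0 → 0 < ⨆ i, |∑ j, a i j * x j|) →
      ∀ M : Set (Fin n → ℝ), M.Infinite →
        ∃ c : (Fin n → ℝ) → Fin (n + 1),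
          ∀ f : (Fin n → ℝ) → (Fin n → ℝ),
            (∀ x ∈ M, ∀ y ∈ M,
              (⨆ i, |∑ j, a i j * (f x j - f y j)|) =
                ⨆ i, |∑ j, a i j * (x j - y j)|) →
            ¬ ∃ k : Fin (n + 1), ∀ x ∈ M, c (f x) = k := by
  intro n m a ha M hM
  exact Pool.Agent.H248Z.Poly.main n m a ha M hM

end Pool.Agent.S07547
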