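import Pool.Statements.S07559
import Pool.Agent.H458Z.Sec.Const

set_option autoImplicit false
open Pool Pool.MP_1f0ce0_co

namespace Pool.Agent.S07559

/-- There is c>0 such that for every finite field of order q and every k with c log q ≤ k ≤ q+1−c log q, every size 0..q²+q+1 is the size of a point set in PG(2,q) that no line meets in exactly k points. -/
theorem result :
    ∃ c : ℝ, 0 < c ∧ ∀ (F : Type) [Field F] [Fintype F] (k : ℕ),
      c * Real.log ((Fintype.card F : ℕ) : ℝ) ≤ (k : ℝ) →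
      (k : ℝ) ≤ ((Fintype.card F : ℕ) : ℝ) + 1 - c * Real.log ((Fintype.card F : ℕ) : ℝ) →
      ∀ n : ℕ, n ≤ Fintype.card F ^ 2 + Fintype.card F + 1 →
        ∃ S : Set (Projectivization F (Fin 3 → F)), S.ncard = n ∧
          ∀ ℓ : Projectivization F (Fin 3 → F),
            {p : Projectivization F (Fin 3 → F) |
              p ∈ S ∧ ∑ i, p.rep i * ℓ.rep i = 0}.ncard ≠ k := by
  obtain ⟨K, hK⟩ : ∃ K : ℕ, 100 * ((2 ^ 90) ^ 3 + 30 * 2 ^ 90 + 30) ≤ K := ⟨_, le_rfl⟩
  have hK0 : (0 : ℝ) < K := by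
    have : 0 < K := by omega
    exact_mod_cast this
  refine ⟨2 * K, by positivity, ?_⟩
  intro F _ _ k h1 h2 m hm
  classical
  have hq : (2 : ℝ) ≤ (Fintype.card F : ℝ) := by exact_mod_cast Fintype.one_lt_card
  have hlog : (1 / 2 : ℝ) ≤ Real.log (Fintype.card F : ℝ) := by
    have := Real.log_le_log (by norm_num) hq
    have := Real.log_two_gt_d9
    linarith
  have h3 : (K : ℝ) ≤ 2 * K * Real.log (Fintype.card F : ℝ) := by nlinarith
  have h4 : K ≤ k := by
    have : (K : ℝ) ≤ k := by linarith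
    exact_mod_cast this
  have h5 : k + K ≤ Fintype.card F + 1 := by
    have : (k : ℝ) + K ≤ (Fintype.card F : ℝ) + 1 := by linarith
    exact_mod_cast this
  obtain ⟨S, hS, hW⟩ := (Pool.Agent.H458Z.Sec.att_all' hK h4 h5 hm).proj
  exact ⟨S, hS, Pool.Agent.H458Z.Sec.dual_form hW⟩

end Pool.Agent.S07559
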