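import Pool.Statements.S07591
import Pool.Agent.H860Z.C4F

set_option autoImplicit false
open Pool Pool.MP_1ff796_co

namespace Pool.Agent.S07591

/-- For every η>0 there is n₀ such that each digraph on n≥n₀ vertices, with 4 dividing n and every in- and out-degree at least (1/2+η)n, has its vertex set partitioned into directed 4-cycles. -/
theorem result :
    ∀ η : ℝ, η > 0 → ∃ n₀ : ℕ, ∀ n : ℕ, n₀ ≤ n → 4 ∣ n →
      ∀ G : Digraph (Fin n),
        (∀ v : Fin n,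
          ((1 / 2 + η) * (n : ℝ) ≤ (({w : Fin n | w ≠ v ∧ G.Adj v w}.ncard : ℕ) : ℝ)) ∧
          ((1 / 2 + η) * (n : ℝ) ≤ (({w : Fin n | w ≠ v ∧ G.Adj w v}.ncard : ℕ) : ℝ))) →
        ∃ f : Fin (n / 4) × Fin 4 → Fin n, Function.Bijective f ∧
          ∀ i : Fin (n / 4), ∀ j : Fin 4, G.Adj (f (i, j)) (f (i, j + 1)) := by
  intro η hη
  obtain ⟨n₀, H⟩ := Pool.Agent.H860Z.C4.factor η hη
  exact ⟨n₀, fun n h1 h2 G hG => H n h1 h2 G.Adj hG⟩

end Pool.Agent.S07591
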