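import Pool.Statements.S07603
import Pool.Agent.H4Z.ORD

set_option autoImplicit false
open Pool Pool.MP_208f9a_co

namespace Pool.Agent.S07603

theorem squeeze (R : ℕ → ℕ) (hlow : ∀ k, 1 ≤ k → k * k < R (k + 1))
    (hup : ∀ j : ℕ, 1 ≤ j → ∃ K : ℕ, ∀ n, 1 ≤ n → (R n - 1) ^ j ≤ K * (n * n) ^ (j + 1)) :
    Filter.Tendsto (fun n : ℕ => Real.log ((R n : ℕ) : ℝ) / Real.log (n : ℝ))
      Filter.atTop (nhds 2) := by
  have hlog : Filter.Tendsto (fun n : ℕ => Real.log (n : ℝ)) Filter.atTop Filter.atTop :=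
    Real.tendsto_log_atTop.comp tendsto_natCast_atTop_atTop
  rw [tendsto_order]
  constructor
  · intro c hc
    filter_upwards [hlog.eventually_gt_atTop (2 * Real.log 2 / (2 - c)),
      Filter.eventually_ge_atTop 2] with n h1 h2
    obtain ⟨k, rfl⟩ : ∃ k, n = k + 1 := ⟨n - 1, by omega⟩
    have hk : (1 : ℝ) ≤ k := by exact_mod_cast (show 1 ≤ k by omega)
    have hpos : 0 < Real.log ((k + 1 : ℕ) : ℝ) := Real.log_pos (by push_cast; linarith)
    rw [lt_div_iff₀ hpos]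
    rw [div_lt_iff₀ (by linarith)] at h1
    have a1 : ((k : ℝ) * k) ≤ (R (k + 1) : ℝ) := by exact_mod_cast (hlow k (by omega)).le
    have a2 : Real.log ((k : ℝ) * k) ≤ Real.log (R (k + 1) : ℝ) :=
      Real.log_le_log (by positivity) a1
    rw [Real.log_mul (by positivity) (by positivity)] at a2
    have a3 : Real.log ((k + 1 : ℕ) : ℝ) ≤ Real.log (2 * k) :=
      Real.log_le_log (by positivity) (by push_cast; linarith)
    rw [Real.log_mul (by positivity) (by positivity)] at a3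
    nlinarith
  · intro c hc
    obtain ⟨j, hj⟩ := exists_nat_gt (4 / (c - 2))
    have hc2 : 0 < c - 2 := by linarith
    have hj0 : (0 : ℝ) < j := lt_trans (by positivity) hj
    have hj1 : 1 ≤ j := by exact_mod_cast hj0
    rw [div_lt_iff₀ hc2] at hj
    obtain ⟨K, hK⟩ := hup j hj1
    filter_upwards [hlog.eventually_gt_atTop (j * Real.log 2 + Real.log ((K : ℝ) + 1)),
      Filter.eventually_ge_atTop 2] with n h1 h2
    obtain ⟨k, rfl⟩ : ∃ k, n = k + 1 := ⟨n - 1, by omega⟩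
    have hk : (1 : ℝ) ≤ k := by exact_mod_cast (show 1 ≤ k by omega)
    have hpos : 0 < Real.log ((k + 1 : ℕ) : ℝ) := Real.log_pos (by push_cast; linarith)
    rw [div_lt_iff₀ hpos]
    have b0 : 1 < R (k + 1) := lt_of_le_of_lt (Nat.mul_pos (by omega) (by omega)) (hlow k (by omega))
    have b1 : R (k + 1) ^ j ≤ 2 ^ j * ((K + 1) * ((k + 1) * (k + 1)) ^ (j + 1)) := by
      calc R (k + 1) ^ j ≤ (2 * (R (k + 1) - 1)) ^ j := Nat.pow_le_pow_left (by omega) _
        _ = 2 ^ j * (R (k + 1) - 1) ^ j := mul_pow _ _ _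
        _ ≤ _ := Nat.mul_le_mul_left _ ((hK (k + 1) (by omega)).trans
          (Nat.mul_le_mul_right _ (by omega)))
    have b2 : ((R (k + 1) : ℕ) : ℝ) ^ j ≤
        2 ^ j * (((K : ℝ) + 1) * (((k + 1 : ℕ) : ℝ) * ((k + 1 : ℕ) : ℝ)) ^ (j + 1)) := by
      exact_mod_cast b1
    have b3 := Real.log_le_log (by positivity) b2
    rw [Real.log_mul (by positivity) (by positivity), Real.log_mul (by positivity) (by positivity),
      Real.log_pow, Real.log_pow, Real.log_pow, Real.log_mul (by positivity) (by positivity)] at b3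
    push_cast at b3 h1 hpos ⊢
    have b4 : (j : ℝ) * Real.log (R (k + 1) : ℝ) < j * (c * Real.log ((k : ℝ) + 1)) := by
      nlinarith
    exact lt_of_mul_lt_mul_left b4 hj0.le

/-- For every fixed t ≥ 1, the ordered Ramsey number of the t-th power of the monotone path on n vertices (two colours) satisfies log R / log n → 2 as n → ∞, i.e. R = n^(2+o(1)). -/
theorem result :
    ∀ t : ℕ, 1 ≤ t →
      Filter.Tendsto
        (fun n : ℕ =>
          Real.log
            (((sInf {N : ℕ | ∀ G : SimpleGraph (Fin N), ∃ f : Fin n → Fin N, StrictMono f ∧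
                ((∀ i j : Fin n, i < j → (j : ℕ) ≤ (i : ℕ) + t → G.Adj (f i) (f j)) ∨
                 (∀ i j : Fin n, i < j → (j : ℕ) ≤ (i : ℕ) + t → Gᶜ.Adj (f i) (f j)))}) : ℕ) : ℝ)
            / Real.log (n : ℝ))
        Filter.atTop (nhds 2) := by
  intro t ht
  have hne : ∀ n : ℕ, 1 ≤ n → Set.Nonempty {N : ℕ | ∀ G : SimpleGraph (Fin N),
      ∃ f : Fin n → Fin N, StrictMono f ∧
        ((∀ i j : Fin n, i < j → (j : ℕ) ≤ (i : ℕ) + t → G.Adj (f i) (f j)) ∨
         (∀ i j : Fin n, i < j → (j : ℕ) ≤ (i : ℕ) + t → Gᶜ.Adj (f i) (f j)))} := by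
    intro n hn
    obtain ⟨K, hK⟩ := Pool.Agent.H4Z.OR.upper t ht 1
    exact ⟨K * (n * n) ^ (1 + 1) + 1, hK n _ hn (by simp)⟩
  apply squeeze
  · intro k hk
    by_contra hcon
    exact Pool.Agent.H4Z.OR.lower t ht k _ hk (not_lt.1 hcon)
      (Nat.sInf_mem (hne (k + 1) (by omega)))
  · intro j hj
    obtain ⟨K, hK⟩ := Pool.Agent.H4Z.OR.upper t ht j
    refine ⟨K, fun n hn => ?_⟩
    by_contra hcon
    have h1 := hK n _ hn (not_le.1 hcon)
    have h2 := Nat.sInf_le (s := {N : ℕ | ∀ G : SimpleGraph (Fin N),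
      ∃ f : Fin n → Fin N, StrictMono f ∧
        ((∀ i j : Fin n, i < j → (j : ℕ) ≤ (i : ℕ) + t → G.Adj (f i) (f j)) ∨
         (∀ i j : Fin n, i < j → (j : ℕ) ≤ (i : ℕ) + t → Gᶜ.Adj (f i) (f j)))}) h1
    generalize sInf {N : ℕ | ∀ G : SimpleGraph (Fin N),
      ∃ f : Fin n → Fin N, StrictMono f ∧
        ((∀ i j : Fin n, i < j → (j : ℕ) ≤ (i : ℕ) + t → G.Adj (f i) (f j)) ∨
         (∀ i j : Fin n, i < j → (j : ℕ) ≤ (i : ℕ) + t → Gᶜ.Adj (f i) (f j)))} = R at h2 hcon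
    have h3 : R - 1 = 0 := by omega
    rw [h3, zero_pow (by omega)] at hcon
    exact hcon (Nat.zero_le _)

end Pool.Agent.S07603
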