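import Pool.Statements.S07614
import Pool.Agent.H902Z.LInf

set_option autoImplicit false
open Pool Pool.MP_2117ab_co

namespace Pool.Agent.S07614

/-- The negation of the preceding statement: For d ≥ 3, if a finite graph is the edge-disjoint union of d spanning trees, there is a placement in R^d where each edge of tree i has coordinate i as its unique largest coordinate difference (ℓ^∞ colour i). -/
theorem result :
    ¬ (∀ (d : ℕ), 3 ≤ d →
    ∀ (V : Type) [Fintype V] (G : SimpleGraph V) (T : Fin d → SimpleGraph V),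
      (∀ i, (T i).IsTree) →
      (∀ i j, i ≠ j → Disjoint (T i) (T j)) →
      G = ⨆ i, T i →
      ∃ p : V → Fin d → ℝ, ∀ i : Fin d, ∀ u v : V, G.Adj u v →
        ((T i).Adj u v ↔ ∀ j : Fin d, j ≠ i → |p u j - p v j| < |p u i - p v i|)) := by
  intro h
  obtain ⟨p, hp⟩ := h 3 le_rfl (Fin 6) (⨆ i, H902Z.LInf.T i) H902Z.LInf.T H902Z.LInf.T_tree
    (by
      intro i j hij
      rw [disjoint_iff_inf_le]
      intro u v h12
      exact hij (h12.1.2.symm.trans h12.2.2)) rfl
  refine H902Z.LInf.no_placement p ?_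
  intro u v huv
  have h1 : (H902Z.LInf.T (H902Z.LInf.col u v)).Adj u v := ⟨huv, rfl⟩
  exact (hp (H902Z.LInf.col u v) u v (SimpleGraph.iSup_adj.2 ⟨_, h1⟩)).1 h1

end Pool.Agent.S07614
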