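import Pool.Statements.S07615
import Pool.Agent.H245Z.ZmC
import Pool.Agent.S11571

set_option autoImplicit false
open Pool Pool.MP_2127f1_co

namespace Pool.Agent.S07615

theorem algInd_ofReal {ι : Type} {x : ι → ℝ} (h : AlgebraicIndependent ℚ x) :
    AlgebraicIndependent ℚ fun i => (x i : ℂ) :=
  h.map' (f := Complex.ofRealHom.toRatAlgHom) Complex.ofReal_injective

theorem sq_dist_eq (x y : EuclideanSpace ℝ (Fin 2)) :
    ∑ k : Fin 2, ((x k : ℂ) - (y k : ℂ)) ^ 2 = ((dist x y : ℝ) : ℂ) ^ 2 := by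
  rw [← Complex.ofReal_pow, EuclideanSpace.dist_sq_eq]
  simp only [Real.dist_eq, sq_abs]
  push_cast
  rfl

/-- For every Laman graph on n vertices and every generic real planar placement, the complex placements with the same squared edge lengths, counted up to equality of all pairwise squared distances, number at least 2^(n-3). -/
theorem result :
  ∀ n : ℕ, ∀ G : SimpleGraph (Fin n),
    G.edgeSet.ncard = 2 * n - 3 →
    (∀ s : Finset (Fin n), 2 ≤ s.card →
      {e : Sym2 (Fin n) | e ∈ G.edgeSet ∧ ∀ v ∈ e, v ∈ s}.ncard ≤ 2 * s.card - 3) →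
    ∀ p : Fin n → Fin 2 → ℝ,
      AlgebraicIndependent ℚ (fun x : Fin n × Fin 2 => p x.1 x.2) →
      2 ^ (n - 3) ≤ {D : Fin n → Fin n → ℂ | ∃ q : Fin n → Fin 2 → ℂ,
          (∀ u v, G.Adj u v →
            ∑ i, (q u i - q v i) ^ 2 = ∑ i, ((p u i - p v i : ℝ) : ℂ) ^ 2) ∧
          D = fun u v => ∑ i, (q u i - q v i) ^ 2}.ncard := by
  intro n G hE hS p hp
  have hG : ∀ S : Finset (Fin n), 2 ≤ S.card →
      {e ∈ G.edgeSet | ∀ v ∈ e, v ∈ S}.ncard + 3 ≤ 2 * S.card := by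
    intro S h
    have := hS S h
    omega
  have hE' : G.edgeSet.ncard = 2 * Fintype.card (Fin n) - 3 := by simpa using hE
  let pc : Fin n → Fin 2 → ℂ := fun v k => (p v k : ℂ)
  have hpc : AlgebraicIndependent ℚ (fun x : Fin n × Fin 2 => pc x.1 x.2) := algInd_ofReal hp
  have hfin := H245Z.Zm.fib_finite G hG hE' pc hpc
  have e : {D : Fin n → Fin n → ℂ | ∃ q : Fin n → Fin 2 → ℂ,
          (∀ u v, G.Adj u v →
            ∑ i, (q u i - q v i) ^ 2 = ∑ i, ((p u i - p v i : ℝ) : ℂ) ^ 2) ∧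
          D = fun u v => ∑ i, (q u i - q v i) ^ 2} =
      (fun (φ : H245Z.Zm.TT (Fin n) →+* ℂ) u v => φ (H245Z.Zm.dT u v)) ''
        {φ | ∀ u v, G.Adj u v → φ (H245Z.Zm.dT u v) = H245Z.Zm.ev pc (H245Z.Zm.dT u v)} := by
    ext D
    constructor
    · rintro ⟨q, h1, rfl⟩
      refine ⟨H245Z.Zm.ev q, fun u v h => ?_, ?_⟩
      · rw [H245Z.Zm.ev_dT, H245Z.Zm.ev_dT, h1 u v h]
        simp [pc]
      · simp only [H245Z.Zm.ev_dT]
    · rintro ⟨φ, h1, rfl⟩
      obtain ⟨r, hr⟩ := H245Z.Zm.realise φ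
      refine ⟨r, fun u v h => ?_, ?_⟩
      · rw [hr, h1 u v h, H245Z.Zm.ev_dT]
        simp [pc]
      · simp only [hr]
  rw [e, Set.ncard_image_of_injective _
    (fun φ ψ h => H245Z.Zm.hom_ext fun u v => congrFun (congrFun h u) v)]
  by_cases hn : n ≤ 3
  · rw [show n - 3 = 0 by omega, pow_zero]
    exact (Set.ncard_pos hfin).2 ⟨H245Z.Zm.ev pc, fun _ _ _ => rfl⟩
  have hc := Pool.Agent.S11571.count_aux G
  obtain ⟨p0, hp0, q, hq1, hq2⟩ := Pool.Agent.S11571.result (Fin n) G (by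
      have h3 := hc Finset.univ
      rw [Finset.univ_product_univ] at h3
      have h4 : Pool.Agent.H135R2.RC.ins G.edgeSet (Finset.univ : Finset (Fin n)) = G.edgeSet := by
        ext e
        exact ⟨fun h => h.1, fun h => ⟨h, fun v _ => Finset.mem_univ v⟩⟩
      rw [h4] at h3
      rw [h3, hE, Fintype.card_fin]
      omega)
    (fun S h => by
      have h3 := hG S h
      have h4 : (Pool.Agent.H135R2.RC.ins G.edgeSet S).ncard + 3 ≤ 2 * S.card := h3
      rw [hc]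
      omega)
  let pc0 : Fin n → Fin 2 → ℂ := fun v k => (p0 v k : ℂ)
  have hpc0 : AlgebraicIndependent ℚ (fun x : Fin n × Fin 2 => pc0 x.1 x.2) := algInd_ofReal hp0
  have hfin0 := H245Z.Zm.fib_finite G hG hE' pc0 hpc0
  have hle := H245Z.Zm.main G hG pc pc0 hpc hfin0
  rw [← hfin.cast_ncard_eq, ← hfin0.cast_ncard_eq, Nat.cast_le] at hle
  refine le_trans ?_ hle
  have hinj : Function.Injective fun i => H245Z.Zm.ev (fun v k => (q i v k : ℂ)) := by
    intro i j h
    by_contra hij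
    obtain ⟨u, v, huv⟩ := hq2 i j hij
    have h1 := DFunLike.congr_fun h (H245Z.Zm.dT u v)
    simp only [H245Z.Zm.ev_dT, sq_dist_eq] at h1
    apply huv
    have h2 : dist (q i u) (q i v) ^ 2 = dist (q j u) (q j v) ^ 2 := by exact_mod_cast h1
    exact (pow_left_inj₀ dist_nonneg dist_nonneg two_ne_zero).1 h2
  have hsub : Set.range (fun i => H245Z.Zm.ev (fun v k => (q i v k : ℂ))) ⊆
      {φ | ∀ u v, G.Adj u v → φ (H245Z.Zm.dT u v) = H245Z.Zm.ev pc0 (H245Z.Zm.dT u v)} := by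
    rintro _ ⟨i, rfl⟩ u v h
    simp only [H245Z.Zm.ev_dT, pc0, sq_dist_eq, hq1 i u v h]
  have h5 := Set.ncard_le_ncard hsub hfin0
  rwa [Set.ncard_range_of_injective hinj, Nat.card_fin, Fintype.card_fin] at h5

end Pool.Agent.S07615
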