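import Pool.Statements.S07659
import Pool.Agent.H358Z.CubeZ

set_option autoImplicit false
open Pool Pool.MP_235410_co

namespace Pool.Agent.S07659

/-- There is an infinite binary sequence and a bound N such that no three consecutive blocks of equal length n ≥ N contain the same number of ones each (no long abelian cubes). -/
theorem result :
    ∃ w : ℕ → Bool, ∃ N : ℕ, ∀ i n : ℕ, N ≤ n →
      ¬ ((((Finset.Ico i (i + n)).filter (fun j => w j = true)).card =
            ((Finset.Ico (i + n) (i + 2 * n)).filter (fun j => w j = true)).card) ∧
         (((Finset.Ico (i + n) (i + 2 * n)).filter (fun j => w j = true)).card =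
            ((Finset.Ico (i + 2 * n) (i + 3 * n)).filter (fun j => w j = true)).card)) := by
  exact Pool.Agent.H358Z.Cube.main

end Pool.Agent.S07659
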