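import Pool.Statements.S07719
import Pool.Agent.H541Z.Hls2

set_option autoImplicit false
open Pool Pool.MP_25e1d2_co

namespace Pool.Agent.S07719

/-- For every finite colouring of the naturals there is a sequence of positive integers y_0, y_1, ... such that all nonempty finite sums of distinct terms, and all sums y_n + 2y_{n+1} + y_{n+2}, get one and the same colour. -/
theorem result :
    ∀ (k : ℕ) (c : ℕ → Fin k), ∃ y : ℕ → ℕ, (∀ n, 0 < y n) ∧
      ∃ col : Fin k,
        (∀ s : Finset ℕ, s.Nonempty → c (∑ i ∈ s, y i) = col) ∧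
        (∀ n : ℕ, c (y n + 2 * y (n + 1) + y (n + 2)) = col) := by
  intro k c
  classical
  obtain ⟨y, col, h⟩ := Pool.Agent.H541Z.Hls.main_rat c
  have hind : ∀ (s : Finset ℕ) (hs : s.Nonempty), ∃ n : ℕ, 0 < n ∧ ∑ i ∈ s, y i = n ∧ c n = col := by
    intro s hs
    obtain ⟨n, hn, h1, h2⟩ := h (s.max' hs) (fun i => if i ∈ s then 1 else 0)
      (by unfold Pool.Agent.H541Z.Hls.ok; split_ifs <;> simp)
      (fun i => by unfold Pool.Agent.H541Z.Hls.ok; split_ifs <;> simp)
      (by simp [Finset.max'_mem])
    refine ⟨n, hn, ?_, h2⟩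
    rw [← h1]
    simp only [ite_mul, one_mul, zero_mul]
    rw [Finset.sum_ite_mem, Finset.inter_eq_right.2]
    intro i hi
    exact Finset.mem_range.2 (Nat.lt_succ_of_le (Finset.le_max' s i hi))
  have hone : ∀ i, ∃ n : ℕ, 0 < n ∧ y i = n := by
    intro i
    obtain ⟨n, hn, h1, -⟩ := hind {i} (Finset.singleton_nonempty i)
    exact ⟨n, hn, by simpa using h1⟩
  choose Y hY0 hY using hone
  refine ⟨Y, hY0, col, fun s hs => ?_, fun n => ?_⟩
  · obtain ⟨m, -, h1, h2⟩ := hind s hs
    have h3 : ∑ i ∈ s, Y i = m := by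
      have h4 : ((∑ i ∈ s, Y i : ℕ) : ℚ) = m := by
        rw [← h1]; push_cast; exact Finset.sum_congr rfl fun i _ => (hY i).symm
      exact_mod_cast h4
    rw [h3, h2]
  · obtain ⟨m, -, h1, h2⟩ := h (n + 2)
      (fun i => if i = n then 1 else if i = n + 1 then 2 else if i = n + 2 then 1 else 0)
      (by unfold Pool.Agent.H541Z.Hls.ok; split_ifs <;> first | contradiction | omega | simp)
      (fun i => by unfold Pool.Agent.H541Z.Hls.ok; split_ifs <;> first | contradiction | omega | simp)
      (by simp)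
    have h3 : Y n + 2 * Y (n + 1) + Y (n + 2) = m := by
      have h4 : ((Y n + 2 * Y (n + 1) + Y (n + 2) : ℕ) : ℚ) = m := by
        rw [← h1, Finset.sum_range_succ, Finset.sum_range_succ, Finset.sum_range_succ,
          Finset.sum_eq_zero]
        · simp [hY]
        · intro i hi
          have := Finset.mem_range.1 hi
          rw [if_neg (by omega), if_neg (by omega), if_neg (by omega), zero_mul]
      exact_mod_cast h4
    rw [h3, h2]

end Pool.Agent.S07719
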