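import Pool.Statements.S07737
import Pool.Agent.H807Z.Dyer.Main

set_option autoImplicit false
open Pool Pool.MP_272625_co

namespace Pool.Agent.S07737

/-- In any finite Coxeter group, for all u, v with right weak order join j, a reflection t has ℓ(tj)<ℓ(j) iff t is reached from e by a length-increasing Bruhat path whose labels are left reflections of u or of v. -/
theorem result :
    ∀ (B : Type) (W : Type) [Group W] [Finite W] (M : CoxeterMatrix B)
      (cs : CoxeterSystem M W) (u v j : W),
      cs.length u + cs.length (u⁻¹ * j) = cs.length j →
      cs.length v + cs.length (v⁻¹ * j) = cs.length j →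
      (∀ w : W, cs.length u + cs.length (u⁻¹ * w) = cs.length w →
        cs.length v + cs.length (v⁻¹ * w) = cs.length w →
        cs.length j + cs.length (j⁻¹ * w) = cs.length w) →
      ∀ t : W, cs.IsReflection t →
        (cs.length (t * j) < cs.length j ↔
          ∃ (n : ℕ) (f : ℕ → W), f 0 = 1 ∧ f n = t ∧
            ∀ i, i < n → ∃ r : W, cs.IsReflection r ∧
              (cs.length (r * u) < cs.length u ∨ cs.length (r * v) < cs.length v) ∧
              f (i + 1) = r * f i ∧ cs.length (f i) < cs.length (f (i + 1))) := by
  intro B W _ _ M cs u v j hu hv hj t ht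
  exact (Pool.Agent.H807Z.Dyer.dyer_join (cs := cs) hu hv hj ht).trans
    (Pool.Agent.H807Z.Dyer.rtg_iff _ _ _)

end Pool.Agent.S07737
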