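import Pool.Statements.S07755
import Pool.Agent.H249Z.Boundary

set_option autoImplicit false
open Matrix
open Pool Pool.MP_284e51_co

namespace Pool.Agent.S07755

open Pool.Agent.H249Z.Boundary

/-- The largest singular value of the boundary maps of a simplicial complex does not increase
with the dimension. -/
theorem result :
    ∀ (n : ℕ) (K : Finset (Finset (Fin n))),
      (∀ s ∈ K, ∀ t : Finset (Fin n), t ⊆ s → t.Nonempty → t ∈ K) →
      ∀ D : ℕ → Matrix (Finset (Fin n)) (Finset (Fin n)) ℝ,
        (∀ (m : ℕ) (t s : Finset (Fin n)),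
          D m t s =
            if s ∈ K ∧ s.card = m then
              ∑ v ∈ s, (if t = s.erase v then
                (-1 : ℝ) ^ (Finset.filter (fun w => w < v) s).card else 0)
            else 0) →
        ∀ k : ℕ, 1 ≤ k →
          ∀ c : ℝ,
            (∀ y : Finset (Fin n) → ℝ,
              (D (k + 1) *ᵥ y) ⬝ᵥ (D (k + 1) *ᵥ y) ≤ c * (y ⬝ᵥ y)) →
            ∀ x : Finset (Fin n) → ℝ,
              (D (k + 2) *ᵥ x) ⬝ᵥ (D (k + 2) *ᵥ x) ≤ c * (x ⬝ᵥ x) := by
  intro n K hK D hD k _ c hc x
  have hDB : ∀ (m : ℕ) (y : Finset (Fin n) → ℝ),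
      D m *ᵥ y = B (P (fun s => s ∈ K ∧ s.card = m) y) := by
    intro m y
    funext t
    have h1 : ∀ s, D m t s * y s = ∑ v, (if v ∈ s then
        (if t = s.erase v then sg v s * P (fun s => s ∈ K ∧ s.card = m) y s else 0) else 0) := by
      intro s
      rw [Finset.sum_ite_mem, Finset.univ_inter, hD, P_apply]
      split_ifs with h
      · rw [Finset.sum_mul]
        refine Finset.sum_congr rfl fun v _ => ?_
        split_ifs
        · rfl
        · ring
      · simp
    rw [B_apply, Finset.sum_apply, Matrix.mulVec, dotProduct,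
      Finset.sum_congr rfl fun s _ => h1 s, Finset.sum_comm]
    refine Finset.sum_congr rfl fun v _ => ?_
    rw [← reindex v (fun t' s => if t = t' then
      sg v s * P (fun s => s ∈ K ∧ s.card = m) y s else 0), a_apply,
      Finset.sum_eq_single t]
    · split_ifs with h h' 
      · rfl
      · rw [sg_insert_self]
      · exact absurd rfl h'
    · intro t' _ ht'
      rw [if_neg (Ne.symm ht')]
      simp
    · simp
  rw [hDB]
  refine main (fun s => s ∈ K ∧ s.card = k + 2) (fun s => s ∈ K ∧ s.card = k + 1) (k + 1)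
    (Nat.succ_pos k) (fun s h => h.2) (fun s h => h.2) ?_ c (fun y => ?_) x
  · intro t v hv h
    have hcard : t.card = k + 1 := by
      have := h.2
      rw [Finset.card_insert_of_notMem hv] at this
      omega
    exact ⟨hK _ h.1 t (Finset.subset_insert v t) (Finset.card_pos.1 (by omega)), hcard⟩
  · rw [← hDB]
    exact hc y

end Pool.Agent.S07755
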