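import Pool.Statements.S07774
import Pool.Agent.H646Z.PaleyFinal

set_option autoImplicit false
open Pool Pool.MP_28de5a_co

namespace Pool.Agent.S07774

/-- The negation of the preceding statement: For d ≥ 2, a real L is approached by (size of a maximal clique of GP(q^d,d))/q for arbitrarily large odd prime powers q ≡ 1 mod d iff L = 0 or L = 1/m with every prime factor of m dividing d. -/
theorem result :
    ¬ (∀ d : ℕ, 2 ≤ d → ∀ L : ℝ,
      ((∀ ε : ℝ, 0 < ε → ∀ N : ℕ, ∃ q : ℕ, N ≤ q ∧ IsPrimePow q ∧ Odd q ∧ q % d = 1 ∧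
          ∃ (F : Type) (_ : Field F) (_ : Fintype F), Fintype.card F = q ^ d ∧
            ∃ s : Finset F,
              (SimpleGraph.fromRel (fun x y : F => ∃ z : F, z ^ d = x - y)).IsClique (s : Set F) ∧
              (∀ t : Finset F,
                (SimpleGraph.fromRel (fun x y : F => ∃ z : F, z ^ d = x - y)).IsClique (t : Set F) →
                  s ⊆ t → t = s) ∧
              |(s.card : ℝ) / (q : ℝ) - L| < ε)
        ↔ (L = 0 ∨ ∃ m : ℕ, 0 < m ∧ m.primeFactors ⊆ d.primeFactors ∧ L = 1 / (m : ℝ)))) := by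
  intro h
  obtain ⟨L, hL, hatt⟩ := Pool.Agent.H646Z.attainable
  rcases (h 3 (by norm_num) L).1 hatt with h0 | ⟨m, hm, -, h1⟩
  · linarith
  · have h2 : (1 : ℝ) ≤ (m : ℝ) := by exact_mod_cast hm
    have h3 : 1 / (m : ℝ) ≤ 1 := by
      rw [div_le_one (by linarith)]
      exact h2
    linarith

end Pool.Agent.S07774
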