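import Pool.Statements.S07814
import Pool.Agent.H546Z.PDGen

set_option autoImplicit false
open Pool Pool.MP_2ae84e_co

namespace Pool.Agent.S07814

open Pool.Agent.H546Z.PD SimpleGraph

/-- vertices of the tree -/
inductive W (n : ℕ) : Type
  | root : W n
  | one (w : Fin n → Fin 3) : W n
  | two (x : Fin n → Fin 5) : W n
  | mark (x : Fin n → Fin 5) : W n
  | leaf (x : Fin n → Fin 5) (j : Fin n) (h : x j = 0) : W n
  | mid (x : Fin n → Fin 5) (j : Fin n) (h : x j = 1) : W n
  | tip (x : Fin n → Fin 5) (j : Fin n) (h : x j = 1) : W n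

variable {n : ℕ}

def pp : Fin 5 → Fin 3 := ![0, 1, 0, 1, 2]

def qq : Fin 3 → Fin 5 := ![0, 1, 4]

theorem pp_qq : ∀ a, pp (qq a) = a := by decide

theorem pp_lip : ∀ a : Fin 5, a.val + 1 ≤ (pp a).val + 2 + 1 ∧ (pp a).val + 2 ≤ a.val + 1 + 1 := by
  decide

theorem pp_desc : ∀ a : Fin 5, a = 0 ∨ a = 1 ∨ (pp a).val + 2 + 1 = a.val + 1 := by decide

theorem qq_desc : ∀ a : Fin 3, a.val = 2 ∨ (qq a).val + 1 + 1 = a.val + 2 := by decide

def par : W n → W n
  | .root => .root
  | .one _ => .root
  | .two x => .one (fun j => pp (x j))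
  | .mark x => .two x
  | .leaf x _ _ => .two x
  | .mid x _ _ => .two x
  | .tip x j h => .mid x j h

def dep : W n → ℕ
  | .root => 0
  | .one _ => 1
  | .two _ => 2
  | .mark _ => 3
  | .leaf _ _ _ => 3
  | .mid _ _ _ => 3
  | .tip _ _ _ => 4

def col : W n → Option (Option (Fin n))
  | .root => none
  | .one _ => none
  | .two _ => none
  | .mark _ => some none
  | .leaf _ j _ => some (some j)
  | .mid _ _ _ => none
  | .tip _ j _ => some (some j)

def rb : W n → ℕ
  | .root => 0
  | .one _ => 0
  | .two _ => 0
  | .mark _ => 1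
  | .leaf _ _ _ => 1
  | .mid _ _ _ => 0
  | .tip _ _ _ => 1

def rm : W n → ℕ
  | .root => 3
  | .one _ => 2
  | .two _ => 1
  | .mark _ => 0
  | .leaf _ _ _ => 2
  | .mid _ _ _ => 2
  | .tip _ _ _ => 3

def rc : W n → Fin n → ℕ
  | .root, _ => 3
  | .one w, i => (w i).val + 2
  | .two x, i => (x i).val + 1
  | .mark x, i => (x i).val + 2
  | .leaf x j _, i => if i = j then 0 else (x i).val + 2
  | .mid x j _, i => if i = j then 1 else (x i).val + 2
  | .tip x j _, i => if i = j then 0 else (x i).val + 3

def rr (v : W n) : Option (Option (Fin n)) → ℕ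
  | none => rb v
  | some none => rm v
  | some (some i) => rc v i

theorem dep_par (v : W n) (hv : v ≠ .root) : dep (par v) + 1 = dep v := by
  cases v <;> first | exact absurd rfl hv | rfl

theorem rr_zero (v : W n) (c : Option (Option (Fin n))) : rr v c = 0 ↔ col v = c := by
  rcases c with _ | _ | i <;> cases v <;> simp [rr, rb, rm, rc, col, eq_comm]
  split_ifs <;> simp

theorem rr_lip (v : W n) (c : Option (Option (Fin n))) :
    rr v c ≤ rr (par v) c + 1 ∧ rr (par v) c ≤ rr v c + 1 := by
  rcases c with _ | _ | i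
  · cases v <;> simp [rr, rb, par]
  · cases v <;> simp [rr, rm, par]
  · cases v with
    | root => simp [rr, rc, par]
    | one w => have := (w i).isLt; simp only [rr, rc, par]; omega
    | two x => exact pp_lip (x i)
    | mark x => simp only [rr, rc, par]; omega
    | leaf x j h =>
      simp only [rr, rc, par]
      split_ifs with hi
      · subst hi; simp [h]
      · omega
    | mid x j h =>
      simp only [rr, rc, par]
      split_ifs with hi
      · subst hi; simp [h]
      · omega
    | tip x j h =>
      simp only [rr, rc, par]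
      split_ifs with hi <;> omega

theorem rr_desc (v : W n) (c : Option (Option (Fin n))) (hc : rr v c ≠ 0) :
    (v ≠ .root ∧ rr (par v) c + 1 = rr v c) ∨
      ∃ w, w ≠ .root ∧ par w = v ∧ rr w c + 1 = rr v c := by
  rcases c with _ | _ | i
  · cases v <;> simp_all [rr, rb, par]
  · cases v with
    | root => exact Or.inr ⟨.one (fun _ => 0), by simp, rfl, rfl⟩
    | one w =>
      refine Or.inr ⟨.two (fun j => qq (w j)), by simp, ?_, rfl⟩
      simp [par, pp_qq]
    | two x => exact Or.inr ⟨.mark x, by simp, rfl, rfl⟩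
    | mark x => exact absurd rfl hc
    | leaf x j h => exact Or.inl ⟨by simp, rfl⟩
    | mid x j h => exact Or.inl ⟨by simp, rfl⟩
    | tip x j h => exact Or.inl ⟨by simp, rfl⟩
  · cases v with
    | root => exact Or.inr ⟨.one (fun _ => 0), by simp, rfl, rfl⟩
    | one w =>
      rcases qq_desc (w i) with h | h
      · refine Or.inl ⟨by simp, ?_⟩
        simp only [rr, rc, par]
        omega
      · refine Or.inr ⟨.two (fun j => qq (w j)), by simp, ?_, h⟩
        simp [par, pp_qq]
    | two x =>
      rcases pp_desc (x i) with h | h | h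
      · refine Or.inr ⟨.leaf x i h, by simp, rfl, ?_⟩
        simp [rr, rc, h]
      · refine Or.inr ⟨.mid x i h, by simp, rfl, ?_⟩
        simp [rr, rc, h]
      · exact Or.inl ⟨by simp, h⟩
    | mark x => exact Or.inl ⟨by simp, rfl⟩
    | leaf x j h =>
      refine Or.inl ⟨by simp, ?_⟩
      simp only [rr, rc, par] at hc ⊢
      split_ifs at hc ⊢ with hi
      · exact absurd rfl hc
      · rfl
    | mid x j h =>
      by_cases hi : i = j
      · refine Or.inr ⟨.tip x j h, by simp, rfl, ?_⟩
        simp [rr, rc, hi]
      · refine Or.inl ⟨by simp, ?_⟩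
        simp [rr, rc, par, hi]
    | tip x j h =>
      refine Or.inl ⟨by simp, ?_⟩
      simp only [rr, rc, par] at hc ⊢
      split_ifs at hc ⊢ with hi
      · exact absurd rfl hc
      · rfl

theorem ext_off {x y : Fin n → Fin 5} {j j' : Fin n} {a b : ℕ} (hab : a < b)
    (h : ∀ i, (if i = j then a else (x i).val + b) = if i = j' then a else (y i).val + b) :
    j = j' ∧ (x j = y j' → x = y) := by
  have h1 : j = j' := by
    by_contra hne
    have := h j
    rw [if_pos rfl, if_neg hne] at this
    omega
  subst h1
  refine ⟨rfl, fun hj => ?_⟩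
  funext i
  by_cases hi : i = j
  · rw [hi, hj]
  · have := h i
    rw [if_neg hi, if_neg hi] at this
    exact Fin.ext (by omega)

theorem rr_inj : Function.Injective (rr : W n → _) := by
  intro u v h
  have hb : rb u = rb v := congrFun h none
  have hm : rm u = rm v := congrFun h (some none)
  have hc : ∀ i, rc u i = rc v i := fun i => congrFun h (some (some i))
  clear h
  cases u <;> cases v <;> simp only [rb, rm, rc] at hb hm hc <;> try omega
  · rfl
  · congr 1; funext i; exact Fin.ext (by have := hc i; omega)
  · rename_i w x j h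
    have := hc j
    rw [if_pos rfl] at this
    omega
  · congr 1; funext i; exact Fin.ext (by have := hc i; omega)
  · congr 1; funext i; exact Fin.ext (by have := hc i; omega)
  · rename_i x j h y j' h'
    obtain ⟨rfl, h2⟩ := ext_off (by norm_num) hc
    obtain rfl := h2 (h.trans h'.symm)
    rfl
  · rename_i x j h w
    have := hc j
    rw [if_pos rfl] at this
    omega
  · rename_i x j h y j' h'
    obtain ⟨rfl, h2⟩ := ext_off (by norm_num) hc
    obtain rfl := h2 (h.trans h'.symm)
    rfl
  · rename_i x j h y j' h'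
    obtain ⟨rfl, h2⟩ := ext_off (by norm_num) hc
    obtain rfl := h2 (h.trans h'.symm)
    rfl

theorem rr_lt (v : W n) (c : Option (Option (Fin n))) : rr v c < 8 := by
  rcases c with _ | _ | i
  · cases v <;> simp [rr, rb]
  · cases v <;> simp [rr, rm]
  · cases v <;> simp only [rr, rc] <;> (try split_ifs) <;> omega

instance : Finite (W n) :=
  Finite.of_injective (fun (v : W n) (c : Option (Option (Fin n))) => (⟨rr v c, rr_lt v c⟩ : Fin 8))
    (fun _ _ h => rr_inj (funext fun c => congrArg Fin.val (congrFun h c)))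

theorem col_surj : Function.Surjective (col : W n → _) := by
  rintro (_ | _ | j)
  · exact ⟨.root, rfl⟩
  · exact ⟨.mark 0, rfl⟩
  · exact ⟨.leaf 0 j rfl, rfl⟩

/-- the tree -/
def TT (n : ℕ) : SimpleGraph (W n) := parG .root par

theorem TT_tree : (TT n).IsTree := parG_isTree _ _ dep dep_par

theorem TT_adj (v : W n) (hv : v ≠ .root) : (TT n).Adj v (par v) := by
  rw [TT, parG, fromRel_adj]
  refine ⟨?_, Or.inl ⟨hv, rfl⟩⟩
  intro h
  have := dep_par v hv
  rw [← h] at this
  omega

theorem TT_cases {a b : W n} (h : (TT n).Adj a b) :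
    (a ≠ .root ∧ par a = b) ∨ (b ≠ .root ∧ par b = a) := by
  rw [TT, parG, fromRel_adj] at h
  exact h.2

theorem TT_cd (u : W n) (c : Option (Option (Fin n))) : cd (TT n) col u c = rr u c := by
  refine cert TT_tree.connected col_surj rr rr_zero ?_ ?_ u c
  · intro a b i hab
    rcases TT_cases hab with ⟨-, rfl⟩ | ⟨-, rfl⟩
    · exact (rr_lip a i).1
    · exact (rr_lip b i).2
  · intro v i hv
    rcases rr_desc v i hv with ⟨h1, h2⟩ | ⟨w, h1, rfl, h3⟩
    · exact ⟨_, TT_adj v h1, h2⟩
    · exact ⟨w, (TT_adj w h1).symm, h3⟩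

/-- the unicyclic graph -/
def GG (n : ℕ) : SimpleGraph (W n) := TT n ⊔ edge .root (.two 0)

theorem GG_conn : (GG n).Connected := TT_tree.connected.mono le_sup_left

theorem GG_card : Nat.card (GG n).edgeSet = Nat.card (W n) := by
  refine card_add_edge TT_tree (by simp) ?_
  intro h
  rcases TT_cases h with ⟨h1, -⟩ | ⟨-, h2⟩
  · exact h1 rfl
  · simp [par] at h2

theorem GG_count {m : ℕ} {g : W n → Fin m} (hg : Function.Surjective g)
    (hres : ∀ u w, (∀ i, cd (GG n) g u i = cd (GG n) g w i) → u = w) :
    5 ^ n ≤ m * (4 ^ n * 5 ^ (m - n)) := by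
  have hle : TT n ≤ GG n := le_sup_left
  have := count GG_conn hg hres .root (.two 0) (Or.inr (by simp [edge_adj]))
    (fun j => .leaf 0 j rfl) (fun j j' h => by simpa using h)
    (fun j => hle (TT_adj (.leaf 0 j rfl) (by simp))) ?_ (ι := Fin n → Fin 5) .two
    (fun x y h => by simpa using h) ?_
  · simpa using this
  · intro j b hb
    rcases hb with hb | hb
    · rcases TT_cases hb with ⟨-, h⟩ | ⟨-, h⟩
      · exact h.symm
      · cases b <;> simp [par] at h
    · simp [edge_adj] at hb
  · intro x
    have h1 := dist_adj (hle (TT_adj (.two x) (by simp)))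
    have h2 := dist_adj (hle (TT_adj (par (.two x : W n)) (by simp [par])))
    have h3 : (GG n).dist (.two x) .root ≤ (GG n).dist (.two x) (par (.two x)) +
      (GG n).dist (par (.two x)) .root := GG_conn.dist_triangle
    have h4 : par (par (.two x : W n)) = .root := rfl
    rw [h4] at h2
    omega


/-- The negation of the preceding statement: For every finite connected graph with as many edges as vertices and every spanning tree of it, if the tree has a resolving partition into k nonempty classes, the graph has one into at most k+1 classes; i.e. pd(G) ≤ pd(T)+1. -/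
theorem result :
    ¬ (∀ (V : Type) [Fintype V] (G T : SimpleGraph V),
      G.Connected → Nat.card G.edgeSet = Nat.card V → T ≤ G → T.IsTree →
      ∀ k : ℕ,
        (∃ f : V → Fin k, Function.Surjective f ∧
          ∀ u w : V,
            (∀ i : Fin k,
              sInf ((fun v => T.dist u v) '' {v | f v = i}) =
              sInf ((fun v => T.dist w v) '' {v | f v = i})) → u = w) →
        ∃ m : ℕ, m ≤ k + 1 ∧
          ∃ g : V → Fin m, Function.Surjective g ∧
            ∀ u w : V,
              (∀ i : Fin m,
                sInf ((fun v => G.dist u v) '' {v | g v = i}) =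
                sInf ((fun v => G.dist w v) '' {v | g v = i})) → u = w) := by
  intro h
  have := Fintype.ofFinite (W 40)
  let e : Option (Option (Fin 40)) ≃ Fin 42 := Fintype.equivFinOfCardEq (by simp)
  obtain ⟨m, hm, g, hg, hres⟩ := h (W 40) (GG 40) (TT 40) GG_conn GG_card le_sup_left TT_tree 42
    ⟨fun v => e (col v), e.surjective.comp col_surj, by
      intro u w huw
      apply rr_inj
      funext c
      rw [← TT_cd, ← TT_cd]
      have h1 := huw (e c)
      simp only [EmbeddingLike.apply_eq_iff_eq] at h1
      exact h1⟩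
  have h1 := GG_count hg hres
  have h2 : m * (4 ^ 40 * 5 ^ (m - 40)) ≤ 43 * (4 ^ 40 * 5 ^ 3) := by
    apply Nat.mul_le_mul hm
    apply Nat.mul_le_mul_left
    apply Nat.pow_le_pow_right (by norm_num)
    omega
  have h3 := h1.trans h2
  norm_num at h3

end Pool.Agent.S07814
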