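import Pool.Statements.S07822
import Pool.Agent.H511Z.LayCon

set_option autoImplicit false
open Pool Pool.MP_2b2760_co

namespace Pool.Agent.S07822

/-- The negation of the preceding statement: There is f such that every finite graph of layered treewidth at most k with no K_{2,t} subgraph has a 3-colouring in which every monochromatic connected vertex set has at most f(k,t) vertices. -/
theorem result :
    ¬ (∃ f : ℕ → ℕ → ℕ, ∀ (k t : ℕ) (V : Type) [Fintype V] (G : SimpleGraph V),
    (∃ (T : Type) (_ : Fintype T) (TT : SimpleGraph T) (B : T → Finset V) (ℓ : V → ℕ),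
      TT.IsTree ∧
      (∀ v : V, (TT.induce {x | v ∈ B x}).Connected) ∧
      (∀ u v : V, G.Adj u v → ∃ x, u ∈ B x ∧ v ∈ B x) ∧
      (∀ u v : V, G.Adj u v → ℓ u ≤ ℓ v + 1 ∧ ℓ v ≤ ℓ u + 1) ∧
      (∀ x i, ((B x).filter (fun v => ℓ v = i)).card ≤ k)) →
    ¬ (completeBipartiteGraph (Fin 2) (Fin t)).IsContained G →
    ∃ c : V → Fin 3, ∀ S : Finset V, (∀ u ∈ S, ∀ w ∈ S, c u = c w) →
      (G.induce (S : Set V)).Connected → S.card ≤ f k t) := by
  classical
  rintro ⟨f, hf⟩
  let C := f 4 21
  let V := H511Z.Lay.W C (C + 1) ((C + 1) * C + 1)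
  let _ : Fintype V := Fintype.ofFinite V
  obtain ⟨c, hc⟩ := hf 4 21 V (H511Z.Lay.GG _ _ _) (by
    refine ⟨V, inferInstance, H511Z.Lay.parGraph H511Z.Lay.par,
      fun x => Finset.univ.filter (H511Z.Lay.InB x), H511Z.Lay.lay, ?_, ?_, ?_, ?_, ?_⟩
    · exact H511Z.Lay.parGraph_isTree _ H511Z.Lay.W.root H511Z.Lay.dep H511Z.Lay.dep_par rfl
    · intro v
      have := H511Z.Lay.induce_connected H511Z.Lay.par H511Z.Lay.W.root H511Z.Lay.dep
        H511Z.Lay.dep_par (fun x : V => H511Z.Lay.InB x v) v (H511Z.Lay.inB_self v)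
        (fun x hx hxv => H511Z.Lay.inB_par v x hx hxv)
      have e : {x : V | v ∈ Finset.univ.filter (H511Z.Lay.InB x)} = {x : V | H511Z.Lay.InB x v} := by
        ext x
        simp
      rw [e]
      exact this
    · intro u v huv
      obtain ⟨z, h1, h2⟩ := H511Z.Lay.adj_bag huv
      exact ⟨z, by simpa using h1, by simpa using h2⟩
    · intro u v huv
      exact H511Z.Lay.adj_lay huv
    · intro x i
      obtain ⟨e1, e2, e3, e4, h⟩ := H511Z.Lay.bag_layer x i
      refine le_trans (Finset.card_le_card (t := {e1, e2, e3, e4}) ?_) Finset.card_le_four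
      intro y hy
      simp only [Finset.mem_filter, Finset.mem_univ, true_and] at hy
      simpa using h y hy.1 hy.2) H511Z.Lay.no_K2
  exact H511Z.Lay.no_colouring c hc le_rfl (Nat.lt_succ_self _) (Nat.lt_succ_self _)

end Pool.Agent.S07822
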