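import Pool.Statements.S07857
import Pool.Agent.H232Z.Str.Cut

set_option autoImplicit false
open Pool Pool.MP_2cf721_co

namespace Pool.Agent.S07857

/-- There is a constant c such that for every k, every finite family of Jordan curves in the plane with any two meeting in at most one point and no point on more than k curves can be colored with k+c colors, intersecting curves getting different colors. -/
theorem result :
    ∃ c : ℕ, ∀ (k : ℕ) (ι : Type) [Fintype ι] (γ : ι → Circle → ℂ),
      (∀ i, Continuous (γ i)) →
      (∀ i, Function.Injective (γ i)) →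
      (∀ i j, i ≠ j → (Set.range (γ i) ∩ Set.range (γ j)).Subsingleton) →
      (∀ p : ℂ, Set.ncard {i : ι | p ∈ Set.range (γ i)} ≤ k) →
      ∃ f : ι → Fin (k + c), ∀ i j, i ≠ j →
        (Set.range (γ i) ∩ Set.range (γ j)).Nonempty → f i ≠ f j := by
  classical
  exact ⟨_, fun k ι _ γ h1 h2 h3 h4 => H232Z.Str.jordan_colouring k γ h1 h2 h3 h4⟩

end Pool.Agent.S07857
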