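import Pool.Statements.S07894
import Pool.Agent.H883Z.CayFinal

set_option autoImplicit false
open Classical
open Pool Pool.MP_2e39f7_co

namespace Pool.Agent.S07894

/-- The statement fails along elementary abelian 2-groups of rank `n` with `m (n - m) = 2 ^ m - 4`. -/
theorem result :
    ¬ (∀ ε : ℝ, 0 < ε → ∃ N₀ : ℕ, ∀ (G : Type) [AddCommGroup G] [Fintype G],
      N₀ ≤ Fintype.card G →
      (1 - ε) * (2 : ℝ) ^ (Fintype.card G) ≤
        ((Finset.univ.filter (fun A : Finset G =>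
            |((SimpleGraph.fromRel (fun x y : G => x + y ∈ A)).chromaticNumber.toNat : ℝ) *
              ((SimpleGraph.fromRel (fun x y : G => x + y ∈ A)).cliqueNum : ℝ) /
              (Fintype.card G : ℝ) - 1| ≤ ε)).card : ℝ)) := by
  intro H
  obtain ⟨N₀, hN⟩ := H (1 / 300) (by norm_num)
  obtain ⟨m, e, h1, h2⟩ := Pool.Agent.H883Z.Cay.main N₀
  have key : ∀ (N : ℕ) (F : Finset (Finset ((Fin m → ZMod 2) × (Fin e → ZMod 2)))),
      40 * F.card ≤ 39 * 2 ^ N → ¬ ((1 - 1 / 300) * (2 : ℝ) ^ N ≤ (F.card : ℝ)) := by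
    intro N F h4 h3
    have h6 : (0 : ℝ) < 2 ^ N := by positivity
    have h7 : ((40 * F.card : ℕ) : ℝ) ≤ ((39 * 2 ^ N : ℕ) : ℝ) := Nat.cast_le.2 h4
    push_cast at h7
    linarith
  refine key _ _ (h2 _ ?_) (hN ((Fin m → ZMod 2) × (Fin e → ZMod 2)) h1)
  intro A hA
  exact (Finset.mem_filter.1 hA).2

end Pool.Agent.S07894
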