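import Pool.Statements.S07895
import Pool.Agent.H295Z.ConnDens

set_option autoImplicit false
open Classical
open Pool Pool.MP_2e5503_co

namespace Pool.Agent.S07895

/-- For every finite connected graph with minimum degree at least 3, the average size of a connected vertex set, divided by the number of vertices, is strictly greater than 1/2. -/
theorem result :
    ∀ (V : Type) [Fintype V] (G : SimpleGraph V),
      G.Connected → (∀ v : V, 3 ≤ G.degree v) →
      (1 : ℝ) / 2 <
        ((∑ S ∈ (Finset.univ : Finset (Finset V)).filter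
              (fun S : Finset V => (G.induce (S : Set V)).Connected), (S.card : ℝ)) /
          (((Finset.univ : Finset (Finset V)).filter
              (fun S : Finset V => (G.induce (S : Set V)).Connected)).card : ℝ)) /
        (Fintype.card V : ℝ) := by
  intro V _ G hG hd
  have hdeg : ∀ v p q : V, ∃ u, G.Adj v u ∧ u ≠ p ∧ u ≠ q := by
    intro v p q
    by_contra hcon
    push Not at hcon
    have hs : G.neighborFinset v ⊆ {p, q} := by
      intro u hu
      rw [SimpleGraph.mem_neighborFinset] at hu
      by_cases e : u = p
      · simp [e]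
      · simp [hcon u hu e]
    have h1 := (Finset.card_le_card hs).trans Finset.card_le_two
    have h2 := hd v
    rw [← SimpleGraph.card_neighborFinset_eq_degree] at h2
    omega
  have hm := Pool.Agent.H295Z.CD.main hG hdeg
  have e : (Finset.univ : Finset (Finset V)).filter
      (fun S : Finset V => (G.induce (S : Set V)).Connected) = Pool.Agent.H295Z.CD.CC G := by
    ext S
    rw [Finset.mem_filter, Pool.Agent.H295Z.CD.mem_CC, Pool.Agent.H295Z.CD.conn_iff]
    simp
  rw [e]
  obtain ⟨v⟩ := hG.nonempty
  have hN : 0 < (Pool.Agent.H295Z.CD.CC G).card :=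
    Finset.card_pos.2 ⟨{v}, Pool.Agent.H295Z.CD.mem_CC.2 (Pool.Agent.H295Z.CD.conn_singleton v)⟩
  have hn : 0 < Fintype.card V := Fintype.card_pos_iff.2 ⟨v⟩
  have hN' : (0 : ℝ) < (Pool.Agent.H295Z.CD.CC G).card := by exact_mod_cast hN
  have hn' : (0 : ℝ) < Fintype.card V := by exact_mod_cast hn
  have hm' : ((Pool.Agent.H295Z.CD.CC G).card : ℝ) * Fintype.card V <
      2 * ∑ U ∈ Pool.Agent.H295Z.CD.CC G, (U.card : ℝ) := by exact_mod_cast hm
  rw [div_div, lt_div_iff₀ (mul_pos hN' hn')]
  linarith

end Pool.Agent.S07895
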