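import Pool.Statements.S07944
import Pool.Agent.H68Z.QR.Main

set_option autoImplicit false
open Pool Pool.MP_312c66_co

namespace Pool.Agent.S07944

/-- The negation of the preceding statement: For r≥4, q≥2, ε>0 there are D,c>0 such that for all large k and all n<exp(exp(c k^D)), some q-colouring of the r-sets of [n] has no set S of size ≥k where colour 1 has average degree ρ_1·C(∣S∣-1,r-1) with ρ_1=1, or another colour has average degree ε/(q-1)·C(∣S∣-1,r-1). -/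
theorem result :
    ¬ (∀ r : ℕ, 4 ≤ r → ∀ q : ℕ, 2 ≤ q → ∀ ε : ℝ, 0 < ε →
    ∃ D : ℝ, 0 < D ∧ ∃ c : ℝ, 0 < c ∧ ∃ K : ℕ, ∀ k : ℕ, K ≤ k →
      ∀ n : ℕ, (n : ℝ) < Real.exp (Real.exp (c * (k : ℝ) ^ D)) →
        ∃ φ : Finset (Fin n) → Fin q, ∀ S : Finset (Fin n), k ≤ S.card → ∀ j : Fin q,
          ((r : ℝ) * (((S.powersetCard r).filter (fun e => φ e = j)).card : ℝ)) / (S.card : ℝ) <
            (if j.val = 0 then (1 : ℝ) else ε / ((q : ℝ) - 1)) *
              (((S.card - 1).choose (r - 1) : ℕ) : ℝ)) := by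
  intro h
  obtain ⟨D, hD, c, hc, K, hK⟩ := h 4 le_rfl 2 le_rfl (1 / 100) (by norm_num)
  have ht : Filter.Tendsto (fun k : ℕ => Real.exp (c * (k : ℝ) ^ D) / ((k : ℝ) ^ D) ^ (4 / D))
      Filter.atTop Filter.atTop :=
    ((tendsto_exp_mul_div_rpow_atTop (4 / D) c hc).comp (tendsto_rpow_atTop hD)).comp
      tendsto_natCast_atTop_atTop
  obtain ⟨k, hk1, hk2, hk3⟩ := ((ht.eventually_ge_atTop 64).and
    ((Filter.eventually_ge_atTop K).and (Filter.eventually_ge_atTop 4))).exists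
  have hkpos : (0 : ℝ) < k := by exact_mod_cast (by omega : 0 < k)
  have h1 : ((k : ℝ) ^ D) ^ (4 / D) = (k : ℝ) ^ 4 := by
    rw [← Real.rpow_mul hkpos.le, mul_div_cancel₀ _ hD.ne']
    exact_mod_cast Real.rpow_natCast (k : ℝ) 4
  rw [h1, le_div_iff₀ (by positivity)] at hk1
  have h2 : ((k * H68Z.QR.sz k : ℕ) : ℝ) < Real.exp (Real.exp (c * (k : ℝ) ^ D)) := by
    have h3 : ((k * H68Z.QR.sz k : ℕ) : ℝ) ≤ (2 : ℝ) ^ (64 * k ^ 4) := by
      exact_mod_cast H68Z.QR.sz_le k (by omega)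
    have h4 : (2 : ℝ) ^ (64 * k ^ 4) < Real.exp 1 ^ (64 * k ^ 4) := by
      apply pow_lt_pow_left₀ _ (by norm_num) (by positivity)
      have := Real.exp_one_gt_d9
      linarith
    rw [← Real.exp_nat_mul, mul_one] at h4
    refine (h3.trans_lt h4).trans_le (Real.exp_le_exp.2 ?_)
    push_cast
    exact hk1
  obtain ⟨φ, hφ⟩ := hK k hk2 _ h2
  rcases H68Z.QR.dich k hk3 _ rfl φ with ⟨S, hS1, hS2⟩ | ⟨S, hS1, hS2⟩
  · have h5 := hφ S hS1.ge 0
    rw [Finset.filter_true_of_mem hS2, Finset.card_powersetCard, hS1, div_lt_iff₀ hkpos] at h5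
    have h6 : k * (k - 1).choose 3 = k.choose 4 * 4 := by
      have := Nat.add_one_mul_choose_eq (k - 1) 3
      rwa [Nat.sub_add_cancel (by omega : 1 ≤ k)] at this
    have h7 : (k : ℝ) * ((k - 1).choose 3 : ℕ) = (k.choose 4 : ℕ) * 4 := by exact_mod_cast h6
    norm_num at h5
    linarith
  · have h5 := hφ S (by omega) 1
    rw [hS1, div_lt_iff₀ (by positivity)] at h5
    have h6 : (((4 * k - 1).choose 3 : ℕ) : ℝ) ≤ (4 * k) ^ 3 := by
      have h7 : (4 * k - 1).choose 3 ≤ (4 * k) ^ 3 :=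
        (Nat.choose_le_pow _ _).trans (Nat.pow_le_pow_left (by omega) 3)
      exact_mod_cast h7
    have h8 : (k : ℝ) ^ 4 ≤ (((S.powersetCard 4).filter (fun E => φ E = 1)).card : ℝ) := by
      exact_mod_cast hS2
    norm_num at h5
    have h9 : (((4 * k - 1).choose 3 : ℕ) : ℝ) * k ≤ (4 * k) ^ 3 * k := by gcongr
    have h10 : (0 : ℝ) < (k : ℝ) ^ 4 := by positivity
    nlinarith

end Pool.Agent.S07944
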