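import Pool.Statements.S07947
import Pool.Agent.H40Z.PathOdd

set_option autoImplicit false
open Classical
open Pool Pool.MP_31464c_co

namespace Pool.Agent.S07947

open Pool.Agent.H40Z.PathOdd

set_option maxHeartbeats 200000 in
/-- There is a finite simple graph G such that no family of k paths in the complete graph on its vertices, with k at most max(number of odd-degree vertices / 2, ceil((max degree + 1)/2)), has symmetric difference of edge sets equal to E(G). -/
theorem result :
    ∃ (n : ℕ) (G : SimpleGraph (Fin n)),
      ∀ k : ℕ,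
        k ≤ max ((Finset.univ.filter (fun x : Fin n => Odd (G.degree x))).card / 2)
                ((G.maxDegree + 2) / 2) →
        ¬ ∃ (u w : Fin k → Fin n)
            (P : ∀ i : Fin k, (⊤ : SimpleGraph (Fin n)).Walk (u i) (w i)),
            (∀ i, (P i).IsPath) ∧
            ∀ e : Sym2 (Fin n),
              (Odd ((Finset.univ.filter (fun i : Fin k => e ∈ (P i).edges)).card)
                ↔ e ∈ G.edgeSet) := by
  refine ⟨7, G7, ?_⟩
  intro k hk
  have hk2 : k ≤ 2 := by
    refine hk.trans (max_le ?_ ?_)
    · refine Nat.div_le_of_le_mul ?_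
      refine le_trans (Finset.card_le_card (t := Finset.univ.filter (fun x : Fin 7 => x.val < 4)) ?_) ?_
      · intro x hx
        rw [Finset.mem_filter] at hx ⊢
        refine ⟨hx.1, ?_⟩
        have h2 := hx.2
        rw [deg_eq] at h2
        by_contra hn
        rw [if_neg hn] at h2
        exact absurd h2 (by decide)
      · decide
    · have := maxdeg_le (fun a b => propDecidable _)
      omega
  rintro ⟨u, w, P, hP, hE⟩
  have hE' : ∀ x y : Fin 7, G7.Adj x y ↔
      Odd ((Finset.univ.filter (fun i : Fin k => s(x, y) ∈ (P i).edges)).card) := by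
    intro x y
    rw [← SimpleGraph.mem_edgeSet, ← hE]
  interval_cases k
  · have := (hE' 0 1).1 (by decide)
    simp at this
  · have one : ∀ x y : Fin 7, G7.Adj x y → s(x, y) ∈ (P 0).edges := by
      intro x y hxy
      have h1 := (hE' x y).1 hxy
      by_contra hn
      have : (Finset.univ.filter (fun i : Fin 1 => s(x, y) ∈ (P i).edges)) = ∅ := by
        apply Finset.filter_eq_empty_iff.2
        intro i _
        rw [Subsingleton.elim i 0]
        exact hn
      rw [this] at h1
      simp at h1
    have := deg_le_two (P 0) (hP 0) 0 1 2 3 (one _ _ (by decide)) (one _ _ (by decide))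
      (one _ _ (by decide))
    exact absurd this (by decide)
  · have two : ∀ x y : Fin 7, G7.Adj x y ↔
        ¬ (s(x, y) ∈ (P 0).edges ↔ s(x, y) ∈ (P 1).edges) := by
      intro x y
      rw [hE', Finset.card_filter, Fin.sum_univ_two]
      by_cases h0 : s(x, y) ∈ (P 0).edges <;> by_cases h1 : s(x, y) ∈ (P 1).edges <;>
        simp [h0, h1]
    by_cases h45 : s((4 : Fin 7), (5 : Fin 7)) ∈ (P 0).edges
    · exact two_paths (P 0) (P 1) (hP 0) (hP 1) two h45
    · have h45' : s((4 : Fin 7), (5 : Fin 7)) ∈ (P 1).edges := by
        have := (two 4 5).1 (by decide)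
        by_contra hn
        exact this ⟨fun h1 => absurd h1 h45, fun h1 => absurd h1 hn⟩
      refine two_paths (P 1) (P 0) (hP 1) (hP 0) ?_ h45'
      intro x y
      rw [two]
      exact not_congr Iff.comm

end Pool.Agent.S07947
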