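import Pool.Statements.S07963
import Pool.Agent.H292Z.Chrom

set_option autoImplicit false
open Pool Pool.MP_31cced_co

namespace Pool.Agent.S07963

/-- For every finite simple graph G on n vertices with clique number ω and every integer λ ≥ n, the number of proper (λ−1)-colourings divided by the number of proper λ-colourings is at most (1−ω/λ)(1−1/λ)^(n−ω). -/
theorem result :
    ∀ (V : Type) [Fintype V] (G : SimpleGraph V) (lam : ℕ),
      Fintype.card V ≤ lam →
      (Nat.card (G.Coloring (Fin (lam - 1))) : ℝ) / (Nat.card (G.Coloring (Fin lam)) : ℝ)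
        ≤ (1 - ((sSup {k : ℕ | ∃ s : Finset V, G.IsNClique k s} : ℕ) : ℝ) / (lam : ℝ))
          * (1 - 1 / (lam : ℝ)) ^ (Fintype.card V - sSup {k : ℕ | ∃ s : Finset V, G.IsNClique k s}) := by
  classical
  intro V _ G lam hlam
  let _ : LinearOrder V := LinearOrder.lift' (Fintype.equivFin V) (Fintype.equivFin V).injective
  have hbdd : BddAbove {k : ℕ | ∃ s : Finset V, G.IsNClique k s} :=
    ⟨Fintype.card V, by rintro k ⟨s, hs⟩; rw [← hs.card_eq]; exact Finset.card_le_univ s⟩
  obtain ⟨K, hK⟩ := Nat.sSup_mem (s := {k : ℕ | ∃ s : Finset V, G.IsNClique k s})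
    ⟨0, ∅, SimpleGraph.isNClique_empty.2 rfl⟩ hbdd
  rw [← hK.card_eq, H292Z.Chrom.card_coloring, H292Z.Chrom.card_coloring]
  have hKn : K.card ≤ Fintype.card V := Finset.card_le_univ K
  rcases lam with _ | t
  · have h0 : Fintype.card V = 0 := by omega
    have h1 : K.card = 0 := by omega
    simp only [h0, h1, Nat.zero_sub, pow_zero, Nat.cast_zero, div_zero, sub_zero, mul_one]
    exact div_self_le_one _
  have hq : (0 : ℝ) < t + 1 := by positivity
  have hw : 0 ≤ 1 - (K.card : ℝ) / (t + 1) := by
    rw [sub_nonneg, div_le_one hq]; exact_mod_cast hKn.trans hlam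
  have hc : (1 : ℝ) - 1 / (t + 1) = t / (t + 1) := by field_simp; ring
  have hmain := H292Z.Chrom.main t (Fintype.card V) Finset.univ K G.Adj Finset.card_univ
    (Finset.subset_univ K) (fun a ha b hb hab => Or.inl (hK.isClique ha hb hab)) hlam
  push_cast
  rw [hc]
  refine div_le_of_le_mul₀ (Nat.cast_nonneg _) (by positivity) ?_
  rcases Nat.eq_zero_or_pos t with rfl | ht
  · rcases Nat.eq_zero_or_pos (Fintype.card V) with h0 | h0
    · have h1 : K.card = 0 := by omega
      simpa [h0, h1] using hmain
    · obtain ⟨v⟩ := Fintype.card_pos_iff.1 h0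
      have : H292Z.Chrom.Col Finset.univ G.Adj 0 = ∅ :=
        Finset.eq_empty_of_forall_notMem fun f hf =>
          absurd ((H292Z.Chrom.mem_Col.1 hf).1 v (Finset.mem_univ v)) (Nat.not_lt_zero _)
      rw [this, Finset.card_empty, Nat.cast_zero]
      exact mul_nonneg (mul_nonneg (by simpa using hw) (by positivity)) (Nat.cast_nonneg _)
  · have hcpos : (0 : ℝ) < t / (t + 1) := by
      have : (0 : ℝ) < t := by exact_mod_cast ht
      positivity
    refine le_of_mul_le_mul_right (hmain.trans (le_of_eq ?_)) (pow_pos hcpos K.card)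
    rw [← Nat.sub_add_cancel hKn, pow_add, Nat.add_sub_cancel]
    ring

end Pool.Agent.S07963
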