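import Pool.Statements.S07967
import Pool.Agent.H541Z.Sq2

set_option autoImplicit false
open Pool Pool.MP_31db24_co

namespace Pool.Agent.S07967

/-- For every finite colouring of ℕ there are a strictly increasing sequence b of positive integers, an integer shift t and a colour k such that every b_i + t and every b_i² + b_j + t (i < j) is a natural number coloured k. -/
theorem result :
    ∀ (r : ℕ) (c : ℕ → Fin r),
      ∃ (b : ℕ → ℕ) (t : ℤ) (k : Fin r),
        StrictMono b ∧ 0 < b 0 ∧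
        (∀ i : ℕ, ∃ n : ℕ, (n : ℤ) = (b i : ℤ) + t ∧ c n = k) ∧
        (∀ i j : ℕ, i < j →
          ∃ n : ℕ, (n : ℤ) = (b i : ℤ) ^ 2 + (b j : ℤ) + t ∧ c n = k) := by
  intro r c
  obtain ⟨h, s, i, C, hmono, h1, h2⟩ := Pool.Agent.H541Z.Sq.exists_seq (fun m : ℤ => c m.toNat)
  have hb : ∀ j, (((i + h j).toNat : ℕ) : ℤ) = i + h j := fun j => Int.toNat_of_nonneg (h1 j).1.le
  refine ⟨fun j => (i + h j).toNat, s - i, C, fun j k hjk => ?_, ?_, fun j => ?_, fun j k hjk => ?_⟩
  · have h3 := hmono hjk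
    have h4 := (h1 j).1
    simp only
    omega
  · have h4 := (h1 0).1
    simp only
    omega
  · refine ⟨(s + h j).toNat, ?_, (h1 j).2.2⟩
    rw [hb, Int.toNat_of_nonneg (h1 j).2.1.le]
    ring
  · refine ⟨(s + (i + h j) ^ 2 + h k).toNat, ?_, h2 j k hjk⟩
    have h4 := (h1 k).2.1
    have h5 := sq_nonneg (i + h j)
    rw [hb, hb, Int.toNat_of_nonneg (by linarith)]
    ring

end Pool.Agent.S07967
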