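import Pool.Statements.S07998
-- import your own Pool.Agent.* helpers here

set_option autoImplicit false
open Pool Pool.MP_32d4a3_co

namespace Pool.Agent.S07998

/-- the 24 edges, as words of length seven over four letters, read from the base four digits of
one number. The words are
0000000 3311001 3302301 3003311 3020311 0012111 0310312 3312300 3212300 0212011 1302301 3332010
2310310 3100311 1012011 0322301 0313310 3302110 3310201 0302321 3012320 3310031 3012303 3302012 -/
def W (a : Fin 24) (i : Fin 7) : ℕ :=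
  79969696022290524779432154291613685408530716137229026273731957010177833593405730808392453815358963712 / 4 ^ (7 * a.val + i.val) % 4

theorem W_agree : ∀ a b : Fin 24, 2 ≤ (Finset.univ.filter (fun i => W a i = W b i)).card := by
  decide +kernel

theorem W_lt : ∀ a : Fin 24, ∀ i : Fin 7, W a i < 4 := by
  decide +kernel

theorem W_avoid : ∀ i j k : Fin 7, ∀ x y z : Fin 4, ∃ a : Fin 24,
    W a i ≠ x.val ∧ W a j ≠ y.val ∧ W a k ≠ z.val := by
  decide +kernel

theorem sub_three {α : Type} [DecidableEq α] [Inhabited α] (C : Finset α) (h : C.card ≤ 3) :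
    ∃ a b c : α, ∀ v ∈ C, v = a ∨ v = b ∨ v = c := by
  have h0 : C.card = 0 ∨ C.card = 1 ∨ C.card = 2 ∨ C.card = 3 := by omega
  rcases h0 with h0 | h0 | h0 | h0
  · rw [Finset.card_eq_zero] at h0
    subst h0
    exact ⟨default, default, default, by simp⟩
  · obtain ⟨a, rfl⟩ := Finset.card_eq_one.1 h0
    exact ⟨a, a, a, by simp⟩
  · obtain ⟨a, b, -, rfl⟩ := Finset.card_eq_two.1 h0
    exact ⟨a, b, b, by simp⟩
  · obtain ⟨a, b, c, -, -, -, rfl⟩ := Finset.card_eq_three.1 h0
    exact ⟨a, b, c, by simp⟩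


/-- The negation of the preceding statement: For 2 ≤ t ≤ r, every finite r-partite r-uniform hypergraph whose edges pairwise share at least t vertices has a vertex cover of size at most floor((r−t)/2)+1, and some such hypergraph needs exactly that many. -/
theorem result :
    ¬ (∀ r t : ℕ, 2 ≤ t → t ≤ r →
      (∀ H : Finset (Fin r → ℕ),
          (∀ e ∈ H, ∀ f ∈ H, t ≤ (Finset.univ.filter (fun i => e i = f i)).card) →
          ∃ C : Finset (Fin r × ℕ), C.card ≤ (r - t) / 2 + 1 ∧
            ∀ e ∈ H, ∃ i : Fin r, (i, e i) ∈ C) ∧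
      (∃ H : Finset (Fin r → ℕ),
          (∀ e ∈ H, ∀ f ∈ H, t ≤ (Finset.univ.filter (fun i => e i = f i)).card) ∧
          ∀ C : Finset (Fin r × ℕ), (∀ e ∈ H, ∃ i : Fin r, (i, e i) ∈ C) →
            (r - t) / 2 + 1 ≤ C.card)) := by
  intro h
  obtain ⟨C, hC, hcov⟩ := (h 7 2 (by norm_num) (by norm_num)).1 (Finset.univ.image W) (by
    intro e he f hf
    obtain ⟨a, -, rfl⟩ := Finset.mem_image.1 he
    obtain ⟨b, -, rfl⟩ := Finset.mem_image.1 hf
    exact W_agree a b)
  obtain ⟨p, q, s, hs⟩ := sub_three C (by simpa using hC)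
  obtain ⟨a, h1, h2, h3⟩ := W_avoid p.1 q.1 s.1 ⟨p.2 % 4, Nat.mod_lt _ (by norm_num)⟩
    ⟨q.2 % 4, Nat.mod_lt _ (by norm_num)⟩ ⟨s.2 % 4, Nat.mod_lt _ (by norm_num)⟩
  obtain ⟨i, hi⟩ := hcov (W a) (Finset.mem_image_of_mem _ (Finset.mem_univ a))
  have hlt := W_lt a i
  rcases hs _ hi with rfl | rfl | rfl
  · exact h1 (Nat.mod_eq_of_lt hlt).symm
  · exact h2 (Nat.mod_eq_of_lt hlt).symm
  · exact h3 (Nat.mod_eq_of_lt hlt).symm

end Pool.Agent.S07998
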