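import Pool.Statements.S08038
import Pool.Agent.H101Z.Col.Grid

set_option autoImplicit false
open Pool Pool.MP_349e33_co

namespace Pool.Agent.S08038

/-- The negation of the preceding statement: There is c>0 such that for every finite graph F and every ε>0, for all large Δ, every finite F-free graph of maximum degree Δ has chromatic number at most (c+ε)Δ/log Δ. -/
theorem result :
    ¬ (∃ c : ℝ, 0 < c ∧
      ∀ (k : ℕ) (F : SimpleGraph (Fin k)), ∀ ε : ℝ, 0 < ε →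
        ∃ Δ₀ : ℕ, ∀ Δ : ℕ, Δ₀ ≤ Δ →
          ∀ (V : Type) [Fintype V] (G : SimpleGraph V) [DecidableRel G.Adj],
            F.Free G → G.maxDegree = Δ →
              ∃ n : ℕ, G.Colorable n ∧
                (n : ℝ) ≤ (c + ε) * ((Δ : ℝ) / Real.log (Δ : ℝ))) := by
  classical
  rintro ⟨c, hc, H⟩
  obtain ⟨s, hs⟩ := exists_nat_gt (Real.exp (2 * (c + 1)))
  have hs1 : (1 : ℝ) < s := lt_of_le_of_lt (Real.one_le_exp (by positivity)) hs
  have hs2 : 1 < s := by exact_mod_cast hs1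
  have hlog : 2 * (c + 1) < Real.log s := (Real.lt_log_iff_exp_lt (by linarith)).mpr hs
  obtain ⟨m, hm⟩ := H (s ^ 2 + 1 + 2) ⊤ 1 one_pos
  have hq : 0 < s ^ (m + 1) := by positivity
  have hlt : (s ^ (m + 1)) ^ 2 < (s ^ 2 + 1) ^ (m + 1) := by
    rw [← pow_mul, mul_comm, pow_mul]
    exact Nat.pow_lt_pow_left (Nat.lt_succ_self _) (Nat.succ_ne_zero _)
  obtain ⟨p, hp⟩ := Pool.Agent.H101Z.Col.exists_grid m (s ^ (m + 1)) (s ^ 2 + 1) hq hlt
  have hΔ : s ^ (m + 1) ≤ (Pool.Agent.H101Z.Col.grid p).maxDegree := by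
    by_contra hlt'
    exact hp ((Pool.Agent.H101Z.Col.colorable_maxDegree _).mono (by omega))
  have hm' : m ≤ (Pool.Agent.H101Z.Col.grid p).maxDegree :=
    le_trans (le_trans (Nat.le_succ m) (Nat.lt_pow_self hs2).le) hΔ
  obtain ⟨n, hn, hle⟩ := hm _ hm' _ (Pool.Agent.H101Z.Col.grid p)
    (Pool.Agent.H101Z.Col.grid_free p) rfl
  have hD := Pool.Agent.H101Z.Col.grid_degree p
  generalize (Pool.Agent.H101Z.Col.grid p).maxDegree = D at hΔ hle hD
  refine hp (hn.mono ?_)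
  have hΔ' : (s : ℝ) ^ (m + 1) ≤ D := by exact_mod_cast hΔ
  have hD' : (D : ℝ) ≤ (m + 1) * (2 * (s : ℝ) ^ (m + 1)) := by exact_mod_cast hD
  have hq' : (0 : ℝ) < (s : ℝ) ^ (m + 1) := by positivity
  have hl : (m + 1) * Real.log s ≤ Real.log D := by
    have := Real.log_le_log hq' hΔ'
    rw [Real.log_pow] at this
    exact_mod_cast this
  have hm1 : (0 : ℝ) < m + 1 := by positivity
  have hl0 : 0 < (m + 1) * Real.log s := mul_pos hm1 (by linarith)
  have hfin : (c + 1) * ((D : ℝ) / Real.log D) ≤ (s : ℝ) ^ (m + 1) := by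
    rw [← mul_div_assoc, div_le_iff₀ (lt_of_lt_of_le hl0 hl)]
    have h1 : (c + 1) * D ≤ (c + 1) * ((m + 1) * (2 * (s : ℝ) ^ (m + 1))) :=
      mul_le_mul_of_nonneg_left hD' (by linarith)
    have h2 : (s : ℝ) ^ (m + 1) * ((m + 1) * Real.log s) ≤ (s : ℝ) ^ (m + 1) * Real.log D :=
      mul_le_mul_of_nonneg_left hl hq'.le
    have h3 : (s : ℝ) ^ (m + 1) * (m + 1) * (2 * (c + 1)) ≤
        (s : ℝ) ^ (m + 1) * (m + 1) * Real.log s :=
      mul_le_mul_of_nonneg_left hlog.le (by positivity)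
    nlinarith
  exact_mod_cast hle.trans hfin

end Pool.Agent.S08038
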