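import Pool.Statements.S08058
import Pool.Agent.H453Z.Mixed

set_option autoImplicit false
open Pool Pool.MP_351e72_co

namespace Pool.Agent.S08058

/-- The negation of the preceding statement: For h hyperbolic w.r.t. e of degree d and v_j in the closed cone summing to e with traces ≤ ε, every real zero of ∏(1−D_{v_j})h(te) is ≤ some zero of the one for v = (ε/d)e (k times), (1−kε/d)e, then 0s, k=⌊d/ε⌋. -/
theorem result :
    ¬ (∀ (n d m : ℕ) (h : MvPolynomial (Fin n) ℝ) (e : Fin n → ℝ) (ε : ℝ),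
      h.IsHomogeneous d →
      MvPolynomial.eval e h ≠ 0 →
      (∀ (x : Fin n → ℝ) (z : ℂ),
          MvPolynomial.aeval (fun i => z * (e i : ℂ) - (x i : ℂ)) h = 0 → z.im = 0) →
      0 < ε → 0 < m → (d : ℝ) ≤ (m : ℝ) * ε →
      ∀ v : Fin m → Fin n → ℝ,
        (∀ j, ∀ t : ℝ, t < 0 → MvPolynomial.eval (fun i => t * e i - v j i) h ≠ 0) →
        (∑ j, v j = e) →
        (∀ j, (∑ i, v j i * MvPolynomial.eval e (MvPolynomial.pderiv i h))
              / MvPolynomial.eval e h ≤ ε) →
        ∀ t : ℝ,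
          MvPolynomial.eval (fun i => t * e i)
            (((List.ofFn (fun j : Fin m =>
                ((1 : Module.End ℝ (MvPolynomial (Fin n) ℝ)) - ∑ i : Fin n,
                  v j i • (MvPolynomial.pderiv (R := ℝ) i).toLinearMap))).prod :
                Module.End ℝ (MvPolynomial (Fin n) ℝ)) h) = 0 →
          ∃ s : ℝ, t ≤ s ∧
            MvPolynomial.eval (fun i => s * e i)
              (((List.ofFn (fun j : Fin m =>
                  ((1 : Module.End ℝ (MvPolynomial (Fin n) ℝ)) - ∑ i : Fin n,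
                    ((if (j : ℕ) < ⌊(d : ℝ) / ε⌋₊ then ε / (d : ℝ)
                      else if (j : ℕ) = ⌊(d : ℝ) / ε⌋₊
                        then 1 - (⌊(d : ℝ) / ε⌋₊ : ℝ) * ε / (d : ℝ)
                      else 0) * e i) •
                    (MvPolynomial.pderiv (R := ℝ) i).toLinearMap))).prod :
                  Module.End ℝ (MvPolynomial (Fin n) ℝ)) h) = 0) := by
  intro H
  have hfl : ⌊((26 : ℕ) : ℝ) / (25 / 2)⌋₊ = 2 := by
    rw [Nat.floor_eq_iff (by positivity)]
    norm_num
  obtain ⟨s, hs, h0⟩ := H 2 26 3 (H453Z.Mixed.M 25 1) (fun _ => 1) (25 / 2) H453Z.Mixed.hom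
    (by simp [H453Z.Mixed.eval_M]) H453Z.Mixed.hyp (by norm_num) (by norm_num) (by norm_num)
    ![![1 / 2, 0], ![1 / 2, 0], ![0, 1]] H453Z.Mixed.cone H453Z.Mixed.total H453Z.Mixed.trace 15
    H453Z.Mixed.root
  rw [hfl] at h0
  exact H453Z.Mixed.noroot s hs h0

end Pool.Agent.S08058
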