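import Pool.Statements.S08064
import Pool.Agent.H356Z.RSum

set_option autoImplicit false
open Pool Pool.MP_3562eb_co

namespace Pool.Agent.S08064

/-- The negation of the preceding statement: For each β>0 there are c,n0 so that for any prime p, any A in Z_p with n0 ≤ ∣A∣ = n < (1−β)p/2, and any forbidden set F ⊆ A×A of max degree ≤ d, some B ⊆ A with ∣B∣ ≤ c has at least 2n−2d−1 sums a+b, a∈A, b∈B, (a,b)∉F. -/
theorem result :
    ¬ (∀ β : ℝ, 0 < β → ∃ c n₀ : ℕ, ∀ p : ℕ, p.Prime →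
      ∀ (A : Finset (ZMod p)) (F : Finset (ZMod p × ZMod p)) (d : ℕ),
        n₀ ≤ A.card →
        (A.card : ℝ) < (1 - β) * (p : ℝ) / 2 →
        F ⊆ A ×ˢ A →
        (∀ x : ZMod p, (F.filter (fun q => q.1 = x)).card ≤ d) →
        (∀ x : ZMod p, (F.filter (fun q => q.2 = x)).card ≤ d) →
        ∃ B : Finset (ZMod p), B ⊆ A ∧ B.card ≤ c ∧
          (2 * (A.card : ℤ) - 2 * (d : ℤ) - 1) ≤
            ((((A ×ˢ B) \ F).image (fun q => q.1 + q.2)).card : ℤ)) := by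
  intro h
  obtain ⟨c, n₀, h⟩ := h (1 / 2) (by norm_num)
  obtain ⟨p, hp, A, F, d, h1, h2, h3, h4, h5, h6, h7⟩ :=
    Pool.Agent.H356Z.RSum.main (1 / 2) (by norm_num) n₀
  obtain ⟨B, hB, -, hc⟩ := h p hp A F d h1 h2 h4 h5 h6
  have := h7 B hB
  omega

end Pool.Agent.S08064
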