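import Pool.Statements.S08075
import Pool.Agent.H891Z.BddExp

set_option autoImplicit false
open Pool Pool.MP_35c2eb_co

namespace Pool.Agent.S08075

/-- If a subgraph-closed graph class has, for each h≥1, a uniform dimension bound for finite posets of height ≤h whose cover graphs lie in it, then for every r its r-shallow minors have edge count at most a constant times vertex count. -/
theorem result :
  ∀ C : ∀ V : Type, SimpleGraph V → Prop,
    (∀ (V W : Type) (G : SimpleGraph V) (H : SimpleGraph W) (f : H →g G),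
        Function.Injective f → C V G → C W H) →
    (∀ h : ℕ, 1 ≤ h → ∃ d : ℕ, ∀ (P : Type) [Fintype P] [PartialOrder P],
        (∀ s : Finset P, IsChain (· ≤ ·) (s : Set P) → s.card ≤ h) →
        C P (SimpleGraph.fromRel (fun x y : P => x ⋖ y)) →
        ∃ f : Fin d → P → ℕ, (∀ i, Function.Injective (f i)) ∧
          ∀ x y : P, x ≤ y ↔ ∀ i, f i x ≤ f i y) →
    ∀ r : ℕ, ∃ c : ℕ, ∀ (V W : Type) [Fintype V] [Fintype W]
        (G : SimpleGraph V) (H : SimpleGraph W),
      C V G →
      (∃ B : W → Set V, (∀ w w', w ≠ w' → Disjoint (B w) (B w')) ∧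
        (∀ w, ∃ v ∈ B w, ∀ u ∈ B w, ∃ p : G.Walk v u,
            p.length ≤ r ∧ ∀ x ∈ p.support, x ∈ B w) ∧
        (∀ w w', H.Adj w w' → ∃ u ∈ B w, ∃ u' ∈ B w', G.Adj u u')) →
      Nat.card H.edgeSet ≤ c * Fintype.card W :=
  Pool.Agent.H891Z.bdd_expansion

end Pool.Agent.S08075
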