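import Pool.Statements.S08133
import Pool.Agent.H719Z.EG.Main

set_option autoImplicit false
open Pool Pool.MP_3852e9_co

namespace Pool.Agent.S08133

/-- For any 2-coloring of the plane and positive d ≠ d', if no monochromatic equilateral triangle of side d exists, then a monochromatic equilateral triangle of side d' exists. -/
theorem result :
    ∀ (col : EuclideanSpace ℝ (Fin 2) → Fin 2) (d d' : ℝ), 0 < d → 0 < d' → d ≠ d' →
      (¬ ∃ x y z : EuclideanSpace ℝ (Fin 2),
          dist x y = d ∧ dist y z = d ∧ dist x z = d ∧ col x = col y ∧ col y = col z) →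
      ∃ x y z : EuclideanSpace ℝ (Fin 2),
          dist x y = d' ∧ dist y z = d' ∧ dist x z = d' ∧ col x = col y ∧ col y = col z := by
  intro col d d' hd hd' hdd h
  let e : ℂ ≃ₗᵢ[ℝ] EuclideanSpace ℝ (Fin 2) := Complex.orthonormalBasisOneI.repr
  have key : ∀ a b : Fin 2, decide (a = 0) = decide (b = 0) → a = b := by decide
  have hn : ∀ x y : ℂ, dist (e x) (e y) = ‖x - y‖ := fun x y => by
    rw [e.dist_map, dist_eq_norm]
  obtain ⟨x, y, z, h1, h2, h3, h4, h5⟩ := Pool.Agent.H719Z.EG.equilateral
    (fun x => decide (col (e x) = 0)) d d' hd hd' hdd (by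
      rintro ⟨x, y, z, h1, h2, h3, h4, h5⟩
      exact h ⟨e x, e y, e z, (hn _ _).trans h1, (hn _ _).trans h2, (hn _ _).trans h3,
        key _ _ h4, key _ _ h5⟩)
  exact ⟨e x, e y, e z, (hn _ _).trans h1, (hn _ _).trans h2, (hn _ _).trans h3,
    key _ _ h4, key _ _ h5⟩

end Pool.Agent.S08133
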