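import Pool.Statements.S08141
import Pool.Agent.H312Z.QmC

set_option autoImplicit false
open Pool Pool.MP_389e9c_co

namespace Pool.Agent.S08141

/-- There is a finite field F, an extension K of degree m>1, and an F-linear code of n×m matrices whose shortened-code dimensions are all divisible by m, such that no matrix over K represents the q-matroid with rank (dim C − dim C(V^⊥))/m. -/
theorem result :
    ∃ (F K : Type) (_ : Field F) (_ : Fintype F) (_ : Field K) (_ : Algebra F K) (m n : ℕ),
      1 < m ∧ Module.finrank F K = m ∧
      ∃ C : Submodule F (Fin n → Fin m → F),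
        (∀ W : Submodule F (Fin n → F),
          m ∣ Module.finrank F ↥(C ⊓ ⨅ j : Fin m, Submodule.comap
            (LinearMap.pi (fun i : Fin n =>
              LinearMap.comp (LinearMap.proj j : (Fin m → F) →ₗ[F] F)
                (LinearMap.proj i : (Fin n → Fin m → F) →ₗ[F] (Fin m → F)))) W)) ∧
        ¬ ∃ (k : ℕ) (G : Matrix (Fin k) (Fin n) K),
          ∀ V : Submodule F (Fin n → F),
            m * Module.finrank K (Submodule.span K
              ((fun v : Fin n → F => Matrix.mulVec G (fun i => algebraMap F K (v i))) ''
                (V : Set (Fin n → F))))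
            = Module.finrank F C - Module.finrank F ↥(C ⊓ ⨅ j : Fin m, Submodule.comap
              (LinearMap.pi (fun i : Fin n =>
                LinearMap.comp (LinearMap.proj j : (Fin m → F) →ₗ[F] F)
                  (LinearMap.proj i : (Fin n → Fin m → F) →ₗ[F] (Fin m → F))))
              (⨅ (v : Fin n → F) (_ : v ∈ V), LinearMap.ker
                (∑ i : Fin n, v i • (LinearMap.proj i : (Fin n → F) →ₗ[F] F)))) := by
  open Pool.Agent.H312Z.Qm in
  refine ⟨ZMod 2, GaloisField 2 21, inferInstance, inferInstance, inferInstance, inferInstance,
    21, 8, by norm_num, GaloisField.finrank 2 (by norm_num), LinearMap.range enc, fun W => ?_, ?_⟩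
  · open Pool.Agent.H312Z.Qm in
    have := ann_dvd (perp W)
    open Pool.Agent.H312Z.Qm in
    rw [← short, perp_perp] at this
    exact this
  · rintro ⟨k, G, H⟩
    open Pool.Agent.H312Z.Qm in
    refine not_rep (K := GaloisField 2 21) (E := Fin k → GaloisField 2 21) (fun a => ?_)
      (fun v => Matrix.mulVec G (fun i => algebraMap (ZMod 2) (GaloisField 2 21) (v i)))
      (fun u v => ?_) (fun V => ?_)
    · have : Fintype (GaloisField 2 21) := Fintype.ofFinite _
      have h := FiniteField.pow_card a
      rwa [← Nat.card_eq_fintype_card, GaloisField.card 2 21 (by norm_num)] at h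
    · rw [← Matrix.mulVec_add]
      congr 1
      funext i
      simp
    · open Pool.Agent.H312Z.Qm in
      rw [← short, ← finrank_code]
      exact H V

end Pool.Agent.S08141
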