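import Pool.Statements.S08207
import Pool.Agent.H128Z.CommonB
import Pool.Agent.H128Z.CommonC
import Pool.Agent.H128Z.CommonD

set_option autoImplicit false
open Pool Pool.MP_3b56a7_co

namespace Pool.Agent.S08207

open Pool.Agent.H128Z.Common

theorem eq_iff (n : ℕ) (x : Fin 4 → Fin n) :
    ∑ i, (![1, -1, 4, -4] : Fin 4 → ℤ) i * (((x i : ℕ) : ℤ) + 1) = 0 ↔
      (x 0 : ℕ) + 4 * (x 2 : ℕ) = (x 1 : ℕ) + 4 * (x 3 : ℕ) := by
  rw [Fin.sum_univ_four]
  simp only [Matrix.cons_val_zero, Matrix.cons_val_one, Matrix.cons_val]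
  constructor <;> intro h <;> omega

theorem card_total (n : ℕ) :
    ((Finset.univ.filter (fun x : Fin 4 → Fin n =>
      ∑ i, (![1, -1, 4, -4] : Fin 4 → ℤ) i * (((x i : ℕ) : ℤ) + 1) = 0)).card : ℝ) = Q4 n ind := by
  rw [← Q4_fin, Finset.card_filter, Nat.cast_sum]
  refine Finset.sum_congr rfl fun x _ => ?_
  unfold ind
  simp only [eq_iff]
  split_ifs <;> simp

theorem card_mono (n r : ℕ) (c : Fin n → Fin r) :
    ((Finset.univ.filter (fun x : Fin 4 → Fin n =>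
      ∑ i, (![1, -1, 4, -4] : Fin 4 → ℤ) i * (((x i : ℕ) : ℤ) + 1) = 0 ∧
        ∀ i j : Fin 4, c (x i) = c (x j))).card : ℝ) =
      ∑ x : Fin 4 → Fin n, ind (x 0) (x 1) (x 2) (x 3) *
        (if c (x 0) = c (x 1) ∧ c (x 0) = c (x 2) ∧ c (x 0) = c (x 3) then 1 else 0) := by
  rw [Finset.card_filter, Nat.cast_sum]
  refine Finset.sum_congr rfl fun x _ => ?_
  have e : (∀ i j : Fin 4, c (x i) = c (x j)) ↔
      c (x 0) = c (x 1) ∧ c (x 0) = c (x 2) ∧ c (x 0) = c (x 3) := by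
    constructor
    · intro h
      exact ⟨h 0 1, h 0 2, h 0 3⟩
    · rintro ⟨h1, h2, h3⟩ i j
      have : ∀ i : Fin 4, c (x i) = c (x 0) := by
        intro i
        fin_cases i
        · rfl
        · exact h1.symm
        · exact h2.symm
        · exact h3.symm
      rw [this i, this j]
  unfold ind
  simp only [eq_iff, e]
  by_cases h1 : (x 0 : ℕ) + 4 * (x 2 : ℕ) = (x 1 : ℕ) + 4 * (x 3 : ℕ) <;>
    by_cases h2 : c (x 0) = c (x 1) ∧ c (x 0) = c (x 2) ∧ c (x 0) = c (x 3) <;> simp [h1, h2]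

theorem cubic_wins (α β γ : ℝ) (hα : 0 < α) (N : ℕ) :
    ∃ K : ℕ, 0 < K ∧ N ≤ K ∧ β * (K : ℝ) ^ 2 + γ * K < α * (K : ℝ) ^ 3 := by
  obtain ⟨K, hK⟩ := exists_nat_gt (max ((|β| + |γ|) / α) N)
  have h1 : (|β| + |γ|) / α < K := lt_of_le_of_lt (le_max_left _ _) hK
  have h2 : (N : ℝ) < K := lt_of_le_of_lt (le_max_right _ _) hK
  have h3 : N < K := by exact_mod_cast h2
  refine ⟨K, by omega, h3.le, ?_⟩
  have h4 : (1 : ℝ) ≤ K := by exact_mod_cast (show 1 ≤ K by omega)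
  rw [div_lt_iff₀ hα] at h1
  have h5 := le_abs_self β
  have h6 := le_abs_self γ
  have h7 := abs_nonneg γ
  have h8 : (0 : ℝ) < (K : ℝ) ^ 2 := by positivity
  have h9 : γ * K ≤ |γ| * (K : ℝ) ^ 2 := by
    have : (K : ℝ) ≤ (K : ℝ) ^ 2 := by nlinarith
    calc γ * K ≤ |γ| * K := by gcongr
      _ ≤ _ := by gcongr
  have h10 := mul_lt_mul_of_pos_right h1 h8
  nlinarith [mul_le_mul_of_nonneg_right h5 h8.le]

theorem uncommon (M r : ℕ) (hM : 0 < M) (ρ : ℝ) (p q : ℕ → ℝ) (hp : ∀ i, 0 ≤ p i)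
    (hq : ∀ i, 0 ≤ q i) (hpq : ∀ i, p i + r * q i = 1)
    (hT : Q4 M (fun i j k l => (p i * p j * p k * p l + r * (q i * q j * q k * q l))
      * w6 ((j : ℤ) + 4 * l - i - 4 * k)) < 22 * (M : ℝ) ^ 3 * ρ) :
    ¬ ∀ ε : ℝ, 0 < ε → ∃ N : ℕ, ∀ n : ℕ, N ≤ n → ∀ c : Fin n → Fin (r + 1),
      (ρ - ε) * Q4 n ind ≤ ∑ x : Fin 4 → Fin n, ind (x 0) (x 1) (x 2) (x 3) *
        (if c (x 0) = c (x 1) ∧ c (x 0) = c (x 2) ∧ c (x 0) = c (x 3) then 1 else 0) := by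
  intro h
  have hM' : (0 : ℝ) < M := by exact_mod_cast hM
  have hex := fun K hK => exists_colouring M r K hK p q hp hq hpq
  generalize Q4 M (fun i j k l => (p i * p j * p k * p l + r * (q i * q j * q k * q l))
      * w6 ((j : ℤ) + 4 * l - i - 4 * k)) = T at *
  generalize Q4 M (fun i j k l => p i * p j * p k * p l + r * (q i * q j * q k * q l)) = C at *
  set ε := (22 * (M : ℝ) ^ 3 * ρ - T) / (44 * (M : ℝ) ^ 3) with hε
  have hε0 : 0 < ε := div_pos (by linarith) (by positivity)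
  have hε1 : ε * (44 * (M : ℝ) ^ 3) = 22 * (M : ℝ) ^ 3 * ρ - T := by
    rw [hε]
    field_simp
  obtain ⟨N, hN⟩ := h ε hε0
  obtain ⟨K, hK0, hKN, hK⟩ := cubic_wins ((22 * (M : ℝ) ^ 3 * ρ - T) / 3) (80 * (M : ℝ) ^ 2)
    (4 / 3 * C - (ρ - ε) * (4 * M / 3)) (by linarith) N
  obtain ⟨col, hcol⟩ := hex K hK0
  have h1 := hN (M * (4 * K)) (by nlinarith) col
  have h2 := total_formula (M * K)
  rw [show 4 * (M * K) = M * (4 * K) by ring] at h2
  rw [h2] at h1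
  have h3 := h1.trans hcol
  push_cast at h3
  have h4 : (ρ - ε) * ((44 * ((M : ℝ) * K) ^ 3 + 4 * (M * K)) / 3) =
      ρ * (44 * (M : ℝ) ^ 3) * (K : ℝ) ^ 3 / 3 - ε * (44 * (M : ℝ) ^ 3) * (K : ℝ) ^ 3 / 3
        + (ρ - ε) * (4 * M / 3) * K := by ring
  rw [h4, hε1] at h3
  nlinarith

theorem common (ε : ℝ) (hε : 0 < ε) : ∃ N : ℕ, ∀ n : ℕ, N ≤ n → ∀ c : Fin n → Fin 2,
      (1 / 8 - ε) * Q4 n ind ≤ ∑ x : Fin 4 → Fin n, ind (x 0) (x 1) (x 2) (x 3) *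
        (if c (x 0) = c (x 1) ∧ c (x 0) = c (x 2) ∧ c (x 0) = c (x 3) then 1 else 0) := by
  obtain ⟨N, hN⟩ := exists_nat_gt (10 / ε)
  refine ⟨4 * (N + 1), fun n hn c => ?_⟩
  set col : ℕ → Fin 2 := fun x => if h : x < n then c ⟨x, h⟩ else 0 with hcol
  have hc : ∀ x : Fin n, c x = col x := fun x => by simp [hcol]
  obtain ⟨H, hH⟩ : ∃ H : ℕ → ℕ → ℕ → ℕ → ℝ, H = fun a b c d => ind a b c d *
        (if col a = col b ∧ col a = col c ∧ col a = col d then 1 else 0) := ⟨_, rfl⟩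
  have e1 : ∑ x : Fin 4 → Fin n, ind (x 0) (x 1) (x 2) (x 3) *
        (if c (x 0) = c (x 1) ∧ c (x 0) = c (x 2) ∧ c (x 0) = c (x 3) then 1 else 0) = Q4 n H := by
    rw [← Q4_fin n H]
    refine Finset.sum_congr rfl fun x _ => ?_
    simp only [hH, hc]
  have hH0 : ∀ a b c d, 0 ≤ H a b c d := by
    intro a b c d
    rw [hH]
    refine mul_nonneg (ind_nonneg _ _ _ _) ?_
    split_ifs <;> norm_num
  rw [e1]
  set m := n / 4 with hm
  have h1 : Q4 (4 * m) H ≤ Q4 n H := Q4_mono (by omega) hH0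
  have h2 : Q4 n ind ≤ Q4 (4 * (m + 1)) ind := Q4_mono (by omega) ind_nonneg
  have h3 := two_colour m col
  rw [← hH, total_formula] at h3
  rw [total_formula] at h2
  have h4 : Q4 (4 * m) ind ≤ Q4 n ind := Q4_mono (by omega) ind_nonneg
  rw [total_formula] at h4
  push_cast at h2
  have h5 : (N : ℝ) + 1 ≤ m := by exact_mod_cast (show N + 1 ≤ m by omega)
  have h6 : (0 : ℝ) ≤ N := by positivity
  rw [div_lt_iff₀ hε] at hN
  have h7 : 10 ≤ ε * m := by nlinarith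
  have h8 : (1 : ℝ) ≤ m := by linarith
  have h9 : 10 * (m : ℝ) ^ 2 ≤ ε * (m : ℝ) ^ 3 := by
    have := mul_le_mul_of_nonneg_right h7 (sq_nonneg (m : ℝ))
    nlinarith
  have h10 : ε * ((44 * (m : ℝ) ^ 3 + 4 * m) / 3) ≤ ε * Q4 n ind :=
    mul_le_mul_of_nonneg_left h4 hε.le
  have h11 : 0 ≤ ε * m := by linarith
  nlinarith

/-- Some integer linear equation with nonzero coefficients is not r-common on {1..n} for some r≥3, yet is s-common for some 2≤s<r. Here s-common means every s-colouring has asymptotically at least s^(1-k) of all solutions monochromatic. -/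
theorem result :
    ∃ k : ℕ, ∃ a : Fin k → ℤ, (∀ i, a i ≠ 0) ∧ ∃ r s : ℕ, 3 ≤ r ∧ 2 ≤ s ∧ s < r ∧
      (¬ ∀ ε : ℝ, 0 < ε → ∃ N : ℕ, ∀ n : ℕ, N ≤ n → ∀ c : Fin n → Fin r,
          ((((r : ℝ) ^ (k - 1))⁻¹ - ε) *
              ((Finset.univ.filter (fun x : Fin k → Fin n =>
                  ∑ i, a i * (((x i : ℕ) : ℤ) + 1) = 0)).card : ℝ))
            ≤ ((Finset.univ.filter (fun x : Fin k → Fin n =>
                  ∑ i, a i * (((x i : ℕ) : ℤ) + 1) = 0 ∧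
                    ∀ i j : Fin k, c (x i) = c (x j))).card : ℝ)) ∧
      (∀ ε : ℝ, 0 < ε → ∃ N : ℕ, ∀ n : ℕ, N ≤ n → ∀ c : Fin n → Fin s,
          ((((s : ℝ) ^ (k - 1))⁻¹ - ε) *
              ((Finset.univ.filter (fun x : Fin k → Fin n =>
                  ∑ i, a i * (((x i : ℕ) : ℤ) + 1) = 0)).card : ℝ))
            ≤ ((Finset.univ.filter (fun x : Fin k → Fin n =>
                  ∑ i, a i * (((x i : ℕ) : ℤ) + 1) = 0 ∧
                    ∀ i j : Fin k, c (x i) = c (x j))).card : ℝ)) := by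
  refine ⟨4, ![1, -1, 4, -4], by decide, 131071 + 1, 2, by norm_num, le_rfl, by norm_num, ?_, ?_⟩
  · simp only [card_total, card_mono]
    obtain ⟨p, q, hp, hq, hpq, hT⟩ := exists_profile
    refine uncommon 65536 131071 (by norm_num) _ p q hp hq hpq (lt_of_lt_of_le hT (le_of_eq ?_))
    norm_num
  · simp only [card_total, card_mono]
    have : ((((2 : ℕ) : ℝ) ^ (4 - 1))⁻¹) = 1 / 8 := by norm_num
    rw [this]
    exact common

end Pool.Agent.S08207
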