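import Pool.Statements.S08216
import Pool.Agent.H42Z.CanNotRamsey

set_option autoImplicit false
open Pool Pool.MP_3ba0ec_co

namespace Pool.Agent.S08216

/-- The negation of the preceding statement: For every finite K in some ℝ^d: if some ℝ^n has, under every colouring, a congruent copy of K that is monochromatic or rainbow, then for every r some ℝ^n has a monochromatic congruent copy of K under every r-colouring. -/
theorem result :
    ¬ (∀ (d : ℕ) (K : Finset (EuclideanSpace ℝ (Fin d))),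
      (∃ n : ℕ, ∀ χ : EuclideanSpace ℝ (Fin n) → ℝ,
        ∃ f : EuclideanSpace ℝ (Fin d) → EuclideanSpace ℝ (Fin n),
          (∀ x ∈ K, ∀ y ∈ K, dist (f x) (f y) = dist x y) ∧
          ((∀ x ∈ K, ∀ y ∈ K, χ (f x) = χ (f y)) ∨
           (∀ x ∈ K, ∀ y ∈ K, x ≠ y → χ (f x) ≠ χ (f y)))) →
      (∀ r : ℕ, ∃ n : ℕ, ∀ χ : EuclideanSpace ℝ (Fin n) → Fin r,
        ∃ f : EuclideanSpace ℝ (Fin d) → EuclideanSpace ℝ (Fin n),
          (∀ x ∈ K, ∀ y ∈ K, dist (f x) (f y) = dist x y) ∧
          (∀ x ∈ K, ∀ y ∈ K, χ (f x) = χ (f y)))) := by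
  exact Pool.Agent.H42Z.Can.canonical_not_ramsey

end Pool.Agent.S08216
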