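import Pool.Statements.S08224
import Pool.Agent.H427Z.Game

set_option autoImplicit false
open Pool Pool.MP_3c1ca0_co

namespace Pool.Agent.S08224

/-- The negation of the preceding statement: For every finite set D of integer vectors with positive sums and nonnegative entries, the normal-play losing positions of the subtraction game on ℕ^d with moves x→y, x−y∈D, form a finite union of sets b+ℕp₁+…+ℕpₘ. -/
theorem result :
    ¬ (∀ (d : ℕ) (D : Finset (Fin d → ℤ)),
      (∀ a ∈ D, 0 < ∑ i, a i) →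
      (∀ a ∈ D, ∀ i, 0 ≤ a i) →
      ∀ P : Set (Fin d → ℕ),
        (∀ x : Fin d → ℕ, x ∈ P ↔
          ∀ y : Fin d → ℕ, (fun i => (x i : ℤ) - (y i : ℤ)) ∈ D → y ∉ P) →
        ∃ (k : ℕ) (b : Fin k → Fin d → ℕ) (m : Fin k → ℕ)
          (p : ∀ i : Fin k, Fin (m i) → Fin d → ℕ),
          P = {x | ∃ i : Fin k, ∃ c : Fin (m i) → ℕ, x = b i + ∑ j, c j • p i j}) := by
  intro h
  refine Pool.Agent.H427Z.Game.not_semilinear
    (h 2 Pool.Agent.H427Z.Game.D ?_ ?_ Pool.Agent.H427Z.Game.P Pool.Agent.H427Z.Game.P_rec)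
  · intro a ha
    obtain ⟨c, hc, h0, h1⟩ := (Pool.Agent.H427Z.Game.mem_D a).1 ha
    have := Pool.Agent.H427Z.Game.DL_bd c hc
    rw [Fin.sum_univ_two, h0, h1]
    omega
  · intro a ha i
    obtain ⟨c, hc, h0, h1⟩ := (Pool.Agent.H427Z.Game.mem_D a).1 ha
    fin_cases i
    · show 0 ≤ a 0
      omega
    · show 0 ≤ a 1
      omega

end Pool.Agent.S08224
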