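import Pool.Statements.S08232
import Pool.Agent.H966Z.Kano

set_option autoImplicit false
open Pool Pool.MP_3c7c52_co

namespace Pool.Agent.S08232

/-- The negation of the preceding statement: For any n finite measures on the plane, each absolutely continuous, there is an unbounded simple path made of at most n horizontal or vertical pieces (at most n−1 turns) one of whose sides has exactly half of each measure. -/
theorem result :
    ¬ (∀ (n : ℕ) (μ : Fin n → MeasureTheory.Measure (ℝ × ℝ)),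
    (∀ i, MeasureTheory.IsFiniteMeasure (μ i)) →
    (∀ i, MeasureTheory.Measure.AbsolutelyContinuous (μ i)
        (MeasureTheory.volume : MeasureTheory.Measure (ℝ × ℝ))) →
    ∃ (f : ℝ → ℝ × ℝ) (s : Finset ℝ),
      Continuous f ∧ Function.Injective f ∧
      Filter.Tendsto (fun x => ‖f x‖) Filter.atTop Filter.atTop ∧
      Filter.Tendsto (fun x => ‖f x‖) Filter.atBot Filter.atTop ∧
      s.card ≤ n - 1 ∧
      (∀ x y : ℝ, (∀ z ∈ s, z ∉ Set.Ioo (min x y) (max x y)) →
          (f x).1 = (f y).1 ∨ (f x).2 = (f y).2) ∧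
      ∃ U : Set (ℝ × ℝ), IsOpen U ∧ frontier U = Set.range f ∧
        ∀ i, μ i U = μ i Set.univ / 2) := by
  intro H
  obtain ⟨f, s, hc, hi, -, -, hs, h, U, hU, hfr, hhalf⟩ :=
    H 4 Pool.Agent.H966Z.Kano.mu Pool.Agent.H966Z.Kano.mu_fin Pool.Agent.H966Z.Kano.mu_ac
  have hT : ∀ i : Fin 4, ∃ t : ℝ, f t ∈ Pool.Agent.H966Z.Kano.blob i := by
    intro i
    obtain ⟨p, hp, hp'⟩ := Pool.Agent.H966Z.Kano.hit hU i (hhalf i)
    rw [hfr] at hp'
    obtain ⟨t, rfl⟩ := hp'
    exact ⟨t, hp⟩
  choose T hT using hT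
  exact Pool.Agent.H966Z.Kano.no_path hc hi hs h T hT

end Pool.Agent.S08232
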