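import Pool.Statements.S08259
import Pool.Agent.H719Z.EG.Main

set_option autoImplicit false
open Pool Pool.MP_3d980f_co

namespace Pool.Agent.S08259

/-- For every triple of distinct points in the plane (collinear allowed) whose three distances are not all equal, every 2-colouring of the plane has three same-coloured points with exactly those pairwise distances. -/
theorem result :
    ∀ a b c : EuclideanSpace ℝ (Fin 2),
      a ≠ b → b ≠ c → a ≠ c →
      ¬ (dist a b = dist b c ∧ dist b c = dist c a) →
      ∀ f : EuclideanSpace ℝ (Fin 2) → Bool,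
        ∃ x y z : EuclideanSpace ℝ (Fin 2),
          dist x y = dist a b ∧ dist y z = dist b c ∧ dist z x = dist c a ∧
          f x = f y ∧ f y = f z := by
  intro a b c hab hbc hac h f
  let e : ℂ ≃ₗᵢ[ℝ] EuclideanSpace ℝ (Fin 2) := Complex.orthonormalBasisOneI.repr
  have hn : ∀ x y : ℂ, dist (e x) (e y) = ‖x - y‖ := fun x y => by
    rw [e.dist_map, dist_eq_norm]
  obtain ⟨a, rfl⟩ := e.surjective a
  obtain ⟨b, rfl⟩ := e.surjective b
  obtain ⟨c, rfl⟩ := e.surjective c
  rw [dist_comm (e c)] at h ⊢
  simp only [hn] at h ⊢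
  obtain ⟨x, y, z, h1, h2, h3, h4, h5⟩ := Pool.Agent.H719Z.EG.triangle (fun x => f (e x)) a b c
    (fun h => hab (by rw [h])) (fun h => hbc (by rw [h])) (fun h => hac (by rw [h])) h
  exact ⟨e x, e y, e z, (hn _ _).trans h1, (hn _ _).trans h2,
    by rw [dist_comm, hn, h3], h4, h5⟩

end Pool.Agent.S08259
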