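import Pool.Statements.S08294
import Pool.Agent.H514Z.Pairs

set_option autoImplicit false
open Pool Pool.MP_3ee535_co

namespace Pool.Agent.S08294

/-- The negation of the preceding statement: For finite graphs G1, G2: if for every k their k-colouring graphs have equally many edges (counted as ordered pairs of proper colourings differing at exactly one vertex), then for every k they have equally many proper k-colourings. -/
theorem result :
    ¬ (∀ (n m : ℕ) (G₁ : SimpleGraph (Fin n)) (G₂ : SimpleGraph (Fin m)),
      (∀ k : ℕ,
        Nat.card {p : G₁.Coloring (Fin k) × G₁.Coloring (Fin k) //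
            Nat.card {v : Fin n // p.1 v ≠ p.2 v} = 1} =
          Nat.card {p : G₂.Coloring (Fin k) × G₂.Coloring (Fin k) //
            Nat.card {v : Fin m // p.1 v ≠ p.2 v} = 1}) →
      ∀ k : ℕ, Nat.card (G₁.Coloring (Fin k)) = Nat.card (G₂.Coloring (Fin k))) := by
  intro h
  exact Pool.Agent.H514Z.Pairs.cols_ne
    (h 8 8 Pool.Agent.H514Z.Pairs.G1 Pool.Agent.H514Z.Pairs.G2 Pool.Agent.H514Z.Pairs.pairs_eq 3)

end Pool.Agent.S08294
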