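import Pool.Statements.S08302
import Pool.Agent.H568Z.OrbRep

set_option autoImplicit false
open Pool Pool.MP_3f311b_co

namespace Pool.Agent.S08302

open Pool.Agent.H568Z.Orb

noncomputable def Mr (i : Fin 24) : Matrix (Fin 4) (Fin 4) ℝ := (Mz i).map (Int.castRingHom ℝ)

lemma Mr_mul (i j : Fin 24) : Mr i * Mr j = Mr (mulT i j) := by
  rw [Mr, Mr, Mr, ← Matrix.map_mul, mul_tab]

lemma Mr_zero : Mr 0 = 1 := by
  rw [Mr, one_tab]
  simp

noncomputable def GG : Subgroup (Matrix.GeneralLinearGroup (Fin 4) ℝ) where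
  carrier := {g | ∃ i, (g : Matrix (Fin 4) (Fin 4) ℝ) = Mr i}
  mul_mem' := by
    rintro g h ⟨i, hi⟩ ⟨j, hj⟩
    exact ⟨mulT i j, by rw [Units.val_mul, hi, hj, Mr_mul]⟩
  one_mem' := ⟨0, Mr_zero.symm⟩
  inv_mem' := by
    rintro g ⟨i, hi⟩
    refine ⟨invT i, Units.inv_eq_of_mul_eq_one_right ?_⟩
    rw [hi, Mr_mul, (inv_tab i).1, Mr_zero]

lemma Mr_p (i : Fin 24) : Matrix.mulVec (Mr i) (p 0) = p i := by
  funext a
  have h := P_tab i a
  simp only [Matrix.mulVec, dotProduct, Mr, p, Matrix.map_apply, eq_intCast]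
  exact_mod_cast h

lemma orb_eq : {x | ∃ g ∈ GG, x = Matrix.mulVec (g : Matrix (Fin 4) (Fin 4) ℝ) (p 0)} =
    Set.range p := by
  ext x
  constructor
  · rintro ⟨g, ⟨i, hi⟩, rfl⟩
    exact ⟨i, by rw [hi, Mr_p]⟩
  · rintro ⟨i, rfl⟩
    exact ⟨⟨Mr i, Mr (invT i), by rw [Mr_mul, (inv_tab i).1, Mr_zero],
      by rw [Mr_mul, (inv_tab i).2, Mr_zero]⟩, ⟨i, rfl⟩, (Mr_p i).symm⟩

lemma pz_tab : (fun k : Fin 4 => pzN 0 k - pzN 16 k) = ![0, 6, 0, 2] ∧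
    (fun k : Fin 4 => pzN 8 k - pzN 9 k) = ![0, 2, -4, 0] ∧
    (fun k : Fin 4 => pzN 14 k - pzN 15 k) = ![6, 4, 0, 0] ∧
    (fun k : Fin 4 => pzN 10 k - pzN 11 k) = ![0, 4, 4, -2] := by decide +kernel

lemma span_top : affineSpan ℝ (Set.range p) = ⊤ := by
  rw [AffineSubspace.affineSpan_eq_top_iff_vectorSpan_eq_top_of_nonempty ℝ _ _
    (Set.range_nonempty p), Submodule.eq_top_iff']
  intro x
  have hm : ∀ i j, p i - p j ∈ vectorSpan ℝ (Set.range p) := fun i j =>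
    vsub_mem_vectorSpan ℝ (Set.mem_range_self i) (Set.mem_range_self j)
  have e : ∀ (i j : Fin 24) (w : Fin 4 → ℤ), (fun k : Fin 4 => pzN i k - pzN j k) = w →
      (fun k => (w k : ℝ)) ∈ vectorSpan ℝ (Set.range p) := by
    rintro i j _ rfl
    convert hm i j using 1
    ext k
    simp [p]
  obtain ⟨t0, t1, t2, t3⟩ := pz_tab
  have := Submodule.add_mem _ (Submodule.add_mem _ (Submodule.add_mem _
    (Submodule.smul_mem _ (-x 0 / 18 + x 1 / 12 + x 2 / 24 + x 3 / 4) (e 0 16 _ t0))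
    (Submodule.smul_mem _ (-x 0 / 18 + x 1 / 12 - 5 * x 2 / 24 - x 3 / 4) (e 8 9 _ t1)))
    (Submodule.smul_mem _ (x 0 / 6) (e 14 15 _ t2)))
    (Submodule.smul_mem _ (-x 0 / 18 + x 1 / 12 + x 2 / 24 - x 3 / 4) (e 10 11 _ t3))
  convert this using 1
  ext k
  fin_cases k <;> simp <;> ring

lemma fac_iff {q : Fin 24 → Fin 4 → ℝ} (hq : Function.Injective q) (A : Set (Fin 24)) :
    (∃ ℓ : (Fin 4 → ℝ) →ₗ[ℝ] ℝ, ∃ c : ℝ, (∀ x ∈ Set.range q, ℓ x ≤ c) ∧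
      q '' A = {x | x ∈ Set.range q ∧ ℓ x = c}) ↔ Fac q A := by
  refine exists_congr fun ℓ => exists_congr fun c => and_congr Set.forall_mem_range ⟨?_, ?_⟩
  · intro h i
    rw [← hq.mem_set_image, h]
    simp
  · intro h
    ext x
    constructor
    · rintro ⟨i, hi, rfl⟩
      exact ⟨⟨i, rfl⟩, (h i).1 hi⟩
    · rintro ⟨⟨i, rfl⟩, hi⟩
      exact ⟨i, (h i).2 hi, rfl⟩

theorem result :
    ¬ (∀ (d : ℕ) (G : Subgroup (Matrix.GeneralLinearGroup (Fin d) ℝ)),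
    (G : Set (Matrix.GeneralLinearGroup (Fin d) ℝ)).Finite →
    ∀ (orb : (Fin d → ℝ) → Set (Fin d → ℝ)),
      (∀ w, orb w = {x | ∃ g ∈ G, x = Matrix.mulVec (g : Matrix (Fin d) (Fin d) ℝ) w}) →
    ∀ (facial : Set (Fin d → ℝ) → Set (Fin d → ℝ) → Prop),
      (∀ S A, facial S A ↔ ∃ ℓ : (Fin d → ℝ) →ₗ[ℝ] ℝ, ∃ c : ℝ,
          (∀ x ∈ S, ℓ x ≤ c) ∧ A = {x | x ∈ S ∧ ℓ x = c}) →
    ∀ v : Fin d → ℝ, affineSpan ℝ (orb v) = ⊤ →
    ∃ v₀ : Fin d → ℝ,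
      (∃ f : (Fin d → ℝ) → (Fin d → ℝ), Set.BijOn f (orb v) (orb v₀) ∧
        ∀ A ⊆ orb v, (facial (orb v) A ↔ facial (orb v₀) (f '' A))) ∧
      ∀ σ : (Fin d → ℝ) → (Fin d → ℝ), Set.BijOn σ (orb v₀) (orb v₀) →
        (∀ A ⊆ orb v₀, (facial (orb v₀) A ↔ facial (orb v₀) (σ '' A))) →
        ∃ T : (Fin d → ℝ) ≃ᵃ[ℝ] (Fin d → ℝ), ∀ x ∈ orb v₀, T x = σ x) := by
  intro h
  have hfin : (GG : Set (Matrix.GeneralLinearGroup (Fin 4) ℝ)).Finite :=
    Set.Finite.of_finite_image (f := Units.val) ((Set.finite_range Mr).subset (by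
      rintro _ ⟨g, ⟨i, hi⟩, rfl⟩
      exact ⟨i, hi.symm⟩)) Units.val_injective.injOn
  obtain ⟨v₀, ⟨f, hf, hface⟩, hσ⟩ := h 4 GG hfin _ (fun _ => rfl) _ (fun _ _ => Iff.rfl) (p 0)
    (by rw [orb_eq]; exact span_top)
  rw [orb_eq] at hf hface
  generalize {x | ∃ g ∈ GG, x = Matrix.mulVec (g : Matrix (Fin 4) (Fin 4) ℝ) v₀} = O at *
  let q : Fin 24 → Fin 4 → ℝ := fun i => f (p i)
  have hq : Function.Injective q := fun i j e =>
    p_inj (hf.injOn (Set.mem_range_self i) (Set.mem_range_self j) e)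
  have hO : O = Set.range q := by rw [← hf.image_eq, ← Set.range_comp]; rfl
  subst hO
  have hF : ∀ A, Fac p A ↔ Fac q A := by
    intro A
    rw [← fac_iff p_inj, ← fac_iff hq, hface _ (Set.image_subset_range _ _), Set.image_image]
  refine no_sym q hq ((hF _).1 (fac_of_clique (Or.inr ?_))) fun π hπ => ?_
  · have : ∀ a ∈ ({0, 7} : Finset (Fin 24)), ∀ b ∈ ({0, 7} : Finset (Fin 24)),
        adjN a b = true := by decide +kernel
    simpa [adj] using this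
  · let σ : (Fin 4 → ℝ) → (Fin 4 → ℝ) := fun x => q (π (Function.invFun q x))
    have hs : ∀ i, σ (q i) = q (π i) := fun i => by
      simp only [σ, Function.leftInverse_invFun hq i]
    have h1 : Set.MapsTo σ (Set.range q) (Set.range q) := fun x _ => Set.mem_range_self _
    have h2 : Set.InjOn σ (Set.range q) := by
      rintro _ ⟨i, rfl⟩ _ ⟨j, rfl⟩ e
      rw [hs, hs] at e
      rw [hπ.1.1 (hq e)]
    have h3 : Set.SurjOn σ (Set.range q) (Set.range q) := by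
      rintro _ ⟨i, rfl⟩
      obtain ⟨j, rfl⟩ := hπ.1.2 i
      exact ⟨q j, Set.mem_range_self j, hs j⟩
    obtain ⟨T, hT⟩ := hσ σ ⟨h1, h2, h3⟩ (by
      intro A hA
      obtain ⟨B, rfl⟩ := Set.subset_range_iff_exists_image_eq.1 hA
      have e : σ '' (q '' B) = q '' (π '' B) := by
        rw [Set.image_image, Set.image_image]
        exact Set.image_congr fun i _ => hs i
      rw [e, fac_iff hq, fac_iff hq, ← hF, ← hF]
      exact hπ.fac B)
    exact ⟨T.toAffineMap, fun i => (hT _ (Set.mem_range_self i)).trans (hs i)⟩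

end Pool.Agent.S08302
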