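import Pool.Statements.S08327
import Pool.Agent.H57Z.WhiteMat

set_option autoImplicit false
open Pool Pool.MP_405c89_co

namespace Pool.Agent.S08327

/-- Take a finite matroid where every rank-size set is a basis or meets a stressed set in more than that set's rank. Then any two n-tuples of bases with the same multiset union are joined by finitely many symmetric exchanges on pairs. -/
theorem result :
    ∀ (α : Type) [Fintype α] [DecidableEq α] (M : Matroid α),
      (∀ (B0 S : Set α), M.IsBase B0 → S ⊆ M.E → S.ncard = B0.ncard →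
        (M.IsBase S ∨
          ∃ (A I : Set α), A ⊆ M.E ∧
            (∀ X Y : Set α, (M.restrict A).IsBase X → Y ⊆ (M.restrict A).E →
              Y.ncard = X.ncard → (M.restrict A).IsBase Y) ∧
            (∀ X Y : Set α, (M.contract A).IsBase X → Y ⊆ (M.contract A).E →
              Y.ncard = X.ncard → (M.contract A).IsBase Y) ∧
            M.IsBasis I A ∧ I.ncard < (S ∩ A).ncard)) →
      ∀ (n : ℕ) (B B' : Fin n → Finset α),
        (∀ i, M.IsBase (↑(B i) : Set α)) →
        (∀ i, M.IsBase (↑(B' i) : Set α)) →
        (Finset.univ.sum (fun i => (B i).val)) = (Finset.univ.sum (fun i => (B' i).val)) →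
        Relation.ReflTransGen
          (fun T T' : Fin n → Finset α =>
            ∃ (i j : Fin n) (a b : α), i ≠ j ∧
              a ∈ T i ∧ a ∉ T j ∧ b ∈ T j ∧ b ∉ T i ∧
              M.IsBase (↑(insert b ((T i).erase a)) : Set α) ∧
              M.IsBase (↑(insert a ((T j).erase b)) : Set α) ∧
              T' = Function.update (Function.update T i (insert b ((T i).erase a))) j
                (insert a ((T j).erase b)))
          B B' := by
  intro α _ _ M hM n B B' hB hB' hs
  have h := Pool.Agent.H57Z.White.white (M := M) (by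
    intro B0 S h0 h1 h2
    rcases hM B0 S h0 h1 h2 with h | ⟨A, I, a1, a2, a3, a4, a5⟩
    · exact Or.inl h
    · exact Or.inr ⟨A, I, ⟨a1, a2, a3⟩, a4, a5⟩) n B B' hB hB' hs
  clear hB' hs
  induction h with
  | refl => exact Relation.ReflTransGen.refl
  | tail _ h2 ih =>
    refine Relation.ReflTransGen.tail ih ?_
    obtain ⟨_, hV, i, j, a, b, ap, rfl⟩ := h2
    refine ⟨i, j, a, b, ap.1, ap.2.1, ap.2.2.1, ap.2.2.2.1, ap.2.2.2.2, ?_, ?_,
      Pool.Agent.H57Z.White.ex_eq_update ap⟩
    · have := hV i
      rwa [Pool.Agent.H57Z.White.ex_left,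
        Pool.Agent.H57Z.White.tog_eq ap.2.1 ap.2.2.2.2] at this
    · have := hV j
      rwa [Pool.Agent.H57Z.White.ex_right,
        Pool.Agent.H57Z.White.tog_eq ap.2.2.2.1 ap.2.2.1] at this

end Pool.Agent.S08327
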