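import Pool.Statements.S08351
import Pool.Agent.H41Z.KR.Main

set_option autoImplicit false
open Pool Pool.MP_4146e4_co

namespace Pool.Agent.S08351

/-- For every r ≥ 3 there are c > 0 and d₀ such that for all d ≥ d₀, every finite K_r-free d-degenerate graph with chromatic number exactly d+1 has at least e^{c·d} vertices. -/
theorem result :
    ∀ r : ℕ, 3 ≤ r → ∃ c : ℝ, 0 < c ∧ ∃ d₀ : ℕ, ∀ d : ℕ, d₀ ≤ d →
      ∀ (V : Type) [Fintype V] (G : SimpleGraph V),
        G.CliqueFree r →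
        (∀ s : Set V, s.Nonempty → ∃ v ∈ s, (G.neighborSet v ∩ s).ncard ≤ d) →
        G.chromaticNumber = ((d + 1 : ℕ) : ℕ∞) →
        Real.exp (c * (d : ℝ)) ≤ (Fintype.card V : ℝ) := by
  classical
  intro r hr
  obtain ⟨c, hc, D, hD⟩ := Pool.Agent.H41Z.KR.small r (by omega)
  refine ⟨c, hc, D, fun d hd V _ G hcl hdeg hchi => ?_⟩
  by_contra hlt
  rw [not_le] at hlt
  obtain ⟨col, hc1, hc2⟩ := hD d hd V G hcl (by
    intro S hS
    obtain ⟨v, hv, h⟩ := hdeg (S : Set V) (by exact_mod_cast hS)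
    refine ⟨v, by exact_mod_cast hv, le_trans (le_of_eq ?_) h⟩
    rw [← Set.ncard_coe_finset]
    congr 1
    ext u
    simp [and_comm]) hlt
  have hcol : G.Colorable d := ⟨SimpleGraph.Coloring.mk (fun v => ⟨col v, hc1 v⟩)
    (fun {u v} huv h => hc2 u v huv (congrArg Fin.val h))⟩
  have h2 := hcol.chromaticNumber_le
  rw [hchi] at h2
  have h3 : d + 1 ≤ d := by exact_mod_cast h2
  omega

end Pool.Agent.S08351
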