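import Pool.Statements.S08406
import Pool.Agent.H234Z.RamseyNice

set_option autoImplicit false
open Pool Pool.MP_4366b5_co

namespace Pool.Agent.S08406

/-- The negation of the preceding statement: For every finite family of finite graphs containing a forest, there is k0 such that for all k ≥ k0, any graph whose edges can be k-coloured without a monochromatic member has chromatic number at most some N for which K_N is so colourable. -/
theorem result :
    ¬ (∀ (ι : Type) [Fintype ι] (m : ι → ℕ) (H : ∀ i, SimpleGraph (Fin (m i))),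
      (∃ i, (H i).IsAcyclic) →
      ∃ k0 : ℕ, ∀ k : ℕ, k0 ≤ k →
        ∀ (n : ℕ) (G : SimpleGraph (Fin n)) (c : Sym2 (Fin n) → Fin k),
          (∀ i : ι, ¬ ∃ (f : Fin (m i) ↪ Fin n) (col : Fin k),
              ∀ a b : Fin (m i), (H i).Adj a b →
                G.Adj (f a : Fin n) (f b : Fin n) ∧
                  c s((f a : Fin n), (f b : Fin n)) = col) →
          ∃ N : ℕ, G.Colorable N ∧
            ∃ c' : Sym2 (Fin N) → Fin k,
              ∀ i : ι, ¬ ∃ (f : Fin (m i) ↪ Fin N) (col : Fin k),
                ∀ a b : Fin (m i), (H i).Adj a b →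
                  c' s((f a : Fin N), (f b : Fin N)) = col) := by
  intro h
  obtain ⟨ι, inst, m, H, hac, hbad⟩ := Pool.Agent.H234Z.RamseyNice.exists_family
  obtain ⟨k0, hk0⟩ := @h ι inst m H hac
  obtain ⟨n, G, c, hfree, hno⟩ := hbad k0
  exact hno (hk0 (k0 + 1) (Nat.le_succ _) n G c hfree)

end Pool.Agent.S08406
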