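import Pool.Statements.S08421
import Pool.Agent.H783Z.MUBridge

set_option autoImplicit false
open Matrix
open Pool Pool.MP_43c1cf_co

namespace Pool.Agent.S08421

/-- For d ≥ 2, any two combinatorially equivalent full-dimensional polytopes in ℝ^{d+1} whose edges are all tangent to the unit sphere are mapped onto each other by a sphere-preserving projective (Lorentz/Möbius) transformation. -/
theorem result :
  ∀ d : ℕ, 2 ≤ d → ∀ V W : Finset (Fin (d+1) → ℝ),
    (interior (convexHull ℝ (V : Set (Fin (d+1) → ℝ)))).Nonempty →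
    (interior (convexHull ℝ (W : Set (Fin (d+1) → ℝ)))).Nonempty →
    (∀ a ∈ V, ∀ b ∈ V, a ≠ b →
      IsExposed ℝ (convexHull ℝ (V : Set (Fin (d+1) → ℝ))) (segment ℝ a b) →
      ∃ p ∈ segment ℝ a b, ∑ i, p i ^ 2 = 1 ∧
        ∀ t : ℝ, 1 ≤ ∑ i, (a i + t * (b i - a i)) ^ 2) →
    (∀ a ∈ W, ∀ b ∈ W, a ≠ b →
      IsExposed ℝ (convexHull ℝ (W : Set (Fin (d+1) → ℝ))) (segment ℝ a b) →
      ∃ p ∈ segment ℝ a b, ∑ i, p i ^ 2 = 1 ∧
        ∀ t : ℝ, 1 ≤ ∑ i, (a i + t * (b i - a i)) ^ 2) →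
    (∃ f : (Fin (d+1) → ℝ) → (Fin (d+1) → ℝ),
      Set.BijOn f (Set.extremePoints ℝ (convexHull ℝ (V : Set (Fin (d+1) → ℝ))))
        (Set.extremePoints ℝ (convexHull ℝ (W : Set (Fin (d+1) → ℝ)))) ∧
      ∀ S ⊆ Set.extremePoints ℝ (convexHull ℝ (V : Set (Fin (d+1) → ℝ))),
        (IsExposed ℝ (convexHull ℝ (V : Set (Fin (d+1) → ℝ))) (convexHull ℝ S) ↔
          IsExposed ℝ (convexHull ℝ (W : Set (Fin (d+1) → ℝ))) (convexHull ℝ (f '' S)))) →
    ∃ M : Matrix (Option (Fin (d+1))) (Option (Fin (d+1))) ℝ,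
      M.transpose * Matrix.diagonal (fun i => Option.elim i (-1 : ℝ) (fun _ => (1 : ℝ))) * M
          = Matrix.diagonal (fun i => Option.elim i (-1 : ℝ) (fun _ => (1 : ℝ))) ∧
      (∀ x ∈ convexHull ℝ (V : Set (Fin (d+1) → ℝ)),
          (M *ᵥ (fun i => Option.elim i (1 : ℝ) x)) none ≠ 0) ∧
      (fun x : Fin (d+1) → ℝ => fun j : Fin (d+1) =>
          (M *ᵥ (fun i => Option.elim i (1 : ℝ) x)) (some j) /
            (M *ᵥ (fun i => Option.elim i (1 : ℝ) x)) none)
        '' convexHull ℝ (V : Set (Fin (d+1) → ℝ))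
        = convexHull ℝ (W : Set (Fin (d+1) → ℝ)) := by
  classical
  rintro d hd V W hV hW tV tW ⟨f, hf, hF⟩
  have fin : (Set.extremePoints ℝ (convexHull ℝ (V : Set (Fin (d+1) → ℝ)))).Finite :=
    V.finite_toSet.subset extremePoints_convexHull_subset
  let _i := fin.fintype
  refine H783Z.MU.final (ι := Set.extremePoints ℝ (convexHull ℝ (V : Set (Fin (d+1) → ℝ))))
    (p := Subtype.val) (p' := fun v => f v.1) ⟨?_, fun i => i.2, Subtype.val_injective, hV, ?_⟩
    ⟨?_, fun i => hf.mapsTo i.2, fun i j e => Subtype.ext (hf.injOn i.2 j.2 e), hW, ?_⟩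
    (by omega) fun S => ?_
  · rw [Finset.coe_univ, Set.image_univ, Subtype.range_coe]
    exact H783Z.MU.km V
  · exact fun u v huv => tV _ (extremePoints_convexHull_subset u.2) _
      (extremePoints_convexHull_subset v.2) fun e => huv (Subtype.ext e)
  · rw [← Set.image_image f Subtype.val, Finset.coe_univ, Set.image_univ, Subtype.range_coe,
      hf.image_eq]
    exact H783Z.MU.km W
  · exact fun u v huv => tW _ (extremePoints_convexHull_subset (hf.mapsTo u.2)) _
      (extremePoints_convexHull_subset (hf.mapsTo v.2))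
      fun e => huv (Subtype.ext (hf.injOn u.2 v.2 e))
  · rw [← Set.image_image f Subtype.val]
    exact hF _ (by rintro _ ⟨i, -, rfl⟩; exact i.2)

end Pool.Agent.S08421
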