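import Pool.Statements.S08528
import Pool.Agent.H401Z.PB.Geo
import Pool.Agent.H401Z.PB.Data

set_option autoImplicit false
open Pool Pool.MP_47f029_co

namespace Pool.Agent.S08528

/-- The negation of the preceding statement: Every finite geometric simplicial complex homeomorphic to a closed ball is partitionable: each facet F gets a subface R(F), and every face, empty face included, lies in exactly one interval [R(F), F]. -/
theorem result :
    ¬ (∀ (n d : ℕ) (K : Geometry.SimplicialComplex ℝ (EuclideanSpace ℝ (Fin n))),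
      K.faces.Finite →
      Nonempty (↥K.space ≃ₜ ↥(Metric.closedBall (0 : EuclideanSpace ℝ (Fin d)) 1)) →
      ∃ R : Finset (EuclideanSpace ℝ (Fin n)) → Finset (EuclideanSpace ℝ (Fin n)),
        (∀ F ∈ K.facets, R F ⊆ F) ∧
        ∀ σ : Finset (EuclideanSpace ℝ (Fin n)), (σ = ∅ ∨ σ ∈ K.faces) →
          ∃! F, F ∈ K.facets ∧ R F ⊆ σ ∧ σ ⊆ F) := by
  intro h
  obtain ⟨e1⟩ := H401Z.PB.geo_homeo (H401Z.PB.dcL H401Z.PB.ballL)
  obtain ⟨e2⟩ := H401Z.PB.ball_homeo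
  obtain ⟨e3⟩ := H401Z.PB.sp_tet
  obtain ⟨e4⟩ := H401Z.PB.tet_ball
  obtain ⟨R, h1, h2⟩ := h 32 3 (H401Z.PB.geo (H401Z.PB.dcL H401Z.PB.ballL))
    (H401Z.PB.geo_finite _) ⟨e1.trans (e2.trans (e3.trans e4))⟩
  have hne : ∀ F ∈ H401Z.PB.dcL H401Z.PB.ballL, F.Nonempty := by
    intro F hF
    obtain ⟨m, hm, rfl⟩ := H401Z.PB.mem_dcL.1 hF
    exact H401Z.PB.dc_nonempty (H401Z.PB.ball_lt m hm) (H401Z.PB.ball_ne m hm)
  have hanti : ∀ F ∈ H401Z.PB.dcL H401Z.PB.ballL, ∀ G ∈ H401Z.PB.dcL H401Z.PB.ballL,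
      F ⊆ G → F = G := by
    intro F hF G hG hFG
    obtain ⟨a, ha, rfl⟩ := H401Z.PB.mem_dcL.1 hF
    obtain ⟨b, hb, rfl⟩ := H401Z.PB.mem_dcL.1 hG
    rw [H401Z.PB.ball_anti a ha b hb (H401Z.PB.land_of_sub (H401Z.PB.ball_lt a ha) hFG)]
  obtain ⟨R', hR'⟩ := H401Z.PB.part_transfer hne hanti R h1 h2
  exact H401Z.PB.ball_no_part R' hR'

end Pool.Agent.S08528
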