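import Pool.Statements.S08582
import Pool.Agent.H889Z.TileMain

set_option autoImplicit false
open Pool Pool.MP_49f151_co

namespace Pool.Agent.S08582

/-- The negation of the preceding statement: For every closed topological disk C and every tiling of the plane by isometric copies of C with disjoint interiors, each tile's neighborhood (union of tiles meeting it) is simply connected. -/
theorem result :
    ¬ (∀ (C : Set (EuclideanSpace ℝ (Fin 2))) (𝒯 : Set (Set (EuclideanSpace ℝ (Fin 2)))),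
      Nonempty (C ≃ₜ Metric.closedBall (0 : EuclideanSpace ℝ (Fin 2)) 1) →
      (∀ T ∈ 𝒯, ∃ f : EuclideanSpace ℝ (Fin 2) ≃ᵢ EuclideanSpace ℝ (Fin 2), T = f '' C) →
      ⋃₀ 𝒯 = Set.univ →
      𝒯.Pairwise (fun A B => Disjoint (interior A) (interior B)) →
      ∀ T ∈ 𝒯, SimplyConnectedSpace (⋃₀ {T' ∈ 𝒯 | (T' ∩ T).Nonempty})) := by
  intro h
  refine Pool.Agent.H889Z.Tile.not_sc (h (Pool.Agent.H889Z.Tile.poly Pool.Agent.H889Z.Tile.T0)
    Pool.Agent.H889Z.Tile.tiling Pool.Agent.H889Z.Tile.disc ?_ ?_ ?_ _ ⟨0, -1, -1, rfl⟩)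
  · rintro _ ⟨k, m, n, rfl⟩
    exact Pool.Agent.H889Z.Tile.tile_iso k m n
  · rw [Set.eq_univ_iff_forall]
    intro p
    obtain ⟨k, m, n, hp⟩ := Pool.Agent.H889Z.Tile.covers p
    exact ⟨_, ⟨k, m, n, rfl⟩, hp⟩
  · rintro _ ⟨k, m, n, rfl⟩ _ ⟨l, m', n', rfl⟩ hne
    exact Pool.Agent.H889Z.Tile.tile_disjoint hne

end Pool.Agent.S08582
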