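import Pool.Statements.S08639

set_option autoImplicit false
open Pool Pool.MP_4cf4e3_co

namespace Pool.Agent.S08639

open Filter

attribute [local instance] Ultrafilter.add

/-- A tensor-type selection lemma: a sequence homogeneous for a relation that holds `U`-almost always. -/
theorem exists_seq (U : Ultrafilter ℕ) (P : ℕ → Prop) (R : ℕ → ℕ → Prop)
    (hP : ∀ᶠ x in (U : Filter ℕ), P x) (hR : ∀ x, P x → ∀ᶠ y in (U : Filter ℕ), R x y) :
    ∃ e : ℕ → ℕ, (∀ n, P (e n)) ∧ ∀ n m, n < m → R (e n) (e m) := by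
  classical
  have key : ∀ s : Finset ℕ, (∀ x ∈ s, P x) → ∃ y, P y ∧ ∀ x ∈ s, R x y := by
    intro s hs
    have h1 : ∀ᶠ y in (U : Filter ℕ), ∀ x ∈ s, R x y :=
      (Filter.eventually_all_finset s).2 (fun x hx => hR x (hs x hx))
    exact (hP.and h1).exists
  have := exists_seq_of_forall_finset_exists P R key
  exact this

theorem fin_col {k : ℕ} (U : Ultrafilter ℕ) (c : ℕ → Fin k) :
    ∃ i, ∀ᶠ x in (U : Filter ℕ), c x = i := by
  have h : ∀ᶠ x in (U : Filter ℕ), ∃ i ∈ (Set.univ : Set (Fin k)), c x = i :=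
    Filter.Eventually.of_forall (fun x => ⟨c x, trivial, rfl⟩)
  obtain ⟨i, -, hi⟩ := (Ultrafilter.eventually_exists_mem_iff Set.finite_univ).1 h
  exact ⟨i, hi⟩

theorem even_pos_of_FS {a : Stream' ℕ} {m : ℕ} (h : m ∈ Hindman.FS a) (ha : ∀ i, a.get i = 2) :
    0 < m ∧ 2 ∣ m := by
  induction h with
  | head' a =>
    have : a.head = 2 := ha 0
    rw [this]; exact ⟨by norm_num, dvd_rfl⟩
  | tail' a m _ ih => exact ih (fun i => ha (i + 1))
  | cons' a m _ ih =>
    have : a.head = 2 := ha 0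
    obtain ⟨h1, h2⟩ := ih (fun i => ha (i + 1))
    rw [this]; exact ⟨by omega, by omega⟩

/-- For every colouring of the natural numbers with finitely many colours, there is a strictly increasing sequence a and one colour such that for all n<m, both a_n+a_m and a_m−a_n have that colour. -/
theorem result :
    ∀ (k : ℕ) (c : ℕ → Fin k), ∃ a : ℕ → ℕ, StrictMono a ∧
      ∃ i : Fin k, ∀ n m : ℕ, n < m → c (a n + a m) = i ∧ c (a m - a n) = i := by
  intro k c
  obtain ⟨U, hU, hFS⟩ := Hindman.exists_idempotent_ultrafilter_le_FS (Stream'.const (2 : ℕ))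
  have hev : ∀ᶠ x in (U : Filter ℕ), 0 < x ∧ 2 ∣ x :=
    hFS.mono (fun m hm => even_pos_of_FS hm (fun _ => rfl))
  have hidem : ∀ p : ℕ → Prop, (∀ᶠ x in (U : Filter ℕ), p x) ↔
      ∀ᶠ x in (U : Filter ℕ), ∀ᶠ y in (U : Filter ℕ), p (x + y) := by
    intro p
    rw [← Ultrafilter.eventually_add U U p, hU]
  have hbig : ∀ N : ℕ, ∀ᶠ x in (U : Filter ℕ), N < x := by
    intro N
    induction N with
    | zero => exact hev.mono (fun x hx => hx.1)
    | succ N ih =>
      rw [hidem]
      filter_upwards [ih] with x hx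
      filter_upwards [hev] with y hy
      omega
  choose col hcol using fun x : ℕ => fin_col U (fun y => c (y - x))
  obtain ⟨i, hi⟩ := fin_col U col
  obtain ⟨x0, hx0, -, l, rfl⟩ := (hi.and hev).exists
  have hC : ∀ᶠ y in (U : Filter ℕ), c (y - 2 * l) = i := by
    have := hcol (2 * l); rwa [hx0] at this
  have hC2 := (hidem _).1 hC
  obtain ⟨e, heP, heR⟩ := exists_seq U
    (fun x => l < x ∧ col x = i ∧ ∀ᶠ y in (U : Filter ℕ), c (x + y - 2 * l) = i)
    (fun x y => x < y ∧ c (y - x) = i ∧ c (x + y - 2 * l) = i)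
    ((hbig l).and (hi.and hC2))
    (by
      rintro x ⟨-, h2, h3⟩
      have h4 := hcol x
      rw [h2] at h4
      exact (hbig x).and (h4.and h3))
  refine ⟨fun n => e n - l, ?_, i, ?_⟩
  · intro n m hnm
    have h1 := (heR n m hnm).1
    have h2 := (heP n).1
    show e n - l < e m - l
    omega
  · intro n m hnm
    obtain ⟨h1, h2, h3⟩ := heR n m hnm
    have h4 := (heP n).1
    have e1 : e n - l + (e m - l) = e n + e m - 2 * l := by omega
    have e2 : e m - l - (e n - l) = e m - e n := by omega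
    exact ⟨by show c (e n - l + (e m - l)) = i; rw [e1]; exact h3,
      by show c (e m - l - (e n - l)) = i; rw [e2]; exact h2⟩

end Pool.Agent.S08639
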