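import Pool.Statements.S08674
import Pool.Agent.H149Z.RelC

set_option autoImplicit false
open Classical
open Pool Pool.MP_4e0707_co

namespace Pool.Agent.S08674

/-- The negation of the preceding statement: There is a real constant C such that, for every finite matroid, every complex root z of its reliability polynomial (sum over spanning sets S of z^∣S∣ (1−z)^(∣E∣−∣S∣)) satisfies ∣z∣ ≤ C. -/
theorem result :
    ¬ (∃ C : ℝ, ∀ (n : ℕ) (M : Matroid (Fin n)), M.E = Set.univ →
      ∀ z : ℂ,
        (∑ S : Finset (Fin n),
          (if M.Spanning (↑S : Set (Fin n)) then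
            z ^ (Finset.card S) * (1 - z) ^ (n - Finset.card S) else 0)) = 0 →
        ‖z‖ ≤ C) := by
  rintro ⟨C, hC⟩
  exact Pool.Agent.H149Z.Rel.final (C + 1) (Pool.Agent.H149Z.Rel.exists_poly C hC)

end Pool.Agent.S08674
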