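import Pool.Statements.S08686
-- import your own Pool.Agent.* helpers here

set_option autoImplicit false
open Pool Pool.MP_4e7ec3_co

namespace Pool.Agent.S08686

/-- The negation of the preceding statement: There is a constant k such that for every finite F in [0,1] containing 0 and 1, every ε>0, and every T:F→F moving each point by more than ε, some p₀ in F reaches a point at distance at least 1/3 in at most k/ε steps, each step going to T(p) or a neighbour of T(p) in F. -/
theorem result :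
    ¬ (∃ k : ℝ, ∀ (F : Finset ℝ) (ε : ℝ) (T : ℝ → ℝ),
      (∀ p ∈ F, 0 ≤ p ∧ p ≤ 1) → (0 : ℝ) ∈ F → (1 : ℝ) ∈ F → 0 < ε →
      (∀ p ∈ F, T p ∈ F ∧ ε < |p - T p|) →
      ∃ p₀ ∈ F, ∃ n : ℕ, (n : ℝ) ≤ k / ε ∧
        ∃ x : ℕ → ℝ, x 0 = p₀ ∧
          (∀ i < n,
            x (i + 1) = T (x i) ∨
            (x (i + 1) ∈ F ∧ x (i + 1) < T (x i) ∧
              ∀ r ∈ F, r < T (x i) → r ≤ x (i + 1)) ∨
            (x (i + 1) ∈ F ∧ T (x i) < x (i + 1) ∧
              ∀ r ∈ F, T (x i) < r → x (i + 1) ≤ r)) ∧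
          1 / 3 ≤ |x n - p₀|) := by
  classical
  rintro ⟨k, hk⟩
  let T : ℝ → ℝ := fun p => if p = 1/10 then 0 else if p = 9/10 then 1 else if p < 1/2 then 1/10 else 9/10
  let F : Finset ℝ := {0, 1/10, 2/10, 8/10, 9/10, 1}
  have hF : ∀ p, p ∈ F ↔ p = 0 ∨ p = 1/10 ∨ p = 2/10 ∨ p = 8/10 ∨ p = 9/10 ∨ p = 1 := by
    intro p; simp [F]
  have T0 : T 0 = 1/10 := by simp only [T]; norm_num
  have T1 : T (1/10) = 0 := by simp only [T]; norm_num
  have T2 : T (2/10) = 1/10 := by simp only [T]; norm_num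
  have T8 : T (8/10) = 9/10 := by simp only [T]; norm_num
  have T9 : T (9/10) = 1 := by simp only [T]; norm_num
  have T10 : T 1 = 9/10 := by simp only [T]; norm_num
  have h01 : ∀ p ∈ F, 0 ≤ p ∧ p ≤ 1 := by
    intro p hp
    rcases (hF p).1 hp with h | h | h | h | h | h <;> rw [h] <;> norm_num
  have hT : ∀ p ∈ F, T p ∈ F ∧ (1/20 : ℝ) < |p - T p| := by
    intro p hp
    rcases (hF p).1 hp with h | h | h | h | h | h <;> rw [h]
    · rw [T0, hF]; norm_num [abs_of_neg]
    · rw [T1, hF]; norm_num [abs_of_pos]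
    · rw [T2, hF]; norm_num [abs_of_pos]
    · rw [T8, hF]; norm_num [abs_of_neg]
    · rw [T9, hF]; norm_num [abs_of_neg]
    · rw [T10, hF]; norm_num [abs_of_pos]
  have hlow : ∀ p ∈ F, p ≤ 2/10 → T p ≤ 1/10 := by
    intro p hp hle
    rcases (hF p).1 hp with h | h | h | h | h | h <;> rw [h] at hle ⊢
    · rw [T0]
    · rw [T1]; norm_num
    · rw [T2]
    all_goals norm_num at hle
  have hhigh : ∀ p ∈ F, 8/10 ≤ p → 9/10 ≤ T p := by
    intro p hp hle
    rcases (hF p).1 hp with h | h | h | h | h | h <;> rw [h] at hle ⊢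
    · norm_num at hle
    · norm_num at hle
    · norm_num at hle
    · rw [T8]
    · rw [T9]; norm_num
    · rw [T10]
  have h2F : (2/10 : ℝ) ∈ F := by rw [hF]; norm_num
  have h8F : (8/10 : ℝ) ∈ F := by rw [hF]; norm_num
  obtain ⟨p₀, hp₀, n, -, x, hx0, hstep, hfar⟩ :=
    hk F (1/20) T h01 (by rw [hF]; norm_num) (by rw [hF]; norm_num) (by norm_num) hT
  have hcase : p₀ ≤ 2/10 ∨ 8/10 ≤ p₀ := by
    rcases (hF p₀).1 hp₀ with h | h | h | h | h | h <;> rw [h] <;> norm_num
  rcases hcase with hc | hc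
  · have key : ∀ i ≤ n, x i ∈ F ∧ x i ≤ 2/10 := by
      intro i
      induction i with
      | zero => intro _; rw [hx0]; exact ⟨hp₀, hc⟩
      | succ i ih =>
        intro hi
        obtain ⟨h1, h2⟩ := ih (by omega)
        have h3 := hlow _ h1 h2
        rcases hstep i (by omega) with h | ⟨h, h', -⟩ | ⟨h, -, h'⟩
        · rw [h]; exact ⟨(hT _ h1).1, by linarith⟩
        · exact ⟨h, by linarith⟩
        · exact ⟨h, h' _ h2F (by linarith)⟩
    obtain ⟨h1, h2⟩ := key n le_rfl
    have h3 := (h01 _ h1).1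
    have h4 := (h01 _ hp₀).1
    have : |x n - p₀| < 1/3 := by rw [abs_lt]; constructor <;> linarith
    linarith
  · have key : ∀ i ≤ n, x i ∈ F ∧ 8/10 ≤ x i := by
      intro i
      induction i with
      | zero => intro _; rw [hx0]; exact ⟨hp₀, hc⟩
      | succ i ih =>
        intro hi
        obtain ⟨h1, h2⟩ := ih (by omega)
        have h3 := hhigh _ h1 h2
        rcases hstep i (by omega) with h | ⟨h, -, h'⟩ | ⟨h, h', -⟩
        · rw [h]; exact ⟨(hT _ h1).1, by linarith⟩
        · exact ⟨h, h' _ h8F (by linarith)⟩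
        · exact ⟨h, by linarith⟩
    obtain ⟨h1, h2⟩ := key n le_rfl
    have h3 := (h01 _ h1).2
    have h4 := (h01 _ hp₀).2
    have : |x n - p₀| < 1/3 := by rw [abs_lt]; constructor <;> linarith
    linarith

end Pool.Agent.S08686
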