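import Pool.Statements.S08692
import Pool.Agent.H506Z.Cube

set_option autoImplicit false
open Pool Pool.MP_4ee71e_co

namespace Pool.Agent.S08692

/-- The negation of the preceding statement: There is c>0 such that every finite simple graph with at least one edge has a subgraph, globally rigid on the line for injective placements, with at least c times edges divided by vertices many vertices. -/
theorem result :
    ¬ (∃ c : ℝ, 0 < c ∧
      ∀ (n : ℕ) (G : SimpleGraph (Fin n)), G.edgeSet.Nonempty →
        ∃ H : G.Subgraph,
          (∀ f g : Fin n → ℝ, Set.InjOn f H.verts → Set.InjOn g H.verts →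
            (∀ u v : Fin n, H.Adj u v → |f u - f v| = |g u - g v|) →
            ∀ u ∈ H.verts, ∀ v ∈ H.verts, |f u - f v| = |g u - g v|) ∧
          c * (G.edgeSet.ncard : ℝ) / (n : ℝ) ≤ (H.verts.ncard : ℝ)) := by
  exact H506Z.Cube.main

end Pool.Agent.S08692
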