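import Pool.Statements.S08704
import Pool.Agent.H786Z.St3.Num
import Pool.Agent.H786Z.St3.Rec

set_option autoImplicit false
open Filter Topology
open Pool Pool.MP_4f79e9_co

namespace Pool.Agent.S08704

open Pool.Agent.H786Z.St3 in
theorem card_bound {s : List ℕ → List ℕ} (hs : IsSort s) {n : ℕ} (hn : 0 < n) :
    (((Finset.univ : Finset (Equiv.Perm (Fin n))).filter
      (fun σ => s (s (s (List.ofFn (fun i : Fin n => ((σ i : Fin n) : ℕ))))) =
        List.range n)).card : ℝ) ≤ 9.702 ^ n := by
  classical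
  set T := (Finset.univ : Finset (Equiv.Perm (Fin n))).filter
      (fun σ => s (s (s (List.ofFn (fun i : Fin n => ((σ i : Fin n) : ℕ))))) = List.range n)
  let f : Equiv.Perm (Fin n) → List ℕ := fun σ => List.ofFn fun i : Fin n => ((σ i : Fin n) : ℕ)
  have hf : Function.Injective f := fun a b h =>
    Equiv.ext fun i => Fin.ext (congrFun (List.ofFn_injective h) i)
  have hx : (xx : ENNReal) * xi = 1 := by
    rw [← ENNReal.coe_mul, ENNReal.coe_eq_one, xx, xi]; norm_num
  have hc : (cc : ENNReal) * ci = 1 := by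
    rw [← ENNReal.coe_mul, ENNReal.coe_eq_one, cc, ci]; norm_num
  have hc1 : (1 : ENNReal) ≤ cc := by
    rw [ENNReal.one_le_coe_iff, ← NNReal.coe_le_coe, cc]
    push_cast
    norm_num
  have h1 := count_le (t := tt) (x := xx) hs hc1 hn (T.image f) (by
    intro π hπ
    obtain ⟨σ, hσ, rfl⟩ := Finset.mem_image.1 hπ
    refine ⟨?_, (Finset.mem_filter.1 hσ).2⟩
    have := σ.ofFn_comp_perm (fun i : Fin n => (i : ℕ))
    have e : (List.ofFn fun i : Fin n => (i : ℕ)) = List.range n :=
      List.ext_getElem (by simp) fun i h1 h2 => by simp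
    rwa [e] at this)
  have h2 := h1.trans (GG_bound hs hx hc H0_sub ev_H0 H0_step n)
  rw [Finset.card_image_of_injective _ hf] at h2
  have h3 : (tt : ℝ) ^ n * T.card ≤ UU := by exact_mod_cast h2
  have h4 : (UU : ℝ) ≤ 1 := by
    rw [UU]
    push_cast
    norm_num
  have h5 : (tt : ℝ) * 9.702 = 1 := by
    rw [tt]
    push_cast
    norm_num
  calc (T.card : ℝ) = ((tt : ℝ) * 9.702) ^ n * T.card := by rw [h5, one_pow, one_mul]
    _ = 9.702 ^ n * ((tt : ℝ) ^ n * T.card) := by ring
    _ ≤ 9.702 ^ n * 1 := mul_le_mul_of_nonneg_left (h3.trans h4) (by positivity)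
    _ = _ := mul_one _

/-- The negation of the preceding statement: With s the stack-sorting map (s of L n R is s(L) s(R) n, n the maximum), let W(n) count permutations of length n sorted by three passes of s; then W(n)^(1/n) converges to a limit strictly between 9.702 and 9.704. -/
theorem result :
    ¬ (∀ s : List ℕ → List ℕ,
      s [] = [] →
      (∀ (L R : List ℕ) (m : ℕ), (L ++ m :: R).Nodup → (∀ x ∈ L, x < m) → (∀ x ∈ R, x < m) →
          s (L ++ m :: R) = s L ++ s R ++ [m]) →
      ∃ c : ℝ, 9.702 < c ∧ c < 9.704 ∧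
        Tendsto
          (fun n : ℕ =>
            (((Finset.univ : Finset (Equiv.Perm (Fin n))).filter
                (fun σ => s (s (s (List.ofFn (fun i : Fin n => ((σ i : Fin n) : ℕ))))) = List.range n)).card : ℝ)
              ^ ((1 : ℝ) / (n : ℝ)))
          atTop (𝓝 c)) := by
  intro h
  have hs := Pool.Agent.H786Z.St3.isSort_stackSort
  obtain ⟨c, hc, -, ht⟩ := h _ hs.nil hs.step
  refine absurd (le_of_tendsto ht ?_) (not_le.2 hc)
  filter_upwards [eventually_gt_atTop 0] with n hn
  refine (Real.rpow_le_rpow (Nat.cast_nonneg _) (card_bound hs hn) (by positivity)).trans ?_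
  rw [one_div, Real.pow_rpow_inv_natCast (by norm_num) hn.ne']

end Pool.Agent.S08704
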