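import Pool.Statements.S08718
import Pool.Agent.H462Z.RB.Final

set_option autoImplicit false
open Pool Pool.MP_50639e_co

namespace Pool.Agent.S08718

/-- The negation of the preceding statement: For every even n at least 4 there is a proper edge colouring of the complete graph on n vertices in which every Hamiltonian path (n-1 edges) has two edges of the same colour. -/
theorem result :
    ¬ (∀ n : ℕ, 4 ≤ n → Even n →
      ∃ c : Fin n → Fin n → ℕ,
        (∀ u v : Fin n, c u v = c v u) ∧
        (∀ u v w : Fin n, u ≠ v → u ≠ w → v ≠ w → c u v ≠ c u w) ∧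
        ∀ p : ℕ → Fin n,
          (∀ i j : ℕ, i < n → j < n → p i = p j → i = j) →
          ∃ i j : ℕ, i < j ∧ j + 1 < n ∧
            c (p i) (p (i + 1)) = c (p j) (p (j + 1))) := by
  intro h
  obtain ⟨c, h1, h2, h3⟩ := h 10 (by norm_num) (by decide)
  exact Pool.Agent.H462Z.RB.ten c h1 h2 h3

end Pool.Agent.S08718
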