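import Pool.Statements.S08725
import Pool.Agent.H360Z.Stek.Main

set_option autoImplicit false
open Classical
open Pool Pool.MP_507ed2_co

namespace Pool.Agent.S08725

/-- For infinite connected bounded-degree graphs G1, G2 roughly quasi-isometric, if every finite vertex set of G1 with boundary B (∣B∣≥2) has first Steklov eigenvalue ≤ C/∣B∣^α, then some constant gives the same bound with the same α for G2. -/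
theorem result :
    ∀ (V₁ V₂ : Type) (G₁ : SimpleGraph V₁) (G₂ : SimpleGraph V₂) (α : ℝ), 0 < α →
      Infinite V₁ → Infinite V₂ → G₁.Connected → G₂.Connected →
      (∃ D : ℕ, ∀ v : V₁, (G₁.neighborSet v).encard ≤ (D : ℕ∞)) →
      (∃ D : ℕ, ∀ v : V₂, (G₂.neighborSet v).encard ≤ (D : ℕ∞)) →
      (∃ φ : V₁ → V₂, ∃ a b c : ℝ, 1 ≤ a ∧ 0 ≤ b ∧ 0 ≤ c ∧
        (∀ x y : V₁, (G₁.dist x y : ℝ) / a - b ≤ (G₂.dist (φ x) (φ y) : ℝ) ∧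
          (G₂.dist (φ x) (φ y) : ℝ) ≤ a * (G₁.dist x y : ℝ) + b) ∧
        ∀ z : V₂, ∃ x : V₁, (G₂.dist (φ x) z : ℝ) ≤ c) →
      (∃ C : ℝ, ∀ Ω B : Finset V₁, (∀ v : V₁, v ∈ B ↔ v ∉ Ω ∧ ∃ u ∈ Ω, G₁.Adj u v) →
        2 ≤ B.card → ∃ f : V₁ → ℝ, ∑ x ∈ B, f x = 0 ∧ 0 < ∑ x ∈ B, f x ^ 2 ∧
          (∑ x ∈ Ω, ∑ y ∈ Ω, (if G₁.Adj x y then (f x - f y) ^ 2 else 0)) / 2 +
            (∑ x ∈ Ω, ∑ y ∈ B, (if G₁.Adj x y then (f x - f y) ^ 2 else 0))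
            ≤ C / (B.card : ℝ) ^ α * ∑ x ∈ B, f x ^ 2) →
      (∃ C : ℝ, ∀ Ω B : Finset V₂, (∀ v : V₂, v ∈ B ↔ v ∉ Ω ∧ ∃ u ∈ Ω, G₂.Adj u v) →
        2 ≤ B.card → ∃ f : V₂ → ℝ, ∑ x ∈ B, f x = 0 ∧ 0 < ∑ x ∈ B, f x ^ 2 ∧
          (∑ x ∈ Ω, ∑ y ∈ Ω, (if G₂.Adj x y then (f x - f y) ^ 2 else 0)) / 2 +
            (∑ x ∈ Ω, ∑ y ∈ B, (if G₂.Adj x y then (f x - f y) ^ 2 else 0))
            ≤ C / (B.card : ℝ) ^ α * ∑ x ∈ B, f x ^ 2) := by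
  rintro V₁ V₂ G₁ G₂ α hα _ _ h₁ h₂ ⟨D₁, hD₁⟩ ⟨D₂, hD₂⟩ ⟨φ, a, b, c, ha, -, -, hφ, hc⟩ ⟨C, hC⟩
  exact Pool.Agent.H360Z.Stek.main hα h₁ h₂ hD₁ hD₂ φ ha hφ hc hC

end Pool.Agent.S08725
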