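import Pool.Statements.S08761
import Pool.Agent.H245Z.ZmB

set_option autoImplicit false
open Pool Pool.MP_52d521_co

namespace Pool.Agent.S08761

/-- For a Laman (isostatic) graph in the complex plane, any realisation q with finitely many equivalent realisations up to congruence has at most as many such classes as a generic realisation. -/
theorem result :
    ∀ (V : Type) [Fintype V] (G : SimpleGraph V),
      (G.edgeSet.ncard + 3 = 2 * Fintype.card V ∧
        ∀ S : Finset V, 2 ≤ S.card →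
          {e ∈ G.edgeSet | ∀ v ∈ e, v ∈ S}.ncard + 3 ≤ 2 * S.card) →
      ∀ p q : V → Fin 2 → ℂ,
        AlgebraicIndependent ℚ (fun x : V × Fin 2 => p x.1 x.2) →
        {K : Set (V → Fin 2 → ℂ) | ∃ r : V → Fin 2 → ℂ,
            (∀ u v, G.Adj u v →
              ∑ k : Fin 2, (r u k - r v k) ^ 2 = ∑ k : Fin 2, (q u k - q v k) ^ 2) ∧
            K = {s | ∀ u v,
              ∑ k : Fin 2, (s u k - s v k) ^ 2 = ∑ k : Fin 2, (r u k - r v k) ^ 2}}.Finite →
        {K : Set (V → Fin 2 → ℂ) | ∃ r : V → Fin 2 → ℂ,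
            (∀ u v, G.Adj u v →
              ∑ k : Fin 2, (r u k - r v k) ^ 2 = ∑ k : Fin 2, (q u k - q v k) ^ 2) ∧
            K = {s | ∀ u v,
              ∑ k : Fin 2, (s u k - s v k) ^ 2 = ∑ k : Fin 2, (r u k - r v k) ^ 2}}.encard ≤
        {K : Set (V → Fin 2 → ℂ) | ∃ r : V → Fin 2 → ℂ,
            (∀ u v, G.Adj u v →
              ∑ k : Fin 2, (r u k - r v k) ^ 2 = ∑ k : Fin 2, (p u k - p v k) ^ 2) ∧
            K = {s | ∀ u v,
              ∑ k : Fin 2, (s u k - s v k) ^ 2 = ∑ k : Fin 2, (r u k - r v k) ^ 2}}.encard := by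
  intro V _ G hG p q hp hq
  rw [Pool.Agent.H245Z.Zm.classes_eq] at hq
  rw [Pool.Agent.H245Z.Zm.classes_eq, Pool.Agent.H245Z.Zm.classes_eq,
    Pool.Agent.H245Z.Zm.Th_inj.encard_image, Pool.Agent.H245Z.Zm.Th_inj.encard_image]
  exact Pool.Agent.H245Z.Zm.main G hG.2 p q hp
    (Set.Finite.of_finite_image hq Pool.Agent.H245Z.Zm.Th_inj.injOn)

end Pool.Agent.S08761
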