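import Pool.Statements.S08780
import Pool.Agent.H336Z.TwoSq

set_option autoImplicit false
open Pool Pool.MP_53cd62_co

namespace Pool.Agent.S08780

/-- The negation of the preceding statement: For each even d ≥ 2 there are constants C, c > 0 such that for every finite field F of odd characteristic with q elements, every E ⊆ F^d with ∣E∣ ≥ C q^{d/2} has at least c·q distinct values of ∑(x_k − y_k)² over x, y in E. -/
theorem result :
    ¬ (∀ d : ℕ, Even d → 2 ≤ d →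
      ∃ C c : ℝ, 0 < C ∧ 0 < c ∧
        ∀ (F : Type) [Field F] [Fintype F] [DecidableEq F], ringChar F ≠ 2 →
          ∀ E : Finset (Fin d → F),
            C * ((Fintype.card F : ℝ) ^ (d / 2)) ≤ (E.card : ℝ) →
              c * (Fintype.card F : ℝ) ≤
                (((E ×ˢ E).image (fun p => ∑ k, (p.1 k - p.2 k) ^ 2)).card : ℝ)) := by
  intro h
  obtain ⟨C, c, hC, hc, H⟩ := h 2 (by norm_num) le_rfl
  obtain ⟨K, hK⟩ := exists_nat_ge C
  have hKr : (0 : ℝ) < K := lt_of_lt_of_le hC hK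
  have hK0 : 0 < K := by exact_mod_cast hKr
  obtain ⟨A, hA⟩ := Pool.Agent.H336Z.TwoSq.density_zero (c / (16 * K)) (by positivity)
  obtain ⟨N, hN⟩ := exists_nat_gt (2 * A / c)
  obtain ⟨p, hpge, hp⟩ := Nat.exists_infinite_primes (4 * K + N + 3)
  have := Fact.mk hp
  set M := Nat.sqrt (K * p) + 1 with hM
  have hKp : 1 ≤ K * p := Nat.mul_pos hK0 hp.pos
  have hM1 : K * p < M ^ 2 := Nat.lt_succ_sqrt' _
  have hsq : Nat.sqrt (K * p) ^ 2 ≤ K * p := Nat.sqrt_le' _
  have hsq1 : 1 ≤ Nat.sqrt (K * p) := Nat.sqrt_pos.2 hKp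
  have hM2 : M ^ 2 ≤ 4 * (K * p) := by nlinarith
  have hMp : M ≤ p := by
    have : M ^ 2 ≤ p ^ 2 := by nlinarith
    exact (Nat.pow_le_pow_iff_left two_ne_zero).1 this
  let f : ℕ × ℕ → (Fin 2 → ZMod p) := fun z => ![(z.1 : ZMod p), (z.2 : ZMod p)]
  let E : Finset (Fin 2 → ZMod p) := (Finset.range M ×ˢ Finset.range M).image f
  have hEcard : E.card = M ^ 2 := by
    rw [Finset.card_image_of_injOn]
    · simp [sq]
    · intro x hx y hy hxy
      simp only [Finset.coe_product, Finset.coe_range, Set.mem_prod, Set.mem_Iio] at hx hy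
      have h0 : (x.1 : ZMod p) = y.1 := congrFun hxy 0
      have h1 : (x.2 : ZMod p) = y.2 := congrFun hxy 1
      rw [ZMod.natCast_eq_natCast_iff'] at h0 h1
      rw [Nat.mod_eq_of_lt (by omega), Nat.mod_eq_of_lt (by omega)] at h0 h1
      exact Prod.ext h0 h1
  have hchar : ringChar (ZMod p) ≠ 2 := by
    rw [ZMod.ringChar_zmod_n]; omega
  have H1 := H (ZMod p) hchar E (by
    rw [ZMod.card, hEcard]
    have h1 : ((K * p : ℕ) : ℝ) ≤ ((M ^ 2 : ℕ) : ℝ) := by exact_mod_cast hM1.le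
    have hp0 : (0 : ℝ) ≤ p := Nat.cast_nonneg _
    push_cast at h1 ⊢
    norm_num
    nlinarith)
  rw [ZMod.card] at H1
  let S : Finset ℕ := (Finset.range M ×ˢ Finset.range M).image (fun z => z.1 ^ 2 + z.2 ^ 2)
  have hS := hA (8 * (K * p)) S (by
    intro n hn
    obtain ⟨z, hz, rfl⟩ := Finset.mem_image.1 hn
    simp only [Finset.mem_product, Finset.mem_range] at hz
    refine ⟨?_, z.1, z.2, rfl⟩
    have h1 : z.1 ^ 2 ≤ M ^ 2 := Nat.pow_le_pow_left hz.1.le 2
    have h2 : z.2 ^ 2 ≤ M ^ 2 := Nat.pow_le_pow_left hz.2.le 2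
    omega)
  have hsub : (E ×ˢ E).image (fun q => ∑ k, (q.1 k - q.2 k) ^ 2) ⊆
      S.image (fun n : ℕ => (n : ZMod p)) := by
    intro t ht
    obtain ⟨⟨u, v⟩, huv, rfl⟩ := Finset.mem_image.1 ht
    obtain ⟨hu, hv⟩ := Finset.mem_product.1 huv
    obtain ⟨x, hx, rfl⟩ := Finset.mem_image.1 hu
    obtain ⟨y, hy, rfl⟩ := Finset.mem_image.1 hv
    simp only [Finset.mem_product, Finset.mem_range] at hx hy
    have hd : ∀ a b : ℕ, a < M → b < M → ∃ d : ℕ, d < M ∧
        ((d : ZMod p)) ^ 2 = ((a : ZMod p) - b) ^ 2 := by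
      intro a b ha hb
      rcases le_total a b with hab | hab
      · exact ⟨b - a, by omega, by rw [Nat.cast_sub hab]; ring⟩
      · exact ⟨a - b, by omega, by rw [Nat.cast_sub hab]⟩
    obtain ⟨d1, hd1, e1⟩ := hd x.1 y.1 hx.1 hy.1
    obtain ⟨d2, hd2, e2⟩ := hd x.2 y.2 hx.2 hy.2
    refine Finset.mem_image.2 ⟨d1 ^ 2 + d2 ^ 2, Finset.mem_image.2 ⟨(d1, d2), ?_, rfl⟩, ?_⟩
    · simp [hd1, hd2]
    · push_cast
      rw [e1, e2]
      simp [f, Fin.sum_univ_two]
  have h2 : ((E ×ˢ E).image (fun q => ∑ k, (q.1 k - q.2 k) ^ 2)).card ≤ S.card :=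
    (Finset.card_le_card hsub).trans Finset.card_image_le
  have h3 : (((E ×ˢ E).image (fun q => ∑ k, (q.1 k - q.2 k) ^ 2)).card : ℝ) ≤ S.card := by
    exact_mod_cast h2
  have h4 : c * p ≤ c / (16 * K) * ((8 * (K * p) : ℕ) : ℝ) + A := H1.trans (h3.trans hS)
  have h5 : c / (16 * K) * ((8 * (K * p) : ℕ) : ℝ) = c * p / 2 := by
    push_cast; field_simp; ring
  rw [h5] at h4
  have h6 : (N : ℝ) ≤ p := by exact_mod_cast (by omega : N ≤ p)
  rw [div_lt_iff₀ hc] at hN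
  nlinarith

end Pool.Agent.S08780
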