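import Pool.Statements.S08846
import Pool.Agent.H242Z.Sat

set_option autoImplicit false
open Pool Pool.MP_56f0a1_co

namespace Pool.Agent.S08846

/-- The negation of the preceding statement: For every skew-symmetrizable integer matrix B, every cluster variable obtained by mutations from the principal-coefficient seed has a Laurent expansion in x and y whose support contains every lattice point of its convex hull. -/
theorem result :
    ¬ (∀ (n : ℕ) (B : Matrix (Fin n) (Fin n) ℤ),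
    (∃ d : Fin n → ℤ, (∀ i, 0 < d i) ∧ ∀ i j, d i * B i j = -(d j * B j i)) →
    ∀ (ks : List (Fin n)) (k : Fin n) (c : (Fin n ⊕ Fin n → ℤ) →₀ ℤ),
      (List.foldl
        (fun (s : (Fin n ⊕ Fin n → FractionRing (MvPolynomial (Fin n ⊕ Fin n) ℤ)) ×
                  Matrix (Fin n ⊕ Fin n) (Fin n) ℤ) (m : Fin n) =>
          (Function.update s.1 (Sum.inl m)
            ((∏ i, s.1 i ^ (s.2 i m).toNat + ∏ i, s.1 i ^ (-(s.2 i m)).toNat) / s.1 (Sum.inl m)),
           Matrix.of (fun (i : Fin n ⊕ Fin n) (j : Fin n) =>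
             if i = Sum.inl m ∨ j = m then -(s.2 i j)
             else s.2 i j + Int.sign (s.2 i m) * max (s.2 i m * s.2 (Sum.inl m) j) 0)))
        (fun i => algebraMap (MvPolynomial (Fin n ⊕ Fin n) ℤ)
            (FractionRing (MvPolynomial (Fin n ⊕ Fin n) ℤ)) (MvPolynomial.X i),
         Matrix.fromRows B (1 : Matrix (Fin n) (Fin n) ℤ))
        ks).1 (Sum.inl k)
        = c.sum (fun a r => (r : FractionRing (MvPolynomial (Fin n ⊕ Fin n) ℤ)) *
            ∏ i, (algebraMap (MvPolynomial (Fin n ⊕ Fin n) ℤ)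
              (FractionRing (MvPolynomial (Fin n ⊕ Fin n) ℤ)) (MvPolynomial.X i)) ^ (a i)) →
      ∀ a : Fin n ⊕ Fin n → ℤ,
        (fun i => (a i : ℝ)) ∈ convexHull ℝ
          ((fun b : Fin n ⊕ Fin n → ℤ => fun i => (b i : ℝ)) ''
            (↑c.support : Set (Fin n ⊕ Fin n → ℤ))) →
        a ∈ c.support) := by
  intro h
  have hB : ∃ d : Fin 3 → ℤ, (∀ i, 0 < d i) ∧
      ∀ i j, d i * H242Z.Sat.B0 i j = -(d j * H242Z.Sat.B0 j i) :=
    ⟨![2, 1, 1], by decide, by decide⟩
  refine H242Z.Sat.notmem (h 3 H242Z.Sat.B0 hB [2, 0, 2, 1, 0] 0 H242Z.Sat.cc ?_ _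
    H242Z.Sat.hull)
  rw [H242Z.Sat.hM0]
  exact H242Z.Sat.main

end Pool.Agent.S08846
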