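import Pool.Statements.S08852
import Pool.Agent.H418Z.MDGraph

set_option autoImplicit false
open Pool Pool.MP_571698_co

namespace Pool.Agent.S08852

/-- The negation of the preceding statement: For every connected graph G on q ≥ 2 vertices, the metric dimension of the n-th Cartesian power of G, multiplied by log base q of n and divided by n, tends to 2 as n tends to infinity. -/
theorem result :
    ¬ (∀ q : ℕ, 2 ≤ q → ∀ G : SimpleGraph (Fin q), G.Connected →
      Filter.Tendsto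
        (fun n : ℕ =>
          ((sInf {k : ℕ | ∃ S : Finset (Fin n → Fin q), S.card = k ∧
              ∀ x y : Fin n → Fin q, x ≠ y → ∃ s ∈ S,
                (SimpleGraph.fromRel (fun a b : Fin n → Fin q =>
                    ∃ i : Fin n, G.Adj (a i) (b i) ∧ ∀ j : Fin n, j ≠ i → a j = b j)).dist x s ≠
                (SimpleGraph.fromRel (fun a b : Fin n → Fin q =>
                    ∃ i : Fin n, G.Adj (a i) (b i) ∧ ∀ j : Fin n, j ≠ i → a j = b j)).dist y s} : ℕ) : ℝ)
            * Real.logb (q : ℝ) (n : ℝ) / (n : ℝ))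
        Filter.atTop (nhds 2)) := by
  intro h
  obtain ⟨C, ρ, hρ, hC⟩ := H418Z.MD.LK_lower
  have hd := H418Z.MD.pow_dist H418Z.MD.LK H418Z.MD.dl H418Z.MD.dl0 H418Z.MD.dl1 H418Z.MD.dl2
  refine H418Z.MD.not_tendsto _ (q := ((21 : ℕ) : ℝ)) (ρ := ρ) (C := C) (by norm_num)
    (by exact_mod_cast hρ) ?_ (h 21 (by norm_num) H418Z.MD.LK H418Z.MD.LK_connected)
  intro n hn
  simp only [hd]
  have hne : {k : ℕ | ∃ S : Finset (Fin n → Fin 21), S.card = k ∧
      ∀ x y : Fin n → Fin 21, x ≠ y → ∃ s ∈ S,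
        ∑ k, H418Z.MD.dl (x k) (s k) ≠ ∑ k, H418Z.MD.dl (y k) (s k)}.Nonempty := by
    refine ⟨_, Finset.univ, rfl, fun x y hxy => ⟨x, Finset.mem_univ _, fun h1 => hxy ?_⟩⟩
    rw [Finset.sum_eq_zero (fun k _ => (H418Z.MD.dl0 _ _).mpr rfl), eq_comm,
      Finset.sum_eq_zero_iff] at h1
    funext k
    exact ((H418Z.MD.dl0 _ _).mp (h1 k (Finset.mem_univ k))).symm
  obtain ⟨S, hS1, hS2⟩ := Nat.sInf_mem hne
  rw [← hS1]
  exact hC n hn S hS2

end Pool.Agent.S08852
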