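import Pool.Statements.S08881
import Pool.Agent.H709Z.CjrwNest

set_option autoImplicit false
open Pool Pool.MP_5893b4_co

namespace Pool.Agent.S08881

/-- For every field and partial matrix whose row–column bipartite graph has a chord in every cycle of length at least 6, the max over maximal triangular subpatterns of their minimal completion rank equals the minimal completion rank. -/
theorem result :
    ∀ (F : Type) [Field F] (m n : ℕ) (J : Set (Fin m × Fin n))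
      (a : Matrix (Fin m) (Fin n) F) (G : SimpleGraph (Fin m ⊕ Fin n)),
      G = SimpleGraph.fromRel (fun x y : Fin m ⊕ Fin n =>
            ∃ i j, x = Sum.inl i ∧ y = Sum.inr j ∧ (i, j) ∈ J) →
      (∀ (u : Fin m ⊕ Fin n) (c : G.Walk u u), c.IsCycle → 6 ≤ c.length →
        ∃ i j : ℕ, i + 1 < j ∧ j < c.length ∧ ¬ (i = 0 ∧ j + 1 = c.length) ∧
          G.Adj (c.getVert i) (c.getVert j)) →
      sSup {r : ℕ | ∃ T : Set (Fin m × Fin n),
          Maximal (fun S : Set (Fin m × Fin n) =>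
              S ⊆ J ∧ ∀ p ∈ S, ∀ q ∈ S, (p.1, q.2) ∈ S ∨ (q.1, p.2) ∈ S) T ∧
          r = sInf {k : ℕ | ∃ B : Matrix (Fin m) (Fin n) F,
                (∀ p ∈ T, B p.1 p.2 = a p.1 p.2) ∧ B.rank = k}}
        = sInf {k : ℕ | ∃ B : Matrix (Fin m) (Fin n) F,
                (∀ p ∈ J, B p.1 p.2 = a p.1 p.2) ∧ B.rank = k} := by
  intro F _ m n J a G hG hch
  have hN := Pool.Agent.H709Z.Cjrw.nest_of_noHole (Pool.Agent.H709Z.Cjrw.noHole_of_chord G hG hch)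
  obtain ⟨B, T, hB, hT, hTri, hle⟩ := Pool.Agent.H709Z.Cjrw.exists_tri a hN
  have hne : ∀ S : Set (Fin m × Fin n), {k : ℕ | ∃ B : Matrix (Fin m) (Fin n) F,
      (∀ p ∈ S, B p.1 p.2 = a p.1 p.2) ∧ B.rank = k}.Nonempty :=
    fun S => ⟨a.rank, a, fun _ _ => rfl, rfl⟩
  have hub : ∀ r ∈ {r : ℕ | ∃ T : Set (Fin m × Fin n),
          Maximal (fun S : Set (Fin m × Fin n) =>
              S ⊆ J ∧ ∀ p ∈ S, ∀ q ∈ S, (p.1, q.2) ∈ S ∨ (q.1, p.2) ∈ S) T ∧
          r = sInf {k : ℕ | ∃ B : Matrix (Fin m) (Fin n) F,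
                (∀ p ∈ T, B p.1 p.2 = a p.1 p.2) ∧ B.rank = k}},
      r ≤ sInf {k : ℕ | ∃ B : Matrix (Fin m) (Fin n) F,
                (∀ p ∈ J, B p.1 p.2 = a p.1 p.2) ∧ B.rank = k} := by
    rintro r ⟨T', hT', rfl⟩
    obtain ⟨B', hB', hr⟩ := Nat.sInf_mem (hne J)
    apply Nat.sInf_le
    exact ⟨B', fun p hp => hB' p (hT'.prop.1 hp), hr⟩
  obtain ⟨T', hTT', hT'⟩ := Finite.exists_le_maximal (p := fun S : Set (Fin m × Fin n) =>
    S ⊆ J ∧ ∀ p ∈ S, ∀ q ∈ S, (p.1, q.2) ∈ S ∨ (q.1, p.2) ∈ S) (a := T) ⟨hT, hTri⟩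
  apply le_antisymm
  · exact csSup_le ⟨_, T', hT', rfl⟩ hub
  · refine le_trans ?_ (le_csSup ⟨_, hub⟩ ⟨T', hT', rfl⟩)
    obtain ⟨B', hB', hr⟩ := Nat.sInf_mem (hne T')
    rw [← hr]
    refine le_trans (Nat.sInf_le ⟨B, hB, rfl⟩) ?_
    exact hle B' (fun p hp => hB' p (hTT' hp))

end Pool.Agent.S08881
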