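import Pool.Statements.S08925
import Pool.Agent.H12Z.Dets

set_option autoImplicit false
open Pool Pool.MP_5a23e6_co

namespace Pool.Agent.S08925

/-- There is c>0 such that for every n≥1, the number of distinct values det(M)/2^(n-1), over n×n matrices M with all entries ±1, is at least c·2^n. -/
theorem result :
    ∃ c : ℝ, 0 < c ∧ ∀ n : ℕ, 1 ≤ n →
      c * (2 : ℝ) ^ n ≤
        ((Set.ncard {d : ℤ | ∃ M : Matrix (Fin n) (Fin n) ℤ,
            (∀ i j, M i j = 1 ∨ M i j = -1) ∧ M.det = 2 ^ (n - 1) * d}) : ℝ) :=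
  Pool.Agent.H12Z.Dets.main

end Pool.Agent.S08925
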