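import Pool.Statements.S08939
import Pool.Agent.H420Z.Apery.Final

set_option autoImplicit false
open Pool Pool.MP_5ad3e6_co

namespace Pool.Agent.S08939

/-- With L(a)_n = a_n a_{n+2} − a_{n+1}^2, every iterate L^k (k ≥ 0) of A_n = Σ C(n,k)²C(n+k,k)² and of B_n = Σ C(n,k)²C(n+k,k) is a nonnegative sequence, i.e. both are infinitely log-convex. -/
theorem result :
    (∀ k n : ℕ, 0 ≤ ((fun (a : ℕ → ℤ) (m : ℕ) => a m * a (m + 2) - a (m + 1) ^ 2)^[k]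
        (fun m : ℕ => ∑ j ∈ Finset.range (m + 1),
          ((m.choose j : ℕ) : ℤ) ^ 2 * (((m + j).choose j : ℕ) : ℤ) ^ 2)) n) ∧
    (∀ k n : ℕ, 0 ≤ ((fun (a : ℕ → ℤ) (m : ℕ) => a m * a (m + 2) - a (m + 1) ^ 2)^[k]
        (fun m : ℕ => ∑ j ∈ Finset.range (m + 1),
          ((m.choose j : ℕ) : ℤ) ^ 2 * (((m + j).choose j : ℕ) : ℤ))) n) := by
  exact ⟨Pool.Agent.H420Z.Apery.finalA, Pool.Agent.H420Z.Apery.finalB⟩

end Pool.Agent.S08939
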