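import Pool.Statements.S08951
import Pool.Agent.H800Z.FF4

set_option autoImplicit false
open Pool Pool.MP_5b147e_co

namespace Pool.Agent.S08951

/-- There is a finite width-2 poset Q such that for every base C, for some w, some Q-free poset of width at most w has an element order on which First-Fit uses more than C^w chains. -/
theorem result :
    ∃ (Q : Type) (_ : Fintype Q) (_ : PartialOrder Q),
      (∃ s : Finset Q, IsAntichain (· ≤ ·) (s : Set Q) ∧ s.card = 2) ∧
      (∀ s : Finset Q, IsAntichain (· ≤ ·) (s : Set Q) → s.card ≤ 2) ∧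
      ∀ C : ℕ, ∃ w : ℕ, ∃ (P : Type) (_ : Fintype P) (_ : PartialOrder P),
        (∀ s : Finset P, IsAntichain (· ≤ ·) (s : Set P) → s.card ≤ w) ∧
        IsEmpty (Q ↪o P) ∧
        ∃ (ord : P → ℕ) (f : P → ℕ),
          Function.Injective ord ∧
          (∀ x y : P, ord y < ord x → f y = f x → (x ≤ y ∨ y ≤ x)) ∧
          (∀ x : P, ∀ c : ℕ, c < f x →
            ∃ y : P, ord y < ord x ∧ f y = c ∧ ¬ x ≤ y ∧ ¬ y ≤ x) ∧
          ∃ x : P, C ^ w ≤ f x := by
  exact Pool.Agent.H800Z.FF.main

end Pool.Agent.S08951
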