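import Pool.Statements.S08958
import Pool.Agent.H1Z.PSPure
import Pool.Agent.H1Z.PSComplex

set_option autoImplicit false
open Pool Pool.MP_5b9ab2_co

namespace Pool.Agent.S08958

/-- The negation of the preceding statement: For every complex with a PS ear decomposition (a PS-sphere with PS-balls of the same dimension attached along their boundaries), its h-vector is the degree-count vector of a finite pure multicomplex of monomials. -/
theorem result :
    ¬ (∀ (n d : ℕ) (Δ : Finset (Finset (Fin n))),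
    (∃ (m : ℕ) (A : ℕ → Finset (Fin n)) (P : ℕ → Finset (Finset (Fin n)))
        (E : ℕ → Finset (Finset (Fin n))),
      (∀ j, E j = (A j ∪ (P j).sup id).powerset.filter (fun F => ∀ B ∈ P j, ¬ B ⊆ F)) ∧
      A 0 = ∅ ∧
      (∀ j ≤ m, (∀ B ∈ P j, 2 ≤ B.card ∧ Disjoint (A j) B) ∧
        (∀ B ∈ P j, ∀ C ∈ P j, B ≠ C → Disjoint B C) ∧
        (A j).card + ∑ B ∈ P j, (B.card - 1) = d) ∧
      (∀ j, 1 ≤ j → j ≤ m → (A j).Nonempty ∧
        ((Finset.range j).biUnion E) ∩ E j = (E j).filter (fun F => ¬ A j ⊆ F)) ∧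
      Δ = (Finset.range (m + 1)).biUnion E) →
    ∃ (r : ℕ) (M : Finset (Fin r → ℕ)),
      (∀ μ ∈ M, ∀ ν : Fin r → ℕ, ν ≤ μ → ν ∈ M) ∧
      (∀ μ ∈ M, ∀ ν ∈ M, (∀ κ ∈ M, μ ≤ κ → κ = μ) → (∀ κ ∈ M, ν ≤ κ → κ = ν) →
        ∑ i, μ i = ∑ i, ν i) ∧
      ∀ k : ℕ, (((M.filter (fun μ => ∑ i, μ i = k)).card : ℤ) =
        if k ≤ d then
          ∑ i ∈ Finset.range (k + 1), (-1 : ℤ) ^ (k - i) * (((d - i).choose (k - i) : ℕ) : ℤ) *
            ((Δ.filter (fun F => F.card = i)).card : ℤ)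
        else 0)) := by
  intro h
  obtain ⟨r, M, hdown, hpure, hcount⟩ := h 10 7 ((Finset.range 3).biUnion H1Z.PS.E)
    ⟨2, H1Z.PS.A, H1Z.PS.P, H1Z.PS.E, fun _ => rfl, rfl, H1Z.PS.shape, by
      intro j h1 h2
      interval_cases j
      · exact ⟨by decide, H1Z.PS.glue1⟩
      · exact ⟨by decide, H1Z.PS.glue2⟩, rfl⟩
  have f0 := H1Z.PS.f0
  have f1 := H1Z.PS.f1
  have f2 := H1Z.PS.f2
  have f3 := H1Z.PS.f3
  have f4 := H1Z.PS.f4
  have f5 := H1Z.PS.f5
  have f6 := H1Z.PS.f6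
  have f7 := H1Z.PS.f7
  generalize (Finset.range 3).biUnion H1Z.PS.E = D at hcount f0 f1 f2 f3 f4 f5 f6 f7
  have g1 := hcount 1
  have g2 := hcount 2
  have g3 := hcount 3
  have g4 := hcount 4
  have g6 := hcount 6
  have g7 := hcount 7
  simp only [Finset.sum_range_succ, Finset.sum_range_zero, f0, f1, f2, f3, f4, f5, f6, f7]
    at g1 g2 g3 g4 g6 g7
  norm_num [Nat.choose] at g1 g2 g3 g4 g6 g7
  refine H1Z.PS.not_pure r M hdown hpure ?_ ?_ ?_ ?_ ?_ ?_ ?_
  · exact_mod_cast g1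
  · exact_mod_cast g2
  · exact_mod_cast g3
  · exact_mod_cast g4
  · exact_mod_cast g6
  · exact_mod_cast g7
  · intro k hk
    have g := hcount k
    rw [if_neg (by omega)] at g
    exact_mod_cast g

end Pool.Agent.S08958
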