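import Pool.Statements.S09015
import Pool.Agent.H75Z.PeakMain

set_option autoImplicit false
open Pool Pool.MP_5d54aa_co

namespace Pool.Agent.S09015

/-- For every tree on n ≥ 3 vertices, with d_k = ∣coeff of x^k in det(D − xI)∣ / 2^(n−k−2), some index k ≤ n−2 where d_k is maximal satisfies ⌊n/2⌋ ≤ k ≤ ⌈(1−1/√5)n⌉. -/
theorem result :
    ∀ (V : Type) [Fintype V] [DecidableEq V] (G : SimpleGraph V),
      G.IsTree → 3 ≤ Fintype.card V →
      ∀ d : ℕ → ℝ,
        (∀ k : ℕ, d k =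
          (((|(Matrix.of fun i j : V => (G.dist i j : ℤ)).charpoly.coeff k|) : ℤ) : ℝ)
            / (2 : ℝ) ^ (Fintype.card V - k - 2)) →
        ∃ k : ℕ, k ≤ Fintype.card V - 2 ∧
          (∀ j : ℕ, j ≤ Fintype.card V - 2 → d j ≤ d k) ∧
          Fintype.card V / 2 ≤ k ∧
          k ≤ ⌈(1 - 1 / Real.sqrt 5) * (Fintype.card V : ℝ)⌉₊ := by
  intro V _ _ G hG hn d hd
  exact Pool.Agent.H75Z.Peak.main V G hG hn d hd

end Pool.Agent.S09015
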