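import Pool.Statements.S09017
import Pool.Agent.H900Z.Red

set_option autoImplicit false
open Classical
open Pool Pool.MP_5d5585_co

namespace Pool.Agent.S09017

lemma aux (m : ℕ) : ∃ c₁ c₂ : ℝ, 0 < c₁ ∧ 0 < c₂ ∧
    ∀ ε₁ ε₂ : ℝ, 0 < ε₁ → ε₁ ≤ ε₂ → ε₂ < 1 →
      ∀ X : Finset (EuclideanSpace ℝ (Fin (m + 1))),
        (∀ x ∈ X, ∀ y ∈ X, dist x y ≤ 1) →
        c₁ * ε₁ ^ (-((m + 1 : ℕ) : ℝ)) ≤ (X.card : ℝ) →
        c₂ * ε₁ ^ ((m + 1 : ℕ) : ℝ) * ε₂ ^ (-((((m + 1 : ℕ) : ℝ) + 1) / 2)) *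
            ((X.offDiag.filter (fun p => 1 - ε₂ ≤ dist p.1 p.2)).card : ℝ)
          ≤ ((X.offDiag.filter (fun p => dist p.1 p.2 ≤ ε₁)).card : ℝ) := by
  obtain ⟨c₁, c₂, h1, h2, h⟩ := Pool.Agent.H900Z.core m
  refine ⟨c₁, c₂, h1, h2, ?_⟩
  intro ε₁ ε₂ e1 e12 e2 X hX hc
  have e2' : 0 < ε₂ := lt_of_lt_of_le e1 e12
  have key := h X (fun x => x.1) ε₁ ε₂ e1 e12 e2 (fun x y => hX x x.2 y y.2) (by
    rw [Real.rpow_neg e1.le, Real.rpow_natCast] at hc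
    rw [Fintype.card_coe, one_div, inv_pow]
    exact hc)
  have r1 : ε₂ ^ (-((((m + 1 : ℕ) : ℝ) + 1) / 2)) = (1 / Real.sqrt ε₂) ^ (m + 2) := by
    rw [Real.rpow_neg e2'.le, one_div, inv_pow, Real.sqrt_eq_rpow, ← Real.rpow_natCast,
      ← Real.rpow_mul e2'.le]
    congr 2
    push_cast; ring
  rw [r1, Real.rpow_natCast]
  have a1 : (X.offDiag.filter (fun p => 1 - ε₂ ≤ dist p.1 p.2)).card ≤
      (Finset.univ.filter (fun e : X × X => 1 - ε₂ ≤ dist e.1.1 e.2.1)).card := by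
    apply Finset.card_le_card_of_surjOn (fun e : X × X => (e.1.1, e.2.1))
    intro p hp
    simp only [Finset.coe_filter, Finset.mem_offDiag, Set.mem_setOf_eq] at hp
    exact ⟨(⟨p.1, hp.1.1⟩, ⟨p.2, hp.1.2.1⟩), by simpa using hp.2, rfl⟩
  have a2 : (Finset.univ.filter (fun e : X × X => e.1 ≠ e.2 ∧ dist e.1.1 e.2.1 ≤ ε₁)).card ≤
      (X.offDiag.filter (fun p => dist p.1 p.2 ≤ ε₁)).card := by
    apply Finset.card_le_card_of_injOn (fun e : X × X => (e.1.1, e.2.1))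
    · intro e he
      simp only [Finset.coe_filter, Finset.mem_univ, true_and, Set.mem_setOf_eq,
        Finset.mem_offDiag] at he ⊢
      exact ⟨⟨e.1.2, e.2.2, fun hh => he.1 (Subtype.ext hh)⟩, he.2⟩
    · intro e _ e' _ hh
      simp only [Prod.mk.injEq] at hh
      exact Prod.ext (Subtype.ext hh.1) (Subtype.ext hh.2)
  refine le_trans ?_ (key.trans (by exact_mod_cast a2))
  apply mul_le_mul_of_nonneg_left (by exact_mod_cast a1) (by positivity)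

theorem result :
    ∀ d : ℕ, 3 ≤ d →
      ∃ c₁ c₂ : ℝ, 0 < c₁ ∧ 0 < c₂ ∧
        ∀ ε₁ ε₂ : ℝ, 0 < ε₁ → ε₁ < 1 → 0 < ε₂ → ε₂ < 1 →
          ∀ X : Finset (EuclideanSpace ℝ (Fin d)),
            (∀ x ∈ X, ∀ y ∈ X, dist x y ≤ 1) →
            c₁ * ε₁ ^ (-(d : ℝ)) ≤ (X.card : ℝ) →
            (ε₁ ≤ ε₂ →
              c₂ * ε₁ ^ (d : ℝ) * ε₂ ^ (-(((d : ℝ) + 1) / 2)) *
                  ((X.offDiag.filter (fun p => 1 - ε₂ ≤ dist p.1 p.2)).card : ℝ)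
                ≤ ((X.offDiag.filter (fun p => dist p.1 p.2 ≤ ε₁)).card : ℝ)) ∧
            (ε₂ < ε₁ →
              c₂ * ε₁ ^ (((d : ℝ) - 1) / 2) *
                  ((X.offDiag.filter (fun p => 1 - ε₂ ≤ dist p.1 p.2)).card : ℝ)
                ≤ ((X.offDiag.filter (fun p => dist p.1 p.2 ≤ ε₁)).card : ℝ)) := by
  intro d hd
  obtain ⟨m, rfl⟩ : ∃ m, d = m + 1 := ⟨d - 1, by omega⟩
  obtain ⟨c₁, c₂, h1, h2, h⟩ := aux m
  refine ⟨c₁, c₂, h1, h2, ?_⟩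
  intro ε₁ ε₂ e1 e1' e2 e2' X hX hc
  refine ⟨fun h12 => h ε₁ ε₂ e1 h12 e2' X hX hc, fun h21 => ?_⟩
  have key := h ε₁ ε₁ e1 le_rfl e1' X hX hc
  refine le_trans ?_ key
  have r : c₂ * ε₁ ^ ((m + 1 : ℕ) : ℝ) * ε₁ ^ (-((((m + 1 : ℕ) : ℝ) + 1) / 2)) =
      c₂ * ε₁ ^ ((((m + 1 : ℕ) : ℝ) - 1) / 2) := by
    rw [mul_assoc, ← Real.rpow_add e1]
    congr 2
    ring
  rw [r]
  apply mul_le_mul_of_nonneg_left _ (by positivity)
  norm_cast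
  apply Finset.card_le_card
  intro p hp
  rw [Finset.mem_filter] at hp ⊢
  exact ⟨hp.1, by linarith [hp.2]⟩

end Pool.Agent.S09017
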