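import Pool.Statements.S09056
import Pool.Agent.H249Z.IsfB

set_option autoImplicit false
open Pool Pool.MP_5f100a_co

namespace Pool.Agent.S09056

open Finset Pool.Agent.H249Z.IsfA Pool.Agent.H249Z.IsfC Pool.Agent.H249Z.IsfB

def R (X Y : Finset (Fin 7)) : Prop := ¬ Disjoint X Y

instance : DecidableRel R := fun X Y => inferInstanceAs (Decidable (¬ Disjoint X Y))

theorem R_symm : ∀ X Y, R X Y → R Y X := fun _ _ h h' => h h'.symm

def dec (a : ℕ) : Finset (Fin 7) := univ.filter (fun i => a.testBit i = true)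

theorem d1 : ∀ a < 128, ∀ b < 128, (rm a b ↔ R (dec a) (dec b)) := by decide +kernel

theorem d2 : ∀ a < 128, ∀ b < 128, dec a = dec b → a = b := by decide +kernel

theorem d4 : ∀ T ∈ fives, (dec T).card = 5 ∧ ∀ a < 128, (a ∈ U3 ∪ KK T ↔
    (3 ≤ (dec a).card ∨ ((dec a).card = 2 ∧ dec a ⊆ dec T))) := by decide +kernel

theorem inj (M : Finset ℕ) (hM : M ⊆ range 128) : Set.InjOn dec M :=
  fun a ha b hb h => d2 a (mem_range.1 (hM ha)) b (mem_range.1 (hM hb)) h

theorem surj (X : Finset (Fin 7)) : ∃ a < 128, dec a = X := by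
  have h : (range 128).image dec = univ := by
    apply eq_univ_of_card
    rw [card_image_of_injOn (inj _ subset_rfl)]
    simp
  obtain ⟨a, ha, e⟩ := mem_image.1 (h ▸ mem_univ X)
  exact ⟨a, mem_range.1 ha, e⟩

def toMask (A : Finset (Finset (Fin 7))) : Finset ℕ := (range 128).filter (fun a => dec a ∈ A)

theorem image_toMask (A : Finset (Finset (Fin 7))) : (toMask A).image dec = A := by
  ext X
  rw [mem_image]
  constructor
  · rintro ⟨a, ha, rfl⟩
    exact (mem_filter.1 ha).2
  · intro hX
    obtain ⟨a, ha, rfl⟩ := surj X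
    exact ⟨a, mem_filter.2 ⟨mem_range.2 ha, hX⟩, rfl⟩

theorem I_dec (s : ℕ) (M : Finset ℕ) (hM : M ⊆ range 128) : I R s (M.image dec) = I rm s M :=
  I_image rm rm_symm R R_symm dec s M (inj M hM)
    (fun a ha b hb => d1 a (mem_range.1 (hM ha)) b (mem_range.1 (hM hb)))

def OptF (s : ℕ) (A : Finset (Finset (Fin 7))) : Prop :=
  ∀ B : Finset (Finset (Fin 7)), B.card = 109 → I R s B ≤ I R s A

theorem toMask_sub (A : Finset (Finset (Fin 7))) : toMask A ⊆ range 128 := filter_subset _ _

theorem opt_mask (s : ℕ) (A : Finset (Finset (Fin 7))) (h : OptF s A) : Opt s (toMask A) := by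
  intro M hM hc
  have := h (M.image dec) (by rw [card_image_of_injOn (inj M hM), hc])
  rwa [I_dec s M hM, ← image_toMask A, I_dec s _ (toMask_sub A)] at this

theorem card_mask (A : Finset (Finset (Fin 7))) : (toMask A).card = A.card := by
  rw [← card_image_of_injOn (inj _ (toMask_sub A)), image_toMask]

theorem opt_perm (s : ℕ) (A : Finset (Finset (Fin 7))) (σ : Equiv.Perm (Fin 7)) (h : OptF s A) :
    OptF s (A.image (fun X => X.map σ.toEmbedding)) := by
  intro B hB
  rw [I_image R R_symm R R_symm (fun X => X.map σ.toEmbedding) s A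
    ((map_injective _).injOn) (fun a _ b _ => by simp only [R, disjoint_map])]
  exact h B hB

theorem main (A : Finset (Finset (Fin 7))) (hc : A.card = 109) (h2 : OptF 2 A)
    (h64 : OptF 64 A) : False := by
  obtain ⟨T, hT, e⟩ := shape (toMask A) (toMask_sub A) (by rw [card_mask, hc]) (opt_mask 2 A h2)
  have hA : ∀ X, X ∈ A ↔ (3 ≤ X.card ∨ (X.card = 2 ∧ X ⊆ dec T)) := by
    intro X
    obtain ⟨a, ha, rfl⟩ := surj X
    rw [← (d4 T hT).2 a ha, ← e]
    simp [toMask, ha]
  have h31 := d4 31 (by decide)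
  obtain ⟨σ, hσ⟩ := Equiv.Perm.exists_map_finset_eq (s := dec T) (t := dec 31)
    (by rw [(d4 T hT).1, h31.1])
  have h := opt_mask 64 _ (opt_perm 64 A σ h64)
  have e2 : toMask (A.image (fun X => X.map σ.toEmbedding)) = U3 ∪ KK 31 := by
    ext a
    by_cases ha : a < 128
    · rw [h31.2 a ha, toMask, mem_filter, mem_range, mem_image]
      constructor
      · rintro ⟨_, X, hX, e3⟩
        rw [← e3, ← hσ, card_map, map_subset_map]
        exact (hA X).1 hX
      · intro h3
        have e3 : ((dec a).map σ.symm.toEmbedding).map σ.toEmbedding = dec a := by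
          rw [map_map]; simp
        refine ⟨ha, (dec a).map σ.symm.toEmbedding, ?_, e3⟩
        rw [← e3, ← hσ, card_map, map_subset_map] at h3
        exact (hA _).2 h3
    · constructor
      · intro h3; exact absurd (mem_range.1 (toMask_sub _ h3)) ha
      · intro h3; exact absurd (mem_range.1 (f8.1 h3)) ha
  rw [e2] at h
  exact not_opt h

/-- For `n = 7` and `N = 109` no family maximises the number of intersecting subfamilies
of size 2 and of size 64 at once. -/
theorem result :
    ¬ (∀ n N : ℕ, 2 ^ (n - 1) < N → N ≤ 2 ^ n →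
      ∃ A : Finset (Finset (Fin n)), A.card = N ∧
        ∀ s : ℕ, ∀ B : Finset (Finset (Fin n)), B.card = N →
          ((B.powersetCard s).filter
              (fun F => ∀ X ∈ F, ∀ Y ∈ F, X ≠ Y → ¬ Disjoint X Y)).card ≤
          ((A.powersetCard s).filter
              (fun F => ∀ X ∈ F, ∀ Y ∈ F, X ≠ Y → ¬ Disjoint X Y)).card) := by
  intro h
  obtain ⟨A, hc, hA⟩ := h 7 109 (by norm_num) (by norm_num)
  refine main A hc (fun B hB => ?_) (fun B hB => ?_)
  · have := hA 2 B hB
    unfold I
    convert this using 3 <;> rfl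
  · have := hA 64 B hB
    unfold I
    convert this using 3 <;> rfl

end Pool.Agent.S09056
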