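import Pool.Statements.S09060
import Pool.Agent.H483Z.UniformMix

set_option autoImplicit false
open Pool Pool.MP_5f1df6_co

namespace Pool.Agent.S09060

/-- The negation of the preceding statement: For any Cayley graph on (Z/qZ)^d with symmetric connection set avoiding 0, if at some time all entries of exp(-itA) (written via characters) have equal modulus, then every eigenvalue (sum of a character over the connection set) is an integer. -/
theorem result :
    ¬ (∀ (q d : ℕ) [NeZero q] (C : Finset (Fin d → ZMod q)),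
      (0 : Fin d → ZMod q) ∉ C →
      (∀ c ∈ C, -c ∈ C) →
      (∃ t : ℝ, ∀ a b : Fin d → ZMod q,
        ‖∑ y : Fin d → ZMod q,
            Complex.exp (-(Complex.I * (t : ℂ) *
              ∑ c ∈ C, Complex.exp (2 * (Real.pi : ℂ) * Complex.I *
                (((∑ j, c j * y j : ZMod q).val : ℕ) : ℂ) / (q : ℂ)))) *
            Complex.exp (2 * (Real.pi : ℂ) * Complex.I *
              (((∑ j, (a - b) j * y j : ZMod q).val : ℕ) : ℂ) / (q : ℂ))‖ =
        ‖∑ y : Fin d → ZMod q,
            Complex.exp (-(Complex.I * (t : ℂ) *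
              ∑ c ∈ C, Complex.exp (2 * (Real.pi : ℂ) * Complex.I *
                (((∑ j, c j * y j : ZMod q).val : ℕ) : ℂ) / (q : ℂ))))‖) →
      ∀ y : Fin d → ZMod q, ∃ k : ℤ,
        ∑ c ∈ C, Complex.exp (2 * (Real.pi : ℂ) * Complex.I *
          (((∑ j, c j * y j : ZMod q).val : ℕ) : ℂ) / (q : ℂ)) = (k : ℂ)) := by
  intro h
  have h5 := h 5 4 Pool.Agent.H483Z.UniformMix.CC Pool.Agent.H483Z.UniformMix.zero_notMem
    Pool.Agent.H483Z.UniformMix.neg_mem
  simp only [Pool.Agent.H483Z.UniformMix.exp_eq] at h5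
  refine Pool.Agent.H483Z.UniformMix.not_int (h5 ⟨2 * Real.pi / 25, fun a b => ?_⟩ _)
  have h1 := Pool.Agent.H483Z.UniformMix.flat (a - b)
  have h0 := Pool.Agent.H483Z.UniformMix.flat 0
  simp only [Pool.Agent.H483Z.UniformMix.dot, Pi.zero_apply, zero_mul, Finset.sum_const_zero,
    AddChar.map_zero_eq_one, mul_one] at h0
  exact h1.trans h0.symm

end Pool.Agent.S09060
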