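import Pool.Statements.S09124
import Pool.Agent.H891Z.Final3

set_option autoImplicit false
open Pool Pool.MP_6142e4_co

namespace Pool.Agent.S09124

/-- The negation of the preceding statement: There is a constant c such that for every finite graph G, any d vertex orderings separating every pair of disjoint edges satisfy d ≥ log₂ χ(G) − c, i.e. separation dimension ≥ log₂ χ(G) − c. -/
theorem result :
    ¬ (∃ c : ℝ, ∀ (n : ℕ) (G : SimpleGraph (Fin n)) (d : ℕ),
      (∃ f : Fin d → Fin n → ℝ,
        ∀ a b x y : Fin n, G.Adj a b → G.Adj x y →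
          a ≠ x → a ≠ y → b ≠ x → b ≠ y →
          ∃ i : Fin d,
            max (f i a) (f i b) < min (f i x) (f i y) ∨
            max (f i x) (f i y) < min (f i a) (f i b)) →
      Real.logb 2 (G.chromaticNumber.toNat : ℝ) - c ≤ (d : ℝ)) :=
  Pool.Agent.H891Z.not_sep_log

end Pool.Agent.S09124
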