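import Pool.Statements.S09131
import Pool.Agent.H71Z.KK.Cube

set_option autoImplicit false
open Pool Pool.MP_61873f_co

namespace Pool.Agent.S09131

/-- For every L>0 there are L'>0 and δ>0 such that any nonempty A in {0,1}^n with density α≤1/2 and edge boundary at most L∣A∣log₂(1/α) has a subcube of measure at least α^{L'} on which A has density at least (1+δ)α. -/
theorem result :
    ∀ L : ℝ, 0 < L → ∃ L' : ℝ, 0 < L' ∧ ∃ δ : ℝ, 0 < δ ∧
      ∀ n : ℕ, ∀ A : Finset (Fin n → Bool), A.Nonempty →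
        (A.card : ℝ) / 2 ^ n ≤ 1 / 2 →
        (((A ×ˢ (Finset.univ : Finset (Fin n))).filter
            (fun p => Function.update p.1 p.2 (!(p.1 p.2)) ∉ A)).card : ℝ)
          ≤ L * (A.card : ℝ) * Real.logb 2 ((2 : ℝ) ^ n / (A.card : ℝ)) →
        ∃ S : Finset (Fin n), ∃ c : Fin n → Bool,
          ((A.card : ℝ) / 2 ^ n) ^ L' ≤ (1 / 2 : ℝ) ^ S.card ∧
          (1 + δ) * ((A.card : ℝ) / 2 ^ n) ≤
            ((A.filter (fun x => ∀ i ∈ S, x i = c i)).card : ℝ) /
              ((Finset.univ.filter (fun x : Fin n → Bool => ∀ i ∈ S, x i = c i)).card : ℝ) := by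
  intro L hL
  obtain ⟨L', hL', H⟩ := Pool.Agent.H71Z.KK.cube_incr L hL
  refine ⟨L', hL', 2 / 5, by norm_num, fun n A hA hα hb => ?_⟩
  obtain ⟨S, c, h1, h2⟩ := H n A hA hα hb
  refine ⟨S, c, h1, ?_⟩
  have h3 : (2 : ℝ) ^ S.card * ((Finset.univ.filter
      (fun x : Fin n → Bool => ∀ i ∈ S, x i = c i)).card : ℝ) = 2 ^ n := by
    have := Pool.Agent.H71Z.KK.card_subcube S c
    rw [Fintype.card_fin] at this
    convert this
  have h4 : (0 : ℝ) < ((Finset.univ.filter
      (fun x : Fin n → Bool => ∀ i ∈ S, x i = c i)).card : ℝ) := by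
    have : (0 : ℝ) < 2 ^ n := by positivity
    rw [← h3] at this
    exact (pos_iff_pos_of_mul_pos this).mp (by positivity)
  rw [← h3, ← mul_div_assoc, div_le_div_iff₀ (by positivity) h4]
  have := mul_le_mul_of_nonneg_right h2 h4.le
  linarith

end Pool.Agent.S09131
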