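import Pool.Statements.S09169
import Pool.Agent.H594Z.KosTab

set_option autoImplicit false
open Pool Pool.MP_62af7b_co

namespace Pool.Agent.S09169

/-- For every natural m, only finitely many rational polynomials p with p(1)=m arise as p(k)=K_{kλ,kν} for all k≥1, where λ,ν are partitions and K is the Kostka number (count of semistandard tableaux of shape kλ, content kν). -/
theorem result :
    ∀ m : ℕ, Set.Finite {p : Polynomial ℚ | p.eval 1 = (m : ℚ) ∧
      ∃ lam nu : ℕ → ℕ, Antitone lam ∧ Antitone nu ∧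
        (∃ N : ℕ, ∀ i, N ≤ i → lam i = 0 ∧ nu i = 0) ∧
        ∀ k : ℕ, 1 ≤ k → p.eval (k : ℚ) =
          ((Nat.card {T : ℕ × ℕ → ℕ //
              (∀ x : ℕ × ℕ, ¬ (x.2 < k * lam x.1) → T x = 0) ∧
              (∀ i j : ℕ, j + 1 < k * lam i → T (i, j) ≤ T (i, j + 1)) ∧
              (∀ i j : ℕ, j < k * lam (i + 1) → T (i, j) < T (i + 1, j)) ∧
              (∀ c : ℕ, Set.ncard {x : ℕ × ℕ | x.2 < k * lam x.1 ∧ T x = c} = k * nu c)} : ℕ) : ℚ)} := by
  intro m
  apply Set.Finite.subset (Pool.Agent.H594Z.Kos.poly_finite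
    (4 * (16 * m ^ 2 + 4) ^ (4 * m ^ 2) * m) (4 * m ^ 2))
  rintro p ⟨hp1, lam, nu, ha, hnu, ⟨N, hN⟩, hk⟩ k hk1
  have h1 : (Pool.Agent.H594Z.Kos.Tab lam nu).ncard ≤ m := by
    have h2 := hk 1 le_rfl
    simp only [one_mul, Nat.cast_one] at h2
    rw [hp1] at h2
    have h3 : m = (Pool.Agent.H594Z.Kos.Tab lam nu).ncard := by exact_mod_cast h2
    exact h3.ge
  exact ⟨(Pool.Agent.H594Z.Kos.Tab (fun i => k * lam i) (fun i => k * nu i)).ncard, hk k hk1,
    Pool.Agent.H594Z.Kos.tab_bound ha hnu (fun i hi => (hN i hi).1) (fun i hi => (hN i hi).2)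
      m h1 k hk1⟩

end Pool.Agent.S09169
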