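import Pool.Statements.S09189
import Pool.Agent.H104Z.Tied.Free

set_option autoImplicit false
open Pool Pool.MP_63a4dd_co

namespace Pool.Agent.S09189

/-- There exist a cardinal d and an integer k>1 and two non-isomorphic graphs, each d-regular with diameter exactly k and with no cycle of length at most 2k. -/
theorem result :
    ∃ d : Cardinal.{0}, ∃ k : ℕ, 1 < k ∧
      ∃ (V W : Type) (G : SimpleGraph V) (H : SimpleGraph W),
        (∀ v : V, Cardinal.mk (G.neighborSet v) = d) ∧
        G.ediam = (k : ℕ∞) ∧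
        ((2 * k : ℕ) : ℕ∞) < G.egirth ∧
        (∀ w : W, Cardinal.mk (H.neighborSet w) = d) ∧
        H.ediam = (k : ℕ∞) ∧
        ((2 * k : ℕ) : ℕ∞) < H.egirth ∧
        IsEmpty (G ≃g H) := by
  open Pool.Agent.H104Z.Tied in
  exact ⟨Cardinal.aleph0, 2, by norm_num, ℕ, ℕ, lim good_pet, lim good_empty, lim_deg _,
    lim_ediam _, lim_egirth _, lim_deg _, lim_ediam _, lim_egirth _, not_iso⟩

end Pool.Agent.S09189
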