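import Pool.Statements.S09234
import Pool.Agent.H497Z.Domatic

set_option autoImplicit false
open Pool Pool.MP_65fa9f_co

namespace Pool.Agent.S09234

/-- The negation of the preceding statement: For finite graphs G, H without isolated vertices: if G□H splits into k dominating sets, then for some j, G or H splits into j dominating sets and k ≤ 2j+1; i.e. d(G□H) ≤ 2max(d(G),d(H))+1. -/
theorem result :
    ¬ (∀ (V W : Type) [Fintype V] [Fintype W] (G : SimpleGraph V) (H : SimpleGraph W),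
      (∀ v, ∃ u, G.Adj v u) → (∀ w, ∃ x, H.Adj w x) →
      ∀ k : ℕ,
        (∃ f : V × W → Fin k, ∀ (i : Fin k) (p : V × W),
            f p = i ∨ ∃ q, (G.boxProd H).Adj p q ∧ f q = i) →
        ∃ j : ℕ,
          ((∃ g : V → Fin j, ∀ (i : Fin j) (v : V), g v = i ∨ ∃ u, G.Adj v u ∧ g u = i) ∨
           (∃ h : W → Fin j, ∀ (i : Fin j) (w : W), h w = i ∨ ∃ x, H.Adj w x ∧ h x = i)) ∧
          k ≤ 2 * j + 1) := by
  intro h
  obtain ⟨m, hc, hm⟩ := h H497Z.Domatic.V H497Z.Domatic.V H497Z.Domatic.G H497Z.Domatic.G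
    H497Z.Domatic.no_isolated H497Z.Domatic.no_isolated 8
    ⟨H497Z.Domatic.col, fun i p => Or.inr (H497Z.Domatic.total p i)⟩
  have h3 : m ≤ 3 := by
    rcases hc with ⟨c, hc⟩ | ⟨c, hc⟩ <;>
    · refine H497Z.Domatic.dom_le m c (fun v i => ?_)
      rcases hc i v with h1 | ⟨u, hu, h1⟩
      · exact ⟨v, Or.inl rfl, h1⟩
      · exact ⟨u, Or.inr hu, h1⟩
  omega

end Pool.Agent.S09234
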