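import Pool.Statements.S09237
import Pool.Agent.H541Z.Ini2

set_option autoImplicit false
open Pool Pool.MP_661cb5_co

namespace Pool.Agent.S09237

/-- For every finite colouring of ℕ there is a sequence of positive integers y₀,y₁,… with every sum a₀y₀+…+a_{k−1}y_{k−1} the same colour, for any k≥1, all aᵢ∈{1,2} and first and last coefficient equal to 1. -/
theorem result :
    ∀ (r : ℕ) (c : ℕ → Fin r), ∃ y : ℕ → ℕ, (∀ n, 0 < y n) ∧ ∃ col : Fin r,
      ∀ k : ℕ, 1 ≤ k → ∀ a : ℕ → ℕ, (∀ i, a i = 1 ∨ a i = 2) → a 0 = 1 → a (k - 1) = 1 →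
        c (∑ i ∈ Finset.range k, a i * y i) = col := by
  intro r c
  obtain ⟨y, hy, col, h⟩ := Pool.Agent.H541Z.Ini.main_int (fun m : ℤ => c m.toNat)
  refine ⟨fun n => (y n).toNat, fun n => ?_, col, fun k hk a ha ha0 hak => ?_⟩
  · have := hy n
    simp only
    omega
  · obtain ⟨k, rfl⟩ : ∃ j, k = j + 1 := ⟨k - 1, by omega⟩
    have h2 := h k (fun i => (a i : ℤ))
      (fun i => by rcases ha i with h | h <;> simp [h]) (by simp [ha0])
      (by simpa using hak)
    rw [← h2]
    congr 1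
    have h3 : ∑ i ∈ Finset.range (k + 1), (a i : ℤ) * y i
        = ((∑ i ∈ Finset.range (k + 1), a i * (y i).toNat : ℕ) : ℤ) := by
      push_cast
      refine Finset.sum_congr rfl fun i _ => ?_
      rw [Int.toNat_of_nonneg (hy i).le]
    rw [h3, Int.toNat_natCast]

end Pool.Agent.S09237
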