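import Pool.Statements.S09281
import Pool.Agent.H404Z.Disc.Main

set_option autoImplicit false
open Pool Pool.MP_69459d_co

namespace Pool.Agent.S09281

/-- There is c > 1 such that for infinitely many n some n×n ±1 matrix A has, for every ±1 vector x, a coordinate of Ax with absolute value at least c times the square root of n. -/
theorem result :
    ∃ c : ℝ, 1 < c ∧ ∀ N : ℕ, ∃ n : ℕ, N ≤ n ∧
      ∃ A : Matrix (Fin n) (Fin n) ℤ, (∀ i j, A i j = 1 ∨ A i j = -1) ∧
        ∀ x : Fin n → ℤ, (∀ j, x j = 1 ∨ x j = -1) →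
          ∃ i : Fin n, c * Real.sqrt (n : ℝ) ≤ |(((Matrix.mulVec A x) i : ℤ) : ℝ)| := by
  exact ⟨1 + 1 / 17179869184, by norm_num, Pool.Agent.H404Z.Disc.final⟩

end Pool.Agent.S09281
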