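import Pool.Statements.S09396
import Pool.Agent.H294Z.Schur.Flat3

set_option autoImplicit false
open Classical
open Pool Pool.MP_6f0325_co

namespace Pool.Agent.S09396

/-- The negation of the preceding statement: For all positive n, r and every N, the N-variable chromatic symmetric function of the incomparability graph of the product of r n-element chains, times the Vandermonde, has nonnegative coefficients on strictly decreasing exponents, i.e. is Schur positive. -/
theorem result :
    ¬ (∀ n r N : ℕ, 0 < n → 0 < r →
      ∀ α : Fin N →₀ ℕ, StrictAnti (⇑α) →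
        0 ≤ MvPolynomial.coeff α
          ((∑ c ∈ (Finset.univ : Finset ((Fin r → Fin n) → Fin N)).filter
                (fun c => ∀ u v : Fin r → Fin n, ¬ u ≤ v → ¬ v ≤ u → c u ≠ c v),
              ∏ v : Fin r → Fin n, (MvPolynomial.X (c v) : MvPolynomial (Fin N) ℤ)) *
            ∏ p ∈ (Finset.univ : Finset (Fin N × Fin N)).filter (fun p => p.1 < p.2),
              (MvPolynomial.X p.1 - MvPolynomial.X p.2 : MvPolynomial (Fin N) ℤ))) := by
  intro h
  refine absurd (h 13 2 14 (by norm_num) (by norm_num)
    (Finsupp.equivFunOnFinite.symm Pool.Agent.H294Z.Schur.al) ?_) (not_le.2 ?_)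
  · have : StrictAnti Pool.Agent.H294Z.Schur.al := by decide
    exact this
  · have key := Pool.Agent.H294Z.Schur.main
      ((Finset.univ : Finset ((Fin 2 → Fin 13) → Fin 14)).filter
        (fun c => ∀ u v : Fin 2 → Fin 13, ¬ u ≤ v → ¬ v ≤ u → c u ≠ c v))
      (fun c => by
        simp only [Finset.mem_filter, Finset.mem_univ, true_and]
        exact Iff.rfl)
    convert key

end Pool.Agent.S09396
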