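import Pool.Statements.S09513
import Pool.Agent.H33Z.SimMain

set_option autoImplicit false
open Pool Pool.MP_743f82_co

namespace Pool.Agent.S09513

/-- Some n and some isomorphism-closed family of nonempty edge sets of K_n give an avoidance game (alternately claim edges, owning a whole line loses, full board is a draw) in which the first player can force the second player to lose. -/
theorem result :
  ∃ (n : ℕ) (L : Set (Finset (Sym2 (Fin n)))),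
    (∀ ℓ ∈ L, ℓ.Nonempty ∧ ∀ x ∈ ℓ, ¬ x.IsDiag) ∧
    (∀ σ : Equiv.Perm (Fin n), ∀ ℓ ∈ L, ℓ.image (Sym2.map ⇑σ) ∈ L) ∧
    ∃ W : Set (Finset (Sym2 (Fin n)) × Finset (Sym2 (Fin n))),
      ((∅ : Finset (Sym2 (Fin n))), (∅ : Finset (Sym2 (Fin n)))) ∈ W ∧
      ∀ p ∈ W,
        (p.1.card = p.2.card →
          ∃ e : Sym2 (Fin n), ¬ e.IsDiag ∧ e ∉ p.1 ∧ e ∉ p.2 ∧
            (∀ ℓ ∈ L, ¬ ℓ ⊆ insert e p.1) ∧ (insert e p.1, p.2) ∈ W) ∧
        (p.1.card = p.2.card + 1 →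
          (∃ e : Sym2 (Fin n), ¬ e.IsDiag ∧ e ∉ p.1 ∧ e ∉ p.2) ∧
          ∀ e : Sym2 (Fin n), ¬ e.IsDiag → e ∉ p.1 → e ∉ p.2 →
            (∃ ℓ ∈ L, ℓ ⊆ insert e p.2) ∨ (p.1, insert e p.2) ∈ W) :=
  Pool.Agent.H33Z.Sim.main

end Pool.Agent.S09513
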