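import Pool.Statements.S09515
import Pool.Agent.H401Z.CS.DCT
import Pool.Agent.H401Z.CS.DFlip
import Pool.Agent.H401Z.CS.DTree
import Pool.Agent.H401Z.CS.DGad
import Pool.Agent.H401Z.CS.Sphere

set_option autoImplicit false
open Pool Pool.MP_7470ba_co
open Pool.Agent.H401Z.CS

namespace Pool.Agent.S09515

/-- For some d there is a finite pure d-dimensional simplicial complex whose realization is homeomorphic to the d-sphere, which is constructible, and whose facets admit no shelling order. -/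
theorem result :
  ∃ (d n : ℕ) (F : Finset (Finset (Fin n))),
    (∀ σ ∈ F, σ.card = d + 1) ∧
    Nonempty ({x : Fin n → ℝ | (∀ i, 0 ≤ x i) ∧ ∑ i, x i = 1 ∧
        ∃ σ ∈ F, ∀ i, x i ≠ 0 → i ∈ σ} ≃ₜ
      Metric.sphere (0 : EuclideanSpace ℝ (Fin (d + 1))) 1) ∧
    (∀ P : ℕ → Finset (Finset (Fin n)) → Prop,
      (∀ σ : Finset (Fin n), P σ.card {σ}) →
      (∀ (k : ℕ) (F₁ F₂ G : Finset (Finset (Fin n))), 1 ≤ k →
        (∀ σ ∈ F₁, σ.card = k) → (∀ σ ∈ F₂, σ.card = k) → P k F₁ → P k F₂ →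
        (∀ γ ∈ G, γ.card = k - 1) →
        (∀ ρ : Finset (Fin n), (∃ γ ∈ G, ρ ⊆ γ) ↔
          (∃ σ ∈ F₁, ∃ τ ∈ F₂, ρ ⊆ σ ∧ ρ ⊆ τ)) →
        P (k - 1) G → P k (F₁ ∪ F₂)) →
      P (d + 1) F) ∧
    ¬ ∃ L : List (Finset (Fin n)), L.Nodup ∧ L.toFinset = F ∧
      ∀ i j : Fin L.length, i < j → ∃ k : Fin L.length, k < j ∧
        L.get i ∩ L.get j ⊆ L.get k ∩ L.get j ∧ (L.get j \ L.get k).card = 1 := by
  have h4 : ∀ F ∈ dcL (fl SB), F.card = 4 := by
    rw [← ct_fac]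
    exact (constr_of (P := fun _ _ => True) ⟨fun _ => trivial, fun _ _ _ _ _ _ _ _ _ _ _ _ => trivial⟩
      ctAll ct_ok).1
  refine ⟨3, 174, dcL (fl SB), h4, ?_, ?_, ?_⟩
  · obtain ⟨e1⟩ := col_homeo mgAll SB S0 SB_ok mg_ok
    obtain ⟨e2⟩ := chain_homeo (I := 2 ^ 173 - 1) (τ := 0) ∅ (by simp) _ _ _ fin_ok
    rw [Finset.union_empty, Finset.union_empty] at e2
    obtain ⟨e3⟩ := sp_bd4
    obtain ⟨e4⟩ := bd4_sphere
    exact ⟨(Homeomorph.setCongr (Set.ext fun x => (sp_iff (dcL (fl SB)) x).symm)).trans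
      (e1.trans (e2.trans (e3.trans e4)))⟩
  · intro P h1 h2
    rw [← ct_fac]
    exact (constr_of ⟨h1, h2⟩ ctAll ct_ok).2
  · rintro ⟨L, hnd, hL, hsh⟩
    have hnb := nb_of SB_eq SB_ok nb_ok
    refine no_shell (shell_of_index L hsh) (List.nodup_reverse.2 hnd) (fun F => ?_) h4 conn0
      (cell_of SB_ok h4 hnb cell0_ok gad0_ok) (cell_of SB_ok h4 hnb cell1_ok gad1_ok)
      (cell_of SB_ok h4 hnb cell2_ok gad2_ok) ?_ ?_ ?_
    · rw [List.mem_reverse, ← hL, List.mem_toFinset]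
    · rw [← dc_lor]
      exact disj_of_land d01
    · rw [← dc_lor]
      exact disj_of_land d02
    · rw [← dc_lor]
      exact disj_of_land d12

end Pool.Agent.S09515
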