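import Pool.Statements.S09529
import Pool.Agent.H2Z.WSa
import Pool.Agent.H2Z.WSc

set_option autoImplicit false
open Classical
open Pool Pool.MP_74f948_co

namespace Pool.Agent.S09529

/-- For 2 ≤ k ≤ n−2, the geometric realization of the flag complex of pairwise weakly separated k-subsets of {0..n−1}, with cyclic intervals removed, is homotopy equivalent to the (n−4)-sphere. -/
theorem result :
    ∀ k n : ℕ, 2 ≤ k → k + 2 ≤ n →
      ∀ W : Finset (Finset ℕ),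
        W = (Finset.range n).powerset.filter
              (fun S => S.card = k ∧
                ¬ ∃ i, i < n ∧ S = (Finset.range k).image (fun j => (i + j) % n)) →
        Nonempty (ContinuousMap.HomotopyEquiv
          {x : (↥W → ℝ) //
            (∀ v, 0 ≤ x v) ∧ (∑ v, x v) = 1 ∧
            ∀ v w : ↥W, x v ≠ 0 → x w ≠ 0 →
              ¬ ∃ a b c d : ℕ, a < b ∧ b < c ∧ c < d ∧
                ((a ∈ v.1 \ w.1 ∧ b ∈ w.1 \ v.1 ∧ c ∈ v.1 \ w.1 ∧ d ∈ w.1 \ v.1) ∨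
                 (a ∈ w.1 \ v.1 ∧ b ∈ v.1 \ w.1 ∧ c ∈ w.1 \ v.1 ∧ d ∈ v.1 \ w.1))}
          (Metric.sphere (0 : EuclideanSpace ℝ (Fin (n - 3))) 1)) := by
  intro k n hk hn W hW
  have mW : ∀ S, S ∈ W ↔ S ⊆ Finset.range n ∧ S.card = k ∧
      ¬ ∃ i, i < n ∧ S = (Finset.range k).image (fun j => (i + j) % n) := by
    intro S
    rw [hW, Finset.mem_filter, Finset.mem_powerset]
  obtain ⟨zz, z1, z2, z3⟩ : ∃ zz : Fin (n - 3 + 1) → ℕ, (∀ i, zz i < n ∧ zz i ≠ 0 ∧ zz i ≠ k) ∧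
      (∀ i j, zz i = zz j → i = j) ∧ ∀ z, z < n → z ≠ 0 → z ≠ k → ∃ i, zz i = z := by
    refine ⟨fun i => if i.1 + 1 < k then i.1 + 1 else i.1 + 2, fun i => ?_, fun i j h => ?_,
      fun z h1 h2 h3 => ?_⟩
    · have := i.2
      dsimp only
      split_ifs <;> omega
    · apply Fin.ext
      dsimp only at h
      split_ifs at h <;> omega
    · by_cases h : z < k
      · refine ⟨⟨z - 1, by omega⟩, ?_⟩
        dsimp only
        split_ifs <;> omega
      · refine ⟨⟨z - 2, by omega⟩, ?_⟩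
        dsimp only
        split_ifs <;> omega
  have hbad : ∀ (J : Finset ℕ) z, H2Z.WS.Bad (Finset.range n) k J z → z ≠ 0 ∧ z ≠ k := by
    rintro J z (⟨b1, -, ⟨u, -, u2, -⟩, -⟩ | ⟨b1, -⟩) <;> omega
  refine H2Z.WS.nerve (V := ↥W) (adj := fun v w => ¬ H2Z.WS.Alt v.1 w.1) (m := n - 3)
    (fun v i => H2Z.WS.Bad (Finset.range n) k v.1 (zz i)) ?_ ?_ ?_
  · intro v
    obtain ⟨v1, v2, v3⟩ := (mW v.1).1 v.2
    by_contra hne
    refine v3 (H2Z.WS.cyc_of_not_bad (by omega) (by omega) v1 v2 fun z hz hb => ?_)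
    obtain ⟨i, rfl⟩ := z3 z hz (hbad _ _ hb).1 (hbad _ _ hb).2
    exact hne ⟨i, hb⟩
  · intro C hC
    obtain ⟨z, a1, a2, a3, a4⟩ := H2Z.WS.cover n (Finset.range n) k (Finset.card_range n)
      (Finset.mem_range.2 (by omega)) (Finset.mem_range.2 (by omega)) (by omega) (by omega)
      (Subtype.val '' C)
      (by
        rintro _ ⟨v, -, rfl⟩
        obtain ⟨v1, v2, -⟩ := (mW v.1).1 v.2
        refine ⟨v1, ?_⟩
        have : (Finset.range n).filter (· < k) = Finset.range k := by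
          ext a
          simp only [Finset.mem_filter, Finset.mem_range]
          omega
        rw [this, Finset.card_range, v2])
      (by
        rintro _ ⟨v, hv, rfl⟩ _ ⟨w, hw, rfl⟩
        exact hC v hv w hw)
    obtain ⟨i, rfl⟩ := z3 z (Finset.mem_range.1 a1) a2 a3
    exact ⟨i, fun v hv => a4 v.1 ⟨v, hv, rfl⟩⟩
  · intro R
    obtain ⟨K, k1, k2, k3, k4, k5, r, k6, k7⟩ := H2Z.WS.exists_cone hk hn
      (fun z => ∃ i, i ∉ R.1 ∧ zz i = z)
      (by
        obtain ⟨i, hi⟩ := R.2.2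
        exact ⟨zz i, (z1 i).1, (z1 i).2.1, (z1 i).2.2, i, Finset.mem_compl.1 hi, rfl⟩)
      (by
        obtain ⟨i, hi⟩ := R.2.1
        refine ⟨zz i, (z1 i).1, (z1 i).2.1, (z1 i).2.2, ?_⟩
        rintro ⟨j, hj, e⟩
        exact hj (z2 j i e ▸ hi))
    have hK : K ∈ W := by
      refine (mW K).2 ⟨k1, k2, ?_⟩
      rintro ⟨i, hi, rfl⟩
      exact H2Z.WS.cyc_not_bad hi (by omega) k6 k7
    refine ⟨⟨K, hK⟩, fun i hi => ?_, fun v hv => ?_⟩
    · by_contra hR
      exact k5 (zz i) (z1 i).1 ⟨i, hR, rfl⟩ hi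
    · have : ¬ H2Z.WS.Alt K v.1 := by
        refine H2Z.WS.not_alt_cone (by omega) _ k1 k3 k4 ?_
        rintro _ - ⟨i, hi, rfl⟩ hb
        exact hi (hv i hb)
      exact ⟨this, fun h => this h.symm⟩

end Pool.Agent.S09529
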