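import Pool.Statements.S09535
import Pool.Agent.H32Z.Bal.Main

set_option autoImplicit false
open Pool Pool.MP_753ad3_co

namespace Pool.Agent.S09535

/-- For every colouring of the naturals with finitely many colours there are positive a,b,c,d such that all eight numbers (a op b) op (c op d), each op being + or ×, get the same colour. -/
theorem result :
    ∀ (k : ℕ) (χ : ℕ → Fin k), ∃ a b c d : ℕ, 0 < a ∧ 0 < b ∧ 0 < c ∧ 0 < d ∧
      χ ((a + b) + (c * d)) = χ ((a + b) + (c + d)) ∧
      χ ((a * b) + (c + d)) = χ ((a + b) + (c + d)) ∧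
      χ ((a * b) + (c * d)) = χ ((a + b) + (c + d)) ∧
      χ ((a + b) * (c + d)) = χ ((a + b) + (c + d)) ∧
      χ ((a + b) * (c * d)) = χ ((a + b) + (c + d)) ∧
      χ ((a * b) * (c + d)) = χ ((a + b) + (c + d)) ∧
      χ ((a * b) * (c * d)) = χ ((a + b) + (c + d)) := by
  intro k χ
  obtain ⟨a, b, c, d, ha, hb, hc, hd, j, h1, h2, h3, h4, h5, h6, h7, h8⟩ :=
    Pool.Agent.H32Z.Bal.pat fun z : ℤ => χ z.toNat
  lift a to ℕ using ha.le
  lift b to ℕ using hb.le
  lift c to ℕ using hc.le
  lift d to ℕ using hd.le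
  simp only [← Nat.cast_add, ← Nat.cast_mul, Int.toNat_natCast] at h1 h2 h3 h4 h5 h6 h7 h8
  exact ⟨a, b, c, d, by exact_mod_cast ha, by exact_mod_cast hb, by exact_mod_cast hc,
    by exact_mod_cast hd, h2.trans h1.symm, h3.trans h1.symm, h4.trans h1.symm, h5.trans h1.symm,
    h6.trans h1.symm, h7.trans h1.symm, h8.trans h1.symm⟩

end Pool.Agent.S09535
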