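import Pool.Statements.S09545
import Pool.Agent.H484Z.SG.Cx

set_option autoImplicit false
open Matrix
open Pool Pool.MP_75cc19_co

namespace Pool.Agent.S09545

/-- There is a finite set of at least 3 lines in the complex projective plane, every pairwise intersection point lying on a third line, that is not a pencil, not projectively a Fermat arrangement, and not the involution-axis set of a PSL(2,7) or A6 subgroup of PGL3. -/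
theorem result :
  ∃ A : Set (Submodule ℂ (Fin 3 → ℂ)),
    A.Finite ∧ 3 ≤ A.ncard ∧
    (∀ ℓ ∈ A, Module.finrank ℂ ℓ = 2) ∧
    (∀ ℓ₁ ∈ A, ∀ ℓ₂ ∈ A, ℓ₁ ≠ ℓ₂ → ∀ p : Submodule ℂ (Fin 3 → ℂ),
        Module.finrank ℂ p = 1 → p ≤ ℓ₁ → p ≤ ℓ₂ →
          ∃ ℓ₃ ∈ A, ℓ₃ ≠ ℓ₁ ∧ ℓ₃ ≠ ℓ₂ ∧ p ≤ ℓ₃) ∧
    ¬ (∃ p : Submodule ℂ (Fin 3 → ℂ), Module.finrank ℂ p = 1 ∧ ∀ ℓ ∈ A, p ≤ ℓ) ∧
    (∀ r : ℕ, 1 ≤ r → ∀ g : (Fin 3 → ℂ) ≃ₗ[ℂ] (Fin 3 → ℂ),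
      A ≠ Submodule.map g.toLinearMap ''
        {ℓ : Submodule ℂ (Fin 3 → ℂ) | Module.finrank ℂ ℓ = 2 ∧
          ∃ ζ : ℂ, ζ ^ r = 1 ∧
            ((∀ x ∈ ℓ, x 0 = ζ * x 1) ∨ (∀ x ∈ ℓ, x 0 = ζ * x 2) ∨
              (∀ x ∈ ℓ, x 1 = ζ * x 2))}) ∧
    (∀ K : Subgroup (GL (Fin 3) ℂ ⧸ Subgroup.center (GL (Fin 3) ℂ)),
      Nonempty (K ≃* GL (Fin 3) (ZMod 2)) →
      A ≠ {ℓ : Submodule ℂ (Fin 3 → ℂ) | Module.finrank ℂ ℓ = 2 ∧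
        ∃ g : GL (Fin 3) ℂ,
          (QuotientGroup.mk g : GL (Fin 3) ℂ ⧸ Subgroup.center (GL (Fin 3) ℂ)) ∈ K ∧
          g ^ 2 ∈ Subgroup.center (GL (Fin 3) ℂ) ∧
          g ∉ Subgroup.center (GL (Fin 3) ℂ) ∧
          ∃ c : ℂ, ∀ x ∈ ℓ, (g : Matrix (Fin 3) (Fin 3) ℂ) *ᵥ x = c • x}) ∧
    (∀ K : Subgroup (GL (Fin 3) ℂ ⧸ Subgroup.center (GL (Fin 3) ℂ)),
      Nonempty (K ≃* alternatingGroup (Fin 6)) →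
      A ≠ {ℓ : Submodule ℂ (Fin 3 → ℂ) | Module.finrank ℂ ℓ = 2 ∧
        ∃ g : GL (Fin 3) ℂ,
          (QuotientGroup.mk g : GL (Fin 3) ℂ ⧸ Subgroup.center (GL (Fin 3) ℂ)) ∈ K ∧
          g ^ 2 ∈ Subgroup.center (GL (Fin 3) ℂ) ∧
          g ∉ Subgroup.center (GL (Fin 3) ℂ) ∧
          ∃ c : ℂ, ∀ x ∈ ℓ, (g : Matrix (Fin 3) (Fin 3) ℂ) *ᵥ x = c • x}) := by
  obtain ⟨ζ, h⟩ := H484SG.exists_root
  refine ⟨Set.range (fun j => H484SG.Ln (H484SG.hv ζ j)), Set.finite_range _, ?_, ?_,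
    H484SG.no_double h, H484SG.not_pencil h, fun r _ g => H484SG.not_fermat h r g,
    fun K _ => H484SG.not_Ax h K, fun K _ => H484SG.not_Ax h K⟩
  · rw [Set.ncard_range_of_injective (H484SG.Ln_inj h)]
    simp
  · rintro _ ⟨j, rfl⟩
    exact H484SG.finrank_Ln (H484SG.hv_ne h j)

end Pool.Agent.S09545
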