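import Pool.Statements.S09562
import Pool.Agent.H70Z.CdVStress

set_option autoImplicit false
open Pool Pool.MP_765e2d_co

namespace Pool.Agent.S09562

/-- The negation of the preceding statement: For every finite graph G that is mu(G)-connected, the largest corank of a symmetric matrix that is negative on edges, zero on non-edges and has exactly one negative eigenvalue equals mu(G), the same maximum restricted to matrices with the Strong Arnold Property. -/
theorem result :
    ¬ (∀ (V : Type) [Fintype V] [DecidableEq V] (G : SimpleGraph V) (k : ℕ),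
    k = sSup {c : ℕ | ∃ M : Matrix V V ℝ, M.IsHermitian ∧
        (∀ i j, G.Adj i j → M i j < 0) ∧
        (∀ i j, i ≠ j → ¬ G.Adj i j → M i j = 0) ∧
        (∀ h : M.IsHermitian,
          (Finset.univ.filter (fun i => h.eigenvalues i < 0)).card = 1) ∧
        (∀ X : Matrix V V ℝ, X.IsSymm →
          (∀ i j, (i = j ∨ G.Adj i j) → X i j = 0) → M * X = 0 → X = 0) ∧
        c = Module.finrank ℝ (LinearMap.ker (Matrix.toLin' M))} →
    k < Fintype.card V →
    (∀ S : Finset V, S.card < k → (G.induce ((S : Set V)ᶜ)).Connected) →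
    sSup {c : ℕ | ∃ M : Matrix V V ℝ, M.IsHermitian ∧
        (∀ i j, G.Adj i j → M i j < 0) ∧
        (∀ i j, i ≠ j → ¬ G.Adj i j → M i j = 0) ∧
        (∀ h : M.IsHermitian,
          (Finset.univ.filter (fun i => h.eigenvalues i < 0)).card = 1) ∧
        c = Module.finrank ℝ (LinearMap.ker (Matrix.toLin' M))} = k) := by
  intro h
  have hup : sSup {c : ℕ | ∃ M : Matrix (Fin 12) (Fin 12) ℝ, M.IsHermitian ∧
        (∀ i j, Pool.Agent.H70Z.CdV.G0.Adj i j → M i j < 0) ∧
        (∀ i j, i ≠ j → ¬ Pool.Agent.H70Z.CdV.G0.Adj i j → M i j = 0) ∧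
        (∀ h : M.IsHermitian,
          (Finset.univ.filter (fun i => h.eigenvalues i < 0)).card = 1) ∧
        (∀ X : Matrix (Fin 12) (Fin 12) ℝ, X.IsSymm →
          (∀ i j, (i = j ∨ Pool.Agent.H70Z.CdV.G0.Adj i j) → X i j = 0) → M * X = 0 → X = 0) ∧
        c = Module.finrank ℝ (LinearMap.ker (Matrix.toLin' M))} ≤ 6 := by
    refine csSup_le' ?_
    rintro c ⟨M, _, h1, h2, _, h4, rfl⟩
    by_contra hc
    have hM : Pool.Agent.H70Z.CdV.Pat M :=
      ⟨fun i j hij => (h1 i j hij).ne, fun i j hij => h2 i j hij.1 (fun ha => ha.2 hij.2)⟩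
    obtain ⟨X, x1, x2, x3, x4⟩ := Pool.Agent.H70Z.CdV.stress M hM (by omega)
    exact x4 (h4 X x1 x2 x3)
  have h1 := h (Fin 12) Pool.Agent.H70Z.CdV.G0 _ rfl
    (lt_of_le_of_lt hup (by simp))
    (fun S hS => Pool.Agent.H70Z.CdV.connected S (lt_of_lt_of_le hS hup))
  have hlow : 7 ≤ sSup {c : ℕ | ∃ M : Matrix (Fin 12) (Fin 12) ℝ, M.IsHermitian ∧
        (∀ i j, Pool.Agent.H70Z.CdV.G0.Adj i j → M i j < 0) ∧
        (∀ i j, i ≠ j → ¬ Pool.Agent.H70Z.CdV.G0.Adj i j → M i j = 0) ∧
        (∀ h : M.IsHermitian,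
          (Finset.univ.filter (fun i => h.eigenvalues i < 0)).card = 1) ∧
        c = Module.finrank ℝ (LinearMap.ker (Matrix.toLin' M))} := by
    refine le_trans Pool.Agent.H70Z.CdV.MR_corank (le_csSup ⟨12, ?_⟩ ?_)
    · rintro c ⟨M, _, _, _, _, rfl⟩
      have := (LinearMap.ker (Matrix.toLin' M)).finrank_le
      simpa using this
    · refine ⟨Pool.Agent.H70Z.CdV.MR, Pool.Agent.H70Z.CdV.MR_herm, fun i j hij => ?_,
        fun i j hij hn => ?_, Pool.Agent.H70Z.CdV.MR_one_neg, rfl⟩
      · have h2 := lt_of_le_of_ne (Pool.Agent.H70Z.CdV.M0_nonpos i j hij.1) hij.2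
        simp only [Pool.Agent.H70Z.CdV.MR]
        exact_mod_cast h2
      · have h2 : Pool.Agent.H70Z.CdV.M0 i j = 0 := by
          by_contra h3
          exact hn ⟨hij, h3⟩
        simp only [Pool.Agent.H70Z.CdV.MR]
        exact_mod_cast h2
  omega

end Pool.Agent.S09562
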