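import Pool.Statements.S09587
import Pool.Agent.H459Z.Final

set_option autoImplicit false
open Pool Pool.MP_778a07_co

namespace Pool.Agent.S09587

/-- For every k there is a function f such that every finite graph of sim-width at most k (subcubic branch decomposition, crossing induced matchings of size ≤ k) has chromatic number at most f of its clique number. -/
theorem result :
  ∀ k : ℕ, ∃ f : ℕ → ℕ, ∀ (n : ℕ) (G : SimpleGraph (Fin n)),
    (∃ (m : ℕ) (T : SimpleGraph (Fin m)) (L : Fin n → Fin m),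
      T.IsTree ∧ (∀ x, (T.neighborSet x).ncard ≤ 3) ∧ Function.Injective L ∧
      (∀ x, (T.neighborSet x).ncard ≤ 1 ↔ x ∈ Set.range L) ∧
      ∀ u w : Fin m, T.Adj u w → ∀ (t : ℕ) (a b : Fin t → Fin n),
        Function.Injective a → Function.Injective b →
        (∀ i, (T.deleteEdges {s(u, w)}).Reachable u (L (a i))) →
        (∀ i, ¬ (T.deleteEdges {s(u, w)}).Reachable u (L (b i))) →
        (∀ i, G.Adj (a i) (b i)) →
        (∀ i j, i ≠ j → ¬ G.Adj (a i) (a j) ∧ ¬ G.Adj (b i) (b j) ∧ ¬ G.Adj (a i) (b j)) →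
        t ≤ k) →
    G.chromaticNumber ≤ ((f G.cliqueNum : ℕ) : ℕ∞) := by
  intro k
  obtain ⟨f, hf⟩ := Pool.Agent.H459Z.dec_chromatic k
  refine ⟨f, fun n G ⟨m, T, L, h1, h2, h3, _, h4⟩ => hf n G ⟨m, T, L, h1, h2, h3, ?_⟩⟩
  intro u w huw t a b
  exact h4 u w huw t a b

end Pool.Agent.S09587
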