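import Pool.Statements.S09604
import Pool.Agent.H199Z.Plane

set_option autoImplicit false
open Pool Pool.MP_7836df_co

namespace Pool.Agent.S09604

/-- The negation of the preceding statement: For k≥t≥2 there is c such that every s(k−t+1)-colouring of the k-sets of an n-set admits at most s monochromatic t-tight Berge-cycles with pairwise disjoint cores covering all but at most c vertices. -/
theorem result :
    ¬ (∀ s k t : ℕ, 2 ≤ t → t ≤ k → ∃ c : ℕ, ∀ n : ℕ,
      ∀ χ : Finset (Fin n) → Fin (s * (k - t + 1)),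
        ∃ m : ℕ, m ≤ s ∧ ∃ C : Fin m → Finset (Fin n),
          (∀ j : Fin m, ∃ (ℓ : ℕ) (v : ℕ → Fin n) (e : ℕ → Finset (Fin n))
              (col : Fin (s * (k - t + 1))),
              Set.InjOn v (Set.Iio ℓ) ∧ Set.InjOn e (Set.Iio ℓ) ∧
              (∀ i : ℕ, v (i + ℓ) = v i) ∧
              (∀ i : ℕ, i < ℓ →
                (e i).card = k ∧ χ (e i) = col ∧ ∀ p : ℕ, p < t → v (i + p) ∈ e i) ∧
              C j = (Finset.range ℓ).image v) ∧
          (∀ i j : Fin m, i ≠ j → Disjoint (C i) (C j)) ∧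
          (Finset.univ \ Finset.univ.biUnion C).card ≤ c) := by
  intro h
  obtain ⟨c, hc⟩ := h 6 2 2 le_rfl le_rfl
  obtain ⟨n, part, hpart, hfib⟩ := Pool.Agent.H199Z.Plane.exists_part (c + 7)
  obtain ⟨m, hm, C, hC, hdisj, hcard⟩ :=
    hc n fun e => ⟨Pool.Agent.H199Z.Plane.chi part e, Pool.Agent.H199Z.Plane.chi_lt part e⟩
  refine absurd hcard (not_le.2 (Pool.Agent.H199Z.Plane.bound c part hpart hfib
    (by simpa using hm) C hdisj fun j => ?_))
  obtain ⟨ℓ, v, e, col, hv, _, _, he, hCj⟩ := hC j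
  rw [hCj]
  refine Pool.Agent.H199Z.Plane.path_data part hpart ℓ v col col.2 hv fun i hi => ?_
  obtain ⟨h1, h2, h3⟩ := he i (by omega)
  have hne : v i ≠ v (i + 1) := fun hh => by
    have := hv (show i ∈ Set.Iio ℓ from (by omega : i < ℓ)) (show i + 1 ∈ Set.Iio ℓ from hi) hh
    omega
  rw [← Pool.Agent.H199Z.Plane.chi_eq part hpart (e i) h1 hne (h3 0 (by norm_num))
    (h3 1 (by norm_num)), ← h2]

end Pool.Agent.S09604
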