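import Pool.Statements.S09654
import Pool.Agent.H601Z.PatD

set_option autoImplicit false
open Pool Pool.MP_7ad145_co

namespace Pool.Agent.S09654

/-- The negation of the preceding statement: Fix r,k≥2, a linear k-graph F with ex(n,F)=o(n^k), and a pattern of F with t≥3 classes. For large n, no n-vertex k-graph has more r-edge-colourings avoiding F in that pattern than the complete k-graph, with equality only for it. -/
theorem result :
    ¬ (∀ (r k m t : ℕ), 2 ≤ r → 2 ≤ k → 3 ≤ t →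
  ∀ (F : Finset (Finset (Fin m))),
    (∀ e ∈ F, e.card = k) →
    (∀ e ∈ F, ∀ e' ∈ F, e ≠ e' → (e ∩ e').card ≤ 1) →
    (∀ ε : ℝ, 0 < ε → ∃ N : ℕ, ∀ n : ℕ, N ≤ n → ∀ H : Finset (Finset (Fin n)),
       (∀ e ∈ H, e.card = k) →
       (¬ ∃ φ : Fin m → Fin n, Function.Injective φ ∧ ∀ e ∈ F, e.image φ ∈ H) →
       (H.card : ℝ) ≤ ε * (n : ℝ) ^ k) →
    ∀ (p : Finset (Fin m) → Fin t), (∀ i : Fin t, ∃ e ∈ F, p e = i) →
    ∃ n₀ : ℕ, ∀ n : ℕ, n₀ ≤ n →
      ∀ C : Finset (Finset (Fin n)) → ℕ,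
        (∀ H : Finset (Finset (Fin n)),
          C H = Nat.card {c : Finset (Fin n) → Option (Fin r) //
            (∀ e : Finset (Fin n), c e = none ↔ e ∉ H) ∧
            ¬ ∃ φ : Fin m → Fin n, Function.Injective φ ∧
                (∀ e ∈ F, e.image φ ∈ H) ∧
                (∀ e ∈ F, ∀ e' ∈ F,
                  (c (e.image φ) = c (e'.image φ) ↔ p e = p e'))}) →
        ∀ H : Finset (Finset (Fin n)), (∀ e ∈ H, e.card = k) →
          C H ≤ C (Finset.powersetCard k (Finset.univ : Finset (Fin n))) ∧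
          (C H = C (Finset.powersetCard k (Finset.univ : Finset (Fin n))) ↔
            H = Finset.powersetCard k (Finset.univ : Finset (Fin n)))) := by
  intro h
  have h1 := h 3 2 16 3 (by norm_num) le_rfl le_rfl H601Z.Pat.F
    (by
      intro e he
      obtain ⟨i, rfl⟩ := H601Z.Pat.mem_F.1 he
      exact H601Z.Pat.edge_card i)
    (by
      intro e he e' he' hne
      obtain ⟨i, rfl⟩ := H601Z.Pat.mem_F.1 he
      obtain ⟨j, rfl⟩ := H601Z.Pat.mem_F.1 he'
      exact H601Z.Pat.edge_inter i j hne)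
    (by
      intro ε hε
      obtain ⟨N, hN⟩ := exists_nat_ge (14 / ε)
      refine ⟨N, fun n hn H hH hF => ?_⟩
      have h2 := H601Z.Pat.ex_linear H hH hF
      rw [Fintype.card_fin] at h2
      have h3 : (H.card : ℝ) ≤ 14 * n := by exact_mod_cast h2
      have h4 : (N : ℝ) ≤ n := by exact_mod_cast hn
      have h5 : 14 ≤ ε * n := by
        rw [div_le_iff₀ hε] at hN
        nlinarith
      have h6 : (0 : ℝ) ≤ n := Nat.cast_nonneg n
      nlinarith)
    H601Z.Pat.pat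
    (by
      intro i
      fin_cases i
      · exact ⟨_, H601Z.Pat.mem_F.2 ⟨0, rfl⟩, H601Z.Pat.pat_edge 0⟩
      · exact ⟨_, H601Z.Pat.mem_F.2 ⟨3, rfl⟩, H601Z.Pat.pat_edge 3⟩
      · exact ⟨_, H601Z.Pat.mem_F.2 ⟨9, rfl⟩, H601Z.Pat.pat_edge 9⟩)
  obtain ⟨n₀, hn₀⟩ := h1
  obtain ⟨n, ⟨hb, hn⟩, hn2⟩ := ((H601Z.Pat.beats.and (Filter.eventually_ge_atTop n₀)).and
    (Filter.eventually_ge_atTop 2)).exists
  have hab : (⟨0, by omega⟩ : Fin n) ≠ ⟨1, by omega⟩ := by simp
  have h2 := hn₀ n hn (fun H => H601Z.Pat.cnt H) (by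
    intro H
    classical
    unfold H601Z.Pat.cnt
    rw [Nat.card_eq_fintype_card, Fintype.card_subtype]
    congr) ((H601Z.Pat.KK (Fin n)).erase {⟨0, by omega⟩, ⟨1, by omega⟩}) (by
    intro e he
    have h3 := Finset.mem_of_mem_erase he
    exact (Finset.mem_powersetCard.1 h3).2)
  exact absurd h2.1 (not_le.2 (hb _ _ hab))

end Pool.Agent.S09654
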