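import Pool.Statements.S09659
import Pool.Agent.H889Z.CritMain

set_option autoImplicit false
open Pool Pool.MP_7b15fe_co

namespace Pool.Agent.S09659

/-- For every ℓ≥3 there is c>0 such that for every k≥4 there are arbitrarily large k-critical graphs with no isolated vertices, no odd cycle shorter than ℓ, and at least c·n² edges on n vertices. -/
theorem result :
    ∀ ℓ : ℕ, 3 ≤ ℓ → ∃ c : ℝ, 0 < c ∧ ∀ k : ℕ, 4 ≤ k → ∀ N : ℕ, ∃ n : ℕ, N ≤ n ∧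
      ∃ G : SimpleGraph (Fin n),
        G.chromaticNumber = (k : ℕ∞) ∧
        (∀ e ∈ G.edgeSet, (G.deleteEdges {e}).Colorable (k - 1)) ∧
        (∀ v : Fin n, ∃ w : Fin n, G.Adj v w) ∧
        (∀ (v : Fin n) (p : G.Walk v v), p.IsCycle → Odd p.length → ℓ ≤ p.length) ∧
        c * (n : ℝ) ^ 2 ≤ (Nat.card G.edgeSet : ℝ) := by
  intro l _
  obtain ⟨K3, h3⟩ := Pool.Agent.H889Z.Crit.core l 3 1 le_rfl le_rfl
  obtain ⟨K4, h4⟩ := Pool.Agent.H889Z.Crit.core l 4 1 le_rfl (by norm_num)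
  refine ⟨1 / ((3 + K3 + K4 : ℕ) : ℝ) ^ 2, by positivity, fun k hk N => ?_⟩
  obtain ⟨m, rfl⟩ : ∃ m, k = m + 1 := ⟨k - 1, by omega⟩
  rw [Nat.add_sub_cancel]
  have fin : ∀ (s : ℕ) (V : Type) [Fintype V] (G : SimpleGraph V) (S : Finset (Sym2 V)),
      Pool.Agent.H889Z.Crit.OG G l → ¬ G.Colorable m → (∀ e ∈ S, (G.deleteEdges {e}).Colorable m) →
      S.card = s * s → N ≤ s → Fintype.card V ≤ (3 + K3 + K4) * s →
      ∃ n : ℕ, N ≤ n ∧ ∃ G : SimpleGraph (Fin n),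
        G.chromaticNumber = ((m + 1 : ℕ) : ℕ∞) ∧
        (∀ e ∈ G.edgeSet, (G.deleteEdges {e}).Colorable m) ∧
        (∀ v : Fin n, ∃ w : Fin n, G.Adj v w) ∧
        (∀ (v : Fin n) (p : G.Walk v v), p.IsCycle → Odd p.length → l ≤ p.length) ∧
        1 / ((3 + K3 + K4 : ℕ) : ℝ) ^ 2 * (n : ℝ) ^ 2 ≤ (Nat.card G.edgeSet : ℝ) := by
    intro s V _ G S a1 a2 a3 a4 a5 a6
    refine Pool.Agent.H889Z.Crit.finish G l m N (by omega) (1 / ((3 + K3 + K4 : ℕ) : ℝ) ^ 2)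
      (by positivity) a1 a2 S a3 (by rw [a4]; exact Nat.mul_le_mul a5 a5) ?_
    have b1 : (Fintype.card V : ℝ) ≤ ((3 + K3 + K4 : ℕ) : ℝ) * s := by exact_mod_cast a6
    have b2 : (0 : ℝ) < ((3 + K3 + K4 : ℕ) : ℝ) := by positivity
    rw [a4, one_div, inv_mul_le_iff₀ (by positivity)]
    calc (Fintype.card V : ℝ) ^ 2 ≤ (((3 + K3 + K4 : ℕ) : ℝ) * s) ^ 2 := by gcongr
      _ = _ := by rw [Nat.cast_mul]; ring
  by_cases hm : 5 ≤ m
  · obtain ⟨K, hK⟩ := Pool.Agent.H889Z.Crit.core l m 2 (by norm_num) hm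
    obtain ⟨V, _, G, S, a1, a2, a3, a4, a5⟩ := hK (2 * (N + K + 1) + 1) ⟨_, rfl⟩ (by omega)
    refine fin _ V G S a1 a2 a3 a4 (by nlinarith) (a5.trans ?_)
    have : K ≤ 2 * (N + K + 1) + 1 := by omega
    generalize 2 * (N + K + 1) + 1 = M at *
    nlinarith [Nat.mul_le_mul_right M this, Nat.zero_le ((K3 + K4) * M ^ 2)]
  · have : m = 3 ∨ m = 4 := by omega
    rcases this with rfl | rfl
    · obtain ⟨V, _, G, S, a1, a2, a3, a4, a5⟩ := h3 (2 * (N + 1) + 1) ⟨_, rfl⟩ (by omega)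
      refine fin _ V G S a1 a2 a3 a4 (by rw [pow_one]; omega) (a5.trans ?_)
      generalize 2 * (N + 1) + 1 = M at *
      nlinarith [Nat.zero_le (K4 * M)]
    · obtain ⟨V, _, G, S, a1, a2, a3, a4, a5⟩ := h4 (2 * (N + 1) + 1) ⟨_, rfl⟩ (by omega)
      refine fin _ V G S a1 a2 a3 a4 (by rw [pow_one]; omega) (a5.trans ?_)
      generalize 2 * (N + 1) + 1 = M at *
      nlinarith [Nat.zero_le (K3 * M)]

end Pool.Agent.S09659
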