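import Pool.Statements.S09677
import Pool.Agent.H84Z.CY.Main

set_option autoImplicit false
open Pool Pool.MP_7c5d5d_co

namespace Pool.Agent.S09677

/-- For every k there are C and N such that every graph on n ≥ N vertices has an induced subgraph, obtained by deleting at most C√n vertices, in which at least k vertices attain the maximum degree. -/
theorem result :
    ∀ k : ℕ, ∃ C : ℝ, ∃ N : ℕ,
      ∀ (V : Type) [Fintype V] [DecidableEq V] (G : SimpleGraph V) [DecidableRel G.Adj],
        N ≤ Fintype.card V →
        ∃ S : Finset V,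
          (((Fintype.card V - S.card : ℕ) : ℝ) ≤ C * Real.sqrt (Fintype.card V)) ∧
          k ≤ (S.filter (fun v => ∀ w ∈ S,
                (S.filter (fun u => G.Adj w u)).card ≤ (S.filter (fun u => G.Adj v u)).card)).card := by
  intro k
  obtain ⟨C, N, h⟩ := Pool.Agent.H84Z.CY.caro_yuster k
  refine ⟨C, N, fun V _ _ G _ hN => ?_⟩
  obtain ⟨S, h1, h2⟩ := h V G hN
  exact ⟨S, h1, by unfold Pool.Agent.H84Z.CY.dg at h2; convert h2⟩

end Pool.Agent.S09677
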