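import Pool.Statements.S09684
import Pool.Agent.H598Z.K33.Six

set_option autoImplicit false
open Pool Pool.MP_7c785d_co

namespace Pool.Agent.S09684

/-- The negation of the preceding statement: Every finite graph with a K_6 minor (six disjoint connected vertex sets, pairwise joined by edges) has a triangle, or has K_{3,3} as an induced minor (six disjoint connected sets, joined by an edge exactly across the two sides of size three). -/
theorem result :
    ¬ (∀ (V : Type) [Fintype V] (G : SimpleGraph V),
      (∃ B : Fin 6 → Set V,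
          (∀ i, (G.induce (B i)).Connected) ∧
          (∀ i j, i ≠ j → Disjoint (B i) (B j)) ∧
          (∀ i j, i ≠ j → ∃ u ∈ B i, ∃ v ∈ B j, G.Adj u v)) →
      (∃ a b c : V, G.Adj a b ∧ G.Adj b c ∧ G.Adj a c) ∨
      (∃ B : Fin 6 → Set V,
          (∀ i, (G.induce (B i)).Connected) ∧
          (∀ i j, i ≠ j → Disjoint (B i) (B j)) ∧
          (∀ i j, i ≠ j →
            ((∃ u ∈ B i, ∃ v ∈ B j, G.Adj u v) ↔ ¬ (i.val < 3 ↔ j.val < 3))))) := by
  intro h
  rcases h _ Pool.Agent.H598Z.Six.G Pool.Agent.H598Z.Six.minor with h | h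
  · exact Pool.Agent.H598Z.Six.no_triangle h
  · exact Pool.Agent.H598Z.Six.no_induced h

end Pool.Agent.S09684
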