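import Pool.Statements.S09708
import Pool.Agent.H230Z.Queens

set_option autoImplicit false
open Pool Pool.MP_7e478a_co

namespace Pool.Agent.S09708

/-- The negation of the preceding statement: For every d ≥ 3 there is c > 0 such that, for all large n, every set of non-attacking queens on the n^d board of size at most n^(d-1)/c extends to a non-attacking set of maximum possible size. -/
theorem result :
    ¬ (∀ d : ℕ, 3 ≤ d → ∃ c : ℝ, 0 < c ∧ ∃ N : ℕ, ∀ n : ℕ, N ≤ n →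
      ∀ Q : Finset (Fin d → Fin n),
        (∀ x ∈ Q, ∀ y ∈ Q, ¬ ∃ t : ℤ, t ≠ 0 ∧ ∃ v : Fin d → ℤ, v ≠ 0 ∧
            (∀ i, v i = -1 ∨ v i = 0 ∨ v i = 1) ∧
            ∀ i, ((y i : ℕ) : ℤ) - ((x i : ℕ) : ℤ) = t * v i) →
        (Q.card : ℝ) ≤ (n : ℝ) ^ (d - 1) / c →
        ∃ P : Finset (Fin d → Fin n), Q ⊆ P ∧
          (∀ x ∈ P, ∀ y ∈ P, ¬ ∃ t : ℤ, t ≠ 0 ∧ ∃ v : Fin d → ℤ, v ≠ 0 ∧
            (∀ i, v i = -1 ∨ v i = 0 ∨ v i = 1) ∧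
            ∀ i, ((y i : ℕ) : ℤ) - ((x i : ℕ) : ℤ) = t * v i) ∧
          ∀ R : Finset (Fin d → Fin n),
            (∀ x ∈ R, ∀ y ∈ R, ¬ ∃ t : ℤ, t ≠ 0 ∧ ∃ v : Fin d → ℤ, v ≠ 0 ∧
              (∀ i, v i = -1 ∨ v i = 0 ∨ v i = 1) ∧
              ∀ i, ((y i : ℕ) : ℤ) - ((x i : ℕ) : ℤ) = t * v i) →
            R.card ≤ P.card) := by
  intro h
  obtain ⟨c, hc, N, hN⟩ := h 3 le_rfl
  obtain ⟨n, hn, Q, hQ, hcard, hP⟩ := Pool.Agent.H230Z.Queens.counter c hc N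
  obtain ⟨P, h1, h2, h3⟩ := hN n hn Q hQ hcard
  obtain ⟨R, h4, h5⟩ := hP P h1 h2
  exact absurd (h3 R h4) (not_le.mpr h5)

end Pool.Agent.S09708
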