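import Pool.Statements.S09782
import Pool.Agent.H517Z.BL

set_option autoImplicit false
open Pool Pool.MP_817a43_co

namespace Pool.Agent.S09782

/-- The negation of the preceding statement: For every d ≥ 2 and every finite simple d-regular graph, some symmetric ±1 signing of its adjacency matrix has every eigenvalue of absolute value at most 2√(d−1). -/
theorem result :
    ¬ (∀ (d : ℕ), 2 ≤ d →
      ∀ (V : Type) [Fintype V] [DecidableEq V] (G : SimpleGraph V) [DecidableRel G.Adj],
        G.IsRegularOfDegree d →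
          ∃ s : V → V → ℝ,
            (∀ i j, s i j = s j i) ∧
            (∀ i j, s i j = 1 ∨ s i j = -1) ∧
            ∀ μ ∈ spectrum ℝ
                (Matrix.of (fun i j => if G.Adj i j then s i j else 0) : Matrix V V ℝ),
              |μ| ≤ 2 * Real.sqrt ((d : ℝ) - 1)) := by
  classical
  intro H
  obtain ⟨B, hB, hbad⟩ := Pool.Agent.H517Z.BL.regular 5 le_rfl
  let G : SimpleGraph B.V := ⟨B.adj, ⟨fun u v h => B.symm u v h⟩, ⟨fun u h => B.irr u h⟩⟩
  have hreg : G.IsRegularOfDegree 5 := by
    intro v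
    have h5 : B.deg v = 5 := le_antisymm (hB v).2 (hB v).1
    rw [← h5, Pool.Agent.H517Z.BL.RG.deg, ← SimpleGraph.card_neighborFinset_eq_degree,
      SimpleGraph.neighborFinset_eq_filter, Finset.card_filter]
  obtain ⟨s, hs1, hs2, hs3⟩ := H 5 (by norm_num) B.V G hreg
  have e4 : 2 * Real.sqrt (((5 : ℕ) : ℝ) - 1) = 4 := by
    have : (((5 : ℕ) : ℝ) - 1) = 2 ^ 2 := by norm_num
    rw [this, Real.sqrt_sq (by norm_num)]
    norm_num
  rw [e4] at hs3
  set M : Matrix B.V B.V ℝ := Matrix.of (fun i j => if G.Adj i j then s i j else 0) with hM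
  have hH : M.IsHermitian := by
    ext i j
    simp only [hM, Matrix.conjTranspose_apply, Matrix.of_apply, star_trivial]
    by_cases h : G.Adj i j
    · rw [if_pos h, if_pos h.symm, hs1]
    · rw [if_neg h, if_neg (fun h' => h h'.symm)]
  rcases hbad s ⟨hs1, hs2⟩ with ⟨x, hx⟩ | ⟨x, hx⟩
  · have h1 := Pool.Agent.H517Z.BL.form_nonneg M hH (fun μ hμ => (abs_le.1 (hs3 μ hμ)).2) x
    unfold Pool.Agent.H517Z.BL.RG.Q at hx
    have e : (∑ u, ∑ v, M u v * x u * x v) =
        ∑ u, ∑ v, if B.adj u v then s u v * x u * x v else 0 := by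
      refine Finset.sum_congr rfl fun u _ => Finset.sum_congr rfl fun v _ => ?_
      simp only [hM, Matrix.of_apply]
      by_cases h : B.adj u v
      · rw [if_pos h, if_pos (show G.Adj u v from h)]
      · rw [if_neg h, if_neg (show ¬ G.Adj u v from h)]; ring
    rw [e] at h1
    linarith
  · have h1 := Pool.Agent.H517Z.BL.form_nonneg (-M) hH.neg (fun μ hμ => by
      rw [← spectrum.neg_eq] at hμ
      have := (abs_le.1 (hs3 (-μ) hμ)).1
      linarith) x
    unfold Pool.Agent.H517Z.BL.RG.Q at hx
    have e : (∑ u, ∑ v, (-M) u v * x u * x v) =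
        ∑ u, ∑ v, if B.adj u v then (-s) u v * x u * x v else 0 := by
      refine Finset.sum_congr rfl fun u _ => Finset.sum_congr rfl fun v _ => ?_
      simp only [hM, Matrix.of_apply, Matrix.neg_apply, Pi.neg_apply]
      by_cases h : B.adj u v
      · rw [if_pos h, if_pos (show G.Adj u v from h)]
      · rw [if_neg h, if_neg (show ¬ G.Adj u v from h)]; ring
    rw [e] at h1
    linarith

end Pool.Agent.S09782
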