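import Pool.Statements.S09828
import Pool.Agent.H784Z.FatTree

set_option autoImplicit false
open Pool Pool.MP_83775f_co

namespace Pool.Agent.S09828

/-- The negation of the preceding statement: For every finite graph H there are p,d such that every finite graph G with no 3-fat H-minor has a partition into connected parts, each of weak diameter at most d, such that every radius-2 ball meets at most p parts. -/
theorem result :
    ¬ (∀ (W : Type) [Fintype W] (H : SimpleGraph W), ∃ p d : ℕ,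
    ∀ (V : Type) [Fintype V] (G : SimpleGraph V),
      (¬ ∃ (B : W → Set V) (P : W → W → Set V),
          (∀ w, (B w).Nonempty ∧
              ∀ x ∈ B w, ∀ y ∈ B w, ∃ q : G.Walk x y, ∀ z ∈ q.support, z ∈ B w) ∧
          (∀ a b, H.Adj a b →
              ∃ x ∈ B a, ∃ y ∈ B b, ∃ q : G.Walk x y, ∀ z ∈ q.support, z ∈ P a b) ∧
          (∀ v w, v ≠ w → ∀ x ∈ B v, ∀ y ∈ B w, (3 : ℕ∞) ≤ G.edist x y) ∧
          (∀ a b, H.Adj a b → ∀ v, v ≠ a → v ≠ b →
              ∀ x ∈ P a b, ∀ y ∈ B v, (3 : ℕ∞) ≤ G.edist x y) ∧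
          (∀ a b c e, H.Adj a b → H.Adj c e → s(a, b) ≠ s(c, e) →
              ∀ x ∈ P a b, ∀ y ∈ P c e, (3 : ℕ∞) ≤ G.edist x y)) →
      ∃ f : V → V,
        (∀ x y, f x = f y → ∃ q : G.Walk x y, ∀ z ∈ q.support, f z = f x) ∧
        (∀ x y, f x = f y → G.edist x y ≤ (d : ℕ∞)) ∧
        (∀ u, {i : V | ∃ v, G.edist u v ≤ 2 ∧ f v = i}.ncard ≤ p)) := by
  intro hall
  obtain ⟨p, d, hpd⟩ := hall (Fin 3) ⊤
  letI : Fintype (H784Z.FatTree.Vx (p + 1) (d + 1)) := Fintype.ofFinite _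
  have hz : ∀ x : H784Z.FatTree.Vx (p + 1) (d + 1),
      ¬ (3 : ℕ∞) ≤ (H784Z.FatTree.T (p + 1) (d + 1)).edist x x := by
    intro x; simp
  obtain ⟨f, h1, h2, h3⟩ := hpd _ (H784Z.FatTree.T (p + 1) (d + 1)) (by
    rintro ⟨B, P, hB, hP, hBB, hPB, hPP⟩
    refine H784Z.FatTree.no_triangle B P (fun w => (hB w).2) (fun a b hab => hP a b hab)
      (fun v w hvw x hx hx' => hz x (hBB v w hvw x hx x hx'))
      (fun a b hab v h1 h2 x hx hx' => hz x (hPB a b hab v h1 h2 x hx x hx'))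
      (fun x hx hx' => hz x (hPP 0 1 1 2 (by decide) (by decide) (by decide) x hx x hx')))
  exact H784Z.FatTree.no_partition p d f h1 h2 h3

end Pool.Agent.S09828
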