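import Pool.Statements.S09854
import Pool.Agent.H792Z.PolySym

set_option autoImplicit false
open Pool Pool.MP_84ee99_co

namespace Pool.Agent.S09854

/-- The negation of the preceding statement: Every convex 3-polytope has a combinatorially equivalent convex 3-polytope with equal corresponding edge lengths in which every edge-length-preserving combinatorial automorphism is induced by an isometry of space. -/
theorem result :
    ¬ (∀ (S : Finset (EuclideanSpace ℝ (Fin 3))),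
      (∀ x ∈ S, x ∉ convexHull ℝ ((S : Set (EuclideanSpace ℝ (Fin 3))) \ {x})) →
      (interior (convexHull ℝ (S : Set (EuclideanSpace ℝ (Fin 3))))).Nonempty →
      ∃ (T : Finset (EuclideanSpace ℝ (Fin 3))) (e : {x // x ∈ S} ≃ {x // x ∈ T}),
        (∀ x ∈ T, x ∉ convexHull ℝ ((T : Set (EuclideanSpace ℝ (Fin 3))) \ {x})) ∧
        (interior (convexHull ℝ (T : Set (EuclideanSpace ℝ (Fin 3))))).Nonempty ∧
        (∀ a b : {x // x ∈ S},
          ((a ≠ b ∧ ∃ u : EuclideanSpace ℝ (Fin 3),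
              @inner ℝ (EuclideanSpace ℝ (Fin 3)) _ u a.1 = @inner ℝ (EuclideanSpace ℝ (Fin 3)) _ u b.1 ∧
              ∀ z ∈ S, z ≠ a.1 → z ≠ b.1 →
                @inner ℝ (EuclideanSpace ℝ (Fin 3)) _ u z < @inner ℝ (EuclideanSpace ℝ (Fin 3)) _ u a.1) ↔
           (e a ≠ e b ∧ ∃ u : EuclideanSpace ℝ (Fin 3),
              @inner ℝ (EuclideanSpace ℝ (Fin 3)) _ u (e a).1 = @inner ℝ (EuclideanSpace ℝ (Fin 3)) _ u (e b).1 ∧
              ∀ z ∈ T, z ≠ (e a).1 → z ≠ (e b).1 →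
                @inner ℝ (EuclideanSpace ℝ (Fin 3)) _ u z < @inner ℝ (EuclideanSpace ℝ (Fin 3)) _ u (e a).1))) ∧
        (∀ a b : {x // x ∈ S},
          (a ≠ b ∧ ∃ u : EuclideanSpace ℝ (Fin 3),
              @inner ℝ (EuclideanSpace ℝ (Fin 3)) _ u a.1 = @inner ℝ (EuclideanSpace ℝ (Fin 3)) _ u b.1 ∧
              ∀ z ∈ S, z ≠ a.1 → z ≠ b.1 →
                @inner ℝ (EuclideanSpace ℝ (Fin 3)) _ u z < @inner ℝ (EuclideanSpace ℝ (Fin 3)) _ u a.1) →
          dist (e a).1 (e b).1 = dist a.1 b.1) ∧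
        ∀ σ : {x // x ∈ T} ≃ {x // x ∈ T},
          (∀ a b : {x // x ∈ T},
            ((a ≠ b ∧ ∃ u : EuclideanSpace ℝ (Fin 3),
                @inner ℝ (EuclideanSpace ℝ (Fin 3)) _ u a.1 = @inner ℝ (EuclideanSpace ℝ (Fin 3)) _ u b.1 ∧
                ∀ z ∈ T, z ≠ a.1 → z ≠ b.1 →
                  @inner ℝ (EuclideanSpace ℝ (Fin 3)) _ u z < @inner ℝ (EuclideanSpace ℝ (Fin 3)) _ u a.1) ↔
             (σ a ≠ σ b ∧ ∃ u : EuclideanSpace ℝ (Fin 3),
                @inner ℝ (EuclideanSpace ℝ (Fin 3)) _ u (σ a).1 = @inner ℝ (EuclideanSpace ℝ (Fin 3)) _ u (σ b).1 ∧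
                ∀ z ∈ T, z ≠ (σ a).1 → z ≠ (σ b).1 →
                  @inner ℝ (EuclideanSpace ℝ (Fin 3)) _ u z < @inner ℝ (EuclideanSpace ℝ (Fin 3)) _ u (σ a).1))) →
          (∀ a b : {x // x ∈ T},
            (a ≠ b ∧ ∃ u : EuclideanSpace ℝ (Fin 3),
                @inner ℝ (EuclideanSpace ℝ (Fin 3)) _ u a.1 = @inner ℝ (EuclideanSpace ℝ (Fin 3)) _ u b.1 ∧
                ∀ z ∈ T, z ≠ a.1 → z ≠ b.1 →
                  @inner ℝ (EuclideanSpace ℝ (Fin 3)) _ u z < @inner ℝ (EuclideanSpace ℝ (Fin 3)) _ u a.1) →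
            dist (σ a).1 (σ b).1 = dist a.1 b.1) →
          ∃ g : AffineIsometryEquiv ℝ (EuclideanSpace ℝ (Fin 3)) (EuclideanSpace ℝ (Fin 3)),
            ∀ a : {x // x ∈ T}, g a.1 = (σ a).1) :=
  Pool.Agent.H792Z.PolySym.main

end Pool.Agent.S09854
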