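import Pool.Statements.S09866

set_option autoImplicit false
open SimpleGraph
open Pool Pool.MP_85b484_co

namespace Pool.Agent.S09866

/-- adjacency of the necklace of four diamonds closed by one edge:
cut vertices `0,3,6,9,12`, diamond middles `(1,2),(4,5),(7,8),(10,11)`, closing edge `0 ~ 12`. -/
def up (u v : ℕ) : Bool :=
  (u < v && v ≤ 3 * (u / 3) + 3 && !(u % 3 == 0 && v == u + 3)) || (u == 0 && v == 12)

def ad (u v : ℕ) : Bool := up u v || up v u

def G : SimpleGraph (Fin 13) where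
  Adj u v := ad u.val v.val = true
  symm := ⟨by decide⟩
  loopless := ⟨by decide⟩

instance : DecidableRel G.Adj := fun u v => inferInstanceAs (Decidable (ad u.val v.val = true))

def rr (u v : ℕ) : Bool := u == v || ad u v

def trips : List (ℕ × ℕ × ℕ) :=
  ((List.range 13).flatMap fun x => (List.range 13).flatMap fun y => (List.range 13).map fun z =>
    (x, y, z)).filter fun p => rr p.1 p.2.1 && rr p.2.1 p.2.2 && p.1 ≤ p.2.2

def away (x : ℕ) (q : ℕ × ℕ × ℕ) : Bool := x != q.1 && x != q.2.1 && x != q.2.2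

def near (x : ℕ) (q : ℕ × ℕ × ℕ) : Bool := ad x q.1 || ad x q.2.1 || ad x q.2.2

def cp (p q : ℕ × ℕ × ℕ) : Bool :=
  away p.1 q && away p.2.1 q && away p.2.2 q && (near p.1 q || near p.2.1 q || near p.2.2 q)

def chk (L : List (ℕ × ℕ × ℕ)) : Bool :=
  L.all fun p =>
    let L1 := L.filter (cp p)
    L1.all fun q =>
      let L2 := L1.filter (cp q)
      L2.all fun r => L2.all fun s => !cp r s

theorem chk_ok : chk trips = true := by decide +kernel

theorem no4 {p q r s : ℕ × ℕ × ℕ} (hp : p ∈ trips) (hq : q ∈ trips) (hr : r ∈ trips)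
    (hs : s ∈ trips) (pq : cp p q = true) (pr : cp p r = true) (ps : cp p s = true)
    (qr : cp q r = true) (qs : cp q s = true) (rs : cp r s = true) : False := by
  have h := chk_ok
  simp only [chk, List.all_eq_true, List.mem_filter] at h
  have := h p hp q ⟨hq, pq⟩ r ⟨⟨hr, pr⟩, qr⟩ s ⟨⟨hs, ps⟩, qs⟩
  simp [rs] at this

theorem mem_trips : ∀ x y z : Fin 13, (x = y ∨ G.Adj x y) → (y = z ∨ G.Adj y z) → x ≤ z →
    (x.val, y.val, z.val) ∈ trips := by decide +kernel

theorem has_nb {T : Finset (Fin 13)} (hc : (G.induce (T : Set (Fin 13))).Connected)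
    {u v : Fin 13} (hu : u ∈ T) (hv : v ∈ T) (huv : u ≠ v) : ∃ w ∈ T, G.Adj u w := by
  obtain ⟨W⟩ := hc.preconnected ⟨u, hu⟩ ⟨v, hv⟩
  cases W with
  | nil => exact absurd rfl huv
  | cons h _ =>
    rename_i w _
    exact ⟨w.1, w.2, h⟩

theorem shape0 {T : Finset (Fin 13)} (h3 : T.card ≤ 3)
    (hc : (G.induce (T : Set (Fin 13))).Connected) :
    ∃ x y z : Fin 13, (x = y ∨ G.Adj x y) ∧ (y = z ∨ G.Adj y z) ∧ T = {x, y, z} := by
  have hne : T.Nonempty := by
    obtain ⟨a⟩ := hc.nonempty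
    exact ⟨a.1, a.2⟩
  have h1 : 1 ≤ T.card := hne.card_pos
  have : T.card = 1 ∨ T.card = 2 ∨ T.card = 3 := by omega
  rcases this with h | h | h
  · obtain ⟨a, rfl⟩ := Finset.card_eq_one.mp h
    exact ⟨a, a, a, Or.inl rfl, Or.inl rfl, by simp⟩
  · obtain ⟨a, b, hab, rfl⟩ := Finset.card_eq_two.mp h
    obtain ⟨w, hw, haw⟩ := has_nb hc (u := a) (v := b) (by simp) (by simp) hab
    simp only [Finset.mem_insert, Finset.mem_singleton] at hw
    rcases hw with rfl | rfl
    · exact absurd haw (G.irrefl)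
    · exact ⟨a, w, w, Or.inr haw, Or.inl rfl, by simp⟩
  · obtain ⟨a, b, c, hab, hac, hbc, rfl⟩ := Finset.card_eq_three.mp h
    obtain ⟨w, hw, haw⟩ := has_nb hc (u := a) (v := b) (by simp) (by simp) hab
    simp only [Finset.mem_insert, Finset.mem_singleton] at hw
    rcases hw with rfl | rfl | rfl
    · exact absurd haw (G.irrefl)
    · obtain ⟨w', hw', hcw⟩ := has_nb hc (u := c) (v := a) (by simp) (by simp) hac.symm
      simp only [Finset.mem_insert, Finset.mem_singleton] at hw'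
      rcases hw' with rfl | rfl | rfl
      · exact ⟨c, w', w, Or.inr hcw, Or.inr haw, by ext t; simp; tauto⟩
      · exact ⟨a, w', c, Or.inr haw, Or.inr hcw.symm, rfl⟩
      · exact absurd hcw (G.irrefl)
    · obtain ⟨w', hw', hcw⟩ := has_nb hc (u := b) (v := a) (by simp) (by simp) hab.symm
      simp only [Finset.mem_insert, Finset.mem_singleton] at hw'
      rcases hw' with rfl | rfl | rfl
      · exact ⟨b, w', w, Or.inr hcw, Or.inr haw, by ext t; simp; tauto⟩
      · exact absurd hcw (G.irrefl)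
      · exact ⟨a, w', b, Or.inr haw, Or.inr hcw.symm, by ext t; simp; tauto⟩

theorem shape {T : Finset (Fin 13)} (h3 : T.card ≤ 3)
    (hc : (G.induce (T : Set (Fin 13))).Connected) :
    ∃ x y z : Fin 13, (x.val, y.val, z.val) ∈ trips ∧ T = {x, y, z} := by
  obtain ⟨x, y, z, h1, h2, rfl⟩ := shape0 h3 hc
  rcases le_total x z with h | h
  · exact ⟨x, y, z, mem_trips x y z h1 h2 h, rfl⟩
  · refine ⟨z, y, x, mem_trips z y x ?_ ?_ h, by ext t; simp; tauto⟩
    · exact h2.imp Eq.symm G.adj_symm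
    · exact h1.imp Eq.symm G.adj_symm

theorem cp_of {x y z x' y' z' : Fin 13}
    (h : Disjoint ({x, y, z} : Finset (Fin 13)) {x', y', z'} ∧
      ∃ u ∈ ({x, y, z} : Finset (Fin 13)), ∃ v ∈ ({x', y', z'} : Finset (Fin 13)), G.Adj u v) :
    cp (x.val, y.val, z.val) (x'.val, y'.val, z'.val) = true := by
  obtain ⟨hd, u, hu, v, hv, huv⟩ := h
  rw [Finset.disjoint_left] at hd
  have hx := @hd x (by simp)
  have hy := @hd y (by simp)
  have hz := @hd z (by simp)
  simp only [Finset.mem_insert, Finset.mem_singleton, not_or, Fin.ext_iff] at hx hy hz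
  simp only [Finset.mem_insert, Finset.mem_singleton] at hu hv
  have huv' : ad u.val v.val = true := huv
  simp only [cp, away, near, Bool.and_eq_true, Bool.or_eq_true, bne_iff_ne, ne_eq]
  refine ⟨⟨⟨⟨⟨hx.1, hx.2.1⟩, hx.2.2⟩, ⟨⟨hy.1, hy.2.1⟩, hy.2.2⟩⟩, ⟨⟨hz.1, hz.2.1⟩, hz.2.2⟩⟩, ?_⟩
  rcases hu with rfl | rfl | rfl <;> rcases hv with rfl | rfl | rfl <;> simp [huv']

theorem diamond : ∀ a b c d : Fin 3, a ≠ b → a ≠ c → b ≠ c → b ≠ d → c ≠ d → a = d := by decide

theorem not_col : ¬ (G.induce ((Finset.univ : Finset (Fin 13)) : Set (Fin 13))).Colorable 3 := by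
  rintro ⟨C⟩
  let c : Fin 13 → Fin 3 := fun v => C ⟨v, by simp⟩
  have hc : ∀ u v : Fin 13, G.Adj u v → c u ≠ c v := fun u v h => C.valid h
  have e1 := diamond (c 0) (c 1) (c 2) (c 3) (hc _ _ (by decide)) (hc _ _ (by decide))
    (hc _ _ (by decide)) (hc _ _ (by decide)) (hc _ _ (by decide))
  have e2 := diamond (c 3) (c 4) (c 5) (c 6) (hc _ _ (by decide)) (hc _ _ (by decide))
    (hc _ _ (by decide)) (hc _ _ (by decide)) (hc _ _ (by decide))
  have e3 := diamond (c 6) (c 7) (c 8) (c 9) (hc _ _ (by decide)) (hc _ _ (by decide))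
    (hc _ _ (by decide)) (hc _ _ (by decide)) (hc _ _ (by decide))
  have e4 := diamond (c 9) (c 10) (c 11) (c 12) (hc _ _ (by decide)) (hc _ _ (by decide))
    (hc _ _ (by decide)) (hc _ _ (by decide)) (hc _ _ (by decide))
  exact hc 0 12 (by decide) (e1.trans (e2.trans (e3.trans e4)))

theorem big_tri (S : Finset (Fin 13)) (h : 11 ≤ S.card) :
    ∃ a ∈ S, ∃ b ∈ S, ∃ c ∈ S, G.Adj a b ∧ G.Adj b c ∧ G.Adj a c := by
  by_contra hno
  have key : ∀ a b c : Fin 13, G.Adj a b → G.Adj b c → G.Adj a c →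
      ∃ x ∈ ({a, b, c} : Finset (Fin 13)), x ∉ S := by
    intro a b c h1 h2 h3
    by_contra hh
    push Not at hh
    exact hno ⟨a, hh a (by simp), b, hh b (by simp), c, hh c (by simp), h1, h2, h3⟩
  obtain ⟨x, hx, hxS⟩ := key 0 1 2 (by decide) (by decide) (by decide)
  obtain ⟨y, hy, hyS⟩ := key 3 4 5 (by decide) (by decide) (by decide)
  obtain ⟨z, hz, hzS⟩ := key 6 7 8 (by decide) (by decide) (by decide)
  have hsub : ({x, y, z} : Finset (Fin 13)) ⊆ Sᶜ := by
    intro t ht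
    simp only [Finset.mem_insert, Finset.mem_singleton] at ht
    rcases ht with rfl | rfl | rfl <;> simpa
  have h3 : ({x, y, z} : Finset (Fin 13)).card = 3 := by
    simp only [Finset.mem_insert, Finset.mem_singleton] at hx hy hz
    rcases hx with rfl | rfl | rfl <;> rcases hy with rfl | rfl | rfl <;>
      rcases hz with rfl | rfl | rfl <;> decide
  have := Finset.card_le_card hsub
  rw [Finset.card_compl, h3] at this
  simp at this
  omega

theorem no_emb (n : ℕ) (hn : 11 ≤ n)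
    (htri : ∀ a b c : Fin n, (cycleGraph n).Adj a b → (cycleGraph n).Adj b c →
      ¬ (cycleGraph n).Adj a c) : IsEmpty (cycleGraph n ↪g G) := by
  refine ⟨fun f => ?_⟩
  obtain ⟨a, ha, b, hb, c, hc, h1, h2, h3⟩ := big_tri (Finset.univ.map f.toEmbedding)
    (by simpa using hn)
  obtain ⟨a, -, rfl⟩ := Finset.mem_map.mp ha
  obtain ⟨b, -, rfl⟩ := Finset.mem_map.mp hb
  obtain ⟨c, -, rfl⟩ := Finset.mem_map.mp hc
  exact htri a b c (f.map_adj_iff.mp h1) (f.map_adj_iff.mp h2) (f.map_adj_iff.mp h3)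

theorem rhs : ∀ k : ℕ, 3 * 3 ≤ 2 * k → IsEmpty (SimpleGraph.cycleGraph (2 * k + 1) ↪g G) := by
  intro k hk
  by_cases h : k ≤ 6
  · have : k = 5 ∨ k = 6 := by omega
    rcases this with rfl | rfl
    · exact no_emb 11 le_rfl (by decide +kernel)
    · exact no_emb 13 (by norm_num) (by decide +kernel)
  · refine ⟨fun f => ?_⟩
    have := Fintype.card_le_of_embedding f.toEmbedding
    simp at this
    omega

/-- The negation of the preceding statement. Counterexample: `m = 3` and the necklace of four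
diamonds closed by an edge (13 vertices, chromatic number 4, odd holes of length 9 only). -/
theorem result :
    ¬ (∀ m : ℕ, 2 ≤ m → ∀ (V : Type) [Fintype V] (G : SimpleGraph V),
    (∀ S : Finset V, ∃ t : ℕ, (G.induce (S : Set V)).Colorable t ∧
      ∃ f : Fin t → Finset V,
        (∀ i, f i ⊆ S ∧ (f i).card ≤ m ∧ (G.induce ((f i : Finset V) : Set V)).Connected) ∧
        ∀ i j, i ≠ j → Disjoint (f i) (f j) ∧ ∃ u ∈ f i, ∃ v ∈ f j, G.Adj u v)
    ↔ (∀ k : ℕ, 3 * m ≤ 2 * k → IsEmpty (SimpleGraph.cycleGraph (2 * k + 1) ↪g G))) := by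
  intro H
  obtain ⟨t, hcol, f, hf, hij⟩ := (H 3 (by norm_num) (Fin 13) G).mpr rhs Finset.univ
  have ht : 4 ≤ t := by
    by_contra hlt
    exact not_col (hcol.mono (by omega))
  let i0 : Fin t := ⟨0, by omega⟩
  let i1 : Fin t := ⟨1, by omega⟩
  let i2 : Fin t := ⟨2, by omega⟩
  let i3 : Fin t := ⟨3, by omega⟩
  obtain ⟨x0, y0, z0, m0, e0⟩ := shape (hf i0).2.1 (hf i0).2.2
  obtain ⟨x1, y1, z1, m1, e1⟩ := shape (hf i1).2.1 (hf i1).2.2
  obtain ⟨x2, y2, z2, m2, e2⟩ := shape (hf i2).2.1 (hf i2).2.2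
  obtain ⟨x3, y3, z3, m3, e3⟩ := shape (hf i3).2.1 (hf i3).2.2
  have h01 := hij i0 i1 (by simp [i0, i1, Fin.ext_iff])
  have h02 := hij i0 i2 (by simp [i0, i2, Fin.ext_iff])
  have h03 := hij i0 i3 (by simp [i0, i3, Fin.ext_iff])
  have h12 := hij i1 i2 (by simp [i1, i2, Fin.ext_iff])
  have h13 := hij i1 i3 (by simp [i1, i3, Fin.ext_iff])
  have h23 := hij i2 i3 (by simp [i2, i3, Fin.ext_iff])
  rw [e0, e1] at h01
  rw [e0, e2] at h02
  rw [e0, e3] at h03
  rw [e1, e2] at h12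
  rw [e1, e3] at h13
  rw [e2, e3] at h23
  exact no4 m0 m1 m2 m3 (cp_of h01) (cp_of h02) (cp_of h03) (cp_of h12) (cp_of h13) (cp_of h23)

end Pool.Agent.S09866
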