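import Pool.Statements.S09874
import Pool.Agent.H711Z.Patterns

set_option autoImplicit false
open Pool Pool.MP_85fffe_co

namespace Pool.Agent.S09874

/-- The negation of the preceding statement: There is a constant C such that for every finite set X of n reals, any family of maximally repeated patterns of X, no two of which are translates of each other, has at most C·n members. -/
theorem result :
    ¬ (∃ C : ℕ, ∀ X : Finset ℝ, ∀ S : Finset (Finset ℝ),
      (∀ A ∈ S,
        A.Nonempty ∧ A ⊆ X ∧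
        (∃ t : ℝ, t ≠ 0 ∧ A.image (· + t) ⊆ X) ∧
        (∀ B : Finset ℝ, A ⊂ B →
          ¬ (∀ t : ℝ, A.image (· + t) ⊆ X → B.image (· + t) ⊆ X))) →
      (∀ A ∈ S, ∀ B ∈ S, ∀ t : ℝ, B = A.image (· + t) → A = B) →
      S.card ≤ C * X.card) := by
  rintro ⟨C, hC⟩
  obtain ⟨S, h1, h2, h3⟩ := Pool.Agent.H711Z.Patterns.main (4 * C + 6) (by omega)
  have h4 := hC _ S h1 h2
  have h5 := Nat.mul_le_mul_left C (Pool.Agent.H711Z.Patterns.card_XX (4 * C + 6))
  have h6 := Pool.Agent.H711Z.Patterns.sq_lt (4 * C)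
  have h7 : 4 * C + 6 - 1 = 4 * C + 5 := by omega
  rw [h3, h7] at h4
  nlinarith

end Pool.Agent.S09874
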