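import Pool.Statements.S09884
import Pool.Agent.H473Z.SP.Main

set_option autoImplicit false
open Pool Pool.MP_866d96_co

namespace Pool.Agent.S09884

/-- The negation of the preceding statement: Every full-dimensional polytope in R^d whose face lattice is anti-isomorphic to itself has a combinatorially equivalent polytope Q, with the origin in its interior, whose polar set equals the image of Q under some orthogonal map. -/
theorem result :
    ¬ (∀ (d : ℕ) (S : Finset (EuclideanSpace ℝ (Fin d))),
      (interior (convexHull ℝ (S : Set (EuclideanSpace ℝ (Fin d))))).Nonempty →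
      Nonempty ({F : Set (EuclideanSpace ℝ (Fin d)) //
                  IsExposed ℝ (convexHull ℝ (S : Set (EuclideanSpace ℝ (Fin d)))) F} ≃o
                ({F : Set (EuclideanSpace ℝ (Fin d)) //
                  IsExposed ℝ (convexHull ℝ (S : Set (EuclideanSpace ℝ (Fin d)))) F})ᵒᵈ) →
      ∃ (T : Finset (EuclideanSpace ℝ (Fin d)))
        (U : EuclideanSpace ℝ (Fin d) ≃ₗᵢ[ℝ] EuclideanSpace ℝ (Fin d)),
        Nonempty ({F : Set (EuclideanSpace ℝ (Fin d)) //
                    IsExposed ℝ (convexHull ℝ (S : Set (EuclideanSpace ℝ (Fin d)))) F} ≃o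
                  {F : Set (EuclideanSpace ℝ (Fin d)) //
                    IsExposed ℝ (convexHull ℝ (T : Set (EuclideanSpace ℝ (Fin d)))) F}) ∧
        (0 : EuclideanSpace ℝ (Fin d)) ∈
          interior (convexHull ℝ (T : Set (EuclideanSpace ℝ (Fin d)))) ∧
        {y : EuclideanSpace ℝ (Fin d) |
            ∀ x ∈ convexHull ℝ (T : Set (EuclideanSpace ℝ (Fin d))), inner ℝ x y ≤ (1 : ℝ)} =
          U '' convexHull ℝ (T : Set (EuclideanSpace ℝ (Fin d)))) := by
  classical
  intro h
  have hS : ((Finset.univ.image Pool.Agent.H473Z.SP.DD.s : Finset (EuclideanSpace ℝ (Fin 4))) :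
      Set (EuclideanSpace ℝ (Fin 4))) = Set.range Pool.Agent.H473Z.SP.DD.s := by
    rw [Finset.coe_image, Finset.coe_univ, Set.image_univ]
  have h4 := h 4 (Finset.univ.image Pool.Agent.H473Z.SP.DD.s)
  rw [hS] at h4
  obtain ⟨T, U, ⟨e⟩, h0, hP⟩ := h4 Pool.Agent.H473Z.SP.int_ne Pool.Agent.H473Z.SP.self_dual
  exact Pool.Agent.H473Z.SP.no_polar T U e h0 hP

end Pool.Agent.S09884
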