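import Pool.Statements.S09946
import Pool.Agent.H449Z.CycFam

set_option autoImplicit false
open Pool Pool.MP_8888ff_co

namespace Pool.Agent.S09946

/-- The negation of the preceding statement: For every graph family whose members all contain a cycle and one is bipartite, some c>0 ensures every graph with min degree δ≥1 and max degree Δ has a spanning F-free subgraph of min degree at least c·ex(K_Δ,F)·δ/Δ². -/
theorem result :
    ¬ (∀ F : Set (Σ k : ℕ, SimpleGraph (Fin k)),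
      (∀ p ∈ F, ¬ p.2.IsAcyclic) →
      (∃ p ∈ F, p.2.Colorable 2) →
      ∃ c : ℝ, 0 < c ∧
        ∀ δ Δ : ℕ, 1 ≤ δ → δ ≤ Δ →
          ∀ n : ℕ, ∀ G : SimpleGraph (Fin n),
            (∀ v, δ ≤ (G.neighborSet v).ncard) →
            (∃ v, (G.neighborSet v).ncard = δ) →
            (∀ v, (G.neighborSet v).ncard ≤ Δ) →
            (∃ v, (G.neighborSet v).ncard = Δ) →
            ∀ T : SimpleGraph (Fin Δ),
              (∀ p ∈ F, ¬ p.2.IsContained T) →
              ∃ H : SimpleGraph (Fin n), H ≤ G ∧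
                (∀ p ∈ F, ¬ p.2.IsContained H) ∧
                ∀ v, c * (T.edgeSet.ncard : ℝ) * (δ : ℝ) / (Δ : ℝ) ^ 2
                  ≤ ((H.neighborSet v).ncard : ℝ)) := by
  intro hmain
  obtain ⟨c, hc, h⟩ := hmain H449Z.CycFam.F H449Z.CycFam.F_cyclic H449Z.CycFam.F_bip
  obtain ⟨i, hi⟩ := exists_nat_gt (2 / c)
  set n := H449Z.CycFam.N i (H449Z.CycFam.b i) with hn
  have hnpos : 0 < n := H449Z.CycFam.N_pos _ _
  let v0 : Fin (H449Z.CycFam.N n (H449Z.CycFam.m i)) := ⟨0, H449Z.CycFam.N_pos _ _⟩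
  obtain ⟨H, hle, hfree, hdeg⟩ := h n n hnpos le_rfl _ (H449Z.CycFam.R n (H449Z.CycFam.m i))
    (fun v => (H449Z.CycFam.R_deg _ _ v).ge) ⟨v0, H449Z.CycFam.R_deg _ _ v0⟩
    (fun v => (H449Z.CycFam.R_deg _ _ v).le) ⟨v0, H449Z.CycFam.R_deg _ _ v0⟩
    (H449Z.CycFam.R i (H449Z.CycFam.b i)) (H449Z.CycFam.T_free i)
  have he := H449Z.CycFam.two_mul_edges (H449Z.CycFam.R i (H449Z.CycFam.b i))
    (H449Z.CycFam.R_deg _ _)
  have he' : ((H449Z.CycFam.R i (H449Z.CycFam.b i)).edgeSet.ncard : ℝ) = n * i / 2 := by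
    have : (2 : ℝ) * ((H449Z.CycFam.R i (H449Z.CycFam.b i)).edgeSet.ncard : ℝ) = n * i := by
      exact_mod_cast he
    linarith
  have hn' : (0 : ℝ) < n := by exact_mod_cast hnpos
  have h2 : ∀ v, 2 ≤ (H.neighborSet v).ncard := by
    intro v
    have h3 := hdeg v
    rw [he'] at h3
    have h4 : c * ((n : ℝ) * i / 2) * n / (n : ℝ) ^ 2 = c * i / 2 := by
      field_simp
    rw [h4] at h3
    have h5 : 2 < c * i := by
      rw [div_lt_iff₀ hc] at hi
      linarith
    have h6 : (1 : ℝ) < ((H.neighborSet v).ncard : ℝ) := by linarith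
    exact_mod_cast h6
  obtain ⟨p, hp, hcont⟩ := H449Z.CycFam.G_forces i H hle h2
  exact hfree p hp hcont

end Pool.Agent.S09946
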