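import Pool.Statements.S09958
import Pool.Agent.H274Z.RW.Dbl

set_option autoImplicit false
open Filter Topology
open Pool Pool.MP_891b03_co

namespace Pool.Agent.S09958

/-- The negation of the preceding statement: For every L ≥ 1 and every Benjamini–Schramm convergent sequence of finite connected graphs of bounded degree, the minimal edges-per-vertex of a connected graph on the same vertices whose metric is L-bi-Lipschitz to the original converges. -/
theorem result :
    ¬ (∀ (D : ℕ) (L : ℝ), 1 ≤ L →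
    ∀ (N : ℕ → ℕ) (G : ∀ n, SimpleGraph (Fin (N n))),
      (∀ n, (G n).Connected) →
      (∀ n (v : Fin (N n)), ((G n).neighborSet v).ncard ≤ D) →
      (∀ (r k : ℕ) (F : SimpleGraph (Fin k)) (o : Fin k), ∃ p : ℝ,
        Tendsto (fun n => (({v : Fin (N n) | ∃ e : {w : Fin (N n) // (G n).dist v w ≤ r} ≃ Fin k,
            (∀ a : {w : Fin (N n) // (G n).dist v w ≤ r}, (a.1 = v ↔ e a = o)) ∧
            (∀ a b : {w : Fin (N n) // (G n).dist v w ≤ r},
              ((G n).Adj a.1 b.1 ↔ F.Adj (e a) (e b)))}.ncard : ℕ) : ℝ) / (N n : ℝ))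
          atTop (𝓝 p)) →
      ∃ c : ℝ, Tendsto (fun n => sInf {x : ℝ | ∃ H : SimpleGraph (Fin (N n)), H.Connected ∧
          (∀ u v : Fin (N n), ((H.dist u v : ℝ) ≤ L * ((G n).dist u v : ℝ)) ∧
            (((G n).dist u v : ℝ) ≤ L * (H.dist u v : ℝ))) ∧
          x = (H.edgeSet.ncard : ℝ) / (N n : ℝ)}) atTop (𝓝 c)) := by
  intro h
  choose X Y hXc hYc hXd hYd hfr hgap using Pool.Agent.H274Z.RW.exists_pair
  let I := Σ (_ : ℕ) (k : ℕ), SimpleGraph (Fin k) × Fin k
  let u : ℕ → I → ℝ := fun g i => Pool.Agent.H274Z.RW.frac (X g) i.1 i.2.1 i.2.2.1 i.2.2.2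
  have hu : ∀ g, u g ∈ Set.pi Set.univ (fun _ : I => Set.Icc (0 : ℝ) 1) := by
    intro g i _
    refine ⟨by simp only [u, Pool.Agent.H274Z.RW.frac]; positivity, ?_⟩
    simp only [u, Pool.Agent.H274Z.RW.frac]
    refine div_le_one_of_le₀ ?_ (Nat.cast_nonneg _)
    have := Set.ncard_le_ncard (Set.subset_univ
      {v : Fin (X g).1 | Pool.Agent.H274Z.RW.BallIso (X g).2 i.1 i.2.1 i.2.2.1 i.2.2.2 v})
    rw [Set.ncard_univ, Nat.card_eq_fintype_card, Fintype.card_fin] at this
    exact_mod_cast this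
  obtain ⟨p, -, φ, hφ, hlim⟩ :=
    (isCompact_univ_pi (fun _ : I => isCompact_Icc (a := (0 : ℝ)) (b := 1))).tendsto_subseq hu
  let Z : ℕ → Pool.Agent.H274Z.RW.FG := fun n => if n % 2 = 0 then X (φ (n / 2)) else Y (φ (n / 2))
  have hZ : ∀ n, Z n = X (φ (n / 2)) ∨ Z n = Y (φ (n / 2)) := by
    intro n
    simp only [Z]
    split_ifs
    · exact Or.inl rfl
    · exact Or.inr rfl
  have hc : ∀ n, (Z n).2.Connected := by
    intro n
    rcases hZ n with h1 | h1 <;> rw [h1]
    · exact hXc _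
    · exact hYc _
  have hd : ∀ n, ∀ v, ((Z n).2.neighborSet v).ncard ≤ 2400000 := by
    intro n
    rcases hZ n with h1 | h1 <;> rw [h1]
    · exact hXd _
    · exact hYd _
  have hdiv : Tendsto (fun n : ℕ => n / 2) atTop atTop :=
    tendsto_atTop.2 fun m => eventually_atTop.2 ⟨2 * m, fun n hn => by omega⟩
  obtain ⟨c, hcost⟩ := h 2400000 2 (by norm_num) (fun n => (Z n).1) (fun n => (Z n).2) hc hd (by
    intro r k F o
    refine ⟨p ⟨r, k, F, o⟩, ?_⟩
    have h1 : Tendsto (fun n : ℕ => u (φ (n / 2)) ⟨r, k, F, o⟩) atTop (𝓝 (p ⟨r, k, F, o⟩)) :=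
      ((tendsto_pi_nhds.1 hlim) ⟨r, k, F, o⟩).comp hdiv
    refine h1.congr' (eventually_atTop.2 ⟨2 * (2 * r + 2), fun n hn => ?_⟩)
    change Pool.Agent.H274Z.RW.frac (X (φ (n / 2))) r k F o = Pool.Agent.H274Z.RW.frac (Z n) r k F o
    rcases hZ n with h2 | h2 <;> rw [h2]
    have h3 : n / 2 ≤ φ (n / 2) := hφ.id_le _
    exact (hfr _ r (by omega) k F o).symm)
  change Tendsto (fun n => Pool.Agent.H274Z.RW.cost (Z n)) atTop (𝓝 c) at hcost
  have e1 : Tendsto (fun n : ℕ => 2 * n) atTop atTop :=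
    tendsto_atTop.2 fun m => eventually_atTop.2 ⟨m, fun n hn => by omega⟩
  have e2 : Tendsto (fun n : ℕ => 2 * n + 1) atTop atTop :=
    tendsto_atTop.2 fun m => eventually_atTop.2 ⟨m, fun n hn => by omega⟩
  have t1 := hcost.comp e1
  have t2 := (hcost.comp e2).add_const (1 / 12000020 : ℝ)
  have t3 : c + 1 / 12000020 ≤ c := by
    refine le_of_tendsto_of_tendsto' t2 t1 fun n => ?_
    have z1 : Z (2 * n) = X (φ n) := by
      simp only [Z]
      rw [if_pos (by omega), show 2 * n / 2 = n by omega]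
    have z2 : Z (2 * n + 1) = Y (φ n) := by
      simp only [Z]
      rw [if_neg (by omega), show (2 * n + 1) / 2 = n by omega]
    simp only [Function.comp_apply, z1, z2]
    exact hgap _
  norm_num at t3

end Pool.Agent.S09958
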