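import Pool.Statements.S10003
import Pool.Agent.H90Z.Stad.Cheeger

set_option autoImplicit false
open MeasureTheory
open Pool Pool.MP_8b7b81_co

namespace Pool.Agent.S10003

open Pool.Agent.H90Z.Stad Metric Set Real in
/-- A stadium is self-maximising: it is a calibrable (self-Cheeger) set, and the inner
Minkowski content is submodular. -/
theorem result :
    ∃ C : Set (EuclideanSpace ℝ (Fin 2)),
      IsCompact C ∧ Convex ℝ C ∧ (interior C).Nonempty ∧
      (∀ (x : EuclideanSpace ℝ (Fin 2)) (r : ℝ), C ≠ Metric.closedBall x r) ∧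
      ∀ (n : ℕ) (f : Fin n → (EuclideanSpace ℝ (Fin 2) ≃ᵢ EuclideanSpace ℝ (Fin 2))),
        μH[1] (frontier (⋃ i, (f i) '' C)) * volume C
          ≤ μH[1] (frontier C) * volume (⋃ i, (f i) '' C) := by
  have hq := q_pos
  let e : ℂ ≃ₗᵢ[ℝ] EuclideanSpace ℝ (Fin 2) := Complex.orthonormalBasisOneI.repr
  have he : MeasurePreserving e.toIsometryEquiv volume volume := e.measurePreserving
  have hG := good_St.image e.toIsometryEquiv he
  refine ⟨e.toIsometryEquiv '' St 1, (isCompact_St 1).image e.continuous,
    (convex_St 1).linear_image e.toLinearEquiv.toLinearMap, ?_, ?_, ?_⟩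
  · refine ⟨e 0, ?_⟩
    have h1 : e.toIsometryEquiv '' interior (St 1) = interior (e.toIsometryEquiv '' St 1) :=
      e.toIsometryEquiv.toHomeomorph.image_interior _
    rw [← h1]
    refine ⟨0, ?_, rfl⟩
    have h2 : ball ((0 : ℝ) : ℂ) 1 ⊆ St 1 :=
      ball_subset_closedBall.trans (closedBall_subset_St (by linarith) (by linarith))
    exact interior_mono h2 (by rw [isOpen_ball.interior_eq]; simp)
  · intro x r h
    obtain ⟨z, rfl⟩ := e.toIsometryEquiv.surjective x
    rw [← e.toIsometryEquiv.image_closedBall,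
      image_eq_image e.toIsometryEquiv.injective] at h
    have a1 : ((π / 4 + 1 : ℝ) : ℂ) ∈ closedBall z r := by
      rw [← h]
      refine ⟨π / 4, by linarith, le_rfl, ?_⟩
      rw [Complex.isometry_ofReal.dist_eq, Real.dist_eq]; simp
    have a2 : ((-(π / 4) - 1 : ℝ) : ℂ) ∈ closedBall z r := by
      rw [← h]
      refine ⟨-(π / 4), le_rfl, by linarith, ?_⟩
      rw [Complex.isometry_ofReal.dist_eq, Real.dist_eq,
        show -(π / 4) - 1 - -(π / 4) = -1 by ring]
      simp
    have a3 := dist_triangle_right ((π / 4 + 1 : ℝ) : ℂ) ((-(π / 4) - 1 : ℝ) : ℂ) z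
    rw [Complex.isometry_ofReal.dist_eq, Real.dist_eq, abs_of_pos (by linarith)] at a3
    rw [mem_closedBall] at a1 a2
    have hr : 0 < r := by linarith
    have b1 : z + r * Complex.I ∈ St 1 := by
      rw [h, mem_closedBall, dist_eq_norm]; simp [abs_of_pos hr]
    have b2 : z - r * Complex.I ∈ St 1 := by
      rw [h, mem_closedBall, dist_eq_norm]; simp [abs_of_pos hr]
    have c1 := (abs_le.1 (abs_im_le b1)).2
    have c2 := (abs_le.1 (abs_im_le b2)).1
    simp at c1 c2
    linarith
  · intro n f
    have hf : ∀ i, MeasurePreserving (f i) volume volume := by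
      intro i
      have h1 : ⇑(f i) = (fun x => x + f i 0) ∘ (f i).toRealLinearIsometryEquiv := by
        funext x
        simp [IsometryEquiv.toRealLinearIsometryEquiv_apply]
      rw [h1]
      exact (measurePreserving_add_right _ _).comp (LinearIsometryEquiv.measurePreserving _)
    have key := main_bound (by norm_num : (0 : ℝ) ≤ 3 / 2) _ (fun i => hG.image (f i) (hf i))
    have hfr : ENNReal.ofReal (3 * π) ≤ μH[1] (frontier (e.toIsometryEquiv '' St 1)) := by
      have h1 : e.toIsometryEquiv '' frontier (St 1) = frontier (e.toIsometryEquiv '' St 1) :=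
        e.toIsometryEquiv.toHomeomorph.image_frontier _
      rw [← h1, IsometryEquiv.hausdorffMeasure_image]
      exact perim_lower
    rw [meas_image _ he, vol_St (by norm_num)]
    refine le_trans (mul_le_mul' key le_rfl) (le_trans ?_ (mul_le_mul' hfr le_rfl))
    rw [ENNReal.ofReal_mul (by norm_num), mul_right_comm, ← ENNReal.ofReal_mul (by norm_num),
      show 3 / 2 * (π * 1 ^ 2 + π * 1) = 3 * π by ring]
    exact mul_le_mul' le_rfl ENNReal.ofReal_toReal_le

end Pool.Agent.S10003
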