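import Pool.Statements.S10033
import Pool.Agent.H458Z.Sec.Main

set_option autoImplicit false
open Pool Pool.MP_8c9d81_co

namespace Pool.Agent.S10033

/-- There is a constant c such that for every finite field of order q and every k with c√q < k < q+1−c√q, each size m from 0 to q²+q+1 is attained by a point set of PG(2,q) meeting no line in exactly k points. -/
theorem result :
  ∃ c : ℝ, ∀ (F : Type) [Field F] [Fintype F] (k : ℕ),
    c * Real.sqrt (Fintype.card F : ℝ) < (k : ℝ) →
    (k : ℝ) < (Fintype.card F : ℝ) + 1 - c * Real.sqrt (Fintype.card F : ℝ) →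
    ∀ m : ℕ, m ≤ (Fintype.card F) ^ 2 + Fintype.card F + 1 →
      ∃ S : Set (Projectivization F (Fin 3 → F)), S.ncard = m ∧
        ∀ W : Submodule F (Fin 3 → F), Module.finrank F W = 2 →
          (S ∩ {p : Projectivization F (Fin 3 → F) | p.submodule ≤ W}).ncard ≠ k := by
  refine ⟨10, ?_⟩
  intro F _ _ k h1 h2 m hm
  classical
  have hs : 0 ≤ Real.sqrt (Fintype.card F : ℝ) := Real.sqrt_nonneg _
  have hsq : Real.sqrt (Fintype.card F : ℝ) ^ 2 = Fintype.card F :=
    Real.sq_sqrt (Nat.cast_nonneg _)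
  have hk : k ≤ Fintype.card F + 1 := by
    have : (k : ℝ) ≤ (Fintype.card F : ℝ) + 1 := by linarith
    exact_mod_cast this
  refine Pool.Agent.H458Z.Sec.Att.proj (Pool.Agent.H458Z.Sec.att_all ?_ ?_ hm)
  · have : 100 * (Fintype.card F : ℝ) < (k : ℝ) ^ 2 := by nlinarith
    exact_mod_cast this
  · have : 100 * (Fintype.card F : ℝ) < ((Fintype.card F + 1 - k : ℕ) : ℝ) ^ 2 := by
      rw [Nat.cast_sub hk]
      push_cast
      nlinarith
    exact_mod_cast this

end Pool.Agent.S10033
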