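import Pool.Statements.S10062
import Pool.Agent.H730Z.UniC

set_option autoImplicit false
open Pool Pool.MP_8d5faa_co

namespace Pool.Agent.S10062

/-- The negation of the preceding statement: For every ε>0 and all large odd q, the unitary polarity graph of PG(2,q²) (points adjacent when Σ xᵢ yᵢ^q = 0) has a set of at least (1/2−ε)q⁴ points containing no triangle. -/
theorem result :
    ¬ (∀ ε : ℝ, 0 < ε → ∃ N : ℕ, ∀ (q : ℕ) (F : Type) [Field F] [Fintype F],
      Odd q → N ≤ q → Fintype.card F = q ^ 2 →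
      ∃ S : Finset (Projectivization F (Fin 3 → F)),
        (1 / 2 - ε) * (q : ℝ) ^ 4 ≤ (S.card : ℝ) ∧
        ∀ x ∈ S, ∀ y ∈ S, ∀ z ∈ S, x ≠ y → y ≠ z → x ≠ z →
          ¬ ((∑ i : Fin 3, x.rep i * (y.rep i) ^ q) = 0 ∧
             (∑ i : Fin 3, y.rep i * (z.rep i) ^ q) = 0 ∧
             (∑ i : Fin 3, x.rep i * (z.rep i) ^ q) = 0)) := by
  intro h
  obtain ⟨N, hN⟩ := h (1 / 1000) (by norm_num)
  haveI : Fact (Nat.Prime 7) := ⟨by norm_num⟩
  classical
  set m := N + 4 with hm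
  let F := GaloisField 7 (2 * m)
  letI : Fintype F := Fintype.ofFinite F
  have hcard : Fintype.card F = (7 ^ m) ^ 2 := by
    rw [← Nat.card_eq_fintype_card, GaloisField.card 7 (2 * m) (by omega), ← pow_mul, mul_comm]
  have hle : N ≤ 7 ^ m := by
    have : m < 7 ^ m := Nat.lt_pow_self (by norm_num)
    omega
  have hbig : 2401 ≤ 7 ^ m := by
    calc 2401 = 7 ^ 4 := by norm_num
      _ ≤ 7 ^ m := Nat.pow_le_pow_right (by norm_num) (by omega)
  obtain ⟨S, hS1, hS2⟩ := hN (7 ^ m) F (Odd.pow (by decide)) hle hcard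
  have hb := Pool.Agent.H730Z.Uni.proj_bound (F := F) (σ := iterateFrobenius F 7 m) (7 ^ m) hcard
    (fun x => iterateFrobenius_def ..) S hS2
  generalize 7 ^ m = q at *
  have hq : (2401 : ℝ) ≤ q := by exact_mod_cast hbig
  have h1 : (0 : ℝ) ≤ (q : ℝ) ^ 2 - 1 := by nlinarith
  have h2 := mul_le_mul_of_nonneg_left hS1 h1
  have h3 : (0 : ℝ) < (q : ℝ) ^ 4 := by positivity
  have h4 : (q : ℝ) ^ 4 * (((q : ℝ) ^ 2 - 1) * (1 / 2 - 1 / 1000)) ≤
      (q : ℝ) ^ 4 * (45 / 91 * q ^ 2 + 2 * q + 1) := by nlinarith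
  have h5 := le_of_mul_le_mul_left h4 h3
  nlinarith

end Pool.Agent.S10062
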