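import Pool.Statements.S10106

set_option autoImplicit false
open Pool Pool.MP_8f9b2f_co

namespace Pool.Agent.S10106

open Finset

/-- the Hamming ball of radius `k` around the all false point -/
def ball (n k : ℕ) : Finset (Fin n → Bool) :=
  univ.filter fun x => hammingDist x (fun _ => false) ≤ k

/-- the points whose first two coordinates are false -/
def dom (n : ℕ) : Finset (Fin n → Bool) :=
  Fintype.piFinset fun i : Fin n => if (i : ℕ) < 2 then {false} else univ

lemma card_lt_two (n : ℕ) : (univ.filter fun i : Fin n => (i : ℕ) < 2).card ≤ 2 := by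
  have h : (univ.filter fun i : Fin n => (i : ℕ) < 2).card ≤ (range 2).card := by
    refine card_le_card_of_injOn (fun i => (i : ℕ)) ?_ ?_
    · intro i hi
      simp only [coe_filter, mem_univ, true_and, Set.mem_ofPred_eq] at hi
      simpa using hi
    · intro i _ j _ hij
      exact Fin.ext hij
  simpa using h

lemma card_dom (m : ℕ) : (dom (m + 2)).card = 2 ^ m := by
  unfold dom
  rw [Fintype.card_piFinset, Fin.prod_univ_succ, Fin.prod_univ_succ]
  simp

lemma card_ball (n k : ℕ) : (ball n k).card * 2 ^ (n - k) ≤ 3 ^ n := by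
  have h1 : ∑ x : Fin n → Bool, ∏ i, (if x i = false then 2 else 1 : ℕ) = 3 ^ n := by
    have := Finset.prod_univ_sum (fun _ : Fin n => (univ : Finset Bool))
      (fun _ b => (if b = false then 2 else 1 : ℕ))
    rw [Fintype.piFinset_univ] at this
    rw [← this]
    simp
  rw [← h1]
  calc (ball n k).card * 2 ^ (n - k) = ∑ _x ∈ ball n k, 2 ^ (n - k) := by simp
    _ ≤ ∑ x ∈ ball n k, ∏ i, (if x i = false then 2 else 1 : ℕ) := by
        refine sum_le_sum fun x hx => ?_
        rw [prod_ite]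
        simp only [prod_const, one_pow, mul_one]
        refine Nat.pow_le_pow_right (by norm_num) ?_
        have h2 : hammingDist x (fun _ => false) ≤ k := (mem_filter.1 hx).2
        have h3 := card_filter_add_card_filter_not (s := (univ : Finset (Fin n)))
          (fun i => x i = false)
        rw [card_univ, Fintype.card_fin] at h3
        unfold hammingDist at h2
        simp only [ne_eq] at h2
        omega
    _ ≤ _ := sum_le_sum_of_subset (subset_univ _)

lemma card_ball' (k : ℕ) : (ball (8 * k + 8) (k + 1)).card ≤ 2 ^ (8 * k + 6) := by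
  have h := card_ball (8 * k + 8) (k + 1)
  have e : 8 * k + 8 - (k + 1) = 7 * k + 7 := by omega
  rw [e] at h
  have h2 : 3 ^ (8 * k + 8) ≤ 2 ^ (8 * k + 6) * 2 ^ (7 * k + 7) := by
    have e1 : 3 ^ (8 * k + 8) = 6561 ^ k * 6561 := by
      rw [pow_add, pow_mul]; norm_num
    have e2 : 2 ^ (8 * k + 6) * 2 ^ (7 * k + 7) = 32768 ^ k * 8192 := by
      rw [← pow_add, show 8 * k + 6 + (7 * k + 7) = 15 * k + 13 by ring, pow_add, pow_mul]
      norm_num
    rw [e1, e2]
    exact Nat.mul_le_mul (Nat.pow_le_pow_left (by norm_num) k) (by norm_num)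
  exact Nat.le_of_mul_le_mul_right (h.trans h2) (by positivity)

lemma exists_set (k : ℕ) : ∃ A : Finset (Fin (8 * k + 8) → Bool),
    ball (8 * k + 8) (k + 1) ⊆ A ∧ dom (8 * k + 8) ⊆ A ∧ 2 * A.card = 2 ^ (8 * k + 8) := by
  have h1 : (ball (8 * k + 8) (k + 1) ∪ dom (8 * k + 8)).card ≤ 2 ^ (8 * k + 7) := by
    refine (card_union_le _ _).trans ?_
    have h2 := card_ball' k
    have h3 : (dom (8 * k + 8)).card = 2 ^ (8 * k + 6) := card_dom (8 * k + 6)
    rw [h3, pow_succ 2 (8 * k + 6)]
    omega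
  have h2 : 2 ^ (8 * k + 7) ≤ (univ : Finset (Fin (8 * k + 8) → Bool)).card := by
    rw [card_univ, Fintype.card_fun, Fintype.card_bool, Fintype.card_fin]
    exact Nat.pow_le_pow_right (by norm_num) (by omega)
  obtain ⟨A, hA1, -, hA2⟩ := exists_subsuperset_card_eq (subset_univ _) h1 h2
  refine ⟨A, subset_union_left.trans hA1, subset_union_right.trans hA1, ?_⟩
  rw [hA2, pow_succ 2 (8 * k + 7)]
  ring

lemma lip_lower {n r : ℕ} (A : Finset (Fin n → Bool)) (hb : ball n r ⊆ A) (hd : dom n ⊆ A)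
    (ψ : (Fin n → Bool) ≃ (Fin n → Bool)) (hψ : ∀ x, ψ x ∈ A ↔ x ∉ A) (C : ℝ) (hC : 0 ≤ C)
    (hL : ∀ x y, (hammingDist (ψ x) (ψ y) : ℝ) ≤ C * (hammingDist x y : ℝ)) :
    (r : ℝ) ≤ 2 * C := by
  set x := ψ.symm (fun _ => false) with hx
  let x' : Fin n → Bool := fun i => if (i : ℕ) < 2 then false else x i
  have hx'd : x' ∈ dom n := by
    unfold dom
    rw [Fintype.mem_piFinset]
    intro i
    by_cases hi : (i : ℕ) < 2
    · simp only [x', if_pos hi, mem_singleton]
    · simp only [if_neg hi, mem_univ]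
  have h1 : ψ x' ∉ A := fun h => (hψ x').1 h (hd hx'd)
  have h2 : r < hammingDist (ψ x') (fun _ => false) := by
    by_contra hcon
    exact h1 (hb (mem_filter.2 ⟨mem_univ _, not_lt.1 hcon⟩))
  have h3 : hammingDist x' x ≤ 2 := by
    refine le_trans ?_ (card_lt_two n)
    unfold hammingDist
    refine card_le_card fun i hi => ?_
    rw [mem_filter] at hi ⊢
    refine ⟨mem_univ _, ?_⟩
    by_contra hcon
    exact hi.2 (by simp only [x', if_neg hcon])
  have h4 := hL x' x
  have h5 : ψ x = fun _ => false := by rw [hx, Equiv.apply_symm_apply]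
  rw [h5] at h4
  have h6 : (r : ℝ) ≤ (hammingDist (ψ x') (fun _ => false) : ℝ) := by exact_mod_cast h2.le
  have h7 : (hammingDist x' x : ℝ) ≤ 2 := by exact_mod_cast h3
  nlinarith

/-- Take a set `A` of half the points that contains a ball of radius `n / 8` and is within
distance two of every point; every bijection exchanging `A` and its complement, and its inverse,
has Lipschitz constant at least `n / 16`. -/
theorem result :
    ¬ (∃ α : ℝ, α < 2 ∧ ∃ K : ℝ, ∀ n : ℕ, 1 ≤ n → ∀ f g : (Fin n → Bool) → Bool,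
      2 * (Finset.univ.filter (fun x => f x = true)).card = 2 ^ n →
      2 * (Finset.univ.filter (fun x => g x = true)).card = 2 ^ n →
      ∃ φ : (Fin n → Bool) ≃ (Fin n → Bool), (∀ x, g (φ x) = f x) ∧
        ∃ C₁ C₂ : ℝ, 0 ≤ C₁ ∧ 0 ≤ C₂ ∧
          (∀ x y, (hammingDist (φ x) (φ y) : ℝ) ≤ C₁ * (hammingDist x y : ℝ)) ∧
          (∀ x y, (hammingDist (φ.symm x) (φ.symm y) : ℝ) ≤ C₂ * (hammingDist x y : ℝ)) ∧
          C₁ * C₂ ≤ K * (n : ℝ) ^ α) := by
  rintro ⟨α, hα, K, h⟩
  have key : ∀ k : ℕ, ((8 * k + 8 : ℕ) : ℝ) ^ (2 - α) ≤ 256 * K := by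
    intro k
    obtain ⟨A, hb, hd, hA⟩ := exists_set k
    have hg : (univ.filter fun x : Fin (8 * k + 8) → Bool => decide (x ∈ A) = true) = A := by
      ext x; simp
    have hf : (univ.filter fun x : Fin (8 * k + 8) → Bool => decide (x ∉ A) = true) = Aᶜ := by
      ext x; simp
    have hAc : 2 * Aᶜ.card = 2 ^ (8 * k + 8) := by
      have := card_add_card_compl A
      rw [Fintype.card_fun, Fintype.card_bool, Fintype.card_fin] at this
      omega
    obtain ⟨φ, hφ, C₁, C₂, h1, h2, hL1, hL2, hK⟩ := h (8 * k + 8) (by omega)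
      (fun x => decide (x ∉ A)) (fun x => decide (x ∈ A)) (by rw [hf]; exact hAc)
      (by rw [hg]; exact hA)
    have hφ' : ∀ x, φ x ∈ A ↔ x ∉ A := fun x => decide_eq_decide.1 (hφ x)
    have hφ'' : ∀ x, φ.symm x ∈ A ↔ x ∉ A := fun x => by
      have := hφ' (φ.symm x)
      rw [Equiv.apply_symm_apply] at this
      tauto
    have b1 := lip_lower A hb hd φ hφ' C₁ h1 hL1
    have b2 := lip_lower A hb hd φ.symm hφ'' C₂ h2 hL2
    set N : ℝ := ((8 * k + 8 : ℕ) : ℝ) with hN
    have hN0 : 0 < N := by rw [hN]; positivity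
    have hNk : N = 8 * ((k + 1 : ℕ) : ℝ) := by rw [hN]; push_cast; ring
    have b3 : N ^ 2 ≤ 256 * (C₁ * C₂) := by
      have hk0 : (0 : ℝ) ≤ ((k + 1 : ℕ) : ℝ) := by positivity
      have := mul_le_mul b1 b2 hk0 (by positivity)
      rw [hNk]
      nlinarith
    have b4 : N ^ (2 - α) * N ^ α = N ^ 2 := by
      rw [← Real.rpow_add hN0, sub_add_cancel, Real.rpow_two]
    have b5 : 0 < N ^ α := Real.rpow_pos_of_pos hN0 α
    have b6 : N ^ (2 - α) * N ^ α ≤ 256 * K * N ^ α := by
      rw [b4]; nlinarith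
    exact le_of_mul_le_mul_right b6 b5
  have t1 : Filter.Tendsto (fun k : ℕ => ((8 * k + 8 : ℕ) : ℝ) ^ (2 - α)) Filter.atTop
      Filter.atTop := by
    refine (tendsto_rpow_atTop (by linarith)).comp ?_
    refine tendsto_natCast_atTop_atTop.comp ?_
    exact Filter.tendsto_atTop_mono (fun k => by simp only [id]; omega) Filter.tendsto_id
  obtain ⟨k, hk⟩ := (t1.eventually_gt_atTop (256 * K)).exists
  exact absurd (key k) (not_le.2 hk)

end Pool.Agent.S10106
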