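import Pool.Statements.S10114
import Pool.Agent.H109Z.Hadamard

set_option autoImplicit false
open Pool Pool.MP_903d4d_co

namespace Pool.Agent.S10114

/-- The negation of the preceding statement: For every graph with at least 2 vertices, let r be the largest r with K_r minus an edge as a subgraph. Then the Hadamard critical exponent is r-2: all real powers at least r-2 keep every nonnegative PSD G-patterned matrix PSD, and no smaller threshold works. -/
theorem result :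
    ¬ (∀ (V : Type) [Fintype V] [DecidableEq V] (G : SimpleGraph V), 2 ≤ Fintype.card V →
    ∀ r : ℕ,
      ((∃ f : Fin r → V, Function.Injective f ∧ ∃ a b : Fin r, a ≠ b ∧
          ∀ i j : Fin r, i ≠ j → ¬(i = a ∧ j = b) → ¬(i = b ∧ j = a) → G.Adj (f i) (f j)) ∧
       (∀ s : ℕ, (∃ f : Fin s → V, Function.Injective f ∧ ∃ a b : Fin s, a ≠ b ∧
          ∀ i j : Fin s, i ≠ j → ¬(i = a ∧ j = b) → ¬(i = b ∧ j = a) → G.Adj (f i) (f j)) →
          s ≤ r)) →
      ((∀ β : ℝ, 0 < β → (r : ℝ) - 2 ≤ β →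
          ∀ A : Matrix V V ℝ, A.PosSemidef → (∀ i j, 0 ≤ A i j) →
            (∀ i j, i ≠ j → ¬ G.Adj i j → A i j = 0) →
            (A.map (fun x : ℝ => x ^ β)).PosSemidef) ∧
       (∀ α : ℝ, 0 ≤ α → α < (r : ℝ) - 2 →
          ∃ β : ℝ, α ≤ β ∧ 0 < β ∧ ∃ A : Matrix V V ℝ, A.PosSemidef ∧ (∀ i j, 0 ≤ A i j) ∧
            (∀ i j, i ≠ j → ¬ G.Adj i j → A i j = 0) ∧
            ¬ (A.map (fun x : ℝ => x ^ β)).PosSemidef))) := by
  intro h
  have hc : 2 ≤ Fintype.card Pool.Agent.H109Z.Hadamard.V := by simp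
  have h1 := (h Pool.Agent.H109Z.Hadamard.V Pool.Agent.H109Z.Hadamard.G hc 3
    ⟨Pool.Agent.H109Z.Hadamard.r_lower, Pool.Agent.H109Z.Hadamard.r_upper⟩).1 ((9 : ℝ) / 8)
    (by norm_num) (by norm_num) _ Pool.Agent.H109Z.Hadamard.psd
    (Pool.Agent.H109Z.Hadamard.nonneg _ _ (by norm_num) (by norm_num))
    (Pool.Agent.H109Z.Hadamard.pattern _ _)
  rw [Pool.Agent.H109Z.Hadamard.map_eq] at h1
  exact Pool.Agent.H109Z.Hadamard.not_psd h1

end Pool.Agent.S10114
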