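import Pool.Statements.S10122
-- import your own Pool.Agent.* helpers here

set_option autoImplicit false
open Pool Pool.MP_908e85_co

namespace Pool.Agent.S10122

/-- bases of `M(K₄) ⊕ U_{1,1}`: spanning trees of `K₄` (edges `0..5`, with `i` and `i+3`
disjoint and `0,1,2` a star) together with the coloop `6` -/
def LB : List (Finset (Fin 7)) :=
  [{0,1,2,6},{0,1,3,6},{0,1,4,6},{0,2,3,6},{0,2,5,6},{0,3,4,6},{0,3,5,6},{0,4,5,6},
   {1,2,4,6},{1,2,5,6},{1,3,4,6},{1,3,5,6},{1,4,5,6},{2,3,4,6},{2,3,5,6},{2,4,5,6}]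

lemma LB_exch : ∀ s ∈ LB, ∀ t ∈ LB, ∀ a ∈ s, a ∉ t →
    ∃ b ∈ t, b ∉ s ∧ insert b (s.erase a) ∈ LB := by decide +kernel

/-- the small matroid -/
def NN : Matroid (Fin 7) :=
  Matroid.ofIsBaseOfFinite (E := Set.univ) Set.finite_univ (fun B => ∃ s ∈ LB, B = ↑s)
    ⟨_, {0,1,2,6}, by decide, rfl⟩
    (by
      rintro X Y ⟨s, hs, rfl⟩ ⟨t, ht, rfl⟩ a ⟨ha1, ha2⟩
      obtain ⟨b, hb1, hb2, hb3⟩ := LB_exch s hs t ht a ha1 ha2
      exact ⟨b, ⟨hb1, hb2⟩, _, hb3, by simp⟩)
    (fun _ _ => Set.subset_univ _)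

/-- parallel classes -/
def cls : Fin 16 → Fin 7 := ![0,3,0,0,1,4,1,1,2,5,2,2,6,6,6,6]

lemma cls_surj : Function.Surjective cls := by decide

lemma isBase_iff (B : Set (Fin 16)) :
    (NN.comap cls).IsBase B ↔ (∃ s ∈ LB, cls '' B = ↑s) ∧ Set.InjOn cls B := by
  have hE : NN.E = Set.univ := rfl
  rw [Matroid.comap_isBase_iff, hE, Set.preimage_univ, Set.image_univ, cls_surj.range_eq, ← hE,
    Matroid.isBasis_ground_iff]
  simp [NN]

/-- rows -/
def FF : Fin 4 → Finset (Fin 16) := ![{0,1,2,3},{4,5,6,7},{8,9,10,11},{12,13,14,15}]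

/-- the four bases -/
def BB : Fin 4 → Finset (Fin 16) := ![{0,1,6,12},{4,5,10,13},{8,9,2,14},{3,7,11,15}]

/-- parity -/
def par : Fin 16 → ZMod 2 := ![0,1,0,0,0,1,0,0,0,1,0,0,0,0,0,0]

lemma col_par : ∀ a ∈ FF 0, ∀ b ∈ FF 1, ∀ c ∈ FF 2, ∀ d ∈ FF 3,
    ({cls a, cls b, cls c, cls d} : Finset (Fin 7)) ∈ LB → par a + par b + par c + par d = 0 := by
  decide +kernel

/-- The negation of the preceding statement: For even k and a rank-k matroid, if k sets of size k have multiset union equal to that of k bases, then each set's elements can be spread over k columns so every column takes one element per set and forms a basis. -/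
theorem result :
    ¬ (∀ (α : Type) (M : Matroid α) (k : ℕ), Even k →
      ∀ (F B : Fin k → Finset α),
        (∀ i, M.IsBase (↑(B i) : Set α)) →
        (∀ i, (B i).card = k) →
        (∀ i, (F i).card = k) →
        (∑ i, (F i).val = ∑ i, (B i).val) →
        ∃ σ : Fin k → Fin k → α,
          (∀ i, Function.Injective (σ i) ∧ ∀ j, σ i j ∈ F i) ∧
          (∀ j, Function.Injective (fun i => σ i j) ∧
            M.IsBase (Set.range (fun i => σ i j)))) := by
  intro H
  obtain ⟨σ, h1, h2⟩ := H (Fin 16) (NN.comap cls) 4 (by decide) FF BB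
    (by
      intro i
      rw [isBase_iff, ← Finset.coe_image]
      refine ⟨⟨_, ?_, rfl⟩, ?_⟩
      · revert i; decide +kernel
      · intro a ha b hb
        simp only [Finset.mem_coe] at ha hb
        revert i a b; decide +kernel)
    (by decide) (by decide) (by decide +kernel)
  have hcol : ∀ j, ∑ i, par (σ i j) = 0 := by
    intro j
    obtain ⟨⟨s, hs, he⟩, -⟩ := (isBase_iff _).1 (h2 j).2
    rw [Fin.sum_univ_four]
    apply col_par _ ((h1 0).2 j) _ ((h1 1).2 j) _ ((h1 2).2 j) _ ((h1 3).2 j)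
    have : ({cls (σ 0 j), cls (σ 1 j), cls (σ 2 j), cls (σ 3 j)} : Finset (Fin 7)) = s := by
      apply Finset.coe_injective
      rw [← he, ← Set.range_comp]
      ext x
      simp only [Finset.coe_insert, Finset.coe_singleton, Set.mem_insert_iff,
        Set.mem_singleton_iff, Set.mem_range, Function.comp_apply, Fin.exists_fin_succ]
      simp [eq_comm]
    rw [this]
    exact hs
  have hrow : ∀ i, ∑ j, par (σ i j) = ∑ x ∈ FF i, par x := by
    intro i
    have hc : (FF i).card = 4 := by revert i; decide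
    have : Finset.univ.image (σ i) = FF i := by
      apply Finset.eq_of_subset_of_card_le
      · intro x hx
        obtain ⟨j, -, rfl⟩ := Finset.mem_image.1 hx
        exact (h1 i).2 j
      · rw [Finset.card_image_of_injective _ (h1 i).1, hc]
        simp
    rw [← this, Finset.sum_image (fun a _ b _ h => (h1 i).1 h)]
  have h3 : ∑ i, ∑ j, par (σ i j) = 0 := by
    rw [Finset.sum_comm]
    simp [hcol]
  simp only [hrow] at h3
  revert h3
  decide

end Pool.Agent.S10122
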