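import Pool.Statements.S10141
import Pool.Agent.H380Z.Moore.Main

set_option autoImplicit false
open Pool Pool.MP_9137bf_co

namespace Pool.Agent.S10141

/-- With ρ the real root of x^3-x-2, for every ε>0 and all large g, every finite connected graph with half its vertices of degree 2, half of degree 3, and girth at least g has at least ρ^((1-ε)g/2) vertices. -/
theorem result :
  ∀ ρ : ℝ, ρ ^ 3 - ρ - 2 = 0 →
  ∀ ε : ℝ, 0 < ε →
  ∃ g₀ : ℕ, ∀ g : ℕ, g₀ ≤ g →
  ∀ (V : Type) [Fintype V] [DecidableEq V] (G : SimpleGraph V) [DecidableRel G.Adj],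
    G.Connected →
    (∀ v, G.degree v = 2 ∨ G.degree v = 3) →
    2 * (Finset.univ.filter (fun v => G.degree v = 2)).card = Fintype.card V →
    (g : ℕ∞) ≤ G.egirth →
    ρ ^ ((1 - ε) * (g : ℝ) / 2) ≤ (Fintype.card V : ℝ) := by
  intro ρ h ε hε
  refine ⟨⌈2 / ε⌉₊ + 1, fun g hg V _ _ G _ hc hd hhalf hgirth => ?_⟩
  have hρ := H380Z.Moore.rho_lo h
  haveI : Nonempty V := hc.nonempty
  have key := H380Z.Moore.moore h hd hhalf hgirth ((g - 1) / 2) (by omega)
  have hn : (0 : ℝ) < Fintype.card V := by exact_mod_cast Fintype.card_pos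
  have h1 : (g : ℝ) ≤ 2 * (((g - 1) / 2 : ℕ) : ℝ) + 2 := by
    have : g ≤ 2 * ((g - 1) / 2) + 2 := by omega
    exact_mod_cast this
  have h2 : 2 / ε ≤ (g : ℝ) := by
    have h3 := Nat.le_ceil (2 / ε)
    have h4 : ((⌈2 / ε⌉₊ : ℕ) : ℝ) ≤ g := by exact_mod_cast (by omega : ⌈2 / ε⌉₊ ≤ g)
    linarith
  rw [div_le_iff₀ hε] at h2
  have h5 : (1 - ε) * (g : ℝ) / 2 ≤ (((g - 1) / 2 : ℕ) : ℝ) := by nlinarith
  have hlog : 0 ≤ Real.log ρ := Real.log_nonneg (by linarith)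
  rw [Real.rpow_def_of_pos (by linarith), ← Real.exp_log hn, Real.exp_le_exp]
  nlinarith [mul_le_mul_of_nonneg_left h5 hlog]

end Pool.Agent.S10141
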