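import Pool.Statements.S10151
import Pool.Agent.H340Z.CM.FinD

set_option autoImplicit false
open Pool Pool.MP_918571_co
open Pool.Agent.H340Z.CM

namespace Pool.Agent.S10151

/-- For n≥1, levels k_0..k_n with sum k and ∣q∣<1: the generating function of (2n−1)-coloured partitions (part i in colour c only if c+i odd) whose every path sum is at most k equals Primc's theta-product with modulus 2k+2n. -/
theorem result :
  ∀ n : ℕ, 1 ≤ n → ∀ k : ℕ → ℕ, ∀ q : ℂ, ‖q‖ < 1 →
    HasSum (fun N : ℕ => ((({g : ℕ → ℕ → ℕ |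
        (∀ i c, g i c ≠ 0 → 1 ≤ i ∧ i ≤ N ∧ 1 ≤ c ∧ c ≤ 2*n-1 ∧ Odd (c+i)) ∧
        (∑ i ∈ Finset.range (N+1), ∑ c ∈ Finset.Icc 1 (2*n-1), i * g i c) = N ∧
        ∀ p : ℕ → ℤ, (∀ c ∈ Finset.Icc 1 (2*n-1), -1 ≤ p c ∧ Odd (p c + (c : ℤ))) →
          (∀ r ∈ Finset.Icc 1 (2*n-2), |p r - p (r+1)| = 1) →
          (∑ c ∈ Finset.Icc 1 (2*n-1),
              (if 1 ≤ p c then g (p c).toNat c
               else if p c = 0 then (if c = 1 then k 0 else 0) + (if c = 2*n-1 then k n else 0)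
               else if Even c ∧ 2 ≤ c ∧ c ≤ 2*n-2 then k (c/2) else 0))
            ≤ ∑ t ∈ Finset.range (n+1), k t} : Set (ℕ → ℕ → ℕ)).ncard : ℕ) : ℂ) * q^N)
      ((∏' j : ℕ, (1 - q^((2*(∑ t ∈ Finset.range (n+1), k t) + 2*n)*(j+1))))^n
        / ((∏' j : ℕ, (1 - q^(2*(j+1)))) * (∏' j : ℕ, (1 - q^(j+1)))^(n-1))
        * ∏ i ∈ Finset.Icc 1 n, ∏ j ∈ Finset.Ioc i n,
          ((∏' r : ℕ, ((1 - q^(((∑ t ∈ Finset.Icc i n, k t) - (∑ t ∈ Finset.Icc j n, k t) + (j - i))
                  + (2*(∑ t ∈ Finset.range (n+1), k t) + 2*n)*r))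
              * (1 - q^((2*(∑ t ∈ Finset.range (n+1), k t) + 2*n)
                  - ((∑ t ∈ Finset.Icc i n, k t) - (∑ t ∈ Finset.Icc j n, k t) + (j - i))
                  + (2*(∑ t ∈ Finset.range (n+1), k t) + 2*n)*r))))
          * (∏' r : ℕ, ((1 - q^(((∑ t ∈ Finset.Icc i n, k t) + (∑ t ∈ Finset.Icc j n, k t) + (2*n+1 - (i+j)))
                  + (2*(∑ t ∈ Finset.range (n+1), k t) + 2*n)*r))
              * (1 - q^((2*(∑ t ∈ Finset.range (n+1), k t) + 2*n)
                  - ((∑ t ∈ Finset.Icc i n, k t) + (∑ t ∈ Finset.Icc j n, k t) + (2*n+1 - (i+j)))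
                  + (2*(∑ t ∈ Finset.range (n+1), k t) + 2*n)*r)))))) := by
  intro n hn k q hq
  have hmain := gf_adm hq (2 * n - 1) (KK k n) 1 (uu k n) (uu_mono k n) (xx k n 1) (xx_eq k n 1)
    (xx_valid k n le_rfl (by omega))
  have hM : 2 * n - 1 + 2 * KK k n + 1 = 2 * (n + KK k n) := by omega
  have hM' : 2 * (∑ t ∈ Finset.range (n+1), k t) + 2 * n = 2 * (n + KK k n) := by
    unfold KK; ring
  rw [hM, prodD hq hn k] at hmain
  rw [hM', poch_self, poch_self, poch_one]
  convert hmain using 1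
  · funext N
    congr 3
    ext g
    simp only [SN, Set.mem_ofPred_eq, Nat.cast_one]
    refine and_congr (forall₂_congr fun i c => imp_congr_right fun _ => ?_)
      (and_congr_right fun _ => ?_)
    · rw [Nat.odd_iff]; omega
    · rw [← admD hn k g]
      refine forall_congr' fun p => ?_
      rw [← and_imp]
      refine imp_congr ?_ Iff.rfl
      refine and_congr (forall_congr' fun c => ?_) (forall_congr' fun c => ?_)
      · rw [Finset.mem_Icc, Int.odd_iff]; omega
      · rw [Finset.mem_Icc, abs_eq zero_le_one]; omega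
  · congr 1
    refine Finset.prod_congr rfl fun i hi => Finset.prod_congr rfl fun j hj => ?_
    have h1 := Finset.mem_Icc.1 hi
    have h2 := Finset.mem_Ioc.1 hj
    have h3 := KK_tail k (c := i - 1) (n := n) (by omega)
    have h4 := KK_tail k (c := j - 1) (n := n) (by omega)
    have h5 := KK_mono k (show i - 1 ≤ j - 1 by omega)
    rw [show i - 1 + 1 = i by omega] at h3
    rw [show j - 1 + 1 = j by omega] at h4
    rw [T_eq hq (by omega), T_eq hq (by omega), gg, mul_comm]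
    congr 1
    · exact T_symm q (by unfold bb; omega)
    · congr 1; unfold bb; omega

end Pool.Agent.S10151
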