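import Pool.Statements.S10161
import Pool.Agent.H891Z.Count

set_option autoImplicit false
open Pool Pool.MP_9219e0_co

namespace Pool.Agent.S10161

/-- Monotone classes of bipartite graphs whose height-2 posets have bounded dimension have
bounded average degree. -/
theorem result :
    ∀ C : (m : ℕ) → (n : ℕ) → (Fin m → Fin n → Prop) → Prop,
      (∀ (m n : ℕ) (R : Fin m → Fin n → Prop) (m' n' : ℕ) (R' : Fin m' → Fin n' → Prop)
          (e : Fin m' ↪ Fin m) (g : Fin n' ↪ Fin n),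
          C m n R → (∀ a b, R' a b → R (e a) (g b)) → C m' n' R') →
      (∃ d : ℕ, ∀ (m n : ℕ) (R : Fin m → Fin n → Prop), C m n R →
          ∃ f : Fin d → (Fin m ⊕ Fin n) → ℕ,
            (∀ i, Function.Injective (f i)) ∧
            ∀ x y : Fin m ⊕ Fin n, x ≠ y →
              ((∃ a b, x = Sum.inl a ∧ y = Sum.inr b ∧ R a b) ↔ ∀ i, f i x < f i y)) →
      ∃ D : ℕ, ∀ (m n : ℕ) (R : Fin m → Fin n → Prop), C m n R →
        Set.ncard {p : Fin m × Fin n | R p.1 p.2} ≤ D * (m + n) := by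
  classical
  intro C hmono ⟨d, hd⟩
  obtain ⟨D, hD⟩ := Pool.Agent.H891Z.count_bound (Fin d)
  refine ⟨D, fun m n R hR => ?_⟩
  have h := hD (Fin m) (Fin n) (Finset.univ.filter fun p => R p.1 p.2) (by
    intro F hF
    have hC : C m n (fun a b => (a, b) ∈ F) :=
      hmono m n R m n _ (Function.Embedding.refl _) (Function.Embedding.refl _) hR
        (fun a b hab => (Finset.mem_filter.1 (hF hab)).2)
    obtain ⟨f, -, hf⟩ := hd m n _ hC
    refine ⟨fun i a => (f i (Sum.inl a) : ℝ) + 1, fun i b => (f i (Sum.inr b) : ℝ), ?_⟩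
    rintro ⟨a, b⟩ _
    have h1 := hf (Sum.inl a) (Sum.inr b) (by simp)
    have h2 : (∃ a' b', (Sum.inl a : Fin m ⊕ Fin n) = Sum.inl a' ∧
        (Sum.inr b : Fin m ⊕ Fin n) = Sum.inr b' ∧ (a', b') ∈ F) ↔ (a, b) ∈ F := by
      simp
    rw [h2] at h1
    rw [h1]
    refine forall_congr' fun i => ?_
    show f i (Sum.inl a) < f i (Sum.inr b) ↔ (f i (Sum.inl a) : ℝ) + 1 ≤ (f i (Sum.inr b) : ℝ)
    rw [← Nat.add_one_le_iff]
    exact_mod_cast Iff.rfl)
  simp only [Fintype.card_fin] at h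
  have : {p : Fin m × Fin n | R p.1 p.2} =
      ((Finset.univ.filter fun p : Fin m × Fin n => R p.1 p.2 : Finset _) : Set _) := by
    ext p; simp
  rw [this, Set.ncard_coe_finset]
  exact h

end Pool.Agent.S10161
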