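import Pool.Statements.S10198
import Pool.Agent.H497Z.Domatic

set_option autoImplicit false
open Pool Pool.MP_94225f_co

namespace Pool.Agent.S10198

/-- The negation of the preceding statement: For finite nonempty graphs G, H without isolated vertices, if the Cartesian product splits into k total dominating sets, then for some m with k ≤ 2m+1, G or H splits into m dominating sets; that is, d_t(G□H) ≤ 2max(d(G),d(H))+1. -/
theorem result :
    ¬ (∀ (V W : Type) [Fintype V] [Fintype W] [Nonempty V] [Nonempty W]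
      (G : SimpleGraph V) (H : SimpleGraph W),
      (∀ v : V, ∃ u : V, G.Adj v u) →
      (∀ w : W, ∃ u : W, H.Adj w u) →
      ∀ k : ℕ,
        (∃ f : V × W → Fin k, ∀ x : V × W, ∀ i : Fin k,
            ∃ y : V × W, (SimpleGraph.boxProd G H).Adj x y ∧ f y = i) →
        ∃ m : ℕ, k ≤ 2 * m + 1 ∧
          ((∃ c : V → Fin m, ∀ v : V, ∀ i : Fin m,
              ∃ u : V, (u = v ∨ G.Adj v u) ∧ c u = i) ∨
           (∃ c : W → Fin m, ∀ w : W, ∀ i : Fin m,
              ∃ u : W, (u = w ∨ H.Adj w u) ∧ c u = i))) := by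
  intro h
  obtain ⟨m, hm, hc⟩ := h H497Z.Domatic.V H497Z.Domatic.V H497Z.Domatic.G H497Z.Domatic.G
    H497Z.Domatic.no_isolated H497Z.Domatic.no_isolated 8
    ⟨H497Z.Domatic.col, H497Z.Domatic.total⟩
  have h3 : m ≤ 3 := by
    rcases hc with ⟨c, hc⟩ | ⟨c, hc⟩ <;> exact H497Z.Domatic.dom_le m c hc
  omega

end Pool.Agent.S10198
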