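import Pool.Statements.S10219
import Pool.Agent.H711Z.LTD

set_option autoImplicit false
open Pool Pool.MP_94f1c2_co

namespace Pool.Agent.S10219

/-- Every finite graph with no isolated vertices and no two vertices sharing an open or a closed neighbourhood has a vertex set D meeting every neighbourhood and separating all vertices outside D by their neighbours in D, with size at most 2n/3. -/
theorem result :
    ∀ (V : Type) [Fintype V] (G : SimpleGraph V),
      (∀ v : V, ∃ u : V, G.Adj v u) →
      (∀ u v : V, u ≠ v → G.neighborSet u ≠ G.neighborSet v) →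
      (∀ u v : V, u ≠ v →
        (insert u (G.neighborSet u) : Set V) ≠ insert v (G.neighborSet v)) →
      ∃ D : Finset V,
        (∀ v : V, ∃ u ∈ D, G.Adj v u) ∧
        (∀ u v : V, u ∉ D → v ∉ D → u ≠ v →
          {w : V | w ∈ D ∧ G.Adj u w} ≠ {w : V | w ∈ D ∧ G.Adj v w}) ∧
        3 * D.card ≤ 2 * Fintype.card V := by
  intro V _ G hiso ho hc
  classical
  have htw : ∀ u v : V, u ≠ v → ∃ z, z ≠ u ∧ z ≠ v ∧ ¬ (G.Adj u z ↔ G.Adj v z) := by
    intro u v huv
    by_contra hcon
    push Not at hcon
    by_cases h : G.Adj u v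
    · apply hc u v huv
      ext z
      simp only [Set.mem_insert_iff, SimpleGraph.mem_neighborSet]
      by_cases hzu : z = u
      · simp [hzu, h.symm]
      by_cases hzv : z = v
      · simp [hzv, h]
      simp [hzu, hzv, hcon z hzu hzv]
    · apply ho u v huv
      ext z
      simp only [SimpleGraph.mem_neighborSet]
      by_cases hzu : z = u
      · have h' : ¬ G.Adj v u := fun h1 => h h1.symm
        simp [hzu, h']
      by_cases hzv : z = v
      · simp [hzv, h]
      exact hcon z hzu hzv
  obtain ⟨F, h1, h2, h3⟩ := Pool.Agent.H711Z.LTD.main hiso htw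
  refine ⟨F, h1, fun u v hu hv huv h => huv (h2 u v hu hv ?_), h3⟩
  ext w
  have := Set.ext_iff.mp h w
  simp only [Set.mem_setOf_eq] at this
  simp only [Finset.mem_inter, Pool.Agent.H711Z.LTD.mem_N]
  tauto

end Pool.Agent.S10219
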