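import Pool.Statements.S10226
import Pool.Agent.H761Z.PlanarSize

set_option autoImplicit false
open Pool Pool.MP_951455_co

namespace Pool.Agent.S10226

/-- The negation of the preceding statement: Some c ≥ 1 works so that for all n,k,b ≥ 1 with n ≤ kb, every n-vertex planar graph of treewidth ≤ k and path-partition-width ≤ b is a subgraph of H⊠P⊠K_c, with H planar, treewidth ≤ 3, at most b vertices, and P a path on k vertices. -/
theorem result :
    ¬ (∃ c : ℕ, 1 ≤ c ∧
  ∀ n k b : ℕ, 1 ≤ n → 1 ≤ k → 1 ≤ b → n ≤ k * b →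
  ∀ G : SimpleGraph (Fin n),
    (∃ p : Fin n → ℝ × ℝ, Function.Injective p ∧
      ∃ γ : Fin n → Fin n → unitInterval → ℝ × ℝ,
        (∀ u v, G.Adj u v → Continuous (γ u v) ∧ Function.Injective (γ u v) ∧
            γ u v 0 = p u ∧ γ u v 1 = p v) ∧
        (∀ u v w x, G.Adj u v → γ u v x = p w → (w = u ∧ x = 0) ∨ (w = v ∧ x = 1)) ∧
        (∀ u v u' v' x y, G.Adj u v → G.Adj u' v' → Sym2.mk (u, v) ≠ Sym2.mk (u', v') →
            γ u v x = γ u' v' y → ∃ w, γ u v x = p w)) →
    (∃ m : ℕ, ∃ T : SimpleGraph (Fin m), T.IsTree ∧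
      ∃ B : Fin m → Finset (Fin n),
        (∀ v, ∃ i, v ∈ B i) ∧
        (∀ u v, G.Adj u v → ∃ i, u ∈ B i ∧ v ∈ B i) ∧
        (∀ v, (T.induce {i | v ∈ B i}).Connected) ∧
        (∀ i, (B i).card ≤ k + 1)) →
    (∃ f : Fin n → ℕ,
      (∀ u v, G.Adj u v → f u ≤ f v + 1 ∧ f v ≤ f u + 1) ∧
      (∀ i : ℕ, (Finset.univ.filter (fun v => f v = i)).card ≤ b)) →
    ∃ m : ℕ, m ≤ b ∧ ∃ H : SimpleGraph (Fin m),
      (∃ p : Fin m → ℝ × ℝ, Function.Injective p ∧
        ∃ γ : Fin m → Fin m → unitInterval → ℝ × ℝ,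
          (∀ u v, H.Adj u v → Continuous (γ u v) ∧ Function.Injective (γ u v) ∧
              γ u v 0 = p u ∧ γ u v 1 = p v) ∧
          (∀ u v w x, H.Adj u v → γ u v x = p w → (w = u ∧ x = 0) ∨ (w = v ∧ x = 1)) ∧
          (∀ u v u' v' x y, H.Adj u v → H.Adj u' v' → Sym2.mk (u, v) ≠ Sym2.mk (u', v') →
              γ u v x = γ u' v' y → ∃ w, γ u v x = p w)) ∧
      (∃ r : ℕ, ∃ T : SimpleGraph (Fin r), T.IsTree ∧
        ∃ B : Fin r → Finset (Fin m),
          (∀ v, ∃ i, v ∈ B i) ∧
          (∀ u v, H.Adj u v → ∃ i, u ∈ B i ∧ v ∈ B i) ∧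
          (∀ v, (T.induce {i | v ∈ B i}).Connected) ∧
          (∀ i, (B i).card ≤ 3 + 1)) ∧
      ∃ φ : Fin n → Fin m × Fin k × Fin c, Function.Injective φ ∧
        ∀ u v, G.Adj u v →
          ((φ u).1 = (φ v).1 ∨ H.Adj (φ u).1 (φ v).1) ∧
          ((φ u).2.1 = (φ v).2.1 ∨ (SimpleGraph.pathGraph k).Adj (φ u).2.1 (φ v).2.1)) := by
  classical
  rintro ⟨c, hc, h⟩
  set L : ℕ := 486 * c ^ 2 + 1 with hL
  have hpos : 0 < 2 ^ L := by positivity
  let V := Pool.Agent.H761Z.PlanarSize.Vx L
  let e : Fin (Fintype.card V) ≃ V := (Fintype.equivFin V).symm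
  have hn : 1 ≤ Fintype.card V :=
    Fintype.card_pos_iff.2 ⟨(⟨0, by omega⟩, 0, ⟨0, hpos⟩)⟩
  let G : SimpleGraph (Fin (Fintype.card V)) := (Pool.Agent.H761Z.PlanarSize.F L).comap e
  obtain ⟨m, hm, H, -, ⟨r, T, hT, B, b1, b2, b3, b4⟩, φ, hφ, hadj⟩ :=
    h (Fintype.card V) (Fintype.card V) (3 * 2 ^ L) hn hn (by omega)
      (Nat.le_mul_of_pos_right _ (by omega)) G
      ⟨fun v => Pool.Agent.H761Z.PlanarSize.pt (e v),
        Pool.Agent.H761Z.PlanarSize.pt_inj.comp e.injective,
        fun u v => Pool.Agent.H761Z.PlanarSize.gam (e u) (e v),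
        fun u v huv => Pool.Agent.H761Z.PlanarSize.gam_basic huv,
        fun u v w x huv he => by
          rcases Pool.Agent.H761Z.PlanarSize.gam_pt x huv he with ⟨k1, k2⟩ | ⟨k1, k2⟩
          · exact Or.inl ⟨e.injective k1, k2⟩
          · exact Or.inr ⟨e.injective k1, k2⟩,
        fun u v u' v' x y huv huv' hne he => by
          obtain ⟨w, hw⟩ := Pool.Agent.H761Z.PlanarSize.gam_cross x y huv huv' (by
            intro hh
            apply hne
            rw [e.injective (congrArg Prod.fst hh), e.injective (congrArg Prod.snd hh)]) he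
          exact ⟨e.symm w, by simpa using hw⟩⟩
      ⟨1, ⊥, SimpleGraph.IsTree.of_subsingleton, fun _ => Finset.univ, fun v => ⟨0, by simp⟩,
        fun u v _ => ⟨0, by simp⟩,
        fun v => by
          haveI : Nonempty {i : Fin 1 | v ∈ (Finset.univ : Finset (Fin (Fintype.card V)))} :=
            ⟨⟨0, by simp⟩⟩
          exact SimpleGraph.IsTree.of_subsingleton.connected,
        fun i => by simp⟩
      ⟨fun v => ((e v).1 : ℕ), fun u v huv => by
          have : (e u).1 = (e v).1 := by
            rcases huv with k | k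
            · exact k.1
            · exact k.1.symm
          simp only [this]
          omega,
        fun i => by
          have : (Finset.univ.filter (fun v => ((e v).1 : ℕ) = i)).card ≤
              (Finset.univ : Finset (Fin 3 × Fin (2 ^ L))).card := by
            apply Finset.card_le_card_of_injOn (fun v => (e v).2)
            · intro v _
              simp
            · intro u hu v hv huv
              simp only [Finset.coe_filter, Finset.mem_univ, true_and, Set.mem_setOf_eq] at hu hv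
              apply e.injective
              exact Prod.ext (Fin.ext (hu.trans hv.symm)) huv
          simpa using this⟩
  have k1 := Pool.Agent.H761Z.TwEdges.sum_degree_le H hT B (3 + 1) b1 b2 b3 b4
  have k2 := Pool.Agent.H761Z.PlanarSize.count (L := L) H
    (fun v => ((φ (e.symm v)).1, ((φ (e.symm v)).2.1 : ℕ), (φ (e.symm v)).2.2))
    (by
      intro u v huv
      simp only [Prod.mk.injEq] at huv
      apply e.symm.injective
      apply hφ
      exact Prod.ext huv.1 (Prod.ext (Fin.ext huv.2.1) huv.2.2))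
    (by
      intro u v huv
      have := hadj (e.symm u) (e.symm v) (by simpa [G] using huv)
      refine ⟨this.1, ?_⟩
      rcases this.2 with k | k
      · simp only [k]
        omega
      · rw [SimpleGraph.pathGraph_adj] at k
        simp only
        omega)
  rw [Fintype.card_fin] at k1 k2
  have k3 : L * 2 ^ L ≤ 18 * c ^ 2 * (9 * (3 * 2 ^ L)) :=
    k2.trans (Nat.mul_le_mul_left _ (by omega))
  have k4 : L * 2 ^ L = 18 * c ^ 2 * (9 * (3 * 2 ^ L)) + 2 ^ L := by
    generalize 2 ^ L = N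
    rw [hL]
    ring
  omega

end Pool.Agent.S10226
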