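import Pool.Statements.S10292
import Pool.Agent.H967Z.IndRatio

set_option autoImplicit false
open Classical
open Pool Pool.MP_97ae25_co

namespace Pool.Agent.S10292

/-- The negation of the preceding statement: For every ε>0 there is D such that every finite triangle-free graph with minimum degree at least D has independence number at least (2−ε) times the average size of a uniformly random independent set. -/
theorem result :
    ¬ (∀ ε : ℝ, 0 < ε → ∃ D : ℕ, ∀ (V : Type) [Fintype V] [DecidableEq V] (G : SimpleGraph V) [DecidableRel G.Adj],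
    G.CliqueFree 3 → D ≤ G.minDegree →
    (2 - ε) * (∑ s ∈ Finset.filter (fun s : Finset V => G.IsIndepSet (↑s : Set V)) (Finset.univ : Finset (Finset V)),
        ((Finset.card s : ℕ) : ℝ))
      ≤ (G.indepNum : ℝ) *
        ((Finset.card (Finset.filter (fun s : Finset V => G.IsIndepSet (↑s : Set V)) (Finset.univ : Finset (Finset V))) : ℕ) : ℝ)) := by
  intro h
  obtain ⟨d, hd⟩ := h (1 / 4) (by norm_num)
  have hne : Nonempty (Pool.Agent.H967Z.IndRatio.V (4 * (12 * d + 12)) d) :=
    ⟨Sum.inl (⟨0, by omega⟩, true)⟩
  have h1 := hd (Pool.Agent.H967Z.IndRatio.V (4 * (12 * d + 12)) d)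
    (Pool.Agent.H967Z.IndRatio.G _ d) (Pool.Agent.H967Z.IndRatio.cliqueFree _ d)
    (SimpleGraph.le_minDegree_of_forall_le_degree _ d
      (fun v => Pool.Agent.H967Z.IndRatio.deg_ge _ d (by omega) v))
  have h2 := Pool.Agent.H967Z.IndRatio.main d
  unfold Pool.Agent.H967Z.IndRatio.I at h2
  exact absurd h1 (not_le.mpr (by convert h2))

end Pool.Agent.S10292
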