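import Pool.Statements.S10323
import Pool.Agent.H526Z.DN.Part
import Pool.Agent.H526Z.DN.Geo

set_option autoImplicit false
open Pool Pool.MP_993692_co

namespace Pool.Agent.S10323

/-- For all k, ℓ there is D such that every finite graph with treewidth ≤ k and max degree ≤ ℓ has a straight-line plane drawing with distinct vertex points and no vertex on a non-incident edge, using at most D distinct edge lengths. -/
theorem result :
    ∀ k ℓ : ℕ, ∃ D : ℕ, ∀ (V : Type) [Fintype V] (G : SimpleGraph V),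
      (∃ (ι : Type) (_ : Fintype ι) (T : SimpleGraph ι) (B : ι → Finset V),
        T.IsTree ∧ (∀ i, (B i).card ≤ k + 1) ∧ (∀ v, ∃ i, v ∈ B i) ∧
        (∀ u v, G.Adj u v → ∃ i, u ∈ B i ∧ v ∈ B i) ∧
        (∀ v i j, v ∈ B i → v ∈ B j → ∃ q : T.Walk i j, ∀ x ∈ q.support, v ∈ B x)) →
      (∀ v, (G.neighborSet v).ncard ≤ ℓ) →
      ∃ p : V → EuclideanSpace ℝ (Fin 2), Function.Injective p ∧
        (∀ u v w, G.Adj u v → w ≠ u → w ≠ v → p w ∉ segment ℝ (p u) (p v)) ∧
        {d : ℝ | ∃ u v, G.Adj u v ∧ dist (p u) (p v) = d}.ncard ≤ D := by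
  intro k ℓ
  let M := 12 * (k + 1) * ℓ + 12 * (k + 1) + 1
  refine ⟨(2 * M) * (2 * M) + M * ((2 * M) * (2 * M)), ?_⟩
  intro V _ G ⟨ι, _, T, B, hT, hK, h1, h2, h3⟩ hdeg
  classical
  have hsep := Pool.Agent.H526Z.DN.hasSep G (k + 1) T B hT hK h1 h2 h3
  obtain ⟨φ, j, hadj, hlet, hj, hinj⟩ :=
    Pool.Agent.H526Z.DN.address G (k + 1) ℓ M (by omega) le_rfl hsep hdeg
  obtain ⟨t, ht, hinj', hseg⟩ := Pool.Agent.H526Z.DN.exists_t φ j hinj
  let e := Complex.orthonormalBasisOneI.repr
  let z : V → ℂ := fun v => (Pool.Agent.H526Z.DN.P (φ v) (j v)).eval t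
  refine ⟨fun v => e (z v), e.injective.comp hinj', ?_, ?_⟩
  · intro u v w huv hu hv hs
    have hs' : z w ∈ segment ℝ (z u) (z v) := by
      obtain ⟨a, b, ha, hb, hab, h⟩ := hs
      refine ⟨a, b, ha, hb, hab, e.injective ?_⟩
      rw [map_add, map_smul, map_smul]
      exact h
    rcases hadj u v huv with h | h | h
    · exact hseg u v w huv.ne (Or.inl h.symm) hu hv hs'
    · exact hseg u v w huv.ne (Or.inr h) hu hv hs'
    · exact hseg v u w huv.ne' (Or.inr h) hv hu (segment_symm ℝ (z u) (z v) ▸ hs')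
  · let R := Finset.range (2 * M) ×ˢ Finset.range (2 * M)
    let F1 : Finset ℝ := R.image fun x =>
      ‖Pool.Agent.H526Z.DN.q x.2 - Pool.Agent.H526Z.DN.q x.1‖
    let F2 : Finset ℝ := (Finset.range M ×ˢ R).image fun x =>
      ‖Pool.Agent.H526Z.DN.c x.1 - Pool.Agent.H526Z.DN.q x.2.1 + Pool.Agent.H526Z.DN.q x.2.2 * t‖
    have hc : ∀ u v a, φ v = φ u ++ [a] → dist (z v) (z u) ∈ F2 := by
      intro u v a h
      refine Finset.mem_image.2 ⟨(a, j u, j v), ?_, ?_⟩
      · simp only [R, Finset.mem_product, Finset.mem_range]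
        exact ⟨hlet v a (by simp [h]), hj u, hj v⟩
      · simp only [z]
        rw [dist_eq_norm, ← Polynomial.eval_sub, h, Pool.Agent.H526Z.DN.P_child]
        simp [ht]
    have hsub : {d : ℝ | ∃ u v, G.Adj u v ∧ dist (e (z u)) (e (z v)) = d} ⊆ ↑(F1 ∪ F2) := by
      rintro d ⟨u, v, huv, rfl⟩
      rw [e.dist_map, Finset.mem_coe, Finset.mem_union]
      rcases hadj u v huv with h | ⟨a, h⟩ | ⟨a, h⟩
      · left
        refine Finset.mem_image.2 ⟨(j v, j u), ?_, ?_⟩
        · simp only [R, Finset.mem_product, Finset.mem_range]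
          exact ⟨hj v, hj u⟩
        · simp only [z]
          rw [dist_eq_norm, ← Polynomial.eval_sub, h, Pool.Agent.H526Z.DN.P_same]
          simp [ht]
      · right
        rw [dist_comm]
        exact hc u v a h
      · right
        exact hc v u a h
    refine le_trans (Set.ncard_le_ncard hsub (Finset.finite_toSet _)) ?_
    rw [Set.ncard_coe_finset]
    refine le_trans (Finset.card_union_le _ _) (add_le_add ?_ ?_)
    · refine le_trans Finset.card_image_le ?_
      simp [R]
    · refine le_trans Finset.card_image_le ?_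
      simp [R]

end Pool.Agent.S10323
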