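import Pool.Statements.S10346
import Pool.Agent.H709Z.ConsecB

set_option autoImplicit false
open Pool Pool.MP_9a52ae_co

namespace Pool.Agent.S10346

/-- The negation of the preceding statement: For every permutation pattern σ of length at least 2, the reciprocal of the exponential generating function of permutations avoiding σ as a consecutive pattern extends to an entire function on ℂ. -/
theorem result :
    ¬ (∀ k : ℕ, 2 ≤ k → ∀ σ : Equiv.Perm (Fin k),
      ∃ f : ℂ → ℂ, Differentiable ℂ f ∧
        ∀ᶠ z in nhds (0 : ℂ),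
          f z * (∑' n : ℕ,
            ((Nat.card {π : Equiv.Perm (Fin n) //
                ¬ ∃ i : ℕ, i + k ≤ n ∧
                  ∀ a b : Fin k,
                    (σ a < σ b ↔
                      (if h : i + (a : ℕ) < n then ((π ⟨i + (a : ℕ), h⟩ : Fin n) : ℕ) else 0) <
                      (if h : i + (b : ℕ) < n then ((π ⟨i + (b : ℕ), h⟩ : Fin n) : ℕ) else 0))} : ℕ) : ℂ)
              * z ^ n / ((Nat.factorial n : ℕ) : ℂ)) = 1) := by
  intro h
  obtain ⟨f, hf, hz⟩ := h 6 (by norm_num) Pool.Agent.H709Z.Consec.σ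
  refine Pool.Agent.H709Z.Consec.not_entire f hf ?_
  filter_upwards [hz] with z hz
  rw [← hz]
  congr 1
  refine tsum_congr fun n => ?_
  have e := congrArg (Int.cast : ℤ → ℂ) (Pool.Agent.H709Z.Consec.card_eq n)
  rw [Int.cast_natCast] at e
  rw [Pool.Agent.H709Z.Consec.a]
  push_cast
  rw [← e, div_mul_eq_mul_div]
  rfl

end Pool.Agent.S10346
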