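import Pool.Statements.S10402
import Pool.Agent.H511Z.LayCon

set_option autoImplicit false
open Pool Pool.MP_9cfd90_co

namespace Pool.Agent.S10402

/-- The negation of the preceding statement: There is f such that for all s ≥ 2, k, t, every finite graph of layered treewidth at most k with no K_{s,t} subgraph has an (s+1)-colouring whose monochromatic components each have at most f(k,s,t) vertices. -/
theorem result :
    ¬ (∃ f : ℕ → ℕ → ℕ → ℕ, ∀ s : ℕ, 2 ≤ s → ∀ k t : ℕ, ∀ (V : Type) [Fintype V] (G : SimpleGraph V),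
      (∃ (ι : Type) (_ : Fintype ι) (T : SimpleGraph ι) (B : ι → Set V) (ℓ : V → ℕ),
        T.IsTree ∧ (∀ v : V, ∃ i, v ∈ B i) ∧
        (∀ u v : V, G.Adj u v → ∃ i, u ∈ B i ∧ v ∈ B i) ∧
        (∀ v : V, (T.induce {i | v ∈ B i}).Connected) ∧
        (∀ u v : V, G.Adj u v → ℓ u ≤ ℓ v + 1) ∧
        (∀ (i : ι) (n : ℕ), Set.ncard {x : V | x ∈ B i ∧ ℓ x = n} ≤ k)) →
      (¬ ∃ φ : completeBipartiteGraph (Fin s) (Fin t) →g G, Function.Injective φ) →
      ∃ c : V → Fin (s + 1), ∀ v : V,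
        Set.ncard {u : V | (G ⊓ SimpleGraph.fromRel (fun x y => c x = c y)).Reachable v u}
          ≤ f k s t) := by
  classical
  rintro ⟨f, hf⟩
  let C := f 4 2 21
  let V := H511Z.Lay.W C (C + 1) ((C + 1) * C + 1)
  let _ : Fintype V := Fintype.ofFinite V
  obtain ⟨c, hc⟩ := hf 2 le_rfl 4 21 V (H511Z.Lay.GG _ _ _) (by
    refine ⟨V, inferInstance, H511Z.Lay.parGraph H511Z.Lay.par,
      fun x => {y | H511Z.Lay.InB x y}, H511Z.Lay.lay, ?_, ?_, ?_, ?_, ?_, ?_⟩
    · exact H511Z.Lay.parGraph_isTree _ H511Z.Lay.W.root H511Z.Lay.dep H511Z.Lay.dep_par rfl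
    · exact fun v => ⟨v, H511Z.Lay.inB_self v⟩
    · intro u v huv
      exact H511Z.Lay.adj_bag huv
    · intro v
      exact H511Z.Lay.induce_connected H511Z.Lay.par H511Z.Lay.W.root H511Z.Lay.dep
        H511Z.Lay.dep_par (fun x : V => H511Z.Lay.InB x v) v (H511Z.Lay.inB_self v)
        (fun x hx hxv => H511Z.Lay.inB_par v x hx hxv)
    · intro u v huv
      exact (H511Z.Lay.adj_lay huv).1
    · intro x i
      obtain ⟨e1, e2, e3, e4, h⟩ := H511Z.Lay.bag_layer x i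
      refine le_trans (Set.ncard_le_ncard (t := (({e1, e2, e3, e4} : Finset V) : Set V)) ?_) ?_
      · intro y hy
        simpa using h y hy.1 hy.2
      · rw [Set.ncard_coe_finset]
        exact Finset.card_le_four) (fun ⟨φ, hφ⟩ => H511Z.Lay.no_K2 ⟨⟨φ, hφ⟩⟩)
  refine H511Z.Lay.no_colouring (C := C) c ?_ le_rfl (Nat.lt_succ_self _) (Nat.lt_succ_self _)
  intro S hS hconn
  obtain ⟨⟨v, hv⟩⟩ := hconn.nonempty
  refine le_trans ?_ (hc v)
  rw [← Set.ncard_coe_finset]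
  refine Set.ncard_le_ncard fun u hu => ?_
  let φ : (H511Z.Lay.GG C (C + 1) ((C + 1) * C + 1)).induce (S : Set V) →g
      (H511Z.Lay.GG C (C + 1) ((C + 1) * C + 1) ⊓ SimpleGraph.fromRel (fun x y => c x = c y)) :=
    ⟨fun x => x.1, fun {a b} hab => by
      have hab' : (H511Z.Lay.GG C (C + 1) ((C + 1) * C + 1)).Adj a.1 b.1 := hab
      refine ⟨hab', ?_⟩
      rw [SimpleGraph.fromRel_adj]
      exact ⟨hab'.ne, Or.inl (hS _ a.2 _ b.2)⟩⟩
  exact (hconn.preconnected ⟨v, hv⟩ ⟨u, hu⟩).map φ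

end Pool.Agent.S10402
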