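import Pool.Statements.S10439
import Pool.Agent.H340Z.CM.FinC

set_option autoImplicit false
open Pool Pool.MP_9edfd9_co
open Pool.Agent.H340Z.CM

namespace Pool.Agent.S10439

/-- For n≥1, k_0..k_n and 0<q<1, summing q^weight over (2n+1)-coloured partitions (parts of colour c have parity of c) whose every path sum is at most k gives the stated theta-product formula. -/
theorem result :
  ∀ n : ℕ, 1 ≤ n → ∀ k : ℕ → ℕ, ∀ q : ℝ, 0 < q → q < 1 →
    HasSum
      (fun N : ℕ =>
        ((({f : ℕ → ℕ → ℕ |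
            (∀ c i, f c i ≠ 0 → 1 ≤ c ∧ c ≤ 2 * n + 1 ∧ 1 ≤ i ∧ i ≤ N ∧ Even (c + i)) ∧
            (∑ c ∈ Finset.Icc 1 (2 * n + 1), ∑ i ∈ Finset.Icc 1 N, i * f c i) = N ∧
            ∀ p : ℕ → ℤ,
              (∀ c ∈ Finset.Icc 1 (2 * n + 1), -1 ≤ p c ∧ Even (p c + (c : ℤ))) →
              (∀ c ∈ Finset.Icc 1 (2 * n), |p c - p (c + 1)| = 1) →
              (∑ c ∈ Finset.Icc 1 (2 * n + 1),
                  (if p c = -1 then (if Odd c then k ((c - 1) / 2) else 0)
                   else f c (p c).toNat))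
                ≤ ∑ t ∈ Finset.range (n + 1), k t}).ncard : ℕ) : ℝ) * q ^ N)
      ((∏' j : ℕ, (1 - q ^ (((∑ t ∈ Finset.range (n + 1), k t) + n + 1)
              + (2 * ((∑ t ∈ Finset.range (n + 1), k t) + n + 1)) * j)))
        * (∏' j : ℕ, (1 - q ^ ((2 * ((∑ t ∈ Finset.range (n + 1), k t) + n + 1))
              + (2 * ((∑ t ∈ Finset.range (n + 1), k t) + n + 1)) * j))) ^ n
        / ((∏' j : ℕ, (1 - q ^ (1 + 2 * j))) * (∏' j : ℕ, (1 - q ^ (1 + j))) ^ n)
        * (∏ i ∈ Finset.Icc 1 n,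
            ((∏' j : ℕ, (1 - q ^ (((∑ t ∈ Finset.Icc i n, k t) + (n - i) + 1)
                + ((∑ t ∈ Finset.range (n + 1), k t) + n + 1) * j)))
             * (∏' j : ℕ, (1 - q ^ ((((∑ t ∈ Finset.range (n + 1), k t) + n + 1)
                - ((∑ t ∈ Finset.Icc i n, k t) + (n - i) + 1))
                + ((∑ t ∈ Finset.range (n + 1), k t) + n + 1) * j)))))
        * (∏ i ∈ Finset.Icc 1 n, ∏ l ∈ Finset.Icc (i + 1) n,
            ((∏' j : ℕ, (1 - q ^ ((((∑ t ∈ Finset.Icc i n, k t) - (∑ t ∈ Finset.Icc l n, k t)) + (l - i))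
                + (2 * ((∑ t ∈ Finset.range (n + 1), k t) + n + 1)) * j)))
             * (∏' j : ℕ, (1 - q ^ (((2 * ((∑ t ∈ Finset.range (n + 1), k t) + n + 1))
                - (((∑ t ∈ Finset.Icc i n, k t) - (∑ t ∈ Finset.Icc l n, k t)) + (l - i)))
                + (2 * ((∑ t ∈ Finset.range (n + 1), k t) + n + 1)) * j)))
             * (∏' j : ℕ, (1 - q ^ (((∑ t ∈ Finset.Icc i n, k t) + (∑ t ∈ Finset.Icc l n, k t) + (n - i) + (n - l) + 2)
                + (2 * ((∑ t ∈ Finset.range (n + 1), k t) + n + 1)) * j)))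
             * (∏' j : ℕ, (1 - q ^ (((2 * ((∑ t ∈ Finset.range (n + 1), k t) + n + 1))
                - ((∑ t ∈ Finset.Icc i n, k t) + (∑ t ∈ Finset.Icc l n, k t) + (n - i) + (n - l) + 2))
                + (2 * ((∑ t ∈ Finset.range (n + 1), k t) + n + 1)) * j)))))) := by
  intro n hn k q h0 h1
  have hq : ‖(q : ℂ)‖ < 1 := by rw [Complex.norm_real, Real.norm_of_nonneg h0.le]; exact h1
  have hmain := gf_adm hq (2 * n + 1) (KK k n) 2 (uu k n) (uu_mono k n) (xx k n 2) (xx_eq k n 2)
    (xx_valid k n (by omega) (by omega))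
  have hM : 2 * n + 1 + 2 * KK k n + 1 = 2 * (n + KK k n) + 2 := by omega
  have hM' : (∑ t ∈ Finset.range (n + 1), k t) + n + 1 = n + KK k n + 1 := by
    unfold KK; ring
  have hM2 : 2 * (n + KK k n + 1) = 2 * (n + KK k n) + 2 := by ring
  rw [hM, prodC hq n k] at hmain
  rw [hM', hM2, ← Complex.hasSum_ofReal]
  have r1 : ∀ a, ((∏' j : ℕ, (1 - q ^ (a + (2 * (n + KK k n) + 2) * j)) : ℝ) : ℂ) = _ :=
    ofReal_η h0 h1 (by omega)
  have r2 : ∀ a, ((∏' j : ℕ, (1 - q ^ (a + (n + KK k n + 1) * j)) : ℝ) : ℂ) = _ :=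
    ofReal_η h0 h1 (by omega)
  have r3 := ofReal_η h0 h1 two_pos 1
  have r4 := ofReal_η h0 h1 one_pos 1
  simp only [one_mul] at r4
  simp only [Complex.ofReal_mul, Complex.ofReal_div, Complex.ofReal_pow, Complex.ofReal_prod,
    Complex.ofReal_natCast, r1, r2, r3, r4]
  convert hmain using 1
  · funext N
    congr 2
    refine ncard_swap _ _ fun f => ?_
    simp only [SN, Set.mem_ofPred_eq, Nat.cast_ofNat]
    rw [forall_comm, sum_swap_eq]
    refine (and_congr_right fun hs => and_congr_right fun _ => ?_).trans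
      (and_congr_left' (forall₂_congr fun i c => imp_congr_right fun _ => ?_))
    · rw [← admC n k (fun c => by
        by_contra hne
        have := hs 0 c hne
        omega)]
      refine forall_congr' fun p => ?_
      rw [← and_imp]
      refine imp_congr ?_ Iff.rfl
      refine and_congr (forall_congr' fun c => ?_) (forall_congr' fun c => ?_)
      · rw [Finset.mem_Icc, Int.even_iff]; omega
      · rw [Finset.mem_Icc, abs_eq zero_le_one]; omega
    · rw [Nat.even_iff]; omega
  · congr 1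
    · congr 1
      refine Finset.prod_congr rfl fun i hi => ?_
      have h1 := Finset.mem_Icc.1 hi
      have h3 := KK_tail k (c := i - 1) (n := n) (by omega)
      rw [show i - 1 + 1 = i by omega] at h3
      exact T_symm q (by unfold bb; omega)
    · refine Finset.prod_congr rfl fun i hi => Finset.prod_congr
        (by ext x; simp only [Finset.mem_Icc, Finset.mem_Ioc]; omega) fun j hj => ?_
      have h1 := Finset.mem_Icc.1 hi
      have h2 := Finset.mem_Ioc.1 hj
      have h3 := KK_tail k (c := i - 1) (n := n) (by omega)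
      have h4 := KK_tail k (c := j - 1) (n := n) (by omega)
      have h5 := KK_mono k (show i - 1 ≤ j - 1 by omega)
      rw [show i - 1 + 1 = i by omega] at h3
      rw [show j - 1 + 1 = j by omega] at h4
      rw [gg, mul_comm (T _ _ _), mul_assoc]
      congr 1
      · rw [T, show bb k (j - 1) - bb k (i - 1) = (∑ t ∈ Finset.Icc i n, k t) -
          (∑ t ∈ Finset.Icc j n, k t) + (j - i) by unfold bb; omega]
      · exact T_symm q (by unfold bb; omega)

end Pool.Agent.S10439
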