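import Pool.Statements.S10449
import Pool.Agent.H628Z.EmuMain

set_option autoImplicit false
open Pool Pool.MP_9f8021_co

namespace Pool.Agent.S10449

/-- There is a finite graph drawable in the plane without edge crossings with a surjective map onto K_{4,4} minus one edge. The map preserves adjacency and sends each vertex's neighbours onto all neighbours of its image. -/
theorem result :
    ∃ n : ℕ, ∃ H : SimpleGraph (Fin n),
      (∃ p : Fin n → ℝ × ℝ, Function.Injective p ∧
        ∃ γ : Fin n → Fin n → unitInterval → ℝ × ℝ,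
          (∀ u v, H.Adj u v →
            Continuous (γ u v) ∧ γ u v 0 = p u ∧ γ u v 1 = p v ∧
            ∀ t : unitInterval, t ≠ 0 → t ≠ 1 → ∀ w, γ u v t ≠ p w) ∧
          (∀ u v u' v', H.Adj u v → H.Adj u' v' → s(u, v) ≠ s(u', v') →
            ∀ t t' : unitInterval, t ≠ 0 → t ≠ 1 → t' ≠ 0 → t' ≠ 1 →
              γ u v t ≠ γ u' v' t')) ∧
      ∃ φ : Fin n → Fin 4 ⊕ Fin 4,
        Function.Surjective φ ∧
        (∀ u v, H.Adj u v →
          ((completeBipartiteGraph (Fin 4) (Fin 4)).Adj (φ u) (φ v) ∧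
            s(φ u, φ v) ≠ s(Sum.inl 0, Sum.inr 0))) ∧
        (∀ v, ∀ w : Fin 4 ⊕ Fin 4,
          ((completeBipartiteGraph (Fin 4) (Fin 4)).Adj (φ v) w ∧
            s(φ v, w) ≠ s(Sum.inl 0, Sum.inr 0)) →
          ∃ u, H.Adj v u ∧ φ u = w) :=
  Pool.Agent.H628Z.Emu.main

end Pool.Agent.S10449
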