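import Pool.Statements.S10454
import Pool.Agent.H956Z.OddCol

set_option autoImplicit false
open Pool Pool.MP_9fba86_co

namespace Pool.Agent.S10454

/-- The negation of the preceding statement: Some constant d exists such that every finite 2-connected graph (connected, at least 3 vertices, no cut vertex) of odd order with minimum degree at least d has a 3-edge-colouring where each colour meets each vertex in zero or an odd number of edges. -/
theorem result :
    ¬ (∃ d : ℕ, ∀ (V : Type) [Fintype V] (G : SimpleGraph V),
      G.Connected →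
      3 ≤ Fintype.card V →
      (∀ v : V, (G.induce {w : V | w ≠ v}).Connected) →
      Odd (Fintype.card V) →
      (∀ v : V, d ≤ (G.neighborSet v).ncard) →
      ∃ c : Sym2 V → Fin 3, ∀ (v : V) (i : Fin 3),
        {w : V | G.Adj v w ∧ c s(v, w) = i}.ncard = 0 ∨
          Odd {w : V | G.Adj v w ∧ c s(v, w) = i}.ncard) := by
  rintro ⟨d, hd⟩
  have hn : 2 ≤ 2 * d + 2 := by omega
  have he : Even (2 * d + 2) := ⟨d + 1, by ring⟩
  obtain ⟨c, hc⟩ := hd (H956Z.OddCol.Vx (2 * d + 2)) (H956Z.OddCol.G (2 * d + 2))
    (H956Z.OddCol.conn hn) (by simp) (H956Z.OddCol.conn_del hn)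
    (by
      simp only [Fintype.card_sum, Fintype.card_prod, Fintype.card_fin]
      exact ⟨3 * d + 4, by ring⟩)
    (fun v => le_trans (by omega) (H956Z.OddCol.mindeg v))
  refine H956Z.OddCol.no_colouring he hn c (fun v i => ?_)
  rw [← H956Z.OddCol.cnt_eq]
  exact hc v i

end Pool.Agent.S10454
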