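import Pool.Statements.S10543
import Pool.Agent.H31Z.Baton

set_option autoImplicit false
open Pool Pool.MP_a3e24b_co

namespace Pool.Agent.S10543

/-- For every ε>0 there is k such that, for all η>0 and all large n, R^n can be coloured with at most (1+ε+η)^n colours so that no k+1 points at l1-distances ∣i−j∣ from each other, i.e. a unit baton, are all the same colour. -/
theorem result :
    ∀ ε : ℝ, 0 < ε → ∃ k : ℕ, ∀ η : ℝ, 0 < η → ∃ N : ℕ, ∀ n : ℕ, N ≤ n →
      ∃ m : ℕ, (m : ℝ) ≤ (1 + ε + η) ^ n ∧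
        ∃ c : (Fin n → ℝ) → Fin m,
          ∀ f : Fin (k + 1) → (Fin n → ℝ),
            (∀ i j : Fin (k + 1),
              ∑ t : Fin n, |f i t - f j t| = |((i : ℕ) : ℝ) - ((j : ℕ) : ℝ)|) →
            ∃ i j : Fin (k + 1), c (f i) ≠ c (f j) := by
  exact Pool.Agent.H31Z.Baton.main

end Pool.Agent.S10543
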