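import Pool.Statements.S10582
import Pool.Agent.H24Z.LowerRamsey

set_option autoImplicit false
open Pool Pool.MP_a55b46_co

namespace Pool.Agent.S10582

/-- The negation of the preceding statement: For 2 ≤ ℓ < ⌊m/2⌋ and any (α,β) in N_m minimizing the gap between αℓ and β, the least order of a graph whose maximal cliques all exceed ℓ vertices and maximal independent sets all exceed m vertices is ℓ+m+β+αℓ, plus 1 if m≠αβ. -/
theorem result :
    ¬ (∀ ℓ m : ℕ, 2 ≤ ℓ → ℓ < m / 2 →
      ∀ α β : ℕ, (0 < α ∧ α ≤ β ∧ α * β ≤ m ∧ m ≤ α * (β + 1)) →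
        (∀ a b : ℕ, 0 < a → a ≤ b → a * b ≤ m → m ≤ a * (b + 1) →
          |((α * ℓ : ℕ) : ℤ) - (β : ℤ)| ≤ |((a * ℓ : ℕ) : ℤ) - (b : ℤ)|) →
        IsLeast
          {n : ℕ | ∃ G : SimpleGraph (Fin n),
            (∀ s : Finset (Fin n),
              Maximal (fun t : Finset (Fin n) => G.IsClique (t : Set (Fin n))) s → ℓ < s.card) ∧
            (∀ s : Finset (Fin n),
              Maximal (fun t : Finset (Fin n) => G.IsIndepSet (t : Set (Fin n))) s → m < s.card)}
          (ℓ + m + β + α * ℓ + (if m = α * β then 0 else 1))) := by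
  intro h
  have h1 := h 6 15 (by norm_num) (by norm_num) 2 7 (by norm_num) (by
    clear h
    intro a b ha hab h1 h2
    have ha3 : a ≤ 3 := by nlinarith
    have h5 : |((2 * 6 : ℕ) : ℤ) - ((7 : ℕ) : ℤ)| = 5 := by norm_num
    rw [h5, le_abs]
    interval_cases a <;> omega)
  have h2 := h1.2 ⟨Pool.Agent.H24Z.LowerRamsey.G, Pool.Agent.H24Z.LowerRamsey.cliques,
    Pool.Agent.H24Z.LowerRamsey.indeps⟩
  clear h h1
  norm_num at h2

end Pool.Agent.S10582
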