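import Pool.Statements.S10592
import Pool.Agent.H165Z.Brauer

set_option autoImplicit false
open Pool Pool.MP_a5a405_co

namespace Pool.Agent.S10592

/-- The negation of the preceding statement: Fix nonzero integers a_i, b_i, c_i and n ≥ 1. Every finite colouring gives nonzero one-colour x_i, y_i, w_i, z_i with a_i x_i + b_i y_i = c_i w_i z_i^n for all i iff some rational n-th power lies in every set {a_i/c_i, b_i/c_i, (a_i+b_i)/c_i}. -/
theorem result :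
    ¬ (∀ (k : ℕ) (a b c : Fin k → ℤ) (n : ℕ),
      (∀ i, a i ≠ 0 ∧ b i ≠ 0 ∧ c i ≠ 0) → 1 ≤ n →
      ((∀ (r : ℕ) (χ : ℤ → Fin r), ∃ (x y w z : Fin k → ℤ) (col : Fin r),
          ∀ i, x i ≠ 0 ∧ y i ≠ 0 ∧ w i ≠ 0 ∧ z i ≠ 0 ∧
            a i * x i + b i * y i = c i * w i * z i ^ n ∧
            χ (x i) = col ∧ χ (y i) = col ∧ χ (w i) = col ∧ χ (z i) = col) ↔
        ∃ q : ℚ, ∀ i, q ^ n = (a i : ℚ) / (c i : ℚ) ∨ q ^ n = (b i : ℚ) / (c i : ℚ) ∨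
          q ^ n = ((a i : ℚ) + (b i : ℚ)) / (c i : ℚ))) := by
  intro h
  have h1 := (h 2 ![1, 1] ![-1, 1] ![2, 1] 1 (by intro i; fin_cases i <;> simp) le_rfl).1 (by
    intro r χ
    obtain ⟨c, w, a, d, hw, ha, hd, h1, h2, h3, h4, h5, h6⟩ :=
      Pool.Agent.H165Z.Brauer.config (Fin r) (fun m => χ (m : ℤ))
    refine ⟨![((w * (a + 2 * d) : ℕ) : ℤ), ((w * a : ℕ) : ℤ)], ![((w * a : ℕ) : ℤ), ((w * d : ℕ) : ℤ)],
      ![(w : ℤ), (w : ℤ)], ![(d : ℤ), ((a + d : ℕ) : ℤ)], c, ?_⟩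
    intro i
    fin_cases i
    · refine ⟨?_, ?_, ?_, ?_, ?_, h6, h4, h1, h3⟩
      · show ((w * (a + 2 * d) : ℕ) : ℤ) ≠ 0
        positivity
      · show ((w * a : ℕ) : ℤ) ≠ 0
        positivity
      · show (w : ℤ) ≠ 0
        positivity
      · show (d : ℤ) ≠ 0
        positivity
      · show (1 : ℤ) * ((w * (a + 2 * d) : ℕ) : ℤ) + (-1) * ((w * a : ℕ) : ℤ) = 2 * (w : ℤ) * (d : ℤ) ^ 1
        push_cast
        ring
    · refine ⟨?_, ?_, ?_, ?_, ?_, h4, h5, h1, h2⟩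
      · show ((w * a : ℕ) : ℤ) ≠ 0
        positivity
      · show ((w * d : ℕ) : ℤ) ≠ 0
        positivity
      · show (w : ℤ) ≠ 0
        positivity
      · show ((a + d : ℕ) : ℤ) ≠ 0
        positivity
      · show (1 : ℤ) * ((w * a : ℕ) : ℤ) + 1 * ((w * d : ℕ) : ℤ) = 1 * (w : ℤ) * ((a + d : ℕ) : ℤ) ^ 1
        push_cast
        ring)
  obtain ⟨q, hq⟩ := h1
  have h0 := hq 0
  have h1 := hq 1
  simp at h0 h1
  rcases h0 with h0 | h0 | h0 <;> rcases h1 with h1 | h1 <;> rw [h0] at h1 <;> norm_num at h1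

end Pool.Agent.S10592
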