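import Pool.Statements.S10616
-- import your own Pool.Agent.* helpers here

set_option autoImplicit false
open Pool Pool.MP_a6f6ae_co

namespace Pool.Agent.S10616

/-- coefficients of `x * p(x)^2` -/
def cf (n : ℕ) : ℤ := ([0, 39034545956035303299025, -354704541796062088764210, 1355054525102768093503841, -2913489121500293689483542, 4013051243584877060553576, -3816078586995108314946792, 2629370201455779283514795, -1356974057070760797688960, 536885596427172505539405, -165517603242847206050972, 40195274526762046420885, -7737884804725916341190, 1183376857987487362156, -143473390337676150670, 13695394991057973003, -1016035290002362312, 57338975114629806, -2377016431281860, 68218126280025, -1210399000000, 10000000000] : List ℤ).getD n 0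

theorem poly_eq (x : ℝ) : ∑ n ∈ Finset.range 22, (cf n : ℝ) * x ^ n =
    x * ((197571622345) * x ^ 0 + (-897660649809) * x ^ 1 + (1390027262944) * x ^ 2 + (-1057701415635) * x ^ 3 + (460495210729) * x ^ 4 + (-123687092931) * x ^ 5 + (21202563294) * x ^ 6 + (-2325507359) * x ^ 7 + (157957414) * x ^ 8 + (-6051995) * x ^ 9 + (100000) * x ^ 10) ^ 2 := by
  simp only [Finset.sum_range_succ, Finset.sum_range_zero, cf, List.getD_cons_zero, List.getD_cons_succ]
  push_cast
  ring

theorem num_neg : ∑ n ∈ Finset.range 22, cf n *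
    ((∑ k ∈ Finset.range (n + 1), (n.choose k) ^ 2 * ((n + k).choose k) : ℕ) : ℤ) < 0 := by
  simp only [Nat.choose_eq_descFactorial_div_factorial]
  decide +kernel

/-- The negation of the preceding statement: There is a measure on the nonnegative reals whose n-th moments are the Apéry numbers A_n = sum of C(n,k)^2 C(n+k,k)^2, and another whose n-th moments are B_n = sum of C(n,k)^2 C(n+k,k), for all n. -/
theorem result :
    ¬ ((∃ μ : MeasureTheory.Measure ℝ, μ (Set.Iio 0) = 0 ∧ ∀ n : ℕ,
      ∫⁻ x, ENNReal.ofReal (x ^ n) ∂μ =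
        ((∑ k ∈ Finset.range (n + 1), (n.choose k) ^ 2 * ((n + k).choose k) ^ 2 : ℕ) : ENNReal)) ∧
    (∃ μ : MeasureTheory.Measure ℝ, μ (Set.Iio 0) = 0 ∧ ∀ n : ℕ,
      ∫⁻ x, ENNReal.ofReal (x ^ n) ∂μ =
        ((∑ k ∈ Finset.range (n + 1), (n.choose k) ^ 2 * ((n + k).choose k) : ℕ) : ENNReal))) := by
  rintro ⟨-, μ, h0, hm⟩
  have hae : ∀ᵐ x ∂μ, (0 : ℝ) ≤ x := by
    rw [MeasureTheory.ae_iff]
    simp only [not_le]
    exact h0
  have hnn : ∀ n : ℕ, 0 ≤ᵐ[μ] fun x : ℝ => x ^ n := fun n =>
    hae.mono fun x hx => pow_nonneg hx n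
  have hme : ∀ n : ℕ, MeasureTheory.AEStronglyMeasurable (fun x : ℝ => x ^ n) μ := fun n =>
    (continuous_pow n).aestronglyMeasurable
  have hint : ∀ n : ℕ, MeasureTheory.Integrable (fun x : ℝ => x ^ n) μ := fun n =>
    ⟨hme n, (MeasureTheory.hasFiniteIntegral_iff_ofReal (hnn n)).2 (by rw [hm n]; exact ENNReal.natCast_lt_top _)⟩
  have hval : ∀ n : ℕ, ∫ x, x ^ n ∂μ =
      ((∑ k ∈ Finset.range (n + 1), (n.choose k) ^ 2 * ((n + k).choose k) : ℕ) : ℝ) := fun n => by
    rw [MeasureTheory.integral_eq_lintegral_of_nonneg_ae (hnn n) (hme n), hm n, ENNReal.toReal_natCast]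
  have h1 : 0 ≤ ∫ x, ∑ n ∈ Finset.range 22, (cf n : ℝ) * x ^ n ∂μ := by
    apply MeasureTheory.integral_nonneg_of_ae
    refine hae.mono fun x hx => ?_
    show (0 : ℝ) ≤ ∑ n ∈ Finset.range 22, (cf n : ℝ) * x ^ n
    rw [poly_eq]
    exact mul_nonneg hx (sq_nonneg _)
  rw [MeasureTheory.integral_finsetSum _ (fun n _ => (hint n).const_mul _)] at h1
  simp only [MeasureTheory.integral_const_mul, hval] at h1
  have h2 := num_neg
  have h3 : ((∑ n ∈ Finset.range 22, cf n *
    ((∑ k ∈ Finset.range (n + 1), (n.choose k) ^ 2 * ((n + k).choose k) : ℕ) : ℤ) : ℤ) : ℝ) < 0 := by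
    exact_mod_cast h2
  rw [Int.cast_sum] at h3
  simp only [Int.cast_mul, Int.cast_natCast] at h3
  linarith

end Pool.Agent.S10616
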