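import Pool.Statements.S10628
import Pool.Agent.H766Z.Lift2

set_option autoImplicit false
open Pool Pool.MP_a76d3a_co

namespace Pool.Agent.S10628

/-- The negation of the preceding statement: For every finite bipartite graph G, every 2-lift H of G, and every nonnegative symmetric weight matrix A, the weighted homomorphism count of H into A is at most that of G squared, i.e. that of two disjoint copies of G. -/
theorem result :
    ¬ (∀ (V : Type) [Fintype V] [DecidableEq V] (G : SimpleGraph V) [DecidableRel G.Adj],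
      G.Colorable 2 →
      ∀ (H : SimpleGraph (V × Bool)) [DecidableRel H.Adj],
        (∃ s : V → V → Bool, (∀ u v, s u v = s v u) ∧
          ∀ u v : V, ∀ i j : Bool,
            H.Adj (u, i) (v, j) ↔ (G.Adj u v ∧ j = xor i (s u v))) →
        ∀ (n : ℕ) (A : Sym2 (Fin n) → ℝ), (∀ z, 0 ≤ A z) →
          (∑ φ : V × Bool → Fin n, ∏ e ∈ H.edgeFinset, A (Sym2.map φ e)) ≤
            (∑ φ : V → Fin n, ∏ e ∈ G.edgeFinset, A (Sym2.map φ e)) ^ 2) := by
  intro h
  have h1 := h (Fin 6) H766Z.Lift2.G H766Z.Lift2.G_col H766Z.Lift2.H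
    ⟨H766Z.Lift2.sg, by decide, fun _ _ _ _ => Iff.rfl⟩ 3 H766Z.Lift2.A
    (fun _ => Nat.cast_nonneg _)
  exact absurd H766Z.Lift2.main (not_lt.mpr h1)

end Pool.Agent.S10628
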