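import Pool.Statements.S10676

set_option autoImplicit false
open Pool Pool.MP_a9902f_co

namespace Pool.Agent.S10676

/-- The first factor: a lattice in `Z_4 × Z_9 × Z_25` with three disjoint columns shifted. -/
def RL : List ℕ := [0, 24, 39, 54, 84, 94, 114, 174, 180, 204, 234, 354, 360, 384, 394, 414, 444,
  474, 489, 534, 540, 564, 624, 654, 694, 720, 744, 774, 804, 834]

/-- The second factor: the box `[0,2) × [0,3) × [0,5)` in `Z_4 × Z_9 × Z_25`. -/
def SL : List ℕ := [0, 1, 28, 29, 100, 101, 128, 153, 200, 225, 252, 253, 325, 352, 353, 425, 452,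
  477, 504, 576, 577, 604, 676, 677, 704, 729, 776, 801, 828, 829]

def PL : List (ℕ × ℕ) := RL.flatMap fun r => SL.map fun s => (r, s)

def sums : List ℕ := PL.map fun p => (p.1 + p.2) % 900

lemma mem_PL (p : ℕ × ℕ) : p ∈ PL ↔ p.1 ∈ RL ∧ p.2 ∈ SL := by
  obtain ⟨r, s⟩ := p
  simp only [PL, List.mem_flatMap, List.mem_map, Prod.mk.injEq]
  constructor
  · rintro ⟨a, ha, b, hb, rfl, rfl⟩
    exact ⟨ha, hb⟩
  · rintro ⟨ha, hb⟩
    exact ⟨r, ha, s, hb, rfl, rfl⟩

lemma nodup_sums : sums.Nodup := by decide +kernel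

lemma all_mem : ∀ x < 900, x ∈ sums := by decide +kernel

/-- The negation of the preceding statement: For coprime p,q ≥ 2 there is no n ≥ 1 and no finite sets R,S of naturals with 0,p,q in R and 0,1 in S such that every residue mod n is r+s mod n for exactly one pair (r,s) in R×S. -/
theorem result :
    ¬ (∀ p q : ℕ, 2 ≤ p → 2 ≤ q → Nat.Coprime p q →
      ¬ ∃ n : ℕ, 1 ≤ n ∧ ∃ R S : Finset ℕ,
        0 ∈ R ∧ p ∈ R ∧ q ∈ R ∧ 0 ∈ S ∧ 1 ∈ S ∧
        ∀ x : ZMod n, ∃! rs : ℕ × ℕ,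
          rs.1 ∈ R ∧ rs.2 ∈ S ∧ (((rs.1 + rs.2 : ℕ)) : ZMod n) = x) := by
  intro h
  refine h 39 94 (by norm_num) (by norm_num) (by norm_num)
    ⟨900, by norm_num, RL.toFinset, SL.toFinset, ?_, ?_, ?_, ?_, ?_, ?_⟩
  · rw [List.mem_toFinset]; decide
  · rw [List.mem_toFinset]; decide
  · rw [List.mem_toFinset]; decide
  · rw [List.mem_toFinset]; decide
  · rw [List.mem_toFinset]; decide
  · intro x
    have hx : x.val < 900 := ZMod.val_lt x
    obtain ⟨p, hp, hpx⟩ := List.mem_map.1 (all_mem x.val hx)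
    have key : ∀ q : ℕ × ℕ, (((q.1 + q.2 : ℕ)) : ZMod 900) = x ↔ (q.1 + q.2) % 900 = x.val := by
      intro q
      constructor
      · rintro rfl
        rw [ZMod.val_natCast]
      · intro hq
        rw [← ZMod.natCast_zmod_val x, ← hq, ZMod.natCast_mod]
    refine ⟨p, ⟨?_, ?_, (key p).2 hpx⟩, ?_⟩
    · exact List.mem_toFinset.2 ((mem_PL p).1 hp).1
    · exact List.mem_toFinset.2 ((mem_PL p).1 hp).2
    · rintro q ⟨h1, h2, h3⟩
      have hq : q ∈ PL := (mem_PL q).2 ⟨List.mem_toFinset.1 h1, List.mem_toFinset.1 h2⟩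
      have := List.inj_on_of_nodup_map (f := fun p : ℕ × ℕ => (p.1 + p.2) % 900) nodup_sums hq hp
      exact this (((key q).1 h3).trans hpx.symm)

end Pool.Agent.S10676
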