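import Pool.Statements.S10690
import Pool.Agent.H54Z.IKL.Ex

set_option autoImplicit false
open Classical
open Pool Pool.MP_aa61ff_co

namespace Pool.Agent.S10690

/-- The negation of the preceding statement: For every finite matroid, the coefficient sequence of its inverse Kazhdan–Lusztig polynomial is log-concave and has no internal zeros. Here Q is characterised as the incidence-algebra inverse, up to signs, of the KL polynomials defined via characteristic polynomials of flat intervals. -/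
theorem result :
    ¬ (∀ (n : ℕ) (M : Matroid (Fin n)), M.E = Set.univ →
  ∀ (P Q : Finset (Fin n) → Finset (Fin n) → Polynomial ℤ),
  (∀ F : Finset (Fin n), M.IsFlat (F : Set (Fin n)) → P F F = 1 ∧ Q F F = 1) →
  (∀ F G : Finset (Fin n), M.IsFlat (F : Set (Fin n)) → M.IsFlat (G : Set (Fin n)) → F ⊂ G →
     2 * (P F G).natDegree < (M.eRk (G : Set (Fin n))).toNat - (M.eRk (F : Set (Fin n))).toNat ∧
     Polynomial.reflect ((M.eRk (G : Set (Fin n))).toNat - (M.eRk (F : Set (Fin n))).toNat) (P F G) =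
       ∑ H ∈ Finset.univ.filter
           (fun H : Finset (Fin n) => M.IsFlat (H : Set (Fin n)) ∧ F ⊆ H ∧ H ⊆ G),
         (∑ A ∈ (H \ F).powerset,
            (-1 : Polynomial ℤ) ^ A.card *
              Polynomial.X ^ ((M.eRk (H : Set (Fin n))).toNat
                - (M.eRk ((A ∪ F : Finset (Fin n)) : Set (Fin n))).toNat)) * P H G ∧
     ∑ H ∈ Finset.univ.filter
           (fun H : Finset (Fin n) => M.IsFlat (H : Set (Fin n)) ∧ F ⊆ H ∧ H ⊆ G),
         (-1 : Polynomial ℤ) ^ ((M.eRk (H : Set (Fin n))).toNat - (M.eRk (F : Set (Fin n))).toNat)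
           * P F H * Q H G = 0) →
  ∀ L : Finset (Fin n), (L : Set (Fin n)) = M.closure ∅ →
  (∀ i : ℕ, (Q L Finset.univ).coeff i * (Q L Finset.univ).coeff (i + 2)
      ≤ (Q L Finset.univ).coeff (i + 1) ^ 2) ∧
  (∀ i j k : ℕ, i < j → j < k → (Q L Finset.univ).coeff i ≠ 0 →
      (Q L Finset.univ).coeff k ≠ 0 → (Q L Finset.univ).coeff j ≠ 0)) := by
  intro hall
  let E : Type := {x : Fin 7 → ZMod 7 // x ∈ (H54Z.IKL.SS (ZMod 7))ᶜ}
  obtain ⟨n, ⟨e⟩⟩ := Finite.exists_equiv_fin E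
  obtain ⟨v, hv⟩ : ∃ v : Fin n → (Fin 7 → ZMod 7), Set.range v = (H54Z.IKL.SS (ZMod 7))ᶜ := by
    refine ⟨fun i => (e.symm i).1, ?_⟩
    ext x
    constructor
    · rintro ⟨i, rfl⟩
      exact (e.symm i).2
    · intro hx
      exact ⟨e ⟨x, hx⟩, by simp⟩
  have h0 := H54Z.IKL.zero_SS
  have hspan := H54Z.IKL.span_SS (K := ZMod 7)
  have hmain := hall n (Helper998.VecMatroid.vecMatroid (ZMod 7) v) rfl
    (fun F G => H54Z.IKL.PP (H54Z.IKL.SS (ZMod 7)) (H54Z.IKL.sp (ZMod 7) v F)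
      (H54Z.IKL.sp (ZMod 7) v G))
    (fun F G => H54Z.IKL.QQ (H54Z.IKL.SS (ZMod 7)) (H54Z.IKL.sp (ZMod 7) v F)
      (H54Z.IKL.sp (ZMod 7) v G))
    (fun F _ => ⟨H54Z.IKL.PP_self _ _, H54Z.IKL.QQ_self _ _⟩)
    (by
      intro F G hF hG hFG
      simp only [H54Z.IKL.rk_sp]
      have hlt := H54Z.IKL.sp_lt v hF hG hFG
      refine ⟨H54Z.IKL.deg_PP _ hlt, ?_, ?_⟩
      · convert H54Z.IKL.kl_id hv h0 hspan H54Z.IKL.sym7 hF hG hFG
      · have h1 := H54Z.IKL.transfer hv hspan F G hG (fun H =>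
          (-1 : Polynomial ℤ) ^ (H54Z.IKL.dm H - H54Z.IKL.dm (H54Z.IKL.sp (ZMod 7) v F)) *
            H54Z.IKL.PP (H54Z.IKL.SS (ZMod 7)) (H54Z.IKL.sp (ZMod 7) v F) H *
            H54Z.IKL.QQ (H54Z.IKL.SS (ZMod 7)) H (H54Z.IKL.sp (ZMod 7) v G))
        rw [H54Z.IKL.inv_id h0 (H54Z.IKL.good_sp hv F) hlt H54Z.IKL.mu7] at h1
        convert h1)
    ∅
    (by
      ext i
      rw [H54Z.IKL.mem_closure]
      simp only [Finset.coe_empty, Set.mem_empty_iff_false, Set.image_empty, Submodule.span_empty,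
        Submodule.mem_bot, false_iff]
      intro hi
      have : v i ∈ (H54Z.IKL.SS (ZMod 7))ᶜ := hv ▸ ⟨i, rfl⟩
      exact this (hi ▸ h0))
  have htop : H54Z.IKL.sp (ZMod 7) v Finset.univ = ⊤ := by
    have hn : ¬ ((⊤ : Submodule (ZMod 7) (Fin 7 → ZMod 7)) : Set (Fin 7 → ZMod 7)) ⊆
        H54Z.IKL.SS (ZMod 7) := by
      intro h
      have h2 := H54Z.IKL.le_Pl h (by rw [finrank_top, H54Z.IKL.fr]; norm_num)
      have h3 := Submodule.finrank_mono h2
      rw [finrank_top, H54Z.IKL.fr, H54Z.IKL.finrank_Pl] at h3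
      omega
    rw [← hspan ⊤ hn]
    unfold H54Z.IKL.sp
    rw [Finset.coe_univ, Set.image_univ, hv, Submodule.top_coe, Set.compl_eq_univ_sdiff]
  have h1 := hmain.1 1
  simp only [H54Z.IKL.sp_empty, htop, H54Z.IKL.QQ, if_true] at h1
  exact absurd H54Z.IKL.fails (not_lt.2 h1)

end Pool.Agent.S10690
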