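import Pool.Statements.S10693
import Pool.Agent.H128Z.EulerB

set_option autoImplicit false
open Pool Pool.MP_aa6e80_co

namespace Pool.Agent.S10693

/-- For every nonnegative log-convex real sequence x, the sequence z_n = sum over k from 0 to n of A(n,k) x_k is log-convex, where A(n,k) counts permutations of n elements with exactly k descents. -/
theorem result :
    ∀ x : ℕ → ℝ, (∀ n, 0 ≤ x n) → (∀ k, x (k + 1) ^ 2 ≤ x k * x (k + 2)) →
      ∀ z : ℕ → ℝ,
        (∀ n, z n = ∑ k ∈ Finset.range (n + 1),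
          (((Finset.univ : Finset (Equiv.Perm (Fin n))).filter
            (fun σ => ((Finset.univ : Finset (Fin n × Fin n)).filter
              (fun p => p.2.val = p.1.val + 1 ∧ σ p.2 < σ p.1)).card = k)).card : ℝ) * x k) →
        ∀ n, z (n + 1) ^ 2 ≤ z n * z (n + 2) := by
  intro x hx hc z hz n
  have hZ : ∀ m, z (m + 1) = Pool.Agent.H128Z.Euler.Z x m := by
    intro m
    rw [hz]
    unfold Pool.Agent.H128Z.Euler.Z
    exact Finset.sum_congr rfl fun k _ => by rw [Pool.Agent.H128Z.Euler.count_eq]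
  rcases n with _ | n
  · have h0 : z 0 = x 0 := by
      rw [hz]
      simp
    have h1 : z (0 + 1) = x 0 := by
      rw [hZ, Pool.Agent.H128Z.Euler.Z_cut]
      simp [Pool.Agent.H128Z.Euler.e_zero]
    have h2 : z (0 + 2) = x 0 + x 1 := by
      have h3 := Pool.Agent.H128Z.Euler.e_symm 1 0
      rw [sub_zero, Pool.Agent.H128Z.Euler.e_zero] at h3
      rw [hZ, Pool.Agent.H128Z.Euler.Z_cut, Finset.sum_range_succ, Finset.sum_range_succ,
        Finset.sum_range_zero, h3]
      simp [Pool.Agent.H128Z.Euler.e_zero]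
    rw [h0, h1, h2]
    nlinarith [mul_nonneg (hx 0) (hx 1)]
  · rw [hZ, hZ, hZ]
    exact Pool.Agent.H128Z.Euler.Z_logconvex x hx hc n

end Pool.Agent.S10693
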