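import Pool.Statements.S10719
import Pool.Agent.H892Z.NonSepB

set_option autoImplicit false
open Pool Pool.MP_aba350_co

namespace Pool.Agent.S10719

/-- For all positive t, n with m=(t-1)(n-1)+2n, every t-coloring of edges of K_m on 1<...<m has n same-colored disjoint edges a_i<b_i where every left endpoint a_i precedes every right endpoint b_j. -/
theorem result :
    ∀ t n : ℕ, 0 < t → 0 < n →
      ∀ c : Fin ((t - 1) * (n - 1) + 2 * n) → Fin ((t - 1) * (n - 1) + 2 * n) → Fin t,
        ∃ k : Fin t, ∃ a b : Fin n → Fin ((t - 1) * (n - 1) + 2 * n),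
          Function.Injective a ∧ Function.Injective b ∧
          (∀ i j, a i < b j) ∧ ∀ i, c (a i) (b i) = k := by
  exact fun t n ht hn c => Pool.Agent.H892Z.NonSep.main t n ht hn c

end Pool.Agent.S10719
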