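import Pool.Statements.S10738
import Pool.Agent.H349Z.DS.Geo

set_option autoImplicit false
open Pool Pool.MP_ac1f36_co

namespace Pool.Agent.S10738

/-- The negation of the preceding statement: Every nonempty word over n letters with no equal neighbors and no pattern p q p q p is the left-to-right lower-envelope sequence of some n non-vertical line segments in the plane. -/
theorem result :
    ¬ (∀ (n m : ℕ) (w : Fin m → Fin n), 0 < m →
      (∀ i j : Fin m, i.val + 1 = j.val → w i ≠ w j) →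
      (¬ ∃ (p q : Fin n) (i₁ i₂ i₃ i₄ i₅ : Fin m), p ≠ q ∧ i₁ < i₂ ∧ i₂ < i₃ ∧ i₃ < i₄ ∧
          i₄ < i₅ ∧ w i₁ = p ∧ w i₂ = q ∧ w i₃ = p ∧ w i₄ = q ∧ w i₅ = p) →
      ∃ (a b l r : Fin n → ℝ) (t : Fin (m + 1) → ℝ), StrictMono t ∧ (∀ i, l i < r i) ∧
        (∀ i x, l i ≤ x → x ≤ r i → t 0 ≤ x ∧ x ≤ t (Fin.last m)) ∧
        (∀ k : Fin m, ∃ x, t k.castSucc < x ∧ x < t k.succ ∧ l (w k) ≤ x ∧ x ≤ r (w k)) ∧
        (∀ k : Fin m, ∀ x, t k.castSucc < x → x < t k.succ → ∀ j, l j ≤ x → x ≤ r j →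
          (l (w k) ≤ x ∧ x ≤ r (w k) ∧
            (j ≠ w k → a (w k) * x + b (w k) < a j * x + b j)))) := by
  intro H
  open Pool.Agent.H349Z.DS in
  obtain ⟨a, b, l, r, t, ht, -, -, hx, hv⟩ := H 25 65 w (by norm_num) w_adj (by
    rintro ⟨p, q, i₁, i₂, i₃, i₄, i₅, hpq, h1, h2, h3, h4, e1, e2, e3, e4, e5⟩
    apply hpq
    rw [← e1, ← e2]
    exact w_free i₁ i₃ (h1.trans h2) (e3.trans e1.symm) i₅ (h3.trans h4) (e5.trans e1.symm)
      i₂ h1 h2 i₄ h3 h4 (e4.trans e2.symm))
  choose x hx1 hx2 hx3 hx4 using hx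
  have hm : StrictMono x := by
    intro i j hij
    have : t i.succ ≤ t j.castSucc := ht.monotone (by
      rw [Fin.le_def]
      simp only [Fin.val_succ, Fin.val_castSucc]
      exact hij)
    linarith [hx2 i, hx1 j]
  open Pool.Agent.H349Z.DS in
  have key : ∀ k1 k k2 : Fin 65, k1 ≤ k → k ≤ k2 → w k2 = w k1 → w k1 ≠ w k →
      a (w k) * x k + b (w k) < a (w k1) * x k + b (w k1) := by
    intro k1 k k2 h1 h2 e n
    refine (hv k (x k) (hx1 k) (hx2 k) (w k1) ((hx3 k1).trans (hm.monotone h1)) ?_).2.2 n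
    rw [← e]
    exact (hm.monotone h2).trans (hx4 k2)
  have gh := Pool.Agent.H349Z.DS.gad a b x hm key 0 1 2 3 33 34 35 36 37 43 44 45 46 (by decide +kernel)
  have gi := Pool.Agent.H349Z.DS.gad a b x hm key 4 5 6 7 12 13 14 16 17 22 23 25 26 (by decide +kernel)
  have gj := Pool.Agent.H349Z.DS.gad a b x hm key 8 9 10 11 15 24 32 40 49 53 54 55 56 (by decide +kernel)
  have gg := Pool.Agent.H349Z.DS.gad a b x hm key 18 19 20 21 27 28 29 30 31 61 62 63 64 (by decide +kernel)
  have gz := Pool.Agent.H349Z.DS.gad a b x hm key 38 39 41 42 47 48 50 51 52 57 58 59 60 (by decide +kernel)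
  have c1 := Pool.Agent.H349Z.DS.conflict (hm (show (5 : Fin 65) < 7 by decide)) (hm (show (7 : Fin 65) < 9 by decide)).le
    (hm (show (9 : Fin 65) < 11 by decide)) (hm (show (11 : Fin 65) < 12 by decide)).le
    (hm (show (12 : Fin 65) < 14 by decide)) (hm (show (14 : Fin 65) < 15 by decide)).le (hm (show (15 : Fin 65) < 32 by decide))
  have c2 := Pool.Agent.H349Z.DS.conflict (hm (show (14 : Fin 65) < 17 by decide)) (hm (show (17 : Fin 65) < 19 by decide)).le
    (hm (show (19 : Fin 65) < 21 by decide)) (hm (show (21 : Fin 65) < 22 by decide)).le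
    (hm (show (22 : Fin 65) < 25 by decide)) (hm (show (25 : Fin 65) < 27 by decide)).le (hm (show (27 : Fin 65) < 29 by decide))
  have c3 := Pool.Agent.H349Z.DS.conflict (hm (show (1 : Fin 65) < 3 by decide)) (hm (show (3 : Fin 65) < 29 by decide)).le
    (hm (show (29 : Fin 65) < 31 by decide)) (hm (show (31 : Fin 65) < 33 by decide)).le
    (hm (show (33 : Fin 65) < 35 by decide)) (hm (show (35 : Fin 65) < 61 by decide)).le (hm (show (61 : Fin 65) < 63 by decide))
  have c4 := Pool.Agent.H349Z.DS.conflict (hm (show (35 : Fin 65) < 37 by decide)) (hm (show (37 : Fin 65) < 39 by decide)).le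
    (hm (show (39 : Fin 65) < 42 by decide)) (hm (show (42 : Fin 65) < 43 by decide)).le
    (hm (show (43 : Fin 65) < 45 by decide)) (hm (show (45 : Fin 65) < 47 by decide)).le (hm (show (47 : Fin 65) < 50 by decide))
  have c5 := Pool.Agent.H349Z.DS.conflict (hm (show (32 : Fin 65) < 49 by decide)) (hm (show (49 : Fin 65) < 50 by decide)).le
    (hm (show (50 : Fin 65) < 52 by decide)) (hm (show (52 : Fin 65) < 53 by decide)).le
    (hm (show (53 : Fin 65) < 55 by decide)) (hm (show (55 : Fin 65) < 57 by decide)).le (hm (show (57 : Fin 65) < 59 by decide))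
  have d1 := Pool.Agent.H349Z.DS.chain (Pool.Agent.H349Z.DS.K_pos (hm (show (5 : Fin 65) < 7 by decide))
    (hm (show (7 : Fin 65) < 12 by decide)) (hm (show (12 : Fin 65) < 14 by decide))) c1 gi
  have d2 := Pool.Agent.H349Z.DS.chain (Pool.Agent.H349Z.DS.K_pos (hm (show (19 : Fin 65) < 21 by decide))
    (hm (show (21 : Fin 65) < 27 by decide)) (hm (show (27 : Fin 65) < 29 by decide))) (by rwa [mul_comm] at c2) gg
  have d3 := Pool.Agent.H349Z.DS.chain (Pool.Agent.H349Z.DS.K_pos (hm (show (1 : Fin 65) < 3 by decide))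
    (hm (show (3 : Fin 65) < 33 by decide)) (hm (show (33 : Fin 65) < 35 by decide))) c3 gh
  have d4 := Pool.Agent.H349Z.DS.chain (Pool.Agent.H349Z.DS.K_pos (hm (show (39 : Fin 65) < 42 by decide))
    (hm (show (42 : Fin 65) < 47 by decide)) (hm (show (47 : Fin 65) < 50 by decide))) (by rwa [mul_comm] at c4) gz
  have d5 := Pool.Agent.H349Z.DS.chain (Pool.Agent.H349Z.DS.K_pos (hm (show (32 : Fin 65) < 49 by decide))
    (hm (show (49 : Fin 65) < 53 by decide)) (hm (show (53 : Fin 65) < 55 by decide))) c5 (by rwa [mul_comm] at gj)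
  linarith

end Pool.Agent.S10738
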