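import Pool.Statements.S10745
import Pool.Agent.H177Z.DelMain

set_option autoImplicit false
open Pool Pool.MP_ac7d6b_co

namespace Pool.Agent.S10745

/-- There is a constant c such that for all d ≥ 2, every Delone set in R^d with covering radius R whose ρ-clusters are all congruent, for some ρ > c·d²·log d·R, is a regular system (its symmetry group is transitive). -/
theorem result :
    ∃ c : ℝ, ∀ d : ℕ, 2 ≤ d → ∀ R : ℝ, 0 < R → ∀ ρ : ℝ,
      c * ((d : ℝ) ^ 2 * Real.log (d : ℝ)) * R < ρ →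
      ∀ X : Set (EuclideanSpace ℝ (Fin d)),
        (∃ r : ℝ, 0 < r ∧ ∀ x ∈ X, ∀ y ∈ X, x ≠ y → r ≤ dist x y) →
        (∀ p : EuclideanSpace ℝ (Fin d), ∃ x ∈ X, dist p x ≤ R) →
        (∀ x ∈ X, ∀ y ∈ X, ∃ g : EuclideanSpace ℝ (Fin d) ≃ᵢ EuclideanSpace ℝ (Fin d),
            g x = y ∧ g '' (X ∩ Metric.closedBall x ρ) = X ∩ Metric.closedBall y ρ) →
        ∀ x ∈ X, ∀ y ∈ X, ∃ g : EuclideanSpace ℝ (Fin d) ≃ᵢ EuclideanSpace ℝ (Fin d),
            g x = y ∧ g '' X = X := by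
  refine ⟨32, fun d hd R hR ρ hρ X ⟨r, hr, hsep⟩ hcov hiso => ?_⟩
  refine Pool.Agent.H177Z.Del.regular (ρ := ρ) hR hr hcov hsep ?_ ?_
  · rw [finrank_euclideanSpace_fin]
    have h2 : (2 : ℝ) ≤ d := by exact_mod_cast hd
    have h3 : (1 / 2 : ℝ) ≤ Real.log d := by
      have h4 := Real.log_le_log (by norm_num) h2
      have h5 := Real.log_two_gt_d9
      linarith
    refine le_trans ?_ hρ.le
    apply mul_le_mul_of_nonneg_right _ hR.le
    nlinarith [mul_le_mul_of_nonneg_left h3 (sq_nonneg (d : ℝ))]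
  · intro x hx y hy
    obtain ⟨g, h1, h2⟩ := hiso x hx y hy
    exact ⟨g, h1, Pool.Agent.H177Z.Del.loc_of_image h1 h2⟩

end Pool.Agent.S10745
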