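import Pool.Statements.S10760
-- import your own Pool.Agent.* helpers here

set_option autoImplicit false
open Pool Pool.MP_ace675_co

namespace Pool.Agent.S10760

/-- adjacency of the Groetzsch graph (vertices 0..10) together with the extra edge 11-12 -/
def eb (a b : ℕ) : Bool :=
  (a, b) ∈ [(0,1),(1,2),(2,3),(3,4),(4,0),(5,1),(5,4),(6,0),(6,2),(7,1),(7,3),(8,2),(8,4),(9,3),(9,0),
    (10,5),(10,6),(10,7),(10,8),(10,9),(11,12)]

def HH : SimpleGraph (Fin 13) where
  Adj a b := (eb a.val b.val || eb b.val a.val) = true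
  symm := ⟨fun a b h => by rw [Bool.or_comm]; exact h⟩
  loopless := ⟨by decide⟩

instance : DecidableRel HH.Adj := fun a b => inferInstanceAs (Decidable ((eb a.val b.val || eb b.val a.val) = true))

def ι (a : Fin 11) : Fin 13 := Fin.castLE (by norm_num) a

/-- a copy of the Groetzsch graph in the relation `A` -/
def Emb {V : Type} (A : V → V → Prop) (f : Fin 11 → V) : Prop :=
  Function.Injective f ∧ ∀ u v : Fin 11, HH.Adj (ι u) (ι v) → A (f u) (f v)

theorem no3 : ∀ a0 a1 : Fin 3, a0 ≠ a1 → ∀ a2 : Fin 3, a1 ≠ a2 → ∀ a3 : Fin 3, a2 ≠ a3 →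
    ∀ a4 : Fin 3, a3 ≠ a4 → a4 ≠ a0 → ∀ a10 a5 : Fin 3, a10 ≠ a5 → a5 ≠ a1 → a5 ≠ a4 →
    ∀ a6 : Fin 3, a10 ≠ a6 → a6 ≠ a0 → a6 ≠ a2 → ∀ a7 : Fin 3, a10 ≠ a7 → a7 ≠ a1 → a7 ≠ a3 →
    ∀ a8 : Fin 3, a10 ≠ a8 → a8 ≠ a2 → a8 ≠ a4 → ∀ a9 : Fin 3, a10 ≠ a9 → a9 ≠ a3 → a9 ≠ a0 → False := by
  decide

theorem not_emb_col {V : Type} {A : V → V → Prop} {f : Fin 11 → V} (p : V → Fin 3) (hf : Emb A f)
    (hp : ∀ u v : Fin 11, A (f u) (f v) → p (f u) ≠ p (f v)) : False := by
  have h : ∀ u v : Fin 11, HH.Adj (ι u) (ι v) → p (f u) ≠ p (f v) := fun u v h => hp u v (hf.2 u v h)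
  exact no3 (p (f 0)) (p (f 1)) (h 0 1 (by decide)) (p (f 2)) (h 1 2 (by decide)) (p (f 3)) (h 2 3 (by decide))
    (p (f 4)) (h 3 4 (by decide)) (h 4 0 (by decide)) (p (f 10)) (p (f 5)) (h 10 5 (by decide))
    (h 5 1 (by decide)) (h 5 4 (by decide)) (p (f 6)) (h 10 6 (by decide)) (h 6 0 (by decide))
    (h 6 2 (by decide)) (p (f 7)) (h 10 7 (by decide)) (h 7 1 (by decide)) (h 7 3 (by decide))
    (p (f 8)) (h 10 8 (by decide)) (h 8 2 (by decide)) (h 8 4 (by decide)) (p (f 9))
    (h 10 9 (by decide)) (h 9 3 (by decide)) (h 9 0 (by decide))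

theorem const_part {V : Type} {f : Fin 11 → V} (p : V → Fin 3)
    (h : ∀ u v : Fin 11, HH.Adj (ι u) (ι v) → p (f u) = p (f v)) : ∀ u, p (f u) = p (f 0) := by
  have h1 := h 1 0 (by decide)
  have h2 := (h 2 1 (by decide)).trans h1
  have h3 := (h 3 2 (by decide)).trans h2
  have h4 := h 4 0 (by decide)
  have h5 := (h 5 1 (by decide)).trans h1
  have h6 := h 6 0 (by decide)
  have h7 := (h 7 1 (by decide)).trans h1
  have h8 := (h 8 2 (by decide)).trans h2
  have h9 := h 9 0 (by decide)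
  have h10 := (h 10 9 (by decide)).trans h9
  intro u
  fin_cases u
  exacts [rfl, h1, h2, h3, h4, h5, h6, h7, h8, h9, h10]

/-- an injective map from eleven points cannot land in the range of `g` minus `g 0` -/
theorem not_small {V : Type} {f g : Fin 11 → V} (hf : Function.Injective f)
    (h : ∀ u, ∃ v, v ≠ 0 ∧ g v = f u) : False := by
  choose k hk1 hk2 using h
  have hk : Function.Injective k := fun a b hab => hf (by rw [← hk2 a, ← hk2 b, hab])
  obtain ⟨u, hu⟩ := Finite.surjective_of_injective hk 0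
  exact hk1 u hu

/-- extend a copy of the Groetzsch graph by a disjoint edge -/
theorem extend {V : Type} {A : V → V → Prop} {f : Fin 11 → V} (hf : Emb A f) {x y : V}
    (hx : ∀ u, f u ≠ x) (hy : ∀ u, f u ≠ y) (hxy : x ≠ y) (h1 : A x y) (h2 : A y x) :
    ∃ g : Fin 13 → V, Function.Injective g ∧ ∀ u v, HH.Adj u v → A (g u) (g v) := by
  let g : Fin 13 → V := fun a => if h : a.val < 11 then f ⟨a.val, h⟩ else if a.val = 11 then x else y
  have hg : ∀ a : Fin 13, (∃ u, a = ι u ∧ g a = f u) ∨ (a = 11 ∧ g a = x) ∨ (a = 12 ∧ g a = y) := by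
    intro a
    by_cases h : a.val < 11
    · exact Or.inl ⟨⟨a.val, h⟩, Fin.ext rfl, by simp only [g, dif_pos h]⟩
    · by_cases h' : a.val = 11
      · exact Or.inr (Or.inl ⟨Fin.ext h', by simp only [g, dif_neg h, if_pos h']⟩)
      · exact Or.inr (Or.inr ⟨Fin.ext (by have := a.2; show a.val = 12; omega),
          by simp only [g, dif_neg h, if_neg h']⟩)
  have n1 : ∀ u : Fin 11, ¬ HH.Adj (ι u) 11 ∧ ¬ HH.Adj (ι u) 12 ∧ ¬ HH.Adj 11 (ι u) ∧ ¬ HH.Adj 12 (ι u) := by
    decide
  refine ⟨g, ?_, ?_⟩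
  · intro a b hab
    rcases hg a with ⟨u, rfl, e1⟩ | ⟨rfl, e1⟩ | ⟨rfl, e1⟩ <;>
      rcases hg b with ⟨v, rfl, e2⟩ | ⟨rfl, e2⟩ | ⟨rfl, e2⟩ <;>
      have hab' := e1.symm.trans (hab.trans e2)
    · rw [hf.1 hab']
    · exact absurd hab' (hx _)
    · exact absurd hab' (hy _)
    · exact absurd hab'.symm (hx _)
    · rfl
    · exact absurd hab' hxy
    · exact absurd hab'.symm (hy _)
    · exact absurd hab'.symm hxy
    · rfl
  · intro a b hab
    rcases hg a with ⟨u, rfl, e1⟩ | ⟨rfl, e1⟩ | ⟨rfl, e1⟩ <;>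
      rcases hg b with ⟨v, rfl, e2⟩ | ⟨rfl, e2⟩ | ⟨rfl, e2⟩
    · rw [e1, e2]; exact hf.2 _ _ hab
    · exact absurd hab (n1 _).1
    · exact absurd hab (n1 _).2.1
    · exact absurd hab (n1 _).2.2.1
    · exact absurd hab (HH.loopless.irrefl _)
    · rw [e1, e2]; exact h1
    · exact absurd hab (n1 _).2.2.2
    · rw [e1, e2]; exact h2
    · exact absurd hab (HH.loopless.irrefl _)

/-- colouring from a partition into three parts without copies -/
theorem of_parts {V : Type} (G : SimpleGraph V) (p : V → Fin 3)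
    (hp : ∀ f : Fin 11 → V, Emb G.Adj f → (∀ u, p (f u) = p (f 0)) → False) :
    ∃ c : V → V → Bool, (∀ x y, c x y = c y x) ∧
      ∀ (b : Bool) (f : Fin 11 → V), ¬ Emb (fun x y => G.Adj x y ∧ c x y = b) f := by
  refine ⟨fun x y => decide (p x = p y), fun x y => by simp only [eq_comm], ?_⟩
  intro b f hf
  cases b
  · exact not_emb_col p hf (fun u v h => by simpa using h.2)
  · exact hp f ⟨hf.1, fun u v h => (hf.2 u v h).1⟩
      (const_part p (fun u v h => by simpa using (hf.2 u v h).2))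

/-- Ramsey equivalence -/
theorem equiv {V : Type} (G : SimpleGraph V) (c : V → V → Bool) (hc : ∀ x y, c x y = c y x)
    (hH : ∀ (b : Bool) (g : Fin 13 → V), Function.Injective g →
      ¬ ∀ u v, HH.Adj u v → G.Adj (g u) (g v) ∧ c (g u) (g v) = b) :
    ∃ c : V → V → Bool, (∀ x y, c x y = c y x) ∧
      ∀ (b : Bool) (f : Fin 11 → V), ¬ Emb (fun x y => G.Adj x y ∧ c x y = b) f := by
  classical
  by_cases h0 : ∀ (b : Bool) (f : Fin 11 → V), ¬ Emb (fun x y => G.Adj x y ∧ c x y = b) f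
  · exact ⟨c, hc, h0⟩
  push Not at h0
  obtain ⟨b, f, hf⟩ := h0
  have hout : ∀ x y, (∀ u, f u ≠ x) → (∀ u, f u ≠ y) → G.Adj x y → c x y = !b := by
    intro x y hx hy hxy
    by_contra hne
    have hb : c x y = b := by cases b <;> simpa using hne
    obtain ⟨g, hg1, hg2⟩ := extend hf hx hy hxy.ne ⟨hxy, hb⟩ ⟨hxy.symm, (hc y x).trans hb⟩
    exact hH b g hg1 hg2
  by_cases h1 : ∃ f' : Fin 11 → V, Emb G.Adj f' ∧ ∀ u v, f u ≠ f' v
  · obtain ⟨f', hf', hd⟩ := h1
    have hf'' : Emb (fun x y => G.Adj x y ∧ c x y = !b) f' :=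
      ⟨hf'.1, fun u v h => ⟨hf'.2 u v h, hout _ _ (fun w => hd w u) (fun w => hd w v) (hf'.2 u v h)⟩⟩
    have hind : ∀ x y, (∀ u, f u ≠ x) → (∀ u, f u ≠ y) → (∀ u, f' u ≠ x) → (∀ u, f' u ≠ y) →
        ¬ G.Adj x y := by
      intro x y hx hy hx' hy' hxy
      have hb := hout x y hx hy hxy
      obtain ⟨g, hg1, hg2⟩ := extend hf'' hx' hy' hxy.ne ⟨hxy, hb⟩ ⟨hxy.symm, (hc y x).trans hb⟩
      exact hH _ g hg1 hg2
    refine of_parts G (fun x => if ∃ v, v ≠ 0 ∧ f v = x then 0 else if ∃ v, v ≠ 0 ∧ f' v = x then 1 else 2) ?_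
    intro g hg hconst
    by_cases a0 : ∃ v, v ≠ 0 ∧ f v = g 0
    · refine not_small hg.1 (g := f) fun u => ?_
      have := hconst u
      simp only [if_pos a0] at this
      by_contra hn
      rw [if_neg hn] at this
      split_ifs at this <;> exact absurd this (by decide)
    by_cases a1 : ∃ v, v ≠ 0 ∧ f' v = g 0
    · refine not_small hg.1 (g := f') fun u => ?_
      have := hconst u
      simp only [if_neg a0, if_pos a1] at this
      by_contra hn
      rw [if_neg hn] at this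
      split_ifs at this <;> exact absurd this (by decide)
    have hall : ∀ u, (¬ ∃ v, v ≠ 0 ∧ f v = g u) ∧ ¬ ∃ v, v ≠ 0 ∧ f' v = g u := by
      intro u
      have := hconst u
      simp only [if_neg a0, if_neg a1] at this
      constructor
      · intro hn
        rw [if_pos hn] at this
        exact absurd this (by decide)
      · intro hn
        rw [if_pos hn] at this
        split_ifs at this <;> exact absurd this (by decide)
    refine not_emb_col (fun x => if x = f 0 then 0 else if x = f' 0 then 1 else 2) hg ?_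
    intro u v huv heq
    have hne := huv.ne
    by_cases b1 : g u = f 0
    · have b2 : g v ≠ f 0 := fun h => hne (b1.trans h.symm)
      simp only [if_pos b1, if_neg b2] at heq
      split_ifs at heq <;> exact absurd heq (by decide)
    by_cases b2 : g v = f 0
    · simp only [if_neg b1, if_pos b2] at heq
      split_ifs at heq <;> exact absurd heq (by decide)
    by_cases b3 : g u = f' 0
    · have b4 : g v ≠ f' 0 := fun h => hne (b3.trans h.symm)
      simp only [if_neg b1, if_neg b2, if_pos b3, if_neg b4] at heq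
      exact absurd heq (by decide)
    by_cases b4 : g v = f' 0
    · simp only [if_neg b1, if_neg b2, if_neg b3, if_pos b4] at heq
      exact absurd heq (by decide)
    have k1 : ∀ w, g w ≠ f 0 → ∀ a, f a ≠ g w := by
      intro w hw a ha
      by_cases h : a = 0
      · exact hw (by rw [← ha, h])
      · exact (hall w).1 ⟨a, h, ha⟩
    have k2 : ∀ w, g w ≠ f' 0 → ∀ a, f' a ≠ g w := by
      intro w hw a ha
      by_cases h : a = 0
      · exact hw (by rw [← ha, h])
      · exact (hall w).2 ⟨a, h, ha⟩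
    exact hind _ _ (k1 u b1) (k1 v b2) (k2 u b3) (k2 v b4) huv
  · refine of_parts G (fun x => if ∃ v, v ≠ 0 ∧ f v = x then 0 else if x = f 0 then 1 else 2) ?_
    intro g hg hconst
    by_cases a0 : ∃ v, v ≠ 0 ∧ f v = g 0
    · refine not_small hg.1 (g := f) fun u => ?_
      have := hconst u
      simp only [if_pos a0] at this
      by_contra hn
      rw [if_neg hn] at this
      split_ifs at this <;> exact absurd this (by decide)
    by_cases a1 : g 0 = f 0
    · have := hconst 1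
      simp only [if_neg a0, if_pos a1] at this
      have h2 : g 1 ≠ f 0 := fun h => absurd (hg.1 (h.trans a1.symm)) (by decide)
      rw [if_neg h2] at this
      split_ifs at this <;> exact absurd this (by decide)
    apply h1
    refine ⟨g, hg, fun u v huv => ?_⟩
    have := hconst v
    simp only [if_neg a0, if_neg a1] at this
    by_cases h : u = 0
    · rw [if_pos (show g v = f 0 by rw [← huv, h])] at this
      split_ifs at this <;> exact absurd this (by decide)
    · rw [if_pos ⟨u, h, huv⟩] at this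
      exact absurd this (by decide)

theorem two_nbrs : ∀ u : Fin 11, ∃ v w : Fin 11, v ≠ w ∧ HH.Adj (ι u) (ι v) ∧ HH.Adj (ι u) (ι w) := by
  decide

/-- The negation of the preceding statement: For every finite triangle-free graph H with minimum degree d ≥ 1, the least minimum degree among 2-colour Ramsey-minimal graphs for H is exactly 2d−1: some minimal one attains it and none goes below. -/
theorem result :
    ¬ (∀ (n : ℕ) (H : SimpleGraph (Fin n)) (d : ℕ), H.CliqueFree 3 → 1 ≤ d →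
      (∀ v : Fin n, d ≤ (H.neighborSet v).ncard) →
      (∃ v : Fin n, (H.neighborSet v).ncard = d) →
      (∃ (m : ℕ) (G : SimpleGraph (Fin m)),
          ((∀ c : Fin m → Fin m → Bool, (∀ x y : Fin m, c x y = c y x) →
              ∃ b : Bool, ∃ f : Fin n → Fin m, Function.Injective f ∧
                ∀ u v : Fin n, H.Adj u v → G.Adj (f u) (f v) ∧ c (f u) (f v) = b) ∧
           (∀ v : Fin m, ∃ w : Fin m, G.Adj v w) ∧
           (∀ G' : SimpleGraph (Fin m), G' < G →
              ¬ (∀ c : Fin m → Fin m → Bool, (∀ x y : Fin m, c x y = c y x) →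
                  ∃ b : Bool, ∃ f : Fin n → Fin m, Function.Injective f ∧
                    ∀ u v : Fin n, H.Adj u v → G'.Adj (f u) (f v) ∧ c (f u) (f v) = b))) ∧
          (∀ v : Fin m, 2 * d - 1 ≤ (G.neighborSet v).ncard) ∧
          (∃ v : Fin m, (G.neighborSet v).ncard = 2 * d - 1)) ∧
      (∀ (m : ℕ) (G : SimpleGraph (Fin m)),
          ((∀ c : Fin m → Fin m → Bool, (∀ x y : Fin m, c x y = c y x) →
              ∃ b : Bool, ∃ f : Fin n → Fin m, Function.Injective f ∧
                ∀ u v : Fin n, H.Adj u v → G.Adj (f u) (f v) ∧ c (f u) (f v) = b) ∧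
           (∀ v : Fin m, ∃ w : Fin m, G.Adj v w) ∧
           (∀ G' : SimpleGraph (Fin m), G' < G →
              ¬ (∀ c : Fin m → Fin m → Bool, (∀ x y : Fin m, c x y = c y x) →
                  ∃ b : Bool, ∃ f : Fin n → Fin m, Function.Injective f ∧
                    ∀ u v : Fin n, H.Adj u v → G'.Adj (f u) (f v) ∧ c (f u) (f v) = b))) →
          ∀ v : Fin m, 2 * d - 1 ≤ (G.neighborSet v).ncard)) := by
  classical
  intro H
  have htri : HH.CliqueFree 3 := by
    rw [SimpleGraph.cliqueFree_iff]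
    refine ⟨fun e => ?_⟩
    have h : ∀ a b c : Fin 13, HH.Adj a b → HH.Adj b c → ¬ HH.Adj a c := by decide
    exact h (e 0) (e 1) (e 2) (e.toHom.map_adj (by decide)) (e.toHom.map_adj (by decide))
      (e.toHom.map_adj (by decide))
  have hdeg : ∀ v : Fin 13, 1 ≤ (HH.neighborSet v).ncard := by
    intro v
    have h : ∀ v : Fin 13, ∃ w, HH.Adj v w := by decide
    exact (Set.ncard_pos (Set.toFinite _)).2 (h v)
  have hone : ∃ v : Fin 13, (HH.neighborSet v).ncard = 1 := by
    refine ⟨11, Set.ncard_eq_one.2 ⟨12, ?_⟩⟩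
    ext w
    have h : ∀ w : Fin 13, HH.Adj 11 w ↔ w = 12 := by decide
    exact h w
  obtain ⟨⟨m, G, ⟨hR, -, hmin⟩, -, w, hw⟩, -⟩ := H 13 HH 1 htri le_rfl hdeg hone
  obtain ⟨x, hx⟩ := Set.ncard_eq_one.1 hw
  have hwx : G.Adj w x := by
    have : x ∈ G.neighborSet w := by rw [hx]; rfl
    exact this
  have hlt : G.deleteEdges {s(w, x)} < G := by
    refine lt_of_le_of_ne (G.deleteEdges_le _) fun h => ?_
    have : (G.deleteEdges {s(w, x)}).Adj w x := by rw [h]; exact hwx
    simp at this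
  have h1 := hmin _ hlt
  push Not at h1
  obtain ⟨c, hc, hc2⟩ := h1
  obtain ⟨c', hc', hF⟩ := equiv (G.deleteEdges {s(w, x)}) c hc (by
    intro b g hg hall
    obtain ⟨u, v, h1, h2⟩ := hc2 b g hg
    exact h2 (hall u v h1).1 (hall u v h1).2)
  obtain ⟨b, g, hg1, hg2⟩ := hR c' hc'
  have hιinj : Function.Injective ι := Fin.castLE_injective (by norm_num)
  have hnw : ∀ u : Fin 11, g (ι u) ≠ w := by
    intro u hu
    obtain ⟨v, v', hvv, h1, h2⟩ := two_nbrs u
    have e1 : g (ι v) ∈ G.neighborSet w := by rw [← hu]; exact (hg2 _ _ h1).1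
    have e2 : g (ι v') ∈ G.neighborSet w := by rw [← hu]; exact (hg2 _ _ h2).1
    rw [hx] at e1 e2
    exact hvv (hιinj (hg1 (e1.trans e2.symm)))
  refine hF b (fun u => g (ι u)) ⟨hg1.comp hιinj, fun u v h => ⟨?_, (hg2 _ _ h).2⟩⟩
  rw [SimpleGraph.deleteEdges_adj]
  refine ⟨(hg2 _ _ h).1, fun he => ?_⟩
  rcases Sym2.eq_iff.1 (Set.mem_singleton_iff.1 he) with ⟨h1, -⟩ | ⟨-, h1⟩
  · exact hnw u h1
  · exact hnw v h1

end Pool.Agent.S10760
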