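import Pool.Statements.S10836
import Pool.Agent.H919Z.FSInc

set_option autoImplicit false
open Pool Pool.MP_b06bf8_co

namespace Pool.Agent.S10836

/-- The negation of the preceding statement: There is a constant C such that for all graphs X, Y on n vertices, if the friends-and-strangers graph of X and Y is connected then its diameter is at most C·(n+1)^C. -/
theorem result :
    ¬ (∃ C : ℕ, ∀ n : ℕ, ∀ X Y : SimpleGraph (Fin n),
      (SimpleGraph.fromRel (fun σ τ : Equiv.Perm (Fin n) =>
          ∃ a b : Fin n, X.Adj a b ∧ Y.Adj (σ a) (σ b) ∧ τ = σ * Equiv.swap a b)).Connected →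
      (SimpleGraph.fromRel (fun σ τ : Equiv.Perm (Fin n) =>
          ∃ a b : Fin n, X.Adj a b ∧ Y.Adj (σ a) (σ b) ∧ τ = σ * Equiv.swap a b)).diam
        ≤ C * (n + 1) ^ C) := by
  exact Pool.Agent.H919Z.FS.not_poly

end Pool.Agent.S10836
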