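import Pool.Statements.S10855
import Pool.Agent.H232Z.Str.Comb

set_option autoImplicit false
open Pool Pool.MP_b0fea6_co

namespace Pool.Agent.S10855

/-- There is a constant c such that any finite family of Jordan arcs in the plane can be properly coloured with k+c colours if each two arcs meet at most once, each two arcs can be pulled apart by arbitrarily small moves, and each point lies on at most k arcs. -/
theorem result :
    ∃ c : ℕ, ∀ k n : ℕ, ∀ γ : Fin n → (unitInterval → ℝ × ℝ),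
      (∀ i, Continuous (γ i) ∧ Function.Injective (γ i)) →
      (∀ i j, i ≠ j → (Set.range (γ i) ∩ Set.range (γ j)).Subsingleton) →
      (∀ i j, i ≠ j → ∀ ε : ℝ, 0 < ε →
        ∃ α β : unitInterval → ℝ × ℝ, Continuous α ∧ Continuous β ∧
          (∀ t, dist (α t) (γ i t) < ε) ∧ (∀ t, dist (β t) (γ j t) < ε) ∧
          Disjoint (Set.range α) (Set.range β)) →
      (∀ p : ℝ × ℝ, {i : Fin n | p ∈ Set.range (γ i)}.ncard ≤ k) →
      ∃ f : Fin n → Fin (k + c), ∀ i j, i ≠ j →
        (Set.range (γ i) ∩ Set.range (γ j)).Nonempty → f i ≠ f j := by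
  classical
  refine ⟨2 * (2 ^ (2 * H232Z.Str.bnd 5) * H232Z.Str.bnd 5) + 1, ?_⟩
  intro k n γ h1 h2 h3 h4
  let e : ℝ × ℝ → ℂ := Complex.equivRealProdCLM.symm
  have he : Function.Injective e := Complex.equivRealProdCLM.symm.injective
  have hc : Continuous e := Complex.equivRealProdCLM.symm.continuous
  have hn : ∀ x y : ℝ × ℝ, ‖e x - e y‖ ≤ 2 * dist x y := by
    intro x y
    have a1 : e x - e y = e (x - y) := (map_sub Complex.equivRealProdCLM.symm x y).symm
    have a2 := Complex.norm_le_abs_re_add_abs_im (e (x - y))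
    have a3 : (e (x - y)).re = (x - y).1 := rfl
    have a4 : (e (x - y)).im = (x - y).2 := rfl
    have a5 := norm_fst_le (x - y)
    have a6 := norm_snd_le (x - y)
    rw [Real.norm_eq_abs] at a5 a6
    rw [a1, dist_eq_norm]
    rw [a3, a4] at a2
    linarith
  have F : H232Z.Str.Fam (fun i t => e (γ i t)) := by
    refine ⟨fun i => hc.comp (h1 i).1, fun i => he.comp (h1 i).2, ?_, ?_⟩
    · intro i j hij s t s' t' a b
      exact congrArg e (h2 i j hij ⟨⟨s, rfl⟩, ⟨t, (he a).symm⟩⟩ ⟨⟨s', rfl⟩, ⟨t', (he b).symm⟩⟩)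
    · intro i j hij
      refine H232Z.Str.Sep.sq (hc.comp (h1 i).1) (hc.comp (h1 j).1) ?_
      intro ε hε
      obtain ⟨α, β, hα, hβ, c1, c2, hd⟩ := h3 i j hij (ε / 2) (by positivity)
      refine ⟨fun t => e (α t), fun t => e (β t), hc.comp hα, hc.comp hβ, fun t => ?_,
        fun t => ?_, fun s t h => ?_⟩
      · linarith [hn (α t) (γ i t), c1 t]
      · linarith [hn (β t) (γ j t), c2 t]
      · exact Set.disjoint_left.1 hd ⟨s, rfl⟩ ⟨t, (he h).symm⟩
  obtain ⟨f, hf⟩ := H232Z.Str.colouring F k (by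
    intro p
    refine le_trans (le_of_eq ?_) (h4 (Complex.equivRealProdCLM p))
    rw [← Set.ncard_coe_finset]
    congr 1
    ext l
    rw [Finset.mem_coe, H232Z.Str.mem_thru]
    constructor
    · rintro ⟨-, t, ht⟩
      exact ⟨t, by rw [← ht]; simp [e]⟩
    · rintro ⟨t, ht⟩
      exact ⟨Finset.mem_univ _, t, by
        show e (γ l t) = p
        rw [ht]
        exact Complex.equivRealProdCLM.symm_apply_apply p⟩)
  refine ⟨f, fun i j hij hne => hf i j hij ?_⟩
  obtain ⟨p, ⟨s, hs⟩, ⟨t, ht⟩⟩ := hne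
  exact ⟨e p, ⟨s, by simp only [hs]⟩, ⟨t, by simp only [ht]⟩⟩

end Pool.Agent.S10855
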