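import Pool.Statements.S10902

set_option autoImplicit false
open Pool Pool.MP_b33253_co

namespace Pool.Agent.S10902

/-- The colour of `y` is the fifth of `[0,1)` that contains the fractional part of `y ^ 2 / 4`. -/
def col (y : ℚ) : Fin 5 :=
  ⟨(⌊5 * Int.fract (y ^ 2 / 4)⌋).toNat, by
    have h0 : (0 : ℚ) ≤ 5 * Int.fract (y ^ 2 / 4) := by
      have := Int.fract_nonneg (y ^ 2 / 4); linarith
    have h1 : 5 * Int.fract (y ^ 2 / 4) < 5 := by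
      have := Int.fract_lt_one (y ^ 2 / 4); linarith
    have h2 : ⌊5 * Int.fract (y ^ 2 / 4)⌋ < 5 := by
      rw [Int.floor_lt]; exact_mod_cast h1
    have h3 : 0 ≤ ⌊5 * Int.fract (y ^ 2 / 4)⌋ := Int.floor_nonneg.mpr h0
    omega⟩

theorem close {a b : ℚ} (h : col a = col b) :
    |Int.fract (a ^ 2 / 4) - Int.fract (b ^ 2 / 4)| < 1 / 5 := by
  have h0 : ∀ y : ℚ, 0 ≤ ⌊5 * Int.fract (y ^ 2 / 4)⌋ := fun y =>
    Int.floor_nonneg.mpr (by have := Int.fract_nonneg (y ^ 2 / 4); linarith)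
  have h1 : (⌊5 * Int.fract (a ^ 2 / 4)⌋).toNat = (⌊5 * Int.fract (b ^ 2 / 4)⌋).toNat :=
    congrArg Fin.val h
  have h2 : ⌊5 * Int.fract (a ^ 2 / 4)⌋ = ⌊5 * Int.fract (b ^ 2 / 4)⌋ := by
    have := h0 a; have := h0 b; omega
  have h3 := Int.abs_sub_lt_one_of_floor_eq_floor h2
  rw [abs_lt] at h3 ⊢
  constructor <;> linarith [h3.1, h3.2]

/-- The pattern is not partition regular over the rationals: five colours suffice, because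
`(x+d+1/d)^2 - (x+d)^2 - (x+1/d)^2 + x^2 = 2`. -/
theorem result :
    ¬ (∀ (r : ℕ) (c : ℚ → Fin r), ∃ x d : ℚ, d ≠ 0 ∧
      c (x + d) = c x ∧ c (x + 1 / d) = c x ∧ c (x + d + 1 / d) = c x) := by
  intro h
  obtain ⟨x, d, hd, h1, h2, h3⟩ := h 5 col
  have e1 := close (h3.trans h1.symm)
  have e2 := close h2
  have key : (x + d + 1 / d) ^ 2 / 4 - (x + d) ^ 2 / 4 - (x + 1 / d) ^ 2 / 4 + x ^ 2 / 4
      = 1 / 2 := by
    field_simp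
    ring
  rw [abs_lt] at e1 e2
  unfold Int.fract at e1 e2
  set m : ℤ := ⌊(x + d + 1 / d) ^ 2 / 4⌋ - ⌊(x + d) ^ 2 / 4⌋ - ⌊(x + 1 / d) ^ 2 / 4⌋ + ⌊x ^ 2 / 4⌋
    with hm
  have hmq : (m : ℚ) = (⌊(x + d + 1 / d) ^ 2 / 4⌋ : ℚ) - (⌊(x + d) ^ 2 / 4⌋ : ℚ)
      - (⌊(x + 1 / d) ^ 2 / 4⌋ : ℚ) + (⌊x ^ 2 / 4⌋ : ℚ) := by
    rw [hm]; push_cast; ring
  have l1 : (0 : ℚ) < m := by linarith [e1.1, e1.2, e2.1, e2.2]
  have l2 : (m : ℚ) < 1 := by linarith [e1.1, e1.2, e2.1, e2.2]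
  have l1' : (0 : ℤ) < m := by exact_mod_cast l1
  have l2' : m < (1 : ℤ) := by exact_mod_cast l2
  omega

end Pool.Agent.S10902
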