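import Pool.Statements.S10994
import Pool.Agent.H348Z.Box.Main

set_option autoImplicit false
open Pool Pool.MP_b75ab8_co

namespace Pool.Agent.S10994

/-- The negation of the preceding statement: There is c>1 such that for all large d and all large k, for all large n, every partition of [n]^d into nonempty boxes in which every axis-parallel line meets at least k boxes has at least c^d·k boxes. -/
theorem result :
    ¬ (∃ c : ℝ, 1 < c ∧ ∃ D : ℕ, ∀ d : ℕ, D ≤ d → ∃ K : ℕ, ∀ k : ℕ, K ≤ k →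
      ∃ N : ℕ, ∀ n : ℕ, N ≤ n →
        ∀ P : Finset (Fin d → Finset (Fin n)),
          (∀ B ∈ P, ∀ i : Fin d, (B i).Nonempty) →
          (∀ x : Fin d → Fin n, ∃! B, B ∈ P ∧ ∀ i : Fin d, x i ∈ B i) →
          (∀ i : Fin d, ∀ a : Fin d → Fin n,
              k ≤ (P.filter (fun B => ∃ t : Fin n, ∀ j : Fin d,
                    Function.update a i t j ∈ B j)).card) →
          c ^ d * (k : ℝ) ≤ (P.card : ℝ)) := by
  rintro ⟨c, hc, D, H⟩
  refine Pool.Agent.H348Z.Box.not_exponential ⟨c, hc, D, fun d hd => ?_⟩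
  obtain ⟨K, hK⟩ := H d hd
  refine ⟨K, fun k hk => ?_⟩
  obtain ⟨N, hN⟩ := hK k hk
  exact ⟨N, fun n hn P hP => hN n hn P hP.1 hP.2.1 hP.2.2⟩

end Pool.Agent.S10994
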