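import Pool.Statements.S11022
import Pool.Agent.H937Z.RF.Main

set_option autoImplicit false
open Pool Pool.MP_b8a58d_co

namespace Pool.Agent.S11022

/-- The negation of the preceding statement: Every forest of k rooted trees can be placed bijectively on any equally large planar point set with no three collinear, each root at its own prescribed distinct point, so that straight edges with no common endpoint do not meet. -/
theorem result :
    ¬ (∀ (k : ℕ) (V : Type) [Fintype V] (G : SimpleGraph V) (r : Fin k → V),
      G.IsAcyclic →
      (∀ v : V, ∃ i : Fin k, G.Reachable (r i) v) →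
      (∀ i j : Fin k, G.Reachable (r i) (r j) → i = j) →
      ∀ (P : Finset (EuclideanSpace ℝ (Fin 2))) (p : Fin k → EuclideanSpace ℝ (Fin 2)),
        P.card = Fintype.card V →
        (∀ a ∈ P, ∀ b ∈ P, ∀ c ∈ P, a ≠ b → a ≠ c → b ≠ c → ¬ Collinear ℝ {a, b, c}) →
        Function.Injective p →
        (∀ i, p i ∈ P) →
        ∃ f : V → EuclideanSpace ℝ (Fin 2),
          Function.Injective f ∧ (∀ v, f v ∈ P) ∧ (∀ i, f (r i) = p i) ∧
          ∀ u v x y : V, G.Adj u v → G.Adj x y → u ≠ x → u ≠ y → v ≠ x → v ≠ y →
            Disjoint (segment ℝ (f u) (f v)) (segment ℝ (f x) (f y))) := by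
  exact Pool.Agent.H937Z.RootedForest.main

end Pool.Agent.S11022
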