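import Pool.Statements.S11026
import Pool.Agent.H423Z.StrJ

set_option autoImplicit false
open Pool Pool.MP_b8f462_co

namespace Pool.Agent.S11026

/-- The negation of the preceding statement: For every constant K there are arbitrarily large n such that, for every set A of 2^n points of the (n+1)-cube containing all points of weight at most k* or at least n+1−k*, every bijection from the n-cube onto A has average edge stretch greater than K. -/
theorem result :
    ¬ (∀ K : ℝ, ∀ N : ℕ, ∃ n : ℕ, N ≤ n ∧
      ∀ k : ℕ,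
        IsGreatest {m : ℕ | ∑ j ∈ Finset.range (m + 1), (n + 1).choose j ≤ 2 ^ (n - 1)} k →
        ∀ A : Finset (Fin (n + 1) → Bool),
          (∀ x : Fin (n + 1) → Bool,
              ((Finset.univ.filter (fun i => x i = true)).card ≤ k ∨
               n + 1 - k ≤ (Finset.univ.filter (fun i => x i = true)).card) → x ∈ A) →
          A.card = 2 ^ n →
          ∀ φ : (Fin n → Bool) → (Fin (n + 1) → Bool),
            Function.Injective φ →
            (∀ x, φ x ∈ A) →
            K * ((n : ℝ) * 2 ^ n) <
              ∑ x : Fin n → Bool, ∑ i : Fin n,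
                (hammingDist (φ x) (φ (Function.update x i (!x i))) : ℝ)) := by
  intro h
  obtain ⟨n, hn, h⟩ := h 100002 4097
  obtain ⟨N, rfl⟩ : ∃ N, n = N + 1 := ⟨n - 1, by omega⟩
  have hex : ∃ m, 2 ^ N < ∑ j ∈ Finset.range (m + 1), (N + 2).choose j := by
    refine ⟨N + 2, ?_⟩
    rw [Nat.sum_range_choose]
    exact Nat.pow_lt_pow_right (by norm_num) (by omega)
  obtain ⟨k, hk⟩ : ∃ k, Nat.find hex = k + 1 := by
    apply Nat.exists_eq_succ_of_ne_zero
    intro h0
    have := Nat.find_spec hex
    rw [h0] at this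
    simp at this
  have h2 : 2 ^ N < ∑ j ∈ Finset.range (k + 1 + 1), (N + 2).choose j := hk ▸ Nat.find_spec hex
  have h1 : ∑ j ∈ Finset.range (k + 1), (N + 2).choose j ≤ 2 ^ N :=
    not_lt.1 (Nat.find_min hex (by omega))
  obtain ⟨A, a1, a2, φ, p1, p2, p3⟩ := H423Z.Str.two_balls N (by omega) k h1 h2
  have h3 := h k ⟨h1, fun m hm => by
    by_contra h4
    have h5 : ∑ j ∈ Finset.range (m + 1), (N + 2).choose j ≤ 2 ^ N := hm
    have h6 := Finset.sum_le_sum_of_subset (f := fun j => (N + 2).choose j)
      (Finset.range_mono (show k + 1 + 1 ≤ m + 1 by omega))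
    omega⟩ A a2 a1 φ p1 p2
  unfold H423Z.Str.av at p3
  rw [div_le_iff₀ (by positivity)] at p3
  simp only [Fintype.card_fun, Fintype.card_fin, Fintype.card_bool, Nat.cast_pow,
    Nat.cast_ofNat] at p3
  rw [← mul_assoc] at h3
  exact absurd p3 (not_le.2 h3)

end Pool.Agent.S11026
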