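import Pool.Statements.S11077
import Pool.Agent.H18Z.Nonrep

set_option autoImplicit false
open Pool Pool.MP_bae42e_co

namespace Pool.Agent.S11077

/-- There is f such that for every finite graph G with a nonrepetitive k-colouring and every matching M of G, the graph G/M obtained by contracting the edges of M has a nonrepetitive f(k)-colouring. -/
theorem result :
    ∃ f : ℕ → ℕ, ∀ (V : Type) [Fintype V] (G : SimpleGraph V) (M : G.Subgraph),
      M.IsMatching → ∀ k : ℕ,
        (∃ c : V → Fin k, ∀ (u v : V) (p : G.Walk u v), p.IsPath →
          Even p.support.length →
          (p.support.map c).take (p.support.length / 2) ≠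
            (p.support.map c).drop (p.support.length / 2)) →
        ∃ c : Quot M.Adj → Fin (f k),
          ∀ (a b : Quot M.Adj)
            (p : (SimpleGraph.fromRel (fun x y : Quot M.Adj =>
                ∃ u v : V, Quot.mk M.Adj u = x ∧ Quot.mk M.Adj v = y ∧ G.Adj u v)).Walk a b),
            p.IsPath → Even p.support.length →
            (p.support.map c).take (p.support.length / 2) ≠
              (p.support.map c).drop (p.support.length / 2) :=
  Pool.Agent.H18Z.Nonrep.main

end Pool.Agent.S11077
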