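import Pool.Statements.S11193
import Pool.Agent.H243Z.RM.Main

set_option autoImplicit false
open Pool Pool.MP_c044fe_co

namespace Pool.Agent.S11193

/-- For every graph G on k≥1 vertices, for all large n, every graph F such that every 2-colouring of F's edges has a monochromatic copy of nG contains floor(r(nG)/k) vertex-disjoint copies of G. -/
theorem result :
    ∀ k : ℕ, 0 < k → ∀ G : SimpleGraph (Fin k), ∃ n₀ : ℕ, ∀ n : ℕ, n₀ ≤ n →
      ∀ m : ℕ, ∀ F : SimpleGraph (Fin m),
        (∀ c : Fin m → Fin m → Bool, (∀ x y : Fin m, c x y = c y x) →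
          ∃ b : Bool, ∃ f : Fin n × Fin k → Fin m,
            Function.Injective f ∧
              ∀ p q : Fin n × Fin k, p.1 = q.1 → G.Adj p.2 q.2 →
                F.Adj (f p) (f q) ∧ c (f p) (f q) = b) →
        ∃ f : Fin (sInf {N : ℕ | ∀ c : Fin N → Fin N → Bool,
                (∀ x y : Fin N, c x y = c y x) → ∃ b : Bool,
                ∃ g : Fin n × Fin k → Fin N, Function.Injective g ∧
                  ∀ p q : Fin n × Fin k, p.1 = q.1 → G.Adj p.2 q.2 →
                    c (g p) (g q) = b} / k) × Fin k → Fin m,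
          Function.Injective f ∧
            ∀ p q : Fin (sInf {N : ℕ | ∀ c : Fin N → Fin N → Bool,
                (∀ x y : Fin N, c x y = c y x) → ∃ b : Bool,
                ∃ g : Fin n × Fin k → Fin N, Function.Injective g ∧
                  ∀ p q : Fin n × Fin k, p.1 = q.1 → G.Adj p.2 q.2 →
                    c (g p) (g q) = b} / k) × Fin k,
              p.1 = q.1 → G.Adj p.2 q.2 → F.Adj (f p) (f q) := by
  classical
  intro k hk G
  obtain ⟨n₀, h⟩ := H243Z.RM.main_gen G
  refine ⟨n₀, fun n hn m F hF => ?_⟩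
  set S := {N : ℕ | ∀ c : Fin N → Fin N → Bool,
                (∀ x y : Fin N, c x y = c y x) → ∃ b : Bool,
                ∃ g : Fin n × Fin k → Fin N, Function.Injective g ∧
                  ∀ p q : Fin n × Fin k, p.1 = q.1 → G.Adj p.2 q.2 →
                    c (g p) (g q) = b} with hS
  have hm : m ∈ S := fun c hc => by
    obtain ⟨b, f, h1, h2⟩ := hF c hc
    exact ⟨b, f, h1, fun p q e hpq => (h2 p q e hpq).2⟩
  have hrm : sInf S ≤ m := Nat.sInf_le hm
  have hA : H243Z.RM.Arrow G F.Adj n := by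
    intro c hc
    obtain ⟨b, f, h1, h2⟩ := hF (fun x y => decide (c x y))
      (fun x y => decide_eq_decide.2 ⟨hc x y, hc y x⟩)
    cases b
    · exact Or.inr ⟨f, h1, fun _ => Finset.mem_univ _, fun i a b hab =>
        ⟨(h2 (i, a) (i, b) rfl hab).1, of_decide_eq_false (h2 (i, a) (i, b) rfl hab).2⟩⟩
    · exact Or.inl ⟨f, h1, fun _ => Finset.mem_univ _, fun i a b hab =>
        ⟨(h2 (i, a) (i, b) rfl hab).1, of_decide_eq_true (h2 (i, a) (i, b) rfl hab).2⟩⟩
  have hkt : k * (sInf S / k) ≤ sInf S := Nat.mul_div_le _ _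
  suffices hP : H243Z.RM.Pack G F.Adj Finset.univ (sInf S / k) by
    obtain ⟨f, h1, -, h3⟩ := hP
    refine ⟨f, h1, ?_⟩
    rintro ⟨i, a⟩ ⟨j, b⟩ e hab
    obtain rfl : i = j := e
    exact h3 i a b hab
  by_cases ht : sInf S / k ≤ n
  · exact hA.pack.mono (Finset.Subset.refl _) ht
  have h1 : k * (n + 1) ≤ k * (sInf S / k) := Nat.mul_le_mul_left _ (by omega)
  rw [mul_add, mul_one] at h1
  have hnot : sInf S - 1 ∉ S := Nat.notMem_of_lt_sInf (by omega)
  rw [hS, Set.mem_ofPred_eq, not_forall] at hnot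
  obtain ⟨c, hc⟩ := hnot
  rw [Classical.not_imp] at hc
  obtain ⟨hc, hno⟩ := hc
  have key : ∀ b : Bool, ¬ H243Z.RM.Pack G (fun x y => c x y = b) Finset.univ n := by
    rintro b ⟨f, h1, -, h3⟩
    refine hno ⟨b, f, h1, ?_⟩
    rintro ⟨i, a⟩ ⟨j, b⟩ e hab
    obtain rfl : i = j := e
    exact h3 i a b hab
  refine h n hn _ (fun x y => c x y = true) (fun x y => c x y = false)
    (fun x y h => (hc y x).trans h) (fun x y h => (hc y x).trans h)
    (fun x y => by cases c x y <;> simp) (key true) (key false) ?_ (Fin m) F.Adj hA _ ?_ ?_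
  · simp only [Fintype.card_fin]
    rw [← hS]
    omega
  · simp only [Fintype.card_fin]
    rw [← hS]
    omega
  · simp only [Fintype.card_fin]
    omega

end Pool.Agent.S11193
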