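import Pool.Statements.S11218

set_option autoImplicit false
open Pool Pool.MP_c0f93d_co

namespace Pool.Agent.S11218

/-- Twenty 5-sets on the 21 points of the projective plane of order 4: points `0..5` form a
hyperoval `H`; the blocks are its 15 secants, the two external lines through the point `6`, and the
three sets obtained from `H` by replacing the two points of a secant through `6` with `6`. -/
def L : List (List ℕ) :=
  [[0, 1, 6, 7, 8], [0, 2, 9, 10, 11], [0, 3, 12, 13, 14], [0, 4, 15, 16, 17], [0, 5, 18, 19, 20],
   [1, 2, 12, 15, 18], [1, 3, 9, 16, 19], [1, 4, 10, 13, 20], [1, 5, 11, 14, 17],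
   [2, 3, 6, 17, 20], [2, 4, 7, 14, 19], [2, 5, 8, 13, 16], [3, 4, 8, 11, 18], [3, 5, 7, 10, 15],
   [4, 5, 6, 9, 12], [6, 10, 14, 16, 18], [6, 11, 13, 15, 19], [2, 3, 4, 5, 6], [0, 1, 2, 3, 6],
   [0, 1, 4, 5, 6]]

def hit (S A : List ℕ) : Bool := A.any fun a => S.contains a

def check : ℕ → List ℕ → Bool
  | 0, S => !(L.all (hit S)) || L.any fun A => A.all fun a => S.contains a
  | k + 1, S =>
    match L.find? (fun A => !(hit S A)) with
    | none => false
    | some A => A.all fun a => check k (a :: S)

theorem check_ok : check 5 [] = true := by decide +kernel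

theorem card_ok : ∀ A ∈ L, A.toFinset.card = 5 := by decide +kernel

theorem sound (B : Finset ℕ) (hB : B.card = 5)
    (hc : ∀ A ∈ L, ∃ a ∈ A, a ∈ B) :
    ∀ (k : ℕ) (S : List ℕ), (∀ a ∈ S, a ∈ B) → S.toFinset.card + k = 5 → check k S = true →
      ∃ A ∈ L, A.toFinset = B := by
  intro k
  induction k with
  | zero =>
    intro S hS hk h
    have hSB : S.toFinset = B := by
      apply Finset.eq_of_subset_of_card_le
      · intro a ha; exact hS a (List.mem_toFinset.1 ha)
      · omega
    simp only [check, Bool.or_eq_true, Bool.not_eq_true', List.any_eq_true, List.all_eq_true,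
      List.contains_iff_mem] at h
    rcases h with h | ⟨A, hA, h⟩
    · exfalso
      have : L.all (hit S) = true := by
        rw [List.all_eq_true]
        intro A hA
        obtain ⟨a, ha, haB⟩ := hc A hA
        simp only [hit, List.any_eq_true, List.contains_iff_mem]
        exact ⟨a, ha, by rw [← hSB] at haB; exact List.mem_toFinset.1 haB⟩
      rw [this] at h; exact absurd h (by decide)
    · refine ⟨A, hA, ?_⟩
      apply Finset.eq_of_subset_of_card_le
      · intro a ha; exact hS a (h a (List.mem_toFinset.1 ha))
      · rw [card_ok A hA, hB]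
  | succ k ih =>
    intro S hS hk h
    unfold check at h
    split at h
    · exact absurd h (by decide)
    · rename_i A hA
      have hmem : A ∈ L := List.mem_of_find?_eq_some hA
      have hnot := List.find?_some hA
      obtain ⟨a, ha, haB⟩ := hc A hmem
      have haS : a ∉ S := by
        intro haS
        have : hit S A = true := by
          simp only [hit, List.any_eq_true, List.contains_iff_mem]
          exact ⟨a, ha, haS⟩
        rw [this] at hnot; exact absurd hnot (by decide)
      rw [List.all_eq_true] at h
      refine ih (a :: S) ?_ ?_ (h a ha)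
      · intro b hb
        rcases List.mem_cons.1 hb with rfl | hb
        · exact haB
        · exact hS b hb
      · rw [List.toFinset_cons, Finset.card_insert_of_notMem (by simpa using haS)]
        omega

def F : Finset (Finset ℕ) := (L.map List.toFinset).toFinset

theorem mem_F (A : Finset ℕ) : A ∈ F ↔ ∃ A' ∈ L, A'.toFinset = A := by
  simp only [F, List.mem_toFinset, List.mem_map]

theorem inter_ok : ∀ A ∈ L, ∀ B ∈ L, ∃ a ∈ A, a ∈ B := by decide +kernel

theorem union_ok : ∀ a ∈ List.range 21, ∃ A ∈ L, a ∈ A := by decide +kernel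

/-- The negation of the preceding statement: For every n and every finite family of n-subsets of ℕ that is pairwise intersecting and maximal (any n-set meeting all members is a member), the union of the family has at most as many elements as the family has members. -/
theorem result :
    ¬ (∀ (n : ℕ) (F : Finset (Finset ℕ)),
      (∀ A ∈ F, A.card = n) →
      (∀ A ∈ F, ∀ B ∈ F, (A ∩ B).Nonempty) →
      (∀ B : Finset ℕ, B.card = n → (∀ A ∈ F, (A ∩ B).Nonempty) → B ∈ F) →
      (F.biUnion id).card ≤ F.card) := by
  intro h
  have h1 := h 5 F ?_ ?_ ?_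
  · have h2 : F.card ≤ 20 := by
      refine (List.toFinset_card_le _).trans ?_
      simp [L]
    have h3 : Finset.range 21 ⊆ F.biUnion id := by
      intro a ha
      obtain ⟨A, hA, haA⟩ := union_ok a (by simpa using ha)
      exact Finset.mem_biUnion.2 ⟨A.toFinset, (mem_F _).2 ⟨A, hA, rfl⟩, List.mem_toFinset.2 haA⟩
    have h4 := Finset.card_le_card h3
    rw [Finset.card_range] at h4
    omega
  · intro A hA
    obtain ⟨A', hA', rfl⟩ := (mem_F A).1 hA
    exact card_ok A' hA'
  · intro A hA B hB
    obtain ⟨A', hA', rfl⟩ := (mem_F A).1 hA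
    obtain ⟨B', hB', rfl⟩ := (mem_F B).1 hB
    obtain ⟨a, ha, hb⟩ := inter_ok A' hA' B' hB'
    exact ⟨a, Finset.mem_inter.2 ⟨List.mem_toFinset.2 ha, List.mem_toFinset.2 hb⟩⟩
  · intro B hB hc
    refine (mem_F B).2 (sound B hB ?_ 5 [] (by simp) (by simp) check_ok)
    intro A hA
    obtain ⟨a, ha⟩ := hc A.toFinset ((mem_F _).2 ⟨A, hA, rfl⟩)
    rw [Finset.mem_inter] at ha
    exact ⟨a, List.mem_toFinset.1 ha.1, ha.2⟩

end Pool.Agent.S11218
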