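import Pool.Statements.S11222
import Pool.Agent.H606Z.TT

set_option autoImplicit false
open Pool Pool.MP_c11f96_co

namespace Pool.Agent.S11222

/-- The negation of the preceding statement: For k≥4 with reg(k) the largest order of a regular tournament with no transitive k-subtournament, and any ε>0: every large oriented graph on n vertices, k∣n, semidegree ≥ (1/2−(k−1)/(2k·reg(k))+ε)n, splits into disjoint transitive k-tournaments. -/
theorem result :
    ¬ (∀ k : ℕ, 4 ≤ k → ∀ r : ℕ,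
      IsGreatest {m : ℕ | ∃ T : Fin m → Fin m → Prop,
          (∀ x, ¬ T x x) ∧
          (∀ x y, x ≠ y → (T x y ↔ ¬ T y x)) ∧
          (∀ v, Set.ncard {w | T v w} = Set.ncard {w | T w v}) ∧
          ¬ ∃ f : Fin k → Fin m, Function.Injective f ∧
              ∀ i j : Fin k, i < j → T (f i) (f j)} r →
      ∀ ε : ℝ, 0 < ε → ∃ n0 : ℕ, ∀ n : ℕ, n0 ≤ n → k ∣ n →
        ∀ G : Fin n → Fin n → Prop,
          (∀ x, ¬ G x x) →
          (∀ x y, G x y → ¬ G y x) →
          (∀ v, ((1:ℝ)/2 - ((k:ℝ) - 1) / (2 * (k:ℝ) * (r:ℝ)) + ε) * (n:ℝ)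
                  ≤ (Set.ncard {w | G v w} : ℝ) ∧
                ((1:ℝ)/2 - ((k:ℝ) - 1) / (2 * (k:ℝ) * (r:ℝ)) + ε) * (n:ℝ)
                  ≤ (Set.ncard {w | G w v} : ℝ)) →
          ∃ f : Fin (n / k) → Fin k → Fin n,
            Function.Bijective (fun p : Fin (n / k) × Fin k => f p.1 p.2) ∧
            ∀ t : Fin (n / k), ∀ i j : Fin k, i < j → G (f t i) (f t j)) := by
  intro h
  obtain ⟨n0, hn0⟩ := h 4 le_rfl 7 Pool.Agent.H606Z.TT.reg_four (1 / 2632) (by norm_num)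
  have hdiv : 4 ∣ 4 * (n0 + 1) * 47 := Dvd.intro _ (mul_assoc _ _ _).symm
  obtain ⟨f, hf, hT⟩ := hn0 (4 * (n0 + 1) * 47) (by omega) hdiv
    (fun x y => Pool.Agent.H606Z.TT.D (finProdFinEquiv.symm x).2 (finProdFinEquiv.symm y).2 = true)
    (fun x => by rw [Pool.Agent.H606Z.TT.D_irrefl]; simp)
    (fun x y hxy => by rw [Pool.Agent.H606Z.TT.D_asymm _ _ hxy]; simp)
    (fun v => by
      rw [Pool.Agent.H606Z.TT.ncard_blow _
          (fun w : Fin 47 => Pool.Agent.H606Z.TT.D (finProdFinEquiv.symm v).2 w = true),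
        Pool.Agent.H606Z.TT.ncard_blow _
          (fun w : Fin 47 => Pool.Agent.H606Z.TT.D w (finProdFinEquiv.symm v).2 = true)]
      have h1 : (21 : ℝ) ≤ _ := Nat.cast_le.mpr (Pool.Agent.H606Z.TT.D_out (finProdFinEquiv.symm v).2)
      have h2 : (21 : ℝ) ≤ _ := Nat.cast_le.mpr (Pool.Agent.H606Z.TT.D_in (finProdFinEquiv.symm v).2)
      have h3 : (0 : ℝ) ≤ (n0 : ℝ) := Nat.cast_nonneg n0
      push_cast
      constructor <;> nlinarith)
  exact Pool.Agent.H606Z.TT.no_tiling _ (by omega) hdiv f hf hT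

end Pool.Agent.S11222
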