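import Pool.Statements.S11254
import Pool.Agent.H535Z.Dijoin.Bridge

set_option autoImplicit false
open Pool Pool.MP_c24a34_co

namespace Pool.Agent.S11254

/-- The negation of the preceding statement: For finite oriented graphs D_1..D_k each with inversion number 1 or even, the inversion number of their join (disjoint union plus all arcs from D_i to D_j for i<j) equals the sum of their inversion numbers. -/
theorem result :
    ¬ (∀ (k : ℕ) (n : Fin k → ℕ) (D : (i : Fin k) → Digraph (Fin (n i))),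
    (∀ (i : Fin k) (a b : Fin (n i)), (D i).Adj a b → ¬ (D i).Adj b a) →
    (∀ i : Fin k,
      sInf {m : ℕ | ∃ X : Fin m → Set (Fin (n i)), ∃ f : Fin (n i) → ℕ, ∀ u v : Fin (n i),
        ((D i).Adj u v ∧ Even (Nat.card {j : Fin m // u ∈ X j ∧ v ∈ X j})) ∨
        ((D i).Adj v u ∧ Odd (Nat.card {j : Fin m // u ∈ X j ∧ v ∈ X j})) → f u < f v} = 1 ∨
      Even (sInf {m : ℕ | ∃ X : Fin m → Set (Fin (n i)), ∃ f : Fin (n i) → ℕ, ∀ u v : Fin (n i),
        ((D i).Adj u v ∧ Even (Nat.card {j : Fin m // u ∈ X j ∧ v ∈ X j})) ∨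
        ((D i).Adj v u ∧ Odd (Nat.card {j : Fin m // u ∈ X j ∧ v ∈ X j})) → f u < f v})) →
    sInf {m : ℕ | ∃ X : Fin m → Set (Σ i : Fin k, Fin (n i)),
        ∃ f : (Σ i : Fin k, Fin (n i)) → ℕ, ∀ u v : (Σ i : Fin k, Fin (n i)),
        ((u.1 < v.1 ∨ ∃ (i : Fin k) (a b : Fin (n i)),
            u = ⟨i, a⟩ ∧ v = ⟨i, b⟩ ∧ (D i).Adj a b) ∧
          Even (Nat.card {j : Fin m // u ∈ X j ∧ v ∈ X j})) ∨
        ((v.1 < u.1 ∨ ∃ (i : Fin k) (a b : Fin (n i)),
            v = ⟨i, a⟩ ∧ u = ⟨i, b⟩ ∧ (D i).Adj a b) ∧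
          Odd (Nat.card {j : Fin m // u ∈ X j ∧ v ∈ X j})) → f u < f v}
    = ∑ i : Fin k,
      sInf {m : ℕ | ∃ X : Fin m → Set (Fin (n i)), ∃ f : Fin (n i) → ℕ, ∀ u v : Fin (n i),
        ((D i).Adj u v ∧ Even (Nat.card {j : Fin m // u ∈ X j ∧ v ∈ X j})) ∨
        ((D i).Adj v u ∧ Odd (Nat.card {j : Fin m // u ∈ X j ∧ v ∈ X j})) → f u < f v}) := by
  intro h
  obtain ⟨n, T₁, T₂, h1, h2, e1, e2, k, h3, h4⟩ := H535Z.Dijoin.main_even
  let T : Fin 2 → Fin n → Fin n → Prop := ![T₁, T₂]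
  have hT : ∀ i, H535Z.Dijoin.IsT (T i) := by
    intro i
    fin_cases i
    · exact h1
    · exact h2
  have hE : ∀ i, Even (H535Z.Dijoin.inv (T i)) := by
    intro i
    fin_cases i
    · exact e1
    · exact e2
  have i1 := fun i => congrArg sInf (Set.ext (H535Z.Dijoin.Inv_iff_set (hT i)) :
    {k | _} = {k | H535Z.Dijoin.Inv (T i) k})
  have h5 := h 2 (fun _ => n) (fun i => ⟨T i⟩)
    (fun i a b hab => by
      by_cases e : a = b
      · subst e
        exact absurd hab ((hT i).1 a)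
      · exact ((hT i).2 a b e).1 hab)
    (fun i => Or.inr (by
      have := hE i
      unfold H535Z.Dijoin.inv at this
      rw [← i1 i] at this
      exact this))
  let J : (Σ _ : Fin 2, Fin n) → (Σ _ : Fin 2, Fin n) → Prop := fun u v =>
    u.1 < v.1 ∨ ∃ (i : Fin 2) (a b : Fin n), u = ⟨i, a⟩ ∧ v = ⟨i, b⟩ ∧ T i a b
  let e : (Σ _ : Fin 2, Fin n) → Fin n ⊕ Fin n := fun u =>
    if u.1 = 0 then Sum.inl u.2 else Sum.inr u.2
  have he : Function.Injective e := by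
    rintro ⟨i, a⟩ ⟨j, b⟩ hab
    fin_cases i <;> fin_cases j
    · exact congrArg _ (Sum.inl_injective hab)
    · exact absurd hab Sum.inl_ne_inr
    · exact absurd hab Sum.inr_ne_inl
    · exact congrArg _ (Sum.inr_injective hab)
  have hJ : ∀ u v, J u v ↔ H535Z.Dijoin.dj T₁ T₂ (e u) (e v) := by
    rintro ⟨i, a⟩ ⟨j, b⟩
    have k1 : (∃ (l : Fin 2) (c d : Fin n), (⟨i, a⟩ : Σ _ : Fin 2, Fin n) = ⟨l, c⟩ ∧
        (⟨j, b⟩ : Σ _ : Fin 2, Fin n) = ⟨l, d⟩ ∧ T l c d) ↔ (i = j ∧ T i a b) := by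
      constructor
      · rintro ⟨l, c, d, q1, q2, q3⟩
        cases q1
        cases q2
        exact ⟨rfl, q3⟩
      · rintro ⟨rfl, q⟩
        exact ⟨i, a, b, rfl, rfl, q⟩
    have k2 : J ⟨i, a⟩ ⟨j, b⟩ ↔ (i < j ∨ (i = j ∧ T i a b)) := or_congr Iff.rfl k1
    rw [k2]
    fin_cases i <;> fin_cases j
    · exact ⟨fun q => q.elim (fun q => absurd q (by decide)) And.right, fun q => Or.inr ⟨rfl, q⟩⟩
    · exact ⟨fun _ => trivial, fun _ => Or.inl (by decide)⟩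
    · exact ⟨fun q => q.elim (fun q => absurd q (by decide)) (fun q => absurd q.1 (by decide)),
        False.elim⟩
    · exact ⟨fun q => q.elim (fun q => absurd q (by decide)) And.right, fun q => Or.inr ⟨rfl, q⟩⟩
  have h6 := H535Z.Dijoin.isT_pullback e he hJ (H535Z.Dijoin.dj_isT h1 h2)
  have h7 := H535Z.Dijoin.inv_le (H535Z.Dijoin.Inv_pullback e he hJ h3)
  have i3 := congrArg sInf (Set.ext (H535Z.Dijoin.Inv_iff_set h6) :
    {k | _} = {k | H535Z.Dijoin.Inv J k})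
  have h8 : H535Z.Dijoin.inv J = ∑ i : Fin 2, H535Z.Dijoin.inv (T i) :=
    i3.symm.trans (h5.trans (Finset.sum_congr rfl fun i _ => i1 i))
  rw [Fin.sum_univ_two] at h8
  have h9 : H535Z.Dijoin.inv J = H535Z.Dijoin.inv T₁ + H535Z.Dijoin.inv T₂ := h8
  omega

end Pool.Agent.S11254
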