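import Pool.Statements.S11286
import Pool.Agent.H711Z.MaxSum

set_option autoImplicit false
open Pool Pool.MP_c40d78_co

namespace Pool.Agent.S11286

/-- The negation of the preceding statement: For any dimension d and any 2n distinct points in R^d, every perfect matching maximizing the total Euclidean length of its edges has a point lying in all open balls whose diameters are the matched edges. -/
theorem result :
    ¬ (∀ (d n : ℕ) (p : Fin (2 * n) → EuclideanSpace ℝ (Fin d)), Function.Injective p →
      ∀ σ : Equiv.Perm (Fin (2 * n)), (∀ i, σ (σ i) = i) → (∀ i, σ i ≠ i) →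
        (∀ τ : Equiv.Perm (Fin (2 * n)), (∀ i, τ (τ i) = i) → (∀ i, τ i ≠ i) →
          ∑ i, dist (p i) (p (τ i)) ≤ ∑ i, dist (p i) (p (σ i))) →
        ∃ x : EuclideanSpace ℝ (Fin d), ∀ i,
          dist x (midpoint ℝ (p i) (p (σ i))) < dist (p i) (p (σ i)) / 2) := by
  intro h
  obtain ⟨x, hx⟩ := h 3 3 Pool.Agent.H711Z.MaxSum.p Pool.Agent.H711Z.MaxSum.p_inj
    Pool.Agent.H711Z.MaxSum.σ Pool.Agent.H711Z.MaxSum.s_s (by decide)
    (fun τ _ h2 => Pool.Agent.H711Z.MaxSum.maxsum τ h2)
  exact Pool.Agent.H711Z.MaxSum.no_common x (fun i => (hx i).le)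

end Pool.Agent.S11286
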