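import Pool.Statements.S11298
import Pool.Agent.H32Z.ChromRamsey

set_option autoImplicit false
open Pool Pool.MP_c4704f_co

namespace Pool.Agent.S11298

/-- The negation of the preceding statement: There is c>0 such that for every finite graph G with an edge and every vertex v, the chromatic Ramsey number of G minus v is at least c times the chromatic Ramsey number of G. -/
theorem result :
    ¬ (∃ c : ℝ, 0 < c ∧
      ∀ (n : ℕ) (G : SimpleGraph (Fin (n + 1))) (v : Fin (n + 1)),
        G.edgeSet.Nonempty →
          c * ((sInf {N : ℕ | ∃ (m : ℕ) (H : SimpleGraph (Fin m)), H.Colorable N ∧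
                ∀ col : Fin m → Fin m → Bool, (∀ a b, col a b = col b a) →
                  ∃ (f : Fin (n + 1) → Fin m) (b : Bool),
                  Function.Injective f ∧
                  ∀ x y : Fin (n + 1), G.Adj x y →
                    H.Adj (f x) (f y) ∧ col (f x) (f y) = b} : ℕ) : ℝ)
            ≤ ((sInf {N : ℕ | ∃ (m : ℕ) (H : SimpleGraph (Fin m)), H.Colorable N ∧
                ∀ col : Fin m → Fin m → Bool, (∀ a b, col a b = col b a) →
                  ∃ (f : Fin n → Fin m) (b : Bool),
                  Function.Injective f ∧
                  ∀ x y : Fin n, G.Adj (v.succAbove x) (v.succAbove y) →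
                    H.Adj (f x) (f y) ∧ col (f x) (f y) = b} : ℕ) : ℝ)) := by
  exact Pool.Agent.H32Z.Theta.final

end Pool.Agent.S11298
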