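import Pool.Statements.S11374
import Pool.Agent.H347Z.AcyGraph

set_option autoImplicit false
open Pool Pool.MP_c7cb83_co

namespace Pool.Agent.S11374

/-- The negation of the preceding statement: For every finite graph G with a proper 3-coloring in which any two color classes induce a forest, there is C such that every 3-uniform hypergraph on n vertices with no copy of the expansion G⁺ has at most C·n² edges. -/
theorem result :
    ¬ (∀ (k : ℕ) (G : SimpleGraph (Fin k)),
      (∃ c : G.Coloring (Fin 3), ∀ i j : Fin 3,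
          (G.induce {v : Fin k | c v = i ∨ c v = j}).IsAcyclic) →
      ∃ C : ℝ, ∀ (n : ℕ) (H : Finset (Finset (Fin n))),
        (∀ e ∈ H, e.card = 3) →
        (¬ ∃ f : Fin k → Fin n, ∃ g : Sym2 (Fin k) → Fin n,
            Function.Injective f ∧ Set.InjOn g G.edgeSet ∧
            (∀ e ∈ G.edgeSet, ∀ v : Fin k, g e ≠ f v) ∧
            ∀ u v : Fin k, G.Adj u v → ({f u, f v, g s(u, v)} : Finset (Fin n)) ∈ H) →
        (H.card : ℝ) ≤ C * (n : ℝ) ^ 2) := by
  intro h
  obtain ⟨k, hk⟩ : ∃ k : ℕ, k = 1000000000000 := ⟨_, rfl⟩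
  obtain ⟨D, hD⟩ : ∃ D : ℕ, D = 100000 := ⟨_, rfl⟩
  obtain ⟨L, hL⟩ : ∃ L : ℕ, L = 26 := ⟨_, rfl⟩
  let e := Fintype.equivFin (Pool.Agent.H347Z.Acy.VG k L)
  let B := (Pool.Agent.H347Z.Acy.gB k L (by omega)).map e
  obtain ⟨C, hC⟩ := h _ B.graph ⟨B.coloring, B.acyclic⟩
  obtain ⟨s, N, hs, hN, h1, h2⟩ :=
    Pool.Agent.H347Z.Acy.exists_params hD (9 * |C| + (3 * L + 7)) (by positivity)
  obtain ⟨ω, hω, hT⟩ :=
    Pool.Agent.H347Z.Acy.exists_good k L (D := D) (by omega) s N hN |C| (abs_nonneg C) h2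
  have h3 := hC (3 * N) (Pool.Agent.H347Z.Acy.hyp ω) (Pool.Agent.H347Z.Acy.hyp_card3 ω) ?_
  · rw [Pool.Agent.H347Z.Acy.hyp_card] at h3
    push_cast at h3
    have h4 := mul_le_mul_of_nonneg_right (le_abs_self C) (sq_nonneg (3 * (N : ℝ)))
    linarith
  · rintro ⟨f, g, hf, -, -, hg⟩
    have key : ∀ u v, B.graph.Adj u v → Pool.Agent.H347Z.Acy.Host ω
        (finProdFinEquiv.symm (f u)) (finProdFinEquiv.symm (f v)) := fun u v huv =>
      Pool.Agent.H347Z.Acy.hyp_edge ω (f u) (f v) _ (fun e => huv.ne (hf e)) (hg u v huv)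
    have p1 : ∀ v, B.par1 (e v) = e (Pool.Agent.H347Z.Acy.gp1 v) := fun v =>
      congrArg (fun w => e (Pool.Agent.H347Z.Acy.gp1 w)) (e.symm_apply_apply v)
    have p2 : ∀ v, B.par2 (e v) = e (Pool.Agent.H347Z.Acy.gp2 v) := fun v =>
      congrArg (fun w => e (Pool.Agent.H347Z.Acy.gp2 w)) (e.symm_apply_apply v)
    refine Pool.Agent.H347Z.Acy.noCopy hk hD hL (m := 40 * s) (by omega) ω (by simpa using h1) hω
      (fun v => finProdFinEquiv.symm (f (e v)))
      (finProdFinEquiv.symm.injective.comp (hf.comp e.injective)) ?_ ?_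
    · intro v
      have := B.adj1 (e v)
      rw [p1] at this
      exact ⟨key _ _ this, key _ _ this.symm⟩
    · intro v
      have := B.adj2 (e v)
      rw [p2] at this
      exact key _ _ this

end Pool.Agent.S11374
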