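import Pool.Statements.S11390
import Pool.Agent.H45Z.CPF

set_option autoImplicit false
open Pool Pool.MP_c83c77_co

namespace Pool.Agent.S11390

/-- The negation of the preceding statement: For every d ≥ 1 and every compact convex K in R^d with nonempty interior, the product of its covering minima (with respect to the integer lattice) times the volume of K is at least (d+1)/2^d. -/
theorem result :
    ¬ (∀ d : ℕ, 1 ≤ d → ∀ K : Set (Fin d → ℝ), Convex ℝ K → IsCompact K → (interior K).Nonempty →
      (∏ i : Fin d, sInf {μ : ℝ | 0 < μ ∧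
          ∀ A : AffineSubspace ℝ (Fin d → ℝ), (A : Set (Fin d → ℝ)).Nonempty →
            Module.finrank ℝ A.direction = d - (i.val + 1) →
            ∃ x ∈ K, ∃ z : Fin d → ℤ, μ • x + (fun j => (z j : ℝ)) ∈ A})
        * (MeasureTheory.volume K).toReal ≥ ((d : ℝ) + 1) / 2 ^ d) :=
  Pool.Agent.H45Z.CP.main

end Pool.Agent.S11390
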