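import Pool.Statements.S11432
import Pool.Agent.H472Z.BowtieRain

set_option autoImplicit false
open Pool Pool.MP_ca83f8_co

namespace Pool.Agent.S11432

/-- The negation of the preceding statement: For k≥2 and a linear k-uniform F with Turán number at least c·n^k, for all large r and large n every n-vertex k-graph has at most r^ex(n,F) r-colourings without a rainbow copy of F, with equality iff it is F-extremal. -/
theorem result :
    ¬ (∀ (k m : ℕ) (F : Finset (Finset (Fin m))) (ex : ℕ → ℕ), 2 ≤ k →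
      (∀ e ∈ F, e.card = k) →
      (∀ e ∈ F, ∀ f ∈ F, e ≠ f → (e ∩ f).card ≤ 1) →
      (∀ n : ℕ, ex n = sSup {t : ℕ | ∃ G : Finset (Finset (Fin n)),
          (∀ e ∈ G, e.card = k) ∧
          (¬ ∃ φ : Fin m ↪ Fin n, ∀ e ∈ F, e.map φ ∈ G) ∧ G.card = t}) →
      (∃ c : ℝ, 0 < c ∧ ∃ N : ℕ, ∀ n ≥ N, c * (n : ℝ) ^ k ≤ (ex n : ℝ)) →
      ∃ r0 : ℕ, ∀ r ≥ r0, ∃ n0 : ℕ, ∀ n ≥ n0, ∀ H : Finset (Finset (Fin n)),
        (∀ e ∈ H, e.card = k) →
        (Nat.card {c : {x // x ∈ H} → Fin r //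
            ¬ ∃ φ : Fin m ↪ Fin n, (∀ e ∈ F, e.map φ ∈ H) ∧
              ∀ e ∈ F, ∀ f ∈ F, ∀ x y : {x // x ∈ H},
                x.1 = e.map φ → y.1 = f.map φ → e ≠ f → c x ≠ c y} ≤ r ^ ex n ∧
        (Nat.card {c : {x // x ∈ H} → Fin r //
            ¬ ∃ φ : Fin m ↪ Fin n, (∀ e ∈ F, e.map φ ∈ H) ∧
              ∀ e ∈ F, ∀ f ∈ F, ∀ x y : {x // x ∈ H},
                x.1 = e.map φ → y.1 = f.map φ → e ≠ f → c x ≠ c y} = r ^ ex n ↔
          ((¬ ∃ φ : Fin m ↪ Fin n, ∀ e ∈ F, e.map φ ∈ H) ∧ H.card = ex n)))) := by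
  intro h
  obtain ⟨r0, hr0⟩ := h 2 5 Pool.Agent.H472Z.BowtieRain.F Pool.Agent.H472Z.BowtieRain.ex le_rfl
    (by decide) (by decide) (fun _ => rfl) Pool.Agent.H472Z.BowtieRain.ex_omega
  obtain ⟨n0, hn0⟩ := hr0 (r0 + 1) (by omega)
  obtain ⟨H, h2, hlt, hle⟩ := Pool.Agent.H472Z.BowtieRain.many (n := n0 + 465) (by omega) (r0 + 1)
    (by omega)
  obtain ⟨h3, h4⟩ := hn0 (n0 + 465) (by omega) H h2
  have := (h4.1 (le_antisymm h3 hle)).2
  omega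

end Pool.Agent.S11432
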