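import Pool.Statements.S11450

set_option autoImplicit false
open Pool Pool.MP_cb399b_co

namespace Pool.Agent.S11450

/-- The bases, as bit masks, of the binary matroid on the columns
`x, y, a, b, c, x+a, x+b, x+c, y` with `y = x+a+b+c` (indices `0, ..., 8`). -/
def L : List ℕ := [15, 23, 71, 135, 27, 43, 139, 51, 83, 99, 163, 195, 29, 141, 269, 85, 277, 197,
  325, 389, 57, 281, 169, 297, 393, 113, 305, 337, 225, 353, 417, 449, 30, 46, 78, 54, 150, 102,
  166, 198, 90, 154, 106, 170, 202, 114, 178, 210, 60, 92, 156, 284, 172, 300, 204, 332, 116, 308,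
  212, 404, 228, 356, 420, 452, 120, 184, 344, 408, 232, 360, 424, 456, 240, 368, 432, 464]

def S (m : ℕ) : Set (Fin 9) := {i | m.testBit i = true}

def Bs (B : Set (Fin 9)) : Prop := ∃ m ∈ L, B = S m

theorem exch : ∀ m ∈ L, ∀ m' ∈ L, ∀ a : Fin 9, m.testBit a = true → m'.testBit a = false →
    ∃ b : Fin 9, m'.testBit b = true ∧ m.testBit b = false ∧
      ((m ^^^ 2 ^ (a : ℕ)) ||| 2 ^ (b : ℕ)) ∈ L ∧
      ∀ i : Fin 9, (((m ^^^ 2 ^ (a : ℕ)) ||| 2 ^ (b : ℕ)).testBit i = true ↔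
        (i = b ∨ (m.testBit i = true ∧ i ≠ a))) := by
  decide +kernel

theorem exchange : Matroid.ExchangeProperty Bs := by
  rintro X Y ⟨m, hm, rfl⟩ ⟨m', hm', rfl⟩ a ⟨ha, ha'⟩
  obtain ⟨b, h1, h2, h3, h4⟩ := exch m hm m' hm' a ha (by simpa [S] using ha')
  refine ⟨b, ⟨h1, by simp [S, h2]⟩, _, h3, ?_⟩
  ext i
  simp only [S, Set.mem_insert_iff, Set.mem_diff, Set.mem_setOf_eq, Set.mem_singleton_iff, h4 i]

noncomputable def M : Matroid (Fin 9) :=
  Matroid.ofIsBaseOfFinite (E := Set.univ) Set.finite_univ Bs ⟨S 15, 15, by decide, rfl⟩ exchange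
    (fun _ _ => Set.subset_univ _)

theorem M_E : M.E = Set.univ := rfl

theorem M_base (B : Set (Fin 9)) : M.IsBase B ↔ Bs B := Iff.rfl

theorem M_rank : M.eRank = 4 := by
  have h : M.IsBase (S 15) := ⟨15, by decide, rfl⟩
  rw [← h.encard_eq_eRank]
  have : S 15 = ((({0, 1, 2, 3} : Finset (Fin 9))) : Set (Fin 9)) := by
    ext i; revert i; simp only [S, Set.mem_setOf_eq, Finset.mem_coe]; decide
  rw [this, Set.encard_coe_eq_coe_finsetCard]
  rfl

theorem part (x : Fin 9) (p q : ℕ) (hp : p ∈ L) (hq : q ∈ L)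
    (h1 : ∀ i : Fin 9, p.testBit i = true → q.testBit i = true → False)
    (h2 : ∀ i : Fin 9, (p.testBit i = true ∨ q.testBit i = true) ↔ i ≠ x) :
    ∃ B : Fin 2 → Set (Fin 9), (∀ i, M.IsBase (B i)) ∧
      (∀ i j, i ≠ j → Disjoint (B i) (B j)) ∧ (⋃ i, B i) = M.E \ {x} := by
  refine ⟨![S p, S q], ?_, ?_, ?_⟩
  · intro i
    fin_cases i
    · exact ⟨p, hp, rfl⟩
    · exact ⟨q, hq, rfl⟩
  · have h : Disjoint (S p) (S q) := Set.disjoint_left.2 fun i a b => h1 i a b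
    intro i j hij
    fin_cases i <;> fin_cases j
    · exact absurd rfl hij
    · exact h
    · exact h.symm
    · exact absurd rfl hij
  · ext i
    simp only [Set.mem_iUnion, Fin.exists_fin_two, M_E, Set.mem_diff, Set.mem_univ, true_and,
      Set.mem_singleton_iff]
    exact h2 i

theorem none : ∀ m ∈ L, ∀ p ∈ L,
    (∀ i : Fin 9, (m.testBit i = true ∨ p.testBit i = true) ↔ i ≠ 0) → ∀ q ∈ L,
    ¬ (∀ i : Fin 9, (m.testBit i = true ∨ q.testBit i = true) ↔ i ≠ 1) := by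
  decide +kernel

theorem two (P : Fin 2 → Set (Fin 9)) (x : Fin 9) (h : (⋃ i, P i) = M.E \ {x}) (i : Fin 2) :
    ∃ j, ∀ t, (t ∈ P i ∨ t ∈ P j) ↔ t ≠ x := by
  have h' : ∀ t, (t ∈ P 0 ∨ t ∈ P 1) ↔ t ≠ x := by
    intro t
    have := Set.ext_iff.1 h t
    simpa only [Set.mem_iUnion, Fin.exists_fin_two, M_E, Set.mem_diff, Set.mem_univ, true_and,
      Set.mem_singleton_iff] using this
  fin_cases i
  · exact ⟨1, h'⟩
  · exact ⟨0, fun t => or_comm.trans (h' t)⟩

/-- The negation of the preceding statement: For a finite matroid of rank r on E with ∣E∣ = kr+1, k ≥ 2, if E minus x and E minus y each split into k disjoint bases, then there are such splittings of both that have a basis in common. -/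
theorem result :
    ¬ (∀ (α : Type) (M : Matroid α) (k : ℕ), 2 ≤ k → M.E.Finite →
      M.E.encard = (k : ℕ∞) * M.eRank + 1 →
      ∀ x y : α, x ∈ M.E → y ∈ M.E →
      (∃ B : Fin k → Set α, (∀ i, M.IsBase (B i)) ∧
          (∀ i j, i ≠ j → Disjoint (B i) (B j)) ∧
          (⋃ i, B i) = M.E \ {x}) →
      (∃ B : Fin k → Set α, (∀ i, M.IsBase (B i)) ∧
          (∀ i j, i ≠ j → Disjoint (B i) (B j)) ∧
          (⋃ i, B i) = M.E \ {y}) →
      ∃ P Q : Fin k → Set α,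
        (∀ i, M.IsBase (P i)) ∧ (∀ i j, i ≠ j → Disjoint (P i) (P j)) ∧
          (⋃ i, P i) = M.E \ {x} ∧
        (∀ i, M.IsBase (Q i)) ∧ (∀ i j, i ≠ j → Disjoint (Q i) (Q j)) ∧
          (⋃ i, Q i) = M.E \ {y} ∧
        ∃ i j, P i = Q j) := by
  intro h
  obtain ⟨P, Q, hP, -, hP2, hQ, -, hQ2, i, j, e⟩ := h (Fin 9) M 2 le_rfl Set.finite_univ
    (by rw [M_rank, M_E, Set.encard_univ]; simp; rfl) 0 1 (Set.mem_univ _) (Set.mem_univ _)
    (part 0 46 464 (by decide) (by decide) (by decide) (by decide))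
    (part 1 141 368 (by decide) (by decide) (by decide) (by decide))
  obtain ⟨i', h1⟩ := two P 0 hP2 i
  obtain ⟨j', h2⟩ := two Q 1 hQ2 j
  obtain ⟨m, hm, e1⟩ := (M_base _).1 (hP i)
  obtain ⟨p, hp, e2⟩ := (M_base _).1 (hP i')
  obtain ⟨q, hq, e3⟩ := (M_base _).1 (hQ j')
  rw [e1, e2] at h1
  rw [← e, e1, e3] at h2
  exact none m hm p hp h1 q hq h2

end Pool.Agent.S11450
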