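import Pool.Statements.S11538
import Pool.Agent.H48Z.OrdRam

set_option autoImplicit false
open Pool Pool.MP_cf6cc5_co

namespace Pool.Agent.S11538

/-- The negation of the preceding statement: For each q ≥ 3 there is c such that every ordered matching M on n vertices has an N ≤ n^(c log n) where every q-colouring of pairs of {0..N-1} contains an order-preserving monochromatic copy of M. -/
theorem result :
    ¬ (∀ q : ℕ, 3 ≤ q → ∃ c : ℝ, ∀ n : ℕ, ∀ M : SimpleGraph (Fin n),
      (∀ v w w' : Fin n, M.Adj v w → M.Adj v w' → w = w') →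
      ∃ N : ℕ, (N : ℝ) ≤ (n : ℝ) ^ (c * Real.log n) ∧
        ∀ col : Fin N → Fin N → Fin q,
          ∃ f : Fin n → Fin N, StrictMono f ∧
            ∃ i : Fin q, ∀ a b : Fin n, a < b → M.Adj a b → col (f a) (f b) = i) := by
  intro h
  obtain ⟨c, hc⟩ := h 4 (by norm_num)
  obtain ⟨n, M, hM, hN⟩ := Pool.Agent.H48Z.OrdRam.main c
  obtain ⟨N, hN1, hN2⟩ := hc n M hM
  obtain ⟨col, hcol⟩ := hN N hN1
  obtain ⟨f, hf, i, hi⟩ := hN2 col
  exact hcol f hf i hi

end Pool.Agent.S11538
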