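import Pool.Statements.S11543
import Pool.Agent.H671Z.SP.Main

set_option autoImplicit false
open Pool Pool.MP_cf885c_co

namespace Pool.Agent.S11543

/-- For every colouring of the rationals with finitely many colours there are nonzero rationals a, b, c with b ≠ c such that a+b, a+c, a+b+c, a+bc, ab, ac, a(b+c), abc all have the same colour. -/
theorem result :
    ∀ (r : ℕ) (χ : ℚ → Fin r), ∃ a b c : ℚ,
      a ≠ 0 ∧ b ≠ 0 ∧ c ≠ 0 ∧ b ≠ c ∧
      χ (a + c) = χ (a + b) ∧
      χ (a + (b + c)) = χ (a + b) ∧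
      χ (a + b * c) = χ (a + b) ∧
      χ (a * b) = χ (a + b) ∧
      χ (a * c) = χ (a + b) ∧
      χ (a * (b + c)) = χ (a + b) ∧
      χ (a * (b * c)) = χ (a + b) := by
  classical
  intro r χ
  obtain ⟨a, b, c, ha, hb, hc, hbc, h1, h2, h3, h4, h5, h6, h7⟩ := Pool.Agent.H671Z.SP.main
    (fun y : ℚ => (χ y, decide (y = 0))) (fun y h => by simpa using congrArg Prod.snd h)
  exact ⟨a, b, c, ha, hb, hc, hbc, congrArg Prod.fst h1, congrArg Prod.fst h2,
    congrArg Prod.fst h3, congrArg Prod.fst h4, congrArg Prod.fst h5, congrArg Prod.fst h6,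
    congrArg Prod.fst h7⟩

end Pool.Agent.S11543
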