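import Pool.Statements.S11634
import Pool.Agent.H255Z.WO.Main

set_option autoImplicit false
open Pool Pool.MP_d2ae2d_co

namespace Pool.Agent.S11634

/-- The negation of the preceding statement: For each k ≥ 2 there is a well-ordered set S of reals with least element k!/k^k such that the Turán density (limit of ex(n,L)/C(n,k)) of every k-uniform hypergraph L is either 0 or lies in S. -/
theorem result :
    ¬ (∀ k : ℕ, 2 ≤ k → ∃ S : Set ℝ, S.IsWF ∧ IsLeast S ((k.factorial : ℝ) / (k : ℝ) ^ k) ∧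
      ∀ m : ℕ, ∀ L : Finset (Finset (Fin m)), (∀ e ∈ L, e.card = k) →
        ∀ d : ℝ, Filter.Tendsto
          (fun n : ℕ =>
            ((sSup {t : ℕ | ∃ H : Finset (Finset (Fin n)), (∀ A ∈ H, A.card = k) ∧ H.card = t ∧
                ¬ ∃ f : Fin m ↪ Fin n, ∀ e ∈ L, e.map f ∈ H} : ℕ) : ℝ) /
              ((n.choose k : ℕ) : ℝ))
          Filter.atTop (nhds d) → d = 0 ∨ d ∈ S) := by
  intro H
  have key : ∀ h : ℕ, 10000 ≤ h → False := fun h hh => by
    obtain ⟨S, hS, -, hL⟩ := H ((2 * h + 2) + (2 * h + 2)) (by omega)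
    exact Pool.Agent.H255Z.WO.not_wf h hh S hS hL
  exact key 10000 le_rfl

end Pool.Agent.S11634
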