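import Pool.Statements.S11707
import Pool.Agent.H659Z.Three

set_option autoImplicit false
open Classical
open Pool Pool.MP_d61016_co

namespace Pool.Agent.S11707

/-- Every finite three-graph A embeds as an induced substructure in some finite three-graph B such that every partial automorphism of A extends to an automorphism of B. -/
theorem result :
    ∀ (n : ℕ) (rA : Fin n → Fin n → Prop) (HA : Finset (Finset (Fin n))),
      (Equivalence rA ∧ (∀ a b c, rA a b ∨ rA b c ∨ rA a c) ∧
        (∀ e ∈ HA, e.card = 4 ∧ ∀ v ∈ e, (e.filter (fun w => rA v w)).card = 2) ∧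
        (∀ S : Finset (Fin n), S.card = 5 →
          (∀ v ∈ S, (S.filter (fun w => rA v w)).card ≤ 3) →
          Even (HA.filter (fun e => e ⊆ S)).card)) →
      ∃ (m : ℕ) (rB : Fin m → Fin m → Prop) (HB : Finset (Finset (Fin m))),
        (Equivalence rB ∧ (∀ a b c, rB a b ∨ rB b c ∨ rB a c) ∧
          (∀ e ∈ HB, e.card = 4 ∧ ∀ v ∈ e, (e.filter (fun w => rB v w)).card = 2) ∧
          (∀ S : Finset (Fin m), S.card = 5 →
            (∀ v ∈ S, (S.filter (fun w => rB v w)).card ≤ 3) →
            Even (HB.filter (fun e => e ⊆ S)).card)) ∧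
        ∃ f : Fin n ↪ Fin m,
          (∀ x y, rA x y ↔ rB (f x) (f y)) ∧
          (∀ e : Finset (Fin n), e ∈ HA ↔ e.map f ∈ HB) ∧
          ∀ (S : Finset (Fin n)) (p : Fin n → Fin n),
            Set.InjOn p (S : Set (Fin n)) →
            (∀ x ∈ S, ∀ y ∈ S, rA x y ↔ rA (p x) (p y)) →
            (∀ e ⊆ S, e ∈ HA ↔ e.image p ∈ HA) →
            ∃ σ : Fin m ≃ Fin m,
              (∀ x y, rB x y ↔ rB (σ x) (σ y)) ∧
              (∀ e : Finset (Fin m), e ∈ HB ↔ e.map σ.toEmbedding ∈ HB) ∧
              ∀ x ∈ S, σ (f x) = f (p x) := by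
  rintro n rA HA ⟨hr, h3, hsh, hev⟩
  obtain ⟨col, hcol⟩ := H659Z.Three.exists_col hr h3
  obtain rfl : rA = fun x y => col x = col y := by
    funext x y
    exact propext (hcol x y)
  obtain ⟨β, hβ, hH⟩ := H659Z.Three.represent (col := col) (H := HA)
    (fun e he => ⟨(hsh e he).1, fun v hv => by convert (hsh e he).2 v hv⟩)
    (fun S h5 hS => by convert hev S h5 (fun v hv => by convert hS v hv))
  let E := Fintype.equivFin (H659Z.Three.Big (Fin n))
  let cB : Fin (Fintype.card (H659Z.Three.Big (Fin n))) → Bool := fun w => H659Z.Three.colB (E.symm w)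
  let bB : Fin (Fintype.card (H659Z.Three.Big (Fin n))) → Fin (Fintype.card (H659Z.Three.Big (Fin n))) → ZMod 2 :=
    fun u v => H659Z.Three.betaB (E.symm u) (E.symm v)
  have hbB : ∀ u v, bB u v = bB v u := fun u v => add_comm _ _
  refine ⟨_, fun u v => cB u = cB v, Finset.univ.filter (fun e => H659Z.Three.Hyp cB bB e),
    ⟨⟨fun _ => rfl, Eq.symm, Eq.trans⟩, ?_, ?_, ?_⟩,
    ⟨fun x => E (H659Z.Three.emb col β x), E.injective.comp (H659Z.Three.emb_inj col β)⟩, ?_, ?_, ?_⟩
  · intro a b c
    show cB a = cB b ∨ cB b = cB c ∨ cB a = cB c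
    generalize cB a = s1, cB b = s2, cB c = s3
    revert s1 s2 s3
    decide
  · intro e he
    obtain ⟨a, a', b, b', hq, rfl, -⟩ := (Finset.mem_filter.1 he).2
    have := H659Z.Three.shape_quad hq
    exact ⟨this.1, fun v hv => by convert this.2 v hv⟩
  · intro S h5 hS
    convert H659Z.Three.hyp_five (col := cB) hbB
      (H := Finset.univ.filter (fun e => H659Z.Three.Hyp cB bB e)) (by simp) h5
      (fun v hv => by convert hS v hv)
  · intro x y
    simp [cB, H659Z.Three.colB, H659Z.Three.emb]
  · intro e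
    rw [hH, Finset.map_eq_image, Finset.mem_filter]
    simp only [Finset.mem_univ, true_and]
    refine H659Z.Three.hyp_image (E.injective.comp (H659Z.Three.emb_inj col β)) ?_ (fun _ => 0) ?_ e
    · intro u v
      simp [cB, H659Z.Three.colB, H659Z.Three.emb]
    · intro u v huv
      simp [bB, H659Z.Three.beta_emb hβ huv]
  · intro S p hp hc hS
    obtain ⟨θ, T, h1, h2, h4⟩ := H659Z.Three.extend hβ S p hp hc (fun e he => by
      rw [← hH, ← hH]
      exact hS e he)
    refine ⟨(E.symm.trans θ).trans E, ?_, ?_, ?_⟩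
    · intro x y
      simpa [cB] using h1 (E.symm x) (E.symm y)
    · intro e
      rw [Finset.map_eq_image, Finset.mem_filter, Finset.mem_filter]
      simp only [Finset.mem_univ, true_and]
      refine H659Z.Three.hyp_image ((E.symm.trans θ).trans E).injective ?_ (fun u => T (E.symm u)) ?_ e
      · intro x y
        simpa [cB] using h1 (E.symm x) (E.symm y)
      · intro u v huv
        simpa [bB] using h2 (E.symm u) (E.symm v) huv
    · intro x hx
      simp [h4 x hx]

end Pool.Agent.S11707
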