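import Pool.Statements.S11724
import Pool.Agent.H456Z.PatMain

set_option autoImplicit false
open Pool Pool.MP_d6bcd1_co

namespace Pool.Agent.S11724

/-- The negation of the preceding statement: For all positive v,b,k,r with vr=bk and every connected binary design D, D minimizes the sum of reciprocal nontrivial eigenvalues of C over all designs iff its closed-walk counts (Γ₂,Γ₃,…) are lexicographically minimal among connected binary designs. -/
theorem result :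
    ¬ (∀ (v b k r : ℕ), 0 < v → 0 < b → 0 < k → 0 < r → v * r = b * k →
  ∀ (IsDesign : Matrix (Fin v) (Fin b) ℕ → Prop),
    (∀ M, IsDesign M ↔ ((∀ j, ∑ i, M i j = k) ∧ (∀ i, ∑ j, M i j = r))) →
  ∀ (InB : Matrix (Fin v) (Fin b) ℕ → Prop),
    (∀ M, InB M ↔ (IsDesign M ∧ (∀ i j, M i j ≤ 1) ∧
      (SimpleGraph.fromRel (fun i j : Fin v => 0 < (M * M.transpose) i j)).Connected)) →
  ∀ (Γ : Matrix (Fin v) (Fin b) ℕ → ℕ → ℤ),
    (∀ M h, Γ M h = Matrix.trace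
      ((M.map (fun x : ℕ => (x : ℤ)) * (M.map (fun x : ℕ => (x : ℤ))).transpose
        - (r : ℤ) • (1 : Matrix (Fin v) (Fin v) ℤ)) ^ h)) →
  ∀ (ev : Matrix (Fin v) (Fin b) ℕ → Multiset ℝ),
    (∀ M, ev M = (Matrix.charpoly ((r : ℝ) • (1 : Matrix (Fin v) (Fin v) ℝ)
        - (1 / (k : ℝ)) • (M.map (fun x : ℕ => (x : ℝ)) * (M.map (fun x : ℕ => (x : ℝ))).transpose))).roots.erase 0) →
  ∀ D, InB D →
    ((∀ D', IsDesign D' → (0 : ℝ) ∉ ev D' →
        ((0 : ℝ) ∉ ev D ∧ ((ev D).map (fun x => x⁻¹)).sum ≤ ((ev D').map (fun x => x⁻¹)).sum)) ↔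
     (∀ D', InB D' → ∀ t : ℕ, 2 ≤ t →
        (∀ h : ℕ, 2 ≤ h → h < t → Γ D' h = Γ D h) → Γ D t ≤ Γ D' t))) := by
  intro H
  obtain ⟨D, hD, hlex, D', hD', h0, hlt⟩ := Pool.Agent.H456Z.Pat.main
  have h1 := (H 14 35 2 5 (by norm_num) (by norm_num) (by norm_num) (by norm_num) (by norm_num)
    Pool.Agent.H456Z.Pat.IsDes (fun _ => Iff.rfl) Pool.Agent.H456Z.Pat.InBB (fun _ => Iff.rfl)
    Pool.Agent.H456Z.Pat.Gam (fun _ _ => rfl) Pool.Agent.H456Z.Pat.evv (fun _ => rfl) D hD).2 hlex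
  exact absurd (h1 D' hD' h0).2 (not_le.2 hlt)

end Pool.Agent.S11724
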