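import Pool.Statements.S11730
import Pool.Agent.H305Z.Plank.Geom

set_option autoImplicit false
open MeasureTheory
open Pool Pool.MP_d7a99c_co

namespace Pool.Agent.S11730

/-- The negation of the preceding statement: For any finitely many planar strips with given unit normals and positive widths summing to 1, and any planar convex body with perimeter at most 2, the strips can be translated so that their union covers the body. -/
theorem result :
    ¬ (∀ (n : ℕ) (u : Fin n → EuclideanSpace ℝ (Fin 2)) (w : Fin n → ℝ),
      (∀ i, ‖u i‖ = 1) → (∀ i, 0 < w i) → (∑ i, w i) = 1 →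
      ∀ B : Set (EuclideanSpace ℝ (Fin 2)),
        IsCompact B → Convex ℝ B → (interior B).Nonempty →
        MeasureTheory.Measure.hausdorffMeasure 1 (frontier B) ≤ 2 →
        ∃ c : Fin n → ℝ,
          B ⊆ ⋃ i, {x : EuclideanSpace ℝ (Fin 2) |
            c i ≤ inner ℝ x (u i) ∧ inner ℝ x (u i) ≤ c i + w i}) := by
  intro h
  obtain ⟨c, hc⟩ := h 5 Pool.Agent.H305Z.Plank.U (fun _ => 1 / 5) Pool.Agent.H305Z.Plank.norm_U
    (fun _ => by norm_num) (by simp) Pool.Agent.H305Z.Plank.Dec Pool.Agent.H305Z.Plank.compact_Dec
    Pool.Agent.H305Z.Plank.convex_Dec Pool.Agent.H305Z.Plank.int_nonempty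
    Pool.Agent.H305Z.Plank.perim_le
  exact Pool.Agent.H305Z.Plank.not_cover c hc

end Pool.Agent.S11730
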