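import Pool.Statements.S11737
import Pool.Agent.H249Z.Pyramid

set_option autoImplicit false
open Pool Pool.MP_d7e043_co

namespace Pool.Agent.S11737

open Pool.Agent.H249Z.Pyramid

/-- A Ramsey set together with one point off its hyperplane is Ramsey. -/
theorem result :
    ∀ (d : ℕ) (X : Set (EuclideanSpace ℝ (Fin d))) (z : EuclideanSpace ℝ (Fin (d + 1))),
      X.Finite →
      (∀ r : ℕ, ∃ N : ℕ, ∀ c : EuclideanSpace ℝ (Fin N) → Fin r,
        ∃ g : X → EuclideanSpace ℝ (Fin N), Isometry g ∧ ∀ x y : X, c (g x) = c (g y)) →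
      z (Fin.last d) ≠ 0 →
      ∀ r : ℕ, ∃ N : ℕ, ∀ c : EuclideanSpace ℝ (Fin N) → Fin r,
        ∃ g : ({y : EuclideanSpace ℝ (Fin (d + 1)) |
                  y (Fin.last d) = 0 ∧ ∃ x ∈ X, ∀ i : Fin d, y (Fin.castSucc i) = x i}
                ∪ {z} : Set (EuclideanSpace ℝ (Fin (d + 1)))) → EuclideanSpace ℝ (Fin N),
          Isometry g ∧ ∀ x y, c (g x) = c (g y) := by
  classical
  intro d X z hfin hX hz r
  rcases X.eq_empty_or_nonempty with rfl | ⟨o, ho⟩
  · refine ⟨d + 1, fun c => ⟨Subtype.val, isometry_subtype_coe, ?_⟩⟩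
    rintro ⟨x, hx⟩ ⟨y, hy⟩
    have h1 : x = z := by simpa using hx
    have h2 : y = z := by simpa using hy
    simp [h1, h2]
  haveI : Fintype X := hfin.fintype
  let p0 : E d := WithLp.toLp 2 fun i => z (Fin.castSucc i)
  let K : Submodule ℝ (E d) := Submodule.span ℝ (Set.range fun x : X => (x : E d) - o)
  let u : E d := K.starProjection (p0 - o)
  have huK : u ∈ K := K.starProjection_apply_mem _
  obtain ⟨μ, hμ⟩ := (Submodule.mem_span_range_iff_exists_fun ℝ).1 huK
  have hv : p0 - o - u ∈ Kᗮ := K.sub_starProjection_mem_orthogonal _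
  have hH : 0 < ‖p0 - o - u‖ ^ 2 + z (Fin.last d) ^ 2 := by positivity
  obtain ⟨N, hN⟩ := core (X := X) Subtype.val isometry_subtype_coe hX ⟨o, ho⟩ μ _ hH r
  refine ⟨N, fun c => ?_⟩
  obtain ⟨G, Z, hG, hZ, hc⟩ := hN c
  have hmem : ∀ y : ({y : EuclideanSpace ℝ (Fin (d + 1)) |
      y (Fin.last d) = 0 ∧ ∃ x ∈ X, ∀ i : Fin d, y (Fin.castSucc i) = x i}
      ∪ {z} : Set (EuclideanSpace ℝ (Fin (d + 1)))), y.1 ≠ z →
      ∃ x : X, y.1 (Fin.last d) = 0 ∧ ∀ i : Fin d, y.1 (Fin.castSucc i) = x.1 i := by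
    rintro ⟨y, hy | hy⟩ hne
    · obtain ⟨h0, x, hx, h⟩ := hy
      exact ⟨⟨x, hx⟩, h0, h⟩
    · exact absurd hy hne
  choose π hπ0 hπ using hmem
  have hdz : ∀ y (hy : y.1 ≠ z), dist (G (π y hy)) Z = dist y.1 z := by
    intro y hy
    refine (pow_left_inj₀ dist_nonneg dist_nonneg two_ne_zero).1 ?_
    rw [hZ]
    have h1 : dist y.1 z ^ 2 = ‖(π y hy).1 - p0‖ ^ 2 + z (Fin.last d) ^ 2 := by
      rw [← dist_eq_norm, EuclideanSpace.dist_sq_eq, EuclideanSpace.dist_sq_eq,
        Fin.sum_univ_castSucc, hπ0 y hy]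
      congr 1
      · exact Finset.sum_congr rfl fun i _ => by rw [hπ y hy i]
      · simp [Real.dist_eq]
    have h2 : (π y hy).1 - p0 = ((π y hy).1 - o - u) - (p0 - o - u) := by abel
    have h3 : inner ℝ ((π y hy).1 - o - u) (p0 - o - u) = 0 := by
      refine Submodule.inner_right_of_mem_orthogonal (K := K) ?_ hv
      exact K.sub_mem (Submodule.subset_span ⟨π y hy, rfl⟩) huK
    rw [h1, h2, norm_sub_sq_real ((π y hy).1 - o - u), h3]
    change ‖(π y hy).1 - o - ∑ x : X, μ x • (x.1 - o)‖ ^ 2 + _ = _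
    rw [hμ]
    ring
  refine ⟨fun y => if hy : y.1 = z then Z else G (π y hy), ?_, ?_⟩
  · refine Isometry.of_dist_eq fun a b => ?_
    rw [Subtype.dist_eq]
    by_cases ha : a.1 = z <;> by_cases hb : b.1 = z
    · simp [ha, hb]
    · simp only [ha, hb, dif_pos, dif_neg, not_false_eq_true]
      rw [dist_comm, hdz b hb, dist_comm]
    · simp only [ha, hb, dif_pos, dif_neg, not_false_eq_true]
      rw [hdz a ha]
    · simp only [ha, hb, dif_neg, not_false_eq_true]
      rw [hG, Subtype.dist_eq, EuclideanSpace.dist_eq, EuclideanSpace.dist_eq,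
        Fin.sum_univ_castSucc, hπ0 a ha, hπ0 b hb]
      simp only [dist_self, ne_eq, OfNat.ofNat_ne_zero, not_false_eq_true, zero_pow, add_zero]
      congr 1
      exact Finset.sum_congr rfl fun i _ => by rw [hπ a ha i, hπ b hb i]
  · intro a b
    have : ∀ y : ({y : EuclideanSpace ℝ (Fin (d + 1)) |
        y (Fin.last d) = 0 ∧ ∃ x ∈ X, ∀ i : Fin d, y (Fin.castSucc i) = x i}
        ∪ {z} : Set (EuclideanSpace ℝ (Fin (d + 1)))),
        c (if hy : y.1 = z then Z else G (π y hy)) = c Z := by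
      intro y
      split_ifs
      · rfl
      · exact hc _
    exact (this a).trans (this b).symm

end Pool.Agent.S11737
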