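import Pool.Statements.S11770
import Pool.Agent.H230Z.Lucky

set_option autoImplicit false
open Classical
open Pool Pool.MP_d93746_co

namespace Pool.Agent.S11770

/-- The negation of the preceding statement: Every finite simple graph has a vertex labeling with integers from 1 to its chromatic number in which any two adjacent vertices have different sums of labels over their neighbourhoods. -/
theorem result :
    ¬ (∀ (V : Type) [Fintype V] (G : SimpleGraph V),
      ∃ f : V → ℕ,
        (∀ v, 1 ≤ f v ∧ ((f v : ℕ) : ℕ∞) ≤ G.chromaticNumber) ∧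
        ∀ u v, G.Adj u v →
          ∑ w ∈ G.neighborFinset u, f w ≠ ∑ w ∈ G.neighborFinset v, f w) := by
  intro h
  obtain ⟨V, _, G, hG, hf⟩ := Pool.Agent.H230Z.Lucky.main 2
  obtain ⟨f, h1, h2⟩ := h V G
  obtain ⟨u, v, a, b⟩ := hf f (fun w => ⟨(h1 w).1, by
    exact_mod_cast (h1 w).2.trans hG.chromaticNumber_le⟩)
  exact h2 u v a (b _ _ (G.mem_neighborFinset u) (G.mem_neighborFinset v))

end Pool.Agent.S11770
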