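import Pool.Statements.S11804
import Pool.Agent.H178Z.ConvexEmb

set_option autoImplicit false
open Pool Pool.MP_da9eaf_co

namespace Pool.Agent.S11804

/-- The negation of the preceding statement: For 2≤d≤k there is a rational α with d-1<α<d such that the maximum number of edges of a k-uniform hypergraph on n vertices with an injective embedding into R^d whose edge barycenters are in convex position is Θ(n^α). -/
theorem result :
    ¬ (∀ d k : ℕ, 2 ≤ d → d ≤ k →
      ∃ α : ℚ, ((d : ℝ) - 1 < (α : ℝ)) ∧ ((α : ℝ) < (d : ℝ)) ∧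
        ∃ c C : ℝ, 0 < c ∧ 0 < C ∧ ∃ N : ℕ, ∀ n : ℕ, N ≤ n →
          (∀ E : Finset (Finset (Fin n)), (∀ e ∈ E, e.card = k) →
              (∃ f : Fin n → (Fin d → ℝ), Function.Injective f ∧
                  ConvexIndependent ℝ (fun e : ↥E => ∑ v ∈ e.1, f v)) →
              (E.card : ℝ) ≤ C * (n : ℝ) ^ (α : ℝ)) ∧
          (∃ E : Finset (Finset (Fin n)), (∀ e ∈ E, e.card = k) ∧
              (∃ f : Fin n → (Fin d → ℝ), Function.Injective f ∧
                  ConvexIndependent ℝ (fun e : ↥E => ∑ v ∈ e.1, f v)) ∧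
              c * (n : ℝ) ^ (α : ℝ) ≤ (E.card : ℝ))) := by
  intro h
  obtain ⟨α, -, hα, c, C, -, -, N, hN⟩ := h 2 6 le_rfl (by norm_num)
  obtain ⟨M, hM, hlt⟩ := Pool.Agent.H178Z.ConvexEmb.no_bound α C (by exact_mod_cast hα) N
  obtain ⟨E, hE1, hE2, hE3⟩ := Pool.Agent.H178Z.ConvexEmb.construction M
  have := (hN _ hM).1 E hE1 hE2
  rw [hE3] at this
  exact absurd this (not_le.mpr hlt)

end Pool.Agent.S11804
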