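import Pool.Statements.S11829
import Pool.Agent.H228Z.ProdExp

set_option autoImplicit false
open Pool Pool.MP_db9276_co

namespace Pool.Agent.S11829

/-- For every finite colouring of the naturals there is a strictly increasing sequence of positive integers a_n such that all products a_n·a_m and all powers a_m^(a_n), for n<m, have the same single colour. -/
theorem result :
    ∀ (k : ℕ) (c : ℕ → Fin k), ∃ a : ℕ → ℕ, StrictMono a ∧ 0 < a 0 ∧
      ∃ i : Fin k, ∀ n m : ℕ, n < m → c (a n * a m) = i ∧ c (a m ^ a n) = i :=
  Pool.Agent.H228Z.ProdExp.prodExp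

end Pool.Agent.S11829
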