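import Pool.Statements.S11846
import Pool.Agent.H509Z.ZSRam2

set_option autoImplicit false
open scoped Classical
open Pool Pool.MP_dc28e4_co

namespace Pool.Agent.S11846

/-- The negation of the preceding statement: For every ε>0, for all large m and every forest G with m edges, the zero-sum Ramsey number R(G,Z_m) is at most (1+ε) times the 2-colour Ramsey number R(G,2); since R(G,Z_m) ≥ R(G,2) always, this is the limit-equals-1 conjecture. -/
theorem result :
    ¬ (∀ ε : ℝ, 0 < ε → ∃ M : ℕ, ∀ m : ℕ, M ≤ m → ∀ k : ℕ, ∀ G : SimpleGraph (Fin k),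
    G.IsAcyclic → G.edgeSet.ncard = m →
    ((sInf {N : ℕ | ∀ c : Sym2 (Fin N) → ZMod m, ∃ f : Fin k → Fin N,
        Function.Injective f ∧
        (∑ u : Fin k, ∑ v : Fin k,
          (if u < v ∧ G.Adj u v then c s(f u, f v) else (0 : ZMod m))) = 0} : ℕ) : ℝ) ≤
    (1 + ε) * ((sInf {N : ℕ | ∀ c : Sym2 (Fin N) → Bool, ∃ f : Fin k → Fin N,
        Function.Injective f ∧ ∃ b : Bool, ∀ u v : Fin k, G.Adj u v →
          c s(f u, f v) = b} : ℕ) : ℝ)) := by
  intro h
  obtain ⟨M, hM⟩ := h (1 / 100) (by norm_num)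
  let t := M + 5
  let e : Fin (Fintype.card (H509Z.ZSRam.V (13 * t) t)) ≃ H509Z.ZSRam.V (13 * t) t :=
    (Fintype.equivFin _).symm
  have h1 := hM (13 * t + t) (by omega) _ (H509Z.ZSRam.G e) (H509Z.ZSRam.G_acyclic e)
    (H509Z.ZSRam.G_edges e)
  have h2 := H509Z.ZSRam.zero_sum_ge e (by omega)
  have h3 := H509Z.ZSRam.two_le e
  have h4 : (5 : ℝ) ≤ t := by exact_mod_cast (show 5 ≤ t by omega)
  generalize sInf {N : ℕ | ∀ c : Sym2 (Fin N) → Bool, _} = B at h1 h3
  generalize sInf {N : ℕ | ∀ c : Sym2 (Fin N) → ZMod (13 * t + t), _} = A at h1 h2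
  have h5 : (2 * (13 * t + t) : ℝ) ≤ A + 1 := by exact_mod_cast h2
  have h6 : (B : ℝ) ≤ 27 * t + 2 := by exact_mod_cast h3
  linarith

end Pool.Agent.S11846
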