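import Pool.Statements.S11866
import Pool.Agent.H275Z.TwoDens

set_option autoImplicit false
open Classical
open Pool Pool.MP_dcf9ac_co

namespace Pool.Agent.S11866

/-- The negation of the preceding statement: For r ≥ 2 and k ≥ 3, the least 2-density among graphs on k(r-1) vertices with no independent set of size r is exactly (k+1)/2: every such graph has 2-density at least this, and some such graph attains it. -/
theorem result :
    ¬ (∀ r k : ℕ, 2 ≤ r → 3 ≤ k →
      (∀ G : SimpleGraph (Fin (k * (r - 1))), Gᶜ.CliqueFree r →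
        ∃ S : Finset (Fin (k * (r - 1))), 3 ≤ S.card ∧
          ((k : ℝ) + 1) / 2 ≤
            ((((Finset.univ.filter (fun p : Fin (k * (r - 1)) × Fin (k * (r - 1)) =>
                p.1 ∈ S ∧ p.2 ∈ S ∧ G.Adj p.1 p.2)).card : ℝ) / 2 - 1) /
              ((S.card : ℝ) - 2))) ∧
      (∃ G : SimpleGraph (Fin (k * (r - 1))), Gᶜ.CliqueFree r ∧
        ∀ S : Finset (Fin (k * (r - 1))), 3 ≤ S.card →
          ((((Finset.univ.filter (fun p : Fin (k * (r - 1)) × Fin (k * (r - 1)) =>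
                p.1 ∈ S ∧ p.2 ∈ S ∧ G.Adj p.1 p.2)).card : ℝ) / 2 - 1) /
              ((S.card : ℝ) - 2)) ≤ ((k : ℝ) + 1) / 2)) := by
  intro h
  obtain ⟨S, hS, hle⟩ := (h 5 3 (by norm_num) (by norm_num)).1 Pool.Agent.H275Z.TwoDens.G
    Pool.Agent.H275Z.TwoDens.cliqueFree
  have hb := Pool.Agent.H275Z.TwoDens.bound S hS
  have hb' : (((Finset.univ.filter (fun p : Fin (3 * (5 - 1)) × Fin (3 * (5 - 1)) =>
      p.1 ∈ S ∧ p.2 ∈ S ∧ Pool.Agent.H275Z.TwoDens.G.Adj p.1 p.2)).card : ℕ) : ℝ) + 8 ≤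
      4 * (S.card : ℝ) := by
    exact_mod_cast hb
  have hS' : (3 : ℝ) ≤ (S.card : ℝ) := by exact_mod_cast hS
  rw [le_div_iff₀ (by linarith)] at hle
  push_cast at hle
  linarith

end Pool.Agent.S11866
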