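import Pool.Statements.S11905
import Pool.Agent.H286Z.Tile.Int

set_option autoImplicit false
open Pool Pool.MP_ddef6b_co

namespace Pool.Agent.S11905

theorem result :
    ∀ t : ℕ, ∃ d : ℕ, ∀ T : Finset ℤ, T.Nonempty → T.card ≤ t →
      ∃ C : Set (Set (Fin d → ℤ)),
        (∀ S ∈ C, ∃ v : Fin d → ℤ, ∃ i : Fin d, ∃ s : ℤ, (s = 1 ∨ s = -1) ∧
          S = (fun a : ℤ => v + (s * a) • Pi.single i (1 : ℤ)) '' (T : Set ℤ)) ∧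
        ∀ x : Fin d → ℤ, ∃! S : Set (Fin d → ℤ), S ∈ C ∧ x ∈ S := by
  intro t
  obtain ⟨d, hd⟩ := Pool.Agent.H286Z.Tile.main t
  refine ⟨d, fun T hT ht => ?_⟩
  obtain ⟨c, hc⟩ := hd T hT ht
  refine ⟨Set.range c, ?_, fun x => ⟨c x, ⟨⟨x, rfl⟩, (hc x trivial).2.1⟩, ?_⟩⟩
  · rintro _ ⟨x, rfl⟩
    obtain ⟨v, i, h⟩ := (hc x trivial).1
    exact ⟨v, i, 1, Or.inl rfl, by simpa [Pool.Agent.H286Z.Tile.Copy] using h⟩
  · rintro _ ⟨⟨y, rfl⟩, h⟩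
    exact ((hc y trivial).2.2.2 x h).symm

end Pool.Agent.S11905
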