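import Pool.Statements.S11909
import Pool.Agent.H572Z.Cl.Tree

set_option autoImplicit false
open Pool Pool.MP_de06d2_co

namespace Pool.Agent.S11909

/-- There is g such that for each k there is c: every finite graph with girth at least g and treewidth at most k has a 2-colouring whose monochromatic connected vertex sets all have at most c vertices. -/
theorem result :
  ∃ g : ℕ, ∀ k : ℕ, ∃ c : ℕ, ∀ (V : Type) [Fintype V] (G : SimpleGraph V),
    (g : ℕ∞) ≤ G.egirth →
    (∃ n : ℕ, ∃ T : SimpleGraph (Fin n), T.IsTree ∧ ∃ B : Fin n → Finset V,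
      (∀ i, (B i).card ≤ k + 1) ∧
      (∀ v : V, ∃ i, v ∈ B i) ∧
      (∀ u v : V, G.Adj u v → ∃ i, u ∈ B i ∧ v ∈ B i) ∧
      (∀ v : V, (T.induce {i | v ∈ B i}).Connected)) →
    ∃ f : V → Fin 2, ∀ s : Finset V, (∀ x ∈ s, ∀ y ∈ s, f x = f y) →
      (G.induce (s : Set V)).Connected → s.card ≤ c := by
  refine ⟨7, fun k => ⟨Pool.Agent.H572Z.Cl.cst (k + 1), ?_⟩⟩
  rintro V _ G hG ⟨n, T, hT, B, hb, hv, he, hc⟩
  exact Pool.Agent.H572Z.Cl.main G (Pool.Agent.H572Z.Cl.noShort_of_egirth G (by exact_mod_cast hG))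
    T hT.isAcyclic B (k + 1) hb hv he (fun v => (hc v).preconnected)

end Pool.Agent.S11909
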