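import Pool.Statements.S11942
import Pool.Agent.H969Z.MniMain

set_option autoImplicit false
open Pool Pool.MP_df4dc5_co

namespace Pool.Agent.S11942

/-- The negation of the preceding statement: There is a clutter that is minimally non-ideal (non-ideal, every proper deletion/contraction minor ideal) whose minimum-size members form the lines of a non-degenerate projective plane on all its elements, with lines of size at least 4 (order above two). -/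
theorem result :
    ¬ (∃ (n : ℕ) (C : Finset (Finset (Fin n))),
      IsAntichain (· ⊆ ·) (C : Set (Finset (Fin n))) ∧
      (∃ x ∈ Set.extremePoints ℝ
          {x : Fin n → ℝ | (∀ i, 0 ≤ x i) ∧ ∀ S ∈ C, (1 : ℝ) ≤ ∑ i ∈ S, x i},
        ∃ i : Fin n, ∀ z : ℤ, x i ≠ (z : ℝ)) ∧
      (∀ I J : Finset (Fin n), Disjoint I J → (I ∪ J).Nonempty →
        ∀ x ∈ Set.extremePoints ℝ
            {x : Fin n → ℝ | (∀ i, 0 ≤ x i) ∧ (∀ i ∈ I ∪ J, x i = 0) ∧
              ∀ S ∈ C, Disjoint S I → (1 : ℝ) ≤ ∑ i ∈ S, x i},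
          ∀ i : Fin n, ∃ z : ℤ, x i = (z : ℝ)) ∧
      ∃ r : ℕ, 4 ≤ r ∧ (∀ S ∈ C, r ≤ S.card) ∧
        (∀ p q : Fin n, p ≠ q →
          ∃! ℓ : Finset (Fin n), ℓ ∈ C ∧ ℓ.card = r ∧ p ∈ ℓ ∧ q ∈ ℓ) ∧
        (∀ ℓ ∈ C, ∀ m ∈ C, ℓ.card = r → m.card = r → ℓ ≠ m →
          ∃! p : Fin n, p ∈ ℓ ∧ p ∈ m) ∧
        (∃ F : Finset (Fin n), F.card = 4 ∧
          ∀ ℓ ∈ C, ℓ.card = r → (F ∩ ℓ).card ≤ 2)) := by
  rintro ⟨n, C, -, -, hmin, r, h4, hbig, hjoin, hmeet, hquad⟩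
  refine H969Z.Mni.main (C := C) (r := r) ⟨h4, hbig, hjoin, hmeet, hquad⟩ fun p x hx => ?_
  refine hmin {p} ∅ (by simp) (by simp) x ?_
  convert hx using 2
  ext y
  simp [H969Z.Mni.Qd]

end Pool.Agent.S11942
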