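import Pool.Statements.S11955
import Pool.Agent.H417Z.GC5

set_option autoImplicit false
open Pool Pool.MP_dfca13_co

namespace Pool.Agent.S11955

open Pool.Agent.Helper64.Gow Pool.Agent.H417Z.GC in
/-- There is a constant C such that every finite planar point set of size n with no more than √n points on a line can be coloured with at most C√n colours so that no three distinct points of one colour are collinear. -/
theorem result :
    ∃ C : ℝ, ∀ P : Finset (EuclideanSpace ℝ (Fin 2)),
      (∀ S : Finset (EuclideanSpace ℝ (Fin 2)), S ⊆ P →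
          Collinear ℝ (S : Set (EuclideanSpace ℝ (Fin 2))) →
          (S.card : ℝ) ≤ Real.sqrt (P.card : ℝ)) →
      ∃ (k : ℕ) (c : EuclideanSpace ℝ (Fin 2) → ℕ),
        (k : ℝ) ≤ C * Real.sqrt (P.card : ℝ) ∧
        (∀ p ∈ P, c p < k) ∧
        ∀ a ∈ P, ∀ b ∈ P, ∀ d ∈ P, a ≠ b → a ≠ d → b ≠ d →
          c a = c b → c a = c d →
          ¬ Collinear ℝ ({a, b, d} : Set (EuclideanSpace ℝ (Fin 2))) := by
  classical
  obtain ⟨C, hC⟩ := colour_coord
  refine ⟨2 * C, ?_⟩
  intro P hP
  set r := Real.sqrt (P.card : ℝ) with hr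
  have hr0 : 0 ≤ r := Real.sqrt_nonneg _
  have hrr : r ^ 2 = P.card := Real.sq_sqrt (Nat.cast_nonneg _)
  set s := ⌈r⌉₊ with hs
  have hs1 : r ≤ s := Nat.le_ceil _
  have hs2 : (s : ℝ) ≤ 2 * r := by
    rcases Nat.eq_zero_or_pos P.card with h0 | h0
    · have : r = 0 := by rw [hr, h0]; simp
      rw [hs, this]
      simp
    · have h1 : (1 : ℝ) ≤ P.card := by exact_mod_cast h0
      have h2 : 1 ≤ r := by
        rw [hr]
        exact Real.one_le_sqrt.2 h1
      have h3 : (s : ℝ) < r + 1 := Nat.ceil_lt_add_one hr0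
      linarith
  obtain ⟨t, ht⟩ := exists_sh (P.image cd)
  have hinj : Function.Injective (fun p => sh t (cd p)) := (sh_inj t).comp cd_inj
  have him : (P.image cd).image (sh t) = P.image (fun p => sh t (cd p)) := by
    rw [Finset.image_image]
    rfl
  rw [him] at ht
  obtain ⟨c, hc1, hc2⟩ := hC s (P.image (fun p => sh t (cd p))) ht (by
    intro L hL
    obtain ⟨a', ha', b', hb', hab', hl⟩ := mem_lines.1 hL
    have hne := ht.ne ha' hb' hab'
    rw [Finset.mem_image] at ha' hb'
    obtain ⟨a, ha, rfl⟩ := ha'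
    obtain ⟨b, hb, rfl⟩ := hb'
    have hab : a ≠ b := fun h => hab' (by rw [h])
    have h1 : pl (P.image (fun p => sh t (cd p))) L
        ⊆ (P.filter (fun x => col (cd a) (cd b) (cd x))).image (fun p => sh t (cd p)) := by
      intro q hq
      unfold pl at hq
      rw [Finset.mem_filter, Finset.mem_image] at hq
      obtain ⟨⟨x, hx, rfl⟩, hon⟩ := hq
      rw [← hl, ← col_on hne, sh_col] at hon
      exact Finset.mem_image_of_mem _ (Finset.mem_filter.2 ⟨hx, hon⟩)
    have h2 := hP (P.filter (fun x => col (cd a) (cd b) (cd x))) (Finset.filter_subset _ _) (by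
      apply collinear_of_col hab (by
        rw [Finset.mem_coe, Finset.mem_filter]
        exact ⟨ha, col_self1 _ _⟩)
      intro x hx
      exact (Finset.mem_filter.1 (Finset.mem_coe.1 hx)).2)
    have h3 : (P.filter (fun x => col (cd a) (cd b) (cd x))).card ≤ s := by
      have := h2.trans hs1
      exact_mod_cast this
    exact ((Finset.card_le_card h1).trans Finset.card_image_le).trans h3) (by
    rw [Finset.card_image_of_injective _ hinj]
    have h1 : (P.card : ℝ) ≤ (s : ℝ) ^ 2 := by
      rw [← hrr]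
      exact pow_le_pow_left₀ hr0 hs1 2
    exact_mod_cast h1)
  refine ⟨C * s, fun p => c (sh t (cd p)), ?_, ?_, ?_⟩
  · push_cast
    have : (0 : ℝ) ≤ C := Nat.cast_nonneg _
    nlinarith
  · intro p hp
    exact hc1 _ (Finset.mem_image_of_mem _ hp)
  · intro a ha b hb d hd hab had hbd e1 e2 hcol
    exact hc2 _ (Finset.mem_image_of_mem _ ha) _ (Finset.mem_image_of_mem _ hb) _ (Finset.mem_image_of_mem _ hd)
      (fun h => hab (hinj h)) (fun h => had (hinj h)) (fun h => hbd (hinj h)) e1 e2
      ((sh_col t _ _ _).2 (col_of_collinear hcol))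

end Pool.Agent.S11955
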