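import Pool.Statements.S11974
import Pool.Agent.H626Z.SignRank

set_option autoImplicit false
open Pool Pool.MP_e09a39_co

namespace Pool.Agent.S11974

/-- The negation of the preceding statement: For every sign pattern whose real minimum rank is 3 and whose columns each have at most 3 zero entries, there is a rational matrix with exactly that sign pattern and rank 3, i.e. the rational minimum rank is also 3. -/
theorem result :
    ¬ (∀ (m n : ℕ) (A : Matrix (Fin m) (Fin n) SignType),
      (∀ j : Fin n, (Finset.univ.filter (fun i : Fin m => A i j = 0)).card ≤ 3) →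
      (∃ B : Matrix (Fin m) (Fin n) ℝ,
          (∀ i j, SignType.sign (B i j) = A i j) ∧ B.rank = 3) →
      (∀ B : Matrix (Fin m) (Fin n) ℝ,
          (∀ i j, SignType.sign (B i j) = A i j) → 3 ≤ B.rank) →
      ∃ Q : Matrix (Fin m) (Fin n) ℚ,
        (∀ i j, SignType.sign (Q i j) = A i j) ∧ Q.rank = 3) := by
  intro H
  have hz : ∀ {K : Type} [Field K] [LinearOrder K] [IsStrictOrderedRing K]
      (M : Matrix (Fin 10) (Fin 12) K),
      (∀ i j, SignType.sign (M i j) = SignType.sign (Pool.Agent.H626Z.SignRank.B i j)) →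
      ∀ i j, M i j = 0 ↔ Pool.Agent.H626Z.SignRank.Z i j := by
    intro K _ _ _ M hM i j
    rw [← Pool.Agent.H626Z.SignRank.B_zero, ← sign_eq_zero_iff, hM, sign_eq_zero_iff]
  obtain ⟨Q, hQ, hr⟩ := H 10 12 (fun i j => SignType.sign (Pool.Agent.H626Z.SignRank.B i j))
    (by
      intro j
      simp only [sign_eq_zero_iff, Pool.Agent.H626Z.SignRank.B_zero]
      revert j
      decide)
    ⟨Pool.Agent.H626Z.SignRank.B, fun _ _ => rfl, le_antisymm Pool.Agent.H626Z.SignRank.rank_B_le
      (Pool.Agent.H626Z.SignRank.rank_ge _ Pool.Agent.H626Z.SignRank.B_zero)⟩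
    (fun M hM => Pool.Agent.H626Z.SignRank.rank_ge M (hz M hM))
  exact Pool.Agent.H626Z.SignRank.no_rational Q (hz Q hQ) hr.le

end Pool.Agent.S11974
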