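import Pool.Statements.S11998
import Pool.Agent.H748Z.Crit

set_option autoImplicit false
open Pool Pool.MP_e1ba52_co

namespace Pool.Agent.S11998

/-- The negation of the preceding statement: For every n ≥ 1, the largest size of a critical set of the cyclic latin square (i,j) ↦ i+j mod n is exactly n(n-1)/2. A critical set is a set of cells forcing a unique completion, where removing any one cell destroys uniqueness. -/
theorem result :
    ¬ (∀ n : ℕ, 1 ≤ n →
      IsGreatest
        {k : ℕ | ∃ S : Finset (Fin n × Fin n),
          (∀ M : Fin n → Fin n → Fin n,
              (∀ i, Function.Injective (M i)) →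
              (∀ j, Function.Injective (fun i => M i j)) →
              (∀ c ∈ S, M c.1 c.2 = c.1 + c.2) →
              M = fun i j => i + j) ∧
          (∀ c ∈ S, ∃ M : Fin n → Fin n → Fin n,
              (∀ i, Function.Injective (M i)) ∧
              (∀ j, Function.Injective (fun i => M i j)) ∧
              (∀ d ∈ S.erase c, M d.1 d.2 = d.1 + d.2) ∧
              M ≠ fun i j => i + j) ∧
          S.card = k}
        (n * (n - 1) / 2)) := by
  intro h
  have h6 := (h 6 (by norm_num)).2
    ⟨H748Z.Crit.S, H748Z.Crit.uniq, H748Z.Crit.crit, H748Z.Crit.card_S⟩
  norm_num at h6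

end Pool.Agent.S11998
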