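import Pool.Statements.S12030
import Pool.Agent.H347Z.IsoProof

set_option autoImplicit false
open Pool Pool.MP_e2957e_co

namespace Pool.Agent.S12030

/-- The negation of the preceding statement: There is an absolute C₁>0 such that any A⊂S_n of size c(n−1)! whose transposition-graph edge boundary is at most ∣A∣(n!−∣A∣)/(n−1)!+δn∣A∣ lies within symmetric difference C₁cδ(n−1)! of a union of c distinct 1-cosets {σ: σ(i)=j}. -/
theorem result :
    ¬ (∃ C₁ : ℝ, 0 < C₁ ∧
      ∀ (n : ℕ), 1 ≤ n →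
      ∀ (c : ℕ) (δ : ℝ), 0 ≤ δ →
      ∀ A : Finset (Equiv.Perm (Fin n)),
        A.card = c * Nat.factorial (n - 1) →
        ((((A ×ˢ (Finset.univ.filter (fun p : Fin n × Fin n => p.1 < p.2))).filter
            (fun x => x.1 * Equiv.swap x.2.1 x.2.2 ∉ A)).card : ℕ) : ℝ)
          ≤ (A.card : ℝ) * ((Nat.factorial n : ℝ) - (A.card : ℝ)) / (Nat.factorial (n - 1) : ℝ)
            + δ * (n : ℝ) * (A.card : ℝ) →
        ∃ P : Finset (Fin n × Fin n), P.card = c ∧
          ((symmDiff A (Finset.univ.filter (fun σ : Equiv.Perm (Fin n) => ∃ p ∈ P, σ p.1 = p.2))).card : ℝ)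
            ≤ C₁ * (c : ℝ) * δ * (Nat.factorial (n - 1) : ℝ)) := by
  rintro ⟨C, hC, H⟩
  obtain ⟨m, hm⟩ := exists_nat_gt (16 * C)
  let x : Fin (m + 4) := ⟨0, by omega⟩
  let y : Fin (m + 4) := ⟨1, by omega⟩
  have hxy : x ≠ y := by simp [x, y]
  have h1 := Pool.Agent.H347Z.Iso.card_fam hxy
  have h2 := Pool.Agent.H347Z.Iso.bdry hxy
  have e1 : m + 4 - 1 = m + 3 := by omega
  have e2 : m + 4 - 2 = m + 2 := by omega
  have f1 : (m + 4).factorial = (m + 4) * (m + 3).factorial := Nat.factorial_succ (m + 3)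
  have f2 : (m + 3).factorial = (m + 3) * (m + 2).factorial := Nat.factorial_succ (m + 2)
  have h3 : (Pool.Agent.H347Z.Iso.fam x y).card = (m + 2) * (m + 4 - 1).factorial := by
    rw [e1] at h1 ⊢
    rw [f1] at h1
    nlinarith
  have hF : (0 : ℝ) < (m + 3).factorial := by exact_mod_cast Nat.factorial_pos _
  have hm0 : (0 : ℝ) ≤ m := Nat.cast_nonneg m
  obtain ⟨P, -, hP⟩ := H (m + 4) (by omega) (m + 2) (8 / ((m + 4 : ℝ) * (m + 2))) (by positivity)
    (Pool.Agent.H347Z.Iso.fam x y) h3 (by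
      have h4 : 2 * (m + 4) * (m + 4 - 1).factorial + 2 * (m + 4) * (m + 4 - 2).factorial ≤
          2 * (m + 2) * (m + 3).factorial + 8 * (m + 3).factorial := by
        rw [e1, e2, f2]
        nlinarith [Nat.zero_le (m * (m + 2).factorial), Nat.zero_le (m + 2).factorial]
      refine le_trans (Nat.cast_le.2 (h2.trans h4)) (le_of_eq ?_)
      rw [h3, e1, f1]
      push_cast
      field_simp
      ring)
  have h5 := Pool.Agent.H347Z.Iso.dist hxy P
  rw [h3, e1] at h5
  rw [e1] at hP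
  generalize (symmDiff (Pool.Agent.H347Z.Iso.fam x y) (Finset.univ.filter
    (fun σ : Equiv.Perm (Fin (m + 4)) => ∃ p ∈ P, σ p.1 = p.2))).card = d at h5 hP
  have h6 : ((m : ℝ) + 2) * (m + 3).factorial ≤ 2 * (m + 4) * d + 2 * (m + 3).factorial := by
    exact_mod_cast h5
  have h7 : C * ((m + 2 : ℕ) : ℝ) * (8 / ((m + 4 : ℝ) * (m + 2))) * ((m + 3).factorial : ℝ) =
      8 * C * (m + 3).factorial / (m + 4) := by
    push_cast
    field_simp
  rw [h7, le_div_iff₀ (by positivity)] at hP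
  nlinarith

end Pool.Agent.S12030
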