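import Pool.Statements.S12102
import Pool.Agent.H528Z.Dom3

set_option autoImplicit false
open Pool Pool.MP_e5f8e2_co

namespace Pool.Agent.S12102

/-- The negation of the preceding statement: For every finite simple graph, the numbers d_i of dominating vertex sets of size i form a unimodal sequence: for some k they are non-decreasing for i ≤ k and non-increasing for i ≥ k. -/
theorem result :
    ¬ (∀ (V : Type) [Fintype V] (G : SimpleGraph V),
      ∃ k : ℕ,
        (∀ i j : ℕ, i ≤ j → j ≤ k →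
          {S : Finset V | S.card = i ∧ ∀ v : V, v ∈ S ∨ ∃ u ∈ S, G.Adj v u}.ncard ≤
          {S : Finset V | S.card = j ∧ ∀ v : V, v ∈ S ∨ ∃ u ∈ S, G.Adj v u}.ncard) ∧
        (∀ i j : ℕ, k ≤ i → i ≤ j →
          {S : Finset V | S.card = j ∧ ∀ v : V, v ∈ S ∨ ∃ u ∈ S, G.Adj v u}.ncard ≤
          {S : Finset V | S.card = i ∧ ∀ v : V, v ∈ S ∨ ∃ u ∈ S, G.Adj v u}.ncard)) := by
  exact Pool.Agent.H528Z.Dom.final

end Pool.Agent.S12102
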