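import Pool.Statements.S12165
import Pool.Agent.H800Z.RT.Bridge

set_option autoImplicit false
open Pool Pool.MP_e87f44_co

namespace Pool.Agent.S12165

/-- In the cohomology ring of the Grassmannian of ℓ-planes in C^{k+ℓ}, take the subalgebra generated by elements of degree at most m ≤ min(k,ℓ). Its degree-d dimension equals the q^d coefficient of 1 + Σ_{i=1}^m q^i [k,i]_q Σ_j q^{j(k−i+1)} [i+j−1,j]_q. -/
theorem result :
  ∀ qb : ℕ → ℕ → Polynomial ℕ,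
    (∀ n r : ℕ, qb n r = ∑ S ∈ (Finset.univ : Finset (Fin n)).powersetCard r,
        (Polynomial.X : Polynomial ℕ) ^ ((∑ s ∈ S, (s : ℕ)) - r * (r - 1) / 2)) →
  ∀ ℓ k : ℕ, ∀ w : Fin ℓ ⊕ Fin k → ℕ,
    w = Sum.elim (fun i : Fin ℓ => i.val + 1) (fun j : Fin k => j.val + 1) →
  ∀ I : Ideal (MvPolynomial (Fin ℓ ⊕ Fin k) ℚ),
    I = Ideal.span {p : MvPolynomial (Fin ℓ ⊕ Fin k) ℚ | ∃ n : ℕ, 1 ≤ n ∧
      p = ((1 + ∑ i : Fin ℓ, Polynomial.C
              ((-1 : MvPolynomial (Fin ℓ ⊕ Fin k) ℚ) ^ (i.val + 1) * MvPolynomial.X (Sum.inl i))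
              * (Polynomial.X : Polynomial (MvPolynomial (Fin ℓ ⊕ Fin k) ℚ)) ^ (i.val + 1)) *
           (1 + ∑ j : Fin k, Polynomial.C
              (MvPolynomial.X (Sum.inr j) : MvPolynomial (Fin ℓ ⊕ Fin k) ℚ)
              * (Polynomial.X : Polynomial (MvPolynomial (Fin ℓ ⊕ Fin k) ℚ)) ^ (j.val + 1))).coeff n} →
  ∀ m : ℕ, m ≤ min k ℓ → ∀ d : ℕ,
    Module.finrank ℚ ↥(Subalgebra.toSubmodule
        (Algebra.adjoin ℚ {x : MvPolynomial (Fin ℓ ⊕ Fin k) ℚ ⧸ I | ∃ e : ℕ, e ≤ m ∧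
          ∃ p ∈ MvPolynomial.weightedHomogeneousSubmodule ℚ w e, x = Ideal.Quotient.mkₐ ℚ I p})
      ⊓ Submodule.map (Ideal.Quotient.mkₐ ℚ I).toLinearMap
          (MvPolynomial.weightedHomogeneousSubmodule ℚ w d))
    = (1 + ∑ i ∈ Finset.Icc 1 m, (Polynomial.X : Polynomial ℕ) ^ i * qb k i *
          ∑ j ∈ Finset.range (ℓ - i + 1),
            (Polynomial.X : Polynomial ℕ) ^ (j * (k - i + 1)) * qb (i + j - 1) j).coeff d := by
  intro qb hqb l k w hw I hI m hm d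
  have hq : qb = Pool.Agent.H800Z.RT.qbin := by
    funext n r
    rw [hqb, Pool.Agent.H800Z.RT.sum_fin_powerset]
  subst hq hw hI
  exact Pool.Agent.H800Z.RT.final l k m hm d

end Pool.Agent.S12165
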