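import Pool.Statements.S12181
import Pool.Agent.H169Z.Final

set_option autoImplicit false
open Pool Pool.MP_e96620_co

namespace Pool.Agent.S12181

/-- There is ε>0 such that for every δ>0, for all large k and all N up to a tower of 2s of height ⌊εk⌋, some 2-coloring of k-subsets of [N] has, on every 2k-set S, red minus blue k-subsets at most δ·C(2k,k) in absolute value. -/
theorem result :
    ∃ ε : ℝ, 0 < ε ∧ ∀ δ : ℝ, 0 < δ → ∃ k₀ : ℕ, ∀ k : ℕ, k₀ ≤ k →
      ∀ N : ℕ, N ≤ (fun n : ℕ => 2 ^ n)^[⌊ε * (k : ℝ)⌋₊] 1 →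
        ∃ γ : Finset (Fin N) → Bool, ∀ S : Finset (Fin N), S.card = 2 * k →
          |∑ T ∈ S.powersetCard k, (if γ T then (1 : ℝ) else -1)|
            ≤ δ * ((Nat.choose (2 * k) k : ℕ) : ℝ) := by
  exact Pool.Agent.H169Z.final

end Pool.Agent.S12181
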