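import Pool.Statements.S12216
import Pool.Agent.H47Z.PEnergy

set_option autoImplicit false
open Classical
open Pool Pool.MP_eaf560_co

namespace Pool.Agent.S12216

/-- The negation of the preceding statement: For every real p ≥ 3, every finite simple graph G and distinct non-adjacent vertices u, v, the sum of p-th powers of positive adjacency eigenvalues of G plus edge uv is at least that of G. -/
theorem result :
    ¬ (∀ p : ℝ, 3 ≤ p → ∀ (n : ℕ) (G : SimpleGraph (Fin n)) (u v : Fin n), u ≠ v → ¬ G.Adj u v →
      ((((G ⊔ SimpleGraph.edge u v).adjMatrix ℝ).charpoly.roots.filter (fun x => 0 < x)).map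
          (fun x => x ^ p)).sum ≥
        (((G.adjMatrix ℝ).charpoly.roots.filter (fun x => 0 < x)).map (fun x => x ^ p)).sum) := by
  intro h
  have h1 := h 3 le_rfl 19 (H47Z.PEnergy.G false) 0 1 (by decide) (fun h2 => absurd h2.2 (by decide))
  rw [H47Z.PEnergy.E0] at h1
  exact absurd h1 (not_le.2 (H47Z.PEnergy.E1' _ H47Z.PEnergy.G_sup))

end Pool.Agent.S12216
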