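import Pool.Statements.S12242
import Pool.Agent.H470Z.RandSub

set_option autoImplicit false
open MeasureTheory
open Pool Pool.MP_ebd703_co

namespace Pool.Agent.S12242

/-- The negation of the preceding statement: For every countably infinite group G, picking each element independently with probability 1/2 gives, with probability zero, a subset fixed setwise by some non-identity automorphism of G. -/
theorem result :
    ¬ (∀ (G : Type) [Group G] [Countable G] [Infinite G],
      Measure.infinitePi (fun _ : G => (PMF.uniformOfFintype Bool).toMeasure)
        {f : G → Bool | ∃ φ : MulAut G, φ ≠ 1 ∧ ∀ g : G, f (φ g) = f g} = 0) := by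
  exact Pool.Agent.H470Z.RandSub.main

end Pool.Agent.S12242
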