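import Pool.Statements.S12282
import Pool.Agent.H279Z.RG.Four

set_option autoImplicit false
open Filter Topology Classical
open Pool Pool.MP_ee3012_co

namespace Pool.Agent.S12282

/-- The negation of the preceding statement: There is a 4-chromatic graph H and edge probability p with n^(-1/m2(H)) ≪ p ≪ n^(-1/2) and some d < 2/3, C such that, a.a.s., every H-free spanning subgraph of G(n,p) with min degree ≥ dpn is C-colourable. -/
theorem result :
    ¬ (∃ k : ℕ, ∃ H : SimpleGraph (Fin k), H.chromaticNumber = 4 ∧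
      ∃ p : ℕ → ℝ, (∀ n, 0 < p n ∧ p n ≤ 1) ∧
        (∀ F : H.Subgraph, 3 ≤ F.verts.ncard → 2 ≤ F.edgeSet.ncard →
          Tendsto (fun n : ℕ => (n : ℝ) ^ (-(((F.verts.ncard : ℝ) - 2) /
            ((F.edgeSet.ncard : ℝ) - 1))) / p n) atTop (nhds 0)) ∧
        Tendsto (fun n : ℕ => p n * Real.sqrt n) atTop (nhds 0) ∧
        ∃ d : ℝ, d < 2 / 3 ∧ ∃ C : ℕ,
          Tendsto (fun n : ℕ => ∑ Γ : SimpleGraph (Fin n),
            if (∀ G : SimpleGraph (Fin n), G ≤ Γ → ¬ H.IsContained G →
                (∀ v, d * p n * n ≤ ((G.neighborSet v).ncard : ℝ)) → G.Colorable C)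
            then p n ^ Γ.edgeSet.ncard * (1 - p n) ^ (n.choose 2 - Γ.edgeSet.ncard)
            else 0) atTop (nhds 1)) :=
  Pool.Agent.H279Z.RG.four_main

end Pool.Agent.S12282
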