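import Pool.Statements.S12292
import Pool.Agent.H443Z.Good3

set_option autoImplicit false
open Pool Pool.MP_eee601_co

namespace Pool.Agent.S12292

/-- The negation of the preceding statement: For each d≥3 there is ε>0 such that for every graph H, all large enough connected graphs G with max degree ≤d and bandwidth ≤ε∣G∣ satisfy R(G,H) ≤ (χ(H)−1)(∣G∣−1)+σ(H), i.e. are H-good. -/
theorem result :
    ¬ (∀ d : ℕ, 3 ≤ d → ∃ ε : ℝ, 0 < ε ∧
    ∀ k : ℕ, 1 ≤ k → ∀ H : SimpleGraph (Fin k), ∃ n₀ : ℕ, ∀ n : ℕ, n₀ ≤ n →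
      ∀ G : SimpleGraph (Fin n), G.Connected →
        (∀ v : Fin n, (G.neighborSet v).ncard ≤ d) →
        (∃ π : Fin n ≃ Fin n, ∀ u v : Fin n, G.Adj u v →
            |((π u : ℕ) : ℝ) - ((π v : ℕ) : ℝ)| ≤ ε * (n : ℝ)) →
        ∀ c : Fin k → Fin H.chromaticNumber.toNat,
          (∀ u v : Fin k, H.Adj u v → c u ≠ c v) →
          ∀ i : Fin H.chromaticNumber.toNat,
            ∀ N : ℕ, N = (H.chromaticNumber.toNat - 1) * (n - 1)
                + (Finset.univ.filter (fun v : Fin k => c v = i)).card →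
            ∀ F : SimpleGraph (Fin N),
              (∃ f : Fin n → Fin N, Function.Injective f ∧
                  ∀ u v : Fin n, G.Adj u v → F.Adj (f u) (f v)) ∨
              (∃ g : Fin k → Fin N, Function.Injective g ∧
                  ∀ u v : Fin k, H.Adj u v → Fᶜ.Adj (g u) (g v))) := by
  intro h
  obtain ⟨ε, hε, h⟩ := h 68 (by norm_num)
  obtain ⟨a, ha⟩ := Pool.Agent.H443Z.Good.main ε hε
  obtain ⟨n₀, h⟩ := h (a + 1) (by omega) ⊤
  obtain ⟨n, hn, G, hG1, hG2, hG3, hG4⟩ := ha n₀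
  have hχ : (⊤ : SimpleGraph (Fin (a + 1))).chromaticNumber.toNat = a + 1 := by
    rw [SimpleGraph.chromaticNumber_top]
    simp
  have h1 := h n hn G hG1 hG2 ⟨Equiv.refl _, hG3⟩ (Fin.cast hχ.symm)
    (fun u v huv hc => huv.ne (Fin.cast_injective _ hc)) (Fin.cast hχ.symm 0) _ rfl
  obtain ⟨F, hF1, hF2⟩ := hG4 (((⊤ : SimpleGraph (Fin (a + 1))).chromaticNumber.toNat - 1) * (n - 1)
    + (Finset.univ.filter (fun v : Fin (a + 1) => Fin.cast hχ.symm v = Fin.cast hχ.symm 0)).card) (by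
      have h2 : (Finset.univ.filter
          (fun v : Fin (a + 1) => Fin.cast hχ.symm v = Fin.cast hχ.symm 0)).card ≤ a + 1 := by
        refine le_trans (Finset.card_le_univ _) ?_
        simp
      have h3 : (⊤ : SimpleGraph (Fin (a + 1))).chromaticNumber.toNat - 1 = a := by omega
      rw [h3]
      omega)
  rcases h1 F with h2 | ⟨g, -, hg⟩
  · exact hF1 h2
  · exact hF2 ⟨g, fun u v huv => hg u v huv⟩

end Pool.Agent.S12292
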