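import Pool.Statements.S12304
import Pool.Agent.H660Z.Inc.Main

set_option autoImplicit false
open Pool Pool.MP_ef9ee6_co

namespace Pool.Agent.S12304

/-- The negation of the preceding statement: For each s there is C such that any m points and n lines in 3-space, with no plane containing more than s of the lines, have at most C(m^(2/3) n^(1/2) + m + n) point-line incidences. -/
theorem result :
    ¬ (∀ s : ℕ, ∃ C : ℝ, ∀ (P : Finset (EuclideanSpace ℝ (Fin 3)))
      (L : Finset (AffineSubspace ℝ (EuclideanSpace ℝ (Fin 3)))),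
      (∀ l ∈ L, Module.finrank ℝ l.direction = 1) →
      (∀ π : AffineSubspace ℝ (EuclideanSpace ℝ (Fin 3)),
          Module.finrank ℝ π.direction = 2 →
          {l : AffineSubspace ℝ (EuclideanSpace ℝ (Fin 3)) | l ∈ L ∧ l ≤ π}.ncard ≤ s) →
      (({x : EuclideanSpace ℝ (Fin 3) × AffineSubspace ℝ (EuclideanSpace ℝ (Fin 3)) |
          x.1 ∈ P ∧ x.2 ∈ L ∧ x.1 ∈ x.2}.ncard : ℕ) : ℝ) ≤
        C * ((P.card : ℝ) ^ ((2 : ℝ) / 3) * (L.card : ℝ) ^ ((1 : ℝ) / 2)
          + (P.card : ℝ) + (L.card : ℝ))) := by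
  exact Pool.Agent.H660Z.Inc.main

end Pool.Agent.S12304
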