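import Pool.Statements.S12323
import Pool.Agent.H120Z.MG.Main

set_option autoImplicit false
open Pool Pool.MP_f03f2f_co

namespace Pool.Agent.S12323

/-- For r≥1, s≥2r+1 and 0≤k<⌊(s−1)/r⌋: take multigraphs where every s-set spans at most a·C(s,2)+t_r(s)+k edges. Their max product of multiplicities, raised to 1/C(n,2), tends to a^{1/r}(a+1)^{(r−1)/r}. -/
theorem result :
    ∀ r a s : ℕ, 1 ≤ r → 2 * r + 1 ≤ s → ∀ k : ℕ, k + 1 ≤ (s - 1) / r →
      Filter.Tendsto
        (fun n : ℕ =>
          (sSup {x : ℝ | ∃ w : Sym2 (Fin n) → ℕ,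
              (∀ S : Finset (Fin n), S.card = s →
                ∑ e ∈ S.sym2.filter (fun e => ¬ e.IsDiag), w e ≤
                  a * s.choose 2 +
                    ((Finset.univ : Finset (Fin s × Fin s)).filter
                      (fun p => p.1 < p.2 ∧ p.1.val % r ≠ p.2.val % r)).card + k) ∧
              x = ∏ e ∈ (Finset.univ : Finset (Sym2 (Fin n))).filter (fun e => ¬ e.IsDiag),
                    (w e : ℝ)}) ^ ((1 : ℝ) / (n.choose 2 : ℝ)))
        Filter.atTop
        (nhds ((a : ℝ) ^ ((1 : ℝ) / r) * ((a : ℝ) + 1) ^ (((r : ℝ) - 1) / r))) := by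
  intro r a s hr hs k hk
  have h := Pool.Agent.H120Z.MG.main r a s hr hs k hk
  rw [← Pool.Agent.H120Z.MG.cardT r hr s] at h
  exact h

end Pool.Agent.S12323
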