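import Pool.Statements.S12360
import Pool.Agent.H50Z.Per.Main

set_option autoImplicit false
open Pool Pool.MP_f17f26_co

namespace Pool.Agent.S12360

/-- The negation of the preceding statement: Every connected infinite 4-regular vertex-transitive graph has a spanning 2-regular subgraph H whose stabilizer in the automorphism group of the graph has only finitely many orbits on vertices. -/
theorem result :
    ¬ (∀ (V : Type) (G : SimpleGraph V), Infinite V → G.Connected →
      (∀ v : V, (G.neighborSet v).ncard = 4) →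
      (∀ u v : V, ∃ φ : G ≃g G, φ u = v) →
      ∃ H : SimpleGraph V, H ≤ G ∧ (∀ v : V, (H.neighborSet v).ncard = 2) ∧
        ∃ S : Finset V, ∀ v : V, ∃ s ∈ S, ∃ φ : G ≃g G,
          (∀ x y : V, H.Adj (φ x) (φ y) ↔ H.Adj x y) ∧ φ s = v) := by
  intro h
  obtain ⟨H, hH, h2, S, hS⟩ := h Pool.Agent.H50Z.Per.VV Pool.Agent.H50Z.Per.GG
    Pool.Agent.H50Z.Per.inf Pool.Agent.H50Z.Per.conn Pool.Agent.H50Z.Per.deg
    Pool.Agent.H50Z.Per.trans
  exact Pool.Agent.H50Z.Per.main H hH h2 S hS

end Pool.Agent.S12360
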