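import Pool.Statements.S12369
import Pool.Agent.H708Z.GSStable

set_option autoImplicit false
open Pool Pool.MP_f210e3_co

namespace Pool.Agent.S12369

/-- For every d ≥ 1, tree T and k, there is c such that any finite family of distinct d-spheres in R^(d+1) whose orthogonality graph has no induced T and no K_k has that graph c-colourable. -/
theorem result :
    ∀ d : ℕ, 1 ≤ d →
      ∀ m : ℕ, ∀ T : SimpleGraph (Fin m), T.IsTree →
        ∀ k : ℕ, ∃ c : ℕ,
          ∀ n : ℕ, ∀ S : Fin n → EuclideanSpace ℝ (Fin (d + 1)) × ℝ,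
            Function.Injective S →
            (∀ i, 0 < (S i).2) →
            ¬ Nonempty (T ↪g SimpleGraph.fromRel
                (fun i j : Fin n => dist (S i).1 (S j).1 ^ 2 = (S i).2 ^ 2 + (S j).2 ^ 2)) →
            (SimpleGraph.fromRel
                (fun i j : Fin n => dist (S i).1 (S j).1 ^ 2 = (S i).2 ^ 2 + (S j).2 ^ 2)).CliqueFree k →
            (SimpleGraph.fromRel
                (fun i j : Fin n => dist (S i).1 (S j).1 ^ 2 = (S i).2 ^ 2 + (S j).2 ^ 2)).Colorable c := by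
  intro d _ m T hT k
  have hst : Pool.Agent.H708Z.GS.Stable (fun x y : EuclideanSpace ℝ (Fin (d + 1)) × ℝ =>
      dist x.1 y.1 ^ 2 = x.2 ^ 2 + y.2 ^ 2) := by
    have h1 : Pool.Agent.H708Z.GS.FinRank (fun x y : EuclideanSpace ℝ (Fin (d + 1)) × ℝ =>
        (∑ i, (x.1 i - y.1 i) * (x.1 i - y.1 i)) - (x.2 ^ 2 + y.2 ^ 2)) := by
      refine Pool.Agent.H708Z.GS.FinRank.sub (Pool.Agent.H708Z.GS.FinRank.sum _ (fun i => ?_))
        ((Pool.Agent.H708Z.GS.FinRank.left _).add (Pool.Agent.H708Z.GS.FinRank.right _))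
      have h2 : Pool.Agent.H708Z.GS.FinRank (fun x y : EuclideanSpace ℝ (Fin (d + 1)) × ℝ =>
          x.1 i - y.1 i) :=
        (Pool.Agent.H708Z.GS.FinRank.left _).sub (Pool.Agent.H708Z.GS.FinRank.right _)
      exact h2.mul h2
    refine h1.stable.congr (fun x y => ?_)
    rw [EuclideanSpace.dist_eq, Real.sq_sqrt (Finset.sum_nonneg fun i _ => sq_nonneg _), sub_eq_zero]
    simp only [Real.dist_eq, sq]
    simp only [abs_mul_abs_self]
  obtain ⟨c, hc⟩ := Pool.Agent.H708Z.GS.gs_of_stable hst hT.isAcyclic k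
  refine ⟨c, fun n S _ _ h1 h2 => hc _ _ S (fun v w hvw => ?_) h1 h2⟩
  rw [SimpleGraph.fromRel_adj]
  constructor
  · rintro ⟨-, h | h⟩
    · exact h
    · rw [dist_comm, h, add_comm]
  · exact fun h => ⟨hvw, Or.inl h⟩

end Pool.Agent.S12369
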