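import Pool.Statements.S12427
import Pool.Agent.H475Z.Ap.Main

set_option autoImplicit false
open Pool Pool.MP_f59cb1_co

namespace Pool.Agent.S12427

/-- With A_n(q) = sum over k ≤ n of C(n,k)^2 C(n+k,k) q^k, for every n ≥ 1 every coefficient of A_{n+1}(q)A_{n-1}(q) − A_n(q)^2 is nonnegative (q-log-convexity). -/
theorem result :
    ∀ A : ℕ → Polynomial ℤ,
      (∀ n : ℕ, A n = ∑ k ∈ Finset.range (n + 1),
          Polynomial.monomial k (((n.choose k : ℤ)) ^ 2 * ((n + k).choose k : ℤ))) →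
      ∀ n i : ℕ, 0 ≤ (A (n + 2) * A n - A (n + 1) ^ 2).coeff i := by
  exact fun A hA n i => Pool.Agent.H475Z.Ap.main A hA n i

end Pool.Agent.S12427
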