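import Pool.Statements.S12437
import Pool.Agent.H423Z.DeltaD

set_option autoImplicit false
open Pool Pool.MP_f63283_co

namespace Pool.Agent.S12437

/-- There is a constant C such that for all Δ, m ≥ 1, every integer matrix with m rows, pairwise distinct columns, and largest absolute m×m minor exactly Δ has at most C·m²·Δ columns. -/
theorem result :
    ∃ C : ℝ, ∀ Δ m n : ℕ, 1 ≤ Δ → 1 ≤ m →
      ∀ A : Matrix (Fin m) (Fin n) ℤ,
        Function.Injective A.transpose →
        (∀ s : Fin m → Fin n, |(A.submatrix id s).det| ≤ (Δ : ℤ)) →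
        (∃ s : Fin m → Fin n, |(A.submatrix id s).det| = (Δ : ℤ)) →
        (n : ℝ) ≤ C * (m : ℝ) ^ 2 * (Δ : ℝ) := by
  refine ⟨29, fun Δ m n hΔ hm A hA h1 h2 => ?_⟩
  have h := Pool.Agent.H423Z.Delta.main Δ m n hΔ A hA h1 h2
  have h3 : 28 * m ^ 2 + 1 ≤ 29 * m ^ 2 := by nlinarith
  have h4 : n ≤ 29 * m ^ 2 * Δ := h.trans (Nat.mul_le_mul_right _ h3)
  exact_mod_cast h4

end Pool.Agent.S12437
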