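import Pool.Statements.S12466
-- import your own Pool.Agent.* helpers here

set_option autoImplicit false
open Pool Pool.MP_f7a12b_co

namespace Pool.Agent.S12466

/-- Vertices: words of length at most `N * N` over `Fin N` (a complete `N`-ary tree). -/
abbrev Vx (N : ℕ) : Type := {l : List (Fin N) // l.length ≤ N * N}

instance (N : ℕ) : Finite (Vx N) :=
  (List.finite_length_le (Fin N) (N * N)).to_subtype

/-- An inner vertex points to its children; the leaf `a :: t` points to its ancestors whose depth
lies in the block `[a N, a N + N)`. -/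
def adj (N : ℕ) (l w : Vx N) : Prop :=
  (l.1.length < N * N ∧ ∃ a : Fin N, w.1 = a :: l.1) ∨
  (l.1.length = N * N ∧ ∃ (a : Fin N) (t : List (Fin N)), l.1 = a :: t ∧ w.1 <:+ t ∧
    (a : ℕ) * N ≤ w.1.length ∧ w.1.length < (a : ℕ) * N + N)

lemma adj_irrefl (N : ℕ) (v : Vx N) : ¬ adj N v v := by
  rintro (⟨-, a, h⟩ | ⟨-, a, t, h1, h2, -⟩)
  · have := congrArg List.length h
    simp at this
  · have h3 := h2.length_le
    have := congrArg List.length h1
    simp at this
    omega

lemma outdeg (N : ℕ) (hN : 0 < N) (v : Vx N) : N ≤ {w : Vx N | adj N v w}.ncard := by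
  rcases lt_or_eq_of_le v.2 with h | h
  · have key := Set.ncard_le_ncard_of_injOn (s := (Set.univ : Set (Fin N)))
      (t := {w : Vx N | adj N v w})
      (fun a : Fin N => (⟨a :: v.1, by simp; omega⟩ : Vx N))
      (fun a _ => Or.inl ⟨h, a, rfl⟩)
      (fun a _ b _ hab => by
        have := congrArg Subtype.val hab
        simpa using this) (Set.toFinite _)
    simpa [Set.ncard_univ] using key
  · obtain ⟨l, hl⟩ := v
    have hpos : 0 < N * N := Nat.mul_pos hN hN
    cases l with
    | nil => simp at h; omega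
    | cons a t =>
      simp only [List.length_cons] at h hl
      have ha : (a : ℕ) * N + N ≤ N * N := by
        have := a.2
        calc (a : ℕ) * N + N = ((a : ℕ) + 1) * N := by ring
          _ ≤ N * N := Nat.mul_le_mul_right _ this
      have key := Set.ncard_le_ncard_of_injOn (s := (Set.univ : Set (Fin N)))
        (t := {w : Vx N | adj N ⟨a :: t, by simpa using hl⟩ w})
        (fun j : Fin N => (⟨t.drop (t.length - ((a : ℕ) * N + j)), by
          simp only [List.length_drop]; omega⟩ : Vx N))
        (fun j _ => Or.inr ⟨by simpa using h, a, t, rfl, List.drop_suffix _ _, by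
          have := j.2
          simp only [List.length_drop]; omega, by
          have := j.2
          simp only [List.length_drop]; omega⟩)
        (fun i _ j _ hij => by
          have h1 := congrArg (fun w : Vx N => w.1.length) hij
          simp only [List.length_drop] at h1
          have := i.2
          have := j.2
          apply Fin.ext
          omega) (Set.toFinite _)
      simpa [Set.ncard_univ] using key

lemma no_set (N : ℕ) (X : Set (Vx N)) (hX : X ≠ Set.univ)
    (h1 : ∀ y, y ∉ X → ∃ x ∈ X, adj N y x)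
    (h2 : ∀ v, v ∉ X → 2 ≤ {w : Vx N | w ∉ X ∧ adj N v w}.ncard) : False := by
  have two : ∀ v, v ∉ X → ∃ w w', w ≠ w' ∧ (w ∉ X ∧ adj N v w) ∧ (w' ∉ X ∧ adj N v w') := by
    intro v hv
    obtain ⟨w, w', hw, hw', hne⟩ := (Set.one_lt_ncard (Set.toFinite _)).1 (h2 v hv) |>.imp
      fun w hw => by
        obtain ⟨h, w', h', hne⟩ := hw
        exact (⟨w', h, h', hne⟩ : ∃ w', w ∈ {w : Vx N | w ∉ X ∧ adj N v w} ∧
          w' ∈ {w : Vx N | w ∉ X ∧ adj N v w} ∧ w ≠ w')
    exact ⟨w, w', hne, hw, hw'⟩
  have hne : ∃ r : Vx N, r ∉ X := by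
    by_contra hcon
    push Not at hcon
    exact hX (Set.eq_univ_of_forall hcon)
  obtain ⟨r, hr, hmin⟩ : ∃ r : Vx N, r ∉ X ∧ ∀ w : Vx N, w ∉ X → r.1.length ≤ w.1.length := by
    obtain ⟨r, hr, hmin⟩ := (measure fun w : Vx N => w.1.length).wf.has_min {w | w ∉ X} hne
    exact ⟨r, hr, fun w hw => not_lt.1 (hmin w hw)⟩
  have hrlt : r.1.length < N * N := by
    obtain ⟨w, -, -, ⟨hw, hadj⟩, -⟩ := two r hr
    rcases hadj with ⟨h, -⟩ | ⟨-, a, t, e1, e2, -⟩
    · exact h
    · have := hmin w hw
      have h3 := e2.length_le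
      have := congrArg List.length e1
      simp at this
      omega
  have step : ∀ m : ℕ, r.1.length + m < N * N → ∃ v : Vx N, v.1.length = r.1.length + m ∧
      ∀ w : Vx N, w.1 <:+ v.1 → r.1.length ≤ w.1.length → w ∉ X := by
    intro m
    induction m with
    | zero =>
      intro _
      refine ⟨r, rfl, fun w hw hl => ?_⟩
      have : w = r := Subtype.ext (hw.eq_of_length_le hl)
      rw [this]; exact hr
    | succ m ih =>
      intro hm
      obtain ⟨v, hv1, hv2⟩ := ih (by omega)
      have hv : v ∉ X := hv2 v (List.suffix_refl _) (by omega)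
      obtain ⟨c, -, -, ⟨hc, hadj⟩, -⟩ := two v hv
      rcases hadj with ⟨-, a, e⟩ | ⟨h, -⟩
      · refine ⟨c, by rw [e]; simp; omega, fun w hw hl => ?_⟩
        rw [e, List.suffix_cons_iff] at hw
        rcases hw with hw | hw
        · have : w = c := Subtype.ext (by rw [hw, e])
          rw [this]; exact hc
        · exact hv2 w hw hl
      · omega
  obtain ⟨v, hv1, hv2⟩ := step (N * N - 1 - r.1.length) (by omega)
  have hv : v ∉ X := hv2 v (List.suffix_refl _) (by omega)
  have leaf : ∀ (c : Vx N) (a : Fin N), c ∉ X → c.1 = a :: v.1 →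
      (a : ℕ) * N < r.1.length ∧ r.1.length < (a : ℕ) * N + N := by
    intro c a hc e
    have hlen : c.1.length = N * N := by rw [e]; simp; omega
    constructor
    · obtain ⟨x, hx, hadj⟩ := h1 c hc
      rcases hadj with ⟨h, -⟩ | ⟨-, b, t, e1, e2, e3, -⟩
      · omega
      · rw [e] at e1
        obtain ⟨rfl, rfl⟩ := List.cons.inj e1
        by_contra hcon
        exact hv2 x e2 (by omega) hx
    · obtain ⟨x, -, -, ⟨hx, hadj⟩, -⟩ := two c hc
      rcases hadj with ⟨h, -⟩ | ⟨-, b, t, e1, e2, -, e3⟩
      · omega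
      · rw [e] at e1
        obtain ⟨rfl, rfl⟩ := List.cons.inj e1
        have := hmin x hx
        omega
  obtain ⟨c, c', hcc, ⟨hc, hadj⟩, ⟨hc', hadj'⟩⟩ := two v hv
  rcases hadj with ⟨-, a, e⟩ | ⟨h, -⟩
  · rcases hadj' with ⟨-, b, e'⟩ | ⟨h, -⟩
    · obtain ⟨p1, p2⟩ := leaf c a hc e
      obtain ⟨q1, q2⟩ := leaf c' b hc' e'
      have hab : (a : ℕ) = b := by
        rcases lt_trichotomy (a : ℕ) b with h | h | h
        · have : ((a : ℕ) + 1) * N ≤ b * N := Nat.mul_le_mul_right _ h
          have e3 : ((a : ℕ) + 1) * N = a * N + N := by ring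
          omega
        · exact h
        · have : ((b : ℕ) + 1) * N ≤ a * N := Nat.mul_le_mul_right _ h
          have e3 : ((b : ℕ) + 1) * N = b * N + N := by ring
          omega
      apply hcc
      apply Subtype.ext
      rw [e, e', Fin.ext hab]
    · omega
  · omega

/-- The negation of the preceding statement: There is f such that for every k ≥ 1, every finite nonempty loopless digraph with minimum out-degree ≥ f(k) has a proper vertex subset X, with every vertex outside X having an out-neighbour in X, such that the digraph with X deleted has minimum out-degree ≥ k. -/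
theorem result :
    ¬ (∃ f : ℕ → ℕ, ∀ k : ℕ, 1 ≤ k →
      ∀ (V : Type) [Fintype V] [Nonempty V] (D : Digraph V),
        (∀ v, ¬ D.Adj v v) →
        (∀ v, f k ≤ {w : V | D.Adj v w}.ncard) →
        ∃ X : Set V, X ≠ Set.univ ∧
          (∀ y, y ∉ X → ∃ x ∈ X, D.Adj y x) ∧
          (∀ v, v ∉ X → k ≤ {w : V | w ∉ X ∧ D.Adj v w}.ncard)) := by
  rintro ⟨f, hf⟩
  letI : Fintype (Vx (f 2 + 1)) := Fintype.ofFinite _
  haveI : Nonempty (Vx (f 2 + 1)) := ⟨⟨[], by simp⟩⟩
  obtain ⟨X, h0, h1, h2⟩ := hf 2 (by norm_num) (Vx (f 2 + 1)) ⟨adj (f 2 + 1)⟩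
    (adj_irrefl _) (fun v => le_trans (Nat.le_succ _) (outdeg _ (Nat.succ_pos _) v))
  exact no_set _ X h0 h1 h2

end Pool.Agent.S12466
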