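import Pool.Statements.S12485
import Pool.Agent.H492Z.RecFun

set_option autoImplicit false
open Pool Pool.MP_f8a456_co

namespace Pool.Agent.S12485

/-- For every uniformly recurrent, not eventually periodic infinite word, R(n)/n has no finite limit, where R(n) is the least m such that every length-m window contains all length-n factors. -/
theorem result :
    ∀ (x : ℕ → ℕ),
      (∀ n : ℕ, ∃ m : ℕ, ∀ p i : ℕ, ∃ q : ℕ,
          p ≤ q ∧ q + n ≤ p + m ∧ ∀ j < n, x (q + j) = x (i + j)) →
      (¬ ∃ P N : ℕ, 0 < P ∧ ∀ i ≥ N, x (i + P) = x i) →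
      ¬ ∃ L : ℝ, Filter.Tendsto
          (fun n : ℕ =>
            (((sInf {m : ℕ | ∀ p i : ℕ, ∃ q : ℕ,
                p ≤ q ∧ q + n ≤ p + m ∧ ∀ j < n, x (q + j) = x (i + j)} : ℕ) : ℝ)) / (n : ℝ))
          Filter.atTop (nhds L) := by
  intro x hU hA
  exact Pool.Agent.H492Z.RecFun.main (x := x) hU hA

end Pool.Agent.S12485
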