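import Pool.Statements.S12504

set_option autoImplicit false
open Pool Pool.MP_f90e5e_co

namespace Pool.Agent.S12504

/-- Two Wagner graphs on `0..7` and `8..15`; `f 0`, `f 1` alternate along the two 8-cycles and
`f 2` joins antipodal vertices. -/
def f : Fin 3 → Fin 16 → Fin 16 :=
  ![![1,0,3,2,5,4,7,6,9,8,11,10,13,12,15,14],
    ![7,2,1,4,3,6,5,0,15,10,9,12,11,14,13,8],
    ![4,5,6,7,0,1,2,3,12,13,14,15,8,9,10,11]]

/-- One end of each edge of the `i`-th matching. -/
def r : Fin 3 → Fin 8 → Fin 16 :=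
  ![![0,2,4,6,8,10,12,14], ![1,3,5,7,9,11,13,15], ![0,1,2,3,8,9,10,11]]

theorem f_inv : ∀ i x, f i (f i x) = x := by decide
theorem f_ne : ∀ i x, x ≠ f i x := by decide
theorem f_ne' : ∀ i j x, i ≠ j → f i x ≠ f j x := by decide
theorem r_cov : ∀ i x, ∃ k, x = r i k ∨ x = f i (r i k) := by decide
theorem r_inj : ∀ i k l, (r i k = r i l ∨ r i k = f i (r i l)) → k = l := by decide

def MM (i : Fin 3) : (⊤ : SimpleGraph (Fin 16)).Subgraph where
  verts := Set.univ
  Adj x y := y = f i x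
  adj_sub := by
    intro x y h
    subst h
    exact f_ne i x
  edge_vert := fun _ => Set.mem_univ _
  symm := ⟨by
    intro x y h
    subst h
    exact (f_inv i x).symm⟩

def GG : SimpleGraph (Fin 16) where
  Adj x y := y = f 0 x ∨ y = f 1 x ∨ y = f 2 x
  symm := ⟨by
    intro x y h
    rcases h with h | h | h <;> subst h <;> simp [f_inv]⟩
  loopless := ⟨by
    intro x h
    rcases h with h | h | h <;> exact f_ne _ x h⟩

def ed (i : Fin 3) (k : Fin 8) : Sym2 (Fin 16) := s(r i k, f i (r i k))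

theorem ed_inj (i : Fin 3) : Function.Injective (ed i) := by
  intro k l h
  unfold ed at h
  rw [Sym2.eq_iff] at h
  apply r_inj i k l
  rcases h with h | h
  · exact Or.inl h.1
  · exact Or.inr h.1

theorem MM_pm (i : Fin 3) : (MM i).IsPerfectMatching := by
  refine ⟨?_, fun v => Set.mem_univ v⟩
  intro v _
  exact ⟨f i v, rfl, fun y hy => hy⟩

theorem MM_edge (i : Fin 3) : (MM i).edgeSet = Set.range (ed i) := by
  ext e
  induction e using Sym2.ind with
  | _ x y =>
    rw [SimpleGraph.Subgraph.mem_edgeSet]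
    constructor
    · intro h
      have h' : y = f i x := h
      subst h'
      obtain ⟨k, hk | hk⟩ := r_cov i x
      · exact ⟨k, by rw [hk]; rfl⟩
      · refine ⟨k, ?_⟩
        rw [hk, f_inv]
        exact Sym2.eq_swap
    · rintro ⟨k, hk⟩
      unfold ed at hk
      rw [Sym2.eq_iff] at hk
      rcases hk with ⟨h1, h2⟩ | ⟨h1, h2⟩
      · subst h1; exact h2.symm
      · subst h1; subst h2; exact (f_inv i _).symm

theorem MM_disj (i j : Fin 3) (h : i ≠ j) : Disjoint (MM i).edgeSet (MM j).edgeSet := by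
  rw [Set.disjoint_left]
  intro e
  induction e using Sym2.ind with
  | _ x y =>
    rw [SimpleGraph.Subgraph.mem_edgeSet, SimpleGraph.Subgraph.mem_edgeSet]
    intro h1 h2
    have h1' : y = f i x := h1
    have h2' : y = f j x := h2
    exact f_ne' i j x h (h1'.symm.trans h2')

open Classical in
theorem ncard_eq (S : Set (Sym2 (Fin 16))) (i : Fin 3) :
    (S ∩ (MM i).edgeSet).ncard = ∑ k : Fin 8, (decide (ed i k ∈ S)).toNat := by
  have h : S ∩ (MM i).edgeSet = ed i '' ↑(Finset.univ.filter (fun k => ed i k ∈ S)) := by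
    rw [MM_edge]
    ext e
    simp only [Set.mem_inter_iff, Set.mem_range, Finset.coe_filter, Finset.mem_univ, true_and,
      Set.mem_image, Set.mem_ofPred_eq]
    constructor
    · rintro ⟨h1, k, rfl⟩
      exact ⟨k, h1, rfl⟩
    · rintro ⟨k, h1, rfl⟩
      exact ⟨h1, k, rfl⟩
  rw [h, Set.ncard_image_of_injective _ (ed_inj i), Set.ncard_coe_finset, Finset.card_filter]
  refine Finset.sum_congr rfl fun k _ => ?_
  by_cases hk : ed i k ∈ S <;> simp [hk]

set_option synthInstance.maxSize 4000 in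
theorem wagner : ∀ a0 a1 a2 a3 b0 b1 b2 b3 c0 c1 c2 c3 : Bool,
    (!(a0 && b3) && !(a0 && c0) && !(b3 && c0)) = true →
    (!(a0 && b0) && !(a0 && c1) && !(b0 && c1)) = true →
    (!(a1 && b0) && !(a1 && c2) && !(b0 && c2)) = true →
    (!(a1 && b1) && !(a1 && c3) && !(b1 && c3)) = true →
    (!(a2 && b1) && !(a2 && c0) && !(b1 && c0)) = true →
    (!(a2 && b2) && !(a2 && c1) && !(b2 && c1)) = true →
    (!(a3 && b2) && !(a3 && c2) && !(b2 && c2)) = true →
    (!(a3 && b3) && !(a3 && c3) && !(b3 && c3)) = true →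
    (a0.toNat + a1.toNat + a2.toNat + a3.toNat + (b0.toNat + b1.toNat + b2.toNat + b3.toNat)
        + (c0.toNat + c1.toNat + c2.toNat + c3.toNat) ≤ 3 ∨
      4 ≤ a0.toNat + a1.toNat + a2.toNat + a3.toNat ∨
      4 ≤ b0.toNat + b1.toNat + b2.toNat + b3.toNat ∨
      2 ≤ c0.toNat + c1.toNat + c2.toNat + c3.toNat) := by
  decide +kernel

theorem share (M : GG.Subgraph) (hM : M.IsMatching) (i j : Fin 3) (hij : i ≠ j) (k l : Fin 8)
    (h : ∃ x, (x = r i k ∨ x = f i (r i k)) ∧ (x = r j l ∨ x = f j (r j l))) :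
    ¬ (ed i k ∈ M.edgeSet ∧ ed j l ∈ M.edgeSet) := by
  rintro ⟨h1, h2⟩
  obtain ⟨x, hx1, hx2⟩ := h
  have key : ∀ (i : Fin 3) (k : Fin 8), (x = r i k ∨ x = f i (r i k)) → ed i k ∈ M.edgeSet →
      M.Adj x (f i x) := by
    intro i k hx he
    unfold ed at he
    rw [SimpleGraph.Subgraph.mem_edgeSet] at he
    rcases hx with hx | hx
    · rw [hx]; exact he
    · rw [hx, f_inv]; exact he.symm
  have a1 := key i k hx1 h1
  have a2 := key j l hx2 h2
  obtain ⟨w, _, hw⟩ := hM (M.edge_vert a1)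
  exact f_ne' i j x hij ((hw _ a1).trans (hw _ a2).symm)

open Classical in
theorem vert (M : GG.Subgraph) (hM : M.IsMatching) (x : Fin 16) (k l m : Fin 8)
    (h0 : x = r 0 k ∨ x = f 0 (r 0 k)) (h1 : x = r 1 l ∨ x = f 1 (r 1 l))
    (h2 : x = r 2 m ∨ x = f 2 (r 2 m)) :
    (!(decide (ed 0 k ∈ M.edgeSet) && decide (ed 1 l ∈ M.edgeSet)) &&
      !(decide (ed 0 k ∈ M.edgeSet) && decide (ed 2 m ∈ M.edgeSet)) &&
      !(decide (ed 1 l ∈ M.edgeSet) && decide (ed 2 m ∈ M.edgeSet))) = true := by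
  have s1 := share M hM 0 1 (by decide) k l ⟨x, h0, h1⟩
  have s2 := share M hM 0 2 (by decide) k m ⟨x, h0, h2⟩
  have s3 := share M hM 1 2 (by decide) l m ⟨x, h1, h2⟩
  by_cases p : ed 0 k ∈ M.edgeSet <;> by_cases q : ed 1 l ∈ M.edgeSet <;>
    by_cases t : ed 2 m ∈ M.edgeSet <;> simp_all

/-- The negation of the preceding statement: If a graph on 2n vertices is the union of three edge-disjoint perfect matchings and has a component not isomorphic to K4, then for all a1+a2+a3=n-1 it has a matching using exactly ai edges from the i-th matching. -/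
theorem result :
    ¬ (∀ (V : Type) [Fintype V] (n : ℕ), Fintype.card V = 2 * n →
    ∀ (M₁ M₂ M₃ : (⊤ : SimpleGraph V).Subgraph),
      M₁.IsPerfectMatching → M₂.IsPerfectMatching → M₃.IsPerfectMatching →
      Disjoint M₁.edgeSet M₂.edgeSet → Disjoint M₁.edgeSet M₃.edgeSet →
      Disjoint M₂.edgeSet M₃.edgeSet →
      ∀ G : SimpleGraph V, G.edgeSet = M₁.edgeSet ∪ M₂.edgeSet ∪ M₃.edgeSet →
      (∃ c : G.ConnectedComponent,
        IsEmpty (G.induce c.supp ≃g (⊤ : SimpleGraph (Fin 4)))) →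
      ∀ a₁ a₂ a₃ : ℕ, a₁ + a₂ + a₃ + 1 = n →
      ∃ M : G.Subgraph, M.IsMatching ∧
        (M.edgeSet ∩ M₁.edgeSet).ncard = a₁ ∧
        (M.edgeSet ∩ M₂.edgeSet).ncard = a₂ ∧
        (M.edgeSet ∩ M₃.edgeSet).ncard = a₃) := by
  intro H
  have hG : GG.edgeSet = (MM 0).edgeSet ∪ (MM 1).edgeSet ∪ (MM 2).edgeSet := by
    ext e
    induction e using Sym2.ind with
    | _ x y =>
      simp only [Set.mem_union, SimpleGraph.Subgraph.mem_edgeSet, SimpleGraph.mem_edgeSet]
      exact or_assoc.symm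
  have hc : ∃ c : GG.ConnectedComponent,
      IsEmpty (GG.induce c.supp ≃g (⊤ : SimpleGraph (Fin 4))) := by
    refine ⟨GG.connectedComponentMk 0, ⟨fun φ => ?_⟩⟩
    have h01 : GG.Adj 0 1 := Or.inl (by decide)
    have h12 : GG.Adj 1 2 := Or.inr (Or.inl (by decide))
    have m0 : (0 : Fin 16) ∈ (GG.connectedComponentMk 0).supp := rfl
    have m2 : (2 : Fin 16) ∈ (GG.connectedComponentMk 0).supp := by
      rw [SimpleGraph.ConnectedComponent.mem_supp_iff, SimpleGraph.ConnectedComponent.eq]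
      exact (h01.reachable.trans h12.reachable).symm
    have hne : φ ⟨0, m0⟩ ≠ φ ⟨2, m2⟩ := by
      intro h
      have := φ.injective h
      simp at this
    have hadj : (GG.induce (GG.connectedComponentMk 0).supp).Adj ⟨0, m0⟩ ⟨2, m2⟩ :=
      φ.map_adj_iff.1 hne
    have h02 : (2 : Fin 16) = f 0 0 ∨ (2 : Fin 16) = f 1 0 ∨ (2 : Fin 16) = f 2 0 := hadj
    revert h02
    decide
  obtain ⟨M, hM, c1, c2, c3⟩ := H (Fin 16) 8 (by simp) (MM 0) (MM 1) (MM 2) (MM_pm 0) (MM_pm 1)
    (MM_pm 2) (MM_disj 0 1 (by decide)) (MM_disj 0 2 (by decide)) (MM_disj 1 2 (by decide))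
    GG hG hc 3 3 1 rfl
  rw [ncard_eq, Fin.sum_univ_eight] at c1 c2 c3
  have w1 := wagner _ _ _ _ _ _ _ _ _ _ _ _
    (vert M hM 0 0 3 0 (by decide) (by decide) (by decide))
    (vert M hM 1 0 0 1 (by decide) (by decide) (by decide))
    (vert M hM 2 1 0 2 (by decide) (by decide) (by decide))
    (vert M hM 3 1 1 3 (by decide) (by decide) (by decide))
    (vert M hM 4 2 1 0 (by decide) (by decide) (by decide))
    (vert M hM 5 2 2 1 (by decide) (by decide) (by decide))
    (vert M hM 6 3 2 2 (by decide) (by decide) (by decide))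
    (vert M hM 7 3 3 3 (by decide) (by decide) (by decide))
  have w2 := wagner _ _ _ _ _ _ _ _ _ _ _ _
    (vert M hM 8 4 7 4 (by decide) (by decide) (by decide))
    (vert M hM 9 4 4 5 (by decide) (by decide) (by decide))
    (vert M hM 10 5 4 6 (by decide) (by decide) (by decide))
    (vert M hM 11 5 5 7 (by decide) (by decide) (by decide))
    (vert M hM 12 6 5 4 (by decide) (by decide) (by decide))
    (vert M hM 13 6 6 5 (by decide) (by decide) (by decide))
    (vert M hM 14 7 6 6 (by decide) (by decide) (by decide))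
    (vert M hM 15 7 7 7 (by decide) (by decide) (by decide))
  omega

end Pool.Agent.S12504
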