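import Pool.Statements.S12588
import Pool.Agent.H719Z.FKW.Main

set_option autoImplicit false
open Pool Pool.MP_fc94d9_co

namespace Pool.Agent.S12588

/-- The negation of the preceding statement: There is a colouring of the Euclidean plane with finitely many colours such that any two points at distance 2^n, for some natural number n, receive different colours. -/
theorem result :
    ¬ (∃ k : ℕ, ∃ c : EuclideanSpace ℝ (Fin 2) → Fin k,
      ∀ x y : EuclideanSpace ℝ (Fin 2), ∀ n : ℕ,
        dist x y = (2 : ℝ) ^ n → c x ≠ c y) := by
  rintro ⟨k, c, hc⟩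
  have h1 : Filter.Tendsto (fun n : ℕ => (2 : ℝ) ^ n) Filter.atTop Filter.atTop :=
    tendsto_pow_atTop_atTop_of_one_lt one_lt_two
  obtain ⟨n, x, y, hxy, hcol⟩ := (h1.eventually (Pool.Agent.H719Z.FKW.main_plane c)).exists
  exact hc x y n hxy hcol

end Pool.Agent.S12588
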