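import Pool.Statements.S12628
import Pool.Agent.H347Z.ExpGraph

set_option autoImplicit false
open Pool Pool.MP_fe5fab_co

namespace Pool.Agent.S12628

/-- The negation of the preceding statement: For every finite graph G in which every nonempty vertex set has a vertex with at most 2 neighbours inside it, some constant C bounds the size of every 3-uniform hypergraph on n vertices with no copy of the expansion of G by C·n². -/
theorem result :
    ¬ (∀ (V : Type) [Finite V] (G : SimpleGraph V),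
      (∀ S : Set V, S.Nonempty →
        ∃ v ∈ S, ({w : V | w ∈ S ∧ G.Adj v w} : Set V).ncard ≤ 2) →
      ∃ C : ℝ, ∀ n : ℕ, ∀ H : Finset (Finset (Fin n)),
        (∀ e ∈ H, e.card = 3) →
        (¬ ∃ f : V → Fin n, ∃ g : V → V → Fin n,
            Function.Injective f ∧
            (∀ u v : V, G.Adj u v → g u v = g v u) ∧
            (∀ u v u' v' : V, G.Adj u v → G.Adj u' v' → g u v = g u' v' →
              ((u = u' ∧ v = v') ∨ (u = v' ∧ v = u'))) ∧
            (∀ u v : V, G.Adj u v →
              (∀ w : V, g u v ≠ f w) ∧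
              ({f u, f v, g u v} : Finset (Fin n)) ∈ H)) →
        (H.card : ℝ) ≤ C * (n : ℝ) ^ 2) := by
  intro h
  obtain ⟨k, hk⟩ : ∃ k : ℕ, k = 1000000 := ⟨_, rfl⟩
  obtain ⟨C, hC⟩ := h (Pool.Agent.H347Z.Exp.VG k) (Pool.Agent.H347Z.Exp.GG k)
    (Pool.Agent.H347Z.Exp.degenerate k)
  obtain ⟨s, N, hs, hN, h1, h2⟩ :=
    Pool.Agent.H347Z.Exp.exists_params (9 * |C| + 10) (by positivity)
  obtain ⟨ω, hω, hT⟩ := Pool.Agent.H347Z.Exp.exists_good k s N hN |C| (abs_nonneg C) h2
  have h3 := hC (3 * N) (Pool.Agent.H347Z.Exp.hyp ω) (Pool.Agent.H347Z.Exp.hyp_card3 ω) ?_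
  · rw [Pool.Agent.H347Z.Exp.hyp_card] at h3
    push_cast at h3
    have h4 := mul_le_mul_of_nonneg_right (le_abs_self C) (sq_nonneg (3 * (N : ℝ)))
    linarith
  · rintro ⟨f, g, hf, -, -, hg⟩
    refine Pool.Agent.H347Z.Exp.noCopy hk (m := 40 * s) (by omega) ω (by simpa using h1) hω
      (fun v => finProdFinEquiv.symm (f v)) (finProdFinEquiv.symm.injective.comp hf) ?_
    intro u v huv
    exact Pool.Agent.H347Z.Exp.hyp_edge ω (f u) (f v) (g u v) (fun e => huv.ne (hf e))
      (hg u v huv).2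

end Pool.Agent.S12628
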