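import Pool.Statements.S12632
import Pool.Agent.H233Z.Terao.Main

set_option autoImplicit false
open Pool Pool.MP_feb289_co

namespace Pool.Agent.S12632

/-- The negation of the preceding statement: For any field K and any two central arrangements of distinct hyperplanes in K^l whose intersection lattices are order-isomorphic, if the module of logarithmic derivations of the first is free over K[x_1..x_l], so is that of the second. -/
theorem result :
    ¬ (∀ (K : Type) [Field K] (l n m : ℕ) (A : Matrix (Fin n) (Fin l) K)
      (B : Matrix (Fin m) (Fin l) K),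
      (∀ i j : Fin n, i ≠ j → ∀ c : K, A i ≠ c • A j) → (∀ i : Fin n, A i ≠ 0) →
      (∀ i j : Fin m, i ≠ j → ∀ c : K, B i ≠ c • B j) → (∀ i : Fin m, B i ≠ 0) →
      Nonempty
        (↥(Set.range (fun s : Finset (Fin n) =>
            ⨅ i ∈ s, LinearMap.ker ((LinearMap.proj i : (Fin n → K) →ₗ[K] K).comp
              (Matrix.mulVecLin A))))
          ≃o
         ↥(Set.range (fun s : Finset (Fin m) =>
            ⨅ i ∈ s, LinearMap.ker ((LinearMap.proj i : (Fin m → K) →ₗ[K] K).comp
              (Matrix.mulVecLin B))))) →
      Module.Free (MvPolynomial (Fin l) K)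
        ↥(Submodule.comap (Matrix.mulVecLin (A.map MvPolynomial.C))
          (Submodule.pi Set.univ (fun i : Fin n =>
            (Ideal.span {(Matrix.mulVec (A.map MvPolynomial.C)
                (fun j => (MvPolynomial.X j : MvPolynomial (Fin l) K))) i} :
              Submodule (MvPolynomial (Fin l) K) (MvPolynomial (Fin l) K))))) →
      Module.Free (MvPolynomial (Fin l) K)
        ↥(Submodule.comap (Matrix.mulVecLin (B.map MvPolynomial.C))
          (Submodule.pi Set.univ (fun i : Fin m =>
            (Ideal.span {(Matrix.mulVec (B.map MvPolynomial.C)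
                (fun j => (MvPolynomial.X j : MvPolynomial (Fin l) K))) i} :
              Submodule (MvPolynomial (Fin l) K) (MvPolynomial (Fin l) K)))))) := by
  intro h
  open Pool.Agent.H233Z.Terao in
  exact not_freeB _ (mem_log MB) (h KK 3 27 27 MA MB goodA.ne_smul goodA.1 goodB.ne_smul goodB.1
    (latt_iso goodA goodB detAB) (freeA _ (mem_log MA)))

end Pool.Agent.S12632
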