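import Pool.Statements.S12636
import Mathlib

set_option autoImplicit false
open Filter Topology
open Pool Pool.MP_fef54c_co

namespace Pool.Agent.S12636

/-- The set `{0, 1, 3}`, whose difference set is that of `{0, 1, 2, 3}`. -/
def a : Fin 3 → ℤ := ![0, 1, 3]

/-- The counterexample matrix, with rows `(0,0)`, `(0,1)`, `(0,3)`. -/
def M : Matrix (Fin 3) (Fin 2) ℤ := fun i t => a i * (t.val : ℤ)

def c (x : Fin 4) : ℤ := 2 * (x.val : ℤ) - 3

def Y {n : ℕ} (S : Finset (Fin n → Fin 2)) (x : Fin n → Fin 4) (s : S) : ℤ :=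
  ∑ l : Fin n, c (x l) * (((s : Fin n → Fin 2) l).val : ℤ)

lemma transfer {n : ℕ} (S : Finset (Fin n → Fin 2))
    (h : Function.Injective (fun (x : Fin n → Fin 3) (s : S) =>
      ∑ l : Fin n, M (x l) ((s : Fin n → Fin 2) l))) : Function.Injective (Y S) := by
  intro x y hxy
  have key : ∀ x y : Fin 4, ∃ i j : Fin 3, 2 * (a i - a j) = c x - c y := by decide
  choose u v huv using key
  have huv' : (fun l => u (x l) (y l)) = fun l => v (x l) (y l) := by
    apply h
    funext s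
    have h1 := congrFun hxy s
    simp only [Y] at h1
    have h2 : 2 * (∑ l : Fin n, M (u (x l) (y l)) ((s : Fin n → Fin 2) l) -
        ∑ l : Fin n, M (v (x l) (y l)) ((s : Fin n → Fin 2) l)) = 0 := by
      rw [← sub_eq_zero, ← Finset.sum_sub_distrib] at h1
      rw [← h1, ← Finset.sum_sub_distrib, Finset.mul_sum]
      refine Finset.sum_congr rfl fun l _ => ?_
      simp only [M]
      linear_combination (((s : Fin n → Fin 2) l).val : ℤ) * huv (x l) (y l)
    simp only
    omega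
  funext l
  have h3 := huv (x l) (y l)
  rw [congrFun huv' l] at h3
  simp only [c] at h3
  apply Fin.ext
  omega

lemma second_moment (n : ℕ) (b : Fin n → ℤ) :
    ∑ x : Fin n → Fin 4, (∑ l, c (x l) * b l) ^ 2 = 4 ^ n * (5 * ∑ l, b l ^ 2) := by
  induction n with
  | zero => simp
  | succ n ih =>
    rw [← (Fin.consEquiv (fun _ : Fin (n + 1) => Fin 4)).sum_comp, Fintype.sum_prod_type_right]
    simp only [Fin.sum_univ_succ (n := n), Fin.consEquiv_apply, Fin.cons_zero, Fin.cons_succ]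
    have : ∀ x : Fin n → Fin 4, ∑ y : Fin 4, (c y * b 0 + ∑ l, c (x l) * b l.succ) ^ 2
        = 20 * b 0 ^ 2 + 4 * (∑ l, c (x l) * b l.succ) ^ 2 := by
      intro x
      simp only [Fin.sum_univ_four, c]
      norm_num
      ring
    simp only [this]
    rw [Finset.sum_add_distrib, ← Finset.mul_sum, ← Finset.mul_sum, ih]
    simp only [Finset.sum_const, Finset.card_univ, Fintype.card_fun, Fintype.card_fin]
    simp only [nsmul_eq_mul]
    push_cast
    ring

lemma moment_le {n : ℕ} (S : Finset (Fin n → Fin 2)) (s : S) :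
    ∑ x : Fin n → Fin 4, ((Y S x s : ℤ) : ℝ) ^ 2 ≤ 4 ^ n * (5 * n) := by
  have h := second_moment n (fun l => (((s : Fin n → Fin 2) l).val : ℤ))
  have h2 : ∑ l : Fin n, ((((s : Fin n → Fin 2) l).val : ℤ)) ^ 2 ≤ n := by
    have : ∀ t : Fin 2, ((t.val : ℤ)) ^ 2 ≤ 1 := by decide
    calc _ ≤ ∑ _l : Fin n, (1 : ℤ) := Finset.sum_le_sum fun l _ => this _
      _ = n := by simp
  have h3 : ∑ x : Fin n → Fin 4, (Y S x s) ^ 2 ≤ 4 ^ n * (5 * (n : ℤ)) := by
    simp only [Y]
    rw [h]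
    gcongr
  exact_mod_cast h3

lemma Y_mem {n : ℕ} (S : Finset (Fin n → Fin 2)) (x : Fin n → Fin 4) (s : S) :
    Y S x s ∈ Finset.Icc (-(3 * n : ℤ)) (3 * n) := by
  have h : ∀ (x : Fin 4) (t : Fin 2), -3 ≤ c x * (t.val : ℤ) ∧ c x * (t.val : ℤ) ≤ 3 := by decide
  rw [Finset.mem_Icc, Y]
  constructor
  · calc (-(3 * n : ℤ)) = ∑ _l : Fin n, (-3 : ℤ) := by simp; ring
      _ ≤ _ := Finset.sum_le_sum fun l _ => (h _ _).1
  · calc _ ≤ ∑ _l : Fin n, (3 : ℤ) := Finset.sum_le_sum fun l _ => (h _ _).2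
      _ = 3 * n := by simp; ring

lemma weighted {n : ℕ} (S : Finset (Fin n → Fin 2)) (h : Function.Injective (Y S))
    (f : ℤ → ℝ) (hf : ∀ z, 0 ≤ f z) :
    ∑ x : Fin n → Fin 4, ∏ s : S, f (Y S x s) ≤
      (∑ z ∈ Finset.Icc (-(3 * n : ℤ)) (3 * n), f z) ^ S.card := by
  classical
  have h1 : (∑ z ∈ Finset.Icc (-(3 * n : ℤ)) (3 * n), f z) ^ S.card =
      ∑ y ∈ Fintype.piFinset (fun _ : S => Finset.Icc (-(3 * n : ℤ)) (3 * n)), ∏ s, f (y s) := by
    rw [← Finset.prod_univ_sum]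
    simp
  rw [h1, ← Finset.sum_image (s := Finset.univ) (g := Y S) (f := fun y => ∏ s, f (y s))
    (fun x _ y _ hxy => h hxy)]
  refine Finset.sum_le_sum_of_subset_of_nonneg ?_ fun y _ _ => Finset.prod_nonneg fun s _ => hf _
  intro y hy
  obtain ⟨x, -, rfl⟩ := Finset.mem_image.1 hy
  exact Fintype.mem_piFinset.2 fun s => Y_mem S x s

lemma gauss_sum (n k : ℕ) (hk : 0 < k) :
    ∑ z ∈ Finset.Icc (-(3 * n : ℤ)) (3 * n),
      Real.exp (-(Real.log (6 * n + 1) / (k : ℝ) ^ 2) * (z : ℝ) ^ 2) ≤ 2 * k + 2 := by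
  classical
  have hpos : (0 : ℝ) < 6 * n + 1 := by positivity
  have hL : 0 ≤ Real.log (6 * n + 1) := Real.log_nonneg (by have : (0 : ℝ) ≤ n := n.cast_nonneg; linarith)
  have hk' : (0 : ℝ) < (k : ℝ) ^ 2 := by positivity
  have h1 : ∀ z : ℤ, Real.exp (-(Real.log (6 * n + 1) / (k : ℝ) ^ 2) * (z : ℝ) ^ 2) ≤
      (if z ∈ Finset.Icc (-(k : ℤ)) k then 1 else 0) + 1 / (6 * n + 1) := by
    intro z
    split_ifs with hz
    · have : Real.exp (-(Real.log (6 * n + 1) / (k : ℝ) ^ 2) * (z : ℝ) ^ 2) ≤ 1 := by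
        rw [Real.exp_le_one_iff]
        have : 0 ≤ Real.log (6 * n + 1) / (k : ℝ) ^ 2 * (z : ℝ) ^ 2 := by positivity
        linarith
      have : (0 : ℝ) ≤ 1 / (6 * n + 1) := by positivity
      linarith
    · have hz' : (k : ℝ) ^ 2 ≤ (z : ℝ) ^ 2 := by
        rw [Finset.mem_Icc] at hz
        have : (k : ℤ) ^ 2 ≤ z ^ 2 := by
          rcases le_total z 0 with h0 | h0
          · have : (k : ℤ) ≤ -z := by omega
            nlinarith
          · have : (k : ℤ) ≤ z := by omega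
            nlinarith
        exact_mod_cast this
      rw [zero_add, one_div, ← Real.exp_log hpos, ← Real.exp_neg, Real.exp_log hpos]
      apply Real.exp_le_exp.2
      have : Real.log (6 * n + 1) ≤ Real.log (6 * n + 1) / (k : ℝ) ^ 2 * (z : ℝ) ^ 2 := by
        rw [div_mul_eq_mul_div, le_div_iff₀ hk']
        exact mul_le_mul_of_nonneg_left hz' hL
      linarith
  refine (Finset.sum_le_sum fun z _ => h1 z).trans ?_
  rw [Finset.sum_add_distrib, Finset.sum_const, Finset.sum_boole]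
  have h2 : ((Finset.filter (fun z => z ∈ Finset.Icc (-(k : ℤ)) k)
      (Finset.Icc (-(3 * n : ℤ)) (3 * n))).card : ℝ) ≤ 2 * k + 1 := by
    have : (Finset.filter (fun z => z ∈ Finset.Icc (-(k : ℤ)) k)
      (Finset.Icc (-(3 * n : ℤ)) (3 * n))).card ≤ (Finset.Icc (-(k : ℤ)) k).card :=
      Finset.card_le_card fun z hz => (Finset.mem_filter.1 hz).2
    rw [Int.card_Icc] at this
    have h3 : ((k : ℤ) + 1 - -(k : ℤ)).toNat = 2 * k + 1 := by omega
    rw [h3] at this
    exact_mod_cast this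
  have h4 : (Finset.Icc (-(3 * n : ℤ)) (3 * n)).card = 6 * n + 1 := by
    rw [Int.card_Icc]
    omega
  rw [h4, nsmul_eq_mul]
  push_cast
  rw [mul_one_div_cancel hpos.ne']
  linarith

lemma main_bound {n : ℕ} (S : Finset (Fin n → Fin 2)) (h : Function.Injective (Y S))
    (k : ℕ) (hk : 0 < k) :
    n * Real.log 4 ≤ S.card * (Real.log (6 * n + 1) / (k : ℝ) ^ 2 * (5 * n) +
      Real.log (2 * k + 2)) := by
  set lam : ℝ := Real.log (6 * n + 1) / (k : ℝ) ^ 2 with hlam
  have hL : 0 ≤ Real.log (6 * n + 1) := Real.log_nonneg (by have : (0 : ℝ) ≤ n := n.cast_nonneg; linarith)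
  have hlam0 : 0 ≤ lam := by positivity
  have h1 := weighted S h (fun z => Real.exp (-lam * (z : ℝ) ^ 2)) (fun z => (Real.exp_pos _).le)
  have h2 : (∑ z ∈ Finset.Icc (-(3 * n : ℤ)) (3 * n), Real.exp (-lam * (z : ℝ) ^ 2)) ^ S.card ≤
      (2 * k + 2 : ℝ) ^ S.card :=
    pow_le_pow_left₀ (Finset.sum_nonneg fun z _ => (Real.exp_pos _).le) (gauss_sum n k hk) _
  set C : ℝ := -(S.card * (lam * (5 * n))) with hC
  have h3 : ∀ x : Fin n → Fin 4, Real.exp C * (1 - C - lam * ∑ s : S, ((Y S x s : ℤ) : ℝ) ^ 2) ≤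
      ∏ s : S, Real.exp (-lam * ((Y S x s : ℤ) : ℝ) ^ 2) := by
    intro x
    rw [← Real.exp_sum, ← Finset.mul_sum]
    set u : ℝ := ∑ s : S, ((Y S x s : ℤ) : ℝ) ^ 2
    have := Real.add_one_le_exp (-lam * u - C)
    calc _ = Real.exp C * (-lam * u - C + 1) := by ring
      _ ≤ Real.exp C * Real.exp (-lam * u - C) :=
        mul_le_mul_of_nonneg_left this (Real.exp_pos _).le
      _ = _ := by rw [← Real.exp_add]; congr 1; ring
  have h4 : ∑ x : Fin n → Fin 4, ∑ s : S, ((Y S x s : ℤ) : ℝ) ^ 2 ≤ S.card * (4 ^ n * (5 * n)) := by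
    rw [Finset.sum_comm]
    calc _ ≤ ∑ _s : S, (4 : ℝ) ^ n * (5 * n) := Finset.sum_le_sum fun s _ => moment_le S s
      _ = _ := by simp
  have h5 : Real.exp C * 4 ^ n ≤ (2 * k + 2 : ℝ) ^ S.card := by
    refine le_trans ?_ ((Finset.sum_le_sum fun x _ => h3 x).trans (h1.trans h2))
    rw [← Finset.mul_sum]
    apply mul_le_mul_of_nonneg_left _ (Real.exp_pos _).le
    rw [Finset.sum_sub_distrib, ← Finset.mul_sum]
    simp only [Finset.sum_const, Finset.card_univ, Fintype.card_fun, Fintype.card_fin, nsmul_eq_mul]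
    push_cast
    have := mul_le_mul_of_nonneg_left h4 hlam0
    rw [hC]
    nlinarith
  have h6 := Real.log_le_log (by positivity) h5
  rw [Real.log_mul (by positivity) (by positivity), Real.log_exp, Real.log_pow, Real.log_pow] at h6
  rw [hC] at h6
  linarith

lemma exists_inj (n : ℕ) : Function.Injective (fun (x : Fin n → Fin 3)
    (s : (Finset.univ : Finset (Fin n → Fin 2))) =>
      ∑ l : Fin n, M (x l) ((s : Fin n → Fin 2) l)) := by
  classical
  intro x y hxy
  funext l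
  have h := congrFun hxy ⟨Pi.single l 1, Finset.mem_univ _⟩
  have key : ∀ z : Fin n → Fin 3, ∑ l' : Fin n, M (z l') ((Pi.single l 1 : Fin n → Fin 2) l')
      = a (z l) := by
    intro z
    rw [Finset.sum_eq_single l]
    · simp [M]
    · intro b _ hb
      simp [M, Pi.single_eq_of_ne hb]
    · simp
  simp only [key] at h
  have : ∀ i j : Fin 3, a i = a j → i = j := by decide
  exact this _ _ h

/-- The negation of the preceding statement: For every p×q integer matrix with p ≥ 2 whose distinct rows never differ by a constant vector, the least size of S ⊆ [q]^n making the row-sum map on [p]^n injective, times log base p of n, divided by n, tends to 2. -/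
theorem result :
    ¬ (∀ (p q : ℕ) (M : Matrix (Fin p) (Fin q) ℤ),
      2 ≤ p →
      (∀ i j : Fin p, i ≠ j → ∃ s t : Fin q, M i s - M j s ≠ M i t - M j t) →
      Tendsto
        (fun n : ℕ =>
          ((sInf {k : ℕ | ∃ S : Finset (Fin n → Fin q), S.card = k ∧
              Function.Injective
                (fun (x : Fin n → Fin p) (s : S) =>
                  ∑ l : Fin n, M (x l) ((s : Fin n → Fin q) l))} : ℕ) : ℝ)
            * Real.logb (p : ℝ) (n : ℝ) / (n : ℝ))
        atTop (𝓝 2)) := by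
  intro h
  have h0 := h 3 2 M (by norm_num) (by decide)
  have hsq : Tendsto (fun j : ℕ => j ^ 2) atTop atTop := tendsto_pow_atTop (by norm_num)
  have h1 := (h0.comp hsq).eventually (gt_mem_nhds (show (2 : ℝ) < 11 / 5 by norm_num))
  have h2 : ∀ᶠ j : ℕ in atTop, 10 * (Real.log 7 + Real.log 48) ≤ Real.log j :=
    (Real.tendsto_log_atTop.comp tendsto_natCast_atTop_atTop).eventually_ge_atTop _
  obtain ⟨j, ⟨hj1, hj2⟩, hj3⟩ := ((h1.and h2).and (eventually_ge_atTop 1)).exists
  simp only [Function.comp] at hj1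
  obtain ⟨S, hS, hinj⟩ := Nat.sInf_mem (s := {k : ℕ | ∃ S : Finset (Fin (j ^ 2) → Fin 2),
      S.card = k ∧ Function.Injective (fun (x : Fin (j ^ 2) → Fin 3) (s : S) =>
        ∑ l : Fin (j ^ 2), M (x l) ((s : Fin (j ^ 2) → Fin 2) l))})
    ⟨_, Finset.univ, rfl, exists_inj _⟩
  rw [← hS] at hj1
  have h3 := main_bound S (transfer S hinj) (23 * j) (by omega)
  have hj : (1 : ℝ) ≤ j := by exact_mod_cast hj3
  have h7 : 0 < Real.log 7 := Real.log_pos (by norm_num)
  have h48 : 0 < Real.log 48 := Real.log_pos (by norm_num)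
  have hl3 : 0 < Real.log 3 := Real.log_pos (by norm_num)
  have hA : Real.log (6 * (j : ℝ) ^ 2 + 1) ≤ Real.log 7 + 2 * Real.log j := by
    have : Real.log (6 * (j : ℝ) ^ 2 + 1) ≤ Real.log (7 * (j : ℝ) ^ 2) :=
      Real.log_le_log (by positivity) (by nlinarith)
    rwa [Real.log_mul (by norm_num) (by positivity), Real.log_pow] at this
  have hB : Real.log (2 * (23 * (j : ℝ)) + 2) ≤ Real.log 48 + Real.log j := by
    have : Real.log (2 * (23 * (j : ℝ)) + 2) ≤ Real.log (48 * (j : ℝ)) :=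
      Real.log_le_log (by positivity) (by nlinarith)
    rwa [Real.log_mul (by norm_num) (by positivity)] at this
  have h43 : 5 * Real.log 3 ≤ 4 * Real.log 4 := by
    have : Real.log ((3 : ℝ) ^ 5) ≤ Real.log ((4 : ℝ) ^ 4) :=
      Real.log_le_log (by positivity) (by norm_num)
    rw [Real.log_pow, Real.log_pow] at this
    exact_mod_cast this
  push_cast at h3 hj1
  have hC : Real.log (6 * (j : ℝ) ^ 2 + 1) / (23 * (j : ℝ)) ^ 2 * (5 * (j : ℝ) ^ 2)
      = 5 / 529 * Real.log (6 * (j : ℝ) ^ 2 + 1) := by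
    field_simp
    norm_num
  rw [hC] at h3
  have hD : 5 / 529 * Real.log (6 * (j : ℝ) ^ 2 + 1) + Real.log (2 * (23 * (j : ℝ)) + 2)
      ≤ 28 / 25 * Real.log j := by linarith
  have h4 : (j : ℝ) ^ 2 * Real.log 4 ≤ S.card * (28 / 25 * Real.log j) :=
    h3.trans (mul_le_mul_of_nonneg_left hD (Nat.cast_nonneg _))
  rw [Real.logb, Real.log_pow, div_lt_iff₀ (by positivity), ← mul_div_assoc,
    div_lt_iff₀ hl3] at hj1
  push_cast at hj1
  have hj2' : (0 : ℝ) < (j : ℝ) ^ 2 := by positivity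
  nlinarith

end Pool.Agent.S12636
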