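import Pool.Statements.S12672
import Pool.Agent.H492Z.Fix

set_option autoImplicit false
open Pool Pool.MP_0323d9_gt

namespace Pool.Agent.S12672

/-- The negation of the preceding statement: For every convex body K in d-space there is a finite N such that every minimal set A on the boundary of K meeting the interior of every small nonzero translate x+K (∣x∣≤ε, some ε>0) has at most N points. -/
theorem result :
    ¬ (∀ (d : ℕ) (K : Set (EuclideanSpace ℝ (Fin d))),
      IsCompact K → Convex ℝ K → (interior K).Nonempty →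
      ∃ N : ℕ, ∀ A ⊆ frontier K,
        (∃ ε : ℝ, 0 < ε ∧ ∀ x : EuclideanSpace ℝ (Fin d), x ≠ 0 → ‖x‖ ≤ ε →
            (A ∩ interior ((fun y => x + y) '' K)).Nonempty) →
        (∀ B ⊆ A, B ≠ A →
            ¬ ∃ ε : ℝ, 0 < ε ∧ ∀ x : EuclideanSpace ℝ (Fin d), x ≠ 0 → ‖x‖ ≤ ε →
              (B ∩ interior ((fun y => x + y) '' K)).Nonempty) →
        A.encard ≤ (N : ENat)) := by
  intro h
  obtain ⟨N, hN⟩ := h 3 H492Z.Fix.K H492Z.Fix.K_compact H492Z.Fix.K_convex
    ⟨!₂[0, 0, 1], H492Z.Fix.O_int (by refine ⟨?_, ?_, ?_⟩ <;> simp)⟩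
  obtain ⟨A, h1, h2, h3, h4⟩ := H492Z.Fix.main N
  exact h4 (hN A h1 h2 h3)

end Pool.Agent.S12672
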