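import Pool.Statements.S12684
import Pool.Agent.H50Z.Flat.Main

set_option autoImplicit false
open Pool Pool.MP_05b8f3_gt

namespace Pool.Agent.S12684

/-- The negation of the preceding statement: For a complete conformal harmonic immersion of a planar domain into R^3 with nonconstant Gauss map, if the Gauss map has a critical point (a flat point), then it omits at most 3 points of the unit sphere. -/
theorem result :
    ¬ (∀ (U : Set ℂ) (X : ℂ → Fin 3 → ℝ),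
      IsOpen U → IsConnected U → ContDiffOn ℝ 2 X U →
      (∀ z ∈ U, fderiv ℝ X z 1 ≠ 0 ∧
          ∑ i, (fderiv ℝ X z 1 i) ^ 2 = ∑ i, (fderiv ℝ X z Complex.I i) ^ 2 ∧
          ∑ i, fderiv ℝ X z 1 i * fderiv ℝ X z Complex.I i = 0) →
      (∀ k : Fin 3, DifferentiableOn ℂ
          (fun z => ((fderiv ℝ X z 1 k : ℝ) : ℂ) - Complex.I * ((fderiv ℝ X z Complex.I k : ℝ) : ℂ)) U) →
      (∀ γ : ℝ → ℂ, ContDiffOn ℝ 1 γ (Set.Ico 0 1) → Set.MapsTo γ (Set.Ico 0 1) U →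
          (∀ K : Set ℂ, IsCompact K → K ⊆ U → ∀ᶠ t in nhdsWithin (1 : ℝ) (Set.Iio 1), γ t ∉ K) →
          ∫⁻ t in Set.Ioo (0 : ℝ) 1,
            ENNReal.ofReal (Real.sqrt (∑ i, (fderiv ℝ X (γ t) (deriv γ t) i) ^ 2)) = ⊤) →
      ∀ N : ℂ → Fin 3 → ℝ,
        (∀ z ∈ U, N z =
          (Real.sqrt (∑ i, (crossProduct (fderiv ℝ X z 1) (fderiv ℝ X z Complex.I) i) ^ 2))⁻¹ •
            crossProduct (fderiv ℝ X z 1) (fderiv ℝ X z Complex.I)) →
        (∃ z₁ ∈ U, ∃ z₂ ∈ U, N z₁ ≠ N z₂) →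
        (∃ z₀ ∈ U, fderiv ℝ N z₀ = 0) →
        {v : Fin 3 → ℝ | ∑ i, v i ^ 2 = 1 ∧ ∀ z ∈ U, N z ≠ v}.encard ≤ 3) := by
  exact Pool.Agent.H50Z.Flat.main

end Pool.Agent.S12684
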