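import Pool.Statements.S12732
import Pool.Agent.H940Z.Cp.Main

set_option autoImplicit false
open Pool Pool.MP_0b3857_gt

namespace Pool.Agent.S12732

/-- The negation of the preceding statement: For every compact Hausdorff X, the space of continuous real functions on X with the pointwise topology is submetalindelöf. Every open cover has a sequence of open refining covers such that each point lies in only countably many members of at least one of them. -/
theorem result :
    ¬ (∀ (X : Type) [TopologicalSpace X] [CompactSpace X] [T2Space X],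
      ∀ 𝒰 : Set (Set {g : X → ℝ // Continuous g}),
        (∀ U ∈ 𝒰, IsOpen U) → ⋃₀ 𝒰 = Set.univ →
        ∃ 𝒱 : ℕ → Set (Set {g : X → ℝ // Continuous g}),
          (∀ n, ∀ V ∈ 𝒱 n, IsOpen V ∧ ∃ U ∈ 𝒰, V ⊆ U) ∧
          (∀ n, ⋃₀ 𝒱 n = Set.univ) ∧
          ∀ x : {g : X → ℝ // Continuous g}, ∃ n, {V ∈ 𝒱 n | x ∈ V}.Countable) := by
  intro H
  obtain ⟨W, lo, hW⟩ := Pool.Agent.H940Z.Cp.exists_Om
  obtain ⟨𝒰, h1, h2, h3⟩ := Pool.Agent.H940Z.Cp.not_sub hW
  exact h3 (H (Ultrafilter W) 𝒰 h1 h2)

end Pool.Agent.S12732
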