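import Pool.Statements.S12767
import Pool.Agent.H903Z.EG.SLD

set_option autoImplicit false
open Pool Pool.MP_11262c_gt

namespace Pool.Agent.S12767

open Set Filter Topology Pool.Agent.H903Z.EG

/-- Every Lindelöf scattered space that embeds into C_p(K) (pointwise topology) for some compact Hausdorff K is a countable union of subspaces each discrete in its own subspace topology. -/
theorem result :
    ∀ (X : Type) [TopologicalSpace X],
      (∃ (K : Type) (_ : TopologicalSpace K), CompactSpace K ∧ T2Space K ∧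
        ∃ f : X → (K → ℝ), Topology.IsEmbedding f ∧ ∀ x, Continuous (f x)) →
      LindelofSpace X →
      (∀ S : Set X, S.Nonempty → ∃ x ∈ S, ∃ U : Set X, IsOpen U ∧ U ∩ S = {x}) →
      ∃ D : ℕ → Set X, (⋃ n, D n) = Set.univ ∧ ∀ n, DiscreteTopology (D n) := by
  intro X _ ⟨K₀, _, _, _, f, hf, hfc⟩ _ hsc
  haveI : RegularSpace X := hf.isInducing.regularSpace
  let ev₀ : K₀ → X → ℝ := fun k x => f x k
  have hev₀ : Continuous ev₀ := continuous_pi hfc
  haveI : CompactSpace (range ev₀) := isCompact_iff_compactSpace.1 (isCompact_range hev₀)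
  have hcont : ∀ k : range ev₀, Continuous k.1 := by
    rintro ⟨_, k, rfl⟩
    exact (continuous_apply k).comp hf.continuous
  obtain ⟨c, hc⟩ := sld_univ hsc (fun k : range ev₀ => k.1) IsEmbedding.subtypeVal hcont
  let φ : X → C(range ev₀, ℝ) := fun x =>
    ⟨fun k => k.1 x, (continuous_apply x).comp continuous_subtype_val⟩
  have hφ : ∀ x, Tendsto φ (𝓝 x) (pw (φ x)) := fun x =>
    tendsto_comap_iff.2 ((continuous_pi hcont).tendsto x)
  obtain ⟨_, _, hI⟩ := exists_sepOrder hsc
  have hm : ∀ x : X, ∃ m : ℕ, ∀ y : X, dist (φ y) (φ x) ≤ 1 / ((m : ℝ) + 1) → y ≤ x := by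
    intro x
    have h0 := hI x
    rw [hf.isInducing.nhds_eq_comap, mem_comap] at h0
    obtain ⟨V, hV, hVx⟩ := h0
    have h1 : Continuous fun (ψ : C(range ev₀, ℝ)) (k : K₀) => ψ ⟨ev₀ k, mem_range_self k⟩ :=
      continuous_pi fun k => continuous_eval_const _
    obtain ⟨ε, hε, hb⟩ := Metric.mem_nhds_iff.1 (h1.continuousAt.preimage_mem_nhds
      (x := φ x) hV)
    obtain ⟨m, hm⟩ := exists_nat_one_div_lt hε
    exact ⟨m, fun y h => hVx (hb (lt_of_le_of_lt h hm))⟩
  choose m hm using hm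
  refine ⟨fun n => {x | Nat.pair (m x) (c (m x) (φ x)) = n},
    eq_univ_iff_forall.2 fun x => mem_iUnion.2 ⟨_, rfl⟩, fun n => ?_⟩
  rw [discreteTopology_subtype_iff']
  intro x hx
  obtain ⟨W, h1, h2, h3⟩ := mem_nhds_iff.1 ((hφ x).eventually (hc (m x) (φ x)))
  refine ⟨W, h2, ?_⟩
  ext y
  constructor
  · rintro ⟨h4, h5⟩
    have h6 : Nat.pair (m y) (c (m y) (φ y)) = Nat.pair (m x) (c (m x) (φ x)) := h5.trans hx.symm
    rw [Nat.pair_eq_pair] at h6
    obtain ⟨e1, e2⟩ := h6
    have h7 := h1 h4 (by rw [← e2, e1])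
    exact le_antisymm (hm x y h7) (hm y x (by rw [dist_comm, e1]; exact h7))
  · rintro rfl
    exact ⟨h3, hx⟩

end Pool.Agent.S12767
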