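import Pool.Statements.S12814
import Pool.Agent.H816Z.Final
import Pool.Agent.H180Z.Baum.G1
import Pool.Agent.H139Z.G2
import Pool.Agent.H120Z.Help.Kos
import Pool.Agent.H32Z.T2
import Pool.Agent.H120Z.Help.T45
import Pool.Agent.H784Z.Cov.T6

set_option autoImplicit false
open scoped Manifold ContDiff
open Pool Pool.MP_16d5f9_gt

namespace Pool.Agent.S12814

/-- The negation of the preceding statement: For every finitely presented group G and subgroup H isomorphic to G of finite index above 1, some closed smooth connected manifold with fundamental group G has a smooth self-covering whose induced image in the fundamental group is H. -/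
theorem result :
    ¬ (∀ (Γ : Type) (_ : Group Γ),
      (∃ (k : ℕ) (φ : FreeGroup (Fin k) →* Γ) (R : Finset (FreeGroup (Fin k))),
        Function.Surjective φ ∧
          φ.ker = Subgroup.normalClosure (↑R : Set (FreeGroup (Fin k)))) →
      ∀ (Γ' : Subgroup Γ), Nonempty (Γ ≃* Γ') → 1 < Γ'.index →
        ∃ (n : ℕ) (M : Type) (_ : TopologicalSpace M)
          (_ : ChartedSpace (EuclideanSpace ℝ (Fin n)) M)
          (_ : IsManifold (𝓡 n) ∞ M),
          CompactSpace M ∧ ConnectedSpace M ∧ T2Space M ∧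
          ∃ f : C(M, M), IsCoveringMap ⇑f ∧
            IsLocalDiffeomorph (𝓡 n) (𝓡 n) ∞ ⇑f ∧
            ∃ x : M, ∃ e : FundamentalGroup M (f x) ≃* Γ,
              (FundamentalGroup.map f x).range.map e.toMonoidHom = Γ') := by
  intro h
  obtain ⟨Γ, _, a, s, t, π, ψ₀, hFP, hB⟩ := Pool.Agent.H180Z.Baum.g1
  obtain ⟨n, M, _, _, _, _, _, _, f, hf, -, x, e, he⟩ :=
    h Γ _ hFP ψ₀.range ⟨MonoidHom.ofInjective hB.inj⟩ hB.idx
  obtain ⟨_, ⟨N, φ, hφ, hφ'⟩, hch⟩ := Pool.Agent.H816Z.t2 n M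
  obtain ⟨Φ, ψ, h1, h2, h3⟩ := Pool.Agent.H784Z.Cov.t6 M f hf x
  have hC : (Pool.Agent.H816Z.pathSys (f x)).Charts := by
    intro z W hW
    obtain ⟨U, u1, u2, D, d1, d2, d3, d4⟩ := hch (f x) z W hW
    exact ⟨U, u1, u2, D, d1, d2, d3, n, d4⟩
  let _ : MulAction Γ (Pool.Agent.H816Z.PE (f x)) := MulAction.compHom _ e.symm.toMonoidHom
  have hsm : ∀ (g : Γ) (b : Pool.Agent.H816Z.PE (f x)), g • b = e.symm g • b := fun _ _ => rfl
  let ψ' : Γ →* Γ := (e.toMonoidHom.comp ψ).comp e.symm.toMonoidHom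
  have hψ' : ∀ g, ψ' g = e (ψ (e.symm g)) := fun _ => rfl
  obtain ⟨a₀, -⟩ := Pool.Agent.H816Z.path_surj (f x) x
  have hinj : Function.Injective ψ' := by
    rw [injective_iff_map_eq_one]
    intro g hg
    rw [hψ', EmbeddingLike.map_eq_one_iff] at hg
    have h5 := h1 (e.symm g) a₀
    rw [hg, one_smul] at h5
    have := Pool.Agent.H816Z.path_free _ _ _ (Φ.injective h5)
    exact (EmbeddingLike.map_eq_one_iff (f := e.symm)).1 this
  have hrange : ψ'.range = ψ₀.range := by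
    rw [← he, ← h2]
    ext g
    constructor
    · rintro ⟨y, rfl⟩
      exact ⟨ψ (e.symm y), ⟨_, rfl⟩, rfl⟩
    · rintro ⟨_, ⟨y, rfl⟩, rfl⟩
      exact ⟨e y, by rw [hψ', e.symm_apply_apply]; rfl⟩
  refine Pool.Agent.H816Z.final (G := Γ) (Pool.Agent.H816Z.pathSys (f x))
    Pool.Agent.H816Z.kos_ok ⟨fun g b => rfl, fun g U b c hb => ?_, fun g b hb => ?_⟩
    (fun b c hb => ?_) (Pool.Agent.H816Z.path_surj (f x)) hC φ hφ hφ'
    (Pool.Agent.H816Z.t4 M (f x)) (Pool.Agent.H816Z.t5 M (f x) hC.lg) a₀ Φ ψ' (fun g b => ?_) h3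
    (Pool.Agent.H139Z.g2 Γ a s t π ψ₀ hB ψ' hinj hrange)
  · exact Pool.Agent.H816Z.path_R_smul _ _ U b c hb
  · exact (EmbeddingLike.map_eq_one_iff (f := e.symm)).1 (Pool.Agent.H816Z.path_free _ _ _ hb)
  · obtain ⟨g, hg⟩ := Pool.Agent.H816Z.path_transitive _ b c hb
    exact ⟨e g, by rw [hsm, e.symm_apply_apply, hg]⟩
  · rw [hsm, hsm, h1, hψ', e.symm_apply_apply]

end Pool.Agent.S12814
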