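import Pool.Statements.S12829
import Pool.Agent.H519Z.FLM.Poset

set_option autoImplicit false
open Pool Pool.MP_191c59_gt

namespace Pool.Agent.S12829

/-- There is an absolute C such that every finite strongly regular CW complex with a free cellular involution, N vertices and M maximal cells has a continuous antipodal map to the n-sphere for some n ≤ C·log N·log M. -/
theorem result :
    ∃ C : ℝ, ∀ (P : Type) [Fintype P] [PartialOrder P] (σ : P ≃o P),
      (∀ x : P, ∃ n : ℕ, {y : P | y < x} = ∅ ∨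
        Nonempty (↥{f : P → ℝ | (∀ p, 0 ≤ f p) ∧ (∑ p, f p = 1) ∧ (∀ p, f p ≠ 0 → p < x) ∧
            IsChain (· ≤ ·) {p : P | f p ≠ 0}} ≃ₜ
          ↥(Metric.sphere (0 : EuclideanSpace ℝ (Fin (n + 1))) 1))) →
      (∀ x y : P, {z : P | z ≤ x ∧ z ≤ y} = ∅ ∨
        ∃ w : P, {z : P | z ≤ x ∧ z ≤ y} = {z : P | z ≤ w}) →
      (∀ x : P, σ (σ x) = x) → (∀ x : P, σ x ≠ x) →
      ∃ n : ℕ, (n : ℝ) ≤ C * Real.log ({x : P | IsMin x}.ncard : ℝ) *
            Real.log ({x : P | IsMax x}.ncard : ℝ) ∧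
        ∃ g : (P → ℝ) → EuclideanSpace ℝ (Fin (n + 1)),
          ContinuousOn g {f : P → ℝ | (∀ p, 0 ≤ f p) ∧ (∑ p, f p = 1) ∧
              IsChain (· ≤ ·) {p : P | f p ≠ 0}} ∧
          ∀ f ∈ {f : P → ℝ | (∀ p, 0 ≤ f p) ∧ (∑ p, f p = 1) ∧
              IsChain (· ≤ ·) {p : P | f p ≠ 0}},
            ‖g f‖ = 1 ∧ g (fun p => f (σ p)) = -g f := by
  exact ⟨26000, fun P _ _ σ _ hmeet hinv hfree =>
    Pool.Agent.H519Z.FLM.poset P σ hmeet hinv hfree⟩

end Pool.Agent.S12829
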