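import Pool.Statements.S12865
import Pool.Agent.H179Z.APCExt

set_option autoImplicit false
open Pool Pool.MP_1ef410_gt

namespace Pool.Agent.S12865

/-- For countable groups N, H and any action of H on N by automorphisms, if N and H have asymptotic property C for every proper left-invariant metric, then so does the semidirect product N ⋊ H. -/
theorem result :
    ∀ (N H : Type) [Group N] [Group H] [Countable N] [Countable H] (φ : H →* MulAut N),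
      (∀ d : N → N → ℝ,
        ((∀ x y, d x y = 0 ↔ x = y) ∧ (∀ x y, d x y = d y x) ∧
          (∀ x y z, d x z ≤ d x y + d y z) ∧ (∀ g x y, d (g * x) (g * y) = d x y) ∧
          (∀ r : ℝ, {x : N | d 1 x ≤ r}.Finite)) →
        ∀ R : ℕ → ℝ, ∃ n : ℕ, ∃ U : ℕ → Set (Set N), ∃ B : ℝ,
          (∀ i < n, ∀ A ∈ U i, ∀ x ∈ A, ∀ y ∈ A, d x y ≤ B) ∧
          (∀ i < n, ∀ A ∈ U i, ∀ A' ∈ U i, A ≠ A' → ∀ x ∈ A, ∀ y ∈ A', R i < d x y) ∧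
          (∀ x : N, ∃ i < n, ∃ A ∈ U i, x ∈ A)) →
      (∀ d : H → H → ℝ,
        ((∀ x y, d x y = 0 ↔ x = y) ∧ (∀ x y, d x y = d y x) ∧
          (∀ x y z, d x z ≤ d x y + d y z) ∧ (∀ g x y, d (g * x) (g * y) = d x y) ∧
          (∀ r : ℝ, {x : H | d 1 x ≤ r}.Finite)) →
        ∀ R : ℕ → ℝ, ∃ n : ℕ, ∃ U : ℕ → Set (Set H), ∃ B : ℝ,
          (∀ i < n, ∀ A ∈ U i, ∀ x ∈ A, ∀ y ∈ A, d x y ≤ B) ∧
          (∀ i < n, ∀ A ∈ U i, ∀ A' ∈ U i, A ≠ A' → ∀ x ∈ A, ∀ y ∈ A', R i < d x y) ∧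
          (∀ x : H, ∃ i < n, ∃ A ∈ U i, x ∈ A)) →
      (∀ d : (N ⋊[φ] H) → (N ⋊[φ] H) → ℝ,
        ((∀ x y, d x y = 0 ↔ x = y) ∧ (∀ x y, d x y = d y x) ∧
          (∀ x y z, d x z ≤ d x y + d y z) ∧ (∀ g x y, d (g * x) (g * y) = d x y) ∧
          (∀ r : ℝ, {x : N ⋊[φ] H | d 1 x ≤ r}.Finite)) →
        ∀ R : ℕ → ℝ, ∃ n : ℕ, ∃ U : ℕ → Set (Set (N ⋊[φ] H)), ∃ B : ℝ,
          (∀ i < n, ∀ A ∈ U i, ∀ x ∈ A, ∀ y ∈ A, d x y ≤ B) ∧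
          (∀ i < n, ∀ A ∈ U i, ∀ A' ∈ U i, A ≠ A' → ∀ x ∈ A, ∀ y ∈ A', R i < d x y) ∧
          (∀ x : N ⋊[φ] H, ∃ i < n, ∃ A ∈ U i, x ∈ A)) := by
  intro N H _ _ _ _ φ hN hH d ⟨h1, h2, h3, h4, h5⟩ R
  have key : ∀ (K : Type) [Group K] (j : K →* N ⋊[φ] H), Function.Injective j →
      (∀ d : K → K → ℝ,
        ((∀ x y, d x y = 0 ↔ x = y) ∧ (∀ x y, d x y = d y x) ∧
          (∀ x y z, d x z ≤ d x y + d y z) ∧ (∀ g x y, d (g * x) (g * y) = d x y) ∧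
          (∀ r : ℝ, {x : K | d 1 x ≤ r}.Finite)) →
        ∀ R : ℕ → ℝ, ∃ n : ℕ, ∃ U : ℕ → Set (Set K), ∃ B : ℝ,
          (∀ i < n, ∀ A ∈ U i, ∀ x ∈ A, ∀ y ∈ A, d x y ≤ B) ∧
          (∀ i < n, ∀ A ∈ U i, ∀ A' ∈ U i, A ≠ A' → ∀ x ∈ A, ∀ y ∈ A', R i < d x y) ∧
          (∀ x : K, ∃ i < n, ∃ A ∈ U i, x ∈ A)) → H179Z.APC.GAPC K := by
    intro K _ j hj hK
    have hinv : ∀ g x y : K, d (j (g * x)) (j (g * y)) = d (j x) (j y) := by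
      intro g x y
      rw [map_mul, map_mul, h4]
    have hprop : ∀ r : ℝ, {x : K | d (j 1) (j x) ≤ r}.Finite := by
      intro r
      rw [map_one]
      exact (h5 r).preimage hj.injOn
    apply H179Z.APC.gapc_of_metric (fun x y => d (j x) (j y)) hinv hprop
    intro R _
    obtain ⟨n, U, B, hb, hs, hc⟩ := hK (fun x y => d (j x) (j y))
      ⟨fun x y => (h1 _ _).trans hj.eq_iff, fun x y => h2 _ _, fun x y z => h3 _ _ _, hinv,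
        hprop⟩ R
    exact ⟨n, U, fun i hi => ⟨B, hb i hi⟩, hs, hc⟩
  exact H179Z.APC.metric_of_gapc d h4 h5 (H179Z.APC.GAPC.semidirect φ
    (key N SemidirectProduct.inl SemidirectProduct.inl_injective hN)
    (key H SemidirectProduct.inr SemidirectProduct.inr_injective hH)) R

end Pool.Agent.S12865
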