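import Pool.Statements.S12893
import Pool.Agent.H652Z.Strip.Orb

set_option autoImplicit false
open Pool Pool.MP_23eee6_gt

namespace Pool.Agent.S12893

/-- There is a discrete, torsion-free, infinitely generated Fuchsian group of the first kind and a non-affine quasisymmetric conjugacy of it to another Möbius group under which no element representing a simple closed geodesic gets a larger trace, i.e. no simple curve is lengthened. -/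
theorem result :
    ∃ Γ : Subgroup (Matrix.SpecialLinearGroup (Fin 2) ℝ),
      (∃ ε : ℝ, 0 < ε ∧ ∀ g ∈ Γ,
        (∀ i j : Fin 2, |(g : Matrix (Fin 2) (Fin 2) ℝ) i j - (1 : Matrix (Fin 2) (Fin 2) ℝ) i j| < ε) →
          g = 1) ∧
      (∀ g ∈ Γ, ∀ n : ℕ, 0 < n →
        (((g ^ n : Matrix.SpecialLinearGroup (Fin 2) ℝ) : Matrix (Fin 2) (Fin 2) ℝ) = 1 ∨
          ((g ^ n : Matrix.SpecialLinearGroup (Fin 2) ℝ) : Matrix (Fin 2) (Fin 2) ℝ) = -1) →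
        ((g : Matrix (Fin 2) (Fin 2) ℝ) = 1 ∨ (g : Matrix (Fin 2) (Fin 2) ℝ) = -1)) ∧
      ¬ Γ.FG ∧
      (∀ x : ℝ, (x : ℂ) ∈ closure (Set.range (fun g : Γ =>
        ((((g : Matrix.SpecialLinearGroup (Fin 2) ℝ) : Matrix (Fin 2) (Fin 2) ℝ) 0 0 : ℂ) * Complex.I
            + (((g : Matrix.SpecialLinearGroup (Fin 2) ℝ) : Matrix (Fin 2) (Fin 2) ℝ) 0 1 : ℂ)) /
          ((((g : Matrix.SpecialLinearGroup (Fin 2) ℝ) : Matrix (Fin 2) (Fin 2) ℝ) 1 0 : ℂ) * Complex.I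
            + (((g : Matrix.SpecialLinearGroup (Fin 2) ℝ) : Matrix (Fin 2) (Fin 2) ℝ) 1 1 : ℂ))))) ∧
      ∃ h : ℝ → ℝ, StrictMono h ∧ Continuous h ∧ Function.Surjective h ∧
        (∃ M : ℝ, ∀ x t : ℝ, 0 < t →
          h (x + t) - h x ≤ M * (h x - h (x - t)) ∧ h x - h (x - t) ≤ M * (h (x + t) - h x)) ∧
        (¬ ∃ a b : ℝ, ∀ x : ℝ, h x = a * x + b) ∧
        ∀ g ∈ Γ, ∃ g' : Matrix.SpecialLinearGroup (Fin 2) ℝ,
          (∀ x : ℝ,
            (g : Matrix (Fin 2) (Fin 2) ℝ) 1 0 * x + (g : Matrix (Fin 2) (Fin 2) ℝ) 1 1 ≠ 0 →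
              ((g' : Matrix (Fin 2) (Fin 2) ℝ) 1 0 * h x + (g' : Matrix (Fin 2) (Fin 2) ℝ) 1 1 ≠ 0 ∧
                h (((g : Matrix (Fin 2) (Fin 2) ℝ) 0 0 * x + (g : Matrix (Fin 2) (Fin 2) ℝ) 0 1) /
                    ((g : Matrix (Fin 2) (Fin 2) ℝ) 1 0 * x + (g : Matrix (Fin 2) (Fin 2) ℝ) 1 1)) =
                  ((g' : Matrix (Fin 2) (Fin 2) ℝ) 0 0 * h x + (g' : Matrix (Fin 2) (Fin 2) ℝ) 0 1) /
                    ((g' : Matrix (Fin 2) (Fin 2) ℝ) 1 0 * h x + (g' : Matrix (Fin 2) (Fin 2) ℝ) 1 1))) ∧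
          ((2 < |Matrix.trace (g : Matrix (Fin 2) (Fin 2) ℝ)| ∧
              ∀ k ∈ Γ, 2 ≤ Matrix.trace
                ((g * (k * g * k⁻¹) * g⁻¹ * (k * g * k⁻¹)⁻¹ : Matrix.SpecialLinearGroup (Fin 2) ℝ) :
                  Matrix (Fin 2) (Fin 2) ℝ)) →
            |Matrix.trace (g' : Matrix (Fin 2) (Fin 2) ℝ)| ≤ |Matrix.trace (g : Matrix (Fin 2) (Fin 2) ℝ)|) := by
  obtain ⟨ι, ⟨D⟩⟩ := H652Z.Strip.exists_setup
  obtain ⟨h, hh⟩ := D.exists_h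
  have := D.infinite
  refine ⟨H652Z.Strip.Gam D.toCfg Set.univ, ⟨1, one_pos, ?_⟩, ?_, H652Z.Strip.not_fg D.sep0, ?_,
    h, hh.strictMono, hh.continuous, hh.surjective, ⟨_, hh.qs⟩, hh.not_affine, ?_⟩
  · rintro _ ⟨w, -, -, rfl⟩ hw
    exact H652Z.Strip.discrete D.sep0 D.le1 w hw
  · rintro _ ⟨w, hw, -, rfl⟩ n hn h1
    have h2 := H652Z.Strip.torsion_free D.sep0 w hw n hn
      (h1.imp (fun e => H652Z.Strip.mat_inj e) (fun e => H652Z.Strip.mat_inj e))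
    exact h2.imp (fun e => by rw [e]; rfl) (fun e => by rw [e]; rfl)
  · intro x
    refine closure_mono ?_ (H652Z.Strip.Setup.first_kind (D := D) x)
    rintro _ ⟨w, hw, rfl⟩
    exact ⟨⟨_, w, hw, fun _ _ => Set.mem_univ _, rfl⟩, rfl⟩
  · rintro _ ⟨w, hw, -, rfl⟩
    refine ⟨H652Z.Strip.M D.P' w, fun x hx => ?_, fun _ => H652Z.Strip.Setup.trace_P' w hw⟩
    have r := hh.rel_M w x
    simp only [H652Z.Strip.Setup.Rel, H652Z.Strip.act, mul_one] at r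
    rcases r with ⟨r1, -⟩ | ⟨-, r2, r3⟩
    · exact absurd r1 hx
    · exact ⟨r2, r3⟩

end Pool.Agent.S12893
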