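import Pool.Statements.S12913
import Pool.Agent.H275Z.BallSer

set_option autoImplicit false
open Pool Pool.MP_283405_gt

namespace Pool.Agent.S12913

/-- For a group of ball automorphisms acting freely and properly discontinuously (a torsion-free discrete subgroup of PU(n,1)) with critical exponent below 2k, there is no invariant analytic subset of the ball of dimension exactly k with compact quotient. -/
theorem result :
    ∀ n : ℕ, 1 ≤ n →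
    ∀ Γ : Subgroup (Equiv.Perm (EuclideanSpace ℂ (Fin n))),
      (∀ γ ∈ Γ,
        Set.MapsTo ⇑γ (Metric.ball (0 : EuclideanSpace ℂ (Fin n)) 1)
          (Metric.ball (0 : EuclideanSpace ℂ (Fin n)) 1) ∧
        AnalyticOnNhd ℂ ⇑γ (Metric.ball (0 : EuclideanSpace ℂ (Fin n)) 1) ∧
        (∀ z : EuclideanSpace ℂ (Fin n), 1 ≤ ‖z‖ → γ z = z)) →
      (∀ γ ∈ Γ, ∀ z ∈ Metric.ball (0 : EuclideanSpace ℂ (Fin n)) 1, γ z = z → γ = 1) →
      (∀ K : Set (EuclideanSpace ℂ (Fin n)), IsCompact K →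
        K ⊆ Metric.ball (0 : EuclideanSpace ℂ (Fin n)) 1 →
        {γ : Equiv.Perm (EuclideanSpace ℂ (Fin n)) | γ ∈ Γ ∧ (⇑γ '' K ∩ K).Nonempty}.Finite) →
    ∀ k : ℕ,
      (∃ s : ℝ, 0 ≤ s ∧ s < 2 * (k : ℝ) ∧
        Summable (fun γ : Γ =>
          ((1 - ‖(γ : Equiv.Perm (EuclideanSpace ℂ (Fin n))) 0‖) /
            (1 + ‖(γ : Equiv.Perm (EuclideanSpace ℂ (Fin n))) 0‖)) ^ (s / 2))) →
      ¬ ∃ Z : Set (EuclideanSpace ℂ (Fin n)),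
        Z ⊆ Metric.ball (0 : EuclideanSpace ℂ (Fin n)) 1 ∧
        (∀ p ∈ Metric.ball (0 : EuclideanSpace ℂ (Fin n)) 1,
          ∃ U : Set (EuclideanSpace ℂ (Fin n)), IsOpen U ∧ p ∈ U ∧
          ∃ N : ℕ, ∃ f : Fin N → EuclideanSpace ℂ (Fin n) → ℂ,
            (∀ i, AnalyticOnNhd ℂ (f i) U) ∧
            Z ∩ U = {z | z ∈ U ∧ ∀ i, f i z = 0}) ∧
        (∀ γ ∈ Γ, Set.MapsTo ⇑γ Z Z) ∧
        (∃ K : Set (EuclideanSpace ℂ (Fin n)), IsCompact K ∧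
          K ⊆ Metric.ball (0 : EuclideanSpace ℂ (Fin n)) 1 ∧
          Z ⊆ ⋃ γ ∈ Γ, ⇑γ '' K) ∧
        (∃ p ∈ Z, ∃ U : Set (EuclideanSpace ℂ (Fin n)), IsOpen U ∧ p ∈ U ∧
          ∃ φ : EuclideanSpace ℂ (Fin n) → EuclideanSpace ℂ (Fin n),
            AnalyticOnNhd ℂ φ U ∧ Set.InjOn φ U ∧
            (∀ x ∈ U, Function.Bijective (fderiv ℂ φ x)) ∧
            ∃ W : Submodule ℂ (EuclideanSpace ℂ (Fin n)),
              Module.finrank ℂ W = k ∧ Z ∩ U = U ∩ φ ⁻¹' (W : Set (EuclideanSpace ℂ (Fin n)))) ∧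
        ¬ (∃ m : ℕ, k < m ∧ ∃ p ∈ Z, ∃ U : Set (EuclideanSpace ℂ (Fin n)), IsOpen U ∧ p ∈ U ∧
          ∃ φ : EuclideanSpace ℂ (Fin n) → EuclideanSpace ℂ (Fin n),
            AnalyticOnNhd ℂ φ U ∧ Set.InjOn φ U ∧
            (∀ x ∈ U, Function.Bijective (fderiv ℂ φ x)) ∧
            ∃ W : Submodule ℂ (EuclideanSpace ℂ (Fin n)),
              Module.finrank ℂ W = m ∧ Z ∩ U = U ∩ φ ⁻¹' (W : Set (EuclideanSpace ℂ (Fin n)))) := by
  rintro n - Γ hΓ - - k ⟨s, hs0, hsk, hsum⟩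
    ⟨Z, -, hZ, hinv, ⟨K, hK, hKB, hZK⟩, ⟨p, hp, U, hU, hpU, φ, hφ, -, hb, W, hW, hZU⟩, -⟩
  exact Pool.Agent.H275Z.Ball.main Γ (fun γ h => ⟨(hΓ γ h).1, (hΓ γ h).2.1⟩) (k := k) (s := s / 2)
    (by linarith) (by linarith) hsum hZ hinv hK hKB hZK
    (Pool.Agent.H275Z.Ball.thick_of_chart hp hU hpU (hφ p hpU) (hb p hpU) hW hZU)

end Pool.Agent.S12913
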