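import Pool.Statements.S12961
import Pool.Agent.H378Z.SteinerC

set_option autoImplicit false
open Pool Pool.MP_2ecbc5_gt

namespace Pool.Agent.S12961

/-- For every convex body in R^n and every sequence of unit directions, the iterated Steiner symmetrals can be moved by isometries so that they converge in Hausdorff distance to a nonempty compact set. -/
theorem result :
    ∀ (n : ℕ) (K₀ : Set (EuclideanSpace ℝ (Fin n))),
      IsCompact K₀ → Convex ℝ K₀ → (interior K₀).Nonempty →
      ∀ (u : ℕ → EuclideanSpace ℝ (Fin n)), (∀ i, ‖u i‖ = 1) →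
      ∀ (K : ℕ → Set (EuclideanSpace ℝ (Fin n))), K 0 = K₀ →
        (∀ i, K (i + 1) =
          setOf (fun y : EuclideanSpace ℝ (Fin n) =>
            ∃ x : EuclideanSpace ℝ (Fin n), ∃ t : ℝ,
              y = x + t • u i ∧ inner ℝ x (u i) = 0 ∧
              (∃ s : ℝ, x + s • u i ∈ K i) ∧
              2 * |t| ≤
                (MeasureTheory.volume (setOf (fun s : ℝ => x + s • u i ∈ K i))).toReal)) →
        ∃ (ψ : ℕ → IsometryEquiv (EuclideanSpace ℝ (Fin n)) (EuclideanSpace ℝ (Fin n)))
          (L : Set (EuclideanSpace ℝ (Fin n))),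
          IsCompact L ∧ L.Nonempty ∧
          Filter.Tendsto (fun i => Metric.hausdorffDist (ψ i '' K i) L)
            Filter.atTop (nhds 0) := by
  intro n K₀ hK hc hint u hu K h0 hs
  obtain ⟨ψ, L, h1, h2, h3⟩ :=
    Pool.Agent.H378Z.Steiner.converge_in_shape K₀ hK hc hint u hu K h0 hs
  exact ⟨fun i => (ψ i).toIsometryEquiv, L, h1, h2, h3⟩

end Pool.Agent.S12961
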