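import Pool.Statements.S13000
import Pool.Agent.H425Z.SRSpace

set_option autoImplicit false
open Pool Pool.MP_34ba9c_gt

namespace Pool.Agent.S13000

theorem result :
    ¬ (∀ (X : Type) [TopologicalSpace X] [T35Space X] (x₀ : X)
    (τ : TopologicalSpace
      (FreeGroup X ⧸ Subgroup.normalClosure ({FreeGroup.of x₀} : Set (FreeGroup X)))),
    τ = (GroupTopology.coinduced
          (fun x : X => (QuotientGroup.mk (FreeGroup.of x) :
            FreeGroup X ⧸ Subgroup.normalClosure ({FreeGroup.of x₀} : Set (FreeGroup X))))).toTopologicalSpace →
    (∃ S : Set (ℕ → FreeGroup X ⧸ Subgroup.normalClosure ({FreeGroup.of x₀} : Set (FreeGroup X))),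
      (∀ u ∈ S, Filter.Tendsto u Filter.atTop (@nhds _ τ 1)) ∧
      τ = (sInf {t : GroupTopology
              (FreeGroup X ⧸ Subgroup.normalClosure ({FreeGroup.of x₀} : Set (FreeGroup X))) |
              ∀ u ∈ S, Filter.Tendsto u Filter.atTop (@nhds _ t.toTopologicalSpace 1)}).toTopologicalSpace) →
    SequentialSpace X) := by
  intro h
  apply Pool.Agent.H425Z.SR.not_sequential
  let X := Pool.Agent.H425Z.SR.X
  let x₀ : X := (none, none)
  let G := FreeGroup X ⧸ Subgroup.normalClosure ({FreeGroup.of x₀} : Set (FreeGroup X))
  let i : X → G := fun x => QuotientGroup.mk (FreeGroup.of x)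
  let g : GroupTopology G := GroupTopology.coinduced i
  refine h X x₀ g.toTopologicalSpace rfl
    ⟨{u | Filter.Tendsto u Filter.atTop (@nhds _ g.toTopologicalSpace 1)}, fun u hu => hu, ?_⟩
  congr 1
  apply le_antisymm
  · apply le_sInf
    intro t ht
    apply sInf_le
    show TopologicalSpace.coinduced i _ ≤ t.toTopologicalSpace
    rw [← continuous_iff_coinduced_le]
    have hseq : @SeqContinuous X G _ t.toTopologicalSpace i := by
      intro u x hu
      have h1 : Filter.Tendsto (fun n => (i x)⁻¹ * i (u n)) Filter.atTop
          (@nhds _ g.toTopologicalSpace 1) := by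
        let : TopologicalSpace G := g.toTopologicalSpace
        have : IsTopologicalGroup G := g.toIsTopologicalGroup
        have hc : Continuous i := GroupTopology.coinduced_continuous i
        have h2 := ((hc.tendsto x).comp hu).const_mul (i x)⁻¹
        simpa using h2
      have h3 := ht _ h1
      let : TopologicalSpace G := t.toTopologicalSpace
      have : IsTopologicalGroup G := t.toIsTopologicalGroup
      have h4 := h3.const_mul (i x)
      simpa [Function.comp_def] using h4
    let : TopologicalSpace G := t.toTopologicalSpace
    have : IsTopologicalGroup G := t.toIsTopologicalGroup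
    have : CompletelyRegularSpace G :=
      CompletelyRegularSpace.of_exists_uniformSpace
        ⟨IsTopologicalGroup.rightUniformSpace G, rfl⟩
    exact Pool.Agent.H425Z.SR.continuous_of_seqContinuous hseq
  · apply sInf_le
    intro u hu
    exact hu

end Pool.Agent.S13000
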