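import Pool.Statements.S13033
import Pool.Agent.H297Z.BM.Ball

set_option autoImplicit false
open Pool Pool.MP_3a8a48_gt

namespace Pool.Agent.S13033

/-- For every m≥2, n<m and convex body K in R^m, (m−n) times the n-th intrinsic volume of K (as a Steiner coefficient) is at most the sum of the n-th intrinsic volumes of K's projections onto the m coordinate hyperplanes. -/
theorem result :
    ∀ m : ℕ, 2 ≤ m → ∀ n : ℕ, n < m →
    ∀ K : Set (EuclideanSpace ℝ (Fin m)),
      IsCompact K → Convex ℝ K → (interior K).Nonempty →
      ∀ a : ℕ → ℝ, ∀ b : Fin m → ℕ → ℝ,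
        (∀ t : ℝ, 0 ≤ t →
          (MeasureTheory.volume (Metric.cthickening t K)).toReal =
            ∑ j ∈ Finset.range (m + 1),
              (MeasureTheory.volume
                (Metric.ball (0 : EuclideanSpace ℝ (Fin (m - j))) 1)).toReal
                * a j * t ^ (m - j)) →
        (∀ i : Fin m, ∀ t : ℝ, 0 ≤ t →
          (MeasureTheory.volume (Metric.cthickening t
            ((fun x : EuclideanSpace ℝ (Fin m) =>
                x - (inner ℝ x (EuclideanSpace.single i (1 : ℝ))) •
                  EuclideanSpace.single i (1 : ℝ)) '' K))).toReal =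
            ∑ j ∈ Finset.range (m + 1),
              (MeasureTheory.volume
                (Metric.ball (0 : EuclideanSpace ℝ (Fin (m - j))) 1)).toReal
                * b i j * t ^ (m - j)) →
        ((m : ℝ) - (n : ℝ)) * a n ≤ ∑ i : Fin m, b i n := by
  intro m hm n hn K hK hK' _ a b ha hb
  let f : ℕ → ℝ := fun k =>
    (MeasureTheory.volume (Metric.ball (0 : EuclideanSpace ℝ (Fin k)) 1)).toReal
  have hf : 0 < f (m - n) :=
    ENNReal.toReal_pos (Metric.measure_ball_pos _ _ one_pos).ne' MeasureTheory.measure_ball_lt_top.ne
  have key := Pool.Agent.H297Z.BM.steiner_ineq (by omega) ⟨hK, hK'⟩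
    (fun k => f k * a (m - k)) (fun i k => f k * b i (m - k))
    (fun t ht => (ha t ht).trans (Pool.Agent.H297Z.BM.reindex f a t))
    (fun i t ht => by
      rw [← Pool.Agent.H297Z.BM.pr_eq]
      exact (hb i t ht).trans (Pool.Agent.H297Z.BM.reindex f (b i) t))
    (m - n) (by omega)
  simp only [show m - (m - n) = n by omega] at key
  rw [← Finset.mul_sum, Nat.cast_sub hn.le, mul_left_comm] at key
  exact le_of_mul_le_mul_left key hf

end Pool.Agent.S13033
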