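import Pool.Statements.S13106
import Pool.Agent.H45Z.LpB

set_option autoImplicit false
open MeasureTheory
open scoped Pointwise
open Pool Pool.MP_46ea74_gt

namespace Pool.Agent.S13106

/-- The negation of the preceding statement: For n at least 2, p in [0,1], convex bodies K, L in R^n containing 0: with S_p(A) the boundary integral of h_A(normal)^(1-p) against (n-1)-Hausdorff measure, S_p(K+L)^(1/(n-p)) is at least S_p(K)^(1/(n-p)) plus S_p(L)^(1/(n-p)). -/
theorem result :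
    ¬ (∀ n : ℕ, 2 ≤ n → ∀ p : ℝ, 0 ≤ p → p ≤ 1 →
  ∀ K L : Set (EuclideanSpace ℝ (Fin n)),
    Convex ℝ K → IsCompact K → (interior K).Nonempty → (0 : EuclideanSpace ℝ (Fin n)) ∈ K →
    Convex ℝ L → IsCompact L → (interior L).Nonempty → (0 : EuclideanSpace ℝ (Fin n)) ∈ L →
    ∀ Sp : Set (EuclideanSpace ℝ (Fin n)) → ℝ,
      (∀ A : Set (EuclideanSpace ℝ (Fin n)), Sp A =
        ∫ x in frontier A,
          (sSup {t : ℝ | ∃ u : EuclideanSpace ℝ (Fin n), ‖u‖ = 1 ∧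
            (∀ y ∈ A, @inner ℝ _ _ y u ≤ @inner ℝ _ _ x u) ∧ t = @inner ℝ _ _ x u}) ^ (1 - p)
          ∂(μH[(n : ℝ) - 1])) →
      Sp K ^ (1 / ((n : ℝ) - p)) + Sp L ^ (1 / ((n : ℝ) - p))
        ≤ Sp (K + L) ^ (1 / ((n : ℝ) - p))) := by
  intro h
  have zK := Pool.Agent.H45Z.Lp.zero_int (c := 400 / 40001) (s := 39999 / 40001) (a := 1500)
    (b := 100) (H1 := 16) (H2 := 9) (by norm_num) (by norm_num) (by norm_num) (by norm_num)
  have zL := Pool.Agent.H45Z.Lp.zero_int (c := 400 / 40001) (s := 39999 / 40001) (a := 100)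
    (b := 1500) (H1 := 9) (H2 := 16) (by norm_num) (by norm_num) (by norm_num) (by norm_num)
  have h1 := h 2 le_rfl (1 / 2) (by norm_num) (by norm_num) _ _
    (Pool.Agent.H45Z.Lp.P_convex _ _ _ _ _ _) (Pool.Agent.H45Z.Lp.P_compact (by norm_num))
    ⟨0, zK⟩ (interior_subset zK)
    (Pool.Agent.H45Z.Lp.P_convex _ _ _ _ _ _) (Pool.Agent.H45Z.Lp.P_compact (by norm_num))
    ⟨0, zL⟩ (interior_subset zL) Pool.Agent.H45Z.Lp.S (by
      intro A
      have e : ((2 : ℕ) : ℝ) - 1 = 1 := by norm_num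
      rw [e]
      rfl)
  exact absurd h1 (not_le.mpr Pool.Agent.H45Z.Lp.fails)

end Pool.Agent.S13106
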