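import Pool.Statements.S13109
import Pool.Agent.H288Z.MG.Nil

set_option autoImplicit false
open scoped Pointwise
open Pool Pool.MP_47df8f_gt

namespace Pool.Agent.S13109

/-- Every Hausdorff nilpotent topological group that is precompact, minimal (no strictly coarser Hausdorff group topology) and of countable tightness is metrizable. -/
theorem result :
    ∀ (G : Type) [Group G] [t : TopologicalSpace G] [IsTopologicalGroup G] [T2Space G],
      Group.IsNilpotent G →
      (∀ U ∈ nhds (1 : G), ∃ F : Finset G, ∀ x : G, ∃ g ∈ F, x ∈ g • U) →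
      (∀ t' : TopologicalSpace G, t ≤ t' → @IsTopologicalGroup G t' _ → @T2Space G t' → t' = t) →
      (∀ (A : Set G) (x : G), x ∈ closure A → ∃ B ⊆ A, B.Countable ∧ x ∈ closure B) →
      TopologicalSpace.MetrizableSpace G := by
  intro G _ t _ _ hN hP hmin hT
  refine Pool.Agent.H288Z.MG.metrizable_of_nilpotent hN (fun U hU => ?_)
    (fun τ h1 h2 h3 => hmin τ h3 h1 h2) hT
  obtain ⟨F, hF⟩ := hP U hU
  refine ⟨F, F.finite_toSet, fun g => ?_⟩
  obtain ⟨f, hf, hf'⟩ := hF g
  exact ⟨f, hf, Set.mem_smul_set_iff_inv_smul_mem.mp hf'⟩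

end Pool.Agent.S13109
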