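import Pool.Statements.S13166
import Pool.Agent.H186Z.Bel.Null

set_option autoImplicit false
open Pool Pool.MP_52b37d_gt

namespace Pool.Agent.S13166

/-- The negation of the preceding statement: For every nondegenerate metric continuum X with a continuous surjection f such that no proper subcontinuum contains both x and f(x), there is a continuous surjection X → circle not homotopic to any constant map. -/
theorem result :
    ¬ (∀ (X : Type) [MetricSpace X] [CompactSpace X] [ConnectedSpace X] [Nontrivial X]
      (f : C(X, X)), Function.Surjective f →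
      (∀ x : X, ∀ K : Set X, IsClosed K → IsConnected K → x ∈ K → f x ∈ K → K = Set.univ) →
      ∃ g : C(X, Circle), Function.Surjective g ∧
        ∀ c : Circle, ¬ ContinuousMap.Homotopic g (ContinuousMap.const X c)) := by
  intro h
  letI : MetricSpace Pool.Agent.H186Z.Bel.M :=
    TopologicalSpace.metrizableSpaceMetric Pool.Agent.H186Z.Bel.M
  obtain ⟨g, -, hg⟩ := h Pool.Agent.H186Z.Bel.M Pool.Agent.H186Z.Bel.fM
    Pool.Agent.H186Z.Bel.fM_surj Pool.Agent.H186Z.Bel.irred
  exact hg 1 (Pool.Agent.H186Z.Bel.null g)

end Pool.Agent.S13166
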