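import Pool.Statements.S13210
import Pool.Agent.H502Z.Iso.Box

set_option autoImplicit false
open MeasureTheory
open scoped Pointwise
open Pool Pool.MP_598757_gt

namespace Pool.Agent.S13210

/-- The negation of the preceding statement: For every convex body K in 3-space and real c: if every orthogonal plane projection has isoperimetric ratio π·area/V₁² at least c, then 9π·vol(K)²/(2·V₂(K)³) is at least c (V₁, V₂ given via Steiner-formula limits). -/
theorem result :
    ¬ (∀ (K : Set (EuclideanSpace ℝ (Fin 3))) (c : ℝ),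
    IsCompact K → Convex ℝ K → (interior K).Nonempty →
    (∀ u ∈ Metric.sphere (0 : EuclideanSpace ℝ (Fin 3)) 1, ∀ L : ℝ,
      Filter.Tendsto (fun t : ℝ =>
        ((volume ((fun x : EuclideanSpace ℝ (Fin 3) => x - (inner ℝ u x) • u) '' K
              + Metric.closedBall (0 : EuclideanSpace ℝ (Fin 3)) t)).toReal
          - 2 * t * ((volume (K + segment ℝ (0 : EuclideanSpace ℝ (Fin 3)) u)).toReal
              - (volume K).toReal)) / (Real.pi * t ^ 2))
        (nhdsWithin 0 (Set.Ioi 0)) (nhds L) →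
      c ≤ Real.pi * ((volume (K + segment ℝ (0 : EuclideanSpace ℝ (Fin 3)) u)).toReal
              - (volume K).toReal) / L ^ 2) →
    ∀ S : ℝ,
      Filter.Tendsto (fun t : ℝ =>
        ((volume (K + Metric.closedBall (0 : EuclideanSpace ℝ (Fin 3)) t)).toReal
          - (volume K).toReal) / (2 * t))
        (nhdsWithin 0 (Set.Ioi 0)) (nhds S) →
      c ≤ 9 * Real.pi * (volume K).toReal ^ 2 / (2 * S ^ 3)) := by
  intro H
  open Pool.Agent.H502Z.Iso in
  have hK := box_compact 1 1 (1 / 1000)
  open Pool.Agent.H502Z.Iso in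
  have hc := box_convex 1 1 (1 / 1000)
  have pi3 := Real.pi_gt_three
  have pi4 := Real.pi_lt_four
  open Pool.Agent.H502Z.Iso in
  have := H (box 1 1 (1 / 1000)) (3 / 100000) hK hc ?_ ?_ _
    (box_lim (p := 1) (q := 1) (r := 1 / 1000) (by norm_num) (by norm_num) (by norm_num))
  · have e := H502Z.Iso.box_vol (p := 1) (q := 1) (r := 1 / 1000) (by norm_num) (by norm_num)
      (by norm_num)
    rw [Measure.real] at e
    rw [e, le_div_iff₀ (by norm_num)] at this
    linarith
  · refine ⟨0, mem_interior.2 ⟨Metric.ball 0 (1 / 1000), fun x hx => ?_, Metric.isOpen_ball, by simp⟩⟩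
    have h : ∀ k, |x k| ≤ 1 / 1000 := fun k =>
      (H502Z.Iso.coord_le x k).trans (mem_ball_zero_iff.1 hx).le
    exact ⟨by linarith [h 0], by linarith [h 1], h 2⟩
  · intro u hu L hL
    obtain ⟨b, rfl, hb⟩ := H502Z.Iso.exists_basis u (by simpa using hu)
    have nb : ∀ k j, |b k j| ≤ 1 := fun k j => by
      simpa [b.orthonormal.1 k] using H502Z.Iso.coord_le (b k) j
    have mem : ∀ s r : ℝ, |s| ≤ 1 / 2 → |r| ≤ 1 / 1000 →
        s • b 1 + r • b 2 ∈ H502Z.Iso.box 1 1 (1 / 1000) := fun s r hs hr => by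
      have h : ∀ j, |(s • b 1 + r • b 2) j| ≤ 1 := fun j => by
        simp only [PiLp.add_apply, PiLp.smul_apply, smul_eq_mul]
        refine (abs_add_le _ _).trans ?_
        rw [abs_mul, abs_mul]
        nlinarith [nb 1 j, nb 2 j, abs_nonneg s, abs_nonneg r]
      refine ⟨h 0, h 1, ?_⟩
      simp only [PiLp.add_apply, PiLp.smul_apply, smul_eq_mul, hb, mul_zero, zero_add, abs_mul]
      nlinarith [nb 2 2, abs_nonneg r]
    have eA : (volume (H502Z.Iso.box 1 1 (1 / 1000) + segment ℝ 0 (b 0))).toReal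
        - (volume (H502Z.Iso.box 1 1 (1 / 1000))).toReal =
        volume.real (H502Z.Iso.pr b 0 '' H502Z.Iso.box 1 1 (1 / 1000)) := by
      have e : segment ℝ 0 (b 0) = H502Z.Iso.seg b 0 0 1 := by
        rw [segment_eq_image]
        simp [H502Z.Iso.seg]
      have := H502Z.Iso.cavR b 0 hK hc zero_le_one
      simp only [Measure.real] at this ⊢
      rw [e, this]
      ring
    rw [eA] at hL ⊢
    have hA : 4 * (1 / 2) * (1 / 1000) ≤
        volume.real (H502Z.Iso.pr b 0 '' H502Z.Iso.box 1 1 (1 / 1000)) := by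
      refine H502Z.Iso.rect_ge b 0 hK (by norm_num) (by norm_num) fun s r hs hr => ?_
      refine ⟨_, mem s r hs hr, ?_⟩
      have e0 : Fin.succAbove (0 : Fin 3) 0 = 1 := rfl
      have e1 : Fin.succAbove (0 : Fin 3) 1 = 2 := rfl
      simp only [H502Z.Iso.pr, e0, e1, inner_add_right, inner_smul_right, H502Z.Iso.inner_bb]
      simp
    have hR : ∀ x ∈ H502Z.Iso.box 1 1 (1 / 1000), ‖x‖ ≤ 2 := by
      rintro x ⟨h0, h1, h2⟩
      rw [EuclideanSpace.norm_eq, Real.sqrt_le_iff, Fin.sum_univ_three]
      simp only [Real.norm_eq_abs]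
      refine ⟨by norm_num, ?_⟩
      nlinarith [abs_nonneg (x 0), abs_nonneg (x 1), abs_nonneg (x 2)]
    have l1 : 1 / 4 ≤ L := by
      refine ge_of_tendsto hL ?_
      filter_upwards [self_mem_nhdsWithin] with t ht
      have ht : 0 < t := ht
      have := H502Z.Iso.lower b hK hc (fun r hr => by simpa using mem r 0 hr (by norm_num)) ht.le
      rw [le_div_iff₀ (by positivity)]
      simp only [Measure.real] at this ⊢
      unfold H502Z.Iso.P at this
      nlinarith [sq_pos_of_pos ht]
    have l2 : L ≤ 14 := by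
      refine le_of_tendsto hL ?_
      filter_upwards [Ioo_mem_nhdsGT (zero_lt_one' ℝ)] with t ht
      have := H502Z.Iso.upper b hK hc hR ht.1.le ht.2.le
      rw [div_le_iff₀ (by have := ht.1; positivity)]
      simp only [Measure.real] at this ⊢
      unfold H502Z.Iso.P at this
      nlinarith [sq_pos_of_pos ht.1]
    rw [le_div_iff₀ (by positivity)]
    nlinarith

end Pool.Agent.S13210
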