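import Pool.Statements.S13243
import Pool.Agent.H288Z.MG.Compl

set_option autoImplicit false
open Filter Topology
open Pool Pool.MP_5ca319_gt

namespace Pool.Agent.S13243

/-- Every infinite Hausdorff topological group that is countably compact (every sequence has a cluster point) and minimal (no strictly coarser Hausdorff group topology) contains an injective sequence converging to some point. -/
theorem result :
    ∀ (G : Type) [Group G] [t : TopologicalSpace G] [IsTopologicalGroup G] [T2Space G]
      [Infinite G],
      (∀ u : ℕ → G, ∃ x : G, MapClusterPt x atTop u) →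
      (∀ τ' : TopologicalSpace G, @IsTopologicalGroup G τ' _ → @T2Space G τ' →
          t ≤ τ' → τ' = t) →
      ∃ (u : ℕ → G) (x : G), Function.Injective u ∧ Tendsto u atTop (𝓝 x) := by
  intro G _ t _ _ _ h hmin
  obtain ⟨v, hv1, hv2⟩ := Pool.Agent.H288Z.MG.main
    (Pool.Agent.H288Z.MG.precompact_of_cluster h) hmin
  exact ⟨v, 1, hv1, hv2⟩

end Pool.Agent.S13243
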