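import Pool.Statements.S13331

set_option autoImplicit false
open Pool Pool.MP_6c8a84_gt

namespace Pool.Agent.S13331

open Complex Set

/-- winding obstruction: a periodic homotopy in the punctured plane from a map into a disc missing
the origin to a round circle is impossible -/
theorem wind (K : unitInterval × ℝ → ℂ) (hK : Continuous K) (h0 : ∀ q, K q ≠ 0)
    (hper : ∀ s θ, K (s, θ + 2 * Real.pi) = K (s, θ)) (w : ℂ)
    (hw : ∀ θ, ‖K (0, θ) - w‖ < ‖w‖) (r : ℂ) (hr : ∀ θ : ℝ, K (1, θ) = r * cexp (θ * I)) :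
    False := by
  have hw0 : w ≠ 0 := by
    intro h
    have := hw 0
    rw [h, norm_zero] at this
    exact absurd this (not_lt.mpr (norm_nonneg _))
  have hslit : ∀ θ, K (0, θ) / w ∈ slitPlane := by
    intro θ
    have e : K (0, θ) / w = 1 + (K (0, θ) - w) / w := by field_simp; ring
    rw [e]
    apply Complex.mem_slitPlane_of_norm_lt_one
    rw [norm_div, div_lt_one (norm_pos_iff.mpr hw0)]
    exact hw θ
  let H : C(unitInterval × ℝ, {z : ℂ // z ≠ 0}) := ⟨fun q => ⟨K q, h0 q⟩, hK.subtype_mk _⟩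
  let f : C(ℝ, ℂ) := ⟨fun θ => Complex.log (K (0, θ) / w) + Complex.log w, by
    refine Continuous.add ?_ continuous_const
    exact Continuous.clog (by fun_prop) hslit⟩
  have H0 : ∀ θ, H (0, θ) = (⟨cexp (f θ), Complex.exp_ne_zero _⟩ : {z : ℂ // z ≠ 0}) := by
    intro θ
    apply Subtype.ext
    show K (0, θ) = cexp (Complex.log (K (0, θ) / w) + Complex.log w)
    rw [Complex.exp_add, Complex.exp_log (div_ne_zero (h0 _) hw0), Complex.exp_log hw0]
    field_simp
  have cov := Complex.isCoveringMap_exp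
  let L := cov.liftHomotopy H f H0
  have hL : ∀ q, cexp (L q) = K q := fun q =>
    congrArg Subtype.val (congrFun (cov.liftHomotopy_lifts H f H0) q)
  let L' : C(unitInterval × ℝ, ℂ) := ⟨fun q => L (q.1, q.2 + 2 * Real.pi), by fun_prop⟩
  have hLL : L' = L := by
    rw [cov.eq_liftHomotopy_iff' H0 L']
    constructor
    · funext q
      apply Subtype.ext
      show cexp (L (q.1, q.2 + 2 * Real.pi)) = K q
      rw [hL, hper]
    · intro θ
      show L (0, θ + 2 * Real.pi) = f θ
      rw [cov.liftHomotopy_zero H f H0]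
      show Complex.log (K (0, θ + 2 * Real.pi) / w) + Complex.log w = _
      rw [hper]
      rfl
  have hG : (fun θ : ℝ => L (1, θ)) = fun θ : ℝ => L (1, 0) + θ * I := by
    refine cov.eq_of_comp_eq (by fun_prop) (by fun_prop) ?_ 0 (by simp)
    funext θ
    apply Subtype.ext
    show cexp (L (1, θ)) = cexp (L (1, 0) + θ * I)
    rw [Complex.exp_add, hL, hL, hr, hr]
    simp
  have e1 : L (1, 0 + 2 * Real.pi) = L (1, 0) := congrArg (fun M : C(unitInterval × ℝ, ℂ) => M (1, 0)) hLL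
  have e2 := congrFun hG (0 + 2 * Real.pi)
  rw [e1] at e2
  have e3 : ((0 + 2 * Real.pi : ℝ) : ℂ) * I = 0 := by linear_combination -e2
  have e4 := congrArg Complex.im e3
  simp at e4

theorem stable (D : Set ℂ) (hc : D.Countable) (hd : Dense D)
    (h : ↥Dᶜ × unitInterval → ↥Dᶜ) (hh : Continuous h) (h0 : ∀ x, h (x, 0) = x)
    (a : ↥Dᶜ) (t : unitInterval) : h (a, t) = a := by
  by_contra hne
  have hdpos : 0 < dist (h (a, t)) a := dist_pos.mpr hne
  set d := dist (h (a, t)) a with hdd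
  have hc1 : Continuous (fun x => h (x, t)) := by fun_prop
  obtain ⟨δ, hδ, hδ'⟩ := Metric.continuous_iff.mp hc1 a (d / 2) (by positivity)
  obtain ⟨p, hpD, hp⟩ : ∃ p ∈ D, dist p a < min (δ / 2) (d / 2) := by
    obtain ⟨p, hp1, hp2⟩ := Metric.dense_iff.mp hd (a : ℂ) (min (δ / 2) (d / 2)) (by positivity)
    exact ⟨p, hp2, hp1⟩
  obtain ⟨r, hr1, hr2⟩ : ∃ r ∈ Ioo (0 : ℝ) (δ / 2), r ∉ (fun z => ‖z - p‖) '' D := by
    obtain ⟨r, hr1, hr2⟩ := ((hc.image (fun z => ‖z - p‖)).dense_compl ℝ).inter_open_nonempty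
      (Ioo (0 : ℝ) (δ / 2)) isOpen_Ioo ⟨δ / 4, by constructor <;> linarith⟩
    exact ⟨r, hr1, hr2⟩
  have hnorm : ∀ θ : ℝ, ‖(r : ℂ) * cexp (θ * I)‖ = r := by
    intro θ
    rw [norm_mul, Complex.norm_exp_ofReal_mul_I, mul_one, Complex.norm_real, Real.norm_eq_abs,
      abs_of_pos hr1.1]
  have hmem : ∀ θ : ℝ, p + r * cexp (θ * I) ∈ Dᶜ := by
    intro θ hθ
    exact hr2 ⟨_, hθ, by simp [abs_of_pos hr1.1, Complex.norm_exp_ofReal_mul_I]⟩
  let c : ℝ → ↥Dᶜ := fun θ => ⟨p + r * cexp (θ * I), hmem θ⟩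
  have hcc : Continuous c := Continuous.subtype_mk (by fun_prop) _
  have hcper : ∀ θ, c (θ + 2 * Real.pi) = c θ := by
    intro θ
    apply Subtype.ext
    show p + r * cexp (((θ + 2 * Real.pi : ℝ) : ℂ) * I) = p + r * cexp (θ * I)
    rw [show ((θ + 2 * Real.pi : ℝ) : ℂ) * I = θ * I + 2 * Real.pi * I by push_cast; ring,
      Complex.exp_add, Complex.exp_two_pi_mul_I, mul_one]
  refine wind (fun q => (h (c q.2, unitInterval.symm q.1 * t) : ℂ) - p) ?_ ?_ ?_
    ((h (a, t) : ℂ) - p) ?_ r ?_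
  · refine Continuous.sub (continuous_subtype_val.comp (hh.comp ?_)) continuous_const
    refine (hcc.comp continuous_snd).prodMk ?_
    exact (unitInterval.continuous_symm.comp continuous_fst).mul continuous_const
  · intro q hq
    have e : (h (c q.2, unitInterval.symm q.1 * t) : ℂ) = p := sub_eq_zero.mp hq
    exact (h (c q.2, unitInterval.symm q.1 * t)).2 (e ▸ hpD)
  · intro s θ
    simp only [hcper]
  · intro θ
    simp only [unitInterval.symm_zero, one_mul]
    have d1 : dist (c θ) a < δ := by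
      have d2 : dist (c θ : ℂ) p = r := by
        rw [dist_eq_norm]
        simpa [c] using hnorm θ
      have d3 := dist_triangle (c θ : ℂ) p a
      have d4 := (lt_min_iff.mp hp).1
      rw [Subtype.dist_eq]
      linarith [hr1.2]
    have d5 := hδ' _ d1
    have d6 : ‖((h (c θ, t) : ℂ) - p) - ((h (a, t) : ℂ) - p)‖ = dist (h (c θ, t)) (h (a, t)) := by
      rw [Subtype.dist_eq, dist_eq_norm]
      congr 1
      ring
    have d7 := dist_triangle (h (a, t) : ℂ) p a
    have d8 := (lt_min_iff.mp hp).2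
    rw [d6, ← dist_eq_norm]
    rw [Subtype.dist_eq] at hdd
    linarith
  · intro θ
    simp [h0, c]

theorem slopes (D : Set ℂ) (hc : D.Countable) (x : ℂ) (hx : x ∉ D) :
    Dense {v : ℝ | ∀ t : ℝ, x + t * (1 + v * I) ∉ D} := by
  refine ((hc.image (fun z => (z - x).im / (z - x).re)).dense_compl ℝ).mono ?_
  intro v hv t ht
  apply hv
  refine ⟨_, ht, ?_⟩
  have ht0 : t ≠ 0 := by
    rintro rfl
    simp at ht
    exact hx ht
  simp
  field_simp

/-- There is a metric space X on which every homotopy starting at the identity is stationary, yet some continuous open surjection g from a metric space Z onto X admits a homotopy starting at g that moves some point. -/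
theorem result :
    ∃ (X : Type) (_ : MetricSpace X),
      (∀ h : X × unitInterval → X, Continuous h →
          (∀ x : X, h (x, (0 : unitInterval)) = x) →
          ∀ (a : X) (t : unitInterval), h (a, t) = a) ∧
      ∃ (Z : Type) (_ : MetricSpace Z) (g : Z → X),
        Continuous g ∧ IsOpenMap g ∧ Function.Surjective g ∧
        ∃ (a : Z) (h : Z × unitInterval → X), Continuous h ∧
          (∀ z : Z, h (z, (0 : unitInterval)) = g z) ∧
          ∃ t : unitInterval, h (a, t) ≠ g a := by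
  obtain ⟨D, hc, hd⟩ := TopologicalSpace.exists_countable_dense ℂ
  refine ⟨↥Dᶜ, inferInstance, stable D hc hd,
    {q : ℂ × ℝ // ∀ t : ℝ, q.1 + t * (1 + q.2 * I) ∉ D}, inferInstance,
    fun z => ⟨z.1.1, by simpa using z.2 0⟩, ?_, ?_, ?_, ?_⟩
  · apply Continuous.subtype_mk
    fun_prop
  · intro U hU
    rw [Metric.isOpen_iff] at hU ⊢
    rintro _ ⟨z, hz, rfl⟩
    obtain ⟨ε, hε, hb⟩ := hU z hz
    refine ⟨ε, hε, fun x hx => ?_⟩
    obtain ⟨v, hv1, hv2⟩ := Metric.dense_iff.mp (slopes D hc x.1 x.2) z.1.2 ε hε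
    refine ⟨⟨(x.1, v), hv2⟩, hb ?_, rfl⟩
    rw [Metric.mem_ball, Subtype.dist_eq, Prod.dist_eq, max_lt_iff]
    exact ⟨hx, hv1⟩
  · intro x
    obtain ⟨v, hv⟩ := (slopes D hc x.1 x.2).nonempty
    exact ⟨⟨(x.1, v), hv⟩, rfl⟩
  · obtain ⟨x, hx⟩ := (hc.dense_compl ℝ).nonempty
    obtain ⟨v, hv⟩ := (slopes D hc x hx).nonempty
    refine ⟨⟨(x, v), hv⟩, fun q => ⟨q.1.1.1 + (q.2 : ℝ) * (1 + q.1.1.2 * I), q.1.2 _⟩,
      Continuous.subtype_mk (by fun_prop) _, ?_, 1, ?_⟩
    · intro z
      apply Subtype.ext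
      simp
    · intro h
      have := congrArg (fun w : ↥Dᶜ => w.1.re) h
      simp at this

end Pool.Agent.S13331
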