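import Pool.Statements.S13350
import Pool.Agent.H903Z.EG.Counter

set_option autoImplicit false
open Pool Pool.MP_6dddf9_gt

namespace Pool.Agent.S13350

open Set Filter Topology Pool.Agent.H903Z.EG

open Classical in
/-- a tree is sent to the indicator function of the clopen set of its descendants -/
noncomputable def emb (y : Tr) (u : Ultrafilter Tr) : ℝ := if y.A ∈ u then 1 else 0

lemma emb_eq_iff {x y : Tr} {u : Ultrafilter Tr} : emb y u = emb x u ↔ (y.A ∈ u ↔ x.A ∈ u) := by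
  unfold emb
  split_ifs <;> simp_all

lemma emb_pure {x y : Tr} : emb y (pure x) ≠ 0 ↔ x ∈ y.A := by
  unfold emb
  split_ifs <;> simp_all

lemma emb_inj : Function.Injective emb := by
  intro x y h
  have h1 : x ∈ y.A := emb_pure.1 (h ▸ emb_pure.2 x.self_mem)
  have h2 : y ∈ x.A := emb_pure.1 (h.symm ▸ emb_pure.2 y.self_mem)
  rcases Tr.rk_lt _ _ h1 with h1 | h1
  · exact h1
  · rcases Tr.rk_lt _ _ h2 with h2 | h2
    · exact h2.symm
    · exact absurd (h1.trans h2) (lt_irrefl _)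

lemma emb_cont (y : Tr) : Continuous (emb y) := by
  classical
  have h : IsClopen {u : Ultrafilter Tr | y.A ∈ u} :=
    ⟨ultrafilter_isClosed_basic _, ultrafilter_isOpen_basic _⟩
  have := h.continuous_indicator (f := fun _ => (1 : ℝ)) continuous_const
  convert this using 1
  ext u
  simp [emb, indicator]

/-- The negation of the preceding statement: Every space that embeds in C_p(K) for some compact Hausdorff K, is hereditarily meta-Lindelöf and is scattered, is a countable union of discrete subspaces. -/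
theorem result :
    ¬ (∀ (X : Type) [TopologicalSpace X],
      (∃ (K : Type) (_ : TopologicalSpace K) (_ : CompactSpace K) (_ : T2Space K)
          (f : X → K → ℝ), Topology.IsEmbedding f ∧ ∀ x, Continuous (f x)) →
      (∀ S : Set X, ∀ 𝒰 : Set (Set S), (∀ U ∈ 𝒰, IsOpen U) → ⋃₀ 𝒰 = Set.univ →
          ∃ 𝒱 : Set (Set S), (∀ V ∈ 𝒱, IsOpen V) ∧ ⋃₀ 𝒱 = Set.univ ∧
            (∀ V ∈ 𝒱, ∃ U ∈ 𝒰, V ⊆ U) ∧
            ∀ x : S, {V | V ∈ 𝒱 ∧ x ∈ V}.Countable) →
      (∀ S : Set X, S.Nonempty → ∃ x ∈ S, ∃ U : Set X, IsOpen U ∧ U ∩ S = {x}) →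
      ∃ D : ℕ → Set X, (⋃ n, D n) = Set.univ ∧ ∀ n, DiscreteTopology (D n)) := by
  intro h
  letI : TopologicalSpace Tr := TopologicalSpace.induced emb inferInstance
  have hemb : IsEmbedding emb := ⟨⟨rfl⟩, emb_inj⟩
  have hW : ∀ x : Tr, IsOpen {y : Tr | x ∈ y.A} := by
    intro x
    have h1 : Continuous fun y : Tr => emb y (pure x) :=
      (continuous_apply (pure x : Ultrafilter Tr)).comp hemb.continuous
    have := (isOpen_ne_fun h1 (continuous_const (y := (0 : ℝ))))
    simpa only [emb_pure] using this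
  obtain ⟨D, hD, hdisc⟩ := h Tr ⟨Ultrafilter Tr, inferInstance, inferInstance, inferInstance, emb,
    hemb, emb_cont⟩ (by
      intro S 𝒰 h𝒰 hcov
      have : ∀ s : S, ∃ U ∈ 𝒰, s ∈ U := fun s => by
        have : s ∈ ⋃₀ 𝒰 := hcov ▸ mem_univ s
        exact this
      choose U hU hsU using this
      refine ⟨range fun s : S => U s ∩ Subtype.val ⁻¹' {y : Tr | s.1 ∈ y.A}, ?_, ?_, ?_, ?_⟩
      · rintro _ ⟨s, rfl⟩
        exact (h𝒰 _ (hU s)).inter ((hW _).preimage continuous_subtype_val)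
      · rw [eq_univ_iff_forall]
        exact fun s => ⟨_, ⟨s, rfl⟩, hsU s, s.1.self_mem⟩
      · rintro _ ⟨s, rfl⟩
        exact ⟨_, hU s, inter_subset_left⟩
      · intro x
        refine ((x.1.countable_A.preimage Subtype.val_injective (s := x.1.A)).image
          fun s : S => U s ∩ Subtype.val ⁻¹' {y : Tr | s.1 ∈ y.A}).mono ?_
        rintro _ ⟨⟨s, rfl⟩, hs⟩
        exact ⟨s, hs.2, rfl⟩) (by
      intro S hS
      obtain ⟨x, hx, hmin⟩ := (InvImage.wf Tr.rk wellFounded_lt).has_min S hS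
      refine ⟨x, hx, _, hW x, ?_⟩
      ext y
      constructor
      · rintro ⟨h1, h2⟩
        rcases Tr.rk_lt _ _ h1 with h1 | h1
        · exact h1.symm
        · exact absurd h1 (hmin y h2)
      · rintro rfl
        exact ⟨y.self_mem, hx⟩)
  have hc : ∀ x : Tr, ∃ n, x ∈ D n := fun x => mem_iUnion.1 (hD ▸ mem_univ x)
  choose c hc using hc
  have hl : ∀ x : Tr, ∃ l : List (Ultrafilter Tr), ∀ y : Tr, c y = c x →
      (∀ v ∈ l, (y.A ∈ v ↔ x.A ∈ v)) → y = x := by
    intro x
    have h1 : IsOpen ({⟨x, hc x⟩} : Set (D (c x))) := @isOpen_discrete _ _ (hdisc _) _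
    obtain ⟨V, hV, hVx⟩ := isOpen_induced_iff.1 h1
    obtain ⟨W, hW, rfl⟩ := isOpen_induced_iff.1 hV
    have hxW : emb x ∈ W := by
      have : (⟨x, hc x⟩ : D (c x)) ∈ Subtype.val ⁻¹' (emb ⁻¹' W) := by rw [hVx]; rfl
      exact this
    obtain ⟨I, t, ht, hIW⟩ := isOpen_pi_iff.1 hW _ hxW
    refine ⟨I.toList, fun y hy hv => ?_⟩
    have h2 : (⟨y, hy ▸ hc y⟩ : D (c x)) ∈ Subtype.val ⁻¹' (emb ⁻¹' W) := by
      apply hIW
      intro v hvI
      show emb y v ∈ t v
      rw [emb_eq_iff.2 (hv v (Finset.mem_toList.2 hvI))]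
      exact (ht v hvI).2
    rw [hVx] at h2
    exact congrArg Subtype.val h2
  choose l hl using hl
  refine no_colouring (fun x => (c x, (l x).length)) (fun x i => (l x).getD i (pure x)) ?_
  intro x y hxy hi
  refine hl x y (congrArg Prod.fst hxy) fun v hv => ?_
  obtain ⟨i, hi', rfl⟩ := List.getElem_of_mem hv
  have := hi i hi'
  rwa [List.getD_eq_getElem _ _ hi'] at this

end Pool.Agent.S13350
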