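import Pool.Statements.S13377
import Pool.Agent.H129Z.RemoteP

set_option autoImplicit false
open Pool Pool.MP_717cd6_gt

namespace Pool.Agent.S13377

/-- There is a regular T1 topological space in which countable intersections of open sets are open, yet some non-closed set A contains no subset that is discrete in itself and has a closure point outside A. -/
theorem result :
    ∃ (X : Type) (t : TopologicalSpace X),
      T3Space X ∧
      (∀ U : ℕ → Set X, (∀ n, IsOpen (U n)) → IsOpen (⋂ n, U n)) ∧
      ¬ (∀ A : Set X, ¬ IsClosed A →
          ∃ D : Set X, D ⊆ A ∧ DiscreteTopology D ∧ (closure D \ A).Nonempty) := by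
  refine ⟨Option H129Z.RemoteP.Y, H129Z.RemoteP.top, H129Z.RemoteP.t3,
    fun U hU => H129Z.RemoteP.Op_iInter hU, fun h => ?_⟩
  obtain ⟨D, h1, h2, x, hx, hx'⟩ := h (Set.range some) H129Z.RemoteP.not_closed
  cases x with
  | none => exact H129Z.RemoteP.remote D h1 h2 hx
  | some y => exact hx' ⟨y, rfl⟩

end Pool.Agent.S13377
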