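import Pool.Statements.S13432
import Pool.Agent.H410Z.QuasiFixed

set_option autoImplicit false
open Pool Pool.MP_7ca978_gt

namespace Pool.Agent.S13432

/-- The negation of the preceding statement: For every n ≥ 1, every orthogonal map T of ℝ^n and any n−1 real functions continuous on the unit sphere, some point p of the sphere satisfies φ_i(Tp) = φ_i(p) for all i. -/
theorem result :
    ¬ (∀ n : ℕ, 1 ≤ n →
      ∀ T : EuclideanSpace ℝ (Fin n) ≃ₗᵢ[ℝ] EuclideanSpace ℝ (Fin n),
      ∀ φ : Fin (n - 1) → EuclideanSpace ℝ (Fin n) → ℝ,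
        (∀ i, ContinuousOn (φ i) (Metric.sphere (0 : EuclideanSpace ℝ (Fin n)) 1)) →
        ∃ p ∈ Metric.sphere (0 : EuclideanSpace ℝ (Fin n)) 1,
          ∀ i, φ i (T p) = φ i p) := by
  intro h
  obtain ⟨p, hp, hq⟩ := h 5 (by norm_num) Pool.Agent.H410Z.QuasiFixed.rot
    Pool.Agent.H410Z.QuasiFixed.phi
    (fun i => (Pool.Agent.H410Z.QuasiFixed.cont i).continuousOn)
  rw [Pool.Agent.H410Z.QuasiFixed.key p hq] at hp
  simp at hp

end Pool.Agent.S13432
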