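import Pool.Statements.S13440
import Pool.Agent.H86Z.Rect.C

set_option autoImplicit false
open Pool Pool.MP_7db8f6_gt

namespace Pool.Agent.S13440

/-- The negation of the preceding statement: Every T3 (regular T1) space X admitting a homeomorphism φ of X×X that preserves first coordinates and a point e with φ(x,x)=(x,e) for all x is Tychonoff (completely regular T1). -/
theorem result :
    ¬ (∀ (X : Type) [TopologicalSpace X], T3Space X →
      (∃ (φ : (X × X) ≃ₜ (X × X)) (e : X),
        (∀ p : X × X, (φ p).1 = p.1) ∧ ∀ x : X, φ (x, x) = (x, e)) →
      T35Space X) := by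
  intro h
  obtain ⟨G, _, p, e, hT2, hp, hinv, hself, hncr, -⟩ := H86Rect.exists_example
  haveI := H86Rect.regular_of_op p e hp hinv hself
  haveI : T3Space G := {}
  have := h G inferInstance ⟨H86Rect.rectify p hp hinv, e, fun _ => rfl, fun x => by
    show (x, p x x) = (x, e)
    rw [hself]⟩
  exact hncr inferInstance

end Pool.Agent.S13440
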