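import Pool.Statements.S13467
import Pool.Agent.H190Z.Lor5

set_option autoImplicit false
open Pool Pool.MP_813774_gt

namespace Pool.Agent.S13467

/-- For every n≥2 there is a time-oriented Lorentz metric on the configuration space of n unordered points in the disk such that a nontrivial braid is positive exactly when some future time-like piecewise smooth loop at the base point represents it. -/
theorem result :
  ∀ n : ℕ, 2 ≤ n →
  ∃ (g : (Fin n → ℂ) → (Fin n → ℂ) →L[ℝ] (Fin n → ℂ) →L[ℝ] ℝ)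
    (T : (Fin n → ℂ) → (Fin n → ℂ)),
    ContDiffOn ℝ ((⊤ : ℕ∞) : WithTop ℕ∞) g
      {f : Fin n → ℂ | Function.Injective f ∧ ∀ m, ‖f m‖ < 1} ∧
    ContinuousOn T {f : Fin n → ℂ | Function.Injective f ∧ ∀ m, ‖f m‖ < 1} ∧
    (∀ x : Fin n → ℂ, Function.Injective x → (∀ m, ‖x m‖ < 1) →
      ∀ v w : Fin n → ℂ, g x v w = g x w v) ∧
    (∀ x : Fin n → ℂ, Function.Injective x → (∀ m, ‖x m‖ < 1) →
      ∀ ρ : Equiv.Perm (Fin n), ∀ v w : Fin n → ℂ,
        g (fun m => x (ρ m)) (fun m => v (ρ m)) (fun m => w (ρ m)) = g x v w) ∧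
    (∀ x : Fin n → ℂ, Function.Injective x → (∀ m, ‖x m‖ < 1) →
      ∀ ρ : Equiv.Perm (Fin n), T (fun m => x (ρ m)) = fun m => T x (ρ m)) ∧
    (∀ x : Fin n → ℂ, Function.Injective x → (∀ m, ‖x m‖ < 1) →
      g x (T x) (T x) < 0 ∧
      ∀ v : Fin n → ℂ, v ≠ 0 → g x (T x) v = 0 → 0 < g x v v) ∧
    ∀ (P q : {f : Fin n → ℂ // Function.Injective f ∧ ∀ m, ‖f m‖ < 1}),
      (∀ m : Fin n, P.1 m = (((2 * ((m : ℕ) : ℝ) + 1) / (n : ℝ) - 1 : ℝ) : ℂ)) →
      (∃ ρ : Equiv.Perm (Fin n), ∀ m, q.1 m = P.1 (ρ m)) →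
      ∀ c : Path P q,
        (¬ ∃ d : Path P q, d.Homotopic c ∧ ∀ t, d t = P) →
        ((∃ Γ : Path P q, Γ.Homotopic c ∧ ∃ k : ℕ, 1 ≤ k ∧ ∀ j : ℕ, j < k →
            ∃ i : ℕ, i + 1 < n ∧ ∃ ρ : Equiv.Perm (Fin n),
              ∀ (t : unitInterval) (s : ℝ), 0 ≤ s → s ≤ 1 →
                (t : ℝ) = ((j : ℝ) + s) / (k : ℝ) →
                ∀ m : Fin n, (Γ t).1 m =
                  if ((ρ m : ℕ)) = i then
                    (((2 * (i : ℝ) + 2) / (n : ℝ) - 1 : ℝ) : ℂ)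
                      - ((1 / (n : ℝ) : ℝ) : ℂ) *
                        Complex.exp ((Real.pi : ℂ) * (s : ℂ) * Complex.I)
                  else if ((ρ m : ℕ)) = i + 1 then
                    (((2 * (i : ℝ) + 2) / (n : ℝ) - 1 : ℝ) : ℂ)
                      + ((1 / (n : ℝ) : ℝ) : ℂ) *
                        Complex.exp ((Real.pi : ℂ) * (s : ℂ) * Complex.I)
                  else (((2 * ((ρ m : ℕ) : ℝ) + 1) / (n : ℝ) - 1 : ℝ) : ℂ)) ↔
         (∃ d : Path P q, d.Homotopic c ∧ ∃ (k : ℕ) (τ : ℕ → ℝ),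
            τ 0 = 0 ∧ τ k = 1 ∧ ∀ j : ℕ, j < k →
              τ j < τ (j + 1) ∧
              ContDiffOn ℝ ((⊤ : ℕ∞) : WithTop ℕ∞) (fun t : ℝ => (d.extend t).1)
                (Set.Icc (τ j) (τ (j + 1))) ∧
              ∀ t ∈ Set.Icc (τ j) (τ (j + 1)),
                g ((d.extend t).1)
                  (derivWithin (fun t : ℝ => (d.extend t).1) (Set.Icc (τ j) (τ (j + 1))) t)
                  (derivWithin (fun t : ℝ => (d.extend t).1) (Set.Icc (τ j) (τ (j + 1))) t) < 0 ∧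
                g ((d.extend t).1)
                  (derivWithin (fun t : ℝ => (d.extend t).1) (Set.Icc (τ j) (τ (j + 1))) t)
                  (T ((d.extend t).1)) < 0)) := by
  intro n hn
  exact ⟨H190Z.Lor.gL, H190Z.Lor.TT, H190Z.Lor.cd_gL, H190Z.Lor.cont_TT.continuousOn,
    fun x _ _ => H190Z.Lor.gL_symm x, fun x _ _ ρ => H190Z.Lor.gL_perm ρ x,
    fun _ _ _ _ => rfl,
    fun _ hx _ => ⟨H190Z.Lor.gL_TT hn hx, H190Z.Lor.gL_space hn hx⟩,
    fun P q hP hq c hc => H190Z.Lor.main hn P q hP hq c hc⟩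

end Pool.Agent.S13467
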