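import Pool.Statements.S13493
import Pool.Agent.H903Z.EG.Cech

set_option autoImplicit false
open Topology
open Pool Pool.MP_874bf8_gt

namespace Pool.Agent.S13493

/-- Every space that embeds in C_p(K) for a compact K, is a G_δ subset of a compact Hausdorff space (Čech-complete), and is scattered, is a countable union of discrete subspaces. -/
theorem result :
    ∀ (X : Type) [TopologicalSpace X],
      (∃ (K : Type) (_ : TopologicalSpace K), CompactSpace K ∧ T2Space K ∧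
        ∃ f : X → (K → ℝ), IsEmbedding f ∧ ∀ x, Continuous (f x)) →
      (∃ (Y : Type) (_ : TopologicalSpace Y), CompactSpace Y ∧ T2Space Y ∧
        ∃ e : X → Y, IsEmbedding e ∧ IsGδ (Set.range e)) →
      (∀ S : Set X, S.Nonempty → ∃ x ∈ S, ∃ U : Set X, IsOpen U ∧ U ∩ S = {x}) →
      ∃ D : ℕ → Set X, (⋃ n, D n) = Set.univ ∧
        ∀ n, ∀ x ∈ D n, ∃ U : Set X, IsOpen U ∧ U ∩ D n = {x} := by
  intro X _ ⟨K, _, _, _, f, hf, hc⟩ ⟨Y, _, _, _, e, he, hG⟩ hsc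
  obtain ⟨_, _, hI⟩ := Pool.Agent.H903Z.EG.exists_sepOrder hsc
  obtain ⟨O, hO, hOe⟩ := isGδ_iff_eq_iInter_nat.1 hG
  obtain ⟨c, hcol⟩ := Pool.Agent.H903Z.EG.cech f hf.isInducing hc hI e he O hO hOe Set.univ
  refine ⟨fun n => {x | c x = n}, Set.eq_univ_iff_forall.2 fun x => Set.mem_iUnion.2 ⟨_, rfl⟩, ?_⟩
  intro n x hx
  obtain ⟨U, hU1, hU2, hU3⟩ := mem_nhds_iff.1 (hcol x (Set.mem_univ x))
  refine ⟨U, hU2, ?_⟩
  ext y
  constructor
  · rintro ⟨h1, h2⟩
    exact hU1 h1 (Set.mem_univ y) (h2.trans hx.symm)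
  · rintro rfl
    exact ⟨hU3, hx⟩

end Pool.Agent.S13493
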