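import Pool.Statements.S13551
import Pool.Agent.H436Z.FrC

set_option autoImplicit false
open Pool Pool.MP_8da474_gt

namespace Pool.Agent.S13551

/-- There is a convex body in 3-space whose boundary surface has, in its intrinsic path metric, a unique farthest point from each point, with that map an involution, and whose farthest-point distance is not the same at all points. -/
theorem result :
    ∃ (K : Set (EuclideanSpace ℝ (Fin 3)))
      (d : EuclideanSpace ℝ (Fin 3) → EuclideanSpace ℝ (Fin 3) → ENNReal),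
      Convex ℝ K ∧ IsCompact K ∧ (interior K).Nonempty ∧
      (∀ x y, d x y =
        ⨅ (γ : ℝ → EuclideanSpace ℝ (Fin 3))
          (_ : ContinuousOn γ (Set.Icc (0:ℝ) 1) ∧ γ 0 = x ∧ γ 1 = y ∧
                ∀ t ∈ Set.Icc (0:ℝ) 1, γ t ∈ frontier K),
          eVariationOn γ (Set.Icc (0:ℝ) 1)) ∧
      (∀ x ∈ frontier K, ∃! y, y ∈ frontier K ∧ ∀ z ∈ frontier K, d x z ≤ d x y) ∧
      (∀ x ∈ frontier K, ∀ y ∈ frontier K,
        (∀ z ∈ frontier K, d x z ≤ d x y) → ∀ w ∈ frontier K, d y w ≤ d y x) ∧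
      (∃ x ∈ frontier K, ∃ y ∈ frontier K,
        (⨆ z ∈ frontier K, d x z) ≠ (⨆ z ∈ frontier K, d y z)) := by
  refine ⟨H436Z.Fr.KF, H436Z.Stein.idist (frontier H436Z.Fr.KF), H436Z.Fr.KF_convex,
    H436Z.Fr.KF_compact, H436Z.Fr.interior_ne, fun x y => rfl, ?_⟩
  rw [H436Z.Fr.frontier_KF]
  exact H436Z.Fr.main

end Pool.Agent.S13551
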