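import Pool.Statements.S13580

set_option autoImplicit false
open Pool Pool.MP_925f0d_gt

namespace Pool.Agent.S13580

/-- The shear `(x, y, z) ↦ (x, y, z + s (x² + y²))`. -/
def shear (s : ℝ) (v : Fin 3 → ℝ) : Fin 3 → ℝ := ![v 0, v 1, v 2 + s * (v 0 ^ 2 + v 1 ^ 2)]

theorem shear_cont (s : ℝ) : Continuous (shear s) := by
  refine continuous_pi fun i => ?_
  fin_cases i <;> simp [shear] <;> fun_prop

theorem shear_shear (s t : ℝ) (v : Fin 3 → ℝ) : shear s (shear t v) = shear (s + t) v := by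
  funext i
  fin_cases i <;> simp [shear]
  ring

theorem shear_zero (v : Fin 3 → ℝ) : shear 0 v = v := by
  funext i
  fin_cases i <;> simp [shear]

/-- The shear as a homeomorphism of three-space. -/
def shearHomeo : (Fin 3 → ℝ) ≃ₜ (Fin 3 → ℝ) where
  toFun := shear 1
  invFun := shear (-1)
  left_inv v := by rw [shear_shear]; norm_num [shear_zero]
  right_inv v := by rw [shear_shear]; norm_num [shear_zero]
  continuous_toFun := shear_cont 1
  continuous_invFun := shear_cont (-1)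

theorem fixed_axis (v : Fin 3 → ℝ) (h : shear 1 v = v) : v 0 = 0 ∧ v 1 = 0 := by
  have h2 := congrFun h 2
  simp [shear] at h2
  constructor <;> nlinarith [sq_nonneg (v 0), sq_nonneg (v 1)]

/-- The counterexample is the shear `(x, y, z) ↦ (x, y, z + x² + y²)` of three-space, whose set of
fixed points is a line through the origin. -/
theorem result :
    ¬ (∀ k : ℕ, 3 ≤ k → ∀ φ : OnePoint (Fin k → ℝ) → OnePoint (Fin k → ℝ), Continuous φ →
    (∀ (x : Fin k → ℝ) (z : ℝ), z ≠ 0 → z ≠ 1 →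
      (Option.map (fun v : Fin k → ℝ => (1 - z) • v) (φ (OnePoint.some x)) : OnePoint (Fin k → ℝ)) =
        φ (Option.map (fun v : Fin k → ℝ => ((1 - z) / z) • v) (φ (OnePoint.some (z • x))))) →
    (∀ p, φ p = p) ∨ (∀ p, φ p = OnePoint.some 0) ∨ (∀ p, φ p = OnePoint.infty) ∨
    ∃ ℓ : (Fin k → ℝ) ≃ₜ (Fin k → ℝ), (∀ (c : ℝ) (x : Fin k → ℝ), ℓ (c • x) = c • ℓ x) ∧
      ((∀ x : Fin k → ℝ, φ (OnePoint.some (ℓ x)) =
          if ∑ i, (x i + 1) ^ 2 = 0 then OnePoint.infty
          else OnePoint.some (ℓ (fun j => (∑ i, x i ^ 2 + (k : ℝ) * x j) / ∑ i, (x i + 1) ^ 2))) ∨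
       ∃ d : Fin k → ℝ, d ≠ 0 ∧ ∑ i, d i = 0 ∧
         ∀ x : Fin k → ℝ, φ (OnePoint.some (ℓ x)) =
           OnePoint.some (ℓ (fun j => d j * (∑ i, x i) ^ 2 + x j)))) := by
  intro H
  have hsome : ∀ v : Fin 3 → ℝ, shearHomeo.onePointCongr (OnePoint.some v) =
      OnePoint.some (shear 1 v) := fun v => rfl
  have hinf : shearHomeo.onePointCongr OnePoint.infty = OnePoint.infty := rfl
  have key := H 3 le_rfl shearHomeo.onePointCongr shearHomeo.onePointCongr.continuous (by
    intro x z hz hz1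
    rw [hsome, hsome]
    change OnePoint.some ((1 - z) • shear 1 x) =
      shearHomeo.onePointCongr (OnePoint.some (((1 - z) / z) • shear 1 (z • x)))
    rw [hsome]
    congr 1
    funext i
    fin_cases i <;> simp [shear] <;> field_simp
    ring)
  rcases key with h | h | h | ⟨ℓ, hℓ, h | ⟨d, -, -, h⟩⟩
  · have h1 := h (OnePoint.some ![1, 0, 0])
    rw [hsome] at h1
    have h2 := fixed_axis _ (OnePoint.coe_injective h1)
    simp at h2
  · have h1 := h OnePoint.infty
    rw [hinf] at h1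
    exact OnePoint.infty_ne_coe _ h1
  · have h1 := h (OnePoint.some 0)
    rw [hsome] at h1
    exact OnePoint.coe_ne_infty _ h1
  · have h1 := h (fun _ => -1)
    rw [hsome, if_pos (by simp)] at h1
    exact OnePoint.coe_ne_infty _ h1
  · have fix : ∀ x : Fin 3 → ℝ, ∑ i, x i = 0 → ℓ x 0 = 0 ∧ ℓ x 1 = 0 := by
      intro x hx
      have h1 := h x
      rw [hsome, hx] at h1
      apply fixed_axis
      have h2 := OnePoint.coe_injective h1
      rw [h2]
      congr 1
      funext j
      simp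
    have hu := fix ![1, -1, 0] (by simp [Fin.sum_univ_three])
    have hv := fix ![0, 1, -1] (by simp [Fin.sum_univ_three])
    have e : ℓ (ℓ ![0, 1, -1] 2 • ![1, -1, 0]) = ℓ (ℓ ![1, -1, 0] 2 • ![0, 1, -1]) := by
      rw [hℓ, hℓ]
      funext i
      fin_cases i <;> simp [hu.1, hu.2, hv.1, hv.2]
      ring
    have e2 := ℓ.injective e
    have e3 := congrFun e2 0
    have e4 : ℓ ![0, 1, -1] 2 = 0 := by simpa using e3
    have e5 : ℓ ![0, 1, -1] = ℓ ((0 : ℝ) • ![0, 1, -1]) := by
      rw [hℓ]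
      funext i
      fin_cases i <;> simp [hv.1, hv.2, e4]
    have e6 := congrFun (ℓ.injective e5) 1
    simp at e6

end Pool.Agent.S13580
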