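import Pool.Statements.S13589
import Pool.Agent.H783Z.Example

set_option autoImplicit false
open Pool Pool.MP_93ef73_gt

namespace Pool.Agent.S13589

/-- There exist d, a nonempty compact totally disconnected A in R^d with two distinct Steiner trees S, T, no terminal interior to segments in both, and nonempty compact M (∣M∣=∣A∣ if A finite) and r>0 with S an r-minimizer for M. -/
theorem result :
  ∃ (d : ℕ) (A S T M : Set (EuclideanSpace ℝ (Fin d))) (r : ℝ),
    IsCompact A ∧ A.Nonempty ∧ IsTotallyDisconnected A ∧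
    (IsCompact S ∧ IsConnected S ∧ A ⊆ S ∧
      MeasureTheory.Measure.hausdorffMeasure 1 S < ⊤ ∧
      ∀ S' : Set (EuclideanSpace ℝ (Fin d)), IsCompact S' → IsConnected S' → A ⊆ S' →
        MeasureTheory.Measure.hausdorffMeasure 1 S ≤ MeasureTheory.Measure.hausdorffMeasure 1 S') ∧
    (IsCompact T ∧ IsConnected T ∧ A ⊆ T ∧
      MeasureTheory.Measure.hausdorffMeasure 1 T < ⊤ ∧
      ∀ S' : Set (EuclideanSpace ℝ (Fin d)), IsCompact S' → IsConnected S' → A ⊆ S' →
        MeasureTheory.Measure.hausdorffMeasure 1 T ≤ MeasureTheory.Measure.hausdorffMeasure 1 S') ∧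
    S ≠ T ∧
    IsCompact M ∧ M.Nonempty ∧ 0 < r ∧
    (A.Finite → M.Finite ∧ M.ncard = A.ncard) ∧
    (¬ ∃ a ∈ A,
        (∃ x y : EuclideanSpace ℝ (Fin d), x ≠ y ∧ segment ℝ x y ⊆ S ∧ a ∈ openSegment ℝ x y) ∧
        (∃ x y : EuclideanSpace ℝ (Fin d), x ≠ y ∧ segment ℝ x y ⊆ T ∧ a ∈ openSegment ℝ x y)) ∧
    (∀ y ∈ M, Metric.infDist y S ≤ r) ∧
    ∀ W : Set (EuclideanSpace ℝ (Fin d)), IsCompact W → IsConnected W →
      (∀ y ∈ M, Metric.infDist y W ≤ r) →
        MeasureTheory.Measure.hausdorffMeasure 1 S ≤ MeasureTheory.Measure.hausdorffMeasure 1 W := by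
  open Pool.Agent.H783Z.Five in
  refine ⟨2, Set.range pA, SS, TT, Set.range pM, 1 / 1000, (Set.finite_range pA).isCompact,
    Set.range_nonempty pA, (Set.finite_range pA).countable.isTotallyDisconnected,
    ⟨tree_compact _ _ _ _ _ _ _, tree_conn _ _ _ _ _ _ _, A_sub_S,
      SS_len.trans_lt ENNReal.ofReal_lt_top, fun S' h1 h2 h3 => SS_len.trans (lowerA h1 h2 h3)⟩,
    ⟨tree_compact _ _ _ _ _ _ _, tree_conn _ _ _ _ _ _ _, A_sub_T,
      TT_len.trans_lt ENNReal.ofReal_lt_top, fun S' h1 h2 h3 => TT_len.trans (lowerA h1 h2 h3)⟩,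
    S_ne_T, (Set.finite_range pM).isCompact, Set.range_nonempty pM, by norm_num,
    fun _ => ⟨Set.finite_range pM, ?_⟩, cond_ii, M_near,
    fun W h1 h2 h3 => SS_len.trans (lowerM h1 h2 h3)⟩
  rw [Set.ncard_range_of_injective Pool.Agent.H783Z.Five.pM_inj,
    Set.ncard_range_of_injective Pool.Agent.H783Z.Five.pA_inj]

end Pool.Agent.S13589
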