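import Pool.Statements.S13603
import Pool.Agent.H407Z.T6

set_option autoImplicit false
open Pool Pool.MP_958cbc_gt

namespace Pool.Agent.S13603

/-- For every connected finite graph with an edge, every k ≥ 1 and every r ≥ 1, the r-th sequential topological complexity (LS category when r = 1) of the unordered k-point configuration space is at most that of the (k+1)-point one. -/
theorem result :
    ∀ (X : Type) [TopologicalSpace X],
      (∃ (a m : ℕ) (s t : Fin m → Fin a), 1 ≤ m ∧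
        Nonempty (X ≃ₜ Quot (fun p q : Fin a ⊕ (Fin m × unitInterval) =>
          ∃ e : Fin m, (p = Sum.inr (e, 0) ∧ q = Sum.inl (s e)) ∨
            (p = Sum.inr (e, 1) ∧ q = Sum.inl (t e))))) →
      ConnectedSpace X →
      ∀ k : ℕ, 1 ≤ k →
      ∀ (Y Z : Type) [TopologicalSpace Y] [TopologicalSpace Z],
        Nonempty (Y ≃ₜ Quot (fun v w : {v : Fin k → X // Function.Injective v} =>
          ∃ σ : Equiv.Perm (Fin k), w.1 = v.1 ∘ σ)) →
        Nonempty (Z ≃ₜ Quot (fun v w : {v : Fin (k + 1) → X // Function.Injective v} =>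
          ∃ σ : Equiv.Perm (Fin (k + 1)), w.1 = v.1 ∘ σ)) →
        ∀ n : ℕ,
          ((∃ U : Fin (n + 1) → Set Z, (∀ i, IsOpen (U i)) ∧ (∀ z, ∃ i, z ∈ U i) ∧
              ∀ i, ∃ H : unitInterval × Z → Z, ∃ z0 : Z,
                ContinuousOn H (Set.univ ×ˢ U i) ∧ ∀ z ∈ U i, H (0, z) = z ∧ H (1, z) = z0) →
            (∃ U : Fin (n + 1) → Set Y, (∀ i, IsOpen (U i)) ∧ (∀ y, ∃ i, y ∈ U i) ∧
              ∀ i, ∃ H : unitInterval × Y → Y, ∃ y0 : Y,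
                ContinuousOn H (Set.univ ×ˢ U i) ∧ ∀ y ∈ U i, H (0, y) = y ∧ H (1, y) = y0)) ∧
          ∀ r : ℕ, 2 ≤ r →
            ((∃ U : Fin (n + 1) → Set (Fin r → Z), (∀ i, IsOpen (U i)) ∧ (∀ z, ∃ i, z ∈ U i) ∧
                ∀ i, ∃ σ : (Fin r → Z) → C(Set.Icc (0:ℝ) 1, Z), ContinuousOn σ (U i) ∧
                  ∀ z ∈ U i, ∀ j : Fin r,
                    σ z (Set.projIcc (0:ℝ) 1 zero_le_one ((j : ℝ) / ((r : ℝ) - 1))) = z j) →
              (∃ U : Fin (n + 1) → Set (Fin r → Y), (∀ i, IsOpen (U i)) ∧ (∀ y, ∃ i, y ∈ U i) ∧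
                ∀ i, ∃ σ : (Fin r → Y) → C(Set.Icc (0:ℝ) 1, Y), ContinuousOn σ (U i) ∧
                  ∀ y ∈ U i, ∀ j : Fin r,
                    σ y (Set.projIcc (0:ℝ) 1 zero_le_one ((j : ℝ) / ((r : ℝ) - 1))) = y j)) := by
  rintro X _ ⟨a, m, s, t, hm, ⟨e⟩⟩ hX k hk Y Z _ _ ⟨eY⟩ ⟨eZ⟩ n
  obtain ⟨k, rfl⟩ := Nat.exists_eq_add_of_le' hk
  have : ConnectedSpace (H407Z.TC.Gr s t) := e.surjective.connectedSpace e.continuous
  have : T2Space X := (show X ≃ₜ H407Z.TC.Gr s t from e).symm.t2Space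
  obtain ⟨f, hf⟩ := H407Z.TC.gr_hmono s t hm k
  obtain ⟨q1⟩ := H407Z.TC.quot_homeo (X := X) (k + 1)
  obtain ⟨q2⟩ := H407Z.TC.quot_homeo (X := X) (k + 1 + 1)
  obtain ⟨b1⟩ := H407Z.TC.B_homeo e (k + 1)
  obtain ⟨b2⟩ := H407Z.TC.B_homeo e (k + 1 + 1)
  have hs := ((H407Z.TC.HMono.homeo ((eZ.trans q2).trans b2).symm).comp hf).comp
    (H407Z.TC.HMono.homeo ((eY.trans q1).trans b1))
  refine ⟨fun h => ?_, fun r hr h => H407Z.TC.tc_transfer hs n r hr h⟩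
  have : Nonempty Y := by
    obtain ⟨U, -, -, hU⟩ := h
    obtain ⟨-, z0, -⟩ := hU 0
    obtain ⟨v⟩ := eZ z0
    exact ⟨eY.symm (Quot.mk _ ⟨v.1 ∘ Fin.castSucc, v.2.comp (Fin.castSucc_injective _)⟩)⟩
  exact H407Z.TC.cat_transfer hs n h

end Pool.Agent.S13603
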