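import Pool.Statements.S13621
import Pool.Agent.H407Z.QX

set_option autoImplicit false
open Pool Pool.MP_984099_gt

namespace Pool.Agent.S13621

/-- There is a Tychonoff space with a continuous action of the additive group of rationals that has no equivariant topological embedding into any compact Hausdorff space with a continuous action of the rationals. -/
theorem result :
    ∃ (X : Type) (_ : TopologicalSpace X) (_ : AddAction ℚ X),
      ContinuousVAdd ℚ X ∧ T35Space X ∧
      ¬ ∃ (Y : Type) (_ : TopologicalSpace Y) (_ : AddAction ℚ Y),
          ContinuousVAdd ℚ Y ∧ CompactSpace Y ∧ T2Space Y ∧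
          ∃ f : X → Y, Topology.IsEmbedding f ∧ ∀ (q : ℚ) (x : X), f (q +ᵥ x) = q +ᵥ f x := by
  exact ⟨Pool.Agent.H407Z.QK.X, inferInstance, inferInstance, inferInstance, inferInstance,
    Pool.Agent.H407Z.QK.not_embeds⟩

end Pool.Agent.S13621
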