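import Pool.Statements.S13670
import Pool.Agent.H796Z.HagerAlg

set_option autoImplicit false
open Pool Pool.MP_9f4369_gt

namespace Pool.Agent.S13670

/-- The negation of the preceding statement: A Φ-algebra is an SI-algebra (real-valued, uniformly closed, closed under strong inversion) exactly when it is order-and-ring isomorphic to C(X) for some space X closed-embedded in a power of the reals. -/
theorem result :
    ¬ (∀ (A : Type) [CommRing A] [Lattice A] [Algebra ℝ A],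
    (∀ a b c : A, a ≤ b → a + c ≤ b + c) →
    (∀ a b : A, 0 ≤ a → 0 ≤ b → 0 ≤ a * b) →
    (∀ (r : ℝ) (a : A), 0 ≤ r → 0 ≤ a → 0 ≤ r • a) →
    (∀ a b : A, (∀ n : ℕ, n • a ≤ b) → a ≤ 0) →
    (0 : A) ≤ 1 →
    (∀ a : A, (1 : A) ⊓ |a| = 0 → a = 0) →
    (((∀ a : A, (∀ M : Ideal A, M.IsMaximal → Nonempty (A ⧸ M ≃+* ℝ) → a ∈ M) → a = 0) ∧
      (∀ (s : ℕ → A) (f : Ideal A → ℝ),
        (∀ ε : ℝ, 0 < ε → ∃ N : ℕ, ∀ n : ℕ, N ≤ n → ∀ M : Ideal A, M.IsMaximal →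
          ∀ φ : A ⧸ M ≃+* ℝ, |φ (Ideal.Quotient.mk M (s n)) - f M| ≤ ε) →
        ∃ a : A, ∀ M : Ideal A, M.IsMaximal →
          ∀ φ : A ⧸ M ≃+* ℝ, φ (Ideal.Quotient.mk M a) = f M) ∧
      (∀ D : Ideal A, (∀ a : A, (∀ d ∈ D, a * d = 0) → a = 0) →
        (∀ M : Ideal A, M.IsMaximal → Nonempty (A ⧸ M ≃+* ℝ) → ¬ D ≤ M) →
        ∀ φ : D →ₗ[A] A, ∃ c : A, ∀ d : D, φ d = c * (d : A)))
    ↔ ∃ (X : Type) (_ : TopologicalSpace X),
        (∃ (I : Type) (g : X → (I → ℝ)), Topology.IsClosedEmbedding g) ∧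
        Nonempty (A ≃+*o C(X, ℝ)))) :=
  Pool.Agent.H796Z.Hager.good.main _ Pool.Agent.H796Z.Hager.gf_notMem

end Pool.Agent.S13670
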