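import Pool.Statements.S13710
import Pool.Agent.H158Z.Unicoh

set_option autoImplicit false
open Pool Pool.MP_a6a8af_gt

namespace Pool.Agent.S13710

/-- The negation of the preceding statement: If X is a locally connected metric continuum that is a union of two subcontinua with disconnected intersection, and f is a local homeomorphism of X onto a metric space Y, then Y is also such a union. -/
theorem result :
    ¬ (∀ (X Y : Type) [MetricSpace X] [CompactSpace X] [ConnectedSpace X]
      [LocallyConnectedSpace X] [MetricSpace Y] (f : X → Y),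
      IsLocalHomeomorph f → Function.Surjective f →
      (∃ A B : Set X, IsClosed A ∧ IsClosed B ∧ IsConnected A ∧ IsConnected B ∧
          A ∪ B = Set.univ ∧ ¬ IsConnected (A ∩ B)) →
      (∃ A B : Set Y, IsClosed A ∧ IsClosed B ∧ IsConnected A ∧ IsConnected B ∧
          A ∪ B = Set.univ ∧ ¬ IsConnected (A ∩ B))) := by
  intro h
  obtain ⟨A, B, hA, hB, cA, cB, hAB, hn⟩ :=
    h H158Z.Unicoh.T3 H158Z.Unicoh.HW H158Z.Unicoh.ff H158Z.Unicoh.locHomeo_ff
      H158Z.Unicoh.surj_ff H158Z.Unicoh.T3_not_unicoherent
  exact hn (H158Z.Unicoh.unicoherent_of_lifts H158Z.Unicoh.lifts_HW hA hB cA cB hAB)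

end Pool.Agent.S13710
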