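import Pool.Statements.S13721
import Pool.Agent.H179Z.APCExt

set_option autoImplicit false
open Pool Pool.MP_a813f9_gt

namespace Pool.Agent.S13721

/-- For countable groups G, H with proper left-invariant metrics and a homomorphism f from G to H, if H and ker f (subspace metric) have asymptotic property C, then G has asymptotic property C. -/
theorem result :
  ∀ (G H : Type) [Group G] [Group H] [Countable G] [Countable H]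
    (f : G →* H) (dG : G → G → ℝ) (dH : H → H → ℝ),
    (∀ x, dG x x = 0) → (∀ x y, dG x y = dG y x) →
    (∀ x y z, dG x z ≤ dG x y + dG y z) → (∀ x y, dG x y = 0 → x = y) →
    (∀ g x y, dG (g * x) (g * y) = dG x y) → (∀ r : ℝ, Set.Finite {x : G | dG 1 x ≤ r}) →
    (∀ x, dH x x = 0) → (∀ x y, dH x y = dH y x) →
    (∀ x y z, dH x z ≤ dH x y + dH y z) → (∀ x y, dH x y = 0 → x = y) →
    (∀ g x y, dH (g * x) (g * y) = dH x y) → (∀ r : ℝ, Set.Finite {x : H | dH 1 x ≤ r}) →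
    (∀ R : ℕ → ℝ, (∀ i, 0 < R i) → ∃ n : ℕ, ∃ U : ℕ → Set (Set H),
      (∀ i < n, ∃ B : ℝ, ∀ V ∈ U i, ∀ x ∈ V, ∀ y ∈ V, dH x y ≤ B) ∧
      (∀ i < n, ∀ V ∈ U i, ∀ W ∈ U i, V ≠ W → ∀ x ∈ V, ∀ y ∈ W, R i < dH x y) ∧
      (∀ x : H, ∃ i < n, ∃ V ∈ U i, x ∈ V)) →
    (∀ R : ℕ → ℝ, (∀ i, 0 < R i) → ∃ n : ℕ, ∃ U : ℕ → Set (Set G),
      (∀ i < n, ∀ V ∈ U i, V ⊆ (f.ker : Set G)) ∧
      (∀ i < n, ∃ B : ℝ, ∀ V ∈ U i, ∀ x ∈ V, ∀ y ∈ V, dG x y ≤ B) ∧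
      (∀ i < n, ∀ V ∈ U i, ∀ W ∈ U i, V ≠ W → ∀ x ∈ V, ∀ y ∈ W, R i < dG x y) ∧
      (∀ x ∈ (f.ker : Set G), ∃ i < n, ∃ V ∈ U i, x ∈ V)) →
    (∀ R : ℕ → ℝ, (∀ i, 0 < R i) → ∃ n : ℕ, ∃ U : ℕ → Set (Set G),
      (∀ i < n, ∃ B : ℝ, ∀ V ∈ U i, ∀ x ∈ V, ∀ y ∈ V, dG x y ≤ B) ∧
      (∀ i < n, ∀ V ∈ U i, ∀ W ∈ U i, V ≠ W → ∀ x ∈ V, ∀ y ∈ W, R i < dG x y) ∧
      (∀ x : G, ∃ i < n, ∃ V ∈ U i, x ∈ V)) := by
  intro G H _ _ _ _ f dG dH _ _ _ _ hG5 hG6 _ _ _ _ hH5 hH6 hH hK R _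
  have h1 : H179Z.APC.GAPC H := H179Z.APC.gapc_of_metric dH hH5 hH6 hH
  have h2 : H179Z.APC.GAPC f.ker := by
    apply H179Z.APC.gapc_of_metric (fun x y : f.ker => dG x y) (fun g x y => hG5 _ _ _)
      (fun r => (hG6 r).preimage Subtype.val_injective.injOn)
    intro R hR
    obtain ⟨n, U, _, hb, hs, hc⟩ := hK R hR
    refine ⟨n, fun i => (fun V => Subtype.val ⁻¹' V) '' U i, ?_, ?_, ?_⟩
    · intro i hi
      obtain ⟨B, hB⟩ := hb i hi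
      refine ⟨B, ?_⟩
      rintro _ ⟨V, hV, rfl⟩ x hx y hy
      exact hB V hV _ hx _ hy
    · rintro i hi _ ⟨V, hV, rfl⟩ _ ⟨W, hW, rfl⟩ hne x hx y hy
      exact hs i hi V hV W hW (fun h => hne (by rw [h])) _ hx _ hy
    · intro x
      obtain ⟨i, hi, V, hV, hx⟩ := hc x.1 x.2
      exact ⟨i, hi, _, ⟨V, hV, rfl⟩, hx⟩
  obtain ⟨n, U, B, hb, hs, hc⟩ :=
    H179Z.APC.metric_of_gapc dG hG5 hG6 (H179Z.APC.GAPC.ext f h1 h2) R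
  exact ⟨n, U, fun i hi => ⟨B, hb i hi⟩, hs, hc⟩

end Pool.Agent.S13721
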