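import Pool.Statements.S13729
import Pool.Agent.H788Z.Geo.NoAsym

set_option autoImplicit false
open Pool Pool.MP_a96c68_gt

namespace Pool.Agent.S13729

/-- There is a smooth Riemannian metric on the 2-sphere and an injective unit-speed geodesic ray (locally distance-realizing) whose distance to the image of every simple closed geodesic does not tend to 0. -/
theorem result :
    ∃ G : EuclideanSpace ℝ (Fin 3) → (EuclideanSpace ℝ (Fin 3) →L[ℝ] (EuclideanSpace ℝ (Fin 3) →L[ℝ] ℝ)),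
      ContDiff ℝ ((⊤ : ℕ∞) : WithTop ℕ∞) G ∧
      (∀ x ∈ Metric.sphere (0 : EuclideanSpace ℝ (Fin 3)) 1, ∀ v w : EuclideanSpace ℝ (Fin 3),
          inner ℝ x v = (0:ℝ) → inner ℝ x w = (0:ℝ) → G x v w = G x w v) ∧
      (∀ x ∈ Metric.sphere (0 : EuclideanSpace ℝ (Fin 3)) 1, ∀ v : EuclideanSpace ℝ (Fin 3),
          inner ℝ x v = (0:ℝ) → v ≠ 0 → 0 < G x v v) ∧
      ∃ c : ℝ → EuclideanSpace ℝ (Fin 3),
        (∀ t : ℝ, 0 ≤ t → c t ∈ Metric.sphere (0 : EuclideanSpace ℝ (Fin 3)) 1) ∧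
        Set.InjOn c (Set.Ici 0) ∧
        (∀ t ∈ Set.Ici (0:ℝ), ∃ ε > (0:ℝ), ∀ s₁ ∈ Set.Ici (0:ℝ), ∀ s₂ ∈ Set.Ici (0:ℝ),
          t - ε < s₁ → s₁ ≤ s₂ → s₂ < t + ε →
          (∀ σ : ℝ → EuclideanSpace ℝ (Fin 3), ContDiff ℝ 1 σ →
              (∀ u ∈ Set.Icc (0:ℝ) 1, σ u ∈ Metric.sphere (0 : EuclideanSpace ℝ (Fin 3)) 1) →
              σ 0 = c s₁ → σ 1 = c s₂ →
              s₂ - s₁ ≤ ∫ u in (0:ℝ)..1, Real.sqrt (G (σ u) (deriv σ u) (deriv σ u))) ∧
          (∀ δ > (0:ℝ), ∃ σ : ℝ → EuclideanSpace ℝ (Fin 3), ContDiff ℝ 1 σ ∧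
              (∀ u ∈ Set.Icc (0:ℝ) 1, σ u ∈ Metric.sphere (0 : EuclideanSpace ℝ (Fin 3)) 1) ∧
              σ 0 = c s₁ ∧ σ 1 = c s₂ ∧
              (∫ u in (0:ℝ)..1, Real.sqrt (G (σ u) (deriv σ u) (deriv σ u))) < s₂ - s₁ + δ)) ∧
        ¬ ∃ γ : ℝ → EuclideanSpace ℝ (Fin 3), ∃ L > (0:ℝ),
          (∀ t : ℝ, γ t ∈ Metric.sphere (0 : EuclideanSpace ℝ (Fin 3)) 1) ∧
          (∀ t : ℝ, γ (t + L) = γ t) ∧
          Set.InjOn γ (Set.Ico 0 L) ∧
          (∀ t : ℝ, ∃ ε > (0:ℝ), ∀ s₁ s₂ : ℝ,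
            t - ε < s₁ → s₁ ≤ s₂ → s₂ < t + ε →
            (∀ σ : ℝ → EuclideanSpace ℝ (Fin 3), ContDiff ℝ 1 σ →
                (∀ u ∈ Set.Icc (0:ℝ) 1, σ u ∈ Metric.sphere (0 : EuclideanSpace ℝ (Fin 3)) 1) →
                σ 0 = γ s₁ → σ 1 = γ s₂ →
                s₂ - s₁ ≤ ∫ u in (0:ℝ)..1, Real.sqrt (G (σ u) (deriv σ u) (deriv σ u))) ∧
            (∀ δ > (0:ℝ), ∃ σ : ℝ → EuclideanSpace ℝ (Fin 3), ContDiff ℝ 1 σ ∧
                (∀ u ∈ Set.Icc (0:ℝ) 1, σ u ∈ Metric.sphere (0 : EuclideanSpace ℝ (Fin 3)) 1) ∧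
                σ 0 = γ s₁ ∧ σ 1 = γ s₂ ∧
                (∫ u in (0:ℝ)..1, Real.sqrt (G (σ u) (deriv σ u) (deriv σ u))) < s₂ - s₁ + δ)) ∧
          Filter.Tendsto (fun t => Metric.infDist (c t) (Set.range γ)) Filter.atTop (nhds 0) := by
  obtain ⟨G, hG, hsym, hpos, hGf⟩ := H788Z.Geo.metric
  obtain ⟨m, hm, hmG⟩ := H788Z.Geo.exists_lower hG.continuous hpos
  refine ⟨G, hG, fun x hx v w _ _ => hsym x hx v w, hpos,
    fun t => H788Z.Geo.cc (t + H788Z.Geo.tau 0),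
    fun t _ => mem_sphere_zero_iff_norm.2 (H788Z.Geo.cc_norm _), ?_, ?_, ?_⟩
  · intro s hs s' hs' e
    have h1 : (0:ℝ) ≤ s := hs
    have h2 : (0:ℝ) ≤ s' := hs'
    have := H788Z.Geo.cc_inj (by linarith) (by linarith) e
    linarith
  · intro t ht
    have h1 : (0:ℝ) ≤ t := ht
    obtain ⟨ε, hε, h⟩ := H788Z.Geo.cc_geo hG.continuous hm hmG hGf
      (t := t + H788Z.Geo.tau 0) (by linarith)
    refine ⟨ε, hε, fun s₁ hs₁ s₂ _ a1 a2 a3 => ?_⟩
    have h2 : (0:ℝ) ≤ s₁ := hs₁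
    have := h (s₁ + H788Z.Geo.tau 0) (s₂ + H788Z.Geo.tau 0) (by linarith) (by linarith)
      (by linarith) (by linarith)
    rw [add_sub_add_right_eq_sub] at this
    exact this
  · rintro ⟨γ, L, hL, -, hper, -, hloc, hlim⟩
    have hlip : LocallyLipschitz γ := by
      intro t
      obtain ⟨ε, hε, h⟩ := hloc t
      refine ⟨⟨m⁻¹, by positivity⟩, Set.Ioo (t - ε) (t + ε),
        Ioo_mem_nhds (by linarith) (by linarith), ?_⟩
      have key : ∀ a ∈ Set.Ioo (t - ε) (t + ε), ∀ b ∈ Set.Ioo (t - ε) (t + ε), a ≤ b →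
          dist (γ b) (γ a) ≤ m⁻¹ * (b - a) := by
        intro a ha b hb hab
        rw [inv_mul_eq_div, le_div_iff₀ hm, mul_comm]
        apply le_of_forall_pos_le_add
        intro δ hδ
        obtain ⟨σ, h1, h2, h3, h4, h5⟩ := (h a b ha.1 hab hb.2).2 δ hδ
        have := H788Z.Geo.length_ge hG.continuous hm.le hmG h1 h2
          (b := 1) ⟨zero_le_one, le_rfl⟩
        rw [h3, h4, ← dist_eq_norm] at this
        exact this.trans h5.le
      apply LipschitzOnWith.of_dist_le_mul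
      intro a ha b hb
      rcases le_total a b with hab | hab
      · rw [dist_comm, Real.dist_eq, abs_sub_comm, abs_of_nonneg (by linarith)]
        exact key a ha b hb hab
      · rw [Real.dist_eq, abs_of_nonneg (by linarith)]
        exact key b hb a ha hab
    have hr : γ '' Set.Icc 0 (0 + L) = Set.range γ :=
      Function.Periodic.image_Icc hper hL 0
    obtain ⟨K, hK⟩ := (hlip.locallyLipschitzOn (s := Set.Icc 0 (0 + L))
      ).exists_lipschitzOnWith_of_compact isCompact_Icc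
    have hfin := hK.hausdorffMeasure_image_le zero_le_one
    rw [hr, MeasureTheory.hausdorffMeasure_real, Real.volume_Icc, ENNReal.rpow_one] at hfin
    have hcl : IsClosed (Set.range γ) := by
      rw [← hr]; exact (isCompact_Icc.image hlip.continuous).isClosed
    apply H788Z.Geo.not_asymp hcl (Set.range_nonempty γ)
      (ne_top_of_le_ne_top (ENNReal.mul_ne_top ENNReal.coe_ne_top ENNReal.ofReal_ne_top) hfin)
    have := hlim.comp (Filter.tendsto_atTop_add_const_right Filter.atTop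
      (-H788Z.Geo.tau 0) Filter.tendsto_id)
    simpa [Function.comp_def] using this

end Pool.Agent.S13729
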