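import Pool.Statements.S13768
import Pool.Agent.H877Z.Hinge.Main

set_option autoImplicit false
open Topology Filter
open Pool Pool.MP_b098a7_gt

namespace Pool.Agent.S13768

/-- The negation of the preceding statement: If a complete geodesic metric space has, at every hinge, a limiting angle at least the Euclidean comparison angle, then its comparison angles at any point p toward any three other points sum to at most 2π (i.e. it is Alex(0)). -/
theorem result :
    ¬ (∀ (X : Type) [MetricSpace X] [CompleteSpace X],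
      (∀ x y : X, ∃ γ : ℝ → X, γ 0 = x ∧ γ (dist x y) = y ∧
        ∀ s ∈ Set.Icc (0:ℝ) (dist x y), ∀ t ∈ Set.Icc (0:ℝ) (dist x y),
          dist (γ s) (γ t) = |s - t|) →
      (∀ p x y : X, x ≠ p → y ≠ p →
        ∀ γ δ : ℝ → X,
          (γ 0 = p ∧ γ (dist p x) = x ∧
            ∀ s ∈ Set.Icc (0:ℝ) (dist p x), ∀ t ∈ Set.Icc (0:ℝ) (dist p x),
              dist (γ s) (γ t) = |s - t|) →
          (δ 0 = p ∧ δ (dist p y) = y ∧
            ∀ s ∈ Set.Icc (0:ℝ) (dist p y), ∀ t ∈ Set.Icc (0:ℝ) (dist p y),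
              dist (δ s) (δ t) = |s - t|) →
          ∃ α : ℝ,
            Filter.Tendsto
              (fun q : ℝ × ℝ =>
                Real.arccos ((dist p (γ q.1) ^ 2 + dist p (δ q.2) ^ 2
                    - dist (γ q.1) (δ q.2) ^ 2) /
                  (2 * dist p (γ q.1) * dist p (δ q.2))))
              (nhdsWithin (0:ℝ) (Set.Ioi 0) ×ˢ nhdsWithin (0:ℝ) (Set.Ioi 0))
              (nhds α) ∧
            Real.arccos ((dist p x ^ 2 + dist p y ^ 2 - dist x y ^ 2) /
              (2 * dist p x * dist p y)) ≤ α) →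
      ∀ p x₁ x₂ x₃ : X, x₁ ≠ p → x₂ ≠ p → x₃ ≠ p →
        Real.arccos ((dist p x₁ ^ 2 + dist p x₂ ^ 2 - dist x₁ x₂ ^ 2) /
            (2 * dist p x₁ * dist p x₂)) +
          Real.arccos ((dist p x₂ ^ 2 + dist p x₃ ^ 2 - dist x₂ x₃ ^ 2) /
            (2 * dist p x₂ * dist p x₃)) +
          Real.arccos ((dist p x₃ ^ 2 + dist p x₁ ^ 2 - dist x₃ x₁ ^ 2) /
            (2 * dist p x₃ * dist p x₁)) ≤ 2 * Real.pi) := by
  intro H
  obtain ⟨X, _, _, N⟩ := Pool.Agent.H877Z.Hinge.exists_nice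
  obtain ⟨p, q, h1, h2⟩ := N.four
  have hq : ∀ k, q k ≠ p := fun k e => by
    have := h1 k
    rw [e, dist_self] at this
    norm_num at this
  have k := H X N.geo (fun p x y hx hy γ δ hγ hδ => ?_) p (q 0) (q 1) (q 2) (hq 0) (hq 1) (hq 2)
  · rw [h1, h1, h1, h2 0 1 (by decide), h2 1 2 (by decide), h2 2 0 (by decide)] at k
    linarith [Pool.Agent.H877Z.Hinge.big_angle]
  have dx : 0 < dist p x := dist_pos.2 hx.symm
  have dy : 0 < dist p y := dist_pos.2 hy.symm
  have ev := Pool.Agent.H877Z.Hinge.ev_mem dx dy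
  rcases N.hinge p x y hx hy γ δ hγ hδ with ⟨C, C0, hC⟩ | h
  · refine ⟨Real.pi, ?_, Real.arccos_le_pi _⟩
    refine (Pool.Agent.H877Z.Hinge.tendsto_pi dx dy C0 (D := fun q => dist (γ q.1) (δ q.2))
      fun q a b => ⟨hC _ a _ b, dist_nonneg, ?_⟩).congr' ?_
    · have := dist_triangle_left (γ q.1) (δ q.2) p
      rwa [(Pool.Agent.H877Z.Hinge.geo_dist hγ a).1, (Pool.Agent.H877Z.Hinge.geo_dist hδ b).1]
        at this
    · filter_upwards [ev] with q hq
      rw [(Pool.Agent.H877Z.Hinge.geo_dist hγ hq.1).1, (Pool.Agent.H877Z.Hinge.geo_dist hδ hq.2).1]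
  · refine ⟨0, tendsto_const_nhds.congr' ?_, ?_⟩
    · filter_upwards [ev] with q hq
      rw [(Pool.Agent.H877Z.Hinge.geo_dist hγ hq.1).1, (Pool.Agent.H877Z.Hinge.geo_dist hδ hq.2).1,
        h _ hq.1 _ hq.2, Pool.Agent.H877Z.Hinge.arccos_abs hq.1.1 hq.2.1]
    · have := h _ ⟨dx, le_rfl⟩ _ ⟨dy, le_rfl⟩
      rw [hγ.2.1, hδ.2.1] at this
      rw [this, Pool.Agent.H877Z.Hinge.arccos_abs dx dy]

end Pool.Agent.S13768
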