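import Pool.Statements.S13788
import Pool.Agent.H511Z.DiamA

set_option autoImplicit false
open Matrix
open Pool Pool.MP_b3e290_gt

namespace Pool.Agent.S13788

/-- The negation of the preceding statement: In the hyperboloid model of H³, every discrete subgroup of SO⁺(3,1) has quotient diameter at least that of H³ modulo the group generated by the even part of the 3‑5‑3 tetrahedral reflection group and its diagram symmetry. -/
theorem result :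
    ¬ (∀ e : Fin 4 → (Fin 4 → ℝ),
    (∀ i, e i ⬝ᵥ (Matrix.diagonal ![(-1 : ℝ), 1, 1, 1] *ᵥ e i) = 1) →
    e 0 ⬝ᵥ (Matrix.diagonal ![(-1 : ℝ), 1, 1, 1] *ᵥ e 1) = -(1 / 2) →
    e 1 ⬝ᵥ (Matrix.diagonal ![(-1 : ℝ), 1, 1, 1] *ᵥ e 2) = -Real.cos (Real.pi / 5) →
    e 2 ⬝ᵥ (Matrix.diagonal ![(-1 : ℝ), 1, 1, 1] *ᵥ e 3) = -(1 / 2) →
    e 0 ⬝ᵥ (Matrix.diagonal ![(-1 : ℝ), 1, 1, 1] *ᵥ e 2) = 0 →
    e 0 ⬝ᵥ (Matrix.diagonal ![(-1 : ℝ), 1, 1, 1] *ᵥ e 3) = 0 →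
    e 1 ⬝ᵥ (Matrix.diagonal ![(-1 : ℝ), 1, 1, 1] *ᵥ e 3) = 0 →
  ∀ t : Matrix (Fin 4) (Fin 4) ℝ,
    t *ᵥ e 0 = e 3 → t *ᵥ e 1 = e 2 → t *ᵥ e 2 = e 1 → t *ᵥ e 3 = e 0 →
  ∀ Γ : Subgroup (Matrix.GeneralLinearGroup (Fin 4) ℝ),
    (∀ g ∈ Γ,
      (g : Matrix (Fin 4) (Fin 4) ℝ)ᵀ * Matrix.diagonal ![(-1 : ℝ), 1, 1, 1]
          * (g : Matrix (Fin 4) (Fin 4) ℝ) = Matrix.diagonal ![(-1 : ℝ), 1, 1, 1] ∧
      (g : Matrix (Fin 4) (Fin 4) ℝ).det = 1 ∧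
      0 < (g : Matrix (Fin 4) (Fin 4) ℝ) 0 0) →
    DiscreteTopology
      ((fun g : Matrix.GeneralLinearGroup (Fin 4) ℝ => (g : Matrix (Fin 4) (Fin 4) ℝ)) ''
        (Γ : Set (Matrix.GeneralLinearGroup (Fin 4) ℝ))) →
  ∀ c : ℝ, ∀ x₀ y₀ : Fin 4 → ℝ,
    x₀ ⬝ᵥ (Matrix.diagonal ![(-1 : ℝ), 1, 1, 1] *ᵥ x₀) = -1 → 0 < x₀ 0 →
    y₀ ⬝ᵥ (Matrix.diagonal ![(-1 : ℝ), 1, 1, 1] *ᵥ y₀) = -1 → 0 < y₀ 0 →
    (∀ g ∈ Submonoid.closure
        {m : Matrix (Fin 4) (Fin 4) ℝ |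
          (∃ i j : Fin 4,
            m = ((1 : Matrix (Fin 4) (Fin 4) ℝ) - (2 : ℝ) • Matrix.vecMulVec (e i)
                    (Matrix.diagonal ![(-1 : ℝ), 1, 1, 1] *ᵥ e i)) *
                ((1 : Matrix (Fin 4) (Fin 4) ℝ) - (2 : ℝ) • Matrix.vecMulVec (e j)
                    (Matrix.diagonal ![(-1 : ℝ), 1, 1, 1] *ᵥ e j))) ∨ m = t},
      c ≤ -(x₀ ⬝ᵥ (Matrix.diagonal ![(-1 : ℝ), 1, 1, 1] *ᵥ (g *ᵥ y₀)))) →
    ∀ c' : ℝ, c' < c →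
      ∃ x y : Fin 4 → ℝ,
        x ⬝ᵥ (Matrix.diagonal ![(-1 : ℝ), 1, 1, 1] *ᵥ x) = -1 ∧ 0 < x 0 ∧
        y ⬝ᵥ (Matrix.diagonal ![(-1 : ℝ), 1, 1, 1] *ᵥ y) = -1 ∧ 0 < y 0 ∧
        ∀ g ∈ Γ, c' ≤ -(x ⬝ᵥ (Matrix.diagonal ![(-1 : ℝ), 1, 1, 1] *ᵥ
                    ((g : Matrix (Fin 4) (Fin 4) ℝ) *ᵥ y)))) := by
  intro h
  obtain ⟨t, t0, t1, t2, t3⟩ := H511Diam.exists_t
  have hl := H511Diam.ph_lo
  have hh := H511Diam.ph_hi
  have hsq := H511Diam.ph_sq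
  have hss := H511Diam.ss_sq
  have hsp := H511Diam.ss_pos
  have hJ : Matrix.diagonal ![(-1 : ℝ), 1, 1, 1] = H511Diam.J := rfl
  have e0 : H511Diam.e 0 = H511Diam.Vv 1 0 0 0 := by simp [H511Diam.Vv]
  have e1 : H511Diam.e 1 = H511Diam.Vv 0 1 0 0 := by simp [H511Diam.Vv]
  have e2 : H511Diam.e 2 = H511Diam.Vv 0 0 1 0 := by simp [H511Diam.Vv]
  have e3 : H511Diam.e 3 = H511Diam.Vv 0 0 0 1 := by simp [H511Diam.Vv]
  set w : ℝ := √(12 * H511Diam.ph - 15) with hw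
  have hw2 : w ^ 2 = 12 * H511Diam.ph - 15 := Real.sq_sqrt (by linarith)
  have hw0 : 0 < w := Real.sqrt_pos.2 (by linarith)
  have hV := H511Diam.good_start.bound
  have hc : 1.401 * w ≤ 3 * H511Diam.ss / 2 := by
    apply le_of_sq_le_sq _ (by positivity)
    nlinarith
  rw [hJ] at h
  have := h H511Diam.e ?_ ?_ ?_ ?_ ?_ ?_ ?_ t t0 t1 t2 t3 H511Diam.Gam
    (fun g hg => ⟨hg.1.1, hg.1.2.1, hg.1.2.2.1⟩) H511Diam.discrete 1.401 ![1, 0, 0, 0]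
    (w⁻¹ • H511Diam.Vv (2 * H511Diam.ph) (4 * H511Diam.ph) 6 3) ?_ (by simp) ?_ ?_ ?_
    1.4005 (by norm_num)
  · obtain ⟨x, y, hx, hx0, hy, hy0, hg⟩ := this
    rw [H511Diam.form_eq] at hx hy
    obtain ⟨g, hg1, hg2⟩ := H511Diam.diam_le x y ⟨by linarith, hx0⟩ ⟨by linarith, hy0⟩
    have := hg g hg1
    linarith
  · intro i
    fin_cases i
    · show H511Diam.e 0 ⬝ᵥ (H511Diam.J *ᵥ H511Diam.e 0) = 1
      nth_rewrite 1 [e0]; rw [H511Diam.dot0]; norm_num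
    · show H511Diam.e 1 ⬝ᵥ (H511Diam.J *ᵥ H511Diam.e 1) = 1
      nth_rewrite 1 [e1]; rw [H511Diam.dot1]; norm_num
    · show H511Diam.e 2 ⬝ᵥ (H511Diam.J *ᵥ H511Diam.e 2) = 1
      nth_rewrite 1 [e2]; rw [H511Diam.dot2]; norm_num
    · show H511Diam.e 3 ⬝ᵥ (H511Diam.J *ᵥ H511Diam.e 3) = 1
      nth_rewrite 1 [e3]; rw [H511Diam.dot3]; norm_num
  · rw [e0, H511Diam.dot1]; norm_num
  · rw [e1, H511Diam.dot2, Real.cos_pi_div_five]; unfold H511Diam.ph; ring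
  · rw [e2, H511Diam.dot3]; norm_num
  · rw [e0, H511Diam.dot2]; norm_num
  · rw [e0, H511Diam.dot3]; norm_num
  · rw [e1, H511Diam.dot3]; norm_num
  · rw [H511Diam.form_eq]; simp
  · rw [Matrix.mulVec_smul, smul_dotProduct, dotProduct_smul]
    have : H511Diam.Vv (2 * H511Diam.ph) (4 * H511Diam.ph) 6 3 ⬝ᵥ
        (H511Diam.J *ᵥ H511Diam.Vv (2 * H511Diam.ph) (4 * H511Diam.ph) 6 3) = -w ^ 2 := by
      nth_rewrite 2 [H511Diam.Vv]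
      simp only [Matrix.mulVec_add, Matrix.mulVec_smul, dotProduct_add, dotProduct_smul,
        H511Diam.dot0, H511Diam.dot1, H511Diam.dot2, H511Diam.dot3, smul_eq_mul]
      linear_combination hw2 - 12 * hsq
    rw [this]
    simp only [smul_eq_mul]
    field_simp
  · simp only [Pi.smul_apply, smul_eq_mul]
    have : 0 < H511Diam.Vv (2 * H511Diam.ph) (4 * H511Diam.ph) 6 3 0 := by linarith
    positivity
  · intro g hg
    have key : ∀ v, H511Diam.Good v → H511Diam.Good (g *ᵥ v) := by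
      induction hg using Submonoid.closure_induction with
      | mem m hm =>
        rcases hm with ⟨i, j, rfl⟩ | rfl
        · intro v hv
          rw [← Matrix.mulVec_mulVec]
          exact (hv.r j).r i
        · intro v hv
          exact hv.t t0 t1 t2 t3
      | one => intro v hv; simpa using hv
      | mul a b _ _ ha hb =>
        intro v hv
        rw [← Matrix.mulVec_mulVec]
        exact ha _ (hb v hv)
    have hb := (key _ H511Diam.good_start).bound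
    rw [H511Diam.form_eq, Matrix.mulVec_smul]
    simp only [Pi.smul_apply, smul_eq_mul]
    simp
    rw [le_inv_mul_iff₀ hw0]
    linarith

end Pool.Agent.S13788
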