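import Pool.Statements.S13794
import Pool.Agent.H323Z.MagC

set_option autoImplicit false
open Filter Topology
open Pool Pool.MP_b4a804_gt

namespace Pool.Agent.S13794

/-- The negation of the preceding statement: For every real vector space with a translation-invariant p-homogeneous metric (0<p≤1) whose finite similarity matrices are positive definite, Hausdorff convergence of nonempty compact sets implies convergence of their magnitudes in [1,∞]. -/
theorem result :
    ¬ (∀ (E : Type) [MetricSpace E] [AddCommGroup E] [Module ℝ E] [DecidableEq E] (p : ℝ),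
      0 < p → p ≤ 1 →
      (∀ x y : E, dist x y = dist (x - y) 0) →
      (∀ (t : ℝ) (x : E), dist (t • x) 0 = |t| ^ p * dist x 0) →
      (∀ F : Finset E,
        (Matrix.of fun a b : F => Real.exp (-dist (a : E) (b : E))).PosDef) →
      ∀ (A : ℕ → Set E) (A₀ : Set E),
        (∀ k, IsCompact (A k) ∧ (A k).Nonempty) →
        IsCompact A₀ → A₀.Nonempty →
        Tendsto (fun k => Metric.hausdorffDist (A k) A₀) atTop (𝓝 0) →
        Tendsto
          (fun k => ⨆ (F : Finset E) (_ : (↑F : Set E) ⊆ A k),
            ENNReal.ofReal (∑ a : F, ∑ b : F,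
              (Matrix.of fun a b : F => Real.exp (-dist (a : E) (b : E)))⁻¹ a b))
          atTop
          (𝓝 (⨆ (F : Finset E) (_ : (↑F : Set E) ⊆ A₀),
            ENNReal.ofReal (∑ a : F, ∑ b : F,
              (Matrix.of fun a b : F => Real.exp (-dist (a : E) (b : E)))⁻¹ a b)))) := by
  intro h
  have h1 := @h (ℝ × ℝ) _ _ _ (Classical.decEq _) 1 one_pos le_rfl
    (fun x y => by rw [dist_eq_norm, dist_zero_right])
    (fun t x => by rw [dist_zero_right, dist_zero_right, norm_smul, Real.rpow_one, Real.norm_eq_abs])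
    H323Z.Mag.posDef_plane
    (fun k => H323Z.Mag.Rect (1 / ((k + 1 : ℕ) : ℝ))) (H323Z.Mag.Rect 0)
    (fun _ => ⟨H323Z.Mag.rect_compact _, H323Z.Mag.rect_nonempty _⟩)
    (H323Z.Mag.rect_compact _) (H323Z.Mag.rect_nonempty _) H323Z.Mag.tendsto_rect
  refine H323Z.Mag.not_tendsto_rect ?_
  unfold H323Z.Mag.magnitude H323Z.Mag.simMatrix
  convert h1

end Pool.Agent.S13794
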