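import Pool.Statements.S13812
import Pool.Agent.H494Z.Erdos

set_option autoImplicit false
open Pool Pool.MP_b81b72_gt

namespace Pool.Agent.S13812

theorem result :
    ¬ (∀ T : ∀ (G : Type) [AddCommGroup G], AddGroupTopology G,
      (∀ (G H : Type) [AddCommGroup G] [AddCommGroup H] (f : G →+ H),
        @Continuous G H (T G).toTopologicalSpace (T H).toTopologicalSpace f) →
      ∀ (G : Type) [AddCommGroup G], Infinite G →
        @T2Space G (T G).toTopologicalSpace →
        ∃ B : Set (Set G),
          @TopologicalSpace.IsTopologicalBasis G (T G).toTopologicalSpace B ∧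
          ∀ s ∈ B, @IsClopen G (T G).toTopologicalSpace s) :=
  Pool.Agent.H494Z.Erdos.main

end Pool.Agent.S13812
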