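import Pool.Statements.S13885
-- import your own Pool.Agent.* helpers here

set_option autoImplicit false
open Pool Pool.MP_c36963_gt

namespace Pool.Agent.S13885

/-- There exists r : ℂ → ℂ mapping the closed unit disk into the unit circle, fixing the circle, with connected fibers in the disk, such that only finitely many circle points y fail: for all circle sequences s_n → y, every point of the Kuratowski lim sup of the fibers r⁻¹(s_n) lies in r⁻¹(y). -/
theorem result :
    ∃ r : ℂ → ℂ,
      (∀ z ∈ Metric.closedBall (0:ℂ) 1, r z ∈ Metric.sphere (0:ℂ) 1) ∧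
      (∀ y ∈ Metric.sphere (0:ℂ) 1, r y = y) ∧
      (∀ y ∈ Metric.sphere (0:ℂ) 1,
        IsConnected {z : ℂ | z ∈ Metric.closedBall (0:ℂ) 1 ∧ r z = y}) ∧
      Set.Finite {y : ℂ | y ∈ Metric.sphere (0:ℂ) 1 ∧
        ¬ (∀ s : ℕ → ℂ, (∀ n, s n ∈ Metric.sphere (0:ℂ) 1) →
            Filter.Tendsto s Filter.atTop (nhds y) →
            ∀ x : ℂ, (∀ ε : ℝ, ε > 0 → ∀ N : ℕ, ∃ n : ℕ, n ≥ N ∧
                ∃ z : ℂ, z ∈ Metric.closedBall (0:ℂ) 1 ∧ r z = s n ∧ dist z x < ε) →
              r x = y)} := by
  classical
  refine ⟨fun z => if ‖z‖ = 1 then z else 1, ?_, ?_, ?_, ?_⟩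
  · intro z _
    by_cases h : ‖z‖ = 1
    · simp [h]
    · simp [h]
  · intro y hy
    have h : ‖y‖ = 1 := by simpa using hy
    simp [h]
  · intro y hy
    have h : ‖y‖ = 1 := by simpa using hy
    by_cases h1 : y = 1
    · subst h1
      have hb : IsConnected (Metric.ball (0:ℂ) 1) :=
        (convex_ball (0:ℂ) 1).isConnected ⟨0, by simp⟩
      refine hb.subset_closure ?_ ?_
      · intro z hz
        have hz' : ‖z‖ < 1 := by simpa using hz
        refine ⟨by simpa using hz'.le, ?_⟩
        simp [hz'.ne]
      · intro z hz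
        rw [closure_ball (0:ℂ) one_ne_zero]
        exact hz.1
    · have : {z : ℂ | z ∈ Metric.closedBall (0:ℂ) 1 ∧ (if ‖z‖ = 1 then z else 1) = y} = {y} := by
        ext z
        constructor
        · rintro ⟨_, hz⟩
          by_cases h2 : ‖z‖ = 1
          · simpa [h2] using hz
          · simp only [h2, if_false] at hz
            exact absurd hz.symm h1
        · rintro rfl
          exact ⟨by simpa using h.le, by simp [h]⟩
      rw [this]
      exact isConnected_singleton
  · refine (Set.finite_singleton (1:ℂ)).subset ?_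
    rintro y ⟨hy, hbad⟩
    by_contra h1
    have h1' : y ≠ 1 := h1
    have h : ‖y‖ = 1 := by simpa using hy
    apply hbad
    intro s _ hs x hx
    have hxy : x = y := by
      apply eq_of_forall_dist_le
      intro ε hε
      have hpos : 0 < min (ε / 2) (dist y 1) := lt_min (by linarith) (dist_pos.2 h1')
      obtain ⟨N, hN⟩ := (Metric.tendsto_atTop.1 hs) _ hpos
      obtain ⟨n, hn, z, _, hz, hzx⟩ := hx (ε / 2) (by linarith) N
      have hd := hN n hn
      have hz' : z = s n := by
        by_cases h2 : ‖z‖ = 1
        · simpa [h2] using hz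
        · simp only [h2, if_false] at hz
          rw [← hz, dist_comm] at hd
          exact absurd (hd.trans_le (min_le_right _ _)) (lt_irrefl _)
      have hd2 : dist (s n) y < ε / 2 := hd.trans_le (min_le_left _ _)
      rw [hz'] at hzx
      calc dist x y ≤ dist x (s n) + dist (s n) y := dist_triangle _ _ _
        _ ≤ ε := by rw [dist_comm x]; linarith
    rw [hxy]
    simp [h]

end Pool.Agent.S13885
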