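import Pool.Statements.S13896
import Pool.Agent.H518Z.Mag

set_option autoImplicit false
open Pool Pool.MP_c45e3e_gt

namespace Pool.Agent.S13896

/-- The negation of the preceding statement: For every metric space whose finite subsets all have positive definite matrix exp(-d(x,y)), magnitude (sup over finite subsets) is continuous on nonempty compact subsets in the Hausdorff metric, valued in [0,∞]. -/
theorem result :
    ¬ (∀ (W : Type) [MetricSpace W],
      (∀ F : Finset W,
        (Matrix.of fun x y : F => Real.exp (-dist (x : W) (y : W))).PosDef) →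
      Continuous (fun K : TopologicalSpace.NonemptyCompacts W =>
        ⨆ (F : Finset W) (_ : (↑F : Set W) ⊆ (K : Set W)) (v : W → ℝ)
          (_ : ∃ x ∈ F, v x ≠ 0),
          ENNReal.ofReal ((∑ x ∈ F, v x) ^ 2 /
            ∑ x ∈ F, ∑ y ∈ F, v x * v y * Real.exp (-dist x y)))) := by
  intro h
  have hc := h H518Z.Mag.W H518Z.Mag.posDef
  have h1 := (hc.tendsto H518Z.Mag.K0).comp H518Z.Mag.tendsto_KX
  have h2 : ENNReal.ofReal (6 / 5) ≤ _ := ge_of_tendsto' h1 (fun n => by
    refine le_iSup_of_le (H518Z.Mag.X n) (le_iSup_of_le subset_rfl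
      (le_iSup_of_le (H518Z.Mag.wt n) (le_iSup_of_le ?_ ?_)))
    · refine ⟨H518Z.Mag.pt n 2, by simp [H518Z.Mag.X], ?_⟩
      simp [H518Z.Mag.wt, H518Z.Mag.pt]
    · exact ENNReal.ofReal_le_ofReal (H518Z.Mag.ratio n))
  have h3 : ENNReal.ofReal (6 / 5) ≤ ENNReal.ofReal 1 := by
    refine h2.trans (iSup_le fun F => iSup_le fun hF => iSup_le fun v => iSup_le fun hv => ?_)
    obtain ⟨x, hx, hvx⟩ := hv
    have hF' : F = {x} := by
      refine Finset.eq_singleton_iff_unique_mem.2 ⟨hx, fun y hy => ?_⟩
      have e1 : y = H518Z.Mag.base := hF hy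
      have e2 : x = H518Z.Mag.base := hF hx
      rw [e1, e2]
    subst hF'
    refine ENNReal.ofReal_le_ofReal (le_of_eq ?_)
    simp only [Finset.sum_singleton, dist_self, neg_zero, Real.exp_zero, mul_one]
    field_simp
  rw [ENNReal.ofReal_le_ofReal_iff (by norm_num)] at h3
  norm_num at h3

end Pool.Agent.S13896
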