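import Pool.Statements.S13913
import Pool.Agent.H903Z.EG.SLD

set_option autoImplicit false
open Pool Pool.MP_c6464f_gt

namespace Pool.Agent.S13913

open Set Filter Topology Pool.Agent.H903Z.EG

/-- Let L be a Tychonoff, Lindelöf, scattered space and K a compact subset of C_p(L). Then every subspace Y of C_p(K) is weakly θ-refinable: each open cover has an open refinement split into countably many families, with each point in some family lying in at least one but only finitely many members. -/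
theorem result :
  ∀ (L : Type) [TopologicalSpace L] [T35Space L] [LindelofSpace L],
    (∀ S : Set L, S.Nonempty → ∃ x ∈ S, ∃ U : Set L, IsOpen U ∧ U ∩ S = {x}) →
    ∀ K : Set {f : L → ℝ // Continuous f}, IsCompact K →
    ∀ Y : Set {g : K → ℝ // Continuous g},
    ∀ 𝒰 : Set (Set Y), (∀ U ∈ 𝒰, IsOpen U) → ⋃₀ 𝒰 = Set.univ →
    ∃ 𝒢 : ℕ → Set (Set Y), (∀ n, ∀ G ∈ 𝒢 n, IsOpen G ∧ ∃ U ∈ 𝒰, G ⊆ U) ∧
      ∀ y : Y, ∃ n, (∃ G ∈ 𝒢 n, y ∈ G) ∧ {G ∈ 𝒢 n | y ∈ G}.Finite := by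
  intro L _ _ _ hsc K hK Y 𝒰 h𝒰 hcov
  haveI : CompactSpace K := isCompact_iff_compactSpace.1 hK
  obtain ⟨c, hc⟩ := sld_univ hsc (fun k : K => k.1.1)
    (IsEmbedding.subtypeVal.comp IsEmbedding.subtypeVal) fun k => k.1.2
  let φ : Y → C(K, ℝ) := fun y => ⟨y.1.1, y.1.2⟩
  have hind : IsInducing fun y : Y => y.1.1 := IsInducing.subtypeVal.comp IsInducing.subtypeVal
  have hφ : ∀ y, Tendsto φ (𝓝 y) (pw (φ y)) := fun y =>
    tendsto_comap_iff.2 (hind.continuous.tendsto y)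
  have hu : ∀ y : Y, ∃ U, (U ∈ 𝒰 ∧ y ∈ U) ∧
      ∀ V ∈ {V | V ∈ 𝒰 ∧ y ∈ V}, ¬ WellOrderingRel V U := fun y =>
    (WellOrderingRel.isWellOrder (α := Set Y)).wf.has_min {V | V ∈ 𝒰 ∧ y ∈ V} (by
      have : y ∈ ⋃₀ 𝒰 := hcov ▸ mem_univ y
      exact this)
  choose u hu humin using hu
  have hm : ∀ y : Y, ∃ m : ℕ, ∀ y' : Y, dist (φ y') (φ y) ≤ 1 / ((m : ℝ) + 1) → y' ∈ u y := by
    intro y
    obtain ⟨V, hV, hVu⟩ := hind.isOpen_iff.1 (h𝒰 _ (hu y).1)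
    have h1 : IsOpen ((fun ψ : C(K, ℝ) => (ψ : K → ℝ)) ⁻¹' V) :=
      hV.preimage (continuous_pi fun k => continuous_eval_const k)
    obtain ⟨ε, hε, hb⟩ := Metric.isOpen_iff.1 h1 (φ y) (by
      have := (hu y).2
      rw [← hVu] at this
      exact this)
    obtain ⟨m, hm⟩ := exists_nat_one_div_lt hε
    refine ⟨m, fun y' h => ?_⟩
    rw [← hVu]
    exact hb (lt_of_le_of_lt h hm)
  choose m hm using hm
  have hW : ∀ y : Y, ∃ W : Set Y, IsOpen W ∧ y ∈ W ∧ ∀ y' ∈ W,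
      c (m y) (φ y') = c (m y) (φ y) → dist (φ y') (φ y) ≤ 1 / ((m y : ℝ) + 1) := by
    intro y
    obtain ⟨W, h1, h2, h3⟩ := mem_nhds_iff.1 ((hφ y).eventually (hc (m y) (φ y)))
    exact ⟨W, h2, h3, fun y' hy' => h1 hy'⟩
  choose W hWo hWy hW using hW
  let col : Y → ℕ := fun y => Nat.pair (m y) (c (m y) (φ y))
  let G : ℕ → Set Y → Set Y := fun n U => U ∩ ⋃ y ∈ {y | u y = U ∧ col y = n}, W y
  refine ⟨fun n => G n '' 𝒰, ?_, fun y => ⟨col y, ⟨_, ⟨u y, (hu y).1, rfl⟩, (hu y).2,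
    mem_iUnion₂.2 ⟨y, ⟨rfl, rfl⟩, hWy y⟩⟩, ?_⟩⟩
  · rintro n _ ⟨U, hU, rfl⟩
    exact ⟨(h𝒰 U hU).inter (isOpen_biUnion fun y _ => hWo y), U, hU, inter_subset_left⟩
  · refine (finite_singleton (G (col y) (u y))).subset ?_
    rintro _ ⟨⟨U, hU, rfl⟩, hyU, hy⟩
    obtain ⟨y', ⟨rfl, h2⟩, h3⟩ := mem_iUnion₂.1 hy
    simp only [col, Nat.pair_eq_pair] at h2
    obtain ⟨e1, e2⟩ := h2
    have h4 := hW y' y h3 (by rw [e2, e1])
    have h5 : y' ∈ u y := hm y y' (by rw [dist_comm, ← e1]; exact h4)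
    have h6 : u y' = u y := by
      rcases trichotomous_of (WellOrderingRel (α := Set Y)) (u y') (u y) with h | h | h
      · exact absurd h (humin y _ ⟨hU, hyU⟩)
      · exact h
      · exact absurd h (humin y' _ ⟨(hu y).1, h5⟩)
    rw [h6]
    rfl

end Pool.Agent.S13913
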