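import Pool.Statements.S13956
import Pool.Agent.H409Z.Slip

set_option autoImplicit false
open Pool Pool.MP_ccb0d0_gt

namespace Pool.Agent.S13956

/-- The negation of the preceding statement: For a positive word w = a^α1 b^β1 … a^αm b^βm and reals r, s: if the maximal rotation number of w over lifted circle homeomorphisms a, b with rotation numbers r, s is p/q in lowest terms, then ∣p/q − (Σα)r − (Σβ)s∣ ≤ m/q. -/
theorem result :
    ¬ (∀ (m : ℕ) (α β : Fin m → ℕ), 0 < m → (∀ i, 0 < α i) → (∀ i, 0 < β i) →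
    ∀ (r s : ℝ) (x : ℚ),
      sSup {t : ℝ | ∃ a b : CircleDeg1Liftˣ,
          CircleDeg1Lift.translationNumber (a : CircleDeg1Lift) = r ∧
          CircleDeg1Lift.translationNumber (b : CircleDeg1Lift) = s ∧
          t = CircleDeg1Lift.translationNumber
            ((List.ofFn fun i => (a : CircleDeg1Lift) ^ (α i) * (b : CircleDeg1Lift) ^ (β i)).prod)}
        = (x : ℝ) →
      |(x : ℝ) - (∑ i, (α i : ℝ)) * r - (∑ i, (β i : ℝ)) * s| ≤ (m : ℝ) / (x.den : ℝ)) := by
  intro h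
  have hw : ∀ a b : CircleDeg1Lift,
      (List.ofFn fun i : Fin 12 => a ^ ((![1, 1, 1, 1, 1, 1, 1, 1, 1, 1, 1, 3] : Fin 12 → ℕ) i) *
        b ^ ((![1, 1, 1, 1, 1, 1, 1, 1, 1, 1, 4, 4] : Fin 12 → ℕ) i)).prod =
        Pool.Agent.H409Z.Slip.wd a b := by
    intro a b
    unfold Pool.Agent.H409Z.Slip.wd Pool.Agent.H409Z.Slip.L
    congr 1
  have h1 := h 12 ![1, 1, 1, 1, 1, 1, 1, 1, 1, 1, 1, 3] ![1, 1, 1, 1, 1, 1, 1, 1, 1, 1, 4, 4]
    (by norm_num) (by decide) (by decide) (1 / 5) (1 / 5) (25 / 2) (by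
      simp only [hw]
      rw [Pool.Agent.H409Z.Slip.sSup_eq]
      norm_num)
  have h2 : (25 / 2 : ℚ).den = 2 := by norm_num
  rw [h2] at h1
  simp only [Fin.sum_univ_succ, Fin.sum_univ_zero, Matrix.cons_val_zero, Matrix.cons_val_succ] at h1
  norm_num [abs_le] at h1

end Pool.Agent.S13956
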