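import Pool.Statements.S14023
import Pool.Agent.H121Z.TorE

set_option autoImplicit false
open Pool Pool.MP_d63641_gt

namespace Pool.Agent.S14023

/-- There is a smooth metric on T^2 x R^2 (same as T^2 x open disc), given as a periodic metric on R^4, with the torus {0} totally geodesic and flat, and sectional curvature strictly positive at every point off that torus. -/
theorem result :
    ∃ g : Fin 4 → Fin 4 → (Fin 4 → ℝ) → ℝ,
    ∃ Γ : Fin 4 → Fin 4 → Fin 4 → (Fin 4 → ℝ) → ℝ,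
    ∃ R : Fin 4 → Fin 4 → Fin 4 → Fin 4 → (Fin 4 → ℝ) → ℝ,
      (∀ i j : Fin 4, ∀ n : ℕ, ContDiff ℝ n (g i j)) ∧
      (∀ i j : Fin 4, ∀ x : Fin 4 → ℝ, g i j x = g j i x) ∧
      (∀ x v : Fin 4 → ℝ, v ≠ 0 → 0 < ∑ i, ∑ j, g i j x * v i * v j) ∧
      (∀ i j : Fin 4, ∀ x : Fin 4 → ℝ,
        g i j (x + (Pi.single 0 1 : Fin 4 → ℝ)) = g i j x ∧
        g i j (x + (Pi.single 1 1 : Fin 4 → ℝ)) = g i j x) ∧
      (∀ a k l : Fin 4, ∀ x : Fin 4 → ℝ,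
        Γ a k l x = (fderiv ℝ (g l a) x (Pi.single k 1) + fderiv ℝ (g k a) x (Pi.single l 1)
          - fderiv ℝ (g k l) x (Pi.single a 1)) / 2) ∧
      (∀ i k l m : Fin 4, ∀ x : Fin 4 → ℝ,
        R i k l m x =
          (fderiv ℝ (fun y => fderiv ℝ (g i m) y (Pi.single k 1)) x (Pi.single l 1)
            + fderiv ℝ (fun y => fderiv ℝ (g k l) y (Pi.single i 1)) x (Pi.single m 1)
            - fderiv ℝ (fun y => fderiv ℝ (g i l) y (Pi.single k 1)) x (Pi.single m 1)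
            - fderiv ℝ (fun y => fderiv ℝ (g k m) y (Pi.single i 1)) x (Pi.single l 1)) / 2
          + ∑ a, ∑ b, (Matrix.of fun p q => g p q x)⁻¹ a b *
              (Γ a k l x * Γ b i m x - Γ a k m x * Γ b i l x)) ∧
      (∀ x : Fin 4 → ℝ, x 2 = 0 → x 3 = 0 →
        (∀ i j n : Fin 4, i.val < 2 → j.val < 2 → 2 ≤ n.val →
          ∑ a, (Matrix.of fun p q => g p q x)⁻¹ n a * Γ a i j x = 0) ∧
        R 0 1 0 1 x = 0) ∧
      (∀ x : Fin 4 → ℝ, (x 2 ≠ 0 ∨ x 3 ≠ 0) →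
        ∀ u v : Fin 4 → ℝ, LinearIndependent ℝ ![u, v] →
          0 < ∑ i, ∑ k, ∑ l, ∑ m, R i k l m x * u i * v k * u l * v m) := by
  obtain ⟨δ, r, h1, h2, h3⟩ := Pool.Agent.H121Z.Tor.main
  refine ⟨Pool.Agent.H121Z.Tor.gg δ r,
    fun a k l x => Pool.Agent.H121Z.Tor.Gam (Pool.Agent.H121Z.Tor.dT δ r x) a k l,
    fun i k l m x => Pool.Agent.H121Z.Tor.Riem
      (fun a b => (Matrix.of fun p q => Pool.Agent.H121Z.Tor.gg δ r p q x)⁻¹ a b)
      (Pool.Agent.H121Z.Tor.dT δ r x) (Pool.Agent.H121Z.Tor.ddT δ r x) i k l m,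
    fun i j n => Pool.Agent.H121Z.Tor.E.contDiff_ev (Pool.Agent.H121Z.Tor.ew_smooth δ r n) _,
    fun i j x => ?_, h1, fun i j x => ?_, fun _ _ _ _ => rfl, fun _ _ _ _ _ => rfl,
    fun x a b => ⟨fun i j n hi hj _ => ?_, (h2 x a b).2⟩, h3⟩
  · simp only [Pool.Agent.H121Z.Tor.gg, Pool.Agent.H121Z.Tor.E.ev,
      Pool.Agent.H121Z.Tor.gE_symm i j]
    ring
  · simp only [Pool.Agent.H121Z.Tor.gg, (Pool.Agent.H121Z.Tor.ew_per δ r x).1,
      (Pool.Agent.H121Z.Tor.ew_per δ r x).2, and_self]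
  · simp [fun c => (h2 x a b).1 c i j hi hj]

end Pool.Agent.S14023
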