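import Pool.Statements.S14091
import Pool.Agent.H567Z.TightMain

set_option autoImplicit false
open Pool Pool.MP_de131a_gt

namespace Pool.Agent.S14091

/-- For every Hausdorff abelian topological group that is locally minimal (some identity neighbourhood forbids strictly coarser Hausdorff group topologies in which it stays a neighbourhood), its tightness equals its character. -/
theorem result :
    ∀ (G : Type) [CommGroup G] [τ : TopologicalSpace G] [IsTopologicalGroup G] [T2Space G],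
      (∃ U ∈ nhds (1 : G), ∀ σ : TopologicalSpace G,
          @IsTopologicalGroup G σ _ → @T2Space G σ → τ ≤ σ → U ∈ @nhds G σ 1 → σ = τ) →
      sInf {κ : Cardinal | ∀ A : Set G, ∀ x ∈ closure A,
              ∃ B ⊆ A, Cardinal.mk B ≤ κ ∧ x ∈ closure B}
        = sInf {κ : Cardinal | ∃ 𝓑 : Set (Set G),
              (nhds (1 : G)).HasBasis (fun s => s ∈ 𝓑) id ∧ Cardinal.mk 𝓑 = κ} := by
  rintro G _ τ _ _ ⟨U, hU, hmin⟩
  have hne : {κ : Cardinal | ∃ 𝓑 : Set (Set G),
      (nhds (1 : G)).HasBasis (fun s => s ∈ 𝓑) id ∧ Cardinal.mk 𝓑 = κ}.Nonempty :=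
    ⟨_, (nhds (1 : G)).sets, (nhds (1 : G)).basis_sets, rfl⟩
  obtain ⟨𝓑, h1, h2⟩ := csInf_mem hne
  have h3 := H567Z.TM.tight_of_basis h1
  refine le_antisymm (h2 ▸ csInf_le' h3) ?_
  have h4 := csInf_mem (s := {κ : Cardinal | ∀ A : Set G, ∀ x ∈ closure A,
    ∃ B ⊆ A, Cardinal.mk B ≤ κ ∧ x ∈ closure B}) ⟨_, h3⟩
  rcases le_or_gt Cardinal.aleph0 _ with h5 | h5
  · obtain ⟨𝓒, h6, h7⟩ := H567Z.TM.basis_of_tight_mul hU hmin h5 h4
    exact le_trans (csInf_le' (a := Cardinal.mk 𝓒) ⟨𝓒, h6, rfl⟩) h7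
  · have h6 : DiscreteTopology G := by
      refine discreteTopology_iff_forall_isClosed.2 fun A => isClosed_of_closure_subset ?_
      intro x hx
      obtain ⟨B, h6, h7, h8⟩ := h4 A x hx
      rw [(Cardinal.lt_aleph0_iff_set_finite.1 (h7.trans_lt h5)).isClosed.closure_eq] at h8
      exact h6 h8
    obtain ⟨B, -, h7, h8⟩ := h4 {1} 1 (subset_closure rfl)
    refine le_trans (csInf_le' (a := 1) ⟨{{1}}, ?_, Cardinal.mk_singleton _⟩) (le_trans ?_ h7)
    · rw [nhds_discrete]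
      exact ⟨fun S => by simp⟩
    · rw [closure_discrete] at h8
      exact Cardinal.one_le_iff_ne_zero.2 (Cardinal.mk_ne_zero_iff.2 ⟨⟨1, h8⟩⟩)

end Pool.Agent.S14091
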