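import Pool.Statements.S14094
import Pool.Agent.H425Z.SGroupZ

set_option autoImplicit false
open Pool Pool.MP_de3f93_gt

namespace Pool.Agent.S14094

theorem result :
    ¬ (∀ (G : Type) [Group G] [TopologicalSpace G] [IsTopologicalGroup G] [T2Space G],
      (∀ (H : Type) [Group H] [TopologicalSpace H] [IsTopologicalGroup H] [T2Space H]
          (f : G →* H), SeqContinuous (f : G → H) → Continuous (f : G → H)) →
      (∀ (A : Set G), ∀ x ∈ closure A, ∃ B : Set G, B ⊆ A ∧ B.Countable ∧ x ∈ closure B) →
      (∀ K : Subgroup G, IsClosed (K : Set G) →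
        ∀ (H : Type) [Group H] [TopologicalSpace H] [IsTopologicalGroup H] [T2Space H]
          (f : K →* H), SeqContinuous (f : K → H) → Continuous (f : K → H)) →
      SequentialSpace G) := by
  intro h
  apply Pool.Agent.H425Z.SG.not_sequential
  refine h Pool.Agent.H425Z.SG.G ?_ ?_ ?_
  · intro H _ _ _ _ f hf
    refine Pool.Agent.H425Z.SG.continuous_hom (S := Pool.Agent.H425Z.SG.S) f ?_
    intro u hu
    have := hf (Pool.Agent.H425Z.SG.tendsto_tauS hu)
    rw [map_one] at this
    exact this
  · intro A x hx
    exact ⟨A, subset_rfl, Set.to_countable A, hx⟩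
  · intro K hK H _ _ _ _ f hf
    by_cases hb : K = ⊥
    · subst hb
      exact continuous_of_discreteTopology
    · have := Pool.Agent.H425Z.SG.finiteIndex_of_ne_bot K hb
      exact Pool.Agent.H425Z.SG.continuous_hom_open (S := Pool.Agent.H425Z.SG.S) K
        (K.isOpen_of_isClosed_of_finiteIndex hK) f hf

end Pool.Agent.S14094
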