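import Pool.Statements.S14157
import Pool.Agent.H410Z.JonesC

set_option autoImplicit false
open Pool Pool.MP_e81b80_gt

namespace Pool.Agent.S14157

/-- For a Hausdorff continuum S, if Jones's function T is continuous on nonempty closed sets (Vietoris topology), then the sets T({p}) partition S into a continuous decomposition whose quotient space is locally connected. -/
theorem result :
    ∀ (S : Type) [TopologicalSpace S] [CompactSpace S] [ConnectedSpace S] [T2Space S]
      (T : Set S → Set S) (V : TopologicalSpace (Set S)),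
      (∀ A : Set S, T A = {x : S | ∀ W : Set S, IsClosed W → IsConnected W →
          x ∈ interior W → (W ∩ A).Nonempty}) →
      V = TopologicalSpace.generateFrom
          ({𝒰 : Set (Set S) | ∃ U : Set S, IsOpen U ∧ 𝒰 = {A : Set S | A ⊆ U}} ∪
           {𝒰 : Set (Set S) | ∃ U : Set S, IsOpen U ∧ 𝒰 = {A : Set S | (A ∩ U).Nonempty}}) →
      @Continuous {A : Set S // IsClosed A ∧ A.Nonempty} (Set S)
          (TopologicalSpace.induced Subtype.val V) V (fun A => T A.1) →
      (∀ p q : S, T {p} = T {q} ∨ Disjoint (T {p}) (T {q})) ∧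
      @Continuous S (Set S) _ V (fun p => T {p}) ∧
      ∀ r : S → S → Prop, (∀ p q : S, r p q ↔ T {p} = T {q}) →
        LocallyConnectedSpace (Quot r) := by
  intro S _ _ _ _ T V hT hV h
  have hT' : T = Pool.Agent.H410Z.Jones.T := by
    funext A
    rw [hT A]
    ext p
    constructor
    · intro h1 W h2 h3 h4
      exact h1 W h2.isClosed h3 h4
    · intro h1 W h2 h3 h4
      exact h1 W h2.isCompact h3 h4
  have hV' : V = TopologicalSpace.vietoris S := hV.trans Pool.Agent.H410Z.Jones.viet_eq
  subst hT' hV'
  letI := TopologicalSpace.vietoris S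
  have h' : ContinuousOn (Pool.Agent.H410Z.Jones.T : Set S → Set S)
      {A : Set S | IsClosed A ∧ A.Nonempty} := continuousOn_iff_continuous_restrict.2 h
  have hc := Pool.Agent.H410Z.Jones.cts_of_continuousOn h'
  exact ⟨Pool.Agent.H410Z.Jones.eq_or_disjoint hc,
    Pool.Agent.H410Z.Jones.continuous_T_singleton hc,
    Pool.Agent.H410Z.Jones.locConn hc⟩

end Pool.Agent.S14157
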