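import Pool.Statements.S14166
import Pool.Agent.H618Z.BethCube

set_option autoImplicit false
open Pool Pool.MP_eb94e6_gt

namespace Pool.Agent.S14166

/-- The negation of the preceding statement: For every compact Hausdorff space X, the supremum over dense D of the least number of discrete sets whose union is dense in D equals the least number of disjoint families of nonempty open sets whose union is a π-base of X. -/
theorem result :
    ¬ (∀ (X : Type) [TopologicalSpace X], CompactSpace X → T2Space X →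
      (⨆ D : {D : Set X // Dense D},
          sInf {κ : Cardinal.{0} | ∃ (ι : Type) (A : ι → Set X),
            Cardinal.mk ι = κ ∧
            (∀ i, A i ⊆ D.1 ∧ DiscreteTopology ↥(A i)) ∧
            D.1 ⊆ closure (⋃ i, A i)}) =
      sInf {κ : Cardinal.{0} | ∃ (ι : Type) (C : ι → Set (Set X)),
        Cardinal.mk ι = κ ∧
        (∀ i, (C i).PairwiseDisjoint id) ∧
        (∀ i, ∀ U ∈ C i, IsOpen U ∧ U.Nonempty) ∧
        ∀ V : Set X, IsOpen V → V.Nonempty → ∃ i, ∃ U ∈ C i, U ⊆ V}) := by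
  intro h
  obtain ⟨I, rk, h1, h2, h3⟩ := H618Z.BethCube.exists_index
  have h4 := h (I → ZMod 2) inferInstance inferInstance
  have hne : {κ : Cardinal.{0} | ∃ (ι : Type) (C : ι → Set (Set (I → ZMod 2))),
        Cardinal.mk ι = κ ∧
        (∀ i, (C i).PairwiseDisjoint id) ∧
        (∀ i, ∀ U ∈ C i, IsOpen U ∧ U.Nonempty) ∧
        ∀ V : Set (I → ZMod 2), IsOpen V → V.Nonempty → ∃ i, ∃ U ∈ C i, U ⊆ V}.Nonempty := by
    refine ⟨_, {U : Set (I → ZMod 2) // IsOpen U ∧ U.Nonempty}, fun U => {U.1}, rfl, ?_, ?_, ?_⟩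
    · intro i
      exact Set.pairwiseDisjoint_singleton _ _
    · rintro i U rfl
      exact i.2
    · intro V hV hV'
      exact ⟨⟨V, hV, hV'⟩, V, rfl, subset_rfl⟩
  obtain ⟨ι, C, hc, hC1, hC2, hC3⟩ := csInf_mem hne
  have hle : Cardinal.mk ι ≤ Cardinal.aleph0 := by
    rw [hc, ← h4]
    refine ciSup_le' fun D => csInf_le' ?_
    obtain ⟨E, hE1, hE2⟩ := H618Z.BethCube.dSep h1 h2 rk h3 (fun _ => D.1) (fun _ => D.2)
    exact ⟨ℕ, E, Cardinal.mk_nat, hE1, fun x _ => hE2 x⟩
  have : Countable ι := Cardinal.mk_le_aleph0_iff.mp hle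
  exact H618Z.BethCube.no_base h1 h2 ι C hC1 hC2 hC3

end Pool.Agent.S14166
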