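import Pool.Statements.S14174
import Pool.Agent.H813Z.CarpetL

set_option autoImplicit false
open Pool Pool.MP_ecb7d4_gt

namespace Pool.Agent.S14174

/-- The negation of the preceding statement: Take any full Bedford–McMullen carpet: n×m grid with 2≤m<n and every row containing a chosen rectangle. Its Hausdorff dimension is at most that of every quasisymmetric image of it in any metric space. -/
theorem result :
    ¬ (∀ (m n : ℕ), 2 ≤ m → m < n →
    ∀ D : Finset (Fin n × Fin m), (∀ j : Fin m, ∃ i : Fin n, (i, j) ∈ D) →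
    ∀ K : Set (ℝ × ℝ), IsCompact K → K.Nonempty →
    K = ⋃ d ∈ D, (fun p : ℝ × ℝ =>
          ((p.1 + ((d.1 : ℕ) : ℝ)) / (n : ℝ), (p.2 + ((d.2 : ℕ) : ℝ)) / (m : ℝ))) '' K →
    ∀ (Y : Type) [MetricSpace Y] (f : K → Y), Function.Injective f →
    (∃ η : ℝ → ℝ, η 0 = 0 ∧ ContinuousOn η (Set.Ici 0) ∧ StrictMonoOn η (Set.Ici 0) ∧
      ∀ x a b : K, ∀ t : ℝ, 0 ≤ t → dist x a ≤ t * dist x b →
        dist (f x) (f a) ≤ η t * dist (f x) (f b)) →
    dimH (Set.univ : Set K) ≤ dimH (Set.range f)) := by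
  intro h
  have := h 3 6 (by norm_num) (by norm_num) H813Z.Carpet.D H813Z.Carpet.D_full H813Z.Carpet.K
    H813Z.Carpet.K_compact H813Z.Carpet.K_nonempty H813Z.Carpet.K_fix H813Z.Carpet.Y
    H813Z.Carpet.toY (fun _ _ e => e)
    ⟨H813Z.Carpet.eta, H813Z.Carpet.eta_zero, H813Z.Carpet.eta_cont, H813Z.Carpet.eta_mono,
      fun x a b t ht hd => H813Z.Carpet.dd_qs (H813Z.Carpet.good_K x.2) (H813Z.Carpet.good_K a.2)
        (H813Z.Carpet.good_K b.2) ht hd⟩
  exact absurd this (not_le.mpr H813Z.Carpet.dim_drop)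

end Pool.Agent.S14174
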