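import Pool.Statements.S14275
import Pool.Agent.H494Z.Functorial

set_option autoImplicit false
open Pool Pool.MP_faf39c_gt

namespace Pool.Agent.S14275

theorem result :
    ∃ T : (G : Type) → [AddCommGroup G] → TopologicalSpace G,
      (∀ (G : Type) [AddCommGroup G], @IsTopologicalAddGroup G (T G) _) ∧
      (∀ (G H : Type) [AddCommGroup G] [AddCommGroup H] (f : G →+ H),
          @Continuous G H (T G) (T H) f) ∧
      ∃ (G : Type) (_ : AddCommGroup G), Infinite G ∧ @T2Space G (T G) ∧
        ∃ D : Set G, @Dense G (T G) D ∧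
          (2 : Cardinal) ^ Cardinal.mk ↥D < Cardinal.mk G :=
  Pool.Agent.H494Z.Functorial.main

end Pool.Agent.S14275
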