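import Pool.Statements.S14335
import Pool.Agent.H216Z.DioG

set_option autoImplicit false
open Pool Pool.MP_064548_lc

namespace Pool.Agent.S14335

/-- For every finite field K there are n ≥ 1 and a polynomial equation over K[W,Z] defining α(f,g) with g in K[Z]^n, such that every f has some g with α(f,g) and each g is related to only finitely many f. -/
theorem result :
    ∀ (K : Type) [Field K] [Finite K],
      ∃ n : ℕ, 0 < n ∧ ∃ k : ℕ,
        ∃ P : MvPolynomial (Option (Fin n) ⊕ Fin k) (MvPolynomial (Fin 2) K),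
          (∀ f : MvPolynomial (Fin 2) K, ∃ g : Fin n → Polynomial K,
            ∃ y : Fin k → MvPolynomial (Fin 2) K,
              MvPolynomial.eval
                (Sum.elim
                  (fun o : Option (Fin n) =>
                    Option.elim o f
                      (fun i => Polynomial.aeval (MvPolynomial.X 1 : MvPolynomial (Fin 2) K) (g i)))
                  y) P = 0) ∧
          (∀ g : Fin n → Polynomial K,
            {f : MvPolynomial (Fin 2) K |
              ∃ y : Fin k → MvPolynomial (Fin 2) K,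
                MvPolynomial.eval
                  (Sum.elim
                    (fun o : Option (Fin n) =>
                      Option.elim o f
                        (fun i => Polynomial.aeval (MvPolynomial.X 1 : MvPolynomial (Fin 2) K) (g i)))
                    y) P = 0}.Finite) := by
  intro K _ _
  obtain ⟨a, ha, hD⟩ := Pool.Agent.H216Z.DioA.exists_nonsplit K
  refine ⟨3, by norm_num, 10, Pool.Agent.H216Z.DioA.eqn (MvPolynomial.C (MvPolynomial.C a))
    (MvPolynomial.C (MvPolynomial.X 0)) (MvPolynomial.C (MvPolynomial.X 1))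
    (MvPolynomial.X (Sum.inl none)) (MvPolynomial.X (Sum.inl (some 0)))
    (MvPolynomial.X (Sum.inl (some 1))) (MvPolynomial.X (Sum.inl (some 2)))
    (MvPolynomial.X (Sum.inr 0)) (MvPolynomial.X (Sum.inr 1)) (MvPolynomial.X (Sum.inr 2))
    (MvPolynomial.X (Sum.inr 3)) (MvPolynomial.X (Sum.inr 4)) (MvPolynomial.X (Sum.inr 5))
    (MvPolynomial.X (Sum.inr 6)) (MvPolynomial.X (Sum.inr 7)) (MvPolynomial.X (Sum.inr 8))
    (MvPolynomial.X (Sum.inr 9)), ?_, ?_⟩
  · intro f
    obtain ⟨g1, g2, g3, x, y, j, u, s, t, y1, y2, y3, y4, h⟩ :=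
      Pool.Agent.H216Z.DioA.exists_rel ha hD f
    refine ⟨![g1, g2, g3], ![x, y, j, u, s, t, y1, y2, y3, y4], ?_⟩
    rw [Pool.Agent.H216Z.DioA.map_eqn]
    simp only [MvPolynomial.eval_C, MvPolynomial.eval_X, Sum.elim_inl, Sum.elim_inr,
      Option.elim_none, Option.elim_some]
    exact (Pool.Agent.H216Z.DioA.eqn_iff ha _ _ _ _ _ _ _ _ _ _ _ _ _ _ _ _).mpr h
  · intro g
    refine (Pool.Agent.H216Z.DioA.finite_rel ha (g 0) (g 1) (g 2)).subset ?_
    rintro f ⟨y, hy⟩
    rw [Pool.Agent.H216Z.DioA.map_eqn] at hy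
    simp only [MvPolynomial.eval_C, MvPolynomial.eval_X, Sum.elim_inl, Sum.elim_inr,
      Option.elim_none, Option.elim_some] at hy
    exact ⟨_, _, _, _, _, _, _, _, _, _,
      (Pool.Agent.H216Z.DioA.eqn_iff ha _ _ _ _ _ _ _ _ _ _ _ _ _ _ _ _).mp hy⟩

end Pool.Agent.S14335
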