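import Pool.Statements.S14341
import Pool.Agent.H366Z.BO.Main

set_option autoImplicit false
open Pool Pool.MP_07d4a7_lc

namespace Pool.Agent.S14341

/-- Every countable Borel equivalence relation on a standard Borel space Borel-reduces to isomorphism of finitely generated bi-orderable groups, coded as marked quotients of the free group on countably many generators. -/
theorem result :
  ∀ (X : Type) [MeasurableSpace X] [StandardBorelSpace X] (E : X → X → Prop),
    Equivalence E → MeasurableSet {p : X × X | E p.1 p.2} →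
    (∀ x : X, {y : X | E x y}.Countable) →
    ∃ f : X → (FreeGroup ℕ → Bool), Measurable f ∧
      (∀ x : X,
        (∀ g : FreeGroup ℕ, f x g = true ↔
            g ∈ Subgroup.normalClosure {h : FreeGroup ℕ | f x h = true}) ∧
        (∃ n : ℕ, ∀ i : ℕ, n ≤ i → f x (FreeGroup.of i) = true) ∧
        (∃ o : LinearOrder (FreeGroup ℕ ⧸ Subgroup.normalClosure {h : FreeGroup ℕ | f x h = true}),
          ∀ a b c : FreeGroup ℕ ⧸ Subgroup.normalClosure {h : FreeGroup ℕ | f x h = true},
            o.le a b → o.le (c * a) (c * b) ∧ o.le (a * c) (b * c))) ∧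
      ∀ x y : X, E x y ↔
        Nonempty ((FreeGroup ℕ ⧸ Subgroup.normalClosure {h : FreeGroup ℕ | f x h = true}) ≃*
          (FreeGroup ℕ ⧸ Subgroup.normalClosure {h : FreeGroup ℕ | f y h = true})) := by
  intro X _ _ E hE hm hc
  classical
  obtain ⟨S, hS1, hS2, hS3⟩ := H366Z.BO.shift_univ E hE hm hc
  obtain ⟨κ, k1, k2, k3⟩ := H366Z.BO.family
  have hker : ∀ x, Subgroup.normalClosure
      {h : FreeGroup ℕ | decide (H366Z.BO.pi (κ (S x)) h = 1) = true} =
      (H366Z.BO.pi (κ (S x))).ker := by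
    intro x
    rw [← Subgroup.normalClosure_eq_self (H366Z.BO.pi (κ (S x))).ker]
    congr 1
    ext h
    simp
  have iso : ∀ x, Nonempty ((FreeGroup ℕ ⧸ Subgroup.normalClosure
      {h : FreeGroup ℕ | decide (H366Z.BO.pi (κ (S x)) h = 1) = true}) ≃*
      (H366Z.BO.pi (κ (S x))).range) := fun x =>
    ⟨(QuotientGroup.quotientMulEquivOfEq (hker x)).trans (QuotientGroup.quotientKerEquivRange _)⟩
  refine ⟨fun x h => decide (H366Z.BO.pi (κ (S x)) h = 1), ?_, fun x => ⟨fun g => ?_, ⟨4, ?_⟩, ?_⟩,
    fun x y => ?_⟩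
  · refine measurable_pi_lambda _ fun w => ?_
    apply measurable_to_bool
    have e : (fun x => decide (H366Z.BO.pi (κ (S x)) w = 1)) ⁻¹' {true} =
        {x | H366Z.BO.pi (κ (S x)) w = 1} := by ext x; simp
    rw [e]
    simp only [H366Z.BO.pi_eq_one (κ (S _)) w]
    rw [measurableSet_setOfPred]
    refine measurable_const.and (Measurable.forall fun x => Measurable.forall fun k =>
      Measurable.forall fun y => Measurable.forall fun l => Measurable.or ?_ measurable_const)
    rcases k2 (x⁻¹ * y) k l with h | ⟨z, h⟩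
    · simp only [h]
      exact measurableSet_setOfPred.1 (hS1 _)
    · simp only [h]
      exact measurable_const
  · rw [hker]; simp
  · intro i hi
    have : H366Z.BO.gens (κ (S x)) i = 1 := by
      rw [H366Z.BO.gens, if_neg (by omega), if_neg (by omega), if_neg (by omega),
        if_neg (by omega)]
    simp [H366Z.BO.pi, this]
  · obtain ⟨φ⟩ := iso x
    obtain ⟨o, ho⟩ := k1 (S x)
    refine ⟨LinearOrder.lift' φ φ.injective, fun a b c h => ?_⟩
    have := ho (φ a) (φ b) (φ c) h
    rw [← map_mul, ← map_mul, ← map_mul, ← map_mul] at this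
    exact this
  · obtain ⟨φ⟩ := iso x
    obtain ⟨ψ⟩ := iso y
    rw [hS3, ← k3 _ _ (hS2 x) (hS2 y)]
    exact ⟨fun ⟨χ⟩ => ⟨φ.trans (χ.trans ψ.symm)⟩, fun ⟨χ⟩ => ⟨φ.symm.trans (χ.trans ψ)⟩⟩

end Pool.Agent.S14341
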