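import Pool.Statements.S14473
import Pool.Agent.H259Z.Rich.Bi
import Pool.Agent.H197Z.EndMain

set_option autoImplicit false
open Pool Pool.MP_21db1f_lc

namespace Pool.Agent.S14473

/-- For every n ≥ 2 there is a first-order sentence about multiplication that is true in the free solvable group of class 3 and rank n, and every finitely generated group satisfying it is isomorphic to that group. -/
theorem result :
    ∀ n : ℕ, 2 ≤ n →
      ∃ φ : FirstOrder.Language.Sentence
          (⟨fun k => if k = 2 then Unit else Empty, fun _ => Empty⟩ : FirstOrder.Language.{0, 0}),
        @FirstOrder.Language.Sentence.Realize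
            (⟨fun k => if k = 2 then Unit else Empty, fun _ => Empty⟩ : FirstOrder.Language.{0, 0})
            (FreeGroup (Fin n) ⧸ derivedSeries (FreeGroup (Fin n)) 3)
            { funMap := fun _ xs => (List.ofFn xs).prod, RelMap := fun _ _ => False }
            φ ∧
        ∀ (H : Type) [Group H], Group.FG H →
          @FirstOrder.Language.Sentence.Realize
              (⟨fun k => if k = 2 then Unit else Empty, fun _ => Empty⟩ : FirstOrder.Language.{0, 0})
              H
              { funMap := fun _ xs => (List.ofFn xs).prod, RelMap := fun _ _ => False }
              φ →
            Nonempty (H ≃* (FreeGroup (Fin n) ⧸ derivedSeries (FreeGroup (Fin n)) 3)) := by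
  intro n hn
  exact H197Z.Bi.qfa_of_biInterp (H259Z.Rich.biInterp_fs hn 1)

end Pool.Agent.S14473
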