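import Pool.Statements.S14476
import Pool.Agent.H729Z.Farah.Main

set_option autoImplicit false
open Pool Pool.MP_220cb1_lc

namespace Pool.Agent.S14476

/-- The negation of the preceding statement: Every ideal on ℕ (closed under subsets and unions, containing all finite sets) that is Π⁰₃ in Cantor space equals {S : for all n there is k with S minus {0..k-1} in K_n} for some hereditary compact sets K_n. -/
theorem result :
    ¬ (∀ I : Set (ℕ → Bool),
      (∀ x ∈ I, ∀ y : ℕ → Bool, y ≤ x → y ∈ I) →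
      (∀ x ∈ I, ∀ y ∈ I, x ⊔ y ∈ I) →
      (∀ x : ℕ → Bool, {n : ℕ | x n = true}.Finite → x ∈ I) →
      (∃ C : ℕ → ℕ → Set (ℕ → Bool), (∀ i j, IsClosed (C i j)) ∧ I = ⋂ i, ⋃ j, C i j) →
      ∃ K : ℕ → Set (ℕ → Bool),
        (∀ n, IsCompact (K n)) ∧
        (∀ n, ∀ x ∈ K n, ∀ y : ℕ → Bool, y ≤ x → y ∈ K n) ∧
        I = {x : ℕ → Bool | ∀ n : ℕ, ∃ k : ℕ, (fun m => x m && decide (k ≤ m)) ∈ K n}) := by
  intro h
  exact Pool.Agent.H729Z.Farah.not_farah (h Pool.Agent.H729Z.Farah.II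
    Pool.Agent.H729Z.Farah.II_her Pool.Agent.H729Z.Farah.II_union Pool.Agent.H729Z.Farah.II_fin
    Pool.Agent.H729Z.Farah.II_pi03)

end Pool.Agent.S14476
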