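import Pool.Statements.S14501
import Pool.Agent.H755Z.Tree.Main

set_option autoImplicit false
open Classical
open Pool Pool.MP_2709b3_lc

namespace Pool.Agent.S14501

/-- Almost all labelled oriented trees have no Siggers polymorphism. -/
theorem result :
    Filter.Tendsto (fun n : ℕ =>
      ((Finset.univ.filter (fun E : Fin n → Fin n → Bool =>
          (∀ a b, ¬ (E a b = true ∧ E b a = true)) ∧
          (SimpleGraph.fromRel (fun a b => E a b = true)).IsTree ∧
          ¬ ∃ s : Fin n → Fin n → Fin n → Fin n → Fin n,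
            (∀ a r e, s a r e a = s r a r e) ∧
            ∀ x₁ x₂ x₃ x₄ y₁ y₂ y₃ y₄ : Fin n,
              E x₁ y₁ = true → E x₂ y₂ = true → E x₃ y₃ = true → E x₄ y₄ = true →
              E (s x₁ x₂ x₃ x₄) (s y₁ y₂ y₃ y₄) = true)).card : ℝ) /
      ((Finset.univ.filter (fun E : Fin n → Fin n → Bool =>
          (∀ a b, ¬ (E a b = true ∧ E b a = true)) ∧
          (SimpleGraph.fromRel (fun a b => E a b = true)).IsTree)).card : ℝ))
      Filter.atTop (nhds 1) := by
  have h := Pool.Agent.H755Z.Tree.main
  refine h.congr fun n => ?_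
  congr 2
  · congr 1
    ext E
    simp only [Finset.mem_filter, Finset.mem_univ, true_and, Pool.Agent.H755Z.Tree.OT,
      Pool.Agent.H755Z.Tree.Sig, Pool.Agent.H755Z.Tree.Pol, and_assoc]
  · congr 1
    ext E
    simp only [Finset.mem_filter, Finset.mem_univ, true_and, Pool.Agent.H755Z.Tree.OT]

end Pool.Agent.S14501
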