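import Pool.Statements.S14541
import Pool.Agent.H356Z.Mink.Form

set_option autoImplicit false
open Pool Pool.MP_2ea006_lc

namespace Pool.Agent.S14541

/-- Some formula built from atoms with not, and, strict future and strict past diamonds (irreflexive causal light-cone order) is satisfiable in 3-dimensional Minkowski spacetime but not in 4-dimensional, or vice versa. -/
theorem result :
  ∃ (f : (ℕ → Set (Fin 3 → ℝ)) → Set (Fin 3 → ℝ))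
    (g : (ℕ → Set (Fin 4 → ℝ)) → Set (Fin 4 → ℝ)),
    (∀ S : Set (((ℕ → Set (Fin 3 → ℝ)) → Set (Fin 3 → ℝ)) ×
                ((ℕ → Set (Fin 4 → ℝ)) → Set (Fin 4 → ℝ))),
      (∀ k : ℕ, ((fun v => v k), (fun w => w k)) ∈ S) →
      (∀ p ∈ S, ((fun v => (p.1 v)ᶜ), (fun w => (p.2 w)ᶜ)) ∈ S) →
      (∀ p ∈ S, ∀ q ∈ S,
        ((fun v => p.1 v ∩ q.1 v), (fun w => p.2 w ∩ q.2 w)) ∈ S) →
      (∀ p ∈ S,
        ((fun v => {x : Fin 3 → ℝ | ∃ y ∈ p.1 v, x ≠ y ∧ x 0 ≤ y 0 ∧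
              ∑ i : Fin 2, (y i.succ - x i.succ) ^ 2 ≤ (y 0 - x 0) ^ 2}),
         (fun w => {x : Fin 4 → ℝ | ∃ y ∈ p.2 w, x ≠ y ∧ x 0 ≤ y 0 ∧
              ∑ i : Fin 3, (y i.succ - x i.succ) ^ 2 ≤ (y 0 - x 0) ^ 2})) ∈ S) →
      (∀ p ∈ S,
        ((fun v => {x : Fin 3 → ℝ | ∃ y ∈ p.1 v, y ≠ x ∧ y 0 ≤ x 0 ∧
              ∑ i : Fin 2, (x i.succ - y i.succ) ^ 2 ≤ (x 0 - y 0) ^ 2}),
         (fun w => {x : Fin 4 → ℝ | ∃ y ∈ p.2 w, y ≠ x ∧ y 0 ≤ x 0 ∧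
              ∑ i : Fin 3, (x i.succ - y i.succ) ^ 2 ≤ (x 0 - y 0) ^ 2})) ∈ S) →
      (f, g) ∈ S) ∧
    ¬ ((∃ (v : ℕ → Set (Fin 3 → ℝ)) (x : Fin 3 → ℝ), x ∈ f v) ↔
       (∃ (w : ℕ → Set (Fin 4 → ℝ)) (y : Fin 4 → ℝ), y ∈ g w)) := by
  refine ⟨H356Z.Mink.sem (H356Z.Mink.rel 2) H356Z.Mink.Phi,
    H356Z.Mink.sem (H356Z.Mink.rel 3) H356Z.Mink.Phi, ?_, H356Z.Mink.main⟩
  intro S h1 h2 h3 h4 h5
  generalize H356Z.Mink.Phi = φ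
  induction φ with
  | atom k => exact h1 k
  | neg φ ih => exact h2 _ ih
  | and φ ψ ih1 ih2 => exact h3 _ ih1 _ ih2
  | F φ ih => exact h4 _ ih
  | P φ ih => exact h5 _ ih

end Pool.Agent.S14541
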