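import Pool.Statements.S14613
import Pool.Agent.H968Z.Kerdock.Main

set_option autoImplicit false
open Pool Pool.MP_3ca114_lc

namespace Pool.Agent.S14613

/-- For every even m ≥ 4: every binary linear code of length 2^m with minimum distance 6 has at most 2^(2^m−2m−1) words, and every one with minimum distance 2^(m−1)−2^((m−2)/2) has at most 2^(2m−1) words. -/
theorem result :
    ∀ m : ℕ, Even m → 4 ≤ m →
      (∀ C : Submodule (ZMod 2) (Fin (2 ^ m) → ZMod 2),
          (∀ x ∈ C, ∀ y ∈ C, x ≠ y → 6 ≤ hammingDist x y) →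
          (∃ x ∈ C, ∃ y ∈ C, x ≠ y ∧ hammingDist x y = 6) →
          Nat.card C ≤ 2 ^ (2 ^ m - 2 * m - 1)) ∧
      (∀ C : Submodule (ZMod 2) (Fin (2 ^ m) → ZMod 2),
          (∀ x ∈ C, ∀ y ∈ C, x ≠ y →
              2 ^ (m - 1) - 2 ^ ((m - 2) / 2) ≤ hammingDist x y) →
          (∃ x ∈ C, ∃ y ∈ C, x ≠ y ∧
              hammingDist x y = 2 ^ (m - 1) - 2 ^ ((m - 2) / 2)) →
          Nat.card C ≤ 2 ^ (2 * m - 1)) := by
  intro m hm h4
  obtain ⟨t, ht⟩ := hm
  obtain rfl : m = 2 * t := by omega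
  refine ⟨fun C hd _ => Pool.Agent.H968Z.Kerdock.partA t (by omega) C hd, fun C hd _ => ?_⟩
  by_cases h3 : 3 ≤ t
  · exact Pool.Agent.H968Z.Kerdock.partB t h3 C hd
  · obtain rfl : t = 2 := by omega
    exact Pool.Agent.H968Z.Kerdock.partA 2 le_rfl C hd

end Pool.Agent.S14613
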