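import Pool.Statements.S14625
import Pool.Agent.H478Z.Rot

set_option autoImplicit false
open Pool Pool.MP_4045d2_lc

namespace Pool.Agent.S14625

/-- For every n ≥ 2, the group of orientation-preserving homeomorphisms of the n-sphere (compact-open topology) is the union of a meagre set and a Haar null set, i.e. a set inside a Borel set all of whose two-sided translates are null for one probability measure. -/
theorem result :
  ∀ n : ℕ, 2 ≤ n →
  ∀ S : Set (EuclideanSpace ℝ (Fin (n + 1))), S = Metric.sphere 0 1 →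
  ∀ G : Set C(S, S),
    G = {f : C(S, S) | Function.Bijective (f : S → S) ∧
          ContinuousMap.Homotopic f (ContinuousMap.id (↥S))} →
  ∀ m : MeasurableSpace G, m = borel G →
  ∃ M N : Set G, M ∪ N = Set.univ ∧ IsMeagre M ∧
    ∃ B : Set G, N ⊆ B ∧ MeasurableSet B ∧
    ∃ μ : MeasureTheory.Measure G, MeasureTheory.IsProbabilityMeasure μ ∧
      ∀ g h : G,
        μ {x : G | ∃ b ∈ B,
          (x : C(S, S)) = (g : C(S, S)).comp ((b : C(S, S)).comp (h : C(S, S)))} = 0 := by
  intro n hn S hS G hG m hm
  subst hS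
  have h01 : (⟨0, by omega⟩ : Fin (n + 1)) ≠ ⟨1, by omega⟩ := by simp
  refine Pool.Agent.H478Z.Haar.sphere_decomposition
    (u := EuclideanSpace.single (⟨0, by omega⟩ : Fin (n + 1)) (1 : ℝ))
    (v := EuclideanSpace.single (⟨1, by omega⟩ : Fin (n + 1)) (1 : ℝ)) ?_ ?_ ?_ G hG m hm
  · simp
  · simp
  · rw [EuclideanSpace.inner_single_left]
    simp [h01]

end Pool.Agent.S14625
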