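import Pool.Statements.S14632
import Pool.Agent.H231Z.NS

set_option autoImplicit false
open Pool Pool.MP_40e9ab_lc

namespace Pool.Agent.S14632

open Cardinal Set Pool.Agent.H231Z.NS

/-- The negation of the preceding statement: Any family of subsets of [0,1] that contains all subintervals, is closed under relative complement and countable unions, and contains a selector for every partition of [0,1] into parts of size at least two, contains every subset of [0,1]. -/
theorem result :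
    ¬ (∀ N : Set (Set ℝ),
      (∀ A ∈ N, A ⊆ Set.Icc (0:ℝ) 1) →
      (∀ J : Set ℝ, J.OrdConnected → J ⊆ Set.Icc (0:ℝ) 1 → J ∈ N) →
      (∀ A ∈ N, Set.Icc (0:ℝ) 1 \ A ∈ N) →
      (∀ f : ℕ → Set ℝ, (∀ n, f n ∈ N) → (⋃ n, f n) ∈ N) →
      (∀ P : Set (Set ℝ),
          (∀ p ∈ P, ∃ x ∈ p, ∃ y ∈ p, x ≠ y) →
          P.PairwiseDisjoint id →
          ⋃₀ P = Set.Icc (0:ℝ) 1 →
          ∃ S ∈ N, ∀ p ∈ P, ∃! x, x ∈ S ∧ x ∈ p) →
      ∀ A : Set ℝ, A ⊆ Set.Icc (0:ℝ) 1 → A ∈ N) := by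
  classical
  intro H
  obtain ⟨K, _, _, hne, hC, hI, h0, hle, hlt⟩ := exists_K
  have hA : ∀ (a : K) (g : K → K), ∃ b, ∀ x ≤ a, g x < b := by
    intro a g
    obtain ⟨b, hb⟩ := hC (g '' Iic a) (mk_image_le.trans_lt (hI a))
    exact ⟨b, fun x hx => hb _ ⟨x, hx, rfl⟩⟩
  have hB : ∀ g : ℕ → K, ∃ b, ∀ n, g n < b := by
    intro g
    obtain ⟨b, hb⟩ := hC (range g) ((mk_range_le.trans mk_nat.le).trans_lt h0)
    exact ⟨b, fun n => hb _ ⟨n, rfl⟩⟩
  have hemb : Nonempty (K ↪ Icc (0:ℝ) 1) := by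
    rw [← Cardinal.le_def, mk_Icc_real zero_lt_one]; exact hle
  obtain ⟨e0⟩ := hemb
  let e : K → ℝ := fun α => (e0 α : ℝ)
  have he : Function.Injective e := fun a b h => e0.injective (Subtype.ext h)
  have heI : ∀ α, e α ∈ Icc (0:ℝ) 1 := fun α => (e0 α).2
  let N : Set (Set ℝ) := {A | A ⊆ Icc (0:ℝ) 1 ∧ ∃ B : Set ℝ, MeasurableSet B ∧
    NSt {α | ¬ (e α ∈ A ↔ e α ∈ B)}}
  have hall := H N (fun A hA => hA.1)
    (fun J hJ hJI => ⟨hJI, J, hJ.measurableSet, nst_empty.mono (fun α h => h Iff.rfl)⟩)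
    (by
      rintro A ⟨-, B, hB1, hB2⟩
      refine ⟨diff_subset, Bᶜ, hB1.compl, hB2.mono ?_⟩
      intro α h1 h2
      apply h1
      simp only [mem_diff, mem_compl_iff, heI α, true_and, h2])
    (by
      intro f hf
      choose B hB1 hB2 using fun n => (hf n).2
      refine ⟨iUnion_subset fun n => (hf n).1, ⋃ n, B n, MeasurableSet.iUnion hB1,
        (nst_iUnion hB hB2).mono ?_⟩
      intro α h1
      by_contra h2
      apply h1
      simp only [mem_iUnion, mem_setOf_eq, not_exists, not_not] at h2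
      simp only [mem_iUnion, h2])
    (by
      intro P hP2 hPd hPU
      -- choose a non-minimal point in each part
      have hch : ∀ p ∈ P, ∃ x ∈ p, ∀ α, e α = x → ∃ β, β < α ∧ e β ∈ p := by
        intro p hp
        by_cases hq : {β | e β ∈ p}.Nonempty
        · let m := wellFounded_lt.min _ hq
          have hm : e m ∈ p := wellFounded_lt.min_mem _ hq
          have hm2 : ∀ β, e β ∈ p → m ≤ β := fun β hβ =>
            not_lt.1 (wellFounded_lt.not_lt_min {β | e β ∈ p} hβ)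
          obtain ⟨x, hx, y, hy, hxy⟩ := hP2 p hp
          have : ∃ z ∈ p, z ≠ e m := by
            by_cases h : x = e m
            · exact ⟨y, hy, fun h' => hxy (h.trans h'.symm)⟩
            · exact ⟨x, hx, h⟩
          obtain ⟨z, hz, hzm⟩ := this
          refine ⟨z, hz, fun α hα => ⟨m, ?_, hm⟩⟩
          refine lt_of_le_of_ne (hm2 α (hα ▸ hz)) ?_
          rintro rfl
          exact hzm hα.symm
        · obtain ⟨x, hx, -⟩ := hP2 p hp
          exact ⟨x, hx, fun α hα => absurd ⟨α, by show e α ∈ p; rw [hα]; exact hx⟩ hq⟩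
      choose! s hs1 hs2 using hch
      have huniq : ∀ p ∈ P, ∀ q ∈ P, ∀ x, x ∈ p → x ∈ q → p = q := by
        intro p hp q hq x h1 h2
        by_contra hne
        exact Set.disjoint_left.1 (hPd hp hq hne) h1 h2
      refine ⟨s '' P, ⟨?_, ∅, MeasurableSet.empty, ?_⟩, ?_⟩
      · rintro _ ⟨p, hp, rfl⟩
        rw [← hPU]
        exact ⟨p, hp, hs1 p hp⟩
      · have : ∀ α : K, ∃ β, e α ∈ s '' P → β < α ∧ ∃ p ∈ P, s p = e α ∧ e β ∈ p := by
          intro α
          by_cases h : e α ∈ s '' P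
          · obtain ⟨p, hp, hpe⟩ := h
            obtain ⟨β, hβ1, hβ2⟩ := hs2 p hp α hpe.symm
            exact ⟨β, fun _ => ⟨hβ1, p, hp, hpe, hβ2⟩⟩
          · exact ⟨α, fun h' => absurd h' h⟩
        choose g hg using this
        refine (nst_of_inj hA (T := {α | e α ∈ s '' P}) (g := g) (fun α hα => (hg α hα).1) ?_).mono ?_
        · intro α hα α' hα' hgg
          obtain ⟨-, p, hp, h1, h2⟩ := hg α hα
          obtain ⟨-, q, hq, h3, h4⟩ := hg α' hα'
          rw [hgg] at h2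
          have := huniq p hp q hq _ h2 h4
          subst this
          exact he (h1.symm.trans h3)
        · intro α h
          by_contra h2
          apply h
          exact ⟨fun h3 => absurd h3 h2, fun h3 => absurd h3 (notMem_empty _)⟩
      · intro p hp
        refine ⟨s p, ⟨⟨p, hp, rfl⟩, hs1 p hp⟩, ?_⟩
        rintro _ ⟨⟨q, hq, rfl⟩, h2⟩
        rw [huniq q hq p hp _ (hs1 q hq) h2])
  obtain ⟨g, hg⟩ := exists_split hA hB
  let Γ : Set K := {γ | ¬ NSt (g ⁻¹' {γ})}
  have hΓ : #K ≤ #Γ := by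
    by_contra hc
    push Not at hc
    obtain ⟨b, hb⟩ := hC Γ hc
    obtain ⟨γ, h1, h2⟩ := hg b
    exact absurd (hb γ h2) (not_lt.2 h1)
  have hN : ∀ D : Set Γ, ∃ B : Set ℝ, MeasurableSet B ∧
      NSt {α | ¬ (e α ∈ e '' (g ⁻¹' (Subtype.val '' D)) ↔ e α ∈ B)} := by
    intro D
    refine (hall _ ?_).2
    rintro _ ⟨α, -, rfl⟩
    exact heI α
  choose B hB1 hB2 using hN
  have hsub : ∀ D D' : Set Γ, B D = B D' → D ⊆ D' := by
    intro D D' h γ hγ
    by_contra hγ'
    apply γ.2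
    refine (nst_union hB (hB2 D) (hB2 D')).mono ?_
    intro α hα
    have hα' : g α = γ := hα
    by_contra hc
    simp only [mem_union, mem_setOf_eq, not_or, not_not] at hc
    obtain ⟨h1, h2⟩ := hc
    rw [h] at h1
    have h3 : e α ∈ e '' (g ⁻¹' (Subtype.val '' D)) := ⟨α, ⟨γ, hγ, hα'.symm⟩, rfl⟩
    obtain ⟨α', ⟨γ', h4, h5⟩, h6⟩ := h2.2 (h1.1 h3)
    have := he h6
    subst this
    have : γ' = γ := Subtype.ext (h5.trans hα')
    exact hγ' (this ▸ h4)
  have hinj : Function.Injective (fun D : Set Γ => (⟨B D, hB1 D⟩ : {t : Set ℝ | MeasurableSet t})) := by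
    intro D D' h
    have h' : B D = B D' := congrArg Subtype.val h
    exact Subset.antisymm (hsub D D' h') (hsub D' D h'.symm)
  have h1 := mk_le_of_injective hinj
  rw [mk_set] at h1
  have h2 : (2 : Cardinal) ^ #K ≤ 2 ^ #Γ := power_le_power_left two_ne_zero hΓ
  exact absurd (hlt.trans_le (h2.trans (h1.trans borel_card))) (lt_irrefl _)

end Pool.Agent.S14632
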