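import Pool.Statements.S14678
import Pool.Agent.H620Z.Ent.Main

set_option autoImplicit false
open Pool Pool.MP_4da6ae_lc

namespace Pool.Agent.S14678

/-- The negation of the preceding statement: For every k ≥ 4, the set of coefficient vectors c with ∑_S c_S·H(X_S) ≥ 0 for all k-tuples of finite random variables is a finite union of sets {f = 0, g_1 > 0, …, g_m > 0} with real polynomials f, g_i. -/
theorem result :
    ¬ (∀ k : ℕ, 4 ≤ k →
      ∃ (n m : ℕ) (f : Fin n → MvPolynomial (Finset (Fin k)) ℝ)
        (g : Fin n → Fin m → MvPolynomial (Finset (Fin k)) ℝ),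
        ∀ c : Finset (Fin k) → ℝ,
          ((∀ (N : ℕ) (p : Fin N → ℝ) (X : Fin k → Fin N → Fin N),
              (∀ ω, 0 ≤ p ω) → ∑ ω, p ω = 1 →
                0 ≤ ∑ S : Finset (Fin k), c S *
                  (-∑ ω, p ω * Real.log
                    (∑ ω', if (∀ i ∈ S, X i ω' = X i ω) then p ω' else 0))) ↔
            ∃ j, MvPolynomial.eval c (f j) = 0 ∧
              ∀ l, 0 < MvPolynomial.eval c (g j l))) := by
  intro h
  exact Pool.Agent.H620Z.Ent.not_semialg (h 4 le_rfl)

end Pool.Agent.S14678
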