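import Pool.Statements.S14744
import Pool.Agent.H43Z.FRD

set_option autoImplicit false
open Pool Pool.MP_5ae901_lc

namespace Pool.Agent.S14744

/-- The negation of the preceding statement: Every formally real field that has a computable presentation on ℕ also has some computable presentation on ℕ in which some field ordering (given by its positive cone) is computable. -/
theorem result :
    ¬ (∀ (F : Type) [Field F],
      (∀ (n : ℕ) (c : Fin n → F), ∑ i, c i ^ 2 = 0 → ∀ i, c i = 0) →
      (∃ e : ℕ ≃ F,
        Computable₂ (fun a b : ℕ => e.symm (e a + e b)) ∧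
        Computable₂ (fun a b : ℕ => e.symm (e a * e b)) ∧
        Computable (fun a : ℕ => e.symm (-(e a))) ∧
        Computable (fun a : ℕ => e.symm ((e a)⁻¹))) →
      ∃ e : ℕ ≃ F,
        Computable₂ (fun a b : ℕ => e.symm (e a + e b)) ∧
        Computable₂ (fun a b : ℕ => e.symm (e a * e b)) ∧
        Computable (fun a : ℕ => e.symm (-(e a))) ∧
        Computable (fun a : ℕ => e.symm ((e a)⁻¹)) ∧
        ∃ P : Set F,
          ComputablePred (fun a : ℕ => e a ∈ P) ∧
          (0 : F) ∉ P ∧
          (∀ x y : F, x ∈ P → y ∈ P → x + y ∈ P) ∧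
          (∀ x y : F, x ∈ P → y ∈ P → x * y ∈ P) ∧
          (∀ x : F, x ≠ 0 → x ∈ P ∨ -x ∈ P)) := by
  intro h
  obtain ⟨e, hA, hM, -, -, P, hP, h0, hadd, hmul, htot⟩ :=
    h H43Z.FR.F H43Z.FR.real_F H43Z.FR.copy_F
  obtain ⟨Pb, hPb, hPe⟩ := ComputablePred.computable_iff.1 hP
  refine H43Z.FR.no_order e.symm e.symm.injective (fun _ => true) (Computable.const _)
    (fun n => ⟨fun _ => ⟨e n, e.symm_apply_apply n⟩, fun _ => rfl⟩) _ _ hA hM
    (fun x y => by simp) (fun x y => by simp) P Pb hPb (fun x => ?_) h0 hadd hmul htot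
  have := congrFun hPe (e.symm x)
  simp only [Equiv.apply_symm_apply, eq_iff_iff] at this
  exact this.symm

end Pool.Agent.S14744
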