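import Pool.Statements.S14763
import Pool.Agent.H382Z.EDT.Final

set_option autoImplicit false
open Pool Pool.MP_5ec15a_lc

namespace Pool.Agent.S14763

/-- If a group has a finite generating set X such that the words over X and its inverses that equal 1 form a language generated by some deterministic ET0L system, then the group is finite. -/
theorem result :
  ∀ (G : Type) [Group G] (X : Finset G),
    Subgroup.closure (X : Set G) = ⊤ →
    (∃ (A : Type) (_ : Fintype A) (J : Type) (_ : Fintype J)
        (ι : G → A) (ω : List A) (σ : J → A → List A),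
      Set.InjOn ι {x : G | x ∈ X ∨ x⁻¹ ∈ X} ∧
      ∀ w : List G, (∀ x ∈ w, x ∈ X ∨ x⁻¹ ∈ X) →
        (w.prod = 1 ↔
          ∃ js : List J, js.foldl (fun u j => u.flatMap (σ j)) ω = w.map ι)) →
    Finite G := by
  intro G _ X hX ⟨A, _, J, _, ι, ω, σ, hι, hw⟩
  classical
  by_contra hfin
  have : Infinite G := not_finite_iff_infinite.1 hfin
  let S : Finset G := X ∪ X.image (fun a => a⁻¹)
  have hS : ∀ a, a ∈ S ↔ a ∈ X ∨ a⁻¹ ∈ X := by
    intro a
    simp only [S, Finset.mem_union, Finset.mem_image]
    refine or_congr Iff.rfl ⟨?_, fun h => ⟨_, h, inv_inv a⟩⟩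
    rintro ⟨b, hb, rfl⟩
    rwa [inv_inv]
  have hsym : ∀ a ∈ S, a⁻¹ ∈ S := by
    intro a ha
    rw [hS] at ha ⊢
    rw [inv_inv]
    exact ha.symm
  have hG : Subgroup.closure (S : Set G) = ⊤ :=
    top_le_iff.1 (hX ▸ Subgroup.closure_mono (fun a ha => (hS a).2 (Or.inl ha)))
  obtain ⟨x, hx, y, hy, hxy⟩ : ∃ x ∈ S, ∃ y ∈ S, x ≠ y := by
    by_contra c
    push Not at c
    have hall : ∀ a : G, a = 1 ∨ a ∈ S := by
      intro a
      have ha : a ∈ Subgroup.closure (S : Set G) := by rw [hG]; trivial
      induction ha using Subgroup.closure_induction with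
      | mem s hs => exact Or.inr hs
      | one => exact Or.inl rfl
      | mul a b _ _ ha hb =>
        rcases ha with rfl | ha
        · rwa [one_mul]
        · rcases hb with rfl | hb
          · rw [mul_one]; exact Or.inr ha
          · left; rw [c b hb _ (hsym a ha), mul_inv_cancel]
      | inv a _ ha =>
        rcases ha with rfl | ha
        · exact Or.inl inv_one
        · exact Or.inr (hsym a ha)
    exact Set.infinite_univ (α := G) ((insert 1 S).finite_toSet.subset fun a _ => by
      simpa using hall a)
  let e := Fintype.equivFin A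
  have hk : 0 < Fintype.card A := Fintype.card_pos_iff.2 ⟨ι 1⟩
  have fold : ∀ (js : List J) (u : List A),
      js.foldl (fun u j => u.flatMap (fun a => (σ j (e.symm a)).map e)) (u.map e) =
        (js.foldl (fun u j => u.flatMap (σ j)) u).map e := by
    intro js
    induction js with
    | nil => intro u; rfl
    | cons j js ih =>
      intro u
      simp only [List.foldl_cons]
      rw [← ih, List.map_flatMap, List.flatMap_map]
      simp
  obtain ⟨C, 𝒰, hsys⟩ := H382Z.EDT.system (S := S) hk (fun g => e (ι g)) (ω.map e)
    (fun j a => (σ j (e.symm a)).map e)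
    (fun a ha b hb h => hι ((hS a).1 ha) ((hS b).1 hb) (e.injective h)) (by
      intro w h
      rw [hw w (fun a ha => (hS a).1 (h a ha))]
      refine exists_congr fun js => ?_
      rw [fold, show w.map (fun g => e (ι g)) = (w.map ι).map e by simp]
      exact (List.map_injective_iff.2 e.injective).eq_iff.symm)
  exact H382Z.EDT.no_sys ⟨hsym, hx, hy, hxy⟩ hG hsys

end Pool.Agent.S14763
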