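import Pool.Statements.S14778
import Pool.Agent.H864Z.Disk.Real
import Pool.Agent.H864Z.Disk.Strat

set_option autoImplicit false
open Pool Pool.MP_5fb53e_lc

namespace Pool.Agent.S14778

open Pool.Agent.H864Z.Disk

/-- The negation of the preceding statement: There is a fixed k such that every disk graph is identified up to isomorphism by k-variable counting logic: any finite graph on which Duplicator wins the bijective k-pebble game against it is isomorphic to it. -/
theorem result :
    ¬ (∃ k : ℕ, ∀ (n : ℕ) (G : SimpleGraph (Fin n)),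
      (∃ c : Fin n → EuclideanSpace ℝ (Fin 2), ∃ r : Fin n → ℝ,
          (∀ i, 0 < r i) ∧
          ∀ i j, i ≠ j → (G.Adj i j ↔ dist (c i) (c j) ≤ r i + r j)) →
      ∀ (m : ℕ) (H : SimpleGraph (Fin m)),
        (∃ P : Set ((Fin k → Fin n) × (Fin k → Fin m)),
          (∀ p ∈ P, ∀ i j : Fin k,
              (p.1 i = p.1 j ↔ p.2 i = p.2 j) ∧
              (G.Adj (p.1 i) (p.1 j) ↔ H.Adj (p.2 i) (p.2 j))) ∧
          (∀ p ∈ P, ∀ i : Fin k, ∃ f : Fin n ≃ Fin m, ∀ v : Fin n,
              (Function.update p.1 i v, Function.update p.2 i (f v)) ∈ P) ∧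
          (∃ f : Fin n ≃ Fin m, ∀ v : Fin n,
              ((fun _ : Fin k => v), (fun _ : Fin k => f v)) ∈ P)) →
        Nonempty (G ≃g H)) := by
  rintro ⟨k, hk⟩
  obtain ⟨n, ⟨e'⟩⟩ := Finite.exists_equiv_fin (Cl (Nd k) (Om k) × A2)
  obtain ⟨N, ⟨ι⟩⟩ := Finite.exists_equiv_fin (Nd k)
  let e := e'.symm
  let η : Nd k → ℕ := fun u => (ι u).val
  have hη : Function.Injective η := fun u v h => ι.injective (Fin.ext h)
  let L := gLin η (psi (k := k))
  obtain ⟨ctr, r, hr, hd⟩ := gadget_disk η hη (psi (k := k))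
  have hiso := hk n ((L.graph (Tw.zero _)).comap e)
    ⟨ctr ∘ e, r ∘ e, fun i => hr _, fun i j hij => hd _ _ (e.injective.ne hij)⟩ n
    ((L.graph (gTw bb)).comap e)
    (game_transport e _ _ (L.game (gTw bb) k Good (good_sat η) good_step good_start))
  obtain ⟨φ⟩ := hiso
  refine L.not_iso (gTw bb) ?_
    ⟨((SimpleGraph.Iso.comap e _).symm.trans φ).trans (SimpleGraph.Iso.comap e _)⟩
  rintro ⟨s, hs⟩
  exact unsat _ (eqn_of_sat η psi bb s hs)

end Pool.Agent.S14778
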