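import Pool.Statements.S14803
import Pool.Agent.H50Z.Hyp.Main

set_option autoImplicit false
open Pool Pool.MP_64713a_lc

namespace Pool.Agent.S14803

/-- If X is not hyperarithmetic (X and its complement not both Π¹₁) and A ⊆ ℕ has positive lower density, then some infinite B ⊆ A has X not hyperarithmetic in B (X and its complement not both Π¹₁ relative to B). -/
theorem result :
    ∀ P : Set ℕ → Set ℕ → Prop,
      (∀ Y B : Set ℕ, P Y B ↔
        ∃ R : ℕ → List ℕ → List ℕ → Prop,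
          ComputablePred (fun p : ℕ × List ℕ × List ℕ => R p.1 p.2.1 p.2.2) ∧
          ∀ n : ℕ, n ∈ Y ↔ ∀ f : ℕ → ℕ, ∃ m : ℕ,
            R n ((List.range m).map (B.indicator (fun _ => (1 : ℕ))))
              ((List.range m).map f)) →
      ∀ X A : Set ℕ,
        ¬ (P X ∅ ∧ P Xᶜ ∅) →
        (∃ δ : ℝ, 0 < δ ∧ ∀ᶠ n : ℕ in Filter.atTop,
            δ * (n : ℝ) ≤ ((A ∩ Set.Iio n).ncard : ℝ)) →
        ∃ B : Set ℕ, B ⊆ A ∧ B.Infinite ∧ ¬ (P X B ∧ P Xᶜ B) := by
  intro P hP X A hX hA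
  classical
  obtain ⟨δ, hδ, hA⟩ := hA
  obtain ⟨N0, hN⟩ := Filter.eventually_atTop.1 hA
  obtain ⟨d, hd⟩ := exists_nat_ge (1 / δ)
  rw [div_le_iff₀ hδ] at hd
  have e : ∀ Y B, P Y B ↔ H50Z.Hyp.Pi11 Y B := hP
  simp only [e] at hX ⊢
  refine H50Z.Hyp.main hX (d := d) (N0 := N0) fun N h => ?_
  have h1 := hN N h
  have h2 : (A ∩ Set.Iio N).ncard = Nat.count (fun i => i ∈ A) N := by
    rw [Nat.count_eq_card_filter_range, ← Set.ncard_coe_finset]
    congr 1
    ext i
    simp [and_comm]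
  rw [h2] at h1
  have h3 : (N : ℝ) ≤ d * Nat.count (fun i => i ∈ A) N :=
    calc (N : ℝ) = 1 * N := (one_mul _).symm
      _ ≤ d * δ * N := by gcongr
      _ = d * (δ * N) := by ring
      _ ≤ _ := by gcongr
  have h4 : N ≤ d * Nat.count (fun i => i ∈ A) N := by exact_mod_cast h3
  convert h4

end Pool.Agent.S14803
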