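import Pool.Statements.S14805
import Pool.Agent.H625Z.PP.Chain

set_option autoImplicit false
open Pool Pool.MP_64a558_lc

namespace Pool.Agent.S14805

/-- There is an infinite sequence of finite nonempty digraphs in which each one pp-constructs the next (is homomorphically equivalent to a pp-power of it) but the next does not pp-construct it, i.e. a strictly ascending chain in the pp-constructability poset. -/
theorem result :
  ∃ (C : (kB : ℕ) → Digraph (Fin kB) → (kA : ℕ) → Digraph (Fin kA) → Prop),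
    (∀ (kB : ℕ) (B : Digraph (Fin kB)) (kA : ℕ) (A : Digraph (Fin kA)),
      C kB B kA A ↔
        ∃ (n m : ℕ)
          (Es Qs : Set (((Fin 2 × Fin n) ⊕ Fin m) × ((Fin 2 × Fin n) ⊕ Fin m)))
          (E : (Fin n → Fin kB) → (Fin n → Fin kB) → Prop),
          0 < n ∧
          (∀ x y : Fin n → Fin kB, E x y ↔ ∃ s : Fin m → Fin kB,
              (∀ p ∈ Es,
                B.Adj (Sum.elim (fun q : Fin 2 × Fin n => (![x, y] q.1) q.2) s p.1)
                      (Sum.elim (fun q : Fin 2 × Fin n => (![x, y] q.1) q.2) s p.2)) ∧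
              (∀ p ∈ Qs,
                Sum.elim (fun q : Fin 2 × Fin n => (![x, y] q.1) q.2) s p.1 =
                  Sum.elim (fun q : Fin 2 × Fin n => (![x, y] q.1) q.2) s p.2)) ∧
          (∃ f : Fin kA → (Fin n → Fin kB), ∀ a b : Fin kA, A.Adj a b → E (f a) (f b)) ∧
          (∃ g : (Fin n → Fin kB) → Fin kA,
              ∀ x y : Fin n → Fin kB, E x y → A.Adj (g x) (g y))) ∧
    ∃ (k : ℕ → ℕ) (G : (i : ℕ) → Digraph (Fin (k i))),
      (∀ i, 0 < k i) ∧
      ∀ i, C (k i) (G i) (k (i + 1)) (G (i + 1)) ∧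
           ¬ C (k (i + 1)) (G (i + 1)) (k i) (G i) := by
  exact ⟨Pool.Agent.H625Z.PP.PPC, fun _ _ _ _ => Iff.rfl, _, Pool.Agent.H625Z.PP.GG,
    fun _ => Fintype.card_pos,
    fun i => ⟨Pool.Agent.H625Z.PP.GG_up i, Pool.Agent.H625Z.PP.GG_down i⟩⟩

end Pool.Agent.S14805
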