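import Pool.Statements.S14808
import Pool.Agent.H490Z.GC.Main

set_option autoImplicit false
open Pool Pool.MP_64ff70_lc

namespace Pool.Agent.S14808

/-- The negation of the preceding statement: There is a point of the Hilbert cube whose set of coded rational lower and upper cuts is not enumeration-equivalent to the complement of the graph of any total function ℕ→ℕ, i.e. some continuous e-degree is not graph-cototal. -/
theorem result :
    ¬ (∃ x : ℕ → ℝ, (∀ n, x n ∈ Set.Icc (0:ℝ) 1) ∧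
      ∀ f : ℕ → ℕ, ∀ R : Set ℕ → Set ℕ → Prop,
        (∀ A B : Set ℕ, R A B ↔
          ∃ W : ℕ × ℕ → Prop, REPred W ∧
            ∀ y : ℕ, y ∈ A ↔ ∃ u : ℕ, W (y, u) ∧ ∀ i : ℕ, u.testBit i = true → i ∈ B) →
        ¬ (R {k : ℕ | ∃ n a b c : ℕ,
                (k = 2 * Nat.pair n (Nat.pair (Nat.pair a b) c) ∧
                  ((a:ℝ) - (b:ℝ)) / ((c:ℝ) + 1) < x n) ∨
                (k = 2 * Nat.pair n (Nat.pair (Nat.pair a b) c) + 1 ∧
                  x n < ((a:ℝ) - (b:ℝ)) / ((c:ℝ) + 1))}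
             {k : ℕ | f (Nat.unpair k).1 ≠ (Nat.unpair k).2} ∧
           R {k : ℕ | f (Nat.unpair k).1 ≠ (Nat.unpair k).2}
             {k : ℕ | ∃ n a b c : ℕ,
                (k = 2 * Nat.pair n (Nat.pair (Nat.pair a b) c) ∧
                  ((a:ℝ) - (b:ℝ)) / ((c:ℝ) + 1) < x n) ∨
                (k = 2 * Nat.pair n (Nat.pair (Nat.pair a b) c) + 1 ∧
                  x n < ((a:ℝ) - (b:ℝ)) / ((c:ℝ) + 1))})) := by
  rintro ⟨x, -, h⟩
  obtain ⟨f, h1, h2⟩ := Pool.Agent.H490Z.GC.both (fun l => (Pool.Agent.H490Z.GC.mem_cut x l).1)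
    (fun l => (Pool.Agent.H490Z.GC.mem_cut x l).2) (Pool.Agent.H490Z.GC.mu_atm x)
  exact h f _ (fun _ _ => Iff.rfl) ⟨h1, h2⟩

end Pool.Agent.S14808
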