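import Pool.Statements.S14809
import Pool.Agent.H546Z.AmMain

set_option autoImplicit false
open Pool Pool.MP_650f93_lc

namespace Pool.Agent.S14809

/-- For any choice of the iterated Fréchet filters Fr_α and any countable α ≥ 1, if an increasing sequence of countable Borel equivalence relations on a standard Borel space are all Fr_α-amenable, then their union is Fr_α-amenable. -/
theorem result :
  ∀ Fr : Ordinal.{0} → Filter ℕ,
    Fr 1 = Filter.cofinite →
    (∀ β : Ordinal.{0}, 1 ≤ β → β.card ≤ Cardinal.aleph0 →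
      ∀ A : Set ℕ, A ∈ Fr (β + 1) ↔
        {m : ℕ | {n : ℕ | Nat.pair m n ∈ A} ∈ Fr β} ∈ Filter.cofinite) →
    (∀ l : Ordinal.{0}, Order.IsSuccLimit l → l.card ≤ Cardinal.aleph0 →
      ∃ s : ℕ → Ordinal.{0}, StrictMono s ∧ (∀ k, 1 ≤ s k) ∧ (⨆ k, s k) = l ∧
        ∀ A : Set ℕ, A ∈ Fr l ↔
          {m : ℕ | {n : ℕ | Nat.pair m n ∈ A} ∈ Fr (s m)} ∈ Filter.cofinite) →
    ∀ α : Ordinal.{0}, 1 ≤ α → α.card ≤ Cardinal.aleph0 →
    ∀ (X : Type) [MeasurableSpace X] [StandardBorelSpace X] (E : ℕ → X → X → Prop),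
      (∀ i, Equivalence (E i)) →
      (∀ i, MeasurableSet {p : X × X | E i p.1 p.2}) →
      (∀ i x, Set.Countable {y : X | E i x y}) →
      (∀ i x y, E i x y → E (i + 1) x y) →
      (∀ i, ∃ f : ℕ → X × X → ℝ, (∀ n, Measurable (f n)) ∧ (∀ n p, 0 ≤ f n p) ∧
        (∀ n x, HasSum (fun y : {y : X // E i x y} => f n (x, y.1)) 1) ∧
        (∀ x y, E i x y → Filter.Tendsto
          (fun n => ∑' z : {z : X // E i x z}, |f n (x, z.1) - f n (y, z.1)|)
          (Fr α) (nhds 0))) →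
      ∃ f : ℕ → X × X → ℝ, (∀ n, Measurable (f n)) ∧ (∀ n p, 0 ≤ f n p) ∧
        (∀ n x, HasSum (fun y : {y : X // ∃ i, E i x y} => f n (x, y.1)) 1) ∧
        (∀ x y, (∃ i, E i x y) → Filter.Tendsto
          (fun n => ∑' z : {z : X // ∃ i, E i x z}, |f n (x, z.1) - f n (y, z.1)|)
          (Fr α) (nhds 0)) := by
  intro Fr h1 h2 h3 α hα hc X _ _ E hE1 hE2 hE3 hmono hAm
  have hFr : Pool.Agent.H546Z.AmDefs.IsFrechetSystem Nat.pairEquiv Fr := ⟨h1, h2, h3⟩
  have hle : ∀ i j x y, i ≤ j → E i x y → E j x y := by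
    intro i j x y hij h
    induction j, hij using Nat.le_induction with
    | base => exact h
    | succ m _ ih => exact hmono m x y ih
  have hU : Pool.Agent.H546Z.AmDefs.IsCBER (fun x y => ∃ i, E i x y) := by
    refine ⟨⟨fun x => ⟨0, (hE1 0).refl x⟩, ?_, ?_⟩, ?_, ?_⟩
    · rintro x y ⟨i, h⟩
      exact ⟨i, (hE1 i).symm h⟩
    · rintro x y z ⟨i, h⟩ ⟨j, h'⟩
      exact ⟨max i j, (hE1 _).trans (hle _ _ _ _ (le_max_left _ _) h)
        (hle _ _ _ _ (le_max_right _ _) h')⟩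
    · rw [Set.setOf_exists]
      exact MeasurableSet.iUnion hE2
    · intro x
      rw [Set.setOf_exists]
      exact Set.countable_iUnion fun i => hE3 i x
  have hi : ∀ i, Pool.Agent.H546Z.AmDefs.IsCBER (E i) := fun i => ⟨hE1 i, hE2 i, hE3 i⟩
  rw [← Pool.Agent.H546Z.Am.amen_iff' hU, Pool.Agent.H546Z.Am.collapse hU hFr hα hc]
  refine Pool.Agent.H546Z.Am.Amen.union hU hmono fun i => ?_
  rw [← Pool.Agent.H546Z.Am.collapse (hi i) hFr hα hc, Pool.Agent.H546Z.Am.amen_iff' (hi i)]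
  exact hAm i

end Pool.Agent.S14809
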