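import Pool.Statements.S14935
import Pool.Agent.H729Z.ResP.Main

set_option autoImplicit false
open Pool Pool.MP_7a8588_lc

namespace Pool.Agent.S14935

/-- For some n there is an isomorphism-invariant group property P, Borel in the space of n-generated marked groups, such that the just-non-P marked groups or the residually P marked groups form a non-Borel set. -/
theorem result :
    ∃ n : ℕ, ∃ S : Set (Subgroup (FreeGroup (Fin n))),
      (∀ (N M : Subgroup (FreeGroup (Fin n))) [N.Normal] [M.Normal],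
          Nonempty ((FreeGroup (Fin n) ⧸ N) ≃* (FreeGroup (Fin n) ⧸ M)) → (N ∈ S ↔ M ∈ S)) ∧
      @MeasurableSet (FreeGroup (Fin n) → Bool) (borel (FreeGroup (Fin n) → Bool))
        {f : FreeGroup (Fin n) → Bool | ∃ N : Subgroup (FreeGroup (Fin n)),
          N.Normal ∧ N ∈ S ∧ ∀ g, f g = true ↔ g ∈ N} ∧
      (¬ @MeasurableSet (FreeGroup (Fin n) → Bool) (borel (FreeGroup (Fin n) → Bool))
          {f : FreeGroup (Fin n) → Bool | ∃ N : Subgroup (FreeGroup (Fin n)),
            N.Normal ∧ N ∉ S ∧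
            (∀ M : Subgroup (FreeGroup (Fin n)), M.Normal → N < M → M ∈ S) ∧
            ∀ g, f g = true ↔ g ∈ N} ∨
       ¬ @MeasurableSet (FreeGroup (Fin n) → Bool) (borel (FreeGroup (Fin n) → Bool))
          {f : FreeGroup (Fin n) → Bool | ∃ N : Subgroup (FreeGroup (Fin n)),
            N.Normal ∧
            (∀ g : FreeGroup (Fin n), g ∉ N →
              ∃ M : Subgroup (FreeGroup (Fin n)), M.Normal ∧ N ≤ M ∧ g ∉ M ∧ M ∈ S) ∧
            ∀ g, f g = true ↔ g ∈ N}) := by
  refine ⟨2, Pool.Agent.H729Z.ResP.S, fun N M _ _ h => Pool.Agent.H729Z.ResP.S_inv N M h, ?_, Or.inr ?_⟩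
  · rw [← BorelSpace.measurable_eq (α := FreeGroup (Fin 2) → Bool)]
    exact Pool.Agent.H729Z.ResP.S_meas
  · rw [← BorelSpace.measurable_eq (α := FreeGroup (Fin 2) → Bool)]
    exact Pool.Agent.H729Z.ResP.res_not_meas

end Pool.Agent.S14935
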