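import Pool.Statements.S14980
import Pool.Agent.H679Z.Schreier

set_option autoImplicit false
open Pool Pool.MP_833c5c_lc

namespace Pool.Agent.S14980

/-- The negation of the preceding statement: Every finite coloring c of the naturals computes a 2-coloring d of exactly ω-large finite sets such that every infinite d-homogeneous set computes an infinite set of positive integers whose nonempty finite sums are all c-monochromatic. -/
theorem result :
    ¬ (∀ c : ℕ → ℕ, (∃ k : ℕ, ∀ n, c n < k) →
    ∃ d : ℕ → Bool,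
      TuringReducible (PFun.lift (fun n => (d n).toNat)) (PFun.lift c) ∧
      ∀ h : ℕ → Bool,
        (Set.Infinite {n : ℕ | h n = true} ∧
          ∃ b : Bool, ∀ s : Finset ℕ, (∀ i ∈ s, h i = true) →
            (∃ m ∈ s, (∀ i ∈ s, m ≤ i) ∧ s.card = m + 1) →
            d (∑ i ∈ s, 2 ^ i) = b) →
        ∃ g : ℕ → Bool,
          TuringReducible (PFun.lift (fun n => (g n).toNat))
            (PFun.lift (fun n => (h n).toNat)) ∧
          Set.Infinite {n : ℕ | g n = true} ∧
          (∀ i, g i = true → 0 < i) ∧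
          ∃ b : ℕ, ∀ s : Finset ℕ, s.Nonempty → (∀ i ∈ s, g i = true) →
            c (∑ i ∈ s, i) = b) := by
  classical
  intro hall
  obtain ⟨X, c, hX, hc⟩ := Pool.Agent.H679Z.no_encoding
  obtain ⟨d, _, hd⟩ := hall (fun n => (c n).toNat) ⟨2, fun n => by cases c n <;> simp⟩
  obtain ⟨Z, hZX, hZ, b, hb⟩ :=
    Pool.Agent.H679Z.schreier_ramsey hX fun s => d (∑ i ∈ s, 2 ^ i)
  obtain ⟨g, hg1, hg2, hg3, b', hg4⟩ := hd (fun n => decide (n ∈ Z))
    ⟨by simpa using hZ, b, fun s hs hl => hb s (fun i hi => by simpa using hs i hi) hl⟩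
  refine hc Z hZX hZ g hg1 hg2 hg3 (decide (b' = 1)) fun s hs1 hs2 => ?_
  have := hg4 s hs1 hs2
  rw [← this]
  cases c (∑ i ∈ s, i) <;> simp

end Pool.Agent.S14980
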