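import Pool.Statements.S14985
import Pool.Agent.H780Z.SD.Final

set_option autoImplicit false
open MeasureTheory ProbabilityTheory
open Pool Pool.MP_84734f_lc

namespace Pool.Agent.S14985

/-- Some σ₀>0, C, k exist so that for all m, n, σ in (0,σ₀] and data, the expected number of bases optimal for LP(t) at some t≥0 (the self-dual parametric path), under entrywise Gaussian noise of size σ times the Frobenius norm, is at most C(m+n+1/σ)^k. -/
theorem result :
    ∃ σ₀ : ℝ, 0 < σ₀ ∧ ∃ C : ℝ, ∃ k : ℕ, ∀ m n : ℕ, ∀ σ : ℝ, 0 < σ → σ ≤ σ₀ →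
      ∀ (A₀ : Matrix (Fin m) (Fin n) ℝ) (b₀ : Fin m → ℝ) (c₀ : Fin n → ℝ),
        MeasureTheory.lintegral
          (Measure.pi (fun _ : (Fin m × Fin n) ⊕ (Fin m ⊕ Fin n) => gaussianReal 0 1))
          (fun ω : ((Fin m × Fin n) ⊕ (Fin m ⊕ Fin n)) → ℝ =>
            (fun (A : Matrix (Fin m) (Fin n) ℝ) (b : Fin m → ℝ) (c : Fin n → ℝ) =>
              ((Set.ncard {B : Finset (Fin n ⊕ Fin m) | B.card = m ∧
                  LinearIndependent ℝ
                    (fun q : B => (Matrix.transpose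
                      (Matrix.fromCols A (1 : Matrix (Fin m) (Fin m) ℝ))) q.1) ∧
                  ∃ t : ℝ, 0 ≤ t ∧
                    (∃ x : Fin n → ℝ, ∃ w : Fin m → ℝ,
                      (∀ j : Fin n, 0 ≤ x j) ∧ (∀ i : Fin m, 0 ≤ w i) ∧
                      (∀ i : Fin m, (∑ j : Fin n, A i j * x j) + w i = b i + t) ∧
                      (∀ j : Fin n, (Sum.inl j : Fin n ⊕ Fin m) ∉ B → x j = 0) ∧
                      (∀ i : Fin m, (Sum.inr i : Fin n ⊕ Fin m) ∉ B → w i = 0)) ∧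
                    (∃ y : Fin m → ℝ,
                      (∀ i : Fin m, 0 ≤ y i) ∧
                      (∀ j : Fin n, c j - t ≤ ∑ i : Fin m, A i j * y i) ∧
                      (∀ j : Fin n, (Sum.inl j : Fin n ⊕ Fin m) ∈ B →
                        ∑ i : Fin m, A i j * y i = c j - t) ∧
                      (∀ i : Fin m, (Sum.inr i : Fin n ⊕ Fin m) ∈ B → y i = 0))} : ℕ)
                : ENNReal))
            (A₀ + (σ * Real.sqrt ((∑ i : Fin m, ∑ j : Fin n, A₀ i j ^ 2)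
                + (∑ i : Fin m, b₀ i ^ 2) + (∑ j : Fin n, c₀ j ^ 2))) •
              Matrix.of (fun (i : Fin m) (j : Fin n) => ω (Sum.inl (i, j))))
            (b₀ + (σ * Real.sqrt ((∑ i : Fin m, ∑ j : Fin n, A₀ i j ^ 2)
                + (∑ i : Fin m, b₀ i ^ 2) + (∑ j : Fin n, c₀ j ^ 2))) •
              (fun i : Fin m => ω (Sum.inr (Sum.inl i))))
            (c₀ + (σ * Real.sqrt ((∑ i : Fin m, ∑ j : Fin n, A₀ i j ^ 2)
                + (∑ i : Fin m, b₀ i ^ 2) + (∑ j : Fin n, c₀ j ^ 2))) •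
              (fun j : Fin n => ω (Sum.inr (Sum.inr j)))))
        ≤ ENNReal.ofReal (C * ((m : ℝ) + n + 1 / σ) ^ k) := by
  exact ⟨1, one_pos, 10 ^ 10, 17, fun m n σ h0 h1 A₀ b₀ c₀ =>
    Pool.Agent.H780Z.SD.main h0 h1 A₀ b₀ c₀ _ rfl⟩

end Pool.Agent.S14985
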