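import Pool.Statements.S14998

set_option autoImplicit false
open Pool Pool.MP_855a95_lc

namespace Pool.Agent.S14998

/-- Fix a point `b`. Put `b` alone in piece `0` and put every other point `x` in the piece
`c x b + 1`. The piece `n + 1` omits the colour `n` because `c` has no monochromatic triangle,
and the piece `0` contains no pair at all. -/
theorem result :
    ¬ (∃ c : {o : Ordinal.{0} // o < (Cardinal.aleph 1).ord} →
        {o : Ordinal.{0} // o < (Cardinal.aleph 1).ord} → ℕ,
      (∀ a b, c a b = c b a) ∧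
      (∀ a b d, a ≠ b → b ≠ d → a ≠ d → ¬ (c a b = c b d ∧ c a b = c a d)) ∧
      ∀ f : {o : Ordinal.{0} // o < (Cardinal.aleph 1).ord} → ℕ,
        ∃ i : ℕ, ∀ n : ℕ, ∃ a b, a ≠ b ∧ f a = i ∧ f b = i ∧ c a b = n) := by
  classical
  rintro ⟨c, -, htri, hall⟩
  have h0 : (0 : Ordinal.{0}) < (Cardinal.aleph 1).ord := by
    rw [Cardinal.lt_ord]
    simpa using Cardinal.aleph_pos 1
  set z : {o : Ordinal.{0} // o < (Cardinal.aleph 1).ord} := ⟨0, h0⟩ with hz
  obtain ⟨i, hi⟩ := hall (fun x => if x = z then 0 else c x z + 1)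
  obtain ⟨a, b, hab, ha, hb, hc⟩ := hi (i - 1)
  by_cases haz : a = z
  · by_cases hbz : b = z
    · exact hab (haz.trans hbz.symm)
    · simp only [haz, hbz, if_true, if_false] at ha hb
      omega
  · by_cases hbz : b = z
    · simp only [haz, hbz, if_true, if_false] at ha hb
      omega
    · simp only [haz, hbz, if_false] at ha hb
      exact htri a b z hab hbz haz ⟨by omega, by omega⟩

end Pool.Agent.S14998
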