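import Pool.Statements.S15001
import Pool.Agent.H236Z.Dich.Main

set_option autoImplicit false
open Pool Pool.MP_856e04_lc

namespace Pool.Agent.S15001

/-- For every infinite cardinal κ and every n, there is a loopless digraph on κ vertices with no directed cycle of length below n, such that every colouring with fewer than κ colours has a monochromatic directed cycle. -/
theorem result : ∀ κ : Cardinal.{0}, Cardinal.aleph0 ≤ κ → ∀ n : ℕ,
    ∃ (V : Type) (D : Digraph V),
      Cardinal.mk V = κ ∧
      (∀ v : V, ¬ D.Adj v v) ∧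
      (∀ k : ℕ, k + 1 < n → ∀ f : Fin (k + 1) → V, Function.Injective f →
        ¬ ∀ i : Fin (k + 1), D.Adj (f i) (f (i + 1))) ∧
      (∀ (C : Type) (c : V → C), Cardinal.mk C < κ →
        ∃ k : ℕ, ∃ f : Fin (k + 1) → V, Function.Injective f ∧
          (∀ i : Fin (k + 1), D.Adj (f i) (f (i + 1))) ∧
          ∀ i j : Fin (k + 1), c (f i) = c (f j)) := by
  exact Pool.Agent.H236Z.Dich.main

end Pool.Agent.S15001
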