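import Pool.Statements.S15089
import Pool.Agent.H259Z.Rich.Prime

set_option autoImplicit false
open Pool Pool.MP_984cf2_lc

namespace Pool.Agent.S15089

/-- For every rank n and derived length d, in the free solvable group F_n/F_n^(d), any two finite tuples satisfying the same first-order formulas of group theory are mapped to each other by some group automorphism. -/
theorem result :
    ∀ (n d m : ℕ)
      (μ₁ μ₂ : Fin m → (FreeGroup (Fin n) ⧸ derivedSeries (FreeGroup (Fin n)) d)),
      (∀ φ : (FirstOrder.Language.mk (fun _ => Bool) (fun _ => Empty)).Formula (Fin m),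
        (@FirstOrder.Language.Formula.Realize
            (FirstOrder.Language.mk (fun _ => Bool) (fun _ => Empty))
            (FreeGroup (Fin n) ⧸ derivedSeries (FreeGroup (Fin n)) d)
            ({ funMap := fun b xs => cond b (List.ofFn xs).prod ((List.ofFn xs).prod)⁻¹,
               RelMap := fun r _ => Empty.elim r } :
              (FirstOrder.Language.mk (fun _ => Bool) (fun _ => Empty)).Structure
                (FreeGroup (Fin n) ⧸ derivedSeries (FreeGroup (Fin n)) d))
            (Fin m) φ μ₁ ↔
         @FirstOrder.Language.Formula.Realize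
            (FirstOrder.Language.mk (fun _ => Bool) (fun _ => Empty))
            (FreeGroup (Fin n) ⧸ derivedSeries (FreeGroup (Fin n)) d)
            ({ funMap := fun b xs => cond b (List.ofFn xs).prod ((List.ofFn xs).prod)⁻¹,
               RelMap := fun r _ => Empty.elim r } :
              (FirstOrder.Language.mk (fun _ => Bool) (fun _ => Empty)).Structure
                (FreeGroup (Fin n) ⧸ derivedSeries (FreeGroup (Fin n)) d))
            (Fin m) φ μ₂)) →
      ∃ σ : (FreeGroup (Fin n) ⧸ derivedSeries (FreeGroup (Fin n)) d) ≃*
            (FreeGroup (Fin n) ⧸ derivedSeries (FreeGroup (Fin n)) d),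
        ∀ i, σ (μ₁ i) = μ₂ i := by
  intro n d m u v h
  let L : FirstOrder.Language.{0, 0} := FirstOrder.Language.mk (fun _ => Bool) (fun _ => Empty)
  let S : L.Structure (H259Z.Rich.FS n d) :=
    { funMap := fun b xs => cond b (List.ofFn xs).prod ((List.ofFn xs).prod)⁻¹,
      RelMap := fun r _ => Empty.elim r }
  refine H259Z.Rich.homog_fs (L := L) n d
    ((FirstOrder.Language.Term.func (L := L) (l := 2) true
      ![FirstOrder.Language.Term.var 0, FirstOrder.Language.Term.var 1]).equal
        (FirstOrder.Language.Term.var 2)) (fun w => ?_) (fun σ => ?_) u v h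
  · rw [FirstOrder.Language.Formula.realize_equal, FirstOrder.Language.Term.realize]
    simp [FirstOrder.Language.Structure.funMap, S, List.ofFn_succ]
  · refine ⟨⟨σ.toEquiv, fun {k} b xs => ?_, fun r _ => Empty.elim r⟩, fun _ => rfl⟩
    cases b
    · show σ ((List.ofFn xs).prod)⁻¹ = ((List.ofFn (σ ∘ xs)).prod)⁻¹
      rw [map_inv, map_list_prod, List.map_ofFn]
    · show σ ((List.ofFn xs).prod) = ((List.ofFn (σ ∘ xs)).prod)
      rw [map_list_prod, List.map_ofFn]

end Pool.Agent.S15089
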