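import Pool.Statements.S15122
import Pool.Agent.H501Z.WRRA.Alg

set_option autoImplicit false
open Pool Pool.MP_9e3e1a_lc

namespace Pool.Agent.S15122

/-- The negation of the preceding statement: There is n such that any Boolean algebra with composition, converse and identity whose n-generated subalgebras are all weakly representable relation algebras is itself one, i.e. wRRA has an n-variable equational basis. -/
theorem result :
    ¬ (∃ n : ℕ, ∀ (A : Type) [BooleanAlgebra A] (c : A → A → A) (v : A → A) (e : A)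
      (W : Set A → Prop),
      (∀ S : Set A, W S ↔
        ((∀ x ∈ S, ∀ y ∈ S, ∀ z ∈ S,
            c (c x y) z = c x (c y z) ∧
            c (x ⊔ y) z = c x z ⊔ c y z ∧
            c x e = x ∧
            v (v x) = x ∧
            v (x ⊔ y) = v x ⊔ v y ∧
            v (c x y) = c (v y) (v x) ∧
            c (v x) (c x y)ᶜ ≤ yᶜ) ∧
         ∃ (U : Type) (h : A → Set (U × U)),
            Set.InjOn h S ∧ h ⊥ = ∅ ∧ h e = {p : U × U | p.1 = p.2} ∧
            ∀ x ∈ S, ∀ y ∈ S,
              h (x ⊓ y) = h x ∩ h y ∧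
              h (c x y) = {p : U × U | ∃ w : U, (p.1, w) ∈ h x ∧ (w, p.2) ∈ h y} ∧
              h (v x) = {p : U × U | (p.2, p.1) ∈ h x})) →
      (∀ g : Fin n → A,
        W {a : A | ∀ T : Set A, Set.range g ⊆ T →
          (∀ x ∈ T, ∀ y ∈ T, x ⊔ y ∈ T ∧ xᶜ ∈ T ∧ c x y ∈ T ∧ v x ∈ T) →
          e ∈ T → a ∈ T}) →
      W Set.univ) := by
  rintro ⟨n, hn⟩
  classical
  have key := hn (Set (H501Z.WRRA.At (Fin (4 ^ n + 1)))) H501Z.WRRA.cc H501Z.WRRA.vv
    H501Z.WRRA.ee _ (fun S => Iff.rfl) (by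
      intro g
      obtain ⟨j, k, hjk, hg⟩ := H501Z.WRRA.exists_sym n g
      have hπ : ∀ l, Equiv.swap j k (Equiv.swap j k l) = l := fun l => Equiv.swap_apply_self _ _ _
      obtain ⟨hcl, he⟩ := H501Z.WRRA.Sym_closed hπ
      obtain ⟨h, hinj, h0, h1, hm, hv, hc⟩ := H501Z.WRRA.sym_rep (π := Equiv.swap j k) (γ := j)
        (by rw [Equiv.swap_apply_left]; exact hjk.symm)
      refine ⟨fun x hx y hy z hz => ⟨?_, H501Z.WRRA.ax_add x y z, H501Z.WRRA.ax_id x,
        H501Z.WRRA.ax_vv x, H501Z.WRRA.ax_vadd x y, H501Z.WRRA.ax_vc x y,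
        H501Z.WRRA.ax_tarski x y⟩, ℕ, h, hinj.injOn, h0, h1, fun x hx y hy =>
          ⟨hm x y, hc x (hx _ hg hcl he) y (hy _ hg hcl he), hv x⟩⟩
      have hx' := hx _ hg hcl he
      have hy' := hy _ hg hcl he
      have hz' := hz _ hg hcl he
      apply hinj
      rw [hc _ (hcl x hx' y hy').2.2.1 z hz', hc x hx' _ (hcl y hy' z hz').2.2.1,
        hc x hx' y hy', hc y hy' z hz']
      ext ⟨p, q⟩
      constructor
      · rintro ⟨w, ⟨w', e1, e2⟩, e3⟩
        exact ⟨w', e1, w, e2, e3⟩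
      · rintro ⟨w', e1, w, e2, e3⟩
        exact ⟨w, ⟨w', e1, e2⟩, e3⟩)
  obtain ⟨-, U, h, hinj, h0, -, hh⟩ := key
  exact H501Z.WRRA.not_weak 0 h (Set.injOn_univ.1 hinj) h0
    (fun x y => (hh x trivial y trivial).1) (fun x y => (hh x trivial y trivial).2.1)
    (fun x => (hh x trivial x trivial).2.2)

end Pool.Agent.S15122
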