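import Pool.Statements.S15156
import Pool.Agent.H33Z.DarjiMain

set_option autoImplicit false
open Pool Pool.MP_a4a5b6_lc

namespace Pool.Agent.S15156

/-- The negation of the preceding statement: Every uncountable Polish group is the union of a meager set and a Haar null set, i.e. a set inside a Borel set C with some Borel probability measure giving every two-sided translate gCh measure zero. -/
theorem result :
    ¬ (∀ (G : Type) [Group G] [TopologicalSpace G] [IsTopologicalGroup G] [PolishSpace G]
      [MeasurableSpace G] [BorelSpace G],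
      Uncountable G →
        ∃ A B : Set G, A ∪ B = Set.univ ∧ IsMeagre A ∧
          ∃ C : Set G, MeasurableSet C ∧ B ⊆ C ∧
            ∃ μ : MeasureTheory.Measure G, MeasureTheory.IsProbabilityMeasure μ ∧
              ∀ g h : G, μ ((fun x => g * x * h) '' C) = 0) := by
  intro H
  letI : MeasurableSpace Pool.Agent.H33Z.Darji.PG := borel _
  haveI : BorelSpace Pool.Agent.H33Z.Darji.PG := ⟨rfl⟩
  obtain ⟨A, B, hAB, hA, C, -, hBC, μ, hμ, h0⟩ :=
    H Pool.Agent.H33Z.Darji.PG Pool.Agent.H33Z.Darji.uncountable_PG
  obtain ⟨K, -, hK, hpos⟩ := MeasurableSet.exists_lt_isCompact (μ := μ) MeasurableSet.univ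
    (r := 0) (by simp)
  obtain ⟨g, h, hgh⟩ := Pool.Agent.H33Z.Darji.residual_catch hA hK
  have hsub : K ⊆ (fun x => g⁻¹ * x * h⁻¹) '' C := by
    intro f hf
    refine ⟨g * f * h, hBC ?_, by group⟩
    have : g * f * h ∈ A ∪ B := by rw [hAB]; trivial
    exact this.resolve_left (hgh f hf)
  have := MeasureTheory.measure_mono (μ := μ) hsub
  rw [h0] at this
  exact absurd (lt_of_lt_of_le hpos this) (lt_irrefl _)

end Pool.Agent.S15156
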