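import Pool.Statements.S15167
import Pool.Agent.H720Z.Tame.Univ

set_option autoImplicit false
open Pool Pool.MP_a5f47e_lc

namespace Pool.Agent.S15167

/-- There is a non-archimedean abelian Polish group U, all of whose continuous actions on Polish spaces have Borel orbit relations, such that every non-archimedean abelian Polish group with the same property embeds into U as a topological group. -/
theorem result :
    ∃ (U : Type) (_ : CommGroup U) (_ : TopologicalSpace U) (_ : NonarchimedeanGroup U)
      (_ : PolishSpace U),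
      (∀ (X : Type) [TopologicalSpace X] [PolishSpace X] [MulAction U X] [ContinuousSMul U X],
        @MeasurableSet (X × X) (borel (X × X)) {p : X × X | ∃ g : U, g • p.1 = p.2}) ∧
      ∀ (G : Type) [CommGroup G] [TopologicalSpace G] [NonarchimedeanGroup G] [PolishSpace G],
        (∀ (X : Type) [TopologicalSpace X] [PolishSpace X] [MulAction G X] [ContinuousSMul G X],
          @MeasurableSet (X × X) (borel (X × X)) {p : X × X | ∃ g : G, g • p.1 = p.2}) →
        ∃ f : G →* U, Topology.IsEmbedding (f : G → U) := by
  haveI := Pool.Agent.H720Z.Tame.KK_nonarch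
  refine ⟨Multiplicative (∀ n, Pool.Agent.H720Z.Tame.KK n), inferInstance, inferInstance,
    ⟨fun U hU => ?_⟩, (inferInstance : PolishSpace (∀ n, Pool.Agent.H720Z.Tame.KK n)), ?_, ?_⟩
  · obtain ⟨V, hV⟩ := NonarchimedeanAddGroup.is_nonarchimedean
      (G := ∀ n, Pool.Agent.H720Z.Tame.KK n) U hU
    exact ⟨⟨AddSubgroup.toSubgroup V.toAddSubgroup, V.isOpen⟩, hV⟩
  · intro X _ _ _ _
    letI : AddAction (∀ n, Pool.Agent.H720Z.Tame.KK n) X :=
      { vadd := fun g x => Multiplicative.ofAdd g • x
        zero_vadd := fun x => one_smul (Multiplicative (∀ n, Pool.Agent.H720Z.Tame.KK n)) x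
        add_vadd := fun g h x => mul_smul (Multiplicative.ofAdd g) (Multiplicative.ofAdd h) x }
    haveI : ContinuousVAdd (∀ n, Pool.Agent.H720Z.Tame.KK n) X :=
      ⟨continuous_smul (M := Multiplicative (∀ n, Pool.Agent.H720Z.Tame.KK n))⟩
    exact Pool.Agent.H720Z.Tame.KK_tame X
  · intro G _ _ _ _ hG
    haveI : PolishSpace (Additive G) := (inferInstance : PolishSpace G)
    haveI : NonarchimedeanAddGroup (Additive G) := ⟨fun U hU => by
      obtain ⟨V, hV⟩ := NonarchimedeanGroup.is_nonarchimedean (G := G) U hU
      exact ⟨⟨Subgroup.toAddSubgroup V.toSubgroup, V.isOpen⟩, hV⟩⟩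
    have h : Pool.Agent.H720Z.Tame.IsTame (Additive G) := by
      intro X _ _ _ _
      letI : MulAction G X :=
        { smul := fun g x => Additive.ofMul g +ᵥ x
          one_smul := fun x => zero_vadd (Additive G) x
          mul_smul := fun g h x => add_vadd (Additive.ofMul g) (Additive.ofMul h) x }
      haveI : ContinuousSMul G X := ⟨continuous_vadd (M := Additive G)⟩
      exact hG X
    obtain ⟨f, hf⟩ := Pool.Agent.H720Z.Tame.exists_emb h
    exact ⟨AddMonoidHom.toMultiplicativeRight f, hf.isEmbedding⟩

end Pool.Agent.S15167
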