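import Pool.Statements.S15172
import Pool.Agent.H203Z.Star

set_option autoImplicit false
open Pool Pool.MP_a69800_lc

namespace Pool.Agent.S15172

/-- The negation of the preceding statement: For every finite alphabet and every nonempty regular language A, repeatedly replacing C by its minimal tail with respect to its maximal left star, starting from A, eventually gives a C whose maximal left star is just the empty word. -/
theorem result :
    ¬ (∀ (α : Type) [Fintype α] (A : Set (List α)),
      A.Nonempty →
      (∃ (σ : Type) (_ : Fintype σ) (M : DFA α σ), ∀ x : List α, x ∈ M.accepts ↔ x ∈ A) →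
      ∃ n : ℕ,
        {s : List α | ∀ a ∈ Nat.iterate
            (fun X : Set (List α) =>
              {w : List α | w ∈ X ∧ ¬ ∃ s : List α, s ≠ [] ∧ (∀ a ∈ X, s ++ a ∈ X) ∧ ∃ a ∈ X, s ++ a = w})
            n A,
          s ++ a ∈ Nat.iterate
            (fun X : Set (List α) =>
              {w : List α | w ∈ X ∧ ¬ ∃ s : List α, s ≠ [] ∧ (∀ a ∈ X, s ++ a ∈ X) ∧ ∃ a ∈ X, s ++ a = w})
            n A}
        = ({[]} : Set (List α))) := by
  intro h
  obtain ⟨n, hn⟩ := h Pool.Agent.H203Z.Star.Al Pool.Agent.H203Z.Star.A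
    ⟨[], Pool.Agent.H203Z.Star.nil_mem_A⟩
    ⟨Fin 64, inferInstance, Pool.Agent.H203Z.Star.M, Pool.Agent.H203Z.Star.M_accepts⟩
  obtain ⟨s, hs, hst⟩ := Pool.Agent.H203Z.Star.never n
  have h1 : s ∈ ({[]} : Set (List Pool.Agent.H203Z.Star.Al)) := by
    rw [← hn]
    exact hst
  exact hs h1

end Pool.Agent.S15172
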