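import Pool.Statements.S15181
import Pool.Agent.H798Z.MuchMain

set_option autoImplicit false
open Pool Pool.MP_a7cfe9_lc

namespace Pool.Agent.S15181

/-- There is a closed set P of functions ℕ→ℕ such that for every closed set Q of binary sequences, it is not the case that every element of P computes an element of Q and every element of Q computes an element of P. -/
theorem result :
    ∃ P : Set (ℕ → ℕ), IsClosed P ∧
      ∀ Q : Set (ℕ → Bool), IsClosed Q →
        ¬ ((∀ x ∈ P, ∃ y ∈ Q,
              TuringReducible (PFun.lift (fun n => (y n).toNat)) (PFun.lift x)) ∧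
           (∀ y ∈ Q, ∃ x ∈ P,
              TuringReducible (PFun.lift x) (PFun.lift (fun n => (y n).toNat)))) := by
  obtain ⟨P, hP, h⟩ := Pool.Agent.H798Z.Much.main
  refine ⟨P, hP, fun Q hQ hh => h Q hQ ⟨fun x hx => ?_, fun y hy => ?_⟩⟩
  · obtain ⟨y, hy, hr⟩ := hh.1 x hx
    exact ⟨y, hy, Pool.Agent.H798Z.Much.exists_comp hr⟩
  · obtain ⟨x, hx, hr⟩ := hh.2 y hy
    exact ⟨x, hx, Pool.Agent.H798Z.Much.exists_comp hr⟩

end Pool.Agent.S15181
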