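import Pool.Statements.S15198
import Pool.Agent.H571Z.Cor

set_option autoImplicit false
open Pool Pool.MP_aac87f_lc

namespace Pool.Agent.S15198

/-- The negation of the preceding statement: There is ε>0 such that for arbitrarily large finite abelian groups G some rational matrix f(x−y) has the following property: changing fewer than ∣G∣^(1+ε) entries (by rationals) always leaves rank above ε∣G∣. -/
theorem result :
    ¬ (∃ ε : ℝ, 0 < ε ∧ ∀ N : ℕ, ∃ (G : Type) (_ : AddCommGroup G) (_ : Fintype G), N ≤ Fintype.card G ∧ ∃ f : G → ℚ, ∀ S : Matrix G G ℚ, ((Finset.univ.filter (fun p : G × G => S p.1 p.2 ≠ 0)).card : ℝ) < (Fintype.card G : ℝ) ^ (1 + ε) → ε * (Fintype.card G : ℝ) < ((Matrix.of (fun x y : G => f (x - y)) - S).rank : ℝ)) := by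
  rintro ⟨ε, hε, h⟩
  obtain ⟨η, hη, N₀, hN₀⟩ := Pool.Agent.H571Z.main_nr.{0, 0} (ε := ε / 2) (by positivity)
  obtain ⟨N₁, hN₁⟩ := Pool.Agent.H571Z.eventually_rpow_le hη hε
  obtain ⟨G, _, _, hG, f, hf⟩ := h (max (max N₀ N₁) 2)
  obtain ⟨S, hS, hr⟩ := hN₀ ℚ G f (((le_max_left _ _).trans (le_max_left _ _)).trans hG)
  have h1 := hN₁ _ (((le_max_right _ _).trans (le_max_left _ _)).trans hG)
  have h2 : (1 : ℝ) < Fintype.card G := by exact_mod_cast (le_max_right _ _).trans hG
  have h3 := hS.total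
  have h4 : {p : G × G | S p.1 p.2 ≠ 0} =
      ↑(Finset.univ.filter (fun p : G × G => S p.1 p.2 ≠ 0)) := by
    ext p; simp
  rw [h4, Set.ncard_coe_finset] at h3
  have h5 : (Fintype.card G : ℝ) * (Fintype.card G : ℝ) ^ (ε / 2) <
      (Fintype.card G : ℝ) ^ (1 + ε) := by
    rw [Real.rpow_add (by linarith), Real.rpow_one]
    exact mul_lt_mul_of_pos_left (Real.rpow_lt_rpow_of_exponent_lt h2 (by linarith)) (by linarith)
  exact absurd (hf S (h3.trans_lt h5)) (not_lt.2 (hr.trans h1))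

end Pool.Agent.S15198
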