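import Pool.Statements.S15202
import Pool.Agent.H946Z.Gen.NoMin

set_option autoImplicit false
open Pool Pool.MP_abf483_lc

namespace Pool.Agent.S15202

/-- The negation of the preceding statement: Under generic reducibility, defined via enumeration operators acting on partial descriptions correct on a density-one domain, there is a set A above the least degree such that every set reducible to A is either generically computable or equivalent to A. -/
theorem result :
    ¬ (∀ GD : Set ℕ → Set (ℕ × ℕ) → Prop,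
      (∀ (A : Set ℕ) (G : Set (ℕ × ℕ)), GD A G ↔
        ((∀ x y : ℕ, (x, y) ∈ G → ((x ∈ A ∧ y = 1) ∨ (x ∉ A ∧ y = 0))) ∧
          Filter.Tendsto
            (fun n : ℕ => ((({x : ℕ | ∃ y : ℕ, (x, y) ∈ G} ∩ Set.Iio n).ncard : ℝ) / (n : ℝ)))
            Filter.atTop (nhds 1))) →
    ∀ Red : Set ℕ → Set ℕ → Prop,
      (∀ A B : Set ℕ, Red A B ↔
        ∃ W : List (ℕ × ℕ) × (ℕ × ℕ) → Prop, REPred W ∧
          ∀ G : Set (ℕ × ℕ), GD B G →
            GD A {p : ℕ × ℕ | ∃ l : List (ℕ × ℕ), (∀ q ∈ l, q ∈ G) ∧ W (l, p)}) →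
    ∃ A : Set ℕ, ¬ Red A ∅ ∧ ∀ C : Set ℕ, Red C A → (Red C ∅ ∨ Red A C)) := by
  intro h
  obtain ⟨A, hA, hmin⟩ := h Pool.Agent.H946Z.Gen.GD (fun _ _ => Iff.rfl)
    Pool.Agent.H946Z.Gen.Red (fun _ _ => Iff.rfl)
  obtain ⟨C, h1, h2, h3⟩ := Pool.Agent.H946Z.Gen.no_minimal hA
  rcases hmin C h1 with h4 | h4
  · exact h2 h4
  · exact h3 h4

end Pool.Agent.S15202
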