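import Pool.Statements.S15225
import Pool.Agent.H791Z.BasGen.Main

set_option autoImplicit false
open Pool Pool.MP_af8240_lc

namespace Pool.Agent.S15225

/-- For ultrafilters U, V on ℕ: if V is Tukey reducible to U and U has a base in which every sequence converging to a base member has an infinite subsequence with intersection in U, then V has such a base too. -/
theorem result :
    ∀ U V : Ultrafilter ℕ,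
      (∃ f : Set ℕ → Set ℕ, (∀ A : Set ℕ, A ∈ U → f A ∈ V) ∧
        ∀ C : Set (Set ℕ), ((∀ X ∈ C, X ∈ U) ∧ ∀ A : Set ℕ, A ∈ U → ∃ X ∈ C, X ⊆ A) →
          ∀ B : Set ℕ, B ∈ V → ∃ X ∈ C, f X ⊆ B) →
      (∃ 𝓑 : Set (Set ℕ), (∀ X ∈ 𝓑, X ∈ U) ∧ (∀ A : Set ℕ, A ∈ U → ∃ X ∈ 𝓑, X ⊆ A) ∧
        ∀ (X : ℕ → Set ℕ) (Y : Set ℕ), (∀ n, X n ∈ 𝓑) → Y ∈ 𝓑 →
          (∀ m : ℕ, ∀ᶠ n in Filter.atTop, (m ∈ X n ↔ m ∈ Y)) →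
          ∃ φ : ℕ → ℕ, StrictMono φ ∧ (⋂ k, X (φ k)) ∈ U) →
      (∃ 𝓑 : Set (Set ℕ), (∀ X ∈ 𝓑, X ∈ V) ∧ (∀ A : Set ℕ, A ∈ V → ∃ X ∈ 𝓑, X ⊆ A) ∧
        ∀ (X : ℕ → Set ℕ) (Y : Set ℕ), (∀ n, X n ∈ 𝓑) → Y ∈ 𝓑 →
          (∀ m : ℕ, ∀ᶠ n in Filter.atTop, (m ∈ X n ↔ m ∈ Y)) →
          ∃ φ : ℕ → ℕ, StrictMono φ ∧ (⋂ k, X (φ k)) ∈ V) := by
  rintro U V ⟨f, hf, hcof⟩ hU
  exact Pool.Agent.H791Z.BasGen.bg_of_tukey U V f hf hcof hU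

end Pool.Agent.S15225
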