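import Pool.Statements.S15235
import Pool.Agent.H891Z.CN3

set_option autoImplicit false
open Pool Pool.MP_b0cc33_lc

namespace Pool.Agent.S15235

/-- Every finitely generated group F_n/N whose non-identity words form a c.e. set embeds, as a group of isometries each computable on a dense sequence, into some complete metric space with a dense sequence having computable distances. -/
theorem result :
    ∀ (n : ℕ) (N : Subgroup (FreeGroup (Fin n))), N.Normal →
      REPred (fun w : List (Fin n × Bool) => FreeGroup.mk w ∉ N) →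
      ∃ (X : Type) (_ : MetricSpace X) (_ : CompleteSpace X) (s : ℕ → X),
        DenseRange s ∧
        (∃ q : ℕ × ℕ × ℕ → ℕ, Computable q ∧
          ∀ i j k : ℕ, |dist (s i) (s j) - (q (i, j, k) : ℝ) / 2 ^ k| ≤ 1 / 2 ^ k) ∧
        ∃ φ : FreeGroup (Fin n) →* (X ≃ᵢ X), φ.ker = N ∧
          ∀ g : FreeGroup (Fin n), ∃ h : ℕ × ℕ → ℕ, Computable h ∧
            ∀ i k : ℕ, dist (φ g (s i)) (s (h (i, k))) ≤ 1 / 2 ^ k :=
  Pool.Agent.H891Z.CN.main

end Pool.Agent.S15235
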