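import Pool.Statements.S15245
import Pool.Agent.H925Z.Blk4

set_option autoImplicit false
open Pool Pool.MP_b25485_lc

namespace Pool.Agent.S15245

/-- For every countably infinite field F, every full block filter on the countable-dimensional F-vector space that is a (p)-filter is also a strong (p)-filter, i.e. every (p⁺)-filter is a strong (p⁺)-filter. -/
theorem result :
  ∀ (F : Type) [Field F] [Countable F] [Infinite F] (𝓕 : Filter (ℕ →₀ F)),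
    𝓕.NeBot →
    ({0}ᶜ : Set (ℕ →₀ F)) ∈ 𝓕 →
    (∀ V : Submodule F (ℕ →₀ F), FiniteDimensional F ((ℕ →₀ F) ⧸ V) →
        ((V : Set (ℕ →₀ F)) \ {0}) ∈ 𝓕) →
    (∀ A ∈ 𝓕, ∃ X : ℕ → (ℕ →₀ F),
        (∀ n, X n ≠ 0 ∧ ∀ i ∈ (X n).support, ∀ j ∈ (X (n+1)).support, i < j) ∧
        ((Submodule.span F (Set.range X) : Set (ℕ →₀ F)) \ {0}) ∈ 𝓕 ∧
        ((Submodule.span F (Set.range X) : Set (ℕ →₀ F)) \ {0}) ⊆ A) →
    (∀ D : Set (ℕ →₀ F),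
        (∀ X : ℕ → (ℕ →₀ F),
          (∀ n, X n ≠ 0 ∧ ∀ i ∈ (X n).support, ∀ j ∈ (X (n+1)).support, i < j) →
          ((Submodule.span F (Set.range X) : Set (ℕ →₀ F)) \ {0}) ∈ 𝓕 →
          ∃ V : Submodule F (ℕ →₀ F), ¬ FiniteDimensional F V ∧
            ((V : Set (ℕ →₀ F)) \ {0}) ⊆ ((Submodule.span F (Set.range X) : Set (ℕ →₀ F)) \ {0}) ∧
            ((V : Set (ℕ →₀ F)) \ {0}) ⊆ D) →
        D ∈ 𝓕) →
    (∀ Xs : ℕ → ℕ → (ℕ →₀ F),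
        (∀ m, (∀ n, Xs m n ≠ 0 ∧ ∀ i ∈ (Xs m n).support, ∀ j ∈ (Xs m (n+1)).support, i < j) ∧
          ((Submodule.span F (Set.range (Xs m)) : Set (ℕ →₀ F)) \ {0}) ∈ 𝓕) →
        ∃ X : ℕ → (ℕ →₀ F),
          (∀ n, X n ≠ 0 ∧ ∀ i ∈ (X n).support, ∀ j ∈ (X (n+1)).support, i < j) ∧
          ((Submodule.span F (Set.range X) : Set (ℕ →₀ F)) \ {0}) ∈ 𝓕 ∧
          ∀ m, ∃ k : ℕ, Submodule.span F (Set.range (fun n : ℕ => X (n + k))) ≤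
            Submodule.span F (Set.range (Xs m))) →
    (∀ Y : List (ℕ →₀ F) → ℕ → (ℕ →₀ F),
        (∀ l, (∀ n, Y l n ≠ 0 ∧ ∀ i ∈ (Y l n).support, ∀ j ∈ (Y l (n+1)).support, i < j) ∧
          ((Submodule.span F (Set.range (Y l)) : Set (ℕ →₀ F)) \ {0}) ∈ 𝓕) →
        ∃ X : ℕ → (ℕ →₀ F),
          (∀ n, X n ≠ 0 ∧ ∀ i ∈ (X n).support, ∀ j ∈ (X (n+1)).support, i < j) ∧
          ((Submodule.span F (Set.range X) : Set (ℕ →₀ F)) \ {0}) ∈ 𝓕 ∧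
          ∀ k : ℕ, Submodule.span F (Set.range (fun n : ℕ => X (n + k))) ≤
            Submodule.span F (Set.range (Y (List.ofFn (fun i : Fin k => X i.val))))) := by
  intro F _ _ _ 𝓕 _ _ _ hb hf hp Y hY
  obtain ⟨X, h1, h2, h3⟩ := Pool.Agent.H925Z.Blk.strong (𝓕 := 𝓕) hb hf (by
    intro Xs hXs
    obtain ⟨X, a1, a2, a3⟩ := hp Xs hXs
    refine ⟨X, a1, a2, fun m => ?_⟩
    obtain ⟨k, hk⟩ := a3 m
    refine ⟨k, fun n hn => hk (Submodule.subset_span ⟨n - k, ?_⟩)⟩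
    show X (n - k + k) = X n
    rw [Nat.sub_add_cancel hn]) Y hY
  refine ⟨X, h1, h2, fun k => ?_⟩
  rw [Submodule.span_le]
  rintro _ ⟨n, rfl⟩
  exact h3 k n

end Pool.Agent.S15245
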