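import Pool.Statements.S15249
import Pool.Agent.H895Z.Evasion

set_option autoImplicit false
open Filter
open Pool Pool.MP_b28f50_lc

namespace Pool.Agent.S15249

/-- For every dominating family D of functions ℕ→ℕ there is a set E of binary sequences with ∣E∣ ≤ ∣D∣ such that no single predictor constantly predicts all of E; i.e. e_2^const ≤ d. -/
theorem result :
    ∀ D : Set (ℕ → ℕ),
      (∀ g : ℕ → ℕ, ∃ f ∈ D, ∀ᶠ n in atTop, g n ≤ f n) →
      ∃ E : Set (ℕ → Bool),
        Cardinal.mk E ≤ Cardinal.mk D ∧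
        ∀ π : List Bool → Bool, ∃ f ∈ E, ∀ k : ℕ,
          ∃ᶠ n in atTop, ∀ i ∈ Finset.Ico n (n + k),
            f i ≠ π ((List.range i).map f) :=
  fun D hD => Pool.Agent.H895Z.Evasion.main D hD

end Pool.Agent.S15249
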