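import Pool.Statements.S15265
import Pool.Agent.H923Z.Haar

set_option autoImplicit false
open Pool Pool.MP_b60ee2_lc

namespace Pool.Agent.S15265

/-- Every uncountable abelian Polish group is the union of two sets A and B. A lies in a Borel set that some continuous image of a nonempty compact metrizable space sees as meager in every translate. B lies in a Borel set that some probability measure gives measure zero in every translate. -/
theorem result :
    ∀ (G : Type) [TopologicalSpace G] [AddCommGroup G] [IsTopologicalAddGroup G]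
      [PolishSpace G] [MeasurableSpace G] [BorelSpace G],
      Uncountable G →
      ∃ A B : Set G, A ∪ B = Set.univ ∧
        (∃ C : Set G, MeasurableSet C ∧ A ⊆ C ∧
          ∃ (K : Type) (t : TopologicalSpace K),
            CompactSpace K ∧ TopologicalSpace.MetrizableSpace K ∧ Nonempty K ∧
            ∃ f : K → G, Continuous f ∧
              ∀ g : G, IsMeagre (f ⁻¹' ((fun x => x + g) ⁻¹' C))) ∧
        (∃ C : Set G, MeasurableSet C ∧ B ⊆ C ∧
          ∃ μ : MeasureTheory.Measure G, MeasureTheory.IsProbabilityMeasure μ ∧
            ∀ g : G, μ ((fun x => x + g) ⁻¹' C) = 0) := by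
  intro G _ _ _ _ _ _ hG
  obtain ⟨N, hN, ⟨f, hf, hfm⟩, μ, hμ, hμ0⟩ := Pool.Agent.H923Z.Haar.main G
  exact ⟨Nᶜ, N, Set.compl_union_self N,
    ⟨Nᶜ, hN.compl, subset_rfl, Pool.Agent.H923Z.Haar.KK, inferInstance, inferInstance,
      inferInstance, inferInstance, f, hf, hfm⟩,
    ⟨N, hN, subset_rfl, μ, hμ, hμ0⟩⟩

end Pool.Agent.S15265
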