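import Pool.Statements.S15321
import Pool.Agent.H259Z.Rich.Prime

set_option autoImplicit false
open FirstOrder FirstOrder.Language
open Pool Pool.MP_c33acd_lc

namespace Pool.Agent.S15321

/-- For every n ≥ 2, the free solvable group of class 3 on n generators, viewed as a structure in the language of products, elementarily embeds into every model of its complete first-order theory, i.e. it is a prime model. -/
theorem result :
    ∀ (L : FirstOrder.Language.{0,0}), L = ⟨fun _ => Unit, fun _ => Empty⟩ →
    ∀ n : ℕ, 2 ≤ n →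
    ∀ [S : L.Structure (FreeGroup (Fin n) ⧸ derivedSeries (FreeGroup (Fin n)) 3)],
      S = ⟨fun _ x => (List.ofFn x).prod, fun _ _ => False⟩ →
    ∀ (N : Type) [L.Structure N],
      N ⊨ L.completeTheory (FreeGroup (Fin n) ⧸ derivedSeries (FreeGroup (Fin n)) 3) →
      Nonempty ((FreeGroup (Fin n) ⧸ derivedSeries (FreeGroup (Fin n)) 3) ↪ₑ[L] N) := by
  rintro L rfl n hn S hS N _ hN
  refine @H259Z.Rich.prime_fs _ n hn 1 S
    ((Term.func (l := 2) () ![Term.var 0, Term.var 1]).equal (Term.var 2)) (fun w => ?_)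
    (fun σ => ?_) N _ hN
  · subst hS
    show w 0 * (w 1 * 1) = w 2 ↔ _
    rw [mul_one]
  · subst hS
    refine ⟨@FirstOrder.Language.Equiv.mk _ _ _ (_) (_) σ.toEquiv (fun {k} b xs => ?_)
      (fun r _ => Empty.elim r), fun _ => rfl⟩
    show σ ((List.ofFn xs).prod) = ((List.ofFn (σ ∘ xs)).prod)
    rw [map_list_prod, List.map_ofFn]

end Pool.Agent.S15321
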