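import Pool.Statements.S15339
import Pool.Agent.H50Z.Aut.Main

set_option autoImplicit false
open Pool Pool.MP_c89ac5_lc

namespace Pool.Agent.S15339

/-- Every permutation group on ℕ whose set of pairs (σ, σ⁻¹) is a computable Π⁰₁ class is isomorphic, by a group isomorphism that is a homeomorphism for pointwise convergence, to the automorphism group of a computable relational structure on ℕ. -/
theorem result :
    ∀ (G : Subgroup (Equiv.Perm ℕ)) (T : List ℕ → List ℕ → Bool),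
      Computable₂ T →
      (∀ f g : ℕ → ℕ,
          (∀ n : ℕ, T ((List.range n).map f) ((List.range n).map g) = true) ↔
            ∃ σ ∈ G, (⇑σ = f ∧ ⇑σ.symm = g)) →
      ∃ R : ℕ → List ℕ → Bool, Computable₂ R ∧
        ∃ H : Subgroup (Equiv.Perm ℕ),
          (∀ σ : Equiv.Perm ℕ, σ ∈ H ↔ ∀ (i : ℕ) (l : List ℕ), R i (l.map ⇑σ) = R i l) ∧
          ∃ φ : G ≃* H,
            (∀ x : G, ∀ n : ℕ, ∃ m : ℕ, ∀ y : G,
                (∀ k : ℕ, k < m → y.1 k = x.1 k) → (φ y).1 n = (φ x).1 n) ∧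
            (∀ x : H, ∀ n : ℕ, ∃ m : ℕ, ∀ y : H,
                (∀ k : ℕ, k < m → y.1 k = x.1 k) → (φ.symm y).1 n = (φ.symm x).1 n) := by
  classical
  intro G T hT hG
  obtain ⟨T', p1, p2, p3⟩ := H50Z.Aut.exists_prim_tree T hT
  obtain ⟨h, Q, idx, q1, q2, q3, q4, q5, q6⟩ := H50Z.Aut.exists_label (G := G) p1
    (fun g hg => p2 _ _ ((hG _ _).mpr ⟨g, hg, rfl, rfl⟩))
    (fun f g L hL => by
      obtain ⟨σ, a1, a2, _⟩ := (hG f g).mp (p3 f g L hL)
      exact ⟨σ, a1, a2⟩)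
  refine ⟨fun i l => decide (H50Z.Aut.RR Q idx i l),
    (H50Z.Aut.primrec_RR q1 q2).decide.to_comp, G.map (H50Z.Aut.Phi idx h), ?_,
    G.equivMapOfInjective _ (H50Z.Aut.Phi_inj idx h), ?_, ?_⟩
  · intro σ
    simp only [decide_eq_decide]
    constructor
    · rintro ⟨g, hg, rfl⟩ i l
      exact H50Z.Aut.RR_ext q3 g (q5 g hg) i l
    · intro hσ
      obtain ⟨f, a1, a2⟩ := H50Z.Aut.aut_ext q4 q3 hσ
      exact ⟨f, q6 f a1, a2⟩
  · intro x n
    rcases H50Z.Aut.elt_cases idx h n with ⟨k, rfl⟩ | ⟨b, j, u, rfl⟩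
    · refine ⟨k + 1, fun y hy => ?_⟩
      show H50Z.Aut.ext idx h y.1 _ = H50Z.Aut.ext idx h x.1 _
      rw [H50Z.Aut.ext_even, H50Z.Aut.ext_even, hy k (by omega)]
    · refine ⟨b.sum + 1, fun y hy => ?_⟩
      show H50Z.Aut.ext idx h y.1 _ = H50Z.Aut.ext idx h x.1 _
      rw [H50Z.Aut.ext_mk', H50Z.Aut.ext_mk']
      congr 1
      refine List.map_congr_left fun k hk => hy k ?_
      have := List.le_sum_of_mem hk
      omega
  · intro x n
    refine ⟨2 * n + 1, fun y hy => ?_⟩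
    have key : ∀ z : G.map (H50Z.Aut.Phi idx h), z.1 (2 * n) =
        2 * ((G.equivMapOfInjective _ (H50Z.Aut.Phi_inj idx h)).symm z).1 n := by
      intro z
      obtain ⟨w, rfl⟩ := (G.equivMapOfInjective _ (H50Z.Aut.Phi_inj idx h)).surjective z
      rw [MulEquiv.symm_apply_apply]
      exact H50Z.Aut.ext_even idx h w.1 n
    have a1 := key x
    have a2 := key y
    have a3 := hy (2 * n) (by omega)
    omega

end Pool.Agent.S15339
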