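import Pool.Statements.S15353
import Pool.Agent.H895Z.SelA
-- import your own Pool.Agent.* helpers here

set_option autoImplicit false
open Pool Pool.MP_cc69c8_lc

namespace Pool.Agent.S15353

/-- There is an almost disjoint family of infinite subsets of ℕ, of cardinality equal to the dominating number, whose Mrówka–Isbell space Ψ(A) is not selectively (a). -/
theorem result :
  ∃ A : Set (Set ℕ),
    (∀ a ∈ A, a.Infinite) ∧ (∀ a ∈ A, ∀ b ∈ A, a ≠ b → (a ∩ b).Finite) ∧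
    (∃ D : Set (ℕ → ℕ), (∀ f : ℕ → ℕ, ∃ g ∈ D, ∀ᶠ n in Filter.atTop, f n ≤ g n) ∧
        Cardinal.mk D = Cardinal.mk A) ∧
    (∀ D : Set (ℕ → ℕ), (∀ f : ℕ → ℕ, ∃ g ∈ D, ∀ᶠ n in Filter.atTop, f n ≤ g n) →
        Cardinal.mk A ≤ Cardinal.mk D) ∧
    ∀ t : TopologicalSpace (ℕ ⊕ A),
      t = TopologicalSpace.generateFrom
        ({s : Set (ℕ ⊕ A) | ∃ n : ℕ, s = {Sum.inl n}} ∪
         {s : Set (ℕ ⊕ A) | ∃ a : A, ∃ F : Set ℕ, F.Finite ∧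
            s = insert (Sum.inr a) (Sum.inl '' ((a : Set ℕ) \ F))}) →
      ¬ (∀ U : ℕ → Set (Set (ℕ ⊕ A)),
          (∀ n, (∀ u ∈ U n, @IsOpen _ t u) ∧ ⋃₀ U n = Set.univ) →
          ∀ Dn : Set (ℕ ⊕ A), @Dense _ t Dn →
          ∃ F : ℕ → Set (ℕ ⊕ A),
            (∀ n, F n ⊆ Dn ∧ ∀ x, ∃ V : Set (ℕ ⊕ A), @IsOpen _ t V ∧ x ∈ V ∧ V ∩ F n ⊆ {x}) ∧
            ∀ x, ∃ n, ∃ u ∈ U n, x ∈ u ∧ (u ∩ F n).Nonempty) := by
  exact Pool.Agent.H895Z.SelA.main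

end Pool.Agent.S15353
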