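import Pool.Statements.S15389
import Pool.Agent.H439Z.RG7

set_option autoImplicit false
open scoped Classical
open Pool Pool.MP_d11e37_lc

namespace Pool.Agent.S15389

/-- For 0<δ<1 and p(n) eventually between n^(-δ) and 1/2, some C>0 makes the probability that G(n,p) is defined among finite graphs by a first-order sentence of quantifier depth at most C log n tend to 1. -/
theorem result :
    ∀ δ : ℝ, 0 < δ → δ < 1 →
    ∀ p : ℕ → ℝ, (∀ᶠ n : ℕ in Filter.atTop, (n : ℝ) ^ (-δ) ≤ p n ∧ p n ≤ 1 / 2) →
    ∃ C : ℝ, 0 < C ∧
      Filter.Tendsto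
        (fun n : ℕ =>
          ∑ G ∈ (Finset.univ.filter (fun G : SimpleGraph (Fin n) =>
              ∃ k : ℕ, (k : ℝ) ≤ C * Real.log n ∧
                ∃ φ : FirstOrder.Language.Sentence FirstOrder.Language.graph,
                  (∀ Q : (m : ℕ) → FirstOrder.Language.BoundedFormula FirstOrder.Language.graph Empty m → ℕ → Prop,
                    ((∀ (m k' : ℕ), Q m FirstOrder.Language.BoundedFormula.falsum k') ∧
                     (∀ (m k' : ℕ) (t₁ t₂ : FirstOrder.Language.Term FirstOrder.Language.graph (Empty ⊕ Fin m)),
                        Q m (FirstOrder.Language.BoundedFormula.equal t₁ t₂) k') ∧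
                     (∀ (m k' l : ℕ) (R : FirstOrder.Language.graph.Relations l)
                        (ts : Fin l → FirstOrder.Language.Term FirstOrder.Language.graph (Empty ⊕ Fin m)),
                        Q m (FirstOrder.Language.BoundedFormula.rel R ts) k') ∧
                     (∀ (m k' : ℕ) (ψ χ : FirstOrder.Language.BoundedFormula FirstOrder.Language.graph Empty m),
                        Q m ψ k' → Q m χ k' → Q m (FirstOrder.Language.BoundedFormula.imp ψ χ) k') ∧
                     (∀ (m k' : ℕ) (ψ : FirstOrder.Language.BoundedFormula FirstOrder.Language.graph Empty (m + 1)),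
                        Q (m + 1) ψ k' → Q m (FirstOrder.Language.BoundedFormula.all ψ) (k' + 1)))
                    → Q 0 φ k) ∧
                  ∀ (m : ℕ) (H : SimpleGraph (Fin m)),
                    (@FirstOrder.Language.Sentence.Realize FirstOrder.Language.graph (Fin m) H.structure φ
                      ↔ Nonempty (SimpleGraph.Iso G H)))),
            p n ^ G.edgeSet.ncard * (1 - p n) ^ (n.choose 2 - G.edgeSet.ncard))
        Filter.atTop (nhds 1) := by
  intro δ h0 h1 p hp
  obtain ⟨C, hC, h⟩ := Pool.Agent.H439Z.RG.main δ h1 h0 p hp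
  refine ⟨C, hC, h.congr fun n => ?_⟩
  rw [← Pool.Agent.H439Z.RG.sum_graph]
  congr

end Pool.Agent.S15389
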