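import Pool.Statements.S15399
import Pool.Agent.H616Z.GLP.Trans

set_option autoImplicit false
open Pool Pool.MP_d338c6_lc

namespace Pool.Agent.S15399

/-- In GLP, for every formula φ in variables p₀…p_{n−1}: if some substitution σ makes ⊢σψ equivalent to φ⊢ψ for all ψ (exact), then some σ has ⊢σφ and φ⊢pᵢ↔σpᵢ for all i (projective). -/
theorem result :
  ∀ (L : FirstOrder.Language.{0, 0}) (c0 : L.Functions 0) (cimp : L.Functions 2)
    (cbox : ℕ → L.Functions 1),
    (∀ f : L.Functions 0, f = c0) →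
    (∀ f : L.Functions 2, f = cimp) →
    Function.Bijective cbox →
    (∀ n : ℕ, 3 ≤ n → IsEmpty (L.Functions n)) →
    ∀ (bot : L.Term ℕ) (imp : L.Term ℕ → L.Term ℕ → L.Term ℕ) (box : ℕ → L.Term ℕ → L.Term ℕ),
    bot = FirstOrder.Language.Term.func c0 ![] →
    (∀ a b : L.Term ℕ, imp a b = FirstOrder.Language.Term.func cimp ![a, b]) →
    (∀ (k : ℕ) (a : L.Term ℕ), box k a = FirstOrder.Language.Term.func (cbox k) ![a]) →
    ∀ Der : Set (L.Term ℕ) → L.Term ℕ → Prop,
    (∀ (Γ : Set (L.Term ℕ)) (ψ : L.Term ℕ),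
      Der Γ ψ ↔
        ∀ S : Set (L.Term ℕ),
          Γ ⊆ S →
          (∀ a b, imp a (imp b a) ∈ S) →
          (∀ a b c, imp (imp a (imp b c)) (imp (imp a b) (imp a c)) ∈ S) →
          (∀ a, imp (imp (imp a bot) bot) a ∈ S) →
          (∀ (k : ℕ) a b, imp (box k (imp a b)) (imp (box k a) (box k b)) ∈ S) →
          (∀ (k : ℕ) a, imp (box k (imp (box k a) a)) (box k a) ∈ S) →
          (∀ (m k : ℕ) a, m ≤ k → imp (box m a) (box k a) ∈ S) →
          (∀ (m k : ℕ) a, m < k →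
            imp (imp (box m (imp a bot)) bot) (box k (imp (box m (imp a bot)) bot)) ∈ S) →
          (∀ a b, a ∈ S → imp a b ∈ S → b ∈ S) →
          (∀ (k : ℕ) a, a ∈ S → box k a ∈ S) →
          ψ ∈ S) →
    ∀ (n : ℕ) (φ : L.Term (Fin n)),
      (∃ σ : Fin n → L.Term ℕ,
        ∀ ψ : L.Term (Fin n),
          Der ∅ (ψ.subst σ) ↔ Der {φ.relabel Fin.val} (ψ.relabel Fin.val)) →
      ∃ σ : Fin n → L.Term ℕ,
        Der ∅ (φ.subst σ) ∧
        ∀ i : Fin n,
          Der {φ.relabel Fin.val}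
            (imp (FirstOrder.Language.Term.var i.val : L.Term ℕ) (σ i)) ∧
          Der {φ.relabel Fin.val}
            (imp (σ i) (FirstOrder.Language.Term.var i.val : L.Term ℕ)) := by
  intro L c0 cimp cbox h0 h2 hb h3 bot imp box hbot himp hbox Der hDer n φ hex
  classical
  obtain ⟨g, hg1, hg2⟩ := Function.bijective_iff_has_inverse.1 hb
  have e0 : H616Z.GLP.ofT g bot = .bot := by rw [hbot]; rfl
  have e1 : ∀ a b, H616Z.GLP.ofT g (imp a b) = .imp (H616Z.GLP.ofT g a) (H616Z.GLP.ofT g b) := by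
    intro a b
    rw [himp]
    rfl
  have e2 : ∀ k a, H616Z.GLP.ofT g (box k a) = .box k (H616Z.GLP.ofT g a) := by
    intro k a
    rw [hbox]
    simp [H616Z.GLP.ofT, H616Z.GLP.step, hg1 k]
  have key : ∀ (Γ : Set (L.Term ℕ)) (t : L.Term ℕ),
      Der Γ t ↔ H616Z.GLP.Prov (H616Z.GLP.ofT g '' Γ) (H616Z.GLP.ofT g t) := by
    intro Γ t
    rw [hDer]
    constructor
    · intro h
      refine h {t | H616Z.GLP.Prov (H616Z.GLP.ofT g '' Γ) (H616Z.GLP.ofT g t)}
        (fun a ha => .hyp ⟨a, ha, rfl⟩) ?_ ?_ ?_ ?_ ?_ ?_ ?_ ?_ ?_ <;>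
        simp only [Set.mem_ofPred_eq, e0, e1, e2]
      · exact fun a b => .ax1 _ _
      · exact fun a b c => .ax2 _ _ _
      · exact fun a => .ax3 _
      · exact fun k a b => .axK k _ _
      · exact fun k a => .axL k _
      · exact fun m k a h => .axM m k _ h
      · exact fun m k a h => .axP m k _ h
      · exact fun a b h1 h2 => .mp h1 h2
      · exact fun k a h => .nec k h
    · intro h S hΓ a1 a2 a3 a4 a5 a6 a7 a8 a9
      rw [← H616Z.GLP.toT_ofT h0 h2 hg2 h3 t]
      generalize H616Z.GLP.ofT g t = a at h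
      induction h with
      | hyp h =>
        obtain ⟨s, hs, rfl⟩ := h
        rw [H616Z.GLP.toT_ofT h0 h2 hg2 h3]
        exact hΓ hs
      | ax1 a b => simpa only [H616Z.GLP.toT, himp] using a1 _ _
      | ax2 a b c => simpa only [H616Z.GLP.toT, himp] using a2 _ _ _
      | ax3 a => simpa only [H616Z.GLP.toT, himp, hbot] using a3 _
      | axK k a b => simpa only [H616Z.GLP.toT, himp, hbox] using a4 k _ _
      | axL k a => simpa only [H616Z.GLP.toT, himp, hbox] using a5 k _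
      | axM m k a h => simpa only [H616Z.GLP.toT, himp, hbox] using a6 m k _ h
      | axP m k a h => simpa only [H616Z.GLP.toT, himp, hbox, hbot] using a7 m k _ h
      | mp _ _ h1 h2 => exact a8 _ _ h1 (by simpa only [H616Z.GLP.toT, himp] using h2)
      | nec k _ h => simpa only [H616Z.GLP.toT, hbox] using a9 k _ h
  obtain ⟨σ, hσ⟩ := hex
  obtain ⟨τ, h4, h5⟩ := H616Z.GLP.main (H616Z.GLP.ofT g φ) (fun i => H616Z.GLP.ofT g (σ i))
    fun ψ => by
      have := hσ (H616Z.GLP.toT c0 cimp cbox ψ)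
      rwa [key, key, Set.image_empty, Set.image_singleton, H616Z.GLP.ofT_subst,
        H616Z.GLP.ofT_relabel, H616Z.GLP.ofT_relabel, H616Z.GLP.ofT_toT hg1] at this
  refine ⟨fun i => H616Z.GLP.toT c0 cimp cbox (τ i), ?_, fun i => ⟨?_, ?_⟩⟩
  · rw [key, Set.image_empty, H616Z.GLP.ofT_subst]
    simpa only [H616Z.GLP.ofT_toT hg1] using h4
  · rw [key, Set.image_singleton, H616Z.GLP.ofT_relabel, e1, H616Z.GLP.ofT_toT hg1]
    exact (h5 i).1
  · rw [key, Set.image_singleton, H616Z.GLP.ofT_relabel, e1, H616Z.GLP.ofT_toT hg1]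
    exact (h5 i).2

end Pool.Agent.S15399
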