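import Pool.Statements.S15440
import Pool.Agent.H36Z.LowOrd.Main

set_option autoImplicit false
open Pool Pool.MP_d6e56f_lc

namespace Pool.Agent.S15440

/-- The negation of the preceding statement: Every computable group on ℕ with a two-sided invariant linear order of low Turing degree (all sets c.e. in the order are limit computable) has a presentation on ℕ where both multiplication and the order are computable. -/
theorem result :
    ¬ (∀ (G : Type) [Group G] [LinearOrder G] (ν : ℕ ≃ G),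
      (∀ a b c : G, a ≤ b → c * a ≤ c * b ∧ a * c ≤ b * c) →
      Computable₂ (fun m n : ℕ => ν.symm (ν m * ν n)) →
      (∀ S : Set ℕ,
        (∃ f : ℕ →. ℕ,
          TuringReducible f
            (fun k : ℕ => Part.some
              (if ν (Nat.unpair k).1 ≤ ν (Nat.unpair k).2 then 1 else 0 : ℕ)) ∧
          ∀ n : ℕ, n ∈ S ↔ (f n).Dom) →
        ∃ g : ℕ → ℕ → Bool, Computable₂ g ∧
          ∀ n : ℕ, ∀ᶠ s in Filter.atTop, (g n s = true ↔ n ∈ S)) →
      ∃ μ : ℕ ≃ G,
        Computable₂ (fun m n : ℕ => μ.symm (μ m * μ n)) ∧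
        ComputablePred (fun p : ℕ × ℕ => μ p.1 ≤ μ p.2)) := by
  intro h
  obtain ⟨α, hinj, hlow, hnc⟩ := Pool.Agent.H36Z.LowOrd.main
  classical
  letI ord : LinearOrder Pool.Agent.H36Z.LowOrd.GG :=
    LinearOrder.lift' (Pool.Agent.H36Z.LowOrd.phi α) hinj
  have hle : ∀ a b : Pool.Agent.H36Z.LowOrd.GG, a ≤ b ↔
      Pool.Agent.H36Z.LowOrd.phi α a ≤ Pool.Agent.H36Z.LowOrd.phi α b := fun _ _ => Iff.rfl
  obtain ⟨μ, hμ1, hμ2⟩ := h Pool.Agent.H36Z.LowOrd.GG Pool.Agent.H36Z.LowOrd.nu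
    (by
      intro a b c hab
      rw [hle] at hab
      simp only [hle, Pool.Agent.H36Z.LowOrd.phi_mul]
      constructor <;> linarith)
    Pool.Agent.H36Z.LowOrd.nu_mul
    (by
      rintro S ⟨f, hf, hS⟩
      obtain ⟨G, hG, hGf⟩ := hlow
        (fun k : ℕ => if Pool.Agent.H36Z.LowOrd.nu (Nat.unpair k).1 ≤
          Pool.Agent.H36Z.LowOrd.nu (Nat.unpair k).2 then 1 else 0)
        (fun k => ⟨fun hk => if_pos ((hle _ _).2 hk), fun hk => if_neg (fun h' => hk ((hle _ _).1 h'))⟩)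
        f (RecursiveIn.iff_nat.1 hf)
      refine ⟨G, hG, fun n => ?_⟩
      filter_upwards [hGf n] with s hs
      rw [hs, hS])
  apply hnc
  have hpow : ∀ g : Pool.Agent.H36Z.LowOrd.GG, Computable (fun n : ℕ => μ.symm (g ^ n)) := by
    intro g
    have h1 : Computable (fun n : ℕ => (Nat.rec (μ.symm 1)
        (fun _ IH => μ.symm (μ IH * μ (μ.symm g))) n : ℕ)) :=
      Computable.nat_rec (f := fun n : ℕ => n) (g := fun _ => μ.symm 1)
        (h := fun _ p => μ.symm (μ p.2 * μ (μ.symm g))) Computable.id (Computable.const _)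
        (hμ1.comp (Computable.snd.comp Computable.snd) (Computable.const _)).to₂
    refine h1.of_eq fun n => ?_
    induction n with
    | zero => simp
    | succ n ih =>
      show μ.symm (μ _ * μ (μ.symm g)) = _
      rw [ih, pow_succ]
      simp
  obtain ⟨q, hq, hqe⟩ := ComputablePred.computable_iff.1 hμ2
  refine ComputablePred.computable_iff.2 ⟨fun p : ℕ × ℕ =>
    q (μ.symm (Pool.Agent.H36Z.LowOrd.mk 1 0 ^ p.1), μ.symm (Pool.Agent.H36Z.LowOrd.mk 0 1 ^ p.2)),
    hq.comp (((hpow _).comp Computable.fst).pair ((hpow _).comp Computable.snd)), ?_⟩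
  funext p
  rw [← congrFun hqe _]
  simp only [Equiv.apply_symm_apply, hle, Pool.Agent.H36Z.LowOrd.phi_pow]
  have e1 : Pool.Agent.H36Z.LowOrd.phi α (Pool.Agent.H36Z.LowOrd.mk 1 0) = 1 := by
    show ((1 : ℤ) : ℝ) + ((0 : ℤ) : ℝ) * α = 1
    simp
  have e2 : Pool.Agent.H36Z.LowOrd.phi α (Pool.Agent.H36Z.LowOrd.mk 0 1) = α := by
    show ((0 : ℤ) : ℝ) + ((1 : ℤ) : ℝ) * α = α
    simp
  rw [e1, e2, mul_one]

end Pool.Agent.S15440
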