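import Pool.Statements.S15461
import Pool.Agent.H163Z.ABK.Part

set_option autoImplicit false
open Pool Pool.MP_daee81_lc

namespace Pool.Agent.S15461

/-- Every well-quasi-ordered preorder P is the union of countably many subsets Q_i, each a bqo: for every sequence of maps from countable ordinals into Q_i, some earlier map embeds into a later one by a strictly increasing h with values dominated. -/
theorem result :
    ∀ (P : Type) [Preorder P],
      (∀ g : ℕ → P, ∃ m n, m < n ∧ g m ≤ g n) →
      ∃ Q : ℕ → Set P, (⋃ i, Q i) = Set.univ ∧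
        ∀ i, ∀ (o : ℕ → Ordinal.{0}) (f : ∀ n, Set.Iio (o n) → P),
          (∀ n, Countable (Set.Iio (o n))) →
          (∀ n x, f n x ∈ Q i) →
          ∃ m n, m < n ∧ ∃ h : Set.Iio (o m) → Set.Iio (o n),
            StrictMono h ∧ ∀ x, f m x ≤ f n (h x) := by
  intro P _ hP
  exact Pool.Agent.H163Z.ABK.main hP

end Pool.Agent.S15461
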