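import Pool.Statements.S15473
import Pool.Agent.H417Z.Sumset

set_option autoImplicit false
open Cardinal
open Pool Pool.MP_dcd8e0_lc

namespace Pool.Agent.S15473

/-- If the continuum is real-valued measurable, then every finite colouring of ℝ has an infinite X with all sums x+y (x,y in X) the same colour, while some countable colouring of ℝ has no such infinite X. -/
theorem result :
    (∃ m : Set ℝ → ℝ,
        (∀ s, 0 ≤ m s) ∧ m Set.univ = 1 ∧ (∀ x : ℝ, m {x} = 0) ∧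
        (∀ f : ℕ → Set ℝ, Pairwise (Function.onFun Disjoint f) →
            HasSum (fun n => m (f n)) (m (⋃ n, f n))) ∧
        (∀ S : Set (Set ℝ), Cardinal.mk S < Cardinal.continuum →
            (∀ s ∈ S, m s = 0) → m (⋃₀ S) = 0)) →
    ((∀ r : ℕ, ∀ c : ℝ → Fin r, ∃ X : Set ℝ, X.Infinite ∧
        ∃ k : Fin r, ∀ x ∈ X, ∀ y ∈ X, c (x + y) = k) ∧
     (∃ c : ℝ → ℕ, ∀ X : Set ℝ, X.Infinite →
        ∃ x ∈ X, ∃ y ∈ X, ∃ z ∈ X, ∃ w ∈ X, c (x + y) ≠ c (z + w))) := by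
  rintro ⟨m, h0, h1, h2, h3, _⟩
  obtain ⟨μ⟩ := Pool.Agent.H417Z.exists_mean m h0 h1 h2 h3
  refine ⟨fun r c => Pool.Agent.H417Z.mono_sumset μ r c, ?_⟩
  obtain ⟨c, hc⟩ := Pool.Agent.H417Z.exists_bad_colouring
  refine ⟨c, fun X hX => ?_⟩
  by_contra hcon
  push Not at hcon
  obtain ⟨x, hx, y, hy, hxy⟩ := hX.nontrivial
  exact hxy (hc x y (hcon x hx x hx x hx y hy) (hcon x hx x hx y hy y hy))

end Pool.Agent.S15473
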