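import Pool.Statements.S15480
import Pool.Agent.H115Z.Shift.Main

set_option autoImplicit false
open Pool Pool.MP_dd30de_lc

namespace Pool.Agent.S15480

/-- The negation of the preceding statement: Every conjugacy class in the unitary group of ℓ² (strong operator Borel structure) lies in a Borel set B with a probability measure μ such that μ{x : g·x·h ∈ B} = 0 for all unitaries g, h, i.e. every conjugacy class is Haar null. -/
theorem result :
    ¬ (∀ M : MeasurableSpace (unitary (lp (fun _ : ℕ => ℂ) 2 →L[ℂ] lp (fun _ : ℕ => ℂ) 2)),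
      M = MeasurableSpace.comap
        (fun U : unitary (lp (fun _ : ℕ => ℂ) 2 →L[ℂ] lp (fun _ : ℕ => ℂ) 2) =>
          fun n : ℕ => U.1 (lp.single 2 n (1 : ℂ)))
        (@MeasurableSpace.pi ℕ (fun _ => lp (fun _ : ℕ => ℂ) 2)
          (fun _ => borel (lp (fun _ : ℕ => ℂ) 2))) →
      ∀ a : unitary (lp (fun _ : ℕ => ℂ) 2 →L[ℂ] lp (fun _ : ℕ => ℂ) 2),
        ∃ B : Set (unitary (lp (fun _ : ℕ => ℂ) 2 →L[ℂ] lp (fun _ : ℕ => ℂ) 2)),
          @MeasurableSet _ M B ∧ {x | IsConj a x} ⊆ B ∧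
          ∃ μ : @MeasureTheory.Measure
              (unitary (lp (fun _ : ℕ => ℂ) 2 →L[ℂ] lp (fun _ : ℕ => ℂ) 2)) M,
            @MeasureTheory.IsProbabilityMeasure
              (unitary (lp (fun _ : ℕ => ℂ) 2 →L[ℂ] lp (fun _ : ℕ => ℂ) 2)) M μ ∧
            ∀ g h : unitary (lp (fun _ : ℕ => ℂ) 2 →L[ℂ] lp (fun _ : ℕ => ℂ) 2),
              μ {x | g * x * h ∈ B} = 0) := by
  classical
  intro H
  let e : HilbertBasis ℕ ℂ (lp (fun _ : ℕ => ℂ) 2) :=
    HilbertBasis.ofRepr (LinearIsometryEquiv.refl ℂ _)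
  have he : ∀ n, e n = lp.single 2 n (1 : ℂ) := fun n => (e.repr_symm_single n).symm
  obtain ⟨B, -, hB, μ, hμ, h0⟩ := H _ rfl
    (Classical.epsilon (Pool.Agent.H115Z.Shift.IsShift (H := lp (fun _ : ℕ => ℂ) 2)))
  letI : MeasurableSpace (lp (fun _ : ℕ => ℂ) 2) := borel _
  haveI : BorelSpace (lp (fun _ : ℕ => ℂ) 2) := ⟨rfl⟩
  letI M : MeasurableSpace (unitary (lp (fun _ : ℕ => ℂ) 2 →L[ℂ] lp (fun _ : ℕ => ℂ) 2)) :=
    MeasurableSpace.comap
      (fun U : unitary (lp (fun _ : ℕ => ℂ) 2 →L[ℂ] lp (fun _ : ℕ => ℂ) 2) =>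
        fun n : ℕ => U.1 (lp.single 2 n (1 : ℂ))) MeasurableSpace.pi
  obtain ⟨h, hh⟩ := Pool.Agent.H115Z.Shift.exists_translate μ e id (fun x y => by
    have h1 : Measurable
        (fun U : unitary (lp (fun _ : ℕ => ℂ) 2 →L[ℂ] lp (fun _ : ℕ => ℂ) 2) =>
          fun n : ℕ => U.1 (lp.single 2 n (1 : ℂ))) := comap_measurable _
    have h2 := (innerSL ℂ (e y)).continuous.measurable.comp ((measurable_pi_apply x).comp h1)
    rw [he x]
    exact h2)
  refine hh (MeasureTheory.measure_mono_null (fun x hx => ?_) (h0 h 1))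
  have hx' : Pool.Agent.H115Z.Shift.IsShift (h * x) := hx
  have := (Classical.epsilon_spec ⟨_, hx'⟩ : Pool.Agent.H115Z.Shift.IsShift _).isConj hx'
  simpa using hB this

end Pool.Agent.S15480
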