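import Pool.Statements.S15504
import Pool.Agent.H729Z.SelfLim.Main

set_option autoImplicit false
open Pool Pool.MP_e1e357_lc

namespace Pool.Agent.S15504

/-- The negation of the preceding statement: For every ideal I on ℕ (containing finite sets, not ℕ) and every sequence in Cantor space, its set of I-limit points (limits along sets not in I) is never exactly I, viewed as a subset of Cantor space. -/
theorem result :
    ¬ (∀ I : Set (Set ℕ),
      (∀ A B : Set ℕ, A ∈ I → B ⊆ A → B ∈ I) →
      (∀ A B : Set ℕ, A ∈ I → B ∈ I → A ∪ B ∈ I) →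
      (∀ A : Set ℕ, A.Finite → A ∈ I) →
      (Set.univ : Set ℕ) ∉ I →
      ∀ x : ℕ → (ℕ → Bool),
        {ℓ : ℕ → Bool | ∃ A : Set ℕ, A ∉ I ∧
            Filter.Tendsto x (Filter.atTop ⊓ Filter.principal A) (nhds ℓ)}
          ≠ {f : ℕ → Bool | {n : ℕ | f n = true} ∈ I}) := by
  intro h
  obtain ⟨I, h1, h2, h3, h4, h5⟩ := Pool.Agent.H729Z.SelfLim.exists_ideal
  exact h I h1 h2 h3 h4 _ h5

end Pool.Agent.S15504
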