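import Pool.Statements.S15538
import Pool.Agent.H436Z.ForbB

set_option autoImplicit false
open FirstOrder FirstOrder.Language
open Pool Pool.MP_e6168a_lc

namespace Pool.Agent.S15538

/-- The negation of the preceding statement: For every finite relational signature, finite forbidden family and first-order sentence φ: among labeled structures on n points admitting no homomorphism from any forbidden structure, the fraction satisfying φ converges as n grows. -/
theorem result :
    ¬ (∀ (L : FirstOrder.Language.{0, 0}), (∀ l, IsEmpty (L.Functions l)) →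
      Finite (Σ l, L.Relations l) →
      ∀ (k : ℕ) (m : Fin k → ℕ) (S : (i : Fin k) → L.Structure (Fin (m i))) (φ : L.Sentence),
        ∃ c : ℝ, Filter.Tendsto
          (fun n : ℕ =>
            (Nat.card {M : L.Structure (Fin n) //
                (∀ i, IsEmpty (@FirstOrder.Language.Hom L (Fin (m i)) (Fin n) (S i) M)) ∧
                  Fin n ⊨ φ} : ℝ) /
            (Nat.card {M : L.Structure (Fin n) //
                ∀ i, IsEmpty (@FirstOrder.Language.Hom L (Fin (m i)) (Fin n) (S i) M)} : ℝ))
          Filter.atTop (nhds c)) := by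
  intro h
  classical
  have hfin : Finite (Σ l, H436Z.Forb.LL.Relations l) := by
    refine Finite.of_surjective
      (fun s : H436Z.Forb.Sym => (⟨H436Z.Forb.ar s, ⟨s, rfl⟩⟩ : Σ l, H436Z.Forb.LL.Relations l)) ?_
    rintro ⟨l, s, rfl⟩
    exact ⟨s, rfl⟩
  have hfin2 : Finite (H436Z.Forb.LL.Structure (Fin 10)) :=
    Finite.of_equiv _ (H436Z.Forb.strEquiv (Fin 10)).symm
  let B := {S : H436Z.Forb.LL.Structure (Fin 10) // H436Z.Forb.Bad (H436Z.Forb.toSet S)}
  let e := Finite.equivFin B
  obtain ⟨c, hc⟩ := h H436Z.Forb.LL (fun l => (inferInstance : IsEmpty Empty)) hfin (Nat.card B)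
    (fun _ => 10) (fun i => (e.symm i).1) H436Z.Forb.phi
  have key : ∀ (n : ℕ) (M : H436Z.Forb.LL.Structure (Fin n)),
      (∀ i, IsEmpty (@FirstOrder.Language.Hom H436Z.Forb.LL (Fin 10) (Fin n) (e.symm i).1 M)) ↔
        ¬ H436Z.Forb.Bad (H436Z.Forb.toSet M) := by
    intro n M
    constructor
    · intro hi hb
      obtain ⟨S, hS, ⟨f⟩⟩ := H436Z.Forb.hom_of_bad M hb
      have := hi (e ⟨S, hS⟩)
      rw [Equiv.symm_apply_apply] at this
      exact this.elim f
    · intro hb i
      exact ⟨fun f => hb (H436Z.Forb.bad_of_hom _ _ f (e.symm i).2)⟩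
  apply H436Z.Forb.no_limit c
  refine hc.congr (fun n => ?_)
  congr 2
  · rw [← Nat.card_coe_set_eq]
    refine Nat.card_congr (Equiv.subtypeEquiv (H436Z.Forb.strEquiv (Fin n)) (fun M => ?_))
    rw [key n M, H436Z.Forb.realize_phi M]
    rfl
  · rw [← Nat.card_coe_set_eq]
    refine Nat.card_congr (Equiv.subtypeEquiv (H436Z.Forb.strEquiv (Fin n)) (fun M => ?_))
    rw [key n M]
    rfl

end Pool.Agent.S15538
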