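import Pool.Statements.S15593
import Pool.Agent.H619Z.TJG

set_option autoImplicit false
open Pool Pool.MP_ef54cf_lc

namespace Pool.Agent.S15593

/-- There is a countable group acting continuously on Baire space and a Borel bijection Φ from Cantor space onto Baire space sending Turing equivalence exactly to orbit equivalence, with Φ(x) Turing-equivalent to the jump of x for all x above some z. -/
theorem result :
    ∃ (G : Type) (_ : Group G) (_ : Countable G) (_ : MulAction G (ℕ → ℕ)),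
      (∀ g : G, Continuous (fun y : ℕ → ℕ => g • y)) ∧
      ∃ Φ : (ℕ → Bool) ≃ᵐ (ℕ → ℕ),
        (∀ x y : ℕ → Bool,
          (RecursiveIn {PFun.lift (fun n => (x n).toNat)} (PFun.lift (fun n => (y n).toNat)) ∧
           RecursiveIn {PFun.lift (fun n => (y n).toNat)} (PFun.lift (fun n => (x n).toNat)))
            ↔ ∃ g : G, g • Φ x = Φ y) ∧
        ∃ z : ℕ → Bool, ∀ x : ℕ → Bool,
          RecursiveIn {PFun.lift (fun n => (x n).toNat)} (PFun.lift (fun n => (z n).toNat)) →
          ∃ A : Set ℕ,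
            (∃ f : ℕ →. ℕ, RecursiveIn {PFun.lift (fun n => (x n).toNat)} f ∧
                ∀ n, n ∈ A ↔ (f n).Dom) ∧
            (∀ B : Set ℕ,
              (∃ f : ℕ →. ℕ, RecursiveIn {PFun.lift (fun n => (x n).toNat)} f ∧
                  ∀ n, n ∈ B ↔ (f n).Dom) →
              RecursiveIn {PFun.lift (A.indicator (fun _ => (1 : ℕ)))}
                (PFun.lift (B.indicator (fun _ => (1 : ℕ))))) ∧
            RecursiveIn {PFun.lift (A.indicator (fun _ => (1 : ℕ)))} (PFun.lift (Φ x)) ∧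
            RecursiveIn {PFun.lift (Φ x)} (PFun.lift (A.indicator (fun _ => (1 : ℕ)))) := by
  obtain ⟨G, i1, i2, i3, hc, hG⟩ := H619Z.TJ.exists_group
  obtain ⟨Φ, h1, z, hz⟩ := H619Z.TJ.exists_iso
  refine ⟨G, i1, i2, i3, hc, Φ, fun x y => ?_, z, fun x hx => ?_⟩
  · rw [← hG, ← h1, RecursiveIn.iff_nat, RecursiveIn.iff_nat]
    rfl
  · rw [RecursiveIn.iff_nat] at hx
    obtain ⟨y, hy, m, -, hm⟩ := hz x hx
    refine ⟨H619Z.TJ.JS (H619Z.TJ.tn y), ⟨H619Z.TJ.wit (H619Z.TJ.tn y), ?_, fun n => ?_⟩,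
      ?_, ?_, ?_⟩
    · rw [RecursiveIn.iff_nat]
      exact H619Z.TJ.recIn_wit hy.1
    · rw [H619Z.TJ.wit_dom]
      rfl
    · rintro B ⟨f, hf, hB⟩
      rw [RecursiveIn.iff_nat] at hf ⊢
      refine H619Z.TJ.ce_le_jump (Nat.RecursiveIn.subst hf ?_) hB
      intro g hg
      rw [Set.mem_singleton_iff] at hg
      subst hg
      exact hy.2
    · rw [RecursiveIn.iff_nat]
      exact ((H619Z.TJ.TR_of_eventually hm).trans (H619Z.TJ.tr_pur_jj y)).trans
        (H619Z.TJ.jj_le_jump y)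
    · rw [RecursiveIn.iff_nat]
      exact ((H619Z.TJ.jump_le_jj y).trans (H619Z.TJ.tr_jj_pur y)).trans
        (H619Z.TJ.TR_of_eventually fun n hn => (hm n hn).symm)

end Pool.Agent.S15593
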