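import Pool.Statements.S15610
import Pool.Agent.H944Z.UC.Chain

set_option autoImplicit false
open Pool Pool.MP_f24711_lc

namespace Pool.Agent.S15610

open Set FirstOrder FirstOrder.Language Pool.Agent.H944Z.UC

inductive Fn : ℕ → Type
  | f (n : ℕ) : Fn 2

inductive Rl : ℕ → Type
  | r : Rl 2

/-- countably many binary function symbols and one binary relation symbol -/
abbrev LL : FirstOrder.Language.{0, 0} := ⟨Fn, Rl⟩

instance (n : ℕ) : Countable (LL.Functions n) :=
  Function.Injective.countable (f := fun g : Fn n => match g with | .f k => k) (by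
    intro a b h
    cases a
    cases b
    simp only at h
    rw [h])

instance (n : ℕ) : Countable (LL.Relations n) :=
  Function.Injective.countable (f := fun _ : Rl n => (0 : ℕ)) (by
    intro a b _
    cases a
    cases b
    rfl)

instance : IsEmpty LL.Constants := ⟨fun c => by cases c⟩

instance : IsEmpty (LL.Relations 0) := ⟨fun c => by cases c⟩

def toStr (M : Type) [LL.Structure M] : Str M :=
  ⟨fun n x y => Structure.funMap (L := LL) (Fn.f n) ![x, y],
    fun x y => Structure.RelMap (L := LL) Rl.r ![x, y]⟩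

@[reducible] def ofStr {M : Type} (S : Str M) : LL.Structure M where
  funMap := fun g v => match g, v with | .f n, v => S.f n (v 0) (v 1)
  RelMap := fun g v => match g, v with | .r, v => S.r (v 0) (v 1)

theorem toStr_ofStr {M : Type} (S : Str M) : @toStr M (ofStr S) = S := rfl

theorem vec2 {M : Type} (v : Fin 2 → M) : v = ![v 0, v 1] := by
  funext i
  fin_cases i <;> rfl

theorem emb_of_embedding {M N : Type} [LL.Structure M] [LL.Structure N] (e : M ↪[LL] N) :
    Emb (toStr M) univ (toStr N) e := by
  refine ⟨e.injective.injOn, fun n x _ y _ => ?_, fun x _ y _ => ?_⟩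
  · simp only [toStr]
    rw [e.map_fun, vec2 (e ∘ ![x, y])]
    rfl
  · simp only [toStr]
    rw [← e.map_rel, vec2 (e ∘ ![x, y])]
    rfl

theorem cl_sub {M : Type} [LL.Structure M] (S : LL.Substructure M) : Cl (toStr M) S := by
  intro n x hx y hy
  refine S.fun_mem (Fn.f n) ![x, y] fun i => ?_
  fin_cases i
  · exact hx
  · exact hy

/-- the substructure on a closed set -/
def subOf {M : Type} [LL.Structure M] (X : Set M) (hX : Cl (toStr M) X) : LL.Substructure M where
  carrier := X
  fun_mem := by
    intro n g v hv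
    cases g with
    | f k =>
      rw [vec2 v]
      exact hX k _ (hv 0) _ (hv 1)

/-- the embedding given by a map on a substructure -/
def embOf {M N : Type} [LL.Structure M] [LL.Structure N] (S : LL.Substructure M) (g : M → N)
    (hg : Emb (toStr M) S (toStr N) g) : S ↪[LL] N where
  toFun := fun x => g x
  inj' := fun x y h => Subtype.ext (hg.inj x.2 y.2 h)
  map_fun' := by
    intro n φ v
    cases φ with
    | f k =>
      have := hg.mapf k _ (v 0).2 _ (v 1).2
      simp only [toStr] at this
      rw [vec2 ((fun x : S => g x) ∘ v)]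
      refine Eq.trans ?_ this
      congr 1
      rw [vec2 v]
      change Structure.funMap (L := LL) (Fn.f k) (fun i => ((![v 0, v 1] i : S) : M)) = _
      congr 1
      funext i
      fin_cases i <;> rfl
  map_rel' := by
    intro n φ v
    cases φ with
    | r =>
      have := hg.mapr _ (v 0).2 _ (v 1).2
      simp only [toStr] at this
      rw [vec2 ((fun x : S => g x) ∘ v)]
      refine this.symm.trans ?_
      rw [vec2 v]
      change _ ↔ Structure.RelMap (L := LL) Rl.r (fun i => ((![v 0, v 1] i : S) : M))
      have e : (fun i => ((![v 0, v 1] i : S) : M)) = ![(v 0 : M), (v 1 : M)] := by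
        funext i
        fin_cases i <;> rfl
      rw [e]
      rfl

/-- the universal class -/
def KK (M : Type) [LL.Structure M] : Prop := KOn (toStr M) univ

theorem KK_sub_iff {M : Type} [LL.Structure M] (S : LL.Substructure M) :
    KK S ↔ KOn (toStr M) S := by
  have h := emb_of_embedding S.subtype
  constructor
  · intro hK
    have := KOn.push hK h
    rwa [show S.subtype '' univ = (S : Set M) by simp] at this
  · intro hK
    exact hK.pullback h (fun _ _ _ _ _ => trivial) (fun x _ => x.2)

theorem extPair {M N : Type} [LL.Structure M] [LL.Structure N] [Infinite N] (hM : KK M)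
    (hN : KK N) : LL.IsExtensionPair M N := by
  classical
  rw [isExtensionPair_iff_exists_embedding_closure_singleton_sup]
  intro S hS f m
  obtain ⟨t, ht⟩ := hS
  obtain ⟨C, c1, -, c3⟩ := hM.lf (insert m t) (subset_univ _)
  have hle : Substructure.closure LL {m} ⊔ S ≤ subOf C c3 := by
    refine sup_le ?_ ?_
    · rw [Substructure.closure_le, singleton_subset_iff]
      exact c1 (Finset.mem_insert_self _ _)
    · rw [← ht, Substructure.closure_le]
      exact fun x hx => c1 (Finset.mem_insert_of_mem hx)
  let a : M → N := fun x => if h : x ∈ S then f ⟨x, h⟩ else Classical.arbitrary N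
  have ha : ∀ (x : M) (h : x ∈ S), a x = f ⟨x, h⟩ := fun x h => by simp only [a, dif_pos h]
  have hf := emb_of_embedding f
  have hi := emb_of_embedding S.subtype
  have hae : Emb (toStr M) S (toStr N) a := by
    refine ⟨fun x hx y hy h => ?_, fun n x hx y hy => ?_, fun x hx y hy => ?_⟩
    · rw [ha x hx, ha y hy] at h
      exact congrArg Subtype.val (f.injective h)
    · rw [ha x hx, ha y hy, ha _ (cl_sub S n x hx y hy), ← hf.mapf n _ trivial _ trivial]
      congr 1
      exact Subtype.ext (hi.mapf n ⟨x, hx⟩ trivial ⟨y, hy⟩ trivial).symm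
    · rw [ha x hx, ha y hy, ← hf.mapr _ trivial _ trivial]
      exact (hi.mapr ⟨x, hx⟩ trivial ⟨y, hy⟩ trivial).symm
  obtain ⟨g, g1, g2⟩ := rich hN (hM.mono (subset_univ (C : Set M)) c3)
    (A := S) (fun x hx => hle ((le_sup_right : S ≤ _) hx)) (cl_sub S) hae
  refine ⟨embOf _ g (g1.mono hle), ?_⟩
  ext ⟨x, hx⟩
  change f ⟨x, hx⟩ = g x
  rw [g2 hx, ha x hx]

theorem exists_bound {W : Type} [LinearOrder W] (hW : ∀ β : W, (Iio β).Countable)
    (hu : ¬ (univ : Set W).Countable) {s : Set W} (hs : s.Countable) : ∃ β, ∀ γ ∈ s, γ < β := by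
  by_contra h
  push Not at h
  apply hu
  refine (hs.biUnion (t := fun γ _ => insert γ (Iio γ)) fun γ _ => (hW γ).insert γ).mono ?_
  intro β _
  obtain ⟨γ, h1, h2⟩ := h β
  exact mem_iUnion₂.mpr ⟨γ, h1, eq_or_lt_of_le h2⟩

/-- the restriction of a structure to a closed set -/
def restr {Ω : Type} (S : Str Ω) (U : Set Ω) (h : Cl S U) : Str U :=
  ⟨fun n x y => ⟨S.f n x y, h n _ x.2 _ y.2⟩, fun x y => S.r x y⟩

theorem restr_good {Ω : Type} {S : Str Ω} {U : Set Ω} (h : KOn S U) :
    KOn (restr S U h.cl) univ :=
  h.pullback (e := Subtype.val) ⟨Subtype.val_injective.injOn, fun _ _ _ _ _ => rfl,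
    fun _ _ _ _ => Iff.rfl⟩ (fun _ _ _ _ _ => trivial) (fun x _ => x.2)

/-- The negation of the preceding statement: For a countable language, any class of structures closed under isomorphism, substructures and unions of nonempty chains, in which all countably infinite members are isomorphic and some member has size aleph_1, has all its size-aleph_1 members isomorphic. -/
theorem result :
    ¬ (∀ (L : FirstOrder.Language.{0, 0}), L.card ≤ Cardinal.aleph0 →
    ∀ (K : ∀ (M : Type) [L.Structure M], Prop),
      (∀ (M N : Type) [L.Structure M] [L.Structure N],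
          Nonempty (L.Equiv M N) → K M → K N) →
      (∀ (M : Type) [L.Structure M] (S : L.Substructure M), K M → K ↥S) →
      (∀ (M : Type) [L.Structure M] (C : Set (L.Substructure M)),
          C.Nonempty → IsChain (· ≤ ·) C → (∀ S ∈ C, K ↥S) → K ↥(sSup C)) →
      (∀ (M N : Type) [L.Structure M] [L.Structure N], K M → K N →
          Cardinal.mk M = Cardinal.aleph0 → Cardinal.mk N = Cardinal.aleph0 →
          Nonempty (L.Equiv M N)) →
      (∃ (M : Type) (i : L.Structure M), @K M i ∧ Cardinal.mk M = Cardinal.aleph 1) →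
      ∀ (M N : Type) [L.Structure M] [L.Structure N], K M → K N →
        Cardinal.mk M = Cardinal.aleph 1 → Cardinal.mk N = Cardinal.aleph 1 →
        Nonempty (L.Equiv M N)) := by
  intro H
  let W : Type := (Cardinal.aleph 1).ord.ToType
  have hWc : Cardinal.mk W = Cardinal.aleph 1 := Cardinal.mk_ord_toType _
  have hW : ∀ β : W, (Iio β).Countable := fun β =>
    (Cardinal.countable_iff_lt_aleph_one _).mpr (Cardinal.mk_Iio_toType_ord_lt β)
  have hu : ¬ (univ : Set W).Countable := by
    rw [Cardinal.countable_iff_lt_aleph_one, Cardinal.mk_univ, hWc]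
    exact lt_irrefl _
  have hinf : Infinite W := by
    rw [Cardinal.infinite_iff, hWc]
    exact Cardinal.aleph0_le_aleph 1
  let s : ℕ → W := Infinite.natEmbedding W
  have hs : Function.Injective s := (Infinite.natEmbedding W).injective
  obtain ⟨β₀, hβ₀⟩ := exists_bound hW hu (countable_range s)
  have hβ₀' : ∀ k, s k ≤ β₀ := fun k => (hβ₀ _ (mem_range_self k)).le
  obtain ⟨S₁, U₁, k1, u1, p1⟩ := long_chain hW False s hs β₀ hβ₀'
  obtain ⟨S₂, U₂, k2, u2, p2⟩ := long_chain hW True s hs β₀ hβ₀'
  have hcard : ∀ U : Set (W × ℕ), (∀ β, (β, 0) ∈ U) → Cardinal.mk U = Cardinal.aleph 1 := by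
    intro U hU
    apply le_antisymm
    · refine (Cardinal.mk_set_le U).trans ?_
      rw [Cardinal.mk_prod, Cardinal.lift_id, Cardinal.lift_id, hWc, Cardinal.mk_nat,
        Cardinal.mul_eq_left (Cardinal.aleph0_le_aleph 1) (Cardinal.aleph0_le_aleph 1)
          Cardinal.aleph0_ne_zero]
    · rw [← hWc]
      exact Cardinal.mk_le_of_injective (f := fun β : W => (⟨(β, 0), hU β⟩ : U))
        (fun a b h => (Prod.ext_iff.mp (congrArg Subtype.val h)).1)
  let i1 : LL.Structure U₁ := ofStr (restr S₁ U₁ k1.cl)
  let i2 : LL.Structure U₂ := ofStr (restr S₂ U₂ k2.cl)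
  have K1 : KK U₁ := restr_good k1
  have K2 : KK U₂ := restr_good k2
  obtain ⟨e⟩ := H LL (Cardinal.mk_le_aleph0_iff.mpr (by
      unfold Language.Symbols; infer_instance)) (fun M _ => KK M)
    (by
      rintro M N _ _ ⟨e⟩ hM
      exact KOn.pullback hM (emb_of_embedding e.symm.toEmbedding) (fun _ _ _ _ _ => trivial)
        (fun _ _ => trivial))
    (fun M _ S hM => (KK_sub_iff S).mpr (KOn.mono hM (subset_univ _) (cl_sub S)))
    (by
      intro M _ C hne hc hK
      have : Nonempty C := hne.to_subtype
      obtain ⟨T, t1, t2⟩ := limit (fun i : C => (i.1 : Set M)) (fun _ => toStr M)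
        (fun i j => by
          rcases hc.total i.2 j.2 with h | h
          · exact ⟨j, ⟨h, Agree.refl _ _⟩, subset_refl _, Agree.refl _ _⟩
          · exact ⟨i, ⟨subset_refl _, Agree.refl _ _⟩, h, Agree.refl _ _⟩)
        (fun i => (KK_sub_iff i.1).mp (hK i.1 i.2))
      have e : ((sSup C : LL.Substructure M) : Set M) = ⋃ i : C, (i.1 : Set M) := by
        ext x
        rw [SetLike.mem_coe, Substructure.mem_sSup_of_directedOn hne hc.directedOn]
        simp
      rw [KK_sub_iff, e]
      refine t2.agree ?_
      intro x hx y hy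
      obtain ⟨i, hi⟩ := mem_iUnion.mp hx
      obtain ⟨j, hj⟩ := mem_iUnion.mp hy
      rcases hc.total i.2 j.2 with h | h
      · exact (t1 j).symm x (h hi) y hj
      · exact (t1 i).symm x hi y (h hj))
    (by
      intro M N _ _ hM hN cM cN
      have : Countable M := Cardinal.mk_le_aleph0_iff.mp cM.le
      have : Countable N := Cardinal.mk_le_aleph0_iff.mp cN.le
      have : Infinite M := Cardinal.infinite_iff.mpr cM.ge
      have : Infinite N := Cardinal.infinite_iff.mpr cN.ge
      obtain ⟨f, -⟩ := equiv_between_cg Structure.cg_of_countable Structure.cg_of_countable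
        default (extPair hM hN) (extPair hN hM)
      exact ⟨f⟩)
    ⟨U₁, i1, K1, hcard U₁ u1⟩ U₁ U₂ K1 K2 (hcard U₁ u1) (hcard U₂ u2)
  have he := emb_of_embedding e.toEmbedding
  -- a countable set of levels to be avoided in the second model
  have hA : ((fun d : U₁ => (e d).1.1) '' {d | d.1.1 ≤ β₀}).Countable := by
    refine Set.Countable.image ?_ _
    refine Set.Countable.preimage_of_injOn (f := Subtype.val) (s := insert β₀ (Iio β₀) ×ˢ univ)
      (((hW β₀).insert β₀).prod countable_univ) Subtype.val_injective.injOn |>.mono ?_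
    intro d hd
    exact mem_prod.mpr ⟨eq_or_lt_of_le hd, trivial⟩
  obtain ⟨β, hβ⟩ := exists_bound hW hu hA
  let d : U₁ := e.symm ⟨(β, 0), u2 β⟩
  have hd : e d = ⟨(β, 0), u2 β⟩ := e.apply_symm_apply _
  have hlt : β₀ < d.1.1 := by
    by_contra h
    have := hβ _ ⟨d, not_lt.mp h, rfl⟩
    simp only [hd] at this
    exact lt_irrefl _ this
  obtain ⟨k, hk⟩ := (p1 d.1 d.2).2 not_false hlt
  apply hk
  let m : U₁ := ⟨(s k, 0), u1 _⟩
  have h1 := (p2 (β, 0) (u2 β)).1 trivial rfl (e m).1 (e m).2 (hβ _ ⟨m, hβ₀' k, rfl⟩)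
  have h2 := he.mapr d trivial m trivial
  refine h2.mpr ?_
  change (toStr U₂).r (e d) (e m)
  rw [hd]
  exact h1

end Pool.Agent.S15610
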