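import Pool.Statements.S15651
import Pool.Agent.H228Z.Cototal

set_option autoImplicit false
open Pool Pool.MP_fccb05_lc

namespace Pool.Agent.S15651

/-- There is an effective Π⁰₂ subspace of P(ℕ) (given by c.e. U, V) whose points are pairwise ⊆-incomparable (T₁), containing a point A that is enumeration-equivalent to no cototal set C (C ≤ₑ complement of C). -/
theorem result :
    ∃ (U V : ℕ × List ℕ → Prop), REPred U ∧ REPred V ∧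
      (∀ X Y : Set ℕ,
        (∀ i : ℕ, (∃ l : List ℕ, U (i, l) ∧ ∀ k ∈ l, k ∈ X) →
          ∃ l : List ℕ, V (i, l) ∧ ∀ k ∈ l, k ∈ X) →
        (∀ i : ℕ, (∃ l : List ℕ, U (i, l) ∧ ∀ k ∈ l, k ∈ Y) →
          ∃ l : List ℕ, V (i, l) ∧ ∀ k ∈ l, k ∈ Y) →
        X ⊆ Y → X = Y) ∧
      ∃ A : Set ℕ,
        (∀ i : ℕ, (∃ l : List ℕ, U (i, l) ∧ ∀ k ∈ l, k ∈ A) →
          ∃ l : List ℕ, V (i, l) ∧ ∀ k ∈ l, k ∈ A) ∧
        ∀ C : Set ℕ,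
          (∃ W : ℕ × List ℕ → Prop, REPred W ∧
            ∀ n : ℕ, n ∈ C ↔ ∃ l : List ℕ, W (n, l) ∧ ∀ k ∈ l, k ∉ C) →
          ¬ ((∃ W : ℕ × List ℕ → Prop, REPred W ∧
                ∀ n : ℕ, n ∈ A ↔ ∃ l : List ℕ, W (n, l) ∧ ∀ k ∈ l, k ∈ C) ∧
             (∃ W : ℕ × List ℕ → Prop, REPred W ∧
                ∀ n : ℕ, n ∈ C ↔ ∃ l : List ℕ, W (n, l) ∧ ∀ k ∈ l, k ∈ A)) :=
  Pool.Agent.H228Z.Cototal.main

end Pool.Agent.S15651
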