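import Pool.Statements.S15670
import Pool.Agent.H1Z.LP.AC

set_option autoImplicit false
open MeasureTheory
open Pool Pool.MP_0d4f18_mp

namespace Pool.Agent.S15670

/-- The negation of the preceding statement: If V is limit-periodic and some vector's spectral measure for H_V has a nonzero absolutely continuous part, then for every W in the hull of V, every spectral measure of H_W is absolutely continuous. Spectral measures are identified by their moments. -/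
theorem result :
    ¬ (∀ V : ℤ → ℝ,
      (∀ ε : ℝ, 0 < ε → ∃ p : ℤ, p ≠ 0 ∧ ∃ Q : ℤ → ℝ,
          Function.Periodic Q p ∧ ∀ n : ℤ, |V n - Q n| < ε) →
      (∃ φ : ℤ → ℂ, Summable (fun n : ℤ => ‖φ n‖ ^ 2) ∧
        ∃ μ : Measure ℝ, IsFiniteMeasure μ ∧
          (∀ k : ℕ, Integrable (fun x : ℝ => x ^ k) μ ∧
            ((∫ x, x ^ k ∂μ : ℝ) : ℂ) =
              ∑' n : ℤ, (starRingEnd ℂ) (φ n) *
                (Nat.iterate (fun ψ : ℤ → ℂ => fun m : ℤ =>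
                  ψ (m + 1) + ψ (m - 1) + (V m : ℂ) * ψ m) k φ) n) ∧
          ¬ μ ⟂ₘ volume) →
      ∀ W : ℤ → ℝ,
        (∀ ε : ℝ, 0 < ε → ∃ k : ℤ, ∀ n : ℤ, |W n - V (n + k)| < ε) →
        ∀ φ : ℤ → ℂ, Summable (fun n : ℤ => ‖φ n‖ ^ 2) →
          ∀ μ : Measure ℝ, IsFiniteMeasure μ →
            (∀ k : ℕ, Integrable (fun x : ℝ => x ^ k) μ ∧
              ((∫ x, x ^ k ∂μ : ℝ) : ℂ) =
                ∑' n : ℤ, (starRingEnd ℂ) (φ n) *
                  (Nat.iterate (fun ψ : ℤ → ℂ => fun m : ℤ =>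
                    ψ (m + 1) + ψ (m - 1) + (W m : ℂ) * ψ m) k φ) n) →
            μ ≪ volume) := by
  intro h
  obtain ⟨V, hL, C, hC, hV⟩ := Pool.Agent.H1Z.LP.ac_main
  obtain ⟨H, hH⟩ := Pool.Agent.H1Z.LP.exists_op hC
  obtain ⟨μ, h0⟩ := Pool.Agent.H1Z.LP.exists_spec (hH.sa hC) (Pool.Agent.H1Z.LP.dl 0)
  obtain ⟨a1, a2⟩ := hV H hH μ h0
  have hm : ∀ k : ℕ, Integrable (fun x : ℝ => x ^ k) μ ∧
      ((∫ x, x ^ k ∂μ : ℝ) : ℂ) = ∑' n : ℤ, (starRingEnd ℂ) (Pool.Agent.H1Z.LP.dl 0 n) *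
        (Nat.iterate (fun ψ : ℤ → ℂ => fun m : ℤ =>
          ψ (m + 1) + ψ (m - 1) + (V m : ℂ) * ψ m) k (Pool.Agent.H1Z.LP.dl 0)) n := by
    intro k
    refine ⟨(h0.2 k).1, ?_⟩
    rw [(h0.2 k).2, lp.inner_eq_tsum, hH.pow_apply]
    congr 1
    funext n
    rw [RCLike.inner_apply, mul_comm]
    rfl
  have h2 := h V (fun ε hε => by
      obtain ⟨p, hp, Q, hQ, hQ2⟩ := hL ε hε
      exact ⟨p, by exact_mod_cast hp.ne', Q, hQ, hQ2⟩)
    ⟨_, Pool.Agent.H1Z.LP.summable_sq (Pool.Agent.H1Z.LP.dl 0), μ, h0.1, hm, a2⟩ V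
    (fun ε hε => ⟨0, fun n => by simpa using hε⟩) _
    (Pool.Agent.H1Z.LP.summable_sq (Pool.Agent.H1Z.LP.dl 0)) μ h0.1 hm
  exact a1 (h2 (Real.volume_singleton (a := 0)))

end Pool.Agent.S15670
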