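import Pool.Statements.S15686
import Pool.Agent.H353Z.Hal

set_option autoImplicit false
open Pool Pool.MP_1f8098_mp

namespace Pool.Agent.S15686

open Pool.Agent.H353Z.Hal

/-- The negation of the preceding statement: For each ℓ≥2 there is c>0 such that for all N, every symmetric (ℓ even) or antisymmetric (ℓ odd) LLL state of degree ≤ℓN(N−1)/2 orthogonal to the kernel of the relative-angular-momentum-(ℓ−2) pair Hamiltonian has energy ≥ c times its squared norm. -/
theorem result :
    ¬ (∀ ℓ : ℕ, 2 ≤ ℓ → ∃ c : ℝ, 0 < c ∧ ∀ N : ℕ, ∀ ψ : MvPolynomial (Fin N) ℂ,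
      (∀ σ : Equiv.Perm (Fin N),
        MvPolynomial.rename (⇑σ) ψ = (((Equiv.Perm.sign σ : ℤ) : ℂ) ^ ℓ) • ψ) →
      ψ.totalDegree ≤ ℓ * N * (N - 1) / 2 →
      (∀ φ : MvPolynomial (Fin N) ℂ,
        (∀ σ : Equiv.Perm (Fin N),
          MvPolynomial.rename (⇑σ) φ = (((Equiv.Perm.sign σ : ℤ) : ℂ) ^ ℓ) • φ) →
        φ.totalDegree ≤ ℓ * N * (N - 1) / 2 →
        (∀ i j : Fin N, i < j →
          ∀ α ∈ (MvPolynomial.aeval
              (fun k : Fin N => (if k = i then
                  MvPolynomial.C (((Real.sqrt 2 : ℝ) : ℂ)⁻¹) *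
                    (MvPolynomial.X i + MvPolynomial.X j)
                else if k = j then
                  MvPolynomial.C (((Real.sqrt 2 : ℝ) : ℂ)⁻¹) *
                    (MvPolynomial.X i - MvPolynomial.X j)
                else MvPolynomial.X k : MvPolynomial (Fin N) ℂ)) φ).support,
            α j ≠ ℓ - 2) →
        φ.support.sum (fun α => (starRingEnd ℂ) (MvPolynomial.coeff α φ) *
          MvPolynomial.coeff α ψ * ∏ k : Fin N, ((Nat.factorial (α k) : ℕ) : ℂ)) = 0) →
      c * ψ.support.sum (fun α => ‖MvPolynomial.coeff α ψ‖ ^ 2 *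
          ∏ k : Fin N, ((Nat.factorial (α k) : ℕ) : ℝ)) ≤
        ∑ i : Fin N, ∑ j : Fin N,
          (if i < j then
            (Finset.filter (fun α => α j = ℓ - 2)
              (MvPolynomial.aeval
                (fun k : Fin N => (if k = i then
                    MvPolynomial.C (((Real.sqrt 2 : ℝ) : ℂ)⁻¹) *
                      (MvPolynomial.X i + MvPolynomial.X j)
                  else if k = j then
                    MvPolynomial.C (((Real.sqrt 2 : ℝ) : ℂ)⁻¹) *
                      (MvPolynomial.X i - MvPolynomial.X j)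
                  else MvPolynomial.X k : MvPolynomial (Fin N) ℂ)) ψ).support).sum
              (fun α => ‖MvPolynomial.coeff α
                  (MvPolynomial.aeval
                    (fun k : Fin N => (if k = i then
                        MvPolynomial.C (((Real.sqrt 2 : ℝ) : ℂ)⁻¹) *
                          (MvPolynomial.X i + MvPolynomial.X j)
                      else if k = j then
                        MvPolynomial.C (((Real.sqrt 2 : ℝ) : ℂ)⁻¹) *
                          (MvPolynomial.X i - MvPolynomial.X j)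
                      else MvPolynomial.X k : MvPolynomial (Fin N) ℂ)) ψ)‖ ^ 2 *
                ∏ k : Fin N, ((Nat.factorial (α k) : ℕ) : ℝ))
          else 0)) := by
  intro h
  obtain ⟨c, hc, h⟩ := h 4 (by norm_num)
  obtain ⟨r, hr, hlt⟩ := exists_N c hc
  have hsign : ∀ σ : Equiv.Perm (Fin (r + 2)), (((Equiv.Perm.sign σ : ℤ) : ℂ) ^ 4) = 1 := by
    intro σ
    rcases Int.units_eq_one_or (Equiv.Perm.sign σ) with h | h <;> rw [h] <;> norm_num
  have hs0 : (((Real.sqrt 2 : ℝ) : ℂ)⁻¹) ≠ 0 := by
    have : Real.sqrt 2 ≠ 0 := by positivity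
    exact inv_ne_zero (by exact_mod_cast this)
  have hs2 : ‖(((Real.sqrt 2 : ℝ) : ℂ)⁻¹)‖ ^ 2 = 1 / 2 := by
    rw [norm_inv, Complex.norm_real, inv_pow, Real.norm_eq_abs, sq_abs,
      Real.sq_sqrt (by norm_num), one_div]
  have key := h (r + 2) (psi (r + 2)) (fun σ => by rw [hsign, one_smul, psi_sym])
    (le_trans psi_deg (by
      rw [Nat.le_div_iff_mul_le (by norm_num)]
      have : r + 2 - 1 = r + 1 := by omega
      rw [this]
      nlinarith))
    (fun φ h1 _ h3 => psi_orth _ hs0 φ (fun σ => by rw [h1 σ, hsign, one_smul])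
      (fun i j hij α hα => by
        by_contra hne
        exact h3 i j hij α (MvPolynomial.mem_support_iff.2 hne) hα))
  have hup : ∀ i j : Fin (r + 2), (if i < j then
      (Finset.filter (fun α => α j = 2) (Tm (((Real.sqrt 2 : ℝ) : ℂ)⁻¹) i j
        (psi (r + 2))).support).sum
      (fun α => ‖MvPolynomial.coeff α (Tm (((Real.sqrt 2 : ℝ) : ℂ)⁻¹) i j (psi (r + 2)))‖ ^ 2 *
        ∏ k : Fin (r + 2), ((Nat.factorial (α k) : ℕ) : ℝ)) else 0) ≤
      4 * ((r + 2 : ℕ) : ℝ) ^ 2 / 2 ^ (r + 2) * (r + 2).factorial + ((r + 2 : ℕ) : ℝ) ^ 2 := by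
    intro i j
    split_ifs with hij
    · exact energy_pair _ hs2 r hr hij.ne
    · positivity
  have hsum := Finset.sum_le_sum (s := Finset.univ) fun i _ =>
    Finset.sum_le_sum (s := Finset.univ) fun j _ => hup i j
  have hlow := mul_le_mul_of_nonneg_left (psi_norm (N := r + 2) (by omega)) hc.le
  have h5 := le_trans (le_trans hlow key) hsum
  simp only [Finset.sum_const, Finset.card_univ, Fintype.card_fin, nsmul_eq_mul] at h5
  nlinarith

end Pool.Agent.S15686
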