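import Pool.Statements.S15704
import Pool.Agent.H1Z.LP.AC

set_option autoImplicit false
open Pool Pool.MP_3ab43d_mp

namespace Pool.Agent.S15704

/-- The negation of the preceding statement: For every limit-periodic real potential V on ℤ, if the discrete Schrödinger operator has nonempty absolutely continuous spectrum, then its spectrum is purely absolutely continuous (spectral measures of δ_0 and δ_1 are absolutely continuous). -/
theorem result :
    ¬ (∀ V : ℤ → ℝ,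
      (∀ ε : ℝ, 0 < ε → ∃ p : ℕ, 0 < p ∧ ∃ W : ℤ → ℝ,
          (∀ n : ℤ, W (n + (p : ℤ)) = W n) ∧ ∀ n : ℤ, |V n - W n| < ε) →
      ∀ μ0 μ1 : MeasureTheory.Measure ℝ,
        MeasureTheory.IsFiniteMeasure μ0 →
        MeasureTheory.IsFiniteMeasure μ1 →
        (∀ n : ℕ, MeasureTheory.Integrable (fun x : ℝ => x ^ n) μ0 ∧
          ∫ x, x ^ n ∂μ0 =
            ((fun u : ℤ → ℝ => fun m : ℤ => u (m + 1) + u (m - 1) + V m * u m)^[n]
              (Pi.single (0 : ℤ) (1 : ℝ) : ℤ → ℝ)) 0) →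
        (∀ n : ℕ, MeasureTheory.Integrable (fun x : ℝ => x ^ n) μ1 ∧
          ∫ x, x ^ n ∂μ1 =
            ((fun u : ℤ → ℝ => fun m : ℤ => u (m + 1) + u (m - 1) + V m * u m)^[n]
              (Pi.single (1 : ℤ) (1 : ℝ) : ℤ → ℝ)) 1) →
        ¬ MeasureTheory.Measure.MutuallySingular (μ0 + μ1) MeasureTheory.volume →
        MeasureTheory.Measure.AbsolutelyContinuous (μ0 + μ1) MeasureTheory.volume) := by
  intro h
  obtain ⟨V, hL, C, hC, hV⟩ := Pool.Agent.H1Z.LP.ac_main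
  obtain ⟨H, hH⟩ := Pool.Agent.H1Z.LP.exists_op hC
  obtain ⟨μ0, h0⟩ := Pool.Agent.H1Z.LP.exists_spec (hH.sa hC) (Pool.Agent.H1Z.LP.dl 0)
  obtain ⟨μ1, h1⟩ := Pool.Agent.H1Z.LP.exists_spec (hH.sa hC) (Pool.Agent.H1Z.LP.dl 1)
  obtain ⟨a1, a2⟩ := hV H hH μ0 h0
  have h2 := h V hL μ0 μ1 h0.1 h1.1 (hH.spec_dl h0) (hH.spec_dl h1)
    (fun hs => a2 (MeasureTheory.Measure.MutuallySingular.add_left_iff.1 hs).1)
  have h3 := h2 (Real.volume_singleton (a := 0))
  rw [MeasureTheory.Measure.add_apply] at h3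
  exact a1 (add_eq_zero.1 h3).1

end Pool.Agent.S15704
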