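import Pool.Statements.S15715
import Pool.Agent.H376Z.TB.Gap

set_option autoImplicit false
open Pool Pool.MP_436870_mp

namespace Pool.Agent.S15715

/-- For all equal masses m>0 and E>0 there is ε>0 such that no bounded, collision-free, all-time planar three-body solution with centre of mass 0, angular momentum 0 and energy −E keeps U(q(t)) strictly between 2(E−ε) and 2(E+ε) for all t. -/
theorem result :
    ∀ m : ℝ, 0 < m → ∀ E : ℝ, 0 < E → ∃ ε : ℝ, 0 < ε ∧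
      ∀ q : ℝ → Fin 3 → ℂ,
        (∀ i, ContDiff ℝ 2 (fun s => q s i)) →
        (∀ t : ℝ, ∀ i j : Fin 3, i ≠ j → q t i ≠ q t j) →
        (∀ t : ℝ, ∑ i, q t i = 0) →
        (∀ t : ℝ, ∀ i : Fin 3,
          m • deriv (deriv (fun s => q s i)) t =
            ∑ j ∈ Finset.univ.erase i,
              (m * m / ‖q t j - q t i‖ ^ 3) • (q t j - q t i)) →
        (∀ t : ℝ, (1 / 2 : ℝ) * ∑ i, m * ‖deriv (fun s => q s i) t‖ ^ 2
            - ∑ i, ∑ j ∈ Finset.Ioi i, m * m / ‖q t i - q t j‖ = -E) →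
        (∀ t : ℝ, ∑ i, m * ((starRingEnd ℂ) (q t i) * deriv (fun s => q s i) t).im = 0) →
        (∃ C : ℝ, ∀ t : ℝ, ∀ i : Fin 3, ‖q t i‖ ≤ C) →
        ¬ (∀ t : ℝ,
            2 * (E - ε) < ∑ i, ∑ j ∈ Finset.Ioi i, m * m / ‖q t i - q t j‖ ∧
            ∑ i, ∑ j ∈ Finset.Ioi i, m * m / ‖q t i - q t j‖ < 2 * (E + ε)) := by
  intro m hm E hE
  obtain ⟨ε, hε, h⟩ := Pool.Agent.H376Z.TB.virial m hm E hE
  exact ⟨ε, hε, fun q h1 h2 h3 h4 h5 h6 _ => h q h1 h2 h3 h4 h5 h6⟩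

end Pool.Agent.S15715
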