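import Pool.Statements.S15746
import Pool.Agent.H1Z.LP.AC

set_option autoImplicit false
open MeasureTheory
open Pool Pool.MP_7b7407_mp

namespace Pool.Agent.S15746

/-- The negation of the preceding statement: For every limit-periodic real potential V on ℤ, the operator ψ(n+1)+ψ(n−1)+V(n)ψ(n) on ℓ²(ℤ) has pure spectral type: all spectral measures are absolutely continuous, or all pure point, or all singular continuous. -/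
theorem result :
    ¬ (∀ V : ℤ → ℝ,
    (∀ ε : ℝ, 0 < ε → ∃ p : ℕ, 0 < p ∧ ∃ W : ℤ → ℝ,
        (∀ n : ℤ, W (n + (p : ℤ)) = W n) ∧ ∀ n : ℤ, |V n - W n| < ε) →
    ∀ H : lp (fun _ : ℤ => ℂ) 2 →L[ℂ] lp (fun _ : ℤ => ℂ) 2,
      (∀ ψ : lp (fun _ : ℤ => ℂ) 2, ∀ n : ℤ,
          (H ψ) n = ψ (n + 1) + ψ (n - 1) + (V n : ℂ) * ψ n) →
      ((∀ ψ : lp (fun _ : ℤ => ℂ) 2, ∀ μ : Measure ℝ, IsFiniteMeasure μ →
          (∀ k : ℕ, Integrable (fun x : ℝ => x ^ k) μ) →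
          (∀ k : ℕ, ∫ x, (x : ℂ) ^ k ∂μ = inner ℂ ψ ((H ^ k) ψ)) →
          μ ≪ volume) ∨
       (∀ ψ : lp (fun _ : ℤ => ℂ) 2, ∀ μ : Measure ℝ, IsFiniteMeasure μ →
          (∀ k : ℕ, Integrable (fun x : ℝ => x ^ k) μ) →
          (∀ k : ℕ, ∫ x, (x : ℂ) ^ k ∂μ = inner ℂ ψ ((H ^ k) ψ)) →
          ∃ S : Set ℝ, S.Countable ∧ μ Sᶜ = 0) ∨
       (∀ ψ : lp (fun _ : ℤ => ℂ) 2, ∀ μ : Measure ℝ, IsFiniteMeasure μ →
          (∀ k : ℕ, Integrable (fun x : ℝ => x ^ k) μ) →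
          (∀ k : ℕ, ∫ x, (x : ℂ) ^ k ∂μ = inner ℂ ψ ((H ^ k) ψ)) →
          (μ ⟂ₘ volume ∧ ∀ x : ℝ, μ {x} = 0)))) := by
  intro h
  obtain ⟨V, hL, C, hC, hV⟩ := Pool.Agent.H1Z.LP.ac_main
  obtain ⟨H, hH⟩ := Pool.Agent.H1Z.LP.exists_op hC
  obtain ⟨μ, h0⟩ := Pool.Agent.H1Z.LP.exists_spec (hH.sa hC) (Pool.Agent.H1Z.LP.dl 0)
  obtain ⟨a1, a2⟩ := hV H hH μ h0
  have hm : ∀ k : ℕ, ∫ x, (x : ℂ) ^ k ∂μ = inner ℂ (Pool.Agent.H1Z.LP.dl 0) ((H ^ k) (Pool.Agent.H1Z.LP.dl 0)) := by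
    intro k
    rw [← (h0.2 k).2, ← integral_complex_ofReal]
    simp only [Complex.ofReal_pow]
  rcases h V hL H hH with h1 | h1 | h1
  · exact a1 (h1 _ μ h0.1 (fun k => (h0.2 k).1) hm (Real.volume_singleton (a := 0)))
  · obtain ⟨S, hS, hS2⟩ := h1 _ μ h0.1 (fun k => (h0.2 k).1) hm
    exact a2 ⟨Sᶜ, hS.measurableSet.compl, hS2, by rw [compl_compl]; exact hS.measure_zero _⟩
  · exact a1 ((h1 _ μ h0.1 (fun k => (h0.2 k).1) hm).2 0)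

end Pool.Agent.S15746
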