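import Pool.Statements.S15758
import Pool.Agent.H566Z.St6

set_option autoImplicit false
open Pool Pool.MP_8e2a40_mp

namespace Pool.Agent.S15758

/-- The negation of the preceding statement: For coupling λ>0 and irrational α, β in (0,1) whose continued fraction digits agree after shifting, the Sturmian spectra are mapped onto each other by a C^1 diffeomorphism between open neighborhoods of them. -/
theorem result :
    ¬ (∀ (lam : ℝ), 0 < lam →
    ∀ (Sig : ℝ → Set ℝ),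
      (∀ (γ E : ℝ), E ∈ Sig γ ↔
        ¬ (∀ u : ℤ → ℂ, Memℓp u 2 →
            ∃! v : ℤ → ℂ, Memℓp v 2 ∧
              ∀ n : ℤ, v (n + 1) + v (n - 1)
                + (((lam * (if 1 - γ ≤ Int.fract ((n : ℝ) * γ) then (1 : ℝ) else 0) - E : ℝ)) : ℂ) * v n
                = u n)) →
    ∀ (α β : ℝ), Irrational α → Irrational β → α ∈ Set.Ioo (0 : ℝ) 1 → β ∈ Set.Ioo (0 : ℝ) 1 →
      (∃ m n : ℕ, ∀ i : ℕ,
        Stream'.Seq.get? (GenContFract.of β).partDens (i + m)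
          = Stream'.Seq.get? (GenContFract.of α).partDens (i + n)) →
      ∃ U₁ U₂ : Set ℝ, IsOpen U₁ ∧ IsOpen U₂ ∧ Sig α ⊆ U₁ ∧ Sig β ⊆ U₂ ∧
        ∃ f g : ℝ → ℝ, ContDiffOn ℝ 1 f U₁ ∧ ContDiffOn ℝ 1 g U₂ ∧
          Set.MapsTo f U₁ U₂ ∧ Set.MapsTo g U₂ U₁ ∧
          (∀ x ∈ U₁, g (f x) = x) ∧ (∀ y ∈ U₂, f (g y) = y) ∧
          f '' Sig α = Sig β) := by
  intro h
  obtain ⟨α, h1, h2, h3, h4⟩ := Pool.Agent.H566Z.St.main (lam := 1) one_pos
  have hβ : Irrational (1 / (5 + α)) := by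
    rw [one_div]
    apply Irrational.inv
    have := h1.natCast_add 5
    exact_mod_cast this
  have hβ1 : 1 / (5 + α) < 1 := by
    rw [div_lt_one (by positivity)]
    linarith
  obtain ⟨U₁, U₂, o1, -, s1, -, f, g, c1, -, -, -, -, -, he⟩ := h 1 one_pos
    (fun γ => Pool.Agent.H566Z.St.Spec (Pool.Agent.H566Z.St.pot 1 γ)) (fun γ E => Iff.rfl)
    α (1 / (5 + α)) h1 hβ ⟨h2, h3⟩ ⟨by positivity, hβ1⟩
    ⟨1, 0, fun i => Pool.Agent.H566Z.St.cf_tail h2 i⟩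
  have hc : IsCompact (Pool.Agent.H566Z.St.Spec (Pool.Agent.H566Z.St.pot 1 α)) :=
    Pool.Agent.H566Z.St.spec_compact
      (Pool.Agent.H566Z.St.two_bdd one_pos (Pool.Agent.H566Z.St.pot_two 1 α))
  have hloc : LocallyLipschitzOn (Pool.Agent.H566Z.St.Spec (Pool.Agent.H566Z.St.pot 1 α)) f := by
    intro x hx
    obtain ⟨K, t, ht, hK⟩ := (c1.contDiffAt (o1.mem_nhds (s1 hx))).exists_lipschitzOnWith
    exact ⟨K, t, mem_nhdsWithin_of_mem_nhds ht, hK⟩
  obtain ⟨K, hK⟩ := hloc.exists_lipschitzOnWith_of_compact hc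
  refine h4 f ⌈(K : ℝ)⌉₊ (fun a ha b hb => ?_) he
  have h5 := hK.dist_le_mul a ha b hb
  rw [Real.dist_eq, Real.dist_eq] at h5
  exact h5.trans (mul_le_mul_of_nonneg_right (Nat.le_ceil _) (abs_nonneg _))

end Pool.Agent.S15758
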