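import Pool.Statements.S15772
import Pool.Agent.H769Z.Rabi.Shoot

set_option autoImplicit false
open Pool Pool.MP_a47312_mp

namespace Pool.Agent.S15772

/-- The negation of the preceding statement: For g, Δ > 0 and each parity sector of the Rabi model, written as a Jacobi matrix on ℓ²(ℕ), each [n,n+1) with n ≥ 0 holds 0, 1 or 2 shifted eigenvalues e+g², and no two adjacent intervals both hold 2 or both hold 0. -/
theorem result :
    ¬ (∀ g Δ : ℝ, 0 < g → 0 < Δ → ∀ s : ℝ, (s = 1 ∨ s = -1) →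
    ∀ E : Set ℝ,
      E = {e : ℝ | ∃ u : ℕ → ℝ, u ≠ 0 ∧ Summable (fun k => u k ^ 2) ∧
            ∀ k : ℕ, ((k : ℝ) + s * (-1 : ℝ) ^ k * Δ) * u k
              + g * (Real.sqrt (k : ℝ) * u (k - 1) + Real.sqrt ((k : ℝ) + 1) * u (k + 1))
              = e * u k} →
    ∀ n : ℕ,
      ({e : ℝ | e ∈ E ∧ (n : ℝ) ≤ e + g ^ 2 ∧ e + g ^ 2 < (n : ℝ) + 1}).encard ≤ 2 ∧
      ¬ (({e : ℝ | e ∈ E ∧ (n : ℝ) ≤ e + g ^ 2 ∧ e + g ^ 2 < (n : ℝ) + 1}).encard = 2 ∧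
         ({e : ℝ | e ∈ E ∧ ((n + 1 : ℕ) : ℝ) ≤ e + g ^ 2 ∧ e + g ^ 2 < ((n + 1 : ℕ) : ℝ) + 1}).encard = 2) ∧
      ¬ (({e : ℝ | e ∈ E ∧ (n : ℝ) ≤ e + g ^ 2 ∧ e + g ^ 2 < (n : ℝ) + 1}).encard = 0 ∧
         ({e : ℝ | e ∈ E ∧ ((n + 1 : ℕ) : ℝ) ≤ e + g ^ 2 ∧ e + g ^ 2 < ((n + 1 : ℕ) : ℝ) + 1}).encard = 0)) := by
  intro h
  have h0 := h 7 47 (by norm_num) (by norm_num) (-1) (Or.inr rfl) _ rfl 0
  have h1 := h 7 47 (by norm_num) (by norm_num) (-1) (Or.inr rfl) _ rfl 1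
  obtain ⟨e1, a1, b1, c1⟩ := H769Z.Rabi.eig (Or.inl rfl) (by norm_num) (by norm_num)
    H769Z.Rabi.esc0 H769Z.Rabi.esc1
  obtain ⟨e2, a2, b2, c2⟩ := H769Z.Rabi.eig (b := 1) (Or.inr rfl) (by norm_num) (by norm_num)
    H769Z.Rabi.esc1 (by simpa using H769Z.Rabi.esc2)
  obtain ⟨e3, a3, b3, c3⟩ := H769Z.Rabi.eig (Or.inl rfl) (by norm_num) (by norm_num)
    H769Z.Rabi.esc2 H769Z.Rabi.esc3
  obtain ⟨e4, a4, b4, c4⟩ := H769Z.Rabi.eig (b := 2) (Or.inr rfl) (by norm_num) le_rfl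
    H769Z.Rabi.esc3 (by simpa using H769Z.Rabi.esc4)
  refine h0.2.1 ⟨le_antisymm h0.1 ?_, le_antisymm h1.1 ?_⟩
  · rw [← Set.encard_pair (show e1 ≠ e2 from by intro h; linarith)]
    refine Set.encard_le_encard ?_
    rintro x (rfl | rfl)
    · exact ⟨c1, by push_cast; linarith, by push_cast; linarith⟩
    · exact ⟨c2, by push_cast; linarith, by push_cast; linarith⟩
  · rw [← Set.encard_pair (show e3 ≠ e4 from by intro h; linarith)]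
    refine Set.encard_le_encard ?_
    rintro x (rfl | rfl)
    · exact ⟨c3, by push_cast; linarith, by push_cast; linarith⟩
    · exact ⟨c4, by push_cast; linarith, by push_cast; linarith⟩

end Pool.Agent.S15772
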