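import Pool.Statements.S15777
import Pool.Agent.H1Z.LP.Eigen

set_option autoImplicit false
open MeasureTheory
open Pool Pool.MP_ad681e_mp

namespace Pool.Agent.S15777

/-- Some limit-periodic potential V on ℤ and some W in its hull give Schrödinger operators whose maximal spectral measures differ in whether a pure point, singular continuous, or absolutely continuous component is present. -/
theorem result :
    ∃ V W : ℤ → ℝ,
      (∀ ε : ℝ, 0 < ε → ∃ P : ℤ → ℝ,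
          (∃ p : ℤ, 0 < p ∧ ∀ n : ℤ, P (n + p) = P n) ∧ ∀ n : ℤ, |V n - P n| < ε) ∧
      (∀ ε : ℝ, 0 < ε → ∃ k : ℤ, ∀ n : ℤ, |W n - V (n + k)| < ε) ∧
      ∃ μ ν : Measure ℝ, IsFiniteMeasure μ ∧ IsFiniteMeasure ν ∧
        (∀ k : ℕ, Integrable (fun x : ℝ => x ^ k) μ ∧
          ∫ x, x ^ k ∂μ =
            ((fun ψ : ℤ → ℝ => fun n : ℤ => ψ (n + 1) + ψ (n - 1) + V n * ψ n)^[k]
                (fun m : ℤ => if m = 0 then (1 : ℝ) else 0)) 0 +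
            ((fun ψ : ℤ → ℝ => fun n : ℤ => ψ (n + 1) + ψ (n - 1) + V n * ψ n)^[k]
                (fun m : ℤ => if m = 1 then (1 : ℝ) else 0)) 1) ∧
        (∀ k : ℕ, Integrable (fun x : ℝ => x ^ k) ν ∧
          ∫ x, x ^ k ∂ν =
            ((fun ψ : ℤ → ℝ => fun n : ℤ => ψ (n + 1) + ψ (n - 1) + W n * ψ n)^[k]
                (fun m : ℤ => if m = 0 then (1 : ℝ) else 0)) 0 +
            ((fun ψ : ℤ → ℝ => fun n : ℤ => ψ (n + 1) + ψ (n - 1) + W n * ψ n)^[k]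
                (fun m : ℤ => if m = 1 then (1 : ℝ) else 0)) 1) ∧
        (¬ ((∃ x : ℝ, μ {x} ≠ 0) ↔ (∃ x : ℝ, ν {x} ≠ 0)) ∨
         ¬ ((∃ S : Set ℝ, MeasurableSet S ∧ volume S = 0 ∧ (∀ x ∈ S, μ {x} = 0) ∧ μ S ≠ 0) ↔
            (∃ S : Set ℝ, MeasurableSet S ∧ volume S = 0 ∧ (∀ x ∈ S, ν {x} = 0) ∧ ν S ≠ 0)) ∨
         ¬ ((¬ μ.MutuallySingular volume) ↔ (¬ ν.MutuallySingular volume))) := by
  classical
  obtain ⟨V, U, hL, hU, C, hV, hUC, hno, hyes⟩ := Pool.Agent.H1Z.LP.hull_main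
  obtain ⟨H, hH⟩ := Pool.Agent.H1Z.LP.exists_op hV
  obtain ⟨G, hG⟩ := Pool.Agent.H1Z.LP.exists_op hUC
  obtain ⟨μ0, h0⟩ := Pool.Agent.H1Z.LP.exists_spec (hH.sa hV) (Pool.Agent.H1Z.LP.dl 0)
  obtain ⟨μ1, h1⟩ := Pool.Agent.H1Z.LP.exists_spec (hH.sa hV) (Pool.Agent.H1Z.LP.dl 1)
  obtain ⟨ν0, g0⟩ := Pool.Agent.H1Z.LP.exists_spec (hG.sa hUC) (Pool.Agent.H1Z.LP.dl 0)
  obtain ⟨ν1, g1⟩ := Pool.Agent.H1Z.LP.exists_spec (hG.sa hUC) (Pool.Agent.H1Z.LP.dl 1)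
  have e : ∀ j : ℤ, (fun m : ℤ => if m = j then (1 : ℝ) else 0) =
      (Pi.single j (1 : ℝ) : ℤ → ℝ) := by
    intro j
    funext m
    rw [Pi.single_apply]
  haveI := h0.1
  haveI := h1.1
  haveI := g0.1
  haveI := g1.1
  refine ⟨V, U, fun ε hε => ?_, hU, μ0 + μ1, ν0 + ν1, inferInstance, inferInstance,
    fun k => ?_, fun k => ?_, Or.inl ?_⟩
  · obtain ⟨p, hp, Q, hQ, hQ2⟩ := hL ε hε
    exact ⟨Q, ⟨p, by exact_mod_cast hp, hQ⟩, hQ2⟩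
  · have a0 := hH.spec_dl h0 k
    have a1 := hH.spec_dl h1 k
    refine ⟨a0.1.add_measure a1.1, ?_⟩
    rw [integral_add_measure a0.1 a1.1, a0.2, a1.2, e, e]
  · have a0 := hG.spec_dl g0 k
    have a1 := hG.spec_dl g1 k
    refine ⟨a0.1.add_measure a1.1, ?_⟩
    rw [integral_add_measure a0.1 a1.1, a0.2, a1.2, e, e]
  · intro hiff
    obtain ⟨φ, hφ0, hφ⟩ := hyes H hH
    have hat : μ0 {0} ≠ 0 := by
      apply h0.atom_of_eigen (hH.sa hV) hφ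
      rw [← inner_conj_symm, Pool.Agent.H1Z.LP.inner_dl, hφ0]
      simp
    obtain ⟨x, hx⟩ := hiff.1 ⟨0, by
      rw [Measure.add_apply]
      intro h
      exact hat (add_eq_zero.1 h).1⟩
    apply hx
    rw [Measure.add_apply]
    have b0 : ν0 {x} = 0 := by
      by_contra hc
      obtain ⟨ψ, hψ, hψ2⟩ := g0.eigen_of_atom (hG.sa hUC) hc
      exact hψ (hno G hG ψ x hψ2)
    have b1 : ν1 {x} = 0 := by
      by_contra hc
      obtain ⟨ψ, hψ, hψ2⟩ := g1.eigen_of_atom (hG.sa hUC) hc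
      exact hψ (hno G hG ψ x hψ2)
    rw [b0, b1, add_zero]

end Pool.Agent.S15777
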