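import Pool.Statements.S15782
import Pool.Agent.H1Z.LP.AC

set_option autoImplicit false
open Pool Pool.MP_b5b0d6_mp

namespace Pool.Agent.S15782

/-- The negation of the preceding statement: For every real limit-periodic V on ℤ: if some site spectral measure of the discrete Schrödinger operator H_V is not singular, then for every real c every site spectral measure of H_{cV} is absolutely continuous. -/
theorem result :
    ¬ (∀ V : ℤ → ℝ,
      (∀ ε : ℝ, 0 < ε → ∃ p : ℤ, 0 < p ∧ ∃ W : ℤ → ℝ,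
          Function.Periodic W p ∧ ∀ n : ℤ, |V n - W n| < ε) →
      (∃ k : ℤ, ∃ μ : MeasureTheory.Measure ℝ, MeasureTheory.IsFiniteMeasure μ ∧
          (∀ m : ℕ, MeasureTheory.Integrable (fun x : ℝ => x ^ m) μ) ∧
          (∀ m : ℕ, ∫ x, x ^ m ∂μ =
              Nat.iterate (fun u : ℤ → ℝ => fun n : ℤ => u (n + 1) + u (n - 1) + V n * u n)
                m (Pi.single k (1 : ℝ) : ℤ → ℝ) k) ∧
          ¬ MeasureTheory.Measure.MutuallySingular μ (MeasureTheory.volume : MeasureTheory.Measure ℝ)) →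
      ∀ c : ℝ, ∀ k : ℤ, ∀ μ : MeasureTheory.Measure ℝ, MeasureTheory.IsFiniteMeasure μ →
          (∀ m : ℕ, MeasureTheory.Integrable (fun x : ℝ => x ^ m) μ) →
          (∀ m : ℕ, ∫ x, x ^ m ∂μ =
              Nat.iterate (fun u : ℤ → ℝ => fun n : ℤ => u (n + 1) + u (n - 1) + c * V n * u n)
                m (Pi.single k (1 : ℝ) : ℤ → ℝ) k) →
          MeasureTheory.Measure.AbsolutelyContinuous μ (MeasureTheory.volume : MeasureTheory.Measure ℝ)) := by
  intro h
  obtain ⟨V, hL, C, hC, hV⟩ := Pool.Agent.H1Z.LP.ac_main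
  obtain ⟨H, hH⟩ := Pool.Agent.H1Z.LP.exists_op hC
  obtain ⟨μ, h0⟩ := Pool.Agent.H1Z.LP.exists_spec (hH.sa hC) (Pool.Agent.H1Z.LP.dl 0)
  obtain ⟨a1, a2⟩ := hV H hH μ h0
  have h2 := h V (fun ε hε => by
      obtain ⟨p, hp, Q, hQ, hQ2⟩ := hL ε hε
      exact ⟨p, by exact_mod_cast hp, Q, hQ, hQ2⟩)
    ⟨0, μ, h0.1, fun k => (h0.2 k).1, fun k => (hH.spec_dl h0 k).2, a2⟩ 1 0 μ h0.1
    (fun k => (h0.2 k).1) (fun k => by simpa only [one_mul] using (hH.spec_dl h0 k).2)
  exact a1 (h2 (Real.volume_singleton (a := 0)))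

end Pool.Agent.S15782
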