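import Pool.Statements.S15793
import Pool.Agent.H1Z.LP.Fill

set_option autoImplicit false
open Pool Pool.MP_c9a3a4_mp

namespace Pool.Agent.S15793

/-- For every non-periodic limit-periodic potential V on the integers and every ε>0, there is a non-periodic limit-periodic V' uniformly ε-close to V such that the spectrum of the Schrödinger operator Δ+V' on ℓ²(ℤ) is not a Cantor set. -/
theorem result :
  ∀ V : ℤ → ℝ,
    (∀ ε : ℝ, 0 < ε → ∃ p : ℕ, 0 < p ∧ ∃ W : ℤ → ℝ,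
        (∀ n : ℤ, W (n + (p : ℤ)) = W n) ∧ ∀ n : ℤ, |V n - W n| < ε) →
    ¬ (∃ p : ℕ, 0 < p ∧ ∀ n : ℤ, V (n + (p : ℤ)) = V n) →
    ∀ ε : ℝ, 0 < ε → ∃ V' : ℤ → ℝ,
      (∀ δ : ℝ, 0 < δ → ∃ p : ℕ, 0 < p ∧ ∃ W : ℤ → ℝ,
          (∀ n : ℤ, W (n + (p : ℤ)) = W n) ∧ ∀ n : ℤ, |V' n - W n| < δ) ∧
      ¬ (∃ p : ℕ, 0 < p ∧ ∀ n : ℤ, V' (n + (p : ℤ)) = V' n) ∧
      (∀ n : ℤ, |V n - V' n| < ε) ∧
      ∀ S : Set ℝ,
        S = {E : ℝ | ¬ ((∃ R : lp (fun _ : ℤ => ℂ) 2 →L[ℂ] lp (fun _ : ℤ => ℂ) 2,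
              ∀ φ : lp (fun _ : ℤ => ℂ) 2, ∀ n : ℤ,
                R φ (n + 1) + R φ (n - 1) + ((V' n : ℂ) - (E : ℂ)) * R φ n = φ n) ∧
            (∀ ψ : ℤ → ℂ, Memℓp ψ 2 →
              (∀ n : ℤ, ψ (n + 1) + ψ (n - 1) + ((V' n : ℂ) - (E : ℂ)) * ψ n = 0) →
              ψ = 0))} →
        ¬ (S.Nonempty ∧ IsCompact S ∧ Perfect S ∧ IsTotallyDisconnected S) := by
  intro V hV _ ε hε
  obtain ⟨p, hp, P, hP, hVP⟩ := hV (ε / 2) (by linarith)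
  obtain ⟨U, a, b, hab, h1, h2, h3, h4⟩ := Pool.Agent.H1Z.LP.fill P p hp hP (ε / 4) (by linarith)
  refine ⟨U, h2, h3, fun n => ?_, ?_⟩
  · have a1 := hVP n
    have a2 := h1 n
    have a3 := abs_sub_le (V n) (P n) (U n)
    rw [abs_sub_comm (P n)] at a3
    linarith
  · rintro S hS ⟨-, -, -, htd⟩
    obtain ⟨C, hC⟩ := Pool.Agent.H1Z.LP.per_bdd hp hP
    have hU : ∀ n, |U n| ≤ C + 2 * (ε / 4) := by
      intro n
      have a1 := hC n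
      have a2 := h1 n
      have a3 := abs_add_le (U n - P n) (P n)
      rw [sub_add_cancel] at a3
      linarith
    obtain ⟨H, hH⟩ := Pool.Agent.H1Z.LP.exists_op hU
    have hsub : Set.Icc a b ⊆ S := by
      intro E hE
      rw [hS]
      rintro ⟨⟨R, hR⟩, hinj⟩
      obtain ⟨ψ, hψ⟩ := h4 (1 / (‖R‖ + 1)) (by positivity) H hH E hE
      have e1 : R (H ψ - (E : ℂ) • ψ) - ψ = 0 := by
        have := hinj (R (H ψ - (E : ℂ) • ψ) - ψ) (R (H ψ - (E : ℂ) • ψ) - ψ).2 (fun n => by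
          have b1 := hR (H ψ - (E : ℂ) • ψ) n
          simp only [lp.coeFn_sub, Pi.sub_apply, lp.coeFn_smul, Pi.smul_apply, smul_eq_mul] at b1 ⊢
          rw [hH ψ n] at b1
          linear_combination b1)
        ext n
        exact congrFun this n
      have e2 := R.le_opNorm (H ψ - (E : ℂ) • ψ)
      rw [sub_eq_zero.1 e1] at e2
      have e3 : ‖R‖ * ‖H ψ - (E : ℂ) • ψ‖ ≤ ‖R‖ * (1 / (‖R‖ + 1) * ‖ψ‖) :=
        mul_le_mul_of_nonneg_left hψ.le (norm_nonneg _)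
      have e4 : 0 < 1 / (‖R‖ + 1) * ‖ψ‖ := lt_of_le_of_lt (norm_nonneg _) hψ
      have e5 : ‖R‖ * (1 / (‖R‖ + 1) * ‖ψ‖) + 1 / (‖R‖ + 1) * ‖ψ‖ = ‖ψ‖ := by
        field_simp
      linarith
    have := htd (Set.Icc a b) hsub isPreconnected_Icc ⟨le_rfl, hab.le⟩ ⟨hab.le, le_rfl⟩
    exact hab.ne this

end Pool.Agent.S15793
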