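import Pool.Statements.S15806
import Pool.Agent.H359Z.TM.Spec

set_option autoImplicit false
open Pool Pool.MP_dd0251_mp

namespace Pool.Agent.S15806

/-- The negation of the preceding statement: For every bounded Jacobi matrix with positive off-diagonal entries, the set where its spectral measure has positive Lebesgue density equals, up to a null set, the set of energies E where the transfer matrices stay bounded along a subsequence. -/
theorem result :
    ¬ (∀ (a b : ℕ → ℝ), (∀ n, 0 < a n) → (∃ C : ℝ, ∀ n, |a n| ≤ C ∧ |b n| ≤ C) →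
    ∀ μ : MeasureTheory.Measure ℝ,
      (∀ k : ℕ, MeasureTheory.Integrable (fun x : ℝ => x ^ k) μ) →
      (∀ k : ℕ, ∫ x, x ^ k ∂μ =
          ((Matrix.of fun i j : Fin (k + 1) =>
              if i.val = j.val then b i.val
              else if j.val = i.val + 1 then a i.val
              else if i.val = j.val + 1 then a j.val
              else (0 : ℝ)) ^ k) 0 0) →
      MeasureTheory.volume
        (symmDiff {E : ℝ | 0 < μ.rnDeriv MeasureTheory.volume E}
          {E : ℝ | ∃ C : ℝ, ∀ N : ℕ, ∃ n ≥ N, ∀ i j : Fin 2,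
            |(((List.range n).reverse.map
                (fun m => (a m)⁻¹ • !![E - b m, -1; a m ^ 2, 0])).prod) i j| ≤ C}) = 0) := by
  intro h
  obtain ⟨b, hb, hmain⟩ := H359Z.TM.main
  obtain ⟨μ, hi, hm⟩ := H359Z.TM.exists_spectral hb
  have h1 := h (fun _ => 1) b (fun _ => one_pos) ⟨11, fun n => ⟨by norm_num, hb n⟩⟩ μ hi (fun k => by
    rw [hm k]
    exact (H359Z.TM.Jn_pow b k k (Nat.le_succ k) 0).symm)
  refine hmain μ hi hm (MeasureTheory.measure_mono_null ?_ h1)
  rintro E ⟨hE1, hE2⟩
  refine Or.inr ⟨⟨8, fun N => ?_⟩, hE2⟩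
  obtain ⟨n, hn, h2⟩ := hE1 N
  refine ⟨n, hn, fun i j => ?_⟩
  have h3 := h2 i j
  simpa [H359Z.TM.TT, H359Z.TM.T, H359Z.TM.A1, List.map_reverse, Function.comp_def] using h3

end Pool.Agent.S15806
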