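import Pool.Statements.S15847
import Pool.Agent.H516Z.DefPerf

set_option autoImplicit false
open Pool Pool.MP_01cdf7_nt

namespace Pool.Agent.S15847

/-- For every k ≥ 3, only finitely many odd n have exactly k distinct prime factors and a divisor d < n with sum of divisors of n equal to 2n − d. -/
theorem result :
    ∀ k : ℕ, 3 ≤ k →
      Set.Finite {n : ℕ | Odd n ∧ n.primeFactors.card = k ∧
        ∃ d : ℕ, d ∣ n ∧ d < n ∧ (∑ i ∈ n.divisors, i) + d = 2 * n} := by
  intro k _
  refine (Pool.Agent.H516Z.DefPerf.main k).subset ?_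
  rintro n ⟨h1, h2, d, h3, -, h4⟩
  exact ⟨h1, h2, d, h3, h4⟩

end Pool.Agent.S15847
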