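import Pool.Statements.S15888
import Pool.Agent.H158Z.NearAP

set_option autoImplicit false
open Pool Pool.MP_0426f4_nt

namespace Pool.Agent.S15888

/-- The negation of the preceding statement: For each t ≥ 3 and all large n, every A ⊆ [1,n] that meets no blocks b+id..b+id+w (i=1..t−1) simultaneously, for d a power of 2 and wn<d², has (∣A∣/n)·(log n)^(log log n) < 1. -/
theorem result :
    ¬ (∀ t : ℕ, 3 ≤ t → ∃ n₀ : ℕ, ∀ n : ℕ, n₀ ≤ n → ∀ A : Finset ℕ, A ⊆ Finset.Icc 1 n →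
      (∀ j w : ℕ, w * n < (2 ^ j) ^ 2 →
        ¬ ∃ b : ℕ, ∀ i ∈ Finset.Icc 1 (t - 1),
          ∃ a ∈ A, b + i * 2 ^ j ≤ a ∧ a ≤ b + i * 2 ^ j + w) →
      (A.card : ℝ) / n * Real.log n ^ Real.log (Real.log n) < 1) := by
  intro h
  obtain ⟨n₀, h⟩ := h 3 le_rfl
  have hI : 8 ≤ n₀ + 8 := by omega
  generalize hI' : n₀ + 8 = I at hI
  have hn : n₀ ≤ 2 ^ 2 ^ I := by
    have h1 : I < 2 ^ I := Nat.lt_two_pow_self
    have h2 : 2 ^ I < 2 ^ 2 ^ I := Nat.lt_two_pow_self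
    omega
  obtain ⟨c, hc⟩ := H158Z.NearAP.exists_class I
  have h1 := h (2 ^ 2 ^ I) hn _ (Finset.filter_subset (fun a => H158Z.NearAP.col I a = c) _) (by
    rintro j w hw ⟨b, hb⟩
    obtain ⟨a₁, ha₁, l1, u1⟩ := hb 1 (by simp)
    obtain ⟨a₂, ha₂, l2, u2⟩ := hb 2 (by simp)
    rw [Finset.mem_filter, Finset.mem_Icc] at ha₁ ha₂
    rw [one_mul] at l1 u1
    exact H158Z.NearAP.no_mono (by omega) hw ha₂.1.2 l1 u1 l2 u2 (ha₁.2.trans ha₂.2.symm))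
  have h2 := H158Z.NearAP.growth hI
  have h3 : ((2 ^ 2 ^ I : ℕ) : ℝ) ≤ 6 ^ I *
      (((Finset.Icc 1 (2 ^ 2 ^ I)).filter fun a => H158Z.NearAP.col I a = c).card : ℝ) := by
    exact_mod_cast hc
  have h4 : (0 : ℝ) < ((2 ^ 2 ^ I : ℕ) : ℝ) := by positivity
  have h5 := mul_le_mul_of_nonneg_left h2 (div_nonneg (Nat.cast_nonneg
    ((Finset.Icc 1 (2 ^ 2 ^ I)).filter fun a => H158Z.NearAP.col I a = c).card) h4.le)
  have h6 := h5.trans_lt h1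
  rw [div_mul_eq_mul_div, div_lt_one h4] at h6
  linarith

end Pool.Agent.S15888
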