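import Pool.Statements.S15893
import Pool.Agent.H4Z.TNE
import Pool.Agent.H391Z.NormB

set_option autoImplicit false
open Pool Pool.MP_0496af_nt

namespace Pool.Agent.S15893

/-- Some transcendental real ξ has every w_n(ξ) finite, has w_n(ξ)/n unbounded (so it is a T-number), and is normal: in every base b ≥ 2, every block of k digits appears with limiting frequency b^(-k). -/
theorem result :
    ∃ ξ : ℝ, Transcendental ℤ ξ ∧
      (∀ n : ℕ, 1 ≤ n → ∃ W : ℝ,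
        Set.Finite {P : Polynomial ℤ | P.natDegree ≤ n ∧ 0 < |Polynomial.aeval ξ P| ∧
          |Polynomial.aeval ξ P| ≤
            ((P.support.sup (fun i => (P.coeff i).natAbs) : ℕ) : ℝ) ^ (-W)}) ∧
      (∀ M : ℝ, ∃ n : ℕ, 1 ≤ n ∧ ∃ w : ℝ, M * (n : ℝ) < w ∧
        Set.Infinite {P : Polynomial ℤ | P.natDegree ≤ n ∧ 0 < |Polynomial.aeval ξ P| ∧
          |Polynomial.aeval ξ P| ≤
            ((P.support.sup (fun i => (P.coeff i).natAbs) : ℕ) : ℝ) ^ (-w)}) ∧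
      (∀ b : ℕ, 2 ≤ b → ∀ k : ℕ, 1 ≤ k → ∀ d : Fin k → Fin b,
        Filter.Tendsto
          (fun N : ℕ =>
            (((Finset.range N).filter (fun j : ℕ => ∀ i : Fin k,
                ⌊ξ * (b : ℝ) ^ (j + 1 + (i : ℕ))⌋ % (b : ℤ) = (((d i : ℕ)) : ℤ))).card : ℝ)
              / (N : ℝ))
          Filter.atTop (nhds (1 / (b : ℝ) ^ k))) := by
  obtain ⟨ξ, -, -, hup, hweyl, hlow⟩ := Pool.Agent.H4Z.TN.mainQ (fun j => 40 * (j + 2) ^ 2)
    (fun j => by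
      have : 1 ≤ (j + 2) ^ 2 := Nat.one_le_pow _ _ (by omega)
      omega)
  have hupE : ∀ n : ℕ, ∃ c : ℝ, 0 < c ∧ ∀ P : Polynomial ℤ, P ≠ 0 → P.natDegree ≤ n →
      c ≤ |Polynomial.aeval ξ P| * (Pool.Agent.Helper35.ht P : ℝ) ^ (40 * (n + 1) ^ 2) := by
    intro n
    apply hup n
    · have : n + 1 ≤ (n + 1) ^ 2 := Nat.le_self_pow (by norm_num) _
      omega
    · intro j hj
      have : (j + 2) ^ 2 ≤ (n + 1) ^ 2 := Nat.pow_le_pow_left (by omega) 2
      omega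
  have hset : ∀ (n : ℕ) (w : ℝ), {P : Polynomial ℤ | P.natDegree ≤ n ∧
      0 < |Polynomial.aeval ξ P| ∧ |Polynomial.aeval ξ P| ≤
        ((P.support.sup (fun i => (P.coeff i).natAbs) : ℕ) : ℝ) ^ (-w)} =
      {P : Polynomial ℤ | P ≠ 0 ∧ P.natDegree ≤ n ∧ 0 < |Polynomial.aeval ξ P| ∧
        |Polynomial.aeval ξ P| ≤ (Pool.Agent.Helper35.ht P : ℝ) ^ (-w)} := by
    intro n w
    ext P
    simp only [Set.mem_ofPred_eq]
    constructor
    · rintro ⟨h1, h2, h3⟩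
      refine ⟨?_, h1, h2, h3⟩
      rintro rfl
      simp at h2
    · rintro ⟨_, h1, h2, h3⟩
      exact ⟨h1, h2, h3⟩
  refine ⟨ξ, ?_, fun n _ => ?_, fun M => ?_, fun b hb k _ d => ?_⟩
  · rintro ⟨P, hP, hz⟩
    obtain ⟨c, hc, hcc⟩ := hupE P.natDegree
    have := hcc P hP le_rfl
    rw [hz, abs_zero, zero_mul] at this
    linarith
  · obtain ⟨c, hc, hcc⟩ := hupE n
    refine ⟨((40 * (n + 1) ^ 2 : ℕ) : ℝ) + 1, ?_⟩
    rw [hset]
    by_contra hinf
    have := Pool.Agent.Helper35.WSet_le ξ n _ c hc hcc _ hinf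
    linarith
  · obtain ⟨j, hj⟩ := exists_nat_ge M
    refine ⟨j + 1, by omega, ((40 * (j + 2) ^ 2 : ℕ) : ℝ) - 2, ?_, ?_⟩
    · have hj0 : (0 : ℝ) ≤ j := Nat.cast_nonneg j
      push_cast
      nlinarith
    · rw [hset]
      exact hlow j _ (by linarith)
  · have h := Pool.Agent.H391Z.Norm.normal_of_weyl ξ b hb (hweyl b hb) k
      (fun i => ((d i : ℕ) : ℤ)) (fun i => ⟨by positivity, by exact_mod_cast (d i).2⟩)
    have e : ∀ j i : ℕ, j + 1 + i = j + i + 1 := fun j i => by ring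
    simpa only [e] using h

end Pool.Agent.S15893
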