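import Pool.Statements.S16050
import Pool.Agent.H893Z.SatMain

set_option autoImplicit false
open Pool Pool.MP_0f64a9_nt

namespace Pool.Agent.S16050

/-- The negation of the preceding statement: For every positive integer n there is a coloring of the positive integers with n colors such that for every positive a, the numbers a, 2a, ..., na have pairwise distinct colors. -/
theorem result :
    ¬ (∀ n : ℕ, 0 < n →
      ∃ c : ℕ → Fin n, ∀ a : ℕ, 0 < a →
        Set.InjOn (fun i : ℕ => c (i * a)) (Set.Icc 1 n)) := by
  intro h
  exact Pool.Agent.H893Z.Sat.no_colouring (h 211 (by norm_num))

end Pool.Agent.S16050
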