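import Pool.Statements.S16253
import Pool.Agent.H185Z.L7.Final

set_option autoImplicit false
open Pool Pool.MP_1f269e_nt

namespace Pool.Agent.S16253

/-- Let t be the rational sequence with t(0)=1 whose self-convolution is T(n)=Σ C(n,j)²C(2j,n)C(n+j,j). Then for every prime p that is a square mod 7 (including p=7) and every n≥1, t(pn)−t(n) is 0 or has p-adic valuation at least 2. -/
theorem result :
    ∀ t : ℕ → ℚ, t 0 = 1 →
      (∀ n : ℕ, ∑ j ∈ Finset.range (n + 1), t j * t (n - j) =
        ((∑ j ∈ Finset.range (n + 1),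
            (n.choose j) ^ 2 * (2 * j).choose n * (n + j).choose j : ℕ) : ℚ)) →
      ∀ p : ℕ, p.Prime → IsSquare ((p : ZMod 7)) →
        ∀ n : ℕ, 0 < n →
          (t (p * n) - t n = 0 ∨ (2 : ℤ) ≤ padicValRat p (t (p * n) - t n)) :=
  Pool.Agent.H185Z.L7.main

end Pool.Agent.S16253
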