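import Pool.Statements.S16290
import Pool.Agent.H318Z.CFC

set_option autoImplicit false
open Filter Topology
open scoped Classical
open Pool Pool.MP_219c9f_nt

namespace Pool.Agent.S16290

/-- The negation of the preceding statement: If every digit k ≥ 1 appears among the continued fraction partial quotients of x with frequency log2(1+1/(k(k+2))), then the same holds for qx+r, for all rationals q ≠ 0 and r. -/
theorem result :
    ¬ (∀ x : ℝ,
      (∀ k : ℕ, 1 ≤ k →
        Tendsto
          (fun n : ℕ =>
            (((Finset.range n).filter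
                (fun i => (GenContFract.of x).partDens.get? i = some (k : ℝ))).card : ℝ) / (n : ℝ))
          atTop (𝓝 (Real.logb 2 (1 + 1 / ((k : ℝ) * ((k : ℝ) + 2)))))) →
      ∀ q r : ℚ, q ≠ 0 →
        (∀ k : ℕ, 1 ≤ k →
          Tendsto
            (fun n : ℕ =>
              (((Finset.range n).filter
                  (fun i => (GenContFract.of ((q : ℝ) * x + (r : ℝ))).partDens.get? i
                    = some (k : ℝ))).card : ℝ) / (n : ℝ))
            atTop (𝓝 (Real.logb 2 (1 + 1 / ((k : ℝ) * ((k : ℝ) + 2))))))) := by
  intro h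
  obtain ⟨x, hx, hn⟩ := Pool.Agent.H318Z.CF.main
  have h2 := h x hx (1 / 2) 0 (by norm_num) 2 (by norm_num)
  have e : (((1 / 2 : ℚ) : ℝ) * x + ((0 : ℚ) : ℝ)) = x / 2 := by push_cast; ring
  rw [e] at h2
  exact hn h2

end Pool.Agent.S16290
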