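import Pool.Statements.S16546
import Pool.Agent.H497Z.CosC

set_option autoImplicit false
open Pool Pool.MP_3519bc_nt

namespace Pool.Agent.S16546

/-- The negation of the preceding statement: There is k>0 and constants C, M such that for all real x with ∣x∣≥M, the limit of partial sums of 2/√n·cos(π((3n−1)/4 − x/n)) over n≥1 has absolute value at most C·(log∣x∣)^k. -/
theorem result :
    ¬ (∃ k : ℝ, 0 < k ∧ ∃ C M : ℝ, ∀ x : ℝ, M ≤ |x| → ∀ S : ℝ,
      Filter.Tendsto
        (fun N : ℕ => ∑ n ∈ Finset.Icc 1 N,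
          2 / Real.sqrt (n : ℝ) *
            Real.cos (Real.pi * ((3 * (n : ℝ) - 1) / 4 - x / (n : ℝ))))
        Filter.atTop (nhds S) →
      |S| ≤ C * (Real.log |x|) ^ k) := by
  exact H497Z.Cos.not_polylog

end Pool.Agent.S16546
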