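import Pool.Statements.S16580
import Pool.Agent.H534Z.Zud2

set_option autoImplicit false
open Filter
open Pool Pool.MP_37fc1f_nt

namespace Pool.Agent.S16580

open Pool.Agent.H534Z.Zud in
/-- The negation of the preceding statement: If rational-function coefficients a_n, b_n tend to α, β, the roots λ, Λ of x²−βx−α satisfy 0<∣λ∣<∣Λ∣, and two independent rational solutions of u_n=b_n u_{n−1}+a_n u_{n−2} have ratios tending to λ and Λ, then λ, Λ are rational. -/
theorem result :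
    ¬ (∀ (a b : RatFunc ℚ) (α β lam Lam : ℝ) (v w : ℕ → ℚ),
      Tendsto (fun n : ℕ => ((RatFunc.eval (RingHom.id ℚ) (n : ℚ) a : ℚ) : ℝ)) atTop (nhds α) →
      Tendsto (fun n : ℕ => ((RatFunc.eval (RingHom.id ℚ) (n : ℚ) b : ℚ) : ℝ)) atTop (nhds β) →
      lam + Lam = β →
      lam * Lam = -α →
      0 < |lam| →
      |lam| < |Lam| →
      (∀ᶠ n in atTop, v (n + 2) =
          RatFunc.eval (RingHom.id ℚ) ((n + 2 : ℕ) : ℚ) b * v (n + 1) +
          RatFunc.eval (RingHom.id ℚ) ((n + 2 : ℕ) : ℚ) a * v n) →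
      (∀ᶠ n in atTop, w (n + 2) =
          RatFunc.eval (RingHom.id ℚ) ((n + 2 : ℕ) : ℚ) b * w (n + 1) +
          RatFunc.eval (RingHom.id ℚ) ((n + 2 : ℕ) : ℚ) a * w n) →
      (∀ c d : ℚ, (∀ᶠ n in atTop, c * v n + d * w n = 0) → c = 0 ∧ d = 0) →
      Tendsto (fun n : ℕ => ((v (n + 1) : ℝ) / (v n : ℝ))) atTop (nhds lam) →
      Tendsto (fun n : ℕ => ((w (n + 1) : ℝ) / (w n : ℝ))) atTop (nhds Lam) →
      (∃ q : ℚ, (q : ℝ) = lam) ∧ (∃ r : ℚ, (r : ℝ) = Lam)) := by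
  intro h
  refine lam_irr (h aF bF (3 / 4) (-(10 / 9)) lam (-L) v w ?_ ?_ ?_ ?_ ?_ ?_ ?_ ?_ indep
    v_ratio w_ratio).1
  · rw [← Filter.tendsto_add_atTop_iff_nat 2]
    simpa only [aF_eval] using Aq_lim
  · rw [← Filter.tendsto_add_atTop_iff_nat 2]
    simpa only [bF_eval, Rat.cast_neg] using Bq_lim.neg
  · rw [L_eq]; ring
  · linear_combination -lamL
  · exact abs_pos.2 lam_pos.ne'
  · rw [abs_neg, abs_of_pos lam_pos, abs_of_pos (by linarith [L_ge]), L_eq]; linarith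
  · filter_upwards [Filter.eventually_ge_atTop 1] with n hn
    rw [aF_eval, bF_eval]; exact v_rec' hn
  · refine Filter.Eventually.of_forall fun n => ?_
    rw [aF_eval, bF_eval]; exact w_rec n

end Pool.Agent.S16580
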