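import Pool.Statements.S16884
import Pool.Agent.H618Z.PyMain

set_option autoImplicit false
open Pool Pool.MP_4dc1c3_nt

namespace Pool.Agent.S16884

/-- The negation of the preceding statement: There is an infinite, divisibility-directed set S of positive integers and a number m such that, in the field generated by all ζ+ζ⁻¹ with ζ a primitive n-th root of unity for n in S, every algebraic integer that is a sum of squares of integers is a sum of m such squares. -/
theorem result :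
    ¬ (∃ S : Set ℕ, S.Infinite ∧ (∀ n ∈ S, 0 < n) ∧
      (∀ a ∈ S, ∀ b ∈ S, ∃ c ∈ S, a ∣ c ∧ b ∣ c) ∧
      ∃ K : IntermediateField ℚ ℂ,
        K = IntermediateField.adjoin ℚ
          {z : ℂ | ∃ n ∈ S, ∃ ζ : ℂ, IsPrimitiveRoot ζ n ∧ z = ζ + ζ⁻¹} ∧
        ∃ m : ℕ, ∀ x : ℂ, x ∈ K → IsIntegral ℤ x →
          (∃ k : ℕ, ∃ f : Fin k → ℂ, (∀ i, f i ∈ K ∧ IsIntegral ℤ (f i)) ∧
              x = ∑ i, f i ^ 2) →
          ∃ g : Fin m → ℂ, (∀ i, g i ∈ K ∧ IsIntegral ℤ (g i)) ∧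
              x = ∑ i, g i ^ 2) := by
  rintro ⟨S, hS, hpos, hdir, K, hK, m, h⟩
  obtain ⟨f, hf, hne⟩ := H618Z.PyMain.main S hS hpos hdir K hK m
  obtain ⟨g, hg, hsum⟩ := h (∑ i, f i ^ 2) (K.sum_mem fun i _ => K.pow_mem (hf i).1 2)
    (IsIntegral.sum _ fun i _ => (hf i).2.pow 2) ⟨m + 1, f, hf, rfl⟩
  exact hne g hg hsum

end Pool.Agent.S16884
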