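import Pool.Statements.S16891
import Pool.Agent.H77Z.Py.Small

set_option autoImplicit false
open Pool Pool.MP_4e97f5_nt

namespace Pool.Agent.S16891

/-- For every n ≥ 1 there is an infinite-degree totally real algebraic extension of ℚ whose ring of integers has Pythagoras number exactly n. -/
theorem result :
    ∀ n : ℕ, 1 ≤ n →
      ∃ (K : Type) (_ : Field K) (_ : CharZero K),
        Algebra.IsAlgebraic ℚ K ∧
        ¬ FiniteDimensional ℚ K ∧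
        (∀ φ : K →+* ℂ, ∀ x : K, (φ x).im = 0) ∧
        (∀ x : K,
          (∃ m : ℕ, ∃ g : Fin m → K, (∀ i, IsIntegral ℤ (g i)) ∧ x = ∑ i, g i ^ 2) →
          ∃ f : Fin n → K, (∀ i, IsIntegral ℤ (f i)) ∧ x = ∑ i, f i ^ 2) ∧
        (∃ x : K,
          (∃ m : ℕ, ∃ g : Fin m → K, (∀ i, IsIntegral ℤ (g i)) ∧ x = ∑ i, g i ^ 2) ∧
          ∀ f : Fin (n - 1) → K, (∀ i, IsIntegral ℤ (f i)) → x ≠ ∑ i, f i ^ 2) := by
  intro n hn
  rcases n with _ | _ | _ | n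
  · omega
  · obtain ⟨h1, h2, h3, h4⟩ := H77Z.Py.case_one
    refine ⟨H77Z.Py.Tot, inferInstance, inferInstance, h1, h2, h3, fun x ⟨m, hm⟩ => h4 m x hm,
      1, ⟨1, fun _ => 1, fun _ => isIntegral_one, by simp⟩, fun f _ => by simp⟩
  · obtain ⟨K, h1, h2, h3, h4, z, hz1, hz2⟩ := H77Z.Py.case_two
    exact ⟨K, inferInstance, inferInstance, h1, h2, h3,
      fun x ⟨m, hm⟩ => H77Z.Py.RepT.of_step h4 m x hm, z, hz1, fun f hf h => hz2 ⟨f, hf, h⟩⟩
  · obtain ⟨K, h1, h2, h3, h4, z, hz1, hz2⟩ := H77Z.Py.tower n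
    exact ⟨K, inferInstance, inferInstance, h1, h2, h3,
      fun x ⟨m, hm⟩ => H77Z.Py.RepT.of_step h4 m x hm, z, hz1, fun f hf h => hz2 ⟨f, hf, h⟩⟩

end Pool.Agent.S16891
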