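import Pool.Statements.S16898
import Pool.Agent.H318Z.LWInt

set_option autoImplicit false
open Pool Pool.MP_4eb8d9_nt

namespace Pool.Agent.S16898

/-- The negation of the preceding statement: For each ε>0 there is C>0 such that for all m and nonzero integers a_i, b_i with product a_i^b_i ≠ 1, ∣product − 1∣ ≥ C^m·max∣b_i∣ / (∏∣b_i∣·∏∣a_i∣)^(1+ε). -/
theorem result :
    ¬ (∀ ε : ℝ, 0 < ε → ∃ C : ℝ, 0 < C ∧
      ∀ (m : ℕ) (a b : Fin m → ℤ),
        (∀ i, a i ≠ 0) → (∀ i, b i ≠ 0) →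
        (∏ i, ((a i : ℝ) ^ (b i))) ≠ 1 →
        C ^ m * ((Finset.univ.sup fun i => (b i).natAbs : ℕ) : ℝ) /
            ((∏ i, |((b i : ℤ) : ℝ)|) * (∏ i, |((a i : ℤ) : ℝ)|)) ^ (1 + ε)
          ≤ |(∏ i, ((a i : ℝ) ^ (b i))) - 1|) := by
  intro h
  obtain ⟨C, hC, h⟩ := h (1 / 28) (by norm_num)
  obtain ⟨t, ht, h1, h2⟩ := Pool.Agent.H318Z.LW.int_family (C ^ 7) (by positivity)
  have h3 := h 7 (fun i => (Pool.Agent.H318Z.LW.ia t i : ℤ)) (Pool.Agent.H318Z.LW.ib t)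
    (fun i => by exact_mod_cast (Pool.Agent.H318Z.LW.ia_pos t ht i).ne')
    (Pool.Agent.H318Z.LW.ib_ne t ht) (by simpa using h1)
  simp only [Int.cast_natCast, Nat.abs_cast] at h3
  exact absurd h2 (not_lt.mpr h3)

end Pool.Agent.S16898
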