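import Pool.Statements.S17048
import Pool.Agent.H861Z.Smooth.Asm

set_option autoImplicit false
open Pool Pool.MP_5968ce_nt

namespace Pool.Agent.S17048

/-- The negation of the preceding statement: For every ε>0 and all large k, any k consecutive integers n+1..n+k include one whose part made of primes below k is at most εk; i.e. max over n of min over i of A(n+i,k) is o(k). -/
theorem result :
    ¬ (∀ ε : ℝ, 0 < ε → ∃ K : ℕ, ∀ k : ℕ, K ≤ k → ∀ n : ℕ,
      ∃ i ∈ Finset.Icc 1 k,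
        ((∏ p ∈ (Finset.range k).filter Nat.Prime, p ^ ((n + i).factorization p) : ℕ) : ℝ)
          ≤ ε * (k : ℝ)) := by
  intro h
  obtain ⟨m, hm⟩ : ∃ m : ℕ, 2000000 ≤ m := ⟨_, le_rfl⟩
  have hm0 : (0 : ℝ) < m := by exact_mod_cast (by omega : 0 < m)
  obtain ⟨K, hK⟩ := h (1 / (640000 * (m : ℝ) ^ 3)) (by positivity)
  obtain ⟨k, H, h1, h2, n, h3⟩ := Pool.Agent.H861Z.Smooth.lower m hm K
  obtain ⟨i, hi, h4⟩ := hK k h1 n
  have h5 : 1 / (640000 * (m : ℝ) ^ 3) * (k : ℝ) = H := by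
    rw [h2]
    push_cast
    field_simp
  rw [h5] at h4
  exact absurd (h3 i hi) (not_lt.2 (by exact_mod_cast h4))

end Pool.Agent.S17048
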