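-- Real twisted cubic on the quartic x^4+y^4=z^4+w^4 (defined over Q(sqrt 2)).
import Pool.Statements.S17143

set_option autoImplicit false
open Pool Pool.MP_6023ab_nt

namespace Pool.Agent.S17143

open MvPolynomial

/-- `sqrt 2` as a constant polynomial. -/
noncomputable def s : MvPolynomial (Fin 2) ℝ := C (Real.sqrt 2)

lemma s_sq : s ^ 2 = 2 := by
  unfold s
  rw [← C_pow, Real.sq_sqrt (by norm_num)]
  rfl

noncomputable def p : MvPolynomial (Fin 2) ℝ := X 0 ^ 3 - X 0 * X 1 ^ 2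
noncomputable def u : MvPolynomial (Fin 2) ℝ := X 0 ^ 2 * X 1 + X 0 ^ 2 * X 1 + X 1 ^ 3
noncomputable def q : MvPolynomial (Fin 2) ℝ := X 0 ^ 3 + X 0 * X 1 ^ 2 + X 0 * X 1 ^ 2
noncomputable def v : MvPolynomial (Fin 2) ℝ := X 0 ^ 2 * X 1 - X 1 ^ 3

noncomputable def F : Fin 4 → MvPolynomial (Fin 2) ℝ :=
  ![p + s * u, s * q - v, p - s * u, s * q + v]

lemma h30 : (X 0 ^ 3 : MvPolynomial (Fin 2) ℝ).IsHomogeneous 3 := isHomogeneous_X_pow _ _
lemma h03 : (X 1 ^ 3 : MvPolynomial (Fin 2) ℝ).IsHomogeneous 3 := isHomogeneous_X_pow _ _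
lemma h21 : (X 0 ^ 2 * X 1 : MvPolynomial (Fin 2) ℝ).IsHomogeneous 3 :=
  (isHomogeneous_X_pow (0 : Fin 2) 2).mul (isHomogeneous_X ℝ (1 : Fin 2))
lemma h12 : (X 0 * X 1 ^ 2 : MvPolynomial (Fin 2) ℝ).IsHomogeneous 3 :=
  (isHomogeneous_X ℝ (0 : Fin 2)).mul (isHomogeneous_X_pow (1 : Fin 2) 2)

lemma hp : p.IsHomogeneous 3 := h30.sub h12
lemma hu : (s * u).IsHomogeneous 3 := ((h21.add h21).add h03).C_mul _
lemma hq : (s * q).IsHomogeneous 3 := ((h30.add h12).add h12).C_mul _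
lemma hv : v.IsHomogeneous 3 := h21.sub h03

lemma hF (i : Fin 4) : (F i).IsHomogeneous 3 := by
  fin_cases i
  · exact hp.add hu
  · exact hq.sub hv
  · exact hp.sub hu
  · exact hq.add hv

/-- values at `(1,0)` -/
noncomputable def a : Fin 4 → ℝ := ![1, Real.sqrt 2, 1, Real.sqrt 2]
/-- values at `(0,1)` -/
noncomputable def b : Fin 4 → ℝ := ![Real.sqrt 2, 1, -Real.sqrt 2, -1]

lemma ea (i : Fin 4) : eval ![1, 0] (F i) = a i := by
  fin_cases i <;> simp [F, a, p, q, u, v, s]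

lemma eb (i : Fin 4) : eval ![0, 1] (F i) = b i := by
  fin_cases i <;> simp [F, b, p, q, u, v, s]

lemma dab (i j : Fin 4) (h : i ≠ j) : a i * b j ≠ a j * b i := by
  have h2 : Real.sqrt 2 * Real.sqrt 2 = 2 := Real.mul_self_sqrt (by norm_num)
  have h0 : 0 < Real.sqrt 2 := Real.sqrt_pos.2 (by norm_num)
  fin_cases i <;> fin_cases j <;> first
    | exact absurd rfl h
    | (simp only [a, b]; intro hh; simp at hh <;> nlinarith)

lemma ident : F 0 ^ 4 + F 1 ^ 4 = F 2 ^ 4 + F 3 ^ 4 := by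
  have hs := s_sq
  show (p + s * u) ^ 4 + (s * q - v) ^ 4 = (p - s * u) ^ 4 + (s * q + v) ^ 4
  have key : p * u * (p ^ 2 + 2 * u ^ 2) = q * v * (2 * q ^ 2 + v ^ 2) := by
    unfold p u q v; ring
  linear_combination 8 * s * key + 8 * s * (p * u ^ 3 - q ^ 3 * v) * hs

/-- There is a degree k between 1 and 6 and four nonzero, pairwise non-proportional real binary forms of degree k with f1^4 + f2^4 = f3^4 + f4^4. -/
theorem result :
    ∃ k : ℕ, 1 ≤ k ∧ k < 7 ∧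
      ∃ f : Fin 4 → MvPolynomial (Fin 2) ℝ,
        (∀ i, f i ≠ 0 ∧ (f i).IsHomogeneous k) ∧
        (∀ i j, i ≠ j → ∀ c : ℝ, f i ≠ c • f j) ∧
        f 0 ^ 4 + f 1 ^ 4 = f 2 ^ 4 + f 3 ^ 4 := by
  refine ⟨3, by norm_num, by norm_num, F, fun i => ⟨fun h => ?_, hF i⟩, fun i j hij c h => ?_, ident⟩
  · have h1 := ea i
    rw [h, map_zero] at h1
    have h0 : 0 < Real.sqrt 2 := Real.sqrt_pos.2 (by norm_num)
    fin_cases i <;> simp [a] at h1 <;> linarith
  · have h1 := ea i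
    have h2 := eb i
    rw [h, smul_eval, ea] at h1
    rw [h, smul_eval, eb] at h2
    apply dab i j hij
    rw [← h1, ← h2]; ring

end Pool.Agent.S17143
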