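import Pool.Statements.S17405
import Pool.Agent.H203Z.PQQuad

set_option autoImplicit false
open Pool Pool.MP_725bd9_nt

namespace Pool.Agent.S17405

/-- For primes p<q that are not a Wieferich pair (not both p^(q-1)≡1 mod q² and q^(p-1)≡1 mod p²), there are no four distinct positive integers whose pairwise products plus one are all of the form p^i q^j. -/
theorem result :
    ∀ p q : ℕ, p.Prime → q.Prime → p < q →
      ¬ (p ^ (q - 1) ≡ 1 [MOD q ^ 2] ∧ q ^ (p - 1) ≡ 1 [MOD p ^ 2]) →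
      ¬ ∃ a b c d : ℕ, 0 < a ∧ a < b ∧ b < c ∧ c < d ∧
        ∀ x ∈ ({a, b, c, d} : Finset ℕ), ∀ y ∈ ({a, b, c, d} : Finset ℕ),
          x ≠ y → ∃ i j : ℕ, x * y + 1 = p ^ i * q ^ j := by
  rintro p q hp hq hpq - ⟨a, b, c, d, ha, hab, hbc, hcd, h⟩
  obtain ⟨i1, j1, h1⟩ := h a (by simp) b (by simp) (by omega)
  obtain ⟨i2, j2, h2⟩ := h a (by simp) c (by simp) (by omega)
  obtain ⟨i3, j3, h3⟩ := h a (by simp) d (by simp) (by omega)
  obtain ⟨i4, j4, h4⟩ := h b (by simp) c (by simp) (by omega)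
  obtain ⟨i5, j5, h5⟩ := h b (by simp) d (by simp) (by omega)
  obtain ⟨i6, j6, h6⟩ := h c (by simp) d (by simp) (by omega)
  exact Pool.Agent.H203Z.PQQuad.main hp hq hpq.ne ha hab hbc hcd h1 h2 h3 h4 h5 h6

end Pool.Agent.S17405
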