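import Pool.Statements.S17591
import Pool.Agent.H40Z.PerFinal

set_option autoImplicit false
open MeasureTheory Classical
open Pool Pool.MP_81c263_nt

namespace Pool.Agent.S17591

open Pool.Agent.H40Z.Disc

set_option maxHeartbeats 400000 in
/-- For all p≥1 and d≥2 there is C such that for every N some N-point set in [0,1)^d has periodic L_p discrepancy (count in periodic boxes minus N times volume, L_p over box corners) at most C(1+log N)^((d-1)/2). -/
theorem result :
    ∀ p : ℝ, 1 ≤ p → ∀ d : ℕ, 2 ≤ d → ∃ C : ℝ, 0 < C ∧ ∀ N : ℕ,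
      ∃ P : Finset (Fin d → ℝ), P.card = N ∧
        (∀ z ∈ P, ∀ i, z i ∈ Set.Ico (0 : ℝ) 1) ∧
        (∫ x in Set.pi Set.univ (fun _ : Fin d => Set.Ico (0 : ℝ) 1),
          ∫ y in Set.pi Set.univ (fun _ : Fin d => Set.Ico (0 : ℝ) 1),
            |((P.filter (fun z => ∀ i : Fin d,
                  (x i ≤ y i ∧ x i ≤ z i ∧ z i < y i) ∨
                  (y i < x i ∧ (z i < y i ∨ x i ≤ z i)))).card : ℝ)
              - (N : ℝ) * ∏ i : Fin d,
                  (if x i ≤ y i then y i - x i else 1 - x i + y i)| ^ p)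
          ^ (1 / p)
        ≤ C * (1 + Real.log (N : ℝ)) ^ (((d : ℝ) - 1) / 2) := by
  intro p hp d hd
  obtain ⟨s, rfl⟩ : ∃ s, d = s + 1 := ⟨d - 1, by omega⟩
  obtain ⟨C, hC, H⟩ := Pool.Agent.H40Z.Per.main p hp s
  refine ⟨C, hC, fun N => ?_⟩
  have hp0 : p ≠ 0 := by linarith
  rcases Nat.eq_zero_or_pos N with rfl | hN
  · refine ⟨∅, rfl, by simp, ?_⟩
    simp [Real.zero_rpow hp0, Real.zero_rpow (inv_ne_zero hp0), hC.le]
  · obtain ⟨P, hinj, hmem, hP⟩ := H N hN
    refine ⟨(Finset.range N).image P, ?_, ?_, ?_⟩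
    · rw [Finset.card_image_of_injective _ hinj, Finset.card_range]
    · intro z hz i
      obtain ⟨n, hn, rfl⟩ := Finset.mem_image.1 hz
      exact hmem n (Finset.mem_range.1 hn) i
    · have e : (((s + 1 : ℕ) : ℝ) - 1) / 2 = (s : ℝ) / 2 := by push_cast; ring
      rw [e]
      simp only [card_filter_eq, ind_forall, per_eq1, len_eq]
      refine le_trans (le_of_eq ?_) hP
      congr 2
      funext x
      congr 1
      funext y
      unfold disc
      rw [Finset.sum_image (fun a _ b _ h => hinj h)]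

end Pool.Agent.S17591
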