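import Pool.Statements.S17685
import Pool.Agent.H648Z.SY.Main
import Pool.Agent.H362R2.CM.Final

set_option autoImplicit false
open Pool Pool.MP_89da58_nt

namespace Pool.Agent.S17685

/-- For every colouring of the primes with finitely many colours, some colour class E has E − E syndetic in the integers: there is L such that every integer window [n, n+L] contains a difference p − q of two primes of that colour. -/
theorem result :
    ∀ k : ℕ, ∀ c : ℕ → Fin k, ∃ i : Fin k, ∃ L : ℕ, ∀ n : ℤ,
      ∃ p q : ℕ, p.Prime ∧ q.Prime ∧ c p = i ∧ c q = i ∧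
        n ≤ (p : ℤ) - (q : ℤ) ∧ (p : ℤ) - (q : ℤ) ≤ n + (L : ℤ) := by
  intro k c
  exact Pool.Agent.H648Z.SY.main (fun T => Pool.Agent.H362R2.CM.quarter T) k c

end Pool.Agent.S17685
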