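import Pool.Statements.S17720
import Pool.Agent.H234Z.CF5

set_option autoImplicit false
open Pool Pool.MP_8d5d9c_nt

namespace Pool.Agent.S17720

/-- The negation of the preceding statement: If x is continued-fraction normal (its Gauss-map orbit is equidistributed for the Gauss measure) and q, r are irrational roots of nonzero integer quadratics with q nonzero, then q times x plus r is also continued-fraction normal. -/
theorem result :
    ¬ (∀ x q r : ℝ,
      (Irrational x ∧ ∀ t : ℝ, 0 ≤ t → t ≤ 1 →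
        Filter.Tendsto
          (fun N : ℕ =>
            (((Finset.range N).filter
              (fun n => (fun y : ℝ => Int.fract (1 / y))^[n] (Int.fract x) < t)).card : ℝ) / (N : ℝ))
          Filter.atTop (nhds (Real.log (1 + t) / Real.log 2))) →
      (Irrational q ∧ ∃ a b c : ℤ, (a ≠ 0 ∨ b ≠ 0 ∨ c ≠ 0) ∧
        (a : ℝ) * q ^ 2 + (b : ℝ) * q + (c : ℝ) = 0) →
      (Irrational r ∧ ∃ a b c : ℤ, (a ≠ 0 ∨ b ≠ 0 ∨ c ≠ 0) ∧
        (a : ℝ) * r ^ 2 + (b : ℝ) * r + (c : ℝ) = 0) →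
      q ≠ 0 →
      (Irrational (q * x + r) ∧ ∀ t : ℝ, 0 ≤ t → t ≤ 1 →
        Filter.Tendsto
          (fun N : ℕ =>
            (((Finset.range N).filter
              (fun n => (fun y : ℝ => Int.fract (1 / y))^[n] (Int.fract (q * x + r)) < t)).card : ℝ) / (N : ℝ))
          Filter.atTop (nhds (Real.log (1 + t) / Real.log 2)))) := by
  intro H
  have h2 : √2 * √2 = 2 := Real.mul_self_sqrt (by norm_num)
  have h0 : 0 ≤ √2 := Real.sqrt_nonneg _
  obtain ⟨x, hx, h3, h4⟩ := Pool.Agent.H234Z.CF.main √2 √2 (by nlinarith) (by nlinarith)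
    (fun y hy => by
      have e : √2 * (y : ℝ) + √2 = √2 * ((y + 1 : ℚ) : ℝ) := by push_cast; ring
      rw [e]
      exact irrational_sqrt_two.mul_ratCast (by linarith))
  have hq : Irrational √2 ∧ ∃ a b c : ℤ, (a ≠ 0 ∨ b ≠ 0 ∨ c ≠ 0) ∧
      (a : ℝ) * √2 ^ 2 + (b : ℝ) * √2 + (c : ℝ) = 0 :=
    ⟨irrational_sqrt_two, 1, 0, -2, Or.inl one_ne_zero, by push_cast; nlinarith⟩
  have h5 := (H x √2 √2 ⟨hx, fun t t0 t1 => by
    rw [← Pool.Agent.H234Z.CF.F_eq t0 t1]
    exact h3 t⟩ hq hq irrational_sqrt_two.ne_zero).2 (1 / 2) (by norm_num) (by norm_num)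
  rw [← Pool.Agent.H234Z.CF.F_eq (by norm_num) (by norm_num)] at h5
  exact h4 h5

end Pool.Agent.S17720
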