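import Pool.Statements.S17760
import Pool.Agent.H318Z.LWRat

set_option autoImplicit false
open Pool Pool.MP_90c6bd_nt

namespace Pool.Agent.S17760

/-- The negation of the preceding statement: For each ε>0 there is C>0 such that for all n, positive rationals a_j, integers b_j with Λ=Σ b_j log a_j ≠ 0: ∣Λ∣ > C^n·B/(ΠB_j·ΠA_j²)^(1+ε), where B_j=max(∣b_j∣,1), B=max B_j, A_j=max(num, den) of a_j. -/
theorem result :
    ¬ (∀ ε : ℝ, 0 < ε → ∃ C : ℝ, 0 < C ∧
      ∀ (n : ℕ) (a : Fin n → ℚ) (b : Fin n → ℤ),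
        (∀ j, 0 < a j) →
        (∑ j, (b j : ℝ) * Real.log (a j : ℝ)) ≠ 0 →
        C ^ n * (((Finset.univ.sup fun j => max (b j).natAbs 1) : ℕ) : ℝ) /
            ((∏ j, (((max (b j).natAbs 1 : ℕ)) : ℝ)) *
              ∏ j, (((max (a j).num.natAbs (a j).den : ℕ)) : ℝ) ^ 2) ^ (1 + ε)
          < |∑ j, (b j : ℝ) * Real.log (a j : ℝ)|) := by
  intro h
  obtain ⟨C, hC, h⟩ := h (1 / 18) (by norm_num)
  obtain ⟨a, b, h0, h1, h2⟩ := Pool.Agent.H318Z.LW.rat_family (C ^ 5) (by positivity)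
  exact absurd (h 5 a b h0 h1) (not_lt.mpr h2)

end Pool.Agent.S17760
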