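import Pool.Statements.S17771
import Pool.Agent.H793Z.ErdB
import Pool.Agent.H793Z.ErdC

set_option autoImplicit false
open Pool Pool.MP_91e459_nt

namespace Pool.Agent.S17771

/-- For all n ≥ 1, m ≥ 2 with (1−1/m)^n > 1/2 and (1−1/(m−1))^n < 1/2: (m−1)^n exceeds 1^n+…+(m−2)^n and (m+1)^n is less than 1^n+…+m^n. -/
theorem result :
    ∀ m n : ℕ, 1 ≤ n → 2 ≤ m →
      (1 - 1 / (m : ℝ)) ^ n > 1 / 2 →
      (1 - 1 / ((m : ℝ) - 1)) ^ n < 1 / 2 →
      (m - 1) ^ n > ∑ i ∈ Finset.Icc 1 (m - 2), i ^ n ∧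
      (m + 1) ^ n < ∑ i ∈ Finset.Icc 1 m, i ^ n := by
  intro m n hn hm H1 H2
  have hmR : (2 : ℝ) ≤ m := by exact_mod_cast hm
  constructor
  · obtain ⟨M, rfl⟩ : ∃ M, m = M + 2 := ⟨m - 2, by omega⟩
    have h1 : 2 * M ^ n ≤ (M + 1) ^ n := by
      have hM : (0 : ℝ) < (M : ℝ) + 1 := by positivity
      have e : 1 - 1 / (((M + 2 : ℕ) : ℝ) - 1) = (M : ℝ) / ((M : ℝ) + 1) := by
        push_cast
        have : (M : ℝ) + 2 - 1 = M + 1 := by ring
        rw [this]
        field_simp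
        ring
      rw [e, div_pow, div_lt_iff₀ (by positivity)] at H2
      have : (2 : ℝ) * (M : ℝ) ^ n ≤ ((M : ℝ) + 1) ^ n := by linarith
      exact_mod_cast this
    exact Pool.Agent.H793Z.Erd.first h1 M le_rfl
  · rcases le_or_gt 2000 m with h | h
    · exact Pool.Agent.H793Z.Erd.large h H1
    · obtain ⟨M, rfl⟩ : ∃ M, m = M + 1 := ⟨m - 1, by omega⟩
      have h1 : (M + 1) ^ n < 2 * M ^ n := by
        have hM : (0 : ℝ) < (M : ℝ) + 1 := by positivity
        have e : 1 - 1 / ((M + 1 : ℕ) : ℝ) = (M : ℝ) / ((M : ℝ) + 1) := by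
          push_cast
          field_simp
          ring
        rw [e, div_pow, gt_iff_lt, lt_div_iff₀ (by positivity)] at H1
        have : ((M : ℝ) + 1) ^ n < 2 * (M : ℝ) ^ n := by linarith
        exact_mod_cast this
      rcases Nat.lt_or_ge M 2 with h2 | h2
      · have : M = 1 := by omega
        subst this
        have h3 : 2 ^ 1 ≤ 2 ^ n := Nat.pow_le_pow_right (by norm_num) hn
        simp at h1 h3
        omega
      · exact Pool.Agent.H793Z.Erd.small (by omega) h (by simpa using h1)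

end Pool.Agent.S17771
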