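import Pool.Statements.S17839
import Pool.Agent.H282Z.Affine

set_option autoImplicit false
open MeasureTheory Filter
open Pool Pool.MP_97775c_nt

namespace Pool.Agent.S17839

/-- For every affine subspace of R^n of dimension at least 1 and every nonnegative non-increasing psi with sum of psi(q)^n divergent, almost every point x of the subspace has all coordinates of qx within psi(q) of integers for infinitely many q. -/
theorem result :
    ∀ (n d : ℕ), 1 ≤ d →
      ∀ (a : Fin n → ℝ) (A : (Fin d → ℝ) →ₗ[ℝ] (Fin n → ℝ)),
        Function.Injective A →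
        ∀ ψ : ℕ → ℝ, (∀ q, 0 ≤ ψ q) → Antitone ψ →
          ¬ Summable (fun q : ℕ => ψ q ^ n) →
          ∀ᵐ t ∂(volume : Measure (Fin d → ℝ)),
            ∃ᶠ q : ℕ in atTop, ∀ i : Fin n,
              |(q : ℝ) * (a i + A t i) - (round ((q : ℝ) * (a i + A t i)) : ℝ)| < ψ q := by
  intro n d hd a A hA ψ h0 hanti hdiv
  exact Pool.Agent.H282Z.khintchine_affine n d hd a A hA ψ h0 hanti hdiv

end Pool.Agent.S17839
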