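import Pool.Statements.S17899
import Pool.Agent.H296Z.Totient

set_option autoImplicit false
open Filter Topology
open Pool Pool.MP_9d1108_nt

namespace Pool.Agent.S17899

/-- There is F with F(x)→∞ and F(n)/φ(n)→0 along a density-one set, such that for some C only finitely many x have more than C·F(x) integers n with n+φ(n) in the open interval (x, x+F(x)). -/
theorem result :
    ∃ F : ℕ → ℝ, Tendsto F atTop atTop ∧
      (∃ A : Set ℕ,
        Tendsto (fun N : ℕ => ((A ∩ Set.Iio N).ncard : ℝ) / (N : ℝ)) atTop (𝓝 1) ∧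
        Tendsto (fun n : ℕ => F n / (Nat.totient n : ℝ)) (atTop ⊓ 𝓟 A) (𝓝 0)) ∧
      ¬ (∀ C : ℝ, Set.Infinite {x : ℕ |
          ((Set.ncard {n : ℕ | (x : ℝ) < (n : ℝ) + (Nat.totient n : ℝ) ∧
              (n : ℝ) + (Nat.totient n : ℝ) < (x : ℝ) + F x} : ℕ) : ℝ) > C * F x}) := by
  obtain ⟨F, h1, h2, h3⟩ := Pool.Agent.H296Z.Totient.main
  refine ⟨F, h1, ⟨Set.univ, ?_, h2.mono_left inf_le_left⟩, fun h => ?_⟩
  · refine tendsto_const_nhds.congr' ?_
    filter_upwards [eventually_ge_atTop 1] with N hN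
    have hN' : (N : ℝ) ≠ 0 := by exact_mod_cast (by omega : N ≠ 0)
    have : (Set.univ ∩ Set.Iio N : Set ℕ) = ((Finset.range N : Finset ℕ) : Set ℕ) := by
      ext k
      simp
    rw [this, Set.ncard_coe_finset, Finset.card_range, div_self hN']
  · apply h 6
    rw [← Nat.cofinite_eq_atTop, eventually_cofinite] at h3
    refine h3.subset fun x hx => ?_
    exact not_le.2 hx

end Pool.Agent.S17899
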