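import Pool.Statements.S17987
import Pool.Agent.H374Z.SN.Final

set_option autoImplicit false
open Pool Pool.MP_a23773_nt

namespace Pool.Agent.S17987

/-- For the digit sequence of 0.235711131719... (primes concatenated in base 10), it is not the case that for every block length m and every m-digit block k, the block counts obey the iterated-logarithm limsup/liminf law (strong normality to base 10). -/
theorem result :
  ∀ d : ℕ → ℕ,
    (∀ n : ℕ,
      (List.range ((List.range n).map
          (fun i => (Nat.digits 10 (Nat.nth Nat.Prime i)).length)).sum).map d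
        = (List.range n).flatMap
          (fun i => (Nat.digits 10 (Nat.nth Nat.Prime i)).reverse)) →
    ¬ (∀ m : ℕ, 1 ≤ m → ∀ k : ℕ, k < 10 ^ m →
        (∀ ε : ℝ, 0 < ε → ∀ᶠ n : ℕ in Filter.atTop,
          ((((Finset.range n).filter
              (fun j => ∑ i ∈ Finset.range m, d (j * m + i) * 10 ^ (m - 1 - i) = k)).card : ℝ)
              - (n : ℝ) / (10 : ℝ) ^ m)
            / Real.sqrt (2 * (n : ℝ) * Real.log (Real.log (n : ℝ)))
            < Real.sqrt ((10 : ℝ) ^ m - 1) / (10 : ℝ) ^ m + ε) ∧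
        (∀ ε : ℝ, 0 < ε → ∃ᶠ n : ℕ in Filter.atTop,
          Real.sqrt ((10 : ℝ) ^ m - 1) / (10 : ℝ) ^ m - ε <
          ((((Finset.range n).filter
              (fun j => ∑ i ∈ Finset.range m, d (j * m + i) * 10 ^ (m - 1 - i) = k)).card : ℝ)
              - (n : ℝ) / (10 : ℝ) ^ m)
            / Real.sqrt (2 * (n : ℝ) * Real.log (Real.log (n : ℝ)))) ∧
        (∀ ε : ℝ, 0 < ε → ∀ᶠ n : ℕ in Filter.atTop,
          -(Real.sqrt ((10 : ℝ) ^ m - 1) / (10 : ℝ) ^ m) - ε <
          ((((Finset.range n).filter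
              (fun j => ∑ i ∈ Finset.range m, d (j * m + i) * 10 ^ (m - 1 - i) = k)).card : ℝ)
              - (n : ℝ) / (10 : ℝ) ^ m)
            / Real.sqrt (2 * (n : ℝ) * Real.log (Real.log (n : ℝ)))) ∧
        (∀ ε : ℝ, 0 < ε → ∃ᶠ n : ℕ in Filter.atTop,
          ((((Finset.range n).filter
              (fun j => ∑ i ∈ Finset.range m, d (j * m + i) * 10 ^ (m - 1 - i) = k)).card : ℝ)
              - (n : ℝ) / (10 : ℝ) ^ m)
            / Real.sqrt (2 * (n : ℝ) * Real.log (Real.log (n : ℝ)))
            < -(Real.sqrt ((10 : ℝ) ^ m - 1) / (10 : ℝ) ^ m) + ε)) := by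
  intro d hd H
  obtain ⟨P, hb, hg⟩ := Pool.Agent.H374Z.SN.exists_PD 10 (by norm_num) Polynomial.X (by simp) id
    (by simp)
  refine P.not_lil (d := d) (fun n hn => by rw [hg]; exact hn) ?_ ?_
  · rw [hb, hg]
    intro j i hi
    have h1 := hd (j + 1)
    have h2 : ∀ n, ((List.range n).map
        (fun i => (Nat.digits 10 (Nat.nth Nat.Prime i)).length)).sum
        = Pool.Agent.H374Z.SN.SS 10 (fun j => id (Nat.nth Nat.Prime j)) n := fun n => rfl
    have h3 := congrArg List.length (hd j)
    rw [List.length_map, List.length_range, h2] at h3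
    have h4 := congrArg (fun l => l.getD
      (Pool.Agent.H374Z.SN.SS 10 (fun j => id (Nat.nth Nat.Prime j)) j + i) 0) h1
    rw [h2, Pool.Agent.H374Z.SN.SS_succ, List.range_succ (n := j), List.flatMap_append,
      List.getD_append_right _ _ _ _ (by rw [← h3]; omega), ← h3, Nat.add_sub_cancel_left,
      List.getD_eq_getElem _ _ (by simpa using hi)] at h4
    simpa using h4
  · rw [hb]
    intro m hm k hk
    obtain ⟨h1, -, h2, -⟩ := H m hm k hk
    unfold Pool.Agent.H374Z.SN.cnt Pool.Agent.H374Z.SN.blk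
    simp only [mul_comm m]
    exact ⟨(h1 1 one_pos).mono fun n hn => by exact_mod_cast hn.le,
      (h2 1 one_pos).mono fun n hn => by exact_mod_cast hn.le⟩

end Pool.Agent.S17987
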