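import Pool.Statements.S18225
import Pool.Agent.H923Z.CEFinal

set_option autoImplicit false
open Filter
open Pool Pool.MP_b5ad3e_nt

namespace Pool.Agent.S18225

/-- There is a base b≥2 and a strictly increasing positive sequence A with A(N)>N^θ eventually for each θ<1 such that the base-b concatenation number of A has, in every base b^m, each digit count's limsup/liminf of (count−n/B)/√(2n log log n) equal to ±√(B−1)/B. -/
theorem result :
    ∃ b : ℕ, 2 ≤ b ∧ ∃ a : ℕ → ℕ, StrictMono a ∧ (∀ n, 0 < a n) ∧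
      (∀ θ : ℝ, θ < 1 → ∀ᶠ N : ℕ in atTop,
          (N : ℝ) ^ θ < (Nat.card {n : ℕ | a n ≤ N} : ℝ)) ∧
      ∃ d : ℕ → ℕ,
        (∀ n r : ℕ, r < (Nat.digits b (a n)).length →
          d ((∑ j ∈ Finset.range n, (Nat.digits b (a j)).length) + r)
            = ((Nat.digits b (a n)).reverse).getD r 0) ∧
        ∃ ξ : ℝ, ξ = ∑' i : ℕ, (d i : ℝ) / (b : ℝ) ^ (i + 1) ∧
          ∀ m : ℕ, 1 ≤ m → ∀ k : ℕ, k < b ^ m →
            ∀ F : ℕ → ℝ,
              (∀ n : ℕ, F n =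
                ((((Finset.range n).filter
                    (fun i : ℕ => ⌊ξ * ((b : ℝ) ^ m) ^ (i + 1)⌋ % ((b : ℤ) ^ m) = (k : ℤ))).card : ℝ)
                  - (n : ℝ) / (b : ℝ) ^ m)
                / Real.sqrt (2 * (n : ℝ) * Real.log (Real.log (n : ℝ)))) →
              ∀ ε : ℝ, 0 < ε →
                (∀ᶠ n in atTop, F n < Real.sqrt ((b : ℝ) ^ m - 1) / (b : ℝ) ^ m + ε) ∧
                (∃ᶠ n in atTop, Real.sqrt ((b : ℝ) ^ m - 1) / (b : ℝ) ^ m - ε < F n) ∧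
                (∀ᶠ n in atTop, -(Real.sqrt ((b : ℝ) ^ m - 1) / (b : ℝ) ^ m) - ε < F n) ∧
                (∃ᶠ n in atTop, F n < -(Real.sqrt ((b : ℝ) ^ m - 1) / (b : ℝ) ^ m) + ε) := by
  obtain ⟨D⟩ := Pool.Agent.H923Z.CE.exists_data
  obtain ⟨a, ha1, ha2, ha3, d, hd1, hd2, hd3, hd4⟩ := D.exists_digits
  refine ⟨2, le_rfl, a, ha1, ha2, D.density ha3, d, hd1, _, rfl, ?_⟩
  intro m hm k hk F hF ε hε
  have hF' : F = fun n => (Pool.Agent.H923Z.CE.DD d m k n : ℝ) / 2 ^ m /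
      Pool.Agent.H923Z.CE.psi n := by
    funext n
    rw [hF n, Pool.Agent.H923Z.CE.count_eq d hd2 hd3 m k n]
    rfl
  obtain ⟨h1, h2, h3⟩ := D.lil hd4 hm hk ε hε
  subst hF'
  simp only [Nat.cast_ofNat]
  refine ⟨h1.mono fun n hn => (abs_lt.1 hn).2, h2, h1.mono fun n hn => ?_, h3.mono fun n hn => ?_⟩
  · linarith [(abs_lt.1 hn).1]
  · rw [neg_div] at hn
    linarith

end Pool.Agent.S18225
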