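import Pool.Statements.S18406
import Pool.Agent.H40Z.DiscStrip

set_option autoImplicit false
open Classical
open Pool Pool.MP_c36293_nt

namespace Pool.Agent.S18406

open Pool.Agent.H40Z.Disc MeasureTheory

set_option maxHeartbeats 400000 in
/-- The negation of the preceding statement: For every dimension d and every p ≥ 1 there is C such that for every N-point set in [0,1)^d, the p-th power periodic L_p discrepancy is at most C times the p-th power extreme L_p discrepancy. -/
theorem result :
    ¬ (∀ (d : ℕ), 1 ≤ d → ∀ (p : ℝ), 1 ≤ p → ∃ C : ℝ, 0 < C ∧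
      ∀ (N : ℕ), 1 ≤ N → ∀ P : Fin N → Fin d → ℝ, (∀ i j, 0 ≤ P i j ∧ P i j < 1) →
        (∫ x in Set.Icc (0 : Fin d → ℝ) 1, ∫ y in Set.Icc (0 : Fin d → ℝ) 1,
          |((Finset.univ.filter (fun i : Fin N => ∀ j : Fin d,
              (x j ≤ y j ∧ x j ≤ P i j ∧ P i j < y j) ∨
              (y j < x j ∧ (P i j < y j ∨ x j ≤ P i j)))).card : ℝ)
            - (N : ℝ) * ∏ j : Fin d, (if x j ≤ y j then y j - x j else 1 - x j + y j)| ^ p)
        ≤ C * ∫ x in Set.Icc (0 : Fin d → ℝ) 1, ∫ y in Set.Icc (0 : Fin d → ℝ) 1,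
          (if x ≤ y then
            |((Finset.univ.filter (fun i : Fin N => ∀ j : Fin d,
                x j ≤ P i j ∧ P i j < y j)).card : ℝ)
              - (N : ℝ) * ∏ j : Fin d, (y j - x j)| ^ p
           else 0)) := by
  intro H
  obtain ⟨C, hC, H⟩ := H 2 (by norm_num) 1 le_rfl
  obtain ⟨k, hk⟩ := exists_nat_ge (3072 * C + 13)
  have hk4 : 4 ≤ k := by
    have : (4 : ℝ) ≤ k := by linarith
    exact_mod_cast this
  have hn : 0 < k * k := by positivity
  have hkn : 4 * k ≤ k * k := Nat.mul_le_mul_right k hk4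
  have hN : 1 ≤ (k * k) * (k * k) := Nat.mul_pos hn hn
  have H1 := H ((k * k) * (k * k)) hN (PP (k * k) k) (PP_mem (k * k) k)
  simp only [Real.rpow_one, card_filter_eq, ind_forall, per_eq1, len_eq] at H1
  have low := periodic_lower (k * k) k hn hkn
  have hk0 : (0 : ℝ) < k := by linarith
  have hc1 : 1 - (k : ℝ) / ((k * k : ℕ) : ℝ) ≤ 1 := by
    have : 0 ≤ (k : ℝ) / ((k * k : ℕ) : ℝ) := by positivity
    linarith
  have hc0 : 0 ≤ 1 - (k : ℝ) / ((k * k : ℕ) : ℝ) := by
    have h1 : (k : ℝ) ≤ ((k * k : ℕ) : ℝ) := by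
      exact_mod_cast (le_trans (by omega) hkn : k ≤ k * k)
    have : (k : ℝ) / ((k * k : ℕ) : ℝ) ≤ 1 := by
      rw [div_le_one (by exact_mod_cast hn)]
      exact h1
    linarith
  apply final_contra C k hk hC
  refine low.trans (le_trans H1 (mul_le_mul_of_nonneg_left ?_ hC.le))
  refine le_trans (integral_mono_of_nonneg
    (g := fun _ => 2 * ((k * k : ℕ) : ℝ) +
      k * ((k * k : ℕ) : ℝ) * (1 - (1 - (k : ℝ) / ((k * k : ℕ) : ℝ))))
    ?_ (integrableOn_const (cube_ne_top 2)) ?_)
    (le_of_eq (by rw [setIntegral_const, cube_real, one_smul]))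
  · refine Filter.Eventually.of_forall fun x => integral_nonneg fun y => ?_
    simp only [Pi.zero_apply]
    split_ifs
    · exact abs_nonneg _
    · exact le_rfl
  · filter_upwards [ae_restrict_mem measurableSet_Icc] with x hx
    refine strip_integral _ _ _ _ hc0 hc1 ?_ ?_
    · intro y
      split_ifs
      · exact abs_nonneg _
      · exact le_rfl
    · intro y hy
      split_ifs with hxy
      · have hu := disc_upper (k * k) k hn (by omega) x y (mem_cube hx) (mem_cube hy) (hxy 0)
        refine le_trans (le_of_eq ?_) hu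
        unfold disc
        congr 2
        · refine Finset.sum_congr rfl fun i _ => Finset.prod_congr rfl fun j _ => ?_
          exact per_eq3 _ _ _ (hxy j)
        · congr 1
          refine Finset.prod_congr rfl fun j _ => ?_
          rw [← len_eq, if_pos (hxy j)]
      · have := ind_nonneg (1 - (k : ℝ) / ((k * k : ℕ) : ℝ) ≤ y 0)
        positivity

end Pool.Agent.S18406
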