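import Pool.Statements.S18471

set_option autoImplicit false
open Pool Pool.MP_c98567_nt

namespace Pool.Agent.S18471

lemma ncard_range_le {α β γ : Type} (f : ℕ → α) (g : ℕ → β) (c : ℕ → γ) (S : Finset γ)
    (hg : (Set.range g).Finite) (hc : ∀ n, c n ∈ S)
    (h : ∀ n n', g n = g n' → c n = c n' → f n = f n') :
    (Set.range f).ncard ≤ S.card * (Set.range g).ncard := by
  classical
  have key : ∀ y : α, ∃ n, y ∈ Set.range f → f n = y := by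
    intro y
    by_cases hy : y ∈ Set.range f
    · obtain ⟨n, hn⟩ := hy
      exact ⟨n, fun _ => hn⟩
    · exact ⟨0, fun h => absurd h hy⟩
  choose k hk using key
  have hfin : ((S : Set γ) ×ˢ Set.range g).Finite := S.finite_toSet.prod hg
  have := Set.ncard_le_ncard_of_injOn (s := Set.range f) (t := (S : Set γ) ×ˢ Set.range g)
    (fun y => (c (k y), g (k y))) (fun y _ => ⟨hc _, ⟨k y, rfl⟩⟩)
    (by
      intro y hy y' hy' hyy
      simp only [Prod.mk.injEq] at hyy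
      rw [← hk y hy, ← hk y' hy']
      exact h _ _ hyy.2 hyy.1) hfin
  rwa [Set.ncard_prod, Set.ncard_coe_finset] at this

lemma floor_step (b : ℕ) (hb : 2 ≤ b) (x : ℝ) (N j : ℕ) :
    ⌊x * (b : ℝ) ^ N⌋ = ⌊x * (b : ℝ) ^ (N + j)⌋ / ((b : ℤ) ^ j) := by
  have hb0 : (b : ℝ) ≠ 0 := by positivity
  have := Int.floor_div_natCast (x * (b : ℝ) ^ (N + j)) (b ^ j)
  push_cast at this
  rw [← this]
  congr 1
  rw [pow_add]
  field_simp

/-- equal blocks give congruent floors -/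
lemma modEq_of_blocks (b : ℕ) (hb : 2 ≤ b) (x : ℝ) (n n' m : ℕ)
    (h : ∀ i, i < m → ⌊x * (b : ℝ) ^ (n + i + 1)⌋ % (b : ℤ) = ⌊x * (b : ℝ) ^ (n' + i + 1)⌋ % (b : ℤ)) :
    ((b : ℤ) ^ m) ∣ ⌊x * (b : ℝ) ^ (n + m)⌋ - ⌊x * (b : ℝ) ^ (n' + m)⌋ := by
  induction m with
  | zero => simp
  | succ m ih =>
    obtain ⟨t, ht⟩ := ih (fun i hi => h i (by omega))
    have h1 := floor_step b hb x (n + m) 1
    have h2 := floor_step b hb x (n' + m) 1
    have h3 := h m (by omega)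
    rw [pow_one] at h1 h2
    have e1 := Int.mul_ediv_add_emod ⌊x * (b : ℝ) ^ (n + m + 1)⌋ (b : ℤ)
    have e2 := Int.mul_ediv_add_emod ⌊x * (b : ℝ) ^ (n' + m + 1)⌋ (b : ℤ)
    refine ⟨t, ?_⟩
    rw [← add_assoc, ← add_assoc, ← e1, ← e2, ← h1, ← h2, h3, pow_succ]
    linear_combination (b : ℤ) * ht

/-- congruent floors give equal blocks -/
lemma blocks_of_modEq (b : ℕ) (hb : 2 ≤ b) (x : ℝ) (n n' m : ℕ)
    (h : ((b : ℤ) ^ m) ∣ ⌊x * (b : ℝ) ^ (n + m)⌋ - ⌊x * (b : ℝ) ^ (n' + m)⌋) (i : ℕ) (hi : i < m) :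
    ⌊x * (b : ℝ) ^ (n + i + 1)⌋ % (b : ℤ) = ⌊x * (b : ℝ) ^ (n' + i + 1)⌋ % (b : ℤ) := by
  obtain ⟨t, ht⟩ := h
  obtain ⟨j, rfl⟩ : ∃ j, m = i + 1 + j := ⟨m - (i + 1), by omega⟩
  have h1 := floor_step b hb x (n + i + 1) j
  have h2 := floor_step b hb x (n' + i + 1) j
  have hb0 : (b : ℤ) ^ j ≠ 0 := by positivity
  have e : ⌊x * (b : ℝ) ^ (n + i + 1 + j)⌋ =
      ⌊x * (b : ℝ) ^ (n' + i + 1 + j)⌋ + ((b : ℤ) * ((b : ℤ) ^ i * t)) * (b : ℤ) ^ j := by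
    have e1 : n + i + 1 + j = n + (i + 1 + j) := by omega
    have e2 : n' + i + 1 + j = n' + (i + 1 + j) := by omega
    rw [e1, e2]
    linear_combination ht
  rw [h1, h2, e, Int.add_mul_ediv_right _ _ hb0, Int.add_mul_emod_self_left]

lemma div_congr (E E' B d : ℤ) (hB : B ≠ 0) (hd : d ≠ 0) (h1 : B ∣ E - E')
    (h2 : (E / B) % d = (E' / B) % d) : B ∣ E / d - E' / d := by
  obtain ⟨s, hs⟩ := h1
  have e : E = E' + s * B := by linear_combination hs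
  have h3 : E / B = E' / B + s := by rw [e, Int.add_mul_ediv_right _ _ hB]
  have h4 : d ∣ s := by
    have := (Int.emod_emod_of_dvd (E / B) (dvd_refl d))
    have h5 : d ∣ E / B - E' / B := (Int.ModEq.dvd (h2.symm : E' / B ≡ E / B [ZMOD d]))
    rw [h3] at h5
    simpa using h5
  obtain ⟨t, rfl⟩ := h4
  refine ⟨t, ?_⟩
  have e' : E = E' + (B * t) * d := by linear_combination e
  rw [e', Int.add_mul_ediv_right _ _ hd]
  ring

theorem result :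
    ∀ b : ℕ, 2 ≤ b → ∀ ξ : ℝ, ∀ q₁ q₂ : ℚ, q₁ ≠ 0 →
      ∃ C : ℕ, ∃ M : ℕ, ∀ m : ℕ, M ≤ m →
        (Set.range (fun n : ℕ => fun i : Fin m =>
            ⌊((q₁ : ℝ) * ξ + (q₂ : ℝ)) * (b : ℝ) ^ (n + (i : ℕ) + 1)⌋ % (b : ℤ))).ncard ≤
          C * (Set.range (fun n : ℕ => fun i : Fin m =>
            ⌊ξ * (b : ℝ) ^ (n + (i : ℕ) + 1)⌋ % (b : ℤ))).ncard := by
  intro b hb ξ q₁ q₂ _
  set k : ℤ := q₁.num * q₂.den with hk
  set u : ℤ := q₂.num * q₁.den with hu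
  set d : ℕ := q₁.den * q₂.den with hd
  have hd0 : 0 < d := Nat.mul_pos q₁.den_pos q₂.den_pos
  have hη : (q₁ : ℝ) * ξ + (q₂ : ℝ) = ((k : ℝ) * ξ + u) / d := by
    have a1 : (q₁.den : ℝ) ≠ 0 := by exact_mod_cast q₁.den_ne_zero
    have a2 : (q₂.den : ℝ) ≠ 0 := by exact_mod_cast q₂.den_ne_zero
    rw [Rat.cast_def q₁, Rat.cast_def q₂, hk, hu, hd]
    push_cast
    field_simp
  let S : Finset (ℤ × ℤ) := Finset.Icc (-|k|) |k| ×ˢ Finset.Ico (0 : ℤ) d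
  refine ⟨S.card, 0, fun m _ => ?_⟩
  let E : ℕ → ℤ := fun N => ⌊((k : ℝ) * ξ + u) * (b : ℝ) ^ N⌋
  let c1 : ℕ → ℤ := fun N => ⌊(k : ℝ) * Int.fract (ξ * (b : ℝ) ^ N)⌋
  have hE : ∀ N, E N = k * ⌊ξ * (b : ℝ) ^ N⌋ + u * (b : ℤ) ^ N + c1 N := by
    intro N
    have : ((k : ℝ) * ξ + u) * (b : ℝ) ^ N =
        ((k * ⌊ξ * (b : ℝ) ^ N⌋ + u * (b : ℤ) ^ N : ℤ) : ℝ) + (k : ℝ) * Int.fract (ξ * (b : ℝ) ^ N) := by
      rw [Int.fract]
      push_cast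
      ring
    simp only [E, c1]
    rw [this, Int.floor_intCast_add]
  have hF : ∀ N, ⌊((q₁ : ℝ) * ξ + (q₂ : ℝ)) * (b : ℝ) ^ N⌋ = E N / d := by
    intro N
    rw [hη, ← Int.floor_div_natCast]
    congr 1
    ring
  have hc1 : ∀ N, c1 N ∈ Finset.Icc (-|k|) |k| := by
    intro N
    have f0 := Int.fract_nonneg (ξ * (b : ℝ) ^ N)
    have f1 := (Int.fract_lt_one (ξ * (b : ℝ) ^ N)).le
    have habs : |(k : ℝ) * Int.fract (ξ * (b : ℝ) ^ N)| ≤ |(k : ℝ)| := by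
      rw [abs_mul, abs_of_nonneg f0]
      exact mul_le_of_le_one_right (abs_nonneg _) f1
    rw [abs_le] at habs
    rw [Finset.mem_Icc]
    constructor
    · rw [Int.le_floor]
      push_cast
      exact habs.1
    · have := Int.floor_le ((k : ℝ) * Int.fract (ξ * (b : ℝ) ^ N))
      have h2 : ((c1 N : ℤ) : ℝ) ≤ ((|k| : ℤ) : ℝ) := by
        push_cast
        exact this.trans habs.2
      exact_mod_cast h2
  refine ncard_range_le _ _ (fun n => (c1 (n + m), (E (n + m) / (b : ℤ) ^ m) % d)) S ?_ ?_ ?_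
  · refine (Set.Finite.pi' (t := fun _ : Fin m => Set.Ico (0 : ℤ) b)
      (fun _ => Set.finite_Ico _ _)).subset ?_
    rintro _ ⟨n, rfl⟩ i
    have : (0 : ℤ) < b := by exact_mod_cast (by omega : 0 < b)
    exact ⟨Int.emod_nonneg _ this.ne', Int.emod_lt_of_pos _ this⟩
  · intro n
    have : (0 : ℤ) < d := by exact_mod_cast hd0
    refine Finset.mem_product.2 ⟨hc1 _, ?_⟩
    rw [Finset.mem_Ico]
    exact ⟨Int.emod_nonneg _ this.ne', Int.emod_lt_of_pos _ this⟩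
  · intro n n' hg hc
    simp only [Prod.mk.injEq] at hc
    have h1 := modEq_of_blocks b hb ξ n n' m (fun i hi => congrFun hg ⟨i, hi⟩)
    have h2 : ((b : ℤ) ^ m) ∣ E (n + m) - E (n' + m) := by
      obtain ⟨t, ht⟩ := h1
      refine ⟨k * t + u * (b : ℤ) ^ n - u * (b : ℤ) ^ n', ?_⟩
      rw [hE, hE, hc.1, pow_add (b : ℤ), pow_add (b : ℤ)]
      linear_combination k * ht
    have h3 := div_congr _ _ _ (d : ℤ) (by positivity) (by exact_mod_cast hd0.ne') h2 hc.2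
    rw [← hF, ← hF] at h3
    funext i
    exact blocks_of_modEq b hb _ n n' m h3 i i.2

end Pool.Agent.S18471
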