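import Pool.Statements.S18526
import Pool.Agent.H559Z.Mah.Step

set_option autoImplicit false
open Pool Pool.MP_cde753_nt

namespace Pool.Agent.S18526

/-- The negation of the preceding statement: There is an entire function that is real on the real line, is not a polynomial, and sends every real Liouville number to a Liouville number. -/
theorem result :
    ¬ (∃ f : ℂ → ℂ, Differentiable ℂ f ∧
      (∀ x : ℝ, (f (x : ℂ)).im = 0) ∧
      (¬ ∃ p : Polynomial ℂ, ∀ z : ℂ, f z = p.eval z) ∧
      (∀ x : ℝ, Liouville x → Liouville (f (x : ℂ)).re)) := by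
  rintro ⟨f, hf, hreal, hnp, h⟩
  obtain ⟨x, hx, hn⟩ := Pool.Agent.H559Z.Mah.main hf hreal hnp
  exact hn (h x hx)

end Pool.Agent.S18526
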