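import Pool.Statements.S18646
import Pool.Agent.H520Z.Sel.Big

set_option autoImplicit false
open Pool Pool.MP_d8a033_nt

namespace Pool.Agent.S18646

/-- The negation of the preceding statement: For every Dirichlet series in the Selberg class (normalisation, Ramanujan bound, Euler product, continuation of finite order, gamma-factor functional equation), the sum over primes p ≤ X of ∣a_p∣²/p equals n·loglog X + O(1) for some integer n. -/
theorem result :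
    ¬ (∀ a : ℕ → ℂ,
      a 1 = 1 →
      (∀ ε : ℝ, 0 < ε → ∃ C : ℝ, ∀ n : ℕ, 1 ≤ n → ‖a n‖ ≤ C * (n : ℝ) ^ ε) →
      (∃ b : ℕ → ℂ, (∀ n : ℕ, ¬ IsPrimePow n → b n = 0) ∧
        (∃ θ : ℝ, θ < 1 / 2 ∧ ∃ C : ℝ, ∀ n : ℕ, ‖b n‖ ≤ C * (n : ℝ) ^ θ) ∧
        ∀ s : ℂ, 1 < s.re → LSeries a s = Complex.exp (LSeries b s)) →
      (∃ m : ℕ, ∃ G : ℂ → ℂ, Differentiable ℂ G ∧
        (∃ A B : ℝ, ∀ z : ℂ, ‖G z‖ ≤ A * Real.exp (‖z‖ ^ B)) ∧
        (∀ s : ℂ, 1 < s.re → G s = (s - 1) ^ m * LSeries a s) ∧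
        ∃ Q : ℝ, 0 < Q ∧ ∃ k : ℕ, ∃ lam : Fin k → ℝ, ∃ μ : Fin k → ℂ,
          (∀ j, 0 < lam j) ∧ (∀ j, 0 ≤ (μ j).re) ∧
          ∃ ω : ℂ, ‖ω‖ = 1 ∧
            ∀ s : ℂ, s ≠ 1 → s ≠ 0 →
              (∀ j, ∀ t : ℕ, (lam j : ℂ) * s + μ j ≠ -(t : ℂ)) →
              (∀ j, ∀ t : ℕ, (lam j : ℂ) * (1 - starRingEnd ℂ s) + μ j ≠ -(t : ℂ)) →
              (Q : ℂ) ^ s * (∏ j, Complex.Gamma ((lam j : ℂ) * s + μ j)) *
                  (G s / (s - 1) ^ m) =
                ω * starRingEnd ℂ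
                  ((Q : ℂ) ^ (1 - starRingEnd ℂ s) *
                    (∏ j, Complex.Gamma ((lam j : ℂ) * (1 - starRingEnd ℂ s) + μ j)) *
                    (G (1 - starRingEnd ℂ s) / ((1 - starRingEnd ℂ s) - 1) ^ m))) →
      ∃ nF : ℤ, ∃ C : ℝ, ∀ X : ℝ, 3 ≤ X →
        |(∑ p ∈ (Finset.range (⌊X⌋₊ + 1)).filter Nat.Prime, ‖a p‖ ^ 2 / (p : ℝ))
            - (nF : ℝ) * Real.log (Real.log X)| ≤ C) := by
  intro H
  obtain ⟨lam, Q, c, F, hF, C0, hC0⟩ := Pool.Agent.H520Z.Sel.exists_big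
  have hS := hF.isSel
  obtain ⟨nF, C, hC⟩ := H (fun n => ((Pool.Agent.H520Z.Sel.ec c n : ℝ) : ℂ)) hS.1 hS.2.1
    ⟨fun n => if n.Prime then (c n : ℂ) else 0, fun n hn => by
      have : ¬ n.Prime := fun hp => hn hp.isPrimePow
      simp [this], ⟨1 / 4, by norm_num, 1 + 1 / (1 / 4), fun n => by
        beta_reduce
        split_ifs with hp
        · rw [Complex.norm_real, Real.norm_eq_abs]
          exact (hF.hc _ hp).trans
            (Pool.Agent.H520Z.Sel.one_add_log_le _ (by norm_num) _ hp.one_lt.le)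
        · simp only [norm_zero]
          positivity⟩, fun s hs => by rw [hF.euler s hs, Pool.Agent.H520Z.Sel.LSeries_prime]⟩
    ⟨0, F, hF.diff, by
      obtain ⟨ρ, K, h⟩ := hF.order
      exact ⟨K, ρ, h⟩, fun s hs => by simp [hF.ser s hs], Q, hF.Q_pos, 1, fun _ => lam, fun _ => 0,
      fun _ => hF.lam_pos, fun _ => by simp, 1, norm_one, fun s _ _ h1 h2 => by
        have := hF.fe s (fun n => by simpa using h1 0 n) (fun n => by simpa using h2 0 n)
        simpa using this⟩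
  obtain ⟨N, h1, h2⟩ := (((tendsto_natCast_atTop_atTop (R := ℝ)).eventually
    (Pool.Agent.H520Z.Sel.loglog_lt nF (C + C0))).and (Filter.eventually_ge_atTop 3)).exists
  have h3 := (abs_le.1 (hC N (by exact_mod_cast h2))).2
  have h4 := hC0 N (by omega)
  rw [Nat.floor_natCast, Nat.range_succ_eq_Iic] at h3
  linarith

end Pool.Agent.S18646
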