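import Pool.Statements.S18664
-- import your own Pool.Agent.* helpers here

set_option autoImplicit false
open Pool Pool.MP_daf011_nt

namespace Pool.Agent.S18664

open Polynomial in
/-- The test polynomials `q X^3 + q X + 1`. -/
theorem aeval_test (q : ℕ) (z : ℂ) :
    aeval z (C (q : ℤ) * X ^ 3 + C (q : ℤ) * X + C 1 : ℤ[X]) = (q : ℂ) * z ^ 3 + (q : ℂ) * z + 1 := by
  simp

open Polynomial in
theorem natDegree_test (q : ℕ) (hq : 0 < q) :
    (C (q : ℤ) * X ^ 3 + C (q : ℤ) * X + C 1 : ℤ[X]).natDegree = 3 := by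
  have h : (q : ℤ) ≠ 0 := by exact_mod_cast hq.ne'
  compute_degree!
  exact hq.ne'

open Polynomial in
theorem leadingCoeff_test (q : ℕ) (hq : 0 < q) :
    (C (q : ℤ) * X ^ 3 + C (q : ℤ) * X + C 1 : ℤ[X]).leadingCoeff = q := by
  rw [Polynomial.leadingCoeff, natDegree_test q hq]
  simp [coeff_one]

theorem exists_real_root (q : ℕ) (hq : 0 < q) :
    ∃ b : ℝ, (q : ℝ) * b ^ 3 + (q : ℝ) * b + 1 = 0 := by
  have hq1 : (1 : ℝ) ≤ q := by exact_mod_cast hq
  have hc : ContinuousOn (fun b : ℝ => (q : ℝ) * b ^ 3 + (q : ℝ) * b + 1) (Set.Icc (-1) 0) := by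
    fun_prop
  have h := intermediate_value_Icc (show (-1 : ℝ) ≤ 0 by norm_num) hc
  have h0 : (0 : ℝ) ∈ Set.Icc ((fun b : ℝ => (q : ℝ) * b ^ 3 + (q : ℝ) * b + 1) (-1))
      ((fun b : ℝ => (q : ℝ) * b ^ 3 + (q : ℝ) * b + 1) 0) := by
    constructor
    · show (q : ℝ) * (-1) ^ 3 + (q : ℝ) * (-1) + 1 ≤ 0
      nlinarith
    · show (0 : ℝ) ≤ (q : ℝ) * 0 ^ 3 + (q : ℝ) * 0 + 1
      norm_num
  obtain ⟨b, _, hb⟩ := h h0
  exact ⟨b, hb⟩

theorem quad_norm (b : ℝ) (z : ℂ) (hz : z ^ 2 + (b : ℂ) * z + ((1 + b ^ 2 : ℝ) : ℂ) = 0) :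
    ‖z‖ ^ 2 = 1 + b ^ 2 := by
  have hre := congrArg Complex.re hz
  have him := congrArg Complex.im hz
  simp only [pow_two, Complex.add_re, Complex.mul_re, Complex.ofReal_re, Complex.ofReal_im,
    Complex.add_im, Complex.mul_im, Complex.zero_re, Complex.zero_im] at hre him
  rw [Complex.sq_norm, Complex.normSq_apply]
  have hy : z.im ≠ 0 := by
    intro h0
    rw [h0] at hre
    nlinarith [sq_nonneg (z.re + b / 2), sq_nonneg b]
  have hx : z.re = -b / 2 := by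
    have : z.im * (2 * z.re + b) = 0 := by linarith
    rcases mul_eq_zero.1 this with h | h
    · exact absurd h hy
    · linarith
  rw [hx] at hre ⊢
  nlinarith

/-- The negation of the preceding statement: There is c>0 such that every integer polynomial of degree n≥1 with leading coefficient q that has a complex root of modulus >1 also has a complex root of modulus >1+c/(∣q∣n). -/
theorem result :
    ¬ (∃ c : ℝ, 0 < c ∧
      ∀ P : Polynomial ℤ, 0 < P.natDegree →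
        (∃ z : ℂ, Polynomial.aeval z P = 0 ∧ 1 < ‖z‖) →
        ∃ z : ℂ, Polynomial.aeval z P = 0 ∧
          1 + c / (|((P.leadingCoeff : ℤ) : ℝ)| * (P.natDegree : ℝ)) < ‖z‖) := by
  rintro ⟨c, hc, H⟩
  obtain ⟨q0, hq0⟩ := exists_nat_ge (3 / c)
  set q : ℕ := q0 + 1 with hqdef
  have hq : 0 < q := Nat.succ_pos _
  have hq1 : (1 : ℝ) ≤ q := by exact_mod_cast hq
  have hqc : 3 ≤ c * q := by
    have h1 : (3 / c) ≤ (q : ℝ) := by
      rw [hqdef]; push_cast; linarith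
    rw [div_le_iff₀ hc] at h1
    linarith
  obtain ⟨b, hb⟩ := exists_real_root q hq
  have hb0 : b ≠ 0 := by
    rintro rfl
    norm_num at hb
  have hbq : (q : ℝ) * b * (1 + b ^ 2) = -1 := by linarith
  have hqb : ((q : ℝ) * b) ^ 2 ≤ 1 := by
    have h1 : ((q : ℝ) * b) ^ 2 * (1 + b ^ 2) ^ 2 = 1 := by
      rw [← mul_pow, hbq]; norm_num
    have h2 : (1 : ℝ) ≤ (1 + b ^ 2) ^ 2 := by nlinarith [sq_nonneg b]
    nlinarith [sq_nonneg ((q : ℝ) * b)]
  have hfac : ∀ z : ℂ, (q : ℂ) * z ^ 3 + (q : ℂ) * z + 1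
      = (q : ℂ) * (z - (b : ℂ)) * (z ^ 2 + (b : ℂ) * z + ((1 + b ^ 2 : ℝ) : ℂ)) := by
    intro z
    have hbC : (q : ℂ) * (b : ℂ) ^ 3 + (q : ℂ) * (b : ℂ) + 1 = 0 := by exact_mod_cast hb
    push_cast
    linear_combination hbC
  have hdeg := natDegree_test q hq
  have hlead := leadingCoeff_test q hq
  have hroot : ∃ z : ℂ, Polynomial.aeval z
      (Polynomial.C (q : ℤ) * Polynomial.X ^ 3 + Polynomial.C (q : ℤ) * Polynomial.X
        + Polynomial.C 1 : Polynomial ℤ) = 0 ∧ 1 < ‖z‖ := by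
    have hs : (0 : ℝ) ≤ 1 + 3 * b ^ 2 / 4 := by positivity
    set s := Real.sqrt (1 + 3 * b ^ 2 / 4) with hsdef
    have hs2 : s ^ 2 = 1 + 3 * b ^ 2 / 4 := Real.sq_sqrt hs
    have hz : ((-b / 2 : ℝ) + (s : ℝ) * Complex.I : ℂ) ^ 2
        + (b : ℂ) * ((-b / 2 : ℝ) + (s : ℝ) * Complex.I) + ((1 + b ^ 2 : ℝ) : ℂ) = 0 := by
      have hs2C : (s : ℂ) ^ 2 = 1 + 3 * (b : ℂ) ^ 2 / 4 := by exact_mod_cast hs2
      push_cast
      linear_combination (s : ℂ) ^ 2 * Complex.I_sq - hs2C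
    refine ⟨((-b / 2 : ℝ) + (s : ℝ) * Complex.I : ℂ), ?_, ?_⟩
    · rw [aeval_test, hfac, hz, mul_zero]
    · have h := quad_norm b _ hz
      have hb2 : 0 < b ^ 2 := by positivity
      by_contra hle
      push Not at hle
      have := norm_nonneg (((-b / 2 : ℝ) + (s : ℝ) * Complex.I : ℂ))
      nlinarith
  obtain ⟨z, hz, hzn⟩ := H _ (by rw [hdeg]; norm_num) hroot
  rw [hdeg, hlead] at hzn
  rw [aeval_test, hfac] at hz
  have habs : |(((q : ℤ) : ℤ) : ℝ)| = (q : ℝ) := by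
    rw [Int.cast_natCast]; exact abs_of_nonneg (by positivity)
  rw [habs] at hzn
  have hqpos : (0 : ℝ) < q := by linarith
  have hε : 0 < c / ((q : ℝ) * ((3 : ℕ) : ℝ)) := by positivity
  have hbε : b ^ 2 ≤ c / ((q : ℝ) * ((3 : ℕ) : ℝ)) := by
    rw [le_div_iff₀ (by positivity)]
    push_cast
    have h1 : b ^ 2 * (q * 3) * q ≤ c * q := by nlinarith
    exact le_of_mul_le_mul_right h1 hqpos
  rcases mul_eq_zero.1 hz with h | h
  · rcases mul_eq_zero.1 h with h | h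
    · have : (q : ℂ) ≠ 0 := by exact_mod_cast hq.ne'
      exact this h
    · have hzb : z = (b : ℂ) := sub_eq_zero.1 h
      rw [hzb, Complex.norm_real, Real.norm_eq_abs] at hzn
      have hb1 : b ^ 2 ≤ 1 := by
        have h3 : (1 : ℝ) ≤ (q : ℝ) ^ 2 := by nlinarith
        have h4 : b ^ 2 * 1 ≤ b ^ 2 * (q : ℝ) ^ 2 := mul_le_mul_of_nonneg_left h3 (sq_nonneg b)
        nlinarith
      have : |b| ≤ 1 := by
        rw [← sq_le_one_iff_abs_le_one]; exact hb1
      linarith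
  · have h2 := quad_norm b z h
    nlinarith [norm_nonneg z]

end Pool.Agent.S18664
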