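import Pool.Statements.S18742
import Pool.Agent.H40Z.DiscStrip

set_option autoImplicit false
open Classical
open Pool Pool.MP_e1a649_nt

namespace Pool.Agent.S18742

open Pool.Agent.H40Z.Disc MeasureTheory

set_option maxHeartbeats 400000 in
/-- The negation of the preceding statement: For every p ≥ 1 and d ≥ 1 there is C > 0 such that every N-point family in [0,1)^d has periodic L_p discrepancy (over wrap-around boxes) at most C times its star L_p discrepancy (over anchored boxes). -/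
theorem result :
    ¬ (∀ p : ℝ, 1 ≤ p → ∀ d : ℕ, 1 ≤ d → ∃ C : ℝ, 0 < C ∧
      ∀ N : ℕ, ∀ P : Fin N → Fin d → ℝ, (∀ i j, 0 ≤ P i j ∧ P i j < 1) →
        (∫ x in Set.Icc (0 : Fin d → ℝ) 1, ∫ y in Set.Icc (0 : Fin d → ℝ) 1,
            |((Finset.univ.filter (fun i : Fin N => ∀ j : Fin d,
                  if x j ≤ y j then (x j ≤ P i j ∧ P i j < y j)
                  else (P i j < y j ∨ x j ≤ P i j))).card : ℝ)
              - (N : ℝ) * ∏ j : Fin d, (if x j ≤ y j then y j - x j else 1 - x j + y j)| ^ p)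
          ^ (1 / p)
        ≤ C * (∫ t in Set.Icc (0 : Fin d → ℝ) 1,
            |((Finset.univ.filter (fun i : Fin N => ∀ j : Fin d, P i j < t j)).card : ℝ)
              - (N : ℝ) * ∏ j : Fin d, t j| ^ p) ^ (1 / p)) := by
  intro H
  obtain ⟨C, hC, H⟩ := H 1 le_rfl 2 (by norm_num)
  obtain ⟨k, hk⟩ := exists_nat_ge (3072 * C + 13)
  have hk4 : 4 ≤ k := by
    have : (4 : ℝ) ≤ k := by linarith
    exact_mod_cast this
  have hn : 0 < k * k := by positivity
  have hkn : 4 * k ≤ k * k := Nat.mul_le_mul_right k hk4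
  have H1 := H ((k * k) * (k * k)) (PP (k * k) k) (PP_mem (k * k) k)
  simp only [div_one, Real.rpow_one, card_filter_eq, ind_forall, per_eq2, len_eq] at H1
  have low := periodic_lower (k * k) k hn hkn
  have hk0 : (0 : ℝ) < k := by linarith
  have hc1 : 1 - (k : ℝ) / ((k * k : ℕ) : ℝ) ≤ 1 := by
    have : 0 ≤ (k : ℝ) / ((k * k : ℕ) : ℝ) := by positivity
    linarith
  have hc0 : 0 ≤ 1 - (k : ℝ) / ((k * k : ℕ) : ℝ) := by
    have h1 : (k : ℝ) ≤ ((k * k : ℕ) : ℝ) := by
      exact_mod_cast (le_trans (by omega) hkn : k ≤ k * k)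
    have : (k : ℝ) / ((k * k : ℕ) : ℝ) ≤ 1 := by
      rw [div_le_one (by exact_mod_cast hn)]
      exact h1
    linarith
  apply final_contra C k hk hC
  refine low.trans (le_trans H1 (mul_le_mul_of_nonneg_left ?_ hC.le))
  refine strip_integral _ _ _ _ hc0 hc1 (fun y => abs_nonneg _) ?_
  intro y hy
  have hu := disc_upper (k * k) k hn (by omega) 0 y (fun _ => ⟨le_rfl, zero_le_one⟩)
    (mem_cube hy) (hy.1 0)
  refine le_trans (le_of_eq ?_) hu
  unfold disc
  congr 2
  · refine Finset.sum_congr rfl fun i _ => Finset.prod_congr rfl fun j _ => ?_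
    rw [← per_eq3 _ _ _ (hy.1 j)]
    exact ind_congr ⟨fun h => ⟨(PP_mem _ _ i j).1, h⟩, fun h => h.2⟩
  · congr 1
    refine Finset.prod_congr rfl fun j _ => ?_
    rw [← len_eq, if_pos (hy.1 j)]
    simp

end Pool.Agent.S18742
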