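import Pool.Statements.S18821
import Pool.Agent.H108R2.Sieve2c

set_option autoImplicit false
open Pool Pool.MP_e7cd8d_nt

namespace Pool.Agent.S18821

lemma card_primeFactors_le {a : ℕ} (ha : 0 < a) :
    (a.primeFactors.card : ℝ) ≤ 2 * Real.log a := by
  have h1 : 2 ^ a.primeFactors.card ≤ a :=
    (Finset.pow_card_le_prod _ _ _ fun p hp => (Nat.prime_of_mem_primeFactors hp).two_le).trans
      (Nat.le_of_dvd ha (Nat.prod_primeFactors_dvd a))
  have h2 : (2 : ℝ) ^ a.primeFactors.card ≤ a := by exact_mod_cast h1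
  have h3 := Real.log_le_log (by positivity) h2
  rw [Real.log_pow] at h3
  have h4 := Real.log_two_gt_d9
  have h5 : (0 : ℝ) ≤ a.primeFactors.card := by positivity
  nlinarith

/-- There is c0 such that for every c at least c0: every maximal pairwise coprime set of integers in (m, m + floor((log m)^c)] has size tending to infinity as m grows. -/
theorem result :
    ∃ c₀ : ℝ, ∀ c : ℝ, c₀ ≤ c → ∀ N : ℕ, ∃ M : ℕ, ∀ m : ℕ, M ≤ m →
      ∀ A : Finset ℕ,
        A ⊆ Finset.Ioc m (m + ⌊(Real.log (m : ℝ)) ^ c⌋₊) →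
        (A : Set ℕ).Pairwise Nat.Coprime →
        (∀ n ∈ Finset.Ioc m (m + ⌊(Real.log (m : ℝ)) ^ c⌋₊),
            n ∉ A → ∃ a ∈ A, ¬ Nat.Coprime a n) →
        N ≤ A.card := by
  classical
  refine ⟨498, fun c hc N => ?_⟩
  have e1 : ∀ᶠ x : ℝ in Filter.atTop, Real.log x ^ c ≤ x := by
    have h := (isLittleO_log_rpow_rpow_atTop c (s := 1) one_pos).bound one_pos
    filter_upwards [h, Filter.eventually_ge_atTop (0 : ℝ)] with x hx hx0
    rw [Real.rpow_one, one_mul, Real.norm_of_nonneg hx0] at hx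
    exact (le_abs_self _).trans hx
  have e2 : ∀ᶠ x : ℝ in Filter.atTop, (2 : ℝ) ^ 128 + 4 * N + 2 ≤ Real.log x :=
    Real.tendsto_log_atTop.eventually_ge_atTop _
  have e3 := tendsto_natCast_atTop_atTop (R := ℝ) |>.eventually
    (e1.and (e2.and (Filter.eventually_ge_atTop (2 : ℝ))))
  obtain ⟨M, hM⟩ := Filter.eventually_atTop.1 e3
  refine ⟨M, fun m hm A hA _ hcov => ?_⟩
  obtain ⟨h1, h2, h3⟩ := hM m hm
  by_contra hlt
  push Not at hlt
  set L := Real.log (m : ℝ) with hL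
  set k := ⌊L ^ c⌋₊ with hk
  have hN0 : (0 : ℝ) ≤ N := by positivity
  have hp128 : (1 : ℝ) ≤ 2 ^ 128 := one_le_pow₀ (by norm_num)
  have hL1 : 1 ≤ L := by linarith
  have hkm : k ≤ m := by
    have : (k : ℝ) ≤ m := (Nat.floor_le (by positivity)).trans h1
    exact_mod_cast this
  set S := A.biUnion Nat.primeFactors with hS
  set z := ⌊L ^ 2⌋₊ with hz
  have hz1 : 2 ^ 128 < z := by
    refine Nat.lt_of_succ_le (Nat.le_floor ?_)
    push_cast
    nlinarith
  have hcard : S.card ≤ z := by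
    refine Nat.le_floor ?_
    have a1 : (S.card : ℝ) ≤ ∑ a ∈ A, (a.primeFactors.card : ℝ) := by
      exact_mod_cast Finset.card_biUnion_le
    have a2 : ∑ a ∈ A, (a.primeFactors.card : ℝ) ≤ A.card • (4 * L) := by
      refine Finset.sum_le_card_nsmul _ _ _ fun a ha => ?_
      obtain ⟨b1, b2⟩ := Finset.mem_Ioc.1 (hA ha)
      have b3 : (a : ℝ) ≤ m * m := by
        have : (a : ℝ) ≤ m + m := by exact_mod_cast b2.trans (Nat.add_le_add_left hkm m)
        nlinarith
      have b0 : 0 < a := by omega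
      have b4 := Real.log_le_log (by exact_mod_cast b0) b3
      rw [Real.log_mul (by positivity) (by positivity)] at b4
      linarith [card_primeFactors_le b0]
    have a3 : (A.card : ℝ) ≤ N := by exact_mod_cast hlt.le
    rw [nsmul_eq_mul] at a2
    have a4 : (A.card : ℝ) * (4 * L) ≤ N * (4 * L) := by gcongr
    nlinarith
  obtain ⟨I, hI, hzI, hI2⟩ := H108.sieve2_index' z hz1
  have hk2 : z ^ 249 ≤ k := by
    refine Nat.le_floor ?_
    have a1 : (z : ℝ) ≤ L ^ 2 := Nat.floor_le (by positivity)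
    calc ((z ^ 249 : ℕ) : ℝ) = (z : ℝ) ^ 249 := by push_cast; rfl
      _ ≤ (L ^ 2) ^ 249 := by gcongr
      _ = L ^ ((498 : ℕ) : ℝ) := by rw [← pow_mul, Real.rpow_natCast]
      _ ≤ L ^ c := Real.rpow_le_rpow_of_exponent_le hL1 (by exact_mod_cast hc)
  obtain ⟨n, hn, hnp⟩ := Pool.Agent.H446R2.cover S
    (fun p hp => by
      obtain ⟨a, -, ha⟩ := Finset.mem_biUnion.1 hp
      exact Nat.prime_of_mem_primeFactors ha) I hI (hcard.trans hzI) m k (by omega)
  have hm2 : 2 ≤ m := by exact_mod_cast h3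
  by_cases hnA : n ∈ A
  · have hn1 : n ≠ 1 := by have := (Finset.mem_Ioc.1 hn).1; omega
    have hn0 : n ≠ 0 := by have := (Finset.mem_Ioc.1 hn).1; omega
    obtain ⟨p, hp, hpn⟩ := Nat.exists_prime_and_dvd hn1
    exact hnp p (Finset.mem_biUnion.2 ⟨n, hnA, Nat.mem_primeFactors.2 ⟨hp, hpn, hn0⟩⟩) hpn
  · obtain ⟨a, ha, hco⟩ := hcov n hn hnA
    obtain ⟨p, hp, hpa, hpn⟩ := Nat.Prime.not_coprime_iff_dvd.1 hco
    have ha0 : a ≠ 0 := by have := (Finset.mem_Ioc.1 (hA ha)).1; omega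
    exact hnp p (Finset.mem_biUnion.2 ⟨a, ha, Nat.mem_primeFactors.2 ⟨hp, hpa, ha0⟩⟩) hpn

end Pool.Agent.S18821
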