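import Pool.Statements.S18848
import Pool.Agent.H923Z.GPMain

set_option autoImplicit false
open Pool Pool.MP_ea4027_nt

namespace Pool.Agent.S18848

/-- The negation of the preceding statement: The set of positive integers all of whose prime exponents have only digits 0 and 1 in base 3 has a natural density δ, and every set of positive integers with no a<b<c, b²=ac, that has a natural density, has density at most δ. -/
theorem result :
    ¬ (∃ δ : ℝ,
      Filter.Tendsto
        (fun N : ℕ =>
          (({n : ℕ | 1 ≤ n ∧ ∀ p : ℕ, ∀ e ∈ Nat.digits 3 (n.factorization p), e ≤ 1}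
              ∩ Set.Icc 1 N).ncard : ℝ) / (N : ℝ))
        Filter.atTop (nhds δ) ∧
      ∀ (A : Set ℕ) (d : ℝ),
        (∀ n ∈ A, 1 ≤ n) →
        (∀ a ∈ A, ∀ b ∈ A, ∀ c ∈ A, a < b → b < c → b ^ 2 ≠ a * c) →
        Filter.Tendsto (fun N : ℕ => ((A ∩ Set.Icc 1 N).ncard : ℝ) / (N : ℝ))
          Filter.atTop (nhds d) →
        d ≤ δ) := by
  rintro ⟨δ, h1, h2⟩
  obtain ⟨A, d, a1, a2, a3, a4⟩ := Pool.Agent.H923Z.GP.main δ h1
  exact absurd (h2 A d a1 a2 a3) (not_le.2 a4)

end Pool.Agent.S18848
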