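import Pool.Statements.S18877
import Pool.Agent.H813Z.GamF

set_option autoImplicit false
open scoped ENNReal
open Pool Pool.MP_ed49ca_nt

namespace Pool.Agent.S18877

/-- The set of 3-adic integers x such that, for infinitely many n ≥ 0, the 3-adic expansion of 2^n·x contains no digit 2, has Hausdorff dimension 0 in the standard 3-adic metric. -/
theorem result :
    dimH {x : ℤ_[3] | Set.Infinite {n : ℕ | ∀ k : ℕ,
      (PadicInt.toZModPow (k + 1) ((2 : ℤ_[3]) ^ n * x)).val / 3 ^ k ≠ 2}} = 0 := by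
  refine le_antisymm (le_trans (dimH_mono ?_) Pool.Agent.H813Z.Gam.dim_zero.le) (zero_le)
  intro x hx
  refine Set.Infinite.mono ?_ hx
  intro n hn j
  have h1 := hn j
  have h2 : (PadicInt.toZModPow (j + 1) ((2 : ℤ_[3]) ^ n * x)).val =
      ((2 : ℤ_[3]) ^ n * x).appr (j + 1) := by
    have h3 : PadicInt.toZModPow (j + 1) ((2 : ℤ_[3]) ^ n * x) =
        ((((2 : ℤ_[3]) ^ n * x).appr (j + 1) : ℕ) : ZMod (3 ^ (j + 1))) := rfl
    rw [h3, ZMod.val_natCast, Nat.mod_eq_of_lt (PadicInt.appr_lt _ _)]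
  rw [h2] at h1
  have h4 : ((2 : ℤ_[3]) ^ n * x).appr (j + 1) / 3 ^ j < 3 := by
    rw [Nat.div_lt_iff_lt_mul (by positivity), ← pow_succ']
    exact PadicInt.appr_lt _ _
  rw [Nat.mod_eq_of_lt h4]
  exact h1

end Pool.Agent.S18877
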