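import Pool.Statements.S18883
import Pool.Agent.H931Z.MixMain

set_option autoImplicit false
open Pool Pool.MP_ed6e5c_nt

namespace Pool.Agent.S18883

/-- For every bounded integer sequence with terms at least 2 and any two admissible weight triples, some point (x,y) lies in both mixed sets Bad_D(i,j,k), with the convention u^(1/0)=0. -/
theorem result :
  ∀ d : ℕ → ℕ, (∀ n, 2 ≤ d n) → (∃ M : ℕ, ∀ n, d n ≤ M) →
  ∀ i j k : Fin 2 → ℝ,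
    (∀ t, 0 ≤ i t ∧ i t ≤ 1 ∧ 0 ≤ j t ∧ j t ≤ 1 ∧ 0 ≤ k t ∧ k t ≤ 1 ∧
      i t + j t + k t = 1) →
    ∃ x y : ℝ, ∀ t : Fin 2, ∃ c : ℝ, 0 < c ∧ ∀ q : ℕ, 0 < q →
      ((q : ℝ) * (if i t = 0 then 0 else
          (sInf ((fun n : ℕ => (1 : ℝ) / ((∏ m ∈ Finset.range n, d m : ℕ) : ℝ)) ''
            {n : ℕ | (∏ m ∈ Finset.range n, d m) ∣ q})) ^ (1 / i t)) > c ∨
       (q : ℝ) * (if j t = 0 then 0 else
          |(q : ℝ) * x - (round ((q : ℝ) * x) : ℝ)| ^ (1 / j t)) > c ∨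
       (q : ℝ) * (if k t = 0 then 0 else
          |(q : ℝ) * y - (round ((q : ℝ) * y) : ℝ)| ^ (1 / k t)) > c) := by
  rintro d hd ⟨M, hM⟩ i j k h
  have hi : ∀ t, 0 ≤ i t := fun t => (h t).1
  have hj : ∀ t, 0 ≤ j t := fun t => (h t).2.2.1
  have hk : ∀ t, 0 ≤ k t := fun t => (h t).2.2.2.2.1
  have hs : ∀ t, i t + j t + k t = 1 := fun t => (h t).2.2.2.2.2.2
  obtain ⟨x, hx0, hx1⟩ := ((Pool.Agent.H931Z.Mix.cw_u
    (Pool.Agent.H931Z.Mix.mk hd hM (hi 0) (hj 0) (hk 0) (hs 0))).inter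
    (Pool.Agent.H931Z.Mix.cw_u
      (Pool.Agent.H931Z.Mix.mk hd hM (hi 1) (hj 1) (hk 1) (hs 1)))).nonempty
  obtain ⟨y, hy0, hy1⟩ := ((Pool.Agent.H931Z.Mix.cw_Sy hd hM (hi 0) (hj 0) (hk 0) (hs 0) hx0).inter
    (Pool.Agent.H931Z.Mix.cw_Sy hd hM (hi 1) (hj 1) (hk 1) (hs 1) hx1)).nonempty
  refine ⟨x, y, fun t => ?_⟩
  fin_cases t
  · exact Pool.Agent.H931Z.Mix.final hd hM (hi 0) (hj 0) (hk 0) (hs 0) hx0 hy0
  · exact Pool.Agent.H931Z.Mix.final hd hM (hi 1) (hj 1) (hk 1) (hs 1) hx1 hy1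

end Pool.Agent.S18883
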