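import Pool.Statements.S18928
import Pool.Agent.H318Z.TPC

set_option autoImplicit false
open Pool Pool.MP_f15a68_nt

namespace Pool.Agent.S18928

/-- The negation of the preceding statement: For every prime p and n ≥ 1, the infimum of c such that infinitely many algebraic integers of degree n over the totally p-adic field have Weil height below c equals log p divided by (p−1)n. -/
theorem result :
    ¬ (∀ (p : ℕ) [Fact p.Prime] (n : ℕ), 1 ≤ n →
      sInf {c : ℝ | Set.Infinite {α : AlgebraicClosure ℚ | IsIntegral ℤ α ∧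
        (minpoly (IntermediateField.adjoin ℚ {x : AlgebraicClosure ℚ |
            ((minpoly ℚ x).map (algebraMap ℚ ℚ_[p])).roots.card = (minpoly ℚ x).natDegree}) α).natDegree = n ∧
        Real.log (((minpoly ℚ α).map (algebraMap ℚ ℂ)).mahlerMeasure) / ((minpoly ℚ α).natDegree : ℝ) < c}}
      = 1 / ((p : ℝ) - 1) * (Real.log p / (n : ℝ))) := by
  intro h
  have h2 := h 2 1 le_rfl
  have hl : 0 < Real.log 2 := Real.log_pos (by norm_num)
  have hle := csInf_le (s := {c : ℝ | Set.Infinite {α : AlgebraicClosure ℚ | IsIntegral ℤ α ∧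
        (minpoly (IntermediateField.adjoin ℚ {x : AlgebraicClosure ℚ |
            ((minpoly ℚ x).map (algebraMap ℚ ℚ_[2])).roots.card = (minpoly ℚ x).natDegree}) α).natDegree = 1 ∧
        Real.log (((minpoly ℚ α).map (algebraMap ℚ ℂ)).mahlerMeasure) / ((minpoly ℚ α).natDegree : ℝ) < c}})
      (a := 35 / 36 * Real.log 2) ?_ ?_
  · rw [h2] at hle
    push_cast at hle
    linarith
  · refine ⟨0, fun c hc => ?_⟩
    obtain ⟨α, hα, -, hc⟩ := Set.Infinite.nonempty hc
    refine le_trans (div_nonneg (Real.log_nonneg ?_) (Nat.cast_nonneg _)) hc.le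
    apply Polynomial.one_le_mahlerMeasure_of_one_le_norm_leadingCoeff
    have hm : (minpoly ℚ α).Monic := minpoly.monic hα.tower_top
    rw [(hm.map _).leadingCoeff, norm_one]
  · refine Pool.Agent.H318Z.TP.infinite_small.mono ?_
    rintro α ⟨h1, h3, h4⟩
    refine ⟨h1, ?_, by linarith⟩
    rw [minpoly.natDegree_eq_one_iff]
    exact ⟨⟨α, IntermediateField.subset_adjoin ℚ _ h3⟩, rfl⟩

end Pool.Agent.S18928
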