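import Pool.Statements.S18994
import Pool.Agent.H469Z.TraceMain

set_option autoImplicit false
open Filter Topology
open Pool Pool.MP_f5ee21_nt

namespace Pool.Agent.S18994

/-- The negation of the preceding statement: For every finite alphabet of at least two positive integers whose continued-fraction Cantor set has Hausdorff dimension above 1/2, every sufficiently large integer that is a trace of the even-length semigroup modulo every q is an actual trace. -/
theorem result :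
    ¬ (∀ A : Finset ℕ, (∀ a ∈ A, 1 ≤ a) → 2 ≤ A.card →
      ((1 / 2 : ENNReal) < dimH {x : ℝ | ∃ a : ℕ → ℕ, (∀ j, a j ∈ A) ∧
          Tendsto (fun n : ℕ =>
            ((List.map (fun j : ℕ => (!![(a j : ℝ), 1; 1, 0] : Matrix (Fin 2) (Fin 2) ℝ))
                (List.range (n + 1))).prod 0 0) /
            ((List.map (fun j : ℕ => (!![(a j : ℝ), 1; 1, 0] : Matrix (Fin 2) (Fin 2) ℝ))
                (List.range (n + 1))).prod 1 0)) atTop (𝓝 x)}) →
      ∃ N : ℤ, ∀ t : ℤ, N ≤ t →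
        (∀ q : ℤ, 1 ≤ q → ∃ l : List ℕ, l ≠ [] ∧ Even l.length ∧ (∀ b ∈ l, b ∈ A) ∧
          Matrix.trace ((List.map (fun b : ℕ => (!![(b : ℤ), 1; 1, 0] : Matrix (Fin 2) (Fin 2) ℤ)) l).prod)
            ≡ t [ZMOD q]) →
        ∃ l : List ℕ, l ≠ [] ∧ Even l.length ∧ (∀ b ∈ l, b ∈ A) ∧
          Matrix.trace ((List.map (fun b : ℕ => (!![(b : ℤ), 1; 1, 0] : Matrix (Fin 2) (Fin 2) ℤ)) l).prod) = t) := by
  intro h
  obtain ⟨A, h1, h2, h3, h4⟩ := H469Z.TraceCF.main
  obtain ⟨N, hN⟩ := h A h1 h2 h3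
  obtain ⟨t, ht1, ht2, ht3⟩ := h4 N
  obtain ⟨l, -, hl1, hl2, hl3⟩ := hN t ht1 ht2
  exact ht3 l hl1 hl2 hl3

end Pool.Agent.S18994
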