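import Pool.Statements.S19009
import Pool.Agent.H253Z.SfH

set_option autoImplicit false
open Pool Pool.MP_f6d20c_nt

namespace Pool.Agent.S19009

/-- For odd n ≥ 3 and 1 ≤ k ≤ n−1: the sum of x⁻¹ (with 0⁻¹=0) over every k-dimensional F_2-affine subspace of F_{2^n} is nonzero exactly when k is 1, 2, n−2 or n−1. -/
theorem result :
    ∀ n : ℕ, 3 ≤ n → Odd n → ∀ k : ℕ, 1 ≤ k → k ≤ n - 1 →
      ((∀ V : Submodule (ZMod 2) (GaloisField 2 n),
          Module.finrank (ZMod 2) V = k →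
            ∀ a : GaloisField 2 n,
              ∑ᶠ x ∈ (V : Set (GaloisField 2 n)), (a + x)⁻¹ ≠ 0) ↔
        (k = 1 ∨ k = 2 ∨ k = n - 2 ∨ k = n - 1)) := by
  intro n h3 hn k h1 hk
  have : Fintype (GaloisField 2 n) := Fintype.ofFinite _
  exact Pool.Agent.H253Z.sumfree_char n k (GaloisField.finrank 2 (by omega)) hn h3 h1 hk

end Pool.Agent.S19009
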