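import Pool.Statements.S19070
import Pool.Agent.H270Z.Final

set_option autoImplicit false
open Pool Pool.MP_fcb754_nt

namespace Pool.Agent.S19070

/-- The negation of the preceding statement: For the continuation F of the Barnes r-fold zeta (a>0, w_j>0) and d the Q-dimension of the span of the w_j: for each ε>0 and σ₁, ∣F(σ+it)∣ ≤ C t^ε for all t≥1 and r−d/2 ≤ σ ≤ σ₁. -/
theorem result :
    ¬ (∀ (r : ℕ), 1 ≤ r → ∀ (a : ℝ), 0 < a → ∀ (w : Fin r → ℝ), (∀ j, 0 < w j) →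
      ∀ F : ℂ → ℂ,
        DifferentiableOn ℂ F {s : ℂ | ∀ k : ℕ, 1 ≤ k → k ≤ r → s ≠ (k : ℂ)} →
        (∀ s : ℂ, (r : ℝ) < s.re →
          F s = ∑' m : Fin r → ℕ, (((a + ∑ j, (m j : ℝ) * w j : ℝ) : ℂ) ^ (-s))) →
        ∀ ε : ℝ, 0 < ε → ∀ σ₁ : ℝ, ∃ C : ℝ, ∀ σ t : ℝ,
          (r : ℝ) - (Module.finrank ℚ (Submodule.span ℚ (Set.range w)) : ℝ) / 2 ≤ σ →
          σ ≤ σ₁ → 1 ≤ t →
          ‖F ((σ : ℂ) + (t : ℂ) * Complex.I)‖ ≤ C * t ^ ε) := by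
  exact Pool.Agent.H270Z.lindelof_false

end Pool.Agent.S19070
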