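import Pool.Statements.S19138
import Pool.Agent.H551Z.DoneyC

set_option autoImplicit false
open Pool Pool.MP_0b691a_pr

namespace Pool.Agent.S19138

/-- The negation of the preceding statement: Spectrally negative Lévy process with no Gaussian part, Lévy measure on (−∞,0), infinite ∫_{(−1,0)}∣x∣: for every k, the scale function is C^{k+2} on (0,∞) iff the Lévy tail y ↦ ν(−∞,−y) is C^k on (0,∞). -/
theorem result :
    ¬ (∀ (ν : MeasureTheory.Measure ℝ) (γ : ℝ) (W : ℝ → ℝ),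
      ν (Set.Ici 0) = 0 →
      (∫⁻ x, ENNReal.ofReal (min 1 (x ^ 2)) ∂ν) < ⊤ →
      (∫⁻ x in Set.Ioo (-1 : ℝ) 0, ENNReal.ofReal |x| ∂ν) = ⊤ →
      ContinuousOn W (Set.Ioi 0) →
      (∃ β₀ : ℝ, ∀ β : ℝ, β₀ < β →
        MeasureTheory.IntegrableOn (fun x => Real.exp (-β * x) * W x) (Set.Ioi 0) ∧
        (∫ x in Set.Ioi (0 : ℝ), Real.exp (-β * x) * W x) =
          1 / (γ * β + ∫ x, (Real.exp (β * x) - 1 - (if -1 < x then β * x else 0)) ∂ν)) →
      ∀ k : ℕ,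
        (ContDiffOn ℝ ((k + 2 : ℕ) : WithTop ℕ∞) W (Set.Ioi 0) ↔
          ContDiffOn ℝ ((k : ℕ) : WithTop ℕ∞) (fun y => (ν (Set.Iio (-y))).toReal) (Set.Ioi 0))) := by
  intro h
  have ha : (3 / 2 : ℝ) < 7 / 4 := by norm_num
  have h1 : (1 : ℝ) < 7 / 4 := by norm_num
  have h2 : (7 / 4 : ℝ) < 2 := by norm_num
  have key := h (Pool.Agent.H551Z.Doney.nu (7 / 4)) (Pool.Agent.H551Z.Doney.gam (7 / 4))
    (Pool.Agent.H551Z.Doney.W (7 / 4)) (Pool.Agent.H551Z.Doney.nu_Ici _)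
    (Pool.Agent.H551Z.Doney.lintegral_min_nu h1 h2)
    (Pool.Agent.H551Z.Doney.lintegral_abs_nu h1 h2)
    (Pool.Agent.H551Z.Doney.continuous_W ha).continuousOn
    ⟨2, fun β hβ => ⟨Pool.Agent.H551Z.Doney.integrableOn_W ha hβ, by
      rw [Pool.Agent.H551Z.Doney.psi_eq h1 h2 (by linarith)]
      exact Pool.Agent.H551Z.Doney.laplace_W ha hβ⟩⟩ 0
  have hW := key.mp (by simpa using Pool.Agent.H551Z.Doney.contDiffOn_W ha)
  exact Pool.Agent.H551Z.Doney.tail_not_continuousOn h1 h2 hW.continuousOn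

end Pool.Agent.S19138
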