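import Pool.Statements.S19189
import Pool.Agent.H220Z.Frac.Main

set_option autoImplicit false
open scoped Classical
open Pool Pool.MP_1ae8db_pr

namespace Pool.Agent.S19189

open Pool.Agent.H220Z.Frac in
lemma bridge {n r : ℕ} (σ : Ordg n (r + 1)) (h : Good σ) (t : ℕ) :
    ((∀ f : Finset (Fin n), f.card = r + 1 - 1 →
        ∃ i : Fin (n.choose (r + 1)), i.val < t ∧ f ⊆ (σ i).val) ↔
      (∃ w : Finset (Fin n) → ℝ,
        (∀ e, 0 ≤ w e ∧ w e ≤ 1) ∧
        ∀ f : Finset (Fin n), f.card = r + 1 - 1 →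
          ∑ i ∈ Finset.univ.filter
              (fun i : Fin (n.choose (r + 1)) => i.val < t ∧ f ⊆ (σ i).val),
            w (σ i).val = 1)) := by
  have hmem : ∀ i : Fin (n.choose (r + 1)), (σ i).val ∈ HH σ t ↔ i.val < t := by
    intro i
    rw [mem_HH]
    constructor
    · rintro ⟨h1, h2⟩
      simpa [pos] using h2
    · intro hi
      exact ⟨(σ i).2, by simpa [pos] using hi⟩
  constructor
  · intro hc
    obtain ⟨w, h1, h2⟩ := h t (fun f hf => by
      obtain ⟨i, hi, hf'⟩ := hc f (mem_PS.1 hf)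
      exact ⟨_, (hmem i).2 hi, hf'⟩)
    refine ⟨w, h1, fun f hf => ?_⟩
    rw [← h2 f (mem_PS.2 hf)]
    refine Finset.sum_bij (fun i _ => (σ i).val) ?_ ?_ ?_ fun _ _ => rfl
    · intro i hi
      obtain ⟨h3, h4⟩ := (Finset.mem_filter.1 hi).2
      exact Finset.mem_filter.2 ⟨(hmem i).2 h3, h4⟩
    · intro i _ j _ hij
      exact σ.injective (Subtype.ext hij)
    · intro e he
      obtain ⟨h3, h4⟩ := Finset.mem_filter.1 he
      obtain ⟨h5, h6⟩ := mem_HH.1 h3
      refine ⟨σ.symm ⟨e, h5⟩, Finset.mem_filter.2 ⟨Finset.mem_univ _, h6, ?_⟩, ?_⟩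
      · simpa using h4
      · simp
  · rintro ⟨w, _, h2⟩ f hf
    have h3 := h2 f hf
    by_contra hc
    rw [Finset.filter_eq_empty_iff.2 fun i _ hi => hc ⟨i, hi⟩] at h3
    simp at h3

/-- For each fixed k ≥ 2, the fraction of orderings of all k-subsets of an n-set for which, at every time, all (k−1)-sets are covered exactly when a fractional K_k-decomposition exists, tends to 1 as n → ∞. -/
theorem result :
    ∀ k : ℕ, 2 ≤ k →
      Filter.Tendsto
        (fun n : ℕ =>
          ((Finset.univ.filter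
              (fun σ : Fin (n.choose k) ≃ {s : Finset (Fin n) // s.card = k} =>
                ∀ t : ℕ,
                  ((∀ f : Finset (Fin n), f.card = k - 1 →
                      ∃ i : Fin (n.choose k), i.val < t ∧ f ⊆ (σ i).val) ↔
                    (∃ w : Finset (Fin n) → ℝ,
                      (∀ e, 0 ≤ w e ∧ w e ≤ 1) ∧
                      ∀ f : Finset (Fin n), f.card = k - 1 →
                        ∑ i ∈ Finset.univ.filter
                            (fun i : Fin (n.choose k) => i.val < t ∧ f ⊆ (σ i).val),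
                          w (σ i).val = 1)))).card : ℝ) /
            (Fintype.card (Fin (n.choose k) ≃ {s : Finset (Fin n) // s.card = k}) : ℝ))
        Filter.atTop (nhds 1) := by
  intro k hk
  obtain ⟨r, rfl⟩ : ∃ r, k = r + 1 := ⟨k - 1, by omega⟩
  obtain ⟨ε, hε, h⟩ := H220Z.Frac.bad_tendsto r (by omega)
  have h1 : Filter.Tendsto (fun n => 1 - ε n) Filter.atTop (nhds 1) := by
    simpa using hε.const_sub 1
  refine tendsto_of_tendsto_of_tendsto_of_le_of_le' h1 tendsto_const_nhds ?_ ?_
  · filter_upwards [h] with n hn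
    have := H220Z.Frac.nonempty_Ordg n (r + 1)
    rw [H220Z.Frac.pr_eq]
    have h2 := hn
    rw [H220Z.Frac.pr_compl] at h2
    refine le_trans ?_ (H220Z.Frac.pr_mono fun σ (hσ : H220Z.Frac.Good σ) t => bridge σ hσ t)
    linarith
  · refine Filter.Eventually.of_forall fun n => ?_
    rw [H220Z.Frac.pr_eq]
    exact H220Z.Frac.pr_le_one _

end Pool.Agent.S19189
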