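import Pool.Statements.S19204
import Pool.Agent.H606Z.LO

set_option autoImplicit false
open MeasureTheory
open Pool Pool.MP_218893_pr

namespace Pool.Agent.S19204

/-- The negation of the preceding statement: For every law μ on ℤ^d and iid X₁..Xₙ ~ μ, some signs wᵢ ∈ {±1} satisfy P(∑aᵢXᵢ = x) ≤ max over k ∈ ℤ^d of P(∑wᵢXᵢ = k), for all nonzero real aᵢ and all x ∈ ℝ^d. -/
theorem result :
    ¬ (∀ (n d : ℕ) (μ : Measure (Fin d → ℤ)) [IsProbabilityMeasure μ],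
      ∃ w : Fin n → ℤ, (∀ i, w i = 1 ∨ w i = -1) ∧
        ∀ a : Fin n → ℝ, (∀ i, a i ≠ 0) → ∀ x : Fin d → ℝ,
          Measure.pi (fun _ : Fin n => μ)
              {ω : Fin n → Fin d → ℤ | ∑ i, a i • (fun j => ((ω i j : ℤ) : ℝ)) = x}
            ≤ ⨆ k : Fin d → ℤ, Measure.pi (fun _ : Fin n => μ)
              {ω : Fin n → Fin d → ℤ | ∑ i, w i • ω i = k}) := by
  intro h
  obtain ⟨w, hw, h⟩ := h 3 1 Pool.Agent.H606Z.LO.μ
  exact Pool.Agent.H606Z.LO.main w hw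
    (h ![1, -2, 4] (by intro i; fin_cases i <;> norm_num) 0)

end Pool.Agent.S19204
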