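import Pool.Statements.S19209
import Pool.Agent.H444Z.Cyc.Meas
import Pool.Agent.H444Z.Cyc.Simple

set_option autoImplicit false
open MeasureTheory ProbabilityTheory
open Pool Pool.MP_240aa8_pr

namespace Pool.Agent.S19209

/-- Whenever k≥1,q≥5 or k≥2,q≥4 or k≥3,q≥3, every n-cycle with n≥3 has a random proper q-coloring whose law is invariant under color permutations and whose restrictions to vertex sets more than k apart are independent. -/
theorem result :
    ∀ k q : ℕ, ((1 ≤ k ∧ 5 ≤ q) ∨ (2 ≤ k ∧ 4 ≤ q) ∨ (3 ≤ k ∧ 3 ≤ q)) →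
      ∀ n : ℕ, 3 ≤ n →
        ∃ μ : Measure (Fin n → Fin q), IsProbabilityMeasure μ ∧
          (∀ᵐ x ∂μ, ∀ i j : Fin n, (SimpleGraph.cycleGraph n).Adj i j → x i ≠ x j) ∧
          (∀ σ : Equiv.Perm (Fin q), μ.map (fun x : Fin n → Fin q => σ ∘ x) = μ) ∧
          (∀ A B : Set (Fin n),
            (∀ a ∈ A, ∀ b ∈ B, k < (SimpleGraph.cycleGraph n).dist a b) →
            IndepFun (fun x : Fin n → Fin q => fun a : A => x a)
              (fun x : Fin n → Fin q => fun b : B => x b) μ) := by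
  intro k q hkq n hn
  by_cases h5 : 5 ≤ q
  · have hk : 1 ≤ k := by omega
    obtain ⟨t, t0, t1, ht⟩ : ∃ t : ℝ, 0 < t ∧ t < 1 ∧ (q : ℝ) * t = (1 + t) ^ 2 := by
      have hq : (5 : ℝ) ≤ q := by exact_mod_cast h5
      have := intermediate_value_Ioo' (zero_le_one (α := ℝ))
        (f := fun t : ℝ => (1 + t) ^ 2 - q * t) (by fun_prop)
        (show (0 : ℝ) ∈ Set.Ioo _ _ from ⟨by linarith, by simp⟩)
      obtain ⟨t, ⟨t0, t1⟩, ht⟩ := this
      exact ⟨t, t0, t1, by simp only at ht; linarith⟩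
    obtain ⟨N, rfl⟩ : ∃ N, n = N + 1 := ⟨n - 1, by omega⟩
    obtain ⟨m, P, h1, h2, h3, h4, h6, h7, h8⟩ :=
      H444Z.Cyc.weights (A := Fin q) t0 t1 (by simpa using ht) N (by omega)
    obtain ⟨μ, a1, a2, a3, a4⟩ :=
      H444Z.Cyc.cyc_of_weights N (by omega) m P h1 h2 h3 h4 h6 h7 h8
    exact ⟨μ, a1, a2, a3, fun A B h => a4 A B fun a ha b hb => lt_of_le_of_lt hk (h a ha b hb)⟩
  · obtain ⟨K, rfl⟩ : ∃ K, n = K + 3 := ⟨n - 3, by omega⟩
    by_cases h3 : 3 ≤ k
    · obtain ⟨p, rfl⟩ : ∃ p, q = p + 3 := ⟨q - 3, by omega⟩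
      have h01 : (⟨0, by omega⟩ : Fin (p + 3)) ≠ ⟨1, by omega⟩ := by simp
      have h02 : (⟨0, by omega⟩ : Fin (p + 3)) ≠ ⟨2, by omega⟩ := by simp
      have h12 : (⟨1, by omega⟩ : Fin (p + 3)) ≠ ⟨2, by omega⟩ := by simp
      exact H444Z.Cyc.simple_cyc K k h01 h02 h12
        (fun π a => H444Z.Cyc.pick _ _ _ π a a)
        (fun π π' a e => H444Z.Cyc.pick _ _ _ π' (H444Z.Cyc.pick _ _ _ π a a) e)
        (fun π a => (H444Z.Cyc.pick_ne h01 h02 h12 _ _ _).1)
        (fun π π' a e => (H444Z.Cyc.pick_ne h01 h02 h12 _ _ _).2)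
        (fun π π' a e => (H444Z.Cyc.pick_ne h01 h02 h12 _ _ _).1.symm)
        (fun σ π a => H444Z.Cyc.pick_eq _ _ _ _ _ _ _)
        (fun σ π π' a e => by simp only [H444Z.Cyc.pick_eq]) (by omega) (Or.inl h3)
    · obtain rfl : q = 4 := by omega
      refine H444Z.Cyc.simple_cyc K k (c0 := 0) (c1 := 1) (c2 := 2) (by decide) (by decide)
        (by decide) (fun π a => if π 0 = a then π 1 else π 0)
        (fun π _ _ e => if π 2 = e then π 3 else π 2) (fun π a => ?_) (fun π π' a e => ?_)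
        (fun π π' a e => ?_) (fun σ π a => ?_) (fun σ π π' a e => ?_) (by omega)
        (Or.inr fun _ _ _ _ _ => rfl)
      · split_ifs with h
        · rw [← h]; exact π.injective.ne (by decide)
        · exact h
      · split_ifs with h
        · rw [← h]; exact π.injective.ne (by decide)
        · exact h
      · split_ifs <;> exact π.injective.ne (by decide)
      · simp only [Equiv.Perm.mul_apply, σ.apply_eq_iff_eq]
        split_ifs <;> rfl
      · simp only [Equiv.Perm.mul_apply, σ.apply_eq_iff_eq]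
        split_ifs <;> rfl

end Pool.Agent.S19209
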