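import Pool.Statements.S19248
import Pool.Agent.H528Z.Pois3

set_option autoImplicit false
open Filter Topology
open Pool Pool.MP_2ff427_pr

namespace Pool.Agent.S19248

/-- The negation of the preceding statement: There are constants c1,c2>0 such that for every width w(l)→∞ with w/l^(2/3)→0, the expected longest increasing chain of a rate-1 Poisson process in a 45°-rotated l-by-w rectangle equals √2 l − c1 l/w + c2 l^(1/2) w^(-1/4)(1+o(1)). -/
theorem result :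
    ¬ (∃ c₁ c₂ : ℝ, 0 < c₁ ∧ 0 < c₂ ∧
      ∀ w : ℝ → ℝ, Tendsto w atTop atTop →
        Tendsto (fun ℓ : ℝ => w ℓ / ℓ ^ ((2 : ℝ) / 3)) atTop (𝓝 0) →
        Tendsto (fun ℓ : ℝ =>
          ((∑' n : ℕ, Real.exp (-(ℓ * w ℓ)) / (n.factorial : ℝ) *
              ∫ x in Set.univ.pi (fun _ : Fin n =>
                  {p : ℝ × ℝ | 0 ≤ p.1 + p.2 ∧ p.1 + p.2 ≤ Real.sqrt 2 * ℓ ∧
                    |p.1 - p.2| ≤ Real.sqrt 2 * w ℓ / 2}),
                (((sSup {k : ℕ | ∃ s : Finset (Fin n), s.card = k ∧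
                    ∀ i ∈ s, ∀ j ∈ s, i ≠ j →
                      (((x i).1 < (x j).1 ∧ (x i).2 < (x j).2) ∨
                       ((x j).1 < (x i).1 ∧ (x j).2 < (x i).2))}) : ℕ) : ℝ))
            - Real.sqrt 2 * ℓ + c₁ * ℓ / w ℓ)
          / (c₂ * ℓ ^ ((1 : ℝ) / 2) / (w ℓ) ^ ((1 : ℝ) / 4)))
          atTop (𝓝 1)) := by
  rintro ⟨c₁, c₂, h₁, h₂, H⟩
  exact Pool.Agent.H528Z.Pois.final c₁ c₂ h₁ h₂ H

end Pool.Agent.S19248
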