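import Pool.Statements.S19263
import Pool.Agent.H351Z.KFin

set_option autoImplicit false
open Classical
open Pool Pool.MP_36796c_pr

namespace Pool.Agent.S19263

/-- For α in (0,1/2) there is C>0 solving the stated root equation such that, for large even n, every n-vertex graph of min degree ≥ αn plus G(n,(1+ε)C/n) has a perfect matching whp, while some such graph plus G(n,(1−ε)C/n) whp has none. -/
theorem result :
    ∀ α : ℝ, 0 < α → α < 1 / 2 →
    ∃ C : ℝ, 0 < C ∧ ∃ γ : ℝ,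
      γ = (1 - α) * C * Real.exp (-((1 - α) * C * Real.exp (-γ))) ∧
      (∀ x : ℝ, x = (1 - α) * C * Real.exp (-((1 - α) * C * Real.exp (-x))) → γ ≤ x) ∧
      1 - (γ + (1 - α) * C * Real.exp (-γ) + γ * ((1 - α) * C * Real.exp (-γ)))
          / ((2 - 2 * α) * C) = (1 - 2 * α) / (2 - 2 * α) ∧
      ∀ ε : ℝ, 0 < ε → ε < 1 → ∀ δ : ℝ, 0 < δ →
        ∃ N : ℕ, ∀ n : ℕ, N ≤ n → Even n →
          (∀ H : SimpleGraph (Fin n), α * (n : ℝ) ≤ (H.minDegree : ℝ) →
            1 - δ ≤ ∑ G : SimpleGraph (Fin n),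
              (if (∃ M : (H ⊔ G).Subgraph, M.IsPerfectMatching) then
                ((1 + ε) * C / n) ^ G.edgeSet.ncard *
                  (1 - (1 + ε) * C / n) ^ (n.choose 2 - G.edgeSet.ncard)
              else 0)) ∧
          (∃ H : SimpleGraph (Fin n), α * (n : ℝ) ≤ (H.minDegree : ℝ) ∧
            ∑ G : SimpleGraph (Fin n),
              (if (∃ M : (H ⊔ G).Subgraph, M.IsPerfectMatching) then
                ((1 - ε) * C / n) ^ G.edgeSet.ncard *
                  (1 - (1 - ε) * C / n) ^ (n.choose 2 - G.edgeSet.ncard)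
              else 0) ≤ δ) := by
  intro α h0 h1
  have hα : 0 < 1 - α := by linarith
  obtain ⟨c, hc, γ, e1, e2, e3, e4, e5⟩ := H351Z.RG.exists_C (β := α / (1 - α)) (by positivity)
    (by rw [div_lt_one hα]; linarith)
  have hC : c = (1 - α) * (c / (1 - α)) := by field_simp
  refine ⟨c / (1 - α), by positivity, γ, by rw [← hC]; exact e1, by rw [← hC]; exact e2, ?_,
    fun ε hε hε1 δ hδ => ?_⟩
  · rw [H351Z.RG.Phi_root hc e1, sub_eq_iff_eq_add, div_eq_iff hc.ne'] at e3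
    have : (2 - 2 * α) ≠ 0 := by linarith
    rw [← hC, e3]
    field_simp
    ring
  · obtain ⟨M, e6, e7⟩ := e4 ((1 + ε / 2) * c) (by nlinarith)
    obtain ⟨k, e8⟩ := e5 ((1 - ε) * c) (by nlinarith) (by nlinarith)
    have hC0 : 0 < c / (1 - α) := by positivity
    obtain ⟨N, hN⟩ := Filter.eventually_atTop.1 (((H351Z.RG.pm_one h0 h1 hC0 hC hε hδ e7 e6).and
      (H351Z.RG.pm_zero h0 h1 hC0 hC hε1 hδ e8)).and (Filter.eventually_gt_atTop 0))
    refine ⟨N, fun n hn he => ?_⟩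
    obtain ⟨⟨f1, H, f2, f3⟩, f4⟩ := hN n hn
    refine ⟨fun H hH => ?_, H, Nat.ceil_le.1 ((H351Z.RG.minDegree_iff f4 H _).2 f2), ?_⟩
    · rw [H351Z.RG.sum_eq_Pr n _ fun G => ∃ M : (H ⊔ G).Subgraph, M.IsPerfectMatching]
      exact f1 he H ((H351Z.RG.minDegree_iff f4 H _).1 (Nat.ceil_le.2 hH))
    · rw [H351Z.RG.sum_eq_Pr n _ fun G => ∃ M : (H ⊔ G).Subgraph, M.IsPerfectMatching]
      exact f3

end Pool.Agent.S19263
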