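import Pool.Statements.S19294
import Pool.Agent.H299Z.Gr.Final

set_option autoImplicit false
open Pool Pool.MP_4736a5_pr

namespace Pool.Agent.S19294

/-- The negation of the preceding statement: For 0<p<1, p³<t<1 with the constant graphon not optimal, any two graphons minimizing the relative entropy I_p subject to triangle density ≥ t have equal homomorphism densities for every simple graph, i.e. are equal in the graphon quotient space. -/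
theorem result :
    ¬ (∀ (p t : ℝ), 0 < p → p < 1 → p ^ 3 < t → t < 1 →
  ∀ (IsGraphon : (ℝ → ℝ → ℝ) → Prop),
    (∀ W, IsGraphon W ↔ (Measurable (Function.uncurry W) ∧ (∀ x y, W x y = W y x) ∧
        ∀ x y, 0 ≤ W x y ∧ W x y ≤ 1)) →
  ∀ (I : (ℝ → ℝ → ℝ) → ℝ),
    (∀ W, I W = (1 / 2) * ∫ x in Set.Icc (0:ℝ) 1, ∫ y in Set.Icc (0:ℝ) 1,
        (W x y * Real.log (W x y / p) + (1 - W x y) * Real.log ((1 - W x y) / (1 - p)))) →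
  ∀ (T : (ℝ → ℝ → ℝ) → ℝ),
    (∀ W, T W = ∫ x in Set.Icc (0:ℝ) 1, ∫ y in Set.Icc (0:ℝ) 1, ∫ z in Set.Icc (0:ℝ) 1,
        W x y * W y z * W x z) →
  (∃ U, IsGraphon U ∧ t ≤ T U ∧ I U < I (fun _ _ => t ^ ((1:ℝ) / 3))) →
  ∀ W₁ W₂, IsGraphon W₁ → IsGraphon W₂ → t ≤ T W₁ → t ≤ T W₂ →
    (∀ U, IsGraphon U → t ≤ T U → I W₁ ≤ I U) →
    (∀ U, IsGraphon U → t ≤ T U → I W₂ ≤ I U) →
    ∀ (k : ℕ) (E : Finset (Fin k × Fin k)), (∀ e ∈ E, e.1 < e.2) →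
      (∫ x in Set.univ.pi (fun _ : Fin k => Set.Icc (0:ℝ) 1), ∏ e ∈ E, W₁ (x e.1) (x e.2)) =
      (∫ x in Set.univ.pi (fun _ : Fin k => Set.Icc (0:ℝ) 1), ∏ e ∈ E, W₂ (x e.1) (x e.2))) := by
  intro H
  obtain ⟨p, q, L, P⟩ := H299Z.Gr.exists_par
  obtain ⟨t, V1, V2, h0, h1, m1, m2, hne⟩ := P.two_min
  have p0 := P.p0
  have p1 := P.p1
  have hp : p ∈ Set.Icc (0 : ℝ) 1 := ⟨p0.le, p1.le⟩
  have p3 : 0 < p ^ 3 := by positivity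
  obtain ⟨b1, r0, r1, t1⟩ := P.breaking h0 h1 m1
  have gr : ∀ {V : ℝ → ℝ → ℝ}, H299Z.Gr.G V →
      (Measurable (Function.uncurry fun x y => H299Z.Gr.af p (V x y)) ∧
        (∀ x y, H299Z.Gr.af p (V x y) = H299Z.Gr.af p (V y x)) ∧
        ∀ x y, 0 ≤ H299Z.Gr.af p (V x y) ∧ H299Z.Gr.af p (V x y) ≤ 1) := fun {V} hV =>
    ⟨(hV.1.af hp).meas, fun x y => by rw [hV.2 x y],
      fun x y => ⟨(hV.1.af hp).nonneg x y, (hV.1.af hp).le_one x y⟩⟩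
  have tt : ∀ {V : ℝ → ℝ → ℝ}, H299Z.Gr.IsMin p t V →
      t ≤ ∫ x in Set.Icc (0:ℝ) 1, ∫ y in Set.Icc (0:ℝ) 1, ∫ z in Set.Icc (0:ℝ) 1,
        H299Z.Gr.af p (V x y) * H299Z.Gr.af p (V y z) * H299Z.Gr.af p (V x z) := fun {V} hV => by
    rw [H299Z.Gr.T_eq (hV.1.1.af hp)]
    exact hV.2.1
  have mn : ∀ {V : ℝ → ℝ → ℝ}, H299Z.Gr.IsMin p t V → ∀ U : ℝ → ℝ → ℝ,
      (Measurable (Function.uncurry U) ∧ (∀ x y, U x y = U y x) ∧ ∀ x y, 0 ≤ U x y ∧ U x y ≤ 1) →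
      (t ≤ ∫ x in Set.Icc (0:ℝ) 1, ∫ y in Set.Icc (0:ℝ) 1, ∫ z in Set.Icc (0:ℝ) 1,
        U x y * U y z * U x z) →
      (1 / 2) * ∫ x in Set.Icc (0:ℝ) 1, ∫ y in Set.Icc (0:ℝ) 1,
        (H299Z.Gr.af p (V x y) * Real.log (H299Z.Gr.af p (V x y) / p) +
          (1 - H299Z.Gr.af p (V x y)) * Real.log ((1 - H299Z.Gr.af p (V x y)) / (1 - p))) ≤
      (1 / 2) * ∫ x in Set.Icc (0:ℝ) 1, ∫ y in Set.Icc (0:ℝ) 1,
        (U x y * Real.log (U x y / p) + (1 - U x y) * Real.log ((1 - U x y) / (1 - p))) := by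
    intro V hV U hU hT
    have kU : H299Z.Gr.K01 U := ⟨hU.1, fun x y => (hU.2.2 x y).1, fun x y => (hU.2.2 x y).2⟩
    rw [H299Z.Gr.T_eq kU] at hT
    rw [H299Z.Gr.I_eq p0 p1 (hV.1.1.af hp), H299Z.Gr.I_eq p0 p1 kU]
    have := H299Z.Gr.global_min p0 p1 hV ⟨kU, hU.2.1⟩ hT
    linarith
  have key := H p t p0 p1 (by linarith) t1 _ (fun W => Iff.rfl) _ (fun W => rfl) _ (fun W => rfl)
    ⟨fun x y => H299Z.Gr.af p (V1 x y), gr m1.1, tt m1, by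
      have kc : H299Z.Gr.K01 fun (_ _ : ℝ) => t ^ ((1 : ℝ) / 3) :=
        ⟨measurable_const, fun _ _ => r0, fun _ _ => r1⟩
      have e1 := H299Z.Gr.I_eq p0 p1 (m1.1.1.af hp)
      have e2 := H299Z.Gr.I_eq p0 p1 kc
      have e3 : H299Z.Gr.JJ H299Z.Gr.mu0 (H299Z.Gr.phi p) (fun (_ _ : ℝ) => t ^ ((1 : ℝ) / 3)) =
          H299Z.Gr.phi p (t ^ ((1 : ℝ) / 3)) := by simp [H299Z.Gr.JJ]
      have e4 : H299Z.Gr.JJ H299Z.Gr.mu0 (H299Z.Gr.phi p) (fun x y => H299Z.Gr.af p (V1 x y)) =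
          H299Z.Gr.JJ H299Z.Gr.mu0 (H299Z.Gr.psi p) V1 := rfl
      beta_reduce
      rw [e1, e2, e3, e4]
      linarith⟩
    (fun x y => H299Z.Gr.af p (V1 x y)) (fun x y => H299Z.Gr.af p (V2 x y)) (gr m1.1) (gr m2.1)
    (tt m1) (tt m2) (mn m1) (mn m2)
  have k1 := key 3 {(0, 1), (0, 2)} (by decide)
  have k2 := key 3 {(0, 1)} (by decide)
  rw [H299Z.Gr.hom_cherry (m1.1.1.af hp), H299Z.Gr.hom_cherry (m2.1.1.af hp)] at k1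
  rw [H299Z.Gr.hom_edge (m1.1.1.af hp), H299Z.Gr.hom_edge (m2.1.1.af hp)] at k2
  have a1 := H299Z.Gr.expand2 H299Z.Gr.mu0 (m1.1.1.scale hp) p
  have a2 := H299Z.Gr.expand2 H299Z.Gr.mu0 (m2.1.1.scale hp) p
  have a3 := H299Z.Gr.expand1 H299Z.Gr.mu0 (m1.1.1.scale hp) p
  have a4 := H299Z.Gr.expand1 H299Z.Gr.mu0 (m2.1.1.scale hp) p
  rw [H299Z.Gr.ch_scale] at a1 a2
  have c1 := a1.symm.trans (k1.trans a2)
  have c2 := a3.symm.trans (k2.trans a4)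
  have c3 : (1 - p) ^ 2 * H299Z.Gr.TA H299Z.Gr.mu0 0 1 0 V1 =
      (1 - p) ^ 2 * H299Z.Gr.TA H299Z.Gr.mu0 0 1 0 V2 := by
    have := add_left_cancel c2
    rw [this] at c1
    linarith
  exact hne (mul_left_cancel₀ (pow_ne_zero 2 (by linarith)) c3)

end Pool.Agent.S19294
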