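import Pool.Statements.S19308
import Pool.Agent.H659Z.Lac

set_option autoImplicit false
open Filter Topology MeasureTheory Real
open Pool Pool.MP_4e696d_pr

namespace Pool.Agent.S19308

/-- The negation of the preceding statement: For positive integers a_k with a_{k+1}/a_k tending to a transcendental η>1, the averages (1/n)Σcos(2π a_k ω), ω uniform on [0,1], satisfy an LDP with speed n and the i.i.d. Cramér rate function of cos(2πU). -/
theorem result :
    ¬ (∀ (a : ℕ → ℕ) (η : ℝ), 1 < η → Transcendental ℚ η → (∀ k, 0 < a k) →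
      Tendsto (fun k : ℕ => (a (k + 1) : ℝ) / (a k : ℝ)) atTop (𝓝 η) →
      ((∀ F : Set ℝ, IsClosed F →
          limsup (fun n : ℕ => ((((n : ℝ)⁻¹ : ℝ)) : EReal) *
              ENNReal.log (volume (Set.Icc (0 : ℝ) 1 ∩
                {ω : ℝ | (∑ k ∈ Finset.range n, Real.cos (2 * π * (a k : ℝ) * ω)) / (n : ℝ) ∈ F})))
            atTop
          ≤ - ⨅ x ∈ F, ⨆ l : ℝ,
              (((l * x - Real.log (∫ t in (0 : ℝ)..1, Real.exp (l * Real.cos (2 * π * t)))) : ℝ) : EReal)) ∧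
       (∀ G : Set ℝ, IsOpen G →
          - (⨅ x ∈ G, ⨆ l : ℝ,
              (((l * x - Real.log (∫ t in (0 : ℝ)..1, Real.exp (l * Real.cos (2 * π * t)))) : ℝ) : EReal))
          ≤ liminf (fun n : ℕ => ((((n : ℝ)⁻¹ : ℝ)) : EReal) *
              ENNReal.log (volume (Set.Icc (0 : ℝ) 1 ∩
                {ω : ℝ | (∑ k ∈ Finset.range n, Real.cos (2 * π * (a k : ℝ) * ω)) / (n : ℝ) ∈ G})))
            atTop))) := by
  intro h
  obtain ⟨η, h1, h2, h3⟩ := Pool.Agent.H659Z.Lac.exists_eta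
  have h0 : 0 < η := by linarith
  have hmain := (h (fun k => ⌈η ^ k⌉₊) η h1 h3 (fun k => Nat.ceil_pos.2 (by positivity))
    (Pool.Agent.H659Z.Lac.ratio η h1)).1
  obtain ⟨c, hc⟩ := Pool.Agent.H659Z.Lac.upper_fails (fun k => ⌈η ^ k⌉₊) 2 (by norm_num) (fun k => by
    have : ⌈η ^ k⌉₊ ≤ 2 ^ (k + 1) := by
      rw [Nat.ceil_le]
      push_cast
      calc η ^ k ≤ 2 ^ k := pow_le_pow_left₀ h0.le h2.le k
        _ ≤ 2 ^ (k + 1) := pow_le_pow_right₀ (by norm_num) (Nat.le_succ k)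
    exact_mod_cast this)
  exact hc (hmain _ isClosed_Ici)

end Pool.Agent.S19308
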