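import Pool.Statements.S19311
import Pool.Agent.H536Z.Four

set_option autoImplicit false
open Pool Pool.MP_52a2fa_pr

namespace Pool.Agent.S19311

/-- For every β>1 and every length law m on ℕ≥1 with m(ℓ) between cℓ^{-β} and Cℓ^{-β}: some intensity v>0 makes the Z^4 worm set (SRW ranges) a.s. non-percolating iff β≥3. -/
theorem result :
  ∀ (β : ℝ), 1 < β → ∀ (m : ℕ → ℝ), m 0 = 0 → (∀ ℓ, 0 ≤ m ℓ) → HasSum m 1 →
    (∃ c C : ℝ, 0 < c ∧ 0 < C ∧ ∀ ℓ : ℕ, 1 ≤ ℓ →
        c * ((ℓ : ℝ) ^ (-β)) ≤ m ℓ ∧ m ℓ ≤ C * ((ℓ : ℝ) ^ (-β))) →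
    ((∃ v : ℝ, 0 < v ∧
        ∀ (Ω : Type) [MeasurableSpace Ω] (P : MeasureTheory.Measure Ω)
          [MeasureTheory.IsProbabilityMeasure P]
          (ξ : (Fin 4 → ℤ) × Finset (Fin 4 → ℤ) → Ω → Bool),
          (∀ k, Measurable (ξ k)) →
          ProbabilityTheory.iIndepFun ξ P →
          (∀ k : (Fin 4 → ℤ) × Finset (Fin 4 → ℤ),
            P {ω | ξ k ω = true} =
              ENNReal.ofReal (1 - Real.exp (-(v * ∑' n : ℕ, m (n + 1) *
                (((Finset.univ.filter (fun s : Fin n → Fin 4 × Bool =>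
                    (Finset.range (n + 1)).image (fun t : ℕ =>
                      ∑ i ∈ Finset.univ.filter (fun i : Fin n => (i : ℕ) < t),
                        (Pi.single (s i).1 (if (s i).2 then (1 : ℤ) else -1) : Fin 4 → ℤ))
                    = k.2)).card : ℝ) / (8 : ℝ) ^ n))))) →
          P {ω | ∃ y : Fin 4 → ℤ,
              {z : Fin 4 → ℤ |
                (SimpleGraph.fromRel (fun a b : Fin 4 → ℤ =>
                  (∃ x : Fin 4 → ℤ, ∃ A : Finset (Fin 4 → ℤ), ξ (x, A) ω = true ∧ a - x ∈ A) ∧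
                  (∃ x : Fin 4 → ℤ, ∃ A : Finset (Fin 4 → ℤ), ξ (x, A) ω = true ∧ b - x ∈ A) ∧
                  ∑ j : Fin 4, |a j - b j| = 1)).Reachable y z}.Infinite} = 0)
     ↔ 3 ≤ β) := by
  rintro β hβ m hm0 hm hsum ⟨c, C, hc, hC, hb⟩
  have hq : Summable fun n => m (n + 1) := (summable_nat_add_iff 1).2 hsum.summable
  simp only [H536Z.count_eq]
  constructor
  · rintro ⟨v, hv, h⟩
    by_contra hlt
    have hlt : β < 3 := not_le.1 hlt
    obtain ⟨P, hP, h1, h2⟩ := H536Z.exists_indep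
      (fun k : (Fin 4 → ℤ) × Finset (Fin 4 → ℤ) => 1 - Real.exp (-(v * ∑' n : ℕ, m (n + 1) *
        H536Z.Ex n fun l : List (H536Z.St 4) => H536Z.ind (H536Z.trace l = k.2))))
      (fun k => by
        rw [sub_nonneg, Real.exp_le_one_iff, neg_nonpos]
        exact mul_nonneg hv.le (tsum_nonneg fun n => mul_nonneg (hm _) (H536Z.Ex_ind_nonneg _ _)))
      (fun k => sub_le_self _ (Real.exp_pos _).le)
    have hM := H536Z.indicator_model (d := 4) (by norm_num) P (fun k ω => ω k)
      (fun k => measurable_pi_apply k) h1 hv.le (fun n => hm _) hq h2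
    have h3 := H536Z.perc_heavy (d := 4) (by norm_num) le_rfl (a := (3 - β) / 2) (c := c) (β := β)
      (by linarith) (by linarith) (by push_cast; linarith) hc (by linarith) (by linarith)
      (q := fun n => m (n + 1)) (fun n => by simpa using (hb (n + 1) (by omega)).1) hv P _ hM
    refine h3 (le_antisymm (le_trans (MeasureTheory.measure_mono ?_)
      (h _ P (fun k ω => ω k) (fun k => measurable_pi_apply k) h1 h2).le) bot_le)
    intro ω hω
    have := (H536Z.perc_iff_graph _).2 hω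
    simpa [H536Z.occ] using this
  · intro h3
    have hq1 : ∀ M, ∑ n ∈ Finset.range M, m (n + 1) ≤ 1 := by
      intro M
      have := sum_le_hasSum (Finset.range (M + 1)) (fun n _ => hm n) hsum
      rw [Finset.sum_range_succ', hm0, add_zero] at this
      exact this
    have hcr := H536Z.crit_four (q := fun n => m (n + 1)) (fun n => hm _) hC.le (fun n => by
      have h1 := (hb (n + 1) (by omega)).2
      push_cast at h1
      have hn : (1 : ℝ) ≤ (n : ℝ) + 1 := by have : (0 : ℝ) ≤ n := Nat.cast_nonneg n; linarith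
      have h2 : ((n : ℝ) + 1) ^ (-β) ≤ ((n : ℝ) + 1) ^ (-(3 : ℝ)) :=
        Real.rpow_le_rpow_of_exponent_le hn (by linarith)
      have h4 : ((n : ℝ) + 1) ^ (-(3 : ℝ)) * ((n : ℝ) + 1) ^ 3 = 1 := by
        rw [Real.rpow_neg (by linarith), show (3 : ℝ) = ((3 : ℕ) : ℝ) by norm_num,
          Real.rpow_natCast]
        field_simp
      calc m (n + 1) * ((n : ℝ) + 1) ^ 3 ≤ C * ((n : ℝ) + 1) ^ (-(3 : ℝ)) * ((n : ℝ) + 1) ^ 3 := by
            gcongr; exact h1.trans (by gcongr)
        _ = C := by rw [mul_assoc, h4, mul_one])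
    obtain ⟨v0, hv0, hv⟩ := H536Z.nonperc_crit (d := 4) (by norm_num) (by norm_num)
      (fun n => m (n + 1)) (fun n => hm _) hq1 (by positivity) hcr.1 hcr.2
    refine ⟨v0, hv0, fun Ω _ P _ ξ h1 h2 h4 => ?_⟩
    have hM := H536Z.indicator_model (d := 4) (by norm_num) P ξ h1 h2 hv0.le (fun n => hm _) hq h4
    refine le_antisymm (le_trans (MeasureTheory.measure_mono ?_)
      (hv v0 hv0.le le_rfl Ω P _ hM).le) bot_le
    intro ω hω
    refine (H536Z.perc_iff_graph _).1 ?_
    simpa [H536Z.occ] using hω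

end Pool.Agent.S19311
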