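import Pool.Statements.S19318
import Pool.Agent.H116Z.LCP.Main

set_option autoImplicit false
open Pool Pool.MP_53494a_pr

namespace Pool.Agent.S19318

/-- The negation of the preceding statement: For all large m, the expected longest pattern common to m uniform random permutations of length n, divided by n^(m/(2m−1)), converges as n→∞ to some f(m), and f(m)→2 as m→∞. -/
theorem result :
    ¬ (∃ f : ℕ → ℝ,
    (∀ᶠ m in Filter.atTop, Filter.Tendsto (fun n : ℕ =>
      (∑ π : Fin m → Equiv.Perm (Fin n),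
        ((sSup {k : ℕ | ∃ σ : Equiv.Perm (Fin k), ∀ i : Fin m, ∃ e : Fin k ↪o Fin n,
          ∀ a b : Fin k, σ a < σ b ↔ π i (e a) < π i (e b)} : ℕ) : ℝ)) / ((n.factorial : ℝ) ^ m)
        / (n : ℝ) ^ ((m : ℝ) / (2 * (m : ℝ) - 1))) Filter.atTop (nhds (f m)))
    ∧ Filter.Tendsto f Filter.atTop (nhds 2)) := by
  have h := Pool.Agent.H116Z.LCP.not_two
  simp only [Pool.Agent.H116Z.LCP.av, Pool.Agent.H116Z.LCP.Lp, Fintype.card_fun,
    Fintype.card_perm, Fintype.card_fin, Nat.cast_pow] at h
  exact h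

end Pool.Agent.S19318
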