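import Pool.Statements.S19343
import Pool.Agent.H444Z.PP.Lim

set_option autoImplicit false
open MeasureTheory ProbabilityTheory
open Pool Pool.MP_5bb7da_pr

namespace Pool.Agent.S19343

/-- There is a locally finite random subset of the reals, shift-invariant in law, with some c>0 making its parts in (-inf,0] and [c,inf) independent, and constants 0<a<=b so that a.s. distinct points are at least a apart and every interval of length b contains a point. -/
theorem result :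
    ∃ (Ω : Type) (m : MeasurableSpace Ω) (P : Measure Ω) (X : Ω → Set ℝ),
      IsProbabilityMeasure P ∧
      (∀ ω : Ω, ∀ u v : ℝ, (X ω ∩ Set.Icc u v).Finite) ∧
      (∀ u v : ℝ, Measurable (fun ω : Ω => (X ω ∩ Set.Icc u v).ncard)) ∧
      (∀ t : ℝ, ∀ n : ℕ, ∀ (l r : Fin n → ℝ) (k : Fin n → ℕ),
        P {ω : Ω | ∀ i : Fin n, (X ω ∩ Set.Icc (l i) (r i)).ncard = k i} =
        P {ω : Ω | ∀ i : Fin n, (X ω ∩ Set.Icc (l i + t) (r i + t)).ncard = k i}) ∧
      (∃ c : ℝ, 0 < c ∧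
        Indep
          (⨆ u : ℝ, ⨆ v : ℝ, MeasurableSpace.comap
            (fun ω : Ω => (X ω ∩ Set.Icc u (min v 0)).ncard) (inferInstance : MeasurableSpace ℕ))
          (⨆ u : ℝ, ⨆ v : ℝ, MeasurableSpace.comap
            (fun ω : Ω => (X ω ∩ Set.Icc (max u c) v).ncard) (inferInstance : MeasurableSpace ℕ))
          P) ∧
      (∃ a b : ℝ, 0 < a ∧ a ≤ b ∧
        ∀ᵐ ω ∂P, (∀ x ∈ X ω, ∀ y ∈ X ω, x ≠ y → a ≤ |x - y|) ∧
          ∀ t : ℝ, (X ω ∩ Set.Icc t (t + b)).Nonempty) := by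
  obtain ⟨P, hP, h1, h2⟩ := Pool.Agent.H444Z.PP.exists_limit
  exact ⟨Pool.Agent.H444Z.PP.Om, inferInstance, P, Pool.Agent.H444Z.PP.X, hP,
    Pool.Agent.H444Z.PP.X_fin, Pool.Agent.H444Z.PP.cnt_meas,
    fun t n l r k => h1 (Fin n) l r k t,
    ⟨17, by norm_num, Pool.Agent.H444Z.PP.indep_final P h2⟩,
    1, 5, one_pos, by norm_num, Filter.Eventually.of_forall fun ω =>
      ⟨Pool.Agent.H444Z.PP.X_sep ω, Pool.Agent.H444Z.PP.X_dense ω⟩⟩

end Pool.Agent.S19343
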