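import Pool.Statements.S19360
import Pool.Agent.H296Z.ConvPoin

set_option autoImplicit false
open MeasureTheory ProbabilityTheory
open Pool Pool.MP_63bd8a_pr

namespace Pool.Agent.S19360

/-- The negation of the preceding statement: For each C>0 there is c>0 such that, in every dimension, if a probability measure has variance of convex Lipschitz g at most C times the mean squared local slope, then convex 1-Lipschitz f satisfies P(f ≤ median − t) ≤ 2exp(−ct). -/
theorem result :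
    ¬ (∀ C : ℝ, 0 < C → ∃ c : ℝ, 0 < c ∧
    ∀ (n : ℕ) (μ : Measure (EuclideanSpace ℝ (Fin n))), IsProbabilityMeasure μ →
      (∀ (g : EuclideanSpace ℝ (Fin n) → ℝ) (L : NNReal),
          ConvexOn ℝ Set.univ g → LipschitzWith L g →
          evariance g μ ≤ ENNReal.ofReal C *
            ∫⁻ x, (Filter.limsup (fun y => ENNReal.ofReal (|g y - g x| / dist y x))
                    (nhdsWithin x {x}ᶜ)) ^ 2 ∂μ) →
      ∀ f : EuclideanSpace ℝ (Fin n) → ℝ, ConvexOn ℝ Set.univ f → LipschitzWith 1 f →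
        ∀ m : ℝ, (1 / 2 : ENNReal) ≤ μ {x | f x ≤ m} → (1 / 2 : ENNReal) ≤ μ {x | m ≤ f x} →
          ∀ t : ℝ, 0 < t → μ {x | f x ≤ m - t} ≤ ENNReal.ofReal (2 * Real.exp (-(c * t)))) := by
  intro h
  obtain ⟨c, hc, h⟩ := h 10 (by norm_num)
  obtain ⟨k, hk⟩ := exists_nat_gt (12 / c ^ 3 + 2)
  have hc3 : 0 < 12 / c ^ 3 := by positivity
  have hk2 : (2:ℝ) < k := by linarith
  have hkn : 2 < k := by exact_mod_cast hk2
  have hn2 : 2 ≤ k ^ 2 := by nlinarith
  have hn2' : (2:ℝ) ≤ ((k ^ 2 : ℕ) : ℝ) := by exact_mod_cast hn2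
  have hε0 : (0:ℝ) ≤ 1 / ((k ^ 2 : ℕ) : ℝ) := by positivity
  have hε : (1:ℝ) / ((k ^ 2 : ℕ) : ℝ) ≤ 1 / 2 := one_div_le_one_div_of_le (by norm_num) hn2'
  have hprob := H296Z.ConvPoin.mu_prob (k ^ 2) _ hε0 (by linarith)
  have hv : ∀ σ : Fin (k ^ 2) → Bool, ‖H296Z.ConvPoin.vert σ‖ = k := fun σ => by
    have h1 := H296Z.ConvPoin.norm_vert_sq σ
    push_cast at h1
    exact (pow_left_inj₀ (norm_nonneg _) (by positivity) two_ne_zero).1 h1
  have hhalf : (1 / 2 : ENNReal) ≤ ENNReal.ofReal (1 - 1 / ((k ^ 2 : ℕ) : ℝ)) := by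
    have : (1 / 2 : ENNReal) = ENNReal.ofReal (1 / 2) := by
      rw [ENNReal.ofReal_div_of_pos (by norm_num)]; simp
    rw [this]
    exact ENNReal.ofReal_le_ofReal (by linarith)
  have hcube : ∀ S : Set (EuclideanSpace ℝ (Fin (k ^ 2))), (∀ σ, H296Z.ConvPoin.vert σ ∈ S) →
      (1 / 2 : ENNReal) ≤ H296Z.ConvPoin.mu (k ^ 2) (1 / ((k ^ 2 : ℕ) : ℝ)) S := fun S hS => by
    rw [H296Z.ConvPoin.mu_apply]
    simp only [Set.indicator_of_mem (hS _), Pi.one_apply, mul_one]
    rw [H296Z.ConvPoin.sum_const_w _ _ (by linarith)]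
    exact hhalf.trans le_add_self
  have key := h (k ^ 2) (H296Z.ConvPoin.mu (k ^ 2) (1 / ((k ^ 2 : ℕ) : ℝ))) hprob
    (fun g L hg hL => H296Z.ConvPoin.poincare (k ^ 2) hn2 g hL.continuous hg)
    (fun x => ‖x‖) convexOn_univ_norm lipschitzWith_one_norm k
    (hcube _ fun σ => (hv σ).le) (hcube _ fun σ => (hv σ).ge) k (by linarith)
  rw [H296Z.ConvPoin.mu_apply, Set.indicator_of_mem (by simp)] at key
  simp only [Pi.one_apply, mul_one] at key
  have key2 := (ENNReal.ofReal_le_ofReal_iff (by positivity)).1 (le_self_add.trans key)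
  have hexp : (c * k) ^ 3 / (Nat.factorial 3 : ℝ) ≤ Real.exp (c * k) :=
    Real.pow_div_factorial_le_exp _ (by positivity) 3
  have h6 : (Nat.factorial 3 : ℝ) = 6 := by norm_num [Nat.factorial]
  rw [h6] at hexp
  rw [Real.exp_neg] at key2
  push_cast at key2
  have hkpos : (0:ℝ) < k := by linarith
  have he := Real.exp_pos (c * k)
  rw [← div_eq_mul_inv, div_le_div_iff₀ (by positivity) he] at key2
  have h12 : 12 < c ^ 3 * k := by
    have : 12 / c ^ 3 < k := by linarith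
    rw [div_lt_iff₀ (by positivity)] at this
    linarith
  have : 12 * (k:ℝ) ^ 2 < c ^ 3 * k * k ^ 2 := by gcongr
  nlinarith

end Pool.Agent.S19360
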