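import Pool.Statements.S19420
import Pool.Agent.H93Z.Rob.Fast

set_option autoImplicit false
open Classical
open Pool Pool.MP_78d095_pr

namespace Pool.Agent.S19420

/-- The negation of the preceding statement: For each K≥1 there is C such that on every finite connected vertex-transitive graph, reweighting edges by factors in [1/K,K] changes the lazy random walk's L² mixing time (threshold 1/2) by at most a factor C, in both directions. -/
theorem result :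
    ¬ (∀ K : ℝ, 1 ≤ K → ∃ C : ℝ, 0 < C ∧
    ∀ (V : Type) [Fintype V] [DecidableEq V] (G : SimpleGraph V), G.Connected →
      (∀ x y : V, ∃ φ : G ≃g G, φ x = y) →
      ∀ (Mix : (V → V → ℝ) → ℕ → Prop),
        (∀ (w : V → V → ℝ) (t : ℕ), Mix w t ↔
          ∀ x : V, ∑ y : V, (∑ z : V, w y z) / (∑ a : V, ∑ b : V, w a b) *
            (((Matrix.of (fun a b : V => (if a = b then (1:ℝ)/2 else 0) + w a b / (2 * ∑ z : V, w a z))) ^ t) x y
              / ((∑ z : V, w y z) / (∑ a : V, ∑ b : V, w a b)) - 1) ^ 2 ≤ 1/4) →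
        ∀ w : V → V → ℝ, (∀ a b, w a b = w b a) →
          (∀ a b, G.Adj a b → K⁻¹ ≤ w a b ∧ w a b ≤ K) →
          (∀ a b, ¬ G.Adj a b → w a b = 0) →
          ∀ t : ℕ,
            (Mix (fun a b => if G.Adj a b then (1:ℝ) else 0) t → Mix w ⌈C * (t:ℝ)⌉₊) ∧
            (Mix w t → Mix (fun a b => if G.Adj a b then (1:ℝ) else 0) ⌈C * (t:ℝ)⌉₊)) := by
  intro h
  obtain ⟨C, hC, h⟩ := h 64 (by norm_num)
  obtain ⟨J, m, l, μ, lab, t, hinj, hl, hμ, h1, h2⟩ := Pool.Agent.H93Z.Rob.counter C hC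
  have hg := Pool.Agent.H93Z.Rob.gen_inj hinj
  have h3 := h (Pool.Agent.H93Z.Rob.Vx J l m)
    (Pool.Agent.H93Z.Rob.cay Pool.Agent.H93Z.Rob.vx_add_self _ (Pool.Agent.H93Z.Rob.gen_ne lab))
    (Pool.Agent.H93Z.Rob.cay_conn _ _ _ (Pool.Agent.H93Z.Rob.gen_all lab hl hμ))
    (Pool.Agent.H93Z.Rob.cay_trans _ _ _) Pool.Agent.H93Z.Rob.MixP (fun _ _ => Iff.rfl)
    (Pool.Agent.H93Z.Rob.Wm (Pool.Agent.H93Z.Rob.gen lab) Pool.Agent.H93Z.Rob.wt)
    (Pool.Agent.H93Z.Rob.Wm_symm Pool.Agent.H93Z.Rob.vx_add_self _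
      (Pool.Agent.H93Z.Rob.wt_symm lab))
    (by
      rintro a b ⟨s, rfl⟩
      rw [Pool.Agent.H93Z.Rob.Wm_adj hg]
      exact ⟨le_trans (by norm_num) (Pool.Agent.H93Z.Rob.wt_ge a s),
        Pool.Agent.H93Z.Rob.wt_le a s⟩)
    (fun a b hab => Pool.Agent.H93Z.Rob.Wm_nadj _ _ hab) t
  refine h2 (h3.1 ?_)
  convert h1 using 1
  funext a b
  split_ifs with hab
  · obtain ⟨s, rfl⟩ := hab
    rw [Pool.Agent.H93Z.Rob.Wm_adj hg]
  · exact (Pool.Agent.H93Z.Rob.Wm_nadj _ _ hab).symm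

end Pool.Agent.S19420
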