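import Pool.Statements.S19424
import Pool.Agent.H179Z.NoisyNil

set_option autoImplicit false
open MeasureTheory Filter Topology
open Pool Pool.MP_798553_pr

namespace Pool.Agent.S19424

/-- The negation of the preceding statement: For every nilpotent cellular automaton on ℤ^d with finite alphabet and every positive cellwise noise matrix, the noisy dynamics (CA then independent noise) has a probability measure to which all initial measures converge weakly. -/
theorem result :
    ¬ (∀ (d q : ℕ) (N : Finset (Fin d → ℤ)) (f : (N → Fin q) → Fin q)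
    (F : ((Fin d → ℤ) → Fin q) → ((Fin d → ℤ) → Fin q)),
    (∀ x i, F x i = f (fun v => x (i + v.1))) →
    (∃ n : ℕ, ∃ a : Fin q, ∀ x, F^[n] x = fun _ => a) →
    ∀ θ : Fin q → PMF (Fin q), (∀ a b, θ a b ≠ 0) →
    ∃ ν : Measure ((Fin d → ℤ) → Fin q), IsProbabilityMeasure ν ∧
      ∀ μ : Measure ((Fin d → ℤ) → Fin q), IsProbabilityMeasure μ →
        ∀ (S : Finset (Fin d → ℤ)) (c : (Fin d → ℤ) → Fin q),
          Tendsto (fun n : ℕ =>
              ((fun m : Measure ((Fin d → ℤ) → Fin q) =>
                  m.bind (fun x => Measure.infinitePi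
                    (fun i : Fin d → ℤ => (θ (F x i)).toMeasure)))^[n] μ)
                {y | ∀ i ∈ S, y i = c i})
            atTop (𝓝 (ν {y | ∀ i ∈ S, y i = c i}))) := by
  intro h
  open Pool.Agent.H179Z.NoisyNil in
  obtain ⟨ν, -, hν⟩ := h 2 3 nb rule F (fun _ _ => rfl) ⟨2, 0, F_nil⟩ θ θ_pos
  have e : {y : (Fin 2 → ℤ) → Fin 3 | ∀ i ∈ ({![0, 0]} : Finset (Fin 2 → ℤ)), y i = (fun _ => 2) i} =
      {y | y ![0, 0] = 2} := by
    ext y
    simp
  have h0 := hν (Measure.dirac (fun _ => 0)) inferInstance {![0, 0]} (fun _ => 2)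
  have h1 := hν (Measure.dirac (fun _ => 2)) inferInstance {![0, 0]} (fun _ => 2)
  rw [e] at h0 h1
  exact Pool.Agent.H179Z.NoisyNil.no_limit _ h0 h1

end Pool.Agent.S19424
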