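import Pool.Statements.S19470
import Pool.Agent.H222Z.PosAssoc

set_option autoImplicit false
open Pool Pool.MP_8e1c75_pr

namespace Pool.Agent.S19470

/-- The negation of the preceding statement: For every finite bipartite graph with side A, every q ≥ 3, every color c, and all increasing X, Y on sets, E[X·Y] ≥ E[X]·E[Y] for the set of A-vertices colored c under a uniformly random proper q-coloring. -/
theorem result :
    ¬ (∀ (V : Type) [Fintype V] [DecidableEq V] (G : SimpleGraph V) [DecidableRel G.Adj]
    (A : Finset V),
    (∀ v w : V, G.Adj v w → (v ∈ A ↔ w ∉ A)) →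
    ∀ (q : ℕ), 3 ≤ q → ∀ (c : Fin q) (X Y : Finset V → ℝ), Monotone X → Monotone Y →
    (((Finset.univ : Finset (V → Fin q)).filter
          (fun f => ∀ v w : V, G.Adj v w → f v ≠ f w)).card : ℝ) *
      (∑ f ∈ (Finset.univ : Finset (V → Fin q)).filter
          (fun f => ∀ v w : V, G.Adj v w → f v ≠ f w),
        X (A.filter (fun v => f v = c)) * Y (A.filter (fun v => f v = c)))
    ≥ (∑ f ∈ (Finset.univ : Finset (V → Fin q)).filter
          (fun f => ∀ v w : V, G.Adj v w → f v ≠ f w),
        X (A.filter (fun v => f v = c))) *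
      (∑ f ∈ (Finset.univ : Finset (V → Fin q)).filter
          (fun f => ∀ v w : V, G.Adj v w → f v ≠ f w),
        Y (A.filter (fun v => f v = c)))) :=
  Pool.Agent.H222Z.PosAssoc.main

end Pool.Agent.S19470
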