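import Pool.Statements.S19489
import Pool.Agent.H648Z.TA.Perm

set_option autoImplicit false
open Classical
open Pool Pool.MP_9492fd_pr

namespace Pool.Agent.S19489

/-- In the n-species TASEP on a ring of n sites (larger species at a site swaps with a smaller one to its right at rate 1), any stationary law gives probability 1/n^r that sites 1..r carry i_1..i_r whenever i_a+1<i_{a+1}. -/
theorem result :
    ∀ n : ℕ, ∀ π : Equiv.Perm (Fin n) → ℝ,
      (∀ σ, 0 ≤ π σ) →
      (∑ σ, π σ) = 1 →
      (∀ σ : Equiv.Perm (Fin n),
        (∑ k : Fin n, (if σ (finRotate n k) < σ k then π σ else 0)) =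
          ∑ k : Fin n, (if σ k < σ (finRotate n k)
            then π (σ * Equiv.swap k (finRotate n k)) else 0)) →
      ∀ r : ℕ, r ≤ n →
      ∀ i : Fin r → Fin n,
        (∀ a b : Fin r, a.val + 1 = b.val → (i a).val + 1 < (i b).val) →
        (∑ σ ∈ Finset.univ.filter
            (fun σ : Equiv.Perm (Fin n) =>
              ∀ p : Fin n, ∀ a : Fin r, p.val = a.val → σ p = i a),
          π σ) = 1 / (n : ℝ) ^ r := by
  intro n π _ hsum hbal r
  induction r with
  | zero =>
    intro _ i _
    rw [Finset.filter_true_of_mem (fun _ _ _ a => a.elim0), hsum]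
    simp
  | succ r ih =>
    intro hr i hi
    have h : r < n := hr
    have hn : (0 : ℝ) < n := by exact_mod_cast (show 0 < n by omega)
    have hmono : ∀ (d : ℕ) (a b : Fin (r + 1)), a.val + d + 1 = b.val → (i a).val + 1 < (i b).val := by
      intro d
      induction d with
      | zero => intro a b hab; exact hi a b hab
      | succ d ihd =>
        intro a b hab
        have h1 := ihd a ⟨a.val + d + 1, by have := b.2; omega⟩ rfl
        have h2 := hi ⟨a.val + d + 1, by have := b.2; omega⟩ b (by simp only; omega)
        omega
    have key := Pool.Agent.H648Z.TA.perm_main n π hbal r h (fun a => i a.castSucc) (i (Fin.last r))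
      (fun a => hmono (r - a.val - 1) a.castSucc (Fin.last r) (by
        have := a.2
        simp only [Fin.val_castSucc, Fin.val_last]
        omega))
    have ih' := ih h.le (fun a => i a.castSucc) (fun a b hab => hi a.castSucc b.castSucc hab)
    rw [Pool.Agent.H648Z.TA.sum_filter_eq] at ih' ⊢
    have e1 : ∀ σ : Equiv.Perm (Fin n), (∀ p : Fin n, ∀ a : Fin r, p.val = a.val → σ p = i a.castSucc) ↔
        ∀ a : Fin r, σ (Fin.castLE h.le a) = i a.castSucc := by
      intro σ
      constructor
      · intro h1 a
        exact h1 _ a rfl
      · intro h1 p a hp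
        have : p = Fin.castLE h.le a := Fin.ext hp
        rw [this]
        exact h1 a
    have e2 : ∀ σ : Equiv.Perm (Fin n), (∀ p : Fin n, ∀ a : Fin (r + 1), p.val = a.val → σ p = i a) ↔
        ((∀ a : Fin r, σ (Fin.castLE h.le a) = i a.castSucc) ∧ σ ⟨r, h⟩ = i (Fin.last r)) := by
      intro σ
      constructor
      · intro h1
        exact ⟨fun a => h1 _ a.castSucc rfl, h1 _ (Fin.last r) rfl⟩
      · rintro ⟨h1, h2⟩ p a hp
        induction a using Fin.lastCases with
        | last =>
          have : p = ⟨r, h⟩ := Fin.ext hp
          rw [this]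
          exact h2
        | cast a =>
          have : p = Fin.castLE h.le a := Fin.ext hp
          rw [this]
          exact h1 a
    simp only [e1] at ih'
    simp only [e2]
    rw [ih'] at key
    rw [pow_succ]
    field_simp at key ⊢
    linarith

end Pool.Agent.S19489
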