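import Pool.Statements.S19593
import Pool.Agent.H536Z.Three

set_option autoImplicit false
open MeasureTheory ProbabilityTheory
open Pool Pool.MP_b9fdbf_pr

namespace Pool.Agent.S19593

/-- In ℤ³ worm percolation (Poisson(v) worms per site, lengths i.i.d. with m(ℓ)≍ℓ^{-β}, traces of simple random walks), some v>0 gives zero probability of an infinite occupied path exactly when β ≥ 5/2. -/
theorem result :
    ∀ (β : ℝ) (m : PMF ℕ), m 0 = 0 →
      (∃ c C : ℝ, 0 < c ∧ 0 < C ∧ ∀ ℓ : ℕ, 1 ≤ ℓ →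
          c * (ℓ : ℝ) ^ (-β) ≤ (m ℓ).toReal ∧ (m ℓ).toReal ≤ C * (ℓ : ℝ) ^ (-β)) →
      ((∃ v : NNReal, 0 < v ∧
          ((Measure.infinitePi (fun _ : ℤ × ℤ × ℤ => (poissonPMF v).toMeasure)).prod
            ((Measure.infinitePi (fun _ : (ℤ × ℤ × ℤ) × ℕ => m.toMeasure)).prod
              (Measure.infinitePi
                (fun _ : (ℤ × ℤ × ℤ) × ℕ × ℕ => (PMF.uniformOfFintype (Fin 6)).toMeasure))))
          {ω : (ℤ × ℤ × ℤ → ℕ) × ((ℤ × ℤ × ℤ) × ℕ → ℕ) × ((ℤ × ℤ × ℤ) × ℕ × ℕ → Fin 6) |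
            ∃ p : ℕ → ℤ × ℤ × ℤ, Function.Injective p ∧ ∀ n : ℕ,
              |(p (n + 1)).1 - (p n).1| + |(p (n + 1)).2.1 - (p n).2.1|
                  + |(p (n + 1)).2.2 - (p n).2.2| = 1 ∧
              ∃ x : ℤ × ℤ × ℤ, ∃ i : ℕ, i < ω.1 x ∧ ∃ j : ℕ, j < ω.2.1 (x, i) ∧
                p n = x + ∑ k ∈ Finset.range j,
                  (![(1, 0, 0), (-1, 0, 0), (0, 1, 0), (0, -1, 0), (0, 0, 1), (0, 0, -1)] :
                      Fin 6 → ℤ × ℤ × ℤ) (ω.2.2 (x, i, k))} = 0)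
        ↔ (5 / 2 : ℝ) ≤ β) := by
  rintro β m _ ⟨c, C, hc, hC, hb⟩
  have hM : ∀ v : NNReal, _ := fun v => H536Z.pmf_model H536Z.si3 1 H536Z.io3.toEquiv m
    (poissonPMF v).toMeasure (v := v) v.2 fun j => by
      rw [PMF.toMeasure_apply_singleton _ _ MeasurableSet.of_discrete]; rfl
  have hn1 : ∀ n : ℕ, (1 : ℝ) ≤ (n : ℝ) + 1 := fun n => by
    have : (0 : ℝ) ≤ n := Nat.cast_nonneg n
    linarith
  constructor
  · rintro ⟨v, hv, h⟩
    by_contra hlt
    have hlt : β < 5 / 2 := not_le.1 hlt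
    have h3 := H536Z.perc_heavy (d := 3) (by norm_num) (by norm_num) (a := 1 / 2) (c := c)
      (β := max β 0) (by norm_num) (by norm_num) (by norm_num) hc (le_max_right _ _)
      (by have : max β 0 < 5 / 2 := max_lt hlt (by norm_num)
          linarith)
      (q := fun n => (m (n + 1)).toReal) (fun n => by
        have h1 := (hb (n + 1) (by omega)).1
        push_cast at h1
        refine le_trans (mul_le_mul_of_nonneg_left ?_ hc.le) h1
        exact Real.rpow_le_rpow_of_exponent_le (hn1 n) (neg_le_neg (le_max_left _ _)))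
      (v := v) hv _ _ (hM v)
    refine h3 (le_antisymm (le_trans (measure_mono ?_) h.le) bot_le)
    exact fun ω hω => (H536Z.perc_iff_path3 ω).2 hω
  · intro h3
    have hcr := H536Z.crit_three (q := fun n => (m (n + 1)).toReal)
      (fun n => ENNReal.toReal_nonneg) hC.le (fun n => by
      have h1 := (hb (n + 1) (by omega)).2
      push_cast at h1
      have hn := hn1 n
      have h2 : ((n : ℝ) + 1) ^ (-β) ≤ ((n : ℝ) + 1) ^ (-(5 / 2 : ℝ)) :=
        Real.rpow_le_rpow_of_exponent_le hn (by linarith)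
      have h4 : ((n : ℝ) + 1) ^ (-(5 / 2 : ℝ)) * (((n : ℝ) + 1) ^ 2 * √((n : ℝ) + 1)) = 1 := by
        rw [Real.sqrt_eq_rpow, ← Real.rpow_natCast, ← Real.rpow_add (by linarith),
          ← Real.rpow_add (by linarith)]
        norm_num
      calc (m (n + 1)).toReal * (((n : ℝ) + 1) ^ 2 * √((n : ℝ) + 1)) ≤
            C * ((n : ℝ) + 1) ^ (-(5 / 2 : ℝ)) * (((n : ℝ) + 1) ^ 2 * √((n : ℝ) + 1)) := by
            gcongr; exact h1.trans (by gcongr)
        _ = C := by rw [mul_assoc, h4, mul_one])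
    obtain ⟨v0, hv0, hv⟩ := H536Z.nonperc_crit (d := 3) (by norm_num) (by norm_num)
      (fun n => (m (n + 1)).toReal) (fun n => ENNReal.toReal_nonneg) (H536Z.pmf_sum_le m 1)
      (by positivity) hcr.1 hcr.2
    refine ⟨⟨v0, hv0.le⟩, hv0, ?_⟩
    refine le_antisymm (le_trans (measure_mono ?_)
      (hv v0 hv0.le le_rfl _ _ _ (hM ⟨v0, hv0.le⟩)).le) bot_le
    exact fun ω hω => (H536Z.perc_iff_path3 ω).1 hω

end Pool.Agent.S19593
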