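import Pool.Statements.S19602
import Pool.Agent.H433Z.SandMain

set_option autoImplicit false
open MeasureTheory
open Pool Pool.MP_baa7da_pr

namespace Pool.Agent.S19602

/-- The negation of the preceding statement: On every infinite connected bounded-degree graph, if masses are i.i.d. with mean 1 and infinite second moment, then almost surely no nonnegative odometer stabilizes the divisible sandpile, i.e. it explodes. -/
theorem result :
    ¬ (∀ (V : Type) [Infinite V] (G : SimpleGraph V) [G.LocallyFinite],
      G.Connected → (∃ D : ℕ, ∀ x, G.degree x ≤ D) →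
      ∀ (ν : Measure ℝ) [IsProbabilityMeasure ν],
        Integrable (fun t : ℝ => t) ν →
        ∫ t, t ∂ν = 1 →
        ¬ Integrable (fun t : ℝ => t ^ 2) ν →
        ∀ᵐ σ ∂(Measure.infinitePi (fun _ : V => ν)),
          ¬ ∃ u : V → ℝ, (∀ x, 0 ≤ u x) ∧
            ∀ x, σ x + (∑ y ∈ G.neighborFinset x, u y / (G.degree y : ℝ)) - u x ≤ 1) := by
  intro h
  exact H433Z.Sand.not_ae_explodes (h H433Z.Sand.Vt H433Z.Sand.Gr H433Z.Sand.Gr_connected
    ⟨4, fun x => by
      rw [← SimpleGraph.card_neighborFinset_eq_degree, H433Z.Sand.neighborFinset_eq]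
      exact H433Z.Sand.card_nbr_le x⟩
    H433Z.Sand.nu H433Z.Sand.integrable_id_nu H433Z.Sand.mean_nu H433Z.Sand.not_integrable_sq)

end Pool.Agent.S19602
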