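import Pool.Statements.S19645
import Pool.Agent.H216Z.SoldProb

set_option autoImplicit false
open MeasureTheory ProbabilityTheory Filter Topology
open Pool Pool.MP_cdca83_pr

namespace Pool.Agent.S19645

/-- For the soldiers automaton with noise only toward minus (rate ε>0) or only toward plus (rate δ>0), from any initial law each cell's probability of the opposite state tends to 0, i.e. the system is ergodic. -/
theorem result :
  (∀ (Ω : Type) [MeasurableSpace Ω] (P : Measure Ω) [IsProbabilityMeasure P] (ε : ℝ),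
    0 < ε → ε ≤ 1 →
    ∀ (ξ : ℕ → ℤ → Ω → Bool) (X : ℕ → Ω → ℤ → Bool),
    (∀ n i, Measurable (ξ n i)) →
    iIndepFun (fun p : ℕ × ℤ => ξ p.1 p.2) P →
    (∀ n i, P {ω | ξ n i ω = false} = ENNReal.ofReal ε) →
    Measurable (X 0) →
    IndepFun (X 0) (fun ω (p : ℕ × ℤ) => ξ p.1 p.2 ω) P →
    (∀ n ω i, X (n+1) ω i =
      (((X n ω i && (X n ω (i+1) || X n ω (i+3))) ||
        (!X n ω i && X n ω (i-1) && X n ω (i-3))) && ξ n i ω)) →
    ∀ i, Tendsto (fun n => P {ω | X n ω i = true}) atTop (𝓝 0)) ∧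
  (∀ (Ω : Type) [MeasurableSpace Ω] (P : Measure Ω) [IsProbabilityMeasure P] (δ : ℝ),
    0 < δ → δ ≤ 1 →
    ∀ (ξ : ℕ → ℤ → Ω → Bool) (X : ℕ → Ω → ℤ → Bool),
    (∀ n i, Measurable (ξ n i)) →
    iIndepFun (fun p : ℕ × ℤ => ξ p.1 p.2) P →
    (∀ n i, P {ω | ξ n i ω = true} = ENNReal.ofReal δ) →
    Measurable (X 0) →
    IndepFun (X 0) (fun ω (p : ℕ × ℤ) => ξ p.1 p.2 ω) P →
    (∀ n ω i, X (n+1) ω i =
      (((X n ω i && (X n ω (i+1) || X n ω (i+3))) ||
        (!X n ω i && X n ω (i-1) && X n ω (i-3))) || ξ n i ω)) →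
    ∀ i, Tendsto (fun n => P {ω | X n ω i = false}) atTop (𝓝 0)) := by
  refine ⟨?_, ?_⟩
  · intro Ω _ P _ ε h0 h1 ξ X hm hind hc _ _ hX i
    exact Pool.Agent.H216Z.Sold.minus h0 h1 hm hind hc hX i
  · intro Ω _ P _ ε h0 h1 ξ X hm hind hc _ _ hX i
    exact Pool.Agent.H216Z.Sold.plus h0 h1 hm hind hc hX i

end Pool.Agent.S19645
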