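import Pool.Statements.S19710
import Pool.Agent.H793Z.Erg.Final

set_option autoImplicit false
open Classical
open Pool Pool.MP_e8d6cf_pr

namespace Pool.Agent.S19710

/-- The negation of the preceding statement: If L(u)=αu³/3+hu−entropy(u) has exactly two maximisers u1≠u2 on [0,1], then under the graph law ∝exp(h·edges+(α/n)·triangles) on n vertices, 6·triangles/n³ converges in law to κ·δ(u1³)+(1−κ)·δ(u2³), κ as given. -/
theorem result :
    ¬ (∀ α h u₁ u₂ : ℝ,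
      u₁ ∈ Set.Icc (0:ℝ) 1 → u₂ ∈ Set.Icc (0:ℝ) 1 → u₁ ≠ u₂ →
      (∀ v ∈ Set.Icc (0:ℝ) 1,
          α * v ^ 3 / 3 + h * v - (v * Real.log v + (1 - v) * Real.log (1 - v))
            ≤ α * u₁ ^ 3 / 3 + h * u₁ - (u₁ * Real.log u₁ + (1 - u₁) * Real.log (1 - u₁))) →
      (α * u₂ ^ 3 / 3 + h * u₂ - (u₂ * Real.log u₂ + (1 - u₂) * Real.log (1 - u₂))
          = α * u₁ ^ 3 / 3 + h * u₁ - (u₁ * Real.log u₁ + (1 - u₁) * Real.log (1 - u₁))) →
      (∀ v ∈ Set.Icc (0:ℝ) 1,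
          α * v ^ 3 / 3 + h * v - (v * Real.log v + (1 - v) * Real.log (1 - v))
            = α * u₁ ^ 3 / 3 + h * u₁ - (u₁ * Real.log u₁ + (1 - u₁) * Real.log (1 - u₁)) →
          v = u₁ ∨ v = u₂) →
      ∀ f : ℝ → ℝ, Continuous f → (∃ C : ℝ, ∀ x, |f x| ≤ C) →
        Filter.Tendsto
          (fun n : ℕ =>
            (∑ G : SimpleGraph (Fin n),
                Real.exp (h * (G.edgeFinset.card : ℝ) + α / (n : ℝ) * ((G.cliqueFinset 3).card : ℝ))
                  * f (6 * ((G.cliqueFinset 3).card : ℝ) / (n : ℝ) ^ 3))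
            / (∑ G : SimpleGraph (Fin n),
                Real.exp (h * (G.edgeFinset.card : ℝ) + α / (n : ℝ) * ((G.cliqueFinset 3).card : ℝ))))
          Filter.atTop
          (nhds
            ((Real.sqrt ((1 - 2 * α * u₁ ^ 2 * (1 - u₁))⁻¹)
                / (Real.sqrt ((1 - 2 * α * u₁ ^ 2 * (1 - u₁))⁻¹)
                    + Real.sqrt ((1 - 2 * α * u₂ ^ 2 * (1 - u₂))⁻¹))) * f (u₁ ^ 3)
              + (1 - Real.sqrt ((1 - 2 * α * u₁ ^ 2 * (1 - u₁))⁻¹)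
                / (Real.sqrt ((1 - 2 * α * u₁ ^ 2 * (1 - u₁))⁻¹)
                    + Real.sqrt ((1 - 2 * α * u₂ ^ 2 * (1 - u₂))⁻¹))) * f (u₂ ^ 3)))) := by
  intro H
  obtain ⟨h, u₁, u₂, h1, h2, a0, a1, b0, b1, he, hm, hu, hs⟩ := H793Z.Erg.exists_two
  have key := H 10000 h u₁ u₂ ⟨a0.le, by linarith⟩ ⟨by linarith, b1.le⟩ (by linarith) hm he hu
    H793Z.Erg.ff H793Z.Erg.ff_cont ⟨1, H793Z.Erg.ff_abs⟩
  have lim : Filter.Tendsto (fun n : ℕ => 2 * Real.exp (-(n : ℝ))) Filter.atTop (nhds (2 * 0)) :=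
    (Real.tendsto_exp_neg_atTop_nhds_zero.comp tendsto_natCast_atTop_atTop).const_mul 2
  have le := le_of_tendsto_of_tendsto key lim (by
    filter_upwards [Filter.eventually_ge_atTop 2,
      tendsto_natCast_atTop_atTop.eventually_ge_atTop
        (10 ^ 10 * (3 + H793Z.Erg.phi h u₁ / 2))] with n n1 n2
    have r := H793Z.Erg.ratio_le (V := Fin n) h1 a0 a1 b0 b1 he hm hs (by simpa using n1)
      (by simpa using n2)
    simp only [H793Z.Erg.Hm_eq, H793Z.Erg.S3_AX, Fintype.card_fin] at r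
    convert r)
  have f1 : H793Z.Erg.ff (u₁ ^ 3) = 0 := H793Z.Erg.ff_low (by
    have := pow_le_pow_left₀ a0.le a1 3
    linarith)
  have f2 : H793Z.Erg.ff (u₂ ^ 3) = 1 := H793Z.Erg.ff_high (by
    have := pow_le_pow_left₀ (by norm_num) (show (9 / 10 : ℝ) ≤ u₂ by linarith) 3
    linarith)
  rw [f1, f2] at le
  have p1 : 0 < 1 - 2 * 10000 * u₁ ^ 2 * (1 - u₁) := by nlinarith [mul_pos a0 a0]
  have p2 : 0 < 1 - 2 * 10000 * u₂ ^ 2 * (1 - u₂) := by
    have : u₂ ^ 2 ≤ 1 := by nlinarith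
    nlinarith [sq_nonneg u₂]
  have s1 := Real.sqrt_pos.2 (inv_pos.2 p1)
  have s2 := Real.sqrt_pos.2 (inv_pos.2 p2)
  have s3 := (div_lt_one (add_pos s1 s2)).2 (lt_add_of_pos_right _ s2)
  linarith

end Pool.Agent.S19710
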