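import Pool.Statements.S19717
import Pool.Agent.H550Z.Gr.Final

set_option autoImplicit false
open MeasureTheory Filter Topology Classical
open Pool Pool.MP_eaf82e_pr

namespace Pool.Agent.S19717

/-- For every symmetric measurable graphon W with values bounded strictly between 0 and 1, and every ε>0, the probability that the chromatic number of the n-vertex W-random graph lies within a factor 1±ε of φ_*(W)·n/(2 log n) tends to 1. -/
theorem result :
    ∀ W : ℝ → ℝ → ℝ, Measurable (Function.uncurry W) → (∀ x y, W x y = W y x) →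
    (∃ c d : ℝ, 0 < c ∧ d < 1 ∧
      ∀ x ∈ Set.Icc (0:ℝ) 1, ∀ y ∈ Set.Icc (0:ℝ) 1, c ≤ W x y ∧ W x y ≤ d) →
    ∀ φ : Measure ℝ → ℝ,
      (∀ μ : Measure ℝ, φ μ = sSup {r : ℝ | ∃ S : Set ℝ, MeasurableSet S ∧ 0 < μ S ∧
        r = (μ S).toReal⁻¹ * ∫ x in S, (∫ y in S, Real.log (1 / (1 - W x y)) ∂μ) ∂μ}) →
    ∀ Φ : ℝ,
      Φ = sInf {t : ℝ | ∃ k : ℕ, ∃ ν : Fin k → Measure ℝ, ∃ α : Fin k → ℝ,
        (∀ i, IsProbabilityMeasure (ν i)) ∧ (∀ i, ν i (Set.Icc (0:ℝ) 1)ᶜ = 0) ∧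
        (∀ i, 0 ≤ α i) ∧ ∑ i, α i = 1 ∧
        ∑ i, ENNReal.ofReal (α i) • ν i = volume.restrict (Set.Icc (0:ℝ) 1) ∧
        t = ∑ i, α i * φ (ν i)} →
    ∀ ε : ℝ, 0 < ε →
      Tendsto (fun n : ℕ =>
        ∫⁻ x in Set.univ.pi (fun _ : Fin n => Set.Icc (0:ℝ) 1),
          ∑' G : SimpleGraph (Fin n),
            (if (1 - ε) * (Φ * n / (2 * Real.log n)) ≤ (G.chromaticNumber.toNat : ℝ) ∧
                (G.chromaticNumber.toNat : ℝ) ≤ (1 + ε) * (Φ * n / (2 * Real.log n))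
             then ∏ i : Fin n, ∏ j : Fin n,
               (if i < j then
                  (if G.Adj i j then ENNReal.ofReal (W (x i) (x j))
                   else ENNReal.ofReal (1 - W (x i) (x j)))
                else 1)
             else 0))
        atTop (𝓝 1) := by
  rintro W h1 h2 ⟨c, d, hc, hd, h3⟩ φ hφ Φ hΦ ε hε
  obtain ⟨l, m, M, hK, e1, e2⟩ := Pool.Agent.H550Z.Gr.exists_ker W h1 h2 hc hd h3
  have e3 : φ = Pool.Agent.H550Z.Gr.ph fun x y => Real.log (1 / (1 - W x y)) := funext hφ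
  have e4 : Φ = Pool.Agent.H550Z.Gr.Phi l := by
    rw [← Pool.Agent.H550Z.Gr.Phi_congr e1, hΦ, e3]
    rfl
  have t1 := ENNReal.tendsto_ofReal (hK.both hε)
  rw [ENNReal.ofReal_one] at t1
  refine t1.congr fun n => ?_
  rw [e4]
  convert (hK.lint (n := n) W e2 fun k : ℕ =>
    (1 - ε) * (Pool.Agent.H550Z.Gr.Phi l * n / (2 * Real.log n)) ≤ (k : ℝ) ∧
      (k : ℝ) ≤ (1 + ε) * (Pool.Agent.H550Z.Gr.Phi l * n / (2 * Real.log n))).symm

end Pool.Agent.S19717
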