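import Pool.Statements.S19740
import Pool.Agent.H131Z.HitProb

set_option autoImplicit false
open scoped Classical
open Pool Pool.MP_f2f003_pr

namespace Pool.Agent.S19740

/-- The negation of the preceding statement: For every connected graphon W on a probability space and every K, in the W-edge-incremental process on n i.i.d. typed vertices, the probability that the first time the graph is K-connected equals the first time its minimum degree is at least K tends to 1. -/
theorem result :
    ¬ (∀ (Ω : Type) [MeasurableSpace Ω] (μ : MeasureTheory.Measure Ω) [MeasureTheory.IsProbabilityMeasure μ]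
    (W : Ω → Ω → ℝ), Measurable (Function.uncurry W) → (∀ a b, W a b = W b a) →
    (∀ a b, 0 ≤ W a b ∧ W a b ≤ 1) →
    (∀ A : Set Ω, MeasurableSet A → 0 < μ A → μ A < 1 →
      0 < ∫ p in A ×ˢ Aᶜ, W p.1 p.2 ∂(μ.prod μ)) →
    ∀ K : ℕ, Filter.Tendsto (fun n : ℕ =>
      ∫ x : Fin n → Ω,
        ∑ l ∈ (((Finset.univ : Finset (Fin n × Fin n)).filter (fun p => p.1 < p.2)).toList.permutations.toFinset.filter
          (fun l : List (Fin n × Fin n) =>
            sInf {t : ℕ | t ≤ l.length ∧ K < n ∧ ∀ S : Finset (Fin n), S.card < K →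
                ((SimpleGraph.fromRel (fun i j : Fin n => (i, j) ∈ l.take t)).induce
                  ((↑S : Set (Fin n))ᶜ)).Connected}
            = sInf {t : ℕ | t ≤ l.length ∧ ∀ v : Fin n,
                K ≤ (SimpleGraph.fromRel (fun i j : Fin n => (i, j) ∈ l.take t)).degree v})),
          ∏ t ∈ Finset.range l.length,
            (if 0 < ((l.drop t).map (fun p => W (x p.1) (x p.2))).sum
              then (((l.drop t).take 1).map (fun p => W (x p.1) (x p.2))).sum /
                ((l.drop t).map (fun p => W (x p.1) (x p.2))).sum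
              else 1 / ((l.drop t).length : ℝ))
        ∂(MeasureTheory.Measure.pi (fun _ : Fin n => μ)))
      Filter.atTop (nhds 1)) := by
  intro h
  -- atomless space: geometric types times an unused uniform coordinate
  let p : unitInterval := ⟨99 / 100, by norm_num, by norm_num⟩
  have hp : p ≠ 0 := by
    intro h0
    have := congrArg Subtype.val h0
    norm_num [p] at this
  let μ : MeasureTheory.Measure (ℕ × unitInterval) :=
    (ProbabilityTheory.geometricMeasure p).prod MeasureTheory.volume
  let τ : ℕ × unitInterval → ℕ := Prod.fst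
  have hτ : Measurable τ := measurable_fst
  have hq : ∀ k, μ.real {a | τ a = k} = 99 / 100 ^ (k + 1) := by
    intro k
    have e : {a | τ a = k} = ({k} : Set ℕ) ×ˢ (Set.univ : Set unitInterval) := by
      ext a; simp [τ]
    rw [e, MeasureTheory.measureReal_def, MeasureTheory.Measure.prod_prod,
      MeasureTheory.measure_univ, mul_one, ← MeasureTheory.measureReal_def,
      ProbabilityTheory.geometricMeasure_real_singleton hp]
    have : (1 - (p : ℝ)) = 1 / 100 := by norm_num [p]
    rw [this]
    simp only [p]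
    field_simp
    rw [one_div, inv_pow, pow_succ, ← mul_assoc, inv_mul_cancel₀ (by positivity), one_mul]
  have ht := h (ℕ × unitInterval) μ (H131Z.Hit.Wg τ) (H131Z.Hit.Wg_measurable τ hτ)
    (H131Z.Hit.Wg_symm τ) (H131Z.Hit.Wg_mem τ) (H131Z.Hit.Wg_connected μ τ hτ hq) 1
  have hev := ht.eventually (lt_mem_nhds (show (6 / 10 : ℝ) < 1 by norm_num))
  obtain ⟨N, hN⟩ := Filter.eventually_atTop.1 hev
  set m := 2 * N + 1 with hm
  set r := 5 * 100 ^ m with hr
  have hNr : N ≤ r + r := by
    have : m < 100 ^ m := Nat.lt_pow_self (by norm_num)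
    omega
  have hr1 : 1 < r + r := by
    have : 0 < 100 ^ m := by positivity
    omega
  have hlt := hN (r + r) hNr
  let H1 : Finset (Fin (r + r)) := Finset.univ.map (Fin.castAddEmb r)
  let H2 : Finset (Fin (r + r)) := Finset.univ.map (Fin.natAddEmb r)
  have hd : Disjoint H1 H2 := by
    rw [Finset.disjoint_left]
    intro a h1 h2
    obtain ⟨i, -, rfl⟩ := Finset.mem_map.1 h1
    obtain ⟨j, -, hj⟩ := Finset.mem_map.1 h2
    have := congrArg Fin.val hj
    simp at this
    omega
  have hB := H131Z.Hit.Bad_le μ τ hτ hq m (n := r + r) (by omega) H1 H2 (by simp [H1, hr])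
    (by simp [H2, hr])
  have hmeas := H131Z.Hit.measurable_Bad τ hτ H1 H2 m
  refine absurd hlt (not_lt.2 (le_trans ?_ hB))
  rw [← MeasureTheory.integral_indicator_one hmeas]
  refine MeasureTheory.integral_mono_of_nonneg (Filter.Eventually.of_forall fun x => ?_)
    ((MeasureTheory.integrable_const (1 : ℝ)).indicator hmeas)
    (Filter.Eventually.of_forall fun x => ?_)
  · exact Finset.sum_nonneg fun l _ =>
      H131Z.Hit.wt_nonneg (fun q : Fin (r + r) × Fin (r + r) => H131Z.Hit.Wg τ (x q.1) (x q.2))
        (fun q => (H131Z.Hit.Wg_mem τ _ _).1) l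
  · by_cases hx : x ∈ H131Z.Hit.Bad τ H1 H2 m
    · simp only [Set.indicator_of_mem hx, Pi.one_apply]
      refine le_trans (Finset.sum_le_sum_of_subset_of_nonneg (Finset.filter_subset _ _)
        (fun l _ _ => H131Z.Hit.wt_nonneg
          (fun q : Fin (r + r) × Fin (r + r) => H131Z.Hit.Wg τ (x q.1) (x q.2))
          (fun q => (H131Z.Hit.Wg_mem τ _ _).1) l)) ?_
      exact H131Z.Hit.sum_wt_le_one
        (fun q : Fin (r + r) × Fin (r + r) => H131Z.Hit.Wg τ (x q.1) (x q.2))
        (fun q => (H131Z.Hit.Wg_mem τ _ _).1) _ _ (Finset.nodup_toList _) rfl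
    · simp only [Set.indicator_of_notMem hx]
      apply le_of_eq
      refine Finset.sum_eq_zero fun l hl => ?_
      by_contra hne
      rw [Finset.mem_filter, List.mem_toFinset, List.mem_permutations] at hl
      obtain ⟨hperm, heq⟩ := hl
      obtain ⟨g1, ⟨u, hu⟩, ⟨v, hv⟩, g2⟩ :=
        H131Z.Hit.good_struct τ H1 H2 hd m ⟨N, hm⟩ x hx
      refine H131Z.Hit.times_ne hr1 (fun i j => H131Z.Hit.Wg τ (x i) (x j))
        (fun i j => (H131Z.Hit.Wg_mem τ _ _).1) (fun i j => H131Z.Hit.Wg_symm τ _ _) g1
        (fun i => τ (x i) = m) u v hu hv g2 l ?_ hne _ _ (fun t => Iff.rfl) ?_ heq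
      · intro q
        rw [hperm.mem_iff]
        simp
      · intro t ht' hadj
        refine ⟨ht', fun i => ?_⟩
        exact (SimpleGraph.degree_pos_iff_exists_adj _ i).2 (hadj i)

end Pool.Agent.S19740
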